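import Mathlib

set_option autoImplicit false

open Topology Filter Metric Set

namespace Run7.h904.PF

/-- explicit solution of the perturbed affine recursion -/
lemma affine (q us : ℂ) (η : ℝ) (u : ℕ → ℂ) (hfix : q * us + 1 = us) (j : ℕ)
    (h : ∀ i < j, ‖u (i + 1) - q * u i - 1‖ ≤ η) :
    ‖u j - us - q ^ j * (u 0 - us)‖ ≤ η * ∑ i ∈ Finset.range j, ‖q‖ ^ i := by
  induction j with
  | zero => simp
  | succ j ih =>
    have h1 := ih (fun i hi => h i (by omega))
    have h2 := h j (by omega)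
    have h3 : u (j + 1) - us - q ^ (j + 1) * (u 0 - us) =
        q * (u j - us - q ^ j * (u 0 - us)) + (u (j + 1) - q * u j - 1) := by
      rw [pow_succ]
      linear_combination hfix
    rw [h3]
    have h4 : ∑ i ∈ Finset.range (j + 1), ‖q‖ ^ i = ‖q‖ * (∑ i ∈ Finset.range j, ‖q‖ ^ i) + 1 := by
      rw [Finset.sum_range_succ', Finset.mul_sum, pow_zero]
      congr 1
      refine Finset.sum_congr rfl fun i _ => ?_
      rw [pow_succ]; ring
    rw [h4]
    refine (norm_add_le _ _).trans ?_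
    rw [norm_mul]
    have h5 := mul_le_mul_of_nonneg_left h1 (norm_nonneg q)
    nlinarith

/-- perturbations of the recursion `u ↦ u + 1` -/
lemma seqlem (k ε κ : ℝ) (hk : 1 ≤ k) (hε : 0 < ε) (hε1 : ε ≤ 1) (hκ : 0 < κ) :
    ∃ η : ℝ, 0 < η ∧ ∀ U2 U0 : ℝ, 0 < U2 → 0 < U0 → ∃ s0 : ℝ, 0 < s0 ∧ ∀ μ : ℂ, 0 < ‖μ‖ →
      ‖μ‖ < s0 → ε * ‖μ‖ ≤ |μ.re| →
      ∀ u : ℕ → ℂ, U2 < (u 0).re → ‖u 0‖ ≤ U0 →
      (∀ i, U2 < ‖u i‖ → ‖μ‖ * ‖u i‖ < 8 / (k * ε) →
        ‖u (i + 1) - (1 - k * μ) * u i - 1‖ ≤ η) →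
      (μ.re < 0 → ∃ n, (∀ i ≤ n, U2 < ‖u i‖) ∧ (∀ i < n, ‖μ‖ * ‖u i‖ < 8 / (k * ε)) ∧
        8 / (k * ε) ≤ ‖μ‖ * ‖u n‖) ∧
      (0 < μ.re → (∀ i, U2 < ‖u i‖ ∧ ‖μ‖ * ‖u i‖ < 8 / (k * ε)) ∧
        ∃ n, ∀ i ≥ n, ‖k * μ * u i - 1‖ ≤ κ) := by
  have hk0 : 0 < k := by linarith
  refine ⟨min (min (1 / 4) (ε ^ 2 / 384)) (ε * κ / 4), lt_min (lt_min (by norm_num)
    (by positivity)) (by positivity), ?_⟩
  obtain ⟨η, hη⟩ : ∃ η : ℝ, η = min (min (1 / 4) (ε ^ 2 / 384)) (ε * κ / 4) := ⟨_, rfl⟩
  have hη0 : 0 < η := by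
    rw [hη]; exact lt_min (lt_min (by norm_num) (by positivity)) (by positivity)
  have hη1 : η ≤ 1 / 4 := by rw [hη]; exact (min_le_left _ _).trans (min_le_left _ _)
  have hη2 : η ≤ ε ^ 2 / 384 := by rw [hη]; exact (min_le_left _ _).trans (min_le_right _ _)
  have hη3 : η ≤ ε * κ / 4 := by rw [hη]; exact min_le_right _ _
  rw [← hη]
  intro U2 U0 hU2 hU0
  refine ⟨min (min (ε / k) (ε / (192 * k * U0))) (min (ε / (96 * k * U2)) (1 / (8 * k * (U0 + 2)))),
    lt_min (lt_min (by positivity) (by positivity)) (lt_min (by positivity) (by positivity)), ?_⟩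
  intro μ hμ0 hμs hμre u hu0 huU hrec
  obtain ⟨m, hm⟩ : ∃ m : ℝ, m = ‖μ‖ := ⟨_, rfl⟩
  rw [← hm] at hμ0 hμs hμre hrec ⊢
  have hm1 : k * m ≤ ε := by
    have := (hμs.le.trans (min_le_left _ _)).trans (min_le_left _ _)
    rw [le_div_iff₀ hk0] at this
    linarith
  have hm2 : 192 * k * m * U0 ≤ ε := by
    have := (hμs.le.trans (min_le_left _ _)).trans (min_le_right _ _)
    rw [le_div_iff₀ (by positivity)] at this
    linarith
  have hm3 : 96 * k * m * U2 < ε := by
    have := (hμs.trans_le (min_le_right _ _)).trans_le (min_le_left _ _)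
    rw [lt_div_iff₀ (by positivity)] at this
    linarith
  have hm4 : m * (U0 + 2) ≤ 1 / (8 * k) := by
    have := (hμs.le.trans (min_le_right _ _)).trans (min_le_right _ _)
    rw [le_div_iff₀ (by positivity)] at this ⊢
    linarith
  obtain ⟨A, hA⟩ : ∃ A : ℝ, A = 8 / (k * ε) := ⟨_, rfl⟩
  rw [← hA] at hrec ⊢
  have hkA : k * ε * A = 8 := by rw [hA]; field_simp
  have hA1 : 8 ≤ k * A := by
    have : k * ε * A ≤ k * 1 * A := by
      have hA0 : 0 ≤ A := by rw [hA]; positivity
      have h1 : k * ε ≤ k * 1 := mul_le_mul_of_nonneg_left hε1 hk0.le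
      exact mul_le_mul_of_nonneg_right h1 hA0
    linarith
  have hA0 : 0 < A := by rw [hA]; positivity
  obtain ⟨q, hq⟩ : ∃ q : ℂ, q = 1 - k * μ := ⟨_, rfl⟩
  obtain ⟨Q, hQ⟩ : ∃ Q : ℝ, Q = ‖q‖ := ⟨_, rfl⟩
  rw [← hq] at hrec
  have hμne : μ ≠ 0 := by
    intro h0; rw [h0, norm_zero] at hm; linarith
  have hkC : (k : ℂ) ≠ 0 := by exact_mod_cast hk0.ne'
  obtain ⟨us, hus⟩ : ∃ us : ℂ, us = 1 / (k * μ) := ⟨_, rfl⟩
  have hfix : q * us + 1 = us := by
    rw [hq, hus]; field_simp; ring
  have husn : ‖us‖ = 1 / (k * m) := by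
    rw [hus, norm_div, norm_one, norm_mul, ← hm, Complex.norm_of_nonneg hk0.le]
  have hkus : (k : ℂ) * μ * us = 1 := by rw [hus]; field_simp
  -- the number of the first steps
  obtain ⟨j1, hj1a, hj1b⟩ : ∃ j1 : ℕ, 1 / (12 * k) ≤ j1 * m ∧ j1 * m ≤ 1 / (12 * k) + m := by
    refine ⟨⌈1 / (12 * k) / m⌉₊, ?_, ?_⟩
    · rw [← div_le_iff₀ hμ0]; exact Nat.le_ceil _
    · have h1 := (Nat.ceil_lt_add_one (a := 1 / (12 * k) / m) (by positivity)).le
      have h2 := mul_le_mul_of_nonneg_right h1 hμ0.le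
      have h3 : (1 / (12 * k) / m + 1) * m = 1 / (12 * k) + m := by field_simp
      linarith
  -- first phase
  have hph : ∀ j : ℕ, j ≤ j1 → (u 0).re + j / 2 ≤ (u j).re ∧ ‖u j‖ ≤ U0 + 3 / 2 * j := by
    intro j
    induction j with
    | zero => intro _; simp [huU]
    | succ j ih =>
      intro hj
      obtain ⟨h1, h2⟩ := ih (by omega)
      have hj0 : (0 : ℝ) ≤ j := Nat.cast_nonneg j
      have hjm : (j : ℝ) * m ≤ 1 / (12 * k) + m := by
        refine le_trans ?_ hj1b
        have : (j : ℝ) ≤ j1 := by exact_mod_cast (by omega : j ≤ j1)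
        exact mul_le_mul_of_nonneg_right this hμ0.le
      have h3 : m * ‖u j‖ ≤ 1 / (4 * k) := by
        have e1 := mul_le_mul_of_nonneg_left h2 hμ0.le
        have e2 : 1 / (4 * k) = 1 / (8 * k) + 3 / 2 * (1 / (12 * k)) := by field_simp; ring
        rw [e2]
        nlinarith
      have h3' : k * (m * ‖u j‖) ≤ 1 / 4 := by
        have := mul_le_mul_of_nonneg_left h3 hk0.le
        have e : k * (1 / (4 * k)) = 1 / 4 := by field_simp
        linarith
      have h4 : m * ‖u j‖ < A := by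
        by_contra hcon
        push Not at hcon
        have := mul_le_mul_of_nonneg_left hcon hk0.le
        linarith
      have h5 : U2 < ‖u j‖ := by
        have := Complex.re_le_norm (u j)
        linarith
      have h6 := hrec j h5 h4
      have h7 : u (j + 1) = u j + 1 - k * μ * u j + (u (j + 1) - q * u j - 1) := by
        rw [hq]; ring
      have h8 : ‖(k : ℂ) * μ * u j‖ ≤ 1 / 4 := by
        rw [norm_mul, norm_mul, ← hm, Complex.norm_of_nonneg hk0.le, mul_assoc]
        exact h3'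
      constructor
      · have g1 := (abs_le.mp ((Complex.abs_re_le_norm _).trans h8)).2
        have g2 := (abs_le.mp ((Complex.abs_re_le_norm _).trans h6)).1
        have g3 : (u (j + 1)).re = (u j).re + 1 - ((k : ℂ) * μ * u j).re +
            (u (j + 1) - q * u j - 1).re := by
          conv_lhs => rw [h7]
          simp only [Complex.add_re, Complex.sub_re, Complex.one_re]
        rw [g3]
        push_cast
        linarith
      · conv_lhs => rw [h7]
        have g1 := norm_add_le (u j + 1 - k * μ * u j) (u (j + 1) - q * u j - 1)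
        have g2 := norm_sub_le (u j + 1) (k * μ * u j)
        have g3 := norm_add_le (u j) 1
        rw [norm_one] at g3
        push_cast
        linarith
  have hP1 : ∀ j : ℕ, j ≤ j1 → U2 < ‖u j‖ ∧ m * ‖u j‖ < A := by
    intro j hj
    obtain ⟨h1, h2⟩ := hph j hj
    have hj0 : (0 : ℝ) ≤ j := Nat.cast_nonneg j
    have hjm : (j : ℝ) * m ≤ 1 / (12 * k) + m := by
      refine le_trans ?_ hj1b
      have : (j : ℝ) ≤ j1 := by exact_mod_cast hj
      exact mul_le_mul_of_nonneg_right this hμ0.le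
    have h3 : m * ‖u j‖ ≤ 1 / (4 * k) := by
      have e1 := mul_le_mul_of_nonneg_left h2 hμ0.le
      have e2 : 1 / (4 * k) = 1 / (8 * k) + 3 / 2 * (1 / (12 * k)) := by field_simp; ring
      rw [e2]
      nlinarith
    have h3' : k * (m * ‖u j‖) ≤ 1 / 4 := by
      have := mul_le_mul_of_nonneg_left h3 hk0.le
      have e : k * (1 / (4 * k)) = 1 / 4 := by field_simp
      linarith
    constructor
    · have := Complex.re_le_norm (u j)
      linarith
    · by_contra hcon
      push Not at hcon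
      have := mul_le_mul_of_nonneg_left hcon hk0.le
      linarith
  -- the explicit solution
  have hexp : ∀ j : ℕ, (∀ i < j, U2 < ‖u i‖ ∧ m * ‖u i‖ < A) →
      ‖u j - us - q ^ j * (u 0 - us)‖ ≤ η * ∑ i ∈ Finset.range j, Q ^ i := by
    intro j hj
    rw [hQ]
    exact affine q us η u hfix j (fun i hi => hrec i (hj i hi).1 (hj i hi).2)
  have hkm : 0 < k * m := by positivity
  have hQ0 : 0 ≤ Q := by rw [hQ]; exact norm_nonneg _
  constructor
  · -- the fixed point `0` is attracting
    intro hre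
    have hQ1 : 1 + k * ε * m ≤ Q := by
      have h1 : q.re = 1 - k * μ.re := by rw [hq]; simp
      have h2 := Complex.re_le_norm q
      rw [abs_of_neg hre] at hμre
      rw [hQ]
      have h3 := mul_le_mul_of_nonneg_left hμre hk0.le
      nlinarith
    have hkem : 0 < k * ε * m := by positivity
    have hbig : ∀ j : ℕ, j1 ≤ j → (∀ i < j, U2 < ‖u i‖ ∧ m * ‖u i‖ < A) →
        ε / 12 ≤ Q ^ j - 1 ∧ (Q ^ j - 1) / 2 ≤ k * m * ‖u j‖ := by
      intro j hj hP
      have hjm : 1 / (12 * k) ≤ j * m := by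
        refine hj1a.trans ?_
        have : (j1 : ℝ) ≤ j := by exact_mod_cast hj
        exact mul_le_mul_of_nonneg_right this hμ0.le
      have hpow : 1 + j * (k * ε * m) ≤ Q ^ j := by
        refine (one_add_mul_le_pow (a := k * ε * m) (by linarith) j).trans ?_
        exact pow_le_pow_left₀ (by linarith) hQ1 j
      have hlow : ε / 12 ≤ Q ^ j - 1 := by
        have e1 : k * ε * (1 / (12 * k)) = ε / 12 := by field_simp
        have e2 := mul_le_mul_of_nonneg_left hjm (by positivity : 0 ≤ k * ε)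
        nlinarith
      refine ⟨hlow, ?_⟩
      have h1 := hexp j hP
      -- geometric sum
      have h2 : (∑ i ∈ Finset.range j, Q ^ i) * (Q - 1) = Q ^ j - 1 := geom_sum_mul Q j
      have h3 : k * m * (η * ∑ i ∈ Finset.range j, Q ^ i) ≤ (Q ^ j - 1) / 4 := by
        have hS0 : 0 ≤ ∑ i ∈ Finset.range j, Q ^ i := Finset.sum_nonneg fun i _ => by positivity
        have e1 : (∑ i ∈ Finset.range j, Q ^ i) * (k * ε * m) ≤ Q ^ j - 1 := by
          rw [← h2]
          exact mul_le_mul_of_nonneg_left (by linarith) hS0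
        have e2 : 4 * η ≤ ε := by nlinarith
        have e3 : k * m * (η * ∑ i ∈ Finset.range j, Q ^ i) * 4 ≤
            (∑ i ∈ Finset.range j, Q ^ i) * (k * ε * m) := by
          have : k * m * (∑ i ∈ Finset.range j, Q ^ i) * (4 * η) ≤
            k * m * (∑ i ∈ Finset.range j, Q ^ i) * ε :=
            mul_le_mul_of_nonneg_left e2 (by positivity)
          nlinarith
        linarith
      have h4 : us * (1 - q ^ j) = u j - (q ^ j * u 0) - (u j - us - q ^ j * (u 0 - us)) := by ring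
      have h5 : (Q ^ j - 1) ≤ k * m * ‖us * (1 - q ^ j)‖ := by
        rw [norm_mul, husn]
        have e1 : k * m * (1 / (k * m) * ‖1 - q ^ j‖) = ‖1 - q ^ j‖ := by field_simp
        rw [e1]
        have e2 := norm_sub_norm_le (q ^ j) 1
        rw [norm_one, norm_pow, ← hQ, norm_sub_rev] at e2
        exact e2
      have h6 : ‖us * (1 - q ^ j)‖ ≤ ‖u j‖ + Q ^ j * U0 + η * ∑ i ∈ Finset.range j, Q ^ i := by
        rw [h4]
        refine (norm_sub_le _ _).trans (add_le_add ((norm_sub_le _ _).trans ?_) h1)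
        rw [norm_mul, norm_pow, ← hQ]
        have : Q ^ j * ‖u 0‖ ≤ Q ^ j * U0 := mul_le_mul_of_nonneg_left huU (by positivity)
        linarith
      have h7 : k * m * (Q ^ j * U0) ≤ (Q ^ j - 1) / 4 := by
        have e1 : ε * Q ^ j ≤ 13 * (Q ^ j - 1) := by
          have : ε ≤ 12 * (Q ^ j - 1) := by linarith
          nlinarith
        have e2 : k * m * U0 * 192 ≤ ε := by linarith
        have hQj : 0 ≤ Q ^ j := by positivity
        have e3 : k * m * U0 * 192 * Q ^ j ≤ ε * Q ^ j := mul_le_mul_of_nonneg_right e2 hQj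
        nlinarith
      have h8 := mul_le_mul_of_nonneg_left h6 hkm.le
      nlinarith
    have hU : ∀ j : ℕ, (∀ i < j, U2 < ‖u i‖ ∧ m * ‖u i‖ < A) → U2 < ‖u j‖ := by
      intro j hP
      rcases le_total j j1 with hj | hj
      · exact (hP1 j hj).1
      · obtain ⟨h1, h2⟩ := hbig j hj hP
        by_contra hcon
        push Not at hcon
        have h3 := mul_le_mul_of_nonneg_left hcon hkm.le
        nlinarith
    have hex : ∃ n, A ≤ m * ‖u n‖ := by
      by_contra hcon
      push Not at hcon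
      have hP : ∀ j : ℕ, U2 < ‖u j‖ ∧ m * ‖u j‖ < A := by
        intro j
        induction j using Nat.strong_induction_on with
        | _ j ih => exact ⟨hU j ih, hcon j⟩
      have hQgt : 1 < Q := by linarith
      obtain ⟨n, hn⟩ := ((tendsto_pow_atTop_atTop_of_one_lt hQgt).eventually_ge_atTop
        (2 * (k * A) + 2)).exists_forall_of_atTop
      have h1 := hn (max n j1) (le_max_left _ _)
      have h2 := (hbig (max n j1) (le_max_right _ _) (fun i _ => hP i)).2
      have h3 := mul_le_mul_of_nonneg_left (hP (max n j1)).2.le hk0.le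
      nlinarith
    classical
    obtain ⟨n, hn, hmin⟩ : ∃ n : ℕ, A ≤ m * ‖u n‖ ∧ ∀ j < n, m * ‖u j‖ < A :=
      ⟨Nat.find hex, Nat.find_spec hex, fun j hj => not_le.mp (Nat.find_min hex hj)⟩
    have hP : ∀ j : ℕ, j ≤ n → U2 < ‖u j‖ := by
      intro j
      induction j using Nat.strong_induction_on with
      | _ j ih =>
        intro hj
        exact hU j (fun i hi => ⟨ih i hi (by omega), hmin i (by omega)⟩)
    exact ⟨n, hP, hmin, hn⟩
  · -- the fixed point `0` is repelling
    intro hre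
    have hQ1 : Q ≤ 1 - k * ε * m / 2 := by
      have h1 : q.re = 1 - k * μ.re := by rw [hq]; simp
      have h2 : q.im = - (k * μ.im) := by rw [hq]; simp
      have h3 : Q ^ 2 = (1 - k * μ.re) ^ 2 + (k * μ.im) ^ 2 := by
        rw [hQ, ← Complex.normSq_eq_norm_sq, Complex.normSq_apply, h1, h2]; ring
      have h4 : m ^ 2 = μ.re ^ 2 + μ.im ^ 2 := by
        rw [hm, ← Complex.normSq_eq_norm_sq, Complex.normSq_apply]; ring
      rw [abs_of_pos hre] at hμre
      have h5 : Q ^ 2 = 1 - 2 * k * μ.re + (k * m) ^ 2 := by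
        rw [h3, mul_pow k m, h4]; ring
      have h6 : k * (ε * m) ≤ k * μ.re := mul_le_mul_of_nonneg_left hμre hk0.le
      have h7 : (k * m) ^ 2 ≤ ε * (k * m) := by
        rw [pow_two]; exact mul_le_mul_of_nonneg_right hm1 hkm.le
      have h8 : 0 ≤ 1 - k * ε * m / 2 := by nlinarith
      refine abs_le_of_sq_le_sq' ?_ h8 |>.2
      nlinarith [sq_nonneg (k * ε * m)]
    have hx0 : 0 < k * ε * m / 2 := by positivity
    have hQlt : Q < 1 := by linarith
    have hsum : ∀ j : ℕ, k * m * (η * ∑ i ∈ Finset.range j, Q ^ i) ≤ 2 * η / ε := by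
      intro j
      have h2 : (∑ i ∈ Finset.range j, Q ^ i) * (1 - Q) = 1 - Q ^ j := geom_sum_mul_neg Q j
      have hS0 : 0 ≤ ∑ i ∈ Finset.range j, Q ^ i := Finset.sum_nonneg fun i _ => by positivity
      have h3 : (∑ i ∈ Finset.range j, Q ^ i) * (k * ε * m / 2) ≤ 1 := by
        have e1 : (∑ i ∈ Finset.range j, Q ^ i) * (k * ε * m / 2) ≤
            (∑ i ∈ Finset.range j, Q ^ i) * (1 - Q) :=
          mul_le_mul_of_nonneg_left (by linarith) hS0
        have e2 : 0 ≤ Q ^ j := by positivity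
        linarith
      rw [le_div_iff₀ hε]
      have := mul_le_mul_of_nonneg_left h3 (by positivity : 0 ≤ 2 * η)
      nlinarith
    have hsm : 2 * η / ε ≤ ε / 192 := by
      rw [div_le_div_iff₀ hε (by norm_num)]
      nlinarith
    have hkU : k * m * U0 ≤ ε / 192 := by linarith
    have hU0n : ∀ j : ℕ, ‖q ^ j * u 0‖ ≤ U0 := by
      intro j
      rw [norm_mul, norm_pow, ← hQ]
      have : Q ^ j ≤ 1 := pow_le_one₀ hQ0 hQlt.le
      have := mul_le_mul this huU (norm_nonneg _) zero_le_one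
      linarith
    have hbig : ∀ j : ℕ, j1 ≤ j → (∀ i < j, U2 < ‖u i‖ ∧ m * ‖u i‖ < A) →
        U2 < ‖u j‖ ∧ m * ‖u j‖ < A := by
      intro j hj hP
      have hjm : 1 / (12 * k) ≤ j * m := by
        refine hj1a.trans ?_
        have : (j1 : ℝ) ≤ j := by exact_mod_cast hj
        exact mul_le_mul_of_nonneg_right this hμ0.le
      have hQj0 : 0 ≤ Q ^ j := by positivity
      have hQj1 : Q ^ j ≤ 1 := pow_le_one₀ hQ0 hQlt.le
      have hpow : Q ^ j * (1 + ε / 24) ≤ 1 := by
        have e1 : 1 + j * (k * ε * m / 2) ≤ (1 + k * ε * m / 2) ^ j :=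
          one_add_mul_le_pow (by linarith) j
        have e2 : ε / 24 ≤ j * (k * ε * m / 2) := by
          have e3 : k * ε * (1 / (12 * k)) = ε / 12 := by field_simp
          have e4 := mul_le_mul_of_nonneg_left hjm (by positivity : 0 ≤ k * ε)
          nlinarith
        have e3 : Q ^ j ≤ (1 - k * ε * m / 2) ^ j := pow_le_pow_left₀ hQ0 hQ1 j
        have e5 : 0 ≤ 1 - k * ε * m / 2 := le_trans hQ0 hQ1
        calc Q ^ j * (1 + ε / 24) ≤ (1 - k * ε * m / 2) ^ j * (1 + k * ε * m / 2) ^ j :=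
              mul_le_mul e3 (by linarith) (by positivity) (by positivity)
          _ = (1 - (k * ε * m / 2) ^ 2) ^ j := by rw [← mul_pow]; congr 1; ring
          _ ≤ 1 := by
              apply pow_le_one₀
              · have : (k * ε * m / 2) ^ 2 ≤ 1 := by
                  apply pow_le_one₀ hx0.le; linarith
                linarith
              · nlinarith [sq_nonneg (k * ε * m / 2)]
      have hlow : ε / 48 ≤ 1 - Q ^ j := by nlinarith
      have h1 := hexp j hP
      have h3 := hsum j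
      have h4 : us * (1 - q ^ j) = u j - (q ^ j * u 0) - (u j - us - q ^ j * (u 0 - us)) := by ring
      have h5 : (1 - Q ^ j) ≤ k * m * ‖us * (1 - q ^ j)‖ := by
        rw [norm_mul, husn]
        have e1 : k * m * (1 / (k * m) * ‖1 - q ^ j‖) = ‖1 - q ^ j‖ := by field_simp
        rw [e1]
        have e2 := norm_sub_norm_le 1 (q ^ j)
        rw [norm_one, norm_pow, ← hQ] at e2
        exact e2
      have h5' : k * m * ‖us * (1 - q ^ j)‖ ≤ 2 := by
        rw [norm_mul, husn]
        have e1 : k * m * (1 / (k * m) * ‖1 - q ^ j‖) = ‖1 - q ^ j‖ := by field_simp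
        rw [e1]
        have e2 := norm_sub_le 1 (q ^ j)
        rw [norm_one, norm_pow, ← hQ] at e2
        linarith
      have h6 : ‖us * (1 - q ^ j)‖ ≤ ‖u j‖ + U0 + η * ∑ i ∈ Finset.range j, Q ^ i := by
        rw [h4]
        exact (norm_sub_le _ _).trans (add_le_add ((norm_sub_le _ _).trans
          (add_le_add le_rfl (hU0n j))) h1)
      have h6' : ‖u j‖ ≤ ‖us * (1 - q ^ j)‖ + U0 + η * ∑ i ∈ Finset.range j, Q ^ i := by
        have e : u j = us * (1 - q ^ j) + (q ^ j * u 0) + (u j - us - q ^ j * (u 0 - us)) := by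
          ring
        conv_lhs => rw [e]
        exact (norm_add_le _ _).trans (add_le_add ((norm_add_le _ _).trans
          (add_le_add le_rfl (hU0n j))) h1)
      have h8 := mul_le_mul_of_nonneg_left h6 hkm.le
      have h8' := mul_le_mul_of_nonneg_left h6' hkm.le
      constructor
      · by_contra hcon
        push Not at hcon
        have h9 := mul_le_mul_of_nonneg_left hcon hkm.le
        nlinarith
      · by_contra hcon
        push Not at hcon
        have h9 := mul_le_mul_of_nonneg_left hcon hk0.le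
        nlinarith
    have hP : ∀ j : ℕ, U2 < ‖u j‖ ∧ m * ‖u j‖ < A := by
      intro j
      induction j using Nat.strong_induction_on with
      | _ j ih =>
        rcases le_total j j1 with hj | hj
        · exact hP1 j hj
        · exact hbig j hj ih
    refine ⟨hP, ?_⟩
    have hlim : Tendsto (fun j : ℕ => Q ^ j * (k * m * U0 + 1)) atTop (𝓝 0) := by
      have := (tendsto_pow_atTop_nhds_zero_of_lt_one hQ0 hQlt).mul_const (k * m * U0 + 1)
      simpa using this
    obtain ⟨n, hn⟩ := (hlim.eventually (ge_mem_nhds (half_pos hκ))).exists_forall_of_atTop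
    refine ⟨n, fun i hi => ?_⟩
    have h1 := hexp i (fun j _ => hP j)
    have h2 : (k : ℂ) * μ * u i - 1 = k * μ * (q ^ i * u 0) - q ^ i * (k * μ * us) +
        k * μ * (u i - us - q ^ i * (u 0 - us)) + (k * μ * us - 1) := by ring
    rw [h2, hkus, sub_self, add_zero, mul_one]
    have h3 : ‖(k : ℂ) * μ * (q ^ i * u 0) - q ^ i‖ ≤ Q ^ i * (k * m * U0 + 1) := by
      refine (norm_sub_le _ _).trans ?_
      rw [norm_mul, norm_mul, norm_mul, norm_pow, ← hQ, ← hm, Complex.norm_of_nonneg hk0.le]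
      have : k * m * (Q ^ i * ‖u 0‖) ≤ k * m * (Q ^ i * U0) :=
        mul_le_mul_of_nonneg_left (mul_le_mul_of_nonneg_left huU (by positivity)) hkm.le
      nlinarith
    have h4 : ‖(k : ℂ) * μ * (u i - us - q ^ i * (u 0 - us))‖ ≤ 2 * η / ε := by
      rw [norm_mul, norm_mul, ← hm, Complex.norm_of_nonneg hk0.le]
      exact (mul_le_mul_of_nonneg_left h1 hkm.le).trans (hsum i)
    have h5 := hn i hi
    have h6 : 2 * η / ε ≤ κ / 2 := by
      rw [div_le_div_iff₀ hε (by norm_num)]
      nlinarith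
    refine (norm_add_le _ _).trans ?_
    linarith

end Run7.h904.PF
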