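import Mathlib
import Pool.Agent.H713R5.QJ.TPBL
import Pool.Agent.Run7.h904.PSeq

set_option autoImplicit false

open Topology Filter Metric Set

namespace Run7.h904.PF

open Pool.Agent.H713R5.QJ.PBLAux (quad invpow uu ord)

lemma uu_norm (k : ℕ) (al z : ℂ) : ‖uu k al z‖ = 1 / (k * ‖al‖ * ‖z‖ ^ k) := by
  unfold uu
  rw [norm_div, norm_neg, norm_one, norm_mul, norm_mul, norm_pow, Complex.norm_natCast]

lemma core2 (k : ℕ) (al : ℂ) (hk : 1 ≤ k) (hal : al ≠ 0) (CA C1 r1 c1 η : ℝ) (hCA : 0 ≤ CA)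
    (hC1 : 0 ≤ C1) (hr1 : 0 < r1) (hc1 : 0 < c1) (hη : 0 < η) :
    ∃ r2 : ℝ, 0 < r2 ∧ r2 ≤ r1 ∧ ∀ μ : ℂ, ∀ z w : ℂ, z ≠ 0 → ‖z‖ ≤ r2 →
      ‖w - z - al * z ^ (k + 1) - μ * z‖ ≤ CA * ‖z‖ ^ (k + 2) + C1 * ‖μ‖ * ‖z‖ ^ 2 →
      c1 * ‖μ‖ < ‖z‖ ^ k → w ≠ 0 ∧ ‖uu k al w - (1 - k * μ) * uu k al z - 1‖ ≤ η ∧
        ‖w - z‖ ≤ η * ‖z‖ := by
  obtain ⟨K, hK, hKb⟩ := invpow k
  obtain ⟨a, ha⟩ : ∃ a : ℝ, a = ‖al‖ := ⟨_, rfl⟩
  have ha0 : 0 < a := by rw [ha]; exact norm_pos_iff.mpr hal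
  obtain ⟨b, hb⟩ : ∃ b : ℝ, b = 1 / c1 := ⟨_, rfl⟩
  have hb0 : 0 < b := by rw [hb]; positivity
  obtain ⟨D, hD⟩ : ∃ D : ℝ, D = CA + C1 * b := ⟨_, rfl⟩
  have hD0 : 0 ≤ D := by rw [hD]; positivity
  obtain ⟨M, hM⟩ : ∃ M : ℝ, M = a + b + D := ⟨_, rfl⟩
  have hM0 : 0 < M := by rw [hM]; positivity
  obtain ⟨N, hN⟩ : ∃ N : ℝ, N = 1 + 4 * M + 2 * (K * M ^ 2) / (a * η) + 2 * D / (a * η) + M / η :=
    ⟨_, rfl⟩
  have e2 : 0 ≤ 4 * M := by positivity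
  have e3 : 0 ≤ 2 * (K * M ^ 2) / (a * η) := by positivity
  have e4 : 0 ≤ 2 * D / (a * η) := by positivity
  have e5 : 0 ≤ M / η := by positivity
  have hN0 : 0 < N := by rw [hN]; linarith
  refine ⟨min r1 (1 / N), lt_min hr1 (by positivity), min_le_left _ _, ?_⟩
  intro μ z w hz hzr hE hts
  have hzr2 : ‖z‖ ≤ 1 / N := le_trans hzr (min_le_right _ _)
  have hzN : N * ‖z‖ ≤ 1 := by
    calc N * ‖z‖ ≤ N * (1 / N) := mul_le_mul_of_nonneg_left hzr2 hN0.le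
      _ = 1 := by field_simp
  have hzp : 0 < ‖z‖ := norm_pos_iff.mpr hz
  have g0 : 1 * ‖z‖ ≤ 1 := le_trans (mul_le_mul_of_nonneg_right (by rw [hN]; linarith) hzp.le) hzN
  have g2 : (4 * M) * ‖z‖ ≤ 1 :=
    le_trans (mul_le_mul_of_nonneg_right (by rw [hN]; linarith) hzp.le) hzN
  have g3 : (2 * (K * M ^ 2) / (a * η)) * ‖z‖ ≤ 1 :=
    le_trans (mul_le_mul_of_nonneg_right (by rw [hN]; linarith) hzp.le) hzN
  have g4 : (2 * D / (a * η)) * ‖z‖ ≤ 1 :=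
    le_trans (mul_le_mul_of_nonneg_right (by rw [hN]; linarith) hzp.le) hzN
  have g5 : (M / η) * ‖z‖ ≤ 1 :=
    le_trans (mul_le_mul_of_nonneg_right (by rw [hN]; linarith) hzp.le) hzN
  have hz1 : ‖z‖ ≤ 1 := by linarith
  obtain ⟨t, ht⟩ : ∃ t : ℝ, t = ‖z‖ ^ k := ⟨_, rfl⟩
  have ht0 : 0 < t := by rw [ht]; positivity
  have htz : t ≤ ‖z‖ := by rw [ht]; exact pow_le_of_le_one hzp.le hz1 (by omega)
  rw [← ht] at hts
  obtain ⟨s, hs⟩ : ∃ s : ℝ, s = ‖μ‖ := ⟨_, rfl⟩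
  rw [← hs] at hts hE
  have hs0 : 0 ≤ s := by rw [hs]; exact norm_nonneg _
  have hst : s ≤ b * t := by
    have : b * (c1 * s) ≤ b * t := mul_le_mul_of_nonneg_left hts.le hb0.le
    have e : b * (c1 * s) = s := by rw [hb]; field_simp
    linarith
  obtain ⟨e, he⟩ : ∃ e : ℂ, e = (w - z - al * z ^ (k + 1) - μ * z) / z := ⟨_, rfl⟩
  have hen : ‖e‖ ≤ D * t * ‖z‖ := by
    have h1 : ‖e‖ ≤ CA * t * ‖z‖ + C1 * s * ‖z‖ := by
      rw [he, norm_div, div_le_iff₀ hzp]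
      refine le_trans hE (le_of_eq ?_)
      rw [ht]; ring
    have h2 : C1 * s * ‖z‖ ≤ C1 * (b * t) * ‖z‖ :=
      mul_le_mul_of_nonneg_right (mul_le_mul_of_nonneg_left hst hC1) hzp.le
    rw [hD]
    linarith
  obtain ⟨X, hX⟩ : ∃ X : ℂ, X = al * z ^ k + μ + e := ⟨_, rfl⟩
  have hw : w = z * (1 + X) := by
    rw [hX, he]
    field_simp
    ring
  have hXn : ‖X‖ ≤ M * t := by
    have h1 : ‖X‖ ≤ a * t + s + ‖e‖ := by
      rw [hX]
      refine (norm_add_le _ _).trans (add_le_add ((norm_add_le _ _).trans ?_) le_rfl)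
      rw [norm_mul, norm_pow, ← ha, ← ht, ← hs]
    have h2 : D * t * ‖z‖ ≤ D * t * 1 := mul_le_mul_of_nonneg_left hz1 (by positivity)
    rw [hM]
    linarith
  have hXz : ‖X‖ ≤ M * ‖z‖ := hXn.trans (mul_le_mul_of_nonneg_left htz hM0.le)
  have hX4 : ‖X‖ ≤ 1 / 4 := by linarith
  have h1X : 1 + X ≠ 0 := by
    intro h0
    have h1 : ‖(1:ℂ)‖ ≤ ‖1 + X‖ + ‖X‖ := by
      have := norm_sub_le (1 + X) X
      simpa using this
    rw [norm_one, h0, norm_zero] at h1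
    linarith
  have hwne : w ≠ 0 := by rw [hw]; exact mul_ne_zero hz h1X
  refine ⟨hwne, ?_, ?_⟩
  · have hk0 : (k:ℂ) ≠ 0 := by
      have : k ≠ 0 := by omega
      exact_mod_cast this
    have hkey : uu k al w - (1 - k * μ) * uu k al z - 1 =
        uu k al z * (((1 + X) ^ k)⁻¹ - 1 + k * X) + e / (al * z ^ k) := by
      have hu : uu k al w = uu k al z * ((1 + X) ^ k)⁻¹ := by
        unfold uu
        rw [hw, mul_pow]
        field_simp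
      have hu2 : (k:ℂ) * uu k al z = - 1 / (al * z ^ k) := by
        unfold uu
        field_simp
      have hX2 : X / (al * z ^ k) = 1 + μ / (al * z ^ k) + e / (al * z ^ k) := by
        rw [hX]
        field_simp
      rw [hu]
      have h3 : uu k al z * (((1 + X) ^ k)⁻¹ - 1 + k * X) = uu k al z * ((1 + X) ^ k)⁻¹ - uu k al z
          - X / (al * z ^ k) := by
        have : uu k al z * (((1 + X) ^ k)⁻¹ - 1 + k * X) = uu k al z * ((1 + X) ^ k)⁻¹ - uu k al z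
          + (k * uu k al z) * X := by ring
        rw [this, hu2]
        ring
      have h4 : (k:ℂ) * μ * uu k al z = - μ / (al * z ^ k) := by
        have : (k:ℂ) * μ * uu k al z = (k * uu k al z) * μ := by ring
        rw [this, hu2]
        ring
      rw [h3, hX2]
      have h5 : (1 - (k:ℂ) * μ) * uu k al z = uu k al z - (k:ℂ) * μ * uu k al z := by ring
      rw [h5, h4]
      ring
    rw [hkey]
    have hun : ‖uu k al z‖ ≤ 1 / (a * t) := by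
      rw [uu_norm, ← ha, ← ht]
      have hk1 : (1:ℝ) ≤ k := by exact_mod_cast hk
      apply one_div_le_one_div_of_le (by positivity)
      have : 1 * (a * t) ≤ k * (a * t) := mul_le_mul_of_nonneg_right hk1 (by positivity)
      linarith
    have p1 : ‖uu k al z * (((1 + X) ^ k)⁻¹ - 1 + k * X)‖ ≤ η / 2 := by
      rw [norm_mul]
      calc ‖uu k al z‖ * ‖((1 + X) ^ k)⁻¹ - 1 + k * X‖
          ≤ (1 / (a * t)) * (K * ‖X‖ ^ 2) :=
            mul_le_mul hun (hKb X hX4) (norm_nonneg _) (by positivity)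
        _ ≤ (1 / (a * t)) * (K * (M * t) ^ 2) := by
            gcongr
        _ = (2 * (K * M ^ 2) / (a * η)) * t * (η / 2) := by field_simp
        _ ≤ (2 * (K * M ^ 2) / (a * η)) * ‖z‖ * (η / 2) := by gcongr
        _ ≤ 1 * (η / 2) := mul_le_mul_of_nonneg_right g3 (by positivity)
        _ = η / 2 := one_mul _
    have p2 : ‖e / (al * z ^ k)‖ ≤ η / 2 := by
      rw [norm_div, norm_mul, norm_pow, ← ha, ← ht, div_le_iff₀ (by positivity)]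
      calc ‖e‖ ≤ D * t * ‖z‖ := hen
        _ = (2 * D / (a * η)) * ‖z‖ * (η / 2 * (a * t)) := by field_simp
        _ ≤ 1 * (η / 2 * (a * t)) := mul_le_mul_of_nonneg_right g4 (by positivity)
        _ = η / 2 * (a * t) := one_mul _
    calc ‖uu k al z * (((1 + X) ^ k)⁻¹ - 1 + k * X) + e / (al * z ^ k)‖
        ≤ ‖uu k al z * (((1 + X) ^ k)⁻¹ - 1 + k * X)‖ + ‖e / (al * z ^ k)‖ := norm_add_le _ _
      _ ≤ η := by linarith
  · have h1 : w - z = z * X := by rw [hw]; ring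
    rw [h1, norm_mul, mul_comm]
    refine mul_le_mul_of_nonneg_right (hXz.trans ?_) hzp.le
    have : M / η * ‖z‖ * η ≤ 1 * η := mul_le_mul_of_nonneg_right g5 hη.le
    have e : M / η * ‖z‖ * η = M * ‖z‖ := by field_simp
    linarith

lemma norm_one_sub (k ε : ℝ) (μ : ℂ) (hk : 1 ≤ k) (hε : 0 < ε) (hε1 : ε ≤ 1)
    (h1 : ε * ‖μ‖ ≤ μ.re) (h2 : k * ‖μ‖ ≤ ε) : ‖1 - k * μ‖ ≤ 1 - k * ε * ‖μ‖ / 2 := by
  have hk0 : 0 < k := by linarith
  obtain ⟨m, hm⟩ : ∃ m : ℝ, m = ‖μ‖ := ⟨_, rfl⟩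
  have hm0 : 0 ≤ m := by rw [hm]; exact norm_nonneg _
  rw [← hm] at h1 h2 ⊢
  have h3 : ‖1 - k * μ‖ ^ 2 = (1 - k * μ.re) ^ 2 + (k * μ.im) ^ 2 := by
    rw [← Complex.normSq_eq_norm_sq, Complex.normSq_apply]
    simp
    ring
  have h4 : m ^ 2 = μ.re ^ 2 + μ.im ^ 2 := by
    rw [hm, ← Complex.normSq_eq_norm_sq, Complex.normSq_apply]; ring
  have h5 : ‖1 - k * μ‖ ^ 2 = 1 - 2 * k * μ.re + (k * m) ^ 2 := by
    rw [h3, mul_pow k m, h4]; ring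
  have h6 : k * (ε * m) ≤ k * μ.re := mul_le_mul_of_nonneg_left h1 hk0.le
  have h7 : (k * m) ^ 2 ≤ ε * (k * m) := by
    rw [pow_two]; exact mul_le_mul_of_nonneg_right h2 (by positivity)
  have h8 : 0 ≤ 1 - k * ε * m / 2 := by nlinarith
  refine abs_le_of_sq_le_sq' ?_ h8 |>.2
  nlinarith [sq_nonneg (k * ε * m)]

/-- the derivative of the remainder -/
lemma rem_deriv (H : ℂ → ℂ) (r1 CA C1 s : ℝ) (k : ℕ) (hH : ∀ z : ℂ, ‖z‖ ≤ r1 → DifferentiableAt ℂ H z)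
    (hCA : 0 ≤ CA) (hC1 : 0 ≤ C1) (hs : 0 ≤ s)
    (hb : ∀ z : ℂ, ‖z‖ ≤ r1 → ‖H z‖ ≤ CA * ‖z‖ ^ (k + 2) + C1 * s * ‖z‖ ^ 2) (z : ℂ) (hz : z ≠ 0)
    (hzr : 2 * ‖z‖ ≤ r1) :
    ‖deriv H z‖ ≤ CA * 2 ^ (k + 2) * ‖z‖ ^ (k + 1) + 4 * C1 * s * ‖z‖ := by
  have hzp : 0 < ‖z‖ := norm_pos_iff.mpr hz
  have hsub : ∀ w ∈ closedBall z ‖z‖, ‖w‖ ≤ 2 * ‖z‖ := by
    intro w hw
    rw [mem_closedBall, dist_eq_norm] at hw
    have := norm_add_le (w - z) z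
    rw [sub_add_cancel] at this
    linarith
  have h := Complex.norm_deriv_le_of_forall_mem_sphere_norm_le (c := z) (R := ‖z‖)
    (C := CA * (2 * ‖z‖) ^ (k + 2) + C1 * s * (2 * ‖z‖) ^ 2)
    (f := H) hzp ((DifferentiableOn.diffContOnCl (by
      intro w hw
      rw [closure_ball z hzp.ne'] at hw
      exact (hH w ((hsub w hw).trans hzr)).differentiableWithinAt)))
    (fun w hw => by
      have h1 := hsub w (sphere_subset_closedBall hw)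
      refine (hb w (h1.trans hzr)).trans ?_
      gcongr)
  refine h.trans (le_of_eq ?_)
  field_simp
  ring

end Run7.h904.PF
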