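import Mathlib
import Pool.Agent.Run7.h904.PLoc

set_option autoImplicit false

open Topology Filter Metric Set

namespace Run7.h904.PF

open Pool.Agent.H713R5.QJ.PBLAux (quad invpow uu ord)

/-- orbits near a non-degenerate perturbation of a parabolic fixed point converge to a sink -/
theorem lemA' (F : ℂ → ℂ) (r C₀ ε : ℝ) (z₀ : ℂ) (hr : 0 < r) (hC₀ : 0 ≤ C₀) (hε : 0 < ε)
    (hε1 : ε ≤ 1) (hF : DifferentiableOn ℂ F (ball 0 r)) (F0 : F 0 = 0) (F1 : deriv F 0 = 1)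
    (hne : ∃ z ∈ ball (0 : ℂ) r, F z ≠ z)
    (hit : ∀ k : ℕ, F^[k] z₀ ∈ ball (0 : ℂ) r ∧ F^[k] z₀ ≠ 0)
    (hlim : Tendsto (fun k : ℕ => F^[k] z₀) atTop (𝓝 0)) :
    ∃ (k₀ : ℕ) (δ s₀ : ℝ), 0 < δ ∧ 0 < s₀ ∧ ∀ μ : ℂ, μ ≠ 0 → ‖μ‖ < s₀ → ε * ‖μ‖ ≤ |μ.re| →
      ∀ G : ℂ → ℂ, DifferentiableOn ℂ G (ball 0 r) →
      (∀ z ∈ ball (0 : ℂ) r, ‖G z - F z‖ ≤ C₀ * ‖μ‖) → G 0 = 0 → deriv G 0 = 1 + μ →
      ∀ z ∈ ball (F^[k₀] z₀) δ, (∀ k : ℕ, G^[k] z ∈ ball (0 : ℂ) r) ∧
        ∃ x ∈ ball (0 : ℂ) r, G x = x ∧ ‖deriv G x‖ < 1 ∧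
          Tendsto (fun k : ℕ => G^[k] z) atTop (𝓝 x) := by
  obtain ⟨k, al, CA, r1, hk, hal, hCA, hr1, hr1r, hord⟩ := ord F r hr hF F0 F1 hne
  have hk1 : (1:ℝ) ≤ k := by exact_mod_cast hk
  obtain ⟨a, ha⟩ : ∃ a : ℝ, a = ‖al‖ := ⟨_, rfl⟩
  have ha0 : 0 < a := by rw [ha]; exact norm_pos_iff.mpr hal
  obtain ⟨C1, hC1⟩ : ∃ C1 : ℝ, C1 = 20 * (C₀ + r) / r ^ 2 := ⟨_, rfl⟩
  have hC10 : 0 ≤ C1 := by rw [hC1]; positivity
  obtain ⟨κ, hκ⟩ : ∃ κ : ℝ, κ = ε / (32 * (k + 1)) := ⟨_, rfl⟩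
  have hκ0 : 0 < κ := by rw [hκ]; positivity
  have hκk : (k + 1) * κ = ε / 32 := by rw [hκ]; field_simp
  have hκ1 : κ ≤ 1 / 64 := by nlinarith
  obtain ⟨ς, hς0, hς⟩ : ∃ ς : ℝ, 0 < ς ∧ ∀ v : ℂ, ‖v‖ ≤ ς → ‖(1 + v) ^ k - 1‖ ≤ κ := by
    have hc : ContinuousAt (fun v : ℂ => (1 + v) ^ k - 1) 0 := by fun_prop
    obtain ⟨d, hd, hball⟩ := (Metric.continuousAt_iff.mp hc) κ hκ0
    refine ⟨d / 2, by positivity, fun v hv => ?_⟩
    have := hball (x := v) (by rw [dist_zero_right]; linarith)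
    simpa using this.le
  obtain ⟨η1, hη10, hseq⟩ := seqlem k ε κ hk1 hε hε1 hκ0
  obtain ⟨η, hη⟩ : ∃ η : ℝ, η = min (min η1 ς) (1 / 4) := ⟨_, rfl⟩
  have hη0 : 0 < η := by rw [hη]; exact lt_min (lt_min hη10 hς0) (by norm_num)
  have hηa : η ≤ η1 := by rw [hη]; exact (min_le_left _ _).trans (min_le_left _ _)
  have hηb : η ≤ ς := by rw [hη]; exact (min_le_left _ _).trans (min_le_right _ _)
  have hηc : η ≤ 1 / 4 := by rw [hη]; exact min_le_right _ _
  obtain ⟨c1, hc1⟩ : ∃ c1 : ℝ, c1 = ε / (8 * a) := ⟨_, rfl⟩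
  have hc10 : 0 < c1 := by rw [hc1]; positivity
  obtain ⟨r3, hr3, hr31, hcore⟩ := core2 k al hk hal CA C1 r1 c1 η hCA hC10 hr1 hc10 hη0
  obtain ⟨C5, hC5⟩ : ∃ C5 : ℝ, C5 = CA * 2 ^ (k + 2) * 2 / a + 4 * C1 := ⟨_, rfl⟩
  have hC50 : 0 ≤ C5 := by rw [hC5]; positivity
  obtain ⟨C6, hC6⟩ : ∃ C6 : ℝ, C6 = CA * c1 + C1 := ⟨_, rfl⟩
  have hC60 : 0 ≤ C6 := by rw [hC6]; positivity
  obtain ⟨r2, hr2d⟩ : ∃ r2 : ℝ, r2 = min (min r3 (r1 / 4)) (min (ε / (16 * (C5 + 1)))
    (ε / (8 * (C6 + 1)))) := ⟨_, rfl⟩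
  have hr2 : 0 < r2 := by
    rw [hr2d]
    exact lt_min (lt_min hr3 (by positivity)) (lt_min (by positivity) (by positivity))
  have hr2a : r2 ≤ r3 := by rw [hr2d]; exact (min_le_left _ _).trans (min_le_left _ _)
  have hr2b : r2 ≤ r1 / 4 := by rw [hr2d]; exact (min_le_left _ _).trans (min_le_right _ _)
  have hr2c : C5 * (2 * r2) ≤ ε / 8 := by
    have : r2 ≤ ε / (16 * (C5 + 1)) := by
      rw [hr2d]; exact (min_le_right _ _).trans (min_le_left _ _)
    rw [le_div_iff₀ (by positivity)] at this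
    nlinarith
  have hr2e : C6 * r2 ≤ ε / 8 := by
    have : r2 ≤ ε / (8 * (C6 + 1)) := by
      rw [hr2d]; exact (min_le_right _ _).trans (min_le_right _ _)
    rw [le_div_iff₀ (by positivity)] at this
    nlinarith
  have hr2r : r2 < r := by linarith
  obtain ⟨U2, hU2⟩ : ∃ U2 : ℝ, U2 = 1 / (k * a * r2 ^ k) := ⟨_, rfl⟩
  have hU20 : 0 < U2 := by rw [hU2]; positivity
  have hUz : ∀ z : ℂ, U2 < ‖uu k al z‖ → z ≠ 0 ∧ ‖z‖ ≤ r2 := by
    intro z hz
    have hz0 : z ≠ 0 := by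
      rintro rfl
      rw [uu_norm, norm_zero, zero_pow (by omega), mul_zero, div_zero] at hz
      linarith
    refine ⟨hz0, ?_⟩
    by_contra hcon
    push Not at hcon
    rw [uu_norm, hU2, ← ha] at hz
    have h1 : r2 ^ k ≤ ‖z‖ ^ k := pow_le_pow_left₀ hr2.le hcon.le k
    have h2 : 1 / (k * a * ‖z‖ ^ k) ≤ 1 / (k * a * r2 ^ k) := by
      apply one_div_le_one_div_of_le (by positivity)
      exact mul_le_mul_of_nonneg_left h1 (by positivity)
    linarith
  -- the orbit of `z₀` enters the region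
  have hFstep : ∀ z : ℂ, z ≠ 0 → ‖z‖ ≤ r2 → (uu k al z).re + 1 / 2 ≤ (uu k al (F z)).re := by
    intro z hz hzr
    have hzp : 0 < ‖z‖ := norm_pos_iff.mpr hz
    have h1 := (hcore 0 z (F z) hz (hzr.trans hr2a) (by
      have := hord z (by linarith)
      simpa using this) (by simpa using pow_pos hzp k)).2.1
    have h3 := (abs_le.mp (le_trans (Complex.abs_re_le_norm _) h1)).1
    simp at h3
    linarith
  obtain ⟨n₀, hn₀⟩ : ∃ n₀ : ℕ, ∀ n ≥ n₀, ‖F^[n] z₀‖ ≤ r2 := by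
    have := (Metric.tendsto_atTop.mp hlim) r2 hr2
    obtain ⟨n₀, h⟩ := this
    refine ⟨n₀, fun n hn => ?_⟩
    have := h n hn
    rw [dist_zero_right] at this
    exact this.le
  have hgrow : ∀ j : ℕ, (uu k al (F^[n₀] z₀)).re + j / 2 ≤ (uu k al (F^[n₀ + j] z₀)).re := by
    intro j
    induction j with
    | zero => simp
    | succ j ih =>
      have h1 := hFstep (F^[n₀ + j] z₀) (hit _).2 (hn₀ _ (by omega))
      rw [← add_assoc, Function.iterate_succ_apply']
      push_cast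
      linarith
  obtain ⟨j, hj⟩ := exists_nat_gt (2 * (U2 - (uu k al (F^[n₀] z₀)).re))
  obtain ⟨k₀, hk₀⟩ : ∃ k₀ : ℕ, k₀ = n₀ + j := ⟨_, rfl⟩
  have hu0 : U2 < (uu k al (F^[k₀] z₀)).re := by
    have := hgrow j
    rw [hk₀]
    linarith
  have hne0 : F^[k₀] z₀ ≠ 0 := (hit _).2
  have hcont0 : ContinuousAt (fun z => uu k al z) (F^[k₀] z₀) := by
    unfold uu
    refine ContinuousAt.div continuousAt_const ?_ ?_
    · fun_prop
    · have hk0 : (k:ℂ) ≠ 0 := by
        have : k ≠ 0 := by omega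
        exact_mod_cast this
      exact mul_ne_zero (mul_ne_zero hk0 hal) (pow_ne_zero _ hne0)
  obtain ⟨U0, hU0⟩ : ∃ U0 : ℝ, U0 = ‖uu k al (F^[k₀] z₀)‖ + 1 := ⟨_, rfl⟩
  have hU00 : 0 < U0 := by rw [hU0]; positivity
  have hev : ∀ᶠ z in 𝓝 (F^[k₀] z₀), U2 < (uu k al z).re ∧ ‖uu k al z‖ < U0 :=
    ((Complex.continuous_re.continuousAt.comp hcont0).eventually (lt_mem_nhds hu0)).and
      (hcont0.norm.eventually (gt_mem_nhds (by rw [hU0]; linarith)))
  rw [Metric.eventually_nhds_iff_ball] at hev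
  obtain ⟨δ, hδ, hball⟩ := hev
  obtain ⟨s1, hs1, hseq'⟩ := hseq U2 U0 hU20 hU00
  refine ⟨k₀, δ, min s1 (ε / k), hδ, lt_min hs1 (by positivity), ?_⟩
  intro μ hμne hμs hμre G hG hGF G0 G1 z hz
  obtain ⟨m, hm⟩ : ∃ m : ℝ, m = ‖μ‖ := ⟨_, rfl⟩
  have hm0 : 0 < m := by rw [hm]; exact norm_pos_iff.mpr hμne
  have hms : m < s1 := by rw [hm]; exact hμs.trans_le (min_le_left _ _)
  have hkm : k * m ≤ ε := by
    have := hμs.le.trans (min_le_right _ _)
    rw [le_div_iff₀ (by positivity), ← hm] at this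
    linarith
  -- the remainder
  have hrem : ∀ w : ℂ, ‖w‖ ≤ r1 → ‖G w - w - al * w ^ (k + 1) - μ * w‖ ≤
      CA * ‖w‖ ^ (k + 2) + C1 * m * ‖w‖ ^ 2 := by
    intro w hwr
    have hdF : DifferentiableAt ℂ F 0 :=
      (hF 0 (by simpa using hr)).differentiableAt (isOpen_ball.mem_nhds (by simpa using hr))
    have hdG : DifferentiableAt ℂ G 0 :=
      (hG 0 (by simpa using hr)).differentiableAt (isOpen_ball.mem_nhds (by simpa using hr))
    have hq := quad (fun w => G w - F w - μ * w) r (C₀ * m + m * r) hr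
      ((hG.sub hF).sub (differentiableOn_id.const_mul μ))
      (by
        intro v hv
        have hv' := hv
        rw [mem_ball_zero_iff] at hv'
        calc ‖G v - F v - μ * v‖ ≤ ‖G v - F v‖ + ‖μ * v‖ := norm_sub_le _ _
          _ ≤ C₀ * m + m * r := by
              rw [norm_mul]
              have h1 := hGF v hv
              rw [← hm] at h1 ⊢
              have h2 : m * ‖v‖ ≤ m * r := mul_le_mul_of_nonneg_left hv'.le hm0.le
              linarith)
      (by simp [G0, F0])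
      (by
        have h1 := (hdG.hasDerivAt.sub hdF.hasDerivAt).sub ((hasDerivAt_id (0:ℂ)).const_mul μ)
        rw [G1, F1] at h1
        have h2 := h1.deriv
        have h3 : (1 + μ - 1 - μ * 1) = 0 := by ring
        rw [h3] at h2
        exact h2)
      w (by linarith)
    have h1 : G w - w - al * w ^ (k + 1) - μ * w =
        (F w - w - al * w ^ (k + 1)) + (G w - F w - μ * w) := by ring
    rw [h1]
    refine le_trans (norm_add_le _ _) (add_le_add (hord w hwr) ?_)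
    refine le_trans hq (le_of_eq ?_)
    rw [hC1]
    field_simp
  obtain ⟨hzL, hzU⟩ := hball z hz
  have hstep : ∀ i : ℕ, U2 < ‖uu k al (G^[i] z)‖ → m * ‖uu k al (G^[i] z)‖ < 8 / (k * ε) →
      G^[i + 1] z ≠ 0 ∧ ‖uu k al (G^[i + 1] z) - (1 - k * μ) * uu k al (G^[i] z) - 1‖ ≤ η ∧
        ‖G^[i + 1] z - G^[i] z‖ ≤ η * ‖G^[i] z‖ := by
    intro i h1 h2
    obtain ⟨h3, h4⟩ := hUz _ h1
    have hzp : 0 < ‖G^[i] z‖ := norm_pos_iff.mpr h3
    rw [Function.iterate_succ_apply']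
    refine hcore μ _ _ h3 (h4.trans hr2a) ?_ ?_
    · rw [← hm]
      exact hrem _ (by linarith)
    · rw [uu_norm, ← ha, mul_one_div, div_lt_div_iff₀ (by positivity) (by positivity)] at h2
      rw [hc1, ← hm, div_mul_eq_mul_div, div_lt_iff₀ (by positivity)]
      have : m * (k * ε) < 8 * (k * a * ‖G^[i] z‖ ^ k) := h2
      have h5 : k * (ε * m) < k * (‖G^[i] z‖ ^ k * (8 * a)) := by linarith
      exact lt_of_mul_lt_mul_left h5 (by positivity)
  have hS := hseq' μ (by rw [← hm]; exact hm0) (by rw [← hm]; exact hms) hμre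
    (fun i => uu k al (G^[i] z)) hzL hzU.le (fun i h1 h2 => by
      rw [← hm] at h2
      exact (hstep i h1 h2).2.1.trans hηa)
  rw [← hm] at hS
  rw [← hm] at hμre
  have hre : μ.re ≠ 0 := by
    intro h0
    rw [h0, abs_zero] at hμre
    have : 0 < ε * m := by positivity
    linarith
  have hdiffG : ∀ w : ℂ, ‖w‖ ≤ r1 → DifferentiableAt ℂ G w := by
    intro w hw
    have : w ∈ ball (0:ℂ) r := by rw [mem_ball_zero_iff]; linarith
    exact (hG w this).differentiableAt (isOpen_ball.mem_nhds this)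
  rcases lt_or_gt_of_ne hre with hneg | hpos
  · -- `0` is attracting
    obtain ⟨n, hn1, hn2, hn3⟩ := hS.1 hneg
    have hmul : ‖1 + μ‖ ≤ 1 - ε * m / 2 := by
      have h1 := norm_one_sub 1 ε (-μ) le_rfl hε hε1
        (by rw [norm_neg, ← hm]; rw [abs_of_neg hneg] at hμre; simpa using hμre)
        (by rw [norm_neg, ← hm]; nlinarith)
      rw [norm_neg, ← hm] at h1
      simpa using h1
    have hcontr : ∀ w : ℂ, ‖w‖ ≤ r2 → ‖w‖ ^ k ≤ c1 * m → ‖G w‖ ≤ (1 - ε * m / 4) * ‖w‖ := by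
      intro w hw1 hw2
      have h1 := hrem w (by linarith)
      have h2 : G w = (1 + μ) * w + al * w ^ (k + 1) + (G w - w - al * w ^ (k + 1) - μ * w) := by
        ring
      rw [h2]
      refine (norm_add₃_le).trans ?_
      rw [norm_mul, norm_mul, norm_pow, ← ha]
      have hw0 : 0 ≤ ‖w‖ := norm_nonneg w
      have g1 : ‖1 + μ‖ * ‖w‖ ≤ (1 - ε * m / 2) * ‖w‖ := mul_le_mul_of_nonneg_right hmul hw0
      have g2 : a * ‖w‖ ^ (k + 1) ≤ (ε * m / 8) * ‖w‖ := by
        have e1 : a * ‖w‖ ^ (k + 1) = a * ‖w‖ ^ k * ‖w‖ := by ring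
        have e2 : a * ‖w‖ ^ k ≤ a * (c1 * m) := mul_le_mul_of_nonneg_left hw2 ha0.le
        have e3 : a * (c1 * m) = ε * m / 8 := by rw [hc1]; field_simp
        rw [e1]
        exact mul_le_mul_of_nonneg_right (by linarith) hw0
      have g3 : CA * ‖w‖ ^ (k + 2) + C1 * m * ‖w‖ ^ 2 ≤ (ε * m / 8) * ‖w‖ := by
        have e1 : CA * ‖w‖ ^ (k + 2) + C1 * m * ‖w‖ ^ 2 =
            (CA * ‖w‖ ^ k * ‖w‖ + C1 * m * ‖w‖) * ‖w‖ := by ring
        rw [e1]
        refine mul_le_mul_of_nonneg_right ?_ hw0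
        have e2 : CA * ‖w‖ ^ k * ‖w‖ ≤ CA * (c1 * m) * ‖w‖ :=
          mul_le_mul_of_nonneg_right (mul_le_mul_of_nonneg_left hw2 hCA) hw0
        have e3 : C6 * ‖w‖ ≤ ε / 8 := le_trans (mul_le_mul_of_nonneg_left hw1 hC60) hr2e
        have e4 : CA * (c1 * m) * ‖w‖ + C1 * m * ‖w‖ = C6 * ‖w‖ * m := by rw [hC6]; ring
        have e5 : C6 * ‖w‖ * m ≤ ε / 8 * m := mul_le_mul_of_nonneg_right e3 hm0.le
        linarith
      linarith
    have hx0 : 0 < ε * m / 4 := by positivity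
    have hx1 : ε * m / 4 ≤ 1 := by
      have : 0 ≤ ‖1 + μ‖ := norm_nonneg _
      linarith
    have hzn : ‖G^[n] z‖ ^ k ≤ c1 * m := by
      have hz0 := (hUz _ (hn1 n le_rfl)).1
      have hzp : 0 < ‖G^[n] z‖ := norm_pos_iff.mpr hz0
      have h2 := hn3
      rw [uu_norm, ← ha, mul_one_div, div_le_div_iff₀ (by positivity) (by positivity)] at h2
      rw [hc1, div_mul_eq_mul_div, le_div_iff₀ (by positivity)]
      have h5 : k * (‖G^[n] z‖ ^ k * (8 * a)) ≤ k * (ε * m) := by linarith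
      exact le_of_mul_le_mul_left h5 (by positivity)
    have hD : ∀ j : ℕ, ‖G^[j] (G^[n] z)‖ ≤ (1 - ε * m / 4) ^ j * ‖G^[n] z‖ := by
      intro j
      induction j with
      | zero => simp
      | succ j ih =>
        have h1 : ‖G^[j] (G^[n] z)‖ ≤ ‖G^[n] z‖ := by
          refine le_trans ih ?_
          have hle : (1 - ε * m / 4) ^ j ≤ 1 := pow_le_one₀ (by linarith) (by linarith)
          have := mul_le_mul_of_nonneg_right hle (norm_nonneg (G^[n] z))
          linarith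
        rw [Function.iterate_succ_apply']
        have h2 := hcontr _ (h1.trans (hUz _ (hn1 n le_rfl)).2)
          ((pow_le_pow_left₀ (norm_nonneg _) h1 k).trans hzn)
        refine h2.trans ?_
        rw [pow_succ]
        have := mul_le_mul_of_nonneg_left ih (by linarith : 0 ≤ 1 - ε * m / 4)
        linarith
    have hstay : ∀ j : ℕ, G^[j] z ∈ ball (0 : ℂ) r := by
      intro j
      rw [mem_ball_zero_iff]
      rcases le_total j n with hj | hj
      · exact lt_of_le_of_lt (hUz _ (hn1 j hj)).2 hr2r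
      · obtain ⟨i, rfl⟩ := Nat.exists_eq_add_of_le' hj
        rw [Function.iterate_add_apply]
        have hle : (1 - ε * m / 4) ^ i ≤ 1 := pow_le_one₀ (by linarith) (by linarith)
        have h1 := hD i
        have h2 := mul_le_mul_of_nonneg_right hle (norm_nonneg (G^[n] z))
        have h3 := (hUz _ (hn1 n le_rfl)).2
        linarith
    refine ⟨hstay, 0, by simpa using hr, G0, ?_, ?_⟩
    · rw [G1]
      have : 0 < ε * m / 2 := by positivity
      linarith
    · rw [← tendsto_add_atTop_iff_nat n]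
      rw [tendsto_zero_iff_norm_tendsto_zero]
      have h1 : Tendsto (fun j : ℕ => (1 - ε * m / 4) ^ j * ‖G^[n] z‖) atTop (𝓝 0) := by
        have := (tendsto_pow_atTop_nhds_zero_of_lt_one (r := 1 - ε * m / 4) (by linarith)
          (by linarith)).mul_const ‖G^[n] z‖
        simpa using this
      refine squeeze_zero (fun j => norm_nonneg _) (fun j => ?_) h1
      rw [Function.iterate_add_apply]
      exact hD j
  · -- `0` is repelling
    obtain ⟨hP, n, hn⟩ := hS.2 hpos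
    have hmul : ‖1 - k * μ‖ ≤ 1 - ε * m / 2 := by
      have h1 := norm_one_sub k ε μ hk1 hε hε1
        (by rw [← hm]; rw [abs_of_pos hpos] at hμre; exact hμre) (by rw [← hm]; exact hkm)
      rw [← hm, Complex.ofReal_natCast] at h1
      have : 1 * (ε * m / 2) ≤ k * (ε * m / 2) := mul_le_mul_of_nonneg_right hk1 (by positivity)
      linarith
    -- the derivative
    have hder : ∀ w : ℂ, w ≠ 0 → ‖w‖ ≤ 2 * r2 → ‖al * w ^ k + μ‖ ≤ 4 * κ * m →
        ‖deriv G w‖ ≤ 1 - ε * m / 4 := by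
      intro w hw hwr hwm
      have hwp : 0 < ‖w‖ := norm_pos_iff.mpr hw
      have h1 := rem_deriv (fun v => G v - v - al * v ^ (k + 1) - μ * v) r1 CA C1 m k
        (fun v hv => by
          have := hdiffG v hv
          fun_prop) hCA hC10 hm0.le hrem w hw (by linarith)
      have h2 : deriv (fun v => G v - v - al * v ^ (k + 1) - μ * v) w =
          deriv G w - 1 - al * ((k + 1 : ℕ) * w ^ k) - μ := by
        have hd := (((hdiffG w (by linarith)).hasDerivAt.sub (hasDerivAt_id w)).sub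
          ((hasDerivAt_pow (k + 1) w).const_mul al)).sub ((hasDerivAt_id w).const_mul μ)
        have := hd.deriv
        rw [mul_one] at this
        exact this
      have h3 : deriv G w = (1 - k * μ) + (k + 1) * (al * w ^ k + μ) +
          deriv (fun v => G v - v - al * v ^ (k + 1) - μ * v) w := by
        rw [h2]; push_cast; ring
      rw [h3]
      refine (norm_add₃_le).trans ?_
      have g1 : ‖((k : ℂ) + 1) * (al * w ^ k + μ)‖ ≤ ε * m / 8 := by
        rw [norm_mul]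
        have e1 : ‖(k : ℂ) + 1‖ = k + 1 := by
          have : ((k : ℂ) + 1) = ((k + 1 : ℕ) : ℂ) := by push_cast; ring
          rw [this, Complex.norm_natCast]; push_cast; ring
        rw [e1]
        have e2 := mul_le_mul_of_nonneg_left hwm (by positivity : (0:ℝ) ≤ k + 1)
        have e3 : ((k:ℝ) + 1) * (4 * κ * m) = 4 * ((k + 1) * κ) * m := by ring
        rw [e3, hκk] at e2
        linarith
      have g2 : a * ‖w‖ ^ k ≤ 2 * m := by
        have e1 : a * ‖w‖ ^ k = ‖al * w ^ k‖ := by rw [norm_mul, norm_pow, ha]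
        have e2 : al * w ^ k = (al * w ^ k + μ) - μ := by ring
        rw [e1, e2]
        refine (norm_sub_le _ _).trans ?_
        rw [← hm]
        nlinarith
      have g3 : CA * 2 ^ (k + 2) * ‖w‖ ^ (k + 1) + 4 * C1 * m * ‖w‖ ≤ ε * m / 8 := by
        have e0 : ‖w‖ ^ k ≤ 2 / a * m := by
          rw [div_mul_eq_mul_div, le_div_iff₀ ha0]
          linarith
        have e1 : CA * 2 ^ (k + 2) * ‖w‖ ^ (k + 1) = CA * 2 ^ (k + 2) * ‖w‖ ^ k * ‖w‖ := by ring
        have e2 : CA * 2 ^ (k + 2) * ‖w‖ ^ k * ‖w‖ ≤ CA * 2 ^ (k + 2) * (2 / a * m) * ‖w‖ := by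
          gcongr
        have e3 : CA * 2 ^ (k + 2) * (2 / a * m) * ‖w‖ + 4 * C1 * m * ‖w‖ = C5 * ‖w‖ * m := by
          rw [hC5]; field_simp
        have e4 : C5 * ‖w‖ ≤ ε / 8 := le_trans (mul_le_mul_of_nonneg_left hwr hC50) hr2c
        have e5 := mul_le_mul_of_nonneg_right e4 hm0.le
        rw [e1]
        linarith
      linarith
    -- points of the tail
    have htail : ∀ i ≥ n, ‖al * (G^[i] z) ^ k + μ‖ ≤ 2 * κ * m ∧ ‖al * (G^[i] z) ^ k‖ ≤ 2 * m := by
      intro i hi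
      have h1 := hn i hi
      rw [Complex.ofReal_natCast] at h1
      have hz0 := (hUz _ (hP i).1).1
      obtain ⟨u, hu⟩ : ∃ u : ℂ, u = uu k al (G^[i] z) := ⟨_, rfl⟩
      rw [← hu] at h1
      have hu0 : u ≠ 0 := by
        intro h0
        have := (hP i).1
        rw [← hu, h0, norm_zero] at this
        linarith
      have hk0 : (k:ℂ) ≠ 0 := by
        have : k ≠ 0 := by omega
        exact_mod_cast this
      have h2 : al * (G^[i] z) ^ k = -1 / (k * u) := by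
        rw [hu]; unfold uu; field_simp
      have hθ : 1 / 2 ≤ ‖(k:ℂ) * μ * u‖ := by
        have e1 : ‖(1:ℂ)‖ ≤ ‖(k:ℂ) * μ * u‖ + ‖(k:ℂ) * μ * u - 1‖ := by
          have := norm_sub_le ((k:ℂ) * μ * u) ((k:ℂ) * μ * u - 1)
          simpa using this
        rw [norm_one] at e1
        linarith
      have hθ0 : (k:ℂ) * μ * u ≠ 0 := mul_ne_zero (mul_ne_zero hk0 hμne) hu0
      have h3 : al * (G^[i] z) ^ k + μ = μ * (((k:ℂ) * μ * u - 1) / ((k:ℂ) * μ * u)) := by
        rw [h2]; field_simp; ring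
      have h4 : al * (G^[i] z) ^ k = - (μ / ((k:ℂ) * μ * u)) := by
        rw [h2]; field_simp
      constructor
      · rw [h3, norm_mul, norm_div, ← hm]
        have : ‖(k:ℂ) * μ * u - 1‖ / ‖(k:ℂ) * μ * u‖ ≤ 2 * κ := by
          rw [div_le_iff₀ (by linarith)]
          nlinarith
        nlinarith
      · rw [h4, norm_neg, norm_div, ← hm, div_le_iff₀ (by linarith)]
        nlinarith
    -- contraction along the orbit
    have hcontr : ∀ i ≥ n, ‖G^[i + 2] z - G^[i + 1] z‖ ≤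
        (1 - ε * m / 4) * ‖G^[i + 1] z - G^[i] z‖ := by
      intro i hi
      have hz0 := (hUz _ (hP i).1).1
      have hzr := (hUz _ (hP i).1).2
      have hst := (hstep i (hP i).1 (hP i).2).2.2
      have hseg : ∀ w ∈ segment ℝ (G^[i] z) (G^[i + 1] z), w ≠ 0 ∧ ‖w‖ ≤ 2 * r2 ∧
          ‖al * w ^ k + μ‖ ≤ 4 * κ * m := by
        intro w hw
        have h1 : ‖w - G^[i] z‖ ≤ η * ‖G^[i] z‖ := by
          refine le_trans ?_ hst
          exact norm_sub_le_of_mem_segment hw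
        obtain ⟨v, hv⟩ : ∃ v : ℂ, v = (w - G^[i] z) / G^[i] z := ⟨_, rfl⟩
        have hvn : ‖v‖ ≤ η := by
          rw [hv, norm_div, div_le_iff₀ (norm_pos_iff.mpr hz0)]
          exact h1
        have hw1 : w = G^[i] z * (1 + v) := by rw [hv]; field_simp; ring
        have hw2 : w ≠ 0 := by
          rw [hw1]
          refine mul_ne_zero hz0 ?_
          intro h0
          have h1 : ‖(1:ℂ)‖ ≤ ‖1 + v‖ + ‖v‖ := by
            have := norm_sub_le (1 + v) v
            simpa using this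
          rw [norm_one, h0, norm_zero] at h1
          linarith
        refine ⟨hw2, ?_, ?_⟩
        · have e1 := norm_add_le (w - G^[i] z) (G^[i] z)
          rw [sub_add_cancel] at e1
          nlinarith [norm_nonneg (G^[i] z)]
        · have e1 : al * w ^ k + μ = (al * (G^[i] z) ^ k + μ) +
              (al * (G^[i] z) ^ k) * ((1 + v) ^ k - 1) := by
            rw [hw1, mul_pow]; ring
          obtain ⟨t1, t2⟩ := htail i hi
          have t3 := hς v (hvn.trans hηb)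
          rw [e1]
          refine (norm_add_le _ _).trans ?_
          rw [norm_mul]
          have := mul_le_mul t2 t3 (norm_nonneg _) (by positivity)
          linarith
      have h := Convex.norm_image_sub_le_of_norm_deriv_le (𝕜 := ℂ) (f := G) (C := 1 - ε * m / 4)
        (s := segment ℝ (G^[i] z) (G^[i + 1] z)) (x := G^[i] z) (y := G^[i + 1] z)
        (fun v hv => hdiffG v (by have := (hseg v hv).2.1; linarith))
        (fun v hv => hder v (hseg v hv).1 (hseg v hv).2.1 (hseg v hv).2.2)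
        (convex_segment _ _) (left_mem_segment _ _ _) (right_mem_segment _ _ _)
      have e1 : G (G^[i + 1] z) = G^[i + 2] z := (Function.iterate_succ_apply' G (i + 1) z).symm
      have e2 : G (G^[i] z) = G^[i + 1] z := (Function.iterate_succ_apply' G i z).symm
      rw [e1, e2] at h
      exact h
    have hx0 : 0 < ε * m / 4 := by positivity
    have hx1 : 0 ≤ 1 - ε * m / 4 := by
      have : 0 ≤ ‖1 - k * μ‖ := norm_nonneg _
      linarith
    have hgeo : ∀ j : ℕ, ‖G^[j + n + 1] z - G^[j + n] z‖ ≤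
        ‖G^[n + 1] z - G^[n] z‖ * (1 - ε * m / 4) ^ j := by
      intro j
      induction j with
      | zero => simp
      | succ j ih =>
        have h1 := hcontr (j + n) (by omega)
        have e1 : j + 1 + n + 1 = j + n + 2 := by ring
        have e2 : j + 1 + n = j + n + 1 := by ring
        rw [e1, e2, pow_succ]
        have := mul_le_mul_of_nonneg_left ih hx1
        linarith
    have hcau : CauchySeq (fun j : ℕ => G^[j + n] z) := by
      refine cauchySeq_of_le_geometric (1 - ε * m / 4) ‖G^[n + 1] z - G^[n] z‖ (by linarith)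
        (fun j => ?_)
      rw [dist_comm, dist_eq_norm]
      have e1 : j + 1 + n = j + n + 1 := by ring
      rw [e1]
      exact hgeo j
    obtain ⟨x, hx⟩ := cauchySeq_tendsto_of_complete hcau
    have hxr : ‖x‖ ≤ r2 := by
      refine le_of_tendsto hx.norm (Eventually.of_forall fun j => ?_)
      exact (hUz _ (hP (j + n)).1).2
    have hxb : x ∈ ball (0:ℂ) r := by rw [mem_ball_zero_iff]; linarith
    have hcx : ContinuousAt G x := (hdiffG x (by linarith)).continuousAt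
    have hGx : G x = x := by
      have h1 : Tendsto (fun j : ℕ => G (G^[j + n] z)) atTop (𝓝 (G x)) := hcx.tendsto.comp hx
      have h2 : Tendsto (fun j : ℕ => G (G^[j + n] z)) atTop (𝓝 x) := by
        have := (tendsto_add_atTop_iff_nat 1).2 hx
        refine this.congr fun j => ?_
        have e : j + 1 + n = (j + n) + 1 := by ring
        rw [e, Function.iterate_succ_apply']
      exact tendsto_nhds_unique h1 h2
    refine ⟨fun j => ?_, x, hxb, hGx, ?_, (tendsto_add_atTop_iff_nat n).1 hx⟩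
    · rw [mem_ball_zero_iff]
      exact lt_of_le_of_lt (hUz _ (hP j).1).2 hr2r
    have hcd : ContinuousAt (deriv G) x :=
      ((hG.deriv isOpen_ball).continuousOn.continuousAt (isOpen_ball.mem_nhds hxb))
    have h1 : Tendsto (fun j : ℕ => ‖deriv G (G^[j + n] z)‖) atTop (𝓝 ‖deriv G x‖) :=
      (hcd.tendsto.comp hx).norm
    have h2 : ‖deriv G x‖ ≤ 1 - ε * m / 4 := by
      refine le_of_tendsto h1 (Eventually.of_forall fun j => ?_)
      obtain ⟨h3, h4⟩ := hUz _ (hP (j + n)).1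
      refine hder _ h3 (by linarith) ?_
      have := (htail (j + n) (by omega)).1
      nlinarith
    linarith

/-- orbits near a non-degenerate perturbation of a parabolic fixed point converge to a sink -/
theorem lemA (F : ℂ → ℂ) (r C₀ ε : ℝ) (z₀ : ℂ) (hr : 0 < r) (hC₀ : 0 ≤ C₀) (hε : 0 < ε)
    (hε1 : ε ≤ 1) (hF : DifferentiableOn ℂ F (ball 0 r)) (F0 : F 0 = 0) (F1 : deriv F 0 = 1)
    (hne : ∃ z ∈ ball (0 : ℂ) r, F z ≠ z)
    (hit : ∀ k : ℕ, F^[k] z₀ ∈ ball (0 : ℂ) r ∧ F^[k] z₀ ≠ 0)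
    (hlim : Tendsto (fun k : ℕ => F^[k] z₀) atTop (𝓝 0)) :
    ∃ (k₀ : ℕ) (δ s₀ : ℝ), 0 < δ ∧ 0 < s₀ ∧ ∀ μ : ℂ, μ ≠ 0 → ‖μ‖ < s₀ → ε * ‖μ‖ ≤ |μ.re| →
      ∀ G : ℂ → ℂ, DifferentiableOn ℂ G (ball 0 r) →
      (∀ z ∈ ball (0 : ℂ) r, ‖G z - F z‖ ≤ C₀ * ‖μ‖) → G 0 = 0 → deriv G 0 = 1 + μ →
      ∀ z ∈ ball (F^[k₀] z₀) δ, ∃ x ∈ ball (0 : ℂ) r, G x = x ∧ ‖deriv G x‖ < 1 ∧
        Tendsto (fun k : ℕ => G^[k] z) atTop (𝓝 x) := by
  obtain ⟨k₀, δ, s₀, hδ, hs₀, H⟩ := lemA' F r C₀ ε z₀ hr hC₀ hε hε1 hF F0 F1 hne hit hlim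
  exact ⟨k₀, δ, s₀, hδ, hs₀, fun μ h1 h2 h3 G h4 h5 h6 h7 z hz =>
    (H μ h1 h2 h3 G h4 h5 h6 h7 z hz).2⟩

end Run7.h904.PF
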