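import Mathlib
import Pool.Agent.H713R5.QJ.TAPP
import Pool.Agent.H713R5.QJ.TOPG
import Pool.Agent.Run7.h904.PLoc2

set_option autoImplicit false

open Topology Filter Metric Set Polynomial MeasureTheory

namespace Run7.h904.PF

open Pool.Agent.H713R5.QJ
open Pool.Agent.H713R5.QJ.APP

/-- the perturbation of `T` in the direction `V` -/
noncomputable def St (T V : ℂ[X]) (t : ℝ) : ℂ[X] := T + C (t : ℂ) * V

/-- the points near `z` become good for small perturbations in the direction `V` -/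
def GD (T V : ℂ[X]) (z : ℂ) : Prop :=
  ∃ δ t₁ : ℝ, 0 < δ ∧ 0 < t₁ ∧ ∀ t : ℝ, 0 < t → t < t₁ → ∀ z' ∈ ball z δ, Good (ev (St T V t)) z'

lemma St_coeff (T V : ℂ[X]) (t : ℝ) (j : ℕ) : (St T V t).coeff j = T.coeff j + t * V.coeff j := by
  simp [St]

lemma St_eval (T V : ℂ[X]) (t : ℝ) (z : ℂ) : (St T V t).eval z = T.eval z + t * V.eval z := by
  simp [St]

lemma St_deval (T V : ℂ[X]) (t : ℝ) (z : ℂ) : (derivative (St T V t)).eval z =
    (derivative T).eval z + t * (derivative V).eval z := by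
  simp [St]

lemma coeff_bound (V : ℂ[X]) : ∃ C : ℝ, 0 < C ∧ ∀ j : ℕ, ‖V.coeff j‖ ≤ C := by
  refine ⟨∑ i ∈ Finset.range (V.natDegree + 1), ‖V.coeff i‖ + 1,
    by positivity, fun j => ?_⟩
  by_cases h : j < V.natDegree + 1
  · have := Finset.single_le_sum (f := fun i => ‖V.coeff i‖) (fun i _ => norm_nonneg _)
      (Finset.mem_range.mpr h)
    linarith
  · rw [coeff_eq_zero_of_natDegree_lt (by omega), norm_zero]
    positivity

/-- uniform control of the perturbation -/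
lemma St_ctl (T V : ℂ[X]) (hT : 2 ≤ T.natDegree) (hV : V.natDegree ≤ T.natDegree) :
    ∃ t₀ C₀ : ℝ, 0 < t₀ ∧ t₀ ≤ 1 ∧ 0 < C₀ ∧
      (∀ t : ℝ, 0 ≤ t → t ≤ t₀ → (St T V t).natDegree = T.natDegree) ∧
      (∀ t : ℝ, 0 ≤ t → t ≤ t₀ → ∀ j : ℕ, ‖(St T V t).coeff j - T.coeff j‖ ≤ C₀ * t) := by
  obtain ⟨C₀, hC₀, hb⟩ := coeff_bound V
  have hlc : T.coeff T.natDegree ≠ 0 := by
    rw [coeff_natDegree]
    exact leadingCoeff_ne_zero.mpr (by rintro rfl; simp at hT)
  have hln : 0 < ‖T.coeff T.natDegree‖ := norm_pos_iff.mpr hlc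
  refine ⟨min 1 (‖T.coeff T.natDegree‖ / (2 * C₀)), C₀, lt_min one_pos (by positivity),
    min_le_left _ _, hC₀, ?_, ?_⟩
  · intro t ht htt
    have h1 : t ≤ ‖T.coeff T.natDegree‖ / (2 * C₀) := htt.trans (min_le_right _ _)
    rw [le_div_iff₀ (by positivity)] at h1
    apply le_antisymm
    · rw [St]
      refine natDegree_add_le_of_degree_le le_rfl ?_
      exact (natDegree_C_mul_le _ _).trans hV
    · apply le_natDegree_of_ne_zero
      rw [St_coeff]
      intro h0
      have h2 : T.coeff T.natDegree = - (t * V.coeff T.natDegree) := eq_neg_of_add_eq_zero_left h0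
      have h3 : ‖T.coeff T.natDegree‖ ≤ t * C₀ := by
        rw [h2, norm_neg, norm_mul, Complex.norm_of_nonneg ht]
        exact mul_le_mul_of_nonneg_left (hb _) ht
      linarith
  · intro t ht _ j
    rw [St_coeff, add_sub_cancel_left, norm_mul, Complex.norm_of_nonneg ht, mul_comm]
    exact mul_le_mul_of_nonneg_right (hb _) ht

/-- good points are good directions -/
lemma GD_of_good (T V : ℂ[X]) (hT : 2 ≤ T.natDegree) (hV : V.natDegree ≤ T.natDegree) (z : ℂ)
    (hz : Good (ev T) z) : GD T V z := by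
  obtain ⟨t₀, C₀, ht₀, _, hC₀, hdeg, hcf⟩ := St_ctl T V hT hV
  obtain ⟨σ, hσ, hσ'⟩ := opg_holds T z hT hz
  refine ⟨σ, min t₀ (σ / C₀), hσ, lt_min ht₀ (by positivity), ?_⟩
  intro t ht htt z' hz'
  have h1 : t ≤ t₀ := htt.le.trans (min_le_left _ _)
  have h2 : t < σ / C₀ := htt.trans_le (min_le_right _ _)
  rw [lt_div_iff₀ hC₀] at h2
  exact hσ' _ (hdeg t ht.le h1) (fun j => (hcf t ht.le h1 j).trans_lt (by linarith)) z' hz'

/-- Points of parabolic basins become good if the multiplier of the perturbed cycle is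
`1 + μ` with `|Re μ|` comparable with `|μ|` and the perturbation is at most of the order of `μ`. -/
theorem appmu (T V : ℂ[X]) (hT : 2 ≤ T.natDegree) (hV : V.natDegree ≤ T.natDegree) (P : ℕ)
    (hP : 0 < P) (x : ℂ) (hfix : (ev T)^[P] x = x) (hmul : deriv ((ev T)^[P]) x = 1)
    (y μ : ℝ → ℂ) (ε B : ℝ) (hε : 0 < ε) (hε1 : ε ≤ 1) (hB : 0 < B)
    (H : ∀ᶠ t : ℝ in 𝓝[>] 0, (ev (St T V t))^[P] (y t) = y t ∧
      deriv ((ev (St T V t))^[P]) (y t) = 1 + μ t ∧ μ t ≠ 0 ∧ ε * ‖μ t‖ ≤ |(μ t).re| ∧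
      t + ‖y t - x‖ ≤ B * ‖μ t‖)
    (hμ : Tendsto μ (𝓝[>] 0) (𝓝 0)) (z : ℂ)
    (hlim : Tendsto (fun i : ℕ => (ev T)^[P * i] z) atTop (𝓝 x))
    (hne : ∀ i : ℕ, (ev T)^[P * i] z ≠ x) : GD T V z := by
  obtain ⟨t₀, C₀, ht₀, ht₀1, hC₀, hdeg, hcf⟩ := St_ctl T V hT hV
  set S : ℝ → ℂ[X] := fun t => St T V t with hS
  obtain ⟨CI, hCI, hCC⟩ := close_iter T S t₀ C₀ hC₀.le ht₀.le hdeg hcf P
    (‖x‖ + 2) (by positivity)
  -- closeness of the return maps
  have hclose : ∀ t : ℝ, 0 ≤ t → t ≤ t₀ → ‖y t - x‖ ≤ 1 → ∀ v ∈ ball (0 : ℂ) 1,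
      ‖cen (S t) P (y t) v - cen T P x v‖ ≤ (CI + 1) * (t + ‖y t - x‖) := by
    intro t ht htt hyx v hv
    have hv' : ‖v‖ ≤ 1 := by simpa using (mem_ball.1 hv).le
    have h1 : ‖y t + v‖ ≤ ‖x‖ + 2 := by
      have : y t + v = x + (y t - x) + v := by ring
      rw [this]
      refine (norm_add_le _ _).trans ?_
      have := norm_add_le x (y t - x)
      linarith
    have h2 : ‖x + v‖ ≤ ‖x‖ + 2 := by
      refine (norm_add_le _ _).trans ?_
      linarith
    have h3 := hCC t ht htt _ _ h1 h2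
    rw [add_sub_add_right_eq_sub] at h3
    have h4 : cen (S t) P (y t) v - cen T P x v =
        ((ev (S t))^[P] (y t + v) - (ev T)^[P] (x + v)) - (y t - x) := by
      simp only [cen]; ring
    rw [h4]
    refine (norm_sub_le _ _).trans ?_
    linarith
  -- the orbit in the centred coordinate
  have horb : ∀ i : ℕ, (cen T P x)^[i] (z - x) = (ev T)^[P * i] z - x := by
    intro i
    rw [cen_iter, add_sub_cancel]
  have hlim0 : Tendsto (fun i : ℕ => (cen T P x)^[i] (z - x)) atTop (𝓝 0) := by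
    simp only [horb]
    have := hlim.sub_const x
    simpa using this
  have hne0 : ∀ i : ℕ, (cen T P x)^[i] (z - x) ≠ 0 := by
    intro i
    rw [horb]
    exact sub_ne_zero.2 (hne i)
  obtain ⟨i₀, hi₀⟩ := eventually_atTop.1 (hlim0.eventually (ball_mem_nhds (0 : ℂ) one_pos))
  have hF0 : cen T P x 0 = 0 := by simp [cen, hfix]
  have hF1 : deriv (cen T P x) 0 = 1 := by rw [cen_deriv, hmul]
  have hnid : ∃ w ∈ ball (0 : ℂ) 1, cen T P x w ≠ w := by
    by_contra hcon
    push Not at hcon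
    have hconst : ∀ j : ℕ, (cen T P x)^[i₀ + j] (z - x) = (cen T P x)^[i₀] (z - x) := by
      intro j
      induction j with
      | zero => rfl
      | succ j ih =>
        rw [← add_assoc, Function.iterate_succ_apply', hcon _ (hi₀ _ (by omega)), ih]
    have hl2 : Tendsto (fun j : ℕ => (cen T P x)^[i₀ + j] (z - x)) atTop (𝓝 0) := by
      have := (tendsto_add_atTop_iff_nat i₀).2 hlim0
      simpa [add_comm] using this
    simp only [hconst] at hl2
    exact hne0 i₀ (tendsto_nhds_unique tendsto_const_nhds hl2)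
  have hit : ∀ j : ℕ, (cen T P x)^[j] ((cen T P x)^[i₀] (z - x)) =
      (cen T P x)^[j + i₀] (z - x) := fun j => (Function.iterate_add_apply _ _ _ _).symm
  obtain ⟨k₀, δ, s₀, hδ, hs₀, hmain⟩ := lemA (cen T P x) 1 ((CI + 1) * B) ε
    ((cen T P x)^[i₀] (z - x)) one_pos (by positivity) hε hε1
    (cen_diff T P x).differentiableOn hF0 hF1 hnid
    (fun j => by rw [hit]; exact ⟨hi₀ _ (by omega), hne0 _⟩)
    (by
      simp only [hit]
      exact (tendsto_add_atTop_iff_nat i₀).2 hlim0)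
  -- closeness of the long iterate
  set N : ℕ := P * (k₀ + i₀) with hN
  obtain ⟨C', hC', hCC'⟩ := close_iter T S t₀ C₀ hC₀.le ht₀.le hdeg hcf N
    (‖z‖ + 1) (by positivity)
  obtain ⟨δ', hδ'd⟩ : ∃ δ' : ℝ, δ' = min 1 (δ / (4 * (C' + 1))) := ⟨_, rfl⟩
  have hδ'0 : 0 < δ' := by rw [hδ'd]; exact lt_min one_pos (by positivity)
  have hδ'1 : δ' ≤ 1 := by rw [hδ'd]; exact min_le_left _ _
  have hδ'2 : (C' + 1) * δ' ≤ δ / 4 := by
    have h1 : δ' ≤ δ / (4 * (C' + 1)) := by rw [hδ'd]; exact min_le_right _ _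
    rw [le_div_iff₀ (by positivity)] at h1
    linarith
  -- the small parameters
  have hμ1 : ∀ᶠ t : ℝ in 𝓝[>] 0, ‖μ t‖ < min s₀ (δ' / B) := by
    have := hμ.norm
    rw [norm_zero] at this
    exact this.eventually (gt_mem_nhds (lt_min hs₀ (by positivity)))
  have hall := (H.and hμ1).and (self_mem_nhdsWithin : ∀ᶠ t : ℝ in 𝓝[>] 0, t ∈ Ioi (0 : ℝ))
  obtain ⟨t₁, ht₁, hall'⟩ := (mem_nhdsGT_iff_exists_Ioo_subset' (zero_lt_one (α := ℝ))).1 hall
  rw [mem_Ioi] at ht₁
  refine ⟨δ', min t₁ (min t₀ δ'), hδ'0, lt_min ht₁ (lt_min ht₀ hδ'0), ?_⟩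
  intro t ht htt z' hz'
  obtain ⟨⟨⟨hfixt, hmult, hμne, hμre, hbd⟩, hμs⟩, _⟩ := hall' ⟨ht, htt.trans_le (min_le_left _ _)⟩
  have ht0 : t ≤ t₀ := (htt.le.trans (min_le_right _ _)).trans (min_le_left _ _)
  have htd : t ≤ δ' := (htt.le.trans (min_le_right _ _)).trans (min_le_right _ _)
  have hμs1 : ‖μ t‖ < s₀ := hμs.trans_le (min_le_left _ _)
  have hμs2 : B * ‖μ t‖ < δ' := by
    have := hμs.trans_le (min_le_right _ _)
    rw [lt_div_iff₀ hB] at this
    linarith
  have hy1 : ‖y t - x‖ ≤ δ' := by linarith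
  have hres := hmain (μ t) hμne hμs1 hμre (cen (S t) P (y t)) (cen_diff _ _ _).differentiableOn
    (fun v hv => (hclose t ht.le ht0 (by linarith) v hv).trans (by
      have := mul_le_mul_of_nonneg_left hbd (by linarith : 0 ≤ CI + 1)
      linarith))
    (by simp [cen, hS, hfixt])
    (by rw [cen_deriv]; exact hmult)
    ((ev (S t))^[N] z' - y t)
    (by
      rw [mem_ball, dist_eq_norm, hit, horb, ← hN]
      have hz1 : ‖z' - z‖ < δ' := by simpa [dist_eq_norm] using hz'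
      have hz'2 : ‖z'‖ ≤ ‖z‖ + 1 := by
        have : z' = z + (z' - z) := by ring
        rw [this]
        exact (norm_add_le _ _).trans (by linarith)
      have e1 := hCC' t ht.le ht0 z' z hz'2 (by linarith)
      have e2 : (ev (S t))^[N] z' - y t - ((ev T)^[N] z - x) =
          ((ev (S t))^[N] z' - (ev T)^[N] z) - (y t - x) := by ring
      rw [e2]
      refine (norm_sub_le _ _).trans_lt ?_
      have e4 : C' * (t + ‖z' - z‖) ≤ C' * (δ' + δ') :=
        mul_le_mul_of_nonneg_left (by linarith) hC'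
      nlinarith)
  obtain ⟨x', hx'b, hx'f, hx'd, hx'l⟩ := hres
  right
  refine ⟨P, hP, y t + x', ?_, ?_, ?_⟩
  · have := hx'f
    simp only [cen] at this
    show (ev (S t))^[P] (y t + x') = y t + x'
    linear_combination this
  · have h1 : deriv (cen (S t) P (y t)) x' = deriv ((ev (S t))^[P]) (y t + x') := by
      unfold cen
      rw [deriv_sub_const, deriv_comp_const_add]
    rw [h1] at hx'd
    exact hx'd
  · simp only [cen_iter] at hx'l
    have h2 : Tendsto (fun j : ℕ => (ev (S t))^[P * j] (y t + ((ev (S t))^[N] z' - y t)))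
        atTop (𝓝 (y t + x')) := by
      have := hx'l.add_const (y t)
      simpa [add_comm] using this
    rw [add_sub_cancel] at h2
    have h3 : ∀ j : ℕ, (ev (S t))^[P * j] ((ev (S t))^[N] z') =
        (ev (S t))^[P * (j + (k₀ + i₀))] z' := by
      intro j
      rw [← Function.iterate_add_apply, hN]
      congr 2
      ring
    simp only [h3] at h2
    exact (tendsto_add_atTop_iff_nat (f := fun j : ℕ => (ev (S t))^[P * j] z') (k₀ + i₀)).1 h2

end Run7.h904.PF
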