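import Mathlib
import Pool.Agent.Run7.h904.PPar

set_option autoImplicit false

open Topology Filter Metric Set Polynomial MeasureTheory Asymptotics

namespace Run7.h904.PF

open Pool.Agent.H713R5.QJ
open Pool.Agent.H713R5.QJ.APP

/-- the polynomial of the iterate -/
noncomputable def itp (S : ℂ[X]) (p : ℕ) : ℂ[X] := S.comp^[p] X

lemma itp_eval (S : ℂ[X]) (p : ℕ) (z : ℂ) : (itp S p).eval z = (ev S)^[p] z := by
  unfold itp
  rw [iterate_comp_eval, eval_X]
  rfl

lemma itp_deg (S : ℂ[X]) (p : ℕ) : (itp S p).natDegree = S.natDegree ^ p := by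
  unfold itp
  rw [natDegree_iterate_comp, natDegree_X, mul_one]

lemma itp_lead (d p : ℕ) (hd : 0 < d) : ∃ e : ℕ, ∀ S : ℂ[X], S.natDegree = d →
    (itp S p).leadingCoeff = S.leadingCoeff ^ e := by
  induction p with
  | zero => exact ⟨0, fun S _ => by simp [itp]⟩
  | succ p ih =>
    obtain ⟨e, he⟩ := ih
    refine ⟨1 + e * d, fun S hS => ?_⟩
    have h1 : itp S (p + 1) = S.comp (itp S p) := Function.iterate_succ_apply' _ _ _
    have h2 : (itp S p).natDegree ≠ 0 := by
      rw [itp_deg, hS]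
      positivity
    rw [h1, leadingCoeff_comp h2, he S hS, hS, pow_add, pow_one, pow_mul]

lemma prod_bound (x : ℂ) (c : ℝ) (hc : 0 ≤ c) (s : Multiset ℂ) (h : ∀ r ∈ s, c ≤ ‖x - r‖) :
    c ^ (Multiset.card s) ≤ ‖(s.map (fun r => x - r)).prod‖ := by
  induction s using Multiset.induction_on with
  | empty => simp
  | cons a s ih =>
    rw [Multiset.card_cons, Multiset.map_cons, Multiset.prod_cons, norm_mul, pow_succ, mul_comm]
    exact mul_le_mul (h a (Multiset.mem_cons_self a s))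
      (ih fun r hr => h r (Multiset.mem_cons_of_mem hr)) (by positivity) (norm_nonneg _)

/-- a polynomial with a small value has a root nearby -/
lemma near_root (P : ℂ[X]) (hP : 0 < P.natDegree) (x : ℂ) :
    ∃ r : ℂ, P.eval r = 0 ∧ ‖P.leadingCoeff‖ * ‖r - x‖ ^ P.natDegree ≤ ‖P.eval x‖ := by
  have hsp : P.Splits := IsAlgClosed.splits P
  have hP0 : P ≠ 0 := by rintro rfl; simp at hP
  have hcard : P.natDegree = Multiset.card P.roots := hsp.natDegree_eq_card_roots
  have hne : P.roots.toFinset.Nonempty := by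
    obtain ⟨a, ha⟩ := Multiset.card_pos_iff_exists_mem.mp (by omega : 0 < Multiset.card P.roots)
    exact ⟨a, Multiset.mem_toFinset.mpr ha⟩
  obtain ⟨r, hr, hmin⟩ := P.roots.toFinset.exists_min_image (fun r => ‖x - r‖) hne
  refine ⟨r, ?_, ?_⟩
  · exact (mem_roots hP0).mp (Multiset.mem_toFinset.mp hr)
  · rw [hsp.eval_eq_prod_roots, norm_mul, norm_sub_rev, hcard]
    refine mul_le_mul_of_nonneg_left ?_ (norm_nonneg _)
    exact prod_bound x _ (norm_nonneg _) _ fun a ha => hmin a (Multiset.mem_toFinset.mpr ha)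

lemma tendsto_of_pow (l : Filter ℝ) (f : ℝ → ℂ) (N : ℕ) (h : Tendsto (fun t => ‖f t‖ ^ N) l (𝓝 0)) :
    Tendsto f l (𝓝 0) := by
  rw [Metric.tendsto_nhds]
  intro ε hε
  have h1 : (0 : ℝ) < ε ^ N := by positivity
  filter_upwards [h.eventually (gt_mem_nhds h1)] with t ht
  rw [dist_zero_right]
  exact lt_of_pow_lt_pow_left₀ N hε.le ht

lemma tendsto_ofReal0 : Tendsto (fun t : ℝ => (t : ℂ)) (𝓝[>] 0) (𝓝 0) := by
  have : Tendsto (fun t : ℝ => (t : ℂ)) (𝓝 0) (𝓝 ((0 : ℝ) : ℂ)) :=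
    Complex.continuous_ofReal.tendsto 0
  rw [Complex.ofReal_zero] at this
  exact this.mono_left nhdsWithin_le_nhds

/-- values of the iterates -/
lemma St_iter_tendsto (T V : ℂ[X]) (y : ℝ → ℂ) (x : ℂ) (hy : Tendsto y (𝓝[>] 0) (𝓝 x)) (n : ℕ) :
    Tendsto (fun t => (ev (St T V t))^[n] (y t)) (𝓝[>] 0) (𝓝 ((ev T)^[n] x)) := by
  induction n with
  | zero => simpa using hy
  | succ n ih =>
    simp only [Function.iterate_succ_apply']
    have h1 : Tendsto (fun t => T.eval ((ev (St T V t))^[n] (y t)) +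
        (t : ℂ) * V.eval ((ev (St T V t))^[n] (y t))) (𝓝[>] 0)
        (𝓝 (T.eval ((ev T)^[n] x) + 0 * V.eval ((ev T)^[n] x))) :=
      ((T.continuous.tendsto _).comp ih).add
        (tendsto_ofReal0.mul ((V.continuous.tendsto _).comp ih))
    rw [zero_mul, add_zero] at h1
    refine h1.congr fun t => ?_
    show _ = (St T V t).eval _
    rw [St_eval]

lemma near_fix (T V : ℂ[X]) (hT : 2 ≤ T.natDegree) (hV : V.natDegree ≤ T.natDegree) (p : ℕ)
    (hp : 0 < p) (x : ℂ) (hx : (ev T)^[p] x = x) :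
    ∃ y : ℝ → ℂ, (∀ᶠ t in 𝓝[>] (0 : ℝ), (ev (St T V t))^[p] (y t) = y t) ∧
      Tendsto y (𝓝[>] 0) (𝓝 x) := by
  obtain ⟨t₀, C₀, ht₀, ht₀1, hC₀, hdeg, hcf⟩ := St_ctl T V hT hV
  obtain ⟨e, he⟩ := itp_lead T.natDegree p (by omega)
  have hdp : 2 ≤ T.natDegree ^ p := by
    calc 2 ≤ T.natDegree := hT
      _ = T.natDegree ^ 1 := (pow_one _).symm
      _ ≤ T.natDegree ^ p := Nat.pow_le_pow_right (by omega) hp
  have hgt : ∀ t : ℝ, 0 ≤ t → t ≤ t₀ → (X : ℂ[X]).natDegree < (itp (St T V t) p).natDegree := by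
    intro t ht htt
    rw [itp_deg, hdeg t ht htt, natDegree_X]
    omega
  have hD : ∀ t : ℝ, 0 ≤ t → t ≤ t₀ → (itp (St T V t) p - X).natDegree = T.natDegree ^ p := by
    intro t ht htt
    rw [natDegree_sub_eq_left_of_natDegree_lt (hgt t ht htt), itp_deg, hdeg t ht htt]
  have hL : ∀ t : ℝ, 0 ≤ t → t ≤ t₀ → (itp (St T V t) p - X).leadingCoeff =
      (St T V t).leadingCoeff ^ e := by
    intro t ht htt
    rw [leadingCoeff, hD t ht htt, coeff_sub, coeff_X_of_ne_one (by omega), sub_zero,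
      ← he _ (hdeg t ht htt), leadingCoeff, itp_deg, hdeg t ht htt]
  have hroot : ∀ t : ℝ, ∃ y : ℂ, 0 ≤ t → t ≤ t₀ → (ev (St T V t))^[p] y = y ∧
      ‖(St T V t).coeff T.natDegree‖ ^ e * ‖y - x‖ ^ (T.natDegree ^ p) ≤
        ‖(ev (St T V t))^[p] x - x‖ := by
    intro t
    by_cases h : 0 ≤ t ∧ t ≤ t₀
    · obtain ⟨r, hr1, hr2⟩ := near_root (itp (St T V t) p - X)
        (by rw [hD t h.1 h.2]; omega) x
      refine ⟨r, fun _ _ => ⟨?_, ?_⟩⟩
      · rw [eval_sub, eval_X, itp_eval] at hr1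
        exact sub_eq_zero.mp hr1
      · rw [hL t h.1 h.2, hD t h.1 h.2, leadingCoeff, hdeg t h.1 h.2, norm_pow, eval_sub, eval_X,
          itp_eval] at hr2
        exact hr2
    · exact ⟨0, fun h1 h2 => absurd ⟨h1, h2⟩ h⟩
  choose y hy using hroot
  have hmem : ∀ᶠ t in 𝓝[>] (0 : ℝ), 0 ≤ t ∧ t ≤ t₀ := by
    have h1 : Ioo (0 : ℝ) t₀ ∈ 𝓝[>] (0 : ℝ) := Ioo_mem_nhdsGT ht₀
    filter_upwards [h1] with t ht
    exact ⟨ht.1.le, ht.2.le⟩
  refine ⟨y, ?_, ?_⟩
  · filter_upwards [hmem] with t ht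
    exact (hy t ht.1 ht.2).1
  · -- convergence
    have hlead : Tendsto (fun t : ℝ => ‖(St T V t).coeff T.natDegree‖ ^ e) (𝓝[>] 0)
        (𝓝 (‖T.coeff T.natDegree‖ ^ e)) := by
      have h1 : Tendsto (fun t : ℝ => T.coeff T.natDegree + (t : ℂ) * V.coeff T.natDegree)
          (𝓝[>] 0) (𝓝 (T.coeff T.natDegree + 0 * V.coeff T.natDegree)) :=
        tendsto_const_nhds.add (tendsto_ofReal0.mul_const _)
      rw [zero_mul, add_zero] at h1
      refine (h1.norm.pow e).congr fun t => ?_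
      rw [St_coeff]
    have hlc : T.coeff T.natDegree ≠ 0 := by
      rw [coeff_natDegree]
      exact leadingCoeff_ne_zero.mpr (by rintro rfl; simp at hT)
    have hln : 0 < ‖T.coeff T.natDegree‖ ^ e := by
      have := norm_pos_iff.mpr hlc
      positivity
    have hval : Tendsto (fun t : ℝ => ‖(ev (St T V t))^[p] x - x‖) (𝓝[>] 0) (𝓝 0) := by
      have h1 := (St_iter_tendsto T V (fun _ => x) x tendsto_const_nhds p).sub_const x
      rw [hx, sub_self] at h1
      simpa using h1.norm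
    have hq : Tendsto (fun t : ℝ => ‖(ev (St T V t))^[p] x - x‖ /
        ‖(St T V t).coeff T.natDegree‖ ^ e) (𝓝[>] 0) (𝓝 0) := by
      have := hval.div hlead hln.ne'
      rw [zero_div] at this
      exact this
    have hpow : Tendsto (fun t : ℝ => ‖y t - x‖ ^ (T.natDegree ^ p)) (𝓝[>] 0) (𝓝 0) := by
      refine squeeze_zero' (Eventually.of_forall fun t => by positivity) ?_ hq
      filter_upwards [hmem, hlead.eventually (lt_mem_nhds hln)] with t ht hlt
      rw [le_div_iff₀ hlt, mul_comm]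
      exact (hy t ht.1 ht.2).2
    have h0 := tendsto_of_pow (𝓝[>] 0) (fun t => y t - x) _ hpow
    have := h0.add_const x
    simpa using this

/-- difference quotients of polynomials -/
lemma slope_poly (P : ℂ[X]) (l : Filter ℝ) (a b : ℝ → ℂ) (z c : ℂ) (ha : Tendsto a l (𝓝 z))
    (hb : Tendsto b l (𝓝 z)) (h : Tendsto (fun t => (a t - b t) / (t : ℂ)) l (𝓝 c))
    (hl : ∀ᶠ t in l, t ≠ 0) :
    Tendsto (fun t => (P.eval (a t) - P.eval (b t)) / (t : ℂ)) l
      (𝓝 ((derivative P).eval z * c)) := by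
  have h1 : (fun t => P.eval (a t) - P.eval (b t) - (a t - b t) • (derivative P).eval z) =o[l]
      (fun t => a t - b t) :=
    ((P.hasStrictDerivAt z).isLittleO).comp_tendsto (ha.prodMk_nhds hb)
  have h2 : (fun t => a t - b t) =O[l] (fun t : ℝ => (t : ℂ)) := by
    refine isBigO_of_div_tendsto_nhds ?_ c h
    filter_upwards [hl] with t ht h0
    exact absurd (by exact_mod_cast h0) ht
  have h3 := (h1.trans_isBigO h2).tendsto_div_nhds_zero
  have h4 := h3.add (h.mul_const ((derivative P).eval z))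
  rw [zero_add, mul_comm c] at h4
  refine h4.congr fun t => ?_
  rw [smul_eq_mul]
  ring

lemma ne0_nhdsGT : ∀ᶠ t in 𝓝[>] (0 : ℝ), t ≠ 0 := by
  filter_upwards [self_mem_nhdsWithin] with t ht
  exact (mem_Ioi.mp ht).ne'

/-- derivative of the iterates in the direction `V` -/
noncomputable def ll (T V : ℂ[X]) (x : ℂ) : ℕ → ℂ
  | 0 => 0
  | n + 1 => (derivative T).eval ((ev T)^[n] x) * ll T V x n + V.eval ((ev T)^[n] x)

lemma iter_slope (T V : ℂ[X]) (y : ℝ → ℂ) (x : ℂ) (hy : Tendsto y (𝓝[>] 0) (𝓝 x)) (n : ℕ) :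
    Tendsto (fun t : ℝ => ((ev (St T V t))^[n] (y t) - (ev T)^[n] (y t)) / (t : ℂ)) (𝓝[>] 0)
      (𝓝 (ll T V x n)) := by
  induction n with
  | zero => simp [ll]
  | succ n ih =>
    simp only [Function.iterate_succ_apply', ll]
    have hcT : Continuous ((ev T)^[n]) := by
      have : Continuous (ev T) := T.continuous
      exact this.iterate n
    have h1 := slope_poly T (𝓝[>] 0) (fun t => (ev (St T V t))^[n] (y t))
      (fun t => (ev T)^[n] (y t)) ((ev T)^[n] x) _ (St_iter_tendsto T V y x hy n)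
      ((hcT.tendsto x).comp hy) ih ne0_nhdsGT
    have h2 := (V.continuous.tendsto _).comp (St_iter_tendsto T V y x hy n)
    refine (h1.add h2).congr' ?_
    filter_upwards [ne0_nhdsGT] with t ht
    have htC : (t : ℂ) ≠ 0 := by exact_mod_cast ht
    have e1 : ev (St T V t) ((ev (St T V t))^[n] (y t)) = T.eval ((ev (St T V t))^[n] (y t)) +
        t * V.eval ((ev (St T V t))^[n] (y t)) := St_eval _ _ _ _
    rw [e1]
    simp only [Function.comp, ev]
    field_simp
    ring

/-- derivative of the cycle in the direction `V` -/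
lemma cyc_slope (T V : ℂ[X]) (y : ℝ → ℂ) (x w : ℂ) (hy : Tendsto y (𝓝[>] 0) (𝓝 x))
    (hw : Tendsto (fun t : ℝ => (y t - x) / (t : ℂ)) (𝓝[>] 0) (𝓝 w)) (n : ℕ) :
    Tendsto (fun t : ℝ => ((ev (St T V t))^[n] (y t) - (ev T)^[n] x) / (t : ℂ)) (𝓝[>] 0)
      (𝓝 ((∏ i ∈ Finset.range n, (derivative T).eval ((ev T)^[i] x)) * w + ll T V x n)) := by
  induction n with
  | zero => simpa [ll] using hw
  | succ n ih =>
    simp only [Function.iterate_succ_apply', ll]
    have h1 := slope_poly T (𝓝[>] 0) (fun t => (ev (St T V t))^[n] (y t))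
      (fun _ => (ev T)^[n] x) ((ev T)^[n] x) _ (St_iter_tendsto T V y x hy n)
      tendsto_const_nhds ih ne0_nhdsGT
    have h2 := (V.continuous.tendsto _).comp (St_iter_tendsto T V y x hy n)
    have e0 : (∏ i ∈ Finset.range (n + 1), (derivative T).eval ((ev T)^[i] x)) * w +
        ((derivative T).eval ((ev T)^[n] x) * ll T V x n + V.eval ((ev T)^[n] x)) =
        (derivative T).eval ((ev T)^[n] x) *
          ((∏ i ∈ Finset.range n, (derivative T).eval ((ev T)^[i] x)) * w + ll T V x n) +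
        V.eval ((ev T)^[n] x) := by
      rw [Finset.prod_range_succ]; ring
    rw [e0]
    refine (h1.add h2).congr' ?_
    filter_upwards [ne0_nhdsGT] with t ht
    have htC : (t : ℂ) ≠ 0 := by exact_mod_cast ht
    have e1 : ev (St T V t) ((ev (St T V t))^[n] (y t)) = T.eval ((ev (St T V t))^[n] (y t)) +
        t * V.eval ((ev (St T V t))^[n] (y t)) := St_eval _ _ _ _
    rw [e1]
    simp only [Function.comp, ev]
    field_simp
    ring

/-- derivative of a product -/
lemma prod_slope (g : ℕ → ℝ → ℂ) (g0 h : ℕ → ℂ) (l : Filter ℝ) (n : ℕ) (hg0 : ∀ i < n, g0 i ≠ 0)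
    (hg : ∀ i < n, Tendsto (g i) l (𝓝 (g0 i)))
    (hh : ∀ i < n, Tendsto (fun t => (g i t - g0 i) / (t : ℂ)) l (𝓝 (h i))) :
    Tendsto (fun t => ((∏ i ∈ Finset.range n, g i t) - ∏ i ∈ Finset.range n, g0 i) / (t : ℂ)) l
      (𝓝 ((∏ i ∈ Finset.range n, g0 i) * ∑ i ∈ Finset.range n, h i / g0 i)) := by
  induction n with
  | zero =>
    simp only [Finset.range_zero, Finset.prod_empty, Finset.sum_empty, sub_self, zero_div, mul_zero]
    exact tendsto_const_nhds
  | succ n ih =>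
    have h1 := ih (fun i hi => hg0 i (by omega)) (fun i hi => hg i (by omega))
      (fun i hi => hh i (by omega))
    have h2 := (h1.mul (hg n (by omega))).add ((hh n (by omega)).const_mul
      (∏ i ∈ Finset.range n, g0 i))
    have e : (∏ i ∈ Finset.range (n + 1), g0 i) * ∑ i ∈ Finset.range (n + 1), h i / g0 i =
        (∏ i ∈ Finset.range n, g0 i) * (∑ i ∈ Finset.range n, h i / g0 i) * g0 n +
        (∏ i ∈ Finset.range n, g0 i) * h n := by
      rw [Finset.prod_range_succ, Finset.sum_range_succ]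
      have := hg0 n (by omega)
      field_simp
    rw [e]
    refine h2.congr fun t => ?_
    rw [Finset.prod_range_succ, Finset.prod_range_succ]
    ring

end Run7.h904.PF
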