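import Mathlib
import Pool.Agent.Run7.h904.PAsy

set_option autoImplicit false

open Topology Filter Metric Set Polynomial MeasureTheory Asymptotics

namespace Run7.h904.PF

open Pool.Agent.H713R5.QJ
open Pool.Agent.H713R5.QJ.APP

/-- products of derivatives along the orbit -/
noncomputable def dd (T : ℂ[X]) (x : ℂ) (n : ℕ) : ℂ :=
  ∏ i ∈ Finset.range n, (derivative T).eval ((ev T)^[i] x)

/-- logarithmic derivative of the multiplier in the direction `V` -/
noncomputable def kap (T V : ℂ[X]) (x : ℂ) (p : ℕ) (lam : ℂ) : ℂ :=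
  ∑ i ∈ Finset.range p, ((derivative (derivative T)).eval ((ev T)^[i] x) *
      (dd T x i * (ll T V x p / (1 - lam)) + ll T V x i) +
      (derivative V).eval ((ev T)^[i] x)) / (derivative T).eval ((ev T)^[i] x)

lemma eventually_small (l : Filter ℝ) (f : ℝ → ℂ) (c : ℂ) (h : Tendsto f l (𝓝 c)) (hc : c.re ≠ 0) :
    ∀ᶠ t in l, ‖f t‖ ≤ 2 * ‖c‖ ∧ |c.re| / 2 ≤ |(f t).re| := by
  have hc0 : 0 < ‖c‖ := norm_pos_iff.mpr (by rintro rfl; simp at hc)
  have h1 := h.norm.eventually (gt_mem_nhds (by linarith : ‖c‖ < 2 * ‖c‖))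
  have hr : 0 < |c.re| := abs_pos.mpr hc
  have h2 : Tendsto (fun t => |(f t).re|) l (𝓝 |c.re|) :=
    ((Complex.continuous_re.tendsto c).comp h).abs
  have h3 := h2.eventually (lt_mem_nhds (by linarith : |c.re| / 2 < |c.re|))
  filter_upwards [h1, h3] with t ht1 ht2
  exact ⟨ht1.le, ht2.le⟩

theorem typeA (T V : ℂ[X]) (hT : 2 ≤ T.natDegree) (hV : V.natDegree ≤ T.natDegree) (p q : ℕ)
    (hp : 0 < p) (hq : 0 < q) (x lam : ℂ) (hx : (ev T)^[p] x = x)
    (hlam : deriv ((ev T)^[p]) x = lam) (hq1 : lam ^ q = 1) (hne : lam ≠ 1)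
    (hκ : (kap T V x p lam).re ≠ 0) (z : ℂ)
    (hlim : Tendsto (fun i : ℕ => (ev T)^[p * q * i] z) atTop (𝓝 x))
    (hzx : ∀ i : ℕ, (ev T)^[p * q * i] z ≠ x) : GD T V z := by
  obtain ⟨y, hy1, hy2⟩ := near_fix T V hT hV p hp x hx
  have hdd : dd T x p = lam := by rw [← hlam]; exact (opg_hasDeriv T p x).deriv.symm
  have hlam0 : lam ≠ 0 := by
    rintro rfl
    rw [zero_pow hq.ne'] at hq1
    exact zero_ne_one hq1
  have h1lam : (1 : ℂ) - lam ≠ 0 := sub_ne_zero.mpr hne.symm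
  have hg0 : ∀ i < p, (derivative T).eval ((ev T)^[i] x) ≠ 0 := by
    intro i hi h0
    apply hlam0
    rw [← hdd]
    exact Finset.prod_eq_zero (Finset.mem_range.mpr hi) h0
  -- the displacement
  obtain ⟨w, hw⟩ : ∃ w : ℂ, w = ll T V x p / (1 - lam) := ⟨_, rfl⟩
  have hyw : Tendsto (fun t : ℝ => (y t - x) / (t : ℂ)) (𝓝[>] 0) (𝓝 w) := by
    have hfd : HasDerivAt (fun z => (ev T)^[p] z - z) (lam - 1) x := by
      have h1 := (opg_hasDeriv T p x)
      rw [← (opg_hasDeriv T p x).deriv, hlam] at h1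
      exact h1.sub (hasDerivAt_id x)
    have hc : ContinuousAt (dslope (fun z => (ev T)^[p] z - z) x) x :=
      continuousAt_dslope_same.mpr hfd.differentiableAt
    have h2 : Tendsto (fun t => dslope (fun z => (ev T)^[p] z - z) x (y t)) (𝓝[>] 0)
        (𝓝 (lam - 1)) := by
      have := hc.tendsto.comp hy2
      rw [dslope_same, hfd.deriv] at this
      exact this
    have h3 := (iter_slope T V y x hy2 p).neg.div h2 (sub_ne_zero.mpr hne)
    have e : w = -ll T V x p / (lam - 1) := by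
      rw [hw]
      have : lam - 1 ≠ 0 := sub_ne_zero.mpr hne
      field_simp
      ring
    rw [e]
    refine h3.congr' ?_
    have h4 : ∀ᶠ t in 𝓝[>] (0 : ℝ), dslope (fun z => (ev T)^[p] z - z) x (y t) ≠ 0 :=
      h2.eventually_ne (sub_ne_zero.mpr hne)
    filter_upwards [hy1, h4, ne0_nhdsGT] with t ht1 ht2 ht3
    have htC : (t : ℂ) ≠ 0 := by exact_mod_cast ht3
    have h5 := sub_smul_dslope (fun z => (ev T)^[p] z - z) x (y t)
    simp only [hx, sub_self, sub_zero, smul_eq_mul] at h5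
    show -(((ev (St T V t))^[p] (y t) - (ev T)^[p] (y t)) / (t : ℂ)) /
      dslope (fun z => (ev T)^[p] z - z) x (y t) = (y t - x) / t
    rw [ht1]
    field_simp
    linear_combination -h5
  have hcs := fun n => cyc_slope T V y x w hy2 hyw n
  -- the multiplier
  have hmul : Tendsto (fun t : ℝ => (deriv ((ev (St T V t))^[p]) (y t) - lam) / (t : ℂ)) (𝓝[>] 0)
      (𝓝 (lam * kap T V x p lam)) := by
    have h1 := prod_slope (fun i t => (derivative (St T V t)).eval ((ev (St T V t))^[i] (y t)))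
      (fun i => (derivative T).eval ((ev T)^[i] x))
      (fun i => (derivative (derivative T)).eval ((ev T)^[i] x) * (dd T x i * w + ll T V x i) +
        (derivative V).eval ((ev T)^[i] x)) (𝓝[>] 0) p hg0 ?_ ?_
    · have e1 : (∏ i ∈ Finset.range p, (derivative T).eval ((ev T)^[i] x)) = lam := hdd
      rw [e1, hw] at h1
      refine h1.congr fun t => ?_
      rw [(opg_hasDeriv (St T V t) p (y t)).deriv]
    · intro i _
      have h2 : Tendsto (fun t => (derivative T).eval ((ev (St T V t))^[i] (y t)) +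
          (t : ℂ) * (derivative V).eval ((ev (St T V t))^[i] (y t))) (𝓝[>] 0)
          (𝓝 ((derivative T).eval ((ev T)^[i] x) + 0 * (derivative V).eval ((ev T)^[i] x))) :=
        (((derivative T).continuous.tendsto _).comp (St_iter_tendsto T V y x hy2 i)).add
          (tendsto_ofReal0.mul
            (((derivative V).continuous.tendsto _).comp (St_iter_tendsto T V y x hy2 i)))
      rw [zero_mul, add_zero] at h2
      refine h2.congr fun t => ?_
      rw [St_deval]
    · intro i _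
      have h2 := slope_poly (derivative T) (𝓝[>] 0) (fun t => (ev (St T V t))^[i] (y t))
        (fun _ => (ev T)^[i] x) ((ev T)^[i] x) _ (St_iter_tendsto T V y x hy2 i)
        tendsto_const_nhds (hcs i) ne0_nhdsGT
      have h3 := ((derivative V).continuous.tendsto _).comp (St_iter_tendsto T V y x hy2 i)
      refine (h2.add h3).congr' ?_
      filter_upwards [ne0_nhdsGT] with t ht
      have htC : (t : ℂ) ≠ 0 := by exact_mod_cast ht
      rw [St_deval]
      simp only [Function.comp]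
      field_simp
      ring
  have hmt : Tendsto (fun t : ℝ => deriv ((ev (St T V t))^[p]) (y t)) (𝓝[>] 0) (𝓝 lam) := by
    have h1 := hmul.mul tendsto_ofReal0
    rw [mul_zero] at h1
    have h2 := h1.add_const lam
    rw [zero_add] at h2
    refine h2.congr' ?_
    filter_upwards [ne0_nhdsGT] with t ht
    have htC : (t : ℂ) ≠ 0 := by exact_mod_cast ht
    field_simp
    ring
  obtain ⟨μ, hμd⟩ : ∃ μ : ℝ → ℂ, μ = fun t => (deriv ((ev (St T V t))^[p]) (y t)) ^ q - 1 :=
    ⟨_, rfl⟩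
  have hμt : Tendsto (fun t : ℝ => μ t / (t : ℂ)) (𝓝[>] 0) (𝓝 (q * kap T V x p lam)) := by
    have h1 := slope_poly (X ^ q) (𝓝[>] 0) (fun t => deriv ((ev (St T V t))^[p]) (y t))
      (fun _ => lam) lam _ hmt tendsto_const_nhds hmul ne0_nhdsGT
    have e1 : (derivative (X ^ q : ℂ[X])).eval lam * (lam * kap T V x p lam) =
        q * kap T V x p lam := by
      rw [derivative_X_pow, eval_mul, eval_C, eval_pow, eval_X]
      have : lam ^ (q - 1) * lam = 1 := by
        rw [← pow_succ, Nat.sub_add_cancel hq, hq1]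
      linear_combination ((q : ℂ) * kap T V x p lam) * this
    rw [e1] at h1
    refine h1.congr fun t => ?_
    simp only [hμd, eval_pow, eval_X, hq1]
  have hc : ((q : ℂ) * kap T V x p lam).re ≠ 0 := by
    have : ((q : ℂ) * kap T V x p lam).re = q * (kap T V x p lam).re := by simp
    rw [this]
    have hq' : (q : ℝ) ≠ 0 := by exact_mod_cast hq.ne'
    exact mul_ne_zero hq' hκ
  generalize hcd : (q : ℂ) * kap T V x p lam = c at hμt hc
  have hcn : 0 < ‖c‖ := norm_pos_iff.mpr (by rintro rfl; simp at hc)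
  have hcr : 0 < |c.re| := abs_pos.mpr hc
  have hmul' : deriv ((ev T)^[p * q]) x = 1 := by
    have h1 : HasDerivAt ((ev T)^[p]) lam x := by
      rw [← hlam]
      exact (differentiable_iter T p).differentiableAt.hasDerivAt
    have h2 := HasDerivAt.iterate _ h1 hx q
    rw [Function.iterate_mul, h2.deriv, hq1]
  have hfix' : (ev T)^[p * q] x = x := by
    rw [Function.iterate_mul]
    exact Function.iterate_fixed hx q
  refine appmu T V hT hV (p * q) (Nat.mul_pos hp hq) x hfix' hmul' y μ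
    (|c.re| / (4 * ‖c‖)) (2 * (2 + ‖w‖) / |c.re|) (by positivity) ?_ (by positivity) ?_ ?_ z
    hlim hzx
  · rw [div_le_one (by positivity)]
    have := Complex.abs_re_le_norm c
    linarith
  · have hyw' := hyw.norm.eventually (gt_mem_nhds (by linarith : ‖w‖ < ‖w‖ + 1))
    filter_upwards [hy1, eventually_small _ _ c hμt hc, hyw', self_mem_nhdsWithin] with t ht1 ht2
      ht3 ht4
    have ht0 : 0 < t := ht4
    have htn : ‖(t : ℂ)‖ = t := Complex.norm_of_nonneg ht0.le
    obtain ⟨hb1, hb2⟩ := ht2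
    rw [norm_div, htn, div_le_iff₀ ht0] at hb1
    have hre : (μ t / (t : ℂ)).re = (μ t).re / t := by
      rw [Complex.div_ofReal_re]
    rw [hre, abs_div, abs_of_pos ht0, le_div_iff₀ ht0] at hb2
    rw [norm_div, htn, div_lt_iff₀ ht0] at ht3
    have hμn : |c.re| / 2 * t ≤ ‖μ t‖ := hb2.trans (Complex.abs_re_le_norm _)
    refine ⟨?_, ?_, ?_, ?_, ?_⟩
    · rw [Function.iterate_mul]
      exact Function.iterate_fixed ht1 q
    · have h1 : HasDerivAt ((ev (St T V t))^[p]) (deriv ((ev (St T V t))^[p]) (y t)) (y t) :=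
        (differentiable_iter _ p).differentiableAt.hasDerivAt
      have h2 := HasDerivAt.iterate _ h1 ht1 q
      rw [Function.iterate_mul, h2.deriv, hμd]
      ring
    · intro h0
      rw [h0, norm_zero] at hμn
      have : 0 < |c.re| / 2 * t := by positivity
      linarith
    · refine le_trans ?_ hb2
      rw [div_mul_eq_mul_div, div_le_iff₀ (by positivity)]
      have := mul_le_mul_of_nonneg_left hb1 hcr.le
      nlinarith
    · rw [div_mul_eq_mul_div, le_div_iff₀ hcr]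
      have h3 : t + ‖y t - x‖ ≤ (2 + ‖w‖) * t := by linarith
      have h4 := mul_le_mul_of_nonneg_right h3 hcr.le
      have h5 := mul_le_mul_of_nonneg_left hμn (by positivity : 0 ≤ 2 * (2 + ‖w‖))
      linarith
  · have h1 := hμt.mul tendsto_ofReal0
    rw [mul_zero] at h1
    refine h1.congr' ?_
    filter_upwards [ne0_nhdsGT] with t ht
    have htC : (t : ℂ) ≠ 0 := by exact_mod_cast ht
    field_simp

/-- asymptotics of the perturbed fixed points -/
lemma fix_asym (T V : ℂ[X]) (p k : ℕ) (x al : ℂ)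
    (Q : ℂ[X]) (hQ : itp T p - X = (X - C x) ^ (k + 1) * Q) (hQx : Q.eval x = al) (hal : al ≠ 0)
    (y : ℝ → ℂ) (hy1 : ∀ᶠ t in 𝓝[>] (0 : ℝ), (ev (St T V t))^[p] (y t) = y t)
    (hy2 : Tendsto y (𝓝[>] 0) (𝓝 x)) :
    Tendsto (fun t : ℝ => (y t - x) ^ (k + 1) / (t : ℂ)) (𝓝[>] 0) (𝓝 (- ll T V x p / al)) := by
  have h1 : Tendsto (fun t => Q.eval (y t)) (𝓝[>] 0) (𝓝 al) := by
    rw [← hQx]
    exact (Q.continuous.tendsto x).comp hy2
  have h2 := (iter_slope T V y x hy2 p).neg.div h1 hal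
  refine h2.congr' ?_
  filter_upwards [hy1, h1.eventually_ne hal, ne0_nhdsGT] with t ht1 ht2 ht3
  have htC : (t : ℂ) ≠ 0 := by exact_mod_cast ht3
  have h3 : (itp T p - X).eval (y t) = ((X - C x) ^ (k + 1) * Q).eval (y t) := by rw [hQ]
  rw [eval_sub, eval_X, itp_eval, eval_mul, eval_pow, eval_sub, eval_X, eval_C] at h3
  show -(((ev (St T V t))^[p] (y t) - (ev T)^[p] (y t)) / (t : ℂ)) / Q.eval (y t) =
    (y t - x) ^ (k + 1) / (t : ℂ)
  rw [ht1]
  field_simp
  linear_combination h3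

/-- the derivatives of the iterates are perturbed by `O(t)` -/
lemma deriv_close (T V : ℂ[X]) (hT : 2 ≤ T.natDegree) (hV : V.natDegree ≤ T.natDegree) (p : ℕ)
    (R : ℝ) (hR : 0 ≤ R) : ∃ B t₀ : ℝ, 0 ≤ B ∧ 0 < t₀ ∧ ∀ t : ℝ, 0 ≤ t → t ≤ t₀ → ∀ z : ℂ, ‖z‖ ≤ R →
      ‖deriv ((ev (St T V t))^[p]) z - deriv ((ev T)^[p]) z‖ ≤ B * t := by
  obtain ⟨t₀, C₀, ht₀, ht₀1, hC₀, hdeg, hcf⟩ := St_ctl T V hT hV
  obtain ⟨CI, hCI, hCC⟩ := close_iter T (fun t => St T V t) t₀ C₀ hC₀.le ht₀.le hdeg hcf p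
    (R + 1) (by positivity)
  refine ⟨CI, t₀, hCI, ht₀, fun t ht htt z hz => ?_⟩
  have hd1 := differentiable_iter (St T V t) p
  have hd2 := differentiable_iter T p
  have h := Complex.norm_deriv_le_of_forall_mem_sphere_norm_le (c := z) (R := 1) (C := CI * t)
    (f := fun w => (ev (St T V t))^[p] w - (ev T)^[p] w) one_pos
    (hd1.sub hd2).diffContOnCl (fun w hw => by
      have h1 : ‖w‖ ≤ R + 1 := by
        have h2 : ‖w - z‖ = 1 := by simpa [dist_eq_norm] using hw
        have := norm_add_le (w - z) z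
        rw [sub_add_cancel] at this
        linarith
      have := hCC t ht htt w w h1 h1
      rw [sub_self, norm_zero, add_zero] at this
      exact this)
  rw [deriv_fun_sub hd1.differentiableAt hd2.differentiableAt, div_one] at h
  exact h

theorem typeB (T V : ℂ[X]) (hT : 2 ≤ T.natDegree) (hV : V.natDegree ≤ T.natDegree) (p : ℕ)
    (hp : 0 < p) (x al : ℂ) (hx : (ev T)^[p] x = x) (hlam : deriv ((ev T)^[p]) x = 1)
    (Q : ℂ[X]) (hQ : itp T p - X = (X - C x) ^ 2 * Q) (hQx : Q.eval x = al) (hal : al ≠ 0)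
    (hκ : (al * ll T V x p).im ≠ 0) (z : ℂ)
    (hlim : Tendsto (fun i : ℕ => (ev T)^[p * i] z) atTop (𝓝 x))
    (hzx : ∀ i : ℕ, (ev T)^[p * i] z ≠ x) : GD T V z := by
  obtain ⟨y, hy1, hy2⟩ := near_fix T V hT hV p hp x hx
  have hfa := fix_asym T V p 1 x al Q hQ hQx hal y hy1 hy2
  have hll : ll T V x p ≠ 0 := by
    intro h0
    rw [h0, mul_zero, Complex.zero_im] at hκ
    exact hκ rfl
  have hlim0 : - ll T V x p / al ≠ 0 := div_ne_zero (neg_ne_zero.mpr hll) hal
  have hyx : Tendsto (fun t => y t - x) (𝓝[>] 0) (𝓝 0) := by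
    have := hy2.sub_const x
    rwa [sub_self] at this
  have hyne : ∀ᶠ t in 𝓝[>] (0 : ℝ), y t - x ≠ 0 := by
    filter_upwards [hfa.eventually_ne hlim0] with t ht h0
    apply ht
    rw [h0]
    simp
  -- `t / (y - x)` tends to zero
  have htq : Tendsto (fun t : ℝ => (t : ℂ) / (y t - x)) (𝓝[>] 0) (𝓝 0) := by
    have h1 := (hfa.inv₀ hlim0).mul hyx
    rw [mul_zero] at h1
    refine h1.congr' ?_
    filter_upwards [hyne] with t ht
    rw [inv_div]
    field_simp
  obtain ⟨μ, hμd⟩ : ∃ μ : ℝ → ℂ, μ = fun t => deriv ((ev (St T V t))^[p]) (y t) - 1 := ⟨_, rfl⟩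
  have hdT : ∀ w : ℂ, deriv ((ev T)^[p]) w = 1 + (derivative (itp T p - X)).eval w := by
    intro w
    have h1 : (ev T)^[p] = fun w => (itp T p).eval w := by
      funext v; rw [itp_eval]
    rw [h1, Polynomial.deriv, derivative_sub, derivative_X, eval_sub, eval_one]
    ring
  have hμ1 : Tendsto (fun t : ℝ => μ t / (y t - x)) (𝓝[>] 0) (𝓝 (2 * al)) := by
    obtain ⟨B, t₀, hB, ht₀, hbd⟩ := deriv_close T V hT hV p (‖x‖ + 1) (by positivity)
    have h1 : Tendsto (fun t : ℝ => (deriv ((ev (St T V t))^[p]) (y t) -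
        deriv ((ev T)^[p]) (y t)) / (y t - x)) (𝓝[>] 0) (𝓝 0) := by
      have h2 : Tendsto (fun t : ℝ => B * ‖(t : ℂ) / (y t - x)‖) (𝓝[>] 0) (𝓝 0) := by
        have := htq.norm.const_mul B
        rw [norm_zero, mul_zero] at this
        exact this
      refine squeeze_zero_norm' ?_ h2
      have hmem : ∀ᶠ t in 𝓝[>] (0 : ℝ), 0 ≤ t ∧ t ≤ t₀ := by
        have h1 : Ioo (0 : ℝ) t₀ ∈ 𝓝[>] (0 : ℝ) := Ioo_mem_nhdsGT ht₀
        filter_upwards [h1] with t ht
        exact ⟨ht.1.le, ht.2.le⟩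
      have hyb : ∀ᶠ t in 𝓝[>] (0 : ℝ), ‖y t‖ < ‖x‖ + 1 :=
        hy2.norm.eventually (gt_mem_nhds (by linarith))
      filter_upwards [hmem, hyb] with t ht1 ht2
      rw [norm_div, norm_div, Complex.norm_of_nonneg ht1.1, ← mul_div_assoc]
      exact div_le_div_of_nonneg_right (hbd t ht1.1 ht1.2 _ ht2.le) (norm_nonneg _)
    have h2 : Tendsto (fun t : ℝ => 2 * Q.eval (y t) + (y t - x) * (derivative Q).eval (y t))
        (𝓝[>] 0) (𝓝 (2 * al + 0 * (derivative Q).eval x)) := by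
      refine Tendsto.add ?_ (hyx.mul (((derivative Q).continuous.tendsto x).comp hy2))
      rw [← hQx]
      exact ((Q.continuous.tendsto x).comp hy2).const_mul 2
    have h3 := h1.add h2
    rw [zero_mul, add_zero, zero_add] at h3
    refine h3.congr' ?_
    filter_upwards [hyne] with t ht
    have h4 : (derivative (itp T p - X)).eval (y t) =
        (y t - x) * (2 * Q.eval (y t) + (y t - x) * (derivative Q).eval (y t)) := by
      rw [hQ, derivative_mul, derivative_pow]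
      simp
      ring
    have h5 : deriv ((ev T)^[p]) (y t) = 1 + (derivative (itp T p - X)).eval (y t) := hdT _
    rw [h5, h4, hμd]
    field_simp
    ring
  have h2al : (2 : ℂ) * al ≠ 0 := mul_ne_zero two_ne_zero hal
  obtain ⟨ω, hω⟩ : ∃ ω : ℂ, ω = -4 * (al * ll T V x p) := ⟨_, rfl⟩
  have hμ2 : Tendsto (fun t : ℝ => (μ t) ^ 2 / (t : ℂ)) (𝓝[>] 0) (𝓝 ω) := by
    have h1 := (hμ1.pow 2).mul hfa
    have e : (2 * al) ^ 2 * (-ll T V x p / al) = ω := by
      rw [hω]; field_simp; ring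
    rw [e] at h1
    refine h1.congr' ?_
    filter_upwards [hyne] with t ht
    rw [div_pow]
    field_simp
  have hωim : ω.im ≠ 0 := by
    rw [hω]
    have : (-4 * (al * ll T V x p)).im = -4 * (al * ll T V x p).im := by
      simp [Complex.mul_im]
    rw [this]
    exact mul_ne_zero (by norm_num) hκ
  have hωn : 0 < ‖ω‖ := norm_pos_iff.mpr (by rintro rfl; simp at hωim)
  have hωp : 0 < ‖ω‖ + ω.re := by
    have h1 : -ω.re < ‖ω‖ := by
      have h2 : |ω.re| < ‖ω‖ := Complex.abs_re_lt_norm.mpr hωim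
      have := neg_le_abs ω.re
      linarith
    linarith
  have hωle : ‖ω‖ + ω.re ≤ 2 * ‖ω‖ := by
    have := Complex.re_le_norm ω
    linarith
  have hμ0 : Tendsto μ (𝓝[>] 0) (𝓝 0) := by
    have h1 := hμ1.mul hyx
    rw [mul_zero] at h1
    refine h1.congr' ?_
    filter_upwards [hyne] with t ht
    field_simp
  refine appmu T V hT hV p hp x hx hlam y μ
    (Real.sqrt ((‖ω‖ + ω.re) / (8 * ‖ω‖))) (1 / ‖al‖ + 2 / ‖ω‖) (by positivity) ?_
    (by have := norm_pos_iff.mpr hal; positivity) ?_ hμ0 z hlim hzx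
  · refine Real.sqrt_le_one.mpr ?_
    rw [div_le_one (by positivity)]
    linarith
  · have ha0 : 0 < ‖al‖ := norm_pos_iff.mpr hal
    have E1 := hμ2.norm.eventually (gt_mem_nhds (by linarith : ‖ω‖ < 2 * ‖ω‖))
    have E2 := hμ2.norm.eventually (lt_mem_nhds (by linarith : ‖ω‖ / 2 < ‖ω‖))
    have E3 : ∀ᶠ t in 𝓝[>] (0 : ℝ), (‖ω‖ + ω.re) / 2 <
        ‖(μ t) ^ 2 / (t : ℂ)‖ + ((μ t) ^ 2 / (t : ℂ)).re := by
      have h1 : Tendsto (fun t : ℝ => ‖(μ t) ^ 2 / (t : ℂ)‖ + ((μ t) ^ 2 / (t : ℂ)).re) (𝓝[>] 0)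
          (𝓝 (‖ω‖ + ω.re)) := hμ2.norm.add ((Complex.continuous_re.tendsto ω).comp hμ2)
      exact h1.eventually (lt_mem_nhds (by linarith))
    have E4 : ∀ᶠ t in 𝓝[>] (0 : ℝ), ‖al‖ < ‖μ t / (y t - x)‖ := by
      refine hμ1.norm.eventually (lt_mem_nhds ?_)
      rw [norm_mul, Complex.norm_ofNat]
      linarith
    have E5 : ∀ᶠ t in 𝓝[>] (0 : ℝ), ‖μ t‖ < 1 := by
      have := hμ0.norm
      rw [norm_zero] at this
      exact this.eventually (gt_mem_nhds one_pos)
    filter_upwards [hy1, E1, E2, E3, E4, E5, hyne, self_mem_nhdsWithin] with t g1 g2 g3 g4 g5 g6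
      g7 g8
    have ht0 : 0 < t := g8
    have htn : ‖(t : ℂ)‖ = t := Complex.norm_of_nonneg ht0.le
    rw [norm_div, htn, norm_pow] at g2 g3 g4
    rw [Complex.div_ofReal_re] at g4
    rw [div_lt_iff₀ ht0] at g2
    rw [lt_div_iff₀ ht0] at g3
    rw [← add_div, lt_div_iff₀ ht0] at g4
    have hyn : 0 < ‖y t - x‖ := norm_pos_iff.mpr g7
    rw [norm_div, lt_div_iff₀ hyn] at g5
    have hμn : 0 < ‖μ t‖ := by
      have : 0 < ‖al‖ * ‖y t - x‖ := by positivity
      linarith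
    refine ⟨g1, ?_, norm_pos_iff.mp hμn, ?_, ?_⟩
    · rw [hμd]; ring
    · -- the real part
      have e1 : (μ t ^ 2).re = (μ t).re ^ 2 - (μ t).im ^ 2 := by
        rw [pow_two, Complex.mul_re]; ring
      have e2 : ‖μ t‖ ^ 2 = (μ t).re ^ 2 + (μ t).im ^ 2 := by
        rw [← Complex.normSq_eq_norm_sq, Complex.normSq_apply]; ring
      have h3 : ‖μ t‖ ^ 2 + (μ t ^ 2).re = 2 * (μ t).re ^ 2 := by rw [e1, e2]; ring
      rw [h3] at g4
      have h4 : (‖ω‖ + ω.re) / (8 * ‖ω‖) * ‖μ t‖ ^ 2 ≤ (μ t).re ^ 2 := by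
        rw [div_mul_eq_mul_div, div_le_iff₀ (by positivity)]
        have h5 : (‖ω‖ + ω.re) * ‖μ t‖ ^ 2 ≤ (‖ω‖ + ω.re) * (2 * ‖ω‖ * t) :=
          mul_le_mul_of_nonneg_left g2.le hωp.le
        nlinarith
      have h6 : (Real.sqrt ((‖ω‖ + ω.re) / (8 * ‖ω‖)) * ‖μ t‖) ^ 2 ≤ |(μ t).re| ^ 2 := by
        rw [mul_pow, Real.sq_sqrt (by positivity), sq_abs]
        exact h4
      exact abs_le_of_sq_le_sq' h6 (abs_nonneg _) |>.2
    · have h5 : ‖y t - x‖ ≤ 1 / ‖al‖ * ‖μ t‖ := by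
        rw [div_mul_eq_mul_div, one_mul, le_div_iff₀ ha0]
        linarith
      have h6 : t ≤ 2 / ‖ω‖ * ‖μ t‖ := by
        rw [div_mul_eq_mul_div, le_div_iff₀ hωn]
        nlinarith
      linarith

end Run7.h904.PF
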