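import Mathlib
import Pool.Agent.Run7.h904.PDir
import Pool.Agent.H713R5.QJ.TAF
import Pool.Agent.H713R5.QJ.TPF
import Pool.Agent.H713R5.QJ.TINJ
import Pool.Agent.H713R5.QJ.TSURL

set_option autoImplicit false

open Topology Filter Metric Set Polynomial MeasureTheory Asymptotics

namespace Run7.h904.PF

open Pool.Agent.H713R5.QJ
open Pool.Agent.H713R5.QJ.APP

/-- `ll` as a linear functional of the direction -/
noncomputable def llL (T : ℂ[X]) (x : ℂ) : ℕ → (ℂ[X] →ₗ[ℂ] ℂ)
  | 0 => 0
  | n + 1 => (derivative T).eval ((ev T)^[n] x) • llL T x n + Polynomial.leval ((ev T)^[n] x)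

lemma llL_apply (T V : ℂ[X]) (x : ℂ) (n : ℕ) : llL T x n V = ll T V x n := by
  induction n with
  | zero => simp [llL, ll]
  | succ n ih => simp [llL, ll, ih]

/-- `kap` as a linear functional of the direction -/
noncomputable def kapL (T : ℂ[X]) (x : ℂ) (p : ℕ) (lam : ℂ) : ℂ[X] →ₗ[ℂ] ℂ :=
  ∑ i ∈ Finset.range p, ((derivative T).eval ((ev T)^[i] x))⁻¹ •
    ((derivative (derivative T)).eval ((ev T)^[i] x) •
      (dd T x i • ((1 - lam)⁻¹ • llL T x p) + llL T x i) +
      (Polynomial.leval ((ev T)^[i] x)).comp derivative)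

lemma kapL_apply (T V : ℂ[X]) (x : ℂ) (p : ℕ) (lam : ℂ) :
    kapL T x p lam V = kap T V x p lam := by
  unfold kapL kap
  rw [LinearMap.sum_apply]
  refine Finset.sum_congr rfl fun i _ => ?_
  simp only [LinearMap.smul_apply, LinearMap.add_apply, llL_apply, smul_eq_mul,
    LinearMap.comp_apply, Polynomial.leval_apply]
  rw [div_eq_mul_inv, div_eq_mul_inv]
  ring

lemma dd_add (T : ℂ[X]) (x : ℂ) (m n : ℕ) :
    dd T x (m + n) = dd T x m * dd T ((ev T)^[m] x) n := by
  unfold dd
  rw [Finset.prod_range_add]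
  congr 1
  refine Finset.prod_congr rfl fun i _ => ?_
  rw [add_comm, Function.iterate_add_apply]

lemma dd_deriv (T : ℂ[X]) (x : ℂ) (n : ℕ) : deriv ((ev T)^[n]) x = dd T x n :=
  (opg_hasDeriv T n x).deriv

/-- the cycle of a periodic point of multiplier of modulus one -/
lemma cyc_of_par (T : ℂ[X]) (x : ℂ) (p : ℕ) (hp : 0 < p)
    (hper : Function.minimalPeriod (ev T) x = p) (hlam : ‖deriv ((ev T)^[p]) x‖ = 1) :
    ∃ Z : Finset ℂ, (∀ z, z ∈ Z ↔ ∃ i < p, (ev T)^[i] x = z) ∧ Cyc T Z ∧
      (∀ z ∈ Z, ∀ n : ℕ, 0 < n → (ev T)^[n] z = z → ‖deriv ((ev T)^[n]) z‖ = 1) := by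
  classical
  have hx : (ev T)^[p] x = x := by
    rw [← hper]; exact Function.iterate_minimalPeriod
  have hg0 : ∀ i : ℕ, dd T x i ≠ 0 := by
    have h1 : ∀ i < p, (derivative T).eval ((ev T)^[i] x) ≠ 0 := by
      intro i hi h0
      have : dd T x p = 0 := Finset.prod_eq_zero (Finset.mem_range.mpr hi) h0
      rw [dd_deriv, this, norm_zero] at hlam
      exact zero_ne_one hlam
    intro i
    unfold dd
    rw [Finset.prod_ne_zero_iff]
    intro j _
    have h2 : (ev T)^[j] x = (ev T)^[j % p] x := by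
      have := Function.iterate_mod_minimalPeriod_eq (f := ev T) (x := x) (n := j)
      rw [hper] at this
      exact this.symm
    rw [h2]
    exact h1 _ (Nat.mod_lt _ hp)
  refine ⟨(Finset.range p).image (fun i => (ev T)^[i] x), ?_, ⟨?_, ?_, ?_⟩, ?_⟩
  · intro z
    simp
  · intro z hz
    simp only [Finset.mem_image, Finset.mem_range] at hz ⊢
    obtain ⟨i, hi, rfl⟩ := hz
    refine ⟨(i + 1) % p, Nat.mod_lt _ hp, ?_⟩
    have := Function.iterate_mod_minimalPeriod_eq (f := ev T) (x := x) (n := i + 1)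
    rw [hper] at this
    rw [this, Function.iterate_succ_apply']
    rfl
  · intro z hz z' hz' h
    simp only [Finset.mem_image, Finset.mem_range] at hz hz'
    obtain ⟨i, hi, rfl⟩ := hz
    obtain ⟨j, hj, rfl⟩ := hz'
    have h1 : (ev T)^[p - 1 + 1] ((ev T)^[i] x) = (ev T)^[p - 1 + 1] ((ev T)^[j] x) := by
      rw [Function.iterate_succ_apply, Function.iterate_succ_apply]
      congr 1
    rw [Nat.sub_add_cancel hp, ← Function.iterate_add_apply, ← Function.iterate_add_apply,
      add_comm p i, add_comm p j, Function.iterate_add_apply, Function.iterate_add_apply,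
      hx] at h1
    exact h1
  · intro z hz
    simp only [Finset.mem_image, Finset.mem_range] at hz
    obtain ⟨i, hi, rfl⟩ := hz
    have h1 := hg0 (i + 1)
    unfold dd at h1
    rw [Finset.prod_range_succ] at h1
    exact right_ne_zero_of_mul h1
  · intro z hz n hn hzn
    simp only [Finset.mem_image, Finset.mem_range] at hz
    obtain ⟨i, hi, rfl⟩ := hz
    have hxn : (ev T)^[n] x = x := by
      have h1 : (ev T)^[p - i] ((ev T)^[n] ((ev T)^[i] x)) = (ev T)^[p - i] ((ev T)^[i] x) := by
        rw [hzn]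
      rw [← Function.iterate_add_apply, ← Function.iterate_add_apply,
        ← Function.iterate_add_apply, show p - i + n + i = n + p by omega,
        show p - i + i = p by omega, Function.iterate_add_apply, hx] at h1
      exact h1
    obtain ⟨m, hm⟩ : p ∣ n := by
      have : Function.IsPeriodicPt (ev T) n x := hxn
      rw [← hper]
      exact this.minimalPeriod_dvd
    have h2 : dd T ((ev T)^[i] x) n = dd T x n := by
      have e1 := dd_add T x i n
      have e2 := dd_add T x n i
      rw [hxn] at e2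
      rw [add_comm] at e1
      rw [e1, mul_comm] at e2
      exact mul_right_cancel₀ (hg0 i) e2
    rw [dd_deriv, h2]
    have h3 : dd T x n = (dd T x p) ^ m := by
      rw [hm]
      clear hm h2
      induction m with
      | zero => simp [dd]
      | succ m ih =>
        rw [Nat.mul_succ, dd_add, ih, pow_succ]
        congr 2
        rw [Function.iterate_mul]
        exact Function.iterate_fixed hx m
    rw [h3, norm_pow, ← dd_deriv, hlam, one_pow]

/-- transversality for multipliers different from one -/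
theorem transA (T : ℂ[X]) (hT : 2 ≤ T.natDegree) (x lam : ℂ) (p : ℕ) (hp : 0 < p)
    (hper : Function.minimalPeriod (ev T) x = p) (hl : deriv ((ev T)^[p]) x = lam)
    (hlam : ‖lam‖ = 1) (hne : lam ≠ 1) :
    ∃ h : ℂ[X], h.natDegree ≤ T.natDegree ∧ kap T h x p lam ≠ 0 := by
  obtain ⟨Z, hZ, hCyc, hmul⟩ := cyc_of_par T x p hp hper (by rw [hl]; exact hlam)
  have hx : (ev T)^[p] x = x := by
    rw [← hper]; exact Function.iterate_minimalPeriod
  have hzZ : ∀ i : ℕ, (ev T)^[i] x ∈ Z := by
    intro i
    rw [hZ]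
    refine ⟨i % p, Nat.mod_lt _ hp, ?_⟩
    have := Function.iterate_mod_minimalPeriod_eq (f := ev T) (x := x) (n := i)
    rw [hper] at this
    exact this
  obtain ⟨h, u, hdeg, hu, hsum⟩ := surl_holds af_holds pf_holds inj_holds T Z hT hCyc hmul
    (fun _ => 0) (fun _ => 1) (fun _ _ => rfl)
  refine ⟨h, by omega, ?_⟩
  have hui : ∀ i : ℕ, u ((ev T)^[i] x) = dd T x i * u x + ll T h x i := by
    intro i
    induction i with
    | zero => simp [dd, ll]
    | succ i ih =>
      have h1 := hu _ (hzZ i)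
      have h2 : (ev T)^[i + 1] x = T.eval ((ev T)^[i] x) := by
        rw [Function.iterate_succ_apply']; rfl
      have h3 : dd T x (i + 1) = dd T x i * (derivative T).eval ((ev T)^[i] x) := by
        unfold dd; rw [Finset.prod_range_succ]
      rw [h2, h3, ll]
      rw [ih] at h1
      linear_combination h1
  have hux : u x = ll T h x p / (1 - lam) := by
    have h1 := hui p
    rw [hx, ← dd_deriv, hl] at h1
    have : (1 : ℂ) - lam ≠ 0 := sub_ne_zero.mpr hne.symm
    field_simp
    linear_combination h1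
  have h1 := hsum x (hzZ 0)
  rw [hper] at h1
  have h2 : kap T h x p lam = 1 := by
    rw [← h1]
    unfold kap
    refine Finset.sum_congr rfl fun i _ => ?_
    rw [hui i, hux]
    ring
  rw [h2]
  exact one_ne_zero

/-- transversality for multiplier one -/
theorem transB (T : ℂ[X]) (hT : 2 ≤ T.natDegree) (x : ℂ) (p : ℕ) (hp : 0 < p)
    (hper : Function.minimalPeriod (ev T) x = p) (hl : deriv ((ev T)^[p]) x = 1) :
    ∃ h : ℂ[X], h.natDegree ≤ T.natDegree ∧ ll T h x p ≠ 0 := by
  classical
  obtain ⟨Z, hZ, hCyc, hmul⟩ := cyc_of_par T x p hp hper (by rw [hl]; exact norm_one)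
  have hx : (ev T)^[p] x = x := by
    rw [← hper]; exact Function.iterate_minimalPeriod
  have hzZ : ∀ i : ℕ, (ev T)^[i] x ∈ Z := by
    intro i
    rw [hZ]
    refine ⟨i % p, Nat.mod_lt _ hp, ?_⟩
    have := Function.iterate_mod_minimalPeriod_eq (f := ev T) (x := x) (n := i)
    rw [hper] at this
    exact this
  obtain ⟨h, u, hdeg, hu, -⟩ := surl_holds af_holds pf_holds inj_holds T Z hT hCyc hmul
    (fun z => if z = (ev T)^[p - 1] x then 1 else 0) (fun _ => 1) (fun _ _ => rfl)
  refine ⟨h, by omega, ?_⟩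
  have hui : ∀ i : ℕ, i ≤ p - 1 → u ((ev T)^[i] x) = dd T x i * u x + ll T h x i := by
    intro i
    induction i with
    | zero => intro _; simp [dd, ll]
    | succ i ih =>
      intro hi
      have h1 := hu _ (hzZ i)
      have h2 : (ev T)^[i + 1] x = T.eval ((ev T)^[i] x) := by
        rw [Function.iterate_succ_apply']; rfl
      have h3 : dd T x (i + 1) = dd T x i * (derivative T).eval ((ev T)^[i] x) := by
        unfold dd; rw [Finset.prod_range_succ]
      have h4 : (ev T)^[i] x ≠ (ev T)^[p - 1] x := by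
        intro h0
        have := Function.iterate_injOn_Iio_minimalPeriod (f := ev T) (x := x)
          (by rw [mem_Iio, hper]; omega : i ∈ Iio _)
          (by rw [mem_Iio, hper]; omega : p - 1 ∈ Iio _) h0
        omega
      rw [if_neg h4] at h1
      rw [h2, h3, ll]
      rw [ih (by omega)] at h1
      linear_combination h1
  have h1 := hu _ (hzZ (p - 1))
  rw [if_pos rfl, hui (p - 1) le_rfl] at h1
  have h2 : T.eval ((ev T)^[p - 1] x) = x := by
    have : (ev T)^[p - 1 + 1] x = T.eval ((ev T)^[p - 1] x) := by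
      rw [Function.iterate_succ_apply']; rfl
    rw [← this, Nat.sub_add_cancel hp, hx]
  have h3 : dd T x p = dd T x (p - 1) * (derivative T).eval ((ev T)^[p - 1] x) := by
    obtain ⟨m, rfl⟩ : ∃ m, p = m + 1 := ⟨p - 1, by omega⟩
    unfold dd; rw [Finset.prod_range_succ]
    simp
  have h4 : ll T h x p = (derivative T).eval ((ev T)^[p - 1] x) * ll T h x (p - 1) +
      h.eval ((ev T)^[p - 1] x) := by
    obtain ⟨m, rfl⟩ : ∃ m, p = m + 1 := ⟨p - 1, by omega⟩
    rfl
  have h5 : dd T x p = 1 := by rw [← dd_deriv, hl]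
  rw [h2] at h1
  rw [h3] at h5
  intro h0
  rw [h4] at h0
  have : (1 : ℂ) = 0 := by linear_combination -h1 - h0 - u x * h5
  exact one_ne_zero this

end Run7.h904.PF
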