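import Mathlib
import Pool.Agent.W378.REQ2B
import Pool.Agent.W40.RQAF

set_option autoImplicit false

open Topology Filter Metric Set Polynomial MeasureTheory
open scoped ENNReal

namespace Run7.h904.RF

open Pool.Agent.W757.QR
open Pool.Agent.W757.Q2 (Ginf)
open Pool.Agent.W378.Q2INJ
open Pool.Agent.W85.RQINJ (mass_le)

/-- simple poles are integrable -/
lemma lint_inv (z : ℂ) (R : ℝ) : ∫⁻ ζ in ball z R, ENNReal.ofReal (‖ζ - z‖⁻¹) ≠ ⊤ := by
  have h0 : IntegrableOn (fun u : ℂ => ‖u‖⁻¹) (ball 0 R) := by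
    have := (integrableOn_fun_norm_addHaar (volume : Measure ℂ) (f := fun y : ℝ => y⁻¹) (r := R)).2
    apply this
    rw [Complex.finrank_real_complex]
    have h1 : IntegrableOn (fun _ : ℝ => (1:ℝ)) (Ioo 0 R) := by
      exact integrableOn_const measure_Ioo_lt_top.ne (by simp)
    refine h1.congr_fun ?_ measurableSet_Ioo
    intro y hy
    have : y ≠ 0 := hy.1.ne'
    simp [this]
  have h1 : ∫⁻ ζ in ball z R, ENNReal.ofReal (‖ζ - z‖⁻¹) =
      ∫⁻ ζ in ball (0 : ℂ) R, ENNReal.ofReal (‖ζ‖⁻¹) := by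
    have h2 := (measurePreserving_sub_right (volume : Measure ℂ) z).setLIntegral_comp_preimage
      (s := ball 0 R) measurableSet_ball (f := fun ζ : ℂ => ENNReal.ofReal (‖ζ‖⁻¹)) (by fun_prop)
    rw [← h2]
    congr 2
    ext ζ
    simp [dist_eq_norm]
  rw [h1]
  have h2 := h0.2
  rw [hasFiniteIntegral_iff_ofReal (Eventually.of_forall fun x => by positivity)] at h2
  exact h2.ne

lemma qd_zero (Z : Finset ℂ) (b : ℂ → ℂ) (ζ : ℂ) :
    qd Z (fun _ => 0) b ζ = ∑ z ∈ Z, b z / (ζ - z) := by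
  unfold qd
  refine Finset.sum_congr rfl fun z _ => ?_
  rw [zero_div, zero_add]

lemma lint_qd_ball (Z : Finset ℂ) (b : ℂ → ℂ) (R : ℝ) :
    ∫⁻ ζ in ball 0 R, ENNReal.ofReal ‖qd Z (fun _ => 0) b ζ‖ ≠ ⊤ := by
  have h1 : ∀ ζ : ℂ, ENNReal.ofReal ‖qd Z (fun _ => 0) b ζ‖ ≤
      ∑ z ∈ Z, ENNReal.ofReal ‖b z‖ * ENNReal.ofReal (‖ζ - z‖⁻¹) := by
    intro ζ
    rw [qd_zero]
    have h2 : ∑ z ∈ Z, ENNReal.ofReal ‖b z‖ * ENNReal.ofReal (‖ζ - z‖⁻¹) =
        ENNReal.ofReal (∑ z ∈ Z, ‖b z‖ * ‖ζ - z‖⁻¹) := by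
      rw [ENNReal.ofReal_sum_of_nonneg fun z _ => by positivity]
      refine Finset.sum_congr rfl fun z _ => ?_
      rw [ENNReal.ofReal_mul (norm_nonneg _)]
    rw [h2]
    refine ENNReal.ofReal_le_ofReal ((norm_sum_le _ _).trans (le_of_eq ?_))
    refine Finset.sum_congr rfl fun z _ => ?_
    rw [norm_div, div_eq_mul_inv]
  refine ne_of_lt (lt_of_le_of_lt (lintegral_mono h1) ?_)
  rw [lintegral_finsetSum _ (fun z _ => by fun_prop)]
  refine ENNReal.sum_lt_top.2 fun z _ => ?_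
  rw [lintegral_const_mul _ (by fun_prop)]
  refine ENNReal.mul_lt_top ENNReal.ofReal_lt_top ?_
  refine lt_of_le_of_lt (lintegral_mono_set (t := ball z (R + ‖z‖)) ?_) (lint_inv z _).lt_top
  intro ζ hζ
  rw [mem_ball, dist_zero_right] at hζ
  rw [mem_ball, dist_eq_norm]
  have := norm_sub_le ζ z
  linarith

/-- the total mass is finite -/
lemma finite_total {d : ℕ} {P Q : ℂ[X]} {Z : Finset ℂ} {b : ℂ → ℂ}
    (hT : RM d P Q) (hc : ∀ z ∈ Z, Q.eval z ≠ 0) (hG : Ginf d P Q)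
    (hinv : ∀ y : ℂ, y ∉ Z → Gv d P Q y →
      ∑ ζ ∈ pre P Q y, qd Z (fun _ => 0) b ζ / d1 P Q ζ ^ 2 = qd Z (fun _ => 0) b y) :
    ∫⁻ w, ENNReal.ofReal ‖qd Z (fun _ => 0) b w‖ ≠ ⊤ := by
  classical
  have h1 := finite_mass (wt := fun _ => 1) hT hc hG (fun _ _ => one_pos) hinv (one_pos (α := ℝ))
  obtain ⟨R, hR⟩ : ∃ R : ℝ, R = 2 + ∑ z ∈ Z, ‖z‖ := ⟨_, rfl⟩
  have hsub : (Er Z (fun _ => (1 : ℝ)) 1)ᶜ ⊆ ball 0 R := by
    intro ζ hζ
    rw [mem_compl_iff, mem_Er] at hζ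
    push Not at hζ
    obtain ⟨z, hz, hzz⟩ := hζ
    have h2 : ‖z‖ ≤ ∑ z ∈ Z, ‖z‖ :=
      Finset.single_le_sum (f := fun z => ‖z‖) (fun _ _ => norm_nonneg _) hz
    rw [mem_ball, dist_zero_right, hR]
    have h3 := norm_add_le (ζ - z) z
    rw [sub_add_cancel] at h3
    linarith
  rw [← lintegral_add_compl _ (Er_meas Z (fun _ => (1 : ℝ)) 1)]
  refine ENNReal.add_ne_top.2 ⟨h1, ?_⟩
  exact ne_of_lt (lt_of_le_of_lt (lintegral_mono_set hsub) (lint_qd_ball Z b R).lt_top)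

/-- a sum of simple poles which vanishes is trivial -/
lemma poles_zero (Z : Finset ℂ) (b : ℂ → ℂ)
    (h : ∀ᵐ ζ : ℂ, qd Z (fun _ => 0) b ζ = 0) : ∀ z ∈ Z, b z = 0 := by
  classical
  -- everywhere off `Z`
  have h1 : ∀ ζ : ℂ, ζ ∉ Z → qd Z (fun _ => 0) b ζ = 0 := by
    intro ζ hζ
    by_contra hne
    have hc : ContinuousAt (qd Z (fun _ => 0) b) ζ := qd_contAt hζ
    have h2 := hc.eventually_ne hne
    have h3 : volume {ζ : ℂ | ¬ qd Z (fun _ => 0) b ζ = 0} = 0 := h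
    obtain ⟨ρ, hρ, hb⟩ := Metric.eventually_nhds_iff_ball.1 h2
    have h4 : volume (ball ζ ρ) = 0 := measure_mono_null (fun w hw => hb w hw) h3
    exact (isOpen_ball.measure_pos volume ⟨ζ, mem_ball_self hρ⟩).ne' h4
  intro z hz
  have h2 : ∀ᶠ ζ in 𝓝[≠] z, ζ ∉ Z := by
    have h3 : ∀ᶠ ζ in 𝓝 z, ζ ∉ (Z.erase z : Finset ℂ) := by
      have : IsClosed ((Z.erase z : Finset ℂ) : Set ℂ) := (Finset.finite_toSet _).isClosed
      exact this.isOpen_compl.mem_nhds (by simp)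
    filter_upwards [h3.filter_mono nhdsWithin_le_nhds, self_mem_nhdsWithin] with ζ h4 h5 h6
    exact h4 (Finset.mem_erase.2 ⟨h5, h6⟩)
  have h3 : Tendsto (fun ζ : ℂ => b z + (ζ - z) * ∑ z' ∈ Z.erase z, b z' / (ζ - z')) (𝓝[≠] z)
      (𝓝 (b z + (z - z) * ∑ z' ∈ Z.erase z, b z' / (z - z'))) := by
    have h4 : ContinuousAt (fun ζ : ℂ => b z + (ζ - z) * ∑ z' ∈ Z.erase z, b z' / (ζ - z')) z := by
      refine continuousAt_const.add ((by fun_prop : ContinuousAt (fun ζ : ℂ => ζ - z) z).mul ?_)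
      refine tendsto_finsetSum _ fun z' hz' => ?_
      have hne : z - z' ≠ 0 := sub_ne_zero.2 (Finset.mem_erase.1 hz').1.symm
      exact continuousAt_const.div (by fun_prop) hne
    exact h4.tendsto.mono_left nhdsWithin_le_nhds
  rw [sub_self, zero_mul, add_zero] at h3
  refine tendsto_nhds_unique h3 ?_
  refine tendsto_const_nhds.congr' ?_
  filter_upwards [h2, self_mem_nhdsWithin] with ζ h4 h5
  have h6 := h1 ζ h4
  have hne : ζ - z ≠ 0 := sub_ne_zero.2 h5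
  rw [qd_zero, ← Finset.add_sum_erase _ _ hz] at h6
  have h7 : (ζ - z) * (b z / (ζ - z) + ∑ z' ∈ Z.erase z, b z' / (ζ - z')) = 0 := by
    rw [h6, mul_zero]
  rw [mul_add, mul_div_cancel₀ _ hne] at h7
  exact h7.symm

/-- an invariant quadratic differential with simple poles gives an invariant measure -/
theorem no_inv {d : ℕ} {P Q : ℂ[X]} {Z : Finset ℂ} {b : ℂ → ℂ}
    (hT : RM d P Q) (hc : ∀ z ∈ Z, Q.eval z ≠ 0) (hG : Ginf d P Q)
    (hinv : ∀ y : ℂ, y ∉ Z → Gv d P Q y →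
      ∑ ζ ∈ pre P Q y, qd Z (fun _ => 0) b ζ / d1 P Q ζ ^ 2 = qd Z (fun _ => 0) b y)
    (hrec : ∀ᵐ z : ℂ, ¬ ∀ s ∈ 𝓝 z, ∃ᶠ n in atTop, (fr P Q)^[n] z ∈ s) : ∀ z ∈ Z, b z = 0 := by
  have hqm : Measurable (qd Z (fun _ => 0) b) :=
    Pool.Agent.H713R5.QJ.INJ.qd_measurable Z (fun _ => 0) b
  obtain ⟨φ, hφ⟩ : ∃ φ : ℂ → ℝ≥0∞, φ = fun ζ => ENNReal.ofReal ‖qd Z (fun _ => 0) b ζ‖ := ⟨_, rfl⟩
  have hφm : Measurable φ := by rw [hφ]; fun_prop
  have hfin : ∫⁻ w, φ w ≠ ⊤ := by rw [hφ]; exact finite_total hT hc hG hinv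
  have hgm : Measurable (fr P Q) := by
    unfold fr
    exact P.continuous.measurable.div Q.continuous.measurable
  obtain ⟨μ, hμ⟩ : ∃ μ : Measure ℂ, μ = volume.withDensity φ := ⟨_, rfl⟩
  have hμfin : IsFiniteMeasure μ := by rw [hμ]; exact isFiniteMeasure_withDensity hfin
  have hle : ∀ E : Set ℂ, MeasurableSet E → μ E ≤ μ (fr P Q ⁻¹' E) := by
    intro E hE
    rw [hμ, withDensity_apply _ hE, withDensity_apply _ (hgm hE), hφ]
    refine (mass_le Pool.Agent.W40.RQAF.task P Q Z (fun _ => 0) b hT hinv E hE).trans ?_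
    exact lintegral_mono_set fun z hz => hz.2
  have hmp : MeasurePreserving (fr P Q) μ μ := by
    refine ⟨hgm, ?_⟩
    ext E hE
    rw [Measure.map_apply hgm hE]
    refine le_antisymm ?_ (hle E hE)
    have h1 := hle Eᶜ hE.compl
    rw [preimage_compl, measure_compl (hgm hE) (measure_ne_top μ _), measure_compl hE (measure_ne_top μ _)]
      at h1
    have h2 : μ (fr P Q ⁻¹' E) ≤ μ univ := measure_mono (subset_univ _)
    have h3 : μ E ≤ μ univ := measure_mono (subset_univ _)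
    have h4 := add_le_add h1 (le_refl (μ (fr P Q ⁻¹' E)))
    rw [tsub_add_cancel_of_le h2] at h4
    have h5 : μ univ - μ E + μ (fr P Q ⁻¹' E) ≤ (μ univ - μ E) + μ E := by
      rw [tsub_add_cancel_of_le h3]
      exact h4
    exact (ENNReal.add_le_add_iff_left (ne_top_of_le_ne_top (measure_ne_top μ univ) tsub_le_self)).1 h5
  have hcons := hmp.conservative
  have h1 := hcons.ae_frequently_mem_of_mem_nhds
  have hac : μ ≪ volume := by rw [hμ]; exact withDensity_absolutelyContinuous _ _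
  have h2 : ∀ᵐ z ∂μ, False := by
    filter_upwards [h1, hac.ae_le hrec] with z h3 h4
    exact h4 h3
  have h3 : μ univ = 0 := by
    have := ae_iff.1 h2
    simpa using this
  rw [hμ, withDensity_apply _ MeasurableSet.univ, Measure.restrict_univ, lintegral_eq_zero_iff hφm] at h3
  refine poles_zero Z b ?_
  filter_upwards [h3] with ζ hζ
  rw [hφ] at hζ
  simp only [Pi.zero_apply, ENNReal.ofReal_eq_zero] at hζ
  exact norm_le_zero_iff.1 hζ

end Run7.h904.RF
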