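import Mathlib
import Pool.Agent.W29.RQPF

set_option autoImplicit false

open Polynomial

namespace Run7.h904.RF

open Pool.Agent.W757.QR Pool.Agent.W29.RQPF

/-- push-forward of the quadratic differentials with a simple pole -/
theorem push {d : ℕ} {P Q : ℂ[X]} (hT : RM d P Q) {y : ℂ} (hy : Gv d P Q y) :
    ∃ H : ℂ[X], H.natDegree ≤ 2 * d ∧ (Q = 1 → H.natDegree ≤ d - 2) ∧
      (∀ c : ℂ, (wn P Q).eval c = 0 → Q.eval c ≠ 0 → P.eval c - y * Q.eval c ≠ 0 →
        hv Q H c = 1 / (fr P Q c - y)) ∧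
      ∀ a : ℂ, Q.eval a ≠ 0 → (wn P Q).eval a ≠ 0 → P.eval a - y * Q.eval a ≠ 0 →
        ∑ ζ ∈ pre P Q y, 1 / (ζ - a) / d1 P Q ζ ^ 2 =
          (1 / (y - fr P Q a) + hv Q H a) / d1 P Q a := by
  classical
  obtain ⟨hd2, ⟨u, v, huv⟩, hmax⟩ := hT
  obtain ⟨hdeg, hgen⟩ := hy
  set F := P - C y * Q with hF
  have hF0 : F ≠ 0 := by
    intro h
    rw [h, natDegree_zero] at hdeg
    omega
  have hPd : P.natDegree ≤ d := by rw [← hmax]; exact le_max_left _ _
  have hQd : Q.natDegree ≤ d := by rw [← hmax]; exact le_max_right _ _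
  have hpre : ∀ ζ : ℂ, ζ ∈ pre P Q y ↔ F.eval ζ = 0 := by
    intro ζ
    unfold pre
    rw [Multiset.mem_toFinset, mem_roots hF0]
    rfl
  have hFe : ∀ ζ : ℂ, F.eval ζ = P.eval ζ - y * Q.eval ζ := by
    intro ζ; rw [hF]; simp
  have hF'e : ∀ ζ : ℂ, (derivative F).eval ζ =
      (derivative P).eval ζ - y * (derivative Q).eval ζ := by
    intro ζ; rw [hF]; simp
  have hwe : ∀ ζ : ℂ, (wn P Q).eval ζ =
      (derivative P).eval ζ * Q.eval ζ - P.eval ζ * (derivative Q).eval ζ := by
    intro ζ; unfold wn; simp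
  have hQζ : ∀ ζ ∈ pre P Q y, Q.eval ζ ≠ 0 := by
    intro ζ hζ hQ0
    have h1 := (hpre ζ).1 hζ
    rw [hFe, hQ0, mul_zero, sub_zero] at h1
    have h2 := congrArg (fun p => Polynomial.eval ζ p) huv
    simp [h1, hQ0] at h2
  have hwζ : ∀ ζ ∈ pre P Q y, (wn P Q).eval ζ = Q.eval ζ * (derivative F).eval ζ := by
    intro ζ hζ
    have h1 := (hpre ζ).1 hζ
    rw [hFe] at h1
    rw [hwe, hF'e]
    linear_combination (-(derivative Q).eval ζ) * h1
  have hF'ζ : ∀ ζ ∈ pre P Q y, (derivative F).eval ζ ≠ 0 := by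
    intro ζ hζ h0
    apply hgen ζ hζ
    rw [hwζ ζ hζ, h0, mul_zero]
  have hnd : F.roots.Nodup := by
    rw [Multiset.nodup_iff_count_le_one]
    intro ζ
    rw [count_roots]
    by_contra hc
    push Not at hc
    have h2 := (one_lt_rootMultiplicity_iff_isRoot hF0).mp hc
    exact hF'ζ ζ ((hpre ζ).2 h2.1) h2.2
  set S := pre P Q y with hS
  set M : ℂ[X] := ∑ ζ ∈ S, C ((d1 P Q ζ ^ 2)⁻¹) * (F /ₘ (X - C ζ)) with hM
  have hMdeg : M.natDegree ≤ d - 1 := by
    rw [hM]
    apply natDegree_sum_le_of_forall_le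
    intro ζ hζ
    refine le_trans (natDegree_C_mul_le _ _) ?_
    rw [natDegree_divByMonic _ (monic_X_sub_C ζ), natDegree_X_sub_C, hdeg]
  have hdiv : ∀ ζ ∈ S, (X - C ζ) * (F /ₘ (X - C ζ)) = F := by
    intro ζ hζ
    exact mul_divByMonic_eq_iff_isRoot.mpr ((hpre ζ).1 hζ)
  have hwdeg : (wn P Q).natDegree ≤ 2 * d := by
    unfold wn
    refine (natDegree_sub_le _ _).trans (max_le ?_ ?_)
    · refine natDegree_mul_le.trans ?_
      have := natDegree_derivative_le P
      omega
    · refine natDegree_mul_le.trans ?_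
      have := natDegree_derivative_le Q
      omega
  have hMroot : ∀ ζ : ℂ, F.eval ζ = 0 → (Q ^ 3 - wn P Q * M).eval ζ = 0 := by
    intro ζ hζ0
    have hζ : ζ ∈ S := (hpre ζ).2 hζ0
    have hMζ : M.eval ζ = (d1 P Q ζ ^ 2)⁻¹ * (derivative F).eval ζ := by
      rw [hM, eval_finsetSum, Finset.sum_eq_single ζ]
      · rw [eval_mul, eval_C]
        congr 1
        have h1 := congrArg (fun p => Polynomial.eval ζ (derivative p)) (hdiv ζ hζ)
        simp only [derivative_mul, derivative_sub, derivative_X, derivative_C, sub_zero, one_mul,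
          eval_add, eval_mul, eval_sub, eval_X, eval_C, sub_self, zero_mul, add_zero] at h1
        exact h1
      · intro ξ hξ hne
        rw [eval_mul]
        have h1 := congrArg (fun p => Polynomial.eval ζ p) (hdiv ξ hξ)
        simp only [eval_mul, eval_sub, eval_X, eval_C] at h1
        rw [hζ0] at h1
        rcases mul_eq_zero.1 h1 with h2 | h2
        · exact absurd (sub_eq_zero.1 h2).symm hne
        · rw [h2, mul_zero]
      · intro h; exact absurd hζ h
    rw [eval_sub, eval_mul, eval_pow, hMζ, d1, hwζ ζ hζ]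
    have h1 := hQζ ζ hζ
    have h2 := hF'ζ ζ hζ
    field_simp
    ring
  obtain ⟨H, hH⟩ := dvd_of_roots hF0 hnd hMroot
  refine ⟨H, ?_, ?_, ?_, ?_⟩
  · by_cases h0 : H = 0
    · rw [h0]; simp
    · have h3 := Polynomial.natDegree_mul hF0 h0
      rw [← hH, hdeg] at h3
      have h4 : (Q ^ 3 - wn P Q * M).natDegree ≤ 3 * d := by
        refine (Polynomial.natDegree_sub_le _ _).trans (max_le ?_ ?_)
        · refine natDegree_pow_le.trans ?_
          omega
        · refine Polynomial.natDegree_mul_le.trans ?_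
          omega
      omega
  · intro hQ1
    by_cases h0 : H = 0
    · rw [h0]; simp
    · have h3 := Polynomial.natDegree_mul hF0 h0
      rw [← hH, hdeg] at h3
      have h5 : (wn P Q).natDegree ≤ d - 1 := by
        unfold wn
        rw [hQ1, derivative_one, mul_zero, sub_zero, mul_one]
        have := natDegree_derivative_le P
        omega
      have h4 : (Q ^ 3 - wn P Q * M).natDegree ≤ (d - 1) + (d - 1) := by
        refine (Polynomial.natDegree_sub_le _ _).trans (max_le ?_ ?_)
        · rw [hQ1, one_pow, natDegree_one]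
          omega
        · refine Polynomial.natDegree_mul_le.trans ?_
          omega
      omega
  · intro c hc hQc hFc
    have h1 := congrArg (fun p => Polynomial.eval c p) hH
    simp only [eval_mul, eval_sub, eval_pow] at h1
    rw [hc, zero_mul, sub_zero, hFe] at h1
    have e : P.eval c / Q.eval c - y = (P.eval c - y * Q.eval c) / Q.eval c := by
      field_simp
    unfold hv fr
    rw [e, one_div_div, div_eq_div_iff (pow_ne_zero 2 hQc) hFc]
    linear_combination -h1
  · intro a hQa hwa hFa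
    have haζ : ∀ ζ ∈ S, a - ζ ≠ 0 := by
      intro ζ hζ h0
      apply hFa
      rw [← hFe, sub_eq_zero.1 h0]
      exact (hpre ζ).1 hζ
    have hq1 : ∀ ζ ∈ S, (F /ₘ (X - C ζ)).eval a = F.eval a / (a - ζ) := by
      intro ζ hζ
      have h1 := congrArg (fun p => Polynomial.eval a p) (hdiv ζ hζ)
      simp only [eval_mul, eval_sub, eval_X, eval_C] at h1
      rw [eq_div_iff (haζ ζ hζ), mul_comm]
      exact h1
    have hMa : M.eval a = - (P.eval a - y * Q.eval a) *
        ∑ ζ ∈ S, 1 / (ζ - a) / d1 P Q ζ ^ 2 := by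
      rw [hM, eval_finsetSum, Finset.mul_sum]
      apply Finset.sum_congr rfl
      intro ζ hζ
      rw [eval_mul, eval_C, hq1 ζ hζ, hFe]
      have h2 : ζ - a ≠ 0 := by
        intro h0
        exact haζ ζ hζ (by linear_combination -h0)
      have h3 := haζ ζ hζ
      have h4 : (P.eval a - y * Q.eval a) / (a - ζ) = -((P.eval a - y * Q.eval a) * (1 / (ζ - a))) := by
        field_simp
        ring
      rw [h4, div_eq_mul_inv (1 / (ζ - a))]
      ring
    have h1 := congrArg (fun p => Polynomial.eval a p) hH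
    simp only [eval_mul, eval_sub, eval_pow] at h1
    rw [hMa, hFe] at h1
    generalize (∑ ζ ∈ S, 1 / (ζ - a) / d1 P Q ζ ^ 2) = s at h1 ⊢
    have e : y - P.eval a / Q.eval a = -((P.eval a - y * Q.eval a) / Q.eval a) := by
      field_simp
      ring
    have e2 : H.eval a = Q.eval a ^ 3 / (P.eval a - y * Q.eval a) + (wn P Q).eval a * s := by
      rw [← mul_right_inj' hFa, mul_add, mul_div_cancel₀ _ hFa]
      linear_combination -h1
    unfold hv fr d1
    rw [e, e2]
    field_simp
    ring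

end Run7.h904.RF
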