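import Mathlib
import Pool.Agent.W29.RQAPP
import Pool.Agent.W324.RQOPA
import Pool.Agent.Run7.h904.PLoc2

set_option autoImplicit false

open Topology Filter Metric Set Polynomial MeasureTheory
open scoped OnePoint

namespace Run7.h904.RF

open Pool.Agent.W757.QR Pool.Agent.H790R3.RB Pool.Agent.W29.RQSNK Pool.Agent.W29.RQAPP
open Pool.Agent.H790R3.RB.FAM (ND_open)

/-- the perturbation of `x` in the direction `V` -/
noncomputable def Xt {d : ℕ} (x V : CV d) (t : ℝ) : CV d := x + t • V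

/-- the points near `z` become attracted for small perturbations in the direction `V` -/
def GR {d : ℕ} (x V : CV d) (z : ℂ) : Prop :=
  ∃ δ t₁ : ℝ, 0 < δ ∧ 0 < t₁ ∧ ∀ t : ℝ, 0 < t → t < t₁ → ∀ z' ∈ ball z δ,
    Attd (sp (Xt x V t)) (z' : OnePoint ℂ)

lemma Xt_sub {d : ℕ} (x V : CV d) (t : ℝ) (ht : 0 ≤ t) : ‖Xt x V t - x‖ = t * ‖V‖ := by
  unfold Xt
  rw [add_sub_cancel_left, norm_smul, Real.norm_of_nonneg ht]

lemma Xt_tendsto {d : ℕ} (x V : CV d) : Tendsto (Xt x V) (𝓝[>] 0) (𝓝 x) := by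
  have h : Continuous (Xt x V) := by
    unfold Xt
    fun_prop
  have h1 := h.tendsto 0
  have h2 : Xt x V 0 = x := by simp [Xt]
  rw [h2] at h1
  exact h1.mono_left nhdsWithin_le_nhds

lemma Xt_ND {d : ℕ} (x V : CV d) (hx : ND x) : ∀ᶠ t in 𝓝[>] (0 : ℝ), ND (Xt x V t) :=
  (Xt_tendsto x V).eventually (ND_open hx)

/-- A point whose orbit enters a small disc, stays there at the times divisible by the period and
converges to a fixed point with a contracting derivative is attracted. -/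
theorem attd_of2 {d : ℕ} {x : CV d} (hd : 2 ≤ d) (hx : ND x) {p : ℕ} {b x' : ℂ}
    (hp : 0 < p) {r : ℝ}
    (hr : ∀ v ∈ ball (0 : ℂ) r, ∀ j < p, (de x).eval ((fx x)^[j] (b + v)) ≠ 0)
    (hx' : x' ∈ ball (0 : ℂ) r) (hfix : cen x p b x' = x') (hm : ‖deriv (cen x p b) x'‖ < 1) {z : ℂ}
    {N₀ : ℕ} (hz : ∀ j < p * N₀, (de x).eval ((fx x)^[j] z) ≠ 0)
    (hin : ∀ k : ℕ, (cen x p b)^[k] ((fx x)^[p * N₀] z - b) ∈ ball (0 : ℂ) r)
    (hlim : Tendsto (fun k : ℕ => (cen x p b)^[k] ((fx x)^[p * N₀] z - b)) atTop (𝓝 x')) :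
    Attd (sp x) (z : OnePoint ℂ) := by
  have hfix' : (fx x)^[p] (b + x') = b + x' := by
    unfold cen at hfix
    linear_combination hfix
  have hm' : ‖deriv ((fx x)^[p]) (b + x')‖ < 1 := by
    have : deriv (cen x p b) x' = deriv ((fx x)^[p]) (b + x') := by
      unfold cen
      rw [deriv_sub_const, deriv_comp_const_add]
    rw [← this]
    exact hm
  have hfa : Fin' x (b + x') := by
    intro j
    have e : j = j % p + p * (j / p) := by
      have := Nat.mod_add_div j p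
      omega
    rw [e, Function.iterate_add_apply, Function.iterate_mul, Function.iterate_fixed hfix']
    exact hr x' hx' _ (Nat.mod_lt j hp)
  have hit : ∀ k : ℕ, (cen x p b)^[k] ((fx x)^[p * N₀] z - b) =
      (fx x)^[p * (k + N₀)] z - b := by
    intro k
    rw [cen_iter, add_sub_cancel, ← Function.iterate_add_apply, mul_add]
  have hfin : Fin' x z := by
    intro j
    rcases lt_or_ge j (p * N₀) with hj | hj
    · exact hz j hj
    · have e : j = (j - p * N₀) % p + p * ((j - p * N₀) / p + N₀) := by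
        have := Nat.mod_add_div (j - p * N₀) p
        rw [mul_add]
        omega
      rw [e, Function.iterate_add_apply]
      have h4 := hin ((j - p * N₀) / p)
      rw [hit] at h4
      have h5 := hr _ h4 _ (Nat.mod_lt (j - p * N₀) hp)
      rwa [add_sub_cancel] at h5
  refine ⟨p, ((b + x' : ℂ) : OnePoint ℂ), sink x p (b + x') hp hfa hfix' hm', ?_⟩
  have h6 : Tendsto (fun k : ℕ => (fx x)^[p * k] z) atTop (𝓝 (b + x')) := by
    have h7 : Tendsto (fun k : ℕ => (fx x)^[p * (k + N₀)] z) atTop (𝓝 (b + x')) := by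
      have h8 := hlim.const_add b
      simp only [hit, add_sub_cancel] at h8
      exact h8
    exact (tendsto_add_atTop_iff_nat (f := fun j : ℕ => (fx x)^[p * j] z) N₀).1 h7
  have h9 : Tendsto (fun k : ℕ => (((fx x)^[p * k] z : ℂ) : OnePoint ℂ)) atTop
      (𝓝 ((b + x' : ℂ) : OnePoint ℂ)) := (OnePoint.continuous_coe.tendsto _).comp h6
  refine h9.congr fun k => ?_
  exact (sp_iter x z (p * k) fun j _ => hfin j).symm

/-- Points of parabolic basins become attracted if the multiplier of the perturbed cycle is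
`1 + μ` with `|Re μ|` comparable with `|μ|` and the perturbation is at most of the order of `μ`. -/
theorem appmuR {d : ℕ} (hd : 2 ≤ d) (x V : CV d) (hx : ND x) (P : ℕ) (hP : 0 < P) (a : ℂ)
    (ha : Fin' x a) (hfix : (fx x)^[P] a = a) (hmul : deriv ((fx x)^[P]) a = 1)
    (y μ : ℝ → ℂ) (ε B : ℝ) (hε : 0 < ε) (hε1 : ε ≤ 1) (hB : 0 < B)
    (H : ∀ᶠ t : ℝ in 𝓝[>] 0, (fx (Xt x V t))^[P] (y t) = y t ∧
      deriv ((fx (Xt x V t))^[P]) (y t) = 1 + μ t ∧ μ t ≠ 0 ∧ ε * ‖μ t‖ ≤ |(μ t).re| ∧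
      t + ‖y t - a‖ ≤ B * ‖μ t‖)
    (hμ : Tendsto μ (𝓝[>] 0) (𝓝 0)) (z : ℂ) (hz : Fin' x z)
    (hlim : Tendsto (fun i : ℕ => (fx x)^[P * i] z) atTop (𝓝 a))
    (hne : ∀ i : ℕ, (fx x)^[P * i] z ≠ a) : GR x V z := by
  obtain ⟨ρ, K, hρ, hK, hfinρ, hcl⟩ := loc_lip P x a (fun j _ => ha j)
  obtain ⟨M, hM⟩ : ∃ M : ℝ, M = ‖V‖ + 1 := ⟨_, rfl⟩
  have hM0 : 0 < M := by rw [hM]; positivity
  have hM1 : 1 ≤ M := by rw [hM]; linarith [norm_nonneg V]
  -- closeness of the return maps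
  have hclose : ∀ t : ℝ, 0 ≤ t → M * t < ρ → ‖y t - a‖ < ρ / 2 → ∀ v ∈ ball (0 : ℂ) (ρ / 2),
      (∀ j < P, (de (Xt x V t)).eval ((fx (Xt x V t))^[j] (y t + v)) ≠ 0) ∧
      ‖cen (Xt x V t) P (y t) v - cen x P a v‖ ≤ (K * M + 1) * (t + ‖y t - a‖) := by
    intro t ht htρ hya v hv
    have hv' : ‖v‖ < ρ / 2 := by simpa using hv
    have m1 : y t + v ∈ ball a ρ := by
      rw [mem_ball, dist_eq_norm, show y t + v - a = (y t - a) + v by ring]
      refine (norm_add_le _ _).trans_lt ?_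
      linarith
    have m2 : a + v ∈ ball a ρ := by
      rw [mem_ball, dist_eq_norm, add_sub_cancel_left]
      linarith
    have hXs : ‖Xt x V t - x‖ ≤ M * t := by
      rw [Xt_sub x V t ht, hM, mul_comm]
      exact mul_le_mul_of_nonneg_right (by linarith) ht
    have m3 : ‖Xt x V t - x‖ < ρ := by linarith
    refine ⟨hfinρ _ m3 _ m1, ?_⟩
    have h4 := hcl (Xt x V t) m3 _ m1 _ m2
    rw [add_sub_add_right_eq_sub] at h4
    have h5 : cen (Xt x V t) P (y t) v - cen x P a v =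
        ((fx (Xt x V t))^[P] (y t + v) - (fx x)^[P] (a + v)) - (y t - a) := by
      simp only [cen]; ring
    rw [h5]
    refine (norm_sub_le _ _).trans ?_
    have h6 : K * (‖Xt x V t - x‖ + ‖y t - a‖) ≤ K * (M * t + M * ‖y t - a‖) := by
      refine mul_le_mul_of_nonneg_left ?_ hK
      nlinarith [norm_nonneg (y t - a)]
    nlinarith [norm_nonneg (y t - a)]
  have horb : ∀ i : ℕ, (cen x P a)^[i] (z - a) = (fx x)^[P * i] z - a := by
    intro i
    rw [cen_iter, add_sub_cancel]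
  have hlim0 : Tendsto (fun i : ℕ => (cen x P a)^[i] (z - a)) atTop (𝓝 0) := by
    simp only [horb]
    have := hlim.sub_const a
    simpa using this
  have hne0 : ∀ i : ℕ, (cen x P a)^[i] (z - a) ≠ 0 := by
    intro i
    rw [horb]
    exact sub_ne_zero.2 (hne i)
  have hρ2 : 0 < ρ / 2 := by positivity
  obtain ⟨i₀, hi₀⟩ := eventually_atTop.1 (hlim0.eventually (ball_mem_nhds (0 : ℂ) hρ2))
  have hF0 : cen x P a 0 = 0 := by simp [cen, hfix]
  have hF1 : deriv (cen x P a) 0 = 1 := by rw [cen_deriv, hmul]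
  have hnid : ∃ w ∈ ball (0 : ℂ) (ρ / 2), cen x P a w ≠ w := by
    by_contra hcon
    push Not at hcon
    have hconst : ∀ j : ℕ, (cen x P a)^[i₀ + j] (z - a) = (cen x P a)^[i₀] (z - a) := by
      intro j
      induction j with
      | zero => rfl
      | succ j ih =>
        rw [← add_assoc, Function.iterate_succ_apply', hcon _ (hi₀ _ (by omega)), ih]
    have hl2 : Tendsto (fun j : ℕ => (cen x P a)^[i₀ + j] (z - a)) atTop (𝓝 0) := by
      have := (tendsto_add_atTop_iff_nat i₀).2 hlim0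
      simpa [add_comm] using this
    simp only [hconst] at hl2
    exact hne0 i₀ (tendsto_nhds_unique tendsto_const_nhds hl2)
  have hit : ∀ j : ℕ, (cen x P a)^[j] ((cen x P a)^[i₀] (z - a)) =
      (cen x P a)^[j + i₀] (z - a) := fun j => (Function.iterate_add_apply _ _ _ _).symm
  have hfr : ∀ v ∈ ball (0 : ℂ) (ρ / 2), ∀ j < P, (de x).eval ((fx x)^[j] (a + v)) ≠ 0 := by
    intro v hv j hj
    have hv' : ‖v‖ < ρ / 2 := by simpa using hv
    refine hfinρ x (by rw [sub_self, norm_zero]; exact hρ) _ ?_ j hj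
    rw [mem_ball, dist_eq_norm, add_sub_cancel_left]
    linarith
  obtain ⟨k₀, δ, s₀, hδ, hs₀, hmain⟩ := Run7.h904.PF.lemA' (cen x P a) (ρ / 2) ((K * M + 1) * B) ε
    ((cen x P a)^[i₀] (z - a)) hρ2 (by positivity) hε hε1
    (fun v hv => (cen_diffAt x P a v (hfr v hv)).differentiableWithinAt) hF0 hF1 hnid
    (fun j => by rw [hit]; exact ⟨hi₀ _ (by omega), hne0 _⟩)
    (by
      simp only [hit]
      exact (tendsto_add_atTop_iff_nat i₀).2 hlim0)
  -- closeness of the long iterate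
  obtain ⟨ρ', K', hρ', hK', hfin', hcl'⟩ := loc_lip (P * (k₀ + i₀)) x z (fun j _ => hz j)
  obtain ⟨B', hB'⟩ : ∃ B' : ℝ, B' = K' * (M + 1) + 1 := ⟨_, rfl⟩
  have hB'0 : 0 < B' := by rw [hB']; positivity
  obtain ⟨δ', hδ'd⟩ : ∃ δ' : ℝ, δ' = min (min (ρ' / M) (ρ / (2 * M))) (δ / (2 * B')) := ⟨_, rfl⟩
  have hδ'0 : 0 < δ' := by
    rw [hδ'd]; exact lt_min (lt_min (by positivity) (by positivity)) (by positivity)
  have hδ'1 : M * δ' ≤ ρ' := by
    have h1 : δ' ≤ ρ' / M := by rw [hδ'd]; exact (min_le_left _ _).trans (min_le_left _ _)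
    rwa [le_div_iff₀ hM0, mul_comm] at h1
  have hδ'3 : M * δ' ≤ ρ / 2 := by
    have h1 : δ' ≤ ρ / (2 * M) := by rw [hδ'd]; exact (min_le_left _ _).trans (min_le_right _ _)
    rw [le_div_iff₀ (by positivity)] at h1
    linarith
  have hδ'2 : B' * δ' ≤ δ / 2 := by
    have h1 : δ' ≤ δ / (2 * B') := by rw [hδ'd]; exact min_le_right _ _
    rw [le_div_iff₀ (by positivity)] at h1
    linarith
  have hδM : δ' ≤ M * δ' := by nlinarith
  have hμ1 : ∀ᶠ t : ℝ in 𝓝[>] 0, ‖μ t‖ < min s₀ (δ' / B) := by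
    have := hμ.norm
    rw [norm_zero] at this
    exact this.eventually (gt_mem_nhds (lt_min hs₀ (by positivity)))
  have hall := ((H.and hμ1).and (Xt_ND x V hx)).and
    (self_mem_nhdsWithin : ∀ᶠ t : ℝ in 𝓝[>] 0, t ∈ Ioi (0 : ℝ))
  obtain ⟨t₁, ht₁, hall'⟩ := (mem_nhdsGT_iff_exists_Ioo_subset' (zero_lt_one (α := ℝ))).1 hall
  rw [mem_Ioi] at ht₁
  refine ⟨δ', min t₁ δ', hδ'0, lt_min ht₁ hδ'0, ?_⟩
  intro t ht htt z' hz'
  obtain ⟨⟨⟨⟨hfixt, hmult, hμne, hμre, hbd⟩, hμs⟩, hND⟩, _⟩ :=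
    hall' ⟨ht, htt.trans_le (min_le_left _ _)⟩
  have htd : t < δ' := htt.trans_le (min_le_right _ _)
  have hμs1 : ‖μ t‖ < s₀ := hμs.trans_le (min_le_left _ _)
  have hμs2 : B * ‖μ t‖ < δ' := by
    have := hμs.trans_le (min_le_right _ _)
    rw [lt_div_iff₀ hB] at this
    linarith
  have hy1 : ‖y t - a‖ < δ' := by linarith
  have hMt : M * t < M * δ' := mul_lt_mul_of_pos_left htd hM0
  have hclt := hclose t ht.le (by linarith) (by linarith)
  have hXs : ‖Xt x V t - x‖ ≤ M * t := by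
    rw [Xt_sub x V t ht.le, hM, mul_comm]
    exact mul_le_mul_of_nonneg_right (by linarith) ht.le
  have hXρ : ‖Xt x V t - x‖ < ρ' := by linarith
  have hz1 : ‖z' - z‖ < δ' := by simpa [dist_eq_norm] using hz'
  have hz'ρ : z' ∈ ball z ρ' := by
    rw [mem_ball, dist_eq_norm]
    linarith
  have hres := hmain (μ t) hμne hμs1 hμre (cen (Xt x V t) P (y t))
    (fun v hv => (cen_diffAt _ _ _ v (hclt v hv).1).differentiableWithinAt)
    (fun v hv => ((hclt v hv).2).trans (by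
      have := mul_le_mul_of_nonneg_left hbd (by positivity : 0 ≤ K * M + 1)
      linarith))
    (by simp [cen, hfixt])
    (by rw [cen_deriv]; exact hmult)
    ((fx (Xt x V t))^[P * (k₀ + i₀)] z' - y t)
    (by
      rw [mem_ball, dist_eq_norm, hit, horb]
      have e1 := hcl' (Xt x V t) hXρ z' hz'ρ z (mem_ball_self hρ')
      have e2 : (fx (Xt x V t))^[P * (k₀ + i₀)] z' - y t - ((fx x)^[P * (k₀ + i₀)] z - a) =
          ((fx (Xt x V t))^[P * (k₀ + i₀)] z' - (fx x)^[P * (k₀ + i₀)] z) - (y t - a) := by ring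
      rw [e2]
      refine (norm_sub_le _ _).trans_lt ?_
      have e4 : K' * (‖Xt x V t - x‖ + ‖z' - z‖) ≤ K' * (M * δ' + δ') := by
        refine mul_le_mul_of_nonneg_left ?_ hK'
        linarith
      have e6 : K' * (M * δ' + δ') + δ' = B' * δ' := by rw [hB']; ring
      linarith)
  obtain ⟨hstay, x', hx'b, hx'f, hx'd, hx'l⟩ := hres
  exact attd_of2 hd hND hP (fun v hv => (hclt v hv).1) hx'b hx'f hx'd
    (fun j hj => hfin' (Xt x V t) hXρ z' hz'ρ j hj) hstay hx'l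

end Run7.h904.RF
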