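import Mathlib
import Pool.Agent.Run7.h904.RApp
import Pool.Agent.Run7.h904.PAsy

set_option autoImplicit false

open Topology Filter Metric Set Polynomial MeasureTheory Asymptotics
open scoped OnePoint

namespace Run7.h904.RF

open Pool.Agent.W757.QR Pool.Agent.H790R3.RB Pool.Agent.W29.RQSNK Pool.Agent.W29.RQAPP
open Run7.h904.PF (ne0_nhdsGT tendsto_ofReal0 prod_slope slope_poly)

/-- difference quotients -/
lemma slope_strict (f : ℂ → ℂ) (f' z c : ℂ) (hf : HasStrictDerivAt f f' z) (l : Filter ℝ)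
    (a b : ℝ → ℂ) (ha : Tendsto a l (𝓝 z)) (hb : Tendsto b l (𝓝 z))
    (h : Tendsto (fun t => (a t - b t) / (t : ℂ)) l (𝓝 c)) (hl : ∀ᶠ t in l, t ≠ 0) :
    Tendsto (fun t => (f (a t) - f (b t)) / (t : ℂ)) l (𝓝 (f' * c)) := by
  have h1 : (fun t => f (a t) - f (b t) - (a t - b t) • f') =o[l]
      (fun t => a t - b t) := (hf.isLittleO).comp_tendsto (ha.prodMk_nhds hb)
  have h2 : (fun t => a t - b t) =O[l] (fun t : ℝ => (t : ℂ)) := by
    refine isBigO_of_div_tendsto_nhds ?_ c h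
    filter_upwards [hl] with t ht h0
    exact absurd (by exact_mod_cast h0) ht
  have h3 := (h1.trans_isBigO h2).tendsto_div_nhds_zero
  have h4 := h3.add (h.mul_const f')
  rw [zero_add, mul_comm c] at h4
  refine h4.congr fun t => ?_
  rw [smul_eq_mul]
  ring

lemma pol_Xt {d : ℕ} (x V : CV d) (t : ℝ) (i : Fin 2) :
    pol (Xt x V t) i = pol x i + C (t : ℂ) * pol V i := by
  unfold pol Xt
  rw [Finset.mul_sum, ← Finset.sum_add_distrib]
  refine Finset.sum_congr rfl fun j _ => ?_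
  rw [C_mul_monomial, ← map_add]
  simp

lemma nu_Xt {d : ℕ} (x V : CV d) (t : ℝ) : nu (Xt x V t) = nu x + C (t : ℂ) * nu V :=
  pol_Xt x V t 0

lemma de_Xt {d : ℕ} (x V : CV d) (t : ℝ) : de (Xt x V t) = de x + C (t : ℂ) * de V :=
  pol_Xt x V t 1

/-- the infinitesimal perturbation is `hh / de ^ 2` -/
noncomputable def hh {d : ℕ} (x V : CV d) : ℂ[X] := nu V * de x - nu x * de V

/-- product of the derivatives along the orbit -/
noncomputable def ddR {d : ℕ} (x : CV d) (a : ℂ) (n : ℕ) : ℂ :=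
  ∏ i ∈ Finset.range n, d1 (nu x) (de x) ((fx x)^[i] a)

/-- derivative of the iterates in the direction `V` -/
noncomputable def llR {d : ℕ} (x V : CV d) (a : ℂ) : ℕ → ℂ
  | 0 => 0
  | n + 1 => d1 (nu x) (de x) ((fx x)^[n] a) * llR x V a n +
      hv (de x) (hh x V) ((fx x)^[n] a)

lemma itR {d : ℕ} (x V : CV d) (y : ℝ → ℂ) (a : ℂ) (hy : Tendsto y (𝓝[>] 0) (𝓝 a)) (n : ℕ)
    (h : ∀ j < n, (de x).eval ((fx x)^[j] a) ≠ 0) :
    Tendsto (fun t => (fx (Xt x V t))^[n] (y t)) (𝓝[>] 0) (𝓝 ((fx x)^[n] a)) := by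
  have h0 : ContinuousAt (fun q : CV d × ℂ => (fx q.1)^[n] q.2) (x, a) :=
    (iter_cd 1 n (x, a) h).continuousAt
  have h2 : Tendsto (fun t => ((Xt x V t, y t) : CV d × ℂ)) (𝓝[>] 0) (𝓝 (x, a)) :=
    (Xt_tendsto x V).prodMk_nhds hy
  have h1 : Tendsto (fun q : CV d × ℂ => (fx q.1)^[n] q.2) (𝓝 (x, a)) (𝓝 ((fx x)^[n] a)) :=
    h0
  have h3 := h1.comp h2
  simp only [Function.comp_def] at h3
  exact h3

lemma deX_tendsto {d : ℕ} (x V : CV d) (w : ℝ → ℂ) (z : ℂ) (hw : Tendsto w (𝓝[>] 0) (𝓝 z)) :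
    Tendsto (fun t => (de (Xt x V t)).eval (w t)) (𝓝[>] 0) (𝓝 ((de x).eval z)) := by
  have h1 : Tendsto (fun t : ℝ => (de x).eval (w t) + (t : ℂ) * (de V).eval (w t)) (𝓝[>] 0)
      (𝓝 ((de x).eval z + 0 * (de V).eval z)) :=
    (((de x).continuous.tendsto z).comp hw).add
      (tendsto_ofReal0.mul (((de V).continuous.tendsto z).comp hw))
  rw [zero_mul, add_zero] at h1
  refine h1.congr fun t => ?_
  rw [de_Xt]; simp

lemma strictR {d : ℕ} (x : CV d) (z : ℂ) (hz : (de x).eval z ≠ 0) :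
    HasStrictDerivAt (fx x) (d1 (nu x) (de x) z) z := by
  have h := ((nu x).hasStrictDerivAt z).div ((de x).hasStrictDerivAt z) hz
  have e : d1 (nu x) (de x) z = ((derivative (nu x)).eval z * (de x).eval z -
      (nu x).eval z * (derivative (de x)).eval z) / (de x).eval z ^ 2 := by
    unfold d1 wn
    rw [eval_sub, eval_mul, eval_mul]
  rw [e]
  exact h

/-- one step of the perturbed map -/
lemma step_slope {d : ℕ} (x V : CV d) (z c : ℂ) (hz : (de x).eval z ≠ 0) (u v : ℝ → ℂ)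
    (hu : Tendsto u (𝓝[>] 0) (𝓝 z)) (hv' : Tendsto v (𝓝[>] 0) (𝓝 z))
    (h : Tendsto (fun t : ℝ => (u t - v t) / (t : ℂ)) (𝓝[>] 0) (𝓝 c)) :
    Tendsto (fun t : ℝ => (fx (Xt x V t) (u t) - fx x (v t)) / (t : ℂ)) (𝓝[>] 0)
      (𝓝 (d1 (nu x) (de x) z * c + hv (de x) (hh x V) z)) := by
  have h1 := slope_strict (fx x) _ z c (strictR x z hz) (𝓝[>] 0) u v hu hv' h ne0_nhdsGT
  have hq := ((de x).continuous.tendsto z).comp hu
  have hqt := deX_tendsto x V u z hu
  have h2 : Tendsto (fun t : ℝ => (hh x V).eval (u t) /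
      ((de x).eval (u t) * (de (Xt x V t)).eval (u t))) (𝓝[>] 0)
      (𝓝 ((hh x V).eval z / ((de x).eval z * (de x).eval z))) :=
    (((hh x V).continuous.tendsto z).comp hu).div (hq.mul hqt) (mul_ne_zero hz hz)
  have h3 := h1.add h2
  have e : d1 (nu x) (de x) z * c + (hh x V).eval z / ((de x).eval z * (de x).eval z) =
      d1 (nu x) (de x) z * c + hv (de x) (hh x V) z := by
    unfold hv; rw [pow_two]
  rw [e] at h3
  refine h3.congr' ?_
  filter_upwards [ne0_nhdsGT, hq.eventually_ne hz, hqt.eventually_ne hz] with t ht h4 h5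
  have htC : (t : ℂ) ≠ 0 := by exact_mod_cast ht
  simp only [Function.comp] at h4
  have e1 : fx (Xt x V t) (u t) = fx x (u t) + t * ((hh x V).eval (u t) /
      ((de x).eval (u t) * (de (Xt x V t)).eval (u t))) := by
    unfold fx fr
    rw [nu_Xt]
    rw [de_Xt] at h5 ⊢
    unfold hh
    simp only [eval_add, eval_mul, eval_C, eval_sub] at h5 ⊢
    field_simp
    ring
  rw [e1]
  field_simp
  ring

lemma iter_slopeR {d : ℕ} (x V : CV d) (y : ℝ → ℂ) (a : ℂ) (hy : Tendsto y (𝓝[>] 0) (𝓝 a)) (n : ℕ)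
    (h : ∀ j < n, (de x).eval ((fx x)^[j] a) ≠ 0) :
    Tendsto (fun t : ℝ => ((fx (Xt x V t))^[n] (y t) - (fx x)^[n] (y t)) / (t : ℂ)) (𝓝[>] 0)
      (𝓝 (llR x V a n)) := by
  induction n with
  | zero => simp [llR]
  | succ n ih =>
    simp only [Function.iterate_succ_apply', llR]
    have hn : ∀ j < n, (de x).eval ((fx x)^[j] a) ≠ 0 := fun j hj => h j (by omega)
    have h2 : Tendsto (fun t => (fx x)^[n] (y t)) (𝓝[>] 0) (𝓝 ((fx x)^[n] a)) :=
      (fx_iter_diff x a n hn).continuousAt.tendsto.comp hy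
    exact step_slope x V _ _ (h n (by omega)) _ _ (itR x V y a hy n hn) h2 (ih hn)

lemma cyc_slopeR {d : ℕ} (x V : CV d) (y : ℝ → ℂ) (a w : ℂ) (hy : Tendsto y (𝓝[>] 0) (𝓝 a))
    (hw : Tendsto (fun t : ℝ => (y t - a) / (t : ℂ)) (𝓝[>] 0) (𝓝 w)) (n : ℕ)
    (h : ∀ j < n, (de x).eval ((fx x)^[j] a) ≠ 0) :
    Tendsto (fun t : ℝ => ((fx (Xt x V t))^[n] (y t) - (fx x)^[n] a) / (t : ℂ)) (𝓝[>] 0)
      (𝓝 (ddR x a n * w + llR x V a n)) := by
  induction n with
  | zero => simpa [llR, ddR] using hw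
  | succ n ih =>
    simp only [Function.iterate_succ_apply', llR]
    have hn : ∀ j < n, (de x).eval ((fx x)^[j] a) ≠ 0 := fun j hj => h j (by omega)
    have h3 := step_slope x V ((fx x)^[n] a) _ (h n (by omega)) _ (fun _ => (fx x)^[n] a)
      (itR x V y a hy n hn) tendsto_const_nhds (ih hn)
    have e : ddR x a (n + 1) * w + (d1 (nu x) (de x) ((fx x)^[n] a) * llR x V a n +
        hv (de x) (hh x V) ((fx x)^[n] a)) = d1 (nu x) (de x) ((fx x)^[n] a) *
        (ddR x a n * w + llR x V a n) + hv (de x) (hh x V) ((fx x)^[n] a) := by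
      unfold ddR
      rw [Finset.prod_range_succ]; ring
    rw [e]
    exact h3

lemma derR {d : ℕ} (x : CV d) (a : ℂ) (n : ℕ) (h : ∀ j < n, (de x).eval ((fx x)^[j] a) ≠ 0) :
    HasDerivAt ((fx x)^[n]) (ddR x a n) a := by
  induction n with
  | zero => simpa [ddR] using hasDerivAt_id a
  | succ n ih =>
    rw [Function.iterate_succ']
    unfold ddR
    rw [Finset.prod_range_succ, mul_comm]
    exact HasDerivAt.comp a (strictR x _ (h n (by omega))).hasDerivAt (ih fun j hj => h j (by omega))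

/-- slope of a quotient `n / q ^ 2` -/
lemma quot_slope (l : Filter ℝ) (f q : ℝ → ℂ) (f0 q0 f1 q1 : ℂ) (hq0 : q0 ≠ 0)
    (hf : Tendsto f l (𝓝 f0)) (hq : Tendsto q l (𝓝 q0))
    (hf1 : Tendsto (fun t => (f t - f0) / (t : ℂ)) l (𝓝 f1))
    (hq1 : Tendsto (fun t => (q t - q0) / (t : ℂ)) l (𝓝 q1)) (hl : ∀ᶠ t in l, t ≠ 0) :
    Tendsto (fun t => (f t / q t ^ 2 - f0 / q0 ^ 2) / (t : ℂ)) l
      (𝓝 ((f1 * q0 - 2 * f0 * q1) / q0 ^ 3)) := by
  have h1 : Tendsto (fun t => ((f t - f0) / (t : ℂ)) / q t ^ 2 -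
      f0 * (((q t - q0) / (t : ℂ)) * (q t + q0)) / (q t ^ 2 * q0 ^ 2)) l
      (𝓝 (f1 / q0 ^ 2 - f0 * (q1 * (q0 + q0)) / (q0 ^ 2 * q0 ^ 2))) := by
    refine (hf1.div (hq.pow 2) (pow_ne_zero _ hq0)).sub ?_
    refine ((hq1.mul (hq.add_const q0)).const_mul f0).div ((hq.pow 2).mul_const _) ?_
    exact mul_ne_zero (pow_ne_zero _ hq0) (pow_ne_zero _ hq0)
  have e : f1 / q0 ^ 2 - f0 * (q1 * (q0 + q0)) / (q0 ^ 2 * q0 ^ 2) =
      (f1 * q0 - 2 * f0 * q1) / q0 ^ 3 := by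
    field_simp
    ring
  rw [e] at h1
  refine h1.congr' ?_
  filter_upwards [hl, hq.eventually_ne hq0] with t ht hqt
  have htC : (t : ℂ) ≠ 0 := by exact_mod_cast ht
  field_simp
  ring

/-- slope of a family of polynomials -/
lemma polyfam (P A R : ℂ[X]) (w : ℝ → ℂ) (z c : ℂ) (hw : Tendsto w (𝓝[>] 0) (𝓝 z))
    (hc : Tendsto (fun t : ℝ => (w t - z) / (t : ℂ)) (𝓝[>] 0) (𝓝 c)) :
    Tendsto (fun t : ℝ => ((P + C (t : ℂ) * A + C ((t : ℂ) ^ 2) * R).eval (w t) - P.eval z) /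
      (t : ℂ)) (𝓝[>] 0) (𝓝 ((derivative P).eval z * c + A.eval z)) := by
  have h1 := slope_poly P (𝓝[>] 0) w (fun _ => z) z c hw tendsto_const_nhds hc ne0_nhdsGT
  have h2 : Tendsto (fun t : ℝ => A.eval (w t) + (t : ℂ) * R.eval (w t)) (𝓝[>] 0)
      (𝓝 (A.eval z + 0 * R.eval z)) :=
    ((A.continuous.tendsto z).comp hw).add (tendsto_ofReal0.mul ((R.continuous.tendsto z).comp hw))
  rw [zero_mul, add_zero] at h2
  refine (h1.add h2).congr' ?_
  filter_upwards [ne0_nhdsGT] with t ht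
  have htC : (t : ℂ) ≠ 0 := by exact_mod_cast ht
  simp only [eval_add, eval_mul, eval_C]
  field_simp
  ring

/-- slope of the derivative of the perturbed map -/
lemma d1_slope {d : ℕ} (x V : CV d) (w : ℝ → ℂ) (z c : ℂ) (hz : (de x).eval z ≠ 0)
    (hw : Tendsto w (𝓝[>] 0) (𝓝 z))
    (hc : Tendsto (fun t : ℝ => (w t - z) / (t : ℂ)) (𝓝[>] 0) (𝓝 c)) :
    Tendsto (fun t : ℝ => d1 (nu (Xt x V t)) (de (Xt x V t)) (w t)) (𝓝[>] 0)
      (𝓝 (d1 (nu x) (de x) z)) ∧
    Tendsto (fun t : ℝ => (d1 (nu (Xt x V t)) (de (Xt x V t)) (w t) - d1 (nu x) (de x) z) /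
      (t : ℂ)) (𝓝[>] 0) (𝓝 (d2 (nu x) (de x) z * c + hd (de x) (hh x V) z)) := by
  obtain ⟨W1, hW1⟩ : ∃ W1 : ℂ[X], W1 = derivative (nu V) * de x + derivative (nu x) * de V -
      nu V * derivative (de x) - nu x * derivative (de V) := ⟨_, rfl⟩
  have hwn : ∀ t : ℝ, wn (nu (Xt x V t)) (de (Xt x V t)) =
      wn (nu x) (de x) + C (t : ℂ) * W1 + C ((t : ℂ) ^ 2) * wn (nu V) (de V) := by
    intro t
    rw [nu_Xt, de_Xt, hW1]
    unfold wn
    simp only [derivative_add, derivative_mul, derivative_C, zero_mul, zero_add, C_pow]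
    ring
  have hde : ∀ t : ℝ, de (Xt x V t) = de x + C (t : ℂ) * de V + C ((t : ℂ) ^ 2) * 0 := by
    intro t
    rw [de_Xt, mul_zero, add_zero]
  have hf1 := polyfam (wn (nu x) (de x)) W1 (wn (nu V) (de V)) w z c hw hc
  have hq1 := polyfam (de x) (de V) 0 w z c hw hc
  have hq := deX_tendsto x V w z hw
  have hf : Tendsto (fun t : ℝ => (wn (nu (Xt x V t)) (de (Xt x V t))).eval (w t)) (𝓝[>] 0)
      (𝓝 ((wn (nu x) (de x)).eval z)) := by
    have h1 := hf1.mul tendsto_ofReal0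
    rw [mul_zero] at h1
    have h2 := h1.add_const ((wn (nu x) (de x)).eval z)
    rw [zero_add] at h2
    refine h2.congr' ?_
    filter_upwards [ne0_nhdsGT] with t ht
    have htC : (t : ℂ) ≠ 0 := by exact_mod_cast ht
    rw [hwn]
    field_simp
    ring
  have h3 := quot_slope (𝓝[>] 0) _ _ _ _ _ _ hz hf hq (by simpa only [hwn] using hf1)
    (by simpa only [hde] using hq1) ne0_nhdsGT
  constructor
  · exact hf.div (hq.pow 2) (pow_ne_zero _ hz)
  · have e : (((derivative (wn (nu x) (de x))).eval z * c + W1.eval z) * (de x).eval z -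
        2 * (wn (nu x) (de x)).eval z * ((derivative (de x)).eval z * c + (de V).eval z)) /
        (de x).eval z ^ 3 = d2 (nu x) (de x) z * c + hd (de x) (hh x V) z := by
      rw [hW1]
      unfold d2 hd hh wn
      simp only [derivative_sub, derivative_mul, eval_sub, eval_add, eval_mul]
      field_simp
      ring
    rw [e] at h3
    exact h3

/-- zeros of nearby holomorphic functions -/
lemma hurwitz (f : ℂ → ℂ) (F : ℝ → ℂ → ℂ) (a : ℂ) (ρ : ℝ) (hρ : 0 < ρ)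
    (hf : DifferentiableOn ℂ f (ball a ρ)) (hfa : f a = 0) (hiso : ∀ᶠ z in 𝓝[≠] a, f z ≠ 0)
    (hF : ∀ᶠ t in 𝓝[>] (0 : ℝ), DifferentiableOn ℂ (F t) (ball a ρ))
    (hcl : ∀ ε : ℝ, 0 < ε → ∀ᶠ t in 𝓝[>] (0 : ℝ), ∀ z ∈ ball a ρ, ‖F t z - f z‖ ≤ ε) :
    ∃ y : ℝ → ℂ, (∀ᶠ t in 𝓝[>] (0 : ℝ), F t (y t) = 0) ∧ Tendsto y (𝓝[>] 0) (𝓝 a) := by
  classical
  have step1 : ∀ r : ℝ, 0 < r → ∀ᶠ t in 𝓝[>] (0 : ℝ), ∃ z, ‖z - a‖ ≤ r ∧ F t z = 0 := by
    intro r hr
    rw [eventually_nhdsWithin_iff, Metric.eventually_nhds_iff_ball] at hiso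
    obtain ⟨r0, hr0, hne⟩ := hiso
    obtain ⟨r', hr'⟩ : ∃ r' : ℝ, r' = min r (min (ρ / 2) (r0 / 2)) := ⟨_, rfl⟩
    have hr'0 : 0 < r' := by
      rw [hr']; exact lt_min hr (lt_min (by positivity) (by positivity))
    have hr'r : r' ≤ r := by rw [hr']; exact min_le_left _ _
    have hr'ρ : r' < ρ := by
      have : r' ≤ ρ / 2 := by rw [hr']; exact (min_le_right _ _).trans (min_le_left _ _)
      linarith
    have hr'0' : r' < r0 := by
      have : r' ≤ r0 / 2 := by rw [hr']; exact (min_le_right _ _).trans (min_le_right _ _)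
      linarith
    have hsub : closedBall a r' ⊆ ball a ρ := closedBall_subset_ball hr'ρ
    -- minimum on the sphere
    obtain ⟨z₀, hz₀, hmin⟩ := (isCompact_sphere a r').exists_isMinOn
      (NormedSpace.sphere_nonempty.mpr hr'0.le)
      ((hf.continuousOn.mono (sphere_subset_closedBall.trans hsub)).norm)
    obtain ⟨m, hm⟩ : ∃ m : ℝ, m = ‖f z₀‖ := ⟨_, rfl⟩
    have hm0 : 0 < m := by
      rw [hm, norm_pos_iff]
      refine hne z₀ ?_ ?_
      · rw [mem_ball]; rw [mem_sphere] at hz₀; linarith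
      · intro h0
        rw [mem_singleton_iff] at h0
        rw [mem_sphere, h0, dist_self] at hz₀
        linarith
    have hmin' : ∀ z ∈ sphere a r', m ≤ ‖f z‖ := fun z hz => by rw [hm]; exact hmin hz
    filter_upwards [hF, hcl (m / 4) (by positivity)] with t ht1 ht2
    by_contra hcon
    push Not at hcon
    have hnz : ∀ z ∈ closedBall a r', F t z ≠ 0 := by
      intro z hz
      refine hcon z ?_
      rw [mem_closedBall, dist_eq_norm] at hz
      linarith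
    have hdc : DiffContOnCl ℂ (fun z => (F t z)⁻¹) (ball a r') := by
      apply DifferentiableOn.diffContOnCl
      rw [closure_ball a hr'0.ne']
      exact (ht1.mono hsub).inv hnz
    have h1 := Complex.norm_le_of_forall_mem_frontier_norm_le (C := 2 / m)
      (isBounded_ball (x := a) (r := r')) hdc (fun z hz => ?_) (z := a)
      (subset_closure (mem_ball_self hr'0))
    · have h2 := ht2 a (mem_ball_self hρ)
      rw [hfa, sub_zero] at h2
      have h3 : 0 < ‖F t a‖ := norm_pos_iff.mpr (hnz a (mem_closedBall_self hr'0.le))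
      rw [norm_inv, inv_le_comm₀ h3 (by positivity), inv_div] at h1
      linarith
    · rw [frontier_ball a hr'0.ne'] at hz
      have h2 := ht2 z (hsub (sphere_subset_closedBall hz))
      have h3 := hmin' z hz
      have h4 : m / 2 ≤ ‖F t z‖ := by
        have := norm_sub_norm_le (f z) (F t z)
        rw [norm_sub_rev] at this
        linarith
      rw [norm_inv, inv_le_comm₀ (by linarith) (by positivity), inv_div]
      exact h4
  -- choice
  have step2 : ∀ t : ℝ, ∃ y : ℂ, 0 < t → {z | F t z = 0}.Nonempty →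
      F t y = 0 ∧ dist a y < infDist a {z | F t z = 0} + t := by
    intro t
    by_cases h : 0 < t ∧ {z | F t z = 0}.Nonempty
    · obtain ⟨z, hz1, hz2⟩ := (infDist_lt_iff h.2).mp
        (by linarith [h.1] : infDist a {z | F t z = 0} < infDist a {z | F t z = 0} + t)
      exact ⟨z, fun _ _ => ⟨hz1, hz2⟩⟩
    · exact ⟨0, fun h1 h2 => absurd ⟨h1, h2⟩ h⟩
  choose y hy using step2
  refine ⟨y, ?_, ?_⟩
  · filter_upwards [step1 1 one_pos, self_mem_nhdsWithin] with t ht1 ht2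
    obtain ⟨z, -, hz⟩ := ht1
    exact (hy t ht2 ⟨z, hz⟩).1
  · rw [Metric.tendsto_nhds]
    intro ε hε
    filter_upwards [step1 (ε / 2) (by positivity), Ioo_mem_nhdsGT (by positivity : 0 < ε / 2)]
      with t ht1 ht2
    obtain ⟨z, hz1, hz⟩ := ht1
    have h1 := (hy t ht2.1 ⟨z, hz⟩).2
    have h2 : infDist a {z | F t z = 0} ≤ ε / 2 := by
      refine (infDist_le_dist_of_mem (show z ∈ {z | F t z = 0} from hz)).trans ?_
      rw [dist_comm, dist_eq_norm]; exact hz1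
    rw [dist_comm]
    linarith [ht2.2]

/-- fixed points of the perturbed iterates -/
lemma near_fixR {d : ℕ} (x V : CV d) (p : ℕ) (a : ℂ) (ha : ∀ j < p, (de x).eval ((fx x)^[j] a) ≠ 0)
    (hfix : (fx x)^[p] a = a) (hiso : ∀ᶠ z in 𝓝[≠] a, (fx x)^[p] z - z ≠ 0) :
    ∃ y : ℝ → ℂ, (∀ᶠ t in 𝓝[>] (0 : ℝ), (fx (Xt x V t))^[p] (y t) = y t) ∧
      Tendsto y (𝓝[>] 0) (𝓝 a) := by
  obtain ⟨ρ, K, hρ, hK, hfin, hcl⟩ := loc_lip p x a ha
  have hX0 : ∀ ε : ℝ, 0 < ε → ∀ᶠ t in 𝓝[>] (0 : ℝ), ‖Xt x V t - x‖ < ε := by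
    intro ε hε
    have := (Xt_tendsto x V).eventually (ball_mem_nhds x hε)
    filter_upwards [this] with t ht
    rwa [dist_eq_norm] at ht
  obtain ⟨y, hy1, hy2⟩ := hurwitz (fun z => (fx x)^[p] z - z)
    (fun t z => (fx (Xt x V t))^[p] z - z) a ρ hρ
    (fun z hz => ((fx_iter_diff x z p (hfin x (by rw [sub_self, norm_zero]; exact hρ) z hz)).sub
      differentiableAt_id).differentiableWithinAt)
    (by simp [hfix]) hiso
    (by
      filter_upwards [hX0 ρ hρ] with t ht z hz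
      exact ((fx_iter_diff (Xt x V t) z p (hfin _ ht z hz)).sub
        differentiableAt_id).differentiableWithinAt)
    (by
      intro ε hε
      filter_upwards [hX0 ρ hρ, hX0 (ε / (K + 1)) (by positivity)] with t ht1 ht2 z hz
      have h1 := hcl (Xt x V t) ht1 z hz z hz
      rw [sub_self, norm_zero, add_zero] at h1
      rw [lt_div_iff₀ (by positivity)] at ht2
      have e : (fx (Xt x V t))^[p] z - z - ((fx x)^[p] z - z) =
        (fx (Xt x V t))^[p] z - (fx x)^[p] z := by ring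
      rw [e]
      nlinarith [norm_nonneg (Xt x V t - x)])
  refine ⟨y, ?_, hy2⟩
  filter_upwards [hy1] with t ht
  exact sub_eq_zero.mp ht

end Run7.h904.RF
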