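import Mathlib
import Pool.Agent.Run7.h904.RAsy
import Pool.Agent.Run7.h904.PDir

set_option autoImplicit false

open Topology Filter Metric Set Polynomial MeasureTheory Asymptotics
open scoped OnePoint

namespace Run7.h904.RF

open Pool.Agent.W757.QR Pool.Agent.H790R3.RB Pool.Agent.W29.RQSNK Pool.Agent.W29.RQAPP
open Run7.h904.PF (ne0_nhdsGT tendsto_ofReal0 prod_slope slope_poly eventually_small)

/-- logarithmic derivative of the multiplier in the direction `V` -/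
noncomputable def kapR {d : ℕ} (x V : CV d) (a : ℂ) (p : ℕ) (lam : ℂ) : ℂ :=
  ∑ i ∈ Finset.range p, (d2 (nu x) (de x) ((fx x)^[i] a) *
      (ddR x a i * (llR x V a p / (1 - lam)) + llR x V a i) +
      hd (de x) (hh x V) ((fx x)^[i] a)) / d1 (nu x) (de x) ((fx x)^[i] a)

theorem typeAR {d : ℕ} (hd2 : 2 ≤ d) (x V : CV d) (hx : ND x) (p q : ℕ)
    (hp : 0 < p) (hq : 0 < q) (a lam : ℂ) (ha : Fin' x a) (hfix : (fx x)^[p] a = a)
    (hlam : deriv ((fx x)^[p]) a = lam) (hq1 : lam ^ q = 1) (hne : lam ≠ 1)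
    (hκ : (kapR x V a p lam).re ≠ 0) (z : ℂ) (hz : Fin' x z)
    (hlim : Tendsto (fun i : ℕ => (fx x)^[p * q * i] z) atTop (𝓝 a))
    (hzx : ∀ i : ℕ, (fx x)^[p * q * i] z ≠ a) : GR x V z := by
  have hhd := derR x a p (fun j _ => ha j)
  have hdd : ddR x a p = lam := by rw [← hlam, hhd.deriv]
  have hfd : HasDerivAt (fun z => (fx x)^[p] z - z) (lam - 1) a := by
    rw [hdd] at hhd
    exact hhd.sub (hasDerivAt_id a)
  have hlne : lam - 1 ≠ 0 := sub_ne_zero.mpr hne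
  obtain ⟨y, hy1, hy2⟩ := near_fixR x V p a (fun j _ => ha j) hfix (hfd.eventually_ne hlne)
  have hlam0 : lam ≠ 0 := by
    rintro rfl
    rw [zero_pow hq.ne'] at hq1
    exact zero_ne_one hq1
  have h1lam : (1 : ℂ) - lam ≠ 0 := sub_ne_zero.mpr hne.symm
  have hg0 : ∀ i < p, d1 (nu x) (de x) ((fx x)^[i] a) ≠ 0 := by
    intro i hi h0
    apply hlam0
    rw [← hdd]
    exact Finset.prod_eq_zero (Finset.mem_range.mpr hi) h0
  -- the displacement
  obtain ⟨w, hw⟩ : ∃ w : ℂ, w = llR x V a p / (1 - lam) := ⟨_, rfl⟩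
  have hyw : Tendsto (fun t : ℝ => (y t - a) / (t : ℂ)) (𝓝[>] 0) (𝓝 w) := by
    have hc : ContinuousAt (dslope (fun z => (fx x)^[p] z - z) a) a :=
      continuousAt_dslope_same.mpr hfd.differentiableAt
    have h2 : Tendsto (fun t => dslope (fun z => (fx x)^[p] z - z) a (y t)) (𝓝[>] 0)
        (𝓝 (lam - 1)) := by
      have := hc.tendsto.comp hy2
      rw [dslope_same, hfd.deriv] at this
      exact this
    have h3 := (iter_slopeR x V y a hy2 p (fun j _ => ha j)).neg.div h2 hlne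
    have e : w = -llR x V a p / (lam - 1) := by
      rw [hw]
      field_simp
      ring
    rw [e]
    refine h3.congr' ?_
    filter_upwards [hy1, h2.eventually_ne hlne, ne0_nhdsGT] with t ht1 ht2 ht3
    have htC : (t : ℂ) ≠ 0 := by exact_mod_cast ht3
    have h5 := sub_smul_dslope (fun z => (fx x)^[p] z - z) a (y t)
    simp only [hfix, sub_self, sub_zero, smul_eq_mul] at h5
    show -(((fx (Xt x V t))^[p] (y t) - (fx x)^[p] (y t)) / (t : ℂ)) /
      dslope (fun z => (fx x)^[p] z - z) a (y t) = (y t - a) / t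
    rw [ht1]
    field_simp
    linear_combination -h5
  have hcs := fun n => cyc_slopeR x V y a w hy2 hyw n (fun j _ => ha j)
  -- finiteness of the perturbed orbits
  have hfinY : ∀ᶠ t in 𝓝[>] (0 : ℝ), ∀ j < p, (de (Xt x V t)).eval ((fx (Xt x V t))^[j] (y t)) ≠ 0 := by
    have h1 := ne_nhds p (x, a) (fun j _ => ha j)
    have h2 : Tendsto (fun t => ((Xt x V t, y t) : CV d × ℂ)) (𝓝[>] 0) (𝓝 (x, a)) :=
      (Xt_tendsto x V).prodMk_nhds hy2
    exact h2.eventually h1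
  -- the multiplier
  have hmul : Tendsto (fun t : ℝ => (deriv ((fx (Xt x V t))^[p]) (y t) - lam) / (t : ℂ)) (𝓝[>] 0)
      (𝓝 (lam * kapR x V a p lam)) := by
    have h1 := prod_slope
      (fun i t => d1 (nu (Xt x V t)) (de (Xt x V t)) ((fx (Xt x V t))^[i] (y t)))
      (fun i => d1 (nu x) (de x) ((fx x)^[i] a))
      (fun i => d2 (nu x) (de x) ((fx x)^[i] a) * (ddR x a i * w + llR x V a i) +
        hd (de x) (hh x V) ((fx x)^[i] a)) (𝓝[>] 0) p hg0
      (fun i _ => (d1_slope x V _ _ _ (ha i) (itR x V y a hy2 i fun j _ => ha j) (hcs i)).1)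
      (fun i _ => (d1_slope x V _ _ _ (ha i) (itR x V y a hy2 i fun j _ => ha j) (hcs i)).2)
    have e1 : (∏ i ∈ Finset.range p, d1 (nu x) (de x) ((fx x)^[i] a)) = lam := hdd
    rw [e1, hw] at h1
    refine h1.congr' ?_
    filter_upwards [hfinY] with t ht
    have h2 := (derR (Xt x V t) (y t) p ht).deriv
    rw [h2]
    rfl
  have hmt : Tendsto (fun t : ℝ => deriv ((fx (Xt x V t))^[p]) (y t)) (𝓝[>] 0) (𝓝 lam) := by
    have h1 := hmul.mul tendsto_ofReal0
    rw [mul_zero] at h1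
    have h2 := h1.add_const lam
    rw [zero_add] at h2
    refine h2.congr' ?_
    filter_upwards [ne0_nhdsGT] with t ht
    have htC : (t : ℂ) ≠ 0 := by exact_mod_cast ht
    field_simp
    ring
  obtain ⟨μ, hμd⟩ : ∃ μ : ℝ → ℂ, μ = fun t => (deriv ((fx (Xt x V t))^[p]) (y t)) ^ q - 1 :=
    ⟨_, rfl⟩
  have hμt : Tendsto (fun t : ℝ => μ t / (t : ℂ)) (𝓝[>] 0) (𝓝 (q * kapR x V a p lam)) := by
    have h1 := slope_poly (X ^ q) (𝓝[>] 0) (fun t => deriv ((fx (Xt x V t))^[p]) (y t))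
      (fun _ => lam) lam _ hmt tendsto_const_nhds hmul ne0_nhdsGT
    have e1 : (derivative (X ^ q : ℂ[X])).eval lam * (lam * kapR x V a p lam) =
        q * kapR x V a p lam := by
      rw [derivative_X_pow, eval_mul, eval_C, eval_pow, eval_X]
      have : lam ^ (q - 1) * lam = 1 := by
        rw [← pow_succ, Nat.sub_add_cancel hq, hq1]
      linear_combination ((q : ℂ) * kapR x V a p lam) * this
    rw [e1] at h1
    refine h1.congr fun t => ?_
    simp only [hμd, eval_pow, eval_X, hq1]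
  have hc : ((q : ℂ) * kapR x V a p lam).re ≠ 0 := by
    have : ((q : ℂ) * kapR x V a p lam).re = q * (kapR x V a p lam).re := by simp
    rw [this]
    have hq' : (q : ℝ) ≠ 0 := by exact_mod_cast hq.ne'
    exact mul_ne_zero hq' hκ
  generalize hcd : (q : ℂ) * kapR x V a p lam = c at hμt hc
  have hcn : 0 < ‖c‖ := norm_pos_iff.mpr (by rintro rfl; simp at hc)
  have hcr : 0 < |c.re| := abs_pos.mpr hc
  have hmul' : deriv ((fx x)^[p * q]) a = 1 := by
    have h1 : HasDerivAt ((fx x)^[p]) lam a := by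
      rw [hdd] at hhd; exact hhd
    have h2 := HasDerivAt.iterate _ h1 hfix q
    rw [Function.iterate_mul, h2.deriv, hq1]
  have hfix' : (fx x)^[p * q] a = a := by
    rw [Function.iterate_mul]
    exact Function.iterate_fixed hfix q
  refine appmuR hd2 x V hx (p * q) (Nat.mul_pos hp hq) a ha hfix' hmul' y μ
    (|c.re| / (4 * ‖c‖)) (2 * (2 + ‖w‖) / |c.re|) (by positivity) ?_ (by positivity) ?_ ?_ z hz
    hlim hzx
  · rw [div_le_one (by positivity)]
    have := Complex.abs_re_le_norm c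
    linarith
  · have hyw' := hyw.norm.eventually (gt_mem_nhds (by linarith : ‖w‖ < ‖w‖ + 1))
    filter_upwards [hy1, eventually_small _ _ c hμt hc, hyw', self_mem_nhdsWithin, hfinY]
      with t ht1 ht2 ht3 ht4 ht5
    have ht0 : 0 < t := ht4
    have htn : ‖(t : ℂ)‖ = t := Complex.norm_of_nonneg ht0.le
    obtain ⟨hb1, hb2⟩ := ht2
    rw [norm_div, htn, div_le_iff₀ ht0] at hb1
    have hre : (μ t / (t : ℂ)).re = (μ t).re / t := by
      rw [Complex.div_ofReal_re]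
    rw [hre, abs_div, abs_of_pos ht0, le_div_iff₀ ht0] at hb2
    rw [norm_div, htn, div_lt_iff₀ ht0] at ht3
    have hμn : |c.re| / 2 * t ≤ ‖μ t‖ := hb2.trans (Complex.abs_re_le_norm _)
    refine ⟨?_, ?_, ?_, ?_, ?_⟩
    · rw [Function.iterate_mul]
      exact Function.iterate_fixed ht1 q
    · have h1 : HasDerivAt ((fx (Xt x V t))^[p]) (deriv ((fx (Xt x V t))^[p]) (y t)) (y t) :=
        (derR (Xt x V t) (y t) p ht5).differentiableAt.hasDerivAt
      have h2 := HasDerivAt.iterate _ h1 ht1 q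
      rw [Function.iterate_mul, h2.deriv, hμd]
      ring
    · intro h0
      rw [h0, norm_zero] at hμn
      have : 0 < |c.re| / 2 * t := by positivity
      linarith
    · refine le_trans ?_ hb2
      rw [div_mul_eq_mul_div, div_le_iff₀ (by positivity)]
      have := mul_le_mul_of_nonneg_left hb1 hcr.le
      nlinarith
    · rw [div_mul_eq_mul_div, le_div_iff₀ hcr]
      have h3 : t + ‖y t - a‖ ≤ (2 + ‖w‖) * t := by linarith
      have h4 := mul_le_mul_of_nonneg_right h3 hcr.le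
      have h5 := mul_le_mul_of_nonneg_left hμn (by positivity : 0 ≤ 2 * (2 + ‖w‖))
      linarith
  · have h1 := hμt.mul tendsto_ofReal0
    rw [mul_zero] at h1
    refine h1.congr' ?_
    filter_upwards [ne0_nhdsGT] with t ht
    have htC : (t : ℂ) ≠ 0 := by exact_mod_cast ht
    field_simp

/-- the derivatives of the iterates are perturbed by `O(t)` -/
lemma deriv_closeR {d : ℕ} (x V : CV d) (p : ℕ) (a : ℂ)
    (ha : ∀ j < p, (de x).eval ((fx x)^[j] a) ≠ 0) :
    ∃ B t₀ ρ : ℝ, 0 ≤ B ∧ 0 < t₀ ∧ 0 < ρ ∧ ∀ t : ℝ, 0 ≤ t → t ≤ t₀ → ∀ z ∈ ball a ρ,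
      ‖deriv ((fx (Xt x V t))^[p]) z - deriv ((fx x)^[p]) z‖ ≤ B * t := by
  obtain ⟨ρ, K, hρ, hK, hfin, hcl⟩ := loc_lip p x a ha
  refine ⟨K * ‖V‖ / (ρ / 2), ρ / (2 * (‖V‖ + 1)), ρ / 2, by positivity, by positivity,
    by positivity, ?_⟩
  intro t ht htt z hz
  have hXs : ‖Xt x V t - x‖ < ρ := by
    rw [Xt_sub x V t ht]
    rw [le_div_iff₀ (by positivity)] at htt
    nlinarith [norm_nonneg V]
  have hsub : closedBall z (ρ / 2) ⊆ ball a ρ := by
    intro w hw
    rw [mem_closedBall] at hw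
    rw [mem_ball] at hz ⊢
    have := dist_triangle w z a
    linarith
  have hd1 : ∀ w ∈ ball a ρ, DifferentiableAt ℂ ((fx (Xt x V t))^[p]) w := fun w hw =>
    fx_iter_diff _ w p (hfin _ hXs w hw)
  have hd2 : ∀ w ∈ ball a ρ, DifferentiableAt ℂ ((fx x)^[p]) w := fun w hw =>
    fx_iter_diff _ w p (hfin x (by rw [sub_self, norm_zero]; exact hρ) w hw)
  have h := Complex.norm_deriv_le_of_forall_mem_sphere_norm_le (c := z) (R := ρ / 2)
    (C := K * ‖V‖ * t)
    (f := fun w => (fx (Xt x V t))^[p] w - (fx x)^[p] w) (by positivity)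
    (DifferentiableOn.diffContOnCl (by
      intro w hw
      rw [closure_ball z (by positivity)] at hw
      exact ((hd1 w (hsub hw)).sub (hd2 w (hsub hw))).differentiableWithinAt)) (fun w hw => by
      have hw' := hsub (sphere_subset_closedBall hw)
      have := hcl _ hXs w hw' w hw'
      rw [sub_self, norm_zero, add_zero, Xt_sub x V t ht] at this
      linarith)
  have hza : z ∈ ball a ρ := hsub (mem_closedBall_self (by positivity))
  rw [deriv_fun_sub (hd1 z hza) (hd2 z hza)] at h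
  refine h.trans (le_of_eq ?_)
  ring

theorem typeBR {d : ℕ} (hd2 : 2 ≤ d) (x V : CV d) (hx : ND x) (p : ℕ)
    (hp : 0 < p) (a al : ℂ) (ha : Fin' x a) (hfix : (fx x)^[p] a = a)
    (hlam : deriv ((fx x)^[p]) a = 1)
    (g : ℂ → ℂ) (hg : DifferentiableAt ℂ g a) (hgc : ContinuousAt (deriv g) a)
    (hgd : ∀ᶠ z in 𝓝 a, DifferentiableAt ℂ g z)
    (hfac : ∀ᶠ z in 𝓝 a, (fx x)^[p] z - z = (z - a) ^ 2 * g z) (hga : g a = al) (hal : al ≠ 0)
    (hκ : (al * llR x V a p).im ≠ 0) (z : ℂ) (hz : Fin' x z)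
    (hlim : Tendsto (fun i : ℕ => (fx x)^[p * i] z) atTop (𝓝 a))
    (hzx : ∀ i : ℕ, (fx x)^[p * i] z ≠ a) : GR x V z := by
  have hiso : ∀ᶠ z in 𝓝[≠] a, (fx x)^[p] z - z ≠ 0 := by
    have h1 : ∀ᶠ z in 𝓝[≠] a, g z ≠ 0 :=
      (hg.continuousAt.eventually_ne (by rw [hga]; exact hal)).filter_mono nhdsWithin_le_nhds
    filter_upwards [h1, hfac.filter_mono nhdsWithin_le_nhds, self_mem_nhdsWithin] with z h2 h3 h4
    rw [h3]
    exact mul_ne_zero (pow_ne_zero _ (sub_ne_zero.mpr h4)) h2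
  obtain ⟨y, hy1, hy2⟩ := near_fixR x V p a (fun j _ => ha j) hfix hiso
  have hgy : Tendsto (fun t => g (y t)) (𝓝[>] 0) (𝓝 al) := by
    rw [← hga]; exact hg.continuousAt.tendsto.comp hy2
  have hfa : Tendsto (fun t : ℝ => (y t - a) ^ 2 / (t : ℂ)) (𝓝[>] 0)
      (𝓝 (- llR x V a p / al)) := by
    have h2 := (iter_slopeR x V y a hy2 p (fun j _ => ha j)).neg.div hgy hal
    refine h2.congr' ?_
    filter_upwards [hy1, hgy.eventually_ne hal, ne0_nhdsGT, hy2.eventually hfac]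
      with t ht1 ht2 ht3 ht4
    have htC : (t : ℂ) ≠ 0 := by exact_mod_cast ht3
    show -(((fx (Xt x V t))^[p] (y t) - (fx x)^[p] (y t)) / (t : ℂ)) / g (y t) =
      (y t - a) ^ 2 / (t : ℂ)
    rw [ht1]
    field_simp
    linear_combination ht4
  have hll : llR x V a p ≠ 0 := by
    intro h0
    rw [h0, mul_zero, Complex.zero_im] at hκ
    exact hκ rfl
  have hlim0 : - llR x V a p / al ≠ 0 := div_ne_zero (neg_ne_zero.mpr hll) hal
  have hyx : Tendsto (fun t => y t - a) (𝓝[>] 0) (𝓝 0) := by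
    have := hy2.sub_const a
    rwa [sub_self] at this
  have hyne : ∀ᶠ t in 𝓝[>] (0 : ℝ), y t - a ≠ 0 := by
    filter_upwards [hfa.eventually_ne hlim0] with t ht h0
    apply ht
    rw [h0]
    simp
  have htq : Tendsto (fun t : ℝ => (t : ℂ) / (y t - a)) (𝓝[>] 0) (𝓝 0) := by
    have h1 := (hfa.inv₀ hlim0).mul hyx
    rw [mul_zero] at h1
    refine h1.congr' ?_
    filter_upwards [hyne] with t ht
    rw [inv_div]
    field_simp
  obtain ⟨μ, hμd⟩ : ∃ μ : ℝ → ℂ, μ = fun t => deriv ((fx (Xt x V t))^[p]) (y t) - 1 := ⟨_, rfl⟩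
  -- derivative of the unperturbed return map
  have hdT : ∀ᶠ z in 𝓝 a, deriv ((fx x)^[p]) z =
      1 + (z - a) * (2 * g z + (z - a) * deriv g z) := by
    have hne : ∀ᶠ z in 𝓝 a, ∀ j < p, (de x).eval ((fx x)^[j] z) ≠ 0 := by
      have h1 := ne_nhds p (x, a) (fun j _ => ha j)
      have h2 : Tendsto (fun z : ℂ => ((x, z) : CV d × ℂ)) (𝓝 a) (𝓝 (x, a)) :=
        tendsto_const_nhds.prodMk_nhds tendsto_id
      exact h2.eventually h1
    filter_upwards [hfac.eventually_nhds, hgd, hne] with z h1 h2 h3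
    have h4 : HasDerivAt (fun z => (z - a) ^ 2 * g z)
        (2 * (z - a) * g z + (z - a) ^ 2 * deriv g z) z := by
      have h5 : HasDerivAt (fun z : ℂ => (z - a) ^ 2) (2 * (z - a)) z := by
        have := ((hasDerivAt_id' z).sub_const a).fun_pow 2
        simpa using this
      exact h5.mul h2.hasDerivAt
    have h6 : HasDerivAt (fun z => (fx x)^[p] z - z)
        (2 * (z - a) * g z + (z - a) ^ 2 * deriv g z) z :=
      h4.congr_of_eventuallyEq h1
    have h7 := (fx_iter_diff x z p h3).hasDerivAt.sub (hasDerivAt_id z)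
    have h8 := h7.unique h6
    linear_combination h8
  have hμ1 : Tendsto (fun t : ℝ => μ t / (y t - a)) (𝓝[>] 0) (𝓝 (2 * al)) := by
    obtain ⟨B, t₀, ρ, hB, ht₀, hρ, hbd⟩ := deriv_closeR x V p a (fun j _ => ha j)
    have h1 : Tendsto (fun t : ℝ => (deriv ((fx (Xt x V t))^[p]) (y t) -
        deriv ((fx x)^[p]) (y t)) / (y t - a)) (𝓝[>] 0) (𝓝 0) := by
      have h2 : Tendsto (fun t : ℝ => B * ‖(t : ℂ) / (y t - a)‖) (𝓝[>] 0) (𝓝 0) := by
        have := htq.norm.const_mul B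
        rw [norm_zero, mul_zero] at this
        exact this
      refine squeeze_zero_norm' ?_ h2
      have hmem : ∀ᶠ t in 𝓝[>] (0 : ℝ), 0 ≤ t ∧ t ≤ t₀ := by
        have h1 : Ioo (0 : ℝ) t₀ ∈ 𝓝[>] (0 : ℝ) := Ioo_mem_nhdsGT ht₀
        filter_upwards [h1] with t ht
        exact ⟨ht.1.le, ht.2.le⟩
      filter_upwards [hmem, hy2.eventually (ball_mem_nhds a hρ)] with t ht1 ht2
      rw [norm_div, norm_div, Complex.norm_of_nonneg ht1.1, ← mul_div_assoc]
      exact div_le_div_of_nonneg_right (hbd t ht1.1 ht1.2 _ ht2) (norm_nonneg _)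
    have h2 : Tendsto (fun t : ℝ => 2 * g (y t) + (y t - a) * deriv g (y t))
        (𝓝[>] 0) (𝓝 (2 * al + 0 * deriv g a)) :=
      (hgy.const_mul 2).add (hyx.mul (hgc.tendsto.comp hy2))
    have h3 := h1.add h2
    rw [zero_mul, add_zero, zero_add] at h3
    refine h3.congr' ?_
    filter_upwards [hyne, hy2.eventually hdT] with t ht ht5
    rw [ht5, hμd]
    field_simp
    ring
  obtain ⟨ω, hω⟩ : ∃ ω : ℂ, ω = -4 * (al * llR x V a p) := ⟨_, rfl⟩
  have hμ2 : Tendsto (fun t : ℝ => (μ t) ^ 2 / (t : ℂ)) (𝓝[>] 0) (𝓝 ω) := by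
    have h1 := (hμ1.pow 2).mul hfa
    have e : (2 * al) ^ 2 * (-llR x V a p / al) = ω := by
      rw [hω]; field_simp; ring
    rw [e] at h1
    refine h1.congr' ?_
    filter_upwards [hyne] with t ht
    rw [div_pow]
    field_simp
  have hωim : ω.im ≠ 0 := by
    rw [hω]
    have : (-4 * (al * llR x V a p)).im = -4 * (al * llR x V a p).im := by
      simp [Complex.mul_im]
    rw [this]
    exact mul_ne_zero (by norm_num) hκ
  have hωn : 0 < ‖ω‖ := norm_pos_iff.mpr (by rintro rfl; simp at hωim)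
  have hωp : 0 < ‖ω‖ + ω.re := by
    have h1 : -ω.re < ‖ω‖ := by
      have h2 : |ω.re| < ‖ω‖ := Complex.abs_re_lt_norm.mpr hωim
      have := neg_le_abs ω.re
      linarith
    linarith
  have hωle : ‖ω‖ + ω.re ≤ 2 * ‖ω‖ := by
    have := Complex.re_le_norm ω
    linarith
  have hμ0 : Tendsto μ (𝓝[>] 0) (𝓝 0) := by
    have h1 := hμ1.mul hyx
    rw [mul_zero] at h1
    refine h1.congr' ?_
    filter_upwards [hyne] with t ht
    field_simp
  refine appmuR hd2 x V hx p hp a ha hfix hlam y μ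
    (Real.sqrt ((‖ω‖ + ω.re) / (8 * ‖ω‖))) (1 / ‖al‖ + 2 / ‖ω‖) (by positivity) ?_
    (by have := norm_pos_iff.mpr hal; positivity) ?_ hμ0 z hz hlim hzx
  · refine Real.sqrt_le_one.mpr ?_
    rw [div_le_one (by positivity)]
    linarith
  · have ha0 : 0 < ‖al‖ := norm_pos_iff.mpr hal
    have E1 := hμ2.norm.eventually (gt_mem_nhds (by linarith : ‖ω‖ < 2 * ‖ω‖))
    have E2 := hμ2.norm.eventually (lt_mem_nhds (by linarith : ‖ω‖ / 2 < ‖ω‖))
    have E3 : ∀ᶠ t in 𝓝[>] (0 : ℝ), (‖ω‖ + ω.re) / 2 <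
        ‖(μ t) ^ 2 / (t : ℂ)‖ + ((μ t) ^ 2 / (t : ℂ)).re := by
      have h1 : Tendsto (fun t : ℝ => ‖(μ t) ^ 2 / (t : ℂ)‖ + ((μ t) ^ 2 / (t : ℂ)).re) (𝓝[>] 0)
          (𝓝 (‖ω‖ + ω.re)) := hμ2.norm.add ((Complex.continuous_re.tendsto ω).comp hμ2)
      exact h1.eventually (lt_mem_nhds (by linarith))
    have E4 : ∀ᶠ t in 𝓝[>] (0 : ℝ), ‖al‖ < ‖μ t / (y t - a)‖ := by
      refine hμ1.norm.eventually (lt_mem_nhds ?_)
      rw [norm_mul, Complex.norm_ofNat]
      linarith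
    have E5 : ∀ᶠ t in 𝓝[>] (0 : ℝ), ‖μ t‖ < 1 := by
      have := hμ0.norm
      rw [norm_zero] at this
      exact this.eventually (gt_mem_nhds one_pos)
    filter_upwards [hy1, E1, E2, E3, E4, E5, hyne, self_mem_nhdsWithin] with t g1 g2 g3 g4 g5 g6
      g7 g8
    have ht0 : 0 < t := g8
    have htn : ‖(t : ℂ)‖ = t := Complex.norm_of_nonneg ht0.le
    rw [norm_div, htn, norm_pow] at g2 g3 g4
    rw [Complex.div_ofReal_re] at g4
    rw [div_lt_iff₀ ht0] at g2
    rw [lt_div_iff₀ ht0] at g3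
    rw [← add_div, lt_div_iff₀ ht0] at g4
    have hyn : 0 < ‖y t - a‖ := norm_pos_iff.mpr g7
    rw [norm_div, lt_div_iff₀ hyn] at g5
    have hμn : 0 < ‖μ t‖ := by
      have : 0 < ‖al‖ * ‖y t - a‖ := by positivity
      linarith
    refine ⟨g1, ?_, norm_pos_iff.mp hμn, ?_, ?_⟩
    · rw [hμd]; ring
    · have e1 : (μ t ^ 2).re = (μ t).re ^ 2 - (μ t).im ^ 2 := by
        rw [pow_two, Complex.mul_re]; ring
      have e2 : ‖μ t‖ ^ 2 = (μ t).re ^ 2 + (μ t).im ^ 2 := by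
        rw [← Complex.normSq_eq_norm_sq, Complex.normSq_apply]; ring
      have h3 : ‖μ t‖ ^ 2 + (μ t ^ 2).re = 2 * (μ t).re ^ 2 := by rw [e1, e2]; ring
      rw [h3] at g4
      have h4 : (‖ω‖ + ω.re) / (8 * ‖ω‖) * ‖μ t‖ ^ 2 ≤ (μ t).re ^ 2 := by
        rw [div_mul_eq_mul_div, div_le_iff₀ (by positivity)]
        have h5 : (‖ω‖ + ω.re) * ‖μ t‖ ^ 2 ≤ (‖ω‖ + ω.re) * (2 * ‖ω‖ * t) :=
          mul_le_mul_of_nonneg_left g2.le hωp.le
        nlinarith
      have h6 : (Real.sqrt ((‖ω‖ + ω.re) / (8 * ‖ω‖)) * ‖μ t‖) ^ 2 ≤ |(μ t).re| ^ 2 := by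
        rw [mul_pow, Real.sq_sqrt (by positivity), sq_abs]
        exact h4
      exact abs_le_of_sq_le_sq' h6 (abs_nonneg _) |>.2
    · have h5 : ‖y t - a‖ ≤ 1 / ‖al‖ * ‖μ t‖ := by
        rw [div_mul_eq_mul_div, one_mul, le_div_iff₀ ha0]
        linarith
      have h6 : t ≤ 2 / ‖ω‖ * ‖μ t‖ := by
        rw [div_mul_eq_mul_div, le_div_iff₀ hωn]
        nlinarith
      linarith

end Run7.h904.RF
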