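import Mathlib
import Pool.Agent.Run7.h904.RDir
import Pool.Agent.W409.RQAPX
import Pool.Agent.W40.RQCURVE
import Pool.Agent.W63.REQ2SURL
import Pool.Agent.W378.REQ2INJ
import Pool.Agent.W29.RQSYL

set_option autoImplicit false

open Topology Filter Metric Set Polynomial MeasureTheory Asymptotics
open scoped OnePoint

namespace Run7.h904.RF

open Pool.Agent.W757.QR Pool.Agent.W757.Q2 Pool.Agent.H790R3.RB Pool.Agent.W29.RQSNK
open Pool.Agent.W409.RQAPX (Ind ind_finite ind_cyc ind_unit fin_iter fin_succ finite_fix)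

lemma pol_lin {d : ℕ} (c : ℂ) (V W : CV d) (i : Fin 2) :
    pol (c • V + W) i = C c * pol V i + pol W i := by
  unfold pol
  rw [Finset.mul_sum, ← Finset.sum_add_distrib]
  refine Finset.sum_congr rfl fun j _ => ?_
  rw [C_mul_monomial, ← map_add]
  simp

lemma hh_lin {d : ℕ} (x : CV d) (c : ℂ) (V W : CV d) :
    hh x (c • V + W) = C c * hh x V + hh x W := by
  unfold hh nu de
  rw [pol_lin, pol_lin]
  ring

lemma hv_lin (Q : ℂ[X]) (c : ℂ) (H H' : ℂ[X]) (z : ℂ) :
    hv Q (C c * H + H') z = c * hv Q H z + hv Q H' z := by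
  unfold hv
  simp only [eval_add, eval_mul, eval_C]
  ring

lemma hd_lin (Q : ℂ[X]) (c : ℂ) (H H' : ℂ[X]) (z : ℂ) :
    hd Q (C c * H + H') z = c * hd Q H z + hd Q H' z := by
  unfold hd
  simp only [derivative_add, derivative_C_mul, eval_add, eval_mul, eval_C]
  ring

lemma llR_lin {d : ℕ} (x : CV d) (c : ℂ) (V W : CV d) (a : ℂ) (n : ℕ) :
    llR x (c • V + W) a n = c * llR x V a n + llR x W a n := by
  induction n with
  | zero => simp [llR]
  | succ n ih =>
    simp only [llR]
    rw [ih, hh_lin, hv_lin]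
    ring

lemma kapR_lin {d : ℕ} (x : CV d) (c : ℂ) (V W : CV d) (a : ℂ) (p : ℕ) (lam : ℂ) :
    kapR x (c • V + W) a p lam = c * kapR x V a p lam + kapR x W a p lam := by
  unfold kapR
  rw [Finset.mul_sum, ← Finset.sum_add_distrib]
  refine Finset.sum_congr rfl fun i _ => ?_
  rw [llR_lin, llR_lin, hh_lin, hd_lin]
  ring

/-- a functional with the property of the previous lemmas is linear -/
noncomputable def linOf {d : ℕ} (g : CV d → ℂ) (h : ∀ (c : ℂ) (V W : CV d), g (c • V + W) = c * g V + g W) :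
    CV d →ₗ[ℂ] ℂ := by
  have h0 : g 0 = 0 := by
    have := h 1 0 0
    rw [one_smul, add_zero, one_mul] at this
    simpa using this
  exact
  { toFun := g
    map_add' := fun V W => by
      have := h 1 V W
      rwa [one_smul, one_mul] at this
    map_smul' := fun c V => by
      have := h c V 0
      rw [add_zero, h0, add_zero] at this
      exact this }

lemma linOf_apply {d : ℕ} (g : CV d → ℂ)
    (h : ∀ (c : ℂ) (V W : CV d), g (c • V + W) = c * g V + g W) (V : CV d) :
    linOf g h V = g V := rfl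

/-- the vector with given numerator and denominator -/
noncomputable def ofP (d : ℕ) (A B : ℂ[X]) : CV d := fun r =>
  if r.1 = 0 then A.coeff r.2 else B.coeff r.2

lemma nu_ofP {d : ℕ} (A B : ℂ[X]) (hA : A.natDegree ≤ d) : nu (ofP d A B) = A := by
  ext j
  by_cases hj : j < d + 1
  · have h1 := PQ.pol_coeff (ofP d A B) 0 ⟨j, hj⟩
    simp only at h1
    show (pol (ofP d A B) 0).coeff j = A.coeff j
    rw [h1]
    simp [ofP]
  · show (pol (ofP d A B) 0).coeff j = A.coeff j
    rw [coeff_eq_zero_of_natDegree_lt, coeff_eq_zero_of_natDegree_lt]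
    · omega
    · have := PQ.pol_natDegree (ofP d A B) 0
      omega

lemma de_ofP {d : ℕ} (A B : ℂ[X]) (hB : B.natDegree ≤ d) : de (ofP d A B) = B := by
  ext j
  by_cases hj : j < d + 1
  · have h1 := PQ.pol_coeff (ofP d A B) 1 ⟨j, hj⟩
    simp only at h1
    show (pol (ofP d A B) 1).coeff j = B.coeff j
    rw [h1]
    simp [ofP]
  · show (pol (ofP d A B) 1).coeff j = B.coeff j
    rw [coeff_eq_zero_of_natDegree_lt, coeff_eq_zero_of_natDegree_lt]
    · omega
    · have := PQ.pol_natDegree (ofP d A B) 1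
      omega

/-- every infinitesimal perturbation is realised -/
lemma exists_hh {d : ℕ} (hd : 2 ≤ d) (x : CV d) (hx : ND x) (H : ℂ[X]) (hH : H.natDegree ≤ 2 * d) :
    ∃ V : CV d, hh x V = H := by
  obtain ⟨A, B, hA, hB, hAB⟩ := Pool.Agent.W29.RQSYL.task d (nu x) (de x) H
    (Pool.Agent.W40.RQCURVE.RM_of hd hx) hH
  refine ⟨ofP d A B, ?_⟩
  unfold hh
  rw [nu_ofP A B hA, de_ofP A B hB]
  exact hAB

lemma surl : StSURL2 := Pool.Agent.W63.REQ2SURL.task Pool.Agent.W378.Q2INJ.task

/-- transversality for multipliers different from one -/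
theorem transAR {d : ℕ} (hd2 : 2 ≤ d) (x : CV d) (hx : ND x) (hG : Ginf d (nu x) (de x))
    (a lam : ℂ) (ha : Fin' x a) (p : ℕ) (hp : 0 < p)
    (hper : Function.minimalPeriod (fx x) a = p) (hl : deriv ((fx x)^[p]) a = lam)
    (hlam : ‖lam‖ = 1) (hne : lam ≠ 1) :
    ∃ V : CV d, kapR x V a p lam ≠ 0 := by
  have hfa : (fx x)^[p] a = a := by
    rw [← hper]; exact Function.iterate_minimalPeriod
  have hmem : ∀ i : ℕ, (fx x)^[i] a ∈ (ind_finite x hd2 hx p).toFinset := by
    intro i
    have h0 : a ∈ (ind_finite x hd2 hx p).toFinset := by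
      rw [Set.Finite.mem_toFinset]
      exact ⟨p, hp, le_rfl, ha, hfa, by rw [hl]; exact hlam⟩
    induction i with
    | zero => exact h0
    | succ i ih =>
      rw [Function.iterate_succ_apply']
      exact ((ind_cyc x hd2 hx p).1 _ ih).2.2
  obtain ⟨H, u, hdeg, hu, hsum⟩ := surl d (nu x) (de x) _ (Pool.Agent.W40.RQCURVE.RM_of hd2 hx)
    (ind_cyc x hd2 hx p) hG (ind_unit x hd2 hx p) (fun _ => 0) (fun _ => 1) (fun _ _ => rfl)
  obtain ⟨V, hV⟩ := exists_hh hd2 x hx H hdeg
  refine ⟨V, ?_⟩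
  have hui : ∀ i : ℕ, u ((fx x)^[i] a) = ddR x a i * u a + llR x V a i := by
    intro i
    induction i with
    | zero => simp [ddR, llR]
    | succ i ih =>
      have h1 := hu _ (hmem i)
      have h2 : (fx x)^[i + 1] a = fr (nu x) (de x) ((fx x)^[i] a) := by
        rw [Function.iterate_succ_apply']; rfl
      have h3 : ddR x a (i + 1) = ddR x a i * d1 (nu x) (de x) ((fx x)^[i] a) := by
        unfold ddR; rw [Finset.prod_range_succ]
      rw [h2, h3, llR, hV]
      rw [ih] at h1
      linear_combination h1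
  have hux : u a = llR x V a p / (1 - lam) := by
    have h1 := hui p
    have h2 := (derR x a p fun j _ => ha j).deriv
    rw [hfa, ← h2, hl] at h1
    have : (1 : ℂ) - lam ≠ 0 := sub_ne_zero.mpr hne.symm
    field_simp
    linear_combination h1
  have h1 := hsum a (hmem 0)
  have hper' : Function.minimalPeriod (fr (nu x) (de x)) a = p := hper
  rw [hper'] at h1
  have h2 : kapR x V a p lam = 1 := by
    rw [← h1]
    unfold kapR
    refine Finset.sum_congr rfl fun i _ => ?_
    have h3 : u ((fr (nu x) (de x))^[i] a) = ddR x a i * u a + llR x V a i := hui i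
    rw [h3, hux, hV]
    show _ = (hd (de x) H ((fx x)^[i] a) + d2 (nu x) (de x) ((fx x)^[i] a) * _) /
      d1 (nu x) (de x) ((fx x)^[i] a)
    ring
  rw [h2]
  exact one_ne_zero

/-- transversality for multiplier one -/
theorem transBR {d : ℕ} (hd2 : 2 ≤ d) (x : CV d) (hx : ND x) (hG : Ginf d (nu x) (de x))
    (a : ℂ) (ha : Fin' x a) (p : ℕ) (hp : 0 < p)
    (hper : Function.minimalPeriod (fx x) a = p) (hl : deriv ((fx x)^[p]) a = 1) :
    ∃ V : CV d, llR x V a p ≠ 0 := by
  classical
  have hfa : (fx x)^[p] a = a := by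
    rw [← hper]; exact Function.iterate_minimalPeriod
  have hmem : ∀ i : ℕ, (fx x)^[i] a ∈ (ind_finite x hd2 hx p).toFinset := by
    intro i
    have h0 : a ∈ (ind_finite x hd2 hx p).toFinset := by
      rw [Set.Finite.mem_toFinset]
      exact ⟨p, hp, le_rfl, ha, hfa, by rw [hl]; exact norm_one⟩
    induction i with
    | zero => exact h0
    | succ i ih =>
      rw [Function.iterate_succ_apply']
      exact ((ind_cyc x hd2 hx p).1 _ ih).2.2
  obtain ⟨H, u, hdeg, hu, -⟩ := surl d (nu x) (de x) _ (Pool.Agent.W40.RQCURVE.RM_of hd2 hx)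
    (ind_cyc x hd2 hx p) hG (ind_unit x hd2 hx p)
    (fun z => if z = (fx x)^[p - 1] a then 1 else 0) (fun _ => 1) (fun _ _ => rfl)
  obtain ⟨V, hV⟩ := exists_hh hd2 x hx H hdeg
  refine ⟨V, ?_⟩
  have hui : ∀ i : ℕ, i ≤ p - 1 → u ((fx x)^[i] a) = ddR x a i * u a + llR x V a i := by
    intro i
    induction i with
    | zero => intro _; simp [ddR, llR]
    | succ i ih =>
      intro hi
      have h1 := hu _ (hmem i)
      have h2 : (fx x)^[i + 1] a = fr (nu x) (de x) ((fx x)^[i] a) := by
        rw [Function.iterate_succ_apply']; rfl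
      have h3 : ddR x a (i + 1) = ddR x a i * d1 (nu x) (de x) ((fx x)^[i] a) := by
        unfold ddR; rw [Finset.prod_range_succ]
      have h4 : (fx x)^[i] a ≠ (fx x)^[p - 1] a := by
        intro h0
        have := Function.iterate_injOn_Iio_minimalPeriod (f := fx x) (x := a)
          (by rw [mem_Iio, hper]; omega : i ∈ Iio _)
          (by rw [mem_Iio, hper]; omega : p - 1 ∈ Iio _) h0
        omega
      rw [if_neg h4] at h1
      rw [h2, h3, llR, hV]
      rw [ih (by omega)] at h1
      linear_combination h1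
  have h1 := hu _ (hmem (p - 1))
  rw [if_pos rfl, hui (p - 1) le_rfl] at h1
  have h2 : fr (nu x) (de x) ((fx x)^[p - 1] a) = a := by
    have : (fx x)^[p - 1 + 1] a = fr (nu x) (de x) ((fx x)^[p - 1] a) := by
      rw [Function.iterate_succ_apply']; rfl
    rw [← this, Nat.sub_add_cancel hp, hfa]
  have h3 : ddR x a p = ddR x a (p - 1) * d1 (nu x) (de x) ((fx x)^[p - 1] a) := by
    obtain ⟨m, rfl⟩ : ∃ m, p = m + 1 := ⟨p - 1, by omega⟩
    unfold ddR; rw [Finset.prod_range_succ]
    simp
  have h4 : llR x V a p = d1 (nu x) (de x) ((fx x)^[p - 1] a) * llR x V a (p - 1) +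
      hv (de x) H ((fx x)^[p - 1] a) := by
    obtain ⟨m, rfl⟩ : ∃ m, p = m + 1 := ⟨p - 1, by omega⟩
    rw [← hV]
    rfl
  have h5 : ddR x a p = 1 := by
    rw [← (derR x a p fun j _ => ha j).deriv, hl]
  rw [h2] at h1
  rw [h3] at h5
  intro h0
  rw [h4] at h0
  have : (1 : ℂ) = 0 := by linear_combination -h1 - h0 - u a * h5
  exact one_ne_zero this

end Run7.h904.RF
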