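import Mathlib
import Pool.Agent.Run7.h904.R2Push
import Pool.Agent.Run7.h904.R2Inv
import Pool.Agent.Run7.h904.RTr

set_option autoImplicit false

open Topology Filter Metric Set Polynomial MeasureTheory
open scoped ENNReal

namespace Run7.h904.RF

open Pool.Agent.W757.QR Pool.Agent.H790R3.RB
open Pool.Agent.W757.Q2 (Ginf)

/-- derivative of the iterates along an infinitesimal perturbation -/
noncomputable def lH (P Q H : ℂ[X]) (a : ℂ) : ℕ → ℂ
  | 0 => 0
  | n + 1 => d1 P Q ((fr P Q)^[n] a) * lH P Q H a n + hv Q H ((fr P Q)^[n] a)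

/-- product of the derivatives -/
noncomputable def dH (P Q : ℂ[X]) (a : ℂ) (n : ℕ) : ℂ :=
  ∏ i ∈ Finset.range n, d1 P Q ((fr P Q)^[i] a)

lemma lH_eq {d : ℕ} (x V : CV d) (a : ℂ) (n : ℕ) : llR x V a n = lH (nu x) (de x) (hh x V) a n := by
  induction n with
  | zero => rfl
  | succ n ih =>
    simp only [llR, lH]
    rw [ih]
    rfl

/-- explicit formula from the critical value on -/
lemma lH_formula (P Q H : ℂ[X]) (c : ℂ) (hc : d1 P Q c = 0) (n : ℕ)
    (hne : ∀ i ≤ n, dH P Q (fr P Q c) i ≠ 0) :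
    lH P Q H c (n + 1) = dH P Q (fr P Q c) n * (hv Q H c +
      ∑ i ∈ Finset.range n, hv Q H ((fr P Q)^[i] (fr P Q c)) / dH P Q (fr P Q c) (i + 1)) := by
  induction n with
  | zero => simp [lH, dH, hc]
  | succ n ih =>
    have e : lH P Q H c (n + 1 + 1) = d1 P Q ((fr P Q)^[n + 1] c) * lH P Q H c (n + 1) +
        hv Q H ((fr P Q)^[n + 1] c) := rfl
    rw [e, ih fun i hi => hne i (by omega), Finset.sum_range_succ, Function.iterate_succ_apply]
    have h1 : dH P Q (fr P Q c) (n + 1) =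
        dH P Q (fr P Q c) n * d1 P Q ((fr P Q)^[n] (fr P Q c)) := by
      unfold dH; rw [Finset.prod_range_succ]
    have h2 := hne (n + 1) le_rfl
    generalize (∑ i ∈ Finset.range n, hv Q H ((fr P Q)^[i] (fr P Q c)) /
      dH P Q (fr P Q c) (i + 1)) = s
    rw [h1] at h2 ⊢
    have h3 := left_ne_zero_of_mul h2
    have h4 := right_ne_zero_of_mul h2
    field_simp
    ring

/-- telescoping -/
lemma telesc (D g : ℕ → ℂ) (hD : ∀ i, D i ≠ 0) (hD0 : D 0 = 1) (n : ℕ) :
    ∑ i ∈ Finset.range n, D n / D (i + 1) * g (i + 1) =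
      (∑ i ∈ Finset.range n, D n / D i * g i) + g n - D n * g 0 := by
  have h1 := Finset.sum_range_succ' (fun i => D n / D i * g i) n
  have h2 := Finset.sum_range_succ (fun i => D n / D i * g i) n
  rw [h2, div_self (hD n), hD0] at h1
  linear_combination -h1

/-- sums over the orbit -/
lemma qd_img (a : ℕ → ℂ) (w : ℕ → ℂ) (n : ℕ) (Z : Finset ℂ) (hZ : ∀ i < n, a i ∈ Z) (ζ : ℂ) :
    ∑ z ∈ Z, (∑ i ∈ Finset.range n, if a i = z then w i else 0) / (ζ - z) =
      ∑ i ∈ Finset.range n, w i / (ζ - a i) := by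
  classical
  simp only [Finset.sum_div]
  rw [Finset.sum_comm]
  refine Finset.sum_congr rfl fun i hi => ?_
  rw [Finset.sum_eq_single (a i)]
  · rw [if_pos rfl]
  · intro z _ hz
    rw [if_neg hz.symm, zero_div]
  · intro h
    exact absurd (hZ i (Finset.mem_range.1 hi)) h

open Classical in
/-- the coefficients of the differential -/
noncomputable def bb (P Q : ℂ[X]) (v : ℂ) (m N : ℕ) (z : ℂ) : ℂ :=
  (∑ i ∈ Finset.range N, if (fr P Q)^[i] v = z then dH P Q v N / dH P Q v i else 0) -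
    ∑ i ∈ Finset.range m, if (fr P Q)^[i] v = z then dH P Q v m / dH P Q v i else 0

open Classical in
/-- the orbit of the critical value -/
noncomputable def ZZ (P Q : ℂ[X]) (v : ℂ) (N : ℕ) : Finset ℂ :=
  (Finset.range N).image fun i => (fr P Q)^[i] v

lemma qd_bb (P Q : ℂ[X]) (v : ℂ) (m N : ℕ) (hmN : m < N) (ζ : ℂ) :
    qd (ZZ P Q v N) (fun _ => 0) (bb P Q v m N) ζ =
      (∑ i ∈ Finset.range N, dH P Q v N / dH P Q v i / (ζ - (fr P Q)^[i] v)) -
        ∑ i ∈ Finset.range m, dH P Q v m / dH P Q v i / (ζ - (fr P Q)^[i] v) := by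
  classical
  rw [qd_zero]
  unfold bb
  simp only [sub_div]
  rw [Finset.sum_sub_distrib]
  have hZ : ∀ i < N, (fr P Q)^[i] v ∈ ZZ P Q v N := by
    intro i hi
    unfold ZZ
    exact Finset.mem_image.2 ⟨i, Finset.mem_range.2 hi, rfl⟩
  congr 1
  · have h1 := qd_img (fun i => (fr P Q)^[i] v) (fun i => dH P Q v N / dH P Q v i) N _ hZ ζ
    convert h1 using 4
  · have h1 := qd_img (fun i => (fr P Q)^[i] v) (fun i => dH P Q v m / dH P Q v i) m _
      (fun i hi => hZ i (by omega)) ζ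
    convert h1 using 4

/-- a critical relation which is not transversal gives an invariant quadratic differential -/
theorem inv_of_rel {d : ℕ} {P Q : ℂ[X]} (hT : RM d P Q) (c : ℂ) (hc : (wn P Q).eval c = 0)
    (hQc : Q.eval c ≠ 0) (m N : ℕ) (hmN : m < N)
    (hper : (fr P Q)^[N] (fr P Q c) = (fr P Q)^[m] (fr P Q c))
    (hne : ∀ i : ℕ, Q.eval ((fr P Q)^[i] (fr P Q c)) ≠ 0 ∧
      (wn P Q).eval ((fr P Q)^[i] (fr P Q c)) ≠ 0)
    (hrel : ∀ H : ℂ[X], H.natDegree ≤ 2 * d → (Q = 1 → H.natDegree ≤ d - 2) →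
      lH P Q H c (N + 1) = lH P Q H c (m + 1)) :
    ∀ y : ℂ, y ∉ ZZ P Q (fr P Q c) N → Gv d P Q y →
      ∑ ζ ∈ pre P Q y, qd (ZZ P Q (fr P Q c) N) (fun _ => 0) (bb P Q (fr P Q c) m N) ζ /
        d1 P Q ζ ^ 2 = qd (ZZ P Q (fr P Q c) N) (fun _ => 0) (bb P Q (fr P Q c) m N) y := by
  classical
  intro y hy hGv
  obtain ⟨v, hv'⟩ : ∃ v, v = fr P Q c := ⟨_, rfl⟩
  rw [← hv'] at hper hne hy ⊢
  obtain ⟨a, ha⟩ : ∃ a : ℕ → ℂ, a = fun i => (fr P Q)^[i] v := ⟨_, rfl⟩
  have ha' : ∀ i, (fr P Q)^[i] v = a i := fun i => by rw [ha]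
  obtain ⟨D, hD⟩ : ∃ D : ℕ → ℂ, D = fun i => dH P Q v i := ⟨_, rfl⟩
  have hD' : ∀ i, dH P Q v i = D i := fun i => by rw [hD]
  have ha0 : a 0 = v := by rw [ha]; rfl
  have has : ∀ i, a (i + 1) = fr P Q (a i) := fun i => by
    rw [ha]; exact Function.iterate_succ_apply' _ _ _
  have hd1 : ∀ i, d1 P Q (a i) ≠ 0 := fun i => by
    have := hne i
    rw [ha'] at this
    exact div_ne_zero this.2 (pow_ne_zero _ this.1)
  have hDs : ∀ i, D (i + 1) = D i * d1 P Q (a i) := fun i => by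
    rw [hD]
    simp only
    unfold dH
    rw [Finset.prod_range_succ, ha']
  have hD0 : D 0 = 1 := by rw [hD]; simp [dH]
  have hDne : ∀ i, D i ≠ 0 := by
    intro i
    induction i with
    | zero => rw [hD0]; exact one_ne_zero
    | succ i ih => rw [hDs]; exact mul_ne_zero ih (hd1 i)
  have haN : a N = a m := by rw [ha]; exact hper
  have hmem : ∀ i < N, a i ∈ ZZ P Q v N := by
    intro i hi
    unfold ZZ
    exact Finset.mem_image.2 ⟨i, Finset.mem_range.2 hi, ha' i⟩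
  have hmem' : ∀ i ≤ N, a i ∈ ZZ P Q v N := by
    intro i hi
    rcases Nat.lt_or_ge i N with h | h
    · exact hmem i h
    · have : i = N := by omega
      rw [this, haN]
      exact hmem m hmN
  have hya : ∀ i ≤ N, y - a i ≠ 0 := by
    intro i hi h0
    apply hy
    rw [sub_eq_zero.1 h0]
    exact hmem' i hi
  obtain ⟨H, hH1, hH2, hH3, hH4⟩ := push hT hGv
  have hF : ∀ z : ℂ, Q.eval z ≠ 0 → fr P Q z ≠ y → P.eval z - y * Q.eval z ≠ 0 := by
    intro z hz hne h0
    apply hne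
    unfold fr
    rw [div_eq_iff hz]
    linear_combination h0
  have hcr := hH3 c hc hQc (hF c hQc (by
    rw [← hv', ← ha0]
    intro h0
    exact hya 0 (by omega) (by rw [h0, sub_self])))
  have hpush : ∀ i < N, ∑ ζ ∈ pre P Q y, 1 / (ζ - a i) / d1 P Q ζ ^ 2 =
      (1 / (y - a (i + 1)) + hv Q H (a i)) / d1 P Q (a i) := by
    intro i hi
    have h1 := hne i
    rw [ha'] at h1
    rw [has]
    exact hH4 (a i) h1.1 h1.2 (hF (a i) h1.1 (by
      rw [← has]
      intro h0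
      exact hya (i + 1) (by omega) (by rw [h0, sub_self])))
  -- the relation
  have hd1c : d1 P Q c = 0 := by unfold d1; rw [hc, zero_div]
  have hr := hrel H hH1 hH2
  rw [lH_formula P Q H c hd1c N (fun i _ => by rw [← hv', hD']; exact hDne i),
    lH_formula P Q H c hd1c m (fun i _ => by rw [← hv', hD']; exact hDne i)] at hr
  simp only [← hv', ha', hD'] at hr
  simp only [qd_bb P Q v m N hmN, ha', hD']
  -- the left side
  have hL : ∀ n ≤ N, ∑ ζ ∈ pre P Q y, (∑ i ∈ Finset.range n, D n / D i / (ζ - a i)) /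
      d1 P Q ζ ^ 2 = (∑ i ∈ Finset.range n, D n / D (i + 1) * (1 / (y - a (i + 1)))) +
        D n * ∑ i ∈ Finset.range n, hv Q H (a i) / D (i + 1) := by
    intro n hn
    simp only [Finset.sum_div]
    rw [Finset.sum_comm, Finset.mul_sum, ← Finset.sum_add_distrib]
    refine Finset.sum_congr rfl fun i hi => ?_
    have hi' := Finset.mem_range.1 hi
    have h1 : ∀ ζ ∈ pre P Q y, D n / D i / (ζ - a i) / d1 P Q ζ ^ 2 =
        D n / D i * (1 / (ζ - a i) / d1 P Q ζ ^ 2) := by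
      intro ζ _
      ring
    rw [Finset.sum_congr rfl h1, ← Finset.mul_sum, hpush i (by omega), hDs]
    have h2 := hDne i
    have h3 := hd1 i
    field_simp
  have hsub : ∀ ζ : ℂ, ((∑ i ∈ Finset.range N, D N / D i / (ζ - a i)) -
      ∑ i ∈ Finset.range m, D m / D i / (ζ - a i)) / d1 P Q ζ ^ 2 =
      (∑ i ∈ Finset.range N, D N / D i / (ζ - a i)) / d1 P Q ζ ^ 2 -
      (∑ i ∈ Finset.range m, D m / D i / (ζ - a i)) / d1 P Q ζ ^ 2 := fun ζ => sub_div _ _ _
  simp only [hsub]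
  rw [Finset.sum_sub_distrib, hL N le_rfl, hL m hmN.le]
  have t1 := telesc D (fun i => 1 / (y - a i)) hDne hD0 N
  have t2 := telesc D (fun i => 1 / (y - a i)) hDne hD0 m
  rw [t1, t2, haN]
  have e1 : ∀ n : ℕ, ∑ i ∈ Finset.range n, D n / D i * (1 / (y - a i)) =
      ∑ i ∈ Finset.range n, D n / D i / (y - a i) := fun n =>
    Finset.sum_congr rfl fun i _ => by ring
  rw [e1, e1]
  have hcr' : hv Q H c = - (1 / (y - a 0)) := by
    rw [hcr, ← hv', ha0, ← div_neg, neg_sub]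
  rw [hcr'] at hr
  linear_combination hr

/-- transversality of critical relations -/
theorem critT {d : ℕ} (hd2 : 2 ≤ d) (x : CV d) (hx : ND x) (hG : Ginf d (nu x) (de x))
    (c : ℂ) (hc : (wn (nu x) (de x)).eval c = 0) (m N : ℕ) (hmN : m < N)
    (hper : (fx x)^[N] (fx x c) = (fx x)^[m] (fx x c))
    (hne : ∀ i : ℕ, (de x).eval ((fx x)^[i] (fx x c)) ≠ 0 ∧
      (wn (nu x) (de x)).eval ((fx x)^[i] (fx x c)) ≠ 0)
    (hinj : ∀ i < N, 0 < i → (fx x)^[i] (fx x c) ≠ fx x c)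
    (hD : ddR x (fx x c) N ≠ ddR x (fx x c) m)
    (hrec : ∀ᵐ z : ℂ, ¬ ∀ s ∈ 𝓝 z, ∃ᶠ n in atTop, (fx x)^[n] z ∈ s) :
    ∃ V : CV d, llR x V c (N + 1) ≠ llR x V c (m + 1) := by
  classical
  by_contra hcon
  push Not at hcon
  have hT := Pool.Agent.W40.RQCURVE.RM_of hd2 hx
  have hQc : (de x).eval c ≠ 0 := fun h => hG.2.2 c h hc
  have hinv := inv_of_rel hT c hc hQc m N hmN hper hne (by
    intro H hH _
    obtain ⟨V, hV⟩ := exists_hh hd2 x hx H hH
    have := hcon V
    rw [lH_eq, lH_eq, hV] at this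
    exact this)
  have hb := no_inv hT (fun z hz => by
    unfold ZZ at hz
    obtain ⟨i, _, rfl⟩ := Finset.mem_image.1 hz
    exact (hne i).1) hG hinv hrec (fx x c) (by
      unfold ZZ
      exact Finset.mem_image.2 ⟨0, Finset.mem_range.2 (by omega), rfl⟩)
  change bb (nu x) (de x) (fr (nu x) (de x) c) m N (fr (nu x) (de x) c) = 0 at hb
  have h1 : ∀ (n : ℕ) (w : ℂ), 0 < n → n ≤ N → (∑ i ∈ Finset.range n,
      if (fr (nu x) (de x))^[i] (fr (nu x) (de x) c) = fr (nu x) (de x) c then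
        w / dH (nu x) (de x) (fr (nu x) (de x) c) i else 0) = w := by
    intro n w hn hnN
    rw [Finset.sum_eq_single 0]
    · rw [Function.iterate_zero_apply, if_pos rfl]
      simp [dH]
    · intro i hi hi0
      rw [if_neg]
      exact hinj i (by have := Finset.mem_range.1 hi; omega) (by omega)
    · intro h
      exact absurd (Finset.mem_range.2 hn) h
  unfold bb at hb
  rw [h1 N _ (by omega) le_rfl] at hb
  rcases Nat.eq_zero_or_pos m with hm | hm
  · rw [hm, Finset.range_zero, Finset.sum_empty, sub_zero] at hb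
    have : dH (nu x) (de x) (fx x c) N ≠ 0 := by
      unfold dH
      rw [Finset.prod_ne_zero_iff]
      intro i _
      exact div_ne_zero (hne i).2 (pow_ne_zero _ (hne i).1)
    exact this hb
  · rw [h1 m _ hm hmN.le] at hb
    exact hD (sub_eq_zero.1 hb)

end Run7.h904.RF
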