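import Mathlib
import Pool.Agent.Lev.J_koenigs

set_option autoImplicit false

open Topology Filter Metric Set

namespace Run7.h904.RF

/-- local inverse of a holomorphic function -/
lemma loc_inv (f : ℂ → ℂ) (a : ℂ) (hf : AnalyticAt ℂ f a) (hd : deriv f a ≠ 0) :
    ∃ g : ℂ → ℂ, AnalyticAt ℂ g (f a) ∧ g (f a) = a ∧ HasDerivAt g (deriv f a)⁻¹ (f a) ∧
      (∀ᶠ z in 𝓝 a, g (f z) = z) ∧ ∀ᶠ w in 𝓝 (f a), f (g w) = w := by
  have hc : ContDiffAt ℂ (⊤ : WithTop ℕ∞) f a := hf.contDiffAt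
  have hF : HasFDerivAt f ((ContinuousLinearEquiv.unitsEquivAut ℂ
      (Units.mk0 (deriv f a) hd) : ℂ ≃L[ℂ] ℂ) : ℂ →L[ℂ] ℂ) a := by
    have e : ((ContinuousLinearEquiv.unitsEquivAut ℂ
      (Units.mk0 (deriv f a) hd) : ℂ ≃L[ℂ] ℂ) : ℂ →L[ℂ] ℂ) =
      ContinuousLinearMap.toSpanSingleton ℂ (deriv f a) := by
      ext
      simp
    rw [e]
    exact hf.differentiableAt.hasDerivAt.hasFDerivAt
  have hn : (⊤ : WithTop ℕ∞) ≠ 0 := by simp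
  have hs := hc.hasStrictFDerivAt' hF hn
  have h1 : ContDiffAt ℂ (⊤ : WithTop ℕ∞) (hc.localInverse hF hn) (f a) := hc.to_localInverse hF hn
  have h2 : hc.localInverse hF hn (f a) = a := hc.localInverse_apply_image hF hn
  have h3 : ∀ᶠ z in 𝓝 a, hc.localInverse hF hn (f z) = z := hs.eventually_left_inverse
  have h4 : ∀ᶠ w in 𝓝 (f a), f (hc.localInverse hF hn w) = w := hs.eventually_right_inverse
  refine ⟨hc.localInverse hF hn, ?_, h2, ?_, h3, h4⟩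
  · exact h1.analyticAt
  · refine HasDerivAt.of_local_left_inverse ?_ ?_ hd h4
    · exact h1.continuousAt
    · rw [h2]
      exact hf.differentiableAt.hasDerivAt

/-- linearization at a repelling fixed point -/
theorem koen (G : ℂ → ℂ) (b lam : ℂ) (hG : AnalyticAt ℂ G b) (hb : G b = b) (hl : deriv G b = lam)
    (h1 : 1 < ‖lam‖) :
    ∃ φ ψ : ℂ → ℂ, ∃ ρ : ℝ, 0 < ρ ∧ AnalyticAt ℂ φ b ∧ φ b = 0 ∧ deriv φ b = 1 ∧
      (∀ᶠ z in 𝓝 b, φ (G z) = lam * φ z) ∧ DifferentiableOn ℂ ψ (ball 0 ρ) ∧ ψ 0 = b ∧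
      InjOn ψ (ball 0 ρ) ∧ (∀ w ∈ ball (0 : ℂ) ρ, φ (ψ w) = w) ∧
      (∀ᶠ z in 𝓝 b, ψ (φ z) = z) := by
  have hl0 : lam ≠ 0 := by
    rintro rfl
    rw [norm_zero] at h1
    linarith
  obtain ⟨g, hg1, hg2, hg3, hg4, hg5⟩ := loc_inv G b hG (by rw [hl]; exact hl0)
  rw [hb] at hg1 hg2 hg3 hg5
  rw [hl] at hg3
  have hli : ‖lam⁻¹‖ < 1 := by
    rw [norm_inv]; exact inv_lt_one_of_one_lt₀ h1
  -- a ball which is mapped into itself
  obtain ⟨q, hq1, hq2⟩ := exists_between hli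
  have h2 : ∀ᶠ z in 𝓝 b, ‖g z - b‖ ≤ q * ‖z - b‖ := by
    have h3 := hg3.isLittleO.def (sub_pos.2 hq1)
    filter_upwards [h3] with z hz
    rw [hg2, smul_eq_mul] at hz
    have h4 : ‖g z - b‖ ≤ ‖g z - b - (z - b) * lam⁻¹‖ + ‖(z - b) * lam⁻¹‖ := by
      have := norm_add_le (g z - b - (z - b) * lam⁻¹) ((z - b) * lam⁻¹)
      rwa [sub_add_cancel] at this
    rw [norm_mul] at h4
    nlinarith
  have h3 : ∀ᶠ z in 𝓝 b, AnalyticAt ℂ g z := hg1.eventually_analyticAt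
  obtain ⟨r, hr, hball⟩ := Metric.eventually_nhds_iff_ball.1 (h2.and h3)
  have hgd : DifferentiableOn ℂ g (ball b r) := fun z hz =>
    (hball z hz).2.differentiableAt.differentiableWithinAt
  have hmap : MapsTo g (ball b r) (ball b r) := by
    intro z hz
    have h4 := (hball z hz).1
    rw [mem_ball, dist_eq_norm] at hz ⊢
    have : q * ‖z - b‖ ≤ ‖z - b‖ := by nlinarith [norm_nonneg (z - b)]
    linarith
  obtain ⟨ρ, hρ, ψ, hψ1, hψ2, hψ3, hψ4, hψ5, hψ6⟩ := Pool.Agent.Lev.J_koenigs.main g b r b hr hgd hmap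
    (mem_ball_self hr) hg2 (by rw [hg3.deriv]; exact inv_ne_zero hl0)
    (by rw [hg3.deriv]; exact hli)
  rw [hg3.deriv] at hψ6
  have hψa : AnalyticAt ℂ ψ 0 := hψ1.analyticAt (ball_mem_nhds 0 hρ)
  obtain ⟨φ, hφ1, hφ2, hφ3, hφ4, hφ5⟩ := loc_inv ψ 0 hψa (by rw [hψ3]; exact one_ne_zero)
  rw [hψ2] at hφ1 hφ2 hφ3 hφ5
  rw [hψ3, inv_one] at hφ3
  -- the functional equation of `ψ`
  have hψc : Tendsto ψ (𝓝 0) (𝓝 b) := by
    have := hψa.continuousAt.tendsto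
    rwa [hψ2] at this
  have hE1 : ∀ᶠ w in 𝓝 (0 : ℂ), G (ψ w) = ψ (lam * w) := by
    -- with `w = lam⁻¹ * ζ`
    have h4 : Tendsto (fun w : ℂ => lam * w) (𝓝 0) (𝓝 0) := by
      have : Continuous (fun w : ℂ => lam * w) := by fun_prop
      have h5 := this.tendsto 0
      rwa [mul_zero] at h5
    have h6 : ∀ᶠ ζ in 𝓝 (0 : ℂ), G (g (ψ ζ)) = ψ ζ := hψc.eventually hg5
    have h7 : ∀ᶠ ζ in 𝓝 (0 : ℂ), ζ ∈ ball (0 : ℂ) ρ := ball_mem_nhds 0 hρ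
    filter_upwards [h4.eventually h6, h4.eventually h7] with w h8 h9
    rw [hψ6 _ h9] at h8
    rw [← mul_assoc, inv_mul_cancel₀ hl0, one_mul] at h8
    exact h8
  have hφc : Tendsto φ (𝓝 b) (𝓝 0) := by
    have := hφ1.continuousAt.tendsto
    rwa [hφ2] at this
  have hE2 : ∀ᶠ z in 𝓝 b, φ (G z) = lam * φ z := by
    have h4 : Tendsto (fun z => lam * φ z) (𝓝 b) (𝓝 0) := by
      have := hφc.const_mul lam
      rwa [mul_zero] at this
    filter_upwards [hφc.eventually hE1, hφ5, h4.eventually hφ4] with z h5 h6 h7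
    rw [h6] at h5
    rw [h5, h7]
  obtain ⟨ρ', hρ', hb'⟩ := Metric.eventually_nhds_iff_ball.1
    ((show ∀ᶠ w in 𝓝 (0 : ℂ), w ∈ ball (0 : ℂ) ρ from ball_mem_nhds 0 hρ).and hφ4)
  refine ⟨φ, ψ, ρ', hρ', hφ1, hφ2, hφ3.deriv, hE2, ?_, hψ2, ?_, fun w hw => (hb' w hw).2, hφ5⟩
  · exact hψ1.mono fun w hw => (hb' w hw).1
  · exact hψ4.mono fun w hw => (hb' w hw).1

end Run7.h904.RF
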