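import Mathlib
import Pool.Agent.Run7.h904.R3Koe
import Pool.Agent.Run7.h904.RTr

set_option autoImplicit false

open Topology Filter Metric Set Polynomial MeasureTheory Asymptotics
open scoped OnePoint

namespace Run7.h904.RF

open Pool.Agent.W757.QR Pool.Agent.H790R3.RB Pool.Agent.W29.RQSNK Pool.Agent.W29.RQAPP

/-- uniform first order expansion of the iterates -/
lemma unif2 {d : ℕ} (x : CV d) (P : ℕ) (b : ℂ)
    (hb : ∀ j < P, (de x).eval ((fx x)^[j] b) ≠ 0) :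
    ∃ ρ : ℝ, 0 < ρ ∧ ∀ V : CV d, ∃ C t₀ : ℝ, 0 < C ∧ 0 < t₀ ∧ ∀ t : ℝ, 0 ≤ t → t ≤ t₀ →
      ∀ z ∈ ball b ρ,
      ‖(fx (Xt x V t))^[P] z - (fx x)^[P] z - t * llR x V b P‖ ≤ C * t * (t + ‖z - b‖) := by
  obtain ⟨Φ, hΦ⟩ : ∃ Φ : CV d × ℂ → ℂ, Φ = fun q => (fx q.1)^[P] q.2 := ⟨_, rfl⟩
  have hcd : ContDiffAt ℂ 2 Φ (x, b) := by rw [hΦ]; exact iter_cd 2 P (x, b) hb
  have h1 : ContDiffAt ℂ 1 (fderiv ℂ Φ) (x, b) := hcd.fderiv_right (m := 1) (by norm_num)
  obtain ⟨K, s, hs, hK⟩ := h1.exists_lipschitzOnWith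
  have h2 : ∀ᶠ q in 𝓝 (x, b), DifferentiableAt ℂ Φ q := by
    have h3 : ∀ᶠ q in 𝓝 (x, b), ContDiffAt ℂ 2 Φ q := hcd.eventually (by simp)
    filter_upwards [h3] with q hq
    exact hq.differentiableAt (by norm_num)
  obtain ⟨r, hr, hball⟩ := Metric.eventually_nhds_iff_ball.1 (h2.and hs)
  refine ⟨r / 2, by positivity, fun V => ?_⟩
  -- the derivative in the direction of the perturbation
  have hdir : fderiv ℂ Φ (x, b) (V, 0) = llR x V b P := by
    have h3 : HasFDerivAt Φ (fderiv ℂ Φ (x, b)) (x, b) := (hball _ (mem_ball_self hr)).1.hasFDerivAt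
    have h4 : HasDerivAt (fun t : ℂ => ((x + t • V, b) : CV d × ℂ)) (V, 0) 0 := by
      have h5 : HasDerivAt (fun t : ℂ => x + t • V) V 0 := by
        have := ((hasDerivAt_id (0 : ℂ)).smul_const V).const_add x
        simpa using this
      exact h5.prodMk (hasDerivAt_const 0 b)
    have h5 : HasDerivAt (fun t : ℂ => Φ (x + t • V, b)) (fderiv ℂ Φ (x, b) (V, 0)) 0 := by
      have h6 : HasFDerivAt Φ (fderiv ℂ Φ (x, b)) ((fun t : ℂ => ((x + t • V, b) : CV d × ℂ)) 0) := by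
        simpa using h3
      exact h6.comp_hasDerivAt 0 h4
    have h6 := h5.tendsto_slope
    have h7 : Tendsto (fun t : ℝ => (t : ℂ)) (𝓝[>] 0) (𝓝[≠] 0) := by
      rw [tendsto_nhdsWithin_iff]
      refine ⟨Run7.h904.PF.tendsto_ofReal0, ?_⟩
      filter_upwards [Run7.h904.PF.ne0_nhdsGT] with t ht
      have : (t : ℂ) ≠ 0 := by exact_mod_cast ht
      exact this
    have h8 := h6.comp h7
    have h9 := iter_slopeR x V (fun _ => b) b tendsto_const_nhds P hb
    refine tendsto_nhds_unique (h8.congr fun t => ?_) h9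
    simp only [Function.comp, slope_def_field, hΦ, sub_zero]
    have e : x + (t : ℂ) • V = Xt x V t := by
      unfold Xt
      congr 1
    rw [e, zero_smul, add_zero]
  obtain ⟨M, hM⟩ : ∃ M : ℝ, M = ‖V‖ + 1 := ⟨_, rfl⟩
  have hM0 : 0 < M := by rw [hM]; positivity
  refine ⟨(K : ℝ) * M * M + 1, r / (2 * M), by positivity, by positivity, ?_⟩
  intro t ht0 ht z hz
  rw [mem_ball, dist_eq_norm] at hz
  obtain ⟨R, hR⟩ : ∃ R : ℝ, R = max (t * ‖V‖) ‖z - b‖ := ⟨_, rfl⟩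
  have htM : t * M ≤ r / 2 := by
    rw [le_div_iff₀ (by positivity)] at ht
    linarith
  have htV : t * ‖V‖ ≤ t * M := mul_le_mul_of_nonneg_left (by rw [hM]; linarith) ht0
  have hRr : R < r := by
    rw [hR]
    exact max_lt (by linarith) (by linarith)
  have hR0 : 0 ≤ R := by rw [hR]; exact (norm_nonneg _).trans (le_max_right _ _)
  have hsub : closedBall (x, b) R ⊆ ball (x, b) r := closedBall_subset_ball hRr
  have hq0 : (x, z) ∈ closedBall (x, b) R := by
    rw [mem_closedBall, dist_eq_norm, Prod.norm_def]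
    simp only [Prod.fst_sub, Prod.snd_sub, sub_self, norm_zero]
    rw [max_eq_right (norm_nonneg _), hR]
    exact le_max_right _ _
  have hq1 : (Xt x V t, z) ∈ closedBall (x, b) R := by
    rw [mem_closedBall, dist_eq_norm, Prod.norm_def]
    simp only [Prod.fst_sub, Prod.snd_sub]
    rw [Xt_sub x V t ht0, hR]
  have hmv := Convex.norm_image_sub_le_of_norm_fderiv_le' (𝕜 := ℂ) (f := Φ) (s := closedBall (x, b) R)
    (C := K * R) (φ := fderiv ℂ Φ (x, b)) (fun q hq => (hball q (hsub hq)).1) (fun q hq => by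
      have h3 := hK.dist_le_mul q (hball q (hsub hq)).2 (x, b) (hball _ (mem_ball_self hr)).2
      rw [dist_eq_norm] at h3
      refine h3.trans (mul_le_mul_of_nonneg_left (mem_closedBall.1 hq) K.2)) (convex_closedBall _ _)
    hq0 hq1
  have e1 : ((Xt x V t, z) : CV d × ℂ) - (x, z) = (t : ℂ) • ((V, 0) : CV d × ℂ) := by
    refine Prod.ext ?_ ?_
    · show Xt x V t - x = (t : ℂ) • V
      unfold Xt
      rw [add_sub_cancel_left]
      rfl
    · simp
  rw [e1, map_smul, hdir, smul_eq_mul, norm_smul, Complex.norm_of_nonneg ht0, Prod.norm_def] at hmv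
  simp only [norm_zero] at hmv
  rw [max_eq_left (norm_nonneg V), hΦ] at hmv
  simp only at hmv
  refine hmv.trans ?_
  have h3 : R ≤ t * M + ‖z - b‖ := by
    rw [hR]
    exact max_le (by linarith [norm_nonneg (z - b)]) (by nlinarith [norm_nonneg V])
  have hM1 : 1 ≤ M := by rw [hM]; linarith [norm_nonneg V]
  have h4 : R ≤ M * (t + ‖z - b‖) := by
    nlinarith [norm_nonneg (z - b)]
  have hK0 : (0 : ℝ) ≤ K := K.2
  have h5 : K * R ≤ K * (M * (t + ‖z - b‖)) := mul_le_mul_of_nonneg_left h4 hK0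
  calc K * R * (t * ‖V‖) ≤ K * (M * (t + ‖z - b‖)) * (t * M) :=
        mul_le_mul h5 htV (by positivity) (by positivity)
    _ ≤ (K * M * M + 1) * t * (t + ‖z - b‖) := by
        have : 0 ≤ t * (t + ‖z - b‖) := by positivity
        nlinarith

section slopes

variable {ι : Type} {l : Filter ι} {τ : ι → ℝ}

/-- difference quotients -/
lemma slopeG (f : ℂ → ℂ) (f' z c : ℂ) (hf : HasDerivAt f f' z) (hτ : Tendsto τ l (𝓝[>] 0))
    (a : ι → ℂ) (ha : Tendsto a l (𝓝 z))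
    (h : Tendsto (fun i => (a i - z) / (τ i : ℂ)) l (𝓝 c)) :
    Tendsto (fun i => (f (a i) - f z) / (τ i : ℂ)) l (𝓝 (f' * c)) := by
  have h1 : (fun i => f (a i) - f z - (a i - z) • f') =o[l]
      (fun i => a i - z) := (hf.isLittleO).comp_tendsto ha
  have hl : ∀ᶠ i in l, (τ i : ℂ) ≠ 0 := by
    filter_upwards [hτ.eventually Run7.h904.PF.ne0_nhdsGT] with i hi
    exact_mod_cast hi
  have h2 : (fun i => a i - z) =O[l] (fun i => (τ i : ℂ)) := by
    refine isBigO_of_div_tendsto_nhds ?_ c h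
    filter_upwards [hl] with i hi h0
    exact absurd h0 hi
  have h3 := (h1.trans_isBigO h2).tendsto_div_nhds_zero
  have h4 := h3.add (h.mul_const f')
  rw [zero_add, mul_comm c] at h4
  refine h4.congr fun i => ?_
  rw [smul_eq_mul]
  ring

lemma itG {d : ℕ} (x V : CV d) (hτ : Tendsto τ l (𝓝[>] 0)) (y : ι → ℂ) (a : ℂ)
    (hy : Tendsto y l (𝓝 a)) (n : ℕ) (h : ∀ j < n, (de x).eval ((fx x)^[j] a) ≠ 0) :
    Tendsto (fun i => (fx (Xt x V (τ i)))^[n] (y i)) l (𝓝 ((fx x)^[n] a)) := by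
  have h0 : ContinuousAt (fun q : CV d × ℂ => (fx q.1)^[n] q.2) (x, a) :=
    (iter_cd 1 n (x, a) h).continuousAt
  have h2 : Tendsto (fun i => ((Xt x V (τ i), y i) : CV d × ℂ)) l (𝓝 (x, a)) :=
    ((Xt_tendsto x V).comp hτ).prodMk_nhds hy
  have h1 : Tendsto (fun q : CV d × ℂ => (fx q.1)^[n] q.2) (𝓝 (x, a)) (𝓝 ((fx x)^[n] a)) :=
    h0
  have h3 := h1.comp h2
  simp only [Function.comp_def] at h3
  exact h3

lemma deXG {d : ℕ} (x V : CV d) (hτ : Tendsto τ l (𝓝[>] 0)) (w : ι → ℂ) (z : ℂ)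
    (hw : Tendsto w l (𝓝 z)) :
    Tendsto (fun i => (de (Xt x V (τ i))).eval (w i)) l (𝓝 ((de x).eval z)) := by
  have h0 : Tendsto (fun i => (τ i : ℂ)) l (𝓝 0) := Run7.h904.PF.tendsto_ofReal0.comp hτ
  have h1 : Tendsto (fun i => (de x).eval (w i) + (τ i : ℂ) * (de V).eval (w i)) l
      (𝓝 ((de x).eval z + 0 * (de V).eval z)) :=
    (((de x).continuous.tendsto z).comp hw).add
      (h0.mul (((de V).continuous.tendsto z).comp hw))
  rw [zero_mul, add_zero] at h1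
  refine h1.congr fun t => ?_
  rw [de_Xt]; simp

/-- the perturbation in one step -/
lemma pertG {d : ℕ} (x V : CV d) (z : ℂ) (hz : (de x).eval z ≠ 0) (hτ : Tendsto τ l (𝓝[>] 0))
    (u : ι → ℂ) (hu : Tendsto u l (𝓝 z)) :
    Tendsto (fun i => (fx (Xt x V (τ i)) (u i) - fx x (u i)) / (τ i : ℂ)) l
      (𝓝 (hv (de x) (hh x V) z)) := by
  have hq := ((de x).continuous.tendsto z).comp hu
  have hqt := deXG x V hτ u z hu
  have h2 : Tendsto (fun i => (hh x V).eval (u i) /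
      ((de x).eval (u i) * (de (Xt x V (τ i))).eval (u i))) l
      (𝓝 ((hh x V).eval z / ((de x).eval z * (de x).eval z))) :=
    (((hh x V).continuous.tendsto z).comp hu).div (hq.mul hqt) (mul_ne_zero hz hz)
  have e : (hh x V).eval z / ((de x).eval z * (de x).eval z) = hv (de x) (hh x V) z := by
    unfold hv; rw [pow_two]
  rw [e] at h2
  refine h2.congr' ?_
  filter_upwards [hτ.eventually Run7.h904.PF.ne0_nhdsGT, hq.eventually_ne hz, hqt.eventually_ne hz]
    with i ht h4 h5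
  have htC : (τ i : ℂ) ≠ 0 := by exact_mod_cast ht
  simp only [Function.comp] at h4
  have e1 : fx (Xt x V (τ i)) (u i) = fx x (u i) + τ i * ((hh x V).eval (u i) /
      ((de x).eval (u i) * (de (Xt x V (τ i))).eval (u i))) := by
    unfold fx fr
    rw [nu_Xt]
    rw [de_Xt] at h5 ⊢
    unfold hh
    simp only [eval_add, eval_mul, eval_C, eval_sub] at h5 ⊢
    field_simp
    ring
  rw [e1]
  field_simp
  ring

lemma stepG {d : ℕ} (x V : CV d) (z c : ℂ) (hz : (de x).eval z ≠ 0) (hτ : Tendsto τ l (𝓝[>] 0))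
    (u : ι → ℂ) (hu : Tendsto u l (𝓝 z))
    (h : Tendsto (fun i => (u i - z) / (τ i : ℂ)) l (𝓝 c)) :
    Tendsto (fun i => (fx (Xt x V (τ i)) (u i) - fx x z) / (τ i : ℂ)) l
      (𝓝 (d1 (nu x) (de x) z * c + hv (de x) (hh x V) z)) := by
  have h1 := slopeG (fx x) _ z c (strictR x z hz).hasDerivAt hτ u hu h
  have h2 := pertG x V z hz hτ u hu
  refine (h1.add h2).congr fun i => ?_
  ring

lemma cycG {d : ℕ} (x V : CV d) (hτ : Tendsto τ l (𝓝[>] 0)) (y : ι → ℂ) (a w : ℂ)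
    (hy : Tendsto y l (𝓝 a))
    (hw : Tendsto (fun i => (y i - a) / (τ i : ℂ)) l (𝓝 w)) (n : ℕ)
    (h : ∀ j < n, (de x).eval ((fx x)^[j] a) ≠ 0) :
    Tendsto (fun i => ((fx (Xt x V (τ i)))^[n] (y i) - (fx x)^[n] a) / (τ i : ℂ)) l
      (𝓝 (ddR x a n * w + llR x V a n)) := by
  induction n with
  | zero => simpa [llR, ddR] using hw
  | succ n ih =>
    simp only [Function.iterate_succ_apply', llR]
    have hn : ∀ j < n, (de x).eval ((fx x)^[j] a) ≠ 0 := fun j hj => h j (by omega)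
    have h3 := stepG x V ((fx x)^[n] a) _ (h n (by omega)) hτ _ (itG x V hτ y a hy n hn) (ih hn)
    have e : ddR x a (n + 1) * w + (d1 (nu x) (de x) ((fx x)^[n] a) * llR x V a n +
        hv (de x) (hh x V) ((fx x)^[n] a)) = d1 (nu x) (de x) ((fx x)^[n] a) *
        (ddR x a n * w + llR x V a n) + hv (de x) (hh x V) ((fx x)^[n] a) := by
      unfold ddR
      rw [Finset.prod_range_succ]; ring
    rw [e]
    exact h3

/-- the critical values of the perturbed map -/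
lemma critG {d : ℕ} (hd : 2 ≤ d) (x V : CV d) (hx : ND x) (c : ℂ) (_hc : (wn (nu x) (de x)).eval c = 0)
    (hQ : (de x).eval c ≠ 0) (hτ : Tendsto τ l (𝓝[>] 0)) (y : ι → ℂ)
    (hy : Tendsto y l (𝓝 c))
    (hcr : ∀ᶠ i in l, (wn (nu (Xt x V (τ i))) (de (Xt x V (τ i)))).eval (y i) = 0) :
    Tendsto (fun i => (fx (Xt x V (τ i)) (y i) - fx x c) / (τ i : ℂ)) l
      (𝓝 (hv (de x) (hh x V) c)) := by
  classical
  have hW0 : wn (nu x) (de x) ≠ 0 := Pool.Agent.W85.RQINJ.wn_ne_zero (Pool.Agent.W40.RQCURVE.RM_of hd hx)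
  obtain ⟨m, hm⟩ : ∃ m, m = (wn (nu x) (de x)).rootMultiplicity c := ⟨_, rfl⟩
  obtain ⟨R, hR, hRc⟩ := exists_eq_pow_rootMultiplicity_mul_and_not_dvd (wn (nu x) (de x)) hW0 c
  rw [← hm] at hR
  have hRc' : R.eval c ≠ 0 := by
    intro h0
    exact hRc (dvd_iff_isRoot.2 h0)
  have hWe : ∀ z, (wn (nu x) (de x)).eval z = (z - c) ^ m * R.eval z := by
    intro z
    conv_lhs => rw [hR]
    simp
  -- bounds near `c`
  have hRn : 0 < ‖R.eval c‖ := norm_pos_iff.2 hRc'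
  have hQn : 0 < ‖(de x).eval c‖ := norm_pos_iff.2 hQ
  have e1 : ∀ᶠ z in 𝓝 c, ‖R.eval c‖ / 2 < ‖R.eval z‖ ∧ ‖R.eval z‖ < 2 * ‖R.eval c‖ ∧
      ‖(de x).eval c‖ / 2 < ‖(de x).eval z‖ := by
    have h1 := (R.continuous.norm.tendsto c)
    have h2 := ((de x).continuous.norm.tendsto c)
    filter_upwards [h1.eventually (lt_mem_nhds (by linarith : ‖R.eval c‖ / 2 < ‖R.eval c‖)),
      h1.eventually (gt_mem_nhds (by linarith : ‖R.eval c‖ < 2 * ‖R.eval c‖)),
      h2.eventually (lt_mem_nhds (by linarith : ‖(de x).eval c‖ / 2 < ‖(de x).eval c‖))]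
      with z h3 h4 h5
    exact ⟨h3, h4, h5⟩
  obtain ⟨ρ, hρ, hb⟩ := Metric.eventually_nhds_iff_ball.1 e1
  obtain ⟨A, hA⟩ : ∃ A : ℝ, A = 2 * ‖R.eval c‖ / (‖(de x).eval c‖ / 2) ^ 2 := ⟨_, rfl⟩
  have hA0 : 0 < A := by rw [hA]; positivity
  -- `|f z - f c| ≤ A |z - c| ^ (m + 1)`
  have hf : ∀ z ∈ ball c ρ, ‖fx x z - fx x c‖ ≤ A * ‖z - c‖ ^ m * ‖z - c‖ := by
    intro z hz
    rw [mem_ball, dist_eq_norm] at hz
    have hsub : closedBall c ‖z - c‖ ⊆ ball c ρ := closedBall_subset_ball hz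
    refine (convex_closedBall c ‖z - c‖).norm_image_sub_le_of_norm_deriv_le (𝕜 := ℂ)
      (f := fx x) ?_ ?_ (mem_closedBall_self (norm_nonneg _)) (by
        rw [mem_closedBall, dist_eq_norm])
    · intro w hw
      refine fx_diff x w ?_
      have h1 := (hb w (hsub hw)).2.2
      intro h0
      rw [h0, norm_zero] at h1
      linarith
    · intro w hw
      have h1 := hb w (hsub hw)
      have hQw : (de x).eval w ≠ 0 := by
        intro h0
        rw [h0, norm_zero] at h1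
        linarith [h1.2.2]
      rw [Pool.Agent.W409.RQAPX.deriv_fx x w hQw, hWe, norm_div, norm_mul, norm_pow, norm_pow,
        div_le_iff₀ (by positivity)]
      have h2 : ‖w - c‖ ^ m ≤ ‖z - c‖ ^ m := by
        rw [mem_closedBall, dist_eq_norm] at hw
        exact pow_le_pow_left₀ (norm_nonneg _) hw m
      have h3 : (‖(de x).eval c‖ / 2) ^ 2 ≤ ‖(de x).eval w‖ ^ 2 :=
        pow_le_pow_left₀ (by positivity) h1.2.2.le 2
      have h4 : A * (‖(de x).eval c‖ / 2) ^ 2 = 2 * ‖R.eval c‖ := by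
        rw [hA]; field_simp
      calc ‖w - c‖ ^ m * ‖R.eval w‖ ≤ ‖z - c‖ ^ m * (2 * ‖R.eval c‖) :=
            mul_le_mul h2 h1.2.1.le (norm_nonneg _) (by positivity)
        _ = ‖z - c‖ ^ m * (A * (‖(de x).eval c‖ / 2) ^ 2) := by rw [h4]
        _ ≤ ‖z - c‖ ^ m * (A * ‖(de x).eval w‖ ^ 2) := by
            refine mul_le_mul_of_nonneg_left ?_ (by positivity)
            exact mul_le_mul_of_nonneg_left h3 hA0.le
        _ = A * ‖z - c‖ ^ m * ‖(de x).eval w‖ ^ 2 := by ring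
  -- the critical points are close
  obtain ⟨W1, hW1⟩ : ∃ W1 : ℂ[X], W1 = derivative (nu V) * de x + derivative (nu x) * de V -
      nu V * derivative (de x) - nu x * derivative (de V) := ⟨_, rfl⟩
  have hwn : ∀ t : ℝ, wn (nu (Xt x V t)) (de (Xt x V t)) =
      wn (nu x) (de x) + C (t : ℂ) * W1 + C ((t : ℂ) ^ 2) * wn (nu V) (de V) := by
    intro t
    rw [nu_Xt, de_Xt, hW1]
    unfold wn
    simp only [derivative_add, derivative_mul, derivative_C, zero_mul, zero_add, C_pow]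
    ring
  have hτ0 : Tendsto τ l (𝓝 0) := hτ.mono_right nhdsWithin_le_nhds
  have hτC : Tendsto (fun i => (τ i : ℂ)) l (𝓝 0) := Run7.h904.PF.tendsto_ofReal0.comp hτ
  have hτp : ∀ᶠ i in l, 0 < τ i := hτ.eventually self_mem_nhdsWithin
  have hbd : Tendsto (fun i => W1.eval (y i) + (τ i : ℂ) * (wn (nu V) (de V)).eval (y i)) l
      (𝓝 (W1.eval c + 0 * (wn (nu V) (de V)).eval c)) :=
    ((W1.continuous.tendsto c).comp hy).add
      (hτC.mul (((wn (nu V) (de V)).continuous.tendsto c).comp hy))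
  rw [zero_mul, add_zero] at hbd
  have hbd' := hbd.norm.eventually (gt_mem_nhds (by linarith : ‖W1.eval c‖ < ‖W1.eval c‖ + 1))
  have hcl : ∀ᶠ i in l, ‖y i - c‖ ^ m * (‖R.eval c‖ / 2) ≤ (‖W1.eval c‖ + 1) * τ i := by
    filter_upwards [hcr, hbd', hy.eventually (ball_mem_nhds c hρ), hτp] with i h1 h2 h3 h4
    rw [hwn] at h1
    simp only [eval_add, eval_mul, eval_C] at h1
    have h5 : (wn (nu x) (de x)).eval (y i) =
        -((τ i : ℂ) * (W1.eval (y i) + (τ i : ℂ) * (wn (nu V) (de V)).eval (y i))) := by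
      linear_combination h1
    have h6 := congrArg norm h5
    rw [hWe, norm_mul, norm_pow, norm_neg, norm_mul, Complex.norm_of_nonneg h4.le] at h6
    have h7 := (hb _ h3).1
    calc ‖y i - c‖ ^ m * (‖R.eval c‖ / 2) ≤ ‖y i - c‖ ^ m * ‖R.eval (y i)‖ :=
          mul_le_mul_of_nonneg_left h7.le (by positivity)
      _ = τ i * ‖W1.eval (y i) + (τ i : ℂ) * (wn (nu V) (de V)).eval (y i)‖ := h6
      _ ≤ τ i * (‖W1.eval c‖ + 1) := mul_le_mul_of_nonneg_left h2.le h4.le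
      _ = (‖W1.eval c‖ + 1) * τ i := by ring
  -- the unperturbed part is small
  have hsm : Tendsto (fun i => (fx x (y i) - fx x c) / (τ i : ℂ)) l (𝓝 0) := by
    have h1 : Tendsto (fun i => A * (2 * (‖W1.eval c‖ + 1) / ‖R.eval c‖) * ‖y i - c‖) l (𝓝 0) := by
      have h2 := (hy.sub_const c).norm.const_mul (A * (2 * (‖W1.eval c‖ + 1) / ‖R.eval c‖))
      rwa [sub_self, norm_zero, mul_zero] at h2
    refine squeeze_zero_norm' ?_ h1
    filter_upwards [hcl, hy.eventually (ball_mem_nhds c hρ), hτp] with i h2 h3 h4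
    rw [norm_div, Complex.norm_of_nonneg h4.le, div_le_iff₀ h4]
    refine (hf _ h3).trans ?_
    have h5 : ‖y i - c‖ ^ m ≤ 2 * (‖W1.eval c‖ + 1) / ‖R.eval c‖ * τ i := by
      rw [div_mul_eq_mul_div, le_div_iff₀ hRn]
      linarith
    calc A * ‖y i - c‖ ^ m * ‖y i - c‖
        ≤ A * (2 * (‖W1.eval c‖ + 1) / ‖R.eval c‖ * τ i) * ‖y i - c‖ := by
          refine mul_le_mul_of_nonneg_right ?_ (norm_nonneg _)
          exact mul_le_mul_of_nonneg_left h5 hA0.le
      _ = A * (2 * (‖W1.eval c‖ + 1) / ‖R.eval c‖) * ‖y i - c‖ * τ i := by ring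
  have h1 := (pertG x V c hQ hτ y hy).add hsm
  rw [add_zero] at h1
  refine h1.congr fun i => ?_
  ring

/-- orbits of the critical points of the perturbed map -/
lemma critG' {d : ℕ} (hd : 2 ≤ d) (x V : CV d) (hx : ND x) (c : ℂ)
    (hc : (wn (nu x) (de x)).eval c = 0)
    (hfin : Fin' x c) (hτ : Tendsto τ l (𝓝[>] 0)) (y : ι → ℂ)
    (hy : Tendsto y l (𝓝 c))
    (hcr : ∀ᶠ i in l, (wn (nu (Xt x V (τ i))) (de (Xt x V (τ i)))).eval (y i) = 0) (n : ℕ) :
    Tendsto (fun i => ((fx (Xt x V (τ i)))^[n + 1] (y i) - (fx x)^[n + 1] c) / (τ i : ℂ)) l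
      (𝓝 (llR x V c (n + 1))) := by
  induction n with
  | zero =>
    have h1 := critG hd x V hx c hc (hfin 0) hτ y hy hcr
    have e : llR x V c (0 + 1) = hv (de x) (hh x V) c := by simp [llR]
    rw [e]
    exact h1
  | succ n ih =>
    have h3 := stepG x V ((fx x)^[n + 1] c) _ (hfin (n + 1)) hτ _
      (itG x V hτ y c hy (n + 1) (fun j _ => hfin j)) ih
    simp only [Function.iterate_succ_apply' _ (n + 1)]
    exact h3

end slopes

end Run7.h904.RF
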