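import Mathlib
import Pool.Agent.Run7.h904.R3Lin

set_option autoImplicit false

open Topology Filter Metric Set Polynomial MeasureTheory Asymptotics
open scoped OnePoint

namespace Run7.h904.RF

open Pool.Agent.W757.QR Pool.Agent.H790R3.RB Pool.Agent.W29.RQSNK Pool.Agent.W29.RQAPP

/-- `n t → 0` if `q ^ n t` is bounded -/
lemma nt_zero {ι : Type} {l : Filter ι} {τ : ι → ℝ} (hτ : Tendsto τ l (𝓝[>] 0)) (n : ι → ℕ)
    (q w : ℝ) (hq : 1 < q) (h : Tendsto (fun i => q ^ (n i) * τ i) l (𝓝 w)) :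
    Tendsto (fun i => (n i : ℝ) * τ i) l (𝓝 0) := by
  obtain ⟨δ, hδ⟩ : ∃ δ : ℝ, δ = Real.sqrt q - 1 := ⟨_, rfl⟩
  have hsq : 1 < Real.sqrt q := by
    rw [Real.lt_sqrt zero_le_one]
    simpa using hq
  have hδ0 : 0 < δ := by rw [hδ]; linarith
  have hτ0 : Tendsto τ l (𝓝 0) := hτ.mono_right nhdsWithin_le_nhds
  have hτp : ∀ᶠ i in l, 0 < τ i := hτ.eventually self_mem_nhdsWithin
  have h1 : Tendsto (fun i => Real.sqrt ((w + 1) / δ ^ 2 * τ i)) l (𝓝 0) := by
    have h2 := hτ0.const_mul ((w + 1) / δ ^ 2)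
    rw [mul_zero] at h2
    have h3 := (Real.continuous_sqrt.tendsto 0).comp h2
    rw [Real.sqrt_zero] at h3
    exact h3
  refine squeeze_zero' ?_ ?_ h1
  · filter_upwards [hτp] with i hi
    positivity
  · filter_upwards [hτp, h.eventually (gt_mem_nhds (by linarith : w < w + 1))] with i h2 h3
    refine Real.le_sqrt_of_sq_le ?_
    have h4 : (n i : ℝ) * δ ≤ (Real.sqrt q) ^ (n i) := by
      have h5 := one_add_mul_le_pow (a := δ) (by linarith) (n i)
      have h6 : 1 + δ = Real.sqrt q := by rw [hδ]; ring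
      rw [h6] at h5
      linarith
    have h5 : ((n i : ℝ) * δ) ^ 2 ≤ q ^ (n i) := by
      calc ((n i : ℝ) * δ) ^ 2 ≤ ((Real.sqrt q) ^ (n i)) ^ 2 :=
            pow_le_pow_left₀ (by positivity) h4 2
        _ = q ^ (n i) := by
            rw [← pow_mul, mul_comm, pow_mul, Real.sq_sqrt (by linarith)]
    rw [div_mul_eq_mul_div, le_div_iff₀ (by positivity)]
    calc ((n i : ℝ) * τ i) ^ 2 * δ ^ 2 = ((n i : ℝ) * δ) ^ 2 * τ i * τ i := by ring
      _ ≤ q ^ (n i) * τ i * τ i := by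
          refine mul_le_mul_of_nonneg_right ?_ h2.le
          exact mul_le_mul_of_nonneg_right h5 h2.le
      _ ≤ (w + 1) * τ i := mul_le_mul_of_nonneg_right h3.le h2.le

/-- an abstract estimate for perturbations of a repelling fixed point in the linearizing
coordinate -/
lemma rep_iter (F : ℂ → ℂ) (φ : ℂ → ℂ) (b lam β : ℂ) (r₁ r₂ E B t : ℝ) (hlam : 1 < ‖lam‖)
    (hE : 0 ≤ E) (ht : 0 < t) (hB : ‖β / (1 - lam)‖ ≤ B)
    (hst : ∀ z ∈ ball b r₁, F z ∈ ball b r₂ ∧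
      ‖φ (F z) - lam * φ z - t * β‖ ≤ E * t * (t + ‖φ z - t * (β / (1 - lam))‖))
    (hφ : ∀ z ∈ ball b r₂, ‖z - b‖ ≤ 2 * ‖φ z‖) (y : ℂ) (hy : y ∈ ball b r₁) (n : ℕ)
    (hn : E * t * n ≤ 1 / 2)
    (hsm : 4 * (‖lam‖ ^ n * (‖φ y - t * (β / (1 - lam))‖ + t)) + 2 * (t * B) < r₁) :
    (∀ k ≤ n, F^[k] y ∈ ball b r₁) ∧ ‖(φ (F^[n] y) - t * (β / (1 - lam))) -
      lam ^ n * (φ y - t * (β / (1 - lam)))‖ ≤
        2 * E * (n * t) * (‖lam‖ ^ n * (‖φ y - t * (β / (1 - lam))‖ + t)) := by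
  obtain ⟨s, hs⟩ : ∃ s : ℂ → ℂ, s = fun z => φ z - t * (β / (1 - lam)) := ⟨_, rfl⟩
  have hs' : ∀ z, φ z - t * (β / (1 - lam)) = s z := fun z => by rw [hs]
  simp only [hs'] at hst hsm ⊢
  obtain ⟨q, hq⟩ : ∃ q, q = ‖lam‖ := ⟨_, rfl⟩
  rw [← hq] at hlam hsm ⊢
  obtain ⟨S₀, hS⟩ : ∃ S₀, S₀ = ‖s y‖ + t := ⟨_, rfl⟩
  rw [← hS] at hsm ⊢
  have hS0 : 0 < S₀ := by rw [hS]; positivity
  have hlam1 : (1 : ℂ) - lam ≠ 0 := by
    intro h0
    have : lam = 1 := by linear_combination -h0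
    rw [this, norm_one] at hq
    linarith
  have hEt : 0 ≤ E * t := by positivity
  have hQ : 1 ≤ q + E * t := by linarith
  -- growth factors
  have hpow : ∀ k ≤ n, (q + E * t) ^ k ≤ 2 * q ^ n := by
    intro k hk
    have h1 : (q + E * t) ^ k ≤ (q + E * t) ^ n := pow_le_pow_right₀ hQ hk
    have h2 : (q + E * t) ^ n ≤ (q * (1 + E * t)) ^ n := by
      refine pow_le_pow_left₀ (by linarith) ?_ n
      nlinarith
    have h3 : (1 + E * t) ^ n ≤ 2 := by
      have h4 : 1 + E * t ≤ Real.exp (E * t) := by linarith [Real.add_one_le_exp (E * t)]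
      have h5 : (1 + E * t) ^ n ≤ Real.exp (E * t * n) := by
        rw [mul_comm (E * t) (n : ℝ), Real.exp_nat_mul]
        exact pow_le_pow_left₀ (by linarith) h4 n
      have h6 : Real.exp (E * t * n) ≤ Real.exp (1 / 2) := Real.exp_le_exp.2 hn
      have h7 : Real.exp (1 / 2) ≤ 2 := by
        have h8 := Real.exp_one_lt_d9
        have h9 : Real.exp (1 / 2) ^ 2 = Real.exp 1 := by
          rw [← Real.exp_nat_mul]
          norm_num
        have h10 : 0 < Real.exp (1 / 2) := Real.exp_pos _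
        nlinarith
      linarith
    rw [mul_pow] at h2
    have h4 : 0 < q ^ n := by positivity
    nlinarith
  have hstep : ∀ z ∈ ball b r₁, ‖s (F z) - lam * s z‖ ≤ E * t * (t + ‖s z‖) := by
    intro z hz
    have h1 := (hst z hz).2
    have e : s (F z) - lam * s z = φ (F z) - lam * φ z - t * β := by
      rw [hs]
      field_simp
      ring
    rw [e]
    exact h1
  have key : ∀ k ≤ n, F^[k] y ∈ ball b r₁ ∧ ‖s (F^[k] y)‖ + t ≤ (q + E * t) ^ k * S₀ ∧
      ‖s (F^[k] y) - lam ^ k * s y‖ ≤ k * (q + E * t) ^ k * (E * t) * S₀ := by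
    intro k
    induction k with
    | zero =>
      intro _
      refine ⟨hy, ?_, ?_⟩
      · simp [hS]
      · simp
    | succ k ih =>
      intro hk
      obtain ⟨i1, i2, i3⟩ := ih (by omega)
      rw [Function.iterate_succ_apply']
      have h1 := hstep _ i1
      have h2 : ‖s (F (F^[k] y))‖ ≤ q * ‖s (F^[k] y)‖ + E * t * (t + ‖s (F^[k] y)‖) := by
        have h3 := norm_add_le (s (F (F^[k] y)) - lam * s (F^[k] y)) (lam * s (F^[k] y))
        rw [sub_add_cancel, norm_mul, ← hq] at h3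
        linarith
      have h3 : ‖s (F (F^[k] y))‖ + t ≤ (q + E * t) ^ (k + 1) * S₀ := by
        have h4 : ‖s (F (F^[k] y))‖ + t ≤ (q + E * t) * (‖s (F^[k] y)‖ + t) := by
          nlinarith
        rw [pow_succ', mul_assoc]
        exact h4.trans (mul_le_mul_of_nonneg_left i2 (by linarith))
      have h5 : (q + E * t) ^ (k + 1) * S₀ ≤ 2 * q ^ n * S₀ :=
        mul_le_mul_of_nonneg_right (hpow _ hk) hS0.le
      refine ⟨?_, h3, ?_⟩
      · rw [mem_ball, dist_eq_norm]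
        refine lt_of_le_of_lt (hφ _ (hst _ i1).1) ?_
        have h6 : ‖φ (F (F^[k] y))‖ ≤ ‖s (F (F^[k] y))‖ + t * B := by
          have h7 : φ (F (F^[k] y)) = s (F (F^[k] y)) + t * (β / (1 - lam)) := by rw [hs]; ring
          rw [h7]
          refine (norm_add_le _ _).trans ?_
          rw [norm_mul, Complex.norm_of_nonneg ht.le]
          have := mul_le_mul_of_nonneg_left hB ht.le
          linarith
        nlinarith
      · have h6 : s (F (F^[k] y)) - lam ^ (k + 1) * s y =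
            (s (F (F^[k] y)) - lam * s (F^[k] y)) + lam * (s (F^[k] y) - lam ^ k * s y) := by
          rw [pow_succ']; ring
        rw [h6]
        refine (norm_add_le _ _).trans ?_
        rw [norm_mul, ← hq]
        have h7 : q * ‖s (F^[k] y) - lam ^ k * s y‖ ≤ q * (k * (q + E * t) ^ k * (E * t) * S₀) :=
          mul_le_mul_of_nonneg_left i3 (by linarith)
        have h8 : E * t * (t + ‖s (F^[k] y)‖) ≤ E * t * ((q + E * t) ^ k * S₀) := by
          refine mul_le_mul_of_nonneg_left ?_ hEt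
          linarith
        have h9 : 0 ≤ (q + E * t) ^ k * (E * t) * S₀ := by positivity
        have h10 : (1 + q * k) ≤ (k + 1) * (q + E * t) := by
          have : (0 : ℝ) ≤ k := Nat.cast_nonneg k
          nlinarith
        calc ‖s (F (F^[k] y)) - lam * s (F^[k] y)‖ + q * ‖s (F^[k] y) - lam ^ k * s y‖
            ≤ (1 + q * k) * ((q + E * t) ^ k * (E * t) * S₀) := by linarith
          _ ≤ (k + 1) * (q + E * t) * ((q + E * t) ^ k * (E * t) * S₀) :=
              mul_le_mul_of_nonneg_right h10 h9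
          _ = ((k + 1 : ℕ) : ℝ) * (q + E * t) ^ (k + 1) * (E * t) * S₀ := by
              push_cast; ring
  obtain ⟨i1, i2, i3⟩ := key n le_rfl
  refine ⟨fun k hk => (key k hk).1, i3.trans ?_⟩
  have h1 := hpow n le_rfl
  have h2 : (n : ℝ) * (q + E * t) ^ n ≤ n * (2 * q ^ n) :=
    mul_le_mul_of_nonneg_left h1 (Nat.cast_nonneg n)
  calc (n : ℝ) * (q + E * t) ^ n * (E * t) * S₀ ≤ n * (2 * q ^ n) * (E * t) * S₀ := by
        refine mul_le_mul_of_nonneg_right ?_ hS0.le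
        exact mul_le_mul_of_nonneg_right h2 hEt
    _ = 2 * E * (n * t) * (q ^ n * S₀) := by ring

/-- Perturbed orbits near a repelling cycle. -/
theorem linpert {d : ℕ} (x : CV d) (p : ℕ) (b lam : ℂ) (hb : Fin' x b)
    (hfix : (fx x)^[p] b = b) (hl : deriv ((fx x)^[p]) b = lam) (h1 : 1 < ‖lam‖) :
    ∃ (ψ : ℂ → ℂ) (ρ : ℝ), 0 < ρ ∧ DifferentiableOn ℂ ψ (ball 0 ρ) ∧ InjOn ψ (ball 0 ρ) ∧
      ∀ (V : CV d) {ι : Type} (l : Filter ι) (τ : ι → ℝ), Tendsto τ l (𝓝[>] 0) →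
        ∀ (y : ι → ℂ) (a : ℂ), Tendsto (fun i => (y i - b) / (τ i : ℂ)) l (𝓝 a) →
        ∀ (n : ι → ℕ) (w : ℂ), Tendsto (fun i => lam ^ (n i) * (τ i : ℂ)) l (𝓝 w) → ‖w‖ < ρ →
        ‖w * (a - llR x V b p / (1 - lam))‖ < ρ →
        (∀ᶠ i in l, ∀ j < p * n i, (de (Xt x V (τ i))).eval
          ((fx (Xt x V (τ i)))^[j] (y i)) ≠ 0) ∧
        Tendsto (fun i => (fx (Xt x V (τ i)))^[p * n i] (y i)) l
          (𝓝 (ψ (w * (a - llR x V b p / (1 - lam))))) := by
  obtain ⟨ρn, hρn, hnb⟩ := Metric.eventually_nhds_iff_ball.1 (ne_nhds p (x, b) (fun j _ => hb j))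
  have hne : ∀ᶠ z in 𝓝 b, ∀ j < p, (de x).eval ((fx x)^[j] z) ≠ 0 := by
    have h1 := ne_nhds p (x, b) (fun j _ => hb j)
    have h2 : Tendsto (fun z : ℂ => ((x, z) : CV d × ℂ)) (𝓝 b) (𝓝 (x, b)) :=
      tendsto_const_nhds.prodMk_nhds tendsto_id
    exact h2.eventually h1
  have hGa : AnalyticAt ℂ ((fx x)^[p]) b := by
    obtain ⟨ρ, hρ, hball⟩ := Metric.eventually_nhds_iff_ball.1 hne
    have : DifferentiableOn ℂ ((fx x)^[p]) (ball b ρ) := fun z hz =>
      (fx_iter_diff x z p (hball z hz)).differentiableWithinAt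
    exact this.analyticAt (ball_mem_nhds b hρ)
  obtain ⟨φ, ψ, ρ₀, hρ₀, hφa, hφb, hφd, hφG, hψd, hψ0, hψi, hφψ, hψφ⟩ :=
    koen ((fx x)^[p]) b lam hGa hfix hl h1
  obtain ⟨ρu, hρu, hunif⟩ := unif2 x p b (fun j _ => hb j)
  -- Lipschitz bound for the derivative
  obtain ⟨K, hK0, hK⟩ : ∃ K : ℝ, 0 < K ∧ ∀ᶠ z in 𝓝 b, ‖deriv φ z - 1‖ ≤ K * ‖z - b‖ := by
    have h2 := hφa.deriv.differentiableAt.hasDerivAt.isBigO_sub
    obtain ⟨K, hK0, hK⟩ := h2.exists_pos
    rw [isBigOWith_iff, hφd] at hK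
    exact ⟨K, hK0, hK⟩
  have hlow : ∀ᶠ z in 𝓝 b, ‖z - b‖ ≤ 2 * ‖φ z‖ := by
    have h2 : HasDerivAt φ 1 b := by
      rw [← hφd]; exact hφa.differentiableAt.hasDerivAt
    have h3 := h2.isLittleO.def (by norm_num : (0 : ℝ) < 1 / 2)
    filter_upwards [h3] with z hz
    rw [hφb, sub_zero, smul_eq_mul, mul_one] at hz
    have h4 := norm_sub_le (φ z) (φ z - (z - b))
    rw [sub_sub_cancel] at h4
    linarith
  have hφana : ∀ᶠ z in 𝓝 b, AnalyticAt ℂ φ z := hφa.eventually_analyticAt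
  obtain ⟨r₂, hr₂, hb2⟩ := Metric.eventually_nhds_iff_ball.1 (((hK.and hlow).and hφana).and hψφ)
  obtain ⟨L, hL⟩ : ∃ L : ℝ, L = ‖lam‖ + 1 := ⟨_, rfl⟩
  have hL0 : 0 < L := by rw [hL]; positivity
  have hGL : ∀ᶠ z in 𝓝 b, ‖(fx x)^[p] z - b‖ ≤ L * ‖z - b‖ := by
    have h2 : HasDerivAt ((fx x)^[p]) lam b := by
      rw [← hl]; exact hGa.differentiableAt.hasDerivAt
    have h3 := h2.isLittleO.def (by norm_num : (0 : ℝ) < 1)
    filter_upwards [h3] with z hz
    rw [hfix, smul_eq_mul, one_mul] at hz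
    have h4 := norm_add_le ((fx x)^[p] z - b - (z - b) * lam) ((z - b) * lam)
    rw [sub_add_cancel, norm_mul] at h4
    rw [hL]
    linarith
  obtain ⟨r₁', hr₁', hb1⟩ := Metric.eventually_nhds_iff_ball.1 (hφG.and hGL)
  obtain ⟨r₁, hr₁⟩ : ∃ r₁ : ℝ, r₁ = min (min r₁' ρu) (min (r₂ / (2 * L)) (min r₂ ρn)) := ⟨_, rfl⟩
  have hr₁0 : 0 < r₁ := by
    rw [hr₁]; exact lt_min (lt_min hr₁' hρu) (lt_min (by positivity) (lt_min hr₂ hρn))
  have hr₁1 : r₁ ≤ r₁' := by rw [hr₁]; exact (min_le_left _ _).trans (min_le_left _ _)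
  have hr₁2 : r₁ ≤ ρu := by rw [hr₁]; exact (min_le_left _ _).trans (min_le_right _ _)
  have hr₁3 : L * r₁ ≤ r₂ / 2 := by
    have h2 : r₁ ≤ r₂ / (2 * L) := by rw [hr₁]; exact (min_le_right _ _).trans (min_le_left _ _)
    rw [le_div_iff₀ (by positivity)] at h2
    linarith
  have hr₁4 : r₁ ≤ r₂ := by
    rw [hr₁]; exact (min_le_right _ _).trans ((min_le_right _ _).trans (min_le_left _ _))
  have hr₁5 : r₁ ≤ ρn := by
    rw [hr₁]; exact (min_le_right _ _).trans ((min_le_right _ _).trans (min_le_right _ _))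
  refine ⟨ψ, min ρ₀ (r₁ / 16), lt_min hρ₀ (by positivity),
    hψd.mono (ball_subset_ball (min_le_left _ _)), hψi.mono (ball_subset_ball (min_le_left _ _)), ?_⟩
  intro V ι l τ hτ y a hy n w hn hw hwL
  obtain ⟨C, t₀, hC, ht₀, hest⟩ := hunif V
  obtain ⟨β, hβ⟩ : ∃ β, β = llR x V b p := ⟨_, rfl⟩
  rw [← hβ] at hest hwL ⊢
  have hlam1 : (1 : ℂ) - lam ≠ 0 := by
    intro h0
    have : lam = 1 := by linear_combination -h0
    rw [this, norm_one] at h1
    linarith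
  obtain ⟨B, hB⟩ : ∃ B : ℝ, B = ‖β‖ + C * (1 + r₁) + 1 := ⟨_, rfl⟩
  have hB0 : 0 < B := by rw [hB]; positivity
  obtain ⟨B', hB'⟩ : ∃ B' : ℝ, B' = ‖β / (1 - lam)‖ := ⟨_, rfl⟩
  have hB'0 : 0 ≤ B' := by rw [hB']; positivity
  obtain ⟨E₀, hE₀⟩ : ∃ E₀ : ℝ, E₀ = K * B * (L + B) + C := ⟨_, rfl⟩
  have hE₀0 : 0 < E₀ := by rw [hE₀]; positivity
  obtain ⟨E, hE⟩ : ∃ E : ℝ, E = E₀ * (2 + 2 * B') := ⟨_, rfl⟩
  have hE0 : 0 < E := by rw [hE]; positivity
  -- one step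
  have hstep : ∀ t : ℝ, 0 < t → t ≤ t₀ → t ≤ 1 → t * B < r₂ / 2 → ∀ z ∈ ball b r₁,
      (fx (Xt x V t))^[p] z ∈ ball b r₂ ∧
      ‖φ ((fx (Xt x V t))^[p] z) - lam * φ z - t * β‖ ≤
        E * t * (t + ‖φ z - t * (β / (1 - lam))‖) := by
    intro t ht ht1 ht2 ht3 z hz
    have hz1 : z ∈ ball b r₁' := ball_subset_ball hr₁1 hz
    have hz2 : z ∈ ball b ρu := ball_subset_ball hr₁2 hz
    have hz3 : z ∈ ball b r₂ := ball_subset_ball hr₁4 hz
    obtain ⟨g1, g2⟩ := hb1 z hz1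
    have g3 := hest t ht.le ht1 z hz2
    rw [mem_ball, dist_eq_norm] at hz
    obtain ⟨u, hu⟩ : ∃ u, u = (fx x)^[p] z := ⟨_, rfl⟩
    obtain ⟨v, hv⟩ : ∃ v, v = (fx (Xt x V t))^[p] z := ⟨_, rfl⟩
    rw [← hu] at g1 g2 g3
    rw [← hv] at g3 ⊢
    have hh : ‖v - u‖ ≤ t * B := by
      have h2 := norm_add_le (v - u - t * β) (t * β)
      rw [sub_add_cancel, norm_mul, Complex.norm_of_nonneg ht.le] at h2
      have h3 : C * t * (t + ‖z - b‖) ≤ C * t * (1 + r₁) :=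
        mul_le_mul_of_nonneg_left (by linarith) (by positivity)
      rw [hB]
      nlinarith
    have hub : ‖u - b‖ ≤ r₂ / 2 := by
      have := mul_le_mul_of_nonneg_left hz.le hL0.le
      linarith
    have hvb' : ‖v - b‖ ≤ ‖u - b‖ + t * B := by
      have h2 := norm_add_le (v - u) (u - b)
      rw [sub_add_sub_cancel] at h2
      linarith
    have hvb : v ∈ ball b r₂ := by
      rw [mem_ball, dist_eq_norm]; linarith
    refine ⟨hvb, ?_⟩
    -- mean value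
    obtain ⟨R, hR⟩ : ∃ R : ℝ, R = ‖u - b‖ + t * B := ⟨_, rfl⟩
    have hRr : R < r₂ := by rw [hR]; linarith
    have hsub : closedBall b R ⊆ ball b r₂ := closedBall_subset_ball hRr
    have hmv := (convex_closedBall b R).norm_image_sub_le_of_norm_hasDerivWithin_le (𝕜 := ℂ)
      (f := fun z => φ z - z) (f' := fun z => deriv φ z - 1) (C := K * R) (x := u) (y := v)
      (fun z' hz' => by
        have h2 := (hb2 z' (hsub hz')).1.2
        exact ((h2.differentiableAt.hasDerivAt).sub (hasDerivAt_id z')).hasDerivWithinAt)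
      (fun z' hz' => by
        have h2 := (hb2 z' (hsub hz')).1.1.1
        rw [mem_closedBall, dist_eq_norm] at hz'
        exact h2.trans (mul_le_mul_of_nonneg_left hz' hK0.le))
      (by rw [mem_closedBall, dist_eq_norm, hR]; linarith [mul_pos ht hB0])
      (by rw [mem_closedBall, dist_eq_norm, hR]; exact hvb')
    have h2 : φ v - lam * φ z - t * β = (φ v - v - (φ u - u)) + (v - u - t * β) := by
      rw [g1]; ring
    rw [h2]
    refine (norm_add_le _ _).trans ?_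
    have h3 : K * R * ‖v - u‖ ≤ K * (L * ‖z - b‖ + t * B) * (t * B) := by
      refine mul_le_mul ?_ hh (norm_nonneg _) (by positivity)
      refine mul_le_mul_of_nonneg_left ?_ hK0.le
      rw [hR]; linarith
    have h4 : ‖φ v - v - (φ u - u)‖ + ‖v - u - t * β‖ ≤ E₀ * t * (t + ‖z - b‖) := by
      have h5 : K * (L * ‖z - b‖ + t * B) * (t * B) ≤ K * B * (L + B) * t * (t + ‖z - b‖) := by
        have h6 : L * ‖z - b‖ + t * B ≤ (L + B) * (t + ‖z - b‖) := by
          nlinarith [norm_nonneg (z - b), mul_nonneg hL0.le ht.le, mul_nonneg hB0.le (norm_nonneg (z - b))]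
        calc K * (L * ‖z - b‖ + t * B) * (t * B) = K * B * t * (L * ‖z - b‖ + t * B) := by ring
          _ ≤ K * B * t * ((L + B) * (t + ‖z - b‖)) := mul_le_mul_of_nonneg_left h6 (by positivity)
          _ = _ := by ring
      rw [hE₀]
      linarith
    refine h4.trans ?_
    have h5 : ‖z - b‖ ≤ 2 * ‖φ z‖ := (hb2 z hz3).1.1.2
    have h6 : ‖φ z‖ ≤ ‖φ z - t * (β / (1 - lam))‖ + t * B' := by
      have h7 := norm_add_le (φ z - t * (β / (1 - lam))) (t * (β / (1 - lam)))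
      rw [sub_add_cancel, norm_mul (t : ℂ), Complex.norm_of_nonneg ht.le, ← hB'] at h7
      exact h7
    have h7 : t + ‖z - b‖ ≤ (2 + 2 * B') * (t + ‖φ z - t * (β / (1 - lam))‖) := by
      have h8 : 0 ≤ B' * ‖φ z - t * (β / (1 - lam))‖ := by positivity
      nlinarith [norm_nonneg (φ z - t * (β / (1 - lam)))]
    calc E₀ * t * (t + ‖z - b‖) ≤ E₀ * t * ((2 + 2 * B') * (t + ‖φ z - t * (β / (1 - lam))‖)) :=
          mul_le_mul_of_nonneg_left h7 (by positivity)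
      _ = E * t * (t + ‖φ z - t * (β / (1 - lam))‖) := by rw [hE]; ring
  -- limits
  have hτ0 : Tendsto τ l (𝓝 0) := hτ.mono_right nhdsWithin_le_nhds
  have hτC : Tendsto (fun i => (τ i : ℂ)) l (𝓝 0) := Run7.h904.PF.tendsto_ofReal0.comp hτ
  have hτp : ∀ᶠ i in l, 0 < τ i := hτ.eventually self_mem_nhdsWithin
  have hT1 : Tendsto (fun i => ‖lam‖ ^ (n i) * τ i) l (𝓝 ‖w‖) := by
    refine hn.norm.congr' ?_
    filter_upwards [hτp] with i hi
    rw [norm_mul, norm_pow, Complex.norm_of_nonneg hi.le]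
  have hyb : Tendsto y l (𝓝 b) := by
    have h2 := hy.mul hτC
    rw [mul_zero] at h2
    have h3 := h2.add_const b
    rw [zero_add] at h3
    refine h3.congr' ?_
    filter_upwards [hτp] with i hi
    have : (τ i : ℂ) ≠ 0 := by exact_mod_cast hi.ne'
    field_simp
    ring
  obtain ⟨s₀, hs₀⟩ : ∃ s₀ : ι → ℂ, s₀ = fun i => φ (y i) - τ i * (β / (1 - lam)) := ⟨_, rfl⟩
  have hT2 : Tendsto (fun i => s₀ i / (τ i : ℂ)) l (𝓝 (a - β / (1 - lam))) := by
    have h2 : HasDerivAt φ 1 b := by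
      rw [← hφd]; exact hφa.differentiableAt.hasDerivAt
    have h3 := slopeG φ 1 b a h2 hτ y hyb hy
    rw [one_mul] at h3
    refine (h3.sub_const (β / (1 - lam))).congr' ?_
    filter_upwards [hτp] with i hi
    have : (τ i : ℂ) ≠ 0 := by exact_mod_cast hi.ne'
    rw [hs₀, hφb, sub_zero]
    simp only
    rw [sub_div, mul_div_cancel_left₀ _ this]
  have hT3 : Tendsto (fun i => lam ^ (n i) * s₀ i) l (𝓝 (w * (a - β / (1 - lam)))) := by
    refine (hn.mul hT2).congr' ?_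
    filter_upwards [hτp] with i hi
    have : (τ i : ℂ) ≠ 0 := by exact_mod_cast hi.ne'
    field_simp
  have hT4 := nt_zero hτ n ‖lam‖ ‖w‖ h1 hT1
  have hT5 : Tendsto (fun i => ‖lam‖ ^ (n i) * (‖s₀ i‖ + τ i)) l
      (𝓝 (‖w * (a - β / (1 - lam))‖ + ‖w‖)) := by
    refine (hT3.norm.add hT1).congr fun i => ?_
    rw [norm_mul, norm_pow]
    ring
  have hsum : ‖w * (a - β / (1 - lam))‖ + ‖w‖ < r₁ / 8 := by
    have h2 := hw.trans_le (min_le_right _ _)
    have h3 := hwL.trans_le (min_le_right _ _)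
    linarith
  have hT6 : Tendsto (fun i => 4 * (‖lam‖ ^ (n i) * (‖s₀ i‖ + τ i)) + 2 * (τ i * B')) l
      (𝓝 (4 * (‖w * (a - β / (1 - lam))‖ + ‖w‖) + 2 * (0 * B'))) :=
    (hT5.const_mul 4).add ((hτ0.mul_const B').const_mul 2)
  have hmain : ∀ᶠ i in l, (∀ k ≤ n i, ((fx (Xt x V (τ i)))^[p])^[k] (y i) ∈ ball b r₁) ∧
      ‖(φ (((fx (Xt x V (τ i)))^[p])^[n i] (y i)) - τ i * (β / (1 - lam))) -
      lam ^ (n i) * s₀ i‖ ≤ 2 * E * (n i * τ i) * (‖lam‖ ^ (n i) * (‖s₀ i‖ + τ i)) := by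
    have k1 : ∀ᶠ i in l, τ i ≤ t₀ := hτ0.eventually (ge_mem_nhds ht₀)
    have k2 : ∀ᶠ i in l, τ i ≤ 1 := hτ0.eventually (ge_mem_nhds one_pos)
    have k3 : ∀ᶠ i in l, τ i * B < r₂ / 2 := by
      have h2 := hτ0.mul_const B
      rw [zero_mul] at h2
      exact h2.eventually (gt_mem_nhds (by positivity))
    have k4 : ∀ᶠ i in l, E * τ i * n i ≤ 1 / 2 := by
      have h2 := hT4.const_mul E
      rw [mul_zero] at h2
      filter_upwards [h2.eventually (ge_mem_nhds (by norm_num : (0 : ℝ) < 1 / 2))] with i hi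
      linarith
    have k5 := hT6.eventually (gt_mem_nhds (by linarith [hr₁0] :
      4 * (‖w * (a - β / (1 - lam))‖ + ‖w‖) + 2 * (0 * B') < r₁))
    filter_upwards [hτp, k1, k2, k3, k4, k5, hyb.eventually (ball_mem_nhds b hr₁0)]
      with i q1 q2 q3 q4 q5 q6 q7
    rw [hs₀] at q6 ⊢
    exact rep_iter ((fx (Xt x V (τ i)))^[p]) φ b lam β r₁ r₂ E B' (τ i) h1 hE0.le q1 hB'.ge
      (hstep (τ i) q1 q2 q3 q4) (fun z hz => (hb2 z hz).1.1.2) (y i) q7 (n i) q5 q6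
  have hfin : Tendsto (fun i => φ (((fx (Xt x V (τ i)))^[p])^[n i] (y i))) l
      (𝓝 (w * (a - β / (1 - lam)))) := by
    have h2 : Tendsto (fun i => 2 * E * (n i * τ i) * (‖lam‖ ^ (n i) * (‖s₀ i‖ + τ i))) l
        (𝓝 (2 * E * 0 * (‖w * (a - β / (1 - lam))‖ + ‖w‖))) := (hT4.const_mul (2 * E)).mul hT5
    rw [mul_zero, zero_mul] at h2
    have h3 : Tendsto (fun i => (φ (((fx (Xt x V (τ i)))^[p])^[n i] (y i)) -
        τ i * (β / (1 - lam))) - lam ^ (n i) * s₀ i) l (𝓝 0) :=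
      squeeze_zero_norm' (hmain.mono fun i hi => hi.2) h2
    have h4 := (h3.add hT3).add (hτC.mul_const (β / (1 - lam)))
    rw [zero_add, zero_mul, add_zero] at h4
    refine h4.congr fun i => ?_
    ring
  have hψc : ContinuousAt ψ (w * (a - β / (1 - lam))) := by
    have h2 : w * (a - β / (1 - lam)) ∈ ball (0 : ℂ) ρ₀ := by
      rw [mem_ball, dist_zero_right]
      exact hwL.trans_le (min_le_left _ _)
    exact ((hψd _ h2).differentiableAt (isOpen_ball.mem_nhds h2)).continuousAt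
  refine ⟨?_, (hψc.tendsto.comp hfin).congr' ?_⟩
  · have hX : ∀ᶠ i in l, Xt x V (τ i) ∈ ball x ρn :=
      ((Xt_tendsto x V).comp hτ).eventually (ball_mem_nhds x hρn)
    filter_upwards [hmain, hX] with i hi hXi j hj
    have hp : 0 < p := by
      rcases Nat.eq_zero_or_pos p with h0 | h0
      · rw [h0, zero_mul] at hj; omega
      · exact h0
    have e : j = j % p + p * (j / p) := (Nat.mod_add_div j p).symm
    rw [e, Function.iterate_add_apply, Function.iterate_mul]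
    have hk : j / p ≤ n i := ((Nat.div_lt_iff_lt_mul hp).2 (by rwa [mul_comm])).le
    refine hnb (Xt x V (τ i), ((fx (Xt x V (τ i)))^[p])^[j / p] (y i)) ?_ (j % p)
      (Nat.mod_lt _ hp)
    rw [← ball_prod_same]
    exact ⟨hXi, ball_subset_ball hr₁5 (hi.1 _ hk)⟩
  · filter_upwards [hmain] with i hi
    simp only [Function.comp]
    rw [(hb2 _ (ball_subset_ball hr₁4 (hi.1 _ le_rfl))).2, ← Function.iterate_mul]

end Run7.h904.RF
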