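import Mathlib
import Pool.Agent.Run7.h904.R2Tr
import Pool.Agent.Run7.h904.R3Rep

set_option autoImplicit false

open Topology Filter Metric Set Polynomial MeasureTheory Asymptotics
open scoped OnePoint

namespace Run7.h904.RF

open Pool.Agent.W757.QR Pool.Agent.H790R3.RB Pool.Agent.W29.RQSNK Pool.Agent.W29.RQAPP
open Pool.Agent.W757.Q2 (Ginf)

/-- chain rule -/
lemma ddR_add {d : ℕ} (x : CV d) (a : ℂ) (m n : ℕ) :
    ddR x a (m + n) = ddR x a m * ddR x ((fx x)^[m] a) n := by
  unfold ddR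
  rw [Finset.prod_range_add]
  congr 1
  refine Finset.prod_congr rfl fun i _ => ?_
  rw [← Function.iterate_add_apply, add_comm]

lemma llR_add {d : ℕ} (x V : CV d) (a : ℂ) (m n : ℕ) :
    llR x V a (m + n) = ddR x ((fx x)^[m] a) n * llR x V a m + llR x V ((fx x)^[m] a) n := by
  induction n with
  | zero => simp [ddR, llR]
  | succ n ih =>
    rw [← add_assoc]
    simp only [llR]
    rw [ih]
    have e : (fx x)^[m + n] a = (fx x)^[n] ((fx x)^[m] a) := by
      rw [← Function.iterate_add_apply, add_comm]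
    rw [e]
    have e2 : ddR x ((fx x)^[m] a) (n + 1) =
        ddR x ((fx x)^[m] a) n * d1 (nu x) (de x) ((fx x)^[n] ((fx x)^[m] a)) := by
      unfold ddR; rw [Finset.prod_range_succ]
    rw [e2]
    ring

/-- A critical point which is mapped onto a repelling cycle. -/
structure PreR {d : ℕ} (x : CV d) (c₀ b : ℂ) (M p : ℕ) (lam : ℂ) : Prop where
  crit : (wn (nu x) (de x)).eval c₀ = 0
  Mp : 0 < M
  pp : 0 < p
  finc : Fin' x c₀
  finb : Fin' x b
  hit : (fx x)^[M] c₀ = b
  per : (fx x)^[p] b = b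
  der : deriv ((fx x)^[p]) b = lam
  rep : 1 < ‖lam‖

/-- the functional which measures the speed of the critical orbit relative to the cycle -/
noncomputable def ffR {d : ℕ} (x V : CV d) (c₀ b : ℂ) (M p : ℕ) (lam : ℂ) : ℂ :=
  llR x V c₀ M - llR x V b p / (1 - lam)

lemma ffR_lin {d : ℕ} (x : CV d) (c : ℂ) (V W : CV d) (c₀ b : ℂ) (M p : ℕ) (lam : ℂ) :
    ffR x (c • V + W) c₀ b M p lam = c * ffR x V c₀ b M p lam + ffR x W c₀ b M p lam := by
  unfold ffR
  rw [llR_lin, llR_lin]
  ring

/-- the data of a preperiodic critical point with a non-zero functional -/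
theorem pre_data {d : ℕ} (hd2 : 2 ≤ d) (x : CV d) (hx : ND x) (hG : Ginf d (nu x) (de x))
    (c₀ : ℂ) (hc : (wn (nu x) (de x)).eval c₀ = 0) (hfin : Fin' x c₀) (M' p' : ℕ) (hp' : 0 < p')
    (hper : (fx x)^[p'] ((fx x)^[M'] c₀) = (fx x)^[M'] c₀)
    (hrep : 1 < ‖ddR x ((fx x)^[M'] c₀) p'‖)
    (hrec : ∀ᵐ z : ℂ, ¬ ∀ s ∈ 𝓝 z, ∃ᶠ n in atTop, (fx x)^[n] z ∈ s) :
    ∃ (b : ℂ) (M p : ℕ) (lam : ℂ), PreR x c₀ b M p lam ∧
      ∃ V : CV d, ffR x V c₀ b M p lam ≠ 0 := by
  classical
  have hfin' : ∀ n, Fin' x ((fx x)^[n] c₀) := by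
    intro n j
    rw [← Function.iterate_add_apply]
    exact hfin _
  have hex : ∃ M, (fx x)^[M] c₀ ∈ Function.periodicPts (fx x) :=
    ⟨M', Function.mk_mem_periodicPts hp' hper⟩
  obtain ⟨M, hM⟩ : ∃ M, M = Nat.find hex := ⟨_, rfl⟩
  have hMs : (fx x)^[M] c₀ ∈ Function.periodicPts (fx x) := by rw [hM]; exact Nat.find_spec hex
  have hMmin : ∀ k, (fx x)^[k] c₀ ∈ Function.periodicPts (fx x) → M ≤ k := by
    intro k hk
    rw [hM]
    exact Nat.find_min' hex hk
  have hMM' : M ≤ M' := hMmin M' (Function.mk_mem_periodicPts hp' hper)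
  obtain ⟨b, hb⟩ : ∃ b, b = (fx x)^[M] c₀ := ⟨_, rfl⟩
  rw [← hb] at hMs
  obtain ⟨p, hp⟩ : ∃ p, p = Function.minimalPeriod (fx x) b := ⟨_, rfl⟩
  have hpp : 0 < p := by rw [hp]; exact Function.minimalPeriod_pos_of_mem_periodicPts hMs
  have hpb : (fx x)^[p] b = b := by rw [hp]; exact Function.iterate_minimalPeriod
  have hb' : (fx x)^[M'] c₀ = (fx x)^[M' - M] b := by
    rw [hb, ← Function.iterate_add_apply]
    congr 1
    omega
  -- the product over the cycle
  have hdvd : p ∣ p' := by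
    have h1 : Function.minimalPeriod (fx x) ((fx x)^[M' - M] b) = p := by
      rw [hp]
      exact Function.minimalPeriod_apply_iterate hMs _
    rw [← h1, ← hb']
    exact Function.IsPeriodicPt.minimalPeriod_dvd hper
  have hpb' : (fx x)^[p'] b = b := by
    obtain ⟨q, rfl⟩ := hdvd
    rw [Function.iterate_mul]
    exact Function.iterate_fixed hpb q
  have hne0 : ∀ i, d1 (nu x) (de x) ((fx x)^[i] b) ≠ 0 := by
    intro i h0
    -- the point is in the cycle of `b'`
    have h1 : ddR x ((fx x)^[M'] c₀) p' = 0 := by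
      unfold ddR
      -- choose the index
      obtain ⟨j, hj, hji⟩ : ∃ j < p', (fx x)^[j] ((fx x)^[M'] c₀) = (fx x)^[i] b := by
        obtain ⟨s, hs⟩ : ∃ s, s = i + p' * (M' - M) - (M' - M) := ⟨_, rfl⟩
        refine ⟨s % p', Nat.mod_lt _ hp', ?_⟩
        have h2 : (fx x)^[s] ((fx x)^[M'] c₀) = (fx x)^[i] b := by
          rw [hb', ← Function.iterate_add_apply]
          have h3 : M' - M ≤ p' * (M' - M) := Nat.le_mul_of_pos_left _ hp'
          have h4 : s + (M' - M) = i + p' * (M' - M) := by omega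
          rw [h4, Function.iterate_add_apply, Function.iterate_mul,
            Function.iterate_fixed hpb']
        rw [← h2]
        conv_rhs => rw [← Nat.mod_add_div s p', Function.iterate_add_apply, Function.iterate_mul,
            Function.iterate_fixed hper]
      refine Finset.prod_eq_zero (Finset.mem_range.2 hj) ?_
      rw [hji, h0]
    rw [h1, norm_zero] at hrep
    linarith
  have hDb : ∀ n, ddR x b n ≠ 0 := by
    intro n
    unfold ddR
    rw [Finset.prod_ne_zero_iff]
    exact fun i _ => hne0 i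
  obtain ⟨lam, hlam⟩ : ∃ lam, lam = ddR x b p := ⟨_, rfl⟩
  have hlam1 : 1 < ‖lam‖ := by
    have h1 : ddR x b p' = ddR x ((fx x)^[M'] c₀) p' := by
      have h2 := ddR_add x b (M' - M) p'
      have h3 := ddR_add x b p' (M' - M)
      rw [hpb', add_comm p', h2, ← hb', mul_comm] at h3
      exact (mul_right_cancel₀ (hDb _) h3).symm
    obtain ⟨q, hq⟩ := hdvd
    have h2 : ∀ q : ℕ, ddR x b (p * q) = lam ^ q := by
      intro q
      induction q with
      | zero => simp [ddR]
      | succ q ih =>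
        rw [Nat.mul_succ, ddR_add, ih, Function.iterate_mul, Function.iterate_fixed hpb, ← hlam,
          pow_succ]
    rw [← h1, hq, h2, norm_pow] at hrep
    by_contra hcon
    push Not at hcon
    have := pow_le_one₀ (n := q) (norm_nonneg lam) hcon
    linarith
  -- `M` is positive
  have hM0 : 0 < M := by
    rcases Nat.eq_zero_or_pos M with h0 | h0
    · exfalso
      rw [h0] at hb
      apply hne0 0
      rw [hb]
      show (wn (nu x) (de x)).eval c₀ / _ = 0
      rw [hc, zero_div]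
    · exact h0
  have hfb : Fin' x b := by rw [hb]; exact hfin' M
  have hder : deriv ((fx x)^[p]) b = lam := by
    rw [hlam]
    exact (derR x b p fun j _ => hfb j).deriv
  refine ⟨b, M, p, lam, ⟨hc, hM0, hpp, hfin, hfb, hb.symm, hpb, hder, hlam1⟩, ?_⟩
  -- the last critical time
  obtain ⟨k, hk⟩ : ∃ k, k = Nat.findGreatest (fun j => (wn (nu x) (de x)).eval ((fx x)^[j] c₀) = 0) M :=
    ⟨_, rfl⟩
  have hkc : (wn (nu x) (de x)).eval ((fx x)^[k] c₀) = 0 := by
    rw [hk]
    exact Nat.findGreatest_spec (P := fun j => (wn (nu x) (de x)).eval ((fx x)^[j] c₀) = 0)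
      (Nat.zero_le M) (by simpa using hc)
  have hwb : ∀ i, (wn (nu x) (de x)).eval ((fx x)^[i] b) ≠ 0 := by
    intro i h0
    apply hne0 i
    show (wn (nu x) (de x)).eval ((fx x)^[i] b) / _ = 0
    rw [h0, zero_div]
  have hkM : k < M := by
    have h1 : k ≤ M := by rw [hk]; exact Nat.findGreatest_le M
    rcases h1.lt_or_eq with h | h
    · exact h
    · exfalso
      rw [h, ← hb] at hkc
      exact hwb 0 hkc
  have hafter : ∀ j, k < j → (wn (nu x) (de x)).eval ((fx x)^[j] c₀) ≠ 0 := by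
    intro j hj
    rcases Nat.lt_or_ge M j with h | h
    · have e : (fx x)^[j] c₀ = (fx x)^[j - M] b := by
        rw [hb, ← Function.iterate_add_apply]
        congr 1
        omega
      rw [e]
      exact hwb _
    · rw [hk] at hj
      exact Nat.findGreatest_is_greatest hj h
  obtain ⟨c, hcc⟩ : ∃ c, c = (fx x)^[k] c₀ := ⟨_, rfl⟩
  rw [← hcc] at hkc
  have hv : ∀ i, (fx x)^[i] (fx x c) = (fx x)^[k + 1 + i] c₀ := by
    intro i
    rw [hcc, ← Function.iterate_succ_apply' (fx x) k c₀, ← Function.iterate_add_apply]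
    congr 1
    omega
  obtain ⟨m, hm⟩ : ∃ m, m = M - (k + 1) := ⟨_, rfl⟩
  have hMk : k + 1 + m = M := by omega
  have hvm : (fx x)^[m] (fx x c) = b := by rw [hv, hMk, hb]
  have hvN : (fx x)^[m + p] (fx x c) = b := by
    rw [add_comm, Function.iterate_add_apply, hvm, hpb]
  have hdv : ddR x (fx x c) m ≠ 0 := by
    unfold ddR
    rw [Finset.prod_ne_zero_iff]
    intro i _
    rw [hv]
    exact div_ne_zero (hafter _ (by omega)) (pow_ne_zero _ (hfin _))
  obtain ⟨V, hV⟩ := critT hd2 x hx hG c hkc m (m + p) (by omega) (by rw [hvm, hvN]) (by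
    intro i
    rw [hv]
    exact ⟨hfin _, hafter _ (by omega)⟩) (by
    intro i hi hi0 h0
    have hvp : fx x c ∈ Function.periodicPts (fx x) := Function.mk_mem_periodicPts hi0 h0
    have e1 := hv 0
    rw [Function.iterate_zero_apply] at e1
    rw [e1] at hvp
    have h1 := hMmin _ hvp
    have hm0 : m = 0 := by omega
    rw [hm0, Function.iterate_zero_apply] at hvm
    rw [hvm] at h0
    rw [hm0, zero_add] at hi
    have h2 : p ≤ i := by
      rw [hp]
      exact Function.IsPeriodicPt.minimalPeriod_le hi0 h0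
    omega) (by
    rw [ddR_add, hvm, ← hlam]
    intro h0
    have h1 : ddR x (fx x c) m * (lam - 1) = 0 := by linear_combination h0
    have h2 := (mul_eq_zero.1 h1).resolve_left hdv
    have h3 : lam = 1 := by linear_combination h2
    rw [h3, norm_one] at hlam1
    exact lt_irrefl _ hlam1) hrec
  refine ⟨V, ?_⟩
  -- history is forgotten
  have hd1c : d1 (nu x) (de x) c = 0 := by
    show (wn (nu x) (de x)).eval c / _ = 0
    rw [hkc, zero_div]
  have hhist : ∀ j, llR x V c₀ (k + 1 + j) = llR x V c (1 + j) := by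
    intro j
    have e1 : (fx x)^[k + 1] c₀ = fx x c := by rw [hcc, Function.iterate_succ_apply']
    have e2 : (fx x)^[1] c = fx x c := rfl
    have e3 : llR x V c₀ (k + 1) = llR x V c 1 := by
      simp only [llR]
      rw [← hcc, hd1c]
      simp
    rw [llR_add x V c₀ (k + 1) j, llR_add x V c 1 j, e1, e2, e3]
  have h1 : llR x V c₀ M = llR x V c (m + 1) := by rw [← hMk, hhist, add_comm]
  have h2 : llR x V c₀ (M + p) = llR x V c (m + p + 1) := by
    rw [← hMk, add_assoc, hhist, add_comm]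
  have h3 : llR x V c₀ (M + p) = lam * llR x V c₀ M + llR x V b p := by
    rw [llR_add, ← hb, ← hlam]
  intro h0
  apply hV
  rw [← h1, ← h2, h3]
  unfold ffR at h0
  have hlam0 : (1 : ℂ) - lam ≠ 0 := by
    intro h4
    have : lam = 1 := by linear_combination -h4
    rw [this, norm_one] at hlam1
    exact lt_irrefl _ hlam1
  have h4 : llR x V b p = (1 - lam) * llR x V c₀ M := by
    have h5 : llR x V b p / (1 - lam) = llR x V c₀ M := (sub_eq_zero.1 h0).symm
    rw [div_eq_iff hlam0] at h5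
    rw [h5]; ring
  rw [h4]
  ring

end Run7.h904.RF
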