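import Mathlib
import Pool.Agent.Run7.h904.RTr
import Pool.Agent.W440.RE.Genm2
import Pool.Agent.W342.RE.PM
import Pool.Agent.Helper540.Osgood
import Pool.Agent.H790R3.RB.TINJL

set_option autoImplicit false

open Topology Filter Metric Set Polynomial MeasureTheory Asymptotics
open scoped OnePoint

namespace Run7.h904.RF

open Pool.Agent.H790R3.RB (CV hF cr ND wr rt sp pr hc pol Sink Attd HypTop hF_smul cr_smul_left
  cr_smul_right cr_self cr_comm)
open Pool.Agent.W757.QR Pool.Agent.W757.RF Pool.Agent.W757.Q2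
open Pool.Agent.W440.RE.GENM (hF_ne hF_inj wr_wn wn_ne bad_finite)
open Pool.Agent.W440.RE.GENM2

/-- Moebius coordinates in which infinity is generic and is the image of a point of `S`, with a
linear map of the coefficients. -/
theorem genm_lin (d : ℕ) (x : CV d) (S : Set (OnePoint ℂ))
    (hS : S.Infinite) (hd : 2 ≤ d) (hx : ND x) :
    ∃ (a b c e : ℂ) (h : OnePoint ℂ ≃ₜ OnePoint ℂ) (x₁ : CV d) (T : CV d →ₗ[ℂ] CV d),
      a * e - b * c = 1 ∧ (∀ p : ℂ × ℂ, p ≠ 0 → h (pr p) = pr (a * p.1 + b * p.2, c * p.1 + e * p.2)) ∧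
      ND x₁ ∧ (∀ z, h (sp x z) = sp x₁ (h z)) ∧ Ginf d (nu x₁) (de x₁) ∧
      T x₁ = x ∧ Function.Injective T ∧
      (∀ x' : CV d, ND x' → ND (T x') ∧ ∀ z, h (sp (T x') z) = sp x' (h z)) ∧
      h.symm ∞ ∈ S ∧
      ∀ q : ℂ × ℂ, q ≠ 0 → wr x q = 0 → ∃ ζ : ℂ, h (pr q) = ζ ∧
        (wn (nu x₁) (de x₁)).eval ζ = 0 := by
  have hd1 : 1 ≤ d := by omega
  obtain ⟨w, hwS, hw⟩ : ∃ w : ℂ, (w : OnePoint ℂ) ∈ S ∧ w ∉ {w : ℂ | cr (hF x (w, 1)) (w, 1) = 0 ∨
      wr x (w, 1) = 0 ∨ (∃ q : ℂ × ℂ, q ≠ 0 ∧ wr x q = 0 ∧ cr (hF x q) (w, 1) = 0) ∨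
      (w : OnePoint ℂ) ∈ (∅ : Finset (OnePoint ℂ))} := by
    by_contra hcon
    push Not at hcon
    apply hS
    have h1 : (insert ∞ ((fun z : ℂ => (z : OnePoint ℂ)) ''
        {w : ℂ | cr (hF x (w, 1)) (w, 1) = 0 ∨
      wr x (w, 1) = 0 ∨ (∃ q : ℂ × ℂ, q ≠ 0 ∧ wr x q = 0 ∧ cr (hF x q) (w, 1) = 0) ∨
      (w : OnePoint ℂ) ∈ (∅ : Finset (OnePoint ℂ))})).Finite :=
      ((bad_finite hd x hx ∅).image _).insert _
    refine h1.subset ?_
    intro z hz
    induction z using OnePoint.rec with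
    | infty => exact mem_insert _ _
    | coe z => exact mem_insert_of_mem _ ⟨z, hcon z hz, rfl⟩
  rw [mem_ofPred_eq] at hw
  push Not at hw
  obtain ⟨hw1, hw2, hw3, -⟩ := hw
  obtain ⟨h, hh, -⟩ := Pool.Agent.H790R3.RB.MOB Pool.Agent.H790R3.RB.SP 0 (-1) 1 (-w) (by norm_num)
  obtain ⟨cj, hcjc, hcja, hcjs, -, hcjF⟩ := Pool.Agent.H790R3.RB.CJ d
  obtain ⟨x₁, hx₁⟩ : ∃ x₁ : CV d, x₁ = cj ((0, -1), (1, -w)) x := ⟨_, rfl⟩
  let T : CV d →ₗ[ℂ] CV d :=
    { toFun := fun y => cj ((-w, 1), (-1, 0)) y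
      map_add' := fun y y' => hcja _ y y'
      map_smul' := fun s y => hcjs _ s y }
  have hT : ∀ y, T y = cj ((-w, 1), (-1, 0)) y := fun y => rfl
  have hh' : ∀ p : ℂ × ℂ, p ≠ 0 → h (pr p) = pr (mm w p) := by
    intro p hp
    rw [hh p hp]
    congr 1
    unfold mm
    ext
    · simp
    · simp; ring
  have hx₁F : ∀ p, hF x₁ p = mm w (hF x (ad w p)) := by
    intro p
    rw [hx₁, hcjF]
    have e : ((-w * p.1 - -1 * p.2, 0 * p.2 - 1 * p.1) : ℂ × ℂ) = ad w p := by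
      unfold ad; ext <;> simp
    simp only
    rw [e]
    unfold mm
    ext
    · simp
    · simp; ring
  have hTF : ∀ y p, hF (T y) p = ad w (hF y (mm w p)) := by
    intro y p
    rw [hT, hcjF]
    have e : ((0 * p.1 - 1 * p.2, -w * p.2 - -1 * p.1) : ℂ × ℂ) = mm w p := by
      unfold mm; ext
      · simp
      · simp; ring
    simp only
    rw [e]
    unfold ad
    ext
    · simp
    · simp
  have hx₁ND : ND x₁ := by
    intro p hp
    rw [hx₁F] at hp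
    exact ad_zero (hx _ (mm_zero hp))
  have hTND : ∀ y, ND y → ND (T y) := by
    intro y hy p hp
    rw [hTF] at hp
    exact mm_zero (hy _ (ad_zero hp))
  have hSP := Pool.Agent.H790R3.RB.SP d x hd1 hx
  obtain ⟨-, -, hcr, hhc, -⟩ := hSP
  have hsp : ∀ (y : CV d), ND y → ∀ p : ℂ × ℂ, p ≠ 0 → sp y (pr p) = pr (hF y p) := by
    intro y hy p hp
    have := (Pool.Agent.H790R3.RB.SP d y hd1 hy).2.1 p hp 1
    simpa using this
  have hmmne : ∀ p : ℂ × ℂ, p ≠ 0 → mm w p ≠ 0 := fun p hp h0 => hp (mm_zero h0)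
  have hadne : ∀ p : ℂ × ℂ, p ≠ 0 → ad w p ≠ 0 := fun p hp h0 => hp (ad_zero h0)
  have hwr₁ := wr_conj hd w x x₁ hx₁F
  have hd0 : (d : ℂ) ≠ 0 := by exact_mod_cast (by omega : d ≠ 0)
  have hw11 : ((w : ℂ), (1 : ℂ)) ≠ 0 := fun h => one_ne_zero (congrArg Prod.snd h)
  have hprw : pr ((w : ℂ), (1 : ℂ)) = (w : OnePoint ℂ) := by
    unfold pr
    rw [if_neg one_ne_zero, div_one]
  refine ⟨0, -1, 1, -w, h, x₁, T, by norm_num, hh, hx₁ND, ?_, ⟨?_, ?_, ?_⟩, ?_, ?_, ?_, ?_, ?_⟩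
  · -- conjugacy
    intro z
    obtain ⟨e1, e2⟩ := hhc z
    have h1 : h (sp x z) = pr (mm w (hF x (hc z))) := hh' _ (hF_ne hx e2)
    have h2 : sp x₁ (h z) = pr (hF x₁ (mm w (hc z))) := by
      conv_lhs => rw [← e1, hh' _ e2]
      exact hsp x₁ hx₁ND _ (hmmne _ e2)
    rw [h1, h2, hx₁F, ad_mm]
  · -- degree of the denominator
    have h1 : (de x₁).coeff d ≠ 0 := by
      have h2 := Pool.Agent.H790R3.RB.PQ.hF_inf x₁
      have h3 : (hF x₁ (1, 0)).2 = (pol x₁ 1).coeff d := by rw [h2]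
      show (pol x₁ 1).coeff d ≠ 0
      rw [← h3, hx₁F]
      have e : ad w (1, 0) = (-1 : ℂ) • ((w, 1) : ℂ × ℂ) := by
        unfold ad; ext <;> simp
      rw [e, hF_smul, mm_smul]
      show (-1 : ℂ) ^ d * ((hF x (w, 1)).1 - w * (hF x (w, 1)).2) ≠ 0
      refine mul_ne_zero (pow_ne_zero _ (by norm_num)) ?_
      intro h4
      apply hw1
      unfold cr
      simp only [mul_one]
      linear_combination h4
    exact natDegree_eq_of_le_of_coeff_ne_zero (Pool.Agent.H790R3.RB.PQ.pol_natDegree x₁ 1) h1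
  · -- degree of the numerator of the derivative
    obtain ⟨W, hWd, hWe, hWc⟩ := (Pool.Agent.H790R3.RB.WR d x₁ hd).2.1
    have hW : W = C (d : ℂ) * wn (nu x₁) (de x₁) := by
      apply Polynomial.funext
      intro ζ
      rw [hWe, wr_wn, eval_mul, eval_C]
    have h1 : W.coeff (2 * d - 2) ≠ 0 := by
      rw [hWc, hwr₁]
      have e : ad w (1, 0) = (-1 : ℂ) • ((w, 1) : ℂ × ℂ) := by
        unfold ad; ext <;> simp
      rw [e, (Pool.Agent.H790R3.RB.WR d x hd).1]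
      exact mul_ne_zero (pow_ne_zero _ (by norm_num)) hw2
    have h2 : W.natDegree = 2 * d - 2 := natDegree_eq_of_le_of_coeff_ne_zero hWd h1
    rw [hW, natDegree_C_mul hd0] at h2
    exact h2
  · -- infinity is not a critical value
    intro ζ hζ h0
    have hζ1 : ((ζ : ℂ), (1 : ℂ)) ≠ 0 := fun h => one_ne_zero (congrArg Prod.snd h)
    have h1 : wr x₁ (ζ, 1) = 0 := by rw [wr_wn, h0, mul_zero]
    rw [hwr₁] at h1
    refine hw3 _ (hadne _ hζ1) h1 ?_
    have h2 : (hF x₁ (ζ, 1)).2 = 0 := by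
      rw [Pool.Agent.H790R3.RB.PQ.hF_one]; exact hζ
    rw [hx₁F] at h2
    have h3 : (hF x (ad w (ζ, 1))).1 - w * (hF x (ad w (ζ, 1))).2 = 0 := h2
    unfold cr
    simp only [mul_one]
    linear_combination h3
  · apply hF_inj
    intro p
    rw [hTF, hx₁F, ad_mm, ad_mm]
  · -- injectivity
    rw [← LinearMap.ker_eq_bot, LinearMap.ker_eq_bot']
    intro y hy
    apply hF_inj
    intro p
    have h0 : ∀ p : ℂ × ℂ, hF (0 : CV d) p = 0 := by
      intro p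
      have := Pool.Agent.W440.RE.GENM.hF_smul_left (0 : ℂ) (0 : CV d) p
      rwa [zero_smul, zero_smul] at this
    have h1 := hTF y (ad w p)
    rw [hy, h0, mm_ad] at h1
    rw [h0]
    exact ad_zero h1.symm
  · intro y hy
    refine ⟨hTND y hy, ?_⟩
    intro z
    obtain ⟨e1, e2⟩ := hhc z
    have h1 : h (sp (T y) z) = pr (mm w (hF (T y) (hc z))) := hh' _ (hF_ne (hTND y hy) e2)
    have h2 : sp y (h z) = pr (hF y (mm w (hc z))) := by
      conv_lhs => rw [← e1, hh' _ e2]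
      exact hsp y hy _ (hmmne _ e2)
    rw [h1, h2, hTF, mm_ad]
  · -- the preimage of infinity
    have h1 : h (w : OnePoint ℂ) = ∞ := by
      rw [← hprw, hh' _ hw11]
      unfold pr mm
      rw [if_pos (by simp)]
    rw [← h1, Homeomorph.symm_apply_apply]
    exact hwS
  · -- critical points
    intro q hq hwq
    obtain ⟨s, hs⟩ : ∃ s : ℂ, s = (mm w q).2 := ⟨_, rfl⟩
    have hs' : s = q.1 - w * q.2 := hs
    have hs0 : s ≠ 0 := by
      intro h0
      rw [hs'] at h0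
      have hq1 : q.1 = w * q.2 := by linear_combination h0
      have hq2 : q.2 ≠ 0 := by
        intro h2
        apply hq
        refine Prod.ext ?_ h2
        rw [hq1, h2, mul_zero]; rfl
      have e : q = q.2 • ((w : ℂ), (1 : ℂ)) := by
        ext
        · simp [hq1, mul_comm]
        · simp
      rw [e, (Pool.Agent.H790R3.RB.WR d x hd).1] at hwq
      exact mul_ne_zero (pow_ne_zero _ hq2) hw2 hwq
    refine ⟨(mm w q).1 / s, ?_, ?_⟩
    · rw [hh' q hq]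
      unfold pr
      rw [if_neg (by rw [← hs]; exact hs0), hs]
    · have e : mm w q = s • (((mm w q).1 / s : ℂ), (1 : ℂ)) := by
        ext
        · simp [mul_div_cancel₀ _ hs0]
        · simp [hs]
      have h1 : wr x₁ (mm w q) = 0 := by
        rw [hwr₁, ad_mm, hwq]
      rw [e, (Pool.Agent.H790R3.RB.WR d x₁ hd).1, wr_wn] at h1
      have h2 := (mul_eq_zero.1 h1).resolve_left (pow_ne_zero _ hs0)
      exact (mul_eq_zero.1 h2).resolve_left hd0

/-- the critical points on the sphere -/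
def Crt {d : ℕ} (x : CV d) : Set (OnePoint ℂ) := {z | ∃ q : ℂ × ℂ, q ≠ 0 ∧ wr x q = 0 ∧ pr q = z}

lemma infinite_univ : (univ : Set (OnePoint ℂ)).Infinite := by
  have : Infinite (OnePoint ℂ) :=
    Infinite.of_injective (fun z : ℂ => (z : OnePoint ℂ)) OnePoint.coe_injective
  exact Set.infinite_univ

lemma crt_finite {d : ℕ} (hd : 2 ≤ d) (x : CV d) (hx : ND x) : (Crt x).Finite := by
  obtain ⟨a, b, c, e, h, x₁, T, -, -, hx₁, -, -, -, -, -, -, hc⟩ :=
    genm_lin d x univ infinite_univ hd hx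
  have h1 : Crt x ⊆ h.symm '' ((fun z : ℂ => (z : OnePoint ℂ)) ''
      ((wn (nu x₁) (de x₁)).roots.toFinset : Set ℂ)) := by
    rintro z ⟨q, hq, hwq, rfl⟩
    obtain ⟨ζ, hζ, h0⟩ := hc q hq hwq
    refine ⟨ζ, ⟨ζ, ?_, rfl⟩, ?_⟩
    · rw [Finset.mem_coe, Multiset.mem_toFinset, mem_roots (wn_ne hd x₁ hx₁)]
      exact h0
    · rw [← hζ, Homeomorph.symm_apply_apply]
  exact (((Finset.finite_toSet _).image _).image _).subset h1

/-- zeros of the derivative are not points of local injectivity -/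
lemma notinj_fin {d : ℕ} (x : CV d) (ζ : ℂ) (hq : (de x).eval ζ ≠ 0)
    (h0 : (wn (nu x) (de x)).eval ζ = 0) : ¬ ∃ U ∈ 𝓝 (ζ : OnePoint ℂ), InjOn (sp x) U := by
  rintro ⟨U, hU, hinj⟩
  have h1 : ∀ᶠ z in 𝓝 ζ, ((z : ℂ) : OnePoint ℂ) ∈ U := by
    have := OnePoint.continuous_coe.tendsto ζ
    exact this.eventually hU
  have h2 : ∀ᶠ z in 𝓝 ζ, (de x).eval z ≠ 0 := (de x).continuous.continuousAt.eventually_ne hq
  obtain ⟨ρ, hρ, hb⟩ := Metric.eventually_nhds_iff_ball.1 (h1.and h2)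
  have h3 : deriv (fx x) ζ ≠ 0 := by
    refine Pool.Agent.Helper540.deriv_ne_zero_of_injOn (U := ball ζ ρ) isOpen_ball ?_ ?_
      (mem_ball_self hρ)
    · intro z hz
      exact (Pool.Agent.W29.RQSNK.fx_diff x z (hb z hz).2).differentiableWithinAt
    · intro z hz z' hz' heq
      have h4 : sp x (z : OnePoint ℂ) = sp x (z' : OnePoint ℂ) := by
        rw [Pool.Agent.W29.RQSNK.sp_fx x z (hb z hz).2, Pool.Agent.W29.RQSNK.sp_fx x z' (hb z' hz').2]
        exact congrArg _ heq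
      exact OnePoint.coe_injective (hinj (hb z hz).1 (hb z' hz').1 h4)
  apply h3
  rw [Pool.Agent.W409.RQAPX.deriv_fx x ζ hq, h0, zero_div]

lemma crt_notinj {d : ℕ} (hd : 2 ≤ d) (x : CV d) (hx : ND x) (z : OnePoint ℂ) (hz : z ∈ Crt x) :
    ¬ ∃ U ∈ 𝓝 z, InjOn (sp x) U := by
  obtain ⟨a, b, c, e, h, x₁, T, -, -, hx₁, hs, hG, -, -, -, -, hc⟩ :=
    genm_lin d x univ infinite_univ hd hx
  obtain ⟨q, hq, hwq, rfl⟩ := hz
  obtain ⟨ζ, hζ, h0⟩ := hc q hq hwq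
  rintro ⟨U, hU, hinj⟩
  have hQ : (de x₁).eval ζ ≠ 0 := fun h1 => hG.2.2 ζ h1 h0
  apply notinj_fin x₁ ζ hQ h0
  refine ⟨h.symm ⁻¹' U, ?_, ?_⟩
  · rw [← hζ]
    have h1 : Tendsto h.symm (𝓝 (h (pr q))) (𝓝 (pr q)) := by
      have := h.symm.continuous.tendsto (h (pr q))
      rwa [h.symm_apply_apply] at this
    exact h1 hU
  · intro w hw w' hw' heq
    have h1 : sp x (h.symm w) = sp x (h.symm w') := by
      apply h.injective
      rw [hs, hs, h.apply_symm_apply, h.apply_symm_apply]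
      exact heq
    have h2 := hinj hw hw' h1
    exact h.symm.injective h2

lemma crt_of_notinj {d : ℕ} (hd : 2 ≤ d) (x : CV d) (hx : ND x) (z : OnePoint ℂ)
    (h : ¬ ∃ U ∈ 𝓝 z, InjOn (sp x) U) : z ∈ Crt x := by
  obtain ⟨e1, e2⟩ := (Pool.Agent.H790R3.RB.SP d x (by omega) hx).2.2.2.1 z
  refine ⟨hc z, e2, ?_, e1⟩
  by_contra h0
  have := Pool.Agent.H790R3.RB.INJL Pool.Agent.H790R3.RB.SP Pool.Agent.H790R3.RB.WR d x (hc z) hd hx e2 h0
  rw [e1] at this
  exact h this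

end Run7.h904.RF
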