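import Mathlib

set_option autoImplicit false

open Topology Filter Metric Set

namespace Run7.h904.SP

/-- the `n`-th roots of unity -/
noncomputable def mu (n : ℕ) : Finset ℂ := Polynomial.nthRootsFinset n (1 : ℂ)

lemma mem_mu {n : ℕ} (hn : 0 < n) (ζ : ℂ) : ζ ∈ mu n ↔ ζ ^ n = 1 := by
  unfold mu
  rw [Polynomial.mem_nthRootsFinset hn]

/-- the time coordinate of the vector field `1 - v ^ n` -/
noncomputable def tau (n : ℕ) (v : ℂ) : ℂ :=
  -(1 / (n : ℂ)) * ∑ ζ ∈ mu n, ζ⁻¹ * Complex.log (1 - ζ * v)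

/-- the plane without the slits -/
def DD (n : ℕ) : Set ℂ := {v | 1 - v ^ n ∈ Complex.slitPlane}

lemma isOpen_DD (n : ℕ) : IsOpen (DD n) := by
  unfold DD
  exact Complex.isOpen_slitPlane.preimage (by fun_prop)

lemma tau_zero (n : ℕ) : tau n 0 = 0 := by
  unfold tau
  simp

lemma zero_mem_DD {n : ℕ} (hn : 0 < n) : (0 : ℂ) ∈ DD n := by
  show 1 - (0 : ℂ) ^ n ∈ Complex.slitPlane
  rw [zero_pow hn.ne', sub_zero]
  exact Complex.one_mem_slitPlane

lemma ne_one_of_DD {n : ℕ} {v : ℂ} (hv : v ∈ DD n) : v ^ n ≠ 1 := by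
  intro h
  have : 1 - v ^ n ∈ Complex.slitPlane := hv
  rw [h, sub_self] at this
  exact Complex.zero_notMem_slitPlane this

lemma sub_ne_of_DD {n : ℕ} {v : ℂ} (hv : v ∈ DD n) : 1 - v ^ n ≠ 0 :=
  sub_ne_zero.mpr (ne_one_of_DD hv).symm

lemma factor_mem {n : ℕ} (hn : 0 < n) {v ζ : ℂ} (hv : v ∈ DD n) (hζ : ζ ∈ mu n) :
    1 - ζ * v ∈ Complex.slitPlane := by
  by_contra h
  rw [Complex.mem_slitPlane_iff] at h
  push Not at h
  obtain ⟨h1, h2⟩ := h
  simp only [Complex.sub_re, Complex.one_re, Complex.sub_im, Complex.one_im, zero_sub,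
    neg_eq_zero] at h1 h2
  have h3 : ζ * v = (((ζ * v).re : ℝ) : ℂ) := by
    apply Complex.ext
    · simp
    · rw [Complex.ofReal_im]; exact h2
  have h4 : v ^ n = (((ζ * v).re ^ n : ℝ) : ℂ) := by
    have : (ζ * v) ^ n = v ^ n := by rw [mul_pow, (mem_mu hn ζ).1 hζ, one_mul]
    rw [← this]
    conv_lhs => rw [h3]
    push_cast
    rfl
  have h5 : (1 : ℝ) ≤ (ζ * v).re ^ n := one_le_pow₀ (by linarith)
  have h6 : 1 - v ^ n ∈ Complex.slitPlane := hv
  rw [h4, Complex.mem_slitPlane_iff] at h6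
  rcases h6 with h7 | h7
  · rw [Complex.sub_re, Complex.one_re, Complex.ofReal_re] at h7
    linarith
  · apply h7
    rw [Complex.sub_im, Complex.one_im, Complex.ofReal_im, sub_zero]

lemma prod_mu {n : ℕ} (hn : 0 < n) (v : ℂ) : ∏ ζ ∈ mu n, (1 - ζ * v) = 1 - v ^ n := by
  have h := IsPrimitiveRoot.pow_sub_pow_eq_prod_sub_mul (1 : ℂ) v hn
    (Complex.isPrimitiveRoot_exp n hn.ne')
  rw [one_pow] at h
  exact h.symm

lemma card_mu {n : ℕ} (hn : 0 < n) : (mu n).card = n :=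
  (Complex.isPrimitiveRoot_exp n hn.ne').card_nthRootsFinset

lemma sum_mu {n : ℕ} (hn : 0 < n) {v : ℂ} (hv : v ^ n ≠ 1) :
    ∑ ζ ∈ mu n, 1 / (1 - ζ * v) = n / (1 - v ^ n) := by
  classical
  have hne : ∀ ζ ∈ mu n, 1 - ζ * v ≠ 0 := by
    intro ζ hζ h0
    apply hv
    have h1 : ζ * v = 1 := by linear_combination -h0
    have h2 : (ζ * v) ^ n = v ^ n := by rw [mul_pow, (mem_mu hn ζ).1 hζ, one_mul]
    rw [← h2, h1, one_pow]
  have hP : (1 - v ^ n) ≠ 0 := sub_ne_zero.mpr hv.symm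
  -- derivative of the product
  have hd : HasDerivAt (fun w : ℂ => ∏ ζ ∈ mu n, (1 - ζ * w))
      (∑ ζ ∈ mu n, (∏ η ∈ (mu n).erase ζ, (1 - η * v)) • (-ζ)) v := by
    refine HasDerivAt.fun_finsetProd ?_
    intro ζ _
    have := ((hasDerivAt_id' v).const_mul ζ).const_sub 1
    simpa using this
  have hd2 : HasDerivAt (fun w : ℂ => 1 - w ^ n) (-((n : ℂ) * v ^ (n - 1))) v := by
    have := (hasDerivAt_pow n v).const_sub 1
    simpa using this
  have he : (fun w : ℂ => ∏ ζ ∈ mu n, (1 - ζ * w)) = fun w => 1 - w ^ n := by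
    funext w
    exact prod_mu hn w
  rw [he] at hd
  have h1 := hd.unique hd2
  have h2 : ∀ ζ ∈ mu n, (∏ η ∈ (mu n).erase ζ, (1 - η * v)) = (1 - v ^ n) / (1 - ζ * v) := by
    intro ζ hζ
    rw [eq_div_iff (hne ζ hζ), ← prod_mu hn v, mul_comm]
    exact Finset.mul_prod_erase (mu n) (fun η => 1 - η * v) hζ
  have h3 : ∑ ζ ∈ mu n, (1 - v ^ n) / (1 - ζ * v) * (-ζ) = -((n : ℂ) * v ^ (n - 1)) := by
    rw [← h1]
    refine Finset.sum_congr rfl fun ζ hζ => ?_
    rw [h2 ζ hζ, smul_eq_mul]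
  have h4 : ∑ ζ ∈ mu n, (1 - v ^ n) / (1 - ζ * v) * (-ζ) * v =
      ∑ ζ ∈ mu n, ((1 - v ^ n) - (1 - v ^ n) * (1 / (1 - ζ * v))) := by
    refine Finset.sum_congr rfl fun ζ hζ => ?_
    have := hne ζ hζ
    field_simp
    ring
  rw [← Finset.sum_mul, h3, Finset.sum_sub_distrib, Finset.sum_const, card_mu hn,
    ← Finset.mul_sum] at h4
  have h5 : v ^ n = v ^ (n - 1) * v := by
    rw [← pow_succ, Nat.sub_add_cancel hn]
  rw [eq_div_iff hP]
  rw [nsmul_eq_mul] at h4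
  linear_combination h4 - (n : ℂ) * h5

theorem strict_tau {n : ℕ} (hn : 0 < n) {v : ℂ} (hv : v ∈ DD n) :
    HasStrictDerivAt (tau n) (1 / (1 - v ^ n)) v := by
  have hn0 : (n : ℂ) ≠ 0 := by exact_mod_cast hn.ne'
  have h1 : HasStrictDerivAt (fun w : ℂ => ∑ ζ ∈ mu n, ζ⁻¹ * Complex.log (1 - ζ * w))
      (∑ ζ ∈ mu n, -(1 / (1 - ζ * v))) v := by
    refine HasStrictDerivAt.fun_sum ?_
    intro ζ hζ
    have hζ0 : ζ ≠ 0 := by
      rintro rfl
      have := (mem_mu hn 0).1 hζ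
      rw [zero_pow hn.ne'] at this
      exact zero_ne_one this
    have h2 : HasStrictDerivAt (fun w : ℂ => 1 - ζ * w) (-ζ) v := by
      have := ((hasStrictDerivAt_id v).const_mul ζ).const_sub 1
      simpa using this
    have h3 := (h2.clog (factor_mem hn hv hζ)).const_mul ζ⁻¹
    refine h3.congr_deriv ?_
    field_simp
  have h2 := h1.const_mul (-(1 / (n : ℂ)))
  refine h2.congr_deriv ?_
  rw [Finset.sum_neg_distrib, sum_mu hn (ne_one_of_DD hv)]
  field_simp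

theorem deriv_tau {n : ℕ} (hn : 0 < n) {v : ℂ} (hv : v ∈ DD n) :
    HasDerivAt (tau n) (1 / (1 - v ^ n)) v := (strict_tau hn hv).hasDerivAt

lemma mul_mem_DD {n : ℕ} (hn : 0 < n) {v η : ℂ} (hη : η ∈ mu n) : η * v ∈ DD n ↔ v ∈ DD n := by
  unfold DD
  rw [mem_ofPred_eq, mem_ofPred_eq, mul_pow, (mem_mu hn η).1 hη, one_mul]

lemma inv_mem_mu {n : ℕ} (hn : 0 < n) {η : ℂ} (hη : η ∈ mu n) : η⁻¹ ∈ mu n := by
  rw [mem_mu hn] at hη ⊢
  rw [inv_pow, hη, inv_one]

lemma mul_mem_mu {n : ℕ} (hn : 0 < n) {η ζ : ℂ} (hη : η ∈ mu n) (hζ : ζ ∈ mu n) : η * ζ ∈ mu n := by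
  rw [mem_mu hn] at hη hζ ⊢
  rw [mul_pow, hη, hζ, one_mul]

lemma ne_zero_mu {n : ℕ} (hn : 0 < n) {η : ℂ} (hη : η ∈ mu n) : η ≠ 0 := by
  rintro rfl
  have := (mem_mu hn 0).1 hη
  rw [zero_pow hn.ne'] at this
  exact zero_ne_one this

lemma norm_mu {n : ℕ} (hn : 0 < n) {η : ℂ} (hη : η ∈ mu n) : ‖η‖ = 1 := by
  have h := congrArg norm ((mem_mu hn η).1 hη)
  rw [norm_pow, norm_one] at h
  exact (pow_eq_one_iff_of_nonneg (norm_nonneg _) hn.ne').mp h

lemma tau_mul {n : ℕ} (hn : 0 < n) {η : ℂ} (hη : η ∈ mu n) (v : ℂ) :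
    tau n (η * v) = η * tau n v := by
  have hη0 := ne_zero_mu hn hη
  unfold tau
  have h : ∑ ζ ∈ mu n, ζ⁻¹ * Complex.log (1 - ζ * (η * v)) =
      ∑ ζ ∈ mu n, η * (ζ⁻¹ * Complex.log (1 - ζ * v)) := by
    refine Finset.sum_nbij' (fun ζ => ζ * η) (fun ζ => ζ * η⁻¹) ?_ ?_ ?_ ?_ ?_
    · intro ζ hζ; exact mul_mem_mu hn hζ hη
    · intro ζ hζ; exact mul_mem_mu hn hζ (inv_mem_mu hn hη)
    · intro ζ _; field_simp
    · intro ζ _; field_simp
    · intro ζ hζ
      have hζ0 := ne_zero_mu hn hζ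
      rw [mul_assoc ζ η v]
      field_simp
  rw [h, ← Finset.mul_sum]
  ring

lemma conj_mem_DD {n : ℕ} {v : ℂ} : (starRingEnd ℂ) v ∈ DD n ↔ v ∈ DD n := by
  unfold DD
  have e : ((starRingEnd ℂ) v) ^ n = (starRingEnd ℂ) (v ^ n) := (map_pow _ _ _).symm
  rw [mem_ofPred_eq, mem_ofPred_eq, e, Complex.mem_slitPlane_iff, Complex.mem_slitPlane_iff]
  simp only [Complex.sub_re, Complex.sub_im, Complex.conj_re, Complex.conj_im, Complex.one_re,
    Complex.one_im, zero_sub, neg_neg, ne_eq, neg_eq_zero]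

lemma conj_mu {n : ℕ} (hn : 0 < n) {ζ : ℂ} (hζ : ζ ∈ mu n) : (starRingEnd ℂ) ζ = ζ⁻¹ := by
  rw [Complex.inv_def, Complex.normSq_eq_norm_sq, norm_mu hn hζ]
  simp

lemma tau_conj {n : ℕ} (hn : 0 < n) {v : ℂ} (hv : v ∈ DD n) :
    tau n ((starRingEnd ℂ) v) = (starRingEnd ℂ) (tau n v) := by
  unfold tau
  rw [map_mul, map_sum]
  congr 1
  · simp
  refine Finset.sum_nbij' (fun ζ => ζ⁻¹) (fun ζ => ζ⁻¹) ?_ ?_ ?_ ?_ ?_
  · intro ζ hζ; exact inv_mem_mu hn hζ
  · intro ζ hζ; exact inv_mem_mu hn hζ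
  · intro ζ _; exact inv_inv ζ
  · intro ζ _; exact inv_inv ζ
  · intro ζ hζ
    have h1 := factor_mem hn hv (inv_mem_mu hn hζ)
    rw [map_mul, ← Complex.log_conj _ (Complex.mem_slitPlane_iff_arg.1 h1).1, map_sub, map_one,
      map_mul, ← conj_mu hn hζ, Complex.conj_conj, map_inv₀, Complex.conj_conj, conj_mu hn hζ]

lemma smul_mem_DD {n : ℕ} (hn : 0 < n) {v : ℂ} (hv : v ∈ DD n) {r : ℝ} (h0 : 0 ≤ r) (h1 : r ≤ 1) :
    (r : ℂ) * v ∈ DD n := by
  have h2 : 1 - v ^ n ∈ Complex.slitPlane := hv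
  show 1 - ((r : ℂ) * v) ^ n ∈ Complex.slitPlane
  have h3 := Complex.starConvex_one_slitPlane
  have h4 := h3 h2 (a := 1 - r ^ n) (b := r ^ n) (by
    have : r ^ n ≤ 1 := pow_le_one₀ h0 h1
    linarith) (by positivity) (by ring)
  have e : (1 - r ^ n) • (1 : ℂ) + (r ^ n) • (1 - v ^ n) = 1 - ((r : ℂ) * v) ^ n := by
    rw [Complex.real_smul, Complex.real_smul, mul_pow]
    push_cast
    ring
  rw [e] at h4
  exact h4

/-- derivative along the rays -/
lemma ray_deriv {n : ℕ} (hn : 0 < n) {e : ℂ} {r : ℝ} (hv : (r : ℂ) * e ∈ DD n) :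
    HasDerivAt (fun r : ℝ => tau n ((r : ℂ) * e)) (e / (1 - ((r : ℂ) * e) ^ n)) r := by
  have h1 : HasDerivAt (fun r : ℝ => (r : ℂ) * e) e r := by
    have := (Complex.ofRealCLM.hasDerivAt (x := r)).mul_const e
    simpa using this
  have h2 := (deriv_tau hn hv).comp r h1
  refine h2.congr_deriv ?_
  ring

/-- points of the open sectors between the slits -/
lemma mem_DD_of_sector {n : ℕ} (hn : 0 < n) {r φ : ℝ} (hr : 0 ≤ r) (h0 : 0 < φ)
    (h1 : φ < 2 * Real.pi / n) : (r : ℂ) * Complex.exp (φ * Complex.I) ∈ DD n := by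
  show 1 - ((r : ℂ) * Complex.exp (φ * Complex.I)) ^ n ∈ Complex.slitPlane
  have hn' : (0 : ℝ) < n := by exact_mod_cast hn
  have e : ((r : ℂ) * Complex.exp (φ * Complex.I)) ^ n =
      ((r ^ n * Real.cos (n * φ) : ℝ) : ℂ) + ((r ^ n * Real.sin (n * φ) : ℝ) : ℂ) * Complex.I := by
    rw [mul_pow, ← Complex.exp_nat_mul, show (n : ℂ) * (φ * Complex.I) = ((n * φ : ℝ) : ℂ) *
      Complex.I by push_cast; ring, Complex.exp_mul_I]
    push_cast
    ring
  rw [e, Complex.mem_slitPlane_iff]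
  simp only [Complex.sub_re, Complex.one_re, Complex.add_re, Complex.ofReal_re, Complex.mul_re,
    Complex.I_re, mul_zero, Complex.ofReal_im, Complex.I_im, mul_one, sub_self, add_zero,
    Complex.sub_im, Complex.one_im, Complex.add_im, Complex.mul_im, zero_add, zero_sub]
  rcases eq_or_lt_of_le hr with h | h
  · left
    rw [← h, zero_pow hn.ne']
    norm_num
  by_cases hs : Real.sin (n * φ) = 0
  · left
    have h2 : 0 < n * φ := by positivity
    have h3 : n * φ < 2 * Real.pi := by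
      rw [lt_div_iff₀ hn'] at h1
      linarith
    have h4 : n * φ = Real.pi := by
      rw [Real.sin_eq_zero_iff] at hs
      obtain ⟨k, hk⟩ := hs
      have hpi := Real.pi_pos
      have hk1 : (0 : ℝ) < k := by
        by_contra hcon
        push Not at hcon
        nlinarith
      have hk2 : (k : ℝ) < 2 := by
        by_contra hcon
        push Not at hcon
        nlinarith
      have hk3 : k = 1 := by
        have a1 : 0 < k := by exact_mod_cast hk1
        have a2 : k < 2 := by exact_mod_cast hk2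
        omega
      rw [← hk, hk3]
      simp
    rw [h4, Real.cos_pi]
    have : 0 < r ^ n := by positivity
    linarith
  · right
    have : 0 < r ^ n := by positivity
    exact neg_ne_zero.mpr (mul_ne_zero this.ne' hs)

/-- the components of the derivative along the rays -/
lemma ray_formula {n : ℕ} (r φ α : ℝ) (h : 1 - ((r : ℂ) * Complex.exp (φ * Complex.I)) ^ n ≠ 0) :
    (Complex.exp (-(α * Complex.I)) * (Complex.exp (φ * Complex.I) /
      (1 - ((r : ℂ) * Complex.exp (φ * Complex.I)) ^ n))) =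
    ((Real.cos (φ - α) - r ^ n * Real.cos ((n - 1) * φ + α) : ℝ) +
      (Real.sin (φ - α) + r ^ n * Real.sin ((n - 1) * φ + α) : ℝ) * Complex.I) /
      (Complex.normSq (1 - ((r : ℂ) * Complex.exp (φ * Complex.I)) ^ n) : ℝ) := by
  obtain ⟨Z, hZ⟩ : ∃ Z : ℂ, Z = 1 - ((r : ℂ) * Complex.exp (φ * Complex.I)) ^ n := ⟨_, rfl⟩
  rw [← hZ] at h ⊢
  have hN : ((Complex.normSq Z : ℝ) : ℂ) ≠ 0 := by
    rw [Ne, Complex.ofReal_eq_zero, Complex.normSq_eq_zero]
    exact h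
  have hc : (starRingEnd ℂ) Z = 1 - (r : ℂ) ^ n * Complex.exp (-(n * φ * Complex.I)) := by
    rw [hZ, map_sub, map_one, map_pow, map_mul, Complex.conj_ofReal, ← Complex.exp_conj, mul_pow,
      ← Complex.exp_nat_mul]
    congr 3
    simp
    ring
  have h1 : Complex.normSq Z = Z * (starRingEnd ℂ) Z := (Complex.mul_conj Z).symm
  rw [eq_div_iff hN, h1, hc]
  have e1 : Complex.exp (-(α * Complex.I)) * (Complex.exp (φ * Complex.I) / Z) *
      (Z * (1 - (r : ℂ) ^ n * Complex.exp (-(n * φ * Complex.I)))) =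
      Complex.exp ((φ - α : ℝ) * Complex.I) - (r : ℂ) ^ n *
      Complex.exp (-(((n - 1) * φ + α : ℝ) * Complex.I)) := by
    have e2 : Complex.exp ((φ - α : ℝ) * Complex.I) =
        Complex.exp (-(α * Complex.I)) * Complex.exp (φ * Complex.I) := by
      rw [← Complex.exp_add]
      congr 1
      push_cast
      ring
    have e3 : Complex.exp (-(((n - 1) * φ + α : ℝ) * Complex.I)) =
        Complex.exp (-(α * Complex.I)) * Complex.exp (φ * Complex.I) *
        Complex.exp (-(n * φ * Complex.I)) := by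
      rw [← Complex.exp_add, ← Complex.exp_add]
      congr 1
      push_cast
      ring
    rw [e2, e3]
    field_simp
  rw [e1, Complex.exp_mul_I, ← neg_mul, Complex.exp_mul_I, ← Complex.ofReal_neg,
    ← Complex.ofReal_cos, ← Complex.ofReal_sin, ← Complex.ofReal_cos, ← Complex.ofReal_sin,
    Real.cos_neg, Real.sin_neg]
  push_cast
  ring

end Run7.h904.SP
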