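import Mathlib
import Pool.Agent.Run7.h904.S1Tau

set_option autoImplicit false

open Topology Filter Metric Set

namespace Run7.h904.SP

/-- points of the unit circle -/
noncomputable def ee (φ : ℝ) : ℂ := Complex.exp (φ * Complex.I)

lemma ee_add (φ ψ : ℝ) : ee (φ + ψ) = ee φ * ee ψ := by
  unfold ee
  rw [← Complex.exp_add]
  congr 1
  push_cast
  ring

lemma ee_zero : ee 0 = 1 := by simp [ee]

lemma norm_ee (φ : ℝ) : ‖ee φ‖ = 1 := Complex.norm_exp_ofReal_mul_I φ

lemma ee_ne (φ : ℝ) : ee φ ≠ 0 := Complex.exp_ne_zero _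

lemma re_ee (φ : ℝ) : (ee φ).re = Real.cos φ := Complex.exp_ofReal_mul_I_re φ

lemma im_ee (φ : ℝ) : (ee φ).im = Real.sin φ := Complex.exp_ofReal_mul_I_im φ

lemma ee_neg (φ : ℝ) : ee (-φ) = (ee φ)⁻¹ := by
  unfold ee
  rw [← Complex.exp_neg]
  congr 1
  push_cast
  ring

lemma ee_conj (φ : ℝ) : (starRingEnd ℂ) (ee φ) = ee (-φ) := by
  apply Complex.ext
  · rw [Complex.conj_re, re_ee, re_ee, Real.cos_neg]
  · rw [Complex.conj_im, im_ee, im_ee, Real.sin_neg]

lemma ee_pow (φ : ℝ) (n : ℕ) : ee φ ^ n = ee (n * φ) := by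
  unfold ee
  rw [← Complex.exp_nat_mul]
  congr 1
  push_cast
  ring

lemma polar (z : ℂ) : z = (‖z‖ : ℂ) * ee z.arg := (Complex.norm_mul_exp_arg_mul_I z).symm

lemma exists_Phi (n : ℕ) (hn : 2 ≤ n) : ∃ Φ : ℂ → ℂ, Φ 0 = 0 ∧
    ∀ y ∈ ball (0 : ℂ) 1, HasDerivAt Φ (y ^ (n - 2) / (1 - y ^ n)) y := by
  have h : DifferentiableOn ℂ (fun y : ℂ => y ^ (n - 2) / (1 - y ^ n)) (ball 0 1) := by
    refine DifferentiableOn.div (by fun_prop) (by fun_prop) ?_
    intro y hy h0
    have h1 : ‖y‖ < 1 := by simpa using hy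
    have h2 : y ^ n = 1 := by linear_combination -h0
    have h3 := congrArg norm h2
    rw [norm_pow, norm_one] at h3
    have h4 : ‖y‖ ^ n < 1 := pow_lt_one₀ (norm_nonneg _) h1 (by omega)
    linarith
  exact h.isExactOn_ball.with_val_at 0 0

/-- the time coordinate at infinity -/
noncomputable def Phi (n : ℕ) : ℂ → ℂ :=
  if h : 2 ≤ n then (exists_Phi n h).choose else fun _ => 0

lemma Phi_spec {n : ℕ} (hn : 2 ≤ n) : Phi n 0 = 0 ∧
    ∀ y ∈ ball (0 : ℂ) 1, HasDerivAt (Phi n) (y ^ (n - 2) / (1 - y ^ n)) y := by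
  unfold Phi
  rw [dif_pos hn]
  exact (exists_Phi n hn).choose_spec

lemma Phi_cont {n : ℕ} (hn : 2 ≤ n) : Tendsto (Phi n) (𝓝 0) (𝓝 0) := by
  have h := ((Phi_spec hn).2 0 (mem_ball_self one_pos)).continuousAt
  have h1 : Tendsto (Phi n) (𝓝 0) (𝓝 (Phi n 0)) := h
  rwa [(Phi_spec hn).1] at h1

lemma Phi_bound {n : ℕ} (hn : 2 ≤ n) (y : ℂ) (hy : ‖y‖ ≤ 1 / 2) :
    ‖Phi n y - y ^ (n - 1) / ((n : ℂ) - 1)‖ ≤ 2 * ‖y‖ ^ (n + 1) := by
  obtain ⟨h0, hd⟩ := Phi_spec hn
  have hn1 : ((n - 1 : ℕ) : ℂ) = (n : ℂ) - 1 := by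
    rw [Nat.cast_sub (by omega)]; simp
  have hn10 : (n : ℂ) - 1 ≠ 0 := by
    rw [← hn1]; exact_mod_cast (by omega : n - 1 ≠ 0)
  have hder : ∀ w ∈ closedBall (0 : ℂ) ‖y‖, HasDerivWithinAt
      (fun y => Phi n y - y ^ (n - 1) / ((n : ℂ) - 1))
      (w ^ (n - 2) / (1 - w ^ n) - w ^ (n - 2)) (closedBall (0 : ℂ) ‖y‖) w := by
    intro w hw
    have hw' : ‖w‖ ≤ ‖y‖ := by simpa using hw
    have h1 := hd w (by rw [mem_ball_zero_iff]; linarith)
    have h2 : HasDerivAt (fun y : ℂ => y ^ (n - 1) / ((n : ℂ) - 1)) (w ^ (n - 2)) w := by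
      have h3 := (hasDerivAt_pow (n - 1) w).div_const ((n : ℂ) - 1)
      rw [hn1, show n - 1 - 1 = n - 2 by omega] at h3
      rwa [mul_div_assoc, mul_div_cancel₀ _ hn10] at h3
    exact (h1.sub h2).hasDerivWithinAt
  have hb : ∀ w ∈ closedBall (0 : ℂ) ‖y‖, ‖w ^ (n - 2) / (1 - w ^ n) - w ^ (n - 2)‖ ≤
      2 * ‖y‖ ^ n := by
    intro w hw
    have hw' : ‖w‖ ≤ ‖y‖ := by simpa using hw
    have hw1 : ‖w‖ ≤ 1 / 2 := hw'.trans hy
    have h1 : ‖w ^ n‖ ≤ 1 / 2 := by
      rw [norm_pow]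
      calc ‖w‖ ^ n ≤ ‖w‖ ^ 1 := pow_le_pow_of_le_one (norm_nonneg _) (by linarith) (by omega)
        _ ≤ 1 / 2 := by rw [pow_one]; exact hw1
    have h2 : 1 / 2 ≤ ‖1 - w ^ n‖ := by
      have := norm_sub_norm_le (1 : ℂ) (w ^ n)
      rw [norm_one] at this
      linarith
    have h3 : (1 - w ^ n) ≠ 0 := by
      intro h; rw [h, norm_zero] at h2; norm_num at h2
    have e : w ^ (n - 2) / (1 - w ^ n) - w ^ (n - 2) = w ^ (n - 2) * w ^ n / (1 - w ^ n) := by
      field_simp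
      ring
    rw [e, norm_div, norm_mul, norm_pow, norm_pow, div_le_iff₀ (by linarith)]
    have h4 : ‖w‖ ^ (n - 2) ≤ 1 := pow_le_one₀ (norm_nonneg _) (by linarith)
    have h5 : ‖w‖ ^ n ≤ ‖y‖ ^ n := pow_le_pow_left₀ (norm_nonneg _) hw' n
    have h6 : 0 ≤ ‖w‖ ^ n := by positivity
    have h7 : 0 ≤ ‖y‖ ^ n := by positivity
    calc ‖w‖ ^ (n - 2) * ‖w‖ ^ n ≤ 1 * ‖y‖ ^ n := mul_le_mul h4 h5 h6 zero_le_one
      _ ≤ 2 * ‖y‖ ^ n * ‖1 - w ^ n‖ := by nlinarith
  have := (convex_closedBall (0 : ℂ) ‖y‖).norm_image_sub_le_of_norm_hasDerivWithin_le hder hb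
    (mem_closedBall_self (norm_nonneg _)) (show y ∈ closedBall (0 : ℂ) ‖y‖ by simp)
  simp only [h0, sub_zero, zero_pow (by omega : n - 1 ≠ 0), zero_div] at this
  refine this.trans (le_of_eq ?_)
  rw [pow_succ]
  ring

/-- the time coordinate in the sector between two slits -/
lemma exists_P {n : ℕ} (hn : 2 ≤ n) : ∃ P : ℂ, ∀ (r φ : ℝ), 1 < r → 0 < φ → φ < 2 * Real.pi / n →
    tau n ((r : ℂ) * ee φ) = P + Phi n ((r : ℂ) * ee φ)⁻¹ := by
  have hn0 : 0 < n := by omega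
  obtain ⟨hΦ0, hΦ⟩ := Phi_spec hn
  obtain ⟨R, hR⟩ : ∃ R : Set ℂ, R = {w : ℂ | 0 < w.re} ∩ {w : ℂ | 0 < w.im} ∩
    {w : ℂ | w.im < 2 * Real.pi / n} := ⟨_, rfl⟩
  have hRo : IsOpen R := by
    rw [hR]
    exact ((isOpen_lt continuous_const Complex.continuous_re).inter
      (isOpen_lt continuous_const Complex.continuous_im)).inter
      (isOpen_lt Complex.continuous_im continuous_const)
  have hRc : Convex ℝ R := by
    rw [hR]
    exact ((convex_halfSpace_re_gt 0).inter (convex_halfSpace_im_gt 0)).inter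
      (convex_halfSpace_im_lt _)
  have hexp : ∀ w ∈ R, Complex.exp w ∈ DD n := by
    intro w hw
    rw [hR] at hw
    have h1 := mem_DD_of_sector hn0 (r := Real.exp w.re) (Real.exp_pos _).le hw.1.2 hw.2
    have e : (Real.exp w.re : ℂ) * Complex.exp (w.im * Complex.I) = Complex.exp w := by
      rw [Complex.ofReal_exp, ← Complex.exp_add, Complex.re_add_im]
    rwa [e] at h1
  have hder : ∀ w ∈ R, HasDerivAt (fun w => tau n (Complex.exp w) - Phi n (Complex.exp (-w)))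
      0 w := by
    intro w hw
    have h1 := (deriv_tau hn0 (hexp w hw)).comp w (Complex.hasDerivAt_exp w)
    have hw1 : 0 < w.re := by rw [hR] at hw; exact hw.1.1
    have h2 : Complex.exp (-w) ∈ ball (0 : ℂ) 1 := by
      rw [mem_ball_zero_iff, Complex.norm_exp, Complex.neg_re]
      exact Real.exp_lt_one_iff.mpr (by linarith)
    have h3 : HasDerivAt (fun w : ℂ => Complex.exp (-w)) (-Complex.exp (-w)) w := by
      have := (Complex.hasDerivAt_exp (-w)).comp w (hasDerivAt_neg w)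
      exact this.congr_deriv (by ring)
    have h4 := (hΦ _ h2).comp w h3
    refine (h1.sub h4).congr_deriv ?_
    have hne := sub_ne_of_DD (hexp w hw)
    obtain ⟨v, hv⟩ : ∃ v : ℂ, v = Complex.exp w := ⟨_, rfl⟩
    have hv0 : v ≠ 0 := by rw [hv]; exact Complex.exp_ne_zero w
    rw [Complex.exp_neg, ← hv]
    rw [← hv] at hne
    have h5 : 1 - (v⁻¹) ^ n ≠ 0 := by
      intro h0
      apply hne
      have : v ^ n * (1 - (v⁻¹) ^ n) = 0 := by rw [h0, mul_zero]
      rw [inv_pow, mul_sub, mul_one, mul_inv_cancel₀ (pow_ne_zero _ hv0)] at this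
      linear_combination -this
    have h6 : v ^ n = v ^ (n - 2) * v ^ 2 := by rw [← pow_add]; congr 1; omega
    have h7 : v ^ (n - 2) ≠ 0 := pow_ne_zero _ hv0
    have h8 : v ^ n ≠ 0 := pow_ne_zero _ hv0
    have h9 : (v⁻¹) ^ (n - 2) / (1 - (v⁻¹) ^ n) * -v⁻¹ = v / (1 - v ^ n) := by
      rw [div_mul_eq_mul_div, div_eq_div_iff h5 hne, inv_pow, inv_pow]
      field_simp
      rw [h6]
      ring
    rw [h9]
    ring
  obtain ⟨P, hP⟩ := hRo.exists_is_const_of_deriv_eq_zero hRc.isPreconnected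
    (fun w hw => (hder w hw).differentiableAt.differentiableWithinAt)
    (fun w hw => (hder w hw).deriv)
  refine ⟨P, ?_⟩
  intro r φ hr h0 h1
  obtain ⟨w, hw⟩ : ∃ w : ℂ, w = (Real.log r : ℂ) + φ * Complex.I := ⟨_, rfl⟩
  have hre : w.re = Real.log r := by rw [hw]; simp
  have him : w.im = φ := by rw [hw]; simp
  have hwR : w ∈ R := by
    rw [hR]
    exact ⟨⟨by rw [mem_ofPred_eq, hre]; exact Real.log_pos hr, by rw [mem_ofPred_eq, him]; exact h0⟩,
      by rw [mem_ofPred_eq, him]; exact h1⟩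
  have he : Complex.exp w = (r : ℂ) * ee φ := by
    rw [hw, Complex.exp_add, ← Complex.ofReal_exp, Real.exp_log (by linarith)]
    rfl
  have h2 := hP w hwR
  simp only [Complex.exp_neg, he] at h2
  linear_combination h2

/-- the vertex of the polygon -/
noncomputable def PP (n : ℕ) : ℂ := if h : 2 ≤ n then (exists_P h).choose else 0

lemma PP_spec {n : ℕ} (hn : 2 ≤ n) (r φ : ℝ) (hr : 1 < r) (h0 : 0 < φ) (h1 : φ < 2 * Real.pi / n) :
    tau n ((r : ℂ) * ee φ) = PP n + Phi n ((r : ℂ) * ee φ)⁻¹ := by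
  unfold PP
  rw [dif_pos hn]
  exact (exists_P hn).choose_spec r φ hr h0 h1

lemma ray_lim {n : ℕ} (hn : 2 ≤ n) (φ : ℝ) (h0 : 0 < φ) (h1 : φ < 2 * Real.pi / n) :
    Tendsto (fun r : ℝ => tau n ((r : ℂ) * ee φ)) atTop (𝓝 (PP n)) := by
  have h2 : Tendsto (fun r : ℝ => ((r : ℂ) * ee φ)⁻¹) atTop (𝓝 0) := by
    refine tendsto_inv₀_cobounded.comp ?_
    rw [← tendsto_norm_atTop_iff_cobounded]
    simp only [norm_mul, norm_ee, mul_one, Complex.norm_real]
    exact tendsto_norm_atTop_atTop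
  have h3 := ((Phi_cont hn).comp h2).const_add (PP n)
  rw [add_zero] at h3
  refine h3.congr' ?_
  filter_upwards [eventually_gt_atTop 1] with r hr
  exact (PP_spec hn r φ hr h0 h1).symm

lemma ray_der {n : ℕ} (hn : 0 < n) (r φ α : ℝ) (hv : (r : ℂ) * ee φ ∈ DD n) :
    HasDerivAt (fun r : ℝ => (ee (-α) * tau n ((r : ℂ) * ee φ)).re)
      ((Real.cos (φ - α) - r ^ n * Real.cos ((n - 1) * φ + α)) /
        Complex.normSq (1 - ((r : ℂ) * ee φ) ^ n)) r ∧
    HasDerivAt (fun r : ℝ => (ee (-α) * tau n ((r : ℂ) * ee φ)).im)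
      ((Real.sin (φ - α) + r ^ n * Real.sin ((n - 1) * φ + α)) /
        Complex.normSq (1 - ((r : ℂ) * ee φ) ^ n)) r := by
  have h1 := (ray_deriv hn hv).const_mul (ee (-α))
  have h2 := ray_formula (n := n) r φ α (sub_ne_of_DD hv)
  have e : ee (-α) = Complex.exp (-(α * Complex.I)) := by
    unfold ee; congr 1; push_cast; ring
  have h3 : ee (-α) * (ee φ / (1 - ((r : ℂ) * ee φ) ^ n)) =
      (((Real.cos (φ - α) - r ^ n * Real.cos ((n - 1) * φ + α)) /
        Complex.normSq (1 - ((r : ℂ) * ee φ) ^ n) : ℝ) : ℂ) +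
      (((Real.sin (φ - α) + r ^ n * Real.sin ((n - 1) * φ + α)) /
        Complex.normSq (1 - ((r : ℂ) * ee φ) ^ n) : ℝ) : ℂ) * Complex.I := by
    rw [e]
    unfold ee
    rw [h2]
    push_cast
    ring
  rw [h3] at h1
  constructor
  · have := (Complex.reCLM.hasFDerivAt (x := ee (-α) * tau n ((r : ℂ) * ee φ))).comp_hasDerivAt r h1
    refine this.congr_deriv ?_
    rw [Complex.reCLM_apply]
    simp only [Complex.add_re, Complex.ofReal_re, Complex.mul_re, Complex.I_re, mul_zero,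
      Complex.ofReal_im, Complex.I_im, mul_one, sub_self, add_zero]
  · have := (Complex.imCLM.hasFDerivAt (x := ee (-α) * tau n ((r : ℂ) * ee φ))).comp_hasDerivAt r h1
    refine this.congr_deriv ?_
    rw [Complex.imCLM_apply]
    simp only [Complex.add_im, Complex.ofReal_re, Complex.mul_im, Complex.I_re, mul_zero,
      Complex.ofReal_im, Complex.I_im, mul_one, add_zero, zero_add]

/-- the angle `π / n` -/
noncomputable def al (n : ℕ) : ℝ := Real.pi / n

lemma al_pos {n : ℕ} (hn : 2 ≤ n) : 0 < al n := by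
  unfold al
  have : (0 : ℝ) < n := by exact_mod_cast (by omega : 0 < n)
  have := Real.pi_pos
  positivity

lemma al_le {n : ℕ} (hn : 2 ≤ n) : al n ≤ Real.pi / 2 := by
  unfold al
  have : (2 : ℝ) ≤ n := by exact_mod_cast hn
  have := Real.pi_pos
  gcongr

lemma n_al {n : ℕ} (hn : 2 ≤ n) : n * al n = Real.pi := by
  unfold al
  have : (n : ℝ) ≠ 0 := by exact_mod_cast (by omega : n ≠ 0)
  field_simp

lemma two_al {n : ℕ} (hn : 2 ≤ n) : 2 * Real.pi / n = 2 * al n := by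
  unfold al
  ring

lemma sin_al {n : ℕ} (hn : 2 ≤ n) : 0 < Real.sin (al n) := by
  have := al_pos hn
  have := al_le hn
  exact Real.sin_pos_of_pos_of_lt_pi (by linarith) (by linarith [Real.pi_pos])

lemma cos_al {n : ℕ} (hn : 2 ≤ n) : 0 ≤ Real.cos (al n) := by
  have := al_pos hn
  have := al_le hn
  exact Real.cos_nonneg_of_mem_Icc ⟨by linarith, by linarith⟩

/-- the middle ray -/
theorem mid_ray {n : ℕ} (hn : 2 ≤ n) : ∃ L : ℝ, 0 < L ∧ PP n = (L : ℂ) * ee (al n) ∧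
    ∀ r : ℝ, 0 ≤ r → ∃ x : ℝ, 0 ≤ x ∧ x < L ∧ tau n ((r : ℂ) * ee (al n)) = (x : ℂ) * ee (al n) := by
  have hn0 : 0 < n := by omega
  have ha := al_pos hn
  have hlt : al n < 2 * Real.pi / n := by rw [two_al hn]; linarith
  have hD : ∀ r : ℝ, 0 ≤ r → (r : ℂ) * ee (al n) ∈ DD n := fun r hr =>
    mem_DD_of_sector hn0 hr ha hlt
  obtain ⟨f, hf⟩ : ∃ f : ℝ → ℝ, f = fun r : ℝ => (ee (-al n) * tau n ((r : ℂ) * ee (al n))).re :=
    ⟨_, rfl⟩
  obtain ⟨g, hg⟩ : ∃ g : ℝ → ℝ, g = fun r : ℝ => (ee (-al n) * tau n ((r : ℂ) * ee (al n))).im :=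
    ⟨_, rfl⟩
  have e1 : ((n : ℝ) - 1) * al n + al n = Real.pi := by
    rw [← n_al hn]; ring
  have hfd : ∀ r : ℝ, 0 ≤ r → ∃ c : ℝ, 0 < c ∧ HasDerivAt f c r := by
    intro r hr
    have h1 := (ray_der hn0 r (al n) (al n) (hD r hr)).1
    rw [e1, sub_self, Real.cos_zero, Real.cos_pi] at h1
    refine ⟨_, ?_, by rw [hf]; exact h1⟩
    have h2 : 0 < Complex.normSq (1 - ((r : ℂ) * ee (al n)) ^ n) :=
      Complex.normSq_pos.mpr (sub_ne_of_DD (hD r hr))
    have h3 : 0 ≤ r ^ n := by positivity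
    have h4 : 0 < 1 - r ^ n * -1 := by linarith
    positivity
  have hgd : ∀ r : ℝ, 0 ≤ r → HasDerivAt g 0 r := by
    intro r hr
    have h1 := (ray_der hn0 r (al n) (al n) (hD r hr)).2
    rw [e1, sub_self, Real.sin_zero, Real.sin_pi] at h1
    rw [hg]
    refine h1.congr_deriv ?_
    simp
  have hf0 : f 0 = 0 := by rw [hf]; simp [tau_zero]
  have hg0 : g 0 = 0 := by rw [hg]; simp [tau_zero]
  have hfm : StrictMonoOn f (Ici 0) := by
    refine strictMonoOn_of_deriv_pos (convex_Ici 0) ?_ ?_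
    · intro r hr
      obtain ⟨c, -, h⟩ := hfd r hr
      exact h.continuousAt.continuousWithinAt
    · intro r hr
      rw [interior_Ici] at hr
      obtain ⟨c, hc, h⟩ := hfd r (le_of_lt hr)
      rw [h.deriv]
      exact hc
  have hgc : ∀ r : ℝ, 0 ≤ r → g r = 0 := by
    intro r hr
    have h1 := (convex_Icc (0 : ℝ) r).norm_image_sub_le_of_norm_hasDerivWithin_le (f := g)
      (f' := fun _ => 0) (C := 0) (fun x hx => (hgd x hx.1).hasDerivWithinAt) (fun x hx => by simp)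
      (left_mem_Icc.2 hr) (right_mem_Icc.2 hr)
    rw [hg0, sub_zero, zero_mul] at h1
    exact norm_le_zero_iff.1 h1
  obtain ⟨Lc, hLc⟩ : ∃ Lc : ℂ, Lc = ee (-al n) * PP n := ⟨_, rfl⟩
  have hlim := (ray_lim hn (al n) ha hlt).const_mul (ee (-al n))
  rw [← hLc] at hlim
  have hfl : Tendsto f atTop (𝓝 Lc.re) := by
    rw [hf]; exact (Complex.continuous_re.tendsto _).comp hlim
  have hgl : Tendsto g atTop (𝓝 Lc.im) := by
    rw [hg]; exact (Complex.continuous_im.tendsto _).comp hlim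
  have hLim : Lc.im = 0 := by
    refine tendsto_nhds_unique hgl (tendsto_const_nhds.congr' ?_)
    filter_upwards [eventually_ge_atTop 0] with r hr
    exact (hgc r hr).symm
  have hlt2 : ∀ r : ℝ, 0 ≤ r → f r < Lc.re := by
    intro r hr
    have h1 : f r < f (r + 1) := hfm hr (by show (0:ℝ) ≤ r + 1; linarith) (by linarith)
    have h2 : f (r + 1) ≤ Lc.re := by
      refine ge_of_tendsto hfl ?_
      filter_upwards [eventually_ge_atTop (r + 1)] with s hs
      exact hfm.monotoneOn (show (0:ℝ) ≤ r + 1 by linarith) (show (0:ℝ) ≤ s by linarith) hs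
    linarith
  have hLr : Lc = (Lc.re : ℂ) := by
    apply Complex.ext
    · simp
    · rw [hLim]; simp
  have hcan : ∀ z : ℂ, ee (al n) * (ee (-al n) * z) = z := by
    intro z
    rw [ee_neg, ← mul_assoc, mul_inv_cancel₀ (ee_ne _), one_mul]
  refine ⟨Lc.re, by have := hlt2 0 le_rfl; rwa [hf0] at this, ?_, ?_⟩
  · have h1 := hcan (PP n)
    rw [← hLc, hLr] at h1
    rw [← h1]
    ring
  · intro r hr
    refine ⟨f r, ?_, hlt2 r hr, ?_⟩
    · rw [← hf0]
      exact hfm.monotoneOn (mem_Ici.2 (le_refl (0:ℝ))) hr hr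
    · have h1 : ee (-al n) * tau n ((r : ℂ) * ee (al n)) = (f r : ℂ) := by
        apply Complex.ext
        · rw [hf]; simp
        · have h5 : (ee (-al n) * tau n ((r : ℂ) * ee (al n))).im = 0 := by
            have := hgc r hr
            rw [hg] at this
            exact this
          rw [h5, Complex.ofReal_im]
      rw [← hcan (tau n ((r : ℂ) * ee (al n))), h1]
      ring

/-- the imaginary part is nonnegative in the upper half of the sector -/
lemma im_nonneg {n : ℕ} (hn : 2 ≤ n) (r φ : ℝ) (hr : 0 ≤ r) (h0 : 0 < φ) (h1 : φ ≤ al n) :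
    0 ≤ (tau n ((r : ℂ) * ee φ)).im := by
  have hn0 : 0 < n := by omega
  have ha := al_pos hn
  have hn2 : (2 : ℝ) ≤ n := by exact_mod_cast hn
  have hlt : φ < 2 * Real.pi / n := by rw [two_al hn]; linarith
  have hD : ∀ r : ℝ, 0 ≤ r → (r : ℂ) * ee φ ∈ DD n := fun r hr => mem_DD_of_sector hn0 hr h0 hlt
  obtain ⟨g, hg⟩ : ∃ g : ℝ → ℝ, g = fun r : ℝ => (ee (-0) * tau n ((r : ℂ) * ee φ)).im := ⟨_, rfl⟩
  have hgm : MonotoneOn g (Ici 0) := by
    refine monotoneOn_of_deriv_nonneg (convex_Ici 0) ?_ ?_ ?_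
    · intro r hr
      rw [hg]
      exact (ray_der hn0 r φ 0 (hD r hr)).2.continuousAt.continuousWithinAt
    · intro r hr
      rw [interior_Ici] at hr
      rw [hg]
      exact (ray_der hn0 r φ 0 (hD r (le_of_lt hr))).2.differentiableAt.differentiableWithinAt
    · intro r hr
      rw [interior_Ici] at hr
      have hr' : (0 : ℝ) < r := hr
      rw [hg, (ray_der hn0 r φ 0 (hD r hr'.le)).2.deriv]
      have s1 : 0 ≤ Real.sin (φ - 0) := by
        rw [sub_zero]
        exact Real.sin_nonneg_of_nonneg_of_le_pi h0.le (by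
          have := al_le hn; have := Real.pi_pos; linarith)
      have s2 : 0 ≤ Real.sin (((n : ℝ) - 1) * φ + 0) := by
        rw [add_zero]
        refine Real.sin_nonneg_of_nonneg_of_le_pi (by nlinarith) ?_
        have : ((n : ℝ) - 1) * φ ≤ (n - 1) * al n := by
          apply mul_le_mul_of_nonneg_left h1; linarith
        have := n_al hn
        nlinarith
      have : 0 ≤ Complex.normSq (1 - ((r : ℂ) * ee φ) ^ n) := Complex.normSq_nonneg _
      positivity
  have h2 := hgm (mem_Ici.2 (le_refl (0:ℝ))) (show r ∈ Ici (0:ℝ) from hr) hr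
  rw [hg] at h2
  simp only [neg_zero, ee_zero, one_mul, Complex.ofReal_zero, zero_mul, tau_zero,
    Complex.zero_im] at h2
  exact h2

lemma im_nonpos {n : ℕ} (hn : 2 ≤ n) (r φ : ℝ) (hr : 0 ≤ r) (h0 : 0 < φ) (h1 : φ ≤ al n) :
    (ee (-al n) * tau n ((r : ℂ) * ee φ)).im ≤ 0 := by
  have hn0 : 0 < n := by omega
  have ha := al_pos hn
  have hn2 : (2 : ℝ) ≤ n := by exact_mod_cast hn
  have hlt : φ < 2 * Real.pi / n := by rw [two_al hn]; linarith
  have hD : ∀ r : ℝ, 0 ≤ r → (r : ℂ) * ee φ ∈ DD n := fun r hr => mem_DD_of_sector hn0 hr h0 hlt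
  obtain ⟨g, hg⟩ : ∃ g : ℝ → ℝ, g = fun r : ℝ => (ee (-al n) * tau n ((r : ℂ) * ee φ)).im := ⟨_, rfl⟩
  obtain ⟨N, hN⟩ : ∃ N : ℝ → ℝ, N = fun r : ℝ => Real.sin (φ - al n) + r ^ n *
    Real.sin ((n - 1) * φ + al n) := ⟨_, rfl⟩
  have s2 : 0 ≤ Real.sin (((n : ℝ) - 1) * φ + al n) := by
    refine Real.sin_nonneg_of_nonneg_of_le_pi (by nlinarith) ?_
    have : ((n : ℝ) - 1) * φ ≤ (n - 1) * al n := by
      apply mul_le_mul_of_nonneg_left h1; linarith
    have := n_al hn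
    nlinarith
  have hNm : ∀ x y : ℝ, 0 ≤ x → x ≤ y → N x ≤ N y := by
    intro x y hx hxy
    rw [hN]
    have : x ^ n ≤ y ^ n := pow_le_pow_left₀ hx hxy n
    have := mul_le_mul_of_nonneg_right this s2
    simp only
    linarith
  have hgd : ∀ r : ℝ, 0 ≤ r → HasDerivAt g (N r / Complex.normSq (1 - ((r : ℂ) * ee φ) ^ n)) r := by
    intro r hr
    rw [hg, hN]
    exact (ray_der hn0 r φ (al n) (hD r hr)).2
  have hg0 : g 0 = 0 := by rw [hg]; simp [tau_zero]
  have hgl : Tendsto g atTop (𝓝 0) := by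
    obtain ⟨L, -, hL, -⟩ := mid_ray hn
    have h2 := (ray_lim hn φ h0 hlt).const_mul (ee (-al n))
    have h3 : ee (-al n) * PP n = (L : ℂ) := by
      rw [hL, ee_neg]
      field_simp [ee_ne]
    rw [h3] at h2
    have h4 := (Complex.continuous_im.tendsto _).comp h2
    rw [Complex.ofReal_im] at h4
    rw [hg]
    exact h4
  have hgoal : g r ≤ 0 := by
    rcases le_or_gt (N r) 0 with h | h
    · have hanti : AntitoneOn g (Icc 0 r) := by
        refine antitoneOn_of_deriv_nonpos (convex_Icc 0 r) ?_ ?_ ?_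
        · intro s hs
          exact (hgd s hs.1).continuousAt.continuousWithinAt
        · intro s hs
          rw [interior_Icc] at hs
          exact (hgd s hs.1.le).differentiableAt.differentiableWithinAt
        · intro s hs
          rw [interior_Icc] at hs
          rw [(hgd s hs.1.le).deriv]
          exact div_nonpos_of_nonpos_of_nonneg ((hNm s r hs.1.le hs.2.le).trans h)
            (Complex.normSq_nonneg _)
      have := hanti (left_mem_Icc.2 hr) (right_mem_Icc.2 hr) hr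
      rwa [hg0] at this
    · have hmono : MonotoneOn g (Ici r) := by
        refine monotoneOn_of_deriv_nonneg (convex_Ici r) ?_ ?_ ?_
        · intro s hs
          exact (hgd s (hr.trans hs)).continuousAt.continuousWithinAt
        · intro s hs
          rw [interior_Ici] at hs
          exact (hgd s (hr.trans (le_of_lt hs))).differentiableAt.differentiableWithinAt
        · intro s hs
          rw [interior_Ici] at hs
          rw [(hgd s (hr.trans (le_of_lt hs))).deriv]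
          exact div_nonneg (h.le.trans (hNm r s hr (le_of_lt hs))) (Complex.normSq_nonneg _)
      refine ge_of_tendsto hgl ?_
      filter_upwards [eventually_ge_atTop r] with s hs
      exact hmono (mem_Ici.2 (le_refl r)) hs hs
  rw [hg] at hgoal
  exact hgoal

end Run7.h904.SP
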