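import Mathlib
import Pool.Agent.Run7.h904.S2Inf

set_option autoImplicit false

open Topology Filter Metric Set

namespace Run7.h904.SP

lemma sin_cond {α ψ : ℝ} (h0 : 0 < α) (h1 : α ≤ Real.pi / 2) (hl : -Real.pi < ψ) (hr : ψ ≤ Real.pi)
    (ha : 0 ≤ Real.sin (ψ + α)) (hb : Real.sin (ψ - α) ≤ 0) : |ψ| ≤ α := by
  have hpi := Real.pi_pos
  rw [abs_le]
  constructor
  · by_contra hcon
    push Not at hcon
    have : Real.sin (ψ + α) < 0 := Real.sin_neg_of_neg_of_neg_pi_lt (by linarith) (by linarith)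
    linarith
  · by_contra hcon
    push Not at hcon
    have : 0 < Real.sin (ψ - α) := Real.sin_pos_of_pos_of_lt_pi (by linarith) (by linarith)
    linarith

lemma sin_cond' {α ψ : ℝ} (h0 : 0 < α) (h1 : α ≤ Real.pi / 2) (hl : -Real.pi < ψ) (hr : ψ ≤ Real.pi)
    (ha : 0 < Real.sin (ψ + α)) (hb : Real.sin (ψ - α) < 0) : |ψ| < α := by
  have h := sin_cond h0 h1 hl hr ha.le hb.le
  refine lt_of_le_of_ne h ?_
  intro he
  rcases abs_choice ψ with h2 | h2
  · rw [h2] at he
    rw [he, sub_self, Real.sin_zero] at hb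
    exact lt_irrefl _ hb
  · rw [h2] at he
    rw [← he, add_neg_cancel, Real.sin_zero] at ha
    exact lt_irrefl _ ha

lemma im_ee_mul (θ : ℝ) (z : ℂ) : (ee θ * z).im = ‖z‖ * Real.sin (z.arg + θ) := by
  conv_lhs => rw [polar z]
  rw [show ee θ * ((‖z‖ : ℂ) * ee z.arg) = (‖z‖ : ℂ) * ee (z.arg + θ) by rw [ee_add]; ring,
    Complex.im_ofReal_mul , im_ee]

lemma re_mul_ee (θ : ℝ) (z : ℂ) : (z * ee θ).re = ‖z‖ * Real.cos (z.arg + θ) := by
  conv_lhs => rw [polar z]
  rw [show ((‖z‖ : ℂ) * ee z.arg) * ee θ = (‖z‖ : ℂ) * ee (z.arg + θ) by rw [ee_add]; ring,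
    Complex.re_ofReal_mul , re_ee]

/-- the closed wedge -/
def InW (n : ℕ) (z : ℂ) : Prop := 0 ≤ (ee (al n) * z).im ∧ (ee (-al n) * z).im ≤ 0

/-- the open wedge -/
def InWo (n : ℕ) (z : ℂ) : Prop := 0 < (ee (al n) * z).im ∧ (ee (-al n) * z).im < 0

lemma arg_of_InW {n : ℕ} (hn : 2 ≤ n) {z : ℂ} (hz : z ≠ 0) (h : InW n z) : |z.arg| ≤ al n := by
  obtain ⟨h1, h2⟩ := h
  rw [im_ee_mul] at h1 h2
  have hz' : 0 < ‖z‖ := norm_pos_iff.mpr hz
  refine sin_cond (al_pos hn) (al_le hn) (Complex.neg_pi_lt_arg z) (Complex.arg_le_pi z) ?_ ?_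
  · exact nonneg_of_mul_nonneg_right h1 hz'
  · rw [← sub_eq_add_neg] at h2
    by_contra hcon
    push Not at hcon
    have := mul_pos hz' hcon
    linarith

lemma arg_of_InWo {n : ℕ} (hn : 2 ≤ n) {z : ℂ} (h : InWo n z) : z ≠ 0 ∧ |z.arg| < al n := by
  obtain ⟨h1, h2⟩ := h
  have hz : z ≠ 0 := by
    rintro rfl
    simp at h1
  rw [im_ee_mul] at h1 h2
  have hz' : 0 < ‖z‖ := norm_pos_iff.mpr hz
  refine ⟨hz, sin_cond' (al_pos hn) (al_le hn) (Complex.neg_pi_lt_arg z) (Complex.arg_le_pi z) ?_ ?_⟩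
  · exact pos_of_mul_pos_right h1 hz'.le
  · rw [← sub_eq_add_neg] at h2
    by_contra hcon
    push Not at hcon
    have := mul_nonneg hz'.le hcon
    linarith

lemma InW_of_arg {n : ℕ} (hn : 2 ≤ n) {z : ℂ} (h : |z.arg| ≤ al n) : InW n z := by
  have h1 := al_pos hn
  have h2 := al_le hn
  have hpi := Real.pi_pos
  rw [abs_le] at h
  constructor
  · rw [im_ee_mul]
    exact mul_nonneg (norm_nonneg _) (Real.sin_nonneg_of_nonneg_of_le_pi (by linarith) (by linarith))
  · rw [im_ee_mul]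
    exact mul_nonpos_of_nonneg_of_nonpos (norm_nonneg _)
      (Real.sin_nonpos_of_nonpos_of_neg_pi_le (by linarith) (by linarith))

lemma mu_param {n : ℕ} (hn : 2 ≤ n) {ζ : ℂ} (hζ : ζ ∈ mu n) :
    ∃ k : ℕ, k < n ∧ ζ = ee (2 * k * al n) := by
  haveI : NeZero n := ⟨by omega⟩
  obtain ⟨k, hk, h⟩ := (Complex.isPrimitiveRoot_exp n (by omega)).eq_pow_of_pow_eq_one
    ((mem_mu (by omega) ζ).1 hζ)
  refine ⟨k, hk, ?_⟩
  rw [← h, ← Complex.exp_nat_mul]
  unfold ee al
  congr 1
  push_cast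
  ring

lemma ee_mem_mu {n : ℕ} (hn : 2 ≤ n) (k : ℕ) : ee (2 * k * al n) ∈ mu n := by
  rw [mem_mu (by omega), ee_pow, show (n : ℝ) * (2 * k * al n) = k * (2 * (n * al n)) by ring,
    n_al hn]
  unfold ee
  have : ((k * (2 * Real.pi) : ℝ) : ℂ) * Complex.I = (k : ℂ) * (2 * Real.pi * Complex.I) := by
    push_cast; ring
  rw [this]
  exact Complex.exp_nat_mul_two_pi_mul_I k

lemma ee_two_al_mem {n : ℕ} (hn : 2 ≤ n) : ee (2 * al n) ∈ mu n := by
  have := ee_mem_mu hn 1
  rwa [Nat.cast_one, mul_one] at this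

lemma cos_diff (a b : ℝ) : Real.cos a - Real.cos (a + 2 * b) = 2 * Real.sin (a + b) * Real.sin b := by
  rw [Real.cos_sub_cos, show (a + (a + 2 * b)) / 2 = a + b by ring,
    show (a - (a + 2 * b)) / 2 = -b by ring, Real.sin_neg]
  ring

lemma vor {n : ℕ} (hn : 2 ≤ n) {z ζ : ℂ} (h : InW n z) (hζ : ζ ∈ mu n) : (z * ζ).re ≤ z.re := by
  rcases eq_or_ne z 0 with rfl | hz
  · simp
  obtain ⟨k, hk, rfl⟩ := mu_param hn hζ
  have h1 := arg_of_InW hn hz h
  rw [abs_le] at h1
  have hpi := Real.pi_pos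
  have ha := al_pos hn
  have hna := n_al hn
  rcases Nat.eq_zero_or_pos k with rfl | hk0
  · simp [ee_zero]
  have e1 : z.re = ‖z‖ * Real.cos z.arg := by
    have := re_mul_ee 0 z
    rwa [ee_zero, mul_one, add_zero] at this
  rw [re_mul_ee, e1]
  refine mul_le_mul_of_nonneg_left ?_ (norm_nonneg _)
  have e2 := cos_diff z.arg (k * al n)
  rw [show z.arg + 2 * (k * al n) = z.arg + 2 * k * al n by ring] at e2
  have hk1 : (1 : ℝ) ≤ k := by exact_mod_cast hk0
  have hk2 : (k : ℝ) + 1 ≤ n := by exact_mod_cast hk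
  have k1 : al n ≤ k * al n := by nlinarith
  have k2 : k * al n + al n ≤ Real.pi := by nlinarith
  have s1 : 0 ≤ Real.sin (z.arg + k * al n) :=
    Real.sin_nonneg_of_nonneg_of_le_pi (by linarith) (by linarith)
  have s2 : 0 ≤ Real.sin (k * al n) :=
    Real.sin_nonneg_of_nonneg_of_le_pi (by linarith) (by linarith)
  have := mul_nonneg s1 s2
  linarith

lemma vor' {n : ℕ} (hn : 2 ≤ n) {z ζ : ℂ} (h : InWo n z) (hζ : ζ ∈ mu n) (hne : ζ ≠ 1) :
    (z * ζ).re < z.re := by
  obtain ⟨k, hk, rfl⟩ := mu_param hn hζ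
  obtain ⟨hz, h1⟩ := arg_of_InWo hn h
  rw [abs_lt] at h1
  have hpi := Real.pi_pos
  have ha := al_pos hn
  have hna := n_al hn
  rcases Nat.eq_zero_or_pos k with rfl | hk0
  · exact absurd (by simp [ee_zero]) hne
  have e1 : z.re = ‖z‖ * Real.cos z.arg := by
    have := re_mul_ee 0 z
    rwa [ee_zero, mul_one, add_zero] at this
  rw [re_mul_ee, e1]
  refine mul_lt_mul_of_pos_left ?_ (norm_pos_iff.mpr hz)
  have e2 := cos_diff z.arg (k * al n)
  rw [show z.arg + 2 * (k * al n) = z.arg + 2 * k * al n by ring] at e2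
  have hk1 : (1 : ℝ) ≤ k := by exact_mod_cast hk0
  have hk2 : (k : ℝ) + 1 ≤ n := by exact_mod_cast hk
  have k1 : al n ≤ k * al n := by nlinarith
  have k2 : k * al n + al n ≤ Real.pi := by nlinarith
  have s1 : 0 < Real.sin (z.arg + k * al n) :=
    Real.sin_pos_of_pos_of_lt_pi (by linarith) (by linarith)
  have s2 : 0 < Real.sin (k * al n) :=
    Real.sin_pos_of_pos_of_lt_pi (by linarith) (by linarith)
  have := mul_pos s1 s2
  linarith

lemma arg_of_vor {n : ℕ} (hn : 2 ≤ n) {z : ℂ} (hz : z ≠ 0) (h : ∀ ζ ∈ mu n, (z * ζ).re ≤ z.re) :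
    |z.arg| ≤ al n := by
  have ha := al_pos hn
  have hs := sin_al hn
  have hz' : 0 < ‖z‖ := norm_pos_iff.mpr hz
  have e1 : z.re = ‖z‖ * Real.cos z.arg := by
    have := re_mul_ee 0 z
    rwa [ee_zero, mul_one, add_zero] at this
  have h1 := h _ (ee_two_al_mem hn)
  have h2 := h _ (inv_mem_mu (by omega) (ee_two_al_mem hn))
  rw [← ee_neg] at h2
  rw [re_mul_ee, e1] at h1 h2
  have h1' := le_of_mul_le_mul_left h1 hz'
  have h2' := le_of_mul_le_mul_left h2 hz'
  have e2 := cos_diff z.arg (al n)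
  have e3 := cos_diff z.arg (-al n)
  rw [Real.sin_neg, ← sub_eq_add_neg, show z.arg + 2 * -al n = z.arg + -(2 * al n) by ring] at e3
  refine sin_cond ha (al_le hn) (Complex.neg_pi_lt_arg z) (Complex.arg_le_pi z) ?_ ?_
  · by_contra hcon
    push Not at hcon
    nlinarith
  · by_contra hcon
    push Not at hcon
    nlinarith

/-- rotation into the sector around the positive axis -/
lemma exists_rot {n : ℕ} (hn : 2 ≤ n) {v : ℂ} (hv : v ≠ 0) : ∃ ζ ∈ mu n, |(v * ζ).arg| ≤ al n := by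
  have hne : (mu n).Nonempty := ⟨_, ee_two_al_mem hn⟩
  obtain ⟨ζ, hζ, hmax⟩ := Finset.exists_max_image (mu n) (fun ζ => (v * ζ).re) hne
  refine ⟨ζ, hζ, arg_of_vor hn (mul_ne_zero hv (ne_zero_mu (by omega) hζ)) ?_⟩
  intro η hη
  have := hmax (ζ * η) (mul_mem_mu (by omega) hζ hη)
  rwa [← mul_assoc] at this

lemma InW_conj {n : ℕ} {z : ℂ} (h : InW n z) : InW n ((starRingEnd ℂ) z) := by
  obtain ⟨h1, h2⟩ := h
  constructor
  · have e : ee (al n) * (starRingEnd ℂ) z = (starRingEnd ℂ) (ee (-al n) * z) := by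
      rw [map_mul, ee_conj, neg_neg]
    rw [e, Complex.conj_im]
    linarith
  · have e : ee (-al n) * (starRingEnd ℂ) z = (starRingEnd ℂ) (ee (al n) * z) := by
      rw [map_mul, ee_conj]
    rw [e, Complex.conj_im]
    linarith

/-- the sector is mapped into the wedge -/
theorem wedge {n : ℕ} (hn : 2 ≤ n) {v : ℂ} (hv : v ∈ DD n) (h : |v.arg| ≤ al n) :
    InW n (tau n v) := by
  have hn0 : 0 < n := by omega
  have ha := al_pos hn
  have key : ∀ v : ℂ, v ∈ DD n → 0 < v.arg → v.arg ≤ al n → InW n (tau n v) := by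
    intro v hv h0 h1
    have e := polar v
    have i1 := im_nonneg hn ‖v‖ v.arg (norm_nonneg _) h0 h1
    have i2 := im_nonpos hn ‖v‖ v.arg (norm_nonneg _) h0 h1
    rw [← e] at i1 i2
    refine ⟨?_, i2⟩
    have hs := sin_al hn
    have hc := cos_al hn
    have e1 : (ee (al n) * tau n v).im = Real.cos (al n) * (tau n v).im +
        Real.sin (al n) * (tau n v).re := by
      rw [Complex.mul_im, re_ee, im_ee]
    have e2 : (ee (-al n) * tau n v).im = Real.cos (al n) * (tau n v).im -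
        Real.sin (al n) * (tau n v).re := by
      rw [Complex.mul_im, re_ee, im_ee, Real.cos_neg, Real.sin_neg]
      ring
    rw [e1]
    rw [e2] at i2
    have := mul_nonneg hc i1
    nlinarith
  rw [abs_le] at h
  rcases lt_trichotomy v.arg 0 with h0 | h0 | h0
  · have hvc : (starRingEnd ℂ) v ∈ DD n := conj_mem_DD.2 hv
    have harg : ((starRingEnd ℂ) v).arg = -v.arg := by
      rw [Complex.arg_conj, if_neg]
      intro hp
      have := Real.pi_pos
      linarith
    have h2 := key _ hvc (by rw [harg]; linarith) (by rw [harg]; linarith [h.1])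
    rw [tau_conj hn0 hv] at h2
    have h3 := InW_conj h2
    rwa [Complex.conj_conj] at h3
  · -- positive real axis
    have e : v = (‖v‖ : ℂ) * ee 0 := by
      have := polar v
      rwa [h0] at this
    obtain ⟨r, hr⟩ : ∃ r : ℝ, r = ‖v‖ := ⟨_, rfl⟩
    have hr0 : 0 ≤ r := by rw [hr]; exact norm_nonneg _
    rw [← hr] at e
    have hD : ∀ s : ℝ, 0 ≤ s → s ≤ r → (s : ℂ) * ee 0 ∈ DD n := by
      intro s hs0 hs1
      rcases eq_or_lt_of_le hr0 with h1 | h1
      · have : s = 0 := by linarith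
        rw [this]
        simpa using zero_mem_DD hn0
      · have h2 := smul_mem_DD hn0 hv (r := s / r) (by positivity) (by
          rw [div_le_one h1]; exact hs1)
        rw [e] at h2
        have e3 : ((s / r : ℝ) : ℂ) * ((r : ℂ) * ee 0) = (s : ℂ) * ee 0 := by
          have : (r : ℂ) ≠ 0 := by exact_mod_cast h1.ne'
          push_cast
          field_simp
        rwa [e3] at h2
    have hlt : ∀ s : ℝ, 0 ≤ s → s ≤ r → s ^ n ≤ 1 := by
      intro s hs0 hs1
      by_contra hcon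
      push Not at hcon
      have h1 := hD s hs0 hs1
      have h2 : 1 - ((s : ℂ) * ee 0) ^ n ∈ Complex.slitPlane := h1
      have e4 : 1 - ((s : ℂ) * ee 0) ^ n = ((1 - s ^ n : ℝ) : ℂ) := by
        rw [ee_zero]; push_cast; ring
      rw [e4, Complex.mem_slitPlane_iff, Complex.ofReal_re, Complex.ofReal_im] at h2
      rcases h2 with h2 | h2
      · linarith
      · exact h2 rfl
    obtain ⟨f, hf⟩ : ∃ f : ℝ → ℝ, f = fun s : ℝ => (ee (-0) * tau n ((s : ℂ) * ee 0)).re := ⟨_, rfl⟩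
    obtain ⟨g, hg⟩ : ∃ g : ℝ → ℝ, g = fun s : ℝ => (ee (-0) * tau n ((s : ℂ) * ee 0)).im := ⟨_, rfl⟩
    have hfm : MonotoneOn f (Icc 0 r) := by
      refine monotoneOn_of_deriv_nonneg (convex_Icc 0 r) ?_ ?_ ?_
      · intro s hs
        rw [hf]
        exact (ray_der hn0 s 0 0 (hD s hs.1 hs.2)).1.continuousAt.continuousWithinAt
      · intro s hs
        rw [interior_Icc] at hs
        rw [hf]
        exact (ray_der hn0 s 0 0 (hD s hs.1.le hs.2.le)).1.differentiableAt.differentiableWithinAt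
      · intro s hs
        rw [interior_Icc] at hs
        rw [hf, (ray_der hn0 s 0 0 (hD s hs.1.le hs.2.le)).1.deriv]
        refine div_nonneg ?_ (Complex.normSq_nonneg _)
        rw [sub_zero, mul_zero, add_zero, Real.cos_zero, mul_one]
        linarith [hlt s hs.1.le hs.2.le]
    have hgc : g r = 0 := by
      have h1 := (convex_Icc (0 : ℝ) r).norm_image_sub_le_of_norm_hasDerivWithin_le (f := g)
        (f' := fun _ => 0) (C := 0) (fun s hs => by
          have h2 := (ray_der hn0 s 0 0 (hD s hs.1 hs.2)).2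
          rw [hg]
          refine (h2.congr_deriv ?_).hasDerivWithinAt
          rw [sub_zero, mul_zero, add_zero, Real.sin_zero, mul_zero, add_zero, zero_div])
        (fun x hx => by simp) (left_mem_Icc.2 hr0) (right_mem_Icc.2 hr0)
      have hg0 : g 0 = 0 := by rw [hg]; simp [tau_zero]
      rw [hg0, sub_zero, zero_mul] at h1
      exact norm_le_zero_iff.1 h1
    have hfr : 0 ≤ f r := by
      have h1 := hfm (left_mem_Icc.2 hr0) (right_mem_Icc.2 hr0) hr0
      have hf0 : f 0 = 0 := by rw [hf]; simp [tau_zero]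
      rwa [hf0] at h1
    have hre : 0 ≤ (tau n v).re := by
      rw [hf] at hfr
      simp only [neg_zero, ee_zero, one_mul, mul_one] at hfr
      rw [e, ee_zero, mul_one]
      exact hfr
    have him : (tau n v).im = 0 := by
      rw [hg] at hgc
      simp only [neg_zero, ee_zero, one_mul, mul_one] at hgc
      rw [e, ee_zero, mul_one]
      exact hgc
    have hs := sin_al hn
    constructor
    · rw [Complex.mul_im, re_ee, im_ee, him, mul_zero, zero_add]
      positivity
    · rw [Complex.mul_im, re_ee, im_ee, him, mul_zero, zero_add, Real.sin_neg]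
      have := mul_nonneg hs.le hre
      linarith
  · exact key v hv h0 h.2

/-- points with time coordinate in the open wedge are in the open sector -/
theorem sector_of_wedge {n : ℕ} (hn : 2 ≤ n) {v : ℂ} (hv : v ∈ DD n) (h : InWo n (tau n v)) :
    v ≠ 0 ∧ |v.arg| < al n := by
  have hn0 : 0 < n := by omega
  have hv0 : v ≠ 0 := by
    rintro rfl
    rw [tau_zero] at h
    have := h.1
    simp at this
  refine ⟨hv0, ?_⟩
  obtain ⟨ζ, hζ, harg⟩ := exists_rot hn hv0
  have hu : v * ζ ∈ DD n := by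
    rw [mul_comm]
    exact (mul_mem_DD hn0 hζ).2 hv
  have hτ : tau n (v * ζ) = ζ * tau n v := by rw [mul_comm v ζ, tau_mul hn0 hζ]
  have h1 := wedge hn hu harg
  have h2 := vor hn h1 (inv_mem_mu hn0 hζ)
  have hζ0 := ne_zero_mu hn0 hζ
  rw [hτ, show ζ * tau n v * ζ⁻¹ = tau n v by field_simp] at h2
  have hζ1 : ζ = 1 := by
    by_contra hne
    have := vor' hn h hζ hne
    rw [mul_comm] at this
    linarith
  rw [hζ1, mul_one] at harg
  refine lt_of_le_of_ne harg ?_
  intro he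
  have hmid : ∀ u : ℂ, u.arg = al n → (ee (-al n) * tau n u).im = 0 := by
    intro u hu
    obtain ⟨L, -, -, hL⟩ := mid_ray hn
    obtain ⟨x, -, -, hx⟩ := hL ‖u‖ (norm_nonneg _)
    have e := polar u
    rw [hu] at e
    rw [e, hx, ee_neg, show (ee (al n))⁻¹ * ((x : ℂ) * ee (al n)) = x by
      field_simp [ee_ne], Complex.ofReal_im]
  rcases abs_choice v.arg with h3 | h3
  · rw [h3] at he
    have := hmid v he
    have := h.2
    linarith
  · rw [h3] at he
    have harg' : ((starRingEnd ℂ) v).arg = al n := by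
      rw [Complex.arg_conj, if_neg, he]
      intro hp
      have := al_pos hn
      have := Real.pi_pos
      linarith
    have h4 := hmid _ harg'
    rw [tau_conj hn0 hv, show ee (-al n) * (starRingEnd ℂ) (tau n v) =
      (starRingEnd ℂ) (ee (al n) * tau n v) by rw [map_mul, ee_conj], Complex.conj_im] at h4
    have := h.1
    linarith

end Run7.h904.SP
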