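import Mathlib
import Pool.Agent.Run7.h904.S3Wedge

set_option autoImplicit false

open Topology Filter Metric Set

namespace Run7.h904.SP

/-- the boundary rays of the strips -/
def Ry (n : ℕ) : Set ℂ :=
  {z | ∃ ζ ∈ mu n, (PP n).re ≤ (z * ζ).re ∧ |(z * ζ).im| = (PP n).im}

lemma PP_im_pos {n : ℕ} (hn : 2 ≤ n) : 0 < (PP n).im := by
  obtain ⟨L, hL, h, -⟩ := mid_ray hn
  rw [h, Complex.im_ofReal_mul, im_ee]
  exact mul_pos hL (sin_al hn)

lemma PP_re_nonneg {n : ℕ} (hn : 2 ≤ n) : 0 ≤ (PP n).re := by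
  obtain ⟨L, hL, h, -⟩ := mid_ray hn
  rw [h, Complex.re_ofReal_mul, re_ee]
  exact mul_nonneg hL.le (cos_al hn)

lemma Ry_rot {n : ℕ} (hn : 2 ≤ n) {z ζ : ℂ} (hζ : ζ ∈ mu n) (h : ζ * z ∈ Ry n) : z ∈ Ry n := by
  obtain ⟨η, hη, h1, h2⟩ := h
  refine ⟨ζ * η, mul_mem_mu (by omega) hζ hη, ?_, ?_⟩
  · rwa [show z * (ζ * η) = ζ * z * η by ring]
  · rwa [show z * (ζ * η) = ζ * z * η by ring]

/-- polar form far away -/
lemma far {n : ℕ} (hn : 2 ≤ n) {v : ℂ} (hv : v ∈ DD n) (h1 : 1 < ‖v‖) :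
    ∃ ζ ∈ mu n, ∃ φ : ℝ, 0 < φ ∧ φ < 2 * al n ∧ v * ζ = (‖v‖ : ℂ) * ee φ := by
  have hn0 : 0 < n := by omega
  have ha := al_pos hn
  have hv0 : v ≠ 0 := by
    rintro rfl
    rw [norm_zero] at h1
    linarith
  obtain ⟨ζ, hζ, harg⟩ := exists_rot hn hv0
  have hnorm : ‖v * ζ‖ = ‖v‖ := by rw [norm_mul, norm_mu hn0 hζ, mul_one]
  have e := polar (v * ζ)
  rw [hnorm] at e
  rw [abs_le] at harg
  rcases lt_trichotomy (v * ζ).arg 0 with h | h | h
  · refine ⟨ζ * ee (2 * al n), mul_mem_mu hn0 hζ (ee_two_al_mem hn), (v * ζ).arg + 2 * al n,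
      by linarith, by linarith, ?_⟩
    rw [ee_add, ← mul_assoc (‖v‖ : ℂ), ← e, mul_assoc]
  · exfalso
    rw [h, ee_zero, mul_one] at e
    have h2 : v * ζ ∈ DD n := by
      rw [mul_comm]; exact (mul_mem_DD hn0 hζ).2 hv
    rw [e] at h2
    have h3 : 1 - ((‖v‖ : ℝ) : ℂ) ^ n ∈ Complex.slitPlane := h2
    have h4 : 1 < ‖v‖ ^ n := one_lt_pow₀ h1 hn0.ne'
    rw [← Complex.ofReal_pow, ← Complex.ofReal_one, ← Complex.ofReal_sub,
      Complex.ofReal_mem_slitPlane] at h3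
    linarith
  · exact ⟨ζ, hζ, (v * ζ).arg, h, by linarith, e⟩

lemma tau_far {n : ℕ} (hn : 2 ≤ n) {v : ℂ} (hv : v ∈ DD n) (h1 : 1 < ‖v‖) :
    ∃ ζ ∈ mu n, tau n v * ζ = PP n + Phi n (v * ζ)⁻¹ := by
  obtain ⟨ζ, hζ, φ, h2, h3, h4⟩ := far hn hv h1
  refine ⟨ζ, hζ, ?_⟩
  have h5 := PP_spec hn ‖v‖ φ h1 h2 (by rw [two_al hn]; exact h3)
  rw [← h4, mul_comm v ζ, tau_mul (by omega) hζ] at h5
  rw [mul_comm v ζ, mul_comm _ ζ]
  exact h5

lemma Phi_conj {n : ℕ} (hn : 2 ≤ n) (y : ℂ) (hy : ‖y‖ < 1) :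
    Phi n ((starRingEnd ℂ) y) = (starRingEnd ℂ) (Phi n y) := by
  obtain ⟨h0, hd⟩ := Phi_spec hn
  have hder : ∀ w ∈ ball (0 : ℂ) 1, HasDerivAt
      (fun w => (starRingEnd ℂ) (Phi n ((starRingEnd ℂ) w)) - Phi n w) 0 w := by
    intro w hw
    have hw' : (starRingEnd ℂ) w ∈ ball (0 : ℂ) 1 := by
      rw [mem_ball_zero_iff, Complex.norm_conj]
      simpa using hw
    have h1 := (hd _ hw').conj_conj
    rw [Complex.conj_conj] at h1
    refine (h1.sub (hd w hw)).congr_deriv ?_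
    simp
  obtain ⟨c, hc⟩ := isOpen_ball.exists_is_const_of_deriv_eq_zero
    (convex_ball (0 : ℂ) 1).isPreconnected
    (fun w hw => (hder w hw).differentiableAt.differentiableWithinAt)
    (fun w hw => (hder w hw).deriv)
  have c0 := hc 0 (mem_ball_self one_pos)
  simp only [map_zero, h0, sub_zero] at c0
  have c1 := hc y (by rw [mem_ball_zero_iff]; exact hy)
  rw [← c0] at c1
  have c2 := sub_eq_zero.mp c1
  rw [← c2, Complex.conj_conj]

lemma Phi_real {n : ℕ} (hn : 2 ≤ n) (s : ℝ) (h0 : 0 ≤ s) (h1 : s < 1) :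
    (Phi n (s : ℂ)).im = 0 ∧ 0 ≤ (Phi n (s : ℂ)).re := by
  obtain ⟨hz, hd⟩ := Phi_spec hn
  constructor
  · have h := Phi_conj hn (s : ℂ) (by rw [Complex.norm_real, Real.norm_of_nonneg h0]; exact h1)
    rw [Complex.conj_ofReal] at h
    have := congrArg Complex.im h
    rw [Complex.conj_im] at this
    linarith
  · have hder : ∀ u ∈ Icc 0 s, HasDerivAt (fun u : ℝ => (Phi n (u : ℂ)).re)
        (u ^ (n - 2) / (1 - u ^ n)) u := by
      intro u hu
      have h2 := hd (u : ℂ) (by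
        rw [mem_ball_zero_iff, Complex.norm_real, Real.norm_of_nonneg hu.1]; linarith [hu.2])
      have h3 := h2.real_of_complex
      refine h3.congr_deriv ?_
      rw [← Complex.ofReal_pow, ← Complex.ofReal_pow, ← Complex.ofReal_one, ← Complex.ofReal_sub,
        ← Complex.ofReal_div, Complex.ofReal_re]
    have hm : MonotoneOn (fun u : ℝ => (Phi n (u : ℂ)).re) (Icc 0 s) := by
      refine monotoneOn_of_deriv_nonneg (convex_Icc 0 s) ?_ ?_ ?_
      · intro u hu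
        exact (hder u hu).continuousAt.continuousWithinAt
      · intro u hu
        rw [interior_Icc] at hu
        exact (hder u ⟨hu.1.le, hu.2.le⟩).differentiableAt.differentiableWithinAt
      · intro u hu
        rw [interior_Icc] at hu
        rw [(hder u ⟨hu.1.le, hu.2.le⟩).deriv]
        have : u ^ n ≤ 1 := pow_le_one₀ hu.1.le (by linarith [hu.2])
        exact div_nonneg (pow_nonneg hu.1.le _) (by linarith)
    have := hm (left_mem_Icc.2 h0) (right_mem_Icc.2 h0) h0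
    simpa [hz] using this

lemma ne_one_factor {n : ℕ} (hn : 2 ≤ n) {ζ : ℂ} (hζ : ζ ∈ mu n) (hne : ζ ≠ 1) (r : ℝ) (hr : 0 ≤ r) :
    1 - ζ * (r : ℂ) ∈ Complex.slitPlane := by
  rcases eq_or_lt_of_le hr with h | h
  · rw [← h]; simp
  rw [Complex.mem_slitPlane_iff]
  by_contra hcon
  push Not at hcon
  obtain ⟨h1, h2⟩ := hcon
  simp only [Complex.sub_re, Complex.one_re, Complex.sub_im, Complex.one_im, Complex.mul_re,
    Complex.mul_im, Complex.ofReal_re, Complex.ofReal_im, mul_zero, sub_zero, zero_add,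
    zero_sub, neg_eq_zero] at h1 h2
  have h3 : ζ.im = 0 := (mul_eq_zero.1 h2).resolve_right h.ne'
  have h4 : 0 < ζ.re := by
    by_contra hc
    push Not at hc
    nlinarith
  have h5 := norm_mu (by omega) hζ
  apply hne
  have h6 : ζ.re ^ 2 = 1 := by
    have : ‖ζ‖ ^ 2 = ζ.re ^ 2 + ζ.im ^ 2 := by
      rw [← Complex.normSq_eq_norm_sq, Complex.normSq_apply]; ring
    rw [h5, h3] at this
    linarith
  have h7 : ζ.re = 1 := by nlinarith
  exact Complex.ext h7 h3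

lemma one_mem_mu {n : ℕ} (hn : 2 ≤ n) : (1 : ℂ) ∈ mu n := by
  rw [mem_mu (by omega), one_pow]

lemma tau_split {n : ℕ} (hn : 2 ≤ n) (v : ℂ) : tau n v = -(1 / (n : ℂ)) * Complex.log (1 - v) +
    -(1 / (n : ℂ)) * ∑ ζ ∈ (mu n).erase 1, ζ⁻¹ * Complex.log (1 - ζ * v) := by
  unfold tau
  rw [← Finset.add_sum_erase (mu n) _ (one_mem_mu hn)]
  simp only [inv_one, one_mul]
  ring

lemma rest_cont {n : ℕ} (hn : 2 ≤ n) (r : ℝ) (hr : 0 ≤ r) : ContinuousAt
    (fun v => -(1 / (n : ℂ)) * ∑ ζ ∈ (mu n).erase 1, ζ⁻¹ * Complex.log (1 - ζ * v)) (r : ℂ) := by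
  refine ContinuousAt.mul continuousAt_const ?_
  refine tendsto_finsetSum _ ?_
  intro ζ hζ
  have h1 := ne_one_factor hn (Finset.mem_of_mem_erase hζ) (Finset.ne_of_mem_erase hζ) r hr
  have h2 : ContinuousAt (fun v : ℂ => ζ⁻¹ * Complex.log (1 - ζ * v)) (r : ℂ) :=
    continuousAt_const.mul (ContinuousAt.clog (by fun_prop) h1)
  exact h2

lemma tau_blow {n : ℕ} (hn : 2 ≤ n) : Tendsto (fun v => ‖tau n v‖) (𝓝[≠] 1) atTop := by
  have hn0 : (0 : ℝ) < n := by exact_mod_cast (by omega : 0 < n)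
  have h1 := rest_cont hn 1 zero_le_one
  rw [Complex.ofReal_one] at h1
  obtain ⟨g, hg⟩ : ∃ g : ℂ → ℂ, g = fun v => -(1 / (n : ℂ)) *
    ∑ ζ ∈ (mu n).erase 1, ζ⁻¹ * Complex.log (1 - ζ * v) := ⟨_, rfl⟩
  rw [← hg] at h1
  have h2 : Tendsto (fun v => ‖g v‖) (𝓝[≠] 1) (𝓝 ‖g 1‖) :=
    (h1.norm.tendsto).mono_left nhdsWithin_le_nhds
  have h3 : Tendsto (fun v : ℂ => ‖1 - v‖) (𝓝[≠] 1) (𝓝[>] 0) := by
    rw [tendsto_nhdsWithin_iff]
    constructor
    · have h4 : Continuous fun v : ℂ => ‖1 - v‖ := by fun_prop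
      have := h4.tendsto 1
      simp only [sub_self, norm_zero] at this
      exact this.mono_left nhdsWithin_le_nhds
    · filter_upwards [self_mem_nhdsWithin] with v hv
      exact norm_pos_iff.mpr (sub_ne_zero.mpr (fun h => hv h.symm))
  have h4 : Tendsto (fun v : ℂ => -Real.log ‖1 - v‖) (𝓝[≠] 1) atTop :=
    tendsto_neg_atBot_atTop.comp (Real.tendsto_log_nhdsGT_zero.comp h3)
  have h5 : Tendsto (fun v : ℂ => 1 / (n : ℝ) * -Real.log ‖1 - v‖) (𝓝[≠] 1) atTop :=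
    h4.const_mul_atTop (by positivity)
  have h6 : Tendsto (fun v : ℂ => 1 / (n : ℝ) * -Real.log ‖1 - v‖ + -‖g v‖) (𝓝[≠] 1) atTop :=
    h5.atTop_add h2.neg
  refine tendsto_atTop_mono ?_ h6
  intro v
  have e : tau n v = -(1 / (n : ℂ)) * Complex.log (1 - v) + g v := by
    rw [tau_split hn, hg]
  rw [e]
  have h7 : 1 / (n : ℝ) * -Real.log ‖1 - v‖ ≤ ‖-(1 / (n : ℂ)) * Complex.log (1 - v)‖ := by
    rw [norm_mul, norm_neg, norm_div, norm_one, Complex.norm_natCast]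
    refine mul_le_mul_of_nonneg_left ?_ (by positivity)
    have h8 := Complex.abs_re_le_norm (Complex.log (1 - v))
    rw [Complex.log_re] at h8
    exact (neg_le_abs _).trans h8
  have h9 := norm_sub_le (-(1 / (n : ℂ)) * Complex.log (1 - v) + g v) (g v)
  rw [add_sub_cancel_right] at h9
  linarith

/-- near the slit -/
lemma near_slit {n : ℕ} (hn : 2 ≤ n) (r : ℝ) (hr : 1 < r) :
    ∀ ε : ℝ, 0 < ε → ∀ᶠ v in 𝓝 (r : ℂ), v ∈ DD n →
      ‖tau n v - (PP n + Phi n ((r : ℂ))⁻¹)‖ < ε ∨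
      ‖tau n v - ((starRingEnd ℂ) (PP n) + Phi n ((r : ℂ))⁻¹)‖ < ε := by
  intro ε hε
  have ha := al_pos hn
  have hn0 : 0 < n := by omega
  have hr0 : (r : ℂ) ≠ 0 := by exact_mod_cast (by linarith : r ≠ 0)
  have hslit : (r : ℂ) ∈ Complex.slitPlane := by
    rw [Complex.ofReal_mem_slitPlane]; linarith
  have c1 : Tendsto (fun v : ℂ => v.arg) (𝓝 (r : ℂ)) (𝓝 0) := by
    have := Complex.continuousAt_arg hslit
    have h2 : Tendsto Complex.arg (𝓝 (r : ℂ)) (𝓝 (Complex.arg r)) := this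
    rwa [Complex.arg_ofReal_of_nonneg (by linarith)] at h2
  have hrn : ‖(r : ℂ)⁻¹‖ < 1 := by
    rw [norm_inv, Complex.norm_real, Real.norm_of_nonneg (by linarith)]
    exact inv_lt_one_of_one_lt₀ hr
  have c2 : Tendsto (fun v : ℂ => Phi n v⁻¹) (𝓝 (r : ℂ)) (𝓝 (Phi n (r : ℂ)⁻¹)) := by
    have h3 : ContinuousAt (Phi n) (r : ℂ)⁻¹ :=
      ((Phi_spec hn).2 _ (by rw [mem_ball_zero_iff]; exact hrn)).continuousAt
    exact h3.tendsto.comp (tendsto_inv₀ hr0)
  have c3 : ∀ᶠ v in 𝓝 (r : ℂ), ‖Phi n v⁻¹ - Phi n (r : ℂ)⁻¹‖ < ε := by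
    have := c2.eventually (ball_mem_nhds _ hε)
    filter_upwards [this] with v hv
    rwa [← dist_eq_norm]
  have c4 : ∀ᶠ v in 𝓝 (r : ℂ), ‖Phi n ((starRingEnd ℂ) v)⁻¹ - Phi n (r : ℂ)⁻¹‖ < ε := by
    have h5 : Tendsto (fun v : ℂ => (starRingEnd ℂ) v) (𝓝 (r : ℂ)) (𝓝 (r : ℂ)) := by
      have := Complex.continuous_conj.tendsto (r : ℂ)
      rwa [Complex.conj_ofReal] at this
    exact h5.eventually c3
  have c5 : ∀ᶠ v in 𝓝 (r : ℂ), |v.arg| < 2 * al n := by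
    have := c1.abs
    rw [abs_zero] at this
    exact this.eventually (gt_mem_nhds (by linarith))
  have c6 : ∀ᶠ v in 𝓝 (r : ℂ), 1 < ‖v‖ := by
    have : Tendsto (fun v : ℂ => ‖v‖) (𝓝 (r : ℂ)) (𝓝 ‖(r : ℂ)‖) := continuous_norm.tendsto _
    refine this.eventually (lt_mem_nhds ?_)
    rw [Complex.norm_real, Real.norm_of_nonneg (by linarith)]
    exact hr
  have hφr := Phi_real hn r⁻¹ (by positivity) (inv_lt_one_of_one_lt₀ hr)
  rw [Complex.ofReal_inv] at hφr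
  filter_upwards [c3, c4, c5, c6] with v g3 g4 g5 g6 hv
  rw [abs_lt] at g5
  have hpos : ∀ u : ℂ, 1 < ‖u‖ → 0 < u.arg → u.arg < 2 * al n → tau n u = PP n + Phi n u⁻¹ := by
    intro u h1 h2 h3
    have := PP_spec hn ‖u‖ u.arg h1 h2 (by rw [two_al hn]; exact h3)
    rwa [← polar u] at this
  rcases lt_trichotomy v.arg 0 with h | h | h
  · right
    have harg : ((starRingEnd ℂ) v).arg = -v.arg := by
      rw [Complex.arg_conj, if_neg]
      intro hp
      have := Real.pi_pos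
      linarith
    have h1 := hpos ((starRingEnd ℂ) v) (by rw [Complex.norm_conj]; exact g6) (by rw [harg]; linarith)
      (by rw [harg]; linarith)
    have h2 : tau n v = (starRingEnd ℂ) (PP n) + (starRingEnd ℂ) (Phi n ((starRingEnd ℂ) v)⁻¹) := by
      have h3 := tau_conj hn0 hv
      rw [h1] at h3
      have h4 := congrArg (starRingEnd ℂ) h3
      rw [Complex.conj_conj, map_add] at h4
      exact h4.symm
    have h5 : (starRingEnd ℂ) (Phi n (r : ℂ)⁻¹) = Phi n (r : ℂ)⁻¹ := by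
      apply Complex.ext
      · simp
      · rw [Complex.conj_im, hφr.1, neg_zero]
    rw [h2, add_sub_add_left_eq_sub, ← h5, ← map_sub, Complex.norm_conj]
    exact g4
  · exfalso
    have e := polar v
    rw [h, ee_zero, mul_one] at e
    have h3 : 1 - v ^ n ∈ Complex.slitPlane := hv
    rw [e] at h3
    have h4 : 1 < ‖v‖ ^ n := one_lt_pow₀ g6 hn0.ne'
    rw [← Complex.ofReal_pow, ← Complex.ofReal_one, ← Complex.ofReal_sub,
      Complex.ofReal_mem_slitPlane] at h3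
    linarith
  · left
    rw [hpos v g6 h g5.2, add_sub_add_left_eq_sub]
    exact g3

/-- points outside of the slit plane -/
lemma not_DD {n : ℕ} (hn : 2 ≤ n) {v : ℂ} (hv : v ∉ DD n) :
    ∃ ζ ∈ mu n, ∃ r : ℝ, 1 ≤ r ∧ v * ζ = r := by
  have hn0 : 0 < n := by omega
  have hnr : (0 : ℝ) < n := by exact_mod_cast hn0
  have hv0 : v ≠ 0 := by
    rintro rfl
    exact hv (zero_mem_DD hn0)
  obtain ⟨ζ, hζ, harg⟩ := exists_rot hn hv0
  obtain ⟨u, hu⟩ : ∃ u : ℂ, u = v * ζ := ⟨_, rfl⟩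
  rw [← hu] at harg
  have hun : u ^ n = v ^ n := by rw [hu, mul_pow, (mem_mu hn0 ζ).1 hζ, mul_one]
  have h1 : ¬ (1 - v ^ n ∈ Complex.slitPlane) := hv
  rw [← hun, Complex.mem_slitPlane_iff] at h1
  push Not at h1
  obtain ⟨h2, h3⟩ := h1
  simp only [Complex.sub_re, Complex.one_re, Complex.sub_im, Complex.one_im, zero_sub,
    neg_eq_zero] at h2 h3
  have e : u ^ n = ((‖u‖ ^ n : ℝ) : ℂ) * ee (n * u.arg) := by
    conv_lhs => rw [polar u]
    rw [mul_pow, ee_pow]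
    push_cast
    rfl
  rw [e, Complex.re_ofReal_mul, re_ee] at h2
  rw [e, Complex.im_ofReal_mul, im_ee] at h3
  have hu0 : u ≠ 0 := by rw [hu]; exact mul_ne_zero hv0 (ne_zero_mu hn0 hζ)
  have hun0 : 0 < ‖u‖ ^ n := by positivity
  have h4 : Real.sin (n * u.arg) = 0 := (mul_eq_zero.1 h3).resolve_left hun0.ne'
  have h5 : 0 < Real.cos (n * u.arg) := by
    by_contra hc
    push Not at hc
    nlinarith
  have h6 : |n * u.arg| ≤ Real.pi := by
    rw [abs_mul, abs_of_pos hnr, ← n_al hn]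
    exact mul_le_mul_of_nonneg_left harg hnr.le
  have h7 : n * u.arg = 0 := by
    rw [abs_le] at h6
    by_contra hne
    rcases lt_or_gt_of_ne hne with h8 | h8
    · rcases eq_or_lt_of_le h6.1 with h9 | h9
      · rw [← h9, Real.cos_neg, Real.cos_pi] at h5
        linarith
      · have := Real.sin_neg_of_neg_of_neg_pi_lt h8 h9
        linarith
    · rcases eq_or_lt_of_le h6.2 with h9 | h9
      · rw [h9, Real.cos_pi] at h5
        linarith
      · have := Real.sin_pos_of_pos_of_lt_pi h8 h9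
        linarith
  have h8 : u.arg = 0 := (mul_eq_zero.1 h7).resolve_left hnr.ne'
  refine ⟨ζ, hζ, ‖u‖, ?_, ?_⟩
  · rw [h8, mul_zero, Real.cos_zero, mul_one] at h2
    by_contra hc
    push Not at hc
    have : ‖u‖ ^ n < 1 := pow_lt_one₀ (norm_nonneg _) hc hn0.ne'
    linarith
  · rw [← hu]
    conv_lhs => rw [polar u, h8, ee_zero, mul_one]

lemma PP_mem_Ry {n : ℕ} (hn : 2 ≤ n) {ζ : ℂ} (hζ : ζ ∈ mu n) : PP n * ζ⁻¹ ∈ Ry n := by
  have := ne_zero_mu (by omega) hζ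
  refine ⟨ζ, hζ, ?_, ?_⟩
  · rw [show PP n * ζ⁻¹ * ζ = PP n by field_simp]
  · rw [show PP n * ζ⁻¹ * ζ = PP n by field_simp, abs_of_pos (PP_im_pos hn)]

/-- the part of the slit plane over a compact set away from the rays is compact -/
theorem comp_tau {n : ℕ} (hn : 2 ≤ n) (N : Set ℂ) (hN : IsCompact N) (hd : ∀ z ∈ N, z ∉ Ry n) :
    IsCompact {v | v ∈ DD n ∧ tau n v ∈ N} := by
  have hn0 : 0 < n := by omega
  -- bounded
  have hb : ∃ M : ℝ, ∀ v ∈ DD n, tau n v ∈ N → ‖v‖ ≤ M := by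
    have h1 : ∃ δ : ℝ, 0 < δ ∧ ∀ ζ ∈ mu n, ∀ z ∈ N, δ ≤ ‖z - PP n * ζ⁻¹‖ := by
      obtain ⟨K, hK⟩ : ∃ K : Finset ℂ, K = (mu n).image fun ζ => PP n * ζ⁻¹ := ⟨_, rfl⟩
      have hdis : Disjoint N (K : Set ℂ) := by
        rw [Set.disjoint_left]
        intro z hz hzK
        rw [hK, Finset.mem_coe, Finset.mem_image] at hzK
        obtain ⟨ζ, hζ, rfl⟩ := hzK
        exact hd _ hz (PP_mem_Ry hn hζ)
      obtain ⟨δ, hδ, h⟩ := Metric.exists_pos_forall_lt_edist hN K.finite_toSet.isClosed hdis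
      refine ⟨δ, by exact_mod_cast hδ, ?_⟩
      intro ζ hζ z hz
      have h2 := h z hz (PP n * ζ⁻¹) (by
        rw [hK, Finset.mem_coe, Finset.mem_image]; exact ⟨ζ, hζ, rfl⟩)
      rw [edist_nndist, ENNReal.coe_lt_coe] at h2
      have h3 : (δ : ℝ) < dist z (PP n * ζ⁻¹) := by exact_mod_cast h2
      rw [dist_eq_norm] at h3
      exact h3.le
    obtain ⟨δ, hδ, h⟩ := h1
    have h2 := (Phi_cont hn).eventually (ball_mem_nhds 0 hδ)
    obtain ⟨η, hη, h3⟩ := Metric.eventually_nhds_iff_ball.1 h2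
    refine ⟨max 1 (1 / η), ?_⟩
    intro v hv hvN
    by_contra hcon
    push Not at hcon
    have hv1 : 1 < ‖v‖ := lt_of_le_of_lt (le_max_left _ _) hcon
    have hv2 : 1 / η < ‖v‖ := lt_of_le_of_lt (le_max_right _ _) hcon
    obtain ⟨ζ, hζ, h4⟩ := tau_far hn hv hv1
    have hζ0 := ne_zero_mu hn0 hζ
    have h5 : (v * ζ)⁻¹ ∈ ball (0 : ℂ) η := by
      rw [mem_ball_zero_iff, norm_inv, norm_mul, norm_mu hn0 hζ, mul_one]
      rw [inv_lt_comm₀ (by linarith) hη, inv_eq_one_div]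
      exact hv2
    have h6 := h3 _ h5
    rw [dist_zero_right] at h6
    have h7 := h ζ hζ _ hvN
    have h8 : tau n v - PP n * ζ⁻¹ = Phi n (v * ζ)⁻¹ * ζ⁻¹ := by
      have : tau n v = (PP n + Phi n (v * ζ)⁻¹) * ζ⁻¹ := by
        rw [← h4]; field_simp
      rw [this]; ring
    rw [h8, norm_mul, norm_inv, norm_mu hn0 hζ, inv_one, mul_one] at h7
    linarith
  obtain ⟨M, hM⟩ := hb
  -- closed
  have hreal : ∀ N : Set ℂ, IsCompact N → (∀ z ∈ N, z ∉ Ry n) → ∀ r : ℝ, 1 ≤ r →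
      (r : ℂ) ∉ closure {v | v ∈ DD n ∧ tau n v ∈ N} := by
    intro N hN hd r hr hcl
    rw [mem_closure_iff_frequently] at hcl
    rcases eq_or_lt_of_le hr with h1 | h1
    · obtain ⟨B, hB⟩ := hN.isBounded.exists_norm_le
      have h2 := (tau_blow hn).eventually (eventually_gt_atTop B)
      rw [eventually_nhdsWithin_iff] at h2
      rw [← h1, Complex.ofReal_one] at hcl
      obtain ⟨v, ⟨hv1, hv2⟩, hv3⟩ := (hcl.and_eventually h2).exists
      have hv4 : v ≠ 1 := by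
        rintro rfl
        exact ne_one_of_DD hv1 (one_pow n)
      have := hv3 hv4
      have := hB _ hv2
      linarith
    · have hφr := Phi_real hn r⁻¹ (by positivity) (inv_lt_one_of_one_lt₀ h1)
      rw [Complex.ofReal_inv] at hφr
      have m1 : PP n + Phi n ((r : ℂ))⁻¹ ∈ Ry n := by
        refine ⟨1, one_mem_mu hn, ?_, ?_⟩
        · rw [mul_one, Complex.add_re]; linarith [hφr.2]
        · rw [mul_one, Complex.add_im, hφr.1, add_zero, abs_of_pos (PP_im_pos hn)]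
      have m2 : (starRingEnd ℂ) (PP n) + Phi n ((r : ℂ))⁻¹ ∈ Ry n := by
        refine ⟨1, one_mem_mu hn, ?_, ?_⟩
        · rw [mul_one, Complex.add_re, Complex.conj_re]; linarith [hφr.2]
        · rw [mul_one, Complex.add_im, hφr.1, add_zero, Complex.conj_im, abs_neg,
            abs_of_pos (PP_im_pos hn)]
      have o1 : Nᶜ ∈ 𝓝 (PP n + Phi n ((r : ℂ))⁻¹) :=
        hN.isClosed.isOpen_compl.mem_nhds (fun h => hd _ h m1)
      have o2 : Nᶜ ∈ 𝓝 ((starRingEnd ℂ) (PP n) + Phi n ((r : ℂ))⁻¹) :=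
        hN.isClosed.isOpen_compl.mem_nhds (fun h => hd _ h m2)
      obtain ⟨ε1, hε1, b1⟩ := Metric.mem_nhds_iff.1 o1
      obtain ⟨ε2, hε2, b2⟩ := Metric.mem_nhds_iff.1 o2
      have h2 := near_slit hn r h1 (min ε1 ε2) (lt_min hε1 hε2)
      obtain ⟨v, ⟨hv1, hv2⟩, hv3⟩ := (hcl.and_eventually h2).exists
      rcases hv3 hv1 with h3 | h3
      · exact b1 (by rw [mem_ball, dist_eq_norm]; exact h3.trans_le (min_le_left _ _)) hv2
      · exact b2 (by rw [mem_ball, dist_eq_norm]; exact h3.trans_le (min_le_right _ _)) hv2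
  have hcl : IsClosed {v | v ∈ DD n ∧ tau n v ∈ N} := by
    refine isClosed_of_closure_subset ?_
    intro v hv
    have hvD : v ∈ DD n := by
      by_contra hcon
      obtain ⟨ζ, hζ, r, hr, h1⟩ := not_DD hn hcon
      have hζ0 := ne_zero_mu hn0 hζ
      refine hreal ((fun z => ζ * z) '' N) (hN.image (by fun_prop)) ?_ r hr ?_
      · rintro _ ⟨z, hz, rfl⟩ h2
        exact hd z hz (Ry_rot hn hζ h2)
      · rw [← h1]
        have h2 : MapsTo (fun v : ℂ => v * ζ) {v | v ∈ DD n ∧ tau n v ∈ N}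
            {v | v ∈ DD n ∧ tau n v ∈ (fun z => ζ * z) '' N} := by
          rintro u ⟨hu1, hu2⟩
          refine ⟨?_, tau n u, hu2, ?_⟩
          · show u * ζ ∈ DD n
            rw [mul_comm]; exact (mul_mem_DD hn0 hζ).2 hu1
          · show ζ * tau n u = tau n (u * ζ)
            rw [mul_comm u ζ, tau_mul hn0 hζ]
        exact map_mem_closure (f := fun v : ℂ => v * ζ) (by fun_prop) hv h2
    refine ⟨hvD, ?_⟩
    have hc : ContinuousAt (tau n) v := (deriv_tau hn0 hvD).continuousAt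
    rw [mem_closure_iff_frequently] at hv
    by_contra hcon
    have h1 : ∀ᶠ u in 𝓝 v, tau n u ∉ N :=
      hc.tendsto.eventually (hN.isClosed.isOpen_compl.mem_nhds hcon)
    obtain ⟨u, ⟨-, hu1⟩, hu2⟩ := (hv.and_eventually h1).exists
    exact hu2 hu1
  refine Metric.isCompact_of_isClosed_isBounded hcl ?_
  rw [isBounded_iff_forall_norm_le]
  exact ⟨M, fun v hv => hM v hv.1 hv.2⟩

end Run7.h904.SP
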