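import Mathlib
import Pool.Agent.Run7.h904.S4Comp

set_option autoImplicit false

open Topology Filter Metric Set

namespace Run7.h904.SP

/-- uniform version of a local first order estimate -/
lemma usd (C : Set ℂ) (hC : IsCompact C) (R : ℂ → ℂ → ℝ)
    (h : ∀ v₀ ∈ C, ∀ ε : ℝ, 0 < ε → ∃ δ : ℝ, 0 < δ ∧ ∀ z z' : ℂ, ‖z - v₀‖ < δ → ‖z' - v₀‖ < δ →
      R z z' ≤ ε * ‖z' - z‖) :
    ∀ ε : ℝ, 0 < ε → ∃ d : ℝ, 0 < d ∧ ∀ v ∈ C, ∀ w : ℂ, ‖w‖ ≤ d → R v (v + w) ≤ ε * ‖w‖ := by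
  intro ε hε
  have h1 : ∀ v₀ : C, ∃ δ : ℝ, 0 < δ ∧ ∀ z z' : ℂ, ‖z - v₀‖ < δ → ‖z' - v₀‖ < δ →
      R z z' ≤ ε * ‖z' - z‖ := fun v₀ => h v₀ v₀.2 ε hε
  choose δ hδ hδR using h1
  obtain ⟨d, hd, hcov⟩ := lebesgue_number_lemma_of_metric (c := fun v₀ : C => ball (v₀ : ℂ) (δ v₀))
    hC (fun _ => isOpen_ball) (fun v hv => mem_iUnion.2 ⟨⟨v, hv⟩, mem_ball_self (hδ _)⟩)
  refine ⟨d / 2, by positivity, ?_⟩
  intro v hv w hw
  obtain ⟨v₀, hv₀⟩ := hcov v hv
  have m1 := hv₀ (mem_ball_self hd)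
  have m2 : v + w ∈ ball (v₀ : ℂ) (δ v₀) := hv₀ (by
    rw [mem_ball, dist_eq_norm, add_sub_cancel_left]; linarith)
  rw [mem_ball, dist_eq_norm] at m1 m2
  have := hδR v₀ v (v + w) m1 m2
  rwa [add_sub_cancel_left] at this

lemma loc_strict (F g : ℂ → ℂ) (v₀ : ℂ) (hF : HasStrictDerivAt F (g v₀) v₀) (hg : ContinuousAt g v₀) :
    ∀ ε : ℝ, 0 < ε → ∃ δ : ℝ, 0 < δ ∧ ∀ z z' : ℂ, ‖z - v₀‖ < δ → ‖z' - v₀‖ < δ →
      ‖F z' - F z - (z' - z) * g z‖ ≤ ε * ‖z' - z‖ := by
  intro ε hε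
  have h1 := hF.isLittleO.def (half_pos hε)
  obtain ⟨δ1, hδ1, h2⟩ := Metric.eventually_nhds_iff_ball.1 h1
  obtain ⟨δ2, hδ2, h3⟩ := Metric.eventually_nhds_iff_ball.1
    (hg.tendsto.eventually (ball_mem_nhds (g v₀) (half_pos hε)))
  refine ⟨min δ1 δ2, lt_min hδ1 hδ2, ?_⟩
  intro z z' hz hz'
  have m1 : ((z', z) : ℂ × ℂ) ∈ ball (v₀, v₀) δ1 := by
    rw [mem_ball, Prod.dist_eq, max_lt_iff, dist_eq_norm, dist_eq_norm]
    exact ⟨hz'.trans_le (min_le_left _ _), hz.trans_le (min_le_left _ _)⟩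
  have m2 := h3 z (by rw [mem_ball, dist_eq_norm]; exact hz.trans_le (min_le_right _ _))
  rw [dist_eq_norm] at m2
  have m3 := h2 _ m1
  have e : F z' - F z - (z' - z) * g z = (F z' - F z - (z' - z) * g v₀) -
      (z' - z) * (g z - g v₀) := by ring
  rw [e]
  refine (norm_sub_le _ _).trans ?_
  rw [norm_mul]
  have h5 : ‖z' - z‖ * ‖g z - g v₀‖ ≤ ‖z' - z‖ * (ε / 2) :=
    mul_le_mul_of_nonneg_left m2.le (norm_nonneg _)
  have h6 : ‖F z' - F z - (z' - z) * g v₀‖ ≤ ε / 2 * ‖z' - z‖ := by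
    simpa using m3
  linarith

lemma loc_tau {n : ℕ} (hn : 2 ≤ n) (v₀ : ℂ) (hv : v₀ ∈ DD n) :
    ∀ ε : ℝ, 0 < ε → ∃ δ : ℝ, 0 < δ ∧ ∀ z z' : ℂ, ‖z - v₀‖ < δ → ‖z' - v₀‖ < δ →
      ‖tau n z' - tau n z - (z' - z) * (1 / (1 - z ^ n))‖ ≤ ε * ‖z' - z‖ := by
  refine loc_strict (tau n) (fun z => 1 / (1 - z ^ n)) v₀ (strict_tau (by omega) hv) ?_
  exact continuousAt_const.div (by fun_prop) (sub_ne_of_DD hv)

/-- the real part in the far part of the sector -/
lemma h_far {n : ℕ} (hn : 2 ≤ n) {v : ℂ} (h1 : 1 < ‖v‖) (h2 : |v.arg| < 2 * al n) :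
    (tau n v).re = (PP n).re + (Phi n v⁻¹).re := by
  have hn0 : 0 < n := by omega
  have ha := al_pos hn
  have hpos : ∀ u : ℂ, 1 < ‖u‖ → 0 < u.arg → u.arg < 2 * al n → tau n u = PP n + Phi n u⁻¹ := by
    intro u h1 h2 h3
    have := PP_spec hn ‖u‖ u.arg h1 h2 (by rw [two_al hn]; exact h3)
    rwa [← polar u] at this
  rw [abs_lt] at h2
  rcases lt_trichotomy v.arg 0 with h | h | h
  · have harg : ((starRingEnd ℂ) v).arg = -v.arg := by
      rw [Complex.arg_conj, if_neg]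
      intro hp
      have := Real.pi_pos
      linarith
    have hD : (starRingEnd ℂ) v ∈ DD n := by
      have := mem_DD_of_sector hn0 (r := ‖(starRingEnd ℂ) v‖) (norm_nonneg _)
        (φ := ((starRingEnd ℂ) v).arg) (by rw [harg]; linarith) (by rw [harg, two_al hn]; linarith)
      have e := polar ((starRingEnd ℂ) v)
      unfold ee at e
      rwa [← e] at this
    have hv : v ∈ DD n := conj_mem_DD.1 hD
    have h3 := hpos ((starRingEnd ℂ) v) (by rw [Complex.norm_conj]; exact h1) (by rw [harg]; linarith)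
      (by rw [harg]; linarith)
    rw [tau_conj hn0 hv] at h3
    have h4 := congrArg Complex.re h3
    rw [Complex.conj_re, Complex.add_re, ← map_inv₀, Phi_conj hn v⁻¹ (by
      rw [norm_inv]; exact inv_lt_one_of_one_lt₀ h1), Complex.conj_re] at h4
    exact h4
  · -- on the slit
    have e := polar v
    rw [h, ee_zero, mul_one] at e
    obtain ⟨r, hr⟩ : ∃ r : ℝ, r = ‖v‖ := ⟨_, rfl⟩
    rw [← hr] at e h1
    have hr0 : (r : ℂ) ≠ 0 := by exact_mod_cast (by linarith : r ≠ 0)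
    rw [e]
    have c1 : ContinuousAt (fun v : ℂ => (tau n v).re) (r : ℂ) := by
      have e2 : (fun v : ℂ => (tau n v).re) = fun v => -(1 / (n : ℝ)) * Real.log ‖1 - v‖ +
          (-(1 / (n : ℂ)) * ∑ ζ ∈ (mu n).erase 1, ζ⁻¹ * Complex.log (1 - ζ * v)).re := by
        funext v
        rw [tau_split hn, Complex.add_re]
        congr 1
        rw [show -(1 / (n : ℂ)) = ((-(1 / (n : ℝ)) : ℝ) : ℂ) by push_cast; ring,
          Complex.re_ofReal_mul, Complex.log_re]
      rw [e2]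
      refine ContinuousAt.add ?_ (Complex.continuous_re.continuousAt.comp (rest_cont hn r
        (by linarith)))
      refine continuousAt_const.mul (ContinuousAt.log (by fun_prop) ?_)
      rw [norm_ne_zero_iff, sub_ne_zero]
      intro h0
      have : (1 : ℝ) = r := by exact_mod_cast h0
      linarith
    have c2 : Tendsto (fun t : ℝ => (r : ℂ) * ee t) (𝓝[>] 0) (𝓝 (r : ℂ)) := by
      have hc : Continuous fun t : ℝ => (r : ℂ) * ee t := by unfold ee; fun_prop
      have := hc.tendsto 0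
      rw [ee_zero, mul_one] at this
      exact this.mono_left nhdsWithin_le_nhds
    have c3 : ContinuousAt (fun v : ℂ => (PP n).re + (Phi n v⁻¹).re) (r : ℂ) := by
      refine continuousAt_const.add (Complex.continuous_re.continuousAt.comp ?_)
      have h3 : ContinuousAt (Phi n) (r : ℂ)⁻¹ :=
        ((Phi_spec hn).2 _ (by
          rw [mem_ball_zero_iff, norm_inv, Complex.norm_real, Real.norm_of_nonneg (by linarith)]
          exact inv_lt_one_of_one_lt₀ h1)).continuousAt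
      exact ContinuousAt.comp h3 (continuousAt_inv₀ hr0)
    have t1 := c1.tendsto.comp c2
    have t2 := c3.tendsto.comp c2
    refine tendsto_nhds_unique t1 (t2.congr' ?_)
    filter_upwards [Ioo_mem_nhdsGT (by linarith : 0 < 2 * al n)] with t ht
    have := PP_spec hn r t h1 ht.1 (by rw [two_al hn]; exact ht.2)
    simp only [Function.comp]
    rw [this, Complex.add_re]
  · rw [hpos v h1 h h2.2, Complex.add_re]

/-- the domain of the harmonic function -/
def UU (n : ℕ) : Set ℂ := {v | v ∈ DD n ∨ (1 < ‖v‖ ∧ |v.arg| < 2 * al n)}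

lemma sub_ne_of_UU {n : ℕ} (hn : 2 ≤ n) {v : ℂ} (hv : v ∈ UU n) : 1 - v ^ n ≠ 0 := by
  rcases hv with h | ⟨h, -⟩
  · exact sub_ne_of_DD h
  · intro h0
    have h1 : v ^ n = 1 := by linear_combination -h0
    have h2 := congrArg norm h1
    rw [norm_pow, norm_one] at h2
    have : 1 < ‖v‖ ^ n := one_lt_pow₀ h (by omega)
    linarith

lemma loc_h {n : ℕ} (hn : 2 ≤ n) (v₀ : ℂ) (hv : v₀ ∈ UU n) :
    ∀ ε : ℝ, 0 < ε → ∃ δ : ℝ, 0 < δ ∧ ∀ z z' : ℂ, ‖z - v₀‖ < δ → ‖z' - v₀‖ < δ →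
      |(tau n z').re - (tau n z).re - ((z' - z) * (1 / (1 - z ^ n))).re| ≤ ε * ‖z' - z‖ := by
  intro ε hε
  rcases hv with hv | ⟨h1, h2⟩
  · obtain ⟨δ, hδ, h⟩ := loc_tau hn v₀ hv ε hε
    refine ⟨δ, hδ, ?_⟩
    intro z z' hz hz'
    have h3 := h z z' hz hz'
    refine le_trans ?_ h3
    have := Complex.abs_re_le_norm (tau n z' - tau n z - (z' - z) * (1 / (1 - z ^ n)))
    rwa [Complex.sub_re, Complex.sub_re] at this
  · have hne := sub_ne_of_UU hn (Or.inr ⟨h1, h2⟩ : v₀ ∈ UU n)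
    have hv0 : v₀ ≠ 0 := by
      rintro rfl
      rw [norm_zero] at h1; linarith
    have hsd : HasStrictDerivAt (fun v : ℂ => Phi n v⁻¹) (1 / (1 - v₀ ^ n)) v₀ := by
      have hb : v₀⁻¹ ∈ ball (0 : ℂ) 1 := by
        rw [mem_ball_zero_iff, norm_inv]; exact inv_lt_one_of_one_lt₀ h1
      have ha : AnalyticAt ℂ (Phi n) v₀⁻¹ :=
        DifferentiableOn.analyticAt (s := ball (0 : ℂ) 1)
          (fun w hw => ((Phi_spec hn).2 w hw).differentiableAt.differentiableWithinAt)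
          (isOpen_ball.mem_nhds hb)
      have h3 := ha.hasStrictDerivAt
      rw [((Phi_spec hn).2 _ hb).deriv] at h3
      have h4 := h3.comp v₀ (hasStrictDerivAt_inv hv0)
      refine h4.congr_deriv ?_
      have h5 : 1 - (v₀⁻¹) ^ n ≠ 0 := by
        intro h0
        apply hne
        have : v₀ ^ n * (1 - (v₀⁻¹) ^ n) = 0 := by rw [h0, mul_zero]
        rw [inv_pow, mul_sub, mul_one, mul_inv_cancel₀ (pow_ne_zero _ hv0)] at this
        linear_combination -this
      have h6 : v₀ ^ n = v₀ ^ (n - 2) * v₀ ^ 2 := by rw [← pow_add]; congr 1; omega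
      have h7 : v₀ ^ (n - 2) ≠ 0 := pow_ne_zero _ hv0
      have h8 : v₀ ^ n ≠ 0 := pow_ne_zero _ hv0
      rw [div_mul_eq_mul_div, div_eq_div_iff h5 hne, inv_pow, inv_pow]
      field_simp
      rw [h6]
      ring
    obtain ⟨δ1, hδ1, h3⟩ := loc_strict (fun v : ℂ => Phi n v⁻¹) (fun z => 1 / (1 - z ^ n)) v₀ hsd
      (continuousAt_const.div (by fun_prop) hne) ε hε
    have hslit : v₀ ∈ Complex.slitPlane ∨ v₀ ∉ Complex.slitPlane := em _
    -- neighbourhood in which the formula holds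
    have hnear : ∀ᶠ v in 𝓝 v₀, (tau n v).re = (PP n).re + (Phi n v⁻¹).re := by
      have e1 : ∀ᶠ v in 𝓝 v₀, 1 < ‖v‖ := continuous_norm.continuousAt.eventually (lt_mem_nhds h1)
      rcases hslit with hs | hs
      · have e2 : ∀ᶠ v in 𝓝 v₀, |v.arg| < 2 * al n :=
          (Complex.continuousAt_arg hs).abs.eventually (gt_mem_nhds h2)
        filter_upwards [e1, e2] with v g1 g2
        exact h_far hn g1 g2
      · exfalso
        rw [Complex.mem_slitPlane_iff_arg] at hs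
        push Not at hs
        by_cases h9 : v₀.arg = Real.pi
        · rw [h9, abs_of_pos Real.pi_pos] at h2
          have := al_le hn
          linarith
        · exact hv0 (hs h9)
    obtain ⟨δ2, hδ2, h4⟩ := Metric.eventually_nhds_iff_ball.1 hnear
    refine ⟨min δ1 δ2, lt_min hδ1 hδ2, ?_⟩
    intro z z' hz hz'
    have h5 := h3 z z' (hz.trans_le (min_le_left _ _)) (hz'.trans_le (min_le_left _ _))
    rw [h4 z (by rw [mem_ball, dist_eq_norm]; exact hz.trans_le (min_le_right _ _)),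
      h4 z' (by rw [mem_ball, dist_eq_norm]; exact hz'.trans_le (min_le_right _ _))]
    refine le_trans ?_ h5
    have := Complex.abs_re_le_norm (Phi n z'⁻¹ - Phi n z⁻¹ - (z' - z) * (1 / (1 - z ^ n)))
    rw [Complex.sub_re, Complex.sub_re] at this
    rwa [add_sub_add_left_eq_sub]

lemma UU_of_InW {n : ℕ} (hn : 2 ≤ n) {v : ℂ} (h : InW n v) (h1 : v ≠ 1) : v ∈ UU n := by
  by_cases hv : v ∈ DD n
  · exact Or.inl hv
  have hn0 : 0 < n := by omega
  obtain ⟨ζ, hζ, r, hr, hvr⟩ := not_DD hn hv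
  have h2 := vor hn h hζ
  rw [hvr, Complex.ofReal_re] at h2
  have hnorm : ‖v‖ = r := by
    have := congrArg norm hvr
    rw [norm_mul, norm_mu hn0 hζ, mul_one, Complex.norm_real, Real.norm_of_nonneg (by linarith)]
      at this
    exact this
  have h3 : v.re = r := le_antisymm (by rw [← hnorm]; exact Complex.re_le_norm v) h2
  have h4 : v.im = 0 := by
    have : ‖v‖ ^ 2 = v.re ^ 2 + v.im ^ 2 := by
      rw [← Complex.normSq_eq_norm_sq, Complex.normSq_apply]; ring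
    rw [hnorm, h3] at this
    nlinarith [sq_nonneg v.im]
  have h5 : v = (r : ℂ) := Complex.ext (by rw [h3, Complex.ofReal_re]) (by
    rw [h4, Complex.ofReal_im])
  right
  have h6 : r ≠ 1 := by
    rintro rfl
    exact h1 (by rw [h5]; simp)
  refine ⟨?_, ?_⟩
  · rw [hnorm]
    exact lt_of_le_of_ne hr (Ne.symm h6)
  · rw [h5, Complex.arg_ofReal_of_nonneg (by linarith), abs_zero]
    have := al_pos hn
    linarith

/-- on the boundary of the sector -/
lemma h_boundary {n : ℕ} (hn : 2 ≤ n) {v : ℂ} (h : InW n v) (h1 : ¬ InWo n v) :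
    (tau n v).re ≤ (PP n).re := by
  have hn0 : 0 < n := by omega
  obtain ⟨L, hL, hP, hmid⟩ := mid_ray hn
  have hc := cos_al hn
  have key : ∀ u : ℂ, u.arg = al n → (tau n u).re ≤ (PP n).re ∧ u ∈ DD n := by
    intro u hu
    obtain ⟨x, hx0, hx1, hx⟩ := hmid ‖u‖ (norm_nonneg _)
    have e := polar u
    rw [hu] at e
    constructor
    · rw [e, hx, hP, Complex.re_ofReal_mul, Complex.re_ofReal_mul, re_ee]
      exact mul_le_mul_of_nonneg_right hx1.le hc
    · rw [e]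
      exact mem_DD_of_sector hn0 (norm_nonneg _) (al_pos hn) (by
        rw [two_al hn]; linarith [al_pos hn])
  rcases eq_or_ne v 0 with h0 | h0
  · rw [h0, tau_zero, Complex.zero_re]
    exact PP_re_nonneg hn
  have harg := arg_of_InW hn h0 h
  have hne : |v.arg| = al n := by
    by_contra hne
    apply h1
    have hlt := lt_of_le_of_ne harg hne
    rw [abs_lt] at hlt
    have hv' : 0 < ‖v‖ := norm_pos_iff.mpr h0
    have hpi := Real.pi_pos
    have := al_le hn
    have := al_pos hn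
    constructor
    · rw [im_ee_mul]
      exact mul_pos hv' (Real.sin_pos_of_pos_of_lt_pi (by linarith) (by linarith))
    · rw [im_ee_mul]
      exact mul_neg_of_pos_of_neg hv' (Real.sin_neg_of_neg_of_neg_pi_lt (by linarith) (by linarith))
  rcases abs_choice v.arg with h3 | h3
  · rw [h3] at hne
    exact (key v hne).1
  · rw [h3] at hne
    have harg' : ((starRingEnd ℂ) v).arg = al n := by
      rw [Complex.arg_conj, if_neg, hne]
      intro hp
      have := al_pos hn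
      have := Real.pi_pos
      linarith
    obtain ⟨k1, k2⟩ := key _ harg'
    have h4 := tau_conj hn0 (conj_mem_DD.1 k2)
    rw [h4, Complex.conj_re] at k1
    exact k1

lemma isClosed_InW (n : ℕ) : IsClosed {v : ℂ | InW n v} := by
  have c1 : Continuous fun v : ℂ => (ee (al n) * v).im := by fun_prop
  have c2 : Continuous fun v : ℂ => (ee (-al n) * v).im := by fun_prop
  exact (isClosed_le continuous_const c1).inter (isClosed_le c2 continuous_const)

lemma isOpen_InWo (n : ℕ) : IsOpen {v : ℂ | InWo n v} := by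
  have c1 : Continuous fun v : ℂ => (ee (al n) * v).im := by fun_prop
  have c2 : Continuous fun v : ℂ => (ee (-al n) * v).im := by fun_prop
  exact (isOpen_lt continuous_const c1).inter (isOpen_lt c2 continuous_const)

lemma cont_h {n : ℕ} (hn : 2 ≤ n) (v₀ : ℂ) (hv : v₀ ∈ UU n) :
    ContinuousAt (fun v => (tau n v).re) v₀ := by
  obtain ⟨δ, hδ, h⟩ := loc_h hn v₀ hv 1 one_pos
  have h1 : ∀ᶠ z' in 𝓝 v₀, |(tau n z').re - (tau n v₀).re| ≤
      ‖z' - v₀‖ + ‖(z' - v₀) * (1 / (1 - v₀ ^ n))‖ := by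
    filter_upwards [ball_mem_nhds v₀ hδ] with z' hz'
    have h2 := h v₀ z' (by rw [sub_self, norm_zero]; exact hδ) (by
      rwa [mem_ball, dist_eq_norm] at hz')
    rw [one_mul] at h2
    have h3 := Complex.abs_re_le_norm ((z' - v₀) * (1 / (1 - v₀ ^ n)))
    have h4 := abs_sub_abs_le_abs_sub ((tau n z').re - (tau n v₀).re)
      (((z' - v₀) * (1 / (1 - v₀ ^ n))).re)
    linarith
  rw [ContinuousAt, tendsto_iff_norm_sub_tendsto_zero]
  have h2 : Tendsto (fun z' : ℂ => ‖z' - v₀‖ + ‖(z' - v₀) * (1 / (1 - v₀ ^ n))‖) (𝓝 v₀) (𝓝 0) := by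
    have hc : Continuous fun z' : ℂ => ‖z' - v₀‖ + ‖(z' - v₀) * (1 / (1 - v₀ ^ n))‖ := by fun_prop
    have := hc.tendsto v₀
    simpa using this
  exact squeeze_zero' (Eventually.of_forall fun _ => norm_nonneg _) h1 h2

/-- the part of the sector beyond the side of the polygon and away from the zero -/
def CC (n : ℕ) (δ ρ : ℝ) : Set ℂ := {v | InW n v ∧ (PP n).re + δ ≤ (tau n v).re ∧ ρ ≤ ‖v - 1‖}

lemma CC_compact {n : ℕ} (hn : 2 ≤ n) {δ ρ : ℝ} (hδ : 0 < δ) (hρ : 0 < ρ) :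
    IsCompact (CC n δ ρ) := by
  have hsub : ∀ v ∈ {v : ℂ | InW n v ∧ ρ ≤ ‖v - 1‖}, v ∈ UU n := by
    rintro v ⟨h1, h2⟩
    refine UU_of_InW hn h1 ?_
    rintro rfl
    rw [sub_self, norm_zero] at h2
    linarith
  have hQ : IsClosed {v : ℂ | InW n v ∧ ρ ≤ ‖v - 1‖} := by
    have c1 : Continuous fun v : ℂ => ‖v - 1‖ := by fun_prop
    exact (isClosed_InW n).inter (isClosed_le continuous_const c1)
  have hcont : ContinuousOn (fun v => (tau n v).re) {v : ℂ | InW n v ∧ ρ ≤ ‖v - 1‖} :=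
    fun v hv => (cont_h hn v (hsub v hv)).continuousWithinAt
  have hcl : IsClosed (CC n δ ρ) := by
    have h1 := hcont.preimage_isClosed_of_isClosed hQ (isClosed_Ici (a := (PP n).re + δ))
    convert h1 using 1
    ext v
    simp only [CC, mem_ofPred_eq, mem_inter_iff, mem_preimage, mem_Ici]
    tauto
  refine Metric.isCompact_of_isClosed_isBounded hcl ?_
  rw [isBounded_iff_forall_norm_le]
  have h2 := (Phi_cont hn).eventually (ball_mem_nhds 0 hδ)
  obtain ⟨η, hη, h3⟩ := Metric.eventually_nhds_iff_ball.1 h2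
  refine ⟨max 1 (1 / η), ?_⟩
  rintro v ⟨hv1, hv2, hv3⟩
  by_contra hcon
  push Not at hcon
  have hn1 : 1 < ‖v‖ := lt_of_le_of_lt (le_max_left _ _) hcon
  have hn2 : 1 / η < ‖v‖ := lt_of_le_of_lt (le_max_right _ _) hcon
  have hv0 : v ≠ 0 := by
    rintro rfl
    rw [norm_zero] at hn1; linarith
  have h4 := h_far hn hn1 (by
    have := arg_of_InW hn hv0 hv1
    have := al_pos hn
    linarith)
  have h5 : v⁻¹ ∈ ball (0 : ℂ) η := by
    rw [mem_ball_zero_iff, norm_inv, inv_lt_comm₀ (by linarith) hη, inv_eq_one_div]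
    exact hn2
  have h6 := h3 _ h5
  rw [dist_zero_right] at h6
  have h7 := Complex.re_le_norm (Phi n v⁻¹)
  linarith

end Run7.h904.SP
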