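import Mathlib
import Pool.Agent.Run7.h904.S5Har

set_option autoImplicit false

open Topology Filter Metric Set

namespace Run7.h904.SP

/-- small perturbations of the flow near a sink have an attracting fixed point -/
theorem trap (n : ℕ) (hn : 1 ≤ n) (γ : ℂ) (hγ : 0 < γ.re) : ∃ ρ₀ : ℝ, 0 < ρ₀ ∧ ∀ ρ : ℝ, 0 < ρ → ρ ≤ ρ₀ →
    ∃ e₀ E₀ : ℝ, 0 < e₀ ∧ 0 < E₀ ∧ ∀ e : ℝ, 0 < e → e < e₀ → ∀ H : ℂ → ℂ,
      DifferentiableOn ℂ H (ball 1 (2 * ρ)) →
      (∀ v ∈ ball (1 : ℂ) (2 * ρ), ‖H v - v - e * γ * (1 - v ^ n)‖ ≤ e * E₀) →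
      ∀ v ∈ closedBall (1 : ℂ) ρ, (∀ k : ℕ, H^[k] v ∈ closedBall (1 : ℂ) ρ) ∧
        ∃ x ∈ closedBall (1 : ℂ) ρ, H x = x ∧ ‖deriv H x‖ < 1 ∧
          Tendsto (fun k : ℕ => H^[k] v) atTop (𝓝 x) := by
  obtain ⟨g, hg⟩ : ∃ g : ℝ, g = γ.re := ⟨_, rfl⟩
  rw [← hg] at hγ
  have hγ0 : γ ≠ 0 := by
    rintro rfl
    rw [Complex.zero_re] at hg
    linarith
  obtain ⟨G, hG⟩ : ∃ G : ℝ, G = ‖γ‖ := ⟨_, rfl⟩
  have hG0 : 0 < G := by rw [hG]; exact norm_pos_iff.mpr hγ0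
  have hn0 : (1 : ℝ) ≤ n := by exact_mod_cast hn
  obtain ⟨κ, hκ⟩ : ∃ κ : ℝ, κ = n * g / (8 * G) := ⟨_, rfl⟩
  have hκ0 : 0 < κ := by rw [hκ]; positivity
  have hcont : Continuous fun v : ℂ => (n : ℂ) * v ^ (n - 1) := by fun_prop
  have h1 : ∀ᶠ v in 𝓝 (1 : ℂ), ‖(n : ℂ) * v ^ (n - 1) - n‖ < κ := by
    have h2 := (hcont.tendsto 1).eventually (ball_mem_nhds _ hκ0)
    filter_upwards [h2] with v hv
    rw [dist_eq_norm, one_pow, mul_one] at hv
    exact hv
  obtain ⟨ρ₁, hρ₁, h2⟩ := Metric.eventually_nhds_iff_ball.1 h1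
  refine ⟨ρ₁ / 2, by positivity, ?_⟩
  intro ρ hρ hρρ
  obtain ⟨E₀, hE₀⟩ : ∃ E₀ : ℝ, E₀ = n * g * ρ / 16 := ⟨_, rfl⟩
  have hE0 : 0 < E₀ := by rw [hE₀]; positivity
  refine ⟨min (g / (n * G ^ 2)) (1 / (n * g)), E₀, by
    exact lt_min (by positivity) (by positivity), hE0, ?_⟩
  intro e he hee H hH hHb v hv
  have he1 : e * (n * G ^ 2) ≤ g := by
    have := hee.trans_le (min_le_left _ _)
    rw [lt_div_iff₀ (by positivity)] at this
    exact this.le
  have he2 : e * (n * g) ≤ 1 := by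
    have := hee.trans_le (min_le_right _ _)
    rw [lt_div_iff₀ (by positivity)] at this
    exact this.le
  obtain ⟨q, hq⟩ : ∃ q : ℝ, q = 1 - e * (n * g) / 4 := ⟨_, rfl⟩
  have hen : 0 < e * (n * g) := by positivity
  have hq0 : 0 ≤ q := by rw [hq]; linarith
  have hq1 : q < 1 := by rw [hq]; linarith
  obtain ⟨D, hD⟩ : ∃ D : ℂ → ℂ, D = fun v => H v - v - e * γ * (1 - v ^ n) := ⟨_, rfl⟩
  have hDd : DifferentiableOn ℂ D (ball 1 (2 * ρ)) := by
    rw [hD]
    exact (hH.sub differentiableOn_id).sub (by fun_prop)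
  have hDb : ∀ v ∈ ball (1 : ℂ) (2 * ρ), ‖D v‖ ≤ e * E₀ := by rw [hD]; exact hHb
  have hsub : closedBall (1 : ℂ) ρ ⊆ ball 1 (2 * ρ) := closedBall_subset_ball (by linarith)
  have hDder : ∀ v ∈ closedBall (1 : ℂ) ρ, ‖deriv D v‖ ≤ e * (n * g) / 8 := by
    intro v hv
    have hs : closedBall v (ρ / 2) ⊆ ball 1 (2 * ρ) := by
      intro w hw
      rw [mem_closedBall] at hw hv
      rw [mem_ball]
      have := dist_triangle w v 1
      linarith
    have h3 := Complex.norm_deriv_le_of_forall_mem_sphere_norm_le (c := v) (R := ρ / 2)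
      (C := e * E₀) (f := D) (by positivity)
      (DifferentiableOn.diffContOnCl (by
        rw [closure_ball v (by positivity)]
        exact hDd.mono hs)) (fun w hw => hDb w (hs (sphere_subset_closedBall hw)))
    refine h3.trans (le_of_eq ?_)
    rw [hE₀]
    field_simp
    ring
  have hHder : ∀ v ∈ closedBall (1 : ℂ) ρ, HasDerivAt H (deriv H v) v ∧ ‖deriv H v‖ ≤ q := by
    intro v hv
    have hvb := hsub hv
    have a1 : HasDerivAt H (deriv H v) v :=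
      ((hH v hvb).differentiableAt (isOpen_ball.mem_nhds hvb)).hasDerivAt
    refine ⟨a1, ?_⟩
    have a2 : HasDerivAt D (deriv D v) v :=
      ((hDd v hvb).differentiableAt (isOpen_ball.mem_nhds hvb)).hasDerivAt
    have a3 : HasDerivAt (fun v : ℂ => v + (e : ℂ) * γ * (1 - v ^ n) + D v)
        (1 + (e : ℂ) * γ * (-((n : ℂ) * v ^ (n - 1))) + deriv D v) v := by
      have b1 : HasDerivAt (fun v : ℂ => 1 - v ^ n) (-((n : ℂ) * v ^ (n - 1))) v := by
        have := (hasDerivAt_pow n v).const_sub 1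
        simpa using this
      exact ((hasDerivAt_id' v).add (b1.const_mul _)).add a2
    have e1 : (fun v : ℂ => v + (e : ℂ) * γ * (1 - v ^ n) + D v) = H := by
      funext v
      rw [hD]
      ring
    rw [e1] at a3
    rw [a3.deriv]
    have b2 : ‖(n : ℂ) * v ^ (n - 1) - n‖ < κ := h2 v (by
      rw [mem_ball]
      rw [mem_closedBall] at hv
      linarith)
    have e2 : 1 + (e : ℂ) * γ * (-((n : ℂ) * v ^ (n - 1))) + deriv D v =
        (1 - (e : ℂ) * n * γ) + (-((e : ℂ) * γ * ((n : ℂ) * v ^ (n - 1) - n)) + deriv D v) := by ring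
    rw [e2]
    have c1 : ‖1 - (e : ℂ) * n * γ‖ ≤ 1 - e * (n * g) / 2 := by
      have d1 : ‖1 - (e : ℂ) * n * γ‖ ^ 2 = 1 - 2 * (e * n * g) + (e * n) ^ 2 * G ^ 2 := by
        rw [← Complex.normSq_eq_norm_sq, Complex.normSq_apply]
        have d2 : G ^ 2 = γ.re ^ 2 + γ.im ^ 2 := by
          rw [hG, ← Complex.normSq_eq_norm_sq, Complex.normSq_apply]; ring
        rw [d2, hg]
        have d3 : (e : ℂ) * n * γ = ((e * n : ℝ) : ℂ) * γ := by push_cast; ring
        rw [d3, Complex.sub_re, Complex.sub_im, Complex.re_ofReal_mul, Complex.im_ofReal_mul,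
          Complex.one_re, Complex.one_im]
        ring
      have d4 : (e * n) ^ 2 * G ^ 2 ≤ e * n * g := by
        have := mul_le_mul_of_nonneg_left he1 (by positivity : 0 ≤ e * n)
        calc (e * n) ^ 2 * G ^ 2 = e * n * (e * (n * G ^ 2)) := by ring
          _ ≤ e * n * g := this
      have d5 : ‖1 - (e : ℂ) * n * γ‖ ^ 2 ≤ (1 - e * (n * g) / 2) ^ 2 := by
        rw [d1]
        nlinarith [sq_nonneg (e * (n * g))]
      exact abs_le_of_sq_le_sq' d5 (by linarith) |>.2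
    have c2 : ‖-((e : ℂ) * γ * ((n : ℂ) * v ^ (n - 1) - n))‖ ≤ e * (n * g) / 8 := by
      rw [norm_neg, norm_mul, norm_mul, Complex.norm_of_nonneg he.le, ← hG]
      have := mul_le_mul_of_nonneg_left b2.le (by positivity : 0 ≤ e * G)
      refine this.trans (le_of_eq ?_)
      rw [hκ]
      field_simp
    have c3 := hDder v hv
    calc ‖(1 - (e : ℂ) * n * γ) + (-((e : ℂ) * γ * ((n : ℂ) * v ^ (n - 1) - n)) + deriv D v)‖
        ≤ ‖1 - (e : ℂ) * n * γ‖ + (‖-((e : ℂ) * γ * ((n : ℂ) * v ^ (n - 1) - n))‖ + ‖deriv D v‖) :=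
          (norm_add_le _ _).trans (add_le_add le_rfl (norm_add_le _ _))
      _ ≤ q := by rw [hq]; linarith
  have hlip : ∀ x ∈ closedBall (1 : ℂ) ρ, ∀ y ∈ closedBall (1 : ℂ) ρ,
      ‖H y - H x‖ ≤ q * ‖y - x‖ := by
    intro x hx y hy
    exact (convex_closedBall (1 : ℂ) ρ).norm_image_sub_le_of_norm_hasDerivWithin_le
      (fun z hz => (hHder z hz).1.hasDerivWithinAt) (fun z hz => (hHder z hz).2) hx hy
  have h1b : (1 : ℂ) ∈ closedBall (1 : ℂ) ρ := mem_closedBall_self hρ.le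
  have hH1 : ‖H 1 - 1‖ ≤ e * E₀ := by
    have := hDb 1 (hsub h1b)
    rw [hD] at this
    simpa using this
  have hmaps : MapsTo H (closedBall (1 : ℂ) ρ) (closedBall (1 : ℂ) ρ) := by
    intro x hx
    have h3 := hlip 1 h1b x hx
    rw [mem_closedBall, dist_eq_norm] at hx ⊢
    have h4 : H x - 1 = (H x - H 1) + (H 1 - 1) := by ring
    rw [h4]
    have h5 : q * ‖x - 1‖ ≤ q * ρ := mul_le_mul_of_nonneg_left hx hq0
    have h6 : e * E₀ ≤ e * (n * g) / 4 * ρ := by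
      rw [hE₀]
      have : 0 ≤ e * (n * g) * ρ := by positivity
      nlinarith
    calc ‖(H x - H 1) + (H 1 - 1)‖ ≤ ‖H x - H 1‖ + ‖H 1 - 1‖ := norm_add_le _ _
      _ ≤ q * ρ + e * E₀ := add_le_add (h3.trans h5) hH1
      _ ≤ ρ := by rw [hq]; nlinarith
  have hit : ∀ k : ℕ, H^[k] v ∈ closedBall (1 : ℂ) ρ := by
    intro k
    induction k with
    | zero => exact hv
    | succ k ih =>
      rw [Function.iterate_succ_apply']
      exact hmaps ih
  refine ⟨hit, ?_⟩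
  have hcw : ContractingWith ⟨q, hq0⟩ (hmaps.restrict H _ _) := by
    refine ⟨by exact_mod_cast hq1, ?_⟩
    refine LipschitzWith.of_dist_le_mul ?_
    intro x y
    rw [Subtype.dist_eq, Subtype.dist_eq, dist_eq_norm, dist_eq_norm]
    exact hlip y y.2 x x.2
  obtain ⟨x, hx, hfix, hlim, -⟩ := hcw.exists_fixedPoint' isClosed_closedBall.isComplete hmaps hv
    (edist_ne_top _ _)
  exact ⟨x, hx, hfix, (hHder x hx).2.trans_lt hq1, hlim⟩

/-- orbits beyond the side of the polygon converge to the sink -/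
theorem capture (n : ℕ) (hn : 2 ≤ n) (γ : ℂ) (hγ : 0 < γ.re) (δ : ℝ) (hδ : 0 < δ) :
    ∃ M e₀ E₀ : ℝ, 0 < M ∧ 0 < e₀ ∧ 0 < E₀ ∧ ∀ e : ℝ, 0 < e → e < e₀ → ∀ H : ℂ → ℂ,
      DifferentiableOn ℂ H (ball 0 M) →
      (∀ v ∈ ball (0 : ℂ) M, ‖H v - v - e * γ * (1 - v ^ n)‖ ≤ e * E₀) →
      ∀ v : ℂ, InW n v → (PP n).re + δ ≤ (tau n v).re → (∀ k : ℕ, H^[k] v ∈ ball (0 : ℂ) M) ∧
        ∃ x ∈ ball (0 : ℂ) M, H x = x ∧ ‖deriv H x‖ < 1 ∧
          Tendsto (fun k : ℕ => H^[k] v) atTop (𝓝 x) := by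
  have hn0 : 0 < n := by omega
  obtain ⟨ρ, hρ, htrap⟩ := trap n (by omega) γ hγ
  obtain ⟨e₁, E₁, he₁, hE₁, htr⟩ := htrap ρ hρ le_rfl
  have hC := CC_compact hn hδ hρ
  obtain ⟨C, hCd⟩ : ∃ C : Set ℂ, C = CC n δ ρ := ⟨_, rfl⟩
  rw [← hCd] at hC
  have hCU : ∀ v ∈ C, v ∈ UU n := by
    intro v hv
    rw [hCd] at hv
    refine UU_of_InW hn hv.1 ?_
    rintro rfl
    have := hv.2.2
    rw [sub_self, norm_zero] at this
    linarith
  have hCo : C ⊆ {v : ℂ | InWo n v} := by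
    intro v hv
    by_contra hcon
    rw [hCd] at hv
    have := h_boundary hn hv.1 hcon
    linarith [hv.2.1]
  -- bounds
  obtain ⟨m₂, hm₂⟩ := hC.exists_bound_of_continuousOn (f := fun v : ℂ => 1 - v ^ n) (by fun_prop)
  obtain ⟨m₁, hm₁⟩ := hC.exists_bound_of_continuousOn (f := fun v : ℂ => (1 - v ^ n)⁻¹)
    (ContinuousOn.inv₀ (by fun_prop) fun v hv => sub_ne_of_UU hn (hCU v hv))
  obtain ⟨Hm, hHm⟩ : ∃ Hm : ℝ, ∀ v ∈ C, (tau n v).re ≤ Hm := by
    have hc : ContinuousOn (fun v => (tau n v).re) C := fun v hv =>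
      (cont_h hn v (hCU v hv)).continuousWithinAt
    obtain ⟨B, hB⟩ := hC.exists_bound_of_continuousOn hc
    exact ⟨B, fun v hv => (le_abs_self _).trans (hB v hv)⟩
  obtain ⟨M₀, hM₀⟩ := hC.isBounded.exists_norm_le
  obtain ⟨M2, hM2⟩ : ∃ M2 : ℝ, M2 = max m₂ 1 := ⟨_, rfl⟩
  obtain ⟨M1, hM1⟩ : ∃ M1 : ℝ, M1 = max m₁ 1 := ⟨_, rfl⟩
  have hM2' : 1 ≤ M2 := by rw [hM2]; exact le_max_right _ _
  have hM1' : 1 ≤ M1 := by rw [hM1]; exact le_max_right _ _
  have hb2 : ∀ v ∈ C, ‖1 - v ^ n‖ ≤ M2 := fun v hv => (hm₂ v hv).trans (by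
    rw [hM2]; exact le_max_left _ _)
  have hb1 : ∀ v ∈ C, ‖(1 - v ^ n)⁻¹‖ ≤ M1 := fun v hv => (hm₁ v hv).trans (by
    rw [hM1]; exact le_max_left _ _)
  obtain ⟨g, hg⟩ : ∃ g : ℝ, g = γ.re := ⟨_, rfl⟩
  rw [← hg] at hγ
  obtain ⟨G, hG⟩ : ∃ G : ℝ, G = ‖γ‖ := ⟨_, rfl⟩
  have hG0 : 0 ≤ G := by rw [hG]; exact norm_nonneg _
  obtain ⟨S, hS⟩ : ∃ S : ℝ, S = G * M2 + 1 := ⟨_, rfl⟩
  have hS0 : 0 < S := by rw [hS]; positivity
  obtain ⟨d, hd, husd⟩ := usd C hC (fun z z' => |(tau n z').re - (tau n z).re -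
    ((z' - z) * (1 / (1 - z ^ n))).re|) (fun v₀ hv₀ => loc_h hn v₀ (hCU v₀ hv₀)) (g / (4 * S))
    (by positivity)
  obtain ⟨d', hd', hthick⟩ := hC.exists_thickening_subset_open (isOpen_InWo n) hCo
  have hInWo_InW : ∀ v : ℂ, InWo n v → InW n v := fun v h => ⟨h.1.le, h.2.le⟩
  refine ⟨max M₀ (1 + 2 * ρ) + 1, min e₁ (min (d / S) (d' / (2 * S))),
    min E₁ (min 1 (g / (4 * M1))), by positivity, ?_, ?_, ?_⟩
  · exact lt_min he₁ (lt_min (by positivity) (by positivity))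
  · exact lt_min hE₁ (lt_min one_pos (by positivity))
  intro e he hee H hH hHb v hv1 hv2
  obtain ⟨E₀, hE₀⟩ : ∃ E₀ : ℝ, E₀ = min E₁ (min 1 (g / (4 * M1))) := ⟨_, rfl⟩
  rw [← hE₀] at hHb
  have hEa : E₀ ≤ E₁ := by rw [hE₀]; exact min_le_left _ _
  have hEb : E₀ ≤ 1 := by rw [hE₀]; exact (min_le_right _ _).trans (min_le_left _ _)
  have hEc : M1 * E₀ ≤ g / 4 := by
    have : E₀ ≤ g / (4 * M1) := by rw [hE₀]; exact (min_le_right _ _).trans (min_le_right _ _)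
    rw [le_div_iff₀ (by positivity)] at this
    linarith
  have he1 : e < e₁ := hee.trans_le (min_le_left _ _)
  have he2 : e * S ≤ d := by
    have := hee.trans_le ((min_le_right _ _).trans (min_le_left _ _))
    rw [lt_div_iff₀ hS0] at this
    exact this.le
  have he3 : e * S < d' := by
    have := hee.trans_le ((min_le_right _ _).trans (min_le_right _ _))
    rw [lt_div_iff₀ (by positivity)] at this
    linarith
  obtain ⟨M, hM⟩ : ∃ M : ℝ, M = max M₀ (1 + 2 * ρ) + 1 := ⟨_, rfl⟩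
  rw [← hM] at hH hHb ⊢
  have hCM : ∀ v ∈ C, v ∈ ball (0 : ℂ) M := by
    intro v hv
    rw [mem_ball_zero_iff, hM]
    have := (hM₀ v hv).trans (le_max_left M₀ (1 + 2 * ρ))
    linarith
  have hBM : ball (1 : ℂ) (2 * ρ) ⊆ ball 0 M := by
    intro w hw
    rw [mem_ball, dist_eq_norm] at hw
    rw [mem_ball_zero_iff, hM]
    have h1 : ‖w‖ ≤ ‖w - 1‖ + 1 := by
      have := norm_add_le (w - 1) 1
      rw [sub_add_cancel, norm_one] at this
      exact this
    have := le_max_right M₀ (1 + 2 * ρ)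
    linarith
  have htrH := htr e he he1 H (hH.mono hBM) (fun w hw => (hHb w (hBM hw)).trans
    (mul_le_mul_of_nonneg_left hEa he.le))
  -- one step
  have hstep : ∀ v ∈ C, InW n (H v) ∧ (tau n v).re + e * (g / 4) ≤ (tau n (H v)).re := by
    intro v hv
    obtain ⟨w, hw⟩ : ∃ w : ℂ, w = H v - v := ⟨_, rfl⟩
    have hHv : H v = v + w := by rw [hw]; ring
    have h1 := hHb v (hCM v hv)
    rw [← hw] at h1
    have h2 := hb2 v hv
    have hwn : ‖w‖ ≤ e * S := by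
      have h3 : w = (w - e * γ * (1 - v ^ n)) + e * γ * (1 - v ^ n) := by ring
      rw [h3]
      refine (norm_add_le _ _).trans ?_
      rw [norm_mul, norm_mul, Complex.norm_of_nonneg he.le, ← hG, hS]
      have h4 : e * G * ‖1 - v ^ n‖ ≤ e * G * M2 := mul_le_mul_of_nonneg_left h2 (by positivity)
      have h5 : e * E₀ ≤ e * 1 := mul_le_mul_of_nonneg_left hEb he.le
      linarith
    have hin : InWo n (H v) := by
      apply hthick
      rw [mem_thickening_iff]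
      refine ⟨v, hv, ?_⟩
      rw [dist_eq_norm, ← hw]
      linarith
    refine ⟨hInWo_InW _ hin, ?_⟩
    have h6 := husd v hv w (by linarith)
    simp only [add_sub_cancel_left] at h6
    rw [← hHv] at h6
    have h7 : g / (4 * S) * ‖w‖ ≤ e * (g / 4) := by
      have := mul_le_mul_of_nonneg_left hwn (by positivity : 0 ≤ g / (4 * S))
      refine this.trans (le_of_eq ?_)
      field_simp
    have hne := sub_ne_of_UU hn (hCU v hv)
    have h8 : e * g - e * (g / 4) ≤ (w * (1 / (1 - v ^ n))).re := by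
      have e1 : w * (1 / (1 - v ^ n)) = (e : ℂ) * γ + (w - e * γ * (1 - v ^ n)) * (1 - v ^ n)⁻¹ := by
        field_simp
        ring
      rw [e1, Complex.add_re, Complex.re_ofReal_mul, ← hg]
      have h9 : ‖(w - e * γ * (1 - v ^ n)) * (1 - v ^ n)⁻¹‖ ≤ e * (g / 4) := by
        rw [norm_mul]
        calc ‖w - e * γ * (1 - v ^ n)‖ * ‖(1 - v ^ n)⁻¹‖ ≤ (e * E₀) * M1 :=
              mul_le_mul h1 (hb1 v hv) (norm_nonneg _) (by rw [hE₀]; positivity)
          _ = e * (M1 * E₀) := by ring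
          _ ≤ e * (g / 4) := mul_le_mul_of_nonneg_left hEc he.le
      have h10 := (abs_le.1 (Complex.abs_re_le_norm
        ((w - e * γ * (1 - v ^ n)) * (1 - v ^ n)⁻¹))).1
      linarith
    have h11 := (abs_le.1 h6).1
    have : 0 < e * g := by positivity
    linarith
  -- entering the disc
  have hin : ∀ v : ℂ, InW n v → (PP n).re + δ ≤ (tau n v).re → v ∉ closedBall (1 : ℂ) ρ → v ∈ C := by
    intro v h1 h2 h3
    rw [hCd]
    rw [mem_closedBall, dist_eq_norm] at h3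
    push Not at h3
    exact ⟨h1, h2, h3.le⟩
  have hex : ∃ k : ℕ, H^[k] v ∈ closedBall (1 : ℂ) ρ := by
    by_contra hcon
    push Not at hcon
    have hall : ∀ k : ℕ, InW n (H^[k] v) ∧ (PP n).re + δ + k * (e * (g / 4)) ≤
        (tau n (H^[k] v)).re := by
      intro k
      induction k with
      | zero => simpa using ⟨hv1, hv2⟩
      | succ k ih =>
        have hk : H^[k] v ∈ C := hin _ ih.1 (by
          have : 0 ≤ (k : ℝ) * (e * (g / 4)) := by positivity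
          linarith [ih.2]) (hcon k)
        have h3 := hstep _ hk
        rw [← Function.iterate_succ_apply' H k v] at h3
        refine ⟨h3.1, ?_⟩
        push_cast
        linarith [ih.2, h3.2]
    obtain ⟨k, hk⟩ := exists_nat_gt ((Hm - (PP n).re - δ) / (e * (g / 4)))
    rw [div_lt_iff₀ (by positivity)] at hk
    have h4 := hall k
    have h5 : H^[k] v ∈ C := hin _ h4.1 (by
      have : 0 ≤ (k : ℝ) * (e * (g / 4)) := by positivity
      linarith [h4.2]) (hcon k)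
    have := hHm _ h5
    linarith [h4.2]
  classical
  obtain ⟨k₀, hk₀, hmin⟩ : ∃ k₀ : ℕ, H^[k₀] v ∈ closedBall (1 : ℂ) ρ ∧
      ∀ k < k₀, H^[k] v ∉ closedBall (1 : ℂ) ρ :=
    ⟨Nat.find hex, Nat.find_spec hex, fun k hk => Nat.find_min hex hk⟩
  have hbefore : ∀ k ≤ k₀, InW n (H^[k] v) ∧ (PP n).re + δ ≤ (tau n (H^[k] v)).re := by
    intro k
    induction k with
    | zero => intro _; exact ⟨hv1, hv2⟩
    | succ k ih =>
      intro hk
      have h3 := ih (by omega)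
      have h4 := hstep _ (hin _ h3.1 h3.2 (hmin k (by omega)))
      rw [← Function.iterate_succ_apply' H k v] at h4
      have : 0 ≤ e * (g / 4) := by positivity
      exact ⟨h4.1, by linarith [h4.2]⟩
  obtain ⟨hst, x, hx, hfix, hder, hlim⟩ := htrH _ hk₀
  refine ⟨?_, x, hBM (closedBall_subset_ball (by linarith) hx), hfix, hder, ?_⟩
  · intro k
    rcases lt_or_ge k k₀ with h | h
    · have h3 := hbefore k h.le
      exact hCM _ (hin _ h3.1 h3.2 (hmin k h))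
    · have h4 := hst (k - k₀)
      rw [← Function.iterate_add_apply, Nat.sub_add_cancel h] at h4
      exact hBM (closedBall_subset_ball (by linarith) h4)
  · have h5 : Tendsto (fun k : ℕ => H^[k + k₀] v) atTop (𝓝 x) := by
      refine hlim.congr fun k => ?_
      rw [Function.iterate_add_apply]
    exact (tendsto_add_atTop_iff_nat (f := fun k : ℕ => H^[k] v) k₀).1 h5

end Run7.h904.SP
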