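import Mathlib
import Pool.Agent.Run7.h904.S6Cap

set_option autoImplicit false

open Topology Filter Metric Set

namespace Run7.h904.SP

/-- the time coordinate of a discrete orbit follows a straight line -/
theorem track (n : ℕ) (hn : 2 ≤ n) (γ z₀ : ℂ) (xa xb : ℝ) (η : ℝ) (hη : 0 < η) (hab : xa ≤ xb)
    (hN : ∀ x : ℝ, xa ≤ x → x ≤ xb → ∀ z : ℂ, ‖z - (z₀ + γ * x)‖ ≤ η → z ∉ Ry n) :
    ∃ M e₀ E₀ : ℝ, 0 < M ∧ 0 < e₀ ∧ 0 < E₀ ∧ ∀ e : ℝ, 0 < e → e < e₀ → ∀ H : ℂ → ℂ,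
      (∀ v ∈ ball (0 : ℂ) M, ‖H v - v - e * γ * (1 - v ^ n)‖ ≤ e * E₀) →
      ∀ v ∈ DD n, ∀ σ : ℝ, xa ≤ σ → ‖tau n v - (z₀ + γ * σ)‖ ≤ η / 2 →
        ∀ k : ℕ, σ + k * e ≤ xb → H^[k] v ∈ DD n ∧ H^[k] v ∈ ball (0 : ℂ) M ∧
          ‖tau n (H^[k] v) - (z₀ + γ * (σ + k * e : ℝ))‖ ≤ η := by
  obtain ⟨N, hNd⟩ : ∃ N : Set ℂ, N = (fun p : ℝ × ℂ => z₀ + γ * p.1 + p.2) ''
    (Icc xa xb ×ˢ closedBall (0 : ℂ) η) := ⟨_, rfl⟩
  have hNc : IsCompact N := by
    rw [hNd]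
    exact (isCompact_Icc.prod (isCompact_closedBall _ _)).image (by fun_prop)
  have hNm : ∀ x : ℝ, xa ≤ x → x ≤ xb → ∀ z : ℂ, ‖z - (z₀ + γ * x)‖ ≤ η → z ∈ N := by
    intro x h1 h2 z hz
    rw [hNd]
    refine ⟨(x, z - (z₀ + γ * x)), ⟨⟨h1, h2⟩, by rw [mem_closedBall_zero_iff]; exact hz⟩, ?_⟩
    simp
  have hNR : ∀ z ∈ N, z ∉ Ry n := by
    intro z hz
    rw [hNd] at hz
    obtain ⟨⟨x, w⟩, ⟨hx, hw⟩, rfl⟩ := hz
    refine hN x hx.1 hx.2 _ ?_
    simp only [add_sub_cancel_left]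
    simpa using hw
  have hC := comp_tau hn N hNc hNR
  obtain ⟨C, hCd⟩ : ∃ C : Set ℂ, C = {v | v ∈ DD n ∧ tau n v ∈ N} := ⟨_, rfl⟩
  rw [← hCd] at hC
  have hCD : C ⊆ DD n := by
    intro v hv
    rw [hCd] at hv
    exact hv.1
  obtain ⟨m₂, hm₂⟩ := hC.exists_bound_of_continuousOn (f := fun v : ℂ => 1 - v ^ n) (by fun_prop)
  obtain ⟨m₁, hm₁⟩ := hC.exists_bound_of_continuousOn (f := fun v : ℂ => (1 - v ^ n)⁻¹)
    (ContinuousOn.inv₀ (by fun_prop) fun v hv => sub_ne_of_DD (hCD hv))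
  obtain ⟨M₀, hM₀⟩ := hC.isBounded.exists_norm_le
  obtain ⟨M2, hM2⟩ : ∃ M2 : ℝ, M2 = max m₂ 1 := ⟨_, rfl⟩
  obtain ⟨M1, hM1⟩ : ∃ M1 : ℝ, M1 = max m₁ 1 := ⟨_, rfl⟩
  have hM2' : 1 ≤ M2 := by rw [hM2]; exact le_max_right _ _
  have hM1' : 1 ≤ M1 := by rw [hM1]; exact le_max_right _ _
  have hb2 : ∀ v ∈ C, ‖1 - v ^ n‖ ≤ M2 := fun v hv => (hm₂ v hv).trans (by
    rw [hM2]; exact le_max_left _ _)
  have hb1 : ∀ v ∈ C, ‖(1 - v ^ n)⁻¹‖ ≤ M1 := fun v hv => (hm₁ v hv).trans (by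
    rw [hM1]; exact le_max_left _ _)
  obtain ⟨T, hT⟩ : ∃ T : ℝ, T = xb - xa + 1 := ⟨_, rfl⟩
  have hT0 : 0 < T := by rw [hT]; linarith
  obtain ⟨κ, hκ⟩ : ∃ κ : ℝ, κ = η / (2 * T) := ⟨_, rfl⟩
  have hκ0 : 0 < κ := by rw [hκ]; positivity
  obtain ⟨G, hG⟩ : ∃ G : ℝ, G = ‖γ‖ := ⟨_, rfl⟩
  have hG0 : 0 ≤ G := by rw [hG]; exact norm_nonneg _
  obtain ⟨S, hS⟩ : ∃ S : ℝ, S = G * M2 + 1 := ⟨_, rfl⟩
  have hS0 : 0 < S := by rw [hS]; positivity
  obtain ⟨d, hd, husd⟩ := usd C hC (fun z z' => ‖tau n z' - tau n z -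
    (z' - z) * (1 / (1 - z ^ n))‖) (fun v₀ hv₀ => loc_tau hn v₀ (hCD hv₀)) (κ / (2 * S))
    (by positivity)
  obtain ⟨d', hd', hthick⟩ := hC.exists_thickening_subset_open (isOpen_DD n) hCD
  refine ⟨max M₀ 1 + 1, min (d / S) (d' / (2 * S)), min 1 (κ / (2 * M1)), by positivity,
    lt_min (by positivity) (by positivity), lt_min one_pos (by positivity), ?_⟩
  intro e he hee H hHb v hv σ hσ hstart
  obtain ⟨E₀, hE₀⟩ : ∃ E₀ : ℝ, E₀ = min 1 (κ / (2 * M1)) := ⟨_, rfl⟩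
  rw [← hE₀] at hHb
  have hE0 : 0 ≤ E₀ := by rw [hE₀]; positivity
  have hEb : E₀ ≤ 1 := by rw [hE₀]; exact min_le_left _ _
  have hEc : M1 * E₀ ≤ κ / 2 := by
    have : E₀ ≤ κ / (2 * M1) := by rw [hE₀]; exact min_le_right _ _
    rw [le_div_iff₀ (by positivity)] at this
    linarith
  have he2 : e * S ≤ d := by
    have := hee.trans_le (min_le_left _ _)
    rw [lt_div_iff₀ hS0] at this
    exact this.le
  have he3 : e * S < d' := by
    have := hee.trans_le (min_le_right _ _)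
    rw [lt_div_iff₀ (by positivity)] at this
    nlinarith [mul_pos he hS0]
  have hCM : ∀ v ∈ C, v ∈ ball (0 : ℂ) (max M₀ 1 + 1) := by
    intro v hv
    rw [mem_ball_zero_iff]
    have := (hM₀ v hv).trans (le_max_left M₀ 1)
    linarith
  have hstep : ∀ v ∈ C, H v ∈ DD n ∧ ‖tau n (H v) - tau n v - e * γ‖ ≤ e * κ := by
    intro v hv
    obtain ⟨w, hw⟩ : ∃ w : ℂ, w = H v - v := ⟨_, rfl⟩
    have hHv : H v = v + w := by rw [hw]; ring
    have h1 := hHb v (hCM v hv)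
    rw [← hw] at h1
    have h2 := hb2 v hv
    have hwn : ‖w‖ ≤ e * S := by
      have h3 : w = (w - e * γ * (1 - v ^ n)) + e * γ * (1 - v ^ n) := by ring
      rw [h3]
      refine (norm_add_le _ _).trans ?_
      rw [norm_mul, norm_mul, Complex.norm_of_nonneg he.le, ← hG, hS]
      have h4 : e * G * ‖1 - v ^ n‖ ≤ e * G * M2 := mul_le_mul_of_nonneg_left h2 (by positivity)
      have h5 : e * E₀ ≤ e * 1 := mul_le_mul_of_nonneg_left hEb he.le
      linarith
    constructor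
    · apply hthick
      rw [mem_thickening_iff]
      refine ⟨v, hv, ?_⟩
      rw [dist_eq_norm, ← hw]
      linarith
    have h6 := husd v hv w (by linarith)
    simp only [add_sub_cancel_left] at h6
    rw [← hHv] at h6
    have h7 : κ / (2 * S) * ‖w‖ ≤ e * (κ / 2) := by
      have := mul_le_mul_of_nonneg_left hwn (by positivity : 0 ≤ κ / (2 * S))
      refine this.trans (le_of_eq ?_)
      field_simp
    have hne := sub_ne_of_DD (hCD hv)
    have e1 : tau n (H v) - tau n v - e * γ = (tau n (H v) - tau n v - w * (1 / (1 - v ^ n))) +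
        (w - e * γ * (1 - v ^ n)) * (1 - v ^ n)⁻¹ := by
      field_simp
      ring
    have h9 : ‖(w - e * γ * (1 - v ^ n)) * (1 - v ^ n)⁻¹‖ ≤ e * (κ / 2) := by
      rw [norm_mul]
      calc ‖w - e * γ * (1 - v ^ n)‖ * ‖(1 - v ^ n)⁻¹‖ ≤ (e * E₀) * M1 :=
            mul_le_mul h1 (hb1 v hv) (norm_nonneg _) (by positivity)
        _ = e * (M1 * E₀) := by ring
        _ ≤ e * (κ / 2) := mul_le_mul_of_nonneg_left hEc he.le
    rw [e1]
    refine (norm_add_le _ _).trans ?_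
    linarith
  have hind : ∀ k : ℕ, σ + k * e ≤ xb → H^[k] v ∈ DD n ∧
      ‖tau n (H^[k] v) - (z₀ + γ * (σ + k * e : ℝ))‖ ≤ η / 2 + k * e * κ := by
    intro k
    induction k with
    | zero =>
      intro _
      refine ⟨hv, ?_⟩
      simpa using hstart
    | succ k ih =>
      intro hk
      push_cast at hk
      have h3 := ih (by linarith)
      have hke : (k : ℝ) * e * κ ≤ η / 2 := by
        have h4 : (k : ℝ) * e ≤ T := by rw [hT]; linarith
        have h5 := mul_le_mul_of_nonneg_right h4 hκ0.le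
        refine h5.trans (le_of_eq ?_)
        rw [hκ]
        field_simp
      have hCk : H^[k] v ∈ C := by
        rw [hCd]
        refine ⟨h3.1, hNm (σ + k * e) ?_ (by linarith) _ (by linarith [h3.2])⟩
        have : 0 ≤ (k : ℝ) * e := by positivity
        linarith
      have h6 := hstep _ hCk
      rw [← Function.iterate_succ_apply' H k v] at h6
      refine ⟨h6.1, ?_⟩
      have e2 : tau n (H^[k + 1] v) - (z₀ + γ * (σ + (k + 1 : ℕ) * e : ℝ)) =
          (tau n (H^[k + 1] v) - tau n (H^[k] v) - e * γ) +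
          (tau n (H^[k] v) - (z₀ + γ * (σ + k * e : ℝ))) := by
        push_cast
        ring
      rw [e2]
      refine (norm_add_le _ _).trans ?_
      have h8 : (((k + 1 : ℕ) : ℝ)) = (k : ℝ) + 1 := by push_cast; ring
      rw [h8]
      have h9 := add_le_add h6.2 h3.2
      refine h9.trans (le_of_eq ?_)
      ring
  intro k hk
  have h1 := hind k hk
  have hke : (k : ℝ) * e * κ ≤ η / 2 := by
    have h4 : (k : ℝ) * e ≤ T := by rw [hT]; linarith
    have h5 := mul_le_mul_of_nonneg_right h4 hκ0.le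
    refine h5.trans (le_of_eq ?_)
    rw [hκ]
    field_simp
  have hCk : H^[k] v ∈ C := by
    rw [hCd]
    refine ⟨h1.1, hNm (σ + k * e) ?_ hk _ (by linarith [h1.2])⟩
    have : 0 ≤ (k : ℝ) * e := by positivity
    linarith
  exact ⟨h1.1, hCM _ hCk, by linarith [h1.2]⟩

/-! ### geometry of the polygon -/

/-- the closed polygon -/
def Pol (n : ℕ) : Set ℂ := {z | ∀ ζ ∈ mu n, (z * ζ).re ≤ (PP n).re}

lemma PP_InW {n : ℕ} (hn : 2 ≤ n) : InW n (PP n) := by
  obtain ⟨L, hL, h, -⟩ := mid_ray hn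
  refine InW_of_arg hn ?_
  have : PP n = (L : ℂ) * (Complex.cos (al n : ℝ) + Complex.sin (al n : ℝ) * Complex.I) := by
    rw [h]; unfold ee; rw [Complex.exp_mul_I]
  have h1 := al_pos hn
  have h2 := al_le hn
  have h3 := Real.pi_pos
  rw [this, Complex.arg_mul_cos_add_sin_mul_I hL ⟨by linarith, by linarith⟩, abs_of_pos h1]

lemma PP_Pol {n : ℕ} (hn : 2 ≤ n) : PP n ∈ Pol n := fun _ hζ => vor hn (PP_InW hn) hζ

lemma conj_PP {n : ℕ} (hn : 2 ≤ n) : (starRingEnd ℂ) (PP n) = PP n * (ee (2 * al n))⁻¹ := by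
  obtain ⟨L, hL, h, -⟩ := mid_ray hn
  rw [h, map_mul, Complex.conj_ofReal, ee_conj, ← ee_neg, mul_assoc, ← ee_add]
  congr 2
  ring

/-- points of the polygon on the rays are vertices -/
lemma vertex_of {n : ℕ} (hn : 2 ≤ n) {z : ℂ} (h : z ∈ Pol n) (h1 : z ∈ Ry n) :
    ∃ η ∈ mu n, z = PP n * η := by
  have hn0 : 0 < n := by omega
  obtain ⟨ζ, hζ, h2, h3⟩ := h1
  have hζ0 := ne_zero_mu hn0 hζ
  have h4 : (z * ζ).re = (PP n).re := le_antisymm (h ζ hζ) h2
  rcases abs_choice (z * ζ).im with h5 | h5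
  · rw [h5] at h3
    have : z * ζ = PP n := Complex.ext h4 h3
    exact ⟨ζ⁻¹, inv_mem_mu hn0 hζ, by rw [← this]; field_simp⟩
  · rw [h5] at h3
    have : z * ζ = (starRingEnd ℂ) (PP n) := Complex.ext (by rw [Complex.conj_re]; exact h4) (by
      rw [Complex.conj_im]; linarith)
    rw [conj_PP hn] at this
    refine ⟨(ee (2 * al n))⁻¹ * ζ⁻¹, mul_mem_mu hn0 (inv_mem_mu hn0 (ee_two_al_mem hn))
      (inv_mem_mu hn0 hζ), ?_⟩
    rw [← mul_assoc, ← this]
    field_simp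

lemma isClosed_Ry {n : ℕ} : IsClosed (Ry n) := by
  have h : Ry n = ⋃ ζ ∈ mu n, {z : ℂ | (PP n).re ≤ (z * ζ).re ∧ |(z * ζ).im| = (PP n).im} := by
    ext z
    simp only [Ry, mem_ofPred_eq, mem_iUnion, exists_prop]
  rw [h]
  refine Set.Finite.isClosed_biUnion (mu n).finite_toSet ?_
  intro ζ _
  have c1 : Continuous fun z : ℂ => (z * ζ).re := by fun_prop
  have c2 : Continuous fun z : ℂ => |(z * ζ).im| := by fun_prop
  exact (isClosed_le continuous_const c1).inter (isClosed_eq c2 continuous_const)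

/-- the line leaves the polygon through a side -/
theorem exit1 {n : ℕ} (hn : 2 ≤ n) (γ z₀ : ℂ) (hz : z₀ ∈ Pol n)
    (h1 : ∀ ζ ∈ mu n, (γ * ζ).re ≠ 0)
    (h2 : ∀ x : ℝ, 0 < x → ∀ η ∈ mu n, z₀ + γ * x ≠ PP n * η)
    (h3 : 3 ≤ n ∨ z₀ = 0)
    (h4 : (∀ ζ ∈ mu n, 0 < (γ * ζ).re → (z₀ * ζ).re < (PP n).re) ∨ z₀ = 0) :
    ∃ x₁ : ℝ, 0 < x₁ ∧ ∃ ζ ∈ mu n, 0 < (γ * ζ).re ∧ (PP n).re < ((z₀ + γ * x₁) * ζ).re ∧
      |((z₀ + γ * x₁) * ζ).im| < (PP n).im ∧ ∀ x : ℝ, 0 < x → x ≤ x₁ → z₀ + γ * x ∉ Ry n := by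
  classical
  have hn0 : 0 < n := by omega
  have hγ : γ ≠ 0 := by
    rintro rfl
    exact h1 1 (one_mem_mu hn) (by simp)
  have hb := PP_im_pos hn
  obtain ⟨Sp, hSp⟩ : ∃ Sp : Finset ℂ, Sp = (mu n).filter fun ζ => 0 < (γ * ζ).re := ⟨_, rfl⟩
  have hne : Sp.Nonempty := by
    obtain ⟨ζ, hζ, harg⟩ := exists_rot hn hγ
    refine ⟨ζ, ?_⟩
    rw [hSp, Finset.mem_filter]
    refine ⟨hζ, lt_of_le_of_ne ?_ (Ne.symm (h1 ζ hζ))⟩
    have e := re_mul_ee 0 (γ * ζ)
    rw [ee_zero, mul_one, add_zero] at e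
    rw [e]
    have := al_le hn
    rw [abs_le] at harg
    exact mul_nonneg (norm_nonneg _) (Real.cos_nonneg_of_mem_Icc ⟨by linarith, by linarith⟩)
  obtain ⟨ζ, hζ, hmin⟩ := Finset.exists_min_image Sp
    (fun ζ => ((PP n).re - (z₀ * ζ).re) / (γ * ζ).re) hne
  rw [hSp, Finset.mem_filter] at hζ
  obtain ⟨xs, hxs⟩ : ∃ xs : ℝ, xs = ((PP n).re - (z₀ * ζ).re) / (γ * ζ).re := ⟨_, rfl⟩
  have hxs0 : 0 ≤ xs := by
    rw [hxs]
    exact div_nonneg (by linarith [hz ζ hζ.1]) hζ.2.le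
  have hlin : ∀ (x : ℝ) (η : ℂ), ((z₀ + γ * x) * η).re = (z₀ * η).re + x * (γ * η).re := by
    intro x η
    rw [show (z₀ + γ * x) * η = z₀ * η + (x : ℂ) * (γ * η) by ring, Complex.add_re,
      Complex.re_ofReal_mul]
  have hPol : ∀ x : ℝ, 0 ≤ x → x ≤ xs → z₀ + γ * x ∈ Pol n := by
    intro x hx0 hx1 η hη
    rw [hlin]
    by_cases hp : 0 < (γ * η).re
    · have h5 := hmin η (by rw [hSp, Finset.mem_filter]; exact ⟨hη, hp⟩)
      simp only [← hxs] at h5
      rw [le_div_iff₀ hp] at h5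
      have := mul_le_mul_of_nonneg_right hx1 hp.le
      linarith
    · push Not at hp
      have := mul_nonpos_of_nonneg_of_nonpos hx0 hp
      linarith [hz η hη]
  obtain ⟨zs, hzs⟩ : ∃ zs : ℂ, zs = z₀ + γ * xs := ⟨_, rfl⟩
  have hzsP : zs ∈ Pol n := by rw [hzs]; exact hPol xs hxs0 le_rfl
  have hzsre : (zs * ζ).re = (PP n).re := by
    rw [hzs, hlin, hxs, div_mul_cancel₀ _ hζ.2.ne']
    ring
  have hnv : ∀ η ∈ mu n, zs ≠ PP n * η := by
    intro η hη h0
    rcases eq_or_lt_of_le hxs0 with h5 | h5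
    · rw [hzs, ← h5, Complex.ofReal_zero, mul_zero, add_zero] at h0
      rcases h4 with h4 | h4
      · have := h4 ζ hζ.1 hζ.2
        have h6 : (PP n).re - (z₀ * ζ).re = 0 := by
          rw [hxs] at h5
          exact (div_eq_zero_iff.1 h5.symm).resolve_right hζ.2.ne'
        linarith
      · rw [h4] at h0
        have h7 : PP n = 0 := (mul_eq_zero.1 h0.symm).resolve_right (ne_zero_mu hn0 hη)
        rw [h7, Complex.zero_im] at hb
        exact lt_irrefl _ hb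
    · rw [hzs] at h0
      exact h2 xs h5 η hη h0
  have hzR : zs ∉ Ry n := by
    intro h0
    obtain ⟨η, hη, h5⟩ := vertex_of hn hzsP h0
    exact hnv η hη h5
  have him : |(zs * ζ).im| < (PP n).im := by
    by_cases hn3 : 3 ≤ n
    · -- side of the polygon
      have hca : 0 < Real.cos (al n) := by
        have h5 := al_pos hn
        refine Real.cos_pos_of_mem_Ioo ⟨by linarith [Real.pi_pos], ?_⟩
        unfold al
        have : (3 : ℝ) ≤ n := by exact_mod_cast hn3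
        have hpi := Real.pi_pos
        rw [div_lt_div_iff₀ (by positivity) (by norm_num)]
        nlinarith
      have hsa := sin_al hn
      obtain ⟨L, hL, hP, -⟩ := mid_ray hn
      have hPre : (PP n).re = L * Real.cos (al n) := by rw [hP, Complex.re_ofReal_mul, re_ee]
      have hPim : (PP n).im = L * Real.sin (al n) := by rw [hP, Complex.im_ofReal_mul, im_ee]
      obtain ⟨y, hy⟩ : ∃ y : ℝ, y = (zs * ζ).im := ⟨_, rfl⟩
      have hc2 : Real.cos (2 * al n) = 1 - 2 * Real.sin (al n) ^ 2 := by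
        rw [Real.cos_two_mul]
        have := Real.sin_sq_add_cos_sq (al n)
        linarith
      have hs2 : Real.sin (2 * al n) = 2 * Real.sin (al n) * Real.cos (al n) := Real.sin_two_mul _
      have hside : ∀ s : ℝ, s = 1 ∨ s = -1 → s * y ≤ (PP n).im := by
        intro s hs
        have hmem : ζ * ee (-(s * (2 * al n))) ∈ mu n := by
          refine mul_mem_mu hn0 hζ.1 ?_
          rcases hs with hs | hs
          · rw [hs, one_mul, ee_neg]; exact inv_mem_mu hn0 (ee_two_al_mem hn)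
          · rw [hs, neg_one_mul, neg_neg]; exact ee_two_al_mem hn
        have h5 := hzsP _ hmem
        rw [← mul_assoc, Complex.mul_re, hzsre, ← hy, re_ee, im_ee, Real.cos_neg, Real.sin_neg] at h5
        have h6 : Real.cos (s * (2 * al n)) = Real.cos (2 * al n) := by
          rcases hs with hs | hs
          · rw [hs, one_mul]
          · rw [hs, neg_one_mul, Real.cos_neg]
        have h7 : Real.sin (s * (2 * al n)) = s * Real.sin (2 * al n) := by
          rcases hs with hs | hs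
          · rw [hs, one_mul, one_mul]
          · rw [hs, neg_one_mul, Real.sin_neg, neg_one_mul]
        rw [h6, h7, hc2, hs2, hPre] at h5
        rw [hPim]
        have h8 : 0 < 2 * Real.sin (al n) * Real.cos (al n) := by positivity
        have h9 : (2 * Real.sin (al n) * Real.cos (al n)) * (s * y) ≤
            (2 * Real.sin (al n) * Real.cos (al n)) * (L * Real.sin (al n)) := by
          nlinarith
        exact le_of_mul_le_mul_left h9 h8
      have h5 := hside 1 (Or.inl rfl)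
      have h6 := hside (-1) (Or.inr rfl)
      rw [one_mul] at h5
      rw [← hy]
      refine lt_of_le_of_ne (abs_le.2 ⟨by linarith, h5⟩) ?_
      intro h7
      apply hzR
      exact ⟨ζ, hζ.1, hzsre.ge, by rw [← hy]; exact h7⟩
    · have hn2 : n = 2 := by omega
      have hz0 : z₀ = 0 := h3.resolve_left hn3
      have hPre : (PP n).re = 0 := by
        obtain ⟨L, hL, hP, -⟩ := mid_ray hn
        rw [hP, Complex.re_ofReal_mul, re_ee, hn2]
        unfold al
        rw [Nat.cast_ofNat, Real.cos_pi_div_two, mul_zero]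
      have : xs = 0 := by
        rw [hxs, hz0, hPre]
        simp
      rw [hzs, this, hz0]
      simpa using hb
  -- move a little further
  have hcont : Continuous fun x : ℝ => z₀ + γ * x := by fun_prop
  have c1 : ∀ᶠ x : ℝ in 𝓝 xs, z₀ + γ * x ∉ Ry n := by
    have := hcont.continuousAt (x := xs)
    refine this.eventually (isClosed_Ry.isOpen_compl.mem_nhds ?_)
    show z₀ + γ * (xs : ℂ) ∈ (Ry n)ᶜ
    rw [← hzs]
    exact hzR
  have c2 : ∀ᶠ x : ℝ in 𝓝 xs, |((z₀ + γ * x) * ζ).im| < (PP n).im := by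
    have hc : Continuous fun x : ℝ => |((z₀ + γ * x) * ζ).im| := by fun_prop
    refine hc.continuousAt.eventually (gt_mem_nhds ?_)
    show |((z₀ + γ * (xs : ℂ)) * ζ).im| < (PP n).im
    rw [← hzs]
    exact him
  obtain ⟨ε, hε, hball⟩ := Metric.eventually_nhds_iff_ball.1 (c1.and c2)
  refine ⟨xs + ε / 2, by linarith, ζ, hζ.1, hζ.2, ?_, ?_, ?_⟩
  · rw [hlin]
    have h5 : (z₀ * ζ).re + xs * (γ * ζ).re = (PP n).re := by
      rw [← hlin, ← hzs]; exact hzsre
    have := mul_pos (half_pos hε) hζ.2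
    linarith
  · refine (hball (xs + ε / 2) ?_).2
    rw [mem_ball, Real.dist_eq, add_sub_cancel_left, abs_of_pos (by positivity)]
    linarith
  · intro x hx0 hx1
    rcases le_or_gt x xs with h5 | h5
    · intro h0
      obtain ⟨η, hη, h6⟩ := vertex_of hn (hPol x hx0.le h5) h0
      exact h2 x hx0 η hη h6
    · refine (hball x ?_).1
      rw [mem_ball, Real.dist_eq, abs_of_pos (by linarith)]
      linarith

end Run7.h904.SP
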