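import Mathlib
import Pool.Agent.Run7.h904.S7Trk

set_option autoImplicit false

open Topology Filter Metric Set

namespace Run7.h904.SP

lemma strip_wedge {n : ℕ} (hn : 2 ≤ n) {z : ℂ} (h1 : (PP n).re < z.re) (h2 : |z.im| < (PP n).im) :
    InWo n z := by
  obtain ⟨L, hL, hP, -⟩ := mid_ray hn
  have hPre : (PP n).re = L * Real.cos (al n) := by rw [hP, Complex.re_ofReal_mul, re_ee]
  have hPim : (PP n).im = L * Real.sin (al n) := by rw [hP, Complex.im_ofReal_mul, im_ee]
  have hs := sin_al hn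
  have hc := cos_al hn
  rw [abs_lt] at h2
  have h3 := mul_lt_mul_of_pos_left h1 hs
  have h4 := mul_le_mul_of_nonneg_left h2.1.le hc
  have h5 := mul_le_mul_of_nonneg_left h2.2.le hc
  rw [hPim] at h4 h5
  rw [hPre] at h3
  constructor
  · rw [Complex.mul_im, re_ee, im_ee]
    nlinarith
  · rw [Complex.mul_im, re_ee, im_ee, Real.cos_neg, Real.sin_neg]
    nlinarith

/-- discrete orbits which start near the line reach a sink -/
theorem global (n : ℕ) (hn : 2 ≤ n) (γ z₀ : ℂ) (x₁ : ℝ) (ζ : ℂ) (hζ : ζ ∈ mu n)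
    (h1 : 0 < (γ * ζ).re) (xa η : ℝ) (hxa : xa ≤ x₁) (hη : 0 < η)
    (hend : ∀ z : ℂ, ‖z - (z₀ + γ * x₁)‖ ≤ 2 * η → (PP n).re < (z * ζ).re ∧
      |(z * ζ).im| < (PP n).im)
    (hN : ∀ x : ℝ, xa ≤ x → x ≤ x₁ → ∀ z : ℂ, ‖z - (z₀ + γ * x)‖ ≤ η → z ∉ Ry n) :
    ∃ M e₀ E₀ : ℝ, 0 < M ∧ 0 < e₀ ∧ 0 < E₀ ∧ ∀ e : ℝ, 0 < e → e < e₀ → ∀ H : ℂ → ℂ,
      DifferentiableOn ℂ H (ball 0 M) →
      (∀ v ∈ ball (0 : ℂ) M, ‖H v - v - e * γ * (1 - v ^ n)‖ ≤ e * E₀) →
      ∀ v ∈ DD n, ∀ σ : ℝ, xa ≤ σ → σ ≤ x₁ → ‖tau n v - (z₀ + γ * σ)‖ ≤ η / 2 →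
        (∀ k : ℕ, H^[k] v ∈ ball (0 : ℂ) M) ∧ ∃ x ∈ ball (0 : ℂ) M, H x = x ∧ ‖deriv H x‖ < 1 ∧
          Tendsto (fun k : ℕ => H^[k] v) atTop (𝓝 x) := by
  have hn0 : 0 < n := by omega
  have hζ0 := ne_zero_mu hn0 hζ
  have hζn := norm_mu hn0 hζ
  -- margin at the end
  obtain ⟨δ, hδ, hmar⟩ : ∃ δ : ℝ, 0 < δ ∧ ∀ z : ℂ, ‖z - (z₀ + γ * x₁)‖ ≤ 2 * η →
      (PP n).re + δ ≤ (z * ζ).re := by
    have hc : ContinuousOn (fun z : ℂ => (z * ζ).re) (closedBall (z₀ + γ * x₁) (2 * η)) := by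
      fun_prop
    obtain ⟨zm, hzm, hmin⟩ := (isCompact_closedBall (z₀ + γ * x₁) (2 * η)).exists_isMinOn
      ⟨_, mem_closedBall_self (by positivity)⟩ hc
    refine ⟨(zm * ζ).re - (PP n).re, ?_, ?_⟩
    · rw [mem_closedBall, dist_eq_norm] at hzm
      linarith [(hend zm hzm).1]
    · intro z hz
      have := hmin (a := z) (by rw [mem_closedBall, dist_eq_norm]; exact hz)
      rw [mem_ofPred_eq] at this
      linarith
  obtain ⟨M₁, e₁, E₁, hM₁, he₁, hE₁, htrk⟩ := track n hn γ z₀ xa x₁ η hη hxa hN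
  obtain ⟨M₂, e₂, E₂, hM₂, he₂, hE₂, hcap⟩ := capture n hn (γ * ζ) h1 δ hδ
  refine ⟨max M₁ M₂, min (min e₁ e₂) (η / (‖γ‖ + 1)), min E₁ E₂, lt_max_of_lt_left hM₁,
    lt_min (lt_min he₁ he₂) (by positivity), lt_min hE₁ hE₂, ?_⟩
  intro e he hee H hH hHb v hv σ hσ0 hσ1 hstart
  have he1 : e < e₁ := hee.trans_le ((min_le_left _ _).trans (min_le_left _ _))
  have he2 : e < e₂ := hee.trans_le ((min_le_left _ _).trans (min_le_right _ _))
  have he3 : ‖γ‖ * e ≤ η := by
    have := hee.trans_le (min_le_right _ _)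
    rw [lt_div_iff₀ (by positivity)] at this
    nlinarith
  have hs1 : ball (0 : ℂ) M₁ ⊆ ball 0 (max M₁ M₂) := ball_subset_ball (le_max_left _ _)
  have hs2 : ball (0 : ℂ) M₂ ⊆ ball 0 (max M₁ M₂) := ball_subset_ball (le_max_right _ _)
  have htr := htrk e he he1 H (fun w hw => (hHb w (hs1 hw)).trans
    (mul_le_mul_of_nonneg_left (min_le_left _ _) he.le)) v hv σ hσ0 hstart
  -- the last step before the end
  obtain ⟨j, hj⟩ : ∃ j : ℕ, j = ⌊(x₁ - σ) / e⌋₊ := ⟨_, rfl⟩
  have hj1 : σ + j * e ≤ x₁ := by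
    have := Nat.floor_le (div_nonneg (sub_nonneg.2 hσ1) he.le : 0 ≤ (x₁ - σ) / e)
    rw [← hj, le_div_iff₀ he] at this
    linarith
  have hj2 : x₁ < σ + j * e + e := by
    have := Nat.lt_floor_add_one ((x₁ - σ) / e)
    rw [← hj, div_lt_iff₀ he] at this
    linarith
  obtain ⟨hD, -, hτ⟩ := htr j hj1
  have hτ2 : ‖tau n (H^[j] v) - (z₀ + γ * x₁)‖ ≤ 2 * η := by
    have e1 : tau n (H^[j] v) - (z₀ + γ * x₁) = (tau n (H^[j] v) - (z₀ + γ * (σ + j * e : ℝ))) +
        γ * ((σ + j * e : ℝ) - x₁ : ℝ) := by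
      push_cast
      ring
    rw [e1]
    refine (norm_add_le _ _).trans ?_
    rw [norm_mul, Complex.norm_real, Real.norm_eq_abs, abs_of_nonpos (by linarith)]
    have : ‖γ‖ * -(σ + j * e - x₁) ≤ ‖γ‖ * e := mul_le_mul_of_nonneg_left (by linarith)
      (norm_nonneg _)
    linarith
  obtain ⟨u, hu⟩ : ∃ u : ℂ, u = ζ * H^[j] v := ⟨_, rfl⟩
  have hτu : tau n u = tau n (H^[j] v) * ζ := by rw [hu, tau_mul hn0 hζ, mul_comm]
  have huD : u ∈ DD n := by rw [hu]; exact (mul_mem_DD hn0 hζ).2 hD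
  obtain ⟨k1, k2⟩ := hend _ hτ2
  rw [← hτu] at k1 k2
  have hsec := sector_of_wedge hn huD (strip_wedge hn k1 k2)
  have huW : InW n u := InW_of_arg hn hsec.2.le
  have huh : (PP n).re + δ ≤ (tau n u).re := by
    rw [hτu]; exact hmar _ hτ2
  -- the rotated map
  obtain ⟨K, hK⟩ : ∃ K : ℂ → ℂ, K = fun u => ζ * H (ζ⁻¹ * u) := ⟨_, rfl⟩
  have hKmem : ∀ u ∈ ball (0 : ℂ) M₂, ζ⁻¹ * u ∈ ball (0 : ℂ) M₂ := by
    intro u hu
    rw [mem_ball_zero_iff] at hu ⊢
    rwa [norm_mul, norm_inv, hζn, inv_one, one_mul]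
  have hKd : DifferentiableOn ℂ K (ball 0 M₂) := by
    rw [hK]
    refine DifferentiableOn.const_mul ?_ ζ
    exact (hH.mono hs2).comp (by fun_prop) hKmem
  have hKb : ∀ u ∈ ball (0 : ℂ) M₂, ‖K u - u - e * (γ * ζ) * (1 - u ^ n)‖ ≤ e * E₂ := by
    intro u hu
    have h3 := hHb _ (hs2 (hKmem u hu))
    have e1 : K u - u - e * (γ * ζ) * (1 - u ^ n) =
        ζ * (H (ζ⁻¹ * u) - ζ⁻¹ * u - e * γ * (1 - (ζ⁻¹ * u) ^ n)) := by
      have : (ζ⁻¹ * u) ^ n = u ^ n := by
        rw [mul_pow, inv_pow, (mem_mu hn0 ζ).1 hζ, inv_one, one_mul]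
      rw [this, hK]
      field_simp
    rw [e1, norm_mul, hζn, one_mul]
    exact h3.trans (mul_le_mul_of_nonneg_left (min_le_right _ _) he.le)
  obtain ⟨hst, x, hx, hfix, hder, hlim⟩ := hcap e he he2 K hKd hKb u huW huh
  have hKit : ∀ k : ℕ, K^[k] u = ζ * H^[k + j] v := by
    intro k
    induction k with
    | zero => simp [hu]
    | succ k ih =>
      rw [Function.iterate_succ_apply', ih, hK]
      simp only
      rw [show ζ⁻¹ * (ζ * H^[k + j] v) = H^[k + j] v by field_simp,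
        show k + 1 + j = (k + j) + 1 by ring, Function.iterate_succ_apply' H (k + j) v]
  have hHx : H (ζ⁻¹ * x) = ζ⁻¹ * x := by
    rw [hK] at hfix
    simp only at hfix
    calc H (ζ⁻¹ * x) = ζ⁻¹ * (ζ * H (ζ⁻¹ * x)) := by field_simp
      _ = ζ⁻¹ * x := by rw [hfix]
  refine ⟨?_, ζ⁻¹ * x, hs2 (hKmem x hx), hHx, ?_, ?_⟩
  · intro k
    rcases lt_or_ge k j with h | h
    · refine hs1 (htr k ?_).2.1
      have : (k : ℝ) * e ≤ j * e := by
        have : (k : ℝ) ≤ j := by exact_mod_cast h.le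
        exact mul_le_mul_of_nonneg_right this he.le
      linarith
    · have h4 := hst (k - j)
      rw [hKit, Nat.sub_add_cancel h, mem_ball_zero_iff, norm_mul, hζn, one_mul] at h4
      exact hs2 (by rw [mem_ball_zero_iff]; exact h4)
  · have h5 : HasDerivAt H (deriv H (ζ⁻¹ * x)) (ζ⁻¹ * x) :=
      ((hH _ (hs2 (hKmem x hx))).differentiableAt
        (isOpen_ball.mem_nhds (hs2 (hKmem x hx)))).hasDerivAt
    have h6 : HasDerivAt (fun u : ℂ => ζ⁻¹ * u) ζ⁻¹ x := by
      simpa using (hasDerivAt_id' x).const_mul ζ⁻¹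
    have h7 : HasDerivAt K (ζ * (deriv H (ζ⁻¹ * x) * ζ⁻¹)) x := by
      rw [hK]
      exact (h5.comp x h6).const_mul ζ
    rw [h7.deriv] at hder
    rwa [show ζ * (deriv H (ζ⁻¹ * x) * ζ⁻¹) = deriv H (ζ⁻¹ * x) by field_simp] at hder
  · have h5 : Tendsto (fun k : ℕ => H^[k + j] v) atTop (𝓝 (ζ⁻¹ * x)) := by
      have := hlim.const_mul ζ⁻¹
      refine this.congr fun k => ?_
      rw [hKit]
      field_simp
    exact (tendsto_add_atTop_iff_nat (f := fun k : ℕ => H^[k] v) j).1 h5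

/-- near a vertex a generic line is far from the rays -/
lemma vertex_cone {n : ℕ} (hn : 2 ≤ n) (γ : ℂ) (h : ∀ ζ ∈ mu n, (γ * ζ).im ≠ 0) :
    ∃ x₀ c : ℝ, 0 < x₀ ∧ 0 < c ∧ ∀ x : ℝ, 0 < x → x ≤ x₀ → ∀ z : ℂ,
      ‖z - (PP n + γ * x)‖ ≤ c * x → z ∉ Ry n := by
  classical
  have hn0 : 0 < n := by omega
  have hb := PP_im_pos hn
  -- for each root of unity
  have key : ∀ ζ ∈ mu n, ∃ x₀ c : ℝ, 0 < x₀ ∧ 0 < c ∧ ∀ x : ℝ, 0 < x → x ≤ x₀ → ∀ z : ℂ,
      ‖z - (PP n + γ * x)‖ ≤ c * x → ¬ ((PP n).re ≤ (z * ζ).re ∧ |(z * ζ).im| = (PP n).im) := by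
    intro ζ hζ
    have hζn := norm_mu hn0 hζ
    have hle := PP_Pol hn ζ hζ
    rcases lt_or_eq_of_le hle with h1 | h1
    · obtain ⟨d, hd⟩ : ∃ d : ℝ, d = (PP n).re - (PP n * ζ).re := ⟨_, rfl⟩
      have hd0 : 0 < d := by rw [hd]; linarith
      refine ⟨d / (2 * (‖γ‖ + 1)), 1, by positivity, one_pos, ?_⟩
      rintro x hx0 hx1 z hz ⟨h2, -⟩
      have h3 : z * ζ = PP n * ζ + ((z - (PP n + γ * x)) * ζ + (x : ℂ) * (γ * ζ)) := by ring
      have h4 : ‖(z - (PP n + γ * x)) * ζ + (x : ℂ) * (γ * ζ)‖ ≤ (1 + ‖γ‖) * x := by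
        refine (norm_add_le _ _).trans ?_
        rw [norm_mul, norm_mul, norm_mul, hζn, Complex.norm_of_nonneg hx0.le]
        linarith
      have h5 := Complex.re_le_norm ((z - (PP n + γ * x)) * ζ + (x : ℂ) * (γ * ζ))
      rw [h3, Complex.add_re] at h2
      rw [le_div_iff₀ (by positivity)] at hx1
      linarith
    · have h2 : |(PP n * ζ).im| = (PP n).im := by
        have e1 : ‖PP n * ζ‖ ^ 2 = ‖PP n‖ ^ 2 := by rw [norm_mul, hζn, mul_one]
        rw [← Complex.normSq_eq_norm_sq, ← Complex.normSq_eq_norm_sq, Complex.normSq_apply,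
          Complex.normSq_apply, h1] at e1
        have e2 : (PP n * ζ).im ^ 2 = (PP n).im ^ 2 := by nlinarith
        rw [← abs_of_pos hb]
        exact (sq_eq_sq_iff_abs_eq_abs _ _).1 e2
      obtain ⟨m, hm⟩ : ∃ m : ℝ, m = |(γ * ζ).im| := ⟨_, rfl⟩
      have hm0 : 0 < m := by rw [hm]; exact abs_pos.mpr (h ζ hζ)
      refine ⟨(PP n).im / (‖γ‖ + m + 1), m / 2, by positivity, by positivity, ?_⟩
      rintro x hx0 hx1 z hz ⟨-, h3⟩
      obtain ⟨w, hw⟩ : ∃ w : ℝ, w = ((z - (PP n + γ * x)) * ζ).im + x * (γ * ζ).im := ⟨_, rfl⟩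
      have e3 : (z * ζ).im = (PP n * ζ).im + w := by
        have : z * ζ = PP n * ζ + ((z - (PP n + γ * x)) * ζ + (x : ℂ) * (γ * ζ)) := by ring
        rw [this, Complex.add_im, Complex.add_im, Complex.im_ofReal_mul, hw]
      have e4 : |((z - (PP n + γ * x)) * ζ).im| ≤ m / 2 * x := by
        refine (Complex.abs_im_le_norm _).trans ?_
        rw [norm_mul, hζn, mul_one]
        exact hz
      have e5 : m * x ≤ |x * (γ * ζ).im| := by
        rw [abs_mul, abs_of_pos hx0, ← hm, mul_comm]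
      have e6 : |x * (γ * ζ).im| ≤ ‖γ‖ * x := by
        rw [abs_mul, abs_of_pos hx0, mul_comm]
        refine mul_le_mul_of_nonneg_right ?_ hx0.le
        refine (Complex.abs_im_le_norm _).trans ?_
        rw [norm_mul, hζn, mul_one]
      have e7 : m / 2 * x ≤ |w| := by
        rw [hw]
        have := abs_sub_abs_le_abs_sub (x * (γ * ζ).im) (-((z - (PP n + γ * x)) * ζ).im)
        rw [abs_neg, sub_neg_eq_add, add_comm (x * (γ * ζ).im)] at this
        linarith
      have e8 : |w| < (PP n).im := by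
        rw [hw]
        have h8 := abs_add_le ((z - (PP n + γ * x)) * ζ).im (x * (γ * ζ).im)
        rw [le_div_iff₀ (by positivity)] at hx1
        have : m * x > 0 := by positivity
        nlinarith
      have e9 : 0 < |w| := by
        have : 0 < m / 2 * x := by positivity
        linarith
      rw [e3] at h3
      -- two cases for the sign
      rcases abs_choice (PP n * ζ).im with g1 | g1
      · rw [g1] at h2
        rw [h2] at h3
        rcases abs_choice ((PP n).im + w) with g2 | g2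
        · rw [g2] at h3
          have : w = 0 := by linarith
          rw [this, abs_zero] at e9
          exact lt_irrefl _ e9
        · rw [g2] at h3
          have : w = -2 * (PP n).im := by linarith
          rw [this, abs_mul, abs_of_pos hb] at e8
          norm_num at e8
          linarith
      · rw [g1] at h2
        have h2' : (PP n * ζ).im = -(PP n).im := by linarith
        rw [h2'] at h3
        rcases abs_choice (-(PP n).im + w) with g2 | g2
        · rw [g2] at h3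
          have : w = 2 * (PP n).im := by linarith
          rw [this, abs_mul, abs_of_pos hb] at e8
          norm_num at e8
          linarith
        · rw [g2] at h3
          have : w = 0 := by linarith
          rw [this, abs_zero] at e9
          exact lt_irrefl _ e9
  choose! X C hX hC hall using key
  have hne : (mu n).Nonempty := ⟨_, one_mem_mu hn⟩
  obtain ⟨ζ1, hζ1, hmin1⟩ := Finset.exists_min_image (mu n) X hne
  obtain ⟨ζ2, hζ2, hmin2⟩ := Finset.exists_min_image (mu n) C hne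
  refine ⟨X ζ1, C ζ2, hX ζ1 hζ1, hC ζ2 hζ2, ?_⟩
  rintro x hx0 hx1 z hz ⟨ζ, hζ, h1, h2⟩
  refine hall ζ hζ x hx0 (hx1.trans (hmin1 ζ hζ)) z (hz.trans ?_) ⟨h1, h2⟩
  exact mul_le_mul_of_nonneg_right (hmin2 ζ hζ) hx0.le

/-- the line from the vertex reaches a strip -/
theorem exit_PP {n : ℕ} (hn : 2 ≤ n) (γ : ℂ) (h1 : ∀ ζ ∈ mu n, (γ * ζ).re ≠ 0)
    (h2 : ∀ ζ ∈ mu n, (γ * ζ).im ≠ 0)
    (h3 : ∀ η ∈ mu n, η ≠ 1 → ((starRingEnd ℂ) (PP n * η - PP n) * γ).im ≠ 0)
    (h4 : γ.im < 0 ∨ 0 < (γ * (ee (2 * al n))⁻¹).im) :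
    ∃ x₁ : ℝ, 0 < x₁ ∧ ∃ ζ ∈ mu n, 0 < (γ * ζ).re ∧ (PP n).re < ((PP n + γ * x₁) * ζ).re ∧
      |((PP n + γ * x₁) * ζ).im| < (PP n).im ∧
      ∃ c : ℝ, 0 < c ∧ ∀ x : ℝ, 0 < x → x ≤ x₁ → ∀ z : ℂ, ‖z - (PP n + γ * x)‖ ≤ c * x → z ∉ Ry n := by
  have hn0 : 0 < n := by omega
  have hb := PP_im_pos hn
  obtain ⟨x₀, c, hx₀, hc, hcone⟩ := vertex_cone hn γ h2
  obtain ⟨ω, hω⟩ : ∃ ω : ℂ, ω = (ee (2 * al n))⁻¹ := ⟨_, rfl⟩
  have hωm : ω ∈ mu n := by rw [hω]; exact inv_mem_mu hn0 (ee_two_al_mem hn)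
  have hωn := norm_mu hn0 hωm
  rw [← hω] at h4
  by_cases hA : γ.im < 0 ∧ 0 < γ.re
  · -- directly into the strip below
    obtain ⟨x₁, hx₁⟩ : ∃ x₁ : ℝ, x₁ = min x₀ ((PP n).im / (‖γ‖ + 1)) := ⟨_, rfl⟩
    have hx10 : 0 < x₁ := by rw [hx₁]; exact lt_min hx₀ (by positivity)
    have hx1b : x₁ * (‖γ‖ + 1) ≤ (PP n).im := by
      have : x₁ ≤ (PP n).im / (‖γ‖ + 1) := by rw [hx₁]; exact min_le_right _ _
      rwa [le_div_iff₀ (by positivity)] at this
    refine ⟨x₁, hx10, 1, one_mem_mu hn, by rw [mul_one]; exact hA.2, ?_, ?_, c, hc, ?_⟩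
    · rw [mul_one, mul_comm γ, Complex.add_re, Complex.re_ofReal_mul]
      have := mul_pos hx10 hA.2
      linarith
    · rw [mul_one, mul_comm γ, Complex.add_im, Complex.im_ofReal_mul, abs_lt]
      have h5 := (abs_le.1 (Complex.abs_im_le_norm γ)).1
      have h6 := mul_pos_of_neg_of_neg (neg_lt_zero.2 hx10) hA.1
      have h7 := mul_le_mul_of_nonneg_left h5 hx10.le
      constructor
      · nlinarith
      · linarith
    · intro x hx0 hx1
      exact hcone x hx0 (hx1.trans (by rw [hx₁]; exact min_le_left _ _))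
  by_cases hB : 0 < (γ * ω).im ∧ 0 < (γ * ω).re
  · obtain ⟨x₁, hx₁⟩ : ∃ x₁ : ℝ, x₁ = min x₀ ((PP n).im / (‖γ‖ + 1)) := ⟨_, rfl⟩
    have hx10 : 0 < x₁ := by rw [hx₁]; exact lt_min hx₀ (by positivity)
    have hx1b : x₁ * (‖γ‖ + 1) ≤ (PP n).im := by
      have : x₁ ≤ (PP n).im / (‖γ‖ + 1) := by rw [hx₁]; exact min_le_right _ _
      rwa [le_div_iff₀ (by positivity)] at this
    have hPω : PP n * ω = (starRingEnd ℂ) (PP n) := by rw [hω]; exact (conj_PP hn).symm
    have e1 : (PP n + γ * x₁) * ω = (starRingEnd ℂ) (PP n) + (x₁ : ℂ) * (γ * ω) := by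
      rw [← hPω]; ring
    refine ⟨x₁, hx10, ω, hωm, hB.2, ?_, ?_, c, hc, ?_⟩
    · rw [e1, Complex.add_re, Complex.re_ofReal_mul, Complex.conj_re]
      have := mul_pos hx10 hB.2
      linarith
    · rw [e1, Complex.add_im, Complex.im_ofReal_mul, Complex.conj_im, abs_lt]
      have h5 := (abs_le.1 (Complex.abs_im_le_norm (γ * ω))).2
      rw [norm_mul, hωn, mul_one] at h5
      have h6 := mul_pos hx10 hB.1
      have h7 := mul_le_mul_of_nonneg_left h5 hx10.le
      constructor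
      · linarith
      · nlinarith
    · intro x hx0 hx1
      exact hcone x hx0 (hx1.trans (by rw [hx₁]; exact min_le_left _ _))
  · -- through the polygon
    have hcs : (ee (2 * al n)).re = Real.cos (2 * al n) ∧ (ee (2 * al n)).im = Real.sin (2 * al n) :=
      ⟨re_ee _, im_ee _⟩
    have hγω : γ = ee (2 * al n) * (γ * ω) := by
      rw [hω]
      field_simp [ee_ne]
    have hre : γ.re = Real.cos (2 * al n) * (γ * ω).re - Real.sin (2 * al n) * (γ * ω).im := by
      conv_lhs => rw [hγω]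
      rw [Complex.mul_re, hcs.1, hcs.2]
    have him : γ.im = Real.sin (2 * al n) * (γ * ω).re + Real.cos (2 * al n) * (γ * ω).im := by
      conv_lhs => rw [hγω]
      rw [Complex.mul_im, hcs.1, hcs.2]
      ring
    have hsn : 0 ≤ Real.sin (2 * al n) := by
      refine Real.sin_nonneg_of_nonneg_of_le_pi ?_ ?_
      · have := al_pos hn; linarith
      · have := al_le hn; linarith
    have hg1 : γ.re ≠ 0 := by
      have := h1 1 (one_mem_mu hn)
      rwa [mul_one] at this
    have hg2 := h1 ω hωm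
    have hgi1 : γ.im ≠ 0 := by
      have := h2 1 (one_mem_mu hn)
      rwa [mul_one] at this
    have hgi2 := h2 ω hωm
    have hneg : γ.re < 0 ∧ (γ * ω).re < 0 := by
      rcases lt_or_gt_of_ne hg1 with a1 | a1
      · refine ⟨a1, ?_⟩
        rcases lt_or_gt_of_ne hg2 with a2 | a2
        · exact a2
        · exfalso
          have a3 : (γ * ω).im < 0 := by
            rcases lt_or_gt_of_ne hgi2 with a4 | a4
            · exact a4
            · exact absurd ⟨a4, a2⟩ hB
          rcases h4 with h4 | h4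
          · -- contradiction by trigonometry
            have b1 : Real.cos (2 * al n) < 0 := by
              by_contra hcon
              push Not at hcon
              have := mul_nonneg hcon a2.le
              have := mul_nonneg_of_nonpos_of_nonpos (neg_nonpos.2 hsn) a3.le
              nlinarith
            have := mul_nonneg hsn a2.le
            have := mul_pos_of_neg_of_neg b1 a3
            linarith
          · linarith
      · exfalso
        have a3 : 0 < γ.im := by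
          rcases lt_or_gt_of_ne hgi1 with a4 | a4
          · exact absurd ⟨a4, a1⟩ hA
          · exact a4
        rcases h4 with h4 | h4
        · linarith
        · have a2 : (γ * ω).re < 0 := by
            rcases lt_or_gt_of_ne hg2 with a4 | a4
            · exact a4
            · exact absurd ⟨h4, a4⟩ hB
          have b1 : Real.cos (2 * al n) < 0 := by
            by_contra hcon
            push Not at hcon
            have := mul_nonneg hcon (neg_nonneg.2 a2.le)
            have := mul_nonneg hsn h4.le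
            nlinarith
          have := mul_nonneg hsn (neg_nonneg.2 a2.le)
          have := mul_pos (neg_pos.2 b1) h4
          nlinarith
    have hn3 : 3 ≤ n := by
      by_contra hcon
      have hn2 : n = 2 := by omega
      have : Real.cos (2 * al n) = -1 := by
        rw [hn2]; unfold al
        rw [Nat.cast_ofNat, mul_div_cancel₀ _ (two_ne_zero), Real.cos_pi]
      have h5 : Real.sin (2 * al n) = 0 := by
        rw [hn2]; unfold al
        rw [Nat.cast_ofNat, mul_div_cancel₀ _ (two_ne_zero), Real.sin_pi]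
      rw [this, h5] at hre
      linarith [hneg.1, hneg.2]
    obtain ⟨x₁, hx1, ζ, hζ, g1, g2, g3, g4⟩ := exit1 hn γ (PP n) (PP_Pol hn) h1 (by
      intro x hx η hη h0
      by_cases hη1 : η = 1
      · rw [hη1, mul_one] at h0
        have : γ * x = 0 := by linear_combination h0
        rcases mul_eq_zero.1 this with h5 | h5
        · rw [h5] at hg1; simp at hg1
        · have : x = 0 := by exact_mod_cast h5
          linarith
      · apply h3 η hη hη1
        have : PP n * η - PP n = (x : ℂ) * γ := by linear_combination -h0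
        rw [this, map_mul, Complex.conj_ofReal, mul_assoc, Complex.im_ofReal_mul,
          mul_comm ((starRingEnd ℂ) γ), Complex.mul_conj, Complex.ofReal_im, mul_zero])
      (Or.inl hn3) (Or.inl (by
        intro ζ hζ hpos
        refine lt_of_le_of_ne (PP_Pol hn ζ hζ) ?_
        intro h5
        -- then `ζ` is one of the two adjacent sides
        have e1 : ‖PP n * ζ‖ ^ 2 = ‖PP n‖ ^ 2 := by rw [norm_mul, norm_mu hn0 hζ, mul_one]
        rw [← Complex.normSq_eq_norm_sq, ← Complex.normSq_eq_norm_sq, Complex.normSq_apply,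
          Complex.normSq_apply, h5] at e1
        have e2 : ((PP n * ζ).im - (PP n).im) * ((PP n * ζ).im + (PP n).im) = 0 := by nlinarith
        have hP0 : PP n ≠ 0 := by
          intro h0
          rw [h0, Complex.zero_im] at hb
          exact lt_irrefl _ hb
        rcases mul_eq_zero.1 e2 with e3 | e3
        · have e4 : PP n * ζ = PP n := Complex.ext h5 (by linarith)
          have e5 : ζ = 1 := mul_left_cancel₀ hP0 (by rw [e4, mul_one])
          rw [e5, mul_one] at hpos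
          linarith [hneg.1]
        · have e4 : PP n * ζ = PP n * ω := by
            rw [hω, ← conj_PP hn]
            exact Complex.ext (by rw [Complex.conj_re]; exact h5) (by
              rw [Complex.conj_im]; linarith)
          have e5 : ζ = ω := mul_left_cancel₀ hP0 e4
          rw [e5] at hpos
          linarith [hneg.2]))
    refine ⟨x₁, hx1, ζ, hζ, g1, g2, g3, ?_⟩
    -- the distance from the rays away from the vertex
    by_cases hx01 : x₁ ≤ x₀
    · exact ⟨c, hc, fun x hx0 hx1 => hcone x hx0 (hx1.trans hx01)⟩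
    push Not at hx01
    obtain ⟨K, hK⟩ : ∃ K : Set ℂ, K = (fun x : ℝ => PP n + γ * x) '' Icc x₀ x₁ := ⟨_, rfl⟩
    have hKc : IsCompact K := by rw [hK]; exact isCompact_Icc.image (by fun_prop)
    have hdis : Disjoint K (Ry n) := by
      rw [Set.disjoint_left, hK]
      rintro _ ⟨x, hx, rfl⟩
      exact g4 x (hx₀.trans_le hx.1) hx.2
    obtain ⟨d, hd, hdd⟩ := Metric.exists_pos_forall_lt_edist hKc isClosed_Ry hdis
    have hd' : (0 : ℝ) < d := by exact_mod_cast hd
    refine ⟨min c (d / (x₁ + 1)), lt_min hc (by positivity), ?_⟩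
    intro x hx0 hx1 z hz hzR
    rcases le_or_gt x x₀ with h5 | h5
    · exact hcone x hx0 h5 z (hz.trans (mul_le_mul_of_nonneg_right (min_le_left _ _) hx0.le)) hzR
    · have h6 := hdd (PP n + γ * x) (by rw [hK]; exact ⟨x, ⟨h5.le, hx1⟩, rfl⟩) z hzR
      rw [edist_nndist, ENNReal.coe_lt_coe] at h6
      have h7 : (d : ℝ) < dist (PP n + γ * x) z := by exact_mod_cast h6
      rw [dist_comm, dist_eq_norm] at h7
      have h8 : min c (d / (x₁ + 1)) * x ≤ d / (x₁ + 1) * (x₁ + 1) :=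
        mul_le_mul (min_le_right _ _) (by linarith) hx0.le (by positivity)
      rw [div_mul_cancel₀ _ (by positivity)] at h8
      linarith

end Run7.h904.SP
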