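import Mathlib
import Pool.Agent.Run7.h904.S8Glb
import Pool.Agent.Run7.h904.PLoc

set_option autoImplicit false

open Topology Filter Metric Set

namespace Run7.h904.SP

open Pool.Agent.H713R5.QJ.PBLAux (quad invpow uu ord)
open Run7.h904.PF (uu_norm core2)

/-- the direction of the orbit -/
noncomputable def YY (k : ℕ) (al z : ℂ) : ℂ := z * (uu k al z) ^ ((k : ℂ)⁻¹)

lemma YY_pow (k : ℕ) (hk : 1 ≤ k) (al z : ℂ) (hal : al ≠ 0) (hz : z ≠ 0) :
    YY k al z ^ k = -1 / (k * al) := by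
  unfold YY
  rw [mul_pow, Complex.cpow_nat_inv_pow _ (by omega)]
  unfold uu
  have hk0 : (k : ℂ) ≠ 0 := by exact_mod_cast (by omega : k ≠ 0)
  field_simp

lemma finite_pow (k : ℕ) (hk : 1 ≤ k) (a : ℂ) : {y : ℂ | y ^ k = a}.Finite := by
  classical
  refine (Polynomial.nthRoots k a).toFinset.finite_toSet.subset ?_
  intro y hy
  rw [Finset.mem_coe, Multiset.mem_toFinset, Polynomial.mem_nthRoots (by omega)]
  exact hy

lemma uu_mul (k : ℕ) (al z x : ℂ) : uu k al (z * (1 + x)) = uu k al z * ((1 + x) ^ k)⁻¹ := by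
  unfold uu
  rw [mul_pow, ← mul_assoc, div_mul_eq_div_div, div_eq_mul_inv _ ((1 + x) ^ k)]

/-- the direction is locally constant -/
lemma YY_const (k : ℕ) (hk : 1 ≤ k) (al : ℂ) (hal : al ≠ 0) : ∃ c : ℝ, 0 < c ∧ c ≤ 1 / 2 ∧
    ∀ z w : ℂ, z ≠ 0 → ‖uu k al z‖ < 2 * (uu k al z).re → ‖w - z‖ ≤ c * ‖z‖ →
      YY k al w = YY k al z := by
  obtain ⟨ς, hς0, hς⟩ : ∃ ς : ℝ, 0 < ς ∧ ∀ v : ℂ, ‖v‖ ≤ ς → ‖((1 + v) ^ k)⁻¹ - 1‖ ≤ 1 / 2 := by
    have hc : ContinuousAt (fun v : ℂ => ((1 + v) ^ k)⁻¹ - 1) 0 := by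
      refine ContinuousAt.sub (ContinuousAt.inv₀ (by fun_prop) (by simp)) continuousAt_const
    obtain ⟨d, hd, hball⟩ := (Metric.continuousAt_iff.mp hc) (1 / 2) (by norm_num)
    refine ⟨d / 2, by positivity, fun v hv => ?_⟩
    have := hball (x := v) (by rw [dist_zero_right]; linarith)
    simpa using this.le
  refine ⟨min ς (1 / 2), lt_min hς0 (by norm_num), min_le_right _ _, ?_⟩
  intro z w hz hre hw
  have hzn : 0 < ‖z‖ := norm_pos_iff.mpr hz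
  have hseg : ∀ p ∈ segment ℝ z w, p ≠ 0 ∧ 0 < (uu k al p).re := by
    intro p hp
    obtain ⟨x, hx⟩ : ∃ x : ℂ, x = (p - z) / z := ⟨_, rfl⟩
    have hpx : p = z * (1 + x) := by rw [hx]; field_simp; ring
    have hpz : ‖p - z‖ ≤ ‖w - z‖ := norm_sub_le_of_mem_segment hp
    have hxn : ‖x‖ ≤ min ς (1 / 2) := by
      rw [hx, norm_div, div_le_iff₀ hzn]
      exact hpz.trans hw
    have h1 := hς x (hxn.trans (min_le_left _ _))
    have h2 : ‖x‖ ≤ 1 / 2 := hxn.trans (min_le_right _ _)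
    have h1x : 1 + x ≠ 0 := by
      intro h0
      have : x = -1 := by linear_combination h0
      rw [this, norm_neg, norm_one] at h2
      norm_num at h2
    refine ⟨by rw [hpx]; exact mul_ne_zero hz h1x, ?_⟩
    rw [hpx, uu_mul]
    obtain ⟨q, hq⟩ : ∃ q : ℂ, q = ((1 + x) ^ k)⁻¹ - 1 := ⟨_, rfl⟩
    rw [← hq] at h1
    have e : uu k al z * ((1 + x) ^ k)⁻¹ = uu k al z + uu k al z * q := by rw [hq]; ring
    rw [e, Complex.add_re]
    have h3 := (abs_le.1 (Complex.abs_re_le_norm (uu k al z * q))).1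
    rw [norm_mul] at h3
    have h4 : ‖uu k al z‖ * ‖q‖ ≤ ‖uu k al z‖ * (1 / 2) :=
      mul_le_mul_of_nonneg_left h1 (norm_nonneg _)
    linarith
  have hpc : IsPreconnected (segment ℝ z w) := (convex_segment z w).isPreconnected
  have hcont : ContinuousOn (YY k al) (segment ℝ z w) := by
    intro p hp
    obtain ⟨h1, h2⟩ := hseg p hp
    refine ContinuousAt.continuousWithinAt ?_
    unfold YY
    have hk0 : (k : ℂ) ≠ 0 := by exact_mod_cast (by omega : k ≠ 0)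
    have hc : ContinuousAt (uu k al) p := by
      unfold uu
      refine continuousAt_const.div (by fun_prop) ?_
      exact mul_ne_zero (mul_ne_zero hk0 hal) (pow_ne_zero _ h1)
    refine continuousAt_id.mul (ContinuousAt.cpow hc continuousAt_const ?_)
    exact Or.inl h2
  obtain ⟨T, hT⟩ : ∃ T : Set ℂ, T = {y : ℂ | y ^ k = -1 / (k * al)} := ⟨_, rfl⟩
  have hTf : T.Finite := by
    rw [hT]; exact (finite_pow k hk _)
  have hmaps : MapsTo (YY k al) (segment ℝ z w) T := by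
    intro p hp
    rw [hT]
    exact YY_pow k hk al p hal (hseg p hp).1
  exact (hpc.constant_of_mapsTo hTf.isDiscrete hcont hmaps (left_mem_segment ℝ z w)
    (right_mem_segment ℝ z w)).symm

/-- one step of the cone estimate -/
lemma cone_step (U U' : ℂ) (η : ℝ) (hη : η ≤ 1 / 7) (h : ‖U' - U - 1‖ ≤ η)
    (hc : 3 / 4 * ‖U‖ ≤ U.re) : 3 / 4 * ‖U'‖ ≤ U'.re := by
  have h1 : U' = U + 1 + (U' - U - 1) := by ring
  have h2 : ‖U'‖ ≤ ‖U‖ + 1 + η := by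
    rw [h1]
    refine (norm_add_le _ _).trans (add_le_add ((norm_add_le _ _).trans ?_) h)
    rw [norm_one]
  have h3 : U.re + 1 - η ≤ U'.re := by
    have h4 := (abs_le.1 (Complex.abs_re_le_norm (U' - U - 1))).1
    simp only [Complex.sub_re, Complex.one_re] at h4
    linarith
  linarith

/-- the entrance into the region of size `s` -/
theorem entr (k : ℕ) (hk : 1 ≤ k) (al β κ : ℂ) (hal : al ≠ 0) (hκ : κ ≠ 0)
    (CA r1 : ℝ) (hCA : 0 ≤ CA) (hr1 : 0 < r1) (F : ℂ → ℂ)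
    (hord : ∀ z : ℂ, ‖z‖ ≤ r1 → ‖F z - z - al * z ^ (k + 1)‖ ≤ CA * ‖z‖ ^ (k + 2))
    (ε Kmin : ℝ) (hε : 0 < ε) (hε1 : ε ≤ 1) :
    ∃ K : ℝ, Kmin ≤ K ∧ 0 < K ∧ ∀ R : ℝ, 0 < R → ∃ r2 : ℝ, 0 < r2 ∧ r2 ≤ r1 ∧ r2 ≤ R ∧
      ∀ B : ℝ, ∃ s₀ : ℝ, 0 < s₀ ∧
      ∀ s : ℝ, 0 < s → s < s₀ → ∀ G : ℂ → ℂ,
        (∀ z : ℂ, ‖z‖ ≤ r2 → ‖G z - F z - (s : ℂ) ^ (k + 1) * β‖ ≤ s ^ (k + 1)) →
        ∀ z : ℂ, z ≠ 0 → ‖z‖ ≤ r2 / 2 → 3 / 4 * ‖uu k al z‖ ≤ (uu k al z).re → ‖uu k al z‖ ≤ B →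
          ∃ m : ℕ, (∀ i ≤ m, ‖G^[i] z‖ ≤ r2) ∧ G^[m] z ≠ 0 ∧
            K / 2 * (s * ‖κ‖) ≤ ‖G^[m] z‖ ∧ ‖G^[m] z‖ ≤ K * (s * ‖κ‖) ∧
            ‖uu k al (G^[m] z) - (‖uu k al (G^[m] z)‖ : ℂ)‖ ≤ ε * ‖uu k al (G^[m] z)‖ ∧
            YY k al (G^[m] z) = YY k al z := by
  obtain ⟨cY, hcY, hcY2, hY⟩ := YY_const k hk al hal
  have ha0 : 0 < ‖al‖ := norm_pos_iff.mpr hal
  have hκ0 : 0 < ‖κ‖ := norm_pos_iff.mpr hκ
  have hk1 : (1 : ℝ) ≤ k := by exact_mod_cast hk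
  obtain ⟨η, hη⟩ : ∃ η : ℝ, η = min (min (1 / 14) (ε / 16)) cY := ⟨_, rfl⟩
  have hη0 : 0 < η := by rw [hη]; exact lt_min (lt_min (by norm_num) (by positivity)) hcY
  have hηa : η ≤ 1 / 14 := by rw [hη]; exact (min_le_left _ _).trans (min_le_left _ _)
  have hηb : η ≤ ε / 16 := by rw [hη]; exact (min_le_left _ _).trans (min_le_right _ _)
  have hηc : η ≤ cY := by rw [hη]; exact min_le_right _ _
  -- the choice of `K`
  obtain ⟨D, hD⟩ : ∃ D : ℝ, D = (‖β‖ + 1) / (‖al‖ * η) := ⟨_, rfl⟩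
  have hD0 : 0 < D := by rw [hD]; positivity
  obtain ⟨K, hK⟩ : ∃ K : ℝ, K = max Kmin (max (1 / ‖κ‖) (D / ‖κ‖)) := ⟨_, rfl⟩
  have hK1 : Kmin ≤ K := by rw [hK]; exact le_max_left _ _
  have hK2 : 1 / ‖κ‖ ≤ K := by rw [hK]; exact (le_max_left _ _).trans (le_max_right _ _)
  have hK3 : D / ‖κ‖ ≤ K := by rw [hK]; exact (le_max_right _ _).trans (le_max_right _ _)
  have hK0 : 0 < K := lt_of_lt_of_le (by positivity) hK2
  refine ⟨K, hK1, hK0, ?_⟩
  intro R hR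
  obtain ⟨Q, hQ⟩ : ∃ Q : ℝ, Q = K * ‖κ‖ := ⟨_, rfl⟩
  have hQ1 : 1 ≤ Q := by rw [hQ]; rw [div_le_iff₀ hκ0] at hK2; exact hK2
  have hQD : D ≤ Q := by rw [hQ]; rw [div_le_iff₀ hκ0] at hK3; exact hK3
  have hQ0 : 0 < Q := by linarith
  obtain ⟨c1, hc1⟩ : ∃ c1 : ℝ, c1 = Q ^ (k + 1) / (‖β‖ + 1) := ⟨_, rfl⟩
  have hc10 : 0 < c1 := by rw [hc1]; positivity
  have hc1a : 1 / (c1 * ‖al‖) ≤ η := by
    rw [div_le_iff₀ (by positivity), hc1]
    have h1 : Q ≤ Q ^ (k + 1) := by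
      calc Q = Q ^ 1 := (pow_one _).symm
        _ ≤ Q ^ (k + 1) := pow_le_pow_right₀ hQ1 (by omega)
    have h2 : D ≤ Q ^ (k + 1) := hQD.trans h1
    rw [hD, div_le_iff₀ (by positivity)] at h2
    rw [div_mul_eq_mul_div, ← mul_div_assoc, le_div_iff₀ (by positivity)]
    linarith
  obtain ⟨r2', hr2', hr2r', hcore⟩ := core2 k al hk hal CA 0 r1 c1 η hCA le_rfl hr1 hc10 hη0
  obtain ⟨r2, hr2d⟩ : ∃ r2 : ℝ, r2 = min r2' R := ⟨_, rfl⟩
  have hr2 : 0 < r2 := by rw [hr2d]; exact lt_min hr2' hR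
  have hr2a : r2 ≤ r2' := by rw [hr2d]; exact min_le_left _ _
  have hr2r : r2 ≤ r1 := hr2a.trans hr2r'
  refine ⟨r2, hr2, hr2r, by rw [hr2d]; exact min_le_right _ _, ?_⟩
  intro B
  obtain ⟨B', hB'⟩ : ∃ B' : ℝ, B' = max B 1 := ⟨_, rfl⟩
  have hB'1 : 1 ≤ B' := by rw [hB']; exact le_max_right _ _
  have hBB : B ≤ B' := by rw [hB']; exact le_max_left _ _
  -- the choice of `s₀`
  obtain ⟨W, hW⟩ : ∃ W : ℝ, W = 8 * B' / ε := ⟨_, rfl⟩
  have hW0 : 0 < W := by rw [hW]; positivity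
  have hWB : B' < W := by
    rw [hW, lt_div_iff₀ hε]
    nlinarith
  obtain ⟨s₀, hs₀⟩ : ∃ s₀ : ℝ, s₀ = min 1 (1 / (k * ‖al‖ * W * Q ^ k)) := ⟨_, rfl⟩
  have hs₀0 : 0 < s₀ := by rw [hs₀]; exact lt_min one_pos (by positivity)
  refine ⟨s₀, hs₀0, ?_⟩
  intro s hs hss G hG z hz hzr hcone hzB
  have hs1 : s ≤ 1 := (hss.trans_le (by rw [hs₀]; exact min_le_left _ _)).le
  have hsW : W < 1 / (k * ‖al‖ * (Q * s) ^ k) := by
    have h1 : s < 1 / (k * ‖al‖ * W * Q ^ k) := hss.trans_le (by rw [hs₀]; exact min_le_right _ _)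
    rw [lt_div_iff₀ (by positivity)] at h1 ⊢
    have h2 : s ^ k ≤ s := by
      calc s ^ k ≤ s ^ 1 := pow_le_pow_of_le_one hs.le hs1 hk
        _ = s := pow_one s
    have h3 : (k * ‖al‖ * W * Q ^ k) * s ^ k ≤ (k * ‖al‖ * W * Q ^ k) * s :=
      mul_le_mul_of_nonneg_left h2 (by positivity)
    rw [mul_pow]
    nlinarith
  -- one step
  have hstep : ∀ w : ℂ, w ≠ 0 → ‖w‖ ≤ r2 → Q * s < ‖w‖ →
      G w ≠ 0 ∧ ‖uu k al (G w) - uu k al w - 1‖ ≤ 2 * η ∧ ‖G w - w‖ ≤ η * ‖w‖ := by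
    intro w hw hwr hQw
    have hwp : 0 < ‖w‖ := norm_pos_iff.mpr hw
    obtain ⟨μ, hμ⟩ : ∃ μ : ℂ, μ = (G w - F w) / w := ⟨_, rfl⟩
    have hμn : ‖μ‖ ≤ s ^ (k + 1) * (‖β‖ + 1) / ‖w‖ := by
      rw [hμ, norm_div]
      refine div_le_div_of_nonneg_right ?_ hwp.le
      have h1 := hG w hwr
      have h2 : G w - F w = (G w - F w - (s : ℂ) ^ (k + 1) * β) + (s : ℂ) ^ (k + 1) * β := by ring
      rw [h2]
      refine (norm_add_le _ _).trans ?_
      rw [norm_mul, norm_pow, Complex.norm_of_nonneg hs.le]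
      linarith
    have hμ1 : c1 * ‖μ‖ < ‖w‖ ^ k := by
      have h1 : c1 * ‖μ‖ ≤ c1 * (s ^ (k + 1) * (‖β‖ + 1) / ‖w‖) :=
        mul_le_mul_of_nonneg_left hμn hc10.le
      have h2 : c1 * (s ^ (k + 1) * (‖β‖ + 1) / ‖w‖) = (Q * s) ^ (k + 1) / ‖w‖ := by
        rw [hc1, mul_pow]
        field_simp
      rw [h2] at h1
      refine h1.trans_lt ?_
      rw [div_lt_iff₀ hwp, ← pow_succ]
      exact pow_lt_pow_left₀ hQw (by positivity) (by omega)
    have h3 := hcore μ w (G w) hw (hwr.trans hr2a) (by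
      have e : G w - w - al * w ^ (k + 1) - μ * w = F w - w - al * w ^ (k + 1) := by
        rw [hμ]; field_simp; ring
      rw [e]
      have := hord w (hwr.trans hr2r)
      linarith) hμ1
    refine ⟨h3.1, ?_, h3.2.2⟩
    have h4 : ‖(k : ℂ) * μ * uu k al w‖ ≤ η := by
      rw [norm_mul, norm_mul, uu_norm, Complex.norm_natCast]
      have e1 : (k : ℝ) * ‖μ‖ * (1 / (k * ‖al‖ * ‖w‖ ^ k)) = ‖μ‖ / (‖al‖ * ‖w‖ ^ k) := by
        field_simp
      rw [e1]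
      refine le_trans ?_ hc1a
      rw [div_le_div_iff₀ (by positivity) (by positivity)]
      have := mul_le_mul_of_nonneg_right hμ1.le ha0.le
      linarith
    have e2 : uu k al (G w) - uu k al w - 1 =
        (uu k al (G w) - (1 - k * μ) * uu k al w - 1) - (k : ℂ) * μ * uu k al w := by ring
    rw [e2]
    refine (norm_sub_le _ _).trans ?_
    linarith [h3.2.1]
  -- the orbit
  obtain ⟨U, hU⟩ : ∃ U : ℕ → ℂ, U = fun i => uu k al (G^[i] z) := ⟨_, rfl⟩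
  have hUi : ∀ i, U i = uu k al (G^[i] z) := fun i => by rw [hU]
  have hU0 : U 0 = uu k al z := hUi 0
  have hpow : ∀ w : ℂ, w ≠ 0 → ‖w‖ ^ k = 1 / (k * ‖al‖ * ‖uu k al w‖) := by
    intro w hw
    have hwp : 0 < ‖w‖ := norm_pos_iff.mpr hw
    rw [uu_norm]
    field_simp
  have hsmall : ∀ w : ℂ, w ≠ 0 → 3 / 4 * ‖uu k al z‖ ≤ ‖uu k al w‖ → ‖w‖ ≤ r2 := by
    intro w hw h1
    have h2 := hpow w hw
    have h3 := hpow z hz
    have hup : 0 < ‖uu k al z‖ := by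
      rw [uu_norm]
      have : 0 < ‖z‖ := norm_pos_iff.mpr hz
      positivity
    have hwp : 0 < ‖uu k al w‖ := lt_of_lt_of_le (by positivity) h1
    have h4 : ‖w‖ ^ k ≤ 4 / 3 * ‖z‖ ^ k := by
      rw [h2, h3, ← mul_div_assoc, mul_one, div_le_div_iff₀ (by positivity) (by positivity)]
      have h5 : 0 < (k : ℝ) * ‖al‖ := by positivity
      nlinarith
    have h5 : ‖z‖ ^ k ≤ (r2 / 2) ^ k := pow_le_pow_left₀ (norm_nonneg _) hzr k
    have h6 : (r2 / 2) ^ k ≤ r2 ^ k / 2 := by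
      rw [div_pow]
      refine div_le_div_of_nonneg_left (by positivity) (by norm_num) ?_
      calc (2 : ℝ) = 2 ^ 1 := (pow_one _).symm
        _ ≤ 2 ^ k := pow_le_pow_right₀ (by norm_num) hk
    have h7 : ‖w‖ ^ k ≤ r2 ^ k := by
      have : 0 < r2 ^ k := by positivity
      linarith
    exact le_of_pow_le_pow_left₀ (by omega) hr2.le h7
  have hind : ∀ i : ℕ, (∀ j < i, Q * s < ‖G^[j] z‖) → G^[i] z ≠ 0 ∧ 3 / 4 * ‖U i‖ ≤ (U i).re ∧
      ‖U i - U 0 - i‖ ≤ 2 * η * i ∧ YY k al (G^[i] z) = YY k al z ∧ ‖G^[i] z‖ ≤ r2 := by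
    intro i
    induction i with
    | zero =>
      intro _
      refine ⟨hz, by rw [hU0]; exact hcone, by simp, rfl, ?_⟩
      show ‖z‖ ≤ r2
      linarith
    | succ i ih =>
      intro hall
      obtain ⟨g1, g2, g3, g4, g5⟩ := ih fun j hj => hall j (by omega)
      obtain ⟨f1, f2, f3⟩ := hstep _ g1 g5 (hall i (by omega))
      rw [← Function.iterate_succ_apply' G i z] at f1 f2 f3
      rw [← hUi, ← hUi] at f2
      have c2 := cone_step (U i) (U (i + 1)) (2 * η) (by linarith) f2 g2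
      have c3 : ‖U (i + 1) - U 0 - (i + 1 : ℕ)‖ ≤ 2 * η * (i + 1 : ℕ) := by
        have e : U (i + 1) - U 0 - (i + 1 : ℕ) = (U (i + 1) - U i - 1) + (U i - U 0 - i) := by
          push_cast; ring
        rw [e]
        refine (norm_add_le _ _).trans ?_
        push_cast
        linarith
      refine ⟨f1, c2, c3, ?_, ?_⟩
      · rw [← g4]
        refine hY _ _ g1 ?_ (f3.trans (mul_le_mul_of_nonneg_right hηc (norm_nonneg _)))
        rw [← hUi]
        have : 0 < ‖U i‖ := by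
          rw [hUi, uu_norm]
          have : 0 < ‖G^[i] z‖ := norm_pos_iff.mpr g1
          positivity
        linarith
      · refine hsmall _ f1 ?_
        rw [← hUi, ← hU0]
        have h1 : (U 0).re + (i + 1 : ℕ) - 2 * η * (i + 1 : ℕ) ≤ (U (i + 1)).re := by
          have := (abs_le.1 (Complex.abs_re_le_norm (U (i + 1) - U 0 - (i + 1 : ℕ)))).1
          rw [Complex.sub_re, Complex.sub_re, Complex.natCast_re] at this
          linarith
        have h2 : (0 : ℝ) ≤ (i + 1 : ℕ) := by positivity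
        have h3 : 2 * η * ((i + 1 : ℕ) : ℝ) ≤ (i + 1 : ℕ) := by nlinarith
        have h4 := Complex.re_le_norm (U (i + 1))
        rw [hU0] at h1 ⊢
        linarith
  -- the exit time
  have hex : ∃ m : ℕ, ‖G^[m] z‖ ≤ Q * s := by
    by_contra hcon
    push Not at hcon
    obtain ⟨i, hi⟩ := exists_nat_gt (2 * (1 / (k * ‖al‖ * (Q * s) ^ k) + ‖U 0‖))
    obtain ⟨g1, -, g3, -, -⟩ := hind i fun j _ => hcon j
    have h1 : ‖U i‖ ≤ 1 / (k * ‖al‖ * (Q * s) ^ k) := by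
      rw [hUi, uu_norm]
      refine one_div_le_one_div_of_le (by positivity) ?_
      exact mul_le_mul_of_nonneg_left (pow_le_pow_left₀ (by positivity) (hcon i).le k)
        (by positivity)
    have h2 : (i : ℝ) ≤ ‖U i‖ + ‖U 0‖ + 2 * η * i := by
      have e : (i : ℂ) = U i - U 0 - (U i - U 0 - i) := by ring
      have h3 : ‖(i : ℂ)‖ = (i : ℝ) := Complex.norm_natCast i
      rw [← h3]
      conv_lhs => rw [e]
      refine (norm_sub_le _ _).trans (add_le_add (norm_sub_le _ _) ?_)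
      rw [h3]
      exact g3
    have h4 : 2 * η * (i : ℝ) ≤ i / 2 := by
      have : (0 : ℝ) ≤ i := by positivity
      nlinarith
    linarith
  classical
  obtain ⟨m, hm, hmin⟩ : ∃ m : ℕ, ‖G^[m] z‖ ≤ Q * s ∧ ∀ j < m, Q * s < ‖G^[j] z‖ :=
    ⟨Nat.find hex, Nat.find_spec hex, fun j hj => not_le.1 (Nat.find_min hex hj)⟩
  obtain ⟨g1, g2, g3, g4, g5⟩ := hind m hmin
  have hUm : W < ‖U m‖ := by
    refine hsW.trans_le ?_
    rw [hUi, uu_norm]
    have : 0 < ‖G^[m] z‖ := norm_pos_iff.mpr g1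
    refine one_div_le_one_div_of_le (by positivity) ?_
    exact mul_le_mul_of_nonneg_left (pow_le_pow_left₀ (norm_nonneg _) hm k) (by positivity)
  have hU0B : ‖U 0‖ ≤ B' := by rw [hU0]; exact hzB.trans hBB
  have hm0 : m ≠ 0 := by
    rintro rfl
    linarith
  refine ⟨m, fun i hi => (hind i fun j hj => hmin j (by omega)).2.2.2.2, g1, ?_, ?_, ?_, g4⟩
  · obtain ⟨i, rfl⟩ : ∃ i, m = i + 1 := ⟨m - 1, by omega⟩
    have h1 := hind i fun j hj => hmin j (by omega)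
    have h2 := (hstep _ h1.1 h1.2.2.2.2 (hmin i (by omega))).2.2
    rw [← Function.iterate_succ_apply' G i z] at h2
    have h3 := norm_sub_norm_le (G^[i] z) (G^[i + 1] z)
    rw [norm_sub_rev] at h3
    have h4 := hmin i (by omega)
    have h5 : η * ‖G^[i] z‖ ≤ 1 / 2 * ‖G^[i] z‖ :=
      mul_le_mul_of_nonneg_right (by linarith) (norm_nonneg _)
    have e : K / 2 * (s * ‖κ‖) = Q * s / 2 := by rw [hQ]; ring
    have h6 : ‖G^[i + 1] z - G^[i] z‖ ≤ η * ‖G^[i] z‖ := h2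
    rw [e]
    linarith
  · have e : K * (s * ‖κ‖) = Q * s := by rw [hQ]; ring
    rw [e]
    exact hm
  · rw [← hUi]
    have h1 : ‖U m - m‖ ≤ B' + 2 * η * m := by
      have e : U m - m = U 0 + (U m - U 0 - m) := by ring
      rw [e]
      exact (norm_add_le _ _).trans (add_le_add hU0B g3)
    have h2 : |(m : ℝ) - ‖U m‖| ≤ B' + 2 * η * m := by
      have h3 := abs_norm_sub_norm_le (m : ℂ) (U m)
      rw [Complex.norm_natCast, norm_sub_rev] at h3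
      exact h3.trans h1
    have h3 : ‖U m - (‖U m‖ : ℂ)‖ ≤ 2 * (B' + 2 * η * m) := by
      have e : U m - (‖U m‖ : ℂ) = (U m - m) + (((m : ℝ) - ‖U m‖ : ℝ) : ℂ) := by
        push_cast; ring
      rw [e]
      refine (norm_add_le _ _).trans ?_
      rw [Complex.norm_real, Real.norm_eq_abs]
      linarith
    have hmR : (0 : ℝ) ≤ m := by positivity
    have h4 : (m : ℝ) ≤ 2 * (‖U m‖ + B') := by
      have := (abs_le.1 h2).2
      have h5 : 2 * η * (m : ℝ) ≤ m / 2 := by nlinarith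
      linarith
    have h5 : 4 * η * (m : ℝ) ≤ ε / 4 * (2 * (‖U m‖ + B')) :=
      mul_le_mul (by linarith) h4 hmR (by positivity)
    have h6 : 8 * B' < ε * ‖U m‖ := by
      rw [hW, div_lt_iff₀ hε] at hUm
      linarith
    have h7 : ε * B' ≤ B' := by nlinarith
    nlinarith

end Run7.h904.SP
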