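import Mathlib
import Pool.Agent.Run7.h904.S9Ent

set_option autoImplicit false

open Topology Filter Metric Set

namespace Run7.h904.SP

open Pool.Agent.H713R5.QJ.PBLAux (quad invpow uu ord)
open Run7.h904.PF (uu_norm core2)

/-- generic directions -/
structure Gnr (n : ℕ) (γ : ℂ) : Prop where
  re : ∀ ζ ∈ mu n, (γ * ζ).re ≠ 0
  im : ∀ ζ ∈ mu n, (γ * ζ).im ≠ 0
  ver : ∀ η ∈ mu n, η ≠ 1 → ((starRingEnd ℂ) (PP n * η - PP n) * γ).im ≠ 0

/-- the unperturbed orbits in a parabolic basin -/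
theorem orbit (k : ℕ) (hk : 1 ≤ k) (al : ℂ) (hal : al ≠ 0) (CA r1 : ℝ) (hCA : 0 ≤ CA) (hr1 : 0 < r1)
    (F : ℂ → ℂ) (hord : ∀ z : ℂ, ‖z‖ ≤ r1 → ‖F z - z - al * z ^ (k + 1)‖ ≤ CA * ‖z‖ ^ (k + 2))
    (z₀ : ℂ) (hne : ∀ j : ℕ, F^[j] z₀ ≠ 0) (hlim : Tendsto (fun j : ℕ => F^[j] z₀) atTop (𝓝 0)) :
    ∃ (j₀ : ℕ) (Y : ℂ), ∀ j ≥ j₀, 7 / 8 * ‖uu k al (F^[j] z₀)‖ ≤ (uu k al (F^[j] z₀)).re ∧
      YY k al (F^[j] z₀) = Y := by
  obtain ⟨cY, hcY, hcY2, hY⟩ := YY_const k hk al hal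
  obtain ⟨η, hη⟩ : ∃ η : ℝ, η = min (1 / 32) cY := ⟨_, rfl⟩
  have hη0 : 0 < η := by rw [hη]; exact lt_min (by norm_num) hcY
  have hηa : η ≤ 1 / 32 := by rw [hη]; exact min_le_left _ _
  have hηc : η ≤ cY := by rw [hη]; exact min_le_right _ _
  obtain ⟨r2, hr2, hr2r, hcore⟩ := core2 k al hk hal CA 0 r1 1 η hCA le_rfl hr1 one_pos hη0
  obtain ⟨j₁, hj₁⟩ := eventually_atTop.1 (hlim.eventually (ball_mem_nhds (0 : ℂ) hr2))
  have hsm : ∀ j ≥ j₁, ‖F^[j] z₀‖ ≤ r2 := by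
    intro j hj
    have := hj₁ j hj
    rw [dist_zero_right] at this
    exact this.le
  obtain ⟨U, hU⟩ : ∃ U : ℕ → ℂ, U = fun i => uu k al (F^[i] z₀) := ⟨_, rfl⟩
  have hUi : ∀ i, U i = uu k al (F^[i] z₀) := fun i => by rw [hU]
  have hstep : ∀ j ≥ j₁, ‖U (j + 1) - U j - 1‖ ≤ η ∧ ‖F^[j + 1] z₀ - F^[j] z₀‖ ≤ η * ‖F^[j] z₀‖ := by
    intro j hj
    have hp : 0 < ‖F^[j] z₀‖ := norm_pos_iff.mpr (hne j)
    have h1 := hcore 0 (F^[j] z₀) (F (F^[j] z₀)) (hne j) (hsm j hj) (by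
      have := hord _ ((hsm j hj).trans hr2r)
      rw [zero_mul, sub_zero]
      linarith [norm_nonneg (0 : ℂ)]) (by rw [norm_zero, mul_zero]; positivity)
    rw [← Function.iterate_succ_apply' F j z₀] at h1
    refine ⟨?_, h1.2.2⟩
    have h2 := h1.2.1
    rw [mul_zero, sub_zero, one_mul] at h2
    rw [hUi, hUi]
    exact h2
  have hind : ∀ i : ℕ, ‖U (j₁ + i) - U j₁ - i‖ ≤ η * i := by
    intro i
    induction i with
    | zero => simp
    | succ i ih =>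
      have h1 := (hstep (j₁ + i) (by omega)).1
      have e : U (j₁ + (i + 1)) - U j₁ - (i + 1 : ℕ) = (U (j₁ + i + 1) - U (j₁ + i) - 1) +
          (U (j₁ + i) - U j₁ - i) := by
        rw [← add_assoc]
        push_cast
        ring
      rw [e]
      refine (norm_add_le _ _).trans ?_
      push_cast
      linarith
  obtain ⟨i₀, hi₀⟩ := exists_nat_gt (400 * ‖U j₁‖)
  have hcone : ∀ i ≥ i₀, 7 / 8 * ‖U (j₁ + i)‖ ≤ (U (j₁ + i)).re := by
    intro i hi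
    have hiR : 400 * ‖U j₁‖ ≤ i := by
      have : (i₀ : ℝ) ≤ i := by exact_mod_cast hi
      linarith
    have hiR0 : (0 : ℝ) ≤ i := by positivity
    have h1 := hind i
    have h2 : ‖U (j₁ + i)‖ ≤ ‖U j₁‖ + i + η * i := by
      have e : U (j₁ + i) = U j₁ + i + (U (j₁ + i) - U j₁ - i) := by ring
      rw [e]
      refine (norm_add_le _ _).trans (add_le_add ((norm_add_le _ _).trans ?_) h1)
      rw [Complex.norm_natCast]
    have h3 : i - η * i - ‖U j₁‖ ≤ (U (j₁ + i)).re := by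
      have h4 := (abs_le.1 (Complex.abs_re_le_norm (U (j₁ + i) - U j₁ - i))).1
      rw [Complex.sub_re, Complex.sub_re, Complex.natCast_re] at h4
      have h5 := (abs_le.1 (Complex.abs_re_le_norm (U j₁))).1
      linarith
    have h6 : η * (i : ℝ) ≤ 1 / 32 * i := mul_le_mul_of_nonneg_right hηa hiR0
    linarith
  refine ⟨j₁ + i₀, YY k al (F^[j₁ + i₀] z₀), ?_⟩
  intro j hj
  obtain ⟨i, rfl⟩ : ∃ i, j = j₁ + i₀ + i := ⟨j - (j₁ + i₀), by omega⟩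
  refine ⟨?_, ?_⟩
  · have := hcone (i₀ + i) (by omega)
    rw [← add_assoc, hUi] at this
    exact this
  · induction i with
    | zero => rfl
    | succ i ih =>
      rw [← ih (by omega), ← add_assoc]
      refine hY _ _ (hne _) ?_ (((hstep (j₁ + i₀ + i) (by omega)).2).trans
        (mul_le_mul_of_nonneg_right hηc (norm_nonneg _)))
      have h1 := hcone (i₀ + i) (by omega)
      rw [← add_assoc, hUi] at h1
      have h2 : 0 < ‖uu k al (F^[j₁ + i₀ + i] z₀)‖ := by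
        rw [uu_norm]
        have : 0 < ‖F^[j₁ + i₀ + i] z₀‖ := norm_pos_iff.mpr (hne _)
        have : 0 < ‖al‖ := norm_pos_iff.mpr hal
        have : (0 : ℝ) < k := by exact_mod_cast (by omega : 0 < k)
        positivity
      linarith

/-- direction of a complex number close to its absolute value -/
lemma arg_small (U : ℂ) (ε : ℝ) (hU : U ≠ 0) (h : ‖U - (‖U‖ : ℂ)‖ ≤ ε * ‖U‖) : |U.arg| ≤ 2 * ε := by
  have hU0 : 0 < ‖U‖ := norm_pos_iff.mpr hU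
  have e : U - (‖U‖ : ℂ) = (‖U‖ : ℂ) * (Complex.exp (Complex.I * U.arg) - 1) := by
    conv_lhs => rw [polar U]
    rw [norm_mul, norm_ee, mul_one, Complex.norm_real, norm_norm]
    unfold ee
    rw [mul_comm Complex.I]
    ring
  rw [e, norm_mul, Complex.norm_real, norm_norm, Complex.norm_exp_I_mul_ofReal_sub_one] at h
  have h1 : ‖2 * Real.sin (U.arg / 2)‖ ≤ ε := by
    rw [mul_comm] at h
    exact le_of_mul_le_mul_right h hU0
  rw [Real.norm_eq_abs, abs_mul, abs_two] at h1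
  have hpi := Real.pi_pos
  have h2 : 2 / Real.pi * |U.arg / 2| ≤ |Real.sin (U.arg / 2)| := by
    refine Real.mul_abs_le_abs_sin ?_
    rw [abs_div, abs_two]
    have := Complex.abs_arg_le_pi U
    linarith
  have h3 : |U.arg / 2| = |U.arg| / 2 := by rw [abs_div, abs_two]
  rw [h3] at h2
  have h4 : |U.arg| / Real.pi ≤ ε / 2 := by
    have : 2 / Real.pi * (|U.arg| / 2) = |U.arg| / Real.pi := by field_simp
    rw [this] at h2
    linarith
  rw [div_le_iff₀ hpi] at h4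
  have h5 : 0 ≤ ε := by linarith [abs_nonneg (Real.sin (U.arg / 2))]
  have := Real.pi_le_four
  nlinarith

lemma arg_mul_ee {r θ : ℝ} (hr : 0 < r) (h1 : -Real.pi < θ) (h2 : θ ≤ Real.pi) :
    ((r : ℂ) * ee θ).arg = θ := by
  have : (r : ℂ) * ee θ = (r : ℂ) * (Complex.cos θ + Complex.sin θ * Complex.I) := by
    unfold ee; rw [Complex.exp_mul_I]
  rw [this, Complex.arg_mul_cos_add_sin_mul_I hr ⟨h1, h2⟩]

/-- the choice of the scaling factor -/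
lemma exists_kappa (k : ℕ) (hk : 1 ≤ k) (al β Y : ℂ) (hal : al ≠ 0) (hβ : β ≠ 0) (hY : Y ≠ 0)
    (hYk : Y ^ k = -1 / (k * al))
    (hgen : ∀ κ : ℂ, κ ^ (k + 1) = -β / al → Gnr (k + 1) (β / κ)) :
    ∃ κ : ℂ, κ ≠ 0 ∧ κ ^ (k + 1) = -β / al ∧ 0 < (Y / κ).arg ∧
      (Y / κ).arg < 2 * SP.al (k + 1) := by
  have hn : 2 ≤ k + 1 := by omega
  have hn0 : 0 < k + 1 := by omega
  have ha := al_pos hn
  have hk0 : (k : ℂ) ≠ 0 := by exact_mod_cast (by omega : k ≠ 0)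
  obtain ⟨κ₀, hκ₀⟩ := IsAlgClosed.exists_pow_nat_eq (-β / al) hn0
  have hr0 : -β / al ≠ 0 := div_ne_zero (neg_ne_zero.mpr hβ) hal
  have hκ₀0 : κ₀ ≠ 0 := by
    rintro rfl
    rw [zero_pow (by omega)] at hκ₀
    exact hr0 hκ₀.symm
  have hu0 : Y / κ₀ ≠ 0 := div_ne_zero hY hκ₀0
  obtain ⟨ζ, hζ, harg⟩ := exists_rot hn hu0
  have hζ0 := ne_zero_mu hn0 hζ
  have hpw : ∀ η ∈ mu (k + 1), (κ₀ * η) ^ (k + 1) = -β / al := by
    intro η hη
    rw [mul_pow, (mem_mu hn0 η).1 hη, mul_one, hκ₀]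
  have e1 : Y / (κ₀ * ζ⁻¹) = Y / κ₀ * ζ := by field_simp
  rw [abs_le] at harg
  rcases lt_trichotomy (Y / κ₀ * ζ).arg 0 with h | h | h
  · obtain ⟨κ, hκ⟩ : ∃ κ : ℂ, κ = κ₀ * (ζ⁻¹ * (ee (2 * SP.al (k + 1)))⁻¹) := ⟨_, rfl⟩
    have hm := mul_mem_mu hn0 (inv_mem_mu hn0 hζ) (inv_mem_mu hn0 (ee_two_al_mem hn))
    have e2 : Y / κ = (Y / κ₀ * ζ) * ee (2 * SP.al (k + 1)) := by
      rw [hκ]
      have := ee_ne (2 * SP.al (k + 1))
      field_simp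
    have e3 : Y / κ = ((‖Y / κ₀ * ζ‖ : ℝ) : ℂ) * ee ((Y / κ₀ * ζ).arg + 2 * SP.al (k + 1)) := by
      rw [e2, ee_add, ← mul_assoc, ← polar]
    have hle := al_le hn
    have e4 : (Y / κ).arg = (Y / κ₀ * ζ).arg + 2 * SP.al (k + 1) := by
      rw [e3]
      exact arg_mul_ee (norm_pos_iff.mpr (mul_ne_zero hu0 hζ0)) (by linarith [Real.pi_pos])
        (by linarith)
    refine ⟨κ, ?_, ?_, ?_, ?_⟩
    · rw [hκ]; exact mul_ne_zero hκ₀0 (ne_zero_mu hn0 hm)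
    · rw [hκ]; exact hpw _ hm
    · rw [e4]; linarith
    · rw [e4]; linarith
  · exfalso
    obtain ⟨κ, hκ⟩ : ∃ κ : ℂ, κ = κ₀ * ζ⁻¹ := ⟨_, rfl⟩
    have hκp : κ ^ (k + 1) = -β / al := by rw [hκ]; exact hpw _ (inv_mem_mu hn0 hζ)
    have hκ0 : κ ≠ 0 := by rw [hκ]; exact mul_ne_zero hκ₀0 (inv_ne_zero hζ0)
    obtain ⟨r, hr⟩ : ∃ r : ℝ, r = ‖Y / κ₀ * ζ‖ := ⟨_, rfl⟩
    have hr0' : 0 < r := by rw [hr]; exact norm_pos_iff.mpr (mul_ne_zero hu0 hζ0)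
    have e2 : Y / κ = r := by
      rw [hκ, e1, hr]
      conv_lhs => rw [polar (Y / κ₀ * ζ), h, ee_zero, mul_one]
    have e3 : β / κ = -al * κ ^ k := by
      have : β = -al * κ ^ (k + 1) := by rw [hκp]; field_simp
      rw [this, pow_succ]
      field_simp
    have e4 : κ ^ k = Y ^ k / (r : ℂ) ^ k := by
      have hrC : (r : ℂ) ≠ 0 := by exact_mod_cast hr0'.ne'
      have : Y = r * κ := by rw [← e2]; field_simp
      rw [this, mul_pow]
      field_simp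
    have e5 : β / κ = ((1 / (k * r ^ k) : ℝ) : ℂ) := by
      have hrC : (r : ℂ) ≠ 0 := by exact_mod_cast hr0'.ne'
      rw [e3, e4, hYk]
      push_cast
      field_simp
    have h1 := (hgen κ hκp).im 1 (one_mem_mu hn)
    rw [mul_one, e5, Complex.ofReal_im] at h1
    exact h1 rfl
  · refine ⟨κ₀ * ζ⁻¹, mul_ne_zero hκ₀0 (inv_ne_zero hζ0), hpw _ (inv_mem_mu hn0 hζ), ?_, ?_⟩
    · rw [e1]; exact h
    · rw [e1]; linarith

/-- Orbits of a parabolic basin, with any number of petals, converge to a sink after a generic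
perturbation. -/
theorem lemC (F : ℂ → ℂ) (r : ℝ) (z₀ : ℂ) (hr : 0 < r) (k : ℕ) (hk : 1 ≤ k) (al : ℂ) (hal : al ≠ 0)
    (CA r1 : ℝ) (hCA : 0 ≤ CA) (hr1 : 0 < r1)
    (hord : ∀ z : ℂ, ‖z‖ ≤ r1 → ‖F z - z - al * z ^ (k + 1)‖ ≤ CA * ‖z‖ ^ (k + 2))
    (hne : ∀ j : ℕ, F^[j] z₀ ≠ 0) (hlim : Tendsto (fun j : ℕ => F^[j] z₀) atTop (𝓝 0))
    (β : ℂ) (hβ : β ≠ 0) (hgen : ∀ κ : ℂ, κ ^ (k + 1) = -β / al → Gnr (k + 1) (β / κ)) :
    ∃ η₀ : ℝ, 0 < η₀ ∧ ∀ ρ : ℝ, 0 < ρ → ∃ (k₀ : ℕ) (δ s₀ : ℝ), 0 < δ ∧ 0 < s₀ ∧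
      ∀ s : ℝ, 0 < s → s < s₀ → ∀ G : ℂ → ℂ, DifferentiableOn ℂ G (ball 0 r) →
        (∀ z : ℂ, ‖z‖ < ρ → ‖G z - F z - (s : ℂ) ^ (k + 1) * β‖ ≤ η₀ * s ^ (k + 1)) →
        ∀ z ∈ ball (F^[k₀] z₀) δ, (∀ j : ℕ, G^[j] z ∈ ball (0 : ℂ) r) ∧
          ∃ x ∈ ball (0 : ℂ) r, G x = x ∧ ‖deriv G x‖ < 1 ∧
            Tendsto (fun j : ℕ => G^[j] z) atTop (𝓝 x) := by
  obtain ⟨n, hnd⟩ : ∃ n : ℕ, n = k + 1 := ⟨_, rfl⟩
  have hn : 2 ≤ n := by omega
  have hn0 : 0 < n := by omega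
  have hk0 : (k : ℂ) ≠ 0 := by exact_mod_cast (by omega : k ≠ 0)
  have hk1 : (1 : ℝ) ≤ k := by exact_mod_cast hk
  have ha0 : 0 < ‖al‖ := norm_pos_iff.mpr hal
  obtain ⟨j₀, Y, horb⟩ := orbit k hk al hal CA r1 hCA hr1 F hord z₀ hne hlim
  have hYk : Y ^ k = -1 / (k * al) := by
    rw [← (horb j₀ le_rfl).2]
    exact YY_pow k hk al _ hal (hne _)
  have hY0 : Y ≠ 0 := by
    rintro rfl
    rw [zero_pow (by omega)] at hYk
    exact div_ne_zero (neg_ne_zero.mpr one_ne_zero) (mul_ne_zero hk0 hal) hYk.symm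
  obtain ⟨κ, hκ0, hκp, hφ0, hφ1⟩ := exists_kappa k hk al β Y hal hβ hY0 hYk hgen
  obtain ⟨φ, hφ⟩ : ∃ φ : ℝ, φ = (Y / κ).arg := ⟨_, rfl⟩
  rw [← hφ] at hφ0 hφ1
  obtain ⟨γ, hγ⟩ : ∃ γ : ℂ, γ = β / κ := ⟨_, rfl⟩
  have hG := hgen κ hκp
  rw [← hγ, ← hnd] at hG
  rw [← hnd] at hφ1
  have hκn : 0 < ‖κ‖ := norm_pos_iff.mpr hκ0
  have hγ0 : γ ≠ 0 := by rw [hγ]; exact div_ne_zero hβ hκ0
  have hγn : 0 < ‖γ‖ := norm_pos_iff.mpr hγ0
  have hγκ : γ = -al * κ ^ k := by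
    have : β = -al * κ ^ (k + 1) := by rw [hκp]; field_simp
    rw [hγ, this, pow_succ]
    field_simp
  have hγnorm : ‖γ‖ = ‖al‖ * ‖κ‖ ^ k := by rw [hγκ, norm_mul, norm_neg, norm_pow]
  -- the direction of `γ`
  have h4 : γ.im < 0 ∨ 0 < (γ * (ee (2 * SP.al n))⁻¹).im := by
    obtain ⟨ρ, hρ⟩ : ∃ ρ : ℝ, ρ = ‖Y / κ‖ := ⟨_, rfl⟩
    have hρ0 : 0 < ρ := by rw [hρ]; exact norm_pos_iff.mpr (div_ne_zero hY0 hκ0)
    have e1 : Y / κ = (ρ : ℂ) * ee φ := by rw [hρ, hφ]; exact polar _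
    have e2 : (Y / κ) ^ k * γ = 1 / k := by
      rw [div_pow, hYk, hγκ]
      field_simp
    have e3 : γ = ((1 / (k * ρ ^ k) : ℝ) : ℂ) * ee (-(k * φ)) := by
      rw [e1, mul_pow, ee_pow] at e2
      have hρC : (ρ : ℂ) ≠ 0 := by exact_mod_cast hρ0.ne'
      have h5 := ee_ne (k * φ)
      rw [ee_neg]
      push_cast
      field_simp
      field_simp at e2
      linear_combination e2
    have hc : 0 < 1 / (k * ρ ^ k) := by positivity
    have hkφ : 0 < k * φ := by positivity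
    rcases lt_or_ge (k * φ) Real.pi with h5 | h5
    · left
      rw [e3, Complex.im_ofReal_mul, im_ee, Real.sin_neg]
      have := Real.sin_pos_of_pos_of_lt_pi hkφ h5
      have := mul_pos hc this
      linarith
    · right
      rw [e3, mul_assoc, ← ee_neg, ← ee_add, Complex.im_ofReal_mul, im_ee,
        show -(k * φ) + -(2 * SP.al n) = -((k * φ + 2 * SP.al n - 2 * Real.pi) + 2 * Real.pi) by ring,
        Real.sin_neg, Real.sin_add_two_pi]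
      have h6 := al_pos hn
      have h7 : k * φ + 2 * SP.al n < 2 * Real.pi := by
        have h8 := n_al hn
        have h9 : (n : ℝ) = k + 1 := by rw [hnd]; push_cast; ring
        rw [h9] at h8
        nlinarith
      have h8 : Real.sin (k * φ + 2 * SP.al n - 2 * Real.pi) < 0 :=
        Real.sin_neg_of_neg_of_neg_pi_lt (by linarith) (by linarith)
      have := mul_pos hc (neg_pos.2 h8)
      linarith
  obtain ⟨x₁, hx₁, ζ, hζ, g1, g2, g3, c, hc, hcone⟩ := exit_PP hn γ hG.re hG.im hG.ver h4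
  -- the margin at the end
  obtain ⟨μe, hμe, hmar⟩ : ∃ μe : ℝ, 0 < μe ∧ ∀ z : ℂ, ‖z - (PP n + γ * x₁)‖ < μe →
      (PP n).re < (z * ζ).re ∧ |(z * ζ).im| < (PP n).im := by
    have hc1 : Continuous fun z : ℂ => (z * ζ).re := by fun_prop
    have hc2 : Continuous fun z : ℂ => |(z * ζ).im| := by fun_prop
    have ho : IsOpen {z : ℂ | (PP n).re < (z * ζ).re ∧ |(z * ζ).im| < (PP n).im} :=
      (isOpen_lt continuous_const hc1).inter (isOpen_lt hc2 continuous_const)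
    obtain ⟨μe, hμe, hb⟩ := Metric.isOpen_iff.1 ho _ ⟨g2, g3⟩
    exact ⟨μe, hμe, fun z hz => hb (by rw [mem_ball, dist_eq_norm]; exact hz)⟩
  obtain ⟨c2, hc2⟩ : ∃ c2 : ℝ, c2 = min c (μe / (2 * x₁)) := ⟨_, rfl⟩
  have hc20 : 0 < c2 := by rw [hc2]; exact lt_min hc (by positivity)
  have hc2c : c2 ≤ c := by rw [hc2]; exact min_le_left _ _
  have hc2m : c2 * x₁ ≤ μe / 2 := by
    have : c2 ≤ μe / (2 * x₁) := by rw [hc2]; exact min_le_right _ _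
    rw [le_div_iff₀ (by positivity)] at this
    linarith
  obtain ⟨ε, hε⟩ : ∃ ε : ℝ, ε = min (min 1 (c2 / (8 * 2 ^ k * (‖γ‖ + 1))))
    (min (φ / 4) ((2 * SP.al n - φ) / 4)) := ⟨_, rfl⟩
  have hε0 : 0 < ε := by
    rw [hε]
    exact lt_min (lt_min one_pos (by positivity)) (lt_min (by positivity) (by linarith))
  have hεa : ε ≤ 1 := by rw [hε]; exact (min_le_left _ _).trans (min_le_left _ _)
  have hεb : ε ≤ c2 / (8 * 2 ^ k * (‖γ‖ + 1)) := by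
    rw [hε]; exact (min_le_left _ _).trans (min_le_right _ _)
  have hεc : ε ≤ φ / 4 := by rw [hε]; exact (min_le_right _ _).trans (min_le_left _ _)
  have hεd : ε ≤ (2 * SP.al n - φ) / 4 := by
    rw [hε]; exact (min_le_right _ _).trans (min_le_right _ _)
  obtain ⟨K, hKmin, hK0, hentr⟩ := entr k hk al β κ hal hκ0 CA r1 hCA hr1 F hord ε
    (max (max 4 (8 * k / ε)) (2 ^ k / (k * ‖γ‖ * x₁))) hε0 hεa
  have hK4 : 4 ≤ K := ((le_max_left _ _).trans (le_max_left _ _)).trans hKmin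
  have hKε : 8 * k / ε ≤ K := ((le_max_right _ _).trans (le_max_left _ _)).trans hKmin
  have hKx : 2 ^ k / (k * ‖γ‖ * x₁) ≤ K := (le_max_right _ _).trans hKmin
  obtain ⟨σa, hσa⟩ : ∃ σa : ℝ, σa = 1 / (K ^ k * (k * ‖γ‖)) := ⟨_, rfl⟩
  have hσa0 : 0 < σa := by rw [hσa]; positivity
  have hKK : K ≤ K ^ k := by
    calc K = K ^ 1 := (pow_one _).symm
      _ ≤ K ^ k := pow_le_pow_right₀ (by linarith) hk
  have hσb : 2 ^ k * σa ≤ x₁ := by
    rw [hσa, mul_one_div, div_le_iff₀ (by positivity)]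
    rw [div_le_iff₀ (by positivity)] at hKx
    have : K * (k * ‖γ‖ * x₁) ≤ K ^ k * (k * ‖γ‖ * x₁) :=
      mul_le_mul_of_nonneg_right hKK (by positivity)
    linarith
  have hσax : σa ≤ x₁ := by
    have : σa ≤ 2 ^ k * σa := by
      have : (1 : ℝ) ≤ 2 ^ k := one_le_pow₀ (by norm_num)
      nlinarith
    linarith
  obtain ⟨η, hη⟩ : ∃ η : ℝ, η = c2 * σa / 2 := ⟨_, rfl⟩
  have hη0 : 0 < η := by rw [hη]; positivity
  obtain ⟨M, e₀, E₀, hM, he₀, hE₀, hglob⟩ := global n hn γ (PP n) x₁ ζ hζ g1 σa η hσax hη0 (by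
      intro z hz
      refine hmar z ?_
      have : c2 * σa ≤ c2 * x₁ := mul_le_mul_of_nonneg_left hσax hc20.le
      rw [hη] at hz
      linarith) (by
      intro x hx0 hx1 z hz
      refine hcone x (hσa0.trans_le hx0) hx1 z (hz.trans ?_)
      rw [hη]
      have h5 : c2 * σa ≤ c * x := mul_le_mul hc2c hx0 hσa0.le hc.le
      have : 0 < c2 * σa := by positivity
      linarith)
  refine ⟨min 1 (‖κ‖ * E₀ / 2), lt_min one_pos (by positivity), ?_⟩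
  intro ρ hρ
  obtain ⟨r2, hr2, hr2r1, hr2R, hent⟩ := hentr (min (ρ / 2) (r / 2)) (lt_min (by positivity)
    (by positivity))
  have hr2ρ : r2 ≤ ρ / 2 := hr2R.trans (min_le_left _ _)
  have hr2r : r2 ≤ r / 2 := hr2R.trans (min_le_right _ _)
  obtain ⟨cY, hcY, hcY2, hYc⟩ := YY_const k hk al hal
  obtain ⟨j₁, hj₁⟩ := eventually_atTop.1 (hlim.eventually (ball_mem_nhds (0 : ℂ)
    (by positivity : 0 < r2 / 4)))
  obtain ⟨k₀, hk₀⟩ : ∃ k₀ : ℕ, k₀ = max j₀ j₁ := ⟨_, rfl⟩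
  obtain ⟨w₀, hw₀⟩ : ∃ w₀ : ℂ, w₀ = F^[k₀] z₀ := ⟨_, rfl⟩
  have hw0 : w₀ ≠ 0 := by rw [hw₀]; exact hne _
  have hw0n : 0 < ‖w₀‖ := norm_pos_iff.mpr hw0
  have hw0s : ‖w₀‖ < r2 / 4 := by
    have := hj₁ k₀ (by rw [hk₀]; exact le_max_right _ _)
    rwa [dist_zero_right, ← hw₀] at this
  obtain ⟨hw0c, hw0Y⟩ := horb k₀ (by rw [hk₀]; exact le_max_left _ _)
  rw [← hw₀] at hw0c hw0Y
  have huup : 0 < ‖uu k al w₀‖ := by
    rw [uu_norm]; positivity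
  have hucont : ContinuousAt (uu k al) w₀ := by
    unfold uu
    exact continuousAt_const.div (by fun_prop) (mul_ne_zero (mul_ne_zero hk0 hal)
      (pow_ne_zero _ hw0))
  have hnear : ∀ᶠ z in 𝓝 w₀, z ≠ 0 ∧ ‖z‖ ≤ r2 / 2 ∧ 3 / 4 * ‖uu k al z‖ ≤ (uu k al z).re ∧
      ‖uu k al z‖ ≤ 2 * ‖uu k al w₀‖ ∧ ‖z - w₀‖ ≤ cY * ‖w₀‖ := by
    have q1 : ∀ᶠ z in 𝓝 w₀, z ≠ 0 := continuousAt_id.eventually_ne hw0
    have q2 : ∀ᶠ z in 𝓝 w₀, ‖z‖ < r2 / 2 :=
      continuous_norm.continuousAt.eventually (gt_mem_nhds (by linarith))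
    have q3 : ∀ᶠ z in 𝓝 w₀, ‖uu k al z - uu k al w₀‖ < ‖uu k al w₀‖ / 16 := by
      have := hucont.tendsto.eventually (ball_mem_nhds _ (by positivity : 0 < ‖uu k al w₀‖ / 16))
      filter_upwards [this] with z hz
      rwa [dist_eq_norm] at hz
    have q4 : ∀ᶠ z in 𝓝 w₀, ‖z - w₀‖ < cY * ‖w₀‖ := by
      have := ball_mem_nhds w₀ (by positivity : 0 < cY * ‖w₀‖)
      filter_upwards [this] with z hz
      rwa [mem_ball, dist_eq_norm] at hz
    filter_upwards [q1, q2, q3, q4] with z a1 a2 a3 a4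
    have b1 : ‖uu k al z‖ ≤ ‖uu k al w₀‖ + ‖uu k al w₀‖ / 16 := by
      have := norm_add_le (uu k al w₀) (uu k al z - uu k al w₀)
      rw [add_sub_cancel] at this
      linarith
    have b2 := (abs_le.1 (Complex.abs_re_le_norm (uu k al z - uu k al w₀))).1
    rw [Complex.sub_re] at b2
    exact ⟨a1, a2.le, by linarith, by linarith, a4.le⟩
  obtain ⟨δ, hδ, hball⟩ := Metric.eventually_nhds_iff_ball.1 hnear
  obtain ⟨s₁, hs₁, hs₁'⟩ := hent (2 * ‖uu k al w₀‖)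
  obtain ⟨s₀, hs₀⟩ : ∃ s₀ : ℝ, s₀ = min (min s₁ (min 1 e₀)) (min (r2 / (‖κ‖ * M + 1))
    (E₀ / (2 * (CA * ‖κ‖ ^ (k + 1) * M ^ (k + 2) + 1)))) := ⟨_, rfl⟩
  have hs₀0 : 0 < s₀ := by
    rw [hs₀]
    exact lt_min (lt_min hs₁ (lt_min one_pos he₀)) (lt_min (by positivity) (by positivity))
  refine ⟨k₀, δ, s₀, hδ, hs₀0, ?_⟩
  intro s hs hss G hGd hGb z hz
  have hs1 : s < s₁ := hss.trans_le (by rw [hs₀]; exact (min_le_left _ _).trans (min_le_left _ _))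
  have hs2 : s ≤ 1 := (hss.trans_le (by
    rw [hs₀]; exact (min_le_left _ _).trans ((min_le_right _ _).trans (min_le_left _ _)))).le
  have hs3 : s < e₀ := hss.trans_le (by
    rw [hs₀]; exact (min_le_left _ _).trans ((min_le_right _ _).trans (min_le_right _ _)))
  have hs4 : s * (‖κ‖ * M) ≤ r2 := by
    have : s < r2 / (‖κ‖ * M + 1) := hss.trans_le (by
      rw [hs₀]; exact (min_le_right _ _).trans (min_le_left _ _))
    rw [lt_div_iff₀ (by positivity)] at this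
    nlinarith
  have hs5 : CA * (s * ‖κ‖ ^ (k + 1)) * M ^ (k + 2) ≤ E₀ / 2 := by
    have : s < E₀ / (2 * (CA * ‖κ‖ ^ (k + 1) * M ^ (k + 2) + 1)) := hss.trans_le (by
      rw [hs₀]; exact (min_le_right _ _).trans (min_le_right _ _))
    rw [lt_div_iff₀ (by positivity)] at this
    nlinarith
  rw [← hw₀] at hz
  obtain ⟨n1, n2, n3, n4, n5⟩ := hball z hz
  have hYz : YY k al z = Y := by
    rw [← hw0Y]
    exact hYc _ _ hw0 (by linarith) n5
  have hGb' : ∀ z : ℂ, ‖z‖ ≤ r2 → ‖G z - F z - (s : ℂ) ^ (k + 1) * β‖ ≤ s ^ (k + 1) := by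
    intro z hz
    refine (hGb z (by linarith)).trans ?_
    have h5 := mul_le_mul_of_nonneg_right (min_le_left (1 : ℝ) (‖κ‖ * E₀ / 2))
      (by positivity : 0 ≤ s ^ (k + 1))
    rwa [one_mul] at h5
  obtain ⟨m, hm1, hm2, hm3, hm4, hm5, hm6⟩ := hs₁' s hs hs1 G hGb' z n1 n2 n3 n4
  rw [hYz] at hm6
  obtain ⟨zm, hzm⟩ : ∃ zm : ℂ, zm = G^[m] z := ⟨_, rfl⟩
  rw [← hzm] at hm2 hm3 hm4 hm5 hm6
  have hzmn : 0 < ‖zm‖ := norm_pos_iff.mpr hm2
  obtain ⟨U, hU⟩ : ∃ U : ℂ, U = uu k al zm := ⟨_, rfl⟩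
  rw [← hU] at hm5
  have hUn : ‖U‖ = 1 / (k * ‖al‖ * ‖zm‖ ^ k) := by rw [hU, uu_norm]
  have hUp : 0 < ‖U‖ := by rw [hUn]; positivity
  have hU0 : U ≠ 0 := norm_pos_iff.mp hUp
  obtain ⟨e, he⟩ : ∃ e : ℝ, e = s ^ k := ⟨_, rfl⟩
  have he0 : 0 < e := by rw [he]; positivity
  have hee : e < e₀ := by
    refine lt_of_le_of_lt ?_ hs3
    rw [he]
    calc s ^ k ≤ s ^ 1 := pow_le_pow_of_le_one hs.le hs2 hk
      _ = s := pow_one s
  obtain ⟨ς, hς⟩ : ∃ ς : ℂ, ς = (s : ℂ) * κ := ⟨_, rfl⟩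
  have hsC : (s : ℂ) ≠ 0 := by exact_mod_cast hs.ne'
  have hς0 : ς ≠ 0 := by rw [hς]; exact mul_ne_zero hsC hκ0
  have hςn : ‖ς‖ = s * ‖κ‖ := by rw [hς, norm_mul, Complex.norm_of_nonneg hs.le]
  obtain ⟨v, hv⟩ : ∃ v : ℂ, v = zm / ς := ⟨_, rfl⟩
  have hvn : ‖v‖ = ‖zm‖ / (s * ‖κ‖) := by rw [hv, norm_div, hςn]
  have hv1 : K / 2 ≤ ‖v‖ := by rw [hvn, le_div_iff₀ (by positivity)]; exact hm3
  have hv2 : ‖v‖ ≤ K := by rw [hvn, div_le_iff₀ (by positivity)]; exact hm4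
  have hv0 : 0 < ‖v‖ := by linarith
  have hvne : v ≠ 0 := norm_pos_iff.mp hv0
  -- the direction of `v`
  obtain ⟨χ, hχ⟩ : ∃ χ : ℝ, χ = U.arg := ⟨_, rfl⟩
  have hχs : |χ| ≤ 2 * ε := by rw [hχ]; exact arg_small U ε hU0 hm5
  have hkR : (0 : ℝ) < k := by linarith
  obtain ⟨ψ, hψ⟩ : ∃ ψ : ℝ, ψ = φ - χ / k := ⟨_, rfl⟩
  have hχk : |χ / k| ≤ 2 * ε := by
    rw [abs_div, abs_of_pos hkR, div_le_iff₀ hkR]
    nlinarith [abs_nonneg χ]
  rw [abs_le] at hχk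
  have hψ0 : 0 < ψ := by rw [hψ]; linarith [hχk.2]
  have hψ1 : ψ < 2 * SP.al n := by rw [hψ]; linarith [hχk.1]
  have hvpol : v = (‖v‖ : ℂ) * ee ψ := by
    obtain ⟨Q, hQ⟩ : ∃ Q : ℂ, Q = U ^ ((k : ℂ)⁻¹) := ⟨_, rfl⟩
    have hQ0 : Q ≠ 0 := by
      rw [hQ, Complex.cpow_def_of_ne_zero hU0]
      exact Complex.exp_ne_zero _
    have hQe : Q = (‖Q‖ : ℂ) * ee (χ / k) := by
      have e1 : Q = Complex.exp (Complex.log U * (k : ℂ)⁻¹) := by
        rw [hQ, Complex.cpow_def_of_ne_zero hU0]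
      have e2 : Complex.log U * (k : ℂ)⁻¹ = ((Real.log ‖U‖ / k : ℝ) : ℂ) +
          ((χ / k : ℝ) : ℂ) * Complex.I := by
        rw [← Complex.re_add_im (Complex.log U), Complex.log_re, Complex.log_im, ← hχ]
        push_cast
        ring
      have e3 : Q = ((Real.exp (Real.log ‖U‖ / k) : ℝ) : ℂ) * ee (χ / k) := by
        rw [e1, e2, Complex.exp_add, Complex.ofReal_exp]
        rfl
      have e4 : ‖Q‖ = Real.exp (Real.log ‖U‖ / k) := by
        rw [e3, norm_mul, norm_ee, mul_one, Complex.norm_real, Real.norm_eq_abs, Real.abs_exp]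
      rw [e4]
      exact e3
    have h5 : zm * Q = Y := by
      rw [← hm6, hQ, hU]
      rfl
    have h6 : v = (Y / κ) / ((s : ℂ) * Q) := by
      rw [hv, hς, ← h5]
      field_simp
    have hYκ : Y / κ = (‖Y / κ‖ : ℂ) * ee φ := by rw [hφ]; exact polar _
    have h7 : v = ((‖Y / κ‖ / (s * ‖Q‖) : ℝ) : ℂ) * ee ψ := by
      have e5 : ee ψ = ee φ * (ee (χ / k))⁻¹ := by
        rw [hψ, sub_eq_add_neg, ee_add, ee_neg]
      rw [h6, e5]
      conv_lhs => rw [hYκ, hQe]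
      have := ee_ne (χ / k)
      have hQn : (‖Q‖ : ℂ) ≠ 0 := by
        exact_mod_cast (norm_pos_iff.mpr hQ0).ne'
      push_cast
      field_simp
    have h8 : ‖v‖ = ‖Y / κ‖ / (s * ‖Q‖) := by
      rw [h7, norm_mul, norm_ee, mul_one, Complex.norm_real, Real.norm_of_nonneg (by positivity)]
    rw [h8]
    exact h7
  have hvD : v ∈ DD n := by
    rw [hvpol]
    exact mem_DD_of_sector hn0 (norm_nonneg _) hψ0 (by rw [two_al hn]; exact hψ1)
  have hτv : tau n v = PP n + Phi n v⁻¹ := by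
    have := PP_spec hn ‖v‖ ψ (by linarith) hψ0 (by rw [two_al hn]; exact hψ1)
    rwa [← hvpol] at this
  -- the time
  obtain ⟨σ, hσ⟩ : ∃ σ : ℝ, σ = e * ‖U‖ := ⟨_, rfl⟩
  have hσv : σ = 1 / (k * ‖γ‖ * ‖v‖ ^ k) := by
    rw [hσ, hUn, hγnorm, hvn, he, div_pow, mul_pow]
    field_simp
  have hσ1 : σa ≤ σ := by
    rw [hσv, hσa]
    refine one_div_le_one_div_of_le (by positivity) ?_
    have := pow_le_pow_left₀ hv0.le hv2 k
    have h5 := mul_le_mul_of_nonneg_left this (by positivity : 0 ≤ (k : ℝ) * ‖γ‖)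
    linarith
  have hσ2 : σ ≤ 2 ^ k * σa := by
    rw [hσv, hσa, mul_one_div, div_le_div_iff₀ (by positivity) (by positivity), one_mul]
    have := pow_le_pow_left₀ (by positivity) hv1 k
    rw [div_pow, div_le_iff₀ (by positivity)] at this
    have h5 := mul_le_mul_of_nonneg_left this (by positivity : 0 ≤ (k : ℝ) * ‖γ‖)
    linarith
  have hσ0 : 0 < σ := hσa0.trans_le hσ1
  have hvk : v⁻¹ ^ k / (k : ℂ) = (e : ℂ) * γ * U := by
    rw [hv, hU, hγκ, he, hς]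
    unfold uu
    rw [inv_div, div_pow, mul_pow]
    push_cast
    field_simp
  have hest : ‖tau n v - (PP n + γ * σ)‖ ≤ η / 2 := by
    have h5 := Phi_bound hn v⁻¹ (by
      rw [norm_inv, inv_le_comm₀ hv0 (by norm_num)]
      linarith)
    have hn1 : (n : ℂ) - 1 = k := by rw [hnd]; push_cast; ring
    rw [hn1, show n - 1 = k by omega, hvk] at h5
    have e1 : tau n v - (PP n + γ * σ) = (Phi n v⁻¹ - (e : ℂ) * γ * U) +
        (e : ℂ) * γ * (U - (‖U‖ : ℂ)) := by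
      rw [hτv, hσ]
      push_cast
      ring
    rw [e1]
    refine (norm_add_le _ _).trans ?_
    have h6 : ‖(e : ℂ) * γ * (U - (‖U‖ : ℂ))‖ ≤ ‖γ‖ * σ * ε := by
      rw [norm_mul, norm_mul, Complex.norm_of_nonneg he0.le, hσ]
      have := mul_le_mul_of_nonneg_left hm5 (by positivity : 0 ≤ e * ‖γ‖)
      linarith
    have h7 : 2 * ‖v⁻¹‖ ^ (n + 1) ≤ ‖γ‖ * σ * ε := by
      rw [norm_inv, hσv, inv_pow, show n + 1 = k + 2 by omega, pow_add]
      have h8 : 8 * k ≤ ε * K := by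
        rw [div_le_iff₀ hε0] at hKε
        linarith
      have h9 : K ≤ ‖v‖ ^ 2 := by nlinarith
      have h10 : 2 * k ≤ ε * ‖v‖ ^ 2 := by
        have := mul_le_mul_of_nonneg_left h9 hε0.le
        nlinarith
      have e2 : ‖γ‖ * (1 / (k * ‖γ‖ * ‖v‖ ^ k)) * ε = ε / (k * ‖v‖ ^ k) := by field_simp
      rw [e2, ← div_eq_mul_inv, div_le_div_iff₀ (by positivity) (by positivity)]
      have h11 := mul_le_mul_of_nonneg_right h10 (by positivity : 0 ≤ ‖v‖ ^ k)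
      nlinarith
    have h8 : ‖γ‖ * σ * ε ≤ η / 4 := by
      have h9 : ‖γ‖ * σ * ε ≤ (‖γ‖ + 1) * (2 ^ k * σa) * (c2 / (8 * 2 ^ k * (‖γ‖ + 1))) :=
        mul_le_mul (mul_le_mul (by linarith) hσ2 hσ0.le (by positivity)) hεb hε0.le (by positivity)
      refine h9.trans (le_of_eq ?_)
      rw [hη]
      field_simp
      ring
    linarith
  -- the rescaled map
  obtain ⟨H, hH⟩ : ∃ H : ℂ → ℂ, H = fun v => G (ς * v) / ς := ⟨_, rfl⟩
  have hςM : ‖ς‖ * M ≤ r2 := by rw [hςn]; linarith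
  have hmem : ∀ w ∈ ball (0 : ℂ) M, ‖ς * w‖ ≤ r2 := by
    intro w hw
    rw [mem_ball_zero_iff] at hw
    rw [norm_mul]
    have := mul_le_mul_of_nonneg_left hw.le (norm_nonneg ς)
    linarith
  have hmem' : ∀ w ∈ ball (0 : ℂ) M, ς * w ∈ ball (0 : ℂ) r := by
    intro w hw
    rw [mem_ball_zero_iff]
    have := hmem w hw
    linarith
  have hHd : DifferentiableOn ℂ H (ball 0 M) := by
    rw [hH]
    exact (hGd.comp (by fun_prop) hmem').div_const ς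
  have hHb : ∀ w ∈ ball (0 : ℂ) M, ‖H w - w - e * γ * (1 - w ^ n)‖ ≤ e * E₀ := by
    intro w hw
    have h5 := hmem w hw
    have h6 := hord (ς * w) (h5.trans hr2r1)
    have h7 := hGb (ς * w) (by linarith)
    have e1 : H w - w - e * γ * (1 - w ^ n) = ((G (ς * w) - F (ς * w) - (s : ℂ) ^ (k + 1) * β) +
        (F (ς * w) - ς * w - al * (ς * w) ^ (k + 1))) / ς := by
      have e2 : (e : ℂ) * γ * w ^ n = -(al * (ς * w) ^ (k + 1)) / ς := by
        rw [he, hγκ, hς, hnd]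
        push_cast
        field_simp
        ring
      have e3 : (e : ℂ) * γ = (s : ℂ) ^ (k + 1) * β / ς := by
        rw [he, hγ, hς]
        push_cast
        field_simp
        ring
      have e4 : (e : ℂ) * γ * (1 - w ^ n) = (e : ℂ) * γ - (e : ℂ) * γ * w ^ n := by ring
      rw [e4, e2, e3, hH]
      field_simp
      ring
    rw [e1, norm_div, hςn, div_le_iff₀ (by positivity)]
    refine (norm_add_le _ _).trans ?_
    have h8 : CA * ‖ς * w‖ ^ (k + 2) ≤ e * (E₀ / 2) * (s * ‖κ‖) := by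
      rw [mem_ball_zero_iff] at hw
      rw [norm_mul, mul_pow, hςn, mul_pow]
      have h9 : ‖w‖ ^ (k + 2) ≤ M ^ (k + 2) := pow_le_pow_left₀ (norm_nonneg _) hw.le _
      have h10 : CA * (s ^ (k + 2) * ‖κ‖ ^ (k + 2) * ‖w‖ ^ (k + 2)) ≤
          CA * (s ^ (k + 2) * ‖κ‖ ^ (k + 2) * M ^ (k + 2)) := by gcongr
      have h11 := mul_le_mul_of_nonneg_right hs5 (by positivity : 0 ≤ s ^ k * (s * ‖κ‖))
      refine h10.trans (le_trans (le_of_eq ?_) (h11.trans (le_of_eq ?_)))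
      · ring
      · rw [he]; ring
    have h9 : ‖G (ς * w) - F (ς * w) - (s : ℂ) ^ (k + 1) * β‖ ≤ e * (E₀ / 2) * (s * ‖κ‖) := by
      refine h7.trans ?_
      have h10 := mul_le_mul_of_nonneg_right (min_le_right (1 : ℝ) (‖κ‖ * E₀ / 2))
        (by positivity : 0 ≤ s ^ (k + 1))
      refine h10.trans (le_of_eq ?_)
      rw [he]
      ring
    linarith
  obtain ⟨hst, x, hx, hxf, hxd, hxl⟩ := hglob e he0 hee H hHd hHb v hvD σ hσ1 (hσ2.trans hσb) hest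
  have hit : ∀ i : ℕ, G^[i + m] z = ς * H^[i] v := by
    intro i
    induction i with
    | zero =>
      rw [zero_add, ← hzm, Function.iterate_zero, id, hv]
      field_simp
    | succ i ih =>
      rw [show i + 1 + m = (i + m) + 1 by ring, Function.iterate_succ_apply', ih,
        Function.iterate_succ_apply' H i v, hH]
      field_simp
  refine ⟨?_, ς * x, hmem' x hx, ?_, ?_, ?_⟩
  · intro j
    rcases lt_or_ge j m with h5 | h5
    · rw [mem_ball_zero_iff]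
      have := hm1 j h5.le
      linarith
    · have h6 := hit (j - m)
      rw [Nat.sub_add_cancel h5] at h6
      rw [h6]
      exact hmem' _ (hst _)
  · rw [hH] at hxf
    simp only at hxf
    rw [div_eq_iff hς0] at hxf
    rw [hxf, mul_comm]
  · have h5 : HasDerivAt G (deriv G (ς * x)) (ς * x) :=
      ((hGd _ (hmem' x hx)).differentiableAt (isOpen_ball.mem_nhds (hmem' x hx))).hasDerivAt
    have h6 : HasDerivAt (fun u : ℂ => ς * u) ς x := by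
      simpa using (hasDerivAt_id' x).const_mul ς
    have h7 : HasDerivAt H (deriv G (ς * x) * ς / ς) x := by
      rw [hH]
      exact (h5.comp x h6).div_const ς
    rw [h7.deriv, mul_div_cancel_right₀ _ hς0] at hxd
    exact hxd
  · have h5 : Tendsto (fun i : ℕ => G^[i + m] z) atTop (𝓝 (ς * x)) := by
      refine (hxl.const_mul ς).congr fun i => ?_
      rw [hit]
    exact (tendsto_add_atTop_iff_nat (f := fun i : ℕ => G^[i] z) m).1 h5

end Run7.h904.SP
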