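import Mathlib
import Pool.Agent.Run7.h904.S10Loc
import Pool.Agent.Run7.h904.RApp
import Pool.Agent.Run7.h904.R3Lin

set_option autoImplicit false

open Topology Filter Metric Set Polynomial MeasureTheory
open scoped OnePoint

namespace Run7.h904.RF

open Pool.Agent.W757.QR Pool.Agent.H790R3.RB Pool.Agent.W29.RQSNK Pool.Agent.W29.RQAPP
open Pool.Agent.H790R3.RB.FAM (ND_open)
open Run7.h904.SP (Gnr lemC)

/-- Points of parabolic basins at a cycle of multiplier `1` (any number of petals) become attracted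
in generic directions. -/
theorem typeCR {d : ℕ} (hd : 2 ≤ d) (x V : CV d) (hx : ND x) (P : ℕ) (hP : 0 < P) (a : ℂ)
    (ha : Fin' x a) (hfix : (fx x)^[P] a = a) (k : ℕ) (hk : 1 ≤ k) (al : ℂ) (hal : al ≠ 0)
    (CA r1 : ℝ) (hCA : 0 ≤ CA) (hr1 : 0 < r1)
    (hord : ∀ z : ℂ, ‖z‖ ≤ r1 → ‖cen x P a z - z - al * z ^ (k + 1)‖ ≤ CA * ‖z‖ ^ (k + 2))
    (hβ : llR x V a P ≠ 0)
    (hgen : ∀ κ : ℂ, κ ^ (k + 1) = -llR x V a P / al → Gnr (k + 1) (llR x V a P / κ))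
    (z : ℂ) (hz : Fin' x z)
    (hlim : Tendsto (fun i : ℕ => (fx x)^[P * i] z) atTop (𝓝 a))
    (hne : ∀ i : ℕ, (fx x)^[P * i] z ≠ a) : GR x V z := by
  obtain ⟨ρ, K, hρ, hK, hfinρ, hcl⟩ := loc_lip P x a (fun j _ => ha j)
  obtain ⟨ρ₂, hρ₂, hun⟩ := unif2 x P a (fun j _ => ha j)
  obtain ⟨C, t₂, hC, ht₂, hunV⟩ := hun V
  obtain ⟨M, hM⟩ : ∃ M : ℝ, M = ‖V‖ + 1 := ⟨_, rfl⟩
  have hM0 : 0 < M := by rw [hM]; positivity
  have horb : ∀ i : ℕ, (cen x P a)^[i] (z - a) = (fx x)^[P * i] z - a := by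
    intro i
    rw [cen_iter, add_sub_cancel]
  have hlim0 : Tendsto (fun i : ℕ => (cen x P a)^[i] (z - a)) atTop (𝓝 0) := by
    simp only [horb]
    have := hlim.sub_const a
    simpa using this
  have hne0 : ∀ i : ℕ, (cen x P a)^[i] (z - a) ≠ 0 := by
    intro i
    rw [horb]
    exact sub_ne_zero.2 (hne i)
  obtain ⟨η₀, hη₀, hmain⟩ := lemC (cen x P a) ρ (z - a) hρ k hk al hal CA r1 hCA hr1 hord hne0 hlim0
    (llR x V a P) hβ hgen
  obtain ⟨ρ₃, hρ₃⟩ : ∃ ρ₃ : ℝ, ρ₃ = min ρ₂ (η₀ / (2 * C)) := ⟨_, rfl⟩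
  have hρ₃0 : 0 < ρ₃ := by rw [hρ₃]; exact lt_min hρ₂ (by positivity)
  have hρ₃a : ρ₃ ≤ ρ₂ := by rw [hρ₃]; exact min_le_left _ _
  have hρ₃b : C * ρ₃ ≤ η₀ / 2 := by
    have : ρ₃ ≤ η₀ / (2 * C) := by rw [hρ₃]; exact min_le_right _ _
    rw [le_div_iff₀ (by positivity)] at this
    linarith
  obtain ⟨k₀, δ, s₀, hδ, hs₀, hlc⟩ := hmain ρ₃ hρ₃0
  obtain ⟨ρ', K', hρ', hK', hfin', hcl'⟩ := loc_lip (P * k₀) x z (fun j _ => hz j)
  obtain ⟨B', hB'⟩ : ∃ B' : ℝ, B' = K' * (M + 1) + 1 := ⟨_, rfl⟩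
  have hB'0 : 0 < B' := by rw [hB']; positivity
  obtain ⟨δ', hδ'd⟩ : ∃ δ' : ℝ, δ' = min (min (ρ' / (M + 1)) (ρ / M)) (δ / B') := ⟨_, rfl⟩
  have hδ'0 : 0 < δ' := by
    rw [hδ'd]; exact lt_min (lt_min (by positivity) (by positivity)) (by positivity)
  have hδ'1 : (M + 1) * δ' ≤ ρ' := by
    have h1 : δ' ≤ ρ' / (M + 1) := by rw [hδ'd]; exact (min_le_left _ _).trans (min_le_left _ _)
    rwa [le_div_iff₀ (by positivity), mul_comm] at h1
  have hδ'3 : M * δ' ≤ ρ := by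
    have h1 : δ' ≤ ρ / M := by rw [hδ'd]; exact (min_le_left _ _).trans (min_le_right _ _)
    rwa [le_div_iff₀ hM0, mul_comm] at h1
  have hδ'2 : B' * δ' ≤ δ := by
    have h1 : δ' ≤ δ / B' := by rw [hδ'd]; exact min_le_right _ _
    rwa [le_div_iff₀ hB'0, mul_comm] at h1
  obtain ⟨t₁, ht₁, hND⟩ := (mem_nhdsGT_iff_exists_Ioo_subset' (zero_lt_one (α := ℝ))).1
    (Xt_ND x V hx)
  rw [mem_Ioi] at ht₁
  obtain ⟨t₀, ht₀⟩ : ∃ t₀ : ℝ, t₀ = min (min (min t₁ δ') (min t₂ (η₀ / (2 * C)))) (s₀ ^ (k + 1)) :=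
    ⟨_, rfl⟩
  have ht₀0 : 0 < t₀ := by
    rw [ht₀]
    exact lt_min (lt_min (lt_min ht₁ hδ'0) (lt_min ht₂ (by positivity))) (by positivity)
  refine ⟨δ', t₀, hδ'0, ht₀0, ?_⟩
  intro t ht htt z' hz'
  have htA : t < t₁ := htt.trans_le (by
    rw [ht₀]; exact ((min_le_left _ _).trans (min_le_left _ _)).trans (min_le_left _ _))
  have htd : t < δ' := htt.trans_le (by
    rw [ht₀]; exact ((min_le_left _ _).trans (min_le_left _ _)).trans (min_le_right _ _))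
  have htB : t < t₂ := htt.trans_le (by
    rw [ht₀]; exact ((min_le_left _ _).trans (min_le_right _ _)).trans (min_le_left _ _))
  have htC : C * t < η₀ / 2 := by
    have h1 : t < η₀ / (2 * C) := htt.trans_le (by
      rw [ht₀]; exact ((min_le_left _ _).trans (min_le_right _ _)).trans (min_le_right _ _))
    rw [lt_div_iff₀ (by positivity)] at h1
    linarith
  have htD : t < s₀ ^ (k + 1) := htt.trans_le (by rw [ht₀]; exact min_le_right _ _)
  have hNDt : ND (Xt x V t) := hND ⟨ht, htA⟩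
  obtain ⟨s, hs⟩ : ∃ s : ℝ, s = t ^ (1 / ((k : ℝ) + 1)) := ⟨_, rfl⟩
  have hs0 : 0 < s := by rw [hs]; positivity
  have hst : s ^ (k + 1) = t := by
    rw [hs, ← Real.rpow_natCast, ← Real.rpow_mul ht.le]
    push_cast
    rw [one_div, inv_mul_cancel₀ (by positivity), Real.rpow_one]
  have hss : s < s₀ := by
    rw [← hst] at htD
    exact lt_of_pow_lt_pow_left₀ _ hs₀.le htD
  have hXs : ‖Xt x V t - x‖ ≤ M * t := by
    rw [Xt_sub x V t ht.le, hM, mul_comm]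
    exact mul_le_mul_of_nonneg_right (by linarith) ht.le
  have hMt : M * t < M * δ' := mul_lt_mul_of_pos_left htd hM0
  have hXρ : ‖Xt x V t - x‖ < ρ := by linarith
  have hXρ' : ‖Xt x V t - x‖ < ρ' := by linarith
  have hfr : ∀ v ∈ ball (0 : ℂ) ρ, ∀ j < P,
      (de (Xt x V t)).eval ((fx (Xt x V t))^[j] (a + v)) ≠ 0 := by
    intro v hv j hj
    refine hfinρ _ hXρ _ ?_ j hj
    rw [mem_ball, dist_eq_norm, add_sub_cancel_left]
    simpa using hv
  have hz1 : ‖z' - z‖ < δ' := by simpa [dist_eq_norm] using hz'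
  have hz'ρ : z' ∈ ball z ρ' := by
    rw [mem_ball, dist_eq_norm]
    have : δ' ≤ (M + 1) * δ' := by nlinarith
    linarith
  have hclo : ∀ v : ℂ, ‖v‖ < ρ₃ →
      ‖cen (Xt x V t) P a v - cen x P a v - (s : ℂ) ^ (k + 1) * llR x V a P‖ ≤ η₀ * s ^ (k + 1) := by
    intro v hv
    have h1 := hunV t ht.le htB.le (a + v) (by
      rw [mem_ball, dist_eq_norm, add_sub_cancel_left]; linarith)
    rw [add_sub_cancel_left] at h1
    have e1 : (s : ℂ) ^ (k + 1) = (t : ℂ) := by rw [← hst]; push_cast; ring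
    rw [e1, hst]
    have e2 : cen (Xt x V t) P a v - cen x P a v - (t : ℂ) * llR x V a P =
        (fx (Xt x V t))^[P] (a + v) - (fx x)^[P] (a + v) - t * llR x V a P := by
      simp only [cen]; ring
    rw [e2]
    refine h1.trans ?_
    have h2 : C * (t + ‖v‖) ≤ η₀ := by
      have h3 := mul_le_mul_of_nonneg_left hv.le hC.le
      linarith
    have h3 := mul_le_mul_of_nonneg_right h2 ht.le
    linarith
  obtain ⟨hstay, x', hx'b, hx'f, hx'd, hx'l⟩ := hlc s hs0 hss (cen (Xt x V t) P a)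
    (fun v hv => (cen_diffAt _ _ _ v (hfr v hv)).differentiableWithinAt) hclo
    ((fx (Xt x V t))^[P * k₀] z' - a) (by
      rw [mem_ball, dist_eq_norm, horb]
      have e1 := hcl' (Xt x V t) hXρ' z' hz'ρ z (mem_ball_self hρ')
      rw [sub_sub_sub_cancel_right]
      have e4 : K' * (‖Xt x V t - x‖ + ‖z' - z‖) ≤ K' * (M * δ' + δ') := by
        refine mul_le_mul_of_nonneg_left ?_ hK'
        linarith
      have e6 : K' * (M * δ' + δ') + δ' = B' * δ' := by rw [hB']; ring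
      linarith)
  exact attd_of2 hd hNDt hP hfr hx'b hx'f hx'd
    (fun j hj => hfin' (Xt x V t) hXρ' z' hz'ρ j hj) hstay hx'l

end Run7.h904.RF
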