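import Mathlib
import Pool.Agent.Run7.h904.RGen
import Pool.Agent.Run7.h904.S11App

set_option autoImplicit false

open Topology Filter Metric Set Polynomial MeasureTheory Asymptotics
open scoped OnePoint

namespace Run7.h904.RF

open Pool.Agent.H790R3.RB (CV hF cr ND wr rt sp pr hc pol Sink Attd HypTop)
open Pool.Agent.W757.QR Pool.Agent.W757.RF Pool.Agent.W757.Q2

/-- a parabolic periodic point in the plane with the exact period `p` -/
structure ParCR {d : ℕ} (x : CV d) (a : ℂ) (p q : ℕ) (lam : ℂ) : Prop where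
  pp : 0 < p
  qp : 0 < q
  fin : Fin' x a
  per : Function.minimalPeriod (fx x) a = p
  der : deriv ((fx x)^[p]) a = lam
  lamq : lam ^ q = 1

/-- convergence along the multiples of `q` -/
lemma tendsto_of_mulR (f : ℂ → ℂ) (a z : ℂ) (hf : ∀ j : ℕ, ContinuousAt (f^[j]) a) (ha : f a = a)
    (q : ℕ) (hq : 0 < q) (h : Tendsto (fun i : ℕ => f^[q * i] z) atTop (𝓝 a)) :
    Tendsto (fun i : ℕ => f^[i] z) atTop (𝓝 a) := by
  rw [Metric.tendsto_atTop]
  intro ε hε
  have h1 : ∀ j ∈ Finset.range q, ∀ᶠ i : ℕ in atTop, dist (f^[j] (f^[q * i] z)) a < ε := by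
    intro j _
    have h2 : Tendsto (fun i : ℕ => f^[j] (f^[q * i] z)) atTop (𝓝 (f^[j] a)) :=
      (hf j).tendsto.comp h
    rw [Function.iterate_fixed ha j] at h2
    exact h2.eventually (ball_mem_nhds a hε)
  have h3 := (Finset.eventually_all (Finset.range q)).mpr h1
  obtain ⟨N, hN⟩ := h3.exists_forall_of_atTop
  refine ⟨q * N, fun n hn => ?_⟩
  have h4 := hN (n / q) ((Nat.le_div_iff_mul_le hq).mpr (by rw [mul_comm]; exact hn)) (n % q)
    (Finset.mem_range.mpr (Nat.mod_lt _ hq))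
  rw [← Function.iterate_add_apply, Nat.mod_add_div] at h4
  exact h4

/-- a non-zero functional has non-zero real part almost everywhere -/
lemma ae_re_neR {ι : Type} [Fintype ι] (φ : (ι → ℂ) →ₗ[ℂ] ℂ) (h : φ ≠ 0) :
    ∀ᵐ v : ι → ℂ, (φ v).re ≠ 0 := by
  obtain ⟨V0, hφ⟩ : ∃ V0, φ V0 ≠ 0 := by
    by_contra hcon
    push Not at hcon
    exact h (LinearMap.ext hcon)
  let ψ : (ι → ℂ) →ₗ[ℝ] ℝ := Complex.reLm ∘ₗ (φ.restrictScalars ℝ)
  have hψ : ∀ v, ψ v = (φ v).re := fun v => rfl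
  have hne : LinearMap.ker ψ ≠ ⊤ := by
    intro htop
    have h1 : ψ ((φ V0)⁻¹ • V0) = 0 := by
      have : ((φ V0)⁻¹ • V0) ∈ LinearMap.ker ψ := by
        rw [htop]; trivial
      exact this
    rw [hψ, map_smul, smul_eq_mul, inv_mul_cancel₀ hφ, Complex.one_re] at h1
    exact one_ne_zero h1
  have h0 := Measure.addHaar_submodule (volume : Measure (ι → ℂ)) (LinearMap.ker ψ) hne
  rw [ae_iff]
  refine measure_mono_null ?_ h0
  intro v hv
  simp only [mem_ofPred_eq, not_not] at hv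
  show ψ v = 0
  rw [hψ, hv]

/-- a power of a non-zero functional has non-real values almost everywhere -/
lemma ae_pow {ι : Type} [Fintype ι] (φ : (ι → ℂ) →ₗ[ℂ] ℂ) (h : φ ≠ 0) (c : ℂ) (hc : c ≠ 0) (k : ℕ)
    (hk : 1 ≤ k) : ∀ᵐ v : ι → ℂ, (c * (φ v) ^ k).im ≠ 0 := by
  classical
  have hk0 : 0 < k := hk
  obtain ⟨Ω, hΩ⟩ : ∃ Ω : Finset ℂ, Ω = Polynomial.nthRootsFinset (2 * k) (1 / c ^ 2) := ⟨_, rfl⟩
  have hmem : ∀ ω : ℂ, ω ∈ Ω ↔ ω ^ (2 * k) = 1 / c ^ 2 := by
    intro ω
    rw [hΩ, Polynomial.mem_nthRootsFinset (by omega)]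
  have hω0 : ∀ ω ∈ Ω, ω ≠ 0 := by
    rintro ω hω rfl
    rw [hmem, zero_pow (by omega)] at hω
    exact (one_div_ne_zero (pow_ne_zero 2 hc)) hω.symm
  have h1 : ∀ᵐ v : ι → ℂ, ∀ ω ∈ Ω, (φ v / ω).im ≠ 0 := by
    refine (Finset.eventually_all Ω).mpr fun ω hω => ?_
    have h2 : (-Complex.I / ω) • φ ≠ 0 := by
      refine smul_ne_zero (div_ne_zero (neg_ne_zero.mpr Complex.I_ne_zero) (hω0 ω hω)) h
    filter_upwards [ae_re_neR _ h2] with v hv
    have e : (((-Complex.I / ω) • φ) v).re = (φ v / ω).im := by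
      rw [LinearMap.smul_apply, smul_eq_mul]
      have : -Complex.I / ω * φ v = -Complex.I * (φ v / ω) := by ring
      rw [this]
      simp
    rwa [e] at hv
  filter_upwards [h1] with v hv h0
  -- the value is real
  obtain ⟨r, hr⟩ : ∃ r : ℝ, c * (φ v) ^ k = r := ⟨(c * (φ v) ^ k).re, by
    apply Complex.ext
    · simp
    · simpa using h0⟩
  rcases eq_or_ne r 0 with h2 | h2
  · rw [h2, Complex.ofReal_zero] at hr
    have h3 : φ v = 0 := by
      rcases mul_eq_zero.mp hr with h4 | h4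
      · exact absurd h4 hc
      · exact (pow_eq_zero_iff hk0.ne').mp h4
    obtain ⟨ω, hω⟩ := IsAlgClosed.exists_pow_nat_eq (1 / c ^ 2) (n := 2 * k) (by omega)
    refine hv ω ((hmem ω).2 hω) ?_
    rw [h3]; simp
  · obtain ⟨ρ, hρ⟩ : ∃ ρ : ℝ, ρ = |r| ^ (1 / (k : ℝ)) := ⟨_, rfl⟩
    have hr0 : 0 < |r| := abs_pos.mpr h2
    have hρ0 : 0 < ρ := by rw [hρ]; positivity
    have hρk : ρ ^ k = |r| := by
      rw [hρ, ← Real.rpow_natCast, ← Real.rpow_mul hr0.le, one_div, inv_mul_cancel₀, Real.rpow_one]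
      exact_mod_cast hk0.ne'
    have hρC : (ρ : ℂ) ≠ 0 := by exact_mod_cast hρ0.ne'
    have hφ0 : φ v ≠ 0 := by
      intro h3
      rw [h3, zero_pow hk0.ne', mul_zero] at hr
      exact h2 (by exact_mod_cast hr.symm)
    have hρ2 : (ρ : ℂ) ^ (2 * k) = (r : ℂ) ^ 2 := by
      have : ρ ^ (2 * k) = r ^ 2 := by
        rw [mul_comm, pow_mul, hρk, sq_abs]
      exact_mod_cast this
    have h3 : φ v / ρ ∈ Ω := by
      rw [hmem, div_pow, hρ2, ← hr, mul_pow, ← pow_mul, mul_comm k 2]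
      field_simp
    refine hv _ h3 ?_
    have : φ v / (φ v / ρ) = (ρ : ℂ) := by field_simp
    rw [this, Complex.ofReal_im]

lemma im_pow_zero {z : ℂ} (h : z.im = 0) (n : ℕ) : (z ^ n).im = 0 := by
  obtain ⟨r, rfl⟩ : ∃ r : ℝ, z = r := ⟨z.re, by
    apply Complex.ext
    · simp
    · simpa using h⟩
  rw [← Complex.ofReal_pow, Complex.ofReal_im]

lemma gnr_of (k : ℕ) (hk : 1 ≤ k) (al β : ℂ) (hal : al ≠ 0) (hA : (al * β ^ k).im ≠ 0)
    (hB : (Complex.I ^ (k + 1) * al * β ^ k).im ≠ 0)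
    (hC : ∀ η ∈ Run7.h904.SP.mu (k + 1), η ≠ 1 →
      (((starRingEnd ℂ) (Run7.h904.SP.PP (k + 1) * η - Run7.h904.SP.PP (k + 1))) ^ (k + 1) * al *
        β ^ k).im ≠ 0) (κ : ℂ) (hκ : κ ^ (k + 1) = -β / al) :
    Run7.h904.SP.Gnr (k + 1) (β / κ) := by
  have hβ : β ≠ 0 := by
    rintro rfl
    rw [zero_pow (by omega), mul_zero] at hA
    exact hA rfl
  have hκ0 : κ ≠ 0 := by
    rintro rfl
    rw [zero_pow (by omega)] at hκ
    exact (div_ne_zero (neg_ne_zero.mpr hβ) hal) hκ.symm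
  obtain ⟨γ, hγ⟩ : ∃ γ : ℂ, γ = β / κ := ⟨_, rfl⟩
  have hγn : γ ^ (k + 1) = -(al * β ^ k) := by
    rw [hγ, div_pow, hκ, pow_succ]
    field_simp
  rw [← hγ]
  refine ⟨?_, ?_, ?_⟩
  · intro ζ hζ h0
    rw [Run7.h904.SP.mem_mu (by omega)] at hζ
    apply hB
    have h1 : (Complex.I * (γ * ζ)).im = 0 := by simpa using h0
    have h2 := im_pow_zero h1 (k + 1)
    rw [mul_pow, mul_pow, hζ, hγn, mul_one] at h2
    have e : Complex.I ^ (k + 1) * al * β ^ k = -(Complex.I ^ (k + 1) * -(al * β ^ k)) := by ring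
    rw [e, Complex.neg_im, h2, neg_zero]
  · intro ζ hζ h0
    rw [Run7.h904.SP.mem_mu (by omega)] at hζ
    apply hA
    have h2 := im_pow_zero h0 (k + 1)
    rw [mul_pow, hζ, hγn, mul_one, Complex.neg_im, neg_eq_zero] at h2
    exact h2
  · intro η hη hη1 h0
    apply hC η hη hη1
    have h2 := im_pow_zero h0 (k + 1)
    rw [mul_pow, hγn] at h2
    rw [mul_assoc]
    rw [mul_neg, Complex.neg_im, neg_eq_zero] at h2
    exact h2

/-- for each parabolic cycle almost every direction is good -/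
theorem dir_ae {d : ℕ} (hd2 : 2 ≤ d) (x : CV d) (hx : ND x) (hG : Ginf d (nu x) (de x))
    (a lam : ℂ) (p q : ℕ) (h : ParCR x a p q lam) :
    ∀ᵐ V : CV d, ∀ z : ℂ, Fin' x z →
        Tendsto (fun i : ℕ => (fx x)^[p * q * i] z) atTop (𝓝 a) →
        (∀ i : ℕ, (fx x)^[p * q * i] z ≠ a) → GR x V z := by
  have hfa : (fx x)^[p] a = a := by
    rw [← h.per]; exact Function.iterate_minimalPeriod
  have hnorm : ‖lam‖ = 1 := by
    have := congrArg norm h.lamq
    rw [norm_pow, norm_one] at this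
    exact (pow_eq_one_iff_of_nonneg (norm_nonneg _) h.qp.ne').mp this
  by_cases hl : lam = 1
  · -- multiplier one
    have hl1 : deriv ((fx x)^[p]) a = 1 := by rw [h.der, hl]
    have hcont : ∀ j : ℕ, ContinuousAt (((fx x)^[p])^[j]) a := by
      intro j
      rw [← Function.iterate_mul]
      exact (Pool.Agent.W29.RQSNK.fx_iter_diff x a _ (fun j _ => h.fin j)).continuousAt
    have hlim' : ∀ z : ℂ, Tendsto (fun i : ℕ => (fx x)^[p * q * i] z) atTop (𝓝 a) →
        Tendsto (fun i : ℕ => (fx x)^[p * i] z) atTop (𝓝 a) := by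
      intro z hlim
      have h1 := tendsto_of_mulR ((fx x)^[p]) a z hcont hfa q h.qp (by
        refine hlim.congr fun i => ?_
        rw [mul_assoc, Function.iterate_mul])
      refine h1.congr fun i => ?_
      rw [Function.iterate_mul]
    have hzx' : ∀ z : ℂ, (∀ i : ℕ, (fx x)^[p * q * i] z ≠ a) → ∀ i : ℕ, (fx x)^[p * i] z ≠ a := by
      intro z hzx i h0
      apply hzx i
      have e : p * q * i = p * ((q - 1) * i) + p * i := by
        obtain ⟨m, rfl⟩ : ∃ m, q = m + 1 := ⟨q - 1, by have := h.qp; omega⟩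
        simp only [Nat.add_sub_cancel]
        ring
      rw [e, Function.iterate_add_apply, h0, Function.iterate_mul]
      exact Function.iterate_fixed hfa _
    obtain ⟨ρ, K, hρ, hK, hfinρ, -⟩ := Pool.Agent.W29.RQAPP.loc_lip p x a (fun j _ => h.fin j)
    have hfr : ∀ v ∈ ball (0 : ℂ) ρ, ∀ j < p, (de x).eval ((fx x)^[j] (a + v)) ≠ 0 := by
      intro v hv j hj
      refine hfinρ x (by rw [sub_self, norm_zero]; exact hρ) _ ?_ j hj
      rw [mem_ball, dist_eq_norm, add_sub_cancel_left]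
      simpa using hv
    have hcd : DifferentiableOn ℂ (Pool.Agent.W29.RQAPP.cen x p a) (ball 0 ρ) := fun v hv =>
      (Pool.Agent.W29.RQAPP.cen_diffAt x p a v (hfr v hv)).differentiableWithinAt
    have hF0 : Pool.Agent.W29.RQAPP.cen x p a 0 = 0 := by simp [Pool.Agent.W29.RQAPP.cen, hfa]
    have hF1 : deriv (Pool.Agent.W29.RQAPP.cen x p a) 0 = 1 := by
      rw [Pool.Agent.W29.RQAPP.cen_deriv, hl1]
    by_cases hid : ∃ v ∈ ball (0 : ℂ) ρ, Pool.Agent.W29.RQAPP.cen x p a v ≠ v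
    · obtain ⟨k, al, CA, r1, hk, hal, hCA, hr1, -, hord⟩ :=
        Pool.Agent.H713R5.QJ.PBLAux.ord (Pool.Agent.W29.RQAPP.cen x p a) ρ hρ hcd hF0 hF1 hid
      obtain ⟨V0, hV0⟩ := transBR hd2 x hx hG a h.fin p h.pp h.per hl1
      have hlin : ∀ (c : ℂ) (V W : CV d), llR x (c • V + W) a p =
          c * llR x V a p + llR x W a p := by
        intro c V W
        rw [llR_lin]
      obtain ⟨L, hL⟩ : ∃ L : CV d →ₗ[ℂ] ℂ, ∀ V, L V = llR x V a p :=
        ⟨linOf (fun V => llR x V a p) hlin, fun V => linOf_apply _ hlin V⟩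
      have hL0 : L ≠ 0 := by
        intro h0
        apply hV0
        rw [← hL, h0]; rfl
      have hP0 : Run7.h904.SP.PP (k + 1) ≠ 0 := by
        intro h0
        have := Run7.h904.SP.PP_im_pos (n := k + 1) (by omega)
        rw [h0, Complex.zero_im] at this
        exact lt_irrefl _ this
      have hC : ∀ᵐ V : CV d, ∀ η ∈ Run7.h904.SP.mu (k + 1), η ≠ 1 →
          (((starRingEnd ℂ) (Run7.h904.SP.PP (k + 1) * η - Run7.h904.SP.PP (k + 1))) ^ (k + 1) * al *
            (L V) ^ k).im ≠ 0 := by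
        refine (Finset.eventually_all _).mpr fun η _ => ?_
        by_cases hη : η = 1
        · exact Eventually.of_forall fun V h0 => absurd hη h0
        · have hc : ((starRingEnd ℂ) (Run7.h904.SP.PP (k + 1) * η - Run7.h904.SP.PP (k + 1))) ^
              (k + 1) * al ≠ 0 := by
            refine mul_ne_zero (pow_ne_zero _ ?_) hal
            rw [Ne, map_eq_zero]
            have e : Run7.h904.SP.PP (k + 1) * η - Run7.h904.SP.PP (k + 1) =
              Run7.h904.SP.PP (k + 1) * (η - 1) := by ring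
            rw [e]
            exact mul_ne_zero hP0 (sub_ne_zero.mpr hη)
          filter_upwards [ae_pow L hL0 _ hc k hk] with V hV _
          exact hV
      filter_upwards [ae_pow L hL0 al hal k hk, ae_pow L hL0 (Complex.I ^ (k + 1) * al)
        (mul_ne_zero (pow_ne_zero _ Complex.I_ne_zero) hal) k hk, hC] with V hVA hVB hVC
      intro z hz hlim hzx
      rw [hL] at hVA hVB
      have hVC' : ∀ η ∈ Run7.h904.SP.mu (k + 1), η ≠ 1 →
          (((starRingEnd ℂ) (Run7.h904.SP.PP (k + 1) * η - Run7.h904.SP.PP (k + 1))) ^ (k + 1) * al *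
            (llR x V a p) ^ k).im ≠ 0 := by
        intro η h1 h2
        have := hVC η h1 h2
        rwa [hL] at this
      have hβ : llR x V a p ≠ 0 := by
        intro h0
        rw [h0, zero_pow (by omega), mul_zero] at hVA
        exact hVA rfl
      exact typeCR hd2 x V hx p h.pp a h.fin hfa k hk al hal CA r1 hCA hr1 hord hβ
        (gnr_of k hk al _ hal hVA hVB hVC') z hz (hlim' z hlim) (hzx' z hzx)
    · refine Eventually.of_forall fun V z hz hlim hzx => absurd ?_ hid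
      by_contra hcon
      push Not at hcon
      have hlim1 := hlim' z hlim
      have hne1 := hzx' z hzx
      have horb : ∀ i : ℕ, (Pool.Agent.W29.RQAPP.cen x p a)^[i] (z - a) = (fx x)^[p * i] z - a := by
        intro i
        rw [Pool.Agent.W29.RQAPP.cen_iter, add_sub_cancel]
      have hlim0 : Tendsto (fun i : ℕ => (Pool.Agent.W29.RQAPP.cen x p a)^[i] (z - a)) atTop
          (𝓝 0) := by
        simp only [horb]
        have := hlim1.sub_const a
        simpa using this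
      obtain ⟨i₀, hi₀⟩ := eventually_atTop.1 (hlim0.eventually (ball_mem_nhds (0 : ℂ) hρ))
      have hconst : ∀ j : ℕ, (Pool.Agent.W29.RQAPP.cen x p a)^[i₀ + j] (z - a) =
          (Pool.Agent.W29.RQAPP.cen x p a)^[i₀] (z - a) := by
        intro j
        induction j with
        | zero => rfl
        | succ j ih =>
          rw [← add_assoc, Function.iterate_succ_apply', hcon _ (hi₀ _ (by omega)), ih]
      have hl2 : Tendsto (fun j : ℕ => (Pool.Agent.W29.RQAPP.cen x p a)^[i₀ + j] (z - a)) atTop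
          (𝓝 0) := by
        have := (tendsto_add_atTop_iff_nat i₀).2 hlim0
        simpa [add_comm] using this
      simp only [hconst] at hl2
      have h3 := tendsto_nhds_unique tendsto_const_nhds hl2
      rw [horb, sub_eq_zero] at h3
      exact hne1 i₀ h3
  · obtain ⟨V0, hV0⟩ := transAR hd2 x hx hG a lam h.fin p h.pp h.per h.der hnorm hl
    have hlin : ∀ (c : ℂ) (V W : CV d), kapR x (c • V + W) a p lam =
        c * (kapR x V a p lam) + kapR x W a p lam := fun c V W => kapR_lin x c V W a p lam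
    have hφ : linOf (fun V => kapR x V a p lam) hlin ≠ 0 := by
      intro h0
      have h1 : linOf (fun V => kapR x V a p lam) hlin V0 = 0 := by rw [h0]; rfl
      rw [linOf_apply] at h1
      exact hV0 h1
    filter_upwards [ae_re_neR _ hφ] with V hre z hz hlim hzx
    rw [linOf_apply] at hre
    exact typeAR hd2 x V hx p q h.pp h.qp a lam h.fin hfa h.der h.lamq hl hre z hz hlim hzx

/-! ### on the sphere -/

/-- a parabolic periodic point of exact period `p`, the multiplier is a `q`-th root of unity -/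
def ParS (f : OnePoint ℂ → OnePoint ℂ) (p q : ℕ) (a : OnePoint ℂ) : Prop :=
  0 < p ∧ 0 < q ∧ (∀ m : ℕ, 0 < m → m < p → f^[m] a ≠ a) ∧
    ∃ (lam : ℂ) (g : ℂ → ℂ), lam ^ q = 1 ∧ g 0 = 0 ∧ HasDerivAt g lam 0 ∧
      ∀ᶠ w in 𝓝 (0 : ℂ), f^[p] (chart a w) = chart a (g w)

/-- `z` is in the basin of the parabolic point `a` -/
def ParB (f : OnePoint ℂ → OnePoint ℂ) (z a : OnePoint ℂ) : Prop :=
  ∃ p q : ℕ, ParS f p q a ∧ Tendsto (fun k : ℕ => f^[p * q * k] z) atTop (𝓝 a) ∧
    ∀ k : ℕ, f^[k] z ≠ a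

section mobius

variable {s t u v : ℂ} {h : OnePoint ℂ ≃ₜ OnePoint ℂ} {f g : OnePoint ℂ → OnePoint ℂ}

theorem parS_transport (hdet : s * v - t * u = 1)
    (hh : ∀ p : ℂ × ℂ, p ≠ 0 → h (pr p) = pr (s * p.1 + t * p.2, u * p.1 + v * p.2))
    (hs : ∀ z, g (h z) = h (f z)) {p q : ℕ} {a : OnePoint ℂ} (H : ParS f p q a) :
    ParS g p q (h a) := by
  obtain ⟨hp, hq, hmin, lam, φ, hlam, φ0, φd, φe⟩ := H
  obtain ⟨m, ma, m0, me⟩ := chart_change hdet hh a
  have hdet' : v * s - (-t) * (-u) = 1 := by linear_combination hdet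
  obtain ⟨m', ma', m0', me'⟩ := chart_change (h := h.symm) hdet' (inv_form hdet hh) (h a)
  rw [h.symm_apply_apply] at me'
  have hmc : Tendsto m (𝓝 0) (𝓝 0) := by
    have := ma.continuousAt.tendsto
    rwa [m0] at this
  have hm'c : Tendsto m' (𝓝 0) (𝓝 0) := by
    have := ma'.continuousAt.tendsto
    rwa [m0'] at this
  -- `m'` is the local inverse of `m`
  have hmm : ∀ᶠ w in 𝓝 (0 : ℂ), m' (m w) = w := by
    filter_upwards [me, hmc.eventually me'] with w h1 h2
    apply chart_inj a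
    rw [← h2, ← h1, h.symm_apply_apply]
  have hmm' : ∀ᶠ w in 𝓝 (0 : ℂ), m (m' w) = w := by
    filter_upwards [me', hm'c.eventually me] with w h1 h2
    apply chart_inj (h a)
    rw [← h2, ← h1, h.apply_symm_apply]
  have hd : deriv m' 0 * deriv m 0 = 1 := by
    have h1 : HasDerivAt m (deriv m 0) 0 := ma.differentiableAt.hasDerivAt
    have h2 : HasDerivAt m' (deriv m' 0) (m 0) := by
      rw [m0]; exact ma'.differentiableAt.hasDerivAt
    have h3 := h2.comp (0 : ℂ) h1
    have h4 : HasDerivAt (fun w : ℂ => w) (deriv m' 0 * deriv m 0) 0 :=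
      h3.congr_of_eventuallyEq (hmm.mono fun w hw => hw.symm)
    exact h4.unique (hasDerivAt_id 0)
  have hd1 : deriv m 0 ≠ 0 := right_ne_zero_of_mul (by rw [hd]; exact one_ne_zero)
  have hd2 : deriv m' 0 ≠ 0 := left_ne_zero_of_mul (by rw [hd]; exact one_ne_zero)
  have hφc : Tendsto φ (𝓝 0) (𝓝 0) := by
    have := φd.continuousAt.tendsto
    rwa [φ0] at this
  refine ⟨hp, hq, ?_, lam, fun w => m (φ (m' w)), hlam, by simp only [m0', φ0, m0], ?_, ?_⟩
  · intro j hj1 hj2 h0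
    rw [Pool.Agent.H790R3.RB.ALL.iter h hs] at h0
    exact hmin j hj1 hj2 (h.injective h0)
  · have h1 : HasDerivAt m' (deriv m' 0) 0 := ma'.differentiableAt.hasDerivAt
    have h2 : HasDerivAt φ lam (m' 0) := by rw [m0']; exact φd
    have h3 : HasDerivAt (φ ∘ m') (lam * deriv m' 0) 0 := h2.comp (0 : ℂ) h1
    have h4 : HasDerivAt m (deriv m 0) ((φ ∘ m') 0) := by
      show HasDerivAt m (deriv m 0) (φ (m' 0))
      rw [m0', φ0]
      exact ma.differentiableAt.hasDerivAt
    have h5 := h4.comp (0 : ℂ) h3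
    have e : deriv m 0 * (lam * deriv m' 0) = lam := by linear_combination lam * hd
    rw [e] at h5
    exact h5
  · filter_upwards [me', hm'c.eventually φe, (hφc.comp hm'c).eventually me] with w h1 h2 h3
    have e1 : chart (h a) w = h (chart a (m' w)) := by
      rw [← h1, h.apply_symm_apply]
    rw [e1, Pool.Agent.H790R3.RB.ALL.iter h hs, h2]
    exact h3

end mobius

/-- the parabolic points in the plane -/
lemma parCR_of {d : ℕ} {x : CV d} {a : ℂ} {p q : ℕ} (ha : Fin' x a)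
    (H : ParS (sp x) p q (a : OnePoint ℂ)) : ∃ lam : ℂ, ParCR x a p q lam := by
  obtain ⟨hp, hq, hmin, lam, g, hlam, g0, gd, ge⟩ := H
  obtain ⟨hfix, hder⟩ := Pool.Agent.W342.RE.PTW.mult_deriv ha ⟨g, g0, gd, ge⟩
  have hit : ∀ n : ℕ, (sp x)^[n] (a : OnePoint ℂ) = (((fx x)^[n] a : ℂ) : OnePoint ℂ) := fun n =>
    Pool.Agent.W29.RQSNK.sp_iter x a n (fun j _ => ha j)
  refine ⟨lam, hp, hq, ha, ?_, hder.deriv, hlam⟩
  · have hpp : Function.IsPeriodicPt (fx x) p a := hfix
    refine le_antisymm (hpp.minimalPeriod_le hp) ?_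
    by_contra hcon
    push Not at hcon
    refine hmin _ (hpp.minimalPeriod_pos hp) hcon ?_
    rw [hit]
    congr 1
    exact Function.iterate_minimalPeriod

end Run7.h904.RF
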