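import Mathlib
import Pool.Agent.Run7.h904.RFun

set_option autoImplicit false

open Topology Filter Metric Set Polynomial MeasureTheory Asymptotics Pointwise
open scoped OnePoint

namespace Run7.h904.RF

open Pool.Agent.H790R3.RB (CV hF cr ND wr rt sp pr hc pol Sink Attd HypTop)
open Pool.Agent.W757.QR Pool.Agent.W757.RF Pool.Agent.W757.Q2

/-- the points near `z` become attracted for small perturbations in the direction `V` -/
def GS {d : ℕ} (x V : CV d) (z : OnePoint ℂ) : Prop :=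
  ∃ U ∈ 𝓝 z, ∀ᶠ t in 𝓝[>] (0 : ℝ), ∀ z' ∈ U, Attd (sp (Xt x V t)) z'

lemma GS_of_attd {d : ℕ} (hd : 2 ≤ d) (x V : CV d) (hx : ND x) (z : OnePoint ℂ)
    (hz : Attd (sp x) z) : GS x V z := by
  obtain ⟨σ, U, hσ, hU, H⟩ := Pool.Agent.W324.RQOPA.task d x z hd hx hz
  refine ⟨U, hU, ?_⟩
  filter_upwards [(Xt_tendsto x V).eventually (ball_mem_nhds x hσ)] with t ht z' hz'
  exact (H _ (by rw [← dist_eq_norm]; exact ht)).2 z' hz'

/-- directions on the level of generic coordinates -/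
lemma GS_of_GR {d : ℕ} (x V : CV d) (z : ℂ) (h : GR x V z) : GS x V (z : OnePoint ℂ) := by
  obtain ⟨δ, t₁, hδ, ht₁, H⟩ := h
  refine ⟨(fun z : ℂ => (z : OnePoint ℂ)) '' ball z δ, ?_, ?_⟩
  · exact OnePoint.isOpenEmbedding_coe.isOpenMap.image_mem_nhds (ball_mem_nhds z hδ)
  · filter_upwards [Ioo_mem_nhdsGT ht₁] with t ht
    rintro _ ⟨z', hz', rfl⟩
    exact H t ht.1 ht.2 z' hz'

lemma GS_transport {d : ℕ} {x x₁ : CV d} {h : OnePoint ℂ ≃ₜ OnePoint ℂ} {T : CV d →ₗ[ℂ] CV d}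
    (hx₁ : ND x₁) (hT : T x₁ = x)
    (hs : ∀ x' : CV d, ND x' → ND (T x') ∧ ∀ z, h (sp (T x') z) = sp x' (h z)) (V : CV d)
    (z : OnePoint ℂ) (H : GS x₁ V (h z)) : GS x (T V) z := by
  obtain ⟨U, hU, H⟩ := H
  refine ⟨h ⁻¹' U, h.continuous.continuousAt.preimage_mem_nhds hU, ?_⟩
  filter_upwards [H, Xt_ND x₁ V hx₁] with t ht hnd z' hz'
  have e : Xt x (T V) t = T (Xt x₁ V t) := by
    unfold Xt
    rw [map_add, hT]
    congr 1
    exact ((T.restrictScalars ℝ).map_smul t V).symm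
  obtain ⟨-, hc⟩ := hs _ hnd
  have h1 := ht (h z') hz'
  have hs' : ∀ w, sp (T (Xt x₁ V t)) (h.symm w) = h.symm (sp (Xt x₁ V t) w) := by
    intro w
    apply h.injective
    rw [hc, h.apply_symm_apply, h.apply_symm_apply]
  have h2 := Pool.Agent.H790R3.RB.ALL.attd h.symm hs' h1
  rw [h.symm_apply_apply] at h2
  rw [e]
  exact h2

/-- in almost every direction the critical points become attracted -/
theorem ae_GS {d : ℕ} (hd : 2 ≤ d) (x : CV d) (hx : ND x)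
    (hcrit : ∀ z ∈ Crt x, Attd (sp x) z ∨ ∃ a, ParB (sp x) z a) :
    ∀ᵐ V : CV d, ∀ z ∈ Crt x, GS x V z := by
  classical
  -- the centres
  have hA : ∀ z : OnePoint ℂ, ∃ a : OnePoint ℂ, (z ∈ Crt x → Attd (sp x) z ∨ ParB (sp x) z a) := by
    intro z
    by_cases hz : z ∈ Crt x
    · rcases hcrit z hz with h1 | ⟨a, h1⟩
      · exact ⟨z, fun _ => Or.inl h1⟩
      · exact ⟨a, fun _ => Or.inr h1⟩
    · exact ⟨z, fun h1 => absurd h1 hz⟩
  choose A hA using hA
  -- the points to be avoided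
  obtain ⟨B, hB⟩ : ∃ B : Set (OnePoint ℂ), B = (⋃ z ∈ Crt x, range fun n : ℕ => (sp x)^[n] z) ∪
    (⋃ z ∈ Crt x, range fun n : ℕ => (sp x)^[n] (A z)) := ⟨_, rfl⟩
  have hBc : B.Countable := by
    rw [hB]
    exact ((crt_finite hd x hx).countable.biUnion fun z _ => countable_range _).union
      ((crt_finite hd x hx).countable.biUnion fun z _ => countable_range _)
  have hBi : (Bᶜ).Infinite := by
    intro hfin
    have h1 : (univ : Set (OnePoint ℂ)).Countable := by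
      rw [← union_compl_self B]
      exact hBc.union hfin.countable
    have h2 := h1.preimage (f := fun z : ℂ => (z : OnePoint ℂ)) OnePoint.coe_injective
    rw [preimage_univ] at h2
    exact not_countable_complex h2
  obtain ⟨a, b, c, e, h, x₁, T, hdet, hh, hx₁, hs, hG, hT, hTi, hsT, hinf, hcr⟩ :=
    genm_lin d x Bᶜ hBi hd hx
  have hs' : ∀ z, sp x₁ (h z) = h (sp x z) := fun z => (hs z).symm
  have hit := fun n z => Pool.Agent.H790R3.RB.ALL.iter h hs' n z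
  have hav : ∀ z : OnePoint ℂ, (∀ n : ℕ, (sp x)^[n] z ∈ B) → ∀ n : ℕ, (sp x₁)^[n] (h z) ≠ ∞ := by
    intro z hz n h0
    rw [hit] at h0
    apply hinf
    rw [← h0, h.symm_apply_apply]
    exact hz n
  have hBz : ∀ z ∈ Crt x, ∀ n : ℕ, (sp x)^[n] z ∈ B := by
    intro z hz n
    rw [hB]
    left
    exact mem_biUnion hz ⟨n, rfl⟩
  have hBA : ∀ z ∈ Crt x, ∀ n : ℕ, (sp x)^[n] (A z) ∈ B := by
    intro z hz n
    rw [hB]
    right
    exact mem_biUnion hz ⟨n, rfl⟩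
  -- generic coordinates
  have key : ∀ z ∈ Crt x, ∀ᵐ V : CV d, GS x₁ V (h z) := by
    intro z hz
    rcases hA z hz with h1 | h1
    · exact Eventually.of_forall fun V => GS_of_attd hd x₁ V hx₁ _
        (Pool.Agent.H790R3.RB.ALL.attd h hs' h1)
    · obtain ⟨p, q, hpar, hlim, hne⟩ := h1
      have hpar' := parS_transport hdet hh hs' hpar
      have hfz := hav z (hBz z hz)
      have hfA := hav (A z) (hBA z hz)
      obtain ⟨ζ, hζ⟩ : ∃ ζ : ℂ, h z = ζ := by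
        have := hfz 0
        induction hz' : h z using OnePoint.rec with
        | infty => exact absurd hz' this
        | coe ζ => exact ⟨ζ, rfl⟩
      obtain ⟨α, hα⟩ : ∃ α : ℂ, h (A z) = α := by
        have := hfA 0
        induction hz' : h (A z) using OnePoint.rec with
        | infty => exact absurd hz' this
        | coe ζ => exact ⟨ζ, rfl⟩
      have hFζ : Fin' x₁ ζ := by
        apply Pool.Agent.W29.RQSNK.fin_of
        rw [← hζ]; exact hfz
      have hFα : Fin' x₁ α := by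
        apply Pool.Agent.W29.RQSNK.fin_of
        rw [← hα]; exact hfA
      rw [hα] at hpar'
      obtain ⟨lam, hpc⟩ := parCR_of hFα hpar'
      have hiζ : ∀ n : ℕ, (sp x₁)^[n] (ζ : OnePoint ℂ) = (((fx x₁)^[n] ζ : ℂ) : OnePoint ℂ) :=
        fun n => Pool.Agent.W29.RQSNK.sp_iter x₁ ζ n (fun j _ => hFζ j)
      filter_upwards [dir_ae hd x₁ hx₁ hG α lam p q hpc] with V hV
      rw [hζ]
      refine GS_of_GR x₁ V ζ (hV ζ hFζ ?_ ?_)
      · rw [(OnePoint.isOpenEmbedding_coe.isInducing).tendsto_nhds_iff]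
        have h2 := (h.continuous.tendsto (A z)).comp hlim
        rw [hα] at h2
        refine h2.congr fun k => ?_
        simp only [Function.comp]
        rw [← hit, hζ, hiζ]
      · intro k h0
        apply hne (p * q * k)
        apply h.injective
        rw [← hit, hζ, hiζ, h0, hα]
  have key2 : ∀ᵐ V : CV d, ∀ z ∈ Crt x, GS x₁ V (h z) :=
    (ae_ball_iff (crt_finite hd x hx).countable).mpr key
  -- transport
  have hsurj : Function.Surjective T := LinearMap.injective_iff_surjective.mp hTi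
  rw [ae_iff] at key2 ⊢
  have h1 : {V : CV d | ¬ ∀ z ∈ Crt x, GS x V z} ⊆
      (T.restrictScalars ℝ) '' {V : CV d | ¬ ∀ z ∈ Crt x, GS x₁ V (h z)} := by
    intro V hV
    obtain ⟨V₁, rfl⟩ := hsurj V
    refine ⟨V₁, fun h2 => hV fun z hz => ?_, rfl⟩
    exact GS_transport hx₁ hT hsT V₁ z (h2 z hz)
  refine measure_mono_null h1 ?_
  rw [Measure.addHaar_image_linearMap, key2, mul_zero]

/-! ### hyperbolicity -/

/-- hyperbolic maps -/
def HyR {d : ℕ} (x : CV d) : Prop := ND x ∧ ∀ z ∈ Crt x, Attd (sp x) z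

lemma wr_cont {d : ℕ} : Continuous (fun q : CV d × (ℂ × ℂ) => wr q.1 q.2) := by
  unfold wr
  fun_prop

lemma crt_near {d : ℕ} (hd : 2 ≤ d) (x : CV d) (O : Set (OnePoint ℂ)) (hO : IsOpen O) (hx : ND x)
    (h : Crt x ⊆ O) : ∀ᶠ x' in 𝓝 x, Crt x' ⊆ O := by
  have hprc := (Pool.Agent.H790R3.RB.SP d x (by omega) hx).2.2.2.2
  have hcr := (Pool.Agent.H790R3.RB.SP d x (by omega) hx).2.2.1
  obtain ⟨K, hK⟩ : ∃ K : Set (ℂ × ℂ), K = {q | q ∈ sphere (0 : ℂ × ℂ) 1 ∧ pr q ∉ O} := ⟨_, rfl⟩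
  have hsub : sphere (0 : ℂ × ℂ) 1 ⊆ {p : ℂ × ℂ | p ≠ 0} := by
    intro p hp h0
    rw [mem_sphere, h0, dist_self] at hp
    exact zero_ne_one hp
  have hKc : IsCompact K := by
    refine (isCompact_sphere (0 : ℂ × ℂ) 1).of_isClosed_subset ?_ (by
      rw [hK]; exact fun q hq => hq.1)
    have h1 := (hprc.mono hsub).preimage_isClosed_of_isClosed isClosed_sphere
      (isClosed_compl_iff.mpr hO)
    rw [hK]
    exact h1
  have h1 : ∀ q ∈ K, ∀ᶠ z : CV d × (ℂ × ℂ) in 𝓝 (x, q), wr z.1 z.2 ≠ 0 := by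
    intro q hq
    refine (wr_cont.continuousAt (x := (x, q))).eventually_ne ?_
    intro h0
    rw [hK] at hq
    exact hq.2 (h ⟨q, hsub hq.1, h0, rfl⟩)
  have h2 := hKc.eventually_forall_of_forall_eventually (P := fun x' q => wr x' q ≠ 0) h1
  filter_upwards [h2] with x' hx'
  rintro _ ⟨q, hq, hwq, rfl⟩
  by_contra hcon
  have hn : 0 < ‖q‖ := norm_pos_iff.mpr hq
  have hnC : ((‖q‖⁻¹ : ℝ) : ℂ) ≠ 0 := by
    exact_mod_cast (inv_pos.mpr hn).ne'
  have hpr : pr (((‖q‖⁻¹ : ℝ) : ℂ) • q) = pr q := by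
    refine (hcr _ _ (smul_ne_zero hnC hq) hq).2 ?_
    rw [Pool.Agent.H790R3.RB.cr_smul_left, Pool.Agent.H790R3.RB.cr_self, mul_zero]
  refine hx' (((‖q‖⁻¹ : ℝ) : ℂ) • q) ?_ ?_
  · rw [hK]
    refine ⟨?_, by rw [hpr]; exact hcon⟩
    rw [mem_sphere, dist_zero_right, norm_smul, Complex.norm_real, norm_inv, norm_norm,
      inv_mul_cancel₀ hn.ne']
  · rw [(Pool.Agent.H790R3.RB.WR d x' hd).1, hwq, mul_zero]

lemma hyR_open {d : ℕ} (hd : 2 ≤ d) (x : CV d) (h : HyR x) : ∀ᶠ x' in 𝓝 x, HyR x' := by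
  obtain ⟨hx, hc⟩ := h
  have h1 : ∀ z : OnePoint ℂ, ∃ (σ : ℝ) (U : Set (OnePoint ℂ)), z ∈ Crt x →
      0 < σ ∧ IsOpen U ∧ z ∈ U ∧ ∀ x' : CV d, ‖x' - x‖ < σ → ND x' ∧ ∀ z' ∈ U, Attd (sp x') z' := by
    intro z
    by_cases hz : z ∈ Crt x
    · obtain ⟨σ, U, hσ, hU, H⟩ := Pool.Agent.W324.RQOPA.task d x z hd hx (hc z hz)
      obtain ⟨U', hU', hU'o, hzU'⟩ := mem_nhds_iff.mp hU
      exact ⟨σ, U', fun _ => ⟨hσ, hU'o, hzU', fun x' hx' => ⟨(H x' hx').1, fun z' hz' =>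
        (H x' hx').2 z' (hU' hz')⟩⟩⟩
    · exact ⟨0, ∅, fun h => absurd h hz⟩
  choose σ U hU using h1
  have hO : IsOpen (⋃ z ∈ Crt x, U z) := isOpen_biUnion fun z hz => (hU z hz).2.1
  have hsub : Crt x ⊆ ⋃ z ∈ Crt x, U z := fun z hz => mem_biUnion hz (hU z hz).2.2.1
  have h2 : ∀ᶠ x' in 𝓝 x, ∀ z ∈ Crt x, ‖x' - x‖ < σ z := by
    rw [(crt_finite hd x hx).eventually_all]
    intro z hz
    filter_upwards [ball_mem_nhds x (hU z hz).1] with x' hx'
    rwa [mem_ball, dist_eq_norm] at hx'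
  filter_upwards [crt_near hd x _ hO hx hsub, h2, Pool.Agent.H790R3.RB.FAM.ND_open hx]
    with x' h3 h4 h5
  refine ⟨h5, fun z' hz' => ?_⟩
  obtain ⟨z, hz, hzz⟩ := mem_iUnion₂.mp (h3 hz')
  exact ((hU z hz).2.2.2 x' (h4 z hz)).2 z' hzz

lemma dir_hyR {d : ℕ} (hd : 2 ≤ d) (x V : CV d) (hx : ND x) (h : ∀ z ∈ Crt x, GS x V z) :
    ∀ᶠ t in 𝓝[>] (0 : ℝ), HyR (Xt x V t) := by
  have h1 : ∀ z : OnePoint ℂ, ∃ (U : Set (OnePoint ℂ)), z ∈ Crt x →
      IsOpen U ∧ z ∈ U ∧ ∀ᶠ t in 𝓝[>] (0 : ℝ), ∀ z' ∈ U, Attd (sp (Xt x V t)) z' := by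
    intro z
    by_cases hz : z ∈ Crt x
    · obtain ⟨U, hU, H⟩ := h z hz
      obtain ⟨U', hU', hU'o, hzU'⟩ := mem_nhds_iff.mp hU
      exact ⟨U', fun _ => ⟨hU'o, hzU', H.mono fun t ht z' hz' => ht z' (hU' hz')⟩⟩
    · exact ⟨∅, fun h => absurd h hz⟩
  choose U hU using h1
  have hO : IsOpen (⋃ z ∈ Crt x, U z) := isOpen_biUnion fun z hz => (hU z hz).1
  have hsub : Crt x ⊆ ⋃ z ∈ Crt x, U z := fun z hz => mem_biUnion hz (hU z hz).2.1
  have h2 : ∀ᶠ t in 𝓝[>] (0 : ℝ), ∀ z ∈ Crt x, ∀ z' ∈ U z, Attd (sp (Xt x V t)) z' := by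
    rw [(crt_finite hd x hx).eventually_all]
    intro z hz
    exact (hU z hz).2.2
  filter_upwards [(Xt_tendsto x V).eventually (crt_near hd x _ hO hx hsub), h2, Xt_ND x V hx]
    with t h3 h4 h5
  refine ⟨h5, fun z' hz' => ?_⟩
  obtain ⟨z, hz, hzz⟩ := mem_iUnion₂.mp (h3 hz')
  exact h4 z hz z' hzz

/-! ### volume -/

/-- the unit box -/
def BB (ι : Type) : Set (ι → ℂ) := {v | ∀ i, ‖v i‖ ≤ 1}

/-- Full density from almost everywhere convergence along subsequences. -/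
theorem density_gen {ι : Type} [Fintype ι] (c0 : ι → ℂ) (G : Set (ι → ℂ)) (hG : MeasurableSet G)
    (H : ∀ r : ℕ → ℝ, Tendsto r atTop (𝓝[>] 0) → ∃ s : ℕ → ℕ, Tendsto s atTop atTop ∧
      ∀ᵐ v : ι → ℂ, v ∈ BB ι → ∀ᶠ j in atTop, c0 + r (s j) • v ∈ G) :
    Tendsto (fun r : ℝ => volume {a : ι → ℂ | (∀ i, ‖a i - c0 i‖ ≤ r) ∧ a ∉ G} /
      volume {a : ι → ℂ | ∀ i, ‖a i - c0 i‖ ≤ r}) (𝓝[>] 0) (𝓝 0) := by
  obtain ⟨A, hA⟩ : ∃ A : ℝ → Set (ι → ℂ),
      A = fun r => BB ι ∩ {v | c0 + r • v ∉ G} := ⟨_, rfl⟩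
  have hBB : BB ι = closedBall (0 : ι → ℂ) 1 := by
    ext v
    rw [mem_closedBall, dist_zero_right, pi_norm_le_iff_of_nonneg zero_le_one]
    rfl
  have hB1c : IsClosed (BB ι) := by rw [hBB]; exact isClosed_closedBall
  have hB1fin : volume (BB ι) ≠ ⊤ := by
    rw [hBB]; exact measure_closedBall_lt_top.ne
  have hB1pos : volume (BB ι) ≠ 0 := by
    rw [hBB]; exact (measure_closedBall_pos volume _ one_pos).ne'
  have hAm : ∀ r, MeasurableSet (A r) := by
    intro r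
    rw [hA]
    refine hB1c.measurableSet.inter ?_
    have hcont : Continuous (fun v : ι → ℂ => c0 + r • v) := by fun_prop
    exact (hcont.measurable hG).compl
  -- scaling
  have hscale : ∀ r : ℝ, 0 < r → ∀ D : Set (ι → ℂ),
      volume {a | ∃ v ∈ D, a = c0 + r • v} =
        ENNReal.ofReal |r ^ Module.finrank ℝ (ι → ℂ)| * volume D := by
    intro r hr D
    have h1 : {a | ∃ v ∈ D, a = c0 + r • v} = (fun a => a + (-c0)) ⁻¹' (r • D) := by
      ext a
      constructor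
      · rintro ⟨v, hv, rfl⟩
        exact ⟨v, hv, by simp⟩
      · rintro ⟨v, hv, h⟩
        refine ⟨v, hv, ?_⟩
        simp only at h
        rw [h]
        abel
    rw [h1, measure_preimage_add_right, Measure.addHaar_smul]
  have hratio : ∀ r : ℝ, 0 < r → volume {a : ι → ℂ |
        (∀ i, ‖a i - c0 i‖ ≤ r) ∧ a ∉ G} /
      volume {a : ι → ℂ | ∀ i, ‖a i - c0 i‖ ≤ r} =
      volume (A r) / volume (BB ι) := by
    intro r hr
    have hnorm : ∀ v : ι → ℂ, (∀ i, ‖(c0 + r • v) i - c0 i‖ ≤ r) ↔ v ∈ BB ι := by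
      intro v
      refine forall_congr' fun i => ?_
      have : (c0 + r • v) i - c0 i = (r : ℂ) * v i := by
        simp
      rw [this, norm_mul, Complex.norm_of_nonneg hr.le]
      constructor
      · intro h
        by_contra hcon
        push Not at hcon
        nlinarith
      · intro h
        nlinarith [norm_nonneg (v i)]
    have hex : ∀ a : ι → ℂ, ∃ v, a = c0 + r • v := by
      intro a
      refine ⟨r⁻¹ • (a - c0), ?_⟩
      rw [smul_smul, mul_inv_cancel₀ hr.ne', one_smul]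
      abel
    have e1 : {a : ι → ℂ | (∀ i, ‖a i - c0 i‖ ≤ r) ∧ a ∉ G} = {a | ∃ v ∈ A r, a = c0 + r • v} := by
      ext a
      constructor
      · rintro ⟨h1, h2⟩
        obtain ⟨v, rfl⟩ := hex a
        refine ⟨v, ?_, rfl⟩
        rw [hA]
        exact ⟨(hnorm v).mp h1, h2⟩
      · rintro ⟨v, hv, rfl⟩
        rw [hA] at hv
        exact ⟨(hnorm v).mpr hv.1, hv.2⟩
    have e2 : {a : ι → ℂ | ∀ i, ‖a i - c0 i‖ ≤ r} = {a | ∃ v ∈ BB ι, a = c0 + r • v} := by
      ext a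
      constructor
      · intro h1
        obtain ⟨v, rfl⟩ := hex a
        exact ⟨v, (hnorm v).mp h1, rfl⟩
      · rintro ⟨v, hv, rfl⟩
        exact (hnorm v).mpr hv
    rw [e1, e2, hscale r hr, hscale r hr]
    refine ENNReal.mul_div_mul_left _ _ ?_ ENNReal.ofReal_ne_top
    have : 0 < |r ^ Module.finrank ℝ (ι → ℂ)| := by positivity
    exact (ENNReal.ofReal_pos.mpr this).ne'
  have hmain : Tendsto (fun r : ℝ => volume (A r)) (𝓝[>] 0) (𝓝 0) := by
    refine tendsto_of_subseq_tendsto fun ns hns => ?_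
    obtain ⟨s, hs, hae⟩ := H ns hns
    refine ⟨s, ?_⟩
    have h1 := tendsto_measure_of_ae_tendsto_indicator (μ := volume) (A := ∅)
      (As := fun j => A (ns (s j))) (B := BB ι) atTop MeasurableSet.empty
      (fun j => hAm _) hB1c.measurableSet hB1fin
      (Eventually.of_forall fun j => by rw [hA]; exact inter_subset_left) ?_
    · rw [measure_empty] at h1
      exact h1
    · filter_upwards [hae] with v hv
      by_cases hvB : v ∈ BB ι
      · filter_upwards [hv hvB] with j hj1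
        simp only [mem_empty_iff_false, iff_false]
        intro hmem
        rw [hA] at hmem
        exact hmem.2 hj1
      · refine Eventually.of_forall fun j => ?_
        simp only [mem_empty_iff_false, iff_false]
        intro hmem
        rw [hA] at hmem
        exact hvB hmem.1
  have hfin : Tendsto (fun r : ℝ => volume (A r) / volume (BB ι)) (𝓝[>] 0) (𝓝 0) := by
    have h1 := ENNReal.Tendsto.mul_const (b := (volume (BB ι))⁻¹) hmain
      (Or.inr (ENNReal.inv_ne_top.mpr hB1pos))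
    rw [zero_mul] at h1
    exact h1
  refine hfin.congr' ?_
  filter_upwards [self_mem_nhdsWithin] with r hr
  exact (hratio r hr).symm

/-- the main theorem on the level of coefficient vectors -/
theorem mainR {d : ℕ} (hd : 2 ≤ d) (x : CV d) (hx : ND x)
    (hcrit : ∀ z ∈ Crt x, Attd (sp x) z ∨ ∃ a, ParB (sp x) z a) :
    (∀ᵐ V : CV d, ∀ᶠ t in 𝓝[>] (0 : ℝ), HyR (Xt x V t)) ∧
    Tendsto (fun r : ℝ => volume {a : CV d | (∀ i, ‖a i - x i‖ ≤ r) ∧ ¬ HyR a} /
      volume {a : CV d | ∀ i, ‖a i - x i‖ ≤ r}) (𝓝[>] 0) (𝓝 0) := by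
  have h1 : ∀ᵐ V : CV d, ∀ᶠ t in 𝓝[>] (0 : ℝ), HyR (Xt x V t) := by
    filter_upwards [ae_GS hd x hx hcrit] with V hV
    exact dir_hyR hd x V hx hV
  refine ⟨h1, ?_⟩
  have hopen : IsOpen {a : CV d | HyR a} := isOpen_iff_mem_nhds.mpr fun a ha => hyR_open hd a ha
  exact density_gen x {a : CV d | HyR a} hopen.measurableSet (fun r hr => ⟨id, tendsto_id, by
    filter_upwards [h1] with V hV _
    exact hr.eventually hV⟩)

end Run7.h904.RF
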