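import Mathlib
import Pool.Agent.Run7.h904.R4Pre
import Pool.Agent.Run7.h904.RDen
import Pool.Agent.W342.RE.PB

set_option autoImplicit false

open Topology Filter Metric Set Polynomial MeasureTheory Asymptotics
open scoped OnePoint

namespace Run7.h904.RF

open Pool.Agent.H790R3.RB (CV hF cr ND wr rt sp pr hc pol Sink Attd HypTop)
open Pool.Agent.W757.QR Pool.Agent.W757.RF Pool.Agent.W757.Q2
open Pool.Agent.W40.RQAF (af_det)

/-- preimages of null sets under an injective holomorphic map are null -/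
lemma null_pre (ψ : ℂ → ℂ) (ρ : ℝ) (hd : DifferentiableOn ℂ ψ (ball 0 ρ)) (hi : InjOn ψ (ball 0 ρ))
    (N : Set ℂ) (hN : volume N = 0) : volume {u | u ∈ ball (0 : ℂ) ρ ∧ ψ u ∈ N} = 0 := by
  obtain ⟨N', hN'⟩ : ∃ N', N' = toMeasurable volume N := ⟨_, rfl⟩
  have hN'm : MeasurableSet N' := by rw [hN']; exact measurableSet_toMeasurable _ _
  have hN'0 : volume N' = 0 := by rw [hN', measure_toMeasurable, hN]
  have hNN' : N ⊆ N' := by rw [hN']; exact subset_toMeasurable _ _
  obtain ⟨S, hS⟩ : ∃ S : Set ℂ, S = ball 0 ρ ∩ ψ ⁻¹' N' := ⟨_, rfl⟩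
  have hSm : MeasurableSet S := by
    have h1 : Measurable ((ball (0 : ℂ) ρ).domRestrict ψ) :=
      (continuousOn_iff_continuous_domRestrict.mp hd.continuousOn).measurable
    have h2 := (measurableSet_ball (x := (0 : ℂ)) (ε := ρ)).subtype_image (h1 hN'm)
    have e : S = Subtype.val '' ((ball (0 : ℂ) ρ).domRestrict ψ ⁻¹' N') := by
      rw [hS]
      ext u
      constructor
      · rintro ⟨h3, h4⟩
        exact ⟨⟨u, h3⟩, h4, rfl⟩
      · rintro ⟨⟨v, hv⟩, h4, rfl⟩
        exact ⟨hv, h4⟩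
    rw [e]
    exact h2
  have hne : ∀ u ∈ ball (0 : ℂ) ρ, deriv ψ u ≠ 0 := fun u hu =>
    Pool.Agent.Helper540.deriv_ne_zero_of_injOn isOpen_ball hd hi hu
  have hfd : ∀ u ∈ S, HasFDerivWithinAt ψ
      (((ContinuousLinearMap.toSpanSingleton ℂ (deriv ψ u)).restrictScalars ℝ : ℂ →L[ℝ] ℂ)) S u := by
    intro u hu
    rw [hS] at hu
    have h1 : HasDerivAt ψ (deriv ψ u) u :=
      ((hd u hu.1).differentiableAt (isOpen_ball.mem_nhds hu.1)).hasDerivAt
    exact (h1.hasFDerivAt.restrictScalars ℝ).hasFDerivWithinAt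
  have hinj : InjOn ψ S := hi.mono (by rw [hS]; exact inter_subset_left)
  have h1 := lintegral_abs_det_fderiv_eq_addHaar_image (volume : Measure ℂ) hSm hfd hinj
  have h2 : volume (ψ '' S) = 0 := by
    refine measure_mono_null ?_ hN'0
    rintro _ ⟨u, hu, rfl⟩
    rw [hS] at hu
    exact hu.2
  rw [h2, lintegral_eq_zero_iff'] at h1
  · have h3 : ∀ᵐ u ∂(volume.restrict S), False := by
      have h4 : ∀ᵐ u ∂(volume.restrict S), u ∈ S := ae_restrict_mem hSm
      filter_upwards [h1, h4] with u h5 h6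
      simp only [Pi.zero_apply, ENNReal.ofReal_eq_zero, af_det] at h5
      rw [hS] at h6
      have h7 := norm_pos_iff.2 (hne u h6.1)
      rw [abs_of_nonneg (by positivity)] at h5
      have : 0 < ‖deriv ψ u‖ ^ 2 := by positivity
      linarith
    have h4 : volume S = 0 := by
      have h5 := ae_iff.1 h3
      simpa using h5
    refine measure_mono_null ?_ h4
    rintro u ⟨hu, hu2⟩
    rw [hS]
    exact ⟨hu, hNN' hu2⟩
  · have h3 : ContinuousOn (fun u => ENNReal.ofReal (|(((ContinuousLinearMap.toSpanSingleton ℂ (deriv ψ u)).restrictScalars ℝ : ℂ →L[ℝ] ℂ)).det|)) S := by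
      simp only [af_det]
      refine ENNReal.continuous_ofReal.comp_continuousOn ?_
      refine ContinuousOn.abs ?_
      refine (ContinuousOn.norm ?_).pow 2
      refine ((hd.analyticOnNhd isOpen_ball).deriv.continuousOn).mono ?_
      rw [hS]; exact inter_subset_left
    exact h3.aemeasurable hSm

/-- almost every direction avoids a null set after a nonzero functional and a holomorphic map -/
lemma ae_avoid {ι : Type} [Fintype ι] (L : (ι → ℂ) →ₗ[ℂ] ℂ) (hL : L ≠ 0) (ψ : ℂ → ℂ) (ρ : ℝ)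
    (hd : DifferentiableOn ℂ ψ (ball 0 ρ)) (hi : InjOn ψ (ball 0 ρ)) (w : ℂ) (hw : w ≠ 0)
    (N : Set ℂ) (hN : volume N = 0) :
    ∀ᵐ V : ι → ℂ, ‖w * L V‖ < ρ → ψ (w * L V) ∉ N := by
  have h0 := null_pre ψ ρ hd hi N hN
  obtain ⟨B, hB⟩ : ∃ B, B = toMeasurable volume {u | u ∈ ball (0 : ℂ) ρ ∧ ψ u ∈ N} := ⟨_, rfl⟩
  have hBm : MeasurableSet B := by rw [hB]; exact measurableSet_toMeasurable _ _
  have hB0 : volume B = 0 := by rw [hB, measure_toMeasurable, h0]
  have hsub : {u | u ∈ ball (0 : ℂ) ρ ∧ ψ u ∈ N} ⊆ B := by rw [hB]; exact subset_toMeasurable _ _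
  let M : (ι → ℂ) →ₗ[ℝ] ℂ := (w • L).restrictScalars ℝ
  have hM : ∀ V, M V = w * L V := fun V => rfl
  have hsurj : Function.Surjective M := by
    obtain ⟨V0, hV0⟩ : ∃ V0, L V0 ≠ 0 := by
      by_contra hcon
      push Not at hcon
      exact hL (LinearMap.ext hcon)
    intro z
    refine ⟨(z / (w * L V0)) • V0, ?_⟩
    rw [hM, map_smul, smul_eq_mul]
    field_simp
  have h1 := (ae_comp_linearMap_mem_iff M (volume : Measure (ι → ℂ)) (volume : Measure ℂ) hsurj
    hBm.compl).2 (by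
      rw [ae_iff]
      simpa using hB0)
  filter_upwards [h1] with V hV hlt hmem
  rw [hM] at hV
  exact hV (hsub ⟨by rw [mem_ball, dist_zero_right]; exact hlt, hmem⟩)

end Run7.h904.RF
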