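import Mathlib
import Pool.Agent.Run7.h904.R4Ae

set_option autoImplicit false

open Topology Filter Metric Set Polynomial MeasureTheory Asymptotics
open scoped OnePoint

namespace Run7.h904.RF

open Pool.Agent.H790R3.RB (CV hF cr ND wr rt sp pr hc pol Sink Attd HypTop)
open Pool.Agent.W757.QR Pool.Agent.W757.RF Pool.Agent.W757.Q2
open Pool.Agent.W29.RQSNK (sp_iter fin_of sp_fx)

/-- a point whose orbit converges to a cycle is not recurrent unless it is periodic -/
lemma norecur {f : OnePoint ℂ → OnePoint ℂ} (hf : Continuous f) {n : ℕ} (hn : 0 < n)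
    {z a : OnePoint ℂ} (h : Tendsto (fun k : ℕ => f^[n * k] z) atTop (𝓝 a))
    (hz : z ∉ Function.periodicPts f) : ∃ s ∈ 𝓝 z, ∀ᶠ m in atTop, f^[m] z ∉ s := by
  have ha : f^[n] a = a := by
    have h1 : Tendsto (fun k : ℕ => f^[n] (f^[n * k] z)) atTop (𝓝 (f^[n] a)) :=
      ((hf.iterate n).tendsto a).comp h
    have h2 : Tendsto (fun k : ℕ => f^[n * (k + 1)] z) atTop (𝓝 a) := (tendsto_add_atTop_iff_nat 1).2 h
    refine tendsto_nhds_unique (h1.congr fun k => ?_) h2
    rw [← Function.iterate_add_apply]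
    congr 1
    ring
  have hzj : ∀ j : ℕ, z ≠ f^[j] a := by
    rintro j rfl
    apply hz
    refine Function.mk_mem_periodicPts hn ?_
    show f^[n] (f^[j] a) = f^[j] a
    rw [← Function.iterate_add_apply, add_comm, Function.iterate_add_apply, ha]
  have h1 : ∀ j : ℕ, ∃ s u : Set (OnePoint ℂ), s ∈ 𝓝 z ∧ u ∈ 𝓝 (f^[j] a) ∧ Disjoint s u := fun j =>
    t2_separation_nhds (hzj j)
  choose s u hs hu hd using h1
  refine ⟨⋂ j ∈ Finset.range n, s j, ?_, ?_⟩
  · rw [Filter.biInter_finset_mem]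
    exact fun j _ => hs j
  · have h2 : ∀ j ∈ Finset.range n, ∀ᶠ k : ℕ in atTop, f^[j] (f^[n * k] z) ∈ u j := fun j _ =>
      (((hf.iterate j).tendsto a).comp h).eventually (hu j)
    have h3 := (Finset.eventually_all (Finset.range n)).mpr h2
    obtain ⟨N, hN⟩ := h3.exists_forall_of_atTop
    filter_upwards [eventually_ge_atTop (n * N)] with m hm hmem
    have h4 := hN (m / n) ((Nat.le_div_iff_mul_le hn).mpr (by rw [mul_comm]; exact hm)) (m % n)
      (Finset.mem_range.mpr (Nat.mod_lt _ hn))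
    rw [← Function.iterate_add_apply, Nat.mod_add_div] at h4
    have h5 := mem_iInter₂.1 hmem (m % n) (Finset.mem_range.mpr (Nat.mod_lt _ hn))
    exact (disjoint_left.1 (hd (m % n))) h5 h4


/-- good points: attracted by a sink or in a parabolic basin -/
def Gd {d : ℕ} (x : CV d) (z : OnePoint ℂ) : Prop := Attd (sp x) z ∨ ∃ a, ParB (sp x) z a

lemma sp_cont {d : ℕ} (hd : 2 ≤ d) (x : CV d) (hx : ND x) : Continuous (sp x) :=
  (Pool.Agent.H790R3.RB.SP d x (by omega) hx).1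

lemma gd_norecur {d : ℕ} (hd : 2 ≤ d) (x : CV d) (hx : ND x) (z : OnePoint ℂ) (h : Gd x z)
    (hz : z ∉ Function.periodicPts (sp x)) : ∃ s ∈ 𝓝 z, ∀ᶠ m in atTop, (sp x)^[m] z ∉ s := by
  rcases h with ⟨n, a, hs, hlim⟩ | ⟨a, p, q, hpar, hlim, -⟩
  · exact norecur (sp_cont hd x hx) hs.1 hlim hz
  · exact norecur (sp_cont hd x hx) (Nat.mul_pos hpar.1 hpar.2.1) hlim hz

/-- the periodic points in the plane are countable -/
lemma per_countable {d : ℕ} (hd : 2 ≤ d) (x : CV d) (hx : ND x) :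
    {z : ℂ | (z : OnePoint ℂ) ∈ Function.periodicPts (sp x)}.Countable := by
  have h1 : {z : ℂ | (z : OnePoint ℂ) ∈ Function.periodicPts (sp x)} ⊆
      ⋃ p ∈ {p : ℕ | 0 < p}, {z : ℂ | (sp x)^[p] (z : OnePoint ℂ) = (z : OnePoint ℂ)} := by
    intro z hz
    obtain ⟨p, hp, h⟩ := hz
    exact mem_biUnion hp h
  refine Set.Countable.mono h1 ((Set.to_countable _).biUnion fun p hp => ?_)
  exact (Pool.Agent.W409.RQAPX.finite_fix x hd hx p hp).countable

/-- the points in the plane with an orbit through infinity are countable -/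
lemma nonfin_countable {d : ℕ} (hd : 2 ≤ d) (x : CV d) (hx : ND x) :
    {z : ℂ | ¬ Fin' x z}.Countable := by
  have h1 : {z : ℂ | ¬ Fin' x z} ⊆
      ⋃ n : ℕ, (fun z : ℂ => (z : OnePoint ℂ)) ⁻¹' {z : OnePoint ℂ | (sp x)^[n] z = ∞} := by
    intro z hz
    by_contra hcon
    apply hz
    apply fin_of
    intro j hj
    exact hcon (mem_iUnion.2 ⟨j, hj⟩)
  refine Set.Countable.mono h1 (Set.countable_iUnion fun n => ?_)
  exact (Pool.Agent.W342.RE.PTW.pre_countable hd hx ∞ n).preimage OnePoint.coe_injective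

/-- almost every point is not recurrent -/
lemma ae_norecur {d : ℕ} (hd : 2 ≤ d) (x : CV d) (hx : ND x)
    (h : ∀ᵐ z : ℂ, Gd x (z : OnePoint ℂ)) :
    ∀ᵐ z : ℂ, ¬ ∀ s ∈ 𝓝 z, ∃ᶠ n in atTop, (fx x)^[n] z ∈ s := by
  have h1 : ∀ᵐ z : ℂ, z ∉ {z : ℂ | (z : OnePoint ℂ) ∈ Function.periodicPts (sp x)} :=
    (per_countable hd x hx).ae_notMem volume
  have h2 : ∀ᵐ z : ℂ, z ∉ {z : ℂ | ¬ Fin' x z} := (nonfin_countable hd x hx).ae_notMem volume
  filter_upwards [h, h1, h2] with z hz hp hf hrec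
  replace hf : Fin' x z := by
    by_contra h0
    exact hf h0
  obtain ⟨s, hs, hev⟩ := gd_norecur hd x hx z hz hp
  have h3 := hrec _ (OnePoint.continuous_coe.continuousAt.preimage_mem_nhds hs)
  obtain ⟨n, h4, h5⟩ := (h3.and_eventually hev).exists
  apply h5
  rw [sp_iter x z n (fun j _ => hf j)]
  exact h4

/-- almost every direction is good for all parabolic cycles in the plane -/
lemma ae_par {d : ℕ} (hd : 2 ≤ d) (x : CV d) (hx : ND x) (hG : Ginf d (nu x) (de x)) :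
    ∀ᵐ V : CV d, ∀ (a lam : ℂ) (p q : ℕ), ParCR x a p q lam → ∀ z : ℂ, Fin' x z →
      Tendsto (fun i : ℕ => (fx x)^[p * q * i] z) atTop (𝓝 a) →
      (∀ i : ℕ, (fx x)^[p * q * i] z ≠ a) → GR x V z := by
  obtain ⟨K, hK⟩ : ∃ K : Set (ℂ × ℂ × ℕ × ℕ), K = {k | ParCR x k.1 k.2.2.1 k.2.2.2 k.2.1} := ⟨_, rfl⟩
  have hKc : K.Countable := by
    have h1 : K ⊆ (fun k : ℂ × ℕ × ℕ => (k.1, deriv ((fx x)^[k.2.1]) k.1, k.2.1, k.2.2)) ''
        ({z : ℂ | (z : OnePoint ℂ) ∈ Function.periodicPts (sp x)} ×ˢ (univ : Set (ℕ × ℕ))) := by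
      rintro ⟨a, lam, p, q⟩ hk
      rw [hK] at hk
      have hk' : ParCR x a p q lam := hk
      refine ⟨(a, p, q), ⟨?_, mem_univ _⟩, ?_⟩
      · refine Function.mk_mem_periodicPts hk'.pp ?_
        show (sp x)^[p] (a : OnePoint ℂ) = a
        rw [sp_iter x a p (fun j _ => hk'.fin j), ← hk'.per, Function.iterate_minimalPeriod]
      · simp only [hk'.der]
    exact (((per_countable hd x hx).prod (Set.to_countable _)).image _).mono h1
  have h2 : ∀ k ∈ K, ∀ᵐ V : CV d, ∀ z : ℂ, Fin' x z →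
      Tendsto (fun i : ℕ => (fx x)^[k.2.2.1 * k.2.2.2 * i] z) atTop (𝓝 k.1) →
      (∀ i : ℕ, (fx x)^[k.2.2.1 * k.2.2.2 * i] z ≠ k.1) → GR x V z := by
    intro k hk
    rw [hK] at hk
    exact dir_ae hd x hx hG k.1 k.2.1 k.2.2.1 k.2.2.2 hk
  filter_upwards [(ae_ball_iff hKc).2 h2] with V hV a lam p q hpar
  exact hV (a, lam, p, q) (by rw [hK]; exact hpar)

/-- good points are good for the perturbation -/
lemma gs_of_gd {d : ℕ} (hd : 2 ≤ d) (x : CV d) (hx : ND x)
    (hinf : ∞ ∉ Function.periodicPts (sp x)) (V : CV d)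
    (hV : ∀ (a lam : ℂ) (p q : ℕ), ParCR x a p q lam → ∀ z : ℂ, Fin' x z →
      Tendsto (fun i : ℕ => (fx x)^[p * q * i] z) atTop (𝓝 a) →
      (∀ i : ℕ, (fx x)^[p * q * i] z ≠ a) → GR x V z) (z : ℂ) (hz : Fin' x z)
    (h : Gd x (z : OnePoint ℂ)) : GS x V (z : OnePoint ℂ) := by
  rcases h with h | ⟨a, p, q, hpar, hlim, hne⟩
  · exact GS_of_attd hd x V hx _ h
  · have hper : a ∈ Function.periodicPts (sp x) := by
      obtain ⟨hp, -, -, lam, g, -, g0, -, ge⟩ := hpar
      refine Function.mk_mem_periodicPts hp ?_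
      show (sp x)^[p] a = a
      have h1 := ge.self_of_nhds
      rwa [g0, Pool.Agent.W757.RF.chart_zero] at h1
    have hfin : ∀ n : ℕ, (sp x)^[n] a ≠ ∞ := by
      intro n h0
      apply hinf
      rw [← h0]
      obtain ⟨m, hm, hma⟩ := hper
      refine Function.mk_mem_periodicPts hm ?_
      show (sp x)^[m] ((sp x)^[n] a) = (sp x)^[n] a
      rw [← Function.iterate_add_apply, add_comm, Function.iterate_add_apply]
      congr 1
    obtain ⟨α, rfl⟩ : ∃ α : ℂ, a = α := by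
      have := hfin 0
      induction a using OnePoint.rec with
      | infty => exact absurd rfl this
      | coe ζ => exact ⟨ζ, rfl⟩
    have hFα : Fin' x α := fin_of x α hfin
    obtain ⟨lam, hpc⟩ := parCR_of hFα hpar
    have hiζ : ∀ n : ℕ, (sp x)^[n] (z : OnePoint ℂ) = (((fx x)^[n] z : ℂ) : OnePoint ℂ) :=
      fun n => sp_iter x z n (fun j _ => hz j)
    refine GS_of_GR x V z (hV α lam p q hpc z hz ?_ ?_)
    · rw [(OnePoint.isOpenEmbedding_coe.isInducing).tendsto_nhds_iff]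
      refine hlim.congr fun k => ?_
      simp only [Function.comp]
      rw [hiζ]
    · intro k h0
      apply hne (p * q * k)
      rw [hiζ, h0]

end Run7.h904.RF
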