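import Mathlib
import Pool.Agent.Run7.h904.R4Rec

set_option autoImplicit false

open Topology Filter Metric Set Polynomial MeasureTheory Asymptotics
open scoped OnePoint

namespace Run7.h904.RF

open Pool.Agent.H790R3.RB (CV hF cr ND wr rt sp pr hc pol Sink Attd HypTop)
open Pool.Agent.W757.QR Pool.Agent.W757.RF Pool.Agent.W757.Q2
open Pool.Agent.W29.RQSNK (sp_iter fin_of sp_fx)

lemma attd_iter {f : OnePoint ℂ → OnePoint ℂ} (hf : Continuous f) (n : ℕ) {z : OnePoint ℂ}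
    (h : Attd f (f^[n] z)) : Attd f z := by
  induction n generalizing z with
  | zero => exact h
  | succ n ih =>
    rw [Function.iterate_succ_apply] at h
    exact Pool.Agent.W409.RQAPX.attd_back hf (ih h)

/-- critical points near a preperiodic critical point become attracted along a sequence -/
theorem pre_dir {d : ℕ} (hd : 2 ≤ d) (x V : CV d) (hx : ND x) {c₀ b lam : ℂ} {M p : ℕ}
    (h : PreR x c₀ b M p lam) (ψ : ℂ → ℂ) (ρ : ℝ)
    (hψ : ∀ (V : CV d) {ι : Type} (l : Filter ι) (τ : ι → ℝ), Tendsto τ l (𝓝[>] 0) →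
        ∀ (y : ι → ℂ) (a : ℂ), Tendsto (fun i => (y i - b) / (τ i : ℂ)) l (𝓝 a) →
        ∀ (n : ι → ℕ) (w : ℂ), Tendsto (fun i => lam ^ (n i) * (τ i : ℂ)) l (𝓝 w) → ‖w‖ < ρ →
        ‖w * (a - llR x V b p / (1 - lam))‖ < ρ →
        (∀ᶠ i in l, ∀ j < p * n i, (de (Xt x V (τ i))).eval
          ((fx (Xt x V (τ i)))^[j] (y i)) ≠ 0) ∧
        Tendsto (fun i => (fx (Xt x V (τ i)))^[p * n i] (y i)) l
          (𝓝 (ψ (w * (a - llR x V b p / (1 - lam))))))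
    (r : ℕ → ℝ) (hr : Tendsto r atTop (𝓝[>] 0)) (n : ℕ → ℕ) (w : ℂ)
    (hn : Tendsto (fun j => lam ^ (n j) * (r j : ℂ)) atTop (𝓝 w)) (hw : ‖w‖ < ρ)
    (hwL : ‖w * ffR x V c₀ b M p lam‖ < ρ)
    (hG : GS x V ((ψ (w * ffR x V c₀ b M p lam) : ℂ) : OnePoint ℂ)) :
    ∃ U ∈ 𝓝 c₀, ∀ᶠ j in atTop, ∀ z' ∈ U,
      (wn (nu (Xt x V (r j))) (de (Xt x V (r j)))).eval z' = 0 →
        Attd (sp (Xt x V (r j))) (z' : OnePoint ℂ) := by
  obtain ⟨l, hl⟩ : ∃ l : Filter (ℕ × ℂ), l = (atTop ×ˢ 𝓝 c₀) ⊓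
    𝓟 {q : ℕ × ℂ | (wn (nu (Xt x V (r q.1))) (de (Xt x V (r q.1)))).eval q.2 = 0} := ⟨_, rfl⟩
  have hl1 : Tendsto (fun q : ℕ × ℂ => q.1) l atTop := by
    rw [hl]; exact tendsto_fst.mono_left inf_le_left
  have hl2 : Tendsto (fun q : ℕ × ℂ => q.2) l (𝓝 c₀) := by
    rw [hl]; exact tendsto_snd.mono_left inf_le_left
  have hl3 : ∀ᶠ q in l, (wn (nu (Xt x V (r q.1))) (de (Xt x V (r q.1)))).eval q.2 = 0 := by
    rw [hl]
    exact (eventually_principal.2 fun q hq => hq).filter_mono inf_le_right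
  have hτ : Tendsto (fun q : ℕ × ℂ => r q.1) l (𝓝[>] 0) := hr.comp hl1
  -- the first part of the orbit
  obtain ⟨M', rfl⟩ : ∃ M', M = M' + 1 := ⟨M - 1, by have := h.Mp; omega⟩
  have h1 := critG' hd x V hx c₀ h.crit h.finc hτ (fun q => q.2) hl2 hl3 M'
  rw [h.hit] at h1
  have h2 : Tendsto (fun q : ℕ × ℂ => lam ^ (n q.1) * ((r q.1 : ℝ) : ℂ)) l (𝓝 w) := hn.comp hl1
  obtain ⟨h3, h4⟩ := hψ V l (fun q => r q.1) hτ (fun q => (fx (Xt x V (r q.1)))^[M' + 1] q.2) _ h1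
    (fun q => n q.1) w h2 hw hwL
  change Tendsto _ _ (𝓝 (ψ (w * ffR x V c₀ b (M' + 1) p lam))) at h4
  obtain ⟨U, hU, hev⟩ := hG
  have h5 : ∀ᶠ q : ℕ × ℂ in l, (((fx (Xt x V (r q.1)))^[p * n q.1]
      ((fx (Xt x V (r q.1)))^[M' + 1] q.2) : ℂ) : OnePoint ℂ) ∈ U := by
    have h6 := (OnePoint.continuous_coe.tendsto _).comp h4
    exact h6.eventually hU
  have h6 : ∀ᶠ q : ℕ × ℂ in l, ∀ z' ∈ U, Attd (sp (Xt x V (r q.1))) z' := hτ.eventually hev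
  have h7 : ∀ᶠ q : ℕ × ℂ in l, ∀ j < M' + 1, (de (Xt x V (r q.1))).eval
      ((fx (Xt x V (r q.1)))^[j] q.2) ≠ 0 := by
    have h8 := Pool.Agent.W29.RQAPP.ne_nhds (M' + 1) (x, c₀) (fun j _ => h.finc j)
    have h9 : Tendsto (fun q : ℕ × ℂ => ((Xt x V (r q.1), q.2) : CV d × ℂ)) l (𝓝 (x, c₀)) :=
      ((Xt_tendsto x V).comp hτ).prodMk_nhds hl2
    exact h9.eventually h8
  have h8 : ∀ᶠ q : ℕ × ℂ in l, ND (Xt x V (r q.1)) := hτ.eventually (Xt_ND x V hx)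
  have h9 : ∀ᶠ q : ℕ × ℂ in l, Attd (sp (Xt x V (r q.1))) (q.2 : OnePoint ℂ) := by
    filter_upwards [h3, h5, h6, h7, h8] with q q3 q5 q6 q7 q8
    have q9 := q6 _ q5
    rw [← Function.iterate_add_apply, ← sp_iter _ q.2 (p * n q.1 + (M' + 1))] at q9
    · exact attd_iter (sp_cont hd _ q8) _ q9
    · intro j hj
      rcases Nat.lt_or_ge j (M' + 1) with hjM | hjM
      · exact q7 j hjM
      · have e : (fx (Xt x V (r q.1)))^[j] q.2 = (fx (Xt x V (r q.1)))^[j - (M' + 1)]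
            ((fx (Xt x V (r q.1)))^[M' + 1] q.2) := by
          rw [← Function.iterate_add_apply]
          congr 1
          omega
        rw [e]
        exact q3 _ (by omega)
  rw [hl, eventually_inf_principal, eventually_prod_iff] at h9
  obtain ⟨pa, hpa, pb, hpb, H⟩ := h9
  refine ⟨{z | pb z}, hpb, ?_⟩
  filter_upwards [hpa] with j hj z' hz' hw'
  exact H hj hz' hw'

end Run7.h904.RF
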