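import Mathlib
import Pool.Agent.Run7.h904.R4Dir

set_option autoImplicit false

open Topology Filter Metric Set Polynomial MeasureTheory Asymptotics
open scoped OnePoint

namespace Run7.h904.RF

open Pool.Agent.H790R3.RB (CV hF cr ND wr rt sp pr hc pol Sink Attd HypTop)
open Pool.Agent.W757.QR Pool.Agent.W757.RF Pool.Agent.W757.Q2
open Pool.Agent.W29.RQSNK (sp_iter fin_of sp_fx)

/-- the integer time at which the expansion compensates the size of the perturbation -/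
lemma time_exists (q δ r : ℝ) (hq : 1 < q) (hr : 0 < r) (hrδ : r ≤ δ) :
    ∃ n : ℕ, δ / q ≤ q ^ n * r ∧ q ^ n * r ≤ δ := by
  have hex : ∃ N : ℕ, δ < q ^ N * r := by
    obtain ⟨N, hN⟩ := pow_unbounded_of_one_lt (δ / r) hq
    exact ⟨N, (div_lt_iff₀ hr).1 hN⟩
  classical
  obtain ⟨N, hN⟩ : ∃ N, N = Nat.find hex := ⟨_, rfl⟩
  have h1 : δ < q ^ N * r := by rw [hN]; exact Nat.find_spec hex
  have hN0 : N ≠ 0 := by
    rintro h0
    rw [h0, pow_zero, one_mul] at h1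
    linarith
  obtain ⟨n, rfl⟩ : ∃ n, N = n + 1 := ⟨N - 1, by omega⟩
  have h2 : ¬ δ < q ^ n * r := Nat.find_min hex (by rw [← hN]; omega)
  refine ⟨n, ?_, not_lt.1 h2⟩
  rw [div_le_iff₀ (by linarith)]
  have h3 : q ^ (n + 1) * r = q ^ n * r * q := by ring
  rw [h3] at h1
  exact h1.le

/-- common subsequence -/
lemma seqs {κ : Type} [Finite κ] (lam : κ → ℂ) (hlam : ∀ k, 1 < ‖lam k‖) (δ : κ → ℝ)
    (hδ : ∀ k, 0 < δ k) (r : ℕ → ℝ) (hr : Tendsto r atTop (𝓝[>] 0)) :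
    ∃ (s : ℕ → ℕ) (n : κ → ℕ → ℕ) (w : κ → ℂ), StrictMono s ∧ ∀ k, w k ≠ 0 ∧ ‖w k‖ ≤ δ k ∧
      Tendsto (fun j => lam k ^ (n k j) * ((r (s j) : ℝ) : ℂ)) atTop (𝓝 (w k)) := by
  classical
  have h1 : ∀ (k : κ) (j : ℕ), ∃ n : ℕ, 0 < r j → r j ≤ δ k →
      δ k / ‖lam k‖ ≤ ‖lam k‖ ^ n * r j ∧ ‖lam k‖ ^ n * r j ≤ δ k := by
    intro k j
    by_cases h : 0 < r j ∧ r j ≤ δ k
    · obtain ⟨n, hn⟩ := time_exists ‖lam k‖ (δ k) (r j) (hlam k) h.1 h.2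
      exact ⟨n, fun _ _ => hn⟩
    · exact ⟨0, fun h2 h3 => absurd ⟨h2, h3⟩ h⟩
  choose N hN using h1
  obtain ⟨W, hW⟩ : ∃ W : ℕ → κ → ℂ, W = fun j k => lam k ^ (N k j) * ((r j : ℝ) : ℂ) := ⟨_, rfl⟩
  have hcomp : IsCompact (Set.pi univ fun k : κ => {w : ℂ | δ k / ‖lam k‖ ≤ ‖w‖ ∧ ‖w‖ ≤ δ k}) := by
    refine isCompact_univ_pi fun k => ?_
    refine (isCompact_closedBall (0 : ℂ) (δ k)).of_isClosed_subset ?_ ?_
    · exact (isClosed_le continuous_const continuous_norm).inter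
        (isClosed_le continuous_norm continuous_const)
    · rintro w ⟨-, h⟩
      rw [mem_closedBall, dist_zero_right]
      exact h
  have hev : ∀ᶠ j in atTop, W j ∈ Set.pi univ fun k : κ =>
      {w : ℂ | δ k / ‖lam k‖ ≤ ‖w‖ ∧ ‖w‖ ≤ δ k} := by
    have h2 : ∀ᶠ j in atTop, 0 < r j := hr.eventually self_mem_nhdsWithin
    have h3 : ∀ᶠ j in atTop, ∀ k, r j ≤ δ k := by
      rw [eventually_all]
      intro k
      exact (hr.mono_right nhdsWithin_le_nhds).eventually (ge_mem_nhds (hδ k))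
    filter_upwards [h2, h3] with j h4 h5
    rw [Set.mem_univ_pi]
    intro k
    rw [hW]
    have h6 := hN k j h4 (h5 k)
    show _ ≤ ‖_‖ ∧ ‖_‖ ≤ _
    rw [norm_mul, norm_pow, Complex.norm_of_nonneg h4.le]
    exact h6
  obtain ⟨w, hw, s, hs, hlim⟩ := hcomp.tendsto_subseq' hev.frequently
  refine ⟨s, fun k j => N k (s j), w, hs, fun k => ?_⟩
  have h2 := hw k (mem_univ k)
  refine ⟨?_, h2.2, ?_⟩
  · intro h0
    have h3 := h2.1
    rw [h0, norm_zero] at h3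
    have : 0 < δ k / ‖lam k‖ := div_pos (hδ k) (by linarith [hlam k])
    linarith
  · rw [tendsto_pi_nhds] at hlim
    have h3 := hlim k
    rw [hW] at h3
    exact h3

lemma crt_wn {d : ℕ} (hd : 2 ≤ d) (x : CV d) (u : ℂ) (h : (u : OnePoint ℂ) ∈ Crt x) :
    (wn (nu x) (de x)).eval u = 0 := by
  obtain ⟨q, hq, hwq, hpr⟩ := h
  have hq2 : q.2 ≠ 0 := by
    intro h0
    unfold pr at hpr
    rw [if_pos h0] at hpr
    exact OnePoint.infty_ne_coe _ hpr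
  have hu : q.1 / q.2 = u := by
    unfold pr at hpr
    rw [if_neg hq2] at hpr
    exact OnePoint.coe_injective hpr
  have e : q = q.2 • ((u : ℂ), (1 : ℂ)) := by
    rw [← hu]
    ext
    · simp [mul_div_cancel₀ _ hq2]
    · simp
  rw [e, (Pool.Agent.H790R3.RB.WR d x hd).1, Pool.Agent.W440.RE.GENM.wr_wn] at hwq
  have h2 := (mul_eq_zero.1 hwq).resolve_left (pow_ne_zero _ hq2)
  refine (mul_eq_zero.1 h2).resolve_left ?_
  have : (d : ℂ) ≠ 0 := by exact_mod_cast (by omega : d ≠ 0)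
  exact this

lemma seq_hyR {d : ℕ} (hd : 2 ≤ d) (x : CV d) (hx : ND x) (y : ℕ → CV d)
    (hy : Tendsto y atTop (𝓝 x))
    (h : ∀ z ∈ Crt x, ∃ O ∈ 𝓝 z, ∀ᶠ j in atTop, ∀ z' ∈ O, z' ∈ Crt (y j) → Attd (sp (y j)) z') :
    ∀ᶠ j in atTop, HyR (y j) := by
  have h1 : ∀ z : OnePoint ℂ, ∃ (U : Set (OnePoint ℂ)), z ∈ Crt x →
      IsOpen U ∧ z ∈ U ∧ ∀ᶠ j in atTop, ∀ z' ∈ U, z' ∈ Crt (y j) → Attd (sp (y j)) z' := by
    intro z
    by_cases hz : z ∈ Crt x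
    · obtain ⟨U, hU, H⟩ := h z hz
      obtain ⟨U', hU', hU'o, hzU'⟩ := mem_nhds_iff.mp hU
      exact ⟨U', fun _ => ⟨hU'o, hzU', H.mono fun t ht z' hz' => ht z' (hU' hz')⟩⟩
    · exact ⟨∅, fun h => absurd h hz⟩
  choose U hU using h1
  have hO : IsOpen (⋃ z ∈ Crt x, U z) := isOpen_biUnion fun z hz => (hU z hz).1
  have hsub : Crt x ⊆ ⋃ z ∈ Crt x, U z := fun z hz => mem_biUnion hz (hU z hz).2.1
  have h2 : ∀ᶠ j in atTop, ∀ z ∈ Crt x, ∀ z' ∈ U z, z' ∈ Crt (y j) → Attd (sp (y j)) z' := by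
    rw [(crt_finite hd x hx).eventually_all]
    intro z hz
    exact (hU z hz).2.2
  filter_upwards [hy.eventually (crt_near hd x _ hO hx hsub), h2,
    hy.eventually (Pool.Agent.H790R3.RB.FAM.ND_open hx)] with j h3 h4 h5
  refine ⟨h5, fun z' hz' => ?_⟩
  obtain ⟨z, hz, hzz⟩ := mem_iUnion₂.mp (h3 hz')
  exact h4 z hz z' hzz hz'

/-- a repelling periodic point on the sphere -/
def RepS (f : OnePoint ℂ → OnePoint ℂ) (p : ℕ) (b : OnePoint ℂ) : Prop :=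
  0 < p ∧ ∃ (lam : ℂ) (g : ℂ → ℂ), 1 < ‖lam‖ ∧ g 0 = 0 ∧ HasDerivAt g lam 0 ∧
    ∀ᶠ w in 𝓝 (0 : ℂ), f^[p] (chart b w) = chart b (g w)

/-- `z` is mapped onto a repelling cycle -/
def PreP (f : OnePoint ℂ → OnePoint ℂ) (z : OnePoint ℂ) : Prop :=
  ∃ M p : ℕ, RepS f p (f^[M] z)

/-- the sequential statement in generic coordinates -/
theorem seq_hyp {d : ℕ} (hd : 2 ≤ d) (x : CV d) (hx : ND x) (hG : Ginf d (nu x) (de x))
    (hinf : ∞ ∉ Function.periodicPts (sp x))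
    (hcrit : ∀ z ∈ Crt x, (∀ n : ℕ, (sp x)^[n] z ≠ ∞) ∧ (Gd x z ∨ PreP (sp x) z))
    (hJ : ∀ᵐ z : ℂ, Gd x (z : OnePoint ℂ)) (R : ℝ) (r : ℕ → ℝ) (hr : Tendsto r atTop (𝓝[>] 0)) :
    ∃ s : ℕ → ℕ, StrictMono s ∧ ∀ᵐ V : CV d, ‖V‖ ≤ R → ∀ᶠ j in atTop, HyR (Xt x V (r (s j))) := by
  classical
  have hrec := ae_norecur hd x hx hJ
  -- planar critical points
  have hpl : ∀ z ∈ Crt x, ∃ ζ : ℂ, z = ζ ∧ Fin' x ζ ∧ (wn (nu x) (de x)).eval ζ = 0 := by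
    intro z hz
    obtain ⟨h1, -⟩ := hcrit z hz
    obtain ⟨ζ, rfl⟩ : ∃ ζ : ℂ, z = ζ := by
      have := h1 0
      induction z using OnePoint.rec with
      | infty => exact absurd rfl this
      | coe ζ => exact ⟨ζ, rfl⟩
    exact ⟨ζ, rfl, fin_of x ζ h1, crt_wn hd x ζ hz⟩
  let κ : Type := {z : OnePoint ℂ // z ∈ Crt x ∧ PreP (sp x) z}
  have hκ : Finite κ := ((crt_finite hd x hx).subset fun z hz => hz.1 :
    ({z : OnePoint ℂ | z ∈ Crt x ∧ PreP (sp x) z}).Finite)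
  have hdata : ∀ k : κ, ∃ (c₀ b : ℂ) (M p : ℕ) (lam : ℂ), (k : OnePoint ℂ) = c₀ ∧
      PreR x c₀ b M p lam ∧ ∃ V : CV d, ffR x V c₀ b M p lam ≠ 0 := by
    rintro ⟨z, hz, M', p', hp', lam', g, hl, g0, gd, ge⟩
    obtain ⟨c₀, rfl, hfin, hc⟩ := hpl z hz
    rw [sp_iter x c₀ M' (fun j _ => hfin j)] at ge
    have hfb : Fin' x ((fx x)^[M'] c₀) := by
      intro j
      rw [← Function.iterate_add_apply]
      exact hfin _
    obtain ⟨h1, h2⟩ := Pool.Agent.W342.RE.PTW.mult_deriv hfb ⟨g, g0, gd, ge⟩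
    have h3 : ddR x ((fx x)^[M'] c₀) p' = lam' :=
      (derR x _ p' (fun j _ => hfb j)).unique h2
    obtain ⟨b, M, p, lam, h4, h5⟩ := pre_data hd x hx hG c₀ hc hfin M' p' hp' h1 (by rw [h3]; exact hl) hrec
    exact ⟨c₀, b, M, p, lam, rfl, h4, h5⟩
  choose c₀ b M p lam hkc hpre hV0 using hdata
  have hlp : ∀ k : κ, ∃ (ψ : ℂ → ℂ) (ρ : ℝ), 0 < ρ ∧ DifferentiableOn ℂ ψ (ball 0 ρ) ∧
      InjOn ψ (ball 0 ρ) ∧
      ∀ (V : CV d) {ι : Type} (l : Filter ι) (τ : ι → ℝ), Tendsto τ l (𝓝[>] 0) →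
        ∀ (y : ι → ℂ) (a : ℂ), Tendsto (fun i => (y i - b k) / (τ i : ℂ)) l (𝓝 a) →
        ∀ (n : ι → ℕ) (w : ℂ), Tendsto (fun i => lam k ^ (n i) * (τ i : ℂ)) l (𝓝 w) → ‖w‖ < ρ →
        ‖w * (a - llR x V (b k) (p k) / (1 - lam k))‖ < ρ →
        (∀ᶠ i in l, ∀ j < p k * n i, (de (Xt x V (τ i))).eval
          ((fx (Xt x V (τ i)))^[j] (y i)) ≠ 0) ∧
        Tendsto (fun i => (fx (Xt x V (τ i)))^[p k * n i] (y i)) l
          (𝓝 (ψ (w * (a - llR x V (b k) (p k) / (1 - lam k))))) := fun k =>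
    linpert x (p k) (b k) (lam k) (hpre k).finb (hpre k).per (hpre k).der (hpre k).rep
  choose ψ ρ hρ hψd hψi hψ using hlp
  have hlin : ∀ (k : κ) (c : ℂ) (V W : CV d), ffR x (c • V + W) (c₀ k) (b k) (M k) (p k) (lam k) =
      c * ffR x V (c₀ k) (b k) (M k) (p k) (lam k) + ffR x W (c₀ k) (b k) (M k) (p k) (lam k) :=
    fun k c V W => ffR_lin x c V W _ _ _ _ _
  obtain ⟨L, hL⟩ : ∃ L : κ → (CV d →ₗ[ℂ] ℂ), L = fun k =>
      linOf (fun V => ffR x V (c₀ k) (b k) (M k) (p k) (lam k)) (hlin k) := ⟨_, rfl⟩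
  have hLa : ∀ k V, L k V = ffR x V (c₀ k) (b k) (M k) (p k) (lam k) := by
    intro k V
    rw [hL]
    exact linOf_apply _ (hlin k) V
  have hL0 : ∀ k, L k ≠ 0 := by
    intro k h0
    obtain ⟨V, hV⟩ := hV0 k
    apply hV
    rw [← hLa, h0]; rfl
  obtain ⟨C, hC⟩ : ∃ C : κ → ℝ, C = fun k => ‖LinearMap.toContinuousLinearMap (L k)‖ := ⟨_, rfl⟩
  have hC0 : ∀ k, 0 ≤ C k := fun k => by rw [hC]; exact norm_nonneg _
  have hCb : ∀ k V, ‖L k V‖ ≤ C k * ‖V‖ := by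
    intro k V
    rw [hC]
    exact (LinearMap.toContinuousLinearMap (L k)).le_opNorm V
  obtain ⟨δ, hδ⟩ : ∃ δ : κ → ℝ, δ = fun k => ρ k / (2 * (1 + C k * (|R| + 1))) := ⟨_, rfl⟩
  have hδ0 : ∀ k, 0 < δ k := by
    intro k
    have h1 := hC0 k
    have h2 := hρ k
    rw [hδ]
    positivity
  have hδ1 : ∀ k, δ k * (1 + C k * (|R| + 1)) = ρ k / 2 := by
    intro k
    have h1 := hC0 k
    rw [hδ]
    have : (1 + C k * (|R| + 1)) ≠ 0 := by positivity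
    field_simp
  obtain ⟨s, n, w, hs, hw⟩ := seqs lam (fun k => (hpre k).rep) δ hδ0 r hr
  refine ⟨s, hs, ?_⟩
  -- the bad set
  obtain ⟨N, hN⟩ : ∃ N : Set ℂ, N = {z : ℂ | ¬ Fin' x z} ∪ {z : ℂ | ¬ Gd x (z : OnePoint ℂ)} :=
    ⟨_, rfl⟩
  have hN0 : volume N = 0 := by
    rw [hN]
    refine measure_union_null ((nonfin_countable hd x hx).measure_zero volume) ?_
    exact ae_iff.1 hJ
  have hae : ∀ᵐ V : CV d, ∀ k : κ, ‖w k * L k V‖ < ρ k → ψ k (w k * L k V) ∉ N := by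
    rw [eventually_countable_forall]
    intro k
    exact ae_avoid (L k) (hL0 k) (ψ k) (ρ k) (hψd k) (hψi k) (w k) (hw k).1 N hN0
  filter_upwards [hae, ae_par hd x hx hG] with V hV hVp hVR
  have hrs : Tendsto (fun j => r (s j)) atTop (𝓝[>] 0) := hr.comp hs.tendsto_atTop
  refine seq_hyR hd x hx (fun j => Xt x V (r (s j))) ((Xt_tendsto x V).comp hrs) ?_
  intro z hz
  rcases (hcrit z hz).2 with hg | hp
  · -- in a basin
    obtain ⟨ζ, rfl, hfin, -⟩ := hpl z hz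
    obtain ⟨U, hU, hev⟩ := gs_of_gd hd x hx hinf V hVp ζ hfin hg
    exact ⟨U, hU, (hrs.eventually hev).mono fun j hj z' hz' _ => hj z' hz'⟩
  · -- preperiodic
    obtain ⟨k, hk⟩ : ∃ k : κ, (k : OnePoint ℂ) = z := ⟨⟨z, hz, hp⟩, rfl⟩
    have hw1 : ‖w k‖ < ρ k := by
      have h1 := (hw k).2.1
      have h2 := hδ1 k
      have h3 := hδ0 k
      have h4 := hρ k
      have h5 : 0 ≤ C k * (|R| + 1) := mul_nonneg (hC0 k) (by positivity)
      nlinarith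
    have hw2 : ‖w k * L k V‖ < ρ k := by
      rw [norm_mul]
      have h1 := (hw k).2.1
      have h2 := hδ1 k
      have h3 := hδ0 k
      have h4 := hρ k
      have h5 : ‖L k V‖ ≤ C k * (|R| + 1) := by
        refine (hCb k V).trans (mul_le_mul_of_nonneg_left ?_ (hC0 k))
        linarith [le_abs_self R]
      have h6 : ‖w k‖ * ‖L k V‖ ≤ δ k * (C k * (|R| + 1)) :=
        mul_le_mul h1 h5 (norm_nonneg _) h3.le
      nlinarith
    have hbad := hV k hw2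
    rw [hLa] at hw2 hbad
    rw [hN, mem_union, not_or] at hbad
    obtain ⟨hb1, hb2⟩ := hbad
    have hb1' : Fin' x (ψ k (w k * ffR x V (c₀ k) (b k) (M k) (p k) (lam k))) := by
      by_contra h0; exact hb1 h0
    have hb2' : Gd x ((ψ k (w k * ffR x V (c₀ k) (b k) (M k) (p k) (lam k)) : ℂ) : OnePoint ℂ) := by
      by_contra h0; exact hb2 h0
    obtain ⟨U, hU, hev⟩ := pre_dir hd x V hx (hpre k) (ψ k) (ρ k) (hψ k) (fun j => r (s j)) hrs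
      (n k) (w k) (hw k).2.2 hw1 hw2 (gs_of_gd hd x hx hinf V hVp _ hb1' hb2')
    refine ⟨(fun u : ℂ => (u : OnePoint ℂ)) '' U, ?_, ?_⟩
    · rw [← hk, hkc k]
      exact OnePoint.isOpenEmbedding_coe.isOpenMap.image_mem_nhds hU
    · filter_upwards [hev] with j hj z' hz' hcr
      obtain ⟨u, hu, rfl⟩ := hz'
      exact hj u hu (crt_wn hd _ u hcr)

end Run7.h904.RF
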