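import Mathlib
import Pool.Agent.Run7.h904.R4Seq

set_option autoImplicit false

open Topology Filter Metric Set Polynomial MeasureTheory Asymptotics Pointwise
open scoped OnePoint

namespace Run7.h904.RF

open Pool.Agent.H790R3.RB (CV hF cr ND wr rt sp pr hc pol Sink Attd HypTop)
open Pool.Agent.W757.QR Pool.Agent.W757.RF Pool.Agent.W757.Q2
open Pool.Agent.W29.RQSNK (sp_iter fin_of sp_fx)

lemma per_countableS {d : ℕ} (hd : 2 ≤ d) (x : CV d) (hx : ND x) :
    (Function.periodicPts (sp x)).Countable := by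
  have h1 : Function.periodicPts (sp x) ⊆ insert ∞ ((fun z : ℂ => (z : OnePoint ℂ)) ''
      {z : ℂ | (z : OnePoint ℂ) ∈ Function.periodicPts (sp x)}) := by
    intro z hz
    induction z using OnePoint.rec with
    | infty => exact mem_insert _ _
    | coe z => exact mem_insert_of_mem _ ⟨z, hz, rfl⟩
  exact (((per_countable hd x hx).image _).insert _).mono h1

lemma crt_conj {d : ℕ} (hd : 2 ≤ d) {x x' : CV d} (hx : ND x) (hx' : ND x')
    (h : OnePoint ℂ ≃ₜ OnePoint ℂ) (hs : ∀ z, h (sp x z) = sp x' (h z)) (z : OnePoint ℂ)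
    (hz : z ∈ Crt x) : h z ∈ Crt x' := by
  apply crt_of_notinj hd x' hx'
  rintro ⟨U, hU, hinj⟩
  apply crt_notinj hd x hx z hz
  refine ⟨h ⁻¹' U, h.continuous.continuousAt.preimage_mem_nhds hU, ?_⟩
  intro w hw w' hw' heq
  have h1 : sp x' (h w) = sp x' (h w') := by rw [← hs, ← hs, heq]
  exact h.injective (hinj hw hw' h1)

section mobius

variable {s t u v : ℂ} {h : OnePoint ℂ ≃ₜ OnePoint ℂ} {f g : OnePoint ℂ → OnePoint ℂ}

theorem repS_transport (hdet : s * v - t * u = 1)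
    (hh : ∀ p : ℂ × ℂ, p ≠ 0 → h (pr p) = pr (s * p.1 + t * p.2, u * p.1 + v * p.2))
    (hs : ∀ z, g (h z) = h (f z)) {p : ℕ} {a : OnePoint ℂ} (H : RepS f p a) :
    RepS g p (h a) := by
  obtain ⟨hp, lam, φ, hlam, φ0, φd, φe⟩ := H
  obtain ⟨m, ma, m0, me⟩ := chart_change hdet hh a
  have hdet' : v * s - (-t) * (-u) = 1 := by linear_combination hdet
  obtain ⟨m', ma', m0', me'⟩ := chart_change (h := h.symm) hdet' (inv_form hdet hh) (h a)
  rw [h.symm_apply_apply] at me'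
  have hmc : Tendsto m (𝓝 0) (𝓝 0) := by
    have := ma.continuousAt.tendsto
    rwa [m0] at this
  have hm'c : Tendsto m' (𝓝 0) (𝓝 0) := by
    have := ma'.continuousAt.tendsto
    rwa [m0'] at this
  have hmm : ∀ᶠ w in 𝓝 (0 : ℂ), m' (m w) = w := by
    filter_upwards [me, hmc.eventually me'] with w h1 h2
    apply chart_inj a
    rw [← h2, ← h1, h.symm_apply_apply]
  have hd : deriv m' 0 * deriv m 0 = 1 := by
    have h1 : HasDerivAt m (deriv m 0) 0 := ma.differentiableAt.hasDerivAt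
    have h2 : HasDerivAt m' (deriv m' 0) (m 0) := by
      rw [m0]; exact ma'.differentiableAt.hasDerivAt
    have h3 := h2.comp (0 : ℂ) h1
    have h4 : HasDerivAt (fun w : ℂ => w) (deriv m' 0 * deriv m 0) 0 :=
      h3.congr_of_eventuallyEq (hmm.mono fun w hw => hw.symm)
    exact h4.unique (hasDerivAt_id 0)
  have hφc : Tendsto φ (𝓝 0) (𝓝 0) := by
    have := φd.continuousAt.tendsto
    rwa [φ0] at this
  refine ⟨hp, lam, fun w => m (φ (m' w)), hlam, by simp only [m0', φ0, m0], ?_, ?_⟩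
  · have h1 : HasDerivAt m' (deriv m' 0) 0 := ma'.differentiableAt.hasDerivAt
    have h2 : HasDerivAt φ lam (m' 0) := by rw [m0']; exact φd
    have h3 : HasDerivAt (φ ∘ m') (lam * deriv m' 0) 0 := h2.comp (0 : ℂ) h1
    have h4 : HasDerivAt m (deriv m 0) ((φ ∘ m') 0) := by
      show HasDerivAt m (deriv m 0) (φ (m' 0))
      rw [m0', φ0]
      exact ma.differentiableAt.hasDerivAt
    have h5 := h4.comp (0 : ℂ) h3
    have e : deriv m 0 * (lam * deriv m' 0) = lam := by linear_combination lam * hd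
    rw [e] at h5
    exact h5
  · filter_upwards [me', hm'c.eventually φe, (hφc.comp hm'c).eventually me] with w h1 h2 h3
    have e1 : chart (h a) w = h (chart a (m' w)) := by
      rw [← h1, h.apply_symm_apply]
    rw [e1, Pool.Agent.H790R3.RB.ALL.iter h hs, h2]
    exact h3

theorem preP_transport (hdet : s * v - t * u = 1)
    (hh : ∀ p : ℂ × ℂ, p ≠ 0 → h (pr p) = pr (s * p.1 + t * p.2, u * p.1 + v * p.2))
    (hs : ∀ z, g (h z) = h (f z)) {a : OnePoint ℂ} (H : PreP f a) : PreP g (h a) := by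
  obtain ⟨M, p, H⟩ := H
  refine ⟨M, p, ?_⟩
  rw [Pool.Agent.H790R3.RB.ALL.iter h hs]
  exact repS_transport hdet hh hs H

theorem parB_transport (hdet : s * v - t * u = 1)
    (hh : ∀ p : ℂ × ℂ, p ≠ 0 → h (pr p) = pr (s * p.1 + t * p.2, u * p.1 + v * p.2))
    (hs : ∀ z, g (h z) = h (f z)) {z a : OnePoint ℂ} (H : ParB f z a) : ParB g (h z) (h a) := by
  obtain ⟨p, q, hpar, hlim, hne⟩ := H
  refine ⟨p, q, parS_transport hdet hh hs hpar, ?_, ?_⟩
  · refine ((h.continuous.tendsto a).comp hlim).congr fun k => ?_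
    simp only [Function.comp]
    rw [Pool.Agent.H790R3.RB.ALL.iter h hs]
  · intro k h0
    rw [Pool.Agent.H790R3.RB.ALL.iter h hs] at h0
    exact hne k (h.injective h0)

/-- null sets on the sphere -/
theorem ae_transport
    (hh : ∀ p : ℂ × ℂ, p ≠ 0 → h (pr p) = pr (s * p.1 + t * p.2, u * p.1 + v * p.2))
    (A B : OnePoint ℂ → Prop) (hAB : ∀ z, A z → B (h z)) (hA : ∀ᵐ z : ℂ, A z) :
    ∀ᵐ z : ℂ, B z := by
  rw [ae_iff] at hA ⊢
  obtain ⟨S, hS⟩ : ∃ S : Set ℂ, S = {z : ℂ | ¬ A z} ∩ {z : ℂ | u * z + v ≠ 0} := ⟨_, rfl⟩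
  have hS0 : volume S = 0 := measure_mono_null (by rw [hS]; exact inter_subset_left) hA
  obtain ⟨m, hm⟩ : ∃ m : ℂ → ℂ, m = fun z => (s * z + t) / (u * z + v) := ⟨_, rfl⟩
  have hdiff : DifferentiableOn ℝ m S := by
    intro z hz
    rw [hS] at hz
    have h1 : DifferentiableAt ℂ m z := by
      rw [hm]
      exact DifferentiableAt.div (by fun_prop) (by fun_prop) hz.2
    exact (h1.restrictScalars ℝ).differentiableWithinAt
  have h1 := addHaar_image_eq_zero_of_differentiableOn_of_addHaar_eq_zero volume hdiff hS0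
  obtain ⟨Q, hQ⟩ : ∃ Q : Set ℂ, Q = {z : ℂ | (z : OnePoint ℂ) = h ∞} := ⟨_, rfl⟩
  have hQ0 : volume Q = 0 := by
    refine Set.Subsingleton.measure_zero ?_ volume
    intro z hz w hw
    rw [hQ] at hz hw
    exact OnePoint.coe_injective (hz.trans hw.symm)
  refine measure_mono_null ?_ (measure_union_null h1 hQ0)
  intro ζ hζ
  by_cases hz : (ζ : OnePoint ℂ) = h ∞
  · right; rw [hQ]; exact hz
  · left
    obtain ⟨z', hz'⟩ : ∃ z', h z' = (ζ : OnePoint ℂ) := ⟨h.symm ζ, h.apply_symm_apply _⟩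
    obtain ⟨z, rfl⟩ : ∃ z : ℂ, z' = z := by
      induction z' using OnePoint.rec with
      | infty => exact absurd hz'.symm hz
      | coe z => exact ⟨z, rfl⟩
    have e1 : (z : OnePoint ℂ) = pr (z, 1) := by simp [pr]
    have hne1 : ((z, 1) : ℂ × ℂ) ≠ 0 := fun h => one_ne_zero (congrArg Prod.snd h)
    have h2 := hz'
    rw [e1, hh _ hne1] at h2
    simp only [mul_one] at h2
    have h3 : u * z + v ≠ 0 := by
      intro h0
      unfold pr at h2
      rw [if_pos h0] at h2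
      exact OnePoint.infty_ne_coe _ h2
    refine ⟨z, ?_, ?_⟩
    · rw [hS]
      refine ⟨fun h4 => hζ ?_, h3⟩
      rw [← hz']
      exact hAB _ h4
    · unfold pr at h2
      rw [if_neg h3] at h2
      rw [hm]
      exact OnePoint.coe_injective h2

end mobius

/-- the main theorem for geometrically finite maps on the level of coefficient vectors -/
theorem mainR2 {d : ℕ} (hd : 2 ≤ d) (x : CV d) (hx : ND x)
    (hcrit : ∀ z ∈ Crt x, Attd (sp x) z ∨ (∃ a, ParB (sp x) z a) ∨ PreP (sp x) z)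
    (hJ : ∀ᵐ z : ℂ, Attd (sp x) (z : OnePoint ℂ) ∨ ∃ a, ParB (sp x) (z : OnePoint ℂ) a) :
    Tendsto (fun r : ℝ => volume {a : CV d | (∀ i, ‖a i - x i‖ ≤ r) ∧ ¬ HyR a} /
      volume {a : CV d | ∀ i, ‖a i - x i‖ ≤ r}) (𝓝[>] 0) (𝓝 0) := by
  classical
  -- the points to be avoided
  obtain ⟨B, hB⟩ : ∃ B : Set (OnePoint ℂ), B = (⋃ z ∈ Crt x, range fun n : ℕ => (sp x)^[n] z) ∪
    Function.periodicPts (sp x) := ⟨_, rfl⟩
  have hBc : B.Countable := by
    rw [hB]
    exact ((crt_finite hd x hx).countable.biUnion fun z _ => countable_range _).union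
      (per_countableS hd x hx)
  have hBi : (Bᶜ).Infinite := by
    intro hfin
    have h1 : (univ : Set (OnePoint ℂ)).Countable := by
      rw [← union_compl_self B]
      exact hBc.union hfin.countable
    have h2 := h1.preimage (f := fun z : ℂ => (z : OnePoint ℂ)) OnePoint.coe_injective
    rw [preimage_univ] at h2
    exact not_countable_complex h2
  obtain ⟨a, b, c, e, h, x₁, T, hdet, hh, hx₁, hs, hG, hT, hTi, hsT, hinf, hcr⟩ :=
    genm_lin d x Bᶜ hBi hd hx
  have hs' : ∀ z, sp x₁ (h z) = h (sp x z) := fun z => (hs z).symm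
  have hit := fun n z => Pool.Agent.H790R3.RB.ALL.iter h hs' n z
  have hgd : ∀ z, Gd x z → Gd x₁ (h z) := by
    rintro z (h1 | ⟨a', h1⟩)
    · exact Or.inl (Pool.Agent.H790R3.RB.ALL.attd h hs' h1)
    · exact Or.inr ⟨h a', parB_transport hdet hh hs' h1⟩
  have hcr₁ : ∀ z' ∈ Crt x₁, (∀ n : ℕ, (sp x₁)^[n] z' ≠ ∞) ∧ (Gd x₁ z' ∨ PreP (sp x₁) z') := by
    intro z' hz'
    have hsym : ∀ z, h.symm (sp x₁ z) = sp x (h.symm z) := by
      intro z
      apply h.injective
      rw [hs, h.apply_symm_apply, h.apply_symm_apply]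
    have h1 : h.symm z' ∈ Crt x := crt_conj hd hx₁ hx h.symm hsym z' hz'
    obtain ⟨z, rfl⟩ : ∃ z, h z = z' := ⟨h.symm z', h.apply_symm_apply _⟩
    rw [h.symm_apply_apply] at h1
    refine ⟨?_, ?_⟩
    · intro n h0
      rw [hit] at h0
      apply hinf
      rw [← h0, h.symm_apply_apply, hB]
      left
      exact mem_biUnion h1 ⟨n, rfl⟩
    · rcases hcrit z h1 with h2 | h2 | h2
      · exact Or.inl (hgd z (Or.inl h2))
      · exact Or.inl (hgd z (Or.inr h2))
      · exact Or.inr (preP_transport hdet hh hs' h2)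
  have hinf₁ : ∞ ∉ Function.periodicPts (sp x₁) := by
    rintro ⟨n, hn, hper⟩
    apply hinf
    rw [hB]
    right
    refine Function.mk_mem_periodicPts hn ?_
    show (sp x)^[n] (h.symm ∞) = h.symm ∞
    apply h.injective
    rw [← hit, h.apply_symm_apply]
    exact hper
  have hJ₁ : ∀ᵐ z : ℂ, Gd x₁ (z : OnePoint ℂ) := ae_transport hh (Gd x) (Gd x₁) hgd hJ
  have hopen : IsOpen {a : CV d | HyR a} := isOpen_iff_mem_nhds.mpr fun a ha => hyR_open hd a ha
  obtain ⟨K, hK, hKT⟩ := T.exists_antilipschitzWith (LinearMap.ker_eq_bot.2 hTi)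
  have hsurj : Function.Surjective T := LinearMap.injective_iff_surjective.mp hTi
  have hHy : ∀ x' : CV d, HyR x' → HyR (T x') := by
    rintro x' ⟨h1, h2⟩
    obtain ⟨h3, h4⟩ := hsT x' h1
    refine ⟨h3, fun z hz => ?_⟩
    have h5 := h2 _ (crt_conj hd h3 h1 h h4 z hz)
    have h6 : ∀ w, sp (T x') (h.symm w) = h.symm (sp x' w) := by
      intro w
      apply h.injective
      rw [h4, h.apply_symm_apply, h.apply_symm_apply]
    have h7 := Pool.Agent.H790R3.RB.ALL.attd h.symm h6 h5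
    rwa [h.symm_apply_apply] at h7
  refine density_gen x {a : CV d | HyR a} hopen.measurableSet fun r hr => ?_
  obtain ⟨s, hsm, hae⟩ := seq_hyp hd x₁ hx₁ hG hinf₁ hcr₁ hJ₁ K r hr
  refine ⟨s, hsm.tendsto_atTop, ?_⟩
  rw [ae_iff] at hae ⊢
  have h1 : {V : CV d | ¬ (V ∈ BB (Fin 2 × Fin (d + 1)) → ∀ᶠ j in atTop,
      x + r (s j) • V ∈ {a : CV d | HyR a})} ⊆
      (T.restrictScalars ℝ) '' {V : CV d | ¬ (‖V‖ ≤ K → ∀ᶠ j in atTop,
        HyR (Xt x₁ V (r (s j))))} := by
    intro V hV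
    obtain ⟨V₁, rfl⟩ := hsurj V
    refine ⟨V₁, fun h2 => hV fun hbox => ?_, rfl⟩
    have h3 : ‖T V₁‖ ≤ 1 := (pi_norm_le_iff_of_nonneg zero_le_one).2 hbox
    have h4 : ‖V₁‖ ≤ K := by
      have h5 := hKT.le_mul_dist V₁ 0
      rw [dist_zero_right, map_zero, dist_zero_right] at h5
      refine h5.trans ?_
      have h6 : (K : ℝ) * ‖T V₁‖ ≤ K * 1 := mul_le_mul_of_nonneg_left h3 K.2
      linarith
    filter_upwards [h2 h4] with j hj
    have e : x + r (s j) • T V₁ = T (Xt x₁ V₁ (r (s j))) := by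
      unfold Xt
      rw [map_add, hT]
      congr 1
      exact ((T.restrictScalars ℝ).map_smul (r (s j)) V₁).symm
    rw [e]
    exact hHy _ hj
  refine measure_mono_null h1 ?_
  rw [Measure.addHaar_image_linearMap, hae, mul_zero]

end Run7.h904.RF
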