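import Mathlib
import Pool.Agent.Run7.h904.R4Fin

set_option autoImplicit false

open Topology Filter Metric Set Polynomial MeasureTheory Asymptotics
open scoped OnePoint

namespace Run7.h904.RF

open Pool.Agent.H790R3.RB (CV hF cr ND wr rt sp pr hc pol Sink Attd HypTop)
open Pool.Agent.W757.QR Pool.Agent.W757.RF Pool.Agent.W757.Q2
open Pool.Agent.W29.RQSNK (sp_iter fin_of sp_fx sp_inf)

/-- charts are open at the centre -/
lemma chart_nhds (a : OnePoint ℂ) {U : Set ℂ} (hU : U ∈ 𝓝 (0 : ℂ)) : chart a '' U ∈ 𝓝 a := by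
  classical
  obtain ⟨r, hr, hb⟩ := Metric.mem_nhds_iff.1 hU
  refine mem_of_superset ?_ (image_mono hb)
  induction a using OnePoint.rec with
  | infty =>
    have h1 : IsOpen (((fun z : ℂ => (z : OnePoint ℂ)) '' closedBall (0 : ℂ) (r⁻¹))ᶜ) :=
      OnePoint.isOpen_compl_image_coe.2 ⟨isClosed_closedBall, isCompact_closedBall _ _⟩
    refine mem_of_superset (h1.mem_nhds ?_) ?_
    · rintro ⟨z, -, hz⟩
      exact OnePoint.coe_ne_infty _ hz
    · intro z hz
      induction z using OnePoint.rec with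
      | infty => exact ⟨0, mem_ball_self hr, chart_zero _⟩
      | coe z =>
        have h2 : r⁻¹ < ‖z‖ := by
          by_contra hcon
          push Not at hcon
          exact hz ⟨z, by rw [mem_closedBall, dist_zero_right]; exact hcon, rfl⟩
        have hz0 : z ≠ 0 := by
          rintro rfl
          rw [norm_zero] at h2
          have := inv_pos.2 hr
          linarith
        refine ⟨z⁻¹, ?_, ?_⟩
        · rw [mem_ball, dist_zero_right, norm_inv]
          exact inv_lt_of_inv_lt₀ hr h2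
        · rw [chart_infty, if_neg (inv_ne_zero hz0), inv_inv]
  | coe a =>
    have h1 : chart (a : OnePoint ℂ) '' ball 0 r = (fun z : ℂ => (z : OnePoint ℂ)) '' ball a r := by
      ext z
      constructor
      · rintro ⟨w, hw, rfl⟩
        refine ⟨a + w, ?_, rfl⟩
        rw [mem_ball, dist_eq_norm, add_sub_cancel_left]
        rwa [mem_ball, dist_zero_right] at hw
      · rintro ⟨w, hw, rfl⟩
        refine ⟨w - a, ?_, ?_⟩
        · rw [mem_ball, dist_eq_norm] at hw
          rwa [mem_ball, dist_zero_right]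
        · rw [chart_coe, add_sub_cancel]
    rw [h1]
    exact OnePoint.isOpenEmbedding_coe.isOpenMap.image_mem_nhds (ball_mem_nhds a hr)

/-- local form of the map -/
lemma sp_chart {d : ℕ} (hd : 2 ≤ d) (x : CV d) (hx : ND x) (a : OnePoint ℂ) :
    ∃ g : ℂ → ℂ, AnalyticAt ℂ g 0 ∧ g 0 = 0 ∧
      ∀ᶠ w in 𝓝 (0 : ℂ), sp x (chart a w) = chart (sp x a) (g w) := by
  have hit := (Pool.Agent.H790R3.RB.SP d x (by omega) hx).2.1
  have hsp : ∀ q : ℂ × ℂ, q ≠ 0 → sp x (pr q) = pr (hF x q) := fun q hq => by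
    have := hit q hq 1
    simpa using this
  obtain ⟨P, hP⟩ : ∃ P : ℂ → ℂ × ℂ, P = fun w => hF x (chv a w) := ⟨_, rfl⟩
  have hPne : P 0 ≠ 0 := by
    rw [hP]
    exact Pool.Agent.W440.RE.GENM.hF_ne hx (chv_ne a 0)
  have hP0 : pr (P 0) = sp x a := by
    rw [hP]
    show pr (hF x (chv a 0)) = sp x a
    rw [← hsp _ (chv_ne a 0), ← chart_eq, chart_zero]
  obtain ⟨c1, c2⟩ := chv_analytic a
  have key : ∀ i : Fin 2, AnalyticAt ℂ (fun w => ∑ j : Fin (d + 1),
      x (i, j) * ((chv a w).1 ^ (j : ℕ) * (chv a w).2 ^ (d - (j : ℕ)))) 0 := by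
    intro i
    refine Finset.analyticAt_fun_sum _ fun j _ => ?_
    exact analyticAt_const.mul ((c1.pow _).mul (c2.pow _))
  have h1 : AnalyticAt ℂ (fun w => (P w).1) 0 := by rw [hP]; exact key 0
  have h2 : AnalyticAt ℂ (fun w => (P w).2) 0 := by rw [hP]; exact key 1
  obtain ⟨h3, h4⟩ := lc_analytic (sp x a) h1 h2 (dn_ne hPne hP0)
  refine ⟨fun w => lc (sp x a) (P w), h3, ?_, ?_⟩
  · have h5 := pr_eq_chart (sp x a) (dn_ne hPne hP0)
    rw [hP0] at h5
    apply chart_inj (sp x a)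
    show chart (sp x a) (lc (sp x a) (P 0)) = chart (sp x a) 0
    rw [← h5, chart_zero]
  · filter_upwards [h4] with w hw
    rw [chart_eq, hsp _ (chv_ne a w)]
    have : hF x (chv a w) = P w := by rw [hP]
    rw [this]
    exact pr_eq_chart (sp x a) hw

/-- rational maps are open -/
lemma sp_openMap {d : ℕ} (hd : 2 ≤ d) (x : CV d) (hx : ND x) : IsOpenMap (sp x) := by
  rw [isOpenMap_iff_nhds_le]
  intro a U hU
  rw [mem_map] at hU
  obtain ⟨g, hg, g0, hge⟩ := sp_chart hd x hx a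
  have h1 : chart a ⁻¹' (sp x ⁻¹' U) ∈ 𝓝 (0 : ℂ) := by
    apply (chart_cont a).continuousAt.preimage_mem_nhds
    rw [chart_zero]
    exact hU
  rcases hg.eventually_constant_or_nhds_le_map_nhds with h2 | h2
  · exfalso
    -- constant near `a`
    have h3 : ∀ᶠ w in 𝓝 (0 : ℂ), sp x (chart a w) = sp x a := by
      filter_upwards [hge, h2] with w h4 h5
      rw [h4, h5, g0, chart_zero]
    obtain ⟨r, hr, hb⟩ := Metric.eventually_nhds_iff_ball.1 h3
    have h4 : (ball (0 : ℂ) r).Finite := by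
      have h5 : chart a '' ball (0 : ℂ) r ⊆ {z | sp x z = sp x a} := by
        rintro _ ⟨w, hw, rfl⟩
        exact hb w hw
      exact ((Pool.Agent.W342.RE.PTW.fib_finite hd hx (sp x a)).subset h5).of_finite_image
        (chart_inj a).injOn
    have h5 := h4.measure_zero (volume : Measure ℂ)
    exact (measure_ball_pos volume (0 : ℂ) hr).ne' h5
  · rw [g0] at h2
    have h3 : {w | w ∈ chart a ⁻¹' (sp x ⁻¹' U) ∧ sp x (chart a w) = chart (sp x a) (g w)} ∈
        𝓝 (0 : ℂ) := Filter.inter_mem h1 hge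
    have h4 : g '' {w | w ∈ chart a ⁻¹' (sp x ⁻¹' U) ∧ sp x (chart a w) = chart (sp x a) (g w)} ∈
        𝓝 (0 : ℂ) := h2 (image_mem_map h3)
    refine mem_of_superset (chart_nhds (sp x a) h4) ?_
    rintro _ ⟨_, ⟨w, ⟨hw1, hw2⟩, rfl⟩, rfl⟩
    rw [← hw2]
    exact hw1

/-- covering property -/
lemma sp_cover {d : ℕ} (hd : 2 ≤ d) (x : CV d) (hx : ND x) (S : Set (OnePoint ℂ))
    (hS : ∀ z, z ∈ Crt x → sp x z ∉ S) : IsCoveringMapOn (sp x) S := by
  refine IsCoveringMapOn.of_isLocalHomeomorphOn (sp_cont hd x hx) ?_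
  intro z hz
  have h1 : z ∉ Crt x := fun h => hS z h hz
  have h2 : ∃ U ∈ 𝓝 z, InjOn (sp x) U := by
    by_contra hcon
    exact h1 (crt_of_notinj hd x hx z hcon)
  obtain ⟨U, hU, hinj⟩ := h2
  obtain ⟨U', hU', hU'o, hzU'⟩ := mem_nhds_iff.1 hU
  refine ⟨OpenPartialHomeomorph.ofContinuousOpen ((hinj.mono hU').toPartialEquiv (sp x) U')
    (sp_cont hd x hx).continuousOn (sp_openMap hd x hx) hU'o, hzU', rfl⟩


/-- conditions on the postcritical set -/
structure PC {d : ℕ} (x : CV d) (P : Set (OnePoint ℂ)) : Prop where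
  crt : ∀ z ∈ Crt x, sp x z ∈ P
  fw : ∀ z ∈ P, sp x z ∈ P
  inf : ∞ ∈ P

lemma PC.iter {d : ℕ} {x : CV d} {P : Set (OnePoint ℂ)} (h : PC x P) {z : OnePoint ℂ} (hz : z ∈ P)
    (n : ℕ) : (sp x)^[n] z ∈ P := by
  induction n with
  | zero => exact hz
  | succ n ih => rw [Function.iterate_succ_apply']; exact h.fw _ ih

/-- the derivative does not vanish outside the critical points -/
lemma deriv_ne_of {d : ℕ} (hd : 2 ≤ d) {x : CV d} (hx : ND x) {P : Set (OnePoint ℂ)} (h : PC x P)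
    {w : ℂ} (hw : sp x (w : OnePoint ℂ) ∉ P) : (de x).eval w ≠ 0 ∧ deriv (fx x) w ≠ 0 := by
  have h1 : (de x).eval w ≠ 0 := by
    intro h0
    rw [sp_inf x w h0] at hw
    exact hw h.inf
  refine ⟨h1, fun h2 => ?_⟩
  rw [Pool.Agent.W409.RQAPX.deriv_fx x w h1, div_eq_zero_iff] at h2
  have h3 := h2.resolve_right (pow_ne_zero _ h1)
  exact hw (h.crt _ (crt_of_notinj hd x hx _ (notinj_fin x w h1 h3)))

/-- inverse branches of the iterates on discs outside the postcritical set -/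
theorem lift_disc {d : ℕ} (hd : 2 ≤ d) (x : CV d) (hx : ND x) {P : Set (OnePoint ℂ)} (h : PC x P)
    (v : ℂ) (R : ℝ) (hD : ∀ u ∈ ball v R, (u : OnePoint ℂ) ∉ P) (n : ℕ) :
    ∀ (z₀ : OnePoint ℂ) (u₀ : ℂ), u₀ ∈ ball v R → (sp x)^[n] z₀ = u₀ →
      ∃ g : ℂ → ℂ, (g u₀ : OnePoint ℂ) = z₀ ∧ DifferentiableOn ℂ g (ball v R) ∧
        ∀ u ∈ ball v R, (sp x)^[n] (g u : OnePoint ℂ) = u := by
  induction n with
  | zero =>
    intro z₀ u₀ hu₀ hz
    exact ⟨id, hz.symm, differentiableOn_id, fun u _ => rfl⟩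
  | succ n ih =>
    intro z₀ u₀ hu₀ hz
    rw [Function.iterate_succ_apply] at hz
    obtain ⟨g₁, hg1, hg2, hg3⟩ := ih (sp x z₀) u₀ hu₀ hz
    have hgP : ∀ u ∈ ball v R, (g₁ u : OnePoint ℂ) ∉ P := by
      intro u hu hP
      apply hD u hu
      rw [← hg3 u hu]
      exact h.iter hP n
    have hcov : IsCoveringMapOn (sp x) Pᶜ := sp_cover hd x hx Pᶜ fun z hz hn => hn (h.crt z hz)
    have hne : (ball v R).Nonempty := ⟨u₀, hu₀⟩
    have : ContractibleSpace (ball v R) := (convex_ball v R).contractibleSpace hne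
    have : LocallyPathConnectedSpace (ball v R) := (convex_ball v R).locallyPathConnectedSpace
    let F₁ : C(ball v R, OnePoint ℂ) := ⟨fun u => ((g₁ u : ℂ) : OnePoint ℂ), by
      exact OnePoint.continuous_coe.comp (continuousOn_iff_continuous_domRestrict.1 hg2.continuousOn)⟩
    obtain ⟨F, ⟨hF0, hF⟩, -⟩ := hcov.existsUnique_continuousMap_lifts F₁ (a₀ := ⟨u₀, hu₀⟩) (e₀ := z₀)
      hg1.symm (fun a => hgP a a.2)
    have hF' : ∀ a : ball v R, sp x (F a) = ((g₁ a : ℂ) : OnePoint ℂ) := fun a => congrFun hF a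
    have hFinf : ∀ a : ball v R, F a ≠ ∞ := by
      intro a h0
      apply hgP a a.2
      rw [← hF' a, h0]
      exact h.fw _ h.inf
    obtain ⟨g, hg⟩ : ∃ g : ℂ → ℂ, ∀ a : ball v R, (g a : OnePoint ℂ) = F a := by
      classical
      refine ⟨fun u => if hu : u ∈ ball v R then toC (F ⟨u, hu⟩) else 0, fun a => ?_⟩
      simp only [a.2, dif_pos]
      exact coe_toC (hFinf a)
    have hgc : ContinuousOn g (ball v R) := by
      rw [continuousOn_iff_continuous_domRestrict]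
      have h1 : Continuous fun a : ball v R => ((g a : ℂ) : OnePoint ℂ) := by
        have h2 : (fun a : ball v R => ((g a : ℂ) : OnePoint ℂ)) = F := funext hg
        rw [h2]
        exact F.continuous
      exact OnePoint.isOpenEmbedding_coe.isInducing.continuous_iff.2 h1
    have hge : ∀ u ∈ ball v R, sp x (g u : OnePoint ℂ) = (g₁ u : OnePoint ℂ) := by
      intro u hu
      have := hF' ⟨u, hu⟩
      rwa [← hg] at this
    refine ⟨g, ?_, ?_, ?_⟩
    · have := hg ⟨u₀, hu₀⟩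
      rw [hF0] at this
      exact this
    · intro u hu
      have h1 : sp x (g u : OnePoint ℂ) ∉ P := by rw [hge u hu]; exact hgP u hu
      obtain ⟨h2, h3⟩ := deriv_ne_of hd hx h h1
      have hs := strictR x (g u) h2
      have h4 : deriv (fx x) (g u) = d1 (nu x) (de x) (g u) := hs.hasDerivAt.deriv
      rw [h4] at h3
      have e1 : fx x (g u) = g₁ u := by
        have := hge u hu
        rw [sp_fx x _ h2] at this
        exact OnePoint.coe_injective this
      have h5 : Tendsto g (𝓝 u) (𝓝 (g u)) := (hgc u hu).continuousAt (isOpen_ball.mem_nhds hu)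
      have h6 : ∀ᶠ u' in 𝓝 u, g u' = hs.localInverse (fx x) _ (g u) h3 (g₁ u') := by
        filter_upwards [h5.eventually (hs.eventually_left_inverse h3), isOpen_ball.mem_nhds hu,
          h5.eventually ((de x).continuous.continuousAt.eventually_ne h2)] with u' q1 q2 q3
        have := hge u' q2
        rw [sp_fx x _ q3] at this
        rw [← OnePoint.coe_injective this]
        exact q1.symm
      have h7 : DifferentiableAt ℂ (hs.localInverse (fx x) _ (g u) h3) (g₁ u) := by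
        rw [← e1]
        exact (hs.to_localInverse h3).hasDerivAt.differentiableAt
      have h8 : DifferentiableAt ℂ (fun u' => hs.localInverse (fx x) _ (g u) h3 (g₁ u')) u :=
        h7.comp u ((hg2 u hu).differentiableAt (isOpen_ball.mem_nhds hu))
      exact (h8.congr_of_eventuallyEq h6).differentiableWithinAt
    · intro u hu
      rw [Function.iterate_succ_apply, hge u hu, hg3 u hu]

/-- the inverse branches are unique -/
theorem lift_unique {d : ℕ} (hd : 2 ≤ d) (x : CV d) (hx : ND x) {P : Set (OnePoint ℂ)} (h : PC x P)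
    (D : Set ℂ) (hDc : IsPreconnected D) (hDo : IsOpen D) (hD : ∀ u ∈ D, (u : OnePoint ℂ) ∉ P) (n : ℕ) :
    ∀ (g₁ g₂ : ℂ → ℂ), ContinuousOn g₁ D → ContinuousOn g₂ D →
      (∀ u ∈ D, (sp x)^[n] (g₁ u : OnePoint ℂ) = u) →
      (∀ u ∈ D, (sp x)^[n] (g₂ u : OnePoint ℂ) = u) → ∀ u₀ ∈ D, g₁ u₀ = g₂ u₀ → EqOn g₁ g₂ D := by
  induction n with
  | zero =>
    intro g₁ g₂ _ _ h1 h2 u₀ _ _ u hu
    exact OnePoint.coe_injective ((h1 u hu).trans (h2 u hu).symm)
  | succ n ih =>
    intro g₁ g₂ hc1 hc2 h1 h2 u₀ hu₀ he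
    have hnP : ∀ (g : ℂ → ℂ), (∀ u ∈ D, (sp x)^[n + 1] (g u : OnePoint ℂ) = u) → ∀ u ∈ D,
        sp x (g u : OnePoint ℂ) ∉ P := by
      intro g hg u hu hP
      apply hD u hu
      rw [← hg u hu, Function.iterate_succ_apply]
      exact h.iter hP n
    have hfx : ∀ (g : ℂ → ℂ), (∀ u ∈ D, (sp x)^[n + 1] (g u : OnePoint ℂ) = u) → ∀ u ∈ D,
        sp x (g u : OnePoint ℂ) = (fx x (g u) : OnePoint ℂ) := fun g hg u hu =>
      sp_fx x _ (deriv_ne_of hd hx h (hnP g hg u hu)).1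
    have hcf : ∀ (g : ℂ → ℂ), ContinuousOn g D → (∀ u ∈ D, (sp x)^[n + 1] (g u : OnePoint ℂ) = u) →
        ContinuousOn (fun u => fx x (g u)) D := by
      intro g hgc hg u hu
      have h3 := (strictR x _ (deriv_ne_of hd hx h (hnP g hg u hu)).1).hasDerivAt.continuousAt
      exact h3.comp_continuousWithinAt (hgc u hu)
    have key := ih (fun u => fx x (g₁ u)) (fun u => fx x (g₂ u)) (hcf g₁ hc1 h1) (hcf g₂ hc2 h2)
      (fun u hu => by rw [← hfx g₁ h1 u hu]; exact h1 u hu)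
      (fun u hu => by rw [← hfx g₂ h2 u hu]; exact h2 u hu) u₀ hu₀ (by simp only [he])
    -- the set of coincidence
    have hsep : ∀ u ∈ D, g₁ u = g₂ u → ∀ᶠ u' in 𝓝[D] u, g₁ u' = g₂ u' := by
      intro u hu heq
      have q1 := deriv_ne_of hd hx h (hnP g₁ h1 u hu)
      have hs := strictR x (g₁ u) q1.1
      have h4 : deriv (fx x) (g₁ u) = d1 (nu x) (de x) (g₁ u) := hs.hasDerivAt.deriv
      have h5 := q1.2
      rw [h4] at h5
      have h6 := hs.eventually_left_inverse h5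
      have t1 : Tendsto g₁ (𝓝[D] u) (𝓝 (g₁ u)) := hc1 u hu
      have t2 : Tendsto g₂ (𝓝[D] u) (𝓝 (g₁ u)) := by rw [heq]; exact hc2 u hu
      filter_upwards [t1.eventually h6, t2.eventually h6, self_mem_nhdsWithin] with u' r1 r2 r3
      rw [← r1, ← r2]
      congr 1
      exact key r3
    intro u hu
    have hop : IsOpen {u | u ∈ D ∧ g₁ u = g₂ u} := by
      rw [isOpen_iff_mem_nhds]
      rintro w ⟨hw, hwe⟩
      have := hsep w hw hwe
      rw [hDo.nhdsWithin_eq hw] at this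
      filter_upwards [this, hDo.mem_nhds hw] with u' r1 r2
      exact ⟨r2, r1⟩
    have hop2 : IsOpen {u | u ∈ D ∧ g₁ u ≠ g₂ u} := by
      rw [isOpen_iff_mem_nhds]
      rintro w ⟨hw, hwe⟩
      have c1 := (hc1 w hw).continuousAt (hDo.mem_nhds hw)
      have c2 := (hc2 w hw).continuousAt (hDo.mem_nhds hw)
      filter_upwards [(c1.sub c2).eventually_ne (sub_ne_zero.2 hwe), hDo.mem_nhds hw] with u' r1 r2
      exact ⟨r2, sub_ne_zero.1 r1⟩
    by_contra hcon
    have h7 := hDc _ _ hop hop2 (fun w hw => by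
      by_cases hww : g₁ w = g₂ w
      · exact Or.inl ⟨hw, hww⟩
      · exact Or.inr ⟨hw, hww⟩) ⟨u₀, hu₀, hu₀, he⟩ ⟨u, hu, hu, hcon⟩
    obtain ⟨w, -, ⟨-, hw1⟩, ⟨-, hw2⟩⟩ := h7
    exact hw2 hw1

end Run7.h904.RF
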