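import Mathlib
import Pool.Agent.Run7.h904.Z1Cov

set_option autoImplicit false

open Topology Filter Metric Set Polynomial MeasureTheory Asymptotics
open scoped OnePoint

namespace Run7.h904.RF

open Pool.Agent.H790R3.RB (CV hF cr ND wr rt sp pr hc pol Sink Attd HypTop)
open Pool.Agent.W757.QR Pool.Agent.W757.RF Pool.Agent.W757.Q2
open Pool.Agent.W29.RQSNK (sp_iter fin_of sp_fx sp_inf fx_iter_diff)
open Pool.Agent.H713R5.QJ.PBLAux (quad invpow uu ord)
open Run7.h904.PF (uu_norm core2)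

/-- attracting petals -/
lemma petal (F : ℂ → ℂ) (r : ℝ) (hr : 0 < r) (hF : DifferentiableOn ℂ F (ball 0 r)) (F0 : F 0 = 0)
    (F1 : deriv F 0 = 1) (hne : ∃ z ∈ ball (0 : ℂ) r, F z ≠ z) (z₀ : ℂ)
    (hit : ∀ k : ℕ, F^[k] z₀ ∈ ball (0 : ℂ) r ∧ F^[k] z₀ ≠ 0)
    (hlim : Tendsto (fun k : ℕ => F^[k] z₀) atTop (𝓝 0)) :
    ∃ (S : Set ℂ) (K : ℕ), IsOpen S ∧ F^[K] z₀ ∈ S ∧ S ⊆ ball 0 r ∧ (∀ z ∈ S, z ≠ 0 ∧ F z ∈ S) ∧
      ∀ ε : ℝ, 0 < ε → ∀ᶠ j : ℕ in atTop, ∀ z ∈ S, ‖F^[j] z‖ < ε := by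
  obtain ⟨k, al, CA, r1, hk, hal, hCA, hr1, hr1r, hord⟩ := ord F r hr hF F0 F1 hne
  obtain ⟨r2, hr2, hr21, hcore⟩ := core2 k al hk hal CA 0 r1 1 (1 / 4) hCA le_rfl hr1 one_pos
    (by norm_num)
  have hal0 : 0 < ‖al‖ := norm_pos_iff.2 hal
  have hk0 : (0 : ℝ) < k := by exact_mod_cast hk
  have hstep : ∀ z : ℂ, z ≠ 0 → ‖z‖ ≤ r2 → F z ≠ 0 ∧ (uu k al z).re + 3 / 4 ≤ (uu k al (F z)).re := by
    intro z hz hzr
    obtain ⟨h1, h2, -⟩ := hcore 0 z (F z) hz hzr (by
      rw [zero_mul, sub_zero, norm_zero, mul_zero, zero_mul, add_zero]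
      exact hord z (hzr.trans hr21)) (by
      rw [norm_zero, mul_zero]
      exact pow_pos (norm_pos_iff.2 hz) k)
    refine ⟨h1, ?_⟩
    rw [mul_zero, sub_zero, one_mul] at h2
    have h3 := (Complex.abs_re_le_norm _).trans h2
    rw [Complex.sub_re, Complex.sub_re, Complex.one_re] at h3
    have := (abs_le.1 h3).1
    linarith
  obtain ⟨R, hR⟩ : ∃ R : ℝ, R = 1 / (k * ‖al‖ * r2 ^ k) := ⟨_, rfl⟩
  have hR0 : 0 < R := by rw [hR]; positivity
  have hsmall : ∀ z : ℂ, z ≠ 0 → R < (uu k al z).re → ‖z‖ < r2 := by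
    intro z hz h1
    have h2 := h1.trans_le ((le_abs_self _).trans (Complex.abs_re_le_norm _))
    rw [uu_norm, hR] at h2
    have hz0 : 0 < ‖z‖ := norm_pos_iff.2 hz
    have h3 : k * ‖al‖ * ‖z‖ ^ k < k * ‖al‖ * r2 ^ k :=
      lt_of_one_div_lt_one_div (by positivity) h2
    have h4 : ‖z‖ ^ k < r2 ^ k := lt_of_mul_lt_mul_left h3 (by positivity)
    exact lt_of_pow_lt_pow_left₀ k hr2.le h4
  obtain ⟨S, hS⟩ : ∃ S : Set ℂ, S = {z | z ≠ 0 ∧ R < (uu k al z).re} := ⟨_, rfl⟩
  have hSo : IsOpen S := by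
    rw [hS, isOpen_iff_mem_nhds]
    rintro z ⟨hz1, hz2⟩
    have hc : ContinuousAt (fun z => (uu k al z).re) z := by
      refine Complex.continuous_re.continuousAt.comp ?_
      unfold uu
      refine ContinuousAt.div continuousAt_const (by fun_prop) ?_
      exact mul_ne_zero (mul_ne_zero (by exact_mod_cast (by omega : k ≠ 0)) hal) (pow_ne_zero _ hz1)
    filter_upwards [isOpen_ne.mem_nhds hz1, hc.eventually (lt_mem_nhds hz2)] with w h1 h2
    exact ⟨h1, h2⟩
  have hSf : ∀ z ∈ S, z ≠ 0 ∧ F z ∈ S := by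
    intro z hz
    rw [hS] at hz ⊢
    obtain ⟨h1, h2⟩ := hz
    obtain ⟨h3, h4⟩ := hstep z h1 (hsmall z h1 h2).le
    refine ⟨h1, h3, ?_⟩
    linarith
  have hSj : ∀ z ∈ S, ∀ j : ℕ, F^[j] z ∈ S ∧ (3 / 4) * (j : ℝ) ≤ (uu k al (F^[j] z)).re := by
    intro z hz j
    induction j with
    | zero =>
      refine ⟨hz, ?_⟩
      rw [hS] at hz
      simp only [Nat.cast_zero, mul_zero, Function.iterate_zero_apply]
      linarith [hz.2]
    | succ j ih =>
      rw [Function.iterate_succ_apply']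
      refine ⟨(hSf _ ih.1).2, ?_⟩
      have h1 := ih.1
      rw [hS] at h1
      have h2 := (hstep _ h1.1 (hsmall _ h1.1 h1.2).le).2
      push_cast
      linarith [ih.2]
  -- the orbit enters
  have hent : ∃ K : ℕ, F^[K] z₀ ∈ S := by
    by_contra hcon
    push Not at hcon
    obtain ⟨N, hN⟩ := (hlim.eventually (closedBall_mem_nhds 0 hr2)).exists_forall_of_atTop
    have h1 : ∀ j : ℕ, (uu k al (F^[N] z₀)).re + 3 / 4 * j ≤ (uu k al (F^[N + j] z₀)).re := by
      intro j
      induction j with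
      | zero => simp
      | succ j ih =>
        have h2 := hN (N + j) (by omega)
        rw [dist_zero_right] at h2
        have h3 := (hstep _ (hit (N + j)).2 h2).2
        rw [← Function.iterate_succ_apply' F] at h3
        push_cast
        have e : N + (j + 1) = (N + j).succ := rfl
        rw [e]
        linarith
    obtain ⟨j, hj⟩ := exists_nat_gt ((R - (uu k al (F^[N] z₀)).re) / (3 / 4))
    rw [div_lt_iff₀ (by norm_num)] at hj
    apply hcon (N + j)
    rw [hS]
    exact ⟨(hit _).2, by linarith [h1 j]⟩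
  obtain ⟨K, hK⟩ := hent
  refine ⟨S, K, hSo, hK, ?_, hSf, ?_⟩
  · intro z hz
    rw [hS] at hz
    have := hsmall z hz.1 hz.2
    rw [mem_ball, dist_zero_right]
    linarith
  · intro ε hε
    obtain ⟨J, hJ⟩ := exists_nat_gt (1 / (k * ‖al‖ * ε ^ k) / (3 / 4))
    filter_upwards [eventually_ge_atTop J] with j hj z hz
    obtain ⟨h1, h2⟩ := hSj z hz j
    rw [hS] at h1
    have h3 := h2.trans ((le_abs_self _).trans (Complex.abs_re_le_norm _))
    rw [uu_norm] at h3
    rw [div_lt_iff₀ (by norm_num)] at hJ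
    have hjJ : (J : ℝ) ≤ j := by exact_mod_cast hj
    have h4 : 1 / (k * ‖al‖ * ε ^ k) < 1 / (k * ‖al‖ * ‖F^[j] z‖ ^ k) := by linarith
    have hz0 : 0 < ‖F^[j] z‖ := norm_pos_iff.2 h1.1
    have h5 : k * ‖al‖ * ‖F^[j] z‖ ^ k < k * ‖al‖ * ε ^ k :=
      lt_of_one_div_lt_one_div (by positivity) h4
    have h6 : ‖F^[j] z‖ ^ k < ε ^ k := lt_of_mul_lt_mul_left h5 (by positivity)
    exact lt_of_pow_lt_pow_left₀ k hε.le h6


/-- two periodic relations -/
lemma back_to {f : OnePoint ℂ → OnePoint ℂ} (hf : Continuous f) {n : ℕ} (hn : 0 < n)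
    {a w : OnePoint ℂ} (ha : f^[n] a = a) (hlim : Tendsto (fun i : ℕ => f^[n * i] w) atTop (𝓝 a))
    {k : ℕ} (hk : f^[k] w = a) : ∃ N : ℕ, ∀ i ≥ N, f^[n * i] w = a := by
  obtain ⟨s, t, ht, hst⟩ : ∃ s t : ℕ, t < n ∧ k = n * s + t :=
    ⟨k / n, k % n, Nat.mod_lt _ hn, (Nat.div_add_mod k n).symm⟩
  have hfix : ∀ i : ℕ, f^[n * i] a = a := by
    intro i
    rw [Function.iterate_mul]
    exact Function.iterate_fixed ha i
  have h1 : ∀ i : ℕ, f^[n * (s + i) + t] w = a := by
    intro i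
    have e : n * (s + i) + t = n * i + k := by rw [hst]; ring
    rw [e, Function.iterate_add_apply, hk, hfix]
  have h2 : f^[t] a = a := by
    have h3 : Tendsto (fun i : ℕ => f^[t] (f^[n * (s + i)] w)) atTop (𝓝 (f^[t] a)) := by
      have h4 : Tendsto (fun i : ℕ => f^[n * (s + i)] w) atTop (𝓝 a) := by
        have h5 := (tendsto_add_atTop_iff_nat (f := fun i : ℕ => f^[n * i] w) s).2 hlim
        refine h5.congr fun i => ?_
        rw [add_comm]
      exact ((hf.iterate t).tendsto a).comp h4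
    refine (tendsto_nhds_unique (h3.congr fun i => ?_) tendsto_const_nhds)
    rw [← Function.iterate_add_apply, add_comm, h1]
  refine ⟨s + 1, fun i hi => ?_⟩
  obtain ⟨j, rfl⟩ : ∃ j, i = s + j + 1 := ⟨i - s - 1, by omega⟩
  have e : n * (s + j + 1) = (n - t) + (n * (s + j) + t) := by
    have : n * (s + j + 1) = n * (s + j) + n := by ring
    omega
  rw [e, Function.iterate_add_apply, h1]
  have h4 : f^[n - t] (f^[t] a) = a := by
    rw [← Function.iterate_add_apply, Nat.sub_add_cancel ht.le, ha]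
  rwa [h2] at h4

/-- good points have a neighbourhood of good points on which the convergence is uniform -/
theorem gd_unif {d : ℕ} (hd : 2 ≤ d) (x : CV d) (hx : ND x)
    (hinf : ∞ ∉ Function.periodicPts (sp x)) (z : OnePoint ℂ) (h : Gd x z) :
    ∃ U ∈ 𝓝 z, (∀ w ∈ U, Gd x w) ∧ ∃ (N : ℕ) (a : OnePoint ℂ), 0 < N ∧
      ∀ V ∈ 𝓝 a, ∀ᶠ k : ℕ in atTop, ∀ w ∈ U, (sp x)^[N * k] w ∈ V := by
  have hcont := sp_cont hd x hx
  rcases h with ⟨n, a, ⟨hn, hfix, U₀, hU₀, hU⟩, hlim⟩ | ⟨a, p, q, hpar, hlim, hne⟩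
  · obtain ⟨K, hK⟩ := (hlim.eventually (interior_mem_nhds.2 hU₀)).exists
    have hUN : (sp x)^[n * K] ⁻¹' interior U₀ ∈ 𝓝 z :=
      (hcont.iterate _).continuousAt.preimage_mem_nhds (isOpen_interior.mem_nhds hK)
    have hun : ∀ V ∈ 𝓝 a, ∀ᶠ k : ℕ in atTop, ∀ w ∈ (sp x)^[n * K] ⁻¹' interior U₀,
        (sp x)^[n * k] w ∈ V := by
      intro V hV
      obtain ⟨k₀, hk₀⟩ := (hU V hV).exists_forall_of_atTop
      filter_upwards [eventually_ge_atTop (k₀ + K)] with k hk w hw
      have e : n * k = n * (k - K) + n * K := by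
        rw [← mul_add]; congr 1; omega
      rw [e, Function.iterate_add_apply]
      exact hk₀ _ (by omega) _ (interior_subset hw)
    refine ⟨_, hUN, fun w hw => Or.inl ⟨n, a, ⟨hn, hfix, U₀, hU₀, hU⟩, ?_⟩, n, a, hn, hun⟩
    rw [tendsto_iff_forall_eventually_mem]
    intro V hV
    exact (hun V hV).mono fun k hk => hk w hw
  · -- parabolic
    obtain ⟨hp, hq, hmin, lam, g, hlam, g0, gd, ge⟩ := id hpar
    have hpa : (sp x)^[p] a = a := by
      have h1 := ge.self_of_nhds
      rwa [g0, chart_zero] at h1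
    have hper : a ∈ Function.periodicPts (sp x) := Function.mk_mem_periodicPts hp hpa
    have hfin : ∀ n : ℕ, (sp x)^[n] a ≠ ∞ := by
      intro n h0
      apply hinf
      rw [← h0]
      refine Function.mk_mem_periodicPts hp ?_
      show (sp x)^[p] ((sp x)^[n] a) = (sp x)^[n] a
      rw [← Function.iterate_add_apply, add_comm, Function.iterate_add_apply, hpa]
    obtain ⟨α, rfl⟩ : ∃ α : ℂ, a = α := by
      have := hfin 0
      induction a using OnePoint.rec with
      | infty => exact absurd rfl this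
      | coe ζ => exact ⟨ζ, rfl⟩
    have hFα : Fin' x α := fin_of x α hfin
    obtain ⟨hfx, hder⟩ := Pool.Agent.W342.RE.PTW.mult_deriv hFα ⟨g, g0, gd, ge⟩
    obtain ⟨m, hm⟩ : ∃ m, m = p * q := ⟨_, rfl⟩
    have hm0 : 0 < m := by rw [hm]; exact Nat.mul_pos hp hq
    rw [← hm] at hlim
    have hne' : ∀ᶠ w in 𝓝 (0 : ℂ), ∀ j < m, (de x).eval ((fx x)^[j] (α + w)) ≠ 0 := by
      have h1 := Pool.Agent.W29.RQAPP.ne_nhds m (x, α) (fun j _ => hFα j)
      have h2 : Tendsto (fun w : ℂ => ((x, α + w) : CV d × ℂ)) (𝓝 0) (𝓝 (x, α)) := by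
        have h3 : Tendsto (fun w : ℂ => α + w) (𝓝 0) (𝓝 (α + 0)) :=
          tendsto_const_nhds.add tendsto_id
        rw [add_zero] at h3
        exact tendsto_const_nhds.prodMk_nhds h3
      exact h2.eventually h1
    obtain ⟨r, hr, hb⟩ := Metric.eventually_nhds_iff_ball.1 hne'
    obtain ⟨G, hG⟩ : ∃ G : ℂ → ℂ, G = fun w => (fx x)^[m] (α + w) - α := ⟨_, rfl⟩
    have hGd : DifferentiableOn ℂ G (ball 0 r) := by
      intro w hw
      rw [hG]
      have h1 : DifferentiableAt ℂ ((fx x)^[m]) (α + w) := fx_iter_diff x (α + w) m (hb w hw)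
      exact ((h1.comp w ((differentiableAt_const α).add differentiableAt_id)).sub_const
        α).differentiableWithinAt
    have hmfix : (fx x)^[m] α = α := by
      rw [hm, Function.iterate_mul]
      exact Function.iterate_fixed hfx q
    have hG0 : G 0 = 0 := by rw [hG]; simp [hmfix]
    have hG1 : deriv G 0 = 1 := by
      have h1 : HasDerivAt ((fx x)^[m]) (lam ^ q) α := by
        rw [hm, Function.iterate_mul]
        exact HasDerivAt.iterate (f := (fx x)^[p]) α hder hfx q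
      rw [hlam] at h1
      have h2 : HasDerivAt (fun w : ℂ => α + w) 1 0 := by
        simpa using (hasDerivAt_id (0 : ℂ)).const_add α
      have h3 : HasDerivAt ((fx x)^[m]) 1 (α + 0) := by rw [add_zero]; exact h1
      have h4 := (h3.comp (0 : ℂ) h2).sub_const α
      rw [mul_one] at h4
      rw [hG]
      exact h4.deriv
    have hGs : ∀ w ∈ ball (0 : ℂ) r, (sp x)^[m] ((α + w : ℂ) : OnePoint ℂ) =
        ((α + G w : ℂ) : OnePoint ℂ) := by
      intro w hw
      rw [sp_iter x (α + w) m (hb w hw), hG]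
      congr 1
      ring
    -- the orbit of `z`
    have hball : (fun w : ℂ => ((α + w : ℂ) : OnePoint ℂ)) '' ball 0 r ∈ 𝓝 (α : OnePoint ℂ) :=
      chart_nhds (α : OnePoint ℂ) (ball_mem_nhds (0 : ℂ) hr)
    obtain ⟨K₀, hK₀⟩ := (hlim.eventually hball).exists_forall_of_atTop
    choose! ω hω1 hω2 using hK₀
    have hGω : ∀ i : ℕ, G^[i] (ω K₀) = ω (K₀ + i) := by
      intro i
      induction i with
      | zero => rfl
      | succ i ih =>
        rw [Function.iterate_succ_apply', ih]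
        have h1 := hω2 (K₀ + i) (by omega)
        have h2 := hω2 (K₀ + (i + 1)) (by omega)
        simp only at h1 h2
        have e : m * (K₀ + (i + 1)) = m + m * (K₀ + i) := by ring
        rw [e, Function.iterate_add_apply, ← h1, hGs _ (hω1 _ (by omega))] at h2
        have h3 := OnePoint.coe_injective h2
        exact (add_left_cancel h3).symm
    have hit : ∀ i : ℕ, G^[i] (ω K₀) ∈ ball (0 : ℂ) r ∧ G^[i] (ω K₀) ≠ 0 := by
      intro i
      rw [hGω]
      refine ⟨hω1 _ (by omega), fun h0 => ?_⟩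
      have h1 := hω2 (K₀ + i) (by omega)
      rw [h0] at h1
      simp only [add_zero] at h1
      exact hne _ h1.symm
    have hlim0 : Tendsto (fun i : ℕ => G^[i] (ω K₀)) atTop (𝓝 0) := by
      have h1 : Tendsto (fun i : ℕ => ((α + ω (K₀ + i) : ℂ) : OnePoint ℂ)) atTop
          (𝓝 (α : OnePoint ℂ)) := by
        have h2 := (tendsto_add_atTop_iff_nat (f := fun i : ℕ => (sp x)^[m * i] z) K₀).2 hlim
        refine h2.congr fun i => ?_
        rw [add_comm, ← hω2 _ (by omega)]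
      have h2 : Tendsto (fun i : ℕ => α + ω (K₀ + i)) atTop (𝓝 α) :=
        (OnePoint.isOpenEmbedding_coe.isInducing.tendsto_nhds_iff).2 h1
      have h3 := h2.sub_const α
      rw [sub_self] at h3
      refine h3.congr fun i => ?_
      rw [hGω]; ring
    have hGne : ∃ w ∈ ball (0 : ℂ) r, G w ≠ w := by
      by_contra hcon
      push Not at hcon
      have h1 : ∀ i : ℕ, G^[i] (ω K₀) = ω K₀ := by
        intro i
        induction i with
        | zero => rfl
        | succ i ih =>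
          rw [Function.iterate_succ_apply', ih]
          exact hcon _ (hit 0).1
      have h2 : Tendsto (fun i : ℕ => G^[i] (ω K₀)) atTop (𝓝 (ω K₀)) := by
        simp only [h1]
        exact tendsto_const_nhds
      exact (hit 0).2 (tendsto_nhds_unique h2 hlim0)
    obtain ⟨S, K, hSo, hKS, hSb, hSf, hSu⟩ := petal G r hr hGd hG0 hG1 hGne (ω K₀) hit hlim0
    obtain ⟨T, hT⟩ : ∃ T : Set (OnePoint ℂ), T = (fun w : ℂ => ((α + w : ℂ) : OnePoint ℂ)) '' S :=
      ⟨_, rfl⟩
    have hTo : IsOpen T := by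
      rw [hT]
      have h1 : (fun w : ℂ => ((α + w : ℂ) : OnePoint ℂ)) '' S =
          (fun z : ℂ => (z : OnePoint ℂ)) '' ((fun w : ℂ => α + w) '' S) := by
        rw [image_image]
      rw [h1]
      refine OnePoint.isOpenEmbedding_coe.isOpenMap _ ?_
      exact (isOpenMap_add_left α) _ hSo
    have hTj : ∀ w ∈ S, ∀ j : ℕ, G^[j] w ∈ S ∧ (sp x)^[m * j] ((α + w : ℂ) : OnePoint ℂ) =
        ((α + G^[j] w : ℂ) : OnePoint ℂ) := by
      intro w hw j
      induction j with
      | zero => exact ⟨hw, rfl⟩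
      | succ j ih =>
        refine ⟨by rw [Function.iterate_succ_apply']; exact (hSf _ ih.1).2, ?_⟩
        have e : m * (j + 1) = m + m * j := by ring
        rw [e, Function.iterate_add_apply, ih.2, hGs _ (hSb ih.1), Function.iterate_succ_apply']
    obtain ⟨U, hU⟩ : ∃ U, U = (sp x)^[m * (K₀ + K)] ⁻¹' T := ⟨_, rfl⟩
    have hzU : U ∈ 𝓝 z := by
      rw [hU]
      refine (hcont.iterate _).continuousAt.preimage_mem_nhds (hTo.mem_nhds ?_)
      rw [hT, ← hω2 _ (by omega), ← hGω]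
      exact ⟨_, hKS, rfl⟩
    have hun : ∀ V ∈ 𝓝 (α : OnePoint ℂ), ∀ᶠ k : ℕ in atTop, ∀ w ∈ U, (sp x)^[m * k] w ∈ V := by
      intro V hV
      have h1 : ∀ᶠ w in 𝓝 (0 : ℂ), ((α + w : ℂ) : OnePoint ℂ) ∈ V := by
        have h2 := (chart_cont (α : OnePoint ℂ)).tendsto 0
        rw [chart_zero] at h2
        exact h2.eventually hV
      obtain ⟨ε, hε, hbε⟩ := Metric.eventually_nhds_iff_ball.1 h1
      obtain ⟨j₀, hj₀⟩ := (hSu ε hε).exists_forall_of_atTop
      filter_upwards [eventually_ge_atTop (j₀ + (K₀ + K))] with k hk w hw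
      have e : m * k = m * (k - (K₀ + K)) + m * (K₀ + K) := by
        rw [← mul_add]; congr 1; omega
      rw [e, Function.iterate_add_apply]
      rw [hU, mem_preimage, hT] at hw
      obtain ⟨w', hw', hww⟩ := hw
      rw [← hww]
      simp only
      rw [(hTj w' hw' _).2]
      apply hbε
      rw [mem_ball, dist_zero_right]
      exact hj₀ _ (by omega) w' hw'
    refine ⟨U, hzU, fun w hw => Or.inr ⟨α, p, q, hpar, ?_, ?_⟩, m, α, hm0, hun⟩
    · rw [← hm, tendsto_iff_forall_eventually_mem]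
      intro V hV
      exact (hun V hV).mono fun k hk => hk w hw
    · intro k h0
      have hmfixS : (sp x)^[m] (α : OnePoint ℂ) = α := by
        rw [sp_iter x α m (fun j _ => hFα j), hmfix]
      have hlimw : Tendsto (fun i : ℕ => (sp x)^[m * i] w) atTop (𝓝 (α : OnePoint ℂ)) := by
        rw [tendsto_iff_forall_eventually_mem]
        intro V hV
        exact (hun V hV).mono fun k hk => hk w hw
      obtain ⟨N, hN⟩ := back_to hcont hm0 hmfixS hlimw h0
      rw [hU, mem_preimage, hT] at hw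
      obtain ⟨w', hw', hww⟩ := hw
      have h1 := hN (N + (K₀ + K)) (by omega)
      have e : m * (N + (K₀ + K)) = m * N + m * (K₀ + K) := by ring
      rw [e, Function.iterate_add_apply, ← hww] at h1
      simp only at h1
      rw [(hTj w' hw' _).2] at h1
      have h2 := OnePoint.coe_injective h1
      exact (hSf _ (hTj w' hw' N).1).1 (by linear_combination h2)

end Run7.h904.RF
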