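import Mathlib
import Pool.Agent.Run7.h102.Inv
import Pool.Agent.Helper114.MontelSol

set_option autoImplicit false

open Topology Filter Metric Set MeasureTheory

namespace Run7.h904.RF

/-- distortion of univalent functions -/
theorem distort (g : ℂ → ℂ) (p : ℂ) (r : ℝ) (hr : 0 < r) (hd : DifferentiableOn ℂ g (ball p (2 * r)))
    (hi : InjOn g (ball p (2 * r))) : ∀ u ∈ ball p r,
      Real.exp (-4) * ‖deriv g p‖ ≤ ‖deriv g u‖ ∧ ‖deriv g u‖ ≤ Real.exp 4 * ‖deriv g p‖ := by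
  have hsub : ball p r ⊆ ball p (2 * r) := ball_subset_ball (by linarith)
  have hkb : ∀ w ∈ ball p r, deriv g w ≠ 0 ∧ r * ‖deriv (deriv g) w‖ ≤ 4 * ‖deriv g w‖ := by
    intro w hw
    have h1 : ball w r ⊆ ball p (2 * r) := by
      intro v hv
      rw [mem_ball] at hw hv ⊢
      linarith [dist_triangle v w p]
    exact Pool.Agent.H792R2.SS.t_KB g w r hr (hd.mono h1) (hi.mono h1)
  have hg' : DifferentiableOn ℂ (deriv g) (ball p r) :=
    ((hd.analyticOnNhd isOpen_ball).deriv.differentiableOn).mono hsub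
  obtain ⟨L, hL1, hL2, hL3⟩ := Run7.h102.log_ball hr hg' (fun w hw => (hkb w hw).1)
    (Complex.log (deriv g p)) (Complex.exp_log (hkb p (mem_ball_self hr)).1)
  have hLd : ∀ w ∈ ball p r, ‖deriv L w‖ ≤ 4 / r := by
    intro w hw
    have h1 : HasDerivAt L (deriv L w) w := (hL1.differentiableAt (isOpen_ball.mem_nhds hw)).hasDerivAt
    have h2 : HasDerivAt (fun w => Complex.exp (L w)) (Complex.exp (L w) * deriv L w) w := h1.cexp
    have h3 : (fun w => Complex.exp (L w)) =ᶠ[𝓝 w] deriv g := by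
      filter_upwards [isOpen_ball.mem_nhds hw] with v hv
      exact hL3 v hv
    have h4 : deriv (deriv g) w = deriv g w * deriv L w := by
      rw [← h3.deriv_eq, h2.deriv, hL3 w hw]
    obtain ⟨h5, h6⟩ := hkb w hw
    rw [h4, norm_mul] at h6
    have h7 : 0 < ‖deriv g w‖ := norm_pos_iff.2 h5
    rw [le_div_iff₀ hr]
    have h8 : ‖deriv g w‖ * (‖deriv L w‖ * r) ≤ ‖deriv g w‖ * 4 := by linarith
    exact le_of_mul_le_mul_left h8 h7
  intro u hu
  have hlip := (convex_ball p r).norm_image_sub_le_of_norm_deriv_le (𝕜 := ℂ) (f := L)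
    (fun w hw => hL1.differentiableAt (isOpen_ball.mem_nhds hw)) hLd (mem_ball_self hr) hu
  have h1 : ‖L u - L p‖ ≤ 4 := by
    refine hlip.trans ?_
    rw [mem_ball, dist_eq_norm] at hu
    calc 4 / r * ‖u - p‖ ≤ 4 / r * r := mul_le_mul_of_nonneg_left hu.le (by positivity)
      _ = 4 := by field_simp
  have h2 : |(L u - L p).re| ≤ 4 := (Complex.abs_re_le_norm _).trans h1
  have h3 : ‖deriv g u‖ = Real.exp (L u - L p).re * ‖deriv g p‖ := by
    rw [← hL3 u hu, ← hL3 p (mem_ball_self hr), Complex.norm_exp, Complex.norm_exp, ← Real.exp_add,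
      Complex.sub_re]
    congr 1
    ring
  rw [h3]
  obtain ⟨h4, h5⟩ := abs_le.1 h2
  exact ⟨mul_le_mul_of_nonneg_right (Real.exp_le_exp.2 h4) (norm_nonneg _),
    mul_le_mul_of_nonneg_right (Real.exp_le_exp.2 h5) (norm_nonneg _)⟩

/-- the image of a disc -/
theorem distort_lip (g : ℂ → ℂ) (p : ℂ) (r : ℝ) (hr : 0 < r)
    (hd : DifferentiableOn ℂ g (ball p (2 * r))) (hi : InjOn g (ball p (2 * r))) :
    ∀ u ∈ ball p r, ‖g u - g p‖ ≤ Real.exp 4 * ‖deriv g p‖ * ‖u - p‖ := by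
  intro u hu
  have hsub : ball p r ⊆ ball p (2 * r) := ball_subset_ball (by linarith)
  exact (convex_ball p r).norm_image_sub_le_of_norm_deriv_le (𝕜 := ℂ) (f := g)
    (fun w hw => (hd.differentiableAt (isOpen_ball.mem_nhds (hsub hw))))
    (fun w hw => (distort g p r hr hd hi w hw).2) (mem_ball_self hr) hu

/-- area of the image -/
theorem area_image (g : ℂ → ℂ) (E : Set ℂ) (hE : MeasurableSet E) (D : Set ℂ) (hD : IsOpen D)
    (hED : E ⊆ D) (hd : DifferentiableOn ℂ g D) (hi : InjOn g D) (c : ℝ) (hc : 0 ≤ c)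
    (hlow : ∀ u ∈ E, c ≤ ‖deriv g u‖) :
    ENNReal.ofReal (c ^ 2) * volume E ≤ volume (g '' E) := by
  have hfd : ∀ u ∈ E, HasFDerivWithinAt g
      (((ContinuousLinearMap.toSpanSingleton ℂ (deriv g u)).restrictScalars ℝ : ℂ →L[ℝ] ℂ)) E u := by
    intro u hu
    have h1 : HasDerivAt g (deriv g u) u :=
      (hd.differentiableAt (hD.mem_nhds (hED hu))).hasDerivAt
    exact (h1.hasFDerivAt.restrictScalars ℝ).hasFDerivWithinAt
  rw [← lintegral_abs_det_fderiv_eq_addHaar_image (volume : Measure ℂ) hE hfd (hi.mono hED),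
    ← setLIntegral_const]
  refine setLIntegral_mono' hE fun u hu => ?_
  have h2 : (((ContinuousLinearMap.toSpanSingleton ℂ (deriv g u)).restrictScalars ℝ :
      ℂ →L[ℝ] ℂ)).det = ‖deriv g u‖ ^ 2 := by
    rw [ContinuousLinearMap.det, ← LinearMap.det_toMatrix Complex.basisOneI, Matrix.det_fin_two]
    simp [LinearMap.toMatrix_apply, Complex.basisOneI, Complex.sq_norm, Complex.normSq_apply]
  rw [h2, abs_of_nonneg (by positivity)]
  exact ENNReal.ofReal_le_ofReal (pow_le_pow_left₀ hc (hlow u hu) 2)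

end Run7.h904.RF
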