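import Mathlib
import Pool.Agent.Run7.h904.Z2Unif
import Pool.Agent.Run7.h904.Z3Koe

set_option autoImplicit false

open Topology Filter Metric Set Polynomial MeasureTheory Asymptotics
open scoped OnePoint

namespace Run7.h904.RF

open Pool.Agent.H790R3.RB (CV hF cr ND wr rt sp pr hc pol Sink Attd HypTop)
open Pool.Agent.W757.QR Pool.Agent.W757.RF Pool.Agent.W757.Q2
open Pool.Agent.W29.RQSNK (sp_iter fin_of sp_fx sp_inf fx_iter_diff)

/-- points some image of which is good -/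
def GdE {d : ℕ} (x : CV d) (z : OnePoint ℂ) : Prop := ∃ k : ℕ, Gd x ((sp x)^[k] z)

lemma gdE_of {d : ℕ} {x : CV d} {z : OnePoint ℂ} (h : Gd x z) : GdE x z := ⟨0, h⟩

lemma gdE_back {d : ℕ} {x : CV d} {z : OnePoint ℂ} (n : ℕ) (h : GdE x ((sp x)^[n] z)) : GdE x z := by
  obtain ⟨k, hk⟩ := h
  refine ⟨k + n, ?_⟩
  rwa [Function.iterate_add_apply]

lemma gd_fw {d : ℕ} {x : CV d} {z : OnePoint ℂ} (h : Gd x z) : ∃ n, 0 < n ∧ Gd x ((sp x)^[n] z) := by
  have key : ∀ (n : ℕ) (a : OnePoint ℂ), Tendsto (fun k : ℕ => (sp x)^[n * k] z) atTop (𝓝 a) →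
      Tendsto (fun k : ℕ => (sp x)^[n * k] ((sp x)^[n] z)) atTop (𝓝 a) := by
    intro n a h1
    have h2 := (tendsto_add_atTop_iff_nat (f := fun k : ℕ => (sp x)^[n * k] z) 1).2 h1
    refine h2.congr fun k => ?_
    rw [← Function.iterate_add_apply]
    congr 1
  rcases h with ⟨n, a, hs, hlim⟩ | ⟨a, p, q, hpar, hlim, hne⟩
  · exact ⟨n, hs.1, Or.inl ⟨n, a, hs, key n a hlim⟩⟩
  · refine ⟨p * q, Nat.mul_pos hpar.1 hpar.2.1, Or.inr ⟨a, p, q, hpar, key _ a hlim, fun k => ?_⟩⟩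
    rw [← Function.iterate_add_apply]
    exact hne _

lemma gdE_fw {d : ℕ} {x : CV d} {z : OnePoint ℂ} (h : GdE x z) : GdE x (sp x z) := by
  obtain ⟨k, hk⟩ := h
  rcases k with _ | k
  · obtain ⟨n, hn, h1⟩ := gd_fw hk
    obtain ⟨m, rfl⟩ : ∃ m, n = m + 1 := ⟨n - 1, by omega⟩
    refine ⟨m, ?_⟩
    rw [Function.iterate_zero_apply, Function.iterate_succ_apply] at h1
    exact h1
  · rw [Function.iterate_succ_apply] at hk
    exact ⟨k, hk⟩

lemma gdE_fwn {d : ℕ} {x : CV d} {z : OnePoint ℂ} (h : GdE x z) (n : ℕ) : GdE x ((sp x)^[n] z) := by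
  induction n with
  | zero => exact h
  | succ n ih => rw [Function.iterate_succ_apply']; exact gdE_fw ih

/-- uniform convergence to a cycle -/
theorem gdE_unif {d : ℕ} (hd : 2 ≤ d) (x : CV d) (hx : ND x)
    (hinf : ∞ ∉ Function.periodicPts (sp x)) (z : OnePoint ℂ) (h : GdE x z) :
    ∃ U ∈ 𝓝 z, (∀ w ∈ U, GdE x w) ∧ ∃ C : Set (OnePoint ℂ), C.Finite ∧
      C ⊆ Function.periodicPts (sp x) ∧
      ∀ O : Set (OnePoint ℂ), IsOpen O → C ⊆ O → ∀ᶠ m : ℕ in atTop, ∀ w ∈ U, (sp x)^[m] w ∈ O := by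
  obtain ⟨k, hk⟩ := h
  have hcont := sp_cont hd x hx
  obtain ⟨U, hU, hUg, N, a, hN, hun⟩ := gd_unif hd x hx hinf _ hk
  have ha : (sp x)^[N] a = a := by
    have h0 : Tendsto (fun j : ℕ => (sp x)^[N * j] ((sp x)^[k] z)) atTop (𝓝 a) := by
      rw [tendsto_iff_forall_eventually_mem]
      intro V hV
      exact (hun V hV).mono fun j hj => hj _ (mem_of_mem_nhds hU)
    have h1 : Tendsto (fun j : ℕ => (sp x)^[N] ((sp x)^[N * j] ((sp x)^[k] z))) atTop
        (𝓝 ((sp x)^[N] a)) := ((hcont.iterate N).tendsto a).comp h0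
    have h2 := (tendsto_add_atTop_iff_nat (f := fun j : ℕ => (sp x)^[N * j] ((sp x)^[k] z)) 1).2 h0
    refine tendsto_nhds_unique (h1.congr fun j => ?_) h2
    rw [← Function.iterate_add_apply]
    congr 1
    ring
  refine ⟨(sp x)^[k] ⁻¹' U, (hcont.iterate k).continuousAt.preimage_mem_nhds hU,
    fun w hw => ⟨k, hUg _ hw⟩, (fun i : ℕ => (sp x)^[i] a) '' (Finset.range N : Set ℕ),
    (Finset.finite_toSet _).image _, ?_, ?_⟩
  · rintro _ ⟨i, -, rfl⟩
    refine Function.mk_mem_periodicPts hN ?_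
    show (sp x)^[N] ((sp x)^[i] a) = (sp x)^[i] a
    rw [← Function.iterate_add_apply, add_comm, Function.iterate_add_apply, ha]
  · intro O hO hCO
    have h1 : ∀ᶠ b in 𝓝 a, ∀ i ∈ Finset.range N, (sp x)^[i] b ∈ O := by
      rw [Finset.eventually_all]
      intro i hi
      exact (hcont.iterate i).continuousAt.eventually (hO.mem_nhds (hCO ⟨i, hi, rfl⟩))
    obtain ⟨j₀, hj₀⟩ := (hun _ h1).exists_forall_of_atTop
    filter_upwards [eventually_ge_atTop (k + N * j₀)] with m hm w hw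
    obtain ⟨s, hs⟩ : ∃ s, s = m - k := ⟨_, rfl⟩
    have e : m = s % N + (N * (s / N) + k) := by
      have := Nat.mod_add_div s N
      omega
    rw [e, Function.iterate_add_apply, Function.iterate_add_apply]
    refine hj₀ (s / N) ?_ _ hw (s % N) (Finset.mem_range.2 (Nat.mod_lt _ hN))
    exact (Nat.le_div_iff_mul_le hN).2 (by rw [mul_comm]; omega)

/-- the setting for the proof that the bad set has zero area -/
structure ZS {d : ℕ} (x : CV d) (P : Set (OnePoint ℂ)) (q₂ : ℂ) : Prop where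
  hd : 2 ≤ d
  hx : ND x
  pc : PC x P
  cl : IsClosed P
  cnt : P.Countable
  q2 : (q₂ : OnePoint ℂ) ∈ P
  ginf : GdE x ∞
  pinf : ∞ ∉ Function.periodicPts (sp x)

/-- the bad set in the plane -/
def Bs {d : ℕ} (x : CV d) : Set ℂ := {z | ¬ GdE x (z : OnePoint ℂ)}

section setting

variable {d : ℕ} {x : CV d} {P : Set (OnePoint ℂ)} {q₂ : ℂ}

lemma ZS.closed (h : ZS x P q₂) : IsClosed (Bs x) := by
  rw [← isOpen_compl_iff, isOpen_iff_mem_nhds]
  intro z hz
  have hz' : GdE x (z : OnePoint ℂ) := by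
    by_contra h0
    exact hz h0
  obtain ⟨U, hU, hUg, -⟩ := gdE_unif h.hd x h.hx h.pinf _ hz'
  filter_upwards [OnePoint.continuous_coe.continuousAt.preimage_mem_nhds hU] with w hw hw2
  exact hw2 (hUg _ hw)

lemma ZS.bdd (h : ZS x P q₂) : ∃ M : ℝ, 0 < M ∧ ∀ z ∈ Bs x, ‖z‖ ≤ M := by
  obtain ⟨U, hU, hUg, -⟩ := gdE_unif h.hd x h.hx h.pinf _ h.ginf
  have h1 := (OnePoint.tendsto_coe_infty (X := ℂ)).eventually hU
  rw [Filter.coclosedCompact_eq_cocompact, Metric.cobounded_eq_cocompact.symm] at h1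
  have h2 : ∀ᶠ z : ℂ in Bornology.cobounded ℂ, (z : OnePoint ℂ) ∈ U := h1
  rw [← comap_norm_atTop, eventually_comap] at h2
  obtain ⟨M, hM⟩ := h2.exists_forall_of_atTop
  refine ⟨max M 1, lt_max_of_lt_right one_pos, fun z hz => ?_⟩
  by_contra hcon
  push Not at hcon
  exact hz (hUg _ (hM ‖z‖ ((le_max_left _ _).trans hcon.le) z rfl))

lemma ZS.fin (h : ZS x P q₂) {z : ℂ} (hz : z ∈ Bs x) : Fin' x z := by
  apply fin_of
  intro j hj
  apply hz
  apply gdE_back j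
  rw [hj]
  exact h.ginf

lemma ZS.orb (h : ZS x P q₂) {z : ℂ} (hz : z ∈ Bs x) (n : ℕ) :
    (sp x)^[n] (z : OnePoint ℂ) = (((fx x)^[n] z : ℂ) : OnePoint ℂ) ∧ (fx x)^[n] z ∈ Bs x := by
  have h1 := sp_iter x z n (fun j _ => h.fin hz j)
  refine ⟨h1, fun h2 => hz (gdE_back n ?_)⟩
  rw [h1]
  exact h2

/-- backward invariance -/
lemma ZS.back (h : ZS x P q₂) {z w : ℂ} {n : ℕ} (hw : w ∈ Bs x)
    (he : (sp x)^[n] (z : OnePoint ℂ) = w) : z ∈ Bs x := by
  intro h1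
  apply hw
  rw [← he]
  exact gdE_fwn h1 n

/-- points with an image outside `P` have planar orbits up to this time -/
lemma ZS.fin_of_not (h : ZS x P q₂) {w u : ℂ} {n : ℕ} (he : (sp x)^[n] (w : OnePoint ℂ) = u)
    (hu : (u : OnePoint ℂ) ∉ P) : (∀ j < n, (de x).eval ((fx x)^[j] w) ≠ 0) ∧ (fx x)^[n] w = u := by
  have h1 : ∀ j ≤ n, (sp x)^[j] (w : OnePoint ℂ) ≠ ∞ := by
    intro j hj h0
    apply hu
    rw [← he]
    have e : n = (n - j) + j := by omega
    rw [e, Function.iterate_add_apply, h0]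
    exact h.pc.iter h.pc.inf _
  have h2 : ∀ j < n, (de x).eval ((fx x)^[j] w) ≠ 0 := by
    intro j
    induction j using Nat.strong_induction_on with
    | _ j ih =>
      intro hj h0
      apply h1 (j + 1) (by omega)
      rw [Function.iterate_succ_apply', sp_iter x w j (fun i hi => ih i hi (by omega)),
        sp_inf x _ h0]
  refine ⟨h2, ?_⟩
  rw [sp_iter x w n h2] at he
  exact OnePoint.coe_injective he

/-- inverse branches -/
theorem ZS.branch (h : ZS x P q₂) (v : ℂ) (R : ℝ) (hD : ∀ u ∈ ball v R, (u : OnePoint ℂ) ∉ P)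
    (n : ℕ) (z u₀ : ℂ) (hu₀ : u₀ ∈ ball v R) (hz : (sp x)^[n] (z : OnePoint ℂ) = u₀) :
    ∃ g : ℂ → ℂ, g u₀ = z ∧ DifferentiableOn ℂ g (ball v R) ∧ InjOn g (ball v R) ∧
      (∀ u ∈ ball v R, (sp x)^[n] (g u : OnePoint ℂ) = u) ∧
      (∀ u ∈ ball v R, g u ≠ q₂) ∧
      ∀ u ∈ ball v R, deriv ((fx x)^[n]) (g u) * deriv g u = 1 := by
  obtain ⟨g, h1, h2, h3⟩ := lift_disc h.hd x h.hx h.pc v R hD n z u₀ hu₀ hz
  refine ⟨g, OnePoint.coe_injective h1, h2, ?_, h3, ?_, ?_⟩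
  · intro u hu u' hu' he
    have e1 := h3 u hu
    rw [he, h3 u' hu'] at e1
    exact OnePoint.coe_injective e1.symm
  · intro u hu he
    apply hD u hu
    rw [← h3 u hu, he]
    exact h.pc.iter h.q2 n
  · intro u hu
    obtain ⟨h4, h5⟩ := h.fin_of_not (h3 u hu) (hD u hu)
    have h6 : HasDerivAt ((fx x)^[n]) (deriv ((fx x)^[n]) (g u)) (g u) :=
      (fx_iter_diff x (g u) n h4).hasDerivAt
    have h7 : HasDerivAt g (deriv g u) u :=
      (h2.differentiableAt (isOpen_ball.mem_nhds hu)).hasDerivAt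
    have h8 := h6.comp u h7
    have h9 : (fun u => (fx x)^[n] (g u)) =ᶠ[𝓝 u] fun u => u := by
      filter_upwards [isOpen_ball.mem_nhds hu] with u' hu'
      exact (h.fin_of_not (h3 u' hu') (hD u' hu')).2
    have h10 : HasDerivAt (fun u : ℂ => u) (deriv ((fx x)^[n]) (g u) * deriv g u) u :=
      h8.congr_of_eventuallyEq h9.symm
    exact h10.unique (hasDerivAt_id u)

end setting

end Run7.h904.RF
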