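import Mathlib
import Pool.Agent.Run7.h904.Z4Bad

set_option autoImplicit false

open Topology Filter Metric Set Polynomial MeasureTheory Asymptotics
open scoped OnePoint

namespace Run7.h904.RF

open Pool.Agent.H790R3.RB (CV hF cr ND wr rt sp pr hc pol Sink Attd HypTop)
open Pool.Agent.W757.QR Pool.Agent.W757.RF Pool.Agent.W757.Q2
open Pool.Agent.W29.RQSNK (sp_iter fin_of sp_fx sp_inf fx_iter_diff)

variable {d : ℕ} {x : CV d} {P : Set (OnePoint ℂ)} {q₂ : ℂ}

/-- the derivatives are bounded on a disc in the bad set -/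
lemma ZS.cauchy (h : ZS x P q₂) {z : ℂ} {s : ℝ} (hs : 0 < s) (hb : ball z s ⊆ Bs x) :
    ∃ C : ℝ, ∀ n : ℕ, ‖deriv ((fx x)^[n]) z‖ ≤ C := by
  obtain ⟨M, hM, hMb⟩ := h.bdd
  refine ⟨M / (s / 2), fun n => ?_⟩
  have hsub : closedBall z (s / 2) ⊆ ball z s := closedBall_subset_ball (by linarith)
  refine Complex.norm_deriv_le_of_forall_mem_sphere_norm_le (by positivity) ?_ ?_
  · refine DifferentiableOn.diffContOnCl ?_
    rw [closure_ball _ (by positivity)]
    intro w hw
    exact (fx_iter_diff x w n fun j _ => h.fin (hb (hsub hw)) j).differentiableWithinAt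
  · intro w hw
    exact hMb _ (h.orb (hb (hsub (sphere_subset_closedBall hw))) n).2

/-- a density point of the bad set has bounded derivatives at the times when it is close to a point
outside the postcritical set -/
theorem ZS.caseA (h : ZS x P q₂) (z : ℂ) (hz : z ∈ Bs x)
    (hdens : ∀ ε : ℝ, 0 < ε → ∃ s₀ : ℝ, 0 < s₀ ∧ ∀ s : ℝ, 0 < s → s < s₀ →
      volume (closedBall z s ∩ (Bs x)ᶜ) ≤ ENNReal.ofReal ε * volume (closedBall z s))
    (y : ℂ) (r : ℝ) (hr : 0 < r) (hD : ∀ u ∈ ball y (8 * r), (u : OnePoint ℂ) ∉ P) :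
    ∃ C : ℝ, ∀ n : ℕ, (fx x)^[n] z ∈ ball y r → ‖deriv ((fx x)^[n]) z‖ ≤ C := by
  by_contra hcon
  push Not at hcon
  obtain ⟨E, hE⟩ : ∃ E : Set ℂ, E = ball y r ∩ (Bs x)ᶜ := ⟨_, rfl⟩
  have hEo : IsOpen E := by rw [hE]; exact isOpen_ball.inter h.closed.isOpen_compl
  have hEm : MeasurableSet E := hEo.measurableSet
  have hEfin : volume E ≠ ⊤ := by
    refine ne_top_of_le_ne_top measure_ball_lt_top.ne (measure_mono (?_ : E ⊆ ball y r))
    rw [hE]; exact inter_subset_left
  obtain ⟨v₁, hv₁⟩ : ∃ v₁ : ℝ, v₁ = (volume (ball (0 : ℂ) 1)).toReal := ⟨_, rfl⟩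
  have hv₁0 : 0 < v₁ := by
    rw [hv₁]
    exact ENNReal.toReal_pos (measure_ball_pos volume _ one_pos).ne' measure_ball_lt_top.ne
  have hvol : ∀ s : ℝ, 0 < s → volume (closedBall z s) = ENNReal.ofReal (s ^ 2 * v₁) := by
    intro s hs
    rw [Measure.addHaar_closedBall volume z hs.le, Complex.finrank_real_complex,
      ENNReal.ofReal_mul (by positivity), hv₁, ENNReal.ofReal_toReal measure_ball_lt_top.ne]
  have hnull : volume E = 0 := by
    by_contra hne
    have hV : 0 < (volume E).toReal := ENNReal.toReal_pos hne hEfin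
    obtain ⟨V, hVd⟩ : ∃ V, V = (volume E).toReal := ⟨_, rfl⟩
    rw [← hVd] at hV
    obtain ⟨T, hT⟩ : ∃ T : ℝ, T = 4 * r ^ 2 * Real.exp 4 ^ 4 * v₁ := ⟨_, rfl⟩
    have hT0 : 0 < T := by
      rw [hT]
      have := Real.exp_pos 4
      positivity
    obtain ⟨s₀, hs₀, hs⟩ := hdens (V / (2 * T)) (by positivity)
    obtain ⟨n, hn1, hn2⟩ := hcon (2 * r * Real.exp 4 / s₀ + 1)
    have hexp := Real.exp_pos 4
    have hDn : 0 < ‖deriv ((fx x)^[n]) z‖ := by
      have : 0 ≤ 2 * r * Real.exp 4 / s₀ := by positivity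
      linarith
    obtain ⟨hn3, -⟩ := h.orb hz n
    obtain ⟨p, hp⟩ : ∃ p, p = (fx x)^[n] z := ⟨_, rfl⟩
    rw [← hp] at hn1 hn3
    have hp8 : p ∈ ball y (8 * r) := ball_subset_ball (by linarith) hn1
    obtain ⟨g, hg1, hg2, hg3, hg4, -, hg6⟩ := h.branch y (8 * r) hD n z p hp8 hn3
    have hsub4 : ball p (2 * (2 * r)) ⊆ ball y (8 * r) := by
      intro w hw
      rw [mem_ball] at hw hn1 ⊢
      linarith [dist_triangle w p y]
    have hsub2 : ball y r ⊆ ball p (2 * r) := by
      intro w hw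
      rw [mem_ball] at hw hn1 ⊢
      rw [dist_comm] at hn1
      linarith [dist_triangle w y p]
    have hdis := distort g p (2 * r) (by linarith) (hg2.mono hsub4) (hg3.mono hsub4)
    have hlip := distort_lip g p (2 * r) (by linarith) (hg2.mono hsub4) (hg3.mono hsub4)
    obtain ⟨ρ, hρ⟩ : ∃ ρ, ρ = ‖deriv g p‖ := ⟨_, rfl⟩
    rw [← hρ] at hdis hlip
    have hρD : ‖deriv ((fx x)^[n]) z‖ * ρ = 1 := by
      have h1 := hg6 p hp8
      rw [hg1] at h1
      rw [hρ, ← norm_mul, h1, norm_one]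
    have hρ0 : 0 < ρ := by
      by_contra h0
      push Not at h0
      nlinarith
    obtain ⟨s, hsd⟩ : ∃ s : ℝ, s = 2 * r * Real.exp 4 * ρ := ⟨_, rfl⟩
    have hs0 : 0 < s := by rw [hsd]; positivity
    have hss₀ : s < s₀ := by
      have h1 : 2 * r * Real.exp 4 / s₀ < ‖deriv ((fx x)^[n]) z‖ := by linarith
      rw [div_lt_iff₀ hs₀] at h1
      have h2 := mul_lt_mul_of_pos_right h1 hρ0
      rw [hsd]
      have h3 : ‖deriv ((fx x)^[n]) z‖ * s₀ * ρ = s₀ := by
        rw [mul_right_comm, hρD, one_mul]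
      linarith
    -- the image of `E`
    have himg : g '' E ⊆ closedBall z s ∩ (Bs x)ᶜ := by
      rintro _ ⟨u, hu, rfl⟩
      rw [hE] at hu
      refine ⟨?_, ?_⟩
      · rw [mem_closedBall, dist_eq_norm, ← hg1]
        have hu2 := hsub2 hu.1
        refine (hlip u hu2).trans ?_
        rw [mem_ball, dist_eq_norm] at hu2
        rw [hsd]
        calc Real.exp 4 * ρ * ‖u - p‖ ≤ Real.exp 4 * ρ * (2 * r) :=
              mul_le_mul_of_nonneg_left hu2.le (by positivity)
          _ = 2 * r * Real.exp 4 * ρ := by ring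
      · intro hgu
        apply hu.2
        have h1 := h.orb hgu n
        rw [hg4 u (hsub4 (ball_subset_ball (by linarith) (hsub2 hu.1)))] at h1
        have h2 := OnePoint.coe_injective h1.1
        rw [h2]
        exact h1.2
    have harea := area_image g E hEm (ball y (8 * r)) isOpen_ball (by
      rw [hE]
      exact inter_subset_left.trans (ball_subset_ball (by linarith))) hg2 hg3
      (Real.exp (-4) * ρ) (by positivity) (fun u hu => by
        rw [hE] at hu
        exact (hdis u (hsub2 hu.1)).1)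
    have hfin := (harea.trans (measure_mono himg)).trans (hs s hs0 hss₀)
    rw [hvol s hs0, ← ENNReal.ofReal_mul (by positivity)] at hfin
    have hEr : volume E = ENNReal.ofReal V := by rw [hVd, ENNReal.ofReal_toReal hEfin]
    rw [hEr, ← ENNReal.ofReal_mul (by positivity), ENNReal.ofReal_le_ofReal_iff (by positivity)]
      at hfin
    have he : Real.exp (-4) * Real.exp 4 = 1 := by rw [← Real.exp_add]; norm_num
    -- `(e ρ) ^ 2 V ≤ V / (2 T) * (s ^ 2 v)`
    have h1 : (Real.exp (-4) * ρ) ^ 2 * V * (Real.exp 4 ^ 2) = ρ ^ 2 * V := by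
      calc (Real.exp (-4) * ρ) ^ 2 * V * (Real.exp 4 ^ 2) =
            (Real.exp (-4) * Real.exp 4) ^ 2 * ρ ^ 2 * V := by ring
        _ = ρ ^ 2 * V := by rw [he]; ring
    have h2 : V / (2 * T) * (s ^ 2 * v₁) * (Real.exp 4 ^ 2) = ρ ^ 2 * V / 2 := by
      rw [hsd, hT]
      field_simp
      ring
    have h3 := mul_le_mul_of_nonneg_right hfin (by positivity : 0 ≤ Real.exp 4 ^ 2)
    rw [h1, h2] at h3
    have h4 : 0 < ρ ^ 2 * V := by positivity
    linarith
  have hempty : E = ∅ := (hEo.measure_eq_zero_iff volume).1 hnull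
  have hball : ball y r ⊆ Bs x := by
    intro w hw
    by_contra h0
    have : w ∈ E := by rw [hE]; exact ⟨hw, h0⟩
    rw [hempty] at this
    exact this
  -- a disc around `z` in the bad set
  obtain ⟨n, hn1, -⟩ := hcon 0
  have h1 : ∀ᶠ w in 𝓝 z, w ∈ Bs x := by
    have h2 := Pool.Agent.W29.RQAPP.ne_nhds n (x, z) (fun j _ => h.fin hz j)
    have h3 : Tendsto (fun w : ℂ => ((x, w) : CV d × ℂ)) (𝓝 z) (𝓝 (x, z)) :=
      tendsto_const_nhds.prodMk_nhds tendsto_id
    have h4 : ContinuousAt ((fx x)^[n]) z := (fx_iter_diff x z n fun j _ => h.fin hz j).continuousAt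
    filter_upwards [h3.eventually h2, h4.eventually (isOpen_ball.mem_nhds hn1)] with w h5 h6
    exact h.back (hball h6) (sp_iter x w n h5)
  obtain ⟨s, hs, hsb⟩ := Metric.eventually_nhds_iff_ball.1 h1
  obtain ⟨C, hC⟩ := h.cauchy hs (fun w hw => hsb w hw)
  obtain ⟨m, -, hm⟩ := hcon C
  linarith [hC m]

end Run7.h904.RF
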