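import Mathlib
import Pool.Agent.Run7.h904.Z5A

set_option autoImplicit false

open Topology Filter Metric Set Polynomial MeasureTheory Asymptotics
open scoped OnePoint

namespace Run7.h904.RF

open Pool.Agent.H790R3.RB (CV hF cr ND wr rt sp pr hc pol Sink Attd HypTop)
open Pool.Agent.W757.QR Pool.Agent.W757.RF Pool.Agent.W757.Q2
open Pool.Agent.W29.RQSNK (sp_iter fin_of sp_fx sp_inf fx_iter_diff)

variable {d : ℕ} {x : CV d} {P : Set (OnePoint ℂ)} {q₂ : ℂ}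

/-- inverse branches of high iterates close to the identity -/
theorem ZS.caseB (h : ZS x P q₂) (z : ℂ) (hz : z ∈ Bs x)
    (y : ℂ) (r : ℝ) (hr : 0 < r) (hD : ∀ u ∈ ball y (8 * r), (u : OnePoint ℂ) ∉ P)
    (C : ℝ) (hC : ∀ n : ℕ, (fx x)^[n] z ∈ ball y r → ‖deriv ((fx x)^[n]) z‖ ≤ C)
    (hfreq : ∀ ε : ℝ, 0 < ε → ∃ᶠ n : ℕ in atTop, (fx x)^[n] z ∈ ball y ε) :
    ∃ (m : ℕ → ℕ) (φ : ℕ → ℂ → ℂ) (ε : ℝ), 0 < ε ∧ ε ≤ r ∧ (∀ j, j ≤ m j) ∧
      ∀ j, DifferentiableOn ℂ (φ j) (ball y ε) ∧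
        (∀ u ∈ ball y ε, (sp x)^[m j] (φ j u : OnePoint ℂ) = u) ∧
        ∀ u ∈ ball y ε, ‖φ j u - u‖ ≤ 1 / ((j : ℝ) + 1) := by
  classical
  obtain ⟨C', hC'd⟩ : ∃ C' : ℝ, C' = max C 1 := ⟨_, rfl⟩
  have hC'1 : 1 ≤ C' := by rw [hC'd]; exact le_max_right _ _
  have hC'C : C ≤ C' := by rw [hC'd]; exact le_max_left _ _
  obtain ⟨δ, hδ⟩ : ∃ δ : ℝ, δ = 1 / C' := ⟨_, rfl⟩
  have hδ0 : 0 < δ := by rw [hδ]; positivity
  obtain ⟨Cu, hCu⟩ : ∃ Cu : ℝ, Cu = ‖z - q₂‖ / r + 1 := ⟨_, rfl⟩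
  have hCu0 : 0 < Cu := by rw [hCu]; positivity
  obtain ⟨s₁, hs₁⟩ : ∃ s₁ : ℝ, s₁ = r * δ / 2 := ⟨_, rfl⟩
  have hs₁0 : 0 < s₁ := by rw [hs₁]; positivity
  -- the branches
  have hbr : ∀ n : ℕ, ∃ g : ℂ → ℂ, (fx x)^[n] z ∈ ball y r → g ((fx x)^[n] z) = z ∧
      DifferentiableOn ℂ g (ball y (8 * r)) ∧ InjOn g (ball y (8 * r)) ∧
      (∀ u ∈ ball y (8 * r), (sp x)^[n] (g u : OnePoint ℂ) = u) ∧
      (∀ u ∈ ball y (8 * r), g u ≠ q₂) ∧
      ∀ u ∈ ball y (8 * r), deriv ((fx x)^[n]) (g u) * deriv g u = 1 := by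
    intro n
    by_cases hn : (fx x)^[n] z ∈ ball y r
    · obtain ⟨g, hg⟩ := h.branch y (8 * r) hD n z _ (ball_subset_ball (by linarith) hn) (h.orb hz n).1
      exact ⟨g, fun _ => hg⟩
    · exact ⟨id, fun h => absurd h hn⟩
  choose g hg using hbr
  have hsub4 : ∀ n : ℕ, (fx x)^[n] z ∈ ball y r →
      ball ((fx x)^[n] z) (2 * (2 * r)) ⊆ ball y (8 * r) := by
    intro n hn w hw
    rw [mem_ball] at hw hn ⊢
    linarith [dist_triangle w ((fx x)^[n] z) y]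
  have hsub2 : ∀ n : ℕ, (fx x)^[n] z ∈ ball y r →
      ball ((fx x)^[n] z) (2 * r) ⊆ ball y (3 * r) := by
    intro n hn w hw
    rw [mem_ball] at hw hn ⊢
    linarith [dist_triangle w ((fx x)^[n] z) y]
  have hρl : ∀ n : ℕ, (fx x)^[n] z ∈ ball y r → δ ≤ ‖deriv (g n) ((fx x)^[n] z)‖ := by
    intro n hn
    obtain ⟨g1, g2, g3, g4, g5, g6⟩ := hg n hn
    have h1 := g6 _ (ball_subset_ball (by linarith) hn)
    rw [g1] at h1
    have h2 := congrArg norm h1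
    rw [norm_mul, norm_one] at h2
    have h3 := (hC n hn).trans hC'C
    rw [hδ, div_le_iff₀ (by linarith)]
    nlinarith [norm_nonneg (deriv (g n) ((fx x)^[n] z))]
  have hρu : ∀ n : ℕ, (fx x)^[n] z ∈ ball y r → ‖deriv (g n) ((fx x)^[n] z)‖ ≤ Cu := by
    intro n hn
    obtain ⟨g1, g2, g3, g4, g5, g6⟩ := hg n hn
    have h1 := Run7.h102.kb_omit (Z := g n) (p := (fx x)^[n] z) (A := 2 * (2 * r)) (by positivity)
      (g2.mono (hsub4 n hn)) (g3.mono (hsub4 n hn)) (u := q₂) (fun w hw => g5 w (hsub4 n hn hw))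
    rw [g1] at h1
    rw [hCu]
    have h2 : ‖deriv (g n) ((fx x)^[n] z)‖ ≤ ‖z - q₂‖ / r := by
      rw [le_div_iff₀ hr]
      linarith
    linarith
  -- the forward maps near `z`
  have hfor : ∀ n : ℕ, (fx x)^[n] z ∈ ball y r → ∀ w ∈ ball z s₁,
      (∀ j < n, (de x).eval ((fx x)^[j] w) ≠ 0) ∧ (fx x)^[n] w ∈ ball y (3 * r) := by
    intro n hn w hw
    obtain ⟨g1, g2, g3, g4, g5, g6⟩ := hg n hn
    have hs2 : ball ((fx x)^[n] z) (2 * r) ⊆ ball y (8 * r) :=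
      (hsub2 n hn).trans (ball_subset_ball (by linarith))
    have h1 : ∃ u ∈ ball ((fx x)^[n] z) (2 * r), g n u = w := by
      by_contra hcon
      push Not at hcon
      have h2 := Run7.h102.kb_omit (Z := g n) (p := (fx x)^[n] z) (A := 2 * r) (by positivity)
        (g2.mono hs2) (g3.mono hs2) (u := w) hcon
      rw [g1] at h2
      have h3 := hρl n hn
      rw [mem_ball, dist_comm, dist_eq_norm, hs₁] at hw
      nlinarith
    obtain ⟨u, hu, rfl⟩ := h1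
    obtain ⟨h2, h3⟩ := h.fin_of_not (g4 u (hs2 hu)) (hD u (hs2 hu))
    refine ⟨h2, ?_⟩
    rw [h3]
    exact hsub2 n hn hu
  obtain ⟨Λ, hΛ⟩ : ∃ Λ : ℝ, Λ = (‖y‖ + 3 * r) / (s₁ / 4) := ⟨_, rfl⟩
  have hΛ0 : 0 < Λ := by rw [hΛ]; positivity
  have hlipf : ∀ n : ℕ, (fx x)^[n] z ∈ ball y r → ∀ w ∈ ball z (s₁ / 2), ∀ w' ∈ ball z (s₁ / 2),
      ‖(fx x)^[n] w' - (fx x)^[n] w‖ ≤ Λ * ‖w' - w‖ := by
    intro n hn w hw w' hw'
    refine (convex_ball z (s₁ / 2)).norm_image_sub_le_of_norm_deriv_le (𝕜 := ℂ) (f := (fx x)^[n])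
      ?_ ?_ hw hw'
    · intro v hv
      exact fx_iter_diff x v n (hfor n hn v (ball_subset_ball (by linarith) hv)).1
    · intro v hv
      have hsubv : closedBall v (s₁ / 4) ⊆ ball z s₁ := by
        intro t ht
        rw [mem_closedBall] at ht
        rw [mem_ball] at hv ⊢
        linarith [dist_triangle t v z]
      rw [hΛ]
      refine Complex.norm_deriv_le_of_forall_mem_sphere_norm_le (by positivity) ?_ ?_
      · refine DifferentiableOn.diffContOnCl ?_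
        rw [closure_ball _ (by positivity)]
        intro t ht
        exact (fx_iter_diff x t n (hfor n hn t (hsubv ht)).1).differentiableWithinAt
      · intro t ht
        have h1 := (hfor n hn t (hsubv (sphere_subset_closedBall ht))).2
        rw [mem_ball, dist_eq_norm] at h1
        have h2 := norm_add_le ((fx x)^[n] t - y) y
        rw [sub_add_cancel] at h2
        linarith
  obtain ⟨ε₀, hε₀⟩ : ∃ ε₀ : ℝ, ε₀ = min r (s₁ / (8 * (Real.exp 4 * Cu))) := ⟨_, rfl⟩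
  have hexp := Real.exp_pos 4
  have hε₀0 : 0 < ε₀ := by rw [hε₀]; exact lt_min hr (by positivity)
  have hε₀r : ε₀ ≤ r := by rw [hε₀]; exact min_le_left _ _
  have hε₀s : Real.exp 4 * Cu * (2 * ε₀) ≤ s₁ / 4 := by
    have h1 : ε₀ ≤ s₁ / (8 * (Real.exp 4 * Cu)) := by rw [hε₀]; exact min_le_right _ _
    rw [le_div_iff₀ (by positivity)] at h1
    linarith
  have hgs : ∀ n : ℕ, (fx x)^[n] z ∈ ball y ε₀ → ∀ u ∈ ball y ε₀, g n u ∈ ball z (s₁ / 2) := by
    intro n hn u hu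
    have hnr := ball_subset_ball hε₀r hn
    obtain ⟨g1, g2, g3, g4, g5, g6⟩ := hg n hnr
    have hup : u ∈ ball ((fx x)^[n] z) (2 * ε₀) := by
      rw [mem_ball] at hu hn ⊢
      rw [dist_comm] at hn
      linarith [dist_triangle u y ((fx x)^[n] z)]
    have h1 := distort_lip (g n) ((fx x)^[n] z) (2 * r) (by linarith) (g2.mono (hsub4 n hnr))
      (g3.mono (hsub4 n hnr)) u (ball_subset_ball (by linarith) hup)
    rw [g1] at h1
    rw [mem_ball, dist_eq_norm] at hup ⊢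
    have h2 : Real.exp 4 * ‖deriv (g n) ((fx x)^[n] z)‖ * ‖u - (fx x)^[n] z‖ ≤
        Real.exp 4 * Cu * (2 * ε₀) := by
      refine mul_le_mul ?_ hup.le (norm_nonneg _) (by positivity)
      exact mul_le_mul_of_nonneg_left (hρu n hnr) hexp.le
    linarith
  -- normality
  obtain ⟨I, hI⟩ : ∃ I : Set ℕ, I = {n | (fx x)^[n] z ∈ ball y ε₀} := ⟨_, rfl⟩
  have hne : (atTop ⊓ 𝓟 I : Filter ℕ).NeBot := by
    have := hfreq ε₀ hε₀0
    rw [hI, ← frequently_mem_iff_neBot]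
    exact this
  obtain ⟨𝒰, h𝒰⟩ : ∃ 𝒰 : Ultrafilter ℕ, (𝒰 : Filter ℕ) ≤ atTop ⊓ 𝓟 I :=
    ⟨Ultrafilter.of _, Ultrafilter.of_le _⟩
  obtain ⟨F, hF⟩ : ∃ F : ℕ → ℂ → ℂ, F = fun n => if n ∈ I then g n else fun _ => 0 := ⟨_, rfl⟩
  have hFI : ∀ n ∈ I, F n = g n := by
    intro n hn
    rw [hF]
    simp only [hn, if_true]
  have hFd : ∀ n, DifferentiableOn ℂ (F n) (ball y ε₀) := by
    intro n
    by_cases hn : n ∈ I
    · rw [hFI n hn]
      rw [hI] at hn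
      exact (hg n (ball_subset_ball hε₀r hn)).2.1.mono (ball_subset_ball (by linarith))
    · rw [hF]
      simp only [hn, if_false]
      exact differentiableOn_const 0
  have hFb : ∀ n, ∀ u ∈ ball y ε₀, ‖F n u‖ ≤ ‖z‖ + s₁ := by
    intro n u hu
    by_cases hn : n ∈ I
    · rw [hFI n hn]
      rw [hI] at hn
      have h1 := hgs n hn u hu
      rw [mem_ball, dist_eq_norm] at h1
      have h2 := norm_add_le (g n u - z) z
      rw [sub_add_cancel] at h2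
      linarith
    · rw [hF]
      simp only [hn, if_false, norm_zero]
      positivity
  obtain ⟨Φ, -, hΦ⟩ := Pool.Agent.Helper114.Montel.montel isOpen_ball F hFd _ hFb 𝒰
  have hunif := (tendstoLocallyUniformlyOn_iff_forall_isCompact isOpen_ball).1 hΦ
    (closedBall y (ε₀ / 2)) (closedBall_subset_ball (by linarith)) (isCompact_closedBall _ _)
  rw [Metric.tendstoUniformlyOn_iff] at hunif
  have hpair : ∀ j : ℕ, ∃ k l : ℕ, k ∈ I ∧ l ∈ I ∧ k + j ≤ l ∧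
      ∀ u ∈ closedBall y (ε₀ / 2), ‖g l u - g k u‖ ≤ 1 / (Λ * (j + 1)) := by
    intro j
    have hη : 0 < 1 / (2 * (Λ * ((j : ℝ) + 1))) := by positivity
    have h1 := hunif _ hη
    have h2 : ∀ᶠ n in (𝒰 : Filter ℕ), n ∈ I := by
      have : (𝒰 : Filter ℕ) ≤ 𝓟 I := h𝒰.trans inf_le_right
      exact this (mem_principal_self I)
    obtain ⟨k, hk1, hk2⟩ := (h1.and h2).exists
    have h3 : ∀ᶠ n in (𝒰 : Filter ℕ), k + j ≤ n :=
      (h𝒰.trans inf_le_left) (eventually_ge_atTop (k + j))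
    obtain ⟨l, ⟨hl1, hl2⟩, hl3⟩ := ((h1.and h2).and h3).exists
    refine ⟨k, l, hk2, hl2, hl3, fun u hu => ?_⟩
    have e1 := hk1 u hu
    have e2 := hl1 u hu
    rw [hFI k hk2] at e1
    rw [hFI l hl2] at e2
    rw [← dist_eq_norm]
    have e3 := dist_triangle_left (g l u) (g k u) (Φ u)
    have e4 : 1 / (Λ * ((j : ℝ) + 1)) = 1 / (2 * (Λ * ((j : ℝ) + 1))) +
        1 / (2 * (Λ * ((j : ℝ) + 1))) := by
      field_simp
      ring
    rw [e4]
    linarith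
  choose k l hk hl hkl hest using hpair
  have hsubε : ball y (ε₀ / 2) ⊆ ball y ε₀ := ball_subset_ball (by linarith)
  refine ⟨fun j => l j - k j, fun j u => (fx x)^[k j] (g (l j) u), ε₀ / 2, by positivity,
    by linarith, fun j => Nat.le_sub_of_add_le (by have := hkl j; omega), fun j => ?_⟩
  have hkI := hk j
  have hlI := hl j
  rw [hI] at hkI hlI
  have hkr := ball_subset_ball hε₀r hkI
  have hlr := ball_subset_ball hε₀r hlI
  obtain ⟨g1, g2, g3, g4, g5, g6⟩ := hg (l j) hlr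
  obtain ⟨k1, k2, k3, k4, k5, k6⟩ := hg (k j) hkr
  have hpl : ∀ u ∈ ball y (ε₀ / 2), g (l j) u ∈ ball z s₁ := fun u hu =>
    ball_subset_ball (by linarith) (hgs _ hlI u (hsubε hu))
  have h8 : ball y ε₀ ⊆ ball y (8 * r) := ball_subset_ball (by linarith)
  refine ⟨?_, ?_, ?_⟩
  · intro u hu
    have h1 : DifferentiableAt ℂ ((fx x)^[k j]) (g (l j) u) :=
      fx_iter_diff x _ _ (hfor (k j) hkr _ (hpl u hu)).1
    have h2 : DifferentiableAt ℂ (g (l j)) u :=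
      g2.differentiableAt (isOpen_ball.mem_nhds (h8 (hsubε hu)))
    exact (h1.comp u h2).differentiableWithinAt
  · intro u hu
    have h1 := sp_iter x (g (l j) u) (k j) (hfor (k j) hkr _ (hpl u hu)).1
    simp only
    rw [← h1, ← Function.iterate_add_apply]
    have e : l j - k j + k j = l j := by have := hkl j; omega
    rw [e]
    exact g4 u (h8 (hsubε hu))
  · intro u hu
    have h1 : (fx x)^[k j] (g (k j) u) = u :=
      (h.fin_of_not (k4 u (h8 (hsubε hu))) (hD u (h8 (hsubε hu)))).2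
    simp only
    conv_lhs => rw [← h1]
    have h1' : (fx x)^[k j] (g (l j) ((fx x)^[k j] (g (k j) u))) = (fx x)^[k j] (g (l j) u) := by
      rw [h1]
    rw [h1']
    have h2 := hlipf (k j) hkr (g (k j) u) (hgs _ hkI u (hsubε hu)) (g (l j) u)
      (hgs _ hlI u (hsubε hu))
    refine h2.trans ?_
    have h3 := mul_le_mul_of_nonneg_left (hest j u (ball_subset_closedBall hu)) hΛ0.le
    refine h3.trans (le_of_eq ?_)
    field_simp

end Run7.h904.RF
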