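import Mathlib
import Pool.Agent.Run7.h904.Z7Cont

set_option autoImplicit false

open Topology Filter Metric Set Polynomial MeasureTheory Asymptotics
open scoped OnePoint

namespace Run7.h904.RF

open Pool.Agent.H790R3.RB (CV hF cr ND wr rt sp pr hc pol Sink Attd HypTop)
open Pool.Agent.W757.QR Pool.Agent.W757.RF Pool.Agent.W757.Q2
open Pool.Agent.W29.RQSNK (sp_iter fin_of sp_fx sp_inf fx_iter_diff)

/-- an orbit which accumulates only on a finite invariant set converges to a cycle -/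
lemma fin_attr {f : OnePoint ℂ → OnePoint ℂ} (hf : Continuous f) (A : Set (OnePoint ℂ))
    (hA : A.Finite) (hfA : ∀ a ∈ A, f a ∈ A) (z : OnePoint ℂ)
    (h : ∀ O : Set (OnePoint ℂ), IsOpen O → A ⊆ O → ∀ᶠ n : ℕ in atTop, f^[n] z ∈ O) :
    ∃ a ∈ A, ∃ p N : ℕ, 0 < p ∧ f^[p] a = a ∧
      Tendsto (fun k : ℕ => f^[p * k] (f^[N] z)) atTop (𝓝 a) := by
  obtain ⟨U, hU, hUd⟩ := hA.t2_separation
  have hO : IsOpen (⋃ a ∈ A, U a ∩ f ⁻¹' U (f a)) :=
    isOpen_biUnion fun a _ => (hU a).2.inter ((hU (f a)).2.preimage hf)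
  have hAO : A ⊆ ⋃ a ∈ A, U a ∩ f ⁻¹' U (f a) := fun a ha =>
    mem_biUnion ha ⟨(hU a).1, (hU (f a)).1⟩
  obtain ⟨N₀, hN₀⟩ := (h _ hO hAO).exists_forall_of_atTop
  have h1 : ∀ n : ℕ, ∃ a, N₀ ≤ n → a ∈ A ∧ f^[n] z ∈ U a ∧ f^[n + 1] z ∈ U (f a) := by
    intro n
    by_cases hn : N₀ ≤ n
    · obtain ⟨a, ha, h2, h3⟩ := mem_iUnion₂.1 (hN₀ n hn)
      refine ⟨a, fun _ => ⟨ha, h2, ?_⟩⟩
      rw [Function.iterate_succ_apply']
      exact h3
    · exact ⟨z, fun h => absurd h hn⟩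
  choose α hα using h1
  have hdisj : ∀ a ∈ A, ∀ b ∈ A, ∀ w, w ∈ U a → w ∈ U b → a = b := by
    intro a ha b hb w hwa hwb
    by_contra hne
    exact (disjoint_left.1 (hUd ha hb hne)) hwa hwb
  have hstep : ∀ n, N₀ ≤ n → α (n + 1) = f (α n) := by
    intro n hn
    obtain ⟨a1, a2, a3⟩ := hα n hn
    obtain ⟨b1, b2, -⟩ := hα (n + 1) (by omega)
    exact hdisj _ b1 _ (hfA _ a1) _ b2 a3
  have hαk : ∀ k, α (N₀ + k) = f^[k] (α N₀) := by
    intro k
    induction k with
    | zero => rfl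
    | succ k ih =>
      have e : N₀ + (k + 1) = N₀ + k + 1 := by omega
      rw [e, hstep _ (by omega), ih, Function.iterate_succ_apply']
  have hαA : ∀ k, f^[k] (α N₀) ∈ A := by
    intro k
    rw [← hαk]
    exact (hα _ (by omega)).1
  obtain ⟨i, j, hij, hfij⟩ : ∃ i j : ℕ, i < j ∧ f^[i] (α N₀) = f^[j] (α N₀) := by
    have h2 : ¬ Function.Injective (fun k : ℕ => (⟨f^[k] (α N₀), hαA k⟩ : A)) := by
      intro hinj
      have := hA.to_subtype
      exact not_injective_infinite_finite _ hinj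
    rw [Function.Injective] at h2
    push Not at h2
    obtain ⟨i, j, h3, h4⟩ := h2
    have h5 := congrArg Subtype.val h3
    rcases lt_or_gt_of_ne h4 with h6 | h6
    · exact ⟨i, j, h6, h5⟩
    · exact ⟨j, i, h6, h5.symm⟩
  obtain ⟨p, hp⟩ : ∃ p, p = j - i := ⟨_, rfl⟩
  have hp0 : 0 < p := by omega
  obtain ⟨a, ha⟩ : ∃ a, a = f^[i] (α N₀) := ⟨_, rfl⟩
  have hpa : f^[p] a = a := by
    rw [ha, ← Function.iterate_add_apply, hp, Nat.sub_add_cancel hij.le, ← hfij]
  have haA : a ∈ A := by rw [ha]; exact hαA i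
  have hpk : ∀ k, f^[p * k] a = a := by
    intro k
    rw [Function.iterate_mul]
    exact Function.iterate_fixed hpa k
  refine ⟨a, haA, p, N₀ + i, hp0, hpa, ?_⟩
  rw [tendsto_iff_forall_eventually_mem]
  intro V hV
  obtain ⟨V', hV', hV'o, haV'⟩ := mem_nhds_iff.1 hV
  have hO2 : IsOpen (V' ∪ ⋃ b ∈ A \ {a}, U b) :=
    hV'o.union (isOpen_biUnion fun b _ => (hU b).2)
  have hAO2 : A ⊆ V' ∪ ⋃ b ∈ A \ {a}, U b := by
    intro b hb
    by_cases hba : b = a
    · left; rw [hba]; exact haV'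
    · right; exact mem_biUnion ⟨hb, hba⟩ (hU b).1
  obtain ⟨N₁, hN₁⟩ := (h _ hO2 hAO2).exists_forall_of_atTop
  filter_upwards [eventually_ge_atTop N₁] with k hk
  have h3 : N₁ ≤ p * k + (N₀ + i) := by
    have : k ≤ p * k := Nat.le_mul_of_pos_left _ hp0
    omega
  have h4 := hN₁ _ h3
  rw [Function.iterate_add_apply] at h4
  rcases h4 with h4 | h4
  · exact hV' h4
  · exfalso
    obtain ⟨b, ⟨hb, hba⟩, hbU⟩ := mem_iUnion₂.1 h4
    have h5 := (hα (p * k + (N₀ + i)) (by omega)).2.1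
    have e : p * k + (N₀ + i) = N₀ + (p * k + i) := by omega
    rw [Function.iterate_add_apply, e, hαk, Function.iterate_add_apply, ← ha, hpk] at h5
    exact hba (hdisj _ hb _ haA _ hbU h5)

/-- change of the period -/
lemma tends_mul {f : OnePoint ℂ → OnePoint ℂ} (hf : Continuous f) {w b : OnePoint ℂ} {N n : ℕ}
    (hN : 0 < N) (hn : 0 < n) (hb : f^[n] b = b)
    (h : Tendsto (fun k : ℕ => f^[N * k] w) atTop (𝓝 b)) :
    Tendsto (fun k : ℕ => f^[n * k] w) atTop (𝓝 b) := by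
  have hNb : f^[N] b = b := by
    have h1 : Tendsto (fun k : ℕ => f^[N] (f^[N * k] w)) atTop (𝓝 (f^[N] b)) :=
      ((hf.iterate N).tendsto b).comp h
    have h2 := (tendsto_add_atTop_iff_nat (f := fun k : ℕ => f^[N * k] w) 1).2 h
    refine tendsto_nhds_unique (h1.congr fun k => ?_) h2
    rw [← Function.iterate_add_apply]
    congr 1
    ring
  rw [tendsto_iff_forall_eventually_mem]
  intro V hV
  have h1 : ∀ i ∈ Finset.range N, f^[i] b = b → ∀ᶠ k : ℕ in atTop, f^[i] (f^[N * k] w) ∈ V := by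
    intro i _ hi
    have h2 : Tendsto (fun k : ℕ => f^[i] (f^[N * k] w)) atTop (𝓝 (f^[i] b)) :=
      ((hf.iterate i).tendsto b).comp h
    rw [hi] at h2
    exact h2.eventually hV
  have h2 : ∀ᶠ k : ℕ in atTop, ∀ i ∈ Finset.range N, f^[i] b = b → f^[i] (f^[N * k] w) ∈ V := by
    rw [Finset.eventually_all]
    intro i hi
    by_cases hib : f^[i] b = b
    · filter_upwards [h1 i hi hib] with k hk _
      exact hk
    · exact Eventually.of_forall fun k hk => absurd hk hib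
  obtain ⟨k₀, hk₀⟩ := h2.exists_forall_of_atTop
  filter_upwards [eventually_ge_atTop (N * k₀)] with k hk
  have h3 : k ≤ n * k := Nat.le_mul_of_pos_left _ hn
  obtain ⟨s, hs⟩ : ∃ s, s = n * k := ⟨_, rfl⟩
  have h4 : f^[s % N] b = b := by
    have h5 : f^[s] b = b := by
      rw [hs, Function.iterate_mul]
      exact Function.iterate_fixed hb k
    conv_lhs at h5 => rw [← Nat.mod_add_div s N, Function.iterate_add_apply, Function.iterate_mul,
      Function.iterate_fixed hNb]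
    exact h5
  have h6 := hk₀ (s / N) ((Nat.le_div_iff_mul_le hN).2 (by rw [mul_comm]; omega)) (s % N)
    (Finset.mem_range.2 (Nat.mod_lt _ hN)) h4
  rw [← Function.iterate_add_apply, Nat.mod_add_div, hs] at h6
  exact h6

/-- an orbit can only converge to a repelling point by landing on it -/
lemma rep_land {f : OnePoint ℂ → OnePoint ℂ} {p : ℕ} {b w : OnePoint ℂ} (hb : RepS f p b)
    (h : Tendsto (fun k : ℕ => f^[p * k] w) atTop (𝓝 b)) : ∃ k : ℕ, f^[p * k] w = b := by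
  obtain ⟨hp, lam, g, hlam, g0, gd, ge⟩ := hb
  by_contra hcon
  push Not at hcon
  obtain ⟨q, hq1, hq2⟩ := exists_between hlam
  have h1 : ∀ᶠ v in 𝓝 (0 : ℂ), q * ‖v‖ ≤ ‖g v‖ := by
    have h2 := gd.isLittleO.def (show 0 < ‖lam‖ - q by linarith)
    filter_upwards [h2] with v hv
    rw [g0, sub_zero, sub_zero, smul_eq_mul] at hv
    have h3 := norm_sub_le (g v) (g v - v * lam)
    rw [sub_sub_cancel, norm_mul] at h3
    nlinarith [norm_nonneg v]
  obtain ⟨r, hr, hball⟩ := Metric.eventually_nhds_iff_ball.1 (h1.and ge)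
  have hU : chart b '' ball 0 r ∈ 𝓝 b := chart_nhds b (ball_mem_nhds (0 : ℂ) hr)
  obtain ⟨K, hK⟩ := (h.eventually hU).exists_forall_of_atTop
  choose! v hv1 hv2 using hK
  have hv0 : v K ≠ 0 := by
    intro h0
    apply hcon K
    rw [← hv2 K le_rfl, h0, chart_zero]
  have hgrow : ∀ j : ℕ, q ^ j * ‖v K‖ ≤ ‖v (K + j)‖ := by
    intro j
    induction j with
    | zero => simp
    | succ j ih =>
      have h2 := hball _ (hv1 (K + j) (by omega))
      have h3 : v (K + (j + 1)) = g (v (K + j)) := by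
        apply chart_inj b
        rw [hv2 _ (by omega), ← h2.2, hv2 _ (by omega), ← Function.iterate_add_apply]
        congr 1
        ring
      rw [h3, pow_succ']
      have h4 := h2.1
      have h5 := mul_le_mul_of_nonneg_left ih (by linarith : 0 ≤ q)
      linarith
  have hv0' : 0 < ‖v K‖ := norm_pos_iff.2 hv0
  obtain ⟨j, hj⟩ := pow_unbounded_of_one_lt (r / ‖v K‖) hq1
  rw [div_lt_iff₀ hv0'] at hj
  have h2 := hv1 (K + j) (by omega)
  rw [mem_ball, dist_zero_right] at h2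
  linarith [hgrow j]

end Run7.h904.RF
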