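import Mathlib
import Pool.Agent.Run7.h904.Z8Om

set_option autoImplicit false

open Topology Filter Metric Set Polynomial MeasureTheory Asymptotics
open scoped OnePoint

namespace Run7.h904.RF

open Pool.Agent.H790R3.RB (CV hF cr ND wr rt sp pr hc pol Sink Attd HypTop)
open Pool.Agent.W757.QR Pool.Agent.W757.RF Pool.Agent.W757.Q2
open Pool.Agent.W29.RQSNK (sp_iter fin_of sp_fx sp_inf fx_iter_diff)

/-- repelling or parabolic points -/
def Bp {d : ℕ} (x : CV d) (b : OnePoint ℂ) : Prop :=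
  (∃ p, RepS (sp x) p b) ∨ ∃ p q, ParS (sp x) p q b

/-- the closure of an orbit converging to a cycle -/
lemma orbit_closure {f : OnePoint ℂ → OnePoint ℂ} (hf : Continuous f) {n : ℕ} (hn : 0 < n)
    {a c : OnePoint ℂ} (ha : f^[n] a = a) (h : Tendsto (fun k : ℕ => f^[n * k] c) atTop (𝓝 a))
    (K : Set (OnePoint ℂ)) (hK : K = ⋃ i ∈ Finset.range n,
      insert (f^[i] a) (range fun k : ℕ => f^[i] (f^[n * k] c))) :
    IsClosed K ∧ K.Countable ∧ c ∈ K ∧ ∀ z ∈ K, f z ∈ K := by
  refine ⟨?_, ?_, ?_, ?_⟩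
  · rw [hK]
    refine IsCompact.isClosed ?_
    refine (Finset.range n).isCompact_biUnion fun i _ => ?_
    have h1 : Tendsto (fun k : ℕ => f^[i] (f^[n * k] c)) atTop (𝓝 (f^[i] a)) :=
      ((hf.iterate i).tendsto a).comp h
    exact h1.isCompact_insert_range
  · rw [hK]
    exact (Finset.range n).countable_toSet.biUnion fun i _ => (countable_range _).insert _
  · rw [hK]
    exact mem_biUnion (Finset.mem_coe.2 (Finset.mem_range.2 hn)) (mem_insert_of_mem _ ⟨0, rfl⟩)
  · intro z hz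
    rw [hK] at hz ⊢
    obtain ⟨i, hi, hz⟩ := mem_iUnion₂.1 hz
    rw [Finset.mem_range] at hi
    rcases hz with rfl | ⟨k, rfl⟩
    · rw [← Function.iterate_succ_apply' f]
      rcases Nat.lt_or_ge (i + 1) n with h1 | h1
      · exact mem_biUnion (Finset.mem_coe.2 (Finset.mem_range.2 h1)) (mem_insert _ _)
      · have e : i.succ = n := by omega
        rw [e, ha]
        exact mem_biUnion (Finset.mem_coe.2 (Finset.mem_range.2 hn)) (mem_insert _ _)
    · simp only
      rw [← Function.iterate_succ_apply' f]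
      rcases Nat.lt_or_ge (i + 1) n with h1 | h1
      · exact mem_biUnion (Finset.mem_coe.2 (Finset.mem_range.2 h1)) (mem_insert_of_mem _ ⟨k, rfl⟩)
      · refine mem_biUnion (Finset.mem_coe.2 (Finset.mem_range.2 hn))
          (mem_insert_of_mem _ ⟨k + 1, ?_⟩)
        have e : i.succ = n := by omega
        simp only [Function.iterate_zero_apply]
        rw [e, ← Function.iterate_add_apply]
        congr 1
        ring

/-- the closures of the orbits in question -/
lemma exists_K {d : ℕ} (hd : 2 ≤ d) (x : CV d) (hx : ND x) (c : OnePoint ℂ)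
    (hc : Gd x c ∨ PreP (sp x) c) : ∃ K A : Set (OnePoint ℂ), IsClosed K ∧ K.Countable ∧ c ∈ K ∧
      (∀ z ∈ K, sp x z ∈ K) ∧ A.Finite ∧
      ∀ w ∈ K, ¬ GdE x w → w ∈ A ∧ ∃ s b, Bp x b ∧ (sp x)^[s] w = b := by
  have hcont := sp_cont hd x hx
  rcases hc with (⟨n, a, hs, hlim⟩ | ⟨a, p, q, hpar, hlim, hne⟩) | ⟨M, p, hrep⟩
  · -- sink
    obtain ⟨h1, h2, h3, h4⟩ := orbit_closure hcont hs.1 hs.2.1 hlim _ rfl
    refine ⟨_, ∅, h1, h2, h3, h4, finite_empty, ?_⟩
    intro w hw hbad
    exfalso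
    apply hbad
    have hga : GdE x a := by
      refine gdE_of (Or.inl ⟨n, a, hs, ?_⟩)
      have : ∀ k : ℕ, (sp x)^[n * k] a = a := by
        intro k
        rw [Function.iterate_mul]
        exact Function.iterate_fixed hs.2.1 k
      simp only [this]
      exact tendsto_const_nhds
    have hgc : GdE x c := gdE_of (Or.inl ⟨n, a, hs, hlim⟩)
    obtain ⟨i, -, hw⟩ := mem_iUnion₂.1 hw
    rcases hw with rfl | ⟨k, rfl⟩
    · exact gdE_fwn hga i
    · exact gdE_fwn (gdE_fwn hgc _) i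
  · -- parabolic
    have hpa : (sp x)^[p] a = a := by
      obtain ⟨-, -, -, lam, g, -, g0, -, ge⟩ := hpar
      have h1 := ge.self_of_nhds
      rwa [g0, chart_zero] at h1
    have hpq : (sp x)^[p * q] a = a := by
      rw [Function.iterate_mul]
      exact Function.iterate_fixed hpa q
    have hpq0 : 0 < p * q := Nat.mul_pos hpar.1 hpar.2.1
    obtain ⟨h1, h2, h3, h4⟩ := orbit_closure hcont hpq0 hpq hlim _ rfl
    have hgc : GdE x c := gdE_of (Or.inr ⟨a, p, q, hpar, hlim, hne⟩)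
    refine ⟨_, (fun i : ℕ => (sp x)^[i] a) '' (Finset.range (p * q) : Set ℕ), h1, h2, h3, h4,
      (Finset.finite_toSet _).image _, ?_⟩
    intro w hw hbad
    obtain ⟨i, hi, hw⟩ := mem_iUnion₂.1 hw
    rcases hw with rfl | ⟨k, rfl⟩
    · refine ⟨⟨i, hi, rfl⟩, p * q - i, a, Or.inr ⟨p, q, hpar⟩, ?_⟩
      rw [← Function.iterate_add_apply, Nat.sub_add_cancel (Finset.mem_range.1 hi).le, hpq]
    · exact absurd (gdE_fwn (gdE_fwn hgc _) i) hbad
  · -- preperiodic
    have hpb : (sp x)^[p] ((sp x)^[M] c) = (sp x)^[M] c := by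
      obtain ⟨-, lam, g, -, g0, -, ge⟩ := hrep
      have h1 := ge.self_of_nhds
      rwa [g0, chart_zero] at h1
    have hp0 : 0 < p := hrep.1
    have hpl : ∀ L : ℕ, (sp x)^[p * L + M] c = (sp x)^[M] c := by
      intro L
      rw [Function.iterate_add_apply, Function.iterate_mul]
      exact Function.iterate_fixed hpb L
    have hconst : ∀ k : ℕ, M ≤ k → (sp x)^[p * k] c = (sp x)^[p * M] c := by
      intro k hk
      have h1 : M ≤ p * M := Nat.le_mul_of_pos_left _ hp0
      obtain ⟨j, rfl⟩ : ∃ j, k = M + j := ⟨k - M, by omega⟩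
      have e1 : p * (M + j) = (p * M - M) + (p * j + M) := by
        rw [mul_add]; omega
      have e2 : p * M = (p * M - M) + M := by omega
      rw [e1, Function.iterate_add_apply, hpl]
      conv_rhs => rw [e2, Function.iterate_add_apply]
    have hlim : Tendsto (fun k : ℕ => (sp x)^[p * k] c) atTop (𝓝 ((sp x)^[p * M] c)) := by
      refine tendsto_const_nhds.congr' ?_
      filter_upwards [eventually_ge_atTop M] with k hk
      exact (hconst k hk).symm
    have ha : (sp x)^[p] ((sp x)^[p * M] c) = (sp x)^[p * M] c := by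
      rw [← Function.iterate_add_apply]
      have e : p + p * M = p * (M + 1) := by ring
      rw [e]
      exact hconst (M + 1) (by omega)
    obtain ⟨h1, h2, h3, h4⟩ := orbit_closure hcont hp0 ha hlim _ rfl
    have hfinset : ∀ w ∈ ⋃ i ∈ Finset.range p, insert ((sp x)^[i] ((sp x)^[p * M] c))
        (range fun k : ℕ => (sp x)^[i] ((sp x)^[p * k] c)),
        ∃ m ∈ (Finset.range (p * M + p) : Set ℕ), (sp x)^[m] c = w := by
      intro w hw
      obtain ⟨i, hi, hw⟩ := mem_iUnion₂.1 hw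
      rw [Finset.mem_range] at hi
      have key : ∀ k : ℕ, k ≤ M → ∃ m ∈ (Finset.range (p * M + p) : Set ℕ),
          (sp x)^[m] c = (sp x)^[i] ((sp x)^[p * k] c) := by
        intro k hk
        refine ⟨i + p * k, ?_, Function.iterate_add_apply _ _ _ _⟩
        rw [Finset.mem_coe, Finset.mem_range]
        have := Nat.mul_le_mul_left p hk
        omega
      rcases hw with rfl | ⟨k, rfl⟩
      · exact key M le_rfl
      · rcases le_total k M with hk | hk
        · exact key k hk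
        · simp only
          rw [hconst k hk]
          exact key M le_rfl
    refine ⟨_, (fun m : ℕ => (sp x)^[m] c) '' (Finset.range (p * M + p) : Set ℕ), h1, h2, h3, h4,
      (Finset.finite_toSet _).image _, ?_⟩
    intro w hw _
    obtain ⟨m, hm, rfl⟩ := hfinset w hw
    refine ⟨⟨m, hm, rfl⟩, p * m + M - m, (sp x)^[M] c, Or.inl ⟨p, hrep⟩, ?_⟩
    have h5 : m ≤ p * m := Nat.le_mul_of_pos_left _ hp0
    rw [← Function.iterate_add_apply, Nat.sub_add_cancel (by omega)]
    exact hpl m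

/-- the bad set has zero area, in good coordinates -/
theorem zero_area' {d : ℕ} (hd : 2 ≤ d) (x : CV d) (hx : ND x)
    (hcrit : ∀ z ∈ Crt x, Gd x z ∨ PreP (sp x) z) (hinf : Gd x ∞)
    (hpinf : ∞ ∉ Function.periodicPts (sp x)) : volume (Bs x) = 0 := by
  classical
  have hcont := sp_cont hd x hx
  -- a second good point
  obtain ⟨U, hU, hUg, -⟩ := gd_unif hd x hx hpinf _ hinf
  obtain ⟨q₂, hq₂⟩ : ∃ q₂ : ℂ, Gd x (q₂ : OnePoint ℂ) := by
    have h1 := (OnePoint.tendsto_coe_infty (X := ℂ)).eventually hU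
    rw [Filter.coclosedCompact_eq_cocompact] at h1
    obtain ⟨q, hq⟩ := h1.exists
    exact ⟨q, hUg _ hq⟩
  obtain ⟨Cs, hCs⟩ : ∃ Cs : Set (OnePoint ℂ), Cs = Crt x ∪ {∞, (q₂ : OnePoint ℂ)} := ⟨_, rfl⟩
  have hCsf : Cs.Finite := by
    rw [hCs]
    exact (crt_finite hd x hx).union (by simp)
  have hCsg : ∀ c ∈ Cs, Gd x c ∨ PreP (sp x) c := by
    intro c hc
    rw [hCs] at hc
    rcases hc with hc | rfl | hc
    · exact hcrit c hc
    · exact Or.inl hinf
    · rw [mem_singleton_iff] at hc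
      rw [hc]
      exact Or.inl hq₂
  have hex : ∀ c : OnePoint ℂ, ∃ K A : Set (OnePoint ℂ), c ∈ Cs → IsClosed K ∧ K.Countable ∧ c ∈ K ∧
      (∀ z ∈ K, sp x z ∈ K) ∧ A.Finite ∧
      ∀ w ∈ K, ¬ GdE x w → w ∈ A ∧ ∃ s b, Bp x b ∧ (sp x)^[s] w = b := by
    intro c
    by_cases hc : c ∈ Cs
    · obtain ⟨K, A, h⟩ := exists_K hd x hx c (hCsg c hc)
      exact ⟨K, A, fun _ => h⟩
    · exact ⟨∅, ∅, fun h => absurd h hc⟩
  choose K A hKA using hex
  obtain ⟨P, hP⟩ : ∃ P : Set (OnePoint ℂ), P = ⋃ c ∈ Cs, K c := ⟨_, rfl⟩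
  have hmem : ∀ c ∈ Cs, c ∈ P := fun c hc => by
    rw [hP]; exact mem_biUnion hc (hKA c hc).2.2.1
  have hfw : ∀ z ∈ P, sp x z ∈ P := by
    intro z hz
    rw [hP] at hz ⊢
    obtain ⟨c, hc, hz⟩ := mem_iUnion₂.1 hz
    exact mem_biUnion hc ((hKA c hc).2.2.2.1 z hz)
  have hPc : IsClosed P := by
    rw [hP]
    exact hCsf.isClosed_biUnion fun c hc => (hKA c hc).1
  have hPn : P.Countable := by
    rw [hP]
    exact hCsf.countable.biUnion fun c hc => (hKA c hc).2.1
  have h : ZS x P q₂ := by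
    refine ⟨hd, hx, ⟨fun z hz => hfw z (hmem z ?_), hfw, hmem ∞ ?_⟩, hPc, hPn, hmem _ ?_,
      gdE_of hinf, hpinf⟩
    · rw [hCs]; exact Or.inl hz
    · rw [hCs]; right; simp
    · rw [hCs]; right; simp
  -- accumulation outside `P`
  have hω : ∀ z ∈ Bs x, (∀ n, (sp x)^[n] (z : OnePoint ℂ) ∉ Function.periodicPts (sp x)) →
      ∃ y : ℂ, (y : OnePoint ℂ) ∉ P ∧ ∀ ε : ℝ, 0 < ε → ∃ᶠ n : ℕ in atTop, (fx x)^[n] z ∈ ball y ε := by
    intro z hz hnp
    by_contra hcon
    push Not at hcon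
    obtain ⟨E, hE⟩ : ∃ E : Set (OnePoint ℂ), E = {w | w ∈ P ∧ ¬ GdE x w} := ⟨_, rfl⟩
    have hEf : E.Finite := by
      refine (hCsf.biUnion (t := A) fun c hc => (hKA c hc).2.2.2.2.1).subset ?_
      intro w hw
      rw [hE] at hw
      obtain ⟨hw1, hw2⟩ := hw
      rw [hP] at hw1
      obtain ⟨c, hc, hw1⟩ := mem_iUnion₂.1 hw1
      exact mem_biUnion hc ((hKA c hc).2.2.2.2.2 w hw1 hw2).1
    have hEfw : ∀ w ∈ E, sp x w ∈ E := by
      intro w hw
      rw [hE] at hw ⊢
      exact ⟨hfw w hw.1, fun h1 => hw.2 (gdE_back 1 h1)⟩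
    have hbadcl : IsClosed {w : OnePoint ℂ | ¬ GdE x w} := by
      rw [← isOpen_compl_iff, isOpen_iff_mem_nhds]
      intro w hw
      have hw' : GdE x w := by
        by_contra h0
        exact hw h0
      obtain ⟨V, hV, hVg, -⟩ := gdE_unif hd x hx hpinf w hw'
      filter_upwards [hV] with w' hw' hw2
      exact hw2 (hVg w' hw')
    have hatt : ∀ O : Set (OnePoint ℂ), IsOpen O → E ⊆ O → ∀ᶠ n : ℕ in atTop,
        (sp x)^[n] (z : OnePoint ℂ) ∈ O := by
      intro O hO hEO
      by_contra hn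
      rw [not_eventually] at hn
      have hcomp : IsCompact (Oᶜ ∩ {w : OnePoint ℂ | ¬ GdE x w}) :=
        (hO.isClosed_compl.inter hbadcl).isCompact
      have hn' : ∃ᶠ n : ℕ in atTop, (sp x)^[n] (z : OnePoint ℂ) ∈
          Oᶜ ∩ {w : OnePoint ℂ | ¬ GdE x w} := by
        refine hn.mono fun n hn1 => ⟨hn1, fun h1 => hz (gdE_back n h1)⟩
      obtain ⟨w, hw, hcl⟩ := hcomp.exists_mapClusterPt_of_frequently hn'
      obtain ⟨y, rfl⟩ : ∃ y : ℂ, w = y := by
        induction w using OnePoint.rec with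
        | infty => exact absurd (gdE_of hinf) hw.2
        | coe y => exact ⟨y, rfl⟩
      have hyP : (y : OnePoint ℂ) ∈ P := by
        by_contra hyP
        obtain ⟨ε, hε, h1⟩ := hcon y hyP
        have h2 : (fun v : ℂ => (v : OnePoint ℂ)) '' ball y ε ∈ 𝓝 (y : OnePoint ℂ) :=
          OnePoint.isOpenEmbedding_coe.isOpenMap.image_mem_nhds (ball_mem_nhds y hε)
        have h3 : ∃ᶠ n : ℕ in atTop, (fx x)^[n] z ∈ ball y ε := by
          refine (hcl.frequently h2).mono fun n hn2 => ?_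
          rw [(h.orb hz n).1] at hn2
          obtain ⟨v, hv, hvv⟩ := hn2
          rw [← OnePoint.coe_injective hvv]
          exact hv
        exact h3 h1
      exact hw.1 (hEO (by rw [hE]; exact ⟨hyP, hw.2⟩))
    obtain ⟨a, haE, p, N, hp, hpa, hlim⟩ := fin_attr hcont E hEf hEfw _ hatt
    rw [hE] at haE
    obtain ⟨haP, hab⟩ := haE
    rw [hP] at haP
    obtain ⟨c, hc, haP⟩ := mem_iUnion₂.1 haP
    obtain ⟨-, s, b, hb, hsb⟩ := (hKA c hc).2.2.2.2.2 a haP hab
    have hlim2 : Tendsto (fun k : ℕ => (sp x)^[p * k] ((sp x)^[s] ((sp x)^[N] (z : OnePoint ℂ))))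
        atTop (𝓝 b) := by
      have h1 := ((hcont.iterate s).tendsto a).comp hlim
      rw [hsb] at h1
      refine h1.congr fun k => ?_
      simp only [Function.comp]
      exact (Function.Commute.iterate_iterate_self (sp x) s (p * k)) _
    have hland : ∀ k : ℕ, (sp x)^[k] ((sp x)^[s] ((sp x)^[N] (z : OnePoint ℂ))) = b →
        b ∈ Function.periodicPts (sp x) → False := by
      intro k h1 h2
      apply hnp (k + (s + N))
      rw [Function.iterate_add_apply, Function.iterate_add_apply, h1]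
      exact h2
    rcases hb with ⟨p', hrep⟩ | ⟨p', q', hpar⟩
    · have hpb : (sp x)^[p'] b = b := by
        obtain ⟨-, lam, g, -, g0, -, ge⟩ := hrep
        have h1 := ge.self_of_nhds
        rwa [g0, chart_zero] at h1
      have h1 := tends_mul hcont hp hrep.1 hpb hlim2
      obtain ⟨k, hk⟩ := rep_land hrep h1
      exact hland _ hk (Function.mk_mem_periodicPts hrep.1 hpb)
    · have hpb : (sp x)^[p'] b = b := by
        obtain ⟨-, -, -, lam, g, -, g0, -, ge⟩ := hpar
        have h1 := ge.self_of_nhds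
        rwa [g0, chart_zero] at h1
      have hpq : (sp x)^[p' * q'] b = b := by
        rw [Function.iterate_mul]
        exact Function.iterate_fixed hpb q'
      have h1 := tends_mul hcont hp (Nat.mul_pos hpar.1 hpar.2.1) hpq hlim2
      by_cases h2 : ∃ k : ℕ, (sp x)^[k] ((sp x)^[s] ((sp x)^[N] (z : OnePoint ℂ))) = b
      · obtain ⟨k, hk⟩ := h2
        exact hland _ hk (Function.mk_mem_periodicPts hpar.1 hpb)
      · push Not at h2
        apply hz
        apply gdE_back N
        apply gdE_back s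
        exact gdE_of (Or.inr ⟨b, p', q', hpar, h1, h2⟩)
  -- density points
  have hae1 := Besicovitch.ae_tendsto_measure_inter_div_of_measurableSet (volume : Measure ℂ)
    (s := (Bs x)ᶜ) h.closed.measurableSet.compl
  have hae2 : ∀ᵐ z : ℂ, ∀ n, (sp x)^[n] (z : OnePoint ℂ) ∉ Function.periodicPts (sp x) := by
    have hcnt : {z : ℂ | ∃ n, (sp x)^[n] (z : OnePoint ℂ) ∈ Function.periodicPts (sp x)}.Countable := by
      have h1 : {z : ℂ | ∃ n, (sp x)^[n] (z : OnePoint ℂ) ∈ Function.periodicPts (sp x)} ⊆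
          ⋃ n : ℕ, ⋃ b ∈ Function.periodicPts (sp x), (fun z : ℂ => (z : OnePoint ℂ)) ⁻¹'
            {z : OnePoint ℂ | (sp x)^[n] z = b} := by
        rintro z ⟨n, hn⟩
        exact mem_iUnion.2 ⟨n, mem_biUnion hn rfl⟩
      refine Set.Countable.mono h1 (Set.countable_iUnion fun n => ?_)
      exact (per_countableS hd x hx).biUnion fun b _ =>
        (Pool.Agent.W342.RE.PTW.pre_countable hd hx b n).preimage OnePoint.coe_injective
    filter_upwards [hcnt.ae_notMem volume] with z hz n hn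
    exact hz ⟨n, hn⟩
  have hae : ∀ᵐ z : ℂ, z ∉ Bs x := by
    filter_upwards [hae1, hae2] with z h1 h2 hz
    obtain ⟨y, hyP, hfreq⟩ := hω z hz h2
    have hev : ∀ᶠ u : ℂ in 𝓝 y, (u : OnePoint ℂ) ∉ P :=
      OnePoint.continuous_coe.continuousAt.eventually (hPc.isOpen_compl.mem_nhds hyP)
    obtain ⟨R, hR, hball⟩ := Metric.eventually_nhds_iff_ball.1 hev
    have hD : ∀ u ∈ ball y (8 * (R / 8)), (u : OnePoint ℂ) ∉ P := fun u hu => hball u (by
      have e : 8 * (R / 8) = R := by ring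
      rwa [e] at hu)
    have hind : (Bs x)ᶜ.indicator (1 : ℂ → ENNReal) z = 0 := by
      rw [indicator_of_notMem]
      exact fun h3 => h3 hz
    rw [hind] at h1
    have hdens : ∀ ε : ℝ, 0 < ε → ∃ s₀ : ℝ, 0 < s₀ ∧ ∀ s : ℝ, 0 < s → s < s₀ →
        volume (closedBall z s ∩ (Bs x)ᶜ) ≤ ENNReal.ofReal ε * volume (closedBall z s) := by
      intro ε hε
      have h3 := h1.eventually (ge_mem_nhds (ENNReal.ofReal_pos.2 hε))
      rw [eventually_nhdsWithin_iff, Metric.eventually_nhds_iff_ball] at h3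
      obtain ⟨s₀, hs₀, h4⟩ := h3
      refine ⟨s₀, hs₀, fun s hs hss => ?_⟩
      have h5 := h4 s (by rw [mem_ball, dist_zero_right, Real.norm_of_nonneg hs.le]; exact hss) hs
      rw [inter_comm]
      exact (ENNReal.div_le_iff (measure_closedBall_pos volume z hs).ne'
        measure_closedBall_lt_top.ne).1 h5
    obtain ⟨C, hC⟩ := h.caseA z hz hdens y (R / 8) (by positivity) hD
    obtain ⟨m, φ, ε, hε, hεr, hm, hφ⟩ := h.caseB z hz y (R / 8) (by positivity) hD C hC hfreq
    refine h.no_cn m hm y ⟨ε, hε, fun u hu => hD u (ball_subset_ball (by linarith) hu), φ,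
      fun j => (hφ j).1, fun j => (hφ j).2.1, fun η hη => ?_⟩
    have h5 : Tendsto (fun j : ℕ => 1 / ((j : ℝ) + 1)) atTop (𝓝 0) :=
      tendsto_one_div_add_atTop_nhds_zero_nat
    filter_upwards [h5.eventually (gt_mem_nhds hη)] with j hj u hu
    exact ((hφ j).2.2 u hu).trans_lt hj
  have := ae_iff.1 hae
  simpa using this

end Run7.h904.RF
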