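import Mathlib
import Pool.Agent.Run7.h904.Z9Zero

set_option autoImplicit false

open Topology Filter Metric Set Polynomial MeasureTheory Asymptotics Pointwise
open scoped OnePoint

namespace Run7.h904.RF

open Pool.Agent.H790R3.RB (CV hF cr ND wr rt sp pr hc pol Sink Attd HypTop)
open Pool.Agent.W757.QR Pool.Agent.W757.RF Pool.Agent.W757.Q2
open Pool.Agent.W29.RQSNK (sp_iter fin_of sp_fx)

/-- points with a good image are good for the perturbation -/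
lemma gs_of_gdE {d : ℕ} (hd : 2 ≤ d) (x : CV d) (hx : ND x)
    (hinf : ∞ ∉ Function.periodicPts (sp x)) (V : CV d)
    (hV : ∀ (a lam : ℂ) (p q : ℕ), ParCR x a p q lam → ∀ z : ℂ, Fin' x z →
      Tendsto (fun i : ℕ => (fx x)^[p * q * i] z) atTop (𝓝 a) →
      (∀ i : ℕ, (fx x)^[p * q * i] z ≠ a) → GR x V z) (z : ℂ) (hz : Fin' x z)
    (h : GdE x (z : OnePoint ℂ)) : GS x V (z : OnePoint ℂ) := by
  obtain ⟨k, hk⟩ := h
  rw [sp_iter x z k (fun j _ => hz j)] at hk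
  have hzk : Fin' x ((fx x)^[k] z) := by
    intro j
    rw [← Function.iterate_add_apply]
    exact hz _
  obtain ⟨U, hU, hev⟩ := gs_of_gd hd x hx hinf V hV _ hzk hk
  obtain ⟨l, hl⟩ : ∃ l : Filter (ℝ × ℂ), l = 𝓝[>] (0 : ℝ) ×ˢ 𝓝 z := ⟨_, rfl⟩
  have hl1 : Tendsto (fun q : ℝ × ℂ => q.1) l (𝓝[>] 0) := by rw [hl]; exact tendsto_fst
  have hl2 : Tendsto (fun q : ℝ × ℂ => q.2) l (𝓝 z) := by rw [hl]; exact tendsto_snd
  have h1 := itG x V hl1 (fun q => q.2) z hl2 k (fun j _ => hz j)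
  have h2 : ∀ᶠ q : ℝ × ℂ in l, (((fx (Xt x V q.1))^[k] q.2 : ℂ) : OnePoint ℂ) ∈ U :=
    ((OnePoint.continuous_coe.tendsto _).comp h1).eventually hU
  have h3 : ∀ᶠ q : ℝ × ℂ in l, ∀ j < k, (de (Xt x V q.1)).eval ((fx (Xt x V q.1))^[j] q.2) ≠ 0 := by
    have h4 := Pool.Agent.W29.RQAPP.ne_nhds k (x, z) (fun j _ => hz j)
    have h5 : Tendsto (fun q : ℝ × ℂ => ((Xt x V q.1, q.2) : CV d × ℂ)) l (𝓝 (x, z)) :=
      ((Xt_tendsto x V).comp hl1).prodMk_nhds hl2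
    exact h5.eventually h4
  have h4 : ∀ᶠ q : ℝ × ℂ in l, Attd (sp (Xt x V q.1)) (q.2 : OnePoint ℂ) := by
    filter_upwards [h2, h3, hl1.eventually hev, hl1.eventually (Xt_ND x V hx)] with q q2 q3 q4 q5
    have q6 := q4 _ q2
    rw [← sp_iter _ q.2 k q3] at q6
    exact attd_iter (sp_cont hd _ q5) _ q6
  rw [hl, eventually_prod_iff] at h4
  obtain ⟨pa, hpa, pb, hpb, H⟩ := h4
  refine ⟨(fun u : ℂ => (u : OnePoint ℂ)) '' {z | pb z}, ?_, ?_⟩
  · exact OnePoint.isOpenEmbedding_coe.isOpenMap.image_mem_nhds hpb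
  · filter_upwards [hpa] with t ht
    rintro _ ⟨z', hz', rfl⟩
    exact H ht hz'

/-- almost every point is not recurrent -/
lemma ae_norecurE {d : ℕ} (hd : 2 ≤ d) (x : CV d) (hx : ND x)
    (h : ∀ᵐ z : ℂ, GdE x (z : OnePoint ℂ)) :
    ∀ᵐ z : ℂ, ¬ ∀ s ∈ 𝓝 z, ∃ᶠ n in atTop, (fx x)^[n] z ∈ s := by
  have hcont := sp_cont hd x hx
  have h1 : ∀ᵐ z : ℂ, z ∉ {z : ℂ | (z : OnePoint ℂ) ∈ Function.periodicPts (sp x)} :=
    (per_countable hd x hx).ae_notMem volume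
  have h2 : ∀ᵐ z : ℂ, z ∉ {z : ℂ | ¬ Fin' x z} := (nonfin_countable hd x hx).ae_notMem volume
  filter_upwards [h, h1, h2] with z hz hp hf hrec
  replace hf : Fin' x z := by
    by_contra h0
    exact hf h0
  obtain ⟨k, hk⟩ := hz
  -- convergence to a cycle
  have hconv : ∃ (n : ℕ) (a : OnePoint ℂ), 0 < n ∧
      Tendsto (fun j : ℕ => (sp x)^[n * j] (z : OnePoint ℂ)) atTop (𝓝 a) := by
    have key : ∀ (n : ℕ) (a : OnePoint ℂ), 0 < n →
        Tendsto (fun j : ℕ => (sp x)^[n * j] ((sp x)^[k] (z : OnePoint ℂ))) atTop (𝓝 a) →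
        ∃ (n : ℕ) (a : OnePoint ℂ), 0 < n ∧
          Tendsto (fun j : ℕ => (sp x)^[n * j] (z : OnePoint ℂ)) atTop (𝓝 a) := by
      intro n a hn hlim
      refine ⟨n, (sp x)^[n * k - k] a, hn, ?_⟩
      rw [← tendsto_add_atTop_iff_nat k]
      refine (((hcont.iterate (n * k - k)).tendsto a).comp hlim).congr fun j => ?_
      simp only [Function.comp]
      rw [← Function.iterate_add_apply, ← Function.iterate_add_apply]
      congr 1
      have h3 : k ≤ n * k := Nat.le_mul_of_pos_left _ hn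
      rw [mul_add]
      omega
    rcases hk with ⟨n, a, hs, hlim⟩ | ⟨a, p, q, hpar, hlim, -⟩
    · exact key n a hs.1 hlim
    · exact key (p * q) a (Nat.mul_pos hpar.1 hpar.2.1) hlim
  obtain ⟨n, a, hn, hlim⟩ := hconv
  obtain ⟨s, hs, hev⟩ := norecur hcont hn hlim hp
  have h3 := hrec _ (OnePoint.continuous_coe.continuousAt.preimage_mem_nhds hs)
  obtain ⟨m, h4, h5⟩ := (h3.and_eventually hev).exists
  apply h5
  rw [sp_iter x z m (fun j _ => hf j)]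
  exact h4

/-- the sequential statement in generic coordinates -/
theorem seq_hypE {d : ℕ} (hd : 2 ≤ d) (x : CV d) (hx : ND x) (hG : Ginf d (nu x) (de x))
    (hinf : ∞ ∉ Function.periodicPts (sp x))
    (hcrit : ∀ z ∈ Crt x, (∀ n : ℕ, (sp x)^[n] z ≠ ∞) ∧ (Gd x z ∨ PreP (sp x) z))
    (hJ : ∀ᵐ z : ℂ, GdE x (z : OnePoint ℂ)) (R : ℝ) (r : ℕ → ℝ) (hr : Tendsto r atTop (𝓝[>] 0)) :
    ∃ s : ℕ → ℕ, StrictMono s ∧ ∀ᵐ V : CV d, ‖V‖ ≤ R → ∀ᶠ j in atTop, HyR (Xt x V (r (s j))) := by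
  classical
  have hrec := ae_norecurE hd x hx hJ
  -- planar critical points
  have hpl : ∀ z ∈ Crt x, ∃ ζ : ℂ, z = ζ ∧ Fin' x ζ ∧ (wn (nu x) (de x)).eval ζ = 0 := by
    intro z hz
    obtain ⟨h1, -⟩ := hcrit z hz
    obtain ⟨ζ, rfl⟩ : ∃ ζ : ℂ, z = ζ := by
      have := h1 0
      induction z using OnePoint.rec with
      | infty => exact absurd rfl this
      | coe ζ => exact ⟨ζ, rfl⟩
    exact ⟨ζ, rfl, fin_of x ζ h1, crt_wn hd x ζ hz⟩
  let κ : Type := {z : OnePoint ℂ // z ∈ Crt x ∧ PreP (sp x) z}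
  have hκ : Finite κ := ((crt_finite hd x hx).subset fun z hz => hz.1 :
    ({z : OnePoint ℂ | z ∈ Crt x ∧ PreP (sp x) z}).Finite)
  have hdata : ∀ k : κ, ∃ (c₀ b : ℂ) (M p : ℕ) (lam : ℂ), (k : OnePoint ℂ) = c₀ ∧
      PreR x c₀ b M p lam ∧ ∃ V : CV d, ffR x V c₀ b M p lam ≠ 0 := by
    rintro ⟨z, hz, M', p', hp', lam', g, hl, g0, gd, ge⟩
    obtain ⟨c₀, rfl, hfin, hc⟩ := hpl z hz
    rw [sp_iter x c₀ M' (fun j _ => hfin j)] at ge
    have hfb : Fin' x ((fx x)^[M'] c₀) := by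
      intro j
      rw [← Function.iterate_add_apply]
      exact hfin _
    obtain ⟨h1, h2⟩ := Pool.Agent.W342.RE.PTW.mult_deriv hfb ⟨g, g0, gd, ge⟩
    have h3 : ddR x ((fx x)^[M'] c₀) p' = lam' :=
      (derR x _ p' (fun j _ => hfb j)).unique h2
    obtain ⟨b, M, p, lam, h4, h5⟩ := pre_data hd x hx hG c₀ hc hfin M' p' hp' h1 (by rw [h3]; exact hl) hrec
    exact ⟨c₀, b, M, p, lam, rfl, h4, h5⟩
  choose c₀ b M p lam hkc hpre hV0 using hdata
  have hlp : ∀ k : κ, ∃ (ψ : ℂ → ℂ) (ρ : ℝ), 0 < ρ ∧ DifferentiableOn ℂ ψ (ball 0 ρ) ∧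
      InjOn ψ (ball 0 ρ) ∧
      ∀ (V : CV d) {ι : Type} (l : Filter ι) (τ : ι → ℝ), Tendsto τ l (𝓝[>] 0) →
        ∀ (y : ι → ℂ) (a : ℂ), Tendsto (fun i => (y i - b k) / (τ i : ℂ)) l (𝓝 a) →
        ∀ (n : ι → ℕ) (w : ℂ), Tendsto (fun i => lam k ^ (n i) * (τ i : ℂ)) l (𝓝 w) → ‖w‖ < ρ →
        ‖w * (a - llR x V (b k) (p k) / (1 - lam k))‖ < ρ →
        (∀ᶠ i in l, ∀ j < p k * n i, (de (Xt x V (τ i))).eval
          ((fx (Xt x V (τ i)))^[j] (y i)) ≠ 0) ∧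
        Tendsto (fun i => (fx (Xt x V (τ i)))^[p k * n i] (y i)) l
          (𝓝 (ψ (w * (a - llR x V (b k) (p k) / (1 - lam k))))) := fun k =>
    linpert x (p k) (b k) (lam k) (hpre k).finb (hpre k).per (hpre k).der (hpre k).rep
  choose ψ ρ hρ hψd hψi hψ using hlp
  have hlin : ∀ (k : κ) (c : ℂ) (V W : CV d), ffR x (c • V + W) (c₀ k) (b k) (M k) (p k) (lam k) =
      c * ffR x V (c₀ k) (b k) (M k) (p k) (lam k) + ffR x W (c₀ k) (b k) (M k) (p k) (lam k) :=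
    fun k c V W => ffR_lin x c V W _ _ _ _ _
  obtain ⟨L, hL⟩ : ∃ L : κ → (CV d →ₗ[ℂ] ℂ), L = fun k =>
      linOf (fun V => ffR x V (c₀ k) (b k) (M k) (p k) (lam k)) (hlin k) := ⟨_, rfl⟩
  have hLa : ∀ k V, L k V = ffR x V (c₀ k) (b k) (M k) (p k) (lam k) := by
    intro k V
    rw [hL]
    exact linOf_apply _ (hlin k) V
  have hL0 : ∀ k, L k ≠ 0 := by
    intro k h0
    obtain ⟨V, hV⟩ := hV0 k
    apply hV
    rw [← hLa, h0]; rfl
  obtain ⟨C, hC⟩ : ∃ C : κ → ℝ, C = fun k => ‖LinearMap.toContinuousLinearMap (L k)‖ := ⟨_, rfl⟩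
  have hC0 : ∀ k, 0 ≤ C k := fun k => by rw [hC]; exact norm_nonneg _
  have hCb : ∀ k V, ‖L k V‖ ≤ C k * ‖V‖ := by
    intro k V
    rw [hC]
    exact (LinearMap.toContinuousLinearMap (L k)).le_opNorm V
  obtain ⟨δ, hδ⟩ : ∃ δ : κ → ℝ, δ = fun k => ρ k / (2 * (1 + C k * (|R| + 1))) := ⟨_, rfl⟩
  have hδ0 : ∀ k, 0 < δ k := by
    intro k
    have h1 := hC0 k
    have h2 := hρ k
    rw [hδ]
    positivity
  have hδ1 : ∀ k, δ k * (1 + C k * (|R| + 1)) = ρ k / 2 := by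
    intro k
    have h1 := hC0 k
    rw [hδ]
    have : (1 + C k * (|R| + 1)) ≠ 0 := by positivity
    field_simp
  obtain ⟨s, n, w, hs, hw⟩ := seqs lam (fun k => (hpre k).rep) δ hδ0 r hr
  refine ⟨s, hs, ?_⟩
  -- the bad set
  obtain ⟨N, hN⟩ : ∃ N : Set ℂ, N = {z : ℂ | ¬ Fin' x z} ∪ {z : ℂ | ¬ GdE x (z : OnePoint ℂ)} :=
    ⟨_, rfl⟩
  have hN0 : volume N = 0 := by
    rw [hN]
    refine measure_union_null ((nonfin_countable hd x hx).measure_zero volume) ?_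
    exact ae_iff.1 hJ
  have hae : ∀ᵐ V : CV d, ∀ k : κ, ‖w k * L k V‖ < ρ k → ψ k (w k * L k V) ∉ N := by
    rw [eventually_countable_forall]
    intro k
    exact ae_avoid (L k) (hL0 k) (ψ k) (ρ k) (hψd k) (hψi k) (w k) (hw k).1 N hN0
  filter_upwards [hae, ae_par hd x hx hG] with V hV hVp hVR
  have hrs : Tendsto (fun j => r (s j)) atTop (𝓝[>] 0) := hr.comp hs.tendsto_atTop
  refine seq_hyR hd x hx (fun j => Xt x V (r (s j))) ((Xt_tendsto x V).comp hrs) ?_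
  intro z hz
  rcases (hcrit z hz).2 with hg | hp
  · -- in a basin
    obtain ⟨ζ, rfl, hfin, -⟩ := hpl z hz
    obtain ⟨U, hU, hev⟩ := gs_of_gd hd x hx hinf V hVp ζ hfin hg
    exact ⟨U, hU, (hrs.eventually hev).mono fun j hj z' hz' _ => hj z' hz'⟩
  · -- preperiodic
    obtain ⟨k, hk⟩ : ∃ k : κ, (k : OnePoint ℂ) = z := ⟨⟨z, hz, hp⟩, rfl⟩
    have hw1 : ‖w k‖ < ρ k := by
      have h1 := (hw k).2.1
      have h2 := hδ1 k
      have h3 := hδ0 k
      have h4 := hρ k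
      have h5 : 0 ≤ C k * (|R| + 1) := mul_nonneg (hC0 k) (by positivity)
      nlinarith
    have hw2 : ‖w k * L k V‖ < ρ k := by
      rw [norm_mul]
      have h1 := (hw k).2.1
      have h2 := hδ1 k
      have h3 := hδ0 k
      have h4 := hρ k
      have h5 : ‖L k V‖ ≤ C k * (|R| + 1) := by
        refine (hCb k V).trans (mul_le_mul_of_nonneg_left ?_ (hC0 k))
        linarith [le_abs_self R]
      have h6 : ‖w k‖ * ‖L k V‖ ≤ δ k * (C k * (|R| + 1)) :=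
        mul_le_mul h1 h5 (norm_nonneg _) h3.le
      nlinarith
    have hbad := hV k hw2
    rw [hLa] at hw2 hbad
    rw [hN, mem_union, not_or] at hbad
    obtain ⟨hb1, hb2⟩ := hbad
    have hb1' : Fin' x (ψ k (w k * ffR x V (c₀ k) (b k) (M k) (p k) (lam k))) := by
      by_contra h0; exact hb1 h0
    have hb2' : GdE x ((ψ k (w k * ffR x V (c₀ k) (b k) (M k) (p k) (lam k)) : ℂ) : OnePoint ℂ) := by
      by_contra h0; exact hb2 h0
    obtain ⟨U, hU, hev⟩ := pre_dir hd x V hx (hpre k) (ψ k) (ρ k) (hψ k) (fun j => r (s j)) hrs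
      (n k) (w k) (hw k).2.2 hw1 hw2 (gs_of_gdE hd x hx hinf V hVp _ hb1' hb2')
    refine ⟨(fun u : ℂ => (u : OnePoint ℂ)) '' U, ?_, ?_⟩
    · rw [← hk, hkc k]
      exact OnePoint.isOpenEmbedding_coe.isOpenMap.image_mem_nhds hU
    · filter_upwards [hev] with j hj z' hz' hcr
      obtain ⟨u, hu, rfl⟩ := hz'
      exact hj u hu (crt_wn hd _ u hcr)


/-- the good points form an open set -/
lemma gd_open {d : ℕ} (hd : 2 ≤ d) (x : CV d) (hx : ND x) (z : OnePoint ℂ) (hz : Gd x z) :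
    ∃ U ∈ 𝓝 z, ∀ w ∈ U, Gd x w := by
  have hBi : ((Function.periodicPts (sp x))ᶜ).Infinite := by
    intro hfin
    have h1 : (univ : Set (OnePoint ℂ)).Countable := by
      rw [← union_compl_self (Function.periodicPts (sp x))]
      exact (per_countableS hd x hx).union hfin.countable
    have h2 := h1.preimage (f := fun z : ℂ => (z : OnePoint ℂ)) OnePoint.coe_injective
    rw [preimage_univ] at h2
    exact not_countable_complex h2
  obtain ⟨a, b, c, e, h, x₁, T, hdet, hh, hx₁, hs, hG, hT, hTi, hsT, hinf, hcr⟩ :=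
    genm_lin d x (Function.periodicPts (sp x))ᶜ hBi hd hx
  have hs' : ∀ z, sp x₁ (h z) = h (sp x z) := fun z => (hs z).symm
  have hit := fun n z => Pool.Agent.H790R3.RB.ALL.iter h hs' n z
  have hsym : ∀ z, sp x (h.symm z) = h.symm (sp x₁ z) := by
    intro z
    apply h.injective
    rw [hs, h.apply_symm_apply, h.apply_symm_apply]
  have hdet' : e * a - (-b) * (-c) = 1 := by linear_combination hdet
  have hgd : ∀ z, Gd x z → Gd x₁ (h z) := by
    rintro z (h1 | ⟨a', h1⟩)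
    · exact Or.inl (Pool.Agent.H790R3.RB.ALL.attd h hs' h1)
    · exact Or.inr ⟨h a', parB_transport hdet hh hs' h1⟩
  have hgd' : ∀ z, Gd x₁ z → Gd x (h.symm z) := by
    rintro z (h1 | ⟨a', h1⟩)
    · exact Or.inl (Pool.Agent.H790R3.RB.ALL.attd h.symm hsym h1)
    · exact Or.inr ⟨h.symm a', parB_transport (h := h.symm) hdet' (inv_form hdet hh) hsym h1⟩
  have hinf₁ : ∞ ∉ Function.periodicPts (sp x₁) := by
    rintro ⟨n, hn, hper⟩
    apply hinf
    refine Function.mk_mem_periodicPts hn ?_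
    show (sp x)^[n] (h.symm ∞) = h.symm ∞
    apply h.injective
    rw [← hit, h.apply_symm_apply]
    exact hper
  obtain ⟨U, hU, hUg, -⟩ := gd_unif hd x₁ hx₁ hinf₁ _ (hgd z hz)
  refine ⟨h ⁻¹' U, h.continuous.continuousAt.preimage_mem_nhds hU, fun w hw => ?_⟩
  have h1 := hgd' _ (hUg _ hw)
  rwa [h.symm_apply_apply] at h1

/-- the main theorem for geometrically finite maps on the level of coefficient vectors -/
theorem mainR3 {d : ℕ} (hd : 2 ≤ d) (x : CV d) (hx : ND x)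
    (hcrit : ∀ z ∈ Crt x, Attd (sp x) z ∨ (∃ a, ParB (sp x) z a) ∨ PreP (sp x) z)
    (hgood : ∃ z, Attd (sp x) z ∨ ∃ a, ParB (sp x) z a) :
    Tendsto (fun r : ℝ => volume {a : CV d | (∀ i, ‖a i - x i‖ ≤ r) ∧ ¬ HyR a} /
      volume {a : CV d | ∀ i, ‖a i - x i‖ ≤ r}) (𝓝[>] 0) (𝓝 0) := by
  classical
  -- the points to be avoided
  obtain ⟨B, hB⟩ : ∃ B : Set (OnePoint ℂ), B = (⋃ z ∈ Crt x, range fun n : ℕ => (sp x)^[n] z) ∪
    Function.periodicPts (sp x) := ⟨_, rfl⟩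
  have hBc : B.Countable := by
    rw [hB]
    exact ((crt_finite hd x hx).countable.biUnion fun z _ => countable_range _).union
      (per_countableS hd x hx)
  have hBi : ({z | Gd x z} ∩ Bᶜ).Infinite := by
    intro hfin
    obtain ⟨z₀, hz₀⟩ := hgood
    obtain ⟨U, hU, hUg⟩ := gd_open hd x hx z₀ hz₀
    have h1 : (chart z₀ ⁻¹' U).Countable := by
      have h2 : U ⊆ ({z | Gd x z} ∩ Bᶜ) ∪ B := by
        intro w hw
        by_cases hwB : w ∈ B
        · exact Or.inr hwB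
        · exact Or.inl ⟨hUg w hw, hwB⟩
      exact ((hfin.countable.union hBc).mono h2).preimage (chart_inj z₀)
    have h2 : chart z₀ ⁻¹' U ∈ 𝓝 (0 : ℂ) := by
      apply (chart_cont z₀).continuousAt.preimage_mem_nhds
      rw [chart_zero]
      exact hU
    obtain ⟨r, hr, hb⟩ := Metric.mem_nhds_iff.1 h2
    exact (measure_ball_pos volume (0 : ℂ) hr).ne' ((h1.mono hb).measure_zero volume)
  obtain ⟨a, b, c, e, h, x₁, T, hdet, hh, hx₁, hs, hG, hT, hTi, hsT, hinf, hcr⟩ :=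
    genm_lin d x ({z | Gd x z} ∩ Bᶜ) hBi hd hx
  have hs' : ∀ z, sp x₁ (h z) = h (sp x z) := fun z => (hs z).symm
  have hit := fun n z => Pool.Agent.H790R3.RB.ALL.iter h hs' n z
  have hgd : ∀ z, Gd x z → Gd x₁ (h z) := by
    rintro z (h1 | ⟨a', h1⟩)
    · exact Or.inl (Pool.Agent.H790R3.RB.ALL.attd h hs' h1)
    · exact Or.inr ⟨h a', parB_transport hdet hh hs' h1⟩
  have hcr₁ : ∀ z' ∈ Crt x₁, (∀ n : ℕ, (sp x₁)^[n] z' ≠ ∞) ∧ (Gd x₁ z' ∨ PreP (sp x₁) z') := by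
    intro z' hz'
    have hsym : ∀ z, h.symm (sp x₁ z) = sp x (h.symm z) := by
      intro z
      apply h.injective
      rw [hs, h.apply_symm_apply, h.apply_symm_apply]
    have h1 : h.symm z' ∈ Crt x := crt_conj hd hx₁ hx h.symm hsym z' hz'
    obtain ⟨z, rfl⟩ : ∃ z, h z = z' := ⟨h.symm z', h.apply_symm_apply _⟩
    rw [h.symm_apply_apply] at h1
    refine ⟨?_, ?_⟩
    · intro n h0
      rw [hit] at h0
      apply hinf.2
      rw [← h0, h.symm_apply_apply, hB]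
      left
      exact mem_biUnion h1 ⟨n, rfl⟩
    · rcases hcrit z h1 with h2 | h2 | h2
      · exact Or.inl (hgd z (Or.inl h2))
      · exact Or.inl (hgd z (Or.inr h2))
      · exact Or.inr (preP_transport hdet hh hs' h2)
  have hinf₁ : ∞ ∉ Function.periodicPts (sp x₁) := by
    rintro ⟨n, hn, hper⟩
    apply hinf.2
    rw [hB]
    right
    refine Function.mk_mem_periodicPts hn ?_
    show (sp x)^[n] (h.symm ∞) = h.symm ∞
    apply h.injective
    rw [← hit, h.apply_symm_apply]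
    exact hper
  have hginf : Gd x₁ ∞ := by
    have h1 := hgd _ hinf.1
    rwa [h.apply_symm_apply] at h1
  have hJ₁ : ∀ᵐ z : ℂ, GdE x₁ (z : OnePoint ℂ) := by
    rw [ae_iff]
    exact zero_area' hd x₁ hx₁ (fun z hz => (hcr₁ z hz).2) hginf hinf₁
  have hopen : IsOpen {a : CV d | HyR a} := isOpen_iff_mem_nhds.mpr fun a ha => hyR_open hd a ha
  obtain ⟨K, hK, hKT⟩ := T.exists_antilipschitzWith (LinearMap.ker_eq_bot.2 hTi)
  have hsurj : Function.Surjective T := LinearMap.injective_iff_surjective.mp hTi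
  have hHy : ∀ x' : CV d, HyR x' → HyR (T x') := by
    rintro x' ⟨h1, h2⟩
    obtain ⟨h3, h4⟩ := hsT x' h1
    refine ⟨h3, fun z hz => ?_⟩
    have h5 := h2 _ (crt_conj hd h3 h1 h h4 z hz)
    have h6 : ∀ w, sp (T x') (h.symm w) = h.symm (sp x' w) := by
      intro w
      apply h.injective
      rw [h4, h.apply_symm_apply, h.apply_symm_apply]
    have h7 := Pool.Agent.H790R3.RB.ALL.attd h.symm h6 h5
    rwa [h.symm_apply_apply] at h7
  refine density_gen x {a : CV d | HyR a} hopen.measurableSet fun r hr => ?_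
  obtain ⟨s, hsm, hae⟩ := seq_hypE hd x₁ hx₁ hG hinf₁ hcr₁ hJ₁ K r hr
  refine ⟨s, hsm.tendsto_atTop, ?_⟩
  rw [ae_iff] at hae ⊢
  have h1 : {V : CV d | ¬ (V ∈ BB (Fin 2 × Fin (d + 1)) → ∀ᶠ j in atTop,
      x + r (s j) • V ∈ {a : CV d | HyR a})} ⊆
      (T.restrictScalars ℝ) '' {V : CV d | ¬ (‖V‖ ≤ K → ∀ᶠ j in atTop,
        HyR (Xt x₁ V (r (s j))))} := by
    intro V hV
    obtain ⟨V₁, rfl⟩ := hsurj V
    refine ⟨V₁, fun h2 => hV fun hbox => ?_, rfl⟩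
    have h3 : ‖T V₁‖ ≤ 1 := (pi_norm_le_iff_of_nonneg zero_le_one).2 hbox
    have h4 : ‖V₁‖ ≤ K := by
      have h5 := hKT.le_mul_dist V₁ 0
      rw [dist_zero_right, map_zero, dist_zero_right] at h5
      refine h5.trans ?_
      have h6 : (K : ℝ) * ‖T V₁‖ ≤ K * 1 := mul_le_mul_of_nonneg_left h3 K.2
      linarith
    filter_upwards [h2 h4] with j hj
    have e : x + r (s j) • T V₁ = T (Xt x₁ V₁ (r (s j))) := by
      unfold Xt
      rw [map_add, hT]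
      congr 1
      exact ((T.restrictScalars ℝ).map_smul (r (s j)) V₁).symm
    rw [e]
    exact hHy _ hj
  refine measure_mono_null h1 ?_
  rw [Measure.addHaar_image_linearMap, hae, mul_zero]

end Run7.h904.RF
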