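import Mathlib
import Pool.Agent.Run7.h904.R5Main

set_option autoImplicit false

open Topology Filter Metric Set Polynomial MeasureTheory Asymptotics Pointwise
open scoped OnePoint

namespace Run7.h904.RF

open Pool.Agent.H790R3.RB (CV hF cr ND wr rt sp pr hc pol Sink Attd HypTop)
open Pool.Agent.W757.QR Pool.Agent.W757.RF Pool.Agent.W757.Q2
open Pool.Agent.W29.RQSNK (sp_iter fin_of sp_fx)

/-! The same statements for linear families of perturbations `J`. -/

/-- for each parabolic cycle almost every direction is good -/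
theorem dir_aeJ {ι : Type} [Fintype ι] {d : ℕ} (J : (ι → ℂ) →ₗ[ℂ] CV d) (hd2 : 2 ≤ d) (x : CV d)
    (hx : ND x) (a lam : ℂ) (p q : ℕ) (h : ParCR x a p q lam)
    (hA : lam ≠ 1 → ∃ v, kapR x (J v) a p lam ≠ 0) (hB : lam = 1 → ∃ v, llR x (J v) a p ≠ 0) :
    ∀ᵐ v : ι → ℂ, ∀ z : ℂ, Fin' x z →
        Tendsto (fun i : ℕ => (fx x)^[p * q * i] z) atTop (𝓝 a) →
        (∀ i : ℕ, (fx x)^[p * q * i] z ≠ a) → GR x (J v) z := by
  have hfa : (fx x)^[p] a = a := by
    rw [← h.per]; exact Function.iterate_minimalPeriod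
  have hnorm : ‖lam‖ = 1 := by
    have := congrArg norm h.lamq
    rw [norm_pow, norm_one] at this
    exact (pow_eq_one_iff_of_nonneg (norm_nonneg _) h.qp.ne').mp this
  by_cases hl : lam = 1
  · -- multiplier one
    have hl1 : deriv ((fx x)^[p]) a = 1 := by rw [h.der, hl]
    have hcont : ∀ j : ℕ, ContinuousAt (((fx x)^[p])^[j]) a := by
      intro j
      rw [← Function.iterate_mul]
      exact (Pool.Agent.W29.RQSNK.fx_iter_diff x a _ (fun j _ => h.fin j)).continuousAt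
    have hlim' : ∀ z : ℂ, Tendsto (fun i : ℕ => (fx x)^[p * q * i] z) atTop (𝓝 a) →
        Tendsto (fun i : ℕ => (fx x)^[p * i] z) atTop (𝓝 a) := by
      intro z hlim
      have h1 := tendsto_of_mulR ((fx x)^[p]) a z hcont hfa q h.qp (by
        refine hlim.congr fun i => ?_
        rw [mul_assoc, Function.iterate_mul])
      refine h1.congr fun i => ?_
      rw [Function.iterate_mul]
    have hzx' : ∀ z : ℂ, (∀ i : ℕ, (fx x)^[p * q * i] z ≠ a) → ∀ i : ℕ, (fx x)^[p * i] z ≠ a := by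
      intro z hzx i h0
      apply hzx i
      have e : p * q * i = p * ((q - 1) * i) + p * i := by
        obtain ⟨m, rfl⟩ : ∃ m, q = m + 1 := ⟨q - 1, by have := h.qp; omega⟩
        simp only [Nat.add_sub_cancel]
        ring
      rw [e, Function.iterate_add_apply, h0, Function.iterate_mul]
      exact Function.iterate_fixed hfa _
    obtain ⟨ρ, K, hρ, hK, hfinρ, -⟩ := Pool.Agent.W29.RQAPP.loc_lip p x a (fun j _ => h.fin j)
    have hfr : ∀ v ∈ ball (0 : ℂ) ρ, ∀ j < p, (de x).eval ((fx x)^[j] (a + v)) ≠ 0 := by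
      intro v hv j hj
      refine hfinρ x (by rw [sub_self, norm_zero]; exact hρ) _ ?_ j hj
      rw [mem_ball, dist_eq_norm, add_sub_cancel_left]
      simpa using hv
    have hcd : DifferentiableOn ℂ (Pool.Agent.W29.RQAPP.cen x p a) (ball 0 ρ) := fun v hv =>
      (Pool.Agent.W29.RQAPP.cen_diffAt x p a v (hfr v hv)).differentiableWithinAt
    have hF0 : Pool.Agent.W29.RQAPP.cen x p a 0 = 0 := by simp [Pool.Agent.W29.RQAPP.cen, hfa]
    have hF1 : deriv (Pool.Agent.W29.RQAPP.cen x p a) 0 = 1 := by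
      rw [Pool.Agent.W29.RQAPP.cen_deriv, hl1]
    by_cases hid : ∃ v ∈ ball (0 : ℂ) ρ, Pool.Agent.W29.RQAPP.cen x p a v ≠ v
    · obtain ⟨k, al, CA, r1, hk, hal, hCA, hr1, -, hord⟩ :=
        Pool.Agent.H713R5.QJ.PBLAux.ord (Pool.Agent.W29.RQAPP.cen x p a) ρ hρ hcd hF0 hF1 hid
      obtain ⟨V0, hV0⟩ := hB hl
      have hlin : ∀ (c : ℂ) (V W : CV d), llR x (c • V + W) a p =
          c * llR x V a p + llR x W a p := by
        intro c V W
        rw [llR_lin]
      obtain ⟨L, hL⟩ : ∃ L : (ι → ℂ) →ₗ[ℂ] ℂ, ∀ v, L v = llR x (J v) a p :=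
        ⟨(linOf (fun V => llR x V a p) hlin).comp J, fun v => linOf_apply _ hlin (J v)⟩
      have hL0 : L ≠ 0 := by
        intro h0
        apply hV0
        rw [← hL, h0]; rfl
      have hP0 : Run7.h904.SP.PP (k + 1) ≠ 0 := by
        intro h0
        have := Run7.h904.SP.PP_im_pos (n := k + 1) (by omega)
        rw [h0, Complex.zero_im] at this
        exact lt_irrefl _ this
      have hC : ∀ᵐ V : ι → ℂ, ∀ η ∈ Run7.h904.SP.mu (k + 1), η ≠ 1 →
          (((starRingEnd ℂ) (Run7.h904.SP.PP (k + 1) * η - Run7.h904.SP.PP (k + 1))) ^ (k + 1) * al *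
            (L V) ^ k).im ≠ 0 := by
        refine (Finset.eventually_all _).mpr fun η _ => ?_
        by_cases hη : η = 1
        · exact Eventually.of_forall fun V h0 => absurd hη h0
        · have hc : ((starRingEnd ℂ) (Run7.h904.SP.PP (k + 1) * η - Run7.h904.SP.PP (k + 1))) ^
              (k + 1) * al ≠ 0 := by
            refine mul_ne_zero (pow_ne_zero _ ?_) hal
            rw [Ne, map_eq_zero]
            have e : Run7.h904.SP.PP (k + 1) * η - Run7.h904.SP.PP (k + 1) =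
              Run7.h904.SP.PP (k + 1) * (η - 1) := by ring
            rw [e]
            exact mul_ne_zero hP0 (sub_ne_zero.mpr hη)
          filter_upwards [ae_pow L hL0 _ hc k hk] with V hV _
          exact hV
      filter_upwards [ae_pow L hL0 al hal k hk, ae_pow L hL0 (Complex.I ^ (k + 1) * al)
        (mul_ne_zero (pow_ne_zero _ Complex.I_ne_zero) hal) k hk, hC] with V hVA hVB hVC
      intro z hz hlim hzx
      rw [hL] at hVA hVB
      have hVC' : ∀ η ∈ Run7.h904.SP.mu (k + 1), η ≠ 1 →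
          (((starRingEnd ℂ) (Run7.h904.SP.PP (k + 1) * η - Run7.h904.SP.PP (k + 1))) ^ (k + 1) * al *
            (llR x (J V) a p) ^ k).im ≠ 0 := by
        intro η h1 h2
        have := hVC η h1 h2
        rwa [hL] at this
      have hβ : llR x (J V) a p ≠ 0 := by
        intro h0
        rw [h0, zero_pow (by omega), mul_zero] at hVA
        exact hVA rfl
      exact typeCR hd2 x (J V) hx p h.pp a h.fin hfa k hk al hal CA r1 hCA hr1 hord hβ
        (gnr_of k hk al _ hal hVA hVB hVC') z hz (hlim' z hlim) (hzx' z hzx)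
    · refine Eventually.of_forall fun V z hz hlim hzx => absurd ?_ hid
      by_contra hcon
      push Not at hcon
      have hlim1 := hlim' z hlim
      have hne1 := hzx' z hzx
      have horb : ∀ i : ℕ, (Pool.Agent.W29.RQAPP.cen x p a)^[i] (z - a) = (fx x)^[p * i] z - a := by
        intro i
        rw [Pool.Agent.W29.RQAPP.cen_iter, add_sub_cancel]
      have hlim0 : Tendsto (fun i : ℕ => (Pool.Agent.W29.RQAPP.cen x p a)^[i] (z - a)) atTop
          (𝓝 0) := by
        simp only [horb]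
        have := hlim1.sub_const a
        simpa using this
      obtain ⟨i₀, hi₀⟩ := eventually_atTop.1 (hlim0.eventually (ball_mem_nhds (0 : ℂ) hρ))
      have hconst : ∀ j : ℕ, (Pool.Agent.W29.RQAPP.cen x p a)^[i₀ + j] (z - a) =
          (Pool.Agent.W29.RQAPP.cen x p a)^[i₀] (z - a) := by
        intro j
        induction j with
        | zero => rfl
        | succ j ih =>
          rw [← add_assoc, Function.iterate_succ_apply', hcon _ (hi₀ _ (by omega)), ih]
      have hl2 : Tendsto (fun j : ℕ => (Pool.Agent.W29.RQAPP.cen x p a)^[i₀ + j] (z - a)) atTop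
          (𝓝 0) := by
        have := (tendsto_add_atTop_iff_nat i₀).2 hlim0
        simpa [add_comm] using this
      simp only [hconst] at hl2
      have h3 := tendsto_nhds_unique tendsto_const_nhds hl2
      rw [horb, sub_eq_zero] at h3
      exact hne1 i₀ h3
  · obtain ⟨V0, hV0⟩ := hA hl
    have hlin : ∀ (c : ℂ) (V W : CV d), kapR x (c • V + W) a p lam =
        c * (kapR x V a p lam) + kapR x W a p lam := fun c V W => kapR_lin x c V W a p lam
    obtain ⟨L, hL⟩ : ∃ L : (ι → ℂ) →ₗ[ℂ] ℂ, ∀ v, L v = kapR x (J v) a p lam :=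
      ⟨(linOf (fun V => kapR x V a p lam) hlin).comp J, fun v => linOf_apply _ hlin (J v)⟩
    have hφ : L ≠ 0 := by
      intro h0
      apply hV0
      rw [← hL, h0]; rfl
    filter_upwards [ae_re_neR _ hφ] with V hre z hz hlim hzx
    rw [hL] at hre
    exact typeAR hd2 x (J V) hx p q h.pp h.qp a lam h.fin hfa h.der h.lamq hl hre z hz hlim hzx

/-- almost every direction is good for all parabolic cycles in the plane -/
lemma ae_parJ {ι : Type} [Fintype ι] {d : ℕ} (J : (ι → ℂ) →ₗ[ℂ] CV d) (hd : 2 ≤ d) (x : CV d)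
    (hx : ND x)
    (hAB : ∀ (a lam : ℂ) (p q : ℕ), ParCR x a p q lam →
      (lam ≠ 1 → ∃ v, kapR x (J v) a p lam ≠ 0) ∧ (lam = 1 → ∃ v, llR x (J v) a p ≠ 0)) :
    ∀ᵐ v : ι → ℂ, ∀ (a lam : ℂ) (p q : ℕ), ParCR x a p q lam → ∀ z : ℂ, Fin' x z →
      Tendsto (fun i : ℕ => (fx x)^[p * q * i] z) atTop (𝓝 a) →
      (∀ i : ℕ, (fx x)^[p * q * i] z ≠ a) → GR x (J v) z := by
  obtain ⟨K, hK⟩ : ∃ K : Set (ℂ × ℂ × ℕ × ℕ), K = {k | ParCR x k.1 k.2.2.1 k.2.2.2 k.2.1} := ⟨_, rfl⟩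
  have hKc : K.Countable := by
    have h1 : K ⊆ (fun k : ℂ × ℕ × ℕ => (k.1, deriv ((fx x)^[k.2.1]) k.1, k.2.1, k.2.2)) ''
        ({z : ℂ | (z : OnePoint ℂ) ∈ Function.periodicPts (sp x)} ×ˢ (univ : Set (ℕ × ℕ))) := by
      rintro ⟨a, lam, p, q⟩ hk
      rw [hK] at hk
      have hk' : ParCR x a p q lam := hk
      refine ⟨(a, p, q), ⟨?_, mem_univ _⟩, ?_⟩
      · refine Function.mk_mem_periodicPts hk'.pp ?_
        show (sp x)^[p] (a : OnePoint ℂ) = a
        rw [sp_iter x a p (fun j _ => hk'.fin j), ← hk'.per, Function.iterate_minimalPeriod]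
      · simp only [hk'.der]
    exact (((per_countable hd x hx).prod (Set.to_countable _)).image _).mono h1
  have h2 : ∀ k ∈ K, ∀ᵐ V : ι → ℂ, ∀ z : ℂ, Fin' x z →
      Tendsto (fun i : ℕ => (fx x)^[k.2.2.1 * k.2.2.2 * i] z) atTop (𝓝 k.1) →
      (∀ i : ℕ, (fx x)^[k.2.2.1 * k.2.2.2 * i] z ≠ k.1) → GR x (J V) z := by
    intro k hk
    rw [hK] at hk
    exact dir_aeJ J hd x hx k.1 k.2.1 k.2.2.1 k.2.2.2 hk (hAB _ _ _ _ hk).1 (hAB _ _ _ _ hk).2
  filter_upwards [(ae_ball_iff hKc).2 h2] with V hV a lam p q hpar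
  exact hV (a, lam, p, q) (by rw [hK]; exact hpar)

/-- good points are good for the perturbation -/
lemma gs_of_gdJ {d : ℕ} (hd : 2 ≤ d) (x : CV d) (hx : ND x)
    (hpinf : ∀ (a : OnePoint ℂ) (p q : ℕ), ParS (sp x) p q a → ∀ n : ℕ, (sp x)^[n] a ≠ ∞) (V : CV d)
    (hV : ∀ (a lam : ℂ) (p q : ℕ), ParCR x a p q lam → ∀ z : ℂ, Fin' x z →
      Tendsto (fun i : ℕ => (fx x)^[p * q * i] z) atTop (𝓝 a) →
      (∀ i : ℕ, (fx x)^[p * q * i] z ≠ a) → GR x V z) (z : ℂ) (hz : Fin' x z)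
    (h : Gd x (z : OnePoint ℂ)) : GS x V (z : OnePoint ℂ) := by
  rcases h with h | ⟨a, p, q, hpar, hlim, hne⟩
  · exact GS_of_attd hd x V hx _ h
  · have hfin := hpinf a p q hpar
    obtain ⟨α, rfl⟩ : ∃ α : ℂ, a = α := by
      have := hfin 0
      induction a using OnePoint.rec with
      | infty => exact absurd rfl this
      | coe ζ => exact ⟨ζ, rfl⟩
    have hFα : Fin' x α := fin_of x α hfin
    obtain ⟨lam, hpc⟩ := parCR_of hFα hpar
    have hiζ : ∀ n : ℕ, (sp x)^[n] (z : OnePoint ℂ) = (((fx x)^[n] z : ℂ) : OnePoint ℂ) :=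
      fun n => sp_iter x z n (fun j _ => hz j)
    refine GS_of_GR x V z (hV α lam p q hpc z hz ?_ ?_)
    · rw [(OnePoint.isOpenEmbedding_coe.isInducing).tendsto_nhds_iff]
      refine hlim.congr fun k => ?_
      simp only [Function.comp]
      rw [hiζ]
    · intro k h0
      apply hne (p * q * k)
      rw [hiζ, h0]

/-- points with a good image are good for the perturbation -/
lemma gs_of_gdEJ {d : ℕ} (hd : 2 ≤ d) (x : CV d) (hx : ND x)
    (hpinf : ∀ (a : OnePoint ℂ) (p q : ℕ), ParS (sp x) p q a → ∀ n : ℕ, (sp x)^[n] a ≠ ∞) (V : CV d)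
    (hV : ∀ (a lam : ℂ) (p q : ℕ), ParCR x a p q lam → ∀ z : ℂ, Fin' x z →
      Tendsto (fun i : ℕ => (fx x)^[p * q * i] z) atTop (𝓝 a) →
      (∀ i : ℕ, (fx x)^[p * q * i] z ≠ a) → GR x V z) (z : ℂ) (hz : Fin' x z)
    (h : GdE x (z : OnePoint ℂ)) : GS x V (z : OnePoint ℂ) := by
  obtain ⟨k, hk⟩ := h
  rw [sp_iter x z k (fun j _ => hz j)] at hk
  have hzk : Fin' x ((fx x)^[k] z) := by
    intro j
    rw [← Function.iterate_add_apply]
    exact hz _
  obtain ⟨U, hU, hev⟩ := gs_of_gdJ hd x hx hpinf V hV _ hzk hk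
  obtain ⟨l, hl⟩ : ∃ l : Filter (ℝ × ℂ), l = 𝓝[>] (0 : ℝ) ×ˢ 𝓝 z := ⟨_, rfl⟩
  have hl1 : Tendsto (fun q : ℝ × ℂ => q.1) l (𝓝[>] 0) := by rw [hl]; exact tendsto_fst
  have hl2 : Tendsto (fun q : ℝ × ℂ => q.2) l (𝓝 z) := by rw [hl]; exact tendsto_snd
  have h1 := itG x V hl1 (fun q => q.2) z hl2 k (fun j _ => hz j)
  have h2 : ∀ᶠ q : ℝ × ℂ in l, (((fx (Xt x V q.1))^[k] q.2 : ℂ) : OnePoint ℂ) ∈ U :=
    ((OnePoint.continuous_coe.tendsto _).comp h1).eventually hU
  have h3 : ∀ᶠ q : ℝ × ℂ in l, ∀ j < k, (de (Xt x V q.1)).eval ((fx (Xt x V q.1))^[j] q.2) ≠ 0 := by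
    have h4 := Pool.Agent.W29.RQAPP.ne_nhds k (x, z) (fun j _ => hz j)
    have h5 : Tendsto (fun q : ℝ × ℂ => ((Xt x V q.1, q.2) : CV d × ℂ)) l (𝓝 (x, z)) :=
      ((Xt_tendsto x V).comp hl1).prodMk_nhds hl2
    exact h5.eventually h4
  have h4 : ∀ᶠ q : ℝ × ℂ in l, Attd (sp (Xt x V q.1)) (q.2 : OnePoint ℂ) := by
    filter_upwards [h2, h3, hl1.eventually hev, hl1.eventually (Xt_ND x V hx)] with q q2 q3 q4 q5
    have q6 := q4 _ q2
    rw [← sp_iter _ q.2 k q3] at q6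
    exact attd_iter (sp_cont hd _ q5) _ q6
  rw [hl, eventually_prod_iff] at h4
  obtain ⟨pa, hpa, pb, hpb, H⟩ := h4
  refine ⟨(fun u : ℂ => (u : OnePoint ℂ)) '' {z | pb z}, ?_, ?_⟩
  · exact OnePoint.isOpenEmbedding_coe.isOpenMap.image_mem_nhds hpb
  · filter_upwards [hpa] with t ht
    rintro _ ⟨z', hz', rfl⟩
    exact H ht hz'

end Run7.h904.RF
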