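import Mathlib
import Pool.Agent.Run7.h904.T2Seq
import Pool.Agent.Run7.h904.PTr

set_option autoImplicit false

open Topology Filter Metric Set Polynomial MeasureTheory Asymptotics Pointwise
open scoped OnePoint ENNReal

namespace Run7.h904.RF

open Pool.Agent.H790R3.RB (CV hF cr ND wr rt sp pr hc pol Sink Attd HypTop)
open Pool.Agent.W757.QR Pool.Agent.W757.RF Pool.Agent.W757.Q2
open Pool.Agent.W29.RQSNK (sp_iter fin_of sp_fx)
open Pool.Agent.H713R5.QJ (ev)

/-! ### polynomials as rational maps -/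

/-- the perturbations of the numerator -/
noncomputable def JP (d : ℕ) : (Fin (d + 1) → ℂ) →ₗ[ℂ] CV d where
  toFun v := fun r => if r.1 = 0 then v r.2 else 0
  map_add' v w := by
    ext r
    by_cases h : r.1 = 0 <;> simp [h]
  map_smul' c v := by
    ext r
    by_cases h : r.1 = 0 <;> simp [h]

/-- the polynomial with the given coefficients -/
noncomputable def pl {d : ℕ} (v : Fin (d + 1) → ℂ) : ℂ[X] := ∑ j : Fin (d + 1), monomial (j : ℕ) (v j)

lemma nu_JP {d : ℕ} (v : Fin (d + 1) → ℂ) : nu (JP d v) = pl v := by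
  unfold nu pol pl
  refine Finset.sum_congr rfl fun j _ => ?_
  simp [JP]

lemma de_JP {d : ℕ} (v : Fin (d + 1) → ℂ) : de (JP d v) = 0 := by
  unfold de pol
  refine Finset.sum_eq_zero fun j _ => ?_
  simp [JP]

/-- the vector of a polynomial -/
noncomputable def xP {d : ℕ} (a : Fin (d + 1) → ℂ) : CV d :=
  fun r => if r.1 = 0 then a r.2 else if r.2 = 0 then 1 else 0

lemma nu_xP {d : ℕ} (a : Fin (d + 1) → ℂ) : nu (xP a) = pl a := by
  unfold nu pol pl
  refine Finset.sum_congr rfl fun j _ => ?_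
  simp [xP]

lemma de_xP {d : ℕ} (a : Fin (d + 1) → ℂ) : de (xP a) = 1 := by
  unfold de pol
  rw [Finset.sum_eq_single 0]
  · simp [xP]
  · intro j _ hj
    simp [xP, hj]
  · intro h
    exact absurd (Finset.mem_univ _) h

lemma Xt_xP {d : ℕ} (a v : Fin (d + 1) → ℂ) (t : ℝ) : Xt (xP a) (JP d v) t = xP (a + t • v) := by
  ext r
  by_cases h : r.1 = 0
  · simp [Xt, xP, JP, h]
  · simp [Xt, xP, JP, h]

lemma xP_cont {d : ℕ} : Continuous (xP : (Fin (d + 1) → ℂ) → CV d) := by
  refine continuous_pi fun r => ?_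
  by_cases h : r.1 = 0
  · simp only [xP, h, if_true]
    exact continuous_apply _
  · simp only [xP, h, if_false]
    exact continuous_const

lemma exists_pl {d : ℕ} (H : ℂ[X]) (hH : H.natDegree ≤ d) : pl (fun j : Fin (d + 1) => H.coeff j) = H := by
  rw [← nu_JP]
  have h1 := nu_ofP (d := d) H 0 hH
  rw [← h1]
  congr 1
  ext r
  by_cases h : r.1 = 0
  · rw [h1]
    simp [JP, ofP, h]
  · simp [JP, ofP, h]

lemma pl_natDegree {d : ℕ} (a : Fin (d + 1) → ℂ) : (pl a).natDegree ≤ d := by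
  rw [← nu_JP]
  exact Pool.Agent.H790R3.RB.PQ.pol_natDegree (JP d a) 0

lemma fx_ev {d : ℕ} {x : CV d} (h : de x = 1) : fx x = ev (nu x) := by
  funext z
  simp [fx, fr, h, ev]

lemma fin_all {d : ℕ} {x : CV d} (h : de x = 1) (z : ℂ) : Fin' x z := by
  intro j
  rw [h]
  simp

lemma d1_one (P : ℂ[X]) (z : ℂ) : d1 P 1 z = (derivative P).eval z := by simp [d1, wn]
lemma d2_one (P : ℂ[X]) (z : ℂ) : d2 P 1 z = (derivative (derivative P)).eval z := by simp [d2, wn]
lemma hv_one (H : ℂ[X]) (z : ℂ) : hv 1 H z = H.eval z := by simp [hv]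
lemma hd_one (H : ℂ[X]) (z : ℂ) : hd 1 H z = (derivative H).eval z := by simp [hd]

lemma hh_JP {d : ℕ} {x : CV d} (h : de x = 1) (v : Fin (d + 1) → ℂ) : hh x (JP d v) = pl v := by
  simp [hh, h, nu_JP, de_JP]

lemma ddR_ev {d : ℕ} {x : CV d} (h : de x = 1) (a : ℂ) (n : ℕ) :
    ddR x a n = Run7.h904.PF.dd (nu x) a n := by
  unfold ddR Run7.h904.PF.dd
  refine Finset.prod_congr rfl fun i _ => ?_
  rw [h, d1_one, fx_ev h]

lemma llR_ev {d : ℕ} {x : CV d} (h : de x = 1) (v : Fin (d + 1) → ℂ) (a : ℂ) (n : ℕ) :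
    llR x (JP d v) a n = Run7.h904.PF.ll (nu x) (pl v) a n := by
  induction n with
  | zero => rfl
  | succ n ih =>
    simp only [llR, Run7.h904.PF.ll]
    rw [ih, hh_JP h, h, d1_one, hv_one, fx_ev h]

lemma kapR_ev {d : ℕ} {x : CV d} (h : de x = 1) (v : Fin (d + 1) → ℂ) (a : ℂ) (p : ℕ) (lam : ℂ) :
    kapR x (JP d v) a p lam = Run7.h904.PF.kap (nu x) (pl v) a p lam := by
  unfold kapR Run7.h904.PF.kap
  refine Finset.sum_congr rfl fun i _ => ?_
  rw [ddR_ev h, llR_ev h, llR_ev h, hh_JP h, h, d1_one, d2_one, hd_one, fx_ev h]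

/-- transversality of the parabolic cycles in the family of polynomials -/
theorem transP {d : ℕ} (hd2 : 2 ≤ d) (x : CV d) (h : de x = 1) (hdeg : (nu x).natDegree = d)
    (a lam : ℂ) (p q : ℕ) (hp : ParCR x a p q lam) :
    (lam ≠ 1 → ∃ v, kapR x (JP d v) a p lam ≠ 0) ∧ (lam = 1 → ∃ v, llR x (JP d v) a p ≠ 0) := by
  have hT : 2 ≤ (nu x).natDegree := by omega
  have hnorm : ‖lam‖ = 1 := by
    have := congrArg norm hp.lamq
    rw [norm_pow, norm_one] at this
    exact (pow_eq_one_iff_of_nonneg (norm_nonneg _) hp.qp.ne').mp this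
  have hper : Function.minimalPeriod (ev (nu x)) a = p := by
    rw [← fx_ev h]; exact hp.per
  have hder : deriv ((ev (nu x))^[p]) a = lam := by
    rw [← fx_ev h]; exact hp.der
  constructor
  · intro hl
    obtain ⟨H, hH, hk⟩ := Run7.h904.PF.transA (nu x) hT a lam p hp.pp hper hder hnorm hl
    refine ⟨fun j => H.coeff j, ?_⟩
    rw [kapR_ev h, exists_pl H (by omega)]
    exact hk
  · intro hl
    obtain ⟨H, hH, hk⟩ := Run7.h904.PF.transB (nu x) hT a p hp.pp hper (by rw [hder, hl])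
    refine ⟨fun j => H.coeff j, ?_⟩
    rw [llR_ev h, exists_pl H (by omega)]
    exact hk

/-- growth of polynomials -/
lemma growth (T : ℂ[X]) (hT : 2 ≤ T.natDegree) :
    ∃ R : ℝ, 0 < R ∧ ∀ z : ℂ, R ≤ ‖z‖ → 2 * ‖z‖ ≤ ‖T.eval z‖ := by
  have h1 : 0 < T.divX.degree := by
    rw [← natDegree_pos_iff_degree_pos, natDegree_divX_eq_natDegree_tsub_one]
    omega
  have h2 : Tendsto (fun z : ℂ => ‖T.divX.eval z‖) (cocompact ℂ) atTop :=
    Polynomial.tendsto_norm_atTop T.divX h1 tendsto_norm_cocompact_atTop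
  have h3 := h2.eventually (eventually_ge_atTop (3 : ℝ))
  rw [← Metric.cobounded_eq_cocompact, ← comap_norm_atTop, eventually_comap] at h3
  obtain ⟨R₁, hR₁⟩ := h3.exists_forall_of_atTop
  refine ⟨max (max R₁ ‖T.coeff 0‖) 1, by positivity, fun z hz => ?_⟩
  have hz1 : R₁ ≤ ‖z‖ := ((le_max_left _ _).trans (le_max_left _ _)).trans hz
  have hz2 : ‖T.coeff 0‖ ≤ ‖z‖ := ((le_max_right _ _).trans (le_max_left _ _)).trans hz
  have h4 := hR₁ ‖z‖ hz1 z rfl
  have h5 : T.eval z = T.divX.eval z * z + T.coeff 0 := by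
    conv_lhs => rw [← T.divX_mul_X_add]
    simp
  have h6 : ‖T.divX.eval z * z‖ ≤ ‖T.eval z‖ + ‖T.coeff 0‖ := by
    have : T.divX.eval z * z = T.eval z - T.coeff 0 := by rw [h5]; ring
    rw [this]
    exact norm_sub_le _ _
  rw [norm_mul] at h6
  nlinarith [norm_nonneg z]

/-- a sum of simple poles which vanishes far away is trivial -/
lemma poles_far (Z : Finset ℂ) (b : ℂ → ℂ) (R : ℝ)
    (h : ∀ ζ : ℂ, ζ ∉ Z → R < ‖ζ‖ → qd Z (fun _ => 0) b ζ = 0) : ∀ z ∈ Z, b z = 0 := by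
  classical
  obtain ⟨N, hN⟩ : ∃ N : ℂ[X], N = ∑ z ∈ Z, C (b z) * ∏ z' ∈ Z.erase z, (X - C z') := ⟨_, rfl⟩
  have hNe : ∀ ζ : ℂ, N.eval ζ = ∑ z ∈ Z, b z * ∏ z' ∈ Z.erase z, (ζ - z') := by
    intro ζ
    rw [hN, eval_finsetSum]
    refine Finset.sum_congr rfl fun z _ => ?_
    rw [eval_mul, eval_C, eval_prod]
    congr 1
    refine Finset.prod_congr rfl fun z' _ => ?_
    simp
  have hN0 : ∀ ζ : ℂ, ζ ∉ Z → R < ‖ζ‖ → N.eval ζ = 0 := by
    intro ζ hζ hR
    have h1 := h ζ hζ hR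
    rw [qd_zero] at h1
    rw [hNe]
    have h2 : ∑ z ∈ Z, b z * ∏ z' ∈ Z.erase z, (ζ - z') =
        (∏ z' ∈ Z, (ζ - z')) * ∑ z ∈ Z, b z / (ζ - z) := by
      rw [Finset.mul_sum]
      refine Finset.sum_congr rfl fun z hz => ?_
      have hne : ζ - z ≠ 0 := sub_ne_zero.2 (fun h0 => hζ (h0 ▸ hz))
      rw [← Finset.mul_prod_erase Z (fun z' => ζ - z') hz]
      field_simp
    rw [h2, h1, mul_zero]
  have hNz : N = 0 := by
    refine Polynomial.eq_zero_of_infinite_isRoot N ?_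
    have h1 : (({ζ : ℂ | R < ‖ζ‖} \ (Z : Set ℂ))).Infinite := by
      refine Set.Infinite.sdiff ?_ Z.finite_toSet
      intro hfin
      have h2 := hfin.measure_zero volume
      have h3 : IsOpen {ζ : ℂ | R < ‖ζ‖} := isOpen_lt continuous_const continuous_norm
      refine (h3.measure_pos volume ⟨((|R| + 1 : ℝ) : ℂ), ?_⟩).ne' h2
      show R < ‖((|R| + 1 : ℝ) : ℂ)‖
      rw [Complex.norm_of_nonneg (by positivity)]
      linarith [le_abs_self R]
    exact h1.mono fun ζ hζ => hN0 ζ hζ.2 hζ.1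
  intro z hz
  have h1 := hNe z
  rw [hNz, eval_zero, Finset.sum_eq_single z] at h1
  · rcases mul_eq_zero.1 h1.symm with h2 | h2
    · exact h2
    · exfalso
      rw [Finset.prod_eq_zero_iff] at h2
      obtain ⟨z', hz', h3⟩ := h2
      exact (Finset.mem_erase.1 hz').1 (sub_eq_zero.1 h3).symm
  · intro z₂ hz₂ hne
    rw [Finset.prod_eq_zero (Finset.mem_erase.2 ⟨hne.symm, hz⟩) (sub_self z), mul_zero]
  · intro h2
    exact absurd hz h2

/-- a quadratic differential with simple poles which is invariant under a polynomial is trivial -/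
theorem no_invP {d : ℕ} {P : ℂ[X]} {Z : Finset ℂ} {b : ℂ → ℂ} (hT : RM d P 1)
    (hinv : ∀ y : ℂ, y ∉ Z → Gv d P 1 y →
      ∑ ζ ∈ pre P 1 y, qd Z (fun _ => 0) b ζ / d1 P 1 ζ ^ 2 = qd Z (fun _ => 0) b y) :
    ∀ z ∈ Z, b z = 0 := by
  classical
  have hdeg : 2 ≤ P.natDegree := by
    obtain ⟨h1, -, h2⟩ := hT
    rw [natDegree_one, max_eq_left (Nat.zero_le _)] at h2
    omega
  obtain ⟨R₀, hR₀, hgr⟩ := growth P hdeg
  have hqm : Measurable (qd Z (fun _ => 0) b) :=
    Pool.Agent.H713R5.QJ.INJ.qd_measurable Z (fun _ => 0) b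
  obtain ⟨φ, hφ⟩ : ∃ φ : ℂ → ℝ≥0∞, φ = fun ζ => ENNReal.ofReal ‖qd Z (fun _ => 0) b ζ‖ := ⟨_, rfl⟩
  have hφm : Measurable φ := by rw [hφ]; fun_prop
  have key : ∀ R : ℝ, 2 * R₀ ≤ R → ∫⁻ w in (ball (0 : ℂ) R \ ball 0 (R / 2)), φ w = 0 := by
    intro R hR
    have h1 := Pool.Agent.W85.RQINJ.mass_le Pool.Agent.W40.RQAF.task P 1 Z (fun _ => 0) b hT hinv
      (ball 0 R) measurableSet_ball
    have h2 : {z : ℂ | (1 : ℂ[X]).eval z ≠ 0 ∧ fr P 1 z ∈ ball (0 : ℂ) R} ⊆ ball 0 (R / 2) := by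
      rintro z ⟨-, hz⟩
      rw [mem_ball, dist_zero_right] at hz ⊢
      by_contra hcon
      push Not at hcon
      have h3 := hgr z (by linarith)
      unfold fr at hz
      rw [eval_one, div_one] at hz
      linarith
    have h3 : ∫⁻ w in ball (0 : ℂ) R, φ w ≤ ∫⁻ w in ball (0 : ℂ) (R / 2), φ w := by
      rw [hφ]
      exact h1.trans (lintegral_mono_set h2)
    have hsub : ball (0 : ℂ) (R / 2) ⊆ ball 0 R := ball_subset_ball (by linarith)
    have h4 : ∫⁻ w in ball (0 : ℂ) R, φ w = (∫⁻ w in ball (0 : ℂ) (R / 2), φ w) +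
        ∫⁻ w in (ball (0 : ℂ) R \ ball 0 (R / 2)), φ w := by
      have h5 := lintegral_inter_add_sdiff φ (ball (0 : ℂ) R) (measurableSet_ball (x := (0 : ℂ)) (ε := R / 2))
        (μ := volume)
      rw [inter_eq_self_of_subset_right hsub] at h5
      exact h5.symm
    rw [h4] at h3
    have hfin : ∫⁻ w in ball (0 : ℂ) (R / 2), φ w ≠ ⊤ := by
      rw [hφ]; exact lint_qd_ball Z b (R / 2)
    by_contra hne
    have h6 : ∫⁻ w in ball (0 : ℂ) (R / 2), φ w < (∫⁻ w in ball (0 : ℂ) (R / 2), φ w) +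
        ∫⁻ w in (ball (0 : ℂ) R \ ball 0 (R / 2)), φ w := ENNReal.lt_add_right hfin hne
    exact absurd h3 (not_le.2 h6)
  refine poles_far Z b (2 * R₀) fun ζ hζ hR => ?_
  by_contra hne
  obtain ⟨R, hRd⟩ : ∃ R : ℝ, R = 3 / 2 * ‖ζ‖ := ⟨_, rfl⟩
  have h1 := key R (by linarith)
  rw [lintegral_eq_zero_iff hφm] at h1
  have hc : ContinuousAt (qd Z (fun _ => 0) b) ζ := Pool.Agent.W378.Q2INJ.qd_contAt hζ
  have h2 := hc.eventually_ne hne
  have hann : ∀ᶠ w in 𝓝 ζ, w ∈ ball (0 : ℂ) R \ ball 0 (R / 2) := by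
    have h3 : ∀ᶠ w in 𝓝 ζ, ‖w‖ < R := by
      have : ContinuousAt (fun w : ℂ => ‖w‖) ζ := continuous_norm.continuousAt
      exact this.eventually (gt_mem_nhds (by linarith))
    have h4 : ∀ᶠ w in 𝓝 ζ, R / 2 < ‖w‖ := by
      have : ContinuousAt (fun w : ℂ => ‖w‖) ζ := continuous_norm.continuousAt
      exact this.eventually (lt_mem_nhds (by linarith))
    filter_upwards [h3, h4] with w h5 h6
    refine ⟨by rwa [mem_ball, dist_zero_right], ?_⟩
    rw [mem_ball, dist_zero_right, not_lt]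
    exact h6.le
  obtain ⟨ρ, hρ, hb⟩ := Metric.eventually_nhds_iff_ball.1 (h2.and hann)
  have h3 : volume (ball ζ ρ) = 0 := by
    rw [Filter.EventuallyEq, ae_restrict_iff' (measurableSet_ball.diff measurableSet_ball)] at h1
    refine measure_mono_null ?_ (ae_iff.1 h1)
    intro w hw h4
    have h5 := h4 (hb w hw).2
    rw [hφ] at h5
    simp only [Pi.zero_apply, ENNReal.ofReal_eq_zero] at h5
    exact (hb w hw).1 (norm_le_zero_iff.1 h5)
  exact (isOpen_ball.measure_pos volume ⟨ζ, mem_ball_self hρ⟩).ne' h3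

/-- transversality of critical relations in the family of polynomials -/
theorem critTP {d : ℕ} (hd2 : 2 ≤ d) (x : CV d) (hx : ND x) (hde : de x = 1)
    (c : ℂ) (hc : (wn (nu x) (de x)).eval c = 0) (m N : ℕ) (hmN : m < N)
    (hper : (fx x)^[N] (fx x c) = (fx x)^[m] (fx x c))
    (hne : ∀ i : ℕ, (de x).eval ((fx x)^[i] (fx x c)) ≠ 0 ∧
      (wn (nu x) (de x)).eval ((fx x)^[i] (fx x c)) ≠ 0)
    (hinj : ∀ i < N, 0 < i → (fx x)^[i] (fx x c) ≠ fx x c)
    (hD : ddR x (fx x c) N ≠ ddR x (fx x c) m) :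
    ∃ v, llR x (JP d v) c (N + 1) ≠ llR x (JP d v) c (m + 1) := by
  classical
  by_contra hcon
  push Not at hcon
  have hT := Pool.Agent.W40.RQCURVE.RM_of hd2 hx
  have hinv := inv_of_rel hT c hc (by rw [hde]; simp) m N hmN hper hne (by
    intro H _ hH
    have hH' : H.natDegree ≤ d := (hH hde).trans (by omega)
    have := hcon (fun j => H.coeff j)
    rw [lH_eq, lH_eq, hh_JP hde, exists_pl H hH'] at this
    exact this)
  have hb := no_invP (P := nu x) (by rw [hde] at hT; exact hT) (by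
    rw [hde] at hinv
    exact hinv) (fx x c) (by
      unfold ZZ
      refine Finset.mem_image.2 ⟨0, Finset.mem_range.2 (by omega), ?_⟩
      rw [Function.iterate_zero_apply]
      show fr (nu x) 1 c = fr (nu x) (de x) c
      rw [hde])
  rw [← hde] at hb
  change bb (nu x) (de x) (fr (nu x) (de x) c) m N (fr (nu x) (de x) c) = 0 at hb
  have h1 : ∀ (n : ℕ) (w : ℂ), 0 < n → n ≤ N → (∑ i ∈ Finset.range n,
      if (fr (nu x) (de x))^[i] (fr (nu x) (de x) c) = fr (nu x) (de x) c then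
        w / dH (nu x) (de x) (fr (nu x) (de x) c) i else 0) = w := by
    intro n w hn hnN
    rw [Finset.sum_eq_single 0]
    · rw [Function.iterate_zero_apply, if_pos rfl]
      simp [dH]
    · intro i hi hi0
      rw [if_neg]
      exact hinj i (by have := Finset.mem_range.1 hi; omega) (by omega)
    · intro h
      exact absurd (Finset.mem_range.2 hn) h
  unfold bb at hb
  rw [h1 N _ (by omega) le_rfl] at hb
  rcases Nat.eq_zero_or_pos m with hm | hm
  · rw [hm, Finset.range_zero, Finset.sum_empty, sub_zero] at hb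
    have : dH (nu x) (de x) (fx x c) N ≠ 0 := by
      unfold dH
      rw [Finset.prod_ne_zero_iff]
      intro i _
      exact div_ne_zero (hne i).2 (pow_ne_zero _ (hne i).1)
    exact this hb
  · rw [h1 m _ hm hmN.le] at hb
    exact hD (sub_eq_zero.1 hb)

/-- the data of a preperiodic critical point with a non-zero functional -/
theorem pre_dataJ {ι : Type} [Fintype ι] {d : ℕ} (J : (ι → ℂ) →ₗ[ℂ] CV d) (x : CV d)
    (hcT : ∀ c : ℂ, (wn (nu x) (de x)).eval c = 0 → ∀ m N : ℕ, m < N →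
      (fx x)^[N] (fx x c) = (fx x)^[m] (fx x c) →
      (∀ i : ℕ, (de x).eval ((fx x)^[i] (fx x c)) ≠ 0 ∧
        (wn (nu x) (de x)).eval ((fx x)^[i] (fx x c)) ≠ 0) →
      (∀ i < N, 0 < i → (fx x)^[i] (fx x c) ≠ fx x c) →
      ddR x (fx x c) N ≠ ddR x (fx x c) m →
      ∃ v, llR x (J v) c (N + 1) ≠ llR x (J v) c (m + 1))
    (c₀ : ℂ) (hc : (wn (nu x) (de x)).eval c₀ = 0) (hfin : Fin' x c₀) (M' p' : ℕ) (hp' : 0 < p')
    (hper : (fx x)^[p'] ((fx x)^[M'] c₀) = (fx x)^[M'] c₀)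
    (hrep : 1 < ‖ddR x ((fx x)^[M'] c₀) p'‖) :
    ∃ (b : ℂ) (M p : ℕ) (lam : ℂ), PreR x c₀ b M p lam ∧
      ∃ v, ffR x (J v) c₀ b M p lam ≠ 0 := by
  classical
  have hfin' : ∀ n, Fin' x ((fx x)^[n] c₀) := by
    intro n j
    rw [← Function.iterate_add_apply]
    exact hfin _
  have hex : ∃ M, (fx x)^[M] c₀ ∈ Function.periodicPts (fx x) :=
    ⟨M', Function.mk_mem_periodicPts hp' hper⟩
  obtain ⟨M, hM⟩ : ∃ M, M = Nat.find hex := ⟨_, rfl⟩
  have hMs : (fx x)^[M] c₀ ∈ Function.periodicPts (fx x) := by rw [hM]; exact Nat.find_spec hex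
  have hMmin : ∀ k, (fx x)^[k] c₀ ∈ Function.periodicPts (fx x) → M ≤ k := by
    intro k hk
    rw [hM]
    exact Nat.find_min' hex hk
  have hMM' : M ≤ M' := hMmin M' (Function.mk_mem_periodicPts hp' hper)
  obtain ⟨b, hb⟩ : ∃ b, b = (fx x)^[M] c₀ := ⟨_, rfl⟩
  rw [← hb] at hMs
  obtain ⟨p, hp⟩ : ∃ p, p = Function.minimalPeriod (fx x) b := ⟨_, rfl⟩
  have hpp : 0 < p := by rw [hp]; exact Function.minimalPeriod_pos_of_mem_periodicPts hMs
  have hpb : (fx x)^[p] b = b := by rw [hp]; exact Function.iterate_minimalPeriod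
  have hb' : (fx x)^[M'] c₀ = (fx x)^[M' - M] b := by
    rw [hb, ← Function.iterate_add_apply]
    congr 1
    omega
  -- the product over the cycle
  have hdvd : p ∣ p' := by
    have h1 : Function.minimalPeriod (fx x) ((fx x)^[M' - M] b) = p := by
      rw [hp]
      exact Function.minimalPeriod_apply_iterate hMs _
    rw [← h1, ← hb']
    exact Function.IsPeriodicPt.minimalPeriod_dvd hper
  have hpb' : (fx x)^[p'] b = b := by
    obtain ⟨q, rfl⟩ := hdvd
    rw [Function.iterate_mul]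
    exact Function.iterate_fixed hpb q
  have hne0 : ∀ i, d1 (nu x) (de x) ((fx x)^[i] b) ≠ 0 := by
    intro i h0
    -- the point is in the cycle of `b'`
    have h1 : ddR x ((fx x)^[M'] c₀) p' = 0 := by
      unfold ddR
      -- choose the index
      obtain ⟨j, hj, hji⟩ : ∃ j < p', (fx x)^[j] ((fx x)^[M'] c₀) = (fx x)^[i] b := by
        obtain ⟨s, hs⟩ : ∃ s, s = i + p' * (M' - M) - (M' - M) := ⟨_, rfl⟩
        refine ⟨s % p', Nat.mod_lt _ hp', ?_⟩
        have h2 : (fx x)^[s] ((fx x)^[M'] c₀) = (fx x)^[i] b := by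
          rw [hb', ← Function.iterate_add_apply]
          have h3 : M' - M ≤ p' * (M' - M) := Nat.le_mul_of_pos_left _ hp'
          have h4 : s + (M' - M) = i + p' * (M' - M) := by omega
          rw [h4, Function.iterate_add_apply, Function.iterate_mul,
            Function.iterate_fixed hpb']
        rw [← h2]
        conv_rhs => rw [← Nat.mod_add_div s p', Function.iterate_add_apply, Function.iterate_mul,
            Function.iterate_fixed hper]
      refine Finset.prod_eq_zero (Finset.mem_range.2 hj) ?_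
      rw [hji, h0]
    rw [h1, norm_zero] at hrep
    linarith
  have hDb : ∀ n, ddR x b n ≠ 0 := by
    intro n
    unfold ddR
    rw [Finset.prod_ne_zero_iff]
    exact fun i _ => hne0 i
  obtain ⟨lam, hlam⟩ : ∃ lam, lam = ddR x b p := ⟨_, rfl⟩
  have hlam1 : 1 < ‖lam‖ := by
    have h1 : ddR x b p' = ddR x ((fx x)^[M'] c₀) p' := by
      have h2 := ddR_add x b (M' - M) p'
      have h3 := ddR_add x b p' (M' - M)
      rw [hpb', add_comm p', h2, ← hb', mul_comm] at h3
      exact (mul_right_cancel₀ (hDb _) h3).symm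
    obtain ⟨q, hq⟩ := hdvd
    have h2 : ∀ q : ℕ, ddR x b (p * q) = lam ^ q := by
      intro q
      induction q with
      | zero => simp [ddR]
      | succ q ih =>
        rw [Nat.mul_succ, ddR_add, ih, Function.iterate_mul, Function.iterate_fixed hpb, ← hlam,
          pow_succ]
    rw [← h1, hq, h2, norm_pow] at hrep
    by_contra hcon
    push Not at hcon
    have := pow_le_one₀ (n := q) (norm_nonneg lam) hcon
    linarith
  -- `M` is positive
  have hM0 : 0 < M := by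
    rcases Nat.eq_zero_or_pos M with h0 | h0
    · exfalso
      rw [h0] at hb
      apply hne0 0
      rw [hb]
      show (wn (nu x) (de x)).eval c₀ / _ = 0
      rw [hc, zero_div]
    · exact h0
  have hfb : Fin' x b := by rw [hb]; exact hfin' M
  have hder : deriv ((fx x)^[p]) b = lam := by
    rw [hlam]
    exact (derR x b p fun j _ => hfb j).deriv
  refine ⟨b, M, p, lam, ⟨hc, hM0, hpp, hfin, hfb, hb.symm, hpb, hder, hlam1⟩, ?_⟩
  -- the last critical time
  obtain ⟨k, hk⟩ : ∃ k, k = Nat.findGreatest (fun j => (wn (nu x) (de x)).eval ((fx x)^[j] c₀) = 0) M :=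
    ⟨_, rfl⟩
  have hkc : (wn (nu x) (de x)).eval ((fx x)^[k] c₀) = 0 := by
    rw [hk]
    exact Nat.findGreatest_spec (P := fun j => (wn (nu x) (de x)).eval ((fx x)^[j] c₀) = 0)
      (Nat.zero_le M) (by simpa using hc)
  have hwb : ∀ i, (wn (nu x) (de x)).eval ((fx x)^[i] b) ≠ 0 := by
    intro i h0
    apply hne0 i
    show (wn (nu x) (de x)).eval ((fx x)^[i] b) / _ = 0
    rw [h0, zero_div]
  have hkM : k < M := by
    have h1 : k ≤ M := by rw [hk]; exact Nat.findGreatest_le M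
    rcases h1.lt_or_eq with h | h
    · exact h
    · exfalso
      rw [h, ← hb] at hkc
      exact hwb 0 hkc
  have hafter : ∀ j, k < j → (wn (nu x) (de x)).eval ((fx x)^[j] c₀) ≠ 0 := by
    intro j hj
    rcases Nat.lt_or_ge M j with h | h
    · have e : (fx x)^[j] c₀ = (fx x)^[j - M] b := by
        rw [hb, ← Function.iterate_add_apply]
        congr 1
        omega
      rw [e]
      exact hwb _
    · rw [hk] at hj
      exact Nat.findGreatest_is_greatest hj h
  obtain ⟨c, hcc⟩ : ∃ c, c = (fx x)^[k] c₀ := ⟨_, rfl⟩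
  rw [← hcc] at hkc
  have hv : ∀ i, (fx x)^[i] (fx x c) = (fx x)^[k + 1 + i] c₀ := by
    intro i
    rw [hcc, ← Function.iterate_succ_apply' (fx x) k c₀, ← Function.iterate_add_apply]
    congr 1
    omega
  obtain ⟨m, hm⟩ : ∃ m, m = M - (k + 1) := ⟨_, rfl⟩
  have hMk : k + 1 + m = M := by omega
  have hvm : (fx x)^[m] (fx x c) = b := by rw [hv, hMk, hb]
  have hvN : (fx x)^[m + p] (fx x c) = b := by
    rw [add_comm, Function.iterate_add_apply, hvm, hpb]
  have hdv : ddR x (fx x c) m ≠ 0 := by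
    unfold ddR
    rw [Finset.prod_ne_zero_iff]
    intro i _
    rw [hv]
    exact div_ne_zero (hafter _ (by omega)) (pow_ne_zero _ (hfin _))
  obtain ⟨v₀, hV⟩ := hcT c hkc m (m + p) (by omega) (by rw [hvm, hvN]) (by
    intro i
    rw [hv]
    exact ⟨hfin _, hafter _ (by omega)⟩) (by
    intro i hi hi0 h0
    have hvp : fx x c ∈ Function.periodicPts (fx x) := Function.mk_mem_periodicPts hi0 h0
    have e1 := hv 0
    rw [Function.iterate_zero_apply] at e1
    rw [e1] at hvp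
    have h1 := hMmin _ hvp
    have hm0 : m = 0 := by omega
    rw [hm0, Function.iterate_zero_apply] at hvm
    rw [hvm] at h0
    rw [hm0, zero_add] at hi
    have h2 : p ≤ i := by
      rw [hp]
      exact Function.IsPeriodicPt.minimalPeriod_le hi0 h0
    omega) (by
    rw [ddR_add, hvm, ← hlam]
    intro h0
    have h1 : ddR x (fx x c) m * (lam - 1) = 0 := by linear_combination h0
    have h2 := (mul_eq_zero.1 h1).resolve_left hdv
    have h3 : lam = 1 := by linear_combination h2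
    rw [h3, norm_one] at hlam1
    exact lt_irrefl _ hlam1)
  refine ⟨v₀, ?_⟩
  generalize J v₀ = V at hV ⊢
  -- history is forgotten
  have hd1c : d1 (nu x) (de x) c = 0 := by
    show (wn (nu x) (de x)).eval c / _ = 0
    rw [hkc, zero_div]
  have hhist : ∀ j, llR x V c₀ (k + 1 + j) = llR x V c (1 + j) := by
    intro j
    have e1 : (fx x)^[k + 1] c₀ = fx x c := by rw [hcc, Function.iterate_succ_apply']
    have e2 : (fx x)^[1] c = fx x c := rfl
    have e3 : llR x V c₀ (k + 1) = llR x V c 1 := by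
      simp only [llR]
      rw [← hcc, hd1c]
      simp
    rw [llR_add x V c₀ (k + 1) j, llR_add x V c 1 j, e1, e2, e3]
  have h1 : llR x V c₀ M = llR x V c (m + 1) := by rw [← hMk, hhist, add_comm]
  have h2 : llR x V c₀ (M + p) = llR x V c (m + p + 1) := by
    rw [← hMk, add_assoc, hhist, add_comm]
  have h3 : llR x V c₀ (M + p) = lam * llR x V c₀ M + llR x V b p := by
    rw [llR_add, ← hb, ← hlam]
  intro h0
  apply hV
  rw [← h1, ← h2, h3]
  unfold ffR at h0
  have hlam0 : (1 : ℂ) - lam ≠ 0 := by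
    intro h4
    have : lam = 1 := by linear_combination -h4
    rw [this, norm_one] at hlam1
    exact lt_irrefl _ hlam1
  have h4 : llR x V b p = (1 - lam) * llR x V c₀ M := by
    have h5 : llR x V b p / (1 - lam) = llR x V c₀ M := (sub_eq_zero.1 h0).symm
    rw [div_eq_iff hlam0] at h5
    rw [h5]; ring
  rw [h4]
  ring

end Run7.h904.RF
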