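import Mathlib
import Pool.Agent.Run7.h904.T3Pol

set_option autoImplicit false

open Topology Filter Metric Set Polynomial MeasureTheory Asymptotics Pointwise
open scoped OnePoint

namespace Run7.h904.RF

open Pool.Agent.H790R3.RB (CV hF cr ND wr rt sp pr hc pol Sink Attd HypTop)
open Pool.Agent.W757.QR Pool.Agent.W757.RF Pool.Agent.W757.Q2
open Pool.Agent.W29.RQSNK (sp_iter fin_of sp_fx)
open Pool.Agent.H713R5.QJ (ev)

/-- the bad set of a geometrically finite map has zero area -/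
theorem zero_area_all {d : ℕ} (hd : 2 ≤ d) (x : CV d) (hx : ND x)
    (hcrit : ∀ z ∈ Crt x, Attd (sp x) z ∨ (∃ a, ParB (sp x) z a) ∨ PreP (sp x) z)
    (hgood : ∃ z, Attd (sp x) z ∨ ∃ a, ParB (sp x) z a) : ∀ᵐ z : ℂ, GdE x (z : OnePoint ℂ) := by
  classical
  obtain ⟨B, hB⟩ : ∃ B : Set (OnePoint ℂ), B = Function.periodicPts (sp x) := ⟨_, rfl⟩
  have hBc : B.Countable := by
    rw [hB]
    exact per_countableS hd x hx
  have hBi : ({z | Gd x z} ∩ Bᶜ).Infinite := by
    intro hfin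
    obtain ⟨z₀, hz₀⟩ := hgood
    obtain ⟨U, hU, hUg⟩ := gd_open hd x hx z₀ hz₀
    have h1 : (chart z₀ ⁻¹' U).Countable := by
      have h2 : U ⊆ ({z | Gd x z} ∩ Bᶜ) ∪ B := by
        intro w hw
        by_cases hwB : w ∈ B
        · exact Or.inr hwB
        · exact Or.inl ⟨hUg w hw, hwB⟩
      exact ((hfin.countable.union hBc).mono h2).preimage (chart_inj z₀)
    have h2 : chart z₀ ⁻¹' U ∈ 𝓝 (0 : ℂ) := by
      apply (chart_cont z₀).continuousAt.preimage_mem_nhds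
      rw [chart_zero]
      exact hU
    obtain ⟨r, hr, hb⟩ := Metric.mem_nhds_iff.1 h2
    exact (measure_ball_pos volume (0 : ℂ) hr).ne' ((h1.mono hb).measure_zero volume)
  obtain ⟨a, b, c, e, h, x₁, T, hdet, hh, hx₁, hs, hG, hT, hTi, hsT, hinf, hcr⟩ :=
    genm_lin d x ({z | Gd x z} ∩ Bᶜ) hBi hd hx
  have hs' : ∀ z, sp x₁ (h z) = h (sp x z) := fun z => (hs z).symm
  have hit := fun n z => Pool.Agent.H790R3.RB.ALL.iter h hs' n z
  have hsym : ∀ z, sp x (h.symm z) = h.symm (sp x₁ z) := by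
    intro z
    apply h.injective
    rw [hs, h.apply_symm_apply, h.apply_symm_apply]
  have hdet' : e * a - (-b) * (-c) = 1 := by linear_combination hdet
  have hgd : ∀ z, Gd x z → Gd x₁ (h z) := by
    rintro z (h1 | ⟨a', h1⟩)
    · exact Or.inl (Pool.Agent.H790R3.RB.ALL.attd h hs' h1)
    · exact Or.inr ⟨h a', parB_transport hdet hh hs' h1⟩
  have hgd' : ∀ z, Gd x₁ z → Gd x (h.symm z) := by
    rintro z (h1 | ⟨a', h1⟩)
    · exact Or.inl (Pool.Agent.H790R3.RB.ALL.attd h.symm hsym h1)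
    · exact Or.inr ⟨h.symm a', parB_transport (h := h.symm) hdet' (inv_form hdet hh) hsym h1⟩
  have hcr₁ : ∀ z' ∈ Crt x₁, Gd x₁ z' ∨ PreP (sp x₁) z' := by
    intro z' hz'
    have hsym' : ∀ z, h.symm (sp x₁ z) = sp x (h.symm z) := fun z => (hsym z).symm
    have h1 : h.symm z' ∈ Crt x := crt_conj hd hx₁ hx h.symm hsym' z' hz'
    obtain ⟨z, rfl⟩ : ∃ z, h z = z' := ⟨h.symm z', h.apply_symm_apply _⟩
    rw [h.symm_apply_apply] at h1
    rcases hcrit z h1 with h2 | h2 | h2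
    · exact Or.inl (hgd z (Or.inl h2))
    · exact Or.inl (hgd z (Or.inr h2))
    · exact Or.inr (preP_transport hdet hh hs' h2)
  have hinf₁ : ∞ ∉ Function.periodicPts (sp x₁) := by
    rintro ⟨n, hn, hper⟩
    apply hinf.2
    rw [hB]
    refine Function.mk_mem_periodicPts hn ?_
    show (sp x)^[n] (h.symm ∞) = h.symm ∞
    apply h.injective
    rw [← hit, h.apply_symm_apply]
    exact hper
  have hginf : Gd x₁ ∞ := by
    have h1 := hgd _ hinf.1
    rwa [h.apply_symm_apply] at h1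
  have hJ₁ : ∀ᵐ z : ℂ, GdE x₁ (z : OnePoint ℂ) := by
    rw [ae_iff]
    exact zero_area' hd x₁ hx₁ hcr₁ hginf hinf₁
  refine ae_transport (h := h.symm) (inv_form hdet hh) (GdE x₁) (GdE x) ?_ hJ₁
  rintro z ⟨k, hk⟩
  refine ⟨k, ?_⟩
  have h1 := Pool.Agent.H790R3.RB.ALL.iter h.symm hsym k z
  rw [h1]
  exact hgd' _ hk

section infinity

variable {d : ℕ} {x : CV d}

lemma it_ev (hd : 2 ≤ d) (hx : ND x) (hde : de x = 1) (z : ℂ) (n : ℕ) :
    (sp x)^[n] (z : OnePoint ℂ) = (((fx x)^[n] z : ℂ) : OnePoint ℂ) :=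
  sp_iter x z n (fun j _ => fin_all hde z j)

lemma fx_grow (hdeg : 2 ≤ (nu x).natDegree) (hde : de x = 1) :
    ∃ R : ℝ, 0 < R ∧ ∀ z : ℂ, R ≤ ‖z‖ → ∀ k : ℕ, 2 ^ k * ‖z‖ ≤ ‖(fx x)^[k] z‖ := by
  obtain ⟨R, hR, hg⟩ := growth (nu x) hdeg
  refine ⟨R, hR, fun z hz k => ?_⟩
  induction k with
  | zero => simp
  | succ k ih =>
    rw [Function.iterate_succ_apply']
    have h1 : ‖z‖ ≤ 2 ^ k * ‖z‖ := by
      have : (1 : ℝ) ≤ 2 ^ k := one_le_pow₀ (by norm_num)
      nlinarith [norm_nonneg z]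
    have h2 := hg ((fx x)^[k] z) (by linarith)
    have h3 : fx x ((fx x)^[k] z) = (nu x).eval ((fx x)^[k] z) := by
      rw [fx_ev hde]; rfl
    rw [h3, pow_succ]
    linarith

lemma coe_tendsto_inf {ι : Type} {l : Filter ι} {u : ι → ℂ} (h : Tendsto (fun i => ‖u i‖) l atTop) :
    Tendsto (fun i => ((u i : ℂ) : OnePoint ℂ)) l (𝓝 ∞) := by
  have h1 : Tendsto u l (cocompact ℂ) := by
    rw [← Metric.cobounded_eq_cocompact, ← comap_norm_atTop]
    exact tendsto_comap_iff.2 h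
  have h2 := OnePoint.tendsto_coe_infty (X := ℂ)
  rw [Filter.coclosedCompact_eq_cocompact] at h2
  exact h2.comp h1

lemma sp_inf (hd : 2 ≤ d) (hx : ND x) (hde : de x = 1) (hdeg : 2 ≤ (nu x).natDegree) :
    sp x ∞ = ∞ := by
  have h1 : Tendsto (fun n : ℕ => (((n : ℕ) : ℂ) : OnePoint ℂ)) atTop (𝓝 ∞) := by
    refine coe_tendsto_inf (u := fun n : ℕ => (n : ℂ)) ?_
    simp only [Complex.norm_natCast]
    exact tendsto_natCast_atTop_atTop
  have h2 := ((sp_cont hd x hx).tendsto ∞).comp h1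
  obtain ⟨R, hR, hg⟩ := fx_grow hdeg hde
  have h3 : Tendsto (fun n : ℕ => (((fx x)^[1] (n : ℂ) : ℂ) : OnePoint ℂ)) atTop (𝓝 ∞) := by
    refine coe_tendsto_inf (u := fun n : ℕ => (fx x)^[1] (n : ℂ)) ?_
    have h4 : Tendsto (fun n : ℕ => (n : ℝ)) atTop atTop := tendsto_natCast_atTop_atTop
    refine tendsto_atTop_mono' _ ?_ h4
    filter_upwards [h4.eventually (eventually_ge_atTop R)] with n hn
    have h5 := hg (n : ℂ) (by rw [Complex.norm_natCast]; exact hn) 1
    rw [Complex.norm_natCast] at h5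
    have : (0 : ℝ) ≤ n := by positivity
    linarith
  refine tendsto_nhds_unique h2 (h3.congr fun n => ?_)
  rw [← it_ev hd hx hde]
  rfl

lemma sp_inf_iter (hd : 2 ≤ d) (hx : ND x) (hde : de x = 1) (hdeg : 2 ≤ (nu x).natDegree) (n : ℕ) :
    (sp x)^[n] ∞ = ∞ := Function.iterate_fixed (sp_inf hd hx hde hdeg) n

lemma sink_inf (hd : 2 ≤ d) (hx : ND x) (hde : de x = 1) (hdeg : 2 ≤ (nu x).natDegree) :
    Sink (sp x) 1 ∞ := by
  obtain ⟨R, hR, hg⟩ := fx_grow hdeg hde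
  refine ⟨one_pos, sp_inf hd hx hde hdeg, ((fun z : ℂ => (z : OnePoint ℂ)) '' closedBall 0 R)ᶜ, ?_, ?_⟩
  · refine IsOpen.mem_nhds ?_ ?_
    · have h1 : IsCompact ((fun z : ℂ => (z : OnePoint ℂ)) '' closedBall 0 R) :=
        (isCompact_closedBall (0 : ℂ) R).image OnePoint.continuous_coe
      exact h1.isClosed.isOpen_compl
    · rintro ⟨z, -, hz⟩
      exact OnePoint.coe_ne_infty z hz
  · intro V hV
    have h1 : ∀ᶠ z : ℂ in cocompact ℂ, (z : OnePoint ℂ) ∈ V := by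
      have h2 := OnePoint.tendsto_coe_infty (X := ℂ)
      rw [Filter.coclosedCompact_eq_cocompact] at h2
      exact h2.eventually hV
    rw [← Metric.cobounded_eq_cocompact, ← comap_norm_atTop, eventually_comap] at h1
    obtain ⟨R', hR'⟩ := h1.exists_forall_of_atTop
    have h2 : Tendsto (fun k : ℕ => (2 : ℝ) ^ k * R) atTop atTop :=
      (tendsto_pow_atTop_atTop_of_one_lt (by norm_num)).atTop_mul_const hR
    filter_upwards [h2.eventually (eventually_ge_atTop R')] with k hk w hw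
    rw [one_mul]
    induction w using OnePoint.rec with
    | infty =>
      rw [sp_inf_iter hd hx hde hdeg]
      exact mem_of_mem_nhds hV
    | coe z =>
      have h3 : R < ‖z‖ := by
        by_contra hcon
        push Not at hcon
        exact hw ⟨z, by rwa [mem_closedBall, dist_zero_right], rfl⟩
      rw [it_ev hd hx hde]
      refine hR' ‖(fx x)^[k] z‖ ?_ _ rfl
      have h4 := hg z h3.le k
      have h5 : (2 : ℝ) ^ k * R ≤ 2 ^ k * ‖z‖ := mul_le_mul_of_nonneg_left h3.le (by positivity)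
      linarith

lemma attd_inf (hd : 2 ≤ d) (hx : ND x) (hde : de x = 1) (hdeg : 2 ≤ (nu x).natDegree) :
    Attd (sp x) ∞ := by
  refine ⟨1, ∞, sink_inf hd hx hde hdeg, ?_⟩
  refine tendsto_const_nhds.congr fun k => ?_
  exact (sp_inf_iter hd hx hde hdeg (1 * k)).symm

lemma attd_of_esc (hd : 2 ≤ d) (hx : ND x) (hde : de x = 1) (hdeg : 2 ≤ (nu x).natDegree) (z : ℂ)
    (h : Tendsto (fun k : ℕ => ‖(fx x)^[k] z‖) atTop atTop) : Attd (sp x) (z : OnePoint ℂ) := by
  refine ⟨1, ∞, sink_inf hd hx hde hdeg, ?_⟩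
  refine (coe_tendsto_inf h).congr fun k => ?_
  rw [one_mul, it_ev hd hx hde]

lemma attd_cases (hd : 2 ≤ d) (hx : ND x) (hde : de x = 1) (hdeg : 2 ≤ (nu x).natDegree) (z : ℂ)
    (h : Attd (sp x) (z : OnePoint ℂ)) : Tendsto (fun k : ℕ => ‖(fx x)^[k] z‖) atTop atTop ∨
      ∃ n : ℕ, 0 < n ∧ ∃ a : ℂ, (fx x)^[n] a = a ∧ ‖deriv ((fx x)^[n]) a‖ < 1 ∧
        Tendsto (fun k : ℕ => (fx x)^[n * k] z) atTop (𝓝 a) := by
  obtain ⟨n, a, hs, hlim⟩ := h
  induction a using OnePoint.rec with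
  | infty =>
    left
    obtain ⟨R, hR, hg⟩ := fx_grow hdeg hde
    have h1 : ((fun z : ℂ => (z : OnePoint ℂ)) '' closedBall 0 R)ᶜ ∈ 𝓝 (∞ : OnePoint ℂ) := by
      refine IsOpen.mem_nhds ?_ ?_
      · have h1 : IsCompact ((fun z : ℂ => (z : OnePoint ℂ)) '' closedBall 0 R) :=
          (isCompact_closedBall (0 : ℂ) R).image OnePoint.continuous_coe
        exact h1.isClosed.isOpen_compl
      · rintro ⟨z, -, hz⟩
        exact OnePoint.coe_ne_infty z hz
    obtain ⟨k, hk⟩ := (hlim.eventually h1).exists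
    rw [it_ev hd hx hde] at hk
    have h2 : R < ‖(fx x)^[n * k] z‖ := by
      by_contra hcon
      push Not at hcon
      exact hk ⟨_, by rwa [mem_closedBall, dist_zero_right], rfl⟩
    rw [← tendsto_add_atTop_iff_nat (n * k)]
    have h3 : Tendsto (fun k : ℕ => (2 : ℝ) ^ k * R) atTop atTop :=
      (tendsto_pow_atTop_atTop_of_one_lt (by norm_num)).atTop_mul_const hR
    refine tendsto_atTop_mono (fun j => ?_) h3
    rw [Function.iterate_add_apply]
    have h4 := hg _ h2.le j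
    have h5 : (2 : ℝ) ^ j * R ≤ 2 ^ j * ‖(fx x)^[n * k] z‖ :=
      mul_le_mul_of_nonneg_left h2.le (by positivity)
    linarith
  | coe a =>
    right
    refine ⟨n, hs.1, a, ?_, Pool.Agent.W409.RQAPX.sink_mul x hd hx a (fin_all hde a) n hs, ?_⟩
    · have h1 := hs.2.1
      rw [it_ev hd hx hde] at h1
      exact OnePoint.coe_injective h1
    · rw [(OnePoint.isOpenEmbedding_coe.isInducing).tendsto_nhds_iff]
      refine hlim.congr fun k => ?_
      simp only [Function.comp]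
      rw [it_ev hd hx hde]

lemma parS_fin (hd : 2 ≤ d) (hx : ND x) (hde : de x = 1) (hdeg : 2 ≤ (nu x).natDegree)
    (a : OnePoint ℂ) (p q : ℕ) (h : ParS (sp x) p q a) : ∀ n : ℕ, (sp x)^[n] a ≠ ∞ := by
  induction a using OnePoint.rec with
  | coe a =>
    intro n
    rw [it_ev hd hx hde]
    exact OnePoint.coe_ne_infty _
  | infty =>
    exfalso
    obtain ⟨hp, hq, hmin, lam, g, hlam, g0, gd, ge⟩ := h
    have hp1 : p = 1 := by
      by_contra hne
      exact hmin 1 one_pos (by omega) (sp_inf_iter hd hx hde hdeg 1)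
    obtain ⟨R, hR, hg⟩ := fx_grow hdeg hde
    have h1 : ∀ᶠ w in 𝓝[≠] (0 : ℂ), ‖g w / w‖ ≤ 1 / 2 := by
      have h2 : ∀ᶠ w in 𝓝[≠] (0 : ℂ), ‖w‖ < R⁻¹ := by
        have : ∀ᶠ w in 𝓝 (0 : ℂ), ‖w‖ < R⁻¹ := by
          filter_upwards [ball_mem_nhds (0 : ℂ) (inv_pos.2 hR)] with w hw
          rwa [mem_ball, dist_zero_right] at hw
        exact this.filter_mono nhdsWithin_le_nhds
      filter_upwards [h2, ge.filter_mono nhdsWithin_le_nhds, self_mem_nhdsWithin] with w h3 h4 h5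
      have hw : w ≠ 0 := h5
      have hwn : 0 < ‖w‖ := norm_pos_iff.2 hw
      classical
      rw [chart_infty, if_neg hw, hp1, it_ev hd hx hde, chart_infty] at h4
      have hgw : g w ≠ 0 := by
        intro h6
        rw [if_pos h6] at h4
        exact OnePoint.coe_ne_infty _ h4
      rw [if_neg hgw] at h4
      have h6 : (fx x)^[1] w⁻¹ = (g w)⁻¹ := OnePoint.coe_injective h4
      have h7 := hg w⁻¹ (by
        rw [norm_inv]
        rw [lt_inv_comm₀ hwn hR] at h3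
        exact h3.le) 1
      rw [h6, norm_inv, norm_inv, pow_one] at h7
      have hgn : 0 < ‖g w‖ := norm_pos_iff.2 hgw
      rw [norm_div, div_le_iff₀ hwn]
      have h8 : 2 * ‖w‖⁻¹ * (‖w‖ * ‖g w‖) ≤ ‖g w‖⁻¹ * (‖w‖ * ‖g w‖) :=
        mul_le_mul_of_nonneg_right h7 (by positivity)
      have e1 : 2 * ‖w‖⁻¹ * (‖w‖ * ‖g w‖) = 2 * ‖g w‖ := by field_simp
      have e2 : ‖g w‖⁻¹ * (‖w‖ * ‖g w‖) = ‖w‖ := by field_simp
      rw [e1, e2] at h8
      linarith
    have h2 : Tendsto (fun w => ‖g w / w‖) (𝓝[≠] (0 : ℂ)) (𝓝 ‖lam‖) := by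
      have h3 := gd.tendsto_slope
      have h4 : Tendsto (fun w => g w / w) (𝓝[≠] (0 : ℂ)) (𝓝 lam) := by
        refine h3.congr fun w => ?_
        rw [slope_def_field, g0, sub_zero, sub_zero]
      exact h4.norm
    have h3 : ‖lam‖ ≤ 1 / 2 := le_of_tendsto h2 h1
    have h4 : ‖lam‖ = 1 := by
      have := congrArg norm hlam
      rw [norm_pow, norm_one] at this
      exact (pow_eq_one_iff_of_nonneg (norm_nonneg _) hq.ne').mp this
    linarith

end infinity

lemma ND_xP {d : ℕ} (hd : 2 ≤ d) (a : Fin (d + 1) → ℂ) (ha : (pl a).natDegree = d) : ND (xP a) := by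
  obtain ⟨h1, h2⟩ := Pool.Agent.H790R3.RB.PQ Pool.Agent.H790R3.RB.SP d (by omega)
  obtain ⟨x₀, hnd, hx0, hx1, -⟩ := h2 (pl a) 1 isCoprime_one_right (by
    rw [natDegree_one, max_eq_left (Nat.zero_le _), ha])
  have e : x₀ = xP a := by
    ext ⟨i, j⟩
    have hi : (pol x₀ i).coeff j = (pol (xP a) i).coeff j := by
      have h3 : pol x₀ i = pol (xP a) i := by
        fin_cases i
        · show pol x₀ 0 = nu (xP a)
          rw [nu_xP]; exact hx0
        · show pol x₀ 1 = de (xP a)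
          rw [de_xP]; exact hx1
      rw [h3]
    rw [Pool.Agent.H790R3.RB.PQ.pol_coeff, Pool.Agent.H790R3.RB.PQ.pol_coeff] at hi
    exact hi
  rw [← e]
  exact hnd

/-- the main theorem for polynomials -/
theorem mainP {d : ℕ} (hd : 2 ≤ d) (a : Fin (d + 1) → ℂ) (ha : (pl a).natDegree = d)
    (hcrit : ∀ z ∈ Crt (xP a), Attd (sp (xP a)) z ∨ (∃ b, ParB (sp (xP a)) z b) ∨
      PreP (sp (xP a)) z) :
    Tendsto (fun r : ℝ => volume {b : Fin (d + 1) → ℂ | (∀ i, ‖b i - a i‖ ≤ r) ∧ ¬ HyR (xP b)} /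
      volume {b : Fin (d + 1) → ℂ | ∀ i, ‖b i - a i‖ ≤ r}) (𝓝[>] 0) (𝓝 0) := by
  have hx := ND_xP hd a ha
  have hde := de_xP a
  have hdeg : 2 ≤ (nu (xP a)).natDegree := by rw [nu_xP, ha]; exact hd
  have hdeg' : (nu (xP a)).natDegree = d := by rw [nu_xP, ha]
  have hJ := zero_area_all hd (xP a) hx hcrit ⟨∞, Or.inl (attd_inf hd hx hde hdeg)⟩
  have hopen : IsOpen {b : Fin (d + 1) → ℂ | HyR (xP b)} := by
    have h1 : IsOpen {x : CV d | HyR x} := isOpen_iff_mem_nhds.mpr fun a ha => hyR_open hd a ha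
    exact h1.preimage xP_cont
  refine density_gen a {b : Fin (d + 1) → ℂ | HyR (xP b)} hopen.measurableSet fun r hr => ?_
  obtain ⟨s, hsm, hae⟩ := seq_hypJ (JP d) hd (xP a) hx (parS_fin hd hx hde hdeg)
    (fun b lam p q hp => transP hd (xP a) hde hdeg' b lam p q hp)
    (fun c₀ hc hfin M' p' hp' hper hrep => pre_dataJ (JP d) (xP a)
      (fun c hc m N hmN hper hne hinj hD => critTP hd (xP a) hx hde c hc m N hmN hper hne hinj hD)
      c₀ hc hfin M' p' hp' hper hrep)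
    (by
      intro z hz
      rcases hcrit z hz with h1 | h1 | h1
      · exact Or.inl h1
      · induction z using OnePoint.rec with
        | infty => exact Or.inl (attd_inf hd hx hde hdeg)
        | coe z =>
          refine Or.inr ⟨fun n => ?_, Or.inl (Or.inr h1)⟩
          rw [it_ev hd hx hde]
          exact OnePoint.coe_ne_infty _
      · induction z using OnePoint.rec with
        | infty => exact Or.inl (attd_inf hd hx hde hdeg)
        | coe z =>
          refine Or.inr ⟨fun n => ?_, Or.inr h1⟩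
          rw [it_ev hd hx hde]
          exact OnePoint.coe_ne_infty _)
    hJ 1 r hr
  refine ⟨s, hsm.tendsto_atTop, ?_⟩
  filter_upwards [hae] with v hv hbox
  have h1 : ‖v‖ ≤ 1 := (pi_norm_le_iff_of_nonneg zero_le_one).2 hbox
  filter_upwards [hv h1] with j hj
  rw [Xt_xP] at hj
  exact hj

/-- almost every direction -/
theorem mainP1 {d : ℕ} (hd : 2 ≤ d) (a : Fin (d + 1) → ℂ) (ha : (pl a).natDegree = d)
    (hcrit : ∀ z ∈ Crt (xP a), Attd (sp (xP a)) z ∨ (∃ b, ParB (sp (xP a)) z b)) :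
    ∀ᵐ v : Fin (d + 1) → ℂ, ∀ᶠ t in 𝓝[>] (0 : ℝ), HyR (xP (a + t • v)) := by
  have hx := ND_xP hd a ha
  have hde := de_xP a
  have hdeg : 2 ≤ (nu (xP a)).natDegree := by rw [nu_xP, ha]; exact hd
  have hdeg' : (nu (xP a)).natDegree = d := by rw [nu_xP, ha]
  filter_upwards [ae_parJ (JP d) hd (xP a) hx
    (fun b lam p q hp => transP hd (xP a) hde hdeg' b lam p q hp)] with v hv
  have h1 : ∀ z ∈ Crt (xP a), GS (xP a) (JP d v) z := by
    intro z hz
    rcases hcrit z hz with h1 | h1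
    · exact GS_of_attd hd _ _ hx z h1
    · induction z using OnePoint.rec with
      | infty => exact GS_of_attd hd _ _ hx _ (attd_inf hd hx hde hdeg)
      | coe z =>
        exact gs_of_gdJ hd (xP a) hx (parS_fin hd hx hde hdeg) _ hv z (fin_all hde z) (Or.inr h1)
  filter_upwards [dir_hyR hd (xP a) (JP d v) hx h1] with t ht
  rw [Xt_xP] at ht
  exact ht

end Run7.h904.RF
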