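import Mathlib
import Pool.Agent.H713R5.QJ.TPBL

set_option autoImplicit false

open Topology Filter Metric Set

namespace Run7.h904.UQ

/-- contraction mapping principle for holomorphic maps -/
theorem contr (G : ℂ → ℂ) (x₀ : ℂ) (R θ : ℝ) (hR : 0 < R) (hθ0 : 0 ≤ θ) (hθ : θ < 1)
    (hd : ∀ v ∈ closedBall x₀ R, DifferentiableAt ℂ G v ∧ ‖deriv G v‖ ≤ θ)
    (h0 : ‖G x₀ - x₀‖ ≤ (1 - θ) * R) (v : ℂ) (hv : v ∈ closedBall x₀ R) :
    (∀ j : ℕ, G^[j] v ∈ closedBall x₀ R) ∧ ∃ x ∈ closedBall x₀ R, G x = x ∧ ‖deriv G x‖ < 1 ∧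
      Tendsto (fun j : ℕ => G^[j] v) atTop (𝓝 x) := by
  have hLip : ∀ a ∈ closedBall x₀ R, ∀ b ∈ closedBall x₀ R, ‖G b - G a‖ ≤ θ * ‖b - a‖ := by
    intro a ha b hb
    exact (convex_closedBall x₀ R).norm_image_sub_le_of_norm_deriv_le (fun w hw => (hd w hw).1)
      (fun w hw => (hd w hw).2) ha hb
  have hx₀ : x₀ ∈ closedBall x₀ R := mem_closedBall_self hR.le
  have hmaps : MapsTo G (closedBall x₀ R) (closedBall x₀ R) := by
    intro w hw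
    have h1 := hLip x₀ hx₀ w hw
    rw [mem_closedBall, dist_eq_norm] at hw ⊢
    have e : G w - x₀ = (G w - G x₀) + (G x₀ - x₀) := by ring
    rw [e]
    refine (norm_add_le _ _).trans ?_
    have h2 := mul_le_mul_of_nonneg_left hw hθ0
    linarith
  have hstay : ∀ j : ℕ, G^[j] v ∈ closedBall x₀ R := by
    intro j
    induction j with
    | zero => exact hv
    | succ j ih =>
      rw [Function.iterate_succ_apply']
      exact hmaps ih
  have hcon : ContractingWith (⟨θ, hθ0⟩ : NNReal) (hmaps.restrict G _ _) := by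
    refine ⟨by exact_mod_cast hθ, ?_⟩
    refine LipschitzWith.of_dist_le_mul fun a b => ?_
    have h1 := hLip b.1 b.2 a.1 a.2
    rw [Subtype.dist_eq, Subtype.dist_eq, dist_eq_norm, dist_eq_norm]
    exact h1
  obtain ⟨x, hx, hfx, hlim, -⟩ := hcon.exists_fixedPoint' (isClosed_closedBall.isComplete) hmaps hv
    (edist_ne_top _ _)
  exact ⟨hstay, x, hx, hfx, ((hd x hx).2).trans_lt hθ, hlim⟩

lemma ev_small (a b : ℝ) (hb : 0 < b) (n : ℕ) (hn : 1 ≤ n) : ∀ᶠ s : ℝ in 𝓝[>] 0, a * s ^ n ≤ b := by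
  have h1 : Tendsto (fun s : ℝ => a * s ^ n) (𝓝 0) (𝓝 0) := by
    have : Continuous fun s : ℝ => a * s ^ n := by fun_prop
    have h2 := this.tendsto 0
    simpa [zero_pow (by omega : n ≠ 0)] using h2
  have h2 := h1.eventually (ge_mem_nhds hb)
  exact h2.filter_mono nhdsWithin_le_nhds

/-- bounds for the multiplier -/
lemma mu_bd (k : ℕ) (hk : 1 ≤ k) (c : ℂ) (hc : 0 < c.re) (C₀ : ℝ) (hC₀ : 0 ≤ C₀) :
    ∀ᶠ s : ℝ in 𝓝[>] 0, ∀ μ : ℂ, ‖μ - c * s ^ k‖ ≤ C₀ * s ^ (2 * k) →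
      ‖μ‖ ≤ (‖c‖ + 1) * s ^ k ∧ c.re / 2 * s ^ k ≤ ‖μ‖ ∧
      ‖1 - k * μ‖ ≤ 1 - k * c.re / 2 * s ^ k ∧ k * c.re / 2 * s ^ k ≤ 1 / 2 := by
  have hk0 : (0 : ℝ) < k := by exact_mod_cast hk
  filter_upwards [ev_small C₀ 1 one_pos k hk, ev_small C₀ (c.re / 4) (by positivity) k hk,
    ev_small (k ^ 2 * (‖c‖ + 1) ^ 2) (k * c.re / 2) (by positivity) k hk,
    ev_small (k * c.re / 2) (1 / 2) (by norm_num) k hk, self_mem_nhdsWithin]
    with s h1 h2 h3 h4 hs μ hμ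
  have hs0 : 0 < s := hs
  have ht : 0 < s ^ k := by positivity
  obtain ⟨t, htd⟩ : ∃ t : ℝ, t = s ^ k := ⟨_, rfl⟩
  have e2 : s ^ (2 * k) = t * t := by rw [htd]; ring
  have eC : ((s : ℂ)) ^ k = (t : ℂ) := by rw [htd]; push_cast; rfl
  rw [e2, eC] at hμ
  rw [← htd] at h1 h2 h3 h4 ht ⊢
  have h5 : ‖μ - c * t‖ ≤ t := hμ.trans (by nlinarith)
  have h6 : ‖μ - c * t‖ ≤ c.re / 4 * t := hμ.trans (by nlinarith)
  have hct : ‖c * (t : ℂ)‖ = ‖c‖ * t := by rw [norm_mul, Complex.norm_of_nonneg ht.le]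
  have h7 : ‖μ‖ ≤ (‖c‖ + 1) * t := by
    have := norm_add_le (μ - c * t) (c * t)
    rw [sub_add_cancel, hct] at this
    linarith
  have hre : 3 / 4 * c.re * t ≤ μ.re := by
    have h8 := (abs_le.1 (Complex.abs_re_le_norm (μ - c * t))).1
    have e : (μ - c * (t : ℂ)).re = μ.re - c.re * t := by simp
    rw [e] at h8
    linarith
  refine ⟨h7, ?_, ?_, h4⟩
  · have h8 := Complex.re_le_norm μ
    nlinarith
  · have h8 : ‖1 - (k : ℂ) * μ‖ ^ 2 = 1 - 2 * k * μ.re + k ^ 2 * ‖μ‖ ^ 2 := by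
      rw [← Complex.normSq_eq_norm_sq, ← Complex.normSq_eq_norm_sq, Complex.normSq_apply,
        Complex.normSq_apply]
      simp
      ring
    have h9 : ‖μ‖ ^ 2 ≤ (‖c‖ + 1) ^ 2 * t ^ 2 := by
      have := pow_le_pow_left₀ (norm_nonneg μ) h7 2
      rwa [mul_pow] at this
    have h10 : k ^ 2 * ‖μ‖ ^ 2 ≤ k * c.re / 2 * t := by
      have h11 : (k : ℝ) ^ 2 * ‖μ‖ ^ 2 ≤ k ^ 2 * ((‖c‖ + 1) ^ 2 * t ^ 2) :=
        mul_le_mul_of_nonneg_left h9 (by positivity)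
      nlinarith
    have h11 : ‖1 - (k : ℂ) * μ‖ ^ 2 ≤ (1 - k * c.re / 2 * t) ^ 2 := by
      rw [h8]
      nlinarith [mul_le_mul_of_nonneg_left hre hk0.le, sq_nonneg (k * c.re / 2 * t)]
    exact le_of_sq_le_sq' h11 (by linarith)
where
  le_of_sq_le_sq' {a b : ℝ} (h : a ^ 2 ≤ b ^ 2) (hb : 0 ≤ b) : a ≤ b := by
    exact abs_le_of_sq_le_sq' h hb |>.2

/-- the orbits near one of the new attracting fixed points -/
theorem capQ (k : ℕ) (hk : 1 ≤ k) (A c : ℂ) (hA : A ≠ 0) (hc : 0 < c.re) (C₀ C r : ℝ)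
    (hC₀ : 0 ≤ C₀) (hC : 0 ≤ C) (hr : 0 < r) :
    ∃ ρ : ℝ, 0 < ρ ∧ ρ ≤ 1 / 4 ∧ ∀ᶠ s : ℝ in 𝓝[>] 0, ∀ μ : ℂ, ‖μ - c * s ^ k‖ ≤ C₀ * s ^ (2 * k) →
      ∀ G : ℂ → ℂ, DifferentiableOn ℂ G (ball 0 r) →
      (∀ v ∈ ball (0 : ℂ) r, ‖G v - (1 + μ) * v - A * v ^ (k + 1)‖ ≤
        C * (s ^ k * ‖v‖ ^ 2 + ‖v‖ ^ (k + 2))) →
      ∀ q : ℂ, q ^ k = -μ / A → ∀ v ∈ closedBall q (ρ * ‖q‖), (∀ j : ℕ, G^[j] v ∈ ball (0 : ℂ) r) ∧
        ∃ x ∈ ball (0 : ℂ) r, G x = x ∧ ‖deriv G x‖ < 1 ∧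
          Tendsto (fun j : ℕ => G^[j] v) atTop (𝓝 x) := by
  have hk0 : (0 : ℝ) < k := by exact_mod_cast hk
  have hA0 : 0 < ‖A‖ := norm_pos_iff.2 hA
  obtain ⟨Q, hQ⟩ : ∃ Q : ℝ, Q = max 1 ((‖c‖ + 1) / ‖A‖) := ⟨_, rfl⟩
  have hQ1 : 1 ≤ Q := by rw [hQ]; exact le_max_left _ _
  have hQ2 : (‖c‖ + 1) ≤ Q * ‖A‖ := by
    have : (‖c‖ + 1) / ‖A‖ ≤ Q := by rw [hQ]; exact le_max_right _ _
    rwa [div_le_iff₀ hA0] at this
  have hQ0 : 0 < Q := by linarith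
  obtain ⟨ε, hε⟩ : ∃ ε : ℝ, ε = c.re * k / (8 * (k + 1) * (‖c‖ + 1)) := ⟨_, rfl⟩
  have hε0 : 0 < ε := by rw [hε]; positivity
  have hcont : ∀ᶠ x : ℂ in 𝓝 1, ‖x ^ k - 1‖ < ε := by
    have h1 : ContinuousAt (fun x : ℂ => ‖x ^ k - 1‖) 1 := by fun_prop
    refine h1.eventually (gt_mem_nhds ?_)
    simpa using hε0
  obtain ⟨ρ', hρ', hρb⟩ := Metric.eventually_nhds_iff_ball.1 hcont
  obtain ⟨ρ, hρd⟩ : ∃ ρ : ℝ, ρ = min (ρ' / 2) (1 / 4) := ⟨_, rfl⟩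
  have hρ0 : 0 < ρ := by rw [hρd]; exact lt_min (by positivity) (by norm_num)
  have hρ4 : ρ ≤ 1 / 4 := by rw [hρd]; exact min_le_right _ _
  have hρ'2 : ρ < ρ' := by
    have : ρ ≤ ρ' / 2 := by rw [hρd]; exact min_le_left _ _
    linarith
  obtain ⟨C₂, hC₂⟩ : ∃ C₂ : ℝ, C₂ = C * (9 / 4 + (3 / 2) ^ (k + 2) * Q ^ k) := ⟨_, rfl⟩
  have hC₂0 : 0 ≤ C₂ := by rw [hC₂]; positivity
  refine ⟨ρ, hρ0, hρ4, ?_⟩
  filter_upwards [mu_bd k hk c hc C₀ hC₀, ev_small (4 * C₂ * Q) (k * c.re / 8) (by positivity) 1 le_rfl,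
    ev_small (C₂ * Q) (k * c.re / 4 * ρ) (by positivity) 1 le_rfl,
    ev_small (3 / 2 * Q) (r / 2) (by positivity) 1 le_rfl, self_mem_nhdsWithin]
    with s hμb hs1 hs2 hs3 hs μ hμ G hGd hGb q hq v hv
  have hs0 : 0 < s := hs
  rw [pow_one] at hs1 hs2 hs3
  obtain ⟨hμ1, hμ2, hμ3, hμ4⟩ := hμb μ hμ
  obtain ⟨t, ht⟩ : ∃ t : ℝ, t = s ^ k := ⟨_, rfl⟩
  rw [← ht] at hμ1 hμ2 hμ3 hμ4 hGb
  have ht0 : 0 < t := by rw [ht]; positivity
  have hμn : 0 < ‖μ‖ := lt_of_lt_of_le (by positivity) hμ2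
  have hqk : ‖q‖ ^ k = ‖μ‖ / ‖A‖ := by
    rw [← norm_pow, hq, norm_div, norm_neg]
  have hq0 : q ≠ 0 := by
    rintro rfl
    rw [norm_zero, zero_pow (by omega)] at hqk
    have : 0 < ‖μ‖ / ‖A‖ := by positivity
    linarith
  have hqn : 0 < ‖q‖ := norm_pos_iff.2 hq0
  have hqs : ‖q‖ ≤ Q * s := by
    have h1 : ‖q‖ ^ k ≤ (Q * s) ^ k := by
      rw [hqk, mul_pow, ← ht, div_le_iff₀ hA0]
      have h2 : Q ≤ Q ^ k := le_self_pow₀ hQ1 (by omega)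
      calc ‖μ‖ ≤ (‖c‖ + 1) * t := hμ1
        _ ≤ Q * ‖A‖ * t := mul_le_mul_of_nonneg_right hQ2 ht0.le
        _ ≤ Q ^ k * ‖A‖ * t := by gcongr
        _ = Q ^ k * t * ‖A‖ := by ring
    exact (pow_le_pow_iff_left₀ hqn.le (by positivity) (by omega)).1 h1
  have hqk2 : ‖q‖ ^ k ≤ Q ^ k * t := by
    have := pow_le_pow_left₀ hqn.le hqs k
    rwa [mul_pow, ← ht] at this
  -- the remainder
  obtain ⟨E, hE⟩ : ∃ E : ℂ → ℂ, E = fun z => G z - (1 + μ) * z - A * z ^ (k + 1) := ⟨_, rfl⟩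
  have hEb : ∀ z : ℂ, ‖z‖ ≤ 3 / 2 * ‖q‖ → z ∈ ball (0 : ℂ) r ∧ ‖E z‖ ≤ C₂ * t * ‖q‖ ^ 2 := by
    intro z hz
    have hzr : z ∈ ball (0 : ℂ) r := by
      rw [mem_ball, dist_zero_right]
      nlinarith
    refine ⟨hzr, ?_⟩
    have h1 := hGb z hzr
    rw [hE]
    refine h1.trans ?_
    have h2 : ‖z‖ ^ 2 ≤ 9 / 4 * ‖q‖ ^ 2 := by
      have := pow_le_pow_left₀ (norm_nonneg z) hz 2
      rw [mul_pow] at this
      norm_num at this ⊢
      linarith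
    have h3 : ‖z‖ ^ (k + 2) ≤ (3 / 2) ^ (k + 2) * (Q ^ k * t) * ‖q‖ ^ 2 := by
      have h4 := pow_le_pow_left₀ (norm_nonneg z) hz (k + 2)
      rw [mul_pow] at h4
      refine h4.trans ?_
      rw [pow_add ‖q‖ k 2, ← mul_assoc]
      gcongr
    rw [hC₂]
    have h4 : t * ‖z‖ ^ 2 + ‖z‖ ^ (k + 2) ≤ (9 / 4 + (3 / 2) ^ (k + 2) * Q ^ k) * t * ‖q‖ ^ 2 := by
      have h5 := mul_le_mul_of_nonneg_left h2 ht0.le
      nlinarith
    have h5 := mul_le_mul_of_nonneg_left h4 hC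
    linarith
  have hEd : ∀ z ∈ ball (0 : ℂ) r, DifferentiableAt ℂ E z := by
    intro z hz
    rw [hE]
    have h1 := (hGd z hz).differentiableAt (isOpen_ball.mem_nhds hz)
    exact (h1.sub (by fun_prop)).sub (by fun_prop)
  have hkey := contr G q (ρ * ‖q‖) (1 - k * c.re / 4 * t) (by positivity) (by linarith [mul_pos (mul_pos hk0 hc) ht0]) (by
    have : 0 < k * c.re / 4 * t := by positivity
    linarith) (by
    intro z hz
    have hz' : ‖z - q‖ ≤ ρ * ‖q‖ := by rwa [mem_closedBall, dist_eq_norm] at hz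
    have hzn : ‖z‖ ≤ 5 / 4 * ‖q‖ := by
      have := norm_add_le (z - q) q
      rw [sub_add_cancel] at this
      nlinarith
    have hzr := (hEb z (by linarith)).1
    have hGz := (hGd z hzr).differentiableAt (isOpen_ball.mem_nhds hzr)
    refine ⟨hGz, ?_⟩
    have hsub : ∀ u ∈ closedBall z (‖q‖ / 4), ‖u‖ ≤ 3 / 2 * ‖q‖ := by
      intro u hu
      rw [mem_closedBall, dist_eq_norm] at hu
      have := norm_add_le (u - z) z
      rw [sub_add_cancel] at this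
      linarith
    have hE' : ‖deriv E z‖ ≤ C₂ * t * ‖q‖ ^ 2 / (‖q‖ / 4) := by
      refine Complex.norm_deriv_le_of_forall_mem_sphere_norm_le (by positivity)
        (DifferentiableOn.diffContOnCl ?_) (fun u hu => (hEb u (hsub u (sphere_subset_closedBall hu))).2)
      intro u hu
      rw [closure_ball z (by positivity)] at hu
      exact (hEd u (hEb u (hsub u hu)).1).differentiableWithinAt
    have hE2 : ‖deriv E z‖ ≤ k * c.re / 8 * t := by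
      refine hE'.trans ?_
      rw [div_div_eq_mul_div, div_le_iff₀ hqn]
      have h1 : 4 * C₂ * ‖q‖ ≤ k * c.re / 8 := by
        have := mul_le_mul_of_nonneg_left hqs (by positivity : 0 ≤ 4 * C₂)
        linarith
      have h2 := mul_le_mul_of_nonneg_right h1 (by positivity : 0 ≤ t * ‖q‖)
      nlinarith
    have hdG : deriv G z = (1 - k * μ) - (k + 1) * μ * ((z / q) ^ k - 1) + deriv E z := by
      have h1 : HasDerivAt E (deriv G z - (1 + μ) - A * ((k + 1) * z ^ k)) z := by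
        have h2 : HasDerivAt (fun z : ℂ => (1 + μ) * z) (1 + μ) z := by
          simpa using (hasDerivAt_id' z).const_mul (1 + μ)
        have h3 : HasDerivAt (fun z : ℂ => A * z ^ (k + 1)) (A * ((k + 1) * z ^ k)) z := by
          have := ((hasDerivAt_pow (k + 1) z).const_mul A)
          simpa using this
        rw [hE]
        exact (hGz.hasDerivAt.sub h2).sub h3
      rw [h1.deriv]
      have h2 : A * z ^ k = -μ * (z / q) ^ k := by
        have hμ0 : μ ≠ 0 := norm_pos_iff.1 hμn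
        rw [div_pow, hq]
        field_simp
      linear_combination ((k : ℂ) + 1) * h2
    have h5 : ‖(z / q) ^ k - 1‖ ≤ ε := by
      refine (hρb (z / q) ?_).le
      rw [mem_ball, dist_eq_norm]
      have : z / q - 1 = (z - q) / q := by field_simp
      rw [this, norm_div, div_lt_iff₀ hqn]
      exact hz'.trans_lt (mul_lt_mul_of_pos_right hρ'2 hqn)
    have h6 : ‖((k : ℂ) + 1) * μ * ((z / q) ^ k - 1)‖ ≤ k * c.re / 8 * t := by
      rw [norm_mul, norm_mul]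
      have e1 : ‖(k : ℂ) + 1‖ = k + 1 := by
        have : ((k : ℂ) + 1) = ((k + 1 : ℕ) : ℂ) := by push_cast; rfl
        rw [this, Complex.norm_natCast]
        push_cast; rfl
      rw [e1]
      calc (k + 1) * ‖μ‖ * ‖(z / q) ^ k - 1‖ ≤ (k + 1) * ((‖c‖ + 1) * t) * ε := by gcongr
        _ = k * c.re / 8 * t := by
          rw [hε]
          field_simp
    rw [hdG]
    refine (norm_add_le _ _).trans ?_
    have h7 := norm_sub_le (1 - k * μ) ((k + 1) * μ * ((z / q) ^ k - 1))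
    linarith) (by
    have h1 : G q - q = E q := by
      rw [hE]
      have h2 : A * q ^ (k + 1) = -μ * q := by
        rw [pow_succ, hq]
        field_simp
      linear_combination h2
    rw [h1]
    refine (hEb q (by linarith)).2.trans ?_
    have h2 : C₂ * ‖q‖ ≤ k * c.re / 4 * ρ := by
      have := mul_le_mul_of_nonneg_left hqs hC₂0
      linarith
    have h3 := mul_le_mul_of_nonneg_right h2 (by positivity : 0 ≤ t * ‖q‖)
    nlinarith) v hv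
  have hball : ∀ z ∈ closedBall q (ρ * ‖q‖), z ∈ ball (0 : ℂ) r := by
    intro z hz
    rw [mem_closedBall, dist_eq_norm] at hz
    have := norm_add_le (z - q) q
    rw [sub_add_cancel] at this
    exact (hEb z (by nlinarith)).1
  obtain ⟨h1, x, hx, h2, h3, h4⟩ := hkey
  exact ⟨fun j => hball _ (h1 j), x, hball x hx, h2, h3, h4⟩

end Run7.h904.UQ
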