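import Mathlib
import Pool.Agent.Run7.h904.U1Cap

set_option autoImplicit false

open Topology Filter Metric Set

namespace Run7.h904.UQ

open Pool.Agent.H713R5.QJ.PBLAux (invpow)

/-- one step in the coordinate `s ^ k / v ^ k` -/
theorem ustep (k : ℕ) (hk : 1 ≤ k) (A c : ℂ) (hc : 0 < c.re) (C₀ C M : ℝ) (hC₀ : 0 ≤ C₀)
    (hC : 0 ≤ C) (hM : 0 < M) :
    ∃ K : ℝ, 0 ≤ K ∧ ∀ᶠ s : ℝ in 𝓝[>] 0, ∀ μ : ℂ, ‖μ - c * s ^ k‖ ≤ C₀ * s ^ (2 * k) →
      ∀ v w : ℂ, v ≠ 0 → ‖v‖ ≤ M * s →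
      ‖w - (1 + μ) * v - A * v ^ (k + 1)‖ ≤ C * (s ^ k * ‖v‖ ^ 2 + ‖v‖ ^ (k + 2)) →
      w ≠ 0 ∧ ‖(s : ℂ) ^ k / w ^ k - (1 - k * μ) * ((s : ℂ) ^ k / v ^ k) + k * A * (s : ℂ) ^ k‖ ≤
        K * s ^ (k + 1) * ‖(s : ℂ) ^ k / v ^ k‖ := by
  obtain ⟨K₀, hK₀, hinv⟩ := invpow k
  obtain ⟨e₁, he₁⟩ : ∃ e₁ : ℝ, e₁ = C * (M + M ^ (k + 1)) := ⟨_, rfl⟩
  have he₁0 : 0 ≤ e₁ := by rw [he₁]; positivity
  obtain ⟨K₂, hK₂⟩ : ∃ K₂ : ℝ, K₂ = (‖c‖ + 1) + ‖A‖ * M ^ k + e₁ := ⟨_, rfl⟩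
  have hK₂0 : 0 ≤ K₂ := by rw [hK₂]; positivity
  refine ⟨K₀ * K₂ ^ 2 + k * e₁, by positivity, ?_⟩
  filter_upwards [mu_bd k hk c hc C₀ hC₀, ev_small 1 1 one_pos 1 le_rfl,
    ev_small K₂ (1 / 4) (by norm_num) k hk, self_mem_nhdsWithin] with s hμb hs1 hs2 hs μ hμ v w hv hvM hw
  have hs0 : 0 < s := hs
  rw [one_mul, pow_one] at hs1
  obtain ⟨hμ1, -, -, -⟩ := hμb μ hμ
  obtain ⟨t, ht⟩ : ∃ t : ℝ, t = s ^ k := ⟨_, rfl⟩
  have ht0 : 0 < t := by rw [ht]; positivity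
  have htC : (s : ℂ) ^ k = (t : ℂ) := by rw [ht]; push_cast; rfl
  rw [htC]
  rw [← ht] at hμ1 hs2 hw
  have hvn : 0 < ‖v‖ := norm_pos_iff.2 hv
  -- the remainder
  obtain ⟨e, he⟩ : ∃ e : ℂ, e = (w - (1 + μ) * v - A * v ^ (k + 1)) / v := ⟨_, rfl⟩
  have hvk : ‖v‖ ^ k ≤ M ^ k * t := by
    have := pow_le_pow_left₀ hvn.le hvM k
    rwa [mul_pow, ← ht] at this
  have heb : ‖e‖ ≤ e₁ * (s * t) := by
    rw [he, norm_div, div_le_iff₀ hvn]
    refine hw.trans ?_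
    have h1 : t * ‖v‖ ^ 2 ≤ M * (s * t) * ‖v‖ := by
      have := mul_le_mul_of_nonneg_right hvM (by positivity : 0 ≤ t * ‖v‖)
      nlinarith
    have h2 : ‖v‖ ^ (k + 2) ≤ M ^ (k + 1) * (s * t) * ‖v‖ := by
      have e2 : ‖v‖ ^ (k + 2) = ‖v‖ ^ k * ‖v‖ * ‖v‖ := by ring
      rw [e2]
      have h3 : ‖v‖ ^ k * ‖v‖ ≤ M ^ k * t * (M * s) := mul_le_mul hvk hvM hvn.le (by positivity)
      have h4 := mul_le_mul_of_nonneg_right h3 hvn.le
      refine h4.trans (le_of_eq ?_)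
      ring
    rw [he₁]
    have h3 := mul_le_mul_of_nonneg_left (add_le_add h1 h2) hC
    refine h3.trans (le_of_eq ?_)
    ring
  obtain ⟨X, hX⟩ : ∃ X : ℂ, X = μ + A * v ^ k + e := ⟨_, rfl⟩
  have hwX : w = v * (1 + X) := by
    rw [hX, he]
    field_simp
    ring
  have hst : s * t ≤ t := by nlinarith
  have hXb : ‖X‖ ≤ K₂ * t := by
    rw [hX]
    refine (norm_add₃_le).trans ?_
    have h1 : ‖A * v ^ k‖ ≤ ‖A‖ * M ^ k * t := by
      rw [norm_mul, norm_pow, mul_assoc]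
      exact mul_le_mul_of_nonneg_left hvk (norm_nonneg _)
    have h2 : ‖e‖ ≤ e₁ * t := heb.trans (mul_le_mul_of_nonneg_left hst he₁0)
    rw [hK₂]
    linarith
  have hX4 : ‖X‖ ≤ 1 / 4 := hXb.trans hs2
  have h1X : 1 + X ≠ 0 := by
    intro h0
    have h1 : X = -1 := by linear_combination h0
    rw [h1, norm_neg, norm_one] at hX4
    norm_num at hX4
  refine ⟨by rw [hwX]; exact mul_ne_zero hv h1X, ?_⟩
  have hvk0 : v ^ k ≠ 0 := pow_ne_zero _ hv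
  have hXk0 : (1 + X) ^ k ≠ 0 := pow_ne_zero _ h1X
  have e2 : (t : ℂ) / w ^ k - (1 - k * μ) * ((t : ℂ) / v ^ k) + k * A * (t : ℂ) =
      ((t : ℂ) / v ^ k) * ((((1 + X) ^ k)⁻¹ - 1 + k * X) - k * e) := by
    rw [hwX, mul_pow]
    have : (k : ℂ) * X = k * μ + k * (A * v ^ k) + k * e := by rw [hX]; ring
    rw [this]
    field_simp
    ring
  rw [e2, norm_mul, mul_comm]
  refine mul_le_mul_of_nonneg_right ?_ (norm_nonneg _)
  refine (norm_sub_le _ _).trans ?_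
  have h1 := hinv X hX4
  have h2 : K₀ * ‖X‖ ^ 2 ≤ K₀ * K₂ ^ 2 * s ^ (k + 1) := by
    have h3 : ‖X‖ ^ 2 ≤ K₂ ^ 2 * s ^ (k + 1) := by
      have h4 := pow_le_pow_left₀ (norm_nonneg X) hXb 2
      rw [mul_pow] at h4
      refine h4.trans (mul_le_mul_of_nonneg_left ?_ (by positivity))
      rw [ht, ← pow_mul]
      exact pow_le_pow_of_le_one hs0.le hs1 (by omega)
    have := mul_le_mul_of_nonneg_left h3 hK₀
    linarith
  have h3 : ‖(k : ℂ) * e‖ ≤ k * e₁ * s ^ (k + 1) := by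
    rw [norm_mul, Complex.norm_natCast, pow_succ, ← ht, mul_assoc]
    refine mul_le_mul_of_nonneg_left ?_ (by positivity)
    rw [mul_comm t s]
    exact heb
  rw [add_mul]
  linarith

lemma ev_log (a b D : ℝ) (hb : 0 < b) : ∀ᶠ s : ℝ in 𝓝[>] 0, a * s * (D + |Real.log s|) ≤ b := by
  have h1 : Tendsto (fun s : ℝ => s * Real.log s) (𝓝 0) (𝓝 0) := by
    have := Real.continuous_mul_log.tendsto 0
    simpa using this
  have h2 : Tendsto (fun s : ℝ => a * s * (D + |Real.log s|)) (𝓝[>] 0) (𝓝 0) := by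
    have h3 : Tendsto (fun s : ℝ => a * (s * D + |s * Real.log s|)) (𝓝 0) (𝓝 (a * (0 * D + |0|))) :=
      (((tendsto_id.mul_const D).add h1.abs).const_mul a)
    rw [zero_mul, abs_zero, add_zero, mul_zero] at h3
    refine (h3.mono_left nhdsWithin_le_nhds).congr' ?_
    filter_upwards [self_mem_nhdsWithin] with s hs
    have hs0 : (0 : ℝ) < s := hs
    rw [abs_mul, abs_of_pos hs0]
    ring
  exact h2.eventually (ge_mem_nhds hb)

/-- the discrete logarithmic spiral avoids a neighbourhood of `1` -/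
theorem spiral (k : ℕ) (hk : 2 ≤ k) (c χ : ℂ) (hc : 0 < c.re) (hχ : χ ≠ 0) (C₀ : ℝ) (hC₀ : 0 ≤ C₀)
    (δ : ℝ) (hδ : 0 < δ) :
    ∃ δ' : ℝ, 0 < δ' ∧ δ' ≤ 1 / 4 ∧ ∀ᶠ s : ℝ in 𝓝[>] 0, ∀ μ : ℂ,
      ‖μ - c * s ^ k‖ ≤ C₀ * s ^ (2 * k) → ∀ χ' : ℂ, ‖χ' / χ - 1‖ ≤ δ' →
      (∀ m : ℤ, δ ≤ |χ.arg - c.im / c.re * Real.log ‖χ‖ +
        (k - 1) * (c.im / c.re) * Real.log (s ^ k) - 2 * Real.pi * m|) →
      ∀ j : ℕ, δ' ≤ ‖χ' * (((s : ℂ) ^ k) ^ (k - 1))⁻¹ * (1 - k * μ) ^ j - 1‖ := by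
  have hk0 : (0 : ℝ) < k := by exact_mod_cast (by omega : 0 < k)
  obtain ⟨g₀, hg₀⟩ : ∃ g₀ : ℝ, g₀ = c.im / c.re := ⟨_, rfl⟩
  obtain ⟨δ', hδ'⟩ : ∃ δ' : ℝ, δ' = min (1 / 4) (δ / (12 * (2 + |g₀|))) := ⟨_, rfl⟩
  have hδ'0 : 0 < δ' := by rw [hδ']; exact lt_min (by norm_num) (by positivity)
  have hδ'4 : δ' ≤ 1 / 4 := by rw [hδ']; exact min_le_left _ _
  have hδ'2 : 3 * (2 + |g₀|) * δ' ≤ δ / 4 := by
    have : δ' ≤ δ / (12 * (2 + |g₀|)) := by rw [hδ']; exact min_le_right _ _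
    rw [le_div_iff₀ (by positivity)] at this
    linarith
  obtain ⟨C₇, hC₇⟩ : ∃ C₇ : ℝ, C₇ = (k * (‖c‖ + 1)) ^ 2 + k * C₀ := ⟨_, rfl⟩
  have hC₇0 : 0 ≤ C₇ := by rw [hC₇]; positivity
  obtain ⟨K, hK⟩ : ∃ K : ℝ, K = (1 + |g₀|) * C₇ / (k * c.re / 2) := ⟨_, rfl⟩
  have hK0 : 0 ≤ K := by rw [hK]; positivity
  refine ⟨δ', hδ'0, hδ'4, ?_⟩
  filter_upwards [mu_bd k (by omega) c hc C₀ hC₀, ev_small 1 1 one_pos 1 le_rfl,
    ev_small (k * (‖c‖ + 1)) (1 / 2) (by norm_num) k (by omega),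
    ev_small K 1 one_pos k (by omega),
    ev_log (K * (k * k)) (δ / 4) |Real.log ‖χ‖| (by positivity), self_mem_nhdsWithin]
    with s hμb hs1 hs2 hs3 hs4 hs μ hμ χ' hχ' hang j
  have hs0 : 0 < s := hs
  rw [one_mul, pow_one] at hs1
  obtain ⟨hμ1, -, hμ3, -⟩ := hμb μ hμ
  obtain ⟨t, ht⟩ : ∃ t : ℝ, t = s ^ k := ⟨_, rfl⟩
  have ht0 : 0 < t := by rw [ht]; positivity
  have htC : (s : ℂ) ^ k = (t : ℂ) := by rw [ht]; push_cast; rfl
  have ht2 : s ^ (2 * k) = t ^ 2 := by rw [ht, ← pow_mul, mul_comm]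
  rw [htC, ht2] at hμ
  rw [htC]
  rw [← ht] at hμ1 hμ3 hs2 hs3 hang
  by_contra hcon
  push Not at hcon
  obtain ⟨α, hα⟩ : ∃ α : ℂ, α = 1 - k * μ := ⟨_, rfl⟩
  rw [← hα] at hcon hμ3
  have hkμ : ‖(k : ℂ) * μ‖ ≤ k * (‖c‖ + 1) * t := by
    rw [norm_mul, Complex.norm_natCast, mul_assoc]
    exact mul_le_mul_of_nonneg_left hμ1 hk0.le
  have hkμ2 : ‖(k : ℂ) * μ‖ ≤ 1 / 2 := hkμ.trans hs2
  have hα0 : α ≠ 0 := by
    intro h0
    rw [hα] at h0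
    have : (k : ℂ) * μ = 1 := by linear_combination -h0
    rw [this, norm_one] at hkμ2
    norm_num at hkμ2
  obtain ⟨ζ, hζ⟩ : ∃ ζ : ℂ, ζ = χ' * ((t : ℂ) ^ (k - 1))⁻¹ * α ^ j := ⟨_, rfl⟩
  rw [← hζ] at hcon
  have hlog : ∀ z : ℂ, ‖z - 1‖ ≤ δ' → ‖Complex.log z‖ ≤ 3 / 2 * δ' ∧ z ≠ 0 := by
    intro z hz
    have h1 : ‖z - 1‖ ≤ 1 / 2 := by linarith
    have h2 := Complex.norm_log_one_add_half_le_self h1
    rw [add_sub_cancel] at h2
    refine ⟨by linarith, ?_⟩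
    rintro rfl
    rw [zero_sub, norm_neg, norm_one] at h1
    norm_num at h1
  obtain ⟨hl1, hζ0⟩ := hlog ζ hcon.le
  obtain ⟨hl2, hχχ0⟩ := hlog (χ' / χ) hχ'
  obtain ⟨ℓ, hℓ⟩ : ∃ ℓ : ℂ, ℓ = Complex.log ζ := ⟨_, rfl⟩
  obtain ⟨ℓ₁, hℓ₁⟩ : ∃ ℓ₁ : ℂ, ℓ₁ = Complex.log (χ' / χ) := ⟨_, rfl⟩
  rw [← hℓ] at hl1
  rw [← hℓ₁] at hl2
  have hexp : Complex.exp ℓ = Complex.exp (Complex.log χ + ℓ₁ - (k - 1 : ℕ) * (Real.log t : ℂ) +
      j * Complex.log α) := by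
    rw [hℓ, Complex.exp_log hζ0, Complex.exp_add, Complex.exp_sub, Complex.exp_add,
      Complex.exp_log hχ, hℓ₁, Complex.exp_log hχχ0, Complex.exp_nat_mul, Complex.exp_nat_mul,
      Complex.exp_log hα0, ← Complex.ofReal_exp, Real.exp_log ht0, hζ]
    field_simp
  obtain ⟨n, hn⟩ := Complex.exp_eq_exp_iff_exists_int.1 hexp
  obtain ⟨a', ha'⟩ : ∃ a' : ℝ, a' = (Complex.log α).re := ⟨_, rfl⟩
  obtain ⟨b', hb'⟩ : ∃ b' : ℝ, b' = (Complex.log α).im := ⟨_, rfl⟩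
  have hkc : ((k - 1 : ℕ) : ℝ) = k - 1 := by
    rw [Nat.cast_sub (by omega)]; simp
  have hre : ℓ.re = Real.log ‖χ‖ + ℓ₁.re - (k - 1) * Real.log t + j * a' := by
    have := congrArg Complex.re hn
    simp only [Complex.add_re, Complex.sub_re, Complex.mul_re, Complex.natCast_re,
      Complex.natCast_im, Complex.ofReal_re, Complex.ofReal_im, Complex.intCast_re,
      Complex.intCast_im, Complex.I_re, Complex.I_im, Complex.re_ofNat, Complex.im_ofNat,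
      Complex.mul_im, Complex.log_re, zero_mul, mul_zero, sub_zero, add_zero, mul_one] at this
    rw [this, ha', Complex.log_re, hkc]
  have him : ℓ.im = χ.arg + ℓ₁.im + j * b' + 2 * Real.pi * n := by
    have := congrArg Complex.im hn
    simp only [Complex.add_im, Complex.sub_im, Complex.mul_re, Complex.natCast_re,
      Complex.natCast_im, Complex.ofReal_re, Complex.ofReal_im, Complex.intCast_re,
      Complex.intCast_im, Complex.I_re, Complex.I_im, Complex.re_ofNat, Complex.im_ofNat,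
      Complex.mul_im, Complex.log_im, zero_mul, mul_zero, sub_zero, add_zero, mul_one] at this
    rw [this, hb', Complex.log_im]
    ring
  -- the slope
  have ha'n : a' ≤ -(k * c.re / 2 * t) := by
    rw [ha', Complex.log_re]
    have h1 := Real.log_le_sub_one_of_pos (norm_pos_iff.2 hα0)
    linarith
  have hkct : 0 < k * c.re / 2 * t := by positivity
  have ha'0 : a' < 0 := by linarith
  obtain ⟨E, hE⟩ : ∃ E : ℂ, E = Complex.log α + k * c * t := ⟨_, rfl⟩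
  have hEb : ‖E‖ ≤ C₇ * t ^ 2 := by
    have h1 : ‖-(k * μ : ℂ)‖ < 1 := by rw [norm_neg]; linarith
    have h2 := Complex.norm_log_one_add_sub_self_le h1
    have e1 : (1 : ℂ) + -(k * μ) = α := by rw [hα]; ring
    rw [e1, norm_neg] at h2
    have h3 : ‖(k : ℂ) * μ‖ ^ 2 * (1 - ‖(k : ℂ) * μ‖)⁻¹ / 2 ≤ ‖(k : ℂ) * μ‖ ^ 2 := by
      have h4 : (1 - ‖(k : ℂ) * μ‖)⁻¹ ≤ 2 := by
        rw [inv_le_comm₀ (by linarith) (by norm_num)]
        linarith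
      have h5 := mul_le_mul_of_nonneg_left h4 (by positivity : 0 ≤ ‖(k : ℂ) * μ‖ ^ 2)
      linarith
    have h4 : ‖(k : ℂ) * μ‖ ^ 2 ≤ (k * (‖c‖ + 1)) ^ 2 * t ^ 2 := by
      have := pow_le_pow_left₀ (norm_nonneg _) hkμ 2
      rwa [mul_pow] at this
    have e2 : E = (Complex.log α - -(k * μ)) - k * (μ - c * t) := by rw [hE]; ring
    rw [e2]
    refine (norm_sub_le _ _).trans ?_
    have h5 : ‖(k : ℂ) * (μ - c * t)‖ ≤ k * (C₀ * t ^ 2) := by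
      rw [norm_mul, Complex.norm_natCast]
      exact mul_le_mul_of_nonneg_left hμ hk0.le
    rw [hC₇]
    linarith
  obtain ⟨g, hg⟩ : ∃ g : ℝ, g = b' / a' := ⟨_, rfl⟩
  have hga : g * a' = b' := by rw [hg]; exact div_mul_cancel₀ _ ha'0.ne
  have hgg : |g - g₀| ≤ K * t := by
    have h1 : (g - g₀) * a' = E.im - g₀ * E.re := by
      have h2 : E.im = b' + k * c.im * t := by
        rw [hE, hb']; simp
      have h3 : E.re = a' + k * c.re * t := by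
        rw [hE, ha']; simp
      rw [h2, h3, hg₀]
      have h4 : c.im / c.re * (k * c.re * t) = k * c.im * t := by field_simp
      linear_combination hga + h4
    have h2 : |g - g₀| * |a'| ≤ (1 + |g₀|) * (C₇ * t ^ 2) := by
      rw [← abs_mul, h1]
      refine (abs_sub _ _).trans ?_
      rw [abs_mul]
      have h3 := (Complex.abs_im_le_norm E).trans hEb
      have h4 := (Complex.abs_re_le_norm E).trans hEb
      have h5 := mul_le_mul_of_nonneg_left h4 (abs_nonneg g₀)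
      linarith
    have h3 : k * c.re / 2 * t ≤ |a'| := by
      rw [abs_of_neg ha'0]; linarith
    have h4 : |g - g₀| * (k * c.re / 2 * t) ≤ (1 + |g₀|) * (C₇ * t ^ 2) :=
      (mul_le_mul_of_nonneg_left h3 (abs_nonneg _)).trans h2
    rw [hK, div_mul_eq_mul_div, le_div_iff₀ (by positivity)]
    have h5 : |g - g₀| * (k * c.re / 2) * t ≤ (1 + |g₀|) * C₇ * t * t := by nlinarith
    exact le_of_mul_le_mul_right h5 ht0
  have hg1 : |g| ≤ 1 + |g₀| := by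
    have h1 : |g| ≤ |g - g₀| + |g₀| := by
      have := abs_add_le (g - g₀) g₀
      rwa [sub_add_cancel] at this
    linarith
  -- the conclusion
  have hlt : |Real.log t| ≤ k * |Real.log s| := by
    rw [ht, Real.log_pow, abs_mul, Nat.abs_cast]
  have h5 := hang (-n)
  have e3 : χ.arg - c.im / c.re * Real.log ‖χ‖ + (k - 1) * (c.im / c.re) * Real.log t -
      2 * Real.pi * ((-n : ℤ) : ℝ) = (ℓ.im - g * ℓ.re) - (ℓ₁.im - g * ℓ₁.re) +
        (g - g₀) * (Real.log ‖χ‖ - (k - 1) * Real.log t) := by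
    rw [hre, him, ← hg₀]
    push_cast
    linear_combination (j : ℝ) * hga
  rw [e3] at h5
  have h6 : ∀ z : ℂ, ‖z‖ ≤ 3 / 2 * δ' → |z.im - g * z.re| ≤ (2 + |g₀|) * (3 / 2 * δ') := by
    intro z hz
    refine (abs_sub _ _).trans ?_
    rw [abs_mul]
    have h7 := (Complex.abs_im_le_norm z).trans hz
    have h8 := (Complex.abs_re_le_norm z).trans hz
    have h9 : |g| * |z.re| ≤ (1 + |g₀|) * (3 / 2 * δ') := mul_le_mul hg1 h8 (abs_nonneg _) (by positivity)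
    linarith
  have h7 := h6 ℓ hl1
  have h8 := h6 ℓ₁ hl2
  have h9 : |(g - g₀) * (Real.log ‖χ‖ - (k - 1) * Real.log t)| ≤ δ / 4 := by
    rw [abs_mul]
    have h10 : |Real.log ‖χ‖ - (k - 1) * Real.log t| ≤ |Real.log ‖χ‖| + k * k * |Real.log s| := by
      refine (abs_sub _ _).trans ?_
      rw [abs_mul]
      have h11 : |(k : ℝ) - 1| ≤ k := by
        rw [abs_of_nonneg]
        · linarith
        · have : (1 : ℝ) ≤ k := by exact_mod_cast (by omega : 1 ≤ k)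
          linarith
      have h12 : |(k : ℝ) - 1| * |Real.log t| ≤ k * (k * |Real.log s|) :=
        mul_le_mul h11 hlt (abs_nonneg _) hk0.le
      linarith
    have h13 : K * t ≤ K * s := by
      refine mul_le_mul_of_nonneg_left ?_ hK0
      rw [ht]
      calc s ^ k ≤ s ^ 1 := pow_le_pow_of_le_one hs0.le hs1 (by omega)
        _ = s := pow_one s
    have h14 : |g - g₀| * |Real.log ‖χ‖ - (k - 1) * Real.log t| ≤
        K * s * (|Real.log ‖χ‖| + k * k * |Real.log s|) :=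
      mul_le_mul (hgg.trans h13) h10 (abs_nonneg _) (by positivity)
    have h15 : K * s * (|Real.log ‖χ‖| + k * k * |Real.log s|) ≤
        K * (k * k) * s * (|Real.log ‖χ‖| + |Real.log s|) := by
      have h16 : (1 : ℝ) ≤ k * k := by
        have : (1 : ℝ) ≤ k := by exact_mod_cast (by omega : 1 ≤ k)
        nlinarith
      have h17 : |Real.log ‖χ‖| + k * k * |Real.log s| ≤ k * k * (|Real.log ‖χ‖| + |Real.log s|) := by
        nlinarith [abs_nonneg (Real.log ‖χ‖)]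
      have := mul_le_mul_of_nonneg_left h17 (by positivity : 0 ≤ K * s)
      linarith
    linarith
  have h10 : |(ℓ.im - g * ℓ.re) - (ℓ₁.im - g * ℓ₁.re) +
      (g - g₀) * (Real.log ‖χ‖ - (k - 1) * Real.log t)| ≤ δ / 4 + δ / 4 := by
    refine (abs_add_le _ _).trans ?_
    refine add_le_add ((abs_sub _ _).trans ?_) h9
    linarith
  linarith

end Run7.h904.UQ
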