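import Mathlib
import Pool.Agent.Run7.h904.U2Orb

set_option autoImplicit false

open Topology Filter Metric Set

namespace Run7.h904.UQ

lemma powB (C₃ σ η₁ : ℝ) (N : ℕ) (hC₃1 : 1 ≤ C₃) (hσ0 : 0 ≤ σ) (hη1 : η₁ ≤ 1) (hη0 : 0 < η₁)
    (hσN : σ * N ≤ η₁ / (2 * C₃)) : ∀ j ≤ N, C₃ * ((1 + σ) ^ j - 1) ≤ η₁ := by
  have hpow : C₃ * ((1 + σ) ^ N - 1) ≤ η₁ := by
    have h1 : (1 + σ) ^ N ≤ Real.exp (σ * N) := by
      rw [mul_comm, Real.exp_nat_mul]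
      refine pow_le_pow_left₀ (by linarith) ?_ _
      have := Real.add_one_le_exp σ
      linarith
    have h2 : η₁ / (2 * C₃) ≤ 1 / 2 := by
      rw [div_le_iff₀ (by positivity)]
      nlinarith
    have hσN0 : 0 ≤ σ * N := by positivity
    have h3 : Real.exp (σ * N) ≤ 1 / (1 - σ * N) :=
      Real.exp_bound_div_one_sub_of_interval hσN0 (by linarith)
    have h4 : 1 / (1 - σ * N) ≤ 1 + 2 * (σ * N) := by
      rw [div_le_iff₀ (by linarith)]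
      nlinarith
    have h5 : (1 + σ) ^ N - 1 ≤ η₁ / C₃ := by
      have e : η₁ / C₃ = 2 * (η₁ / (2 * C₃)) := by field_simp
      rw [e]
      linarith
    have h6 := mul_le_mul_of_nonneg_left h5 (by linarith : 0 ≤ C₃)
    rwa [mul_div_cancel₀ _ (by linarith : C₃ ≠ 0)] at h6
  intro j hj
  have h1 : (1 + σ) ^ j ≤ (1 + σ) ^ N := pow_le_pow_right₀ (by linarith) hj
  have h2 := mul_le_mul_of_nonneg_left (sub_le_sub_right h1 1) (by linarith : 0 ≤ C₃)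
  linarith

lemma timeB (k : ℕ) (hk1 : 1 ≤ k) (cr K s t E D δ₃ η₁ C₃ : ℝ) (hcr : 0 < cr) (hK : 0 ≤ K)
    (hs0 : 0 < s) (ht : t = s ^ k) (hE : 0 < E) (hδ₃0 : 0 < δ₃) (hD : D = |Real.log (E / δ₃)|)
    (hη0 : 0 < η₁) (hC₃ : 0 < C₃) (a u : ℝ) (ha0 : 0 ≤ a) (ha : a ≤ 1 - k * cr / 2 * t)
    (hu : 0 < u) (hub : u ≤ E / t ^ (k - 1)) (N : ℕ) (hNm : ∀ j < N, δ₃ ≤ a ^ j * u)
    (hs5 : 2 * K * s ^ (k + 1) ≤ η₁ / (4 * C₃))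
    (hs6 : 4 * K * (k * k) / (k * cr) * s * (D + |Real.log s|) ≤ η₁ / (4 * C₃)) :
    2 * K * s ^ (k + 1) * N ≤ η₁ / (2 * C₃) := by
  have hk0 : (0 : ℝ) < k := by exact_mod_cast hk1
  have ht0 : 0 < t := by rw [ht]; positivity
  have htkr : 0 < t ^ (k - 1) := by positivity
  obtain ⟨σ, hσ⟩ : ∃ σ : ℝ, σ = 2 * K * s ^ (k + 1) := ⟨_, rfl⟩
  rw [← hσ]
  have hσ0 : 0 ≤ σ := by rw [hσ]; positivity
  have hlogt : |Real.log t| ≤ k * |Real.log s| := by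
    rw [ht, Real.log_pow, abs_mul, Nat.abs_cast]
  rcases Nat.eq_zero_or_pos N with h0 | h0
  · rw [h0]
    simp only [Nat.cast_zero, mul_zero]
    positivity
  · have h1 := hNm (N - 1) (by omega)
    have h2 : a ^ (N - 1) ≤ Real.exp (-(k * cr / 2 * t) * (N - 1 : ℕ)) := by
      rw [mul_comm, Real.exp_nat_mul]
      refine pow_le_pow_left₀ ha0 ?_ _
      have := Real.add_one_le_exp (-(k * cr / 2 * t))
      linarith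
    have h3 : δ₃ ≤ Real.exp (-(k * cr / 2 * t) * (N - 1 : ℕ)) * u :=
      h1.trans (mul_le_mul_of_nonneg_right h2 hu.le)
    have h4 : k * cr / 2 * t * (N - 1 : ℕ) ≤ Real.log (u / δ₃) := by
      rw [Real.le_log_iff_exp_le (by positivity), le_div_iff₀ hδ₃0]
      have h5 := mul_le_mul_of_nonneg_left h3 (Real.exp_nonneg (k * cr / 2 * t * (N - 1 : ℕ)))
      rw [← mul_assoc, ← Real.exp_add] at h5
      have e : k * cr / 2 * t * ((N - 1 : ℕ) : ℝ) + -(k * cr / 2 * t) * ((N - 1 : ℕ) : ℝ) = 0 := by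
        ring
      rw [e, Real.exp_zero, one_mul] at h5
      exact h5
    have h5 : Real.log (u / δ₃) ≤ D + k * k * |Real.log s| := by
      have h6 : u / δ₃ ≤ (E / δ₃) / t ^ (k - 1) := by
        rw [div_le_iff₀ hδ₃0]
        refine hub.trans (le_of_eq ?_)
        field_simp
      have h7 := Real.log_le_log (by positivity) h6
      rw [Real.log_div (by positivity) htkr.ne', Real.log_pow] at h7
      have h8 : Real.log (E / δ₃) ≤ D := by rw [hD]; exact le_abs_self _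
      have h9 : -(((k - 1 : ℕ) : ℝ) * Real.log t) ≤ k * k * |Real.log s| := by
        have h10 : ((k - 1 : ℕ) : ℝ) ≤ k := by exact_mod_cast (by omega : k - 1 ≤ k)
        have h11 : -(((k - 1 : ℕ) : ℝ) * Real.log t) ≤ ((k - 1 : ℕ) : ℝ) * |Real.log t| := by
          have := neg_abs_le (Real.log t)
          have h12 : (0 : ℝ) ≤ ((k - 1 : ℕ) : ℝ) := by positivity
          nlinarith
        have h12 : ((k - 1 : ℕ) : ℝ) * |Real.log t| ≤ k * (k * |Real.log s|) :=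
          mul_le_mul h10 hlogt (abs_nonneg _) hk0.le
        linarith
      linarith
    have hcast : (N : ℝ) = ((N - 1 : ℕ) : ℝ) + 1 := by
      rw [Nat.cast_sub h0]; simp
    have h6 : σ * ((N - 1 : ℕ) : ℝ) ≤ η₁ / (4 * C₃) := by
      have h7 : σ * ((N - 1 : ℕ) : ℝ) = 4 * K * s / (k * cr) *
          (k * cr / 2 * t * ((N - 1 : ℕ) : ℝ)) := by
        rw [hσ, pow_succ, ← ht]
        field_simp
        ring
      have hD0 : 0 ≤ D := by rw [hD]; exact abs_nonneg _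
      rw [h7]
      have h8 : k * cr / 2 * t * ((N - 1 : ℕ) : ℝ) ≤ k * k * (D + |Real.log s|) := by
        refine (h4.trans h5).trans ?_
        have h9 : (1 : ℝ) ≤ k * k := by
          have : (1 : ℝ) ≤ k := by exact_mod_cast hk1
          nlinarith
        nlinarith
      have h9 := mul_le_mul_of_nonneg_left h8 (by positivity : 0 ≤ 4 * K * s / (k * cr))
      refine h9.trans (le_trans (le_of_eq ?_) hs6)
      ring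
    have h7 : σ ≤ η₁ / (4 * C₃) := by rw [hσ]; exact hs5
    rw [hcast, mul_add, mul_one]
    have e : η₁ / (2 * C₃) = η₁ / (4 * C₃) + η₁ / (4 * C₃) := by field_simp; ring
    rw [e]
    linarith

lemma bdM (k : ℕ) (hk : 1 ≤ k) (s t b₁ δ₄ M : ℝ) (hs : 0 < s) (ht : t = s ^ k) (hb₁0 : 0 < b₁)
    (hδ₄ : 0 < δ₄) (hδ₄4 : δ₄ ≤ 1 / 4) (hM : 0 < M) (hMk : M ^ k = 2 / (b₁ * δ₄)) (B ζ v : ℂ)
    (hB1 : b₁ ≤ ‖B‖) (hspj : δ₄ ≤ ‖ζ - 1‖) (hv : v ≠ 0)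
    (h1 : ‖(t / v ^ k + B) - B * ζ‖ ≤ δ₄ / 8 * (‖B‖ * ‖ζ‖)) : ‖v‖ ≤ M * s := by
  have ht0 : 0 < t := by rw [ht]; positivity
  have hvn : 0 < ‖v‖ := norm_pos_iff.2 hv
  have h2 : ‖B * ζ - B‖ ≤ ‖(t : ℂ) / v ^ k‖ + ‖(t / v ^ k + B) - B * ζ‖ := by
    have e3 : B * ζ - B = t / v ^ k - ((t / v ^ k + B) - B * ζ) := by ring
    conv_lhs => rw [e3]
    exact norm_sub_le _ _
  have e4 : ‖B * ζ - B‖ = ‖B‖ * ‖ζ - 1‖ := by
    rw [← norm_mul]; congr 1; ring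
  rw [e4] at h2
  have hBp : 0 < ‖B‖ := by linarith
  obtain ⟨y, hy⟩ : ∃ y : ℝ, y = ‖ζ - 1‖ := ⟨_, rfl⟩
  obtain ⟨z, hz⟩ : ∃ z : ℝ, z = ‖ζ‖ := ⟨_, rfl⟩
  obtain ⟨b, hb⟩ : ∃ b : ℝ, b = ‖B‖ := ⟨_, rfl⟩
  have h6 : z ≤ y + 1 := by
    have := norm_add_le (ζ - 1) 1
    rw [sub_add_cancel, norm_one] at this
    rw [hz, hy]
    exact this
  rw [← hy] at hspj h2
  rw [← hz, ← hb] at h1
  rw [← hb] at h2 hBp hB1
  have h3 : b * (δ₄ / 2) ≤ ‖(t : ℂ) / v ^ k‖ := by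
    have h4 : b * (y - δ₄ / 8 * z) ≤ ‖(t : ℂ) / v ^ k‖ := by
      have e : b * (y - δ₄ / 8 * z) = b * y - δ₄ / 8 * (b * z) := by ring
      rw [e]
      linarith
    refine le_trans (mul_le_mul_of_nonneg_left ?_ hBp.le) h4
    have h5 : δ₄ / 8 * z ≤ δ₄ / 8 * (y + 1) := mul_le_mul_of_nonneg_left h6 (by positivity)
    have h7 : δ₄ / 8 * y ≤ 1 / 32 * y := mul_le_mul_of_nonneg_right (by linarith) (by linarith)
    linarith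
  rw [norm_div, norm_pow, Complex.norm_of_nonneg ht0.le, le_div_iff₀ (by positivity)] at h3
  have h4 : ‖v‖ ^ k ≤ (M * s) ^ k := by
    rw [mul_pow, hMk, ← ht, div_mul_eq_mul_div, le_div_iff₀ (by positivity)]
    have h5 : b₁ * (δ₄ / 2) * ‖v‖ ^ k ≤ b * (δ₄ / 2) * ‖v‖ ^ k := by gcongr
    nlinarith
  exact (pow_le_pow_iff_left₀ hvn.le (by positivity) (by omega)).1 h4

lemma stepI (k : ℕ) (A B α U₀ : ℂ) (t K σ s b₂ δ₃ C₃ : ℝ) (hs : 0 < s) (hK : 0 ≤ K)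
    (hδ₃0 : 0 < δ₃) (hb₂0 : 0 < b₂) (hσ : σ = 2 * K * s ^ (k + 1)) (hC₃ : C₃ = 1 + b₂ / δ₃)
    (hα2 : 1 / 2 ≤ ‖α‖) (hB2 : ‖B‖ ≤ b₂) (hBfix : (1 - α) * B = k * A * t) (j : ℕ) (v w : ℂ)
    (h2 : ‖(t / v ^ k + B) - α ^ j * U₀‖ ≤ C₃ * ((1 + σ) ^ j - 1) * (‖α‖ ^ j * ‖U₀‖))
    (h5 : ‖(t : ℂ) / w ^ k - α * (t / v ^ k) + k * A * t‖ ≤ K * s ^ (k + 1) * ‖(t : ℂ) / v ^ k‖)
    (h10 : δ₃ ≤ ‖α‖ ^ j * ‖U₀‖) :
    ‖(t / w ^ k + B) - α ^ (j + 1) * U₀‖ ≤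
      C₃ * ((1 + σ) ^ (j + 1) - 1) * (‖α‖ ^ (j + 1) * ‖U₀‖) := by
  have hαp : 0 < ‖α‖ := by linarith
  have hσ0 : 0 ≤ σ := by rw [hσ]; positivity
  have h6 : ‖(t : ℂ) / v ^ k‖ ≤ C₃ * (1 + σ) ^ j * (‖α‖ ^ j * ‖U₀‖) := by
    have e : (t : ℂ) / v ^ k = ((t / v ^ k + B) - α ^ j * U₀) + α ^ j * U₀ - B := by ring
    rw [e]
    refine (norm_sub_le _ _).trans ?_
    have h7 := norm_add_le ((t / v ^ k + B) - α ^ j * U₀) (α ^ j * U₀)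
    have h8 : ‖α ^ j * U₀‖ = ‖α‖ ^ j * ‖U₀‖ := by rw [norm_mul, norm_pow]
    have h9 : ‖B‖ ≤ b₂ / δ₃ * (‖α‖ ^ j * ‖U₀‖) := by
      have h11 := mul_le_mul_of_nonneg_left h10 (by positivity : 0 ≤ b₂ / δ₃)
      rw [div_mul_cancel₀ _ hδ₃0.ne'] at h11
      linarith
    rw [h8] at h7
    have e2 : C₃ * (1 + σ) ^ j * (‖α‖ ^ j * ‖U₀‖) =
        C₃ * ((1 + σ) ^ j - 1) * (‖α‖ ^ j * ‖U₀‖) + ‖α‖ ^ j * ‖U₀‖ +
          b₂ / δ₃ * (‖α‖ ^ j * ‖U₀‖) := by rw [hC₃]; ring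
    rw [e2]
    linarith
  have e3 : (t / w ^ k + B) - α ^ (j + 1) * U₀ =
      ((t : ℂ) / w ^ k - α * (t / v ^ k) + k * A * t) +
        α * ((t / v ^ k + B) - α ^ j * U₀) := by
    rw [pow_succ]
    linear_combination hBfix
  rw [e3]
  refine (norm_add_le _ _).trans ?_
  have h7 : K * s ^ (k + 1) * ‖(t : ℂ) / v ^ k‖ ≤
      σ * (C₃ * (1 + σ) ^ j) * (‖α‖ ^ (j + 1) * ‖U₀‖) := by
    have h8 : K * s ^ (k + 1) ≤ σ * ‖α‖ := by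
      rw [hσ]
      have : 0 ≤ K * s ^ (k + 1) := by positivity
      nlinarith
    have h9 := mul_le_mul h8 h6 (norm_nonneg _) (by positivity)
    refine h9.trans (le_of_eq ?_)
    rw [pow_succ]
    ring
  have h8 : ‖α * ((t / v ^ k + B) - α ^ j * U₀)‖ ≤
      C₃ * ((1 + σ) ^ j - 1) * (‖α‖ ^ (j + 1) * ‖U₀‖) := by
    rw [norm_mul]
    have h9 := mul_le_mul_of_nonneg_left h2 hαp.le
    refine h9.trans (le_of_eq ?_)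
    rw [pow_succ]
    ring
  have e4 : C₃ * ((1 + σ) ^ (j + 1) - 1) * (‖α‖ ^ (j + 1) * ‖U₀‖) =
      σ * (C₃ * (1 + σ) ^ j) * (‖α‖ ^ (j + 1) * ‖U₀‖) +
      C₃ * ((1 + σ) ^ j - 1) * (‖α‖ ^ (j + 1) * ‖U₀‖) := by
    rw [pow_succ (1 + σ) j]
    ring
  rw [e4]
  exact add_le_add (h5.trans h7) h8

lemma endQ (k : ℕ) (hk : 1 ≤ k) (A μ B : ℂ) (t ρ δ₆ : ℝ) (hA : A ≠ 0) (hμ : μ ≠ 0) (ht : 0 < t)
    (hB : B = A * t / μ)
    (hδ₆b : ∀ ξ : ℂ, ‖ξ‖ ≤ δ₆ → ‖Complex.exp (-(Complex.log (1 - ξ) / k)) - 1‖ < ρ)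
    (hδ₆2 : δ₆ ≤ 1 / 2) (v : ℂ) (hN1 : v ≠ 0) (hξb : ‖(t / v ^ k + B) / B‖ ≤ δ₆) :
    ∃ q : ℂ, q ^ k = -μ / A ∧ v ∈ closedBall q (ρ * ‖q‖) := by
  have htC0 : (t : ℂ) ≠ 0 := by exact_mod_cast ht.ne'
  have hB0 : B ≠ 0 := by rw [hB]; exact div_ne_zero (mul_ne_zero hA htC0) hμ
  obtain ⟨ξ, hξ⟩ : ∃ ξ : ℂ, ξ = (t / v ^ k + B) / B := ⟨_, rfl⟩
  rw [← hξ] at hξb
  have hξ1 : 1 - ξ ≠ 0 := by
    intro h0
    have : ξ = 1 := by linear_combination -h0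
    rw [this, norm_one] at hξb
    linarith
  have hexpξ := hδ₆b ξ hξb
  obtain ⟨q, hq⟩ : ∃ q : ℂ, q = v * Complex.exp (Complex.log (1 - ξ) / k) := ⟨_, rfl⟩
  have hkC : (k : ℂ) ≠ 0 := by exact_mod_cast (by omega : k ≠ 0)
  refine ⟨q, ?_, ?_⟩
  · have e1 : q ^ k = v ^ k * (1 - ξ) := by
      rw [hq, mul_pow, ← Complex.exp_nat_mul, mul_div_cancel₀ _ hkC, Complex.exp_log hξ1]
    have hvk0 : v ^ k ≠ 0 := pow_ne_zero _ hN1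
    have e2 : 1 - ξ = -(t / v ^ k) / B := by
      rw [hξ]
      field_simp
      ring
    rw [e1, e2, hB]
    field_simp
  · rw [mem_closedBall, dist_eq_norm]
    have e1 : v - q = q * (Complex.exp (-(Complex.log (1 - ξ) / k)) - 1) := by
      rw [mul_sub, mul_one, hq, mul_assoc, ← Complex.exp_add, add_neg_cancel, Complex.exp_zero,
        mul_one]
    rw [e1, norm_mul, mul_comm]
    exact mul_le_mul_of_nonneg_right hexpξ.le (norm_nonneg _)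

lemma initQ (k : ℕ) (hk : 2 ≤ k) (A c w χ μ B v₀ : ℂ) (t δ₄ : ℝ) (hA : A ≠ 0) (hc0 : c ≠ 0)
    (hw : w ≠ 0) (hμ0 : μ ≠ 0) (ht0 : 0 < t) (hχ : χ = c / (A * w ^ k)) (hB : B = A * t / μ)
    (hv₀0 : v₀ ≠ 0) (hδ₄ : 0 < δ₄) (hδ₄4 : δ₄ ≤ 1 / 4)
    (hz₀1 : ‖(1 / (v₀ / (t * w))) ^ k - 1‖ < δ₄ / 8) (hmt : ‖μ / (c * t) - 1‖ ≤ δ₄ / 16)
    (h1 : ‖(t : ℂ) ^ (k - 1) / χ‖ ≤ δ₄ / 4) :
    ∃ ζ₀ χ' : ℂ, t / v₀ ^ k + B = B * ζ₀ ∧ χ' = ζ₀ * (t : ℂ) ^ (k - 1) ∧ ‖χ' / χ - 1‖ ≤ δ₄ := by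
  have htC0 : (t : ℂ) ≠ 0 := by exact_mod_cast ht0.ne'
  have hB0 : B ≠ 0 := by rw [hB]; exact div_ne_zero (mul_ne_zero hA htC0) hμ0
  obtain ⟨z₀, hz₀⟩ : ∃ z₀ : ℂ, z₀ = v₀ / (t * w) := ⟨_, rfl⟩
  rw [← hz₀] at hz₀1
  have htk : (t : ℂ) * (t : ℂ) ^ (k - 1) = (t : ℂ) ^ k := by
    rw [← pow_succ']
    congr 1
    omega
  have htk0 : (t : ℂ) ^ (k - 1) ≠ 0 := pow_ne_zero _ htC0
  have hvk0 : v₀ ^ k ≠ 0 := pow_ne_zero _ hv₀0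
  have hwk0 : w ^ k ≠ 0 := pow_ne_zero _ hw
  refine ⟨(t / v₀ ^ k + B) / B, (t / v₀ ^ k + B) / B * (t : ℂ) ^ (k - 1), by field_simp, rfl, ?_⟩
  have e1 : (t / v₀ ^ k + B) / B = 1 + μ / (A * v₀ ^ k) := by
    rw [hB]
    field_simp
    ring
  have e2 : μ / (c * t) * (1 / z₀) ^ k = μ * (t : ℂ) ^ (k - 1) / (A * v₀ ^ k) / χ := by
    rw [hz₀, hχ, one_div, inv_div, div_pow, mul_pow, ← htk]
    field_simp
  have hχχ : (t / v₀ ^ k + B) / B * (t : ℂ) ^ (k - 1) / χ =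
      (t : ℂ) ^ (k - 1) / χ + μ / (c * t) * (1 / z₀) ^ k := by
    rw [e2, e1]
    ring
  have e : (t / v₀ ^ k + B) / B * (t : ℂ) ^ (k - 1) / χ - 1 =
      (t : ℂ) ^ (k - 1) / χ + ((μ / (c * t) - 1) * (1 / z₀) ^ k +
      ((1 / z₀) ^ k - 1)) := by rw [hχχ]; ring
  rw [e]
  have h2 : ‖(1 / z₀) ^ k‖ ≤ 2 := by
    have := norm_add_le ((1 / z₀) ^ k - 1) 1
    rw [sub_add_cancel, norm_one] at this
    linarith
  have h3 : ‖(μ / (c * t) - 1) * (1 / z₀) ^ k‖ ≤ δ₄ / 16 * 2 := by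
    rw [norm_mul]
    exact mul_le_mul hmt h2 (norm_nonneg _) (by positivity)
  refine (norm_add_le _ _).trans ?_
  have h4 := norm_add_le ((μ / (c * t) - 1) * (1 / z₀) ^ k) ((1 / z₀) ^ k - 1)
  linarith

end Run7.h904.UQ
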