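import Mathlib
import Pool.Agent.Run7.h904.U3Lem

set_option autoImplicit false

open Topology Filter Metric Set

namespace Run7.h904.UQ

/-- the induction along the orbit -/
lemma orbInd (k : ℕ) (A μ α B U₀ ζ₀ v₀ : ℂ) (t s K σ b₁ b₂ δ₃ δ₄ C₃ M r C : ℝ) (G : ℂ → ℂ)
    (N : ℕ) (hk : 1 ≤ k) (hs : 0 < s) (ht : t = s ^ k) (hK : 0 ≤ K) (hb₁ : 0 < b₁) (hb₂0 : 0 < b₂)
    (hδ₃0 : 0 < δ₃) (hδ₄ : 0 < δ₄) (hδ₄4 : δ₄ ≤ 1 / 4) (hM : 0 < M) (hMk : M ^ k = 2 / (b₁ * δ₄))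
    (hMr : M * s < r) (hσ : σ = 2 * K * s ^ (k + 1)) (hC₃ : C₃ = 1 + b₂ / δ₃)
    (hα : α = 1 - k * μ) (hα2 : 1 / 2 ≤ ‖α‖) (hB1 : b₁ ≤ ‖B‖) (hB2 : ‖B‖ ≤ b₂)
    (hBfix : (1 - α) * B = k * A * t) (hv₀0 : v₀ ≠ 0) (hU₀ : U₀ = t / v₀ ^ k + B)
    (hUζ : U₀ = B * ζ₀) (hsp : ∀ j : ℕ, δ₄ ≤ ‖ζ₀ * α ^ j - 1‖)
    (hNm : ∀ j < N, δ₃ ≤ ‖α‖ ^ j * ‖U₀‖) (hpowj : ∀ j ≤ N, C₃ * ((1 + σ) ^ j - 1) ≤ δ₄ / 8)
    (hstep : ∀ v w : ℂ, v ≠ 0 → ‖v‖ ≤ M * s →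
      ‖w - (1 + μ) * v - A * v ^ (k + 1)‖ ≤ C * (s ^ k * ‖v‖ ^ 2 + ‖v‖ ^ (k + 2)) →
      w ≠ 0 ∧ ‖(t : ℂ) / w ^ k - (1 - k * μ) * ((t : ℂ) / v ^ k) + k * A * (t : ℂ)‖ ≤
        K * s ^ (k + 1) * ‖(t : ℂ) / v ^ k‖)
    (hGb : ∀ v ∈ ball (0 : ℂ) r, ‖G v - (1 + μ) * v - A * v ^ (k + 1)‖ ≤
        C * (t * ‖v‖ ^ 2 + ‖v‖ ^ (k + 2))) :
    ∀ j ≤ N, G^[j] v₀ ≠ 0 ∧ ‖G^[j] v₀‖ ≤ M * s ∧ ‖(t / (G^[j] v₀) ^ k + B) - α ^ j * U₀‖ ≤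
      C₃ * ((1 + σ) ^ j - 1) * (‖α‖ ^ j * ‖U₀‖) := by
  -- the bound from the spiral
  have hM' : ∀ j ≤ N, ∀ v : ℂ, v ≠ 0 →
      ‖(t / v ^ k + B) - α ^ j * U₀‖ ≤ C₃ * ((1 + σ) ^ j - 1) * (‖α‖ ^ j * ‖U₀‖) → ‖v‖ ≤ M * s := by
    intro j hj v hv hvb
    have e1 : α ^ j * U₀ = B * (ζ₀ * α ^ j) := by rw [hUζ]; ring
    have e2 : ‖α‖ ^ j * ‖U₀‖ = ‖B‖ * ‖ζ₀ * α ^ j‖ := by
      rw [← norm_pow, ← norm_mul, e1, norm_mul]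
    rw [e1, e2] at hvb
    refine bdM k hk s t b₁ δ₄ M hs ht hb₁ hδ₄ hδ₄4 hM hMk B (ζ₀ * α ^ j) v hB1 (hsp j) hv ?_
    exact hvb.trans (mul_le_mul_of_nonneg_right (hpowj j hj) (by positivity))
  intro j
  induction j with
  | zero =>
    intro h0
    have h1 : ‖(t / v₀ ^ k + B) - α ^ 0 * U₀‖ ≤ C₃ * ((1 + σ) ^ 0 - 1) * (‖α‖ ^ 0 * ‖U₀‖) := by
      rw [← hU₀]; simp
    exact ⟨hv₀0, hM' 0 h0 v₀ hv₀0 h1, h1⟩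
  | succ j ih =>
    intro hj
    obtain ⟨h1, h3, h2⟩ := ih (by omega)
    have e : G^[j + 1] v₀ = G (G^[j] v₀) := Function.iterate_succ_apply' _ _ _
    have hvr : G^[j] v₀ ∈ ball (0 : ℂ) r := by
      rw [mem_ball, dist_zero_right]; linarith
    have hb := hGb _ hvr
    rw [ht] at hb
    obtain ⟨h4, h5⟩ := hstep _ _ h1 h3 hb
    rw [← hα] at h5
    have h6 := stepI k A B α U₀ t K σ s b₂ δ₃ C₃ hs hK hδ₃0 hb₂0 hσ hC₃ hα2 hB2 hBfix j _ _ h2 h5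
      (hNm j (by omega))
    rw [e]
    exact ⟨h4, hM' (j + 1) hj _ h4 h6, h6⟩

/-- the orbits which start very close to a repelling fixed point of multiplier close to one -/
theorem orbQ (k : ℕ) (hk : 2 ≤ k) (A c w : ℂ) (hA : A ≠ 0) (hc : 0 < c.re) (hw : w ≠ 0)
    (C₀ C r : ℝ) (hC₀ : 0 ≤ C₀) (hC : 0 ≤ C) (hr : 0 < r) (δ : ℝ) (hδ : 0 < δ) :
    ∃ η : ℝ, 0 < η ∧ ∀ᶠ s : ℝ in 𝓝[>] 0, ∀ μ : ℂ, ‖μ - c * s ^ k‖ ≤ C₀ * s ^ (2 * k) →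
      ∀ G : ℂ → ℂ, DifferentiableOn ℂ G (ball 0 r) →
      (∀ v ∈ ball (0 : ℂ) r, ‖G v - (1 + μ) * v - A * v ^ (k + 1)‖ ≤
        C * (s ^ k * ‖v‖ ^ 2 + ‖v‖ ^ (k + 2))) →
      (∀ m : ℤ, δ ≤ |(c / (A * w ^ k)).arg - c.im / c.re * Real.log ‖c / (A * w ^ k)‖ +
        (k - 1) * (c.im / c.re) * Real.log (s ^ k) - 2 * Real.pi * m|) →
      ∀ v₀ : ℂ, ‖v₀ - s ^ k * w‖ ≤ η * s ^ k → (∀ j : ℕ, G^[j] v₀ ∈ ball (0 : ℂ) r) ∧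
        ∃ x ∈ ball (0 : ℂ) r, G x = x ∧ ‖deriv G x‖ < 1 ∧
          Tendsto (fun j : ℕ => G^[j] v₀) atTop (𝓝 x) := by
  have hk1 : 1 ≤ k := by omega
  have hk0 : (0 : ℝ) < k := by exact_mod_cast hk1
  have hA0 : 0 < ‖A‖ := norm_pos_iff.2 hA
  have hw0 : 0 < ‖w‖ := norm_pos_iff.2 hw
  have hc0 : c ≠ 0 := by rintro rfl; simp at hc
  have hcn : 0 < ‖c‖ := norm_pos_iff.2 hc0
  obtain ⟨χ, hχ⟩ : ∃ χ : ℂ, χ = c / (A * w ^ k) := ⟨_, rfl⟩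
  rw [← hχ]
  have hχ0 : χ ≠ 0 := by
    rw [hχ]
    exact div_ne_zero hc0 (mul_ne_zero hA (pow_ne_zero _ hw))
  have hχn : 0 < ‖χ‖ := norm_pos_iff.2 hχ0
  obtain ⟨δ₄, hδ₄, hδ₄4, hspir⟩ := spiral k hk c χ hc hχ0 C₀ hC₀ δ hδ
  obtain ⟨ρ, hρ, hρ4, hcap⟩ := capQ k hk1 A c hA hc C₀ C r hC₀ hC hr
  -- constants
  obtain ⟨b₁, hb₁⟩ : ∃ b₁ : ℝ, b₁ = ‖A‖ / (‖c‖ + 1) := ⟨_, rfl⟩
  have hb₁0 : 0 < b₁ := by rw [hb₁]; positivity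
  obtain ⟨b₂, hb₂⟩ : ∃ b₂ : ℝ, b₂ = 2 * ‖A‖ / c.re := ⟨_, rfl⟩
  have hb₂0 : 0 < b₂ := by rw [hb₂]; positivity
  obtain ⟨M, hM0, hMk⟩ : ∃ M : ℝ, 0 < M ∧ M ^ k = 2 / (b₁ * δ₄) := by
    refine ⟨(2 / (b₁ * δ₄)) ^ (1 / (k : ℝ)), by positivity, ?_⟩
    rw [← Real.rpow_natCast, ← Real.rpow_mul (by positivity), one_div, inv_mul_cancel₀ hk0.ne',
      Real.rpow_one]
  obtain ⟨K, hK, hstep⟩ := ustep k hk1 A c hc C₀ C M hC₀ hC hM0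
  have hcontξ : ∀ᶠ ξ : ℂ in 𝓝 0, ‖Complex.exp (-(Complex.log (1 - ξ) / k)) - 1‖ < ρ := by
    have h1 : ContinuousAt (fun ξ : ℂ => ‖Complex.exp (-(Complex.log (1 - ξ) / k)) - 1‖) 0 := by
      have h2 : ContinuousAt (fun ξ : ℂ => Complex.log (1 - ξ)) 0 := by
        refine ContinuousAt.clog (by fun_prop) ?_
        simp
      exact ((Complex.continuous_exp.continuousAt.comp ((h2.div_const _).neg)).sub
        continuousAt_const).norm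
    refine h1.eventually (gt_mem_nhds ?_)
    simpa using hρ
  obtain ⟨δ₆', hδ₆', hδ₆b⟩ := Metric.eventually_nhds_iff_ball.1 hcontξ
  obtain ⟨δ₆, hδ₆⟩ : ∃ δ₆ : ℝ, δ₆ = min (δ₆' / 2) (1 / 2) := ⟨_, rfl⟩
  have hδ₆0 : 0 < δ₆ := by rw [hδ₆]; exact lt_min (by positivity) (by norm_num)
  have hδ₆1 : δ₆ < δ₆' := by
    have : δ₆ ≤ δ₆' / 2 := by rw [hδ₆]; exact min_le_left _ _
    linarith
  have hδ₆2 : δ₆ ≤ 1 / 2 := by rw [hδ₆]; exact min_le_right _ _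
  have hδ₆c : ∀ ξ : ℂ, ‖ξ‖ ≤ δ₆ → ‖Complex.exp (-(Complex.log (1 - ξ) / k)) - 1‖ < ρ := by
    intro ξ hξ
    refine hδ₆b ξ ?_
    rw [mem_ball, dist_zero_right]
    linarith
  clear hδ₆b hcontξ
  obtain ⟨δ₃, hδ₃⟩ : ∃ δ₃ : ℝ, δ₃ = b₁ * δ₆ / 2 := ⟨_, rfl⟩
  have hδ₃0 : 0 < δ₃ := by rw [hδ₃]; positivity
  obtain ⟨C₃, hC₃⟩ : ∃ C₃ : ℝ, C₃ = 1 + b₂ / δ₃ := ⟨_, rfl⟩
  have hC₃1 : 1 ≤ C₃ := by
    rw [hC₃]
    have : 0 < b₂ / δ₃ := by positivity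
    linarith
  obtain ⟨η₁, hη₁⟩ : ∃ η₁ : ℝ, η₁ = δ₄ / 8 := ⟨_, rfl⟩
  have hη₁0 : 0 < η₁ := by rw [hη₁]; positivity
  -- closeness of the initial point
  have hconty : ∀ᶠ z : ℂ in 𝓝 1, ‖(1 / z) ^ k - 1‖ < δ₄ / 8 := by
    have h1 : ContinuousAt (fun z : ℂ => ‖(1 / z) ^ k - 1‖) 1 := by
      have h2 : ContinuousAt (fun z : ℂ => 1 / z) 1 := continuousAt_const.div continuousAt_id one_ne_zero
      exact ((h2.pow k).sub continuousAt_const).norm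
    refine h1.eventually (gt_mem_nhds ?_)
    simpa using hδ₄
  obtain ⟨η', hη', hη'b⟩ := Metric.eventually_nhds_iff_ball.1 hconty
  obtain ⟨η, hη⟩ : ∃ η : ℝ, η = ‖w‖ * min (η' / 2) (1 / 2) := ⟨_, rfl⟩
  have hη0 : 0 < η := by
    rw [hη]
    exact mul_pos hw0 (lt_min (by positivity) (by norm_num))
  refine ⟨η, hη0, ?_⟩
  obtain ⟨E, hE⟩ : ∃ E : ℝ, E = 2 * b₂ * ‖χ‖ := ⟨_, rfl⟩
  have hE0 : 0 < E := by rw [hE]; positivity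
  obtain ⟨D, hD⟩ : ∃ D : ℝ, D = |Real.log (E / δ₃)| := ⟨_, rfl⟩
  filter_upwards [hspir, hcap, hstep, mu_bd k hk1 c hc C₀ hC₀, ev_small 1 1 one_pos 1 le_rfl,
    ev_small M (r / 2) (by positivity) 1 le_rfl,
    ev_small (1 / ‖χ‖) (δ₄ / 4) (by positivity) (k * (k - 1)) (by
      have : 1 ≤ k - 1 := by omega
      nlinarith),
    ev_small (C₀ / ‖c‖) (δ₄ / 16) (by positivity) k hk1,
    ev_small (2 * K) (η₁ / (4 * C₃)) (by positivity) (k + 1) (by omega),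
    ev_small (k * (‖c‖ + 1)) (1 / 2) (by norm_num) k hk1,
    ev_log (4 * K * (k * k) / (k * c.re)) (η₁ / (4 * C₃)) D (by positivity),
    self_mem_nhdsWithin]
    with s hspir hcap hstep hμb hs1 hs2 hs3 hs4 hs5 hs7 hs6 hs μ hμ G hGd hGb hang v₀ hv₀
  have hs0 : 0 < s := hs
  rw [one_mul, pow_one] at hs1
  rw [pow_one] at hs2
  obtain ⟨hμ1, hμ2, hμ3, hμ4⟩ := hμb μ hμ
  have hcapμ := hcap μ hμ G hGd hGb
  have hstepμ := hstep μ hμ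
  have hspir' := fun χ' h1 => hspir μ hμ χ' h1 hang
  clear hspir hcap hstep hμb hang
  obtain ⟨t, ht⟩ : ∃ t : ℝ, t = s ^ k := ⟨_, rfl⟩
  have ht0 : 0 < t := by rw [ht]; positivity
  have htC : (s : ℂ) ^ k = (t : ℂ) := by rw [ht]; push_cast; rfl
  have htC0 : (t : ℂ) ≠ 0 := by exact_mod_cast ht0.ne'
  have ht2 : s ^ (2 * k) = t ^ 2 := by rw [ht, ← pow_mul, mul_comm]
  rw [htC] at hv₀
  simp only [htC] at hspir' hstepμ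
  rw [htC, ht2] at hμ
  rw [← ht] at hμ1 hμ2 hμ3 hμ4 hs4 hs7 hv₀ hGb
  have hμn : 0 < ‖μ‖ := lt_of_lt_of_le (by positivity) hμ2
  have hμ0 : μ ≠ 0 := norm_pos_iff.1 hμn
  -- the multiplier
  obtain ⟨α, hα⟩ : ∃ α : ℂ, α = 1 - k * μ := ⟨_, rfl⟩
  rw [← hα] at hμ3
  have hkc : 0 < k * c.re / 2 * t := by positivity
  have hα1 : ‖α‖ < 1 := by linarith
  have hα2 : 1 / 2 ≤ ‖α‖ := by
    have h1 : ‖(k : ℂ) * μ‖ ≤ 1 / 2 := by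
      rw [norm_mul, Complex.norm_natCast]
      have := mul_le_mul_of_nonneg_left hμ1 hk0.le
      linarith
    have h2 : ‖(1 : ℂ)‖ ≤ ‖α‖ + ‖(k : ℂ) * μ‖ := by
      have := norm_add_le α (k * μ)
      have e : α + k * μ = 1 := by rw [hα]; ring
      rwa [e] at this
    rw [norm_one] at h2
    linarith
  obtain ⟨B, hB⟩ : ∃ B : ℂ, B = A * t / μ := ⟨_, rfl⟩
  have hBn : ‖B‖ = ‖A‖ * t / ‖μ‖ := by
    rw [hB, norm_div, norm_mul, Complex.norm_of_nonneg ht0.le]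
  have hB1 : b₁ ≤ ‖B‖ := by
    rw [hBn, hb₁, div_le_div_iff₀ (by positivity) hμn]
    have := mul_le_mul_of_nonneg_left hμ1 hA0.le
    linarith
  have hB2 : ‖B‖ ≤ b₂ := by
    rw [hBn, hb₂, div_le_div_iff₀ hμn hc]
    have := mul_le_mul_of_nonneg_left hμ2 hA0.le
    linarith
  have hB0 : B ≠ 0 := by
    have : 0 < ‖B‖ := by linarith
    exact norm_pos_iff.1 this
  have hBfix : (1 - α) * B = k * A * t := by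
    rw [hα, hB]
    field_simp
    ring
  -- the initial point
  have hz₀b : ‖v₀ / (t * w) - 1‖ ≤ min (η' / 2) (1 / 2) := by
    have e : v₀ / (t * w) - 1 = (v₀ - t * w) / (t * w) := by field_simp
    rw [e, norm_div, norm_mul, Complex.norm_of_nonneg ht0.le, div_le_iff₀ (by positivity)]
    refine hv₀.trans (le_of_eq ?_)
    rw [hη]; ring
  have hz₀1 := hη'b (v₀ / (t * w)) (by
    rw [mem_ball, dist_eq_norm]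
    have := hz₀b.trans (min_le_left _ _)
    linarith)
  have hv₀0 : v₀ ≠ 0 := by
    rintro rfl
    have := hz₀b.trans (min_le_right _ _)
    rw [zero_div, zero_sub, norm_neg, norm_one] at this
    norm_num at this
  have hmt : ‖μ / (c * t) - 1‖ ≤ δ₄ / 16 := by
    have e : μ / (c * t) - 1 = (μ - c * t) / (c * t) := by field_simp
    rw [e, norm_div, norm_mul, Complex.norm_of_nonneg ht0.le, div_le_iff₀ (by positivity)]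
    refine hμ.trans ?_
    rw [div_mul_eq_mul_div, div_le_iff₀ hcn] at hs4
    have := mul_le_mul_of_nonneg_right hs4 ht0.le
    refine le_trans (le_of_eq ?_) (this.trans (le_of_eq ?_))
    · ring
    · ring
  have htχ : ‖(t : ℂ) ^ (k - 1) / χ‖ ≤ δ₄ / 4 := by
    rw [norm_div, norm_pow, Complex.norm_of_nonneg ht0.le, ht, ← pow_mul]
    rw [one_div, inv_mul_eq_div] at hs3
    exact hs3
  obtain ⟨ζ₀, χ', hUζ, hχ', hχb⟩ := initQ k hk A c w χ μ B v₀ t δ₄ hA hc0 hw hμ0 ht0 hχ hB hv₀0 hδ₄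
    hδ₄4 hz₀1 hmt htχ
  obtain ⟨U₀, hU₀⟩ : ∃ U₀ : ℂ, U₀ = t / v₀ ^ k + B := ⟨_, rfl⟩
  rw [← hU₀] at hUζ
  have htk0 : (t : ℂ) ^ (k - 1) ≠ 0 := pow_ne_zero _ htC0
  have hsp : ∀ j : ℕ, δ₄ ≤ ‖ζ₀ * α ^ j - 1‖ := by
    intro j
    have h1 := hspir' χ' hχb j
    have e : χ' * ((t : ℂ) ^ (k - 1))⁻¹ = ζ₀ := by rw [hχ']; field_simp
    rw [e, ← hα] at h1
    exact h1
  have hχ'n : ‖χ'‖ ≤ 2 * ‖χ‖ := by
    have h1 : ‖χ' / χ‖ ≤ 2 := by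
      have := norm_add_le (χ' / χ - 1) 1
      rw [sub_add_cancel, norm_one] at this
      linarith
    rw [norm_div, div_le_iff₀ hχn] at h1
    exact h1
  have hχ'0 : χ' ≠ 0 := by
    intro h0
    rw [h0, zero_div, zero_sub, norm_neg, norm_one] at hχb
    linarith
  have hζ₀0 : ζ₀ ≠ 0 := by
    rintro h0
    rw [h0, zero_mul] at hχ'
    exact hχ'0 hχ'
  have hU₀0 : U₀ ≠ 0 := by rw [hUζ]; exact mul_ne_zero hB0 hζ₀0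
  have hU₀n : 0 < ‖U₀‖ := norm_pos_iff.2 hU₀0
  have htkr : 0 < t ^ (k - 1) := by positivity
  have hU₀b : ‖U₀‖ ≤ E / t ^ (k - 1) := by
    rw [le_div_iff₀ htkr, hUζ, norm_mul, mul_assoc]
    have e : ‖ζ₀‖ * t ^ (k - 1) = ‖χ'‖ := by
      rw [hχ', norm_mul, norm_pow, Complex.norm_of_nonneg ht0.le]
    rw [e, hE]
    have := mul_le_mul hB2 hχ'n (norm_nonneg _) hb₂0.le
    linarith
  -- the time
  have hex : ∃ N : ℕ, ‖α‖ ^ N * ‖U₀‖ < δ₃ := by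
    have h1 : Tendsto (fun N : ℕ => ‖α‖ ^ N * ‖U₀‖) atTop (𝓝 (0 * ‖U₀‖)) :=
      (tendsto_pow_atTop_nhds_zero_of_lt_one (norm_nonneg _) hα1).mul_const _
    rw [zero_mul] at h1
    exact (h1.eventually (gt_mem_nhds hδ₃0)).exists
  classical
  obtain ⟨N, hN⟩ : ∃ N, N = Nat.find hex := ⟨_, rfl⟩
  have hNs : ‖α‖ ^ N * ‖U₀‖ < δ₃ := by rw [hN]; exact Nat.find_spec hex
  have hNm : ∀ j < N, δ₃ ≤ ‖α‖ ^ j * ‖U₀‖ := by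
    intro j hj
    rw [hN] at hj
    exact not_lt.1 (Nat.find_min hex hj)
  obtain ⟨σ, hσ⟩ : ∃ σ : ℝ, σ = 2 * K * s ^ (k + 1) := ⟨_, rfl⟩
  have hσ0 : 0 ≤ σ := by rw [hσ]; positivity
  have hσN : σ * N ≤ η₁ / (2 * C₃) := by
    rw [hσ]
    exact timeB k hk1 c.re K s t E D δ₃ η₁ C₃ hc hK hs0 ht hE0 hδ₃0 hD hη₁0 (by linarith) ‖α‖ ‖U₀‖
      (norm_nonneg _) hμ3 hU₀n hU₀b N hNm hs5 hs6
  have hpowj := powB C₃ σ η₁ N hC₃1 hσ0 (by rw [hη₁]; linarith) hη₁0 hσN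
  have hMr : M * s < r := by linarith
  have hind := orbInd k A μ α B U₀ ζ₀ v₀ t s K σ b₁ b₂ δ₃ δ₄ C₃ M r C G N hk1 hs0 ht hK hb₁0 hb₂0
    hδ₃0 hδ₄ hδ₄4 hM0 hMk hMr hσ hC₃ hα hα2 hB1 hB2 hBfix hv₀0 hU₀ hUζ hsp hNm
    (by rw [← hη₁]; exact hpowj) hstepμ hGb
  -- the end
  obtain ⟨hN1, -, hN2⟩ := hind N le_rfl
  have hξb : ‖(t / (G^[N] v₀) ^ k + B) / B‖ ≤ δ₆ := by
    have h1 : ‖(t : ℂ) / (G^[N] v₀) ^ k + B‖ ≤ 2 * (‖α‖ ^ N * ‖U₀‖) := by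
      have h2 := norm_add_le ((t / (G^[N] v₀) ^ k + B) - α ^ N * U₀) (α ^ N * U₀)
      rw [sub_add_cancel, norm_mul (α ^ N), norm_pow] at h2
      have h3 : C₃ * ((1 + σ) ^ N - 1) * (‖α‖ ^ N * ‖U₀‖) ≤ 1 * (‖α‖ ^ N * ‖U₀‖) :=
        mul_le_mul_of_nonneg_right ((hpowj N le_rfl).trans (by rw [hη₁]; linarith)) (by positivity)
      linarith
    rw [norm_div, div_le_iff₀ (by linarith)]
    have h4 : 2 * (‖α‖ ^ N * ‖U₀‖) ≤ δ₆ * b₁ := by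
      rw [hδ₃] at hNs
      linarith
    have h5 := mul_le_mul_of_nonneg_left hB1 hδ₆0.le
    linarith
  obtain ⟨q, hqk, hvq⟩ := endQ k hk1 A μ B t ρ δ₆ hA hμ0 ht0 hB hδ₆c hδ₆2 (G^[N] v₀) hN1 hξb
  obtain ⟨g1, x, g2, g3, g4, g5⟩ := hcapμ q hqk _ hvq
  refine ⟨?_, x, g2, g3, g4, ?_⟩
  · intro j
    rcases Nat.lt_or_ge j N with h1 | h1
    · obtain ⟨-, h2, -⟩ := hind j h1.le
      rw [mem_ball, dist_zero_right]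
      linarith
    · have e : G^[j] v₀ = G^[j - N] (G^[N] v₀) := by
        rw [← Function.iterate_add_apply]
        congr 1
        omega
      rw [e]
      exact g1 _
  · have h1 : Tendsto (fun j : ℕ => G^[j + N] v₀) atTop (𝓝 x) := by
      refine g5.congr fun j => ?_
      rw [← Function.iterate_add_apply]
    exact (tendsto_add_atTop_iff_nat (f := fun j : ℕ => G^[j] v₀) N).1 h1

end Run7.h904.UQ
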