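import Mathlib
import Pool.Agent.Run7.h904.U3Main
import Pool.Agent.Run7.h904.T1Dir

set_option autoImplicit false

open Topology Filter Metric Set Polynomial MeasureTheory Asymptotics
open scoped OnePoint

namespace Run7.h904.RF

open Pool.Agent.W757.QR Pool.Agent.H790R3.RB Pool.Agent.W29.RQSNK Pool.Agent.W29.RQAPP
open Run7.h904.PF (ne0_nhdsGT tendsto_ofReal0 prod_slope slope_poly eventually_small)

/-- quadratic remainder -/
lemma quadrem {E : Type} [NormedAddCommGroup E] [NormedSpace ℂ E] (f : E → ℂ) (x₀ : E)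
    (hf : ContDiffAt ℂ 2 f x₀) : ∃ C ρ : ℝ, 0 ≤ C ∧ 0 < ρ ∧ ∀ x ∈ ball x₀ ρ,
      ‖f x - f x₀ - fderiv ℂ f x₀ (x - x₀)‖ ≤ C * ‖x - x₀‖ ^ 2 := by
  have h1 : ContDiffAt ℂ 1 (fderiv ℂ f) x₀ := hf.fderiv_right (m := 1) (by norm_num)
  obtain ⟨K, s, hs, hK⟩ := h1.exists_lipschitzOnWith
  have h2 : ∀ᶠ q in 𝓝 x₀, DifferentiableAt ℂ f q := by
    have h3 : ∀ᶠ q in 𝓝 x₀, ContDiffAt ℂ 2 f q := hf.eventually (by simp)
    filter_upwards [h3] with q hq
    exact hq.differentiableAt (by norm_num)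
  obtain ⟨r, hr, hball⟩ := Metric.eventually_nhds_iff_ball.1 (h2.and hs)
  refine ⟨K, r, K.2, hr, fun x hx => ?_⟩
  let _ : NormedSpace ℝ E := NormedSpace.restrictScalars ℝ ℂ E
  have hsub : closedBall x₀ ‖x - x₀‖ ⊆ ball x₀ r := by
    intro w hw
    rw [mem_closedBall] at hw
    rw [mem_ball, dist_eq_norm] at hx
    rw [mem_ball]
    linarith
  have hx0 : x₀ ∈ closedBall x₀ ‖x - x₀‖ := mem_closedBall_self (norm_nonneg _)
  have hx1 : x ∈ closedBall x₀ ‖x - x₀‖ := by rw [mem_closedBall, dist_eq_norm]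
  have h5 := (convex_closedBall x₀ ‖x - x₀‖).norm_image_sub_le_of_norm_fderiv_le' (𝕜 := ℂ) (f := f)
    (φ := fderiv ℂ f x₀) (C := K * ‖x - x₀‖) (fun w hw => (hball w (hsub hw)).1) (fun w hw => by
      have h6 := hK.dist_le_mul w (hball w (hsub hw)).2 x₀ (hball x₀ (mem_ball_self hr)).2
      rw [dist_eq_norm] at h6
      refine h6.trans (mul_le_mul_of_nonneg_left ?_ K.2)
      exact hw) hx0 hx1
  refine h5.trans (le_of_eq ?_)
  ring

/-- the derivative of the iterates as a function of the map and the point -/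
lemma deriv_cd {d : ℕ} (P : ℕ) (x : CV d) (b : ℂ) (hb : ∀ j < P, (de x).eval ((fx x)^[j] b) ≠ 0) :
    ∃ D : CV d × ℂ → ℂ, ContDiffAt ℂ 2 D (x, b) ∧
      ∀ᶠ q in 𝓝 (x, b), D q = deriv ((fx q.1)^[P]) q.2 := by
  obtain ⟨Φ, hΦ⟩ : ∃ Φ : CV d × ℂ → ℂ, Φ = fun q => (fx q.1)^[P] q.2 := ⟨_, rfl⟩
  have hcd : ContDiffAt ℂ 3 Φ (x, b) := by rw [hΦ]; exact iter_cd 3 P (x, b) hb
  have h1 : ContDiffAt ℂ 2 (fderiv ℂ Φ) (x, b) := hcd.fderiv_right (m := 2) (by norm_num)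
  refine ⟨fun q => fderiv ℂ Φ q (0, 1), h1.clm_apply contDiffAt_const, ?_⟩
  have h2 : ∀ᶠ q in 𝓝 (x, b), DifferentiableAt ℂ Φ q := by
    have h3 : ∀ᶠ q in 𝓝 (x, b), ContDiffAt ℂ 3 Φ q := hcd.eventually (by simp)
    filter_upwards [h3] with q hq
    exact hq.differentiableAt (by norm_num)
  filter_upwards [h2] with q hq
  have h4 : HasDerivAt (fun z : ℂ => ((q.1, z) : CV d × ℂ)) ((0 : CV d), (1 : ℂ)) q.2 :=
    (hasDerivAt_const q.2 q.1).prodMk (hasDerivAt_id q.2)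
  have h5 : HasDerivAt (fun z : ℂ => Φ (q.1, z)) (fderiv ℂ Φ q (0, 1)) q.2 :=
    hq.hasFDerivAt.comp_hasDerivAt q.2 h4
  have h6 : (fun z : ℂ => Φ (q.1, z)) = (fx q.1)^[P] := by
    funext z
    rw [hΦ]
  rw [h6] at h5
  exact h5.deriv.symm

/-- the perturbed cycle of multiplier different from one, to second order -/
theorem cycA {d : ℕ} (x V : CV d) (p q : ℕ)
    (hq : 0 < q) (a lam : ℂ) (ha : Fin' x a) (hfix : (fx x)^[p] a = a)
    (hlam : deriv ((fx x)^[p]) a = lam) (hq1 : lam ^ q = 1) (hne : lam ≠ 1) :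
    ∃ (y : ℝ → ℂ) (C₀ : ℝ), 0 ≤ C₀ ∧
      Tendsto (fun t : ℝ => (y t - a) / (t : ℂ)) (𝓝[>] 0) (𝓝 (llR x V a p / (1 - lam))) ∧
      ∀ᶠ t : ℝ in 𝓝[>] 0, (fx (Xt x V t))^[p] (y t) = y t ∧
        ‖(deriv ((fx (Xt x V t))^[p]) (y t)) ^ q - 1 - (q * kapR x V a p lam) * t‖ ≤ C₀ * t ^ 2 := by
  have hhd := derR x a p (fun j _ => ha j)
  have hdd : ddR x a p = lam := by rw [← hlam, hhd.deriv]
  have hfd : HasDerivAt (fun z => (fx x)^[p] z - z) (lam - 1) a := by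
    rw [hdd] at hhd
    exact hhd.sub (hasDerivAt_id a)
  have hlne : lam - 1 ≠ 0 := sub_ne_zero.mpr hne
  obtain ⟨y, hy1, hy2⟩ := near_fixR x V p a (fun j _ => ha j) hfix (hfd.eventually_ne hlne)
  have hlam0 : lam ≠ 0 := by
    rintro rfl
    rw [zero_pow hq.ne'] at hq1
    exact zero_ne_one hq1
  have h1lam : (1 : ℂ) - lam ≠ 0 := sub_ne_zero.mpr hne.symm
  have hg0 : ∀ i < p, d1 (nu x) (de x) ((fx x)^[i] a) ≠ 0 := by
    intro i hi h0
    apply hlam0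
    rw [← hdd]
    exact Finset.prod_eq_zero (Finset.mem_range.mpr hi) h0
  -- the displacement
  obtain ⟨w, hw⟩ : ∃ w : ℂ, w = llR x V a p / (1 - lam) := ⟨_, rfl⟩
  have hyw : Tendsto (fun t : ℝ => (y t - a) / (t : ℂ)) (𝓝[>] 0) (𝓝 w) := by
    have hc : ContinuousAt (dslope (fun z => (fx x)^[p] z - z) a) a :=
      continuousAt_dslope_same.mpr hfd.differentiableAt
    have h2 : Tendsto (fun t => dslope (fun z => (fx x)^[p] z - z) a (y t)) (𝓝[>] 0)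
        (𝓝 (lam - 1)) := by
      have := hc.tendsto.comp hy2
      rw [dslope_same, hfd.deriv] at this
      exact this
    have h3 := (iter_slopeR x V y a hy2 p (fun j _ => ha j)).neg.div h2 hlne
    have e : w = -llR x V a p / (lam - 1) := by
      rw [hw]
      field_simp
      ring
    rw [e]
    refine h3.congr' ?_
    filter_upwards [hy1, h2.eventually_ne hlne, ne0_nhdsGT] with t ht1 ht2 ht3
    have htC : (t : ℂ) ≠ 0 := by exact_mod_cast ht3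
    have h5 := sub_smul_dslope (fun z => (fx x)^[p] z - z) a (y t)
    simp only [hfix, sub_self, sub_zero, smul_eq_mul] at h5
    show -(((fx (Xt x V t))^[p] (y t) - (fx x)^[p] (y t)) / (t : ℂ)) /
      dslope (fun z => (fx x)^[p] z - z) a (y t) = (y t - a) / t
    rw [ht1]
    field_simp
    linear_combination -h5
  have hcs := fun n => cyc_slopeR x V y a w hy2 hyw n (fun j _ => ha j)
  -- finiteness of the perturbed orbits
  have hfinY : ∀ᶠ t in 𝓝[>] (0 : ℝ), ∀ j < p, (de (Xt x V t)).eval ((fx (Xt x V t))^[j] (y t)) ≠ 0 := by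
    have h1 := ne_nhds p (x, a) (fun j _ => ha j)
    have h2 : Tendsto (fun t => ((Xt x V t, y t) : CV d × ℂ)) (𝓝[>] 0) (𝓝 (x, a)) :=
      (Xt_tendsto x V).prodMk_nhds hy2
    exact h2.eventually h1
  -- the multiplier
  have hmul : Tendsto (fun t : ℝ => (deriv ((fx (Xt x V t))^[p]) (y t) - lam) / (t : ℂ)) (𝓝[>] 0)
      (𝓝 (lam * kapR x V a p lam)) := by
    have h1 := prod_slope
      (fun i t => d1 (nu (Xt x V t)) (de (Xt x V t)) ((fx (Xt x V t))^[i] (y t)))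
      (fun i => d1 (nu x) (de x) ((fx x)^[i] a))
      (fun i => d2 (nu x) (de x) ((fx x)^[i] a) * (ddR x a i * w + llR x V a i) +
        hd (de x) (hh x V) ((fx x)^[i] a)) (𝓝[>] 0) p hg0
      (fun i _ => (d1_slope x V _ _ _ (ha i) (itR x V y a hy2 i fun j _ => ha j) (hcs i)).1)
      (fun i _ => (d1_slope x V _ _ _ (ha i) (itR x V y a hy2 i fun j _ => ha j) (hcs i)).2)
    have e1 : (∏ i ∈ Finset.range p, d1 (nu x) (de x) ((fx x)^[i] a)) = lam := hdd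
    rw [e1, hw] at h1
    refine h1.congr' ?_
    filter_upwards [hfinY] with t ht
    have h2 := (derR (Xt x V t) (y t) p ht).deriv
    rw [h2]
    rfl
  have hmt : Tendsto (fun t : ℝ => deriv ((fx (Xt x V t))^[p]) (y t)) (𝓝[>] 0) (𝓝 lam) := by
    have h1 := hmul.mul tendsto_ofReal0
    rw [mul_zero] at h1
    have h2 := h1.add_const lam
    rw [zero_add] at h2
    refine h2.congr' ?_
    filter_upwards [ne0_nhdsGT] with t ht
    have htC : (t : ℂ) ≠ 0 := by exact_mod_cast ht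
    field_simp
    ring
  obtain ⟨m, hm⟩ : ∃ m : ℝ → ℂ, m = fun t => deriv ((fx (Xt x V t))^[p]) (y t) := ⟨_, rfl⟩
  have hμt : Tendsto (fun t : ℝ => ((m t) ^ q - 1) / (t : ℂ)) (𝓝[>] 0) (𝓝 (q * kapR x V a p lam)) := by
    have h1 := slope_poly (X ^ q) (𝓝[>] 0) (fun t => deriv ((fx (Xt x V t))^[p]) (y t))
      (fun _ => lam) lam _ hmt tendsto_const_nhds hmul ne0_nhdsGT
    have e1 : (derivative (X ^ q : ℂ[X])).eval lam * (lam * kapR x V a p lam) =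
        q * kapR x V a p lam := by
      rw [derivative_X_pow, eval_mul, eval_C, eval_pow, eval_X]
      have : lam ^ (q - 1) * lam = 1 := by
        rw [← pow_succ, Nat.sub_add_cancel hq, hq1]
      linear_combination ((q : ℂ) * kapR x V a p lam) * this
    rw [e1] at h1
    refine h1.congr fun t => ?_
    simp only [hm, eval_pow, eval_X, hq1]
  -- second order: the position
  have hyb : ∀ᶠ t : ℝ in 𝓝[>] 0, ‖y t - a‖ ≤ (‖w‖ + 1) * t := by
    filter_upwards [hyw.norm.eventually (ge_mem_nhds (by linarith : ‖w‖ < ‖w‖ + 1)),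
      self_mem_nhdsWithin] with t h1 h2
    have ht0 : 0 < t := h2
    rwa [norm_div, Complex.norm_of_nonneg ht0.le, div_le_iff₀ ht0] at h1
  have hqt : Tendsto (fun t => ((Xt x V t, y t) : CV d × ℂ)) (𝓝[>] 0) (𝓝 (x, a)) :=
    (Xt_tendsto x V).prodMk_nhds hy2
  obtain ⟨Bq, hBq⟩ : ∃ Bq : ℝ, Bq = ‖V‖ + ‖w‖ + 1 := ⟨_, rfl⟩
  have hBq0 : 0 < Bq := by rw [hBq]; positivity
  have hqn : ∀ᶠ t : ℝ in 𝓝[>] 0, ‖((Xt x V t, y t) : CV d × ℂ) - (x, a)‖ ≤ Bq * t := by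
    filter_upwards [hyb, self_mem_nhdsWithin] with t h1 h2
    have ht0 : 0 < t := h2
    rw [Prod.norm_def]
    refine max_le ?_ ?_
    · show ‖Xt x V t - x‖ ≤ _
      rw [Xt_sub x V t ht0.le, hBq]
      nlinarith [norm_nonneg V, norm_nonneg w]
    · show ‖y t - a‖ ≤ _
      rw [hBq]
      nlinarith [norm_nonneg V, norm_nonneg w]
  obtain ⟨C₁, ρ₁, hC₁, hρ₁, hr₁⟩ := quadrem _ _ (iter_cd 2 p (x, a) fun j _ => ha j)
  obtain ⟨D, hDc, hDe⟩ := deriv_cd p x a fun j _ => ha j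
  obtain ⟨C₂, ρ₂, hC₂, hρ₂, hr₂⟩ := quadrem D (x, a) hDc
  obtain ⟨Φ', hΦ'⟩ : ∃ Φ' : (CV d × ℂ) →L[ℂ] ℂ,
      Φ' = fderiv ℂ (fun q : CV d × ℂ => (fx q.1)^[p] q.2) (x, a) := ⟨_, rfl⟩
  obtain ⟨D', hD'⟩ : ∃ D' : (CV d × ℂ) →L[ℂ] ℂ, D' = fderiv ℂ D (x, a) := ⟨_, rfl⟩
  rw [← hΦ'] at hr₁
  rw [← hD'] at hr₂
  have hsplit : ∀ (Ψ : (CV d × ℂ) →L[ℂ] ℂ) (t : ℝ) (z : ℂ),
      Ψ ((Xt x V t, z) - (x, a)) = t * Ψ (V, 0) + (z - a) * Ψ (0, 1) := by
    intro Ψ t z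
    have e : ((Xt x V t, z) : CV d × ℂ) - (x, a) = (t : ℂ) • ((V, 0) : CV d × ℂ) +
        (z - a) • ((0, 1) : CV d × ℂ) := by
      ext i
      · simp [Xt]
      · simp
    rw [e, map_add, map_smul, map_smul, smul_eq_mul, smul_eq_mul]
  have hΦ1 : Φ' (0, 1) = lam := by
    have h4 : HasDerivAt (fun z : ℂ => ((x, z) : CV d × ℂ)) ((0 : CV d), (1 : ℂ)) a :=
      (hasDerivAt_const a x).prodMk (hasDerivAt_id a)
    have h5 : HasFDerivAt (fun q : CV d × ℂ => (fx q.1)^[p] q.2) Φ' ((x, a) : CV d × ℂ) := by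
      rw [hΦ']
      exact ((iter_cd 2 p (x, a) fun j _ => ha j).differentiableAt (by norm_num)).hasFDerivAt
    have h6 : HasDerivAt (fun z : ℂ => (fx x)^[p] z) (Φ' (0, 1)) a := h5.comp_hasDerivAt a h4
    rw [← hlam]
    exact h6.deriv.symm
  have hy2nd : ∀ᶠ t : ℝ in 𝓝[>] 0, ‖(1 - lam) * (y t - a) - t * Φ' (V, 0)‖ ≤ C₁ * Bq ^ 2 * t ^ 2 := by
    filter_upwards [hy1, hqn, hqt.eventually (ball_mem_nhds _ hρ₁), self_mem_nhdsWithin]
      with t h1 h2 h3 h4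
    have ht0 : 0 < t := h4
    have h5 := hr₁ _ h3
    rw [hsplit, hΦ1] at h5
    simp only at h5
    rw [h1, hfix] at h5
    have e : y t - a - (t * Φ' (V, 0) + (y t - a) * lam) =
        (1 - lam) * (y t - a) - t * Φ' (V, 0) := by ring
    rw [e] at h5
    refine h5.trans ?_
    have h6 := pow_le_pow_left₀ (norm_nonneg _) h2 2
    rw [mul_pow] at h6
    have := mul_le_mul_of_nonneg_left h6 hC₁
    linarith
  -- second order: the multiplier
  obtain ⟨c₁, hc₁⟩ : ∃ c₁ : ℂ, c₁ = D' (V, 0) + Φ' (V, 0) / (1 - lam) * D' (0, 1) := ⟨_, rfl⟩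
  obtain ⟨C₃, hC₃⟩ : ∃ C₃ : ℝ, C₃ = C₂ * Bq ^ 2 + C₁ * Bq ^ 2 / ‖1 - lam‖ * ‖D' (0, 1)‖ := ⟨_, rfl⟩
  have hC₃0 : 0 ≤ C₃ := by rw [hC₃]; positivity
  have hm2nd : ∀ᶠ t : ℝ in 𝓝[>] 0, ‖m t - lam - t * c₁‖ ≤ C₃ * t ^ 2 := by
    filter_upwards [hy2nd, hqn, hqt.eventually (ball_mem_nhds _ hρ₂), hqt.eventually hDe,
      self_mem_nhdsWithin] with t h1 h2 h3 h4 h5
    have ht0 : 0 < t := h5
    have h6 := hr₂ _ h3
    have hDa : D (x, a) = lam := by rw [← hlam]; exact hDe.self_of_nhds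
    rw [hsplit, hDa, h4] at h6
    have h7 := pow_le_pow_left₀ (norm_nonneg _) h2 2
    rw [mul_pow] at h7
    have h8 := mul_le_mul_of_nonneg_left h7 hC₂
    have e : m t - lam - t * c₁ = (deriv ((fx (Xt x V t))^[p]) (y t) - lam -
        (t * D' (V, 0) + (y t - a) * D' (0, 1))) +
        ((1 - lam) * (y t - a) - t * Φ' (V, 0)) / (1 - lam) * D' (0, 1) := by
      rw [hm, hc₁]
      field_simp
      ring
    rw [e]
    refine (norm_add_le _ _).trans ?_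
    rw [norm_mul, norm_div]
    have hn : 0 < ‖1 - lam‖ := norm_pos_iff.2 h1lam
    have h9 : ‖(1 - lam) * (y t - a) - t * Φ' (V, 0)‖ / ‖1 - lam‖ * ‖D' (0, 1)‖ ≤
        C₁ * Bq ^ 2 * t ^ 2 / ‖1 - lam‖ * ‖D' (0, 1)‖ := by gcongr
    have e2 : C₃ * t ^ 2 = C₂ * (Bq ^ 2 * t ^ 2) + C₁ * Bq ^ 2 * t ^ 2 / ‖1 - lam‖ * ‖D' (0, 1)‖ := by
      rw [hC₃]
      ring
    rw [e2]
    linarith
  -- the power
  obtain ⟨C₄, ρ₄, hC₄, hρ₄, hr₄⟩ := quadrem (fun z : ℂ => z ^ q) lam (by fun_prop)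
  have hfp : fderiv ℂ (fun z : ℂ => z ^ q) lam 1 = q * lam ^ (q - 1) := by
    rw [fderiv_apply_one_eq_deriv]
    simp
  have hfl : ∀ z : ℂ, fderiv ℂ (fun z : ℂ => z ^ q) lam z = z * (q * lam ^ (q - 1)) := by
    intro z
    have : fderiv ℂ (fun z : ℂ => z ^ q) lam z = fderiv ℂ (fun z : ℂ => z ^ q) lam (z • 1) := by
      simp
    rw [this, map_smul, hfp, smul_eq_mul]
  obtain ⟨C₅, hC₅⟩ : ∃ C₅ : ℝ, C₅ = C₄ * (‖c₁‖ + 1) ^ 2 + C₃ * ‖(q : ℂ) * lam ^ (q - 1)‖ := ⟨_, rfl⟩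
  have hC₅0 : 0 ≤ C₅ := by rw [hC₅]; positivity
  have hp2nd : ∀ᶠ t : ℝ in 𝓝[>] 0, ‖(m t) ^ q - 1 - t * (c₁ * (q * lam ^ (q - 1)))‖ ≤ C₅ * t ^ 2 := by
    have hsm : ∀ᶠ t : ℝ in 𝓝[>] 0, C₃ * t ≤ 1 := by
      have h1 : Tendsto (fun t : ℝ => C₃ * t) (𝓝[>] 0) (𝓝 0) := by
        have h2 : Continuous fun t : ℝ => C₃ * t := by fun_prop
        have h3 := h2.tendsto 0
        rw [mul_zero] at h3
        exact h3.mono_left nhdsWithin_le_nhds
      exact h1.eventually (ge_mem_nhds one_pos)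
    have hmt' : Tendsto m (𝓝[>] 0) (𝓝 lam) := by rw [hm]; exact hmt
    filter_upwards [hm2nd, hsm, hmt'.eventually (ball_mem_nhds lam hρ₄), self_mem_nhdsWithin]
      with t h1 h2 h3 h4
    have ht0 : 0 < t := h4
    have h5 := hr₄ _ h3
    rw [hfl, hq1] at h5
    have h6 : ‖m t - lam‖ ≤ (‖c₁‖ + 1) * t := by
      have e : m t - lam = (m t - lam - t * c₁) + t * c₁ := by ring
      rw [e]
      refine (norm_add_le _ _).trans ?_
      rw [norm_mul, Complex.norm_of_nonneg ht0.le]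
      nlinarith
    have h7 := pow_le_pow_left₀ (norm_nonneg _) h6 2
    rw [mul_pow] at h7
    have h8 := mul_le_mul_of_nonneg_left h7 hC₄
    have e : (m t) ^ q - 1 - t * (c₁ * (q * lam ^ (q - 1))) =
        ((m t) ^ q - 1 - (m t - lam) * (q * lam ^ (q - 1))) +
        (m t - lam - t * c₁) * (q * lam ^ (q - 1)) := by ring
    rw [e]
    refine (norm_add_le _ _).trans ?_
    rw [norm_mul _ ((q : ℂ) * lam ^ (q - 1))]
    have h9 := mul_le_mul_of_nonneg_right h1 (norm_nonneg ((q : ℂ) * lam ^ (q - 1)))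
    have e2 : C₅ * t ^ 2 = C₄ * ((‖c₁‖ + 1) ^ 2 * t ^ 2) + C₃ * t ^ 2 * ‖(q : ℂ) * lam ^ (q - 1)‖ := by
      rw [hC₅]; ring
    rw [e2]
    linarith
  -- identification
  have hcc : c₁ * (q * lam ^ (q - 1)) = q * kapR x V a p lam := by
    have h1 : Tendsto (fun t : ℝ => ((m t) ^ q - 1) / (t : ℂ) - c₁ * (q * lam ^ (q - 1))) (𝓝[>] 0)
        (𝓝 0) := by
      have h2 : Tendsto (fun t : ℝ => C₅ * t) (𝓝[>] 0) (𝓝 0) := by
        have h2 : Continuous fun t : ℝ => C₅ * t := by fun_prop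
        have h3 := h2.tendsto 0
        rw [mul_zero] at h3
        exact h3.mono_left nhdsWithin_le_nhds
      refine squeeze_zero_norm' ?_ h2
      filter_upwards [hp2nd, self_mem_nhdsWithin] with t h3 h4
      have ht0 : 0 < t := h4
      have htC : (t : ℂ) ≠ 0 := by exact_mod_cast ht0.ne'
      have e : ((m t) ^ q - 1) / (t : ℂ) - c₁ * (q * lam ^ (q - 1)) =
          ((m t) ^ q - 1 - t * (c₁ * (q * lam ^ (q - 1)))) / t := by field_simp
      rw [e, norm_div, Complex.norm_of_nonneg ht0.le, div_le_iff₀ ht0]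
      refine h3.trans (le_of_eq ?_)
      ring
    have h2 := tendsto_nhds_unique h1 (hμt.sub_const _)
    linear_combination h2
  refine ⟨y, C₅, hC₅0, by rw [← hw]; exact hyw, ?_⟩
  filter_upwards [hy1, hp2nd] with t h1 h2
  refine ⟨h1, ?_⟩
  rw [hcc] at h2
  rw [hm] at h2
  simp only at h2
  rw [mul_comm ((q : ℂ) * kapR x V a p lam) (t : ℂ)]
  exact h2

end Run7.h904.RF
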