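import Mathlib
import Pool.Agent.Run7.h904.U4Exp

set_option autoImplicit false

open Topology Filter Metric Set Polynomial MeasureTheory Asymptotics
open scoped OnePoint

namespace Run7.h904.RF

open Pool.Agent.W757.QR Pool.Agent.H790R3.RB Pool.Agent.W29.RQSNK Pool.Agent.W29.RQAPP
open Run7.h904.PF (ne0_nhdsGT tendsto_ofReal0 prod_slope slope_poly eventually_small)

/-- expansion of the perturbed return map at the perturbed fixed point -/
lemma expG {d : ℕ} (x V : CV d) (P : ℕ) (a : ℂ) (ha : Fin' x a) (hfix : (fx x)^[P] a = a)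
    (hmul : deriv ((fx x)^[P]) a = 1) (k : ℕ) (A : ℂ) (CA r1 : ℝ) (hCA : 0 ≤ CA) (hr1 : 0 < r1)
    (hord : ∀ z : ℂ, ‖z‖ ≤ r1 → ‖cen x P a z - z - A * z ^ (k + 1)‖ ≤ CA * ‖z‖ ^ (k + 2))
    (y : ℝ → ℂ) (w : ℂ) (hyw : Tendsto (fun t : ℝ => (y t - a) / (t : ℂ)) (𝓝[>] 0) (𝓝 w))
    (μ : ℝ → ℂ) (Bμ : ℝ) (hBμ : 0 ≤ Bμ) (hμ : ∀ᶠ t : ℝ in 𝓝[>] 0, ‖μ t‖ ≤ Bμ * t)
    (H : ∀ᶠ t : ℝ in 𝓝[>] 0, (fx (Xt x V t))^[P] (y t) = y t ∧
      deriv ((fx (Xt x V t))^[P]) (y t) = 1 + μ t) :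
    ∃ r C : ℝ, 0 < r ∧ 0 ≤ C ∧ ∀ᶠ t : ℝ in 𝓝[>] 0, (∀ v ∈ ball (0 : ℂ) r, ∀ j < P,
      (de (Xt x V t)).eval ((fx (Xt x V t))^[j] (y t + v)) ≠ 0) ∧
      ∀ v ∈ ball (0 : ℂ) r, ‖cen (Xt x V t) P (y t) v - (1 + μ t) * v - A * v ^ (k + 1)‖ ≤
        C * (t * ‖v‖ ^ 2 + ‖v‖ ^ (k + 2)) := by
  obtain ⟨ρ, K, hρ, hK, hfinρ, hcl⟩ := loc_lip P x a (fun j _ => ha j)
  obtain ⟨M, hM⟩ : ∃ M : ℝ, M = ‖V‖ + 1 := ⟨_, rfl⟩
  have hM0 : 0 < M := by rw [hM]; positivity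
  obtain ⟨B, hB⟩ : ∃ B : ℝ, B = (K * M + 1) * (2 + ‖w‖) * 2 + Bμ * ρ := ⟨_, rfl⟩
  have hM1 : 1 ≤ M := by rw [hM]; linarith [norm_nonneg V]
  have hB0 : 0 ≤ B := by rw [hB]; positivity
  obtain ⟨C₁, hC₁⟩ : ∃ C₁ : ℝ, C₁ = 20 * B / (ρ / 2) ^ 2 := ⟨_, rfl⟩
  have hC₁0 : 0 ≤ C₁ := by rw [hC₁]; positivity
  have hsm1 : ∀ᶠ t : ℝ in 𝓝[>] 0, M * t < ρ := by
    have h1 : Tendsto (fun t : ℝ => M * t) (𝓝[>] 0) (𝓝 0) := by
      have h2 : Continuous fun t : ℝ => M * t := by fun_prop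
      have h3 := h2.tendsto 0
      rw [mul_zero] at h3
      exact h3.mono_left nhdsWithin_le_nhds
    exact h1.eventually (gt_mem_nhds hρ)
  have hsm2 : ∀ᶠ t : ℝ in 𝓝[>] 0, (‖w‖ + 1) * t < ρ / 2 := by
    have h1 : Tendsto (fun t : ℝ => (‖w‖ + 1) * t) (𝓝[>] 0) (𝓝 0) := by
      have h2 : Continuous fun t : ℝ => (‖w‖ + 1) * t := by fun_prop
      have h3 := h2.tendsto 0
      rw [mul_zero] at h3
      exact h3.mono_left nhdsWithin_le_nhds
    exact h1.eventually (gt_mem_nhds (by positivity))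
  refine ⟨min (ρ / 4) r1, C₁ + CA, lt_min (by positivity) hr1, by positivity, ?_⟩
  filter_upwards [hsm1, hsm2, hμ, H, hyw.norm.eventually (gt_mem_nhds (by linarith : ‖w‖ < ‖w‖ + 1)),
    self_mem_nhdsWithin] with t h1 h2 h3 h4 h5 h6
  have ht : 0 < t := h6
  rw [norm_div, Complex.norm_of_nonneg ht.le, div_lt_iff₀ ht] at h5
  have hya : ‖y t - a‖ < ρ / 2 := by linarith
  obtain ⟨hf, hd⟩ := h4
  have hclose : ∀ v ∈ ball (0 : ℂ) (ρ / 2),
      (∀ j < P, (de (Xt x V t)).eval ((fx (Xt x V t))^[j] (y t + v)) ≠ 0) ∧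
      ‖cen (Xt x V t) P (y t) v - cen x P a v‖ ≤ (K * M + 1) * (t + ‖y t - a‖) := by
    intro v hv
    have hv' : ‖v‖ < ρ / 2 := by simpa using hv
    have m1 : y t + v ∈ ball a ρ := by
      rw [mem_ball, dist_eq_norm, show y t + v - a = (y t - a) + v by ring]
      refine (norm_add_le _ _).trans_lt ?_
      linarith
    have m2 : a + v ∈ ball a ρ := by
      rw [mem_ball, dist_eq_norm, add_sub_cancel_left]
      linarith
    have hXs : ‖Xt x V t - x‖ ≤ M * t := by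
      rw [Xt_sub x V t ht.le, hM, mul_comm]
      exact mul_le_mul_of_nonneg_right (by linarith) ht.le
    have m3 : ‖Xt x V t - x‖ < ρ := by linarith
    refine ⟨hfinρ _ m3 _ m1, ?_⟩
    have h4 := hcl (Xt x V t) m3 _ m1 _ m2
    rw [add_sub_add_right_eq_sub] at h4
    have h5 : cen (Xt x V t) P (y t) v - cen x P a v =
        ((fx (Xt x V t))^[P] (y t + v) - (fx x)^[P] (a + v)) - (y t - a) := by
      simp only [cen]; ring
    rw [h5]
    refine (norm_sub_le _ _).trans ?_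
    have h6 : K * (‖Xt x V t - x‖ + ‖y t - a‖) ≤ K * (M * t + M * ‖y t - a‖) := by
      refine mul_le_mul_of_nonneg_left ?_ hK
      nlinarith [norm_nonneg (y t - a)]
    nlinarith [norm_nonneg (y t - a)]
  have hxd : ∀ v ∈ ball (0 : ℂ) (ρ / 2), DifferentiableAt ℂ (cen x P a) v := by
    intro v hv
    refine cen_diffAt x P a v fun j hj => hfinρ x (by rw [sub_self, norm_zero]; exact hρ) _ ?_ j hj
    have hv' : ‖v‖ < ρ / 2 := by simpa using hv
    rw [mem_ball, dist_eq_norm, add_sub_cancel_left]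
    linarith
  have htd : ∀ v ∈ ball (0 : ℂ) (ρ / 2), DifferentiableAt ℂ (cen (Xt x V t) P (y t)) v := fun v hv =>
    cen_diffAt _ _ _ v (hclose v hv).1
  obtain ⟨h, hh⟩ : ∃ h : ℂ → ℂ, h = fun v => cen (Xt x V t) P (y t) v - cen x P a v - μ t * v :=
    ⟨_, rfl⟩
  have h0m : (0 : ℂ) ∈ ball (0 : ℂ) (ρ / 2) := mem_ball_self (by positivity)
  have hq := Pool.Agent.H713R5.QJ.PBLAux.quad h (ρ / 2) (B * t) (by positivity) (by
    intro v hv
    rw [hh]
    exact (((htd v hv).sub (hxd v hv)).sub (by fun_prop)).differentiableWithinAt) (by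
    intro v hv
    have h7 := (hclose v hv).2
    have hv' : ‖v‖ < ρ / 2 := by simpa using hv
    rw [hh]
    refine (norm_sub_le _ _).trans ?_
    rw [norm_mul]
    have h8 : ‖μ t‖ * ‖v‖ ≤ Bμ * t * (ρ / 2) := mul_le_mul h3 hv'.le (norm_nonneg _) (by positivity)
    have h9 : (K * M + 1) * (t + ‖y t - a‖) ≤ (K * M + 1) * ((2 + ‖w‖) * t) :=
      mul_le_mul_of_nonneg_left (by linarith) (by positivity)
    have h10 : 0 ≤ (K * M + 1) * ((2 + ‖w‖) * t) := by positivity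
    have h11 : 0 ≤ Bμ * t * ρ := by positivity
    rw [hB]
    nlinarith) (by
    rw [hh]
    simp [cen, hf, hfix]) (by
    rw [hh]
    have e1 : HasDerivAt (cen (Xt x V t) P (y t)) (1 + μ t) 0 := by
      rw [← hd, ← cen_deriv]
      exact (htd 0 h0m).hasDerivAt
    have e2 : HasDerivAt (cen x P a) 1 0 := by
      rw [← hmul, ← cen_deriv]
      exact (hxd 0 h0m).hasDerivAt
    have e3 : HasDerivAt (fun v : ℂ => μ t * v) (μ t) 0 := by
      simpa using (hasDerivAt_id' (0 : ℂ)).const_mul (μ t)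
    have e4 := ((e1.sub e2).sub e3).deriv
    have e5 : (1 + μ t - 1 - μ t : ℂ) = 0 := by ring
    rw [e5] at e4
    exact e4)
  refine ⟨fun v hv => (hclose v ?_).1, fun v hv => ?_⟩
  · rw [mem_ball_zero_iff] at hv ⊢
    have := hv.trans_le (min_le_left _ _)
    linarith
  · rw [mem_ball_zero_iff] at hv
    have hv1 := (hv.trans_le (min_le_left _ _)).le
    have hv2 := (hv.trans_le (min_le_right _ _)).le
    have h7 := hq v (by linarith)
    have h8 := hord v hv2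
    have e : cen (Xt x V t) P (y t) v - (1 + μ t) * v - A * v ^ (k + 1) =
        h v + (cen x P a v - v - A * v ^ (k + 1)) := by rw [hh]; ring
    rw [e]
    refine (norm_add_le _ _).trans ?_
    have e2 : 20 * (B * t) / (ρ / 2) ^ 2 * ‖v‖ ^ 2 = C₁ * (t * ‖v‖ ^ 2) := by
      rw [hC₁]; ring
    rw [e2] at h7
    have h9 : 0 ≤ C₁ * ‖v‖ ^ (k + 2) := by positivity
    have h10 : 0 ≤ CA * (t * ‖v‖ ^ 2) := by positivity
    have e3 : (C₁ + CA) * (t * ‖v‖ ^ 2 + ‖v‖ ^ (k + 2)) = C₁ * (t * ‖v‖ ^ 2) + C₁ * ‖v‖ ^ (k + 2) +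
        (CA * (t * ‖v‖ ^ 2) + CA * ‖v‖ ^ (k + 2)) := by ring
    rw [e3]
    linarith

/-- at a point of multiplier different from one there are at least two petals -/
lemma two_petals (f F : ℂ → ℂ) (lam A : ℂ) (k : ℕ) (hk : 1 ≤ k) (CA r1 : ℝ)
    (hr1 : 0 < r1) (hf0 : f 0 = 0) (hfs : HasStrictDerivAt f lam 0) (hlam0 : lam ≠ 0)
    (hlam1 : lam ≠ 1) (hA : A ≠ 0) (hcomm : ∀ v, F (f v) = f (F v))
    (hord : ∀ z : ℂ, ‖z‖ ≤ r1 → ‖F z - z - A * z ^ (k + 1)‖ ≤ CA * ‖z‖ ^ (k + 2)) : 2 ≤ k := by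
  by_contra hcon
  have hk1 : k = 1 := by omega
  subst hk1
  -- the quotient
  have hE : Tendsto (fun v : ℂ => (F v - v) / v ^ 2) (𝓝[≠] 0) (𝓝 A) := by
    rw [tendsto_iff_norm_sub_tendsto_zero]
    have h1 : Tendsto (fun v : ℂ => CA * ‖v‖) (𝓝[≠] 0) (𝓝 0) := by
      have h2 : Continuous fun v : ℂ => CA * ‖v‖ := by fun_prop
      have h3 := h2.tendsto 0
      rw [norm_zero, mul_zero] at h3
      exact h3.mono_left nhdsWithin_le_nhds
    refine squeeze_zero' (Eventually.of_forall fun _ => norm_nonneg _) ?_ h1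
    have h2 : ∀ᶠ v : ℂ in 𝓝[≠] 0, ‖v‖ ≤ r1 := by
      have : ∀ᶠ v : ℂ in 𝓝 0, ‖v‖ ≤ r1 := by
        filter_upwards [ball_mem_nhds (0 : ℂ) hr1] with v hv
        rw [mem_ball_zero_iff] at hv
        exact hv.le
      exact this.filter_mono nhdsWithin_le_nhds
    filter_upwards [h2, self_mem_nhdsWithin] with v h3 h4
    have hv0 : v ≠ 0 := h4
    have hvn : 0 < ‖v‖ := norm_pos_iff.2 hv0
    have e : (F v - v) / v ^ 2 - A = (F v - v - A * v ^ (1 + 1)) / v ^ 2 := by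
      field_simp
      ring
    rw [e, norm_div, norm_pow, div_le_iff₀ (by positivity)]
    refine (hord v h3).trans (le_of_eq ?_)
    ring
  have hF : Tendsto F (𝓝[≠] 0) (𝓝 0) := by
    have h1 : Tendsto (fun v : ℂ => (F v - v) / v ^ 2 * v ^ 2 + v) (𝓝[≠] 0) (𝓝 (A * 0 ^ 2 + 0)) := by
      have h2 : Tendsto (fun v : ℂ => v) (𝓝[≠] 0) (𝓝 0) := nhdsWithin_le_nhds
      exact (hE.mul (h2.pow 2)).add h2
    have e : A * (0 : ℂ) ^ 2 + 0 = 0 := by ring
    rw [e] at h1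
    refine h1.congr' ?_
    filter_upwards [self_mem_nhdsWithin] with v h4
    have hv0 : v ≠ 0 := h4
    field_simp
    ring
  have hid : Tendsto (fun v : ℂ => v) (𝓝[≠] 0) (𝓝 0) := nhdsWithin_le_nhds
  -- first computation
  have h1 : Tendsto (fun v : ℂ => (f (F v) - f v) / v ^ 2) (𝓝[≠] 0) (𝓝 (lam * A)) := by
    have h2 := hfs.isLittleO
    have h3 : Tendsto (fun v : ℂ => ((F v, v) : ℂ × ℂ)) (𝓝[≠] 0) (𝓝 ((0, 0) : ℂ × ℂ)) :=
      hF.prodMk_nhds hid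
    have h4 := h2.comp_tendsto h3
    have h5 : (fun v : ℂ => F v - v) =O[𝓝[≠] 0] fun v => v ^ 2 := by
      refine Asymptotics.isBigO_of_div_tendsto_nhds ?_ A hE
      filter_upwards [self_mem_nhdsWithin] with v h4 h5
      have hv0 : v ≠ 0 := h4
      exact absurd h5 (pow_ne_zero _ hv0)
    have h6 : (fun v : ℂ => f (F v) - f v - (F v - v) * lam) =o[𝓝[≠] 0] fun v => v ^ 2 := by
      refine IsLittleO.trans_isBigO ?_ h5
      refine h4.congr (fun v => ?_) (fun v => rfl)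
      simp [smul_eq_mul]
    have h7 := h6.tendsto_div_nhds_zero
    have h8 := h7.add (hE.mul_const lam)
    rw [zero_add, mul_comm A lam] at h8
    refine h8.congr' ?_
    filter_upwards [self_mem_nhdsWithin] with v h9
    have hv0 : v ≠ 0 := h9
    field_simp
    ring
  -- second computation
  have hfd := hfs.hasDerivAt
  have hfq : Tendsto (fun v : ℂ => f v / v) (𝓝[≠] 0) (𝓝 lam) := by
    have h2 := hfd.tendsto_slope
    refine h2.congr fun v => ?_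
    rw [slope_def_field, hf0, sub_zero, sub_zero]
  have hfne : Tendsto f (𝓝[≠] 0) (𝓝[≠] 0) := by
    rw [tendsto_nhdsWithin_iff]
    refine ⟨?_, ?_⟩
    · have h2 := hfd.continuousAt.tendsto
      rw [hf0] at h2
      exact h2.mono_left nhdsWithin_le_nhds
    · filter_upwards [hfq.eventually_ne hlam0] with v hv
      intro h0
      apply hv
      have h0' : f v = 0 := h0
      rw [h0', zero_div]
  have h2 : Tendsto (fun v : ℂ => (f (F v) - f v) / v ^ 2) (𝓝[≠] 0) (𝓝 (A * lam ^ 2)) := by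
    have h3 := (hE.comp hfne).mul (hfq.pow 2)
    refine h3.congr' ?_
    have h4 : ∀ᶠ v in 𝓝[≠] (0 : ℂ), f v ∈ ({0}ᶜ : Set ℂ) := hfne.eventually self_mem_nhdsWithin
    filter_upwards [self_mem_nhdsWithin, h4] with v h9 h10
    have hv0 : v ≠ 0 := h9
    have hfv : f v ≠ 0 := h10
    simp only [Function.comp]
    rw [hcomm]
    field_simp
  have h3 := tendsto_nhds_unique h1 h2
  apply hlam1
  have h4 : A * lam * (lam - 1) = 0 := by linear_combination -h3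
  rcases mul_eq_zero.1 h4 with h5 | h5
  · exact absurd h5 (mul_ne_zero hA hlam0)
  · linear_combination h5

end Run7.h904.RF
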