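import Mathlib
import Pool.Agent.Run7.h904.U5Loc
import Pool.Agent.Run7.h904.R4Dir

set_option autoImplicit false

open Topology Filter Metric Set Polynomial MeasureTheory Asymptotics
open scoped OnePoint

namespace Run7.h904.UQ

lemma ev_lin (a b : ℝ) (hb : 0 < b) : ∀ᶠ t : ℝ in 𝓝[>] 0, a * t ≤ b := by
  have := ev_small a b hb 1 le_rfl
  simpa using this

/-- orbits near an attracting fixed point of multiplier close to one -/
theorem contrN (k : ℕ) (hk : 2 ≤ k) (A c : ℂ) (hc : c.re < 0) (C₀ C r B : ℝ) (hC₀ : 0 ≤ C₀)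
    (hC : 0 ≤ C) (hr : 0 < r) (hB : 0 < B) :
    ∀ᶠ t : ℝ in 𝓝[>] 0, ∀ μ : ℂ, ‖μ - c * t‖ ≤ C₀ * t ^ 2 → ∀ G : ℂ → ℂ,
      (∀ v ∈ ball (0 : ℂ) r, ‖G v - (1 + μ) * v - A * v ^ (k + 1)‖ ≤
        C * (t * ‖v‖ ^ 2 + ‖v‖ ^ (k + 2))) →
      ∀ v₀ : ℂ, ‖v₀‖ ≤ B * t → ‖1 + μ‖ < 1 ∧ (∀ j : ℕ, G^[j] v₀ ∈ ball (0 : ℂ) r) ∧
        Tendsto (fun j : ℕ => G^[j] v₀) atTop (𝓝 0) := by
  obtain ⟨K, hK⟩ : ∃ K : ℝ, K = ‖A‖ * B ^ k + C * (B + B ^ (k + 1)) := ⟨_, rfl⟩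
  have hK0 : 0 ≤ K := by rw [hK]; positivity
  have hcr : 0 < -c.re := by linarith
  filter_upwards [ev_lin 1 1 one_pos, ev_lin B (r / 2) (by positivity),
    ev_lin K (-c.re / 4) (by positivity), ev_lin C₀ (-c.re / 4) (by positivity),
    ev_lin C₀ 1 one_pos, ev_lin ((‖c‖ + 1) ^ 2) (-c.re / 2) (by positivity),
    ev_lin (-c.re) 1 one_pos, self_mem_nhdsWithin]
    with t t1 t2 t3 t4 t5 t6 t7 t8 μ hμ G hG v₀ hv₀
  have ht : 0 < t := t8
  rw [one_mul] at t1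
  have hμ1 : ‖μ‖ ≤ (‖c‖ + 1) * t := by
    have h1 := norm_add_le (μ - c * t) (c * t)
    rw [sub_add_cancel, norm_mul, Complex.norm_of_nonneg ht.le] at h1
    nlinarith
  have hμr : μ.re ≤ 3 / 4 * c.re * t := by
    have h1 := (abs_le.1 (Complex.abs_re_le_norm (μ - c * t))).2
    have e : (μ - c * (t : ℂ)).re = μ.re - c.re * t := by simp
    rw [e] at h1
    nlinarith
  have h1μ : ‖1 + μ‖ ≤ 1 + c.re / 2 * t := by
    have h8 : ‖1 + μ‖ ^ 2 = 1 + 2 * μ.re + ‖μ‖ ^ 2 := by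
      rw [← Complex.normSq_eq_norm_sq, ← Complex.normSq_eq_norm_sq, Complex.normSq_apply,
        Complex.normSq_apply]
      simp
      ring
    have h9 : ‖μ‖ ^ 2 ≤ -c.re / 2 * t := by
      have := pow_le_pow_left₀ (norm_nonneg μ) hμ1 2
      rw [mul_pow] at this
      nlinarith
    have h10 : ‖1 + μ‖ ^ 2 ≤ (1 + c.re / 2 * t) ^ 2 := by
      rw [h8]
      nlinarith [sq_nonneg (c.re / 2 * t)]
    exact abs_le_of_sq_le_sq' h10 (by linarith) |>.2
  obtain ⟨θ, hθ⟩ : ∃ θ : ℝ, θ = 1 + c.re / 4 * t := ⟨_, rfl⟩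
  have hct : 0 < -c.re * t := by positivity
  have hθ0 : 0 ≤ θ := by rw [hθ]; linarith
  have hθ1 : θ < 1 := by rw [hθ]; linarith
  have hstep : ∀ v : ℂ, ‖v‖ ≤ B * t → ‖G v‖ ≤ θ * ‖v‖ := by
    intro v hv
    have hvr : v ∈ ball (0 : ℂ) r := by rw [mem_ball_zero_iff]; linarith
    have h1 := hG v hvr
    have e : G v = (G v - (1 + μ) * v - A * v ^ (k + 1)) + (1 + μ) * v + A * v ^ (k + 1) := by ring
    have htk : ∀ n : ℕ, 2 ≤ n → t ^ n ≤ t ^ 2 := fun n hn => pow_le_pow_of_le_one ht.le t1 hn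
    have hvk : ∀ n : ℕ, 2 ≤ n → ‖v‖ ^ n ≤ B ^ n * t ^ 2 := by
      intro n hn
      have := pow_le_pow_left₀ (norm_nonneg v) hv n
      rw [mul_pow] at this
      exact this.trans (mul_le_mul_of_nonneg_left (htk n hn) (by positivity))
    have h2 : ‖A * v ^ (k + 1)‖ ≤ ‖A‖ * B ^ k * t ^ 2 * ‖v‖ := by
      rw [norm_mul, norm_pow, pow_succ]
      have := mul_le_mul_of_nonneg_right (hvk k hk) (norm_nonneg v)
      have := mul_le_mul_of_nonneg_left this (norm_nonneg A)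
      linarith
    have h3 : C * (t * ‖v‖ ^ 2 + ‖v‖ ^ (k + 2)) ≤ C * (B + B ^ (k + 1)) * t ^ 2 * ‖v‖ := by
      have h4 : t * ‖v‖ ^ 2 ≤ B * t ^ 2 * ‖v‖ := by
        have := mul_le_mul_of_nonneg_right hv (by positivity : 0 ≤ t * ‖v‖)
        nlinarith
      have h5 : ‖v‖ ^ (k + 2) ≤ B ^ (k + 1) * t ^ 2 * ‖v‖ := by
        have e2 : ‖v‖ ^ (k + 2) = ‖v‖ ^ (k + 1) * ‖v‖ := by ring
        rw [e2]
        exact mul_le_mul_of_nonneg_right (hvk (k + 1) (by omega)) (norm_nonneg v)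
      have := mul_le_mul_of_nonneg_left (add_le_add h4 h5) hC
      refine this.trans (le_of_eq ?_)
      ring
    have h4 : ‖G v‖ ≤ ‖G v - (1 + μ) * v - A * v ^ (k + 1)‖ + ‖(1 + μ) * v‖ + ‖A * v ^ (k + 1)‖ := by
      conv_lhs => rw [e]
      exact norm_add₃_le
    rw [norm_mul (1 + μ)] at h4
    have h5 := mul_le_mul_of_nonneg_right h1μ (norm_nonneg v)
    have h6 : K * t ^ 2 * ‖v‖ ≤ -c.re / 4 * t * ‖v‖ := by
      have := mul_le_mul_of_nonneg_right t3 (by positivity : 0 ≤ t * ‖v‖)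
      nlinarith
    have e3 : K * t ^ 2 * ‖v‖ = ‖A‖ * B ^ k * t ^ 2 * ‖v‖ + C * (B + B ^ (k + 1)) * t ^ 2 * ‖v‖ := by
      rw [hK]; ring
    have e4 : θ * ‖v‖ = (1 + c.re / 2 * t) * ‖v‖ + -c.re / 4 * t * ‖v‖ := by rw [hθ]; ring
    rw [e4]
    linarith
  have hall : ∀ j : ℕ, ‖G^[j] v₀‖ ≤ θ ^ j * ‖v₀‖ := by
    intro j
    induction j with
    | zero => simp
    | succ j ih =>
      have h1 : ‖G^[j] v₀‖ ≤ B * t := by
        refine ih.trans (le_trans ?_ hv₀)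
        exact mul_le_of_le_one_left (norm_nonneg _) (pow_le_one₀ hθ0 hθ1.le)
      rw [Function.iterate_succ_apply', pow_succ']
      have h2 := hstep _ h1
      have h3 := mul_le_mul_of_nonneg_left ih hθ0
      linarith
  refine ⟨by linarith, ?_, ?_⟩
  · intro j
    rw [mem_ball_zero_iff]
    have h1 : θ ^ j * ‖v₀‖ ≤ ‖v₀‖ := mul_le_of_le_one_left (norm_nonneg _) (pow_le_one₀ hθ0 hθ1.le)
    linarith [hall j]
  · have h1 : Tendsto (fun j : ℕ => θ ^ j * ‖v₀‖) atTop (𝓝 0) := by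
      have := (tendsto_pow_atTop_nhds_zero_of_lt_one hθ0 hθ1).mul_const ‖v₀‖
      rwa [zero_mul] at this
    exact squeeze_zero_norm hall h1

end Run7.h904.UQ

namespace Run7.h904.RF

open Pool.Agent.W757.QR Pool.Agent.H790R3.RB Pool.Agent.W29.RQSNK Pool.Agent.W29.RQAPP
open Run7.h904.UQ (ev_small ev_lin contrN orbQ)

/-- a critical point which is mapped onto a parabolic cycle of multiplier different from one
becomes attracted unless the size of the perturbation is in a small set of positive numbers -/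
theorem landA {d : ℕ} (hd : 2 ≤ d) (x V : CV d) (hx : ND x) (c₀ a lam : ℂ) (M p q : ℕ)
    (hp : 0 < p) (hq : 0 < q) (hM : 0 < M) (hcr : (wn (nu x) (de x)).eval c₀ = 0)
    (hfc : Fin' x c₀) (hhit : (fx x)^[M] c₀ = a) (ha : Fin' x a) (hfix : (fx x)^[p] a = a)
    (hlam : deriv ((fx x)^[p]) a = lam) (hq1 : lam ^ q = 1) (hne : lam ≠ 1)
    (k : ℕ) (A : ℂ) (CA r1 : ℝ) (hk : 1 ≤ k) (hA : A ≠ 0) (hCA : 0 ≤ CA) (hr1 : 0 < r1)
    (hord : ∀ z : ℂ, ‖z‖ ≤ r1 →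
      ‖cen x (p * q) a z - z - A * z ^ (k + 1)‖ ≤ CA * ‖z‖ ^ (k + 2))
    (hre : (kapR x V a p lam).re ≠ 0) (hw : ffR x V c₀ a M p lam ≠ 0) (c : ℂ)
    (hc : c = q * kapR x V a p lam) (δ : ℝ) (hδ : 0 < δ) :
    ∃ U ∈ 𝓝 c₀, ∀ᶠ t : ℝ in 𝓝[>] 0,
      (∀ m : ℤ, δ ≤ |(c / (A * (ffR x V c₀ a M p lam) ^ k)).arg -
        c.im / c.re * Real.log ‖c / (A * (ffR x V c₀ a M p lam) ^ k)‖ +
        (k - 1) * (c.im / c.re) * Real.log t - 2 * Real.pi * m|) →
      ∀ z' ∈ U, (wn (nu (Xt x V t)) (de (Xt x V t))).eval z' = 0 →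
        Attd (sp (Xt x V t)) (z' : OnePoint ℂ) := by
  obtain ⟨y, C₀, hC₀, hyw, hyt⟩ := cycA x V p q hq a lam ha hfix hlam hq1 hne
  rw [← hc] at hyt
  obtain ⟨P, hP⟩ : ∃ P : ℕ, P = p * q := ⟨_, rfl⟩
  rw [← hP] at hord
  have hP0 : 0 < P := by rw [hP]; exact Nat.mul_pos hp hq
  have hfixP : (fx x)^[P] a = a := by
    rw [hP, Function.iterate_mul]
    exact Function.iterate_fixed hfix q
  have hlam0 : lam ≠ 0 := by
    rintro rfl
    rw [zero_pow hq.ne'] at hq1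
    exact zero_ne_one hq1
  have hdp : HasDerivAt ((fx x)^[p]) lam a := by
    rw [← hlam]
    exact (fx_iter_diff x a p (fun j _ => ha j)).hasDerivAt
  have hmulP : deriv ((fx x)^[P]) a = 1 := by
    have h2 := HasDerivAt.iterate _ hdp hfix q
    rw [hP, Function.iterate_mul, h2.deriv, hq1]
  have hcre : c.re ≠ 0 := by
    have : c.re = q * (kapR x V a p lam).re := by rw [hc]; simp
    rw [this]
    have hq' : (q : ℝ) ≠ 0 := by exact_mod_cast hq.ne'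
    exact mul_ne_zero hq' hre
  -- two petals
  have hk2 : 2 ≤ k := by
    obtain ⟨ρ, K, hρ, hK, hfinρ, -⟩ := loc_lip p x a (fun j _ => ha j)
    have hcd : DifferentiableOn ℂ (cen x p a) (ball 0 ρ) := by
      intro v hv
      refine (cen_diffAt x p a v fun j hj => hfinρ x (by rw [sub_self, norm_zero]; exact hρ) _ ?_ j
        hj).differentiableWithinAt
      rw [mem_ball, dist_eq_norm, add_sub_cancel_left]
      simpa using hv
    have han : AnalyticAt ℂ (cen x p a) 0 :=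
      hcd.analyticAt (ball_mem_nhds 0 hρ)
    have hst : HasStrictDerivAt (cen x p a) lam 0 := by
      have h1 := han.hasStrictDerivAt
      rwa [cen_deriv, hlam] at h1
    have hit : ∀ v, cen x P a v = (cen x p a)^[q] v := by
      intro v
      rw [cen_iter, hP]
      rfl
    refine two_petals (cen x p a) (cen x P a) lam A k hk CA r1 hr1 (by simp [cen, hfix]) hst hlam0 hne
      hA (fun v => ?_) hord
    rw [hit, hit, ← Function.iterate_succ_apply, Function.iterate_succ_apply']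
  -- the multiplier
  obtain ⟨μ, hμ⟩ : ∃ μ : ℝ → ℂ, μ = fun t => (deriv ((fx (Xt x V t))^[p]) (y t)) ^ q - 1 := ⟨_, rfl⟩
  have hy2 : Tendsto y (𝓝[>] 0) (𝓝 a) := by
    have h1 := hyw.mul Run7.h904.PF.tendsto_ofReal0
    rw [mul_zero] at h1
    have h2 := h1.add_const a
    rw [zero_add] at h2
    refine h2.congr' ?_
    filter_upwards [Run7.h904.PF.ne0_nhdsGT] with t ht
    have htC : (t : ℂ) ≠ 0 := by exact_mod_cast ht
    field_simp
    ring
  have hμt : ∀ᶠ t : ℝ in 𝓝[>] 0, ‖μ t - c * t‖ ≤ C₀ * t ^ 2 := by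
    filter_upwards [hyt] with t ht
    rw [hμ]
    exact ht.2
  have hμb : ∀ᶠ t : ℝ in 𝓝[>] 0, ‖μ t‖ ≤ (‖c‖ + 1) * t := by
    filter_upwards [hμt, ev_lin C₀ 1 one_pos, self_mem_nhdsWithin] with t h1 h2 h3
    have ht : 0 < t := h3
    have h4 := norm_add_le (μ t - c * t) (c * t)
    rw [sub_add_cancel, norm_mul, Complex.norm_of_nonneg ht.le] at h4
    nlinarith
  have hfinY : ∀ᶠ t in 𝓝[>] (0 : ℝ), ∀ j < p, (de (Xt x V t)).eval ((fx (Xt x V t))^[j] (y t)) ≠ 0 := by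
    have h1 := ne_nhds p (x, a) (fun j _ => ha j)
    have h2 : Tendsto (fun t => ((Xt x V t, y t) : CV d × ℂ)) (𝓝[>] 0) (𝓝 (x, a)) :=
      (Xt_tendsto x V).prodMk_nhds hy2
    exact h2.eventually h1
  have H : ∀ᶠ t : ℝ in 𝓝[>] 0, (fx (Xt x V t))^[P] (y t) = y t ∧
      deriv ((fx (Xt x V t))^[P]) (y t) = 1 + μ t := by
    filter_upwards [hyt, hfinY] with t h1 h2
    refine ⟨?_, ?_⟩
    · rw [hP, Function.iterate_mul]
      exact Function.iterate_fixed h1.1 q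
    · have h3 : HasDerivAt ((fx (Xt x V t))^[p]) (deriv ((fx (Xt x V t))^[p]) (y t)) (y t) :=
        (derR (Xt x V t) (y t) p h2).differentiableAt.hasDerivAt
      have h4 := HasDerivAt.iterate _ h3 h1.1 q
      rw [hP, Function.iterate_mul, h4.deriv, hμ]
      ring
  obtain ⟨r, C, hr, hC, hG⟩ := expG x V P a ha hfixP hmulP k A CA r1 hCA hr1 hord y _ hyw μ (‖c‖ + 1)
    (by positivity) hμb H
  -- the critical orbits
  obtain ⟨w, hwd⟩ : ∃ w : ℂ, w = ffR x V c₀ a M p lam := ⟨_, rfl⟩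
  rw [← hwd] at hw ⊢
  obtain ⟨l, hl⟩ : ∃ l : Filter (ℝ × ℂ), l = (𝓝[>] (0 : ℝ) ×ˢ 𝓝 c₀) ⊓
    𝓟 {q : ℝ × ℂ | (wn (nu (Xt x V q.1)) (de (Xt x V q.1))).eval q.2 = 0} := ⟨_, rfl⟩
  have hl1 : Tendsto (fun q : ℝ × ℂ => q.1) l (𝓝[>] 0) := by
    rw [hl]; exact tendsto_fst.mono_left inf_le_left
  have hl2 : Tendsto (fun q : ℝ × ℂ => q.2) l (𝓝 c₀) := by
    rw [hl]; exact tendsto_snd.mono_left inf_le_left
  have hl3 : ∀ᶠ q in l, (wn (nu (Xt x V q.1)) (de (Xt x V q.1))).eval q.2 = 0 := by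
    rw [hl]
    exact (eventually_principal.2 fun q hq => hq).filter_mono inf_le_right
  have hvt : Tendsto (fun q : ℝ × ℂ => ((fx (Xt x V q.1))^[M] q.2 - y q.1) / (q.1 : ℂ)) l (𝓝 w) := by
    obtain ⟨M', rfl⟩ : ∃ M', M = M' + 1 := ⟨M - 1, by omega⟩
    have h1 := critG' hd x V hx c₀ hcr hfc hl1 (fun q => q.2) hl2 hl3 M'
    have h2 := h1.sub (hyw.comp hl1)
    rw [hwd]
    unfold ffR
    refine h2.congr fun q => ?_
    simp only [Function.comp]
    rw [hhit]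
    ring
  have hfinC : ∀ᶠ q : ℝ × ℂ in l, ∀ j < M, (de (Xt x V q.1)).eval
      ((fx (Xt x V q.1))^[j] q.2) ≠ 0 := by
    have h8 := ne_nhds M (x, c₀) (fun j _ => hfc j)
    have h9 : Tendsto (fun q : ℝ × ℂ => ((Xt x V q.1, q.2) : CV d × ℂ)) l (𝓝 (x, c₀)) :=
      ((Xt_tendsto x V).comp hl1).prodMk_nhds hl2
    exact h9.eventually h8
  have hpos : ∀ᶠ q : ℝ × ℂ in l, 0 < q.1 := hl1.eventually self_mem_nhdsWithin
  -- the orbits
  have horb : ∀ᶠ q : ℝ × ℂ in l, (∀ m : ℤ, δ ≤ |(c / (A * w ^ k)).arg -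
      c.im / c.re * Real.log ‖c / (A * w ^ k)‖ +
      (k - 1) * (c.im / c.re) * Real.log q.1 - 2 * Real.pi * m|) →
      (∀ j : ℕ, (cen (Xt x V q.1) P (y q.1))^[j] ((fx (Xt x V q.1))^[M] q.2 - y q.1) ∈
        ball (0 : ℂ) r) ∧ ∃ x' ∈ ball (0 : ℂ) r, cen (Xt x V q.1) P (y q.1) x' = x' ∧
        ‖deriv (cen (Xt x V q.1) P (y q.1)) x'‖ < 1 ∧
        Tendsto (fun j : ℕ => (cen (Xt x V q.1) P (y q.1))^[j]
          ((fx (Xt x V q.1))^[M] q.2 - y q.1)) atTop (𝓝 x') := by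
    rcases lt_or_gt_of_ne hcre with hneg | hpos'
    · have hB : ∀ᶠ q : ℝ × ℂ in l, ‖(fx (Xt x V q.1))^[M] q.2 - y q.1‖ ≤ (‖w‖ + 1) * q.1 := by
        filter_upwards [hvt.norm.eventually (ge_mem_nhds (by linarith : ‖w‖ < ‖w‖ + 1)), hpos]
          with q h1 h2
        rwa [norm_div, Complex.norm_of_nonneg h2.le, div_le_iff₀ h2] at h1
      filter_upwards [hl1.eventually (contrN k hk2 A c hneg C₀ C r (‖w‖ + 1) hC₀ hC hr
        (by positivity)), hl1.eventually hμt, hl1.eventually hG, hl1.eventually H, hB]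
        with q h1 h2 h3 h4 h5 _
      obtain ⟨h6, h7, h8⟩ := h1 _ h2 _ h3.2 _ h5
      refine ⟨h7, 0, mem_ball_self hr, ?_, ?_, h8⟩
      · simp [cen, h4.1]
      · rw [cen_deriv, h4.2]
        exact h6
    · obtain ⟨η, hη, hev⟩ := orbQ k hk2 A c w hA hpos' hw C₀ C r hC₀ hC hr δ hδ
      have hk0 : (0 : ℝ) < k := by exact_mod_cast (by omega : 0 < k)
      have hroot : Tendsto (fun t : ℝ => t ^ (1 / (k : ℝ))) (𝓝[>] 0) (𝓝[>] 0) := by
        rw [tendsto_nhdsWithin_iff]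
        refine ⟨?_, ?_⟩
        · have h1 : ContinuousAt (fun t : ℝ => t ^ (1 / (k : ℝ))) 0 :=
            Real.continuousAt_rpow_const _ _ (Or.inr (by positivity))
          have h2 := h1.tendsto
          rw [Real.zero_rpow (by positivity)] at h2
          exact h2.mono_left nhdsWithin_le_nhds
        · filter_upwards [self_mem_nhdsWithin] with t ht
          have ht' : 0 < t := ht
          exact Real.rpow_pos_of_pos ht' _
      have hsk : ∀ t : ℝ, 0 < t → (t ^ (1 / (k : ℝ))) ^ k = t := by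
        intro t ht
        rw [← Real.rpow_natCast, ← Real.rpow_mul ht.le, one_div, inv_mul_cancel₀ hk0.ne',
          Real.rpow_one]
      have hη' : ∀ᶠ q : ℝ × ℂ in l, ‖(fx (Xt x V q.1))^[M] q.2 - y q.1 - q.1 * w‖ ≤ η * q.1 := by
        have h1 := (tendsto_iff_norm_sub_tendsto_zero.1 hvt).eventually (ge_mem_nhds hη)
        filter_upwards [h1, hpos] with q h2 h3
        have hC0 : (q.1 : ℂ) ≠ 0 := by exact_mod_cast h3.ne'
        have e : ((fx (Xt x V q.1))^[M] q.2 - y q.1) / (q.1 : ℂ) - w =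
            ((fx (Xt x V q.1))^[M] q.2 - y q.1 - q.1 * w) / q.1 := by field_simp
        rw [e, norm_div, Complex.norm_of_nonneg h3.le, div_le_iff₀ h3] at h2
        exact h2
      filter_upwards [(hroot.comp hl1).eventually hev, hl1.eventually hμt, hl1.eventually hG,
        hη', hpos] with q h1 h2 h3 h4 h5 hang
      obtain ⟨s, hs⟩ : ∃ s : ℝ, s = q.1 ^ (1 / (k : ℝ)) := ⟨_, rfl⟩
      simp only [Function.comp] at h1
      rw [← hs] at h1
      have hst : s ^ k = q.1 := by rw [hs]; exact hsk _ h5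
      have hstC : (s : ℂ) ^ k = (q.1 : ℂ) := by rw [← hst]; push_cast; rfl
      have hs2 : s ^ (2 * k) = q.1 ^ 2 := by rw [← hst, ← pow_mul, mul_comm]
      rw [hst, hstC, hs2] at h1
      exact h1 (μ q.1) h2 (cen (Xt x V q.1) P (y q.1))
        (fun v hv => (cen_diffAt _ _ _ v (h3.1 v hv)).differentiableWithinAt) h3.2 hang _ h4
  have hfinal : ∀ᶠ q : ℝ × ℂ in l, (∀ m : ℤ, δ ≤ |(c / (A * w ^ k)).arg -
      c.im / c.re * Real.log ‖c / (A * w ^ k)‖ +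
      (k - 1) * (c.im / c.re) * Real.log q.1 - 2 * Real.pi * m|) →
      Attd (sp (Xt x V q.1)) (q.2 : OnePoint ℂ) := by
    filter_upwards [horb, hl1.eventually hG, hfinC, hl1.eventually (Xt_ND x V hx)]
      with q h1 h2 h3 h4 hang
    obtain ⟨g1, x', g2, g3, g4, g5⟩ := h1 hang
    have h5 := attd_of2 hd h4 hP0 h2.1 g2 g3 g4 (z := (fx (Xt x V q.1))^[M] q.2) (N₀ := 0)
      (by intro j hj; omega) (by simpa using g1) (by simpa using g5)
    rw [← sp_iter _ q.2 M h3] at h5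
    exact attd_iter (sp_cont hd _ h4) _ h5
  rw [hl, eventually_inf_principal, eventually_prod_iff] at hfinal
  obtain ⟨pa, hpa, pb, hpb, HH⟩ := hfinal
  refine ⟨{z | pb z}, hpb, ?_⟩
  filter_upwards [hpa] with t ht hang z' hz' hw'
  exact HH ht hz' hw' hang

end Run7.h904.RF
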