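import Mathlib
import Pool.Agent.Run7.h904.U6LandA

set_option autoImplicit false

open Topology Filter Metric Set

namespace Run7.h904.SP

/-- generic directions for the orbits which start at the centre -/
structure Gn0 (n : ℕ) (γ : ℂ) : Prop where
  re : ∀ ζ ∈ mu n, (γ * ζ).re ≠ 0
  ver : ∀ η ∈ mu n, ((starRingEnd ℂ) (PP n * η) * γ).im ≠ 0

/-- the orbits which start at the centre -/
theorem lemC0 (F : ℂ → ℂ) (r : ℝ) (hr : 0 < r) (k : ℕ) (hk : 1 ≤ k) (al : ℂ) (hal : al ≠ 0)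
    (CA r1 : ℝ) (hCA : 0 ≤ CA) (hr1 : 0 < r1)
    (hord : ∀ z : ℂ, ‖z‖ ≤ r1 → ‖F z - z - al * z ^ (k + 1)‖ ≤ CA * ‖z‖ ^ (k + 2))
    (β : ℂ) (hβ : β ≠ 0) (hgen : ∀ κ : ℂ, κ ^ (k + 1) = -β / al → Gn0 (k + 1) (β / κ)) :
    ∃ η₀ : ℝ, 0 < η₀ ∧ ∀ ρ : ℝ, 0 < ρ → ∃ b s₀ : ℝ, 0 < b ∧ 0 < s₀ ∧
      ∀ s : ℝ, 0 < s → s < s₀ → ∀ G : ℂ → ℂ, DifferentiableOn ℂ G (ball 0 r) →
        (∀ z : ℂ, ‖z‖ < ρ → ‖G z - F z - (s : ℂ) ^ (k + 1) * β‖ ≤ η₀ * s ^ (k + 1)) →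
        ∀ z : ℂ, ‖z‖ ≤ b * s → (∀ j : ℕ, G^[j] z ∈ ball (0 : ℂ) r) ∧
          ∃ x ∈ ball (0 : ℂ) r, G x = x ∧ ‖deriv G x‖ < 1 ∧
            Tendsto (fun j : ℕ => G^[j] z) atTop (𝓝 x) := by
  obtain ⟨n, hnd⟩ : ∃ n : ℕ, n = k + 1 := ⟨_, rfl⟩
  have hn : 2 ≤ n := by omega
  have hn0 : 0 < n := by omega
  obtain ⟨κ, hκp⟩ := IsAlgClosed.exists_pow_nat_eq (-β / al) (by omega : 0 < k + 1)
  have hκ0 : κ ≠ 0 := by
    rintro rfl
    rw [zero_pow (by omega)] at hκp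
    exact (div_ne_zero (neg_ne_zero.mpr hβ) hal) hκp.symm
  have hG := hgen κ hκp
  obtain ⟨γ, hγ⟩ : ∃ γ : ℂ, γ = β / κ := ⟨_, rfl⟩
  rw [← hγ, ← hnd] at hG
  have hκn : 0 < ‖κ‖ := norm_pos_iff.mpr hκ0
  have hγ0 : γ ≠ 0 := by rw [hγ]; exact div_ne_zero hβ hκ0
  have hγn : 0 < ‖γ‖ := norm_pos_iff.mpr hγ0
  have hγκ : γ = -al * κ ^ k := by
    have : β = -al * κ ^ (k + 1) := by rw [hκp]; field_simp
    rw [hγ, this, pow_succ]
    field_simp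
  have hPi := PP_im_pos hn
  obtain ⟨x₁, hx₁, ζ, hζ, g1, g2, g3, g4⟩ := exit1 hn γ 0 (by
      intro ζ _
      rw [zero_mul, Complex.zero_re]
      exact PP_re_nonneg hn) hG.re (by
      intro x hx η hη h0
      apply hG.ver η hη
      rw [← h0, zero_add, map_mul, Complex.conj_ofReal, mul_assoc, mul_comm (x : ℂ), ← mul_assoc,
        mul_comm ((starRingEnd ℂ) γ), Complex.mul_conj, ← Complex.ofReal_mul, Complex.ofReal_im])
    (Or.inr rfl) (Or.inr rfl)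
  have g4' : ∀ x : ℝ, 0 ≤ x → x ≤ x₁ → (0 : ℂ) + γ * x ∉ Ry n := by
    intro x hx0 hx1
    rcases hx0.lt_or_eq with h | h
    · exact g4 x h hx1
    · rw [← h, Complex.ofReal_zero, mul_zero, add_zero]
      rintro ⟨ζ, hζ, -, h2⟩
      rw [zero_mul, Complex.zero_im, abs_zero] at h2
      linarith
  -- the margin at the end
  obtain ⟨μe, hμe, hmar⟩ : ∃ μe : ℝ, 0 < μe ∧ ∀ z : ℂ, ‖z - (0 + γ * x₁)‖ < μe →
      (PP n).re < (z * ζ).re ∧ |(z * ζ).im| < (PP n).im := by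
    have hc1 : Continuous fun z : ℂ => (z * ζ).re := by fun_prop
    have hc2 : Continuous fun z : ℂ => |(z * ζ).im| := by fun_prop
    have ho : IsOpen {z : ℂ | (PP n).re < (z * ζ).re ∧ |(z * ζ).im| < (PP n).im} :=
      (isOpen_lt continuous_const hc1).inter (isOpen_lt hc2 continuous_const)
    obtain ⟨μe, hμe, hb⟩ := Metric.isOpen_iff.1 ho _ ⟨g2, g3⟩
    exact ⟨μe, hμe, fun z hz => hb (by rw [mem_ball, dist_eq_norm]; exact hz)⟩
  -- distance from the rays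
  obtain ⟨K, hK⟩ : ∃ K : Set ℂ, K = (fun x : ℝ => (0 : ℂ) + γ * x) '' Icc 0 x₁ := ⟨_, rfl⟩
  have hKc : IsCompact K := by rw [hK]; exact isCompact_Icc.image (by fun_prop)
  have hdis : Disjoint K (Ry n) := by
    rw [Set.disjoint_left, hK]
    rintro _ ⟨x, hx, rfl⟩
    exact g4' x hx.1 hx.2
  obtain ⟨dd, hdd, hddd⟩ := Metric.exists_pos_forall_lt_edist hKc isClosed_Ry hdis
  have hd' : (0 : ℝ) < dd := by exact_mod_cast hdd
  obtain ⟨η, hη⟩ : ∃ η : ℝ, η = min ((dd : ℝ) / 2) (μe / 4) := ⟨_, rfl⟩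
  have hη0 : 0 < η := by rw [hη]; exact lt_min (by positivity) (by positivity)
  have hηa : η ≤ dd / 2 := by rw [hη]; exact min_le_left _ _
  have hηb : η ≤ μe / 4 := by rw [hη]; exact min_le_right _ _
  obtain ⟨M, e₀, E₀, hM, he₀, hE₀, hglob⟩ := global n hn γ 0 x₁ ζ hζ g1 0 η hx₁.le hη0 (by
      intro z hz
      exact hmar z (by linarith)) (by
      intro x hx0 hx1 z hz hzR
      have h6 := hddd (0 + γ * x) (by rw [hK]; exact ⟨x, ⟨hx0, hx1⟩, rfl⟩) z hzR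
      rw [edist_nndist, ENNReal.coe_lt_coe] at h6
      have h7 : (dd : ℝ) < dist (0 + γ * (x : ℂ)) z := by exact_mod_cast h6
      rw [dist_comm, dist_eq_norm] at h7
      linarith)
  -- the start
  obtain ⟨b₁, hb₁, hbb⟩ : ∃ b₁ : ℝ, 0 < b₁ ∧ ∀ v ∈ ball (0 : ℂ) b₁, v ∈ DD n ∧
      ‖tau n v‖ ≤ η / 2 := by
    have h1 : ∀ᶠ v : ℂ in 𝓝 0, v ∈ DD n := (isOpen_DD n).mem_nhds (zero_mem_DD hn0)
    have h2 : ∀ᶠ v : ℂ in 𝓝 0, ‖tau n v‖ < η / 2 := by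
      have h3 : ContinuousAt (fun v => ‖tau n v‖) 0 := (deriv_tau hn0 (zero_mem_DD hn0)).continuousAt.norm
      refine h3.eventually (gt_mem_nhds ?_)
      simp only [tau_zero, norm_zero]
      positivity
    obtain ⟨b₁, hb₁, hb⟩ := Metric.eventually_nhds_iff_ball.1 (h1.and h2)
    exact ⟨b₁, hb₁, fun v hv => ⟨(hb v hv).1, (hb v hv).2.le⟩⟩
  refine ⟨‖κ‖ * E₀ / 2, by positivity, ?_⟩
  intro ρ hρ
  obtain ⟨r2, hr2d⟩ : ∃ r2 : ℝ, r2 = min (min (ρ / 2) (r / 2)) r1 := ⟨_, rfl⟩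
  have hr2 : 0 < r2 := by rw [hr2d]; exact lt_min (lt_min (by positivity) (by positivity)) hr1
  have hr2ρ : r2 ≤ ρ / 2 := by rw [hr2d]; exact (min_le_left _ _).trans (min_le_left _ _)
  have hr2r : r2 ≤ r / 2 := by rw [hr2d]; exact (min_le_left _ _).trans (min_le_right _ _)
  have hr2r1 : r2 ≤ r1 := by rw [hr2d]; exact min_le_right _ _
  obtain ⟨s₀, hs₀⟩ : ∃ s₀ : ℝ, s₀ = min (min 1 e₀) (min (r2 / (‖κ‖ * M + 1))
    (E₀ / (2 * (CA * ‖κ‖ ^ (k + 1) * M ^ (k + 2) + 1)))) := ⟨_, rfl⟩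
  have hs₀0 : 0 < s₀ := by
    rw [hs₀]
    exact lt_min (lt_min one_pos he₀) (lt_min (by positivity) (by positivity))
  refine ⟨b₁ * ‖κ‖ / 2, s₀, by positivity, hs₀0, ?_⟩
  intro s hs hss G hGd hGb z hz
  have hs2 : s ≤ 1 := (hss.trans_le (by
    rw [hs₀]; exact (min_le_left _ _).trans (min_le_left _ _))).le
  have hs3 : s < e₀ := hss.trans_le (by
    rw [hs₀]; exact (min_le_left _ _).trans (min_le_right _ _))
  have hs4 : s * (‖κ‖ * M) ≤ r2 := by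
    have : s < r2 / (‖κ‖ * M + 1) := hss.trans_le (by
      rw [hs₀]; exact (min_le_right _ _).trans (min_le_left _ _))
    rw [lt_div_iff₀ (by positivity)] at this
    nlinarith
  have hs5 : CA * (s * ‖κ‖ ^ (k + 1)) * M ^ (k + 2) ≤ E₀ / 2 := by
    have : s < E₀ / (2 * (CA * ‖κ‖ ^ (k + 1) * M ^ (k + 2) + 1)) := hss.trans_le (by
      rw [hs₀]; exact (min_le_right _ _).trans (min_le_right _ _))
    rw [lt_div_iff₀ (by positivity)] at this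
    nlinarith
  obtain ⟨e, he⟩ : ∃ e : ℝ, e = s ^ k := ⟨_, rfl⟩
  have he0 : 0 < e := by rw [he]; positivity
  have hee : e < e₀ := by
    refine lt_of_le_of_lt ?_ hs3
    rw [he]
    calc s ^ k ≤ s ^ 1 := pow_le_pow_of_le_one hs.le hs2 hk
      _ = s := pow_one s
  obtain ⟨ς, hς⟩ : ∃ ς : ℂ, ς = (s : ℂ) * κ := ⟨_, rfl⟩
  have hsC : (s : ℂ) ≠ 0 := by exact_mod_cast hs.ne'
  have hς0 : ς ≠ 0 := by rw [hς]; exact mul_ne_zero hsC hκ0
  have hςn : ‖ς‖ = s * ‖κ‖ := by rw [hς, norm_mul, Complex.norm_of_nonneg hs.le]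
  obtain ⟨v, hv⟩ : ∃ v : ℂ, v = z / ς := ⟨_, rfl⟩
  have hvb : v ∈ ball (0 : ℂ) b₁ := by
    rw [mem_ball_zero_iff, hv, norm_div, hςn, div_lt_iff₀ (by positivity)]
    have : 0 < b₁ * ‖κ‖ * s := by positivity
    linarith
  obtain ⟨hvD, hvτ⟩ := hbb v hvb
  -- the rescaled map
  obtain ⟨H, hH⟩ : ∃ H : ℂ → ℂ, H = fun v => G (ς * v) / ς := ⟨_, rfl⟩
  have hςM : ‖ς‖ * M ≤ r2 := by rw [hςn]; linarith
  have hmem : ∀ w ∈ ball (0 : ℂ) M, ‖ς * w‖ ≤ r2 := by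
    intro w hw
    rw [mem_ball_zero_iff] at hw
    rw [norm_mul]
    have := mul_le_mul_of_nonneg_left hw.le (norm_nonneg ς)
    linarith
  have hmem' : ∀ w ∈ ball (0 : ℂ) M, ς * w ∈ ball (0 : ℂ) r := by
    intro w hw
    rw [mem_ball_zero_iff]
    have := hmem w hw
    linarith
  have hHd : DifferentiableOn ℂ H (ball 0 M) := by
    rw [hH]
    exact (hGd.comp (by fun_prop) hmem').div_const ς
  have hHb : ∀ w ∈ ball (0 : ℂ) M, ‖H w - w - e * γ * (1 - w ^ n)‖ ≤ e * E₀ := by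
    intro w hw
    have h5 := hmem w hw
    have h6 := hord (ς * w) (h5.trans hr2r1)
    have h7 := hGb (ς * w) (by linarith)
    have e1 : H w - w - e * γ * (1 - w ^ n) = ((G (ς * w) - F (ς * w) - (s : ℂ) ^ (k + 1) * β) +
        (F (ς * w) - ς * w - al * (ς * w) ^ (k + 1))) / ς := by
      have e2 : (e : ℂ) * γ * w ^ n = -(al * (ς * w) ^ (k + 1)) / ς := by
        rw [he, hγκ, hς, hnd]
        push_cast
        field_simp
        ring
      have e3 : (e : ℂ) * γ = (s : ℂ) ^ (k + 1) * β / ς := by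
        rw [he, hγ, hς]
        push_cast
        field_simp
        ring
      have e4 : (e : ℂ) * γ * (1 - w ^ n) = (e : ℂ) * γ - (e : ℂ) * γ * w ^ n := by ring
      rw [e4, e2, e3, hH]
      field_simp
      ring
    rw [e1, norm_div, hςn, div_le_iff₀ (by positivity)]
    refine (norm_add_le _ _).trans ?_
    have h8 : CA * ‖ς * w‖ ^ (k + 2) ≤ e * (E₀ / 2) * (s * ‖κ‖) := by
      rw [mem_ball_zero_iff] at hw
      rw [norm_mul, mul_pow, hςn, mul_pow]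
      have h9 : ‖w‖ ^ (k + 2) ≤ M ^ (k + 2) := pow_le_pow_left₀ (norm_nonneg _) hw.le _
      have h10 : CA * (s ^ (k + 2) * ‖κ‖ ^ (k + 2) * ‖w‖ ^ (k + 2)) ≤
          CA * (s ^ (k + 2) * ‖κ‖ ^ (k + 2) * M ^ (k + 2)) := by gcongr
      have h11 := mul_le_mul_of_nonneg_right hs5 (by positivity : 0 ≤ s ^ k * (s * ‖κ‖))
      refine h10.trans (le_trans (le_of_eq ?_) (h11.trans (le_of_eq ?_)))
      · ring
      · rw [he]; ring
    have h9 : ‖G (ς * w) - F (ς * w) - (s : ℂ) ^ (k + 1) * β‖ ≤ e * (E₀ / 2) * (s * ‖κ‖) := by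
      refine h7.trans (le_of_eq ?_)
      rw [he]
      ring
    linarith
  obtain ⟨hst, x, hx, hxf, hxd, hxl⟩ := hglob e he0 hee H hHd hHb v hvD 0 le_rfl hx₁.le (by
    rw [Complex.ofReal_zero, mul_zero, add_zero, sub_zero]
    exact hvτ)
  have hit : ∀ i : ℕ, G^[i] z = ς * H^[i] v := by
    intro i
    induction i with
    | zero =>
      rw [Function.iterate_zero, Function.iterate_zero, id, id, hv]
      field_simp
    | succ i ih =>
      rw [Function.iterate_succ_apply', ih, Function.iterate_succ_apply' H i v, hH]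
      field_simp
  refine ⟨?_, ς * x, hmem' x hx, ?_, ?_, ?_⟩
  · intro j
    rw [hit]
    exact hmem' _ (hst _)
  · rw [hH] at hxf
    simp only at hxf
    rw [div_eq_iff hς0] at hxf
    rw [hxf, mul_comm]
  · have h5 : HasDerivAt G (deriv G (ς * x)) (ς * x) :=
      ((hGd _ (hmem' x hx)).differentiableAt (isOpen_ball.mem_nhds (hmem' x hx))).hasDerivAt
    have h6 : HasDerivAt (fun u : ℂ => ς * u) ς x := by
      simpa using (hasDerivAt_id' x).const_mul ς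
    have h7 : HasDerivAt H (deriv G (ς * x) * ς / ς) x := by
      rw [hH]
      exact (h5.comp x h6).div_const ς
    rw [h7.deriv, mul_div_cancel_right₀ _ hς0] at hxd
    exact hxd
  · refine (hxl.const_mul ς).congr fun i => ?_
    rw [hit]

end Run7.h904.SP

open Polynomial MeasureTheory Asymptotics
open scoped OnePoint

namespace Run7.h904.RF

open Pool.Agent.W757.QR Pool.Agent.H790R3.RB Pool.Agent.W29.RQSNK Pool.Agent.W29.RQAPP
open Run7.h904.UQ (ev_small ev_lin)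
open Run7.h904.SP (Gn0 lemC0)

/-- a critical point which is mapped onto a cycle of multiplier one becomes attracted in a generic
direction -/
theorem landB {d : ℕ} (hd : 2 ≤ d) (x V : CV d) (hx : ND x) (c₀ a : ℂ) (M P : ℕ)
    (hP : 0 < P) (hM : 0 < M) (hcr : (wn (nu x) (de x)).eval c₀ = 0)
    (hfc : Fin' x c₀) (hhit : (fx x)^[M] c₀ = a) (ha : Fin' x a) (hfix : (fx x)^[P] a = a)
    (k : ℕ) (al : ℂ) (CA r1 : ℝ) (hk : 1 ≤ k) (hal : al ≠ 0) (hCA : 0 ≤ CA) (hr1 : 0 < r1)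
    (hord : ∀ z : ℂ, ‖z‖ ≤ r1 →
      ‖cen x P a z - z - al * z ^ (k + 1)‖ ≤ CA * ‖z‖ ^ (k + 2))
    (hβ : llR x V a P ≠ 0)
    (hgen : ∀ κ : ℂ, κ ^ (k + 1) = -llR x V a P / al → Gn0 (k + 1) (llR x V a P / κ)) :
    ∃ U ∈ 𝓝 c₀, ∀ᶠ t : ℝ in 𝓝[>] 0,
      ∀ z' ∈ U, (wn (nu (Xt x V t)) (de (Xt x V t))).eval z' = 0 →
        Attd (sp (Xt x V t)) (z' : OnePoint ℂ) := by
  obtain ⟨ρ, K, hρ, hK, hfinρ, hcl⟩ := loc_lip P x a (fun j _ => ha j)
  obtain ⟨ρ₂, hρ₂, hun⟩ := unif2 x P a (fun j _ => ha j)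
  obtain ⟨C, t₂, hC, ht₂, hunV⟩ := hun V
  obtain ⟨N, hN⟩ : ∃ N : ℝ, N = ‖V‖ + 1 := ⟨_, rfl⟩
  have hN0 : 0 < N := by rw [hN]; positivity
  obtain ⟨η₀, hη₀, hmain⟩ := lemC0 (cen x P a) ρ hρ k hk al hal CA r1 hCA hr1 hord
    (llR x V a P) hβ hgen
  obtain ⟨ρ₃, hρ₃⟩ : ∃ ρ₃ : ℝ, ρ₃ = min ρ₂ (η₀ / (2 * C)) := ⟨_, rfl⟩
  have hρ₃0 : 0 < ρ₃ := by rw [hρ₃]; exact lt_min hρ₂ (by positivity)
  have hρ₃a : ρ₃ ≤ ρ₂ := by rw [hρ₃]; exact min_le_left _ _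
  have hρ₃b : C * ρ₃ ≤ η₀ / 2 := by
    have : ρ₃ ≤ η₀ / (2 * C) := by rw [hρ₃]; exact min_le_right _ _
    rw [le_div_iff₀ (by positivity)] at this
    linarith
  obtain ⟨b, s₀, hb, hs₀, hlc⟩ := hmain ρ₃ hρ₃0
  -- the critical orbits
  obtain ⟨l, hl⟩ : ∃ l : Filter (ℝ × ℂ), l = (𝓝[>] (0 : ℝ) ×ˢ 𝓝 c₀) ⊓
    𝓟 {q : ℝ × ℂ | (wn (nu (Xt x V q.1)) (de (Xt x V q.1))).eval q.2 = 0} := ⟨_, rfl⟩
  have hl1 : Tendsto (fun q : ℝ × ℂ => q.1) l (𝓝[>] 0) := by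
    rw [hl]; exact tendsto_fst.mono_left inf_le_left
  have hl2 : Tendsto (fun q : ℝ × ℂ => q.2) l (𝓝 c₀) := by
    rw [hl]; exact tendsto_snd.mono_left inf_le_left
  have hl3 : ∀ᶠ q in l, (wn (nu (Xt x V q.1)) (de (Xt x V q.1))).eval q.2 = 0 := by
    rw [hl]
    exact (eventually_principal.2 fun q hq => hq).filter_mono inf_le_right
  obtain ⟨w, hw⟩ : ∃ w : ℂ, w = llR x V c₀ M := ⟨_, rfl⟩
  have hvt : Tendsto (fun q : ℝ × ℂ => ((fx (Xt x V q.1))^[M] q.2 - a) / (q.1 : ℂ)) l (𝓝 w) := by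
    obtain ⟨M', rfl⟩ : ∃ M', M = M' + 1 := ⟨M - 1, by omega⟩
    have h1 := critG' hd x V hx c₀ hcr hfc hl1 (fun q => q.2) hl2 hl3 M'
    rw [hhit] at h1
    rw [hw]
    exact h1
  have hpos : ∀ᶠ q : ℝ × ℂ in l, 0 < q.1 := hl1.eventually self_mem_nhdsWithin
  have hfinC : ∀ᶠ q : ℝ × ℂ in l, ∀ j < M, (de (Xt x V q.1)).eval
      ((fx (Xt x V q.1))^[j] q.2) ≠ 0 := by
    have h8 := ne_nhds M (x, c₀) (fun j _ => hfc j)
    have h9 : Tendsto (fun q : ℝ × ℂ => ((Xt x V q.1, q.2) : CV d × ℂ)) l (𝓝 (x, c₀)) :=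
      ((Xt_tendsto x V).comp hl1).prodMk_nhds hl2
    exact h9.eventually h8
  have hk10 : (0 : ℝ) < (k : ℝ) + 1 := by positivity
  have hroot : Tendsto (fun t : ℝ => t ^ (1 / ((k : ℝ) + 1))) (𝓝[>] 0) (𝓝[>] 0) := by
    rw [tendsto_nhdsWithin_iff]
    refine ⟨?_, ?_⟩
    · have h1 : ContinuousAt (fun t : ℝ => t ^ (1 / ((k : ℝ) + 1))) 0 :=
        Real.continuousAt_rpow_const _ _ (Or.inr (by positivity))
      have h2 := h1.tendsto
      rw [Real.zero_rpow (by positivity)] at h2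
      exact h2.mono_left nhdsWithin_le_nhds
    · filter_upwards [self_mem_nhdsWithin] with t ht
      have ht' : 0 < t := ht
      exact Real.rpow_pos_of_pos ht' _
  have hsk : ∀ t : ℝ, 0 < t → (t ^ (1 / ((k : ℝ) + 1))) ^ (k + 1) = t := by
    intro t ht
    rw [← Real.rpow_natCast, ← Real.rpow_mul ht.le]
    push_cast
    rw [one_div, inv_mul_cancel₀ hk10.ne', Real.rpow_one]
  have hBn : ∀ᶠ q : ℝ × ℂ in l, ‖(fx (Xt x V q.1))^[M] q.2 - a‖ ≤ (‖w‖ + 1) * q.1 := by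
    filter_upwards [hvt.norm.eventually (ge_mem_nhds (by linarith : ‖w‖ < ‖w‖ + 1)), hpos]
      with q h1 h2
    rwa [norm_div, Complex.norm_of_nonneg h2.le, div_le_iff₀ h2] at h1
  have hs1 : ∀ᶠ s : ℝ in 𝓝[>] 0, s < s₀ ∧ (‖w‖ + 1) * s ^ k ≤ b := by
    have h1 : ∀ᶠ s : ℝ in 𝓝[>] 0, s < s₀ := by
      filter_upwards [Ioo_mem_nhdsGT hs₀] with s hs
      exact hs.2
    exact h1.and (ev_small (‖w‖ + 1) b hb k hk)
  have hfinal : ∀ᶠ q : ℝ × ℂ in l, Attd (sp (Xt x V q.1)) (q.2 : OnePoint ℂ) := by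
    filter_upwards [(hroot.comp hl1).eventually hs1, hBn, hpos, hfinC,
      hl1.eventually (Xt_ND x V hx), hl1.eventually (ev_lin N (ρ / 2) (by positivity)),
      hl1.eventually (ev_lin 1 t₂ ht₂), hl1.eventually (ev_lin C (η₀ / 2) (by positivity))]
      with q h1 h2 h3 h4 h5 h6 h7 h8
    obtain ⟨s, hs⟩ : ∃ s : ℝ, s = q.1 ^ (1 / ((k : ℝ) + 1)) := ⟨_, rfl⟩
    simp only [Function.comp] at h1
    rw [← hs] at h1
    have hs0 : 0 < s := by rw [hs]; positivity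
    have hst : s ^ (k + 1) = q.1 := by rw [hs]; exact hsk _ h3
    rw [one_mul] at h7
    have hXρ : ‖Xt x V q.1 - x‖ < ρ := by
      rw [Xt_sub x V q.1 h3.le]
      rw [hN] at h6
      nlinarith
    have hfr : ∀ v ∈ ball (0 : ℂ) ρ, ∀ j < P,
        (de (Xt x V q.1)).eval ((fx (Xt x V q.1))^[j] (a + v)) ≠ 0 := by
      intro v hv j hj
      refine hfinρ _ hXρ _ ?_ j hj
      rw [mem_ball, dist_eq_norm, add_sub_cancel_left]
      simpa using hv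
    have hclo : ∀ v : ℂ, ‖v‖ < ρ₃ →
        ‖cen (Xt x V q.1) P a v - cen x P a v - (s : ℂ) ^ (k + 1) * llR x V a P‖ ≤
          η₀ * s ^ (k + 1) := by
      intro v hv
      have g1 := hunV q.1 h3.le h7 (a + v) (by
        rw [mem_ball, dist_eq_norm, add_sub_cancel_left]; linarith)
      rw [add_sub_cancel_left] at g1
      have e1 : (s : ℂ) ^ (k + 1) = (q.1 : ℂ) := by rw [← hst]; push_cast; ring
      rw [e1, hst]
      have e2 : cen (Xt x V q.1) P a v - cen x P a v - (q.1 : ℂ) * llR x V a P =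
          (fx (Xt x V q.1))^[P] (a + v) - (fx x)^[P] (a + v) - q.1 * llR x V a P := by
        simp only [cen]; ring
      rw [e2]
      refine g1.trans ?_
      have g2 : C * (q.1 + ‖v‖) ≤ η₀ := by
        have g3 := mul_le_mul_of_nonneg_left hv.le hC.le
        linarith
      have g3 := mul_le_mul_of_nonneg_right g2 h3.le
      linarith
    obtain ⟨hstay, x', hx'b, hx'f, hx'd, hx'l⟩ := hlc s hs0 h1.1 (cen (Xt x V q.1) P a)
      (fun v hv => (cen_diffAt _ _ _ v (hfr v hv)).differentiableWithinAt) hclo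
      ((fx (Xt x V q.1))^[M] q.2 - a) (by
        refine h2.trans ?_
        rw [← hst, pow_succ]
        have := mul_le_mul_of_nonneg_right h1.2 hs0.le
        linarith)
    have h9 := attd_of2 hd h5 hP hfr hx'b hx'f hx'd (z := (fx (Xt x V q.1))^[M] q.2) (N₀ := 0)
      (by intro j hj; omega) (by simpa using hstay) (by simpa using hx'l)
    rw [← sp_iter _ q.2 M h4] at h9
    exact attd_iter (sp_cont hd _ h5) _ h9
  rw [hl, eventually_inf_principal, eventually_prod_iff] at hfinal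
  obtain ⟨pa, hpa, pb, hpb, HH⟩ := hfinal
  refine ⟨{z | pb z}, hpb, ?_⟩
  filter_upwards [hpa] with t ht z' hz' hw'
  exact HH ht hz' hw'

end Run7.h904.RF
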