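import Mathlib
import Pool.Agent.Run7.h904.T4Main
import Pool.Agent.Run7.h904.U7LandB

set_option autoImplicit false

open Topology Filter Metric Set Polynomial MeasureTheory Asymptotics Pointwise
open scoped OnePoint ENNReal

namespace Run7.h904.RF

open Pool.Agent.H790R3.RB (CV hF cr ND wr rt sp pr hc pol Sink Attd HypTop)
open Pool.Agent.W757.QR Pool.Agent.W757.RF Pool.Agent.W757.Q2
open Pool.Agent.W29.RQSNK (sp_iter fin_of sp_fx fx_iter_diff)
open Pool.Agent.W29.RQAPP

/-- A critical point which is mapped onto a parabolic cycle. -/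
structure PreQ {d : ℕ} (x : CV d) (c₀ b : ℂ) (M p q : ℕ) (lam : ℂ) : Prop where
  crit : (wn (nu x) (de x)).eval c₀ = 0
  Mp : 0 < M
  finc : Fin' x c₀
  hit : (fx x)^[M] c₀ = b
  par : ParCR x b p q lam

/-- the order of contact at a parabolic cycle whose multiplier is different from one -/
lemma k_ge2 {d : ℕ} (x : CV d) (p q : ℕ) (a lam : ℂ) (ha : Fin' x a) (hq : 0 < q)
    (hfix : (fx x)^[p] a = a) (hlam : deriv ((fx x)^[p]) a = lam) (hq1 : lam ^ q = 1)
    (hne : lam ≠ 1) (k : ℕ) (A : ℂ) (CA r1 : ℝ) (hk : 1 ≤ k) (hA : A ≠ 0) (hr1 : 0 < r1)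
    (hord : ∀ z : ℂ, ‖z‖ ≤ r1 →
      ‖cen x (p * q) a z - z - A * z ^ (k + 1)‖ ≤ CA * ‖z‖ ^ (k + 2)) : 2 ≤ k := by
  have hlam0 : lam ≠ 0 := by
    rintro rfl
    rw [zero_pow hq.ne'] at hq1
    exact zero_ne_one hq1
  obtain ⟨ρ, K, hρ, hK, hfinρ, -⟩ := loc_lip p x a (fun j _ => ha j)
  have hcd : DifferentiableOn ℂ (cen x p a) (ball 0 ρ) := by
    intro v hv
    refine (cen_diffAt x p a v fun j hj => hfinρ x (by rw [sub_self, norm_zero]; exact hρ) _ ?_ j
      hj).differentiableWithinAt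
    rw [mem_ball, dist_eq_norm, add_sub_cancel_left]
    simpa using hv
  have han : AnalyticAt ℂ (cen x p a) 0 :=
    hcd.analyticAt (ball_mem_nhds 0 hρ)
  have hst : HasStrictDerivAt (cen x p a) lam 0 := by
    have h1 := han.hasStrictDerivAt
    rwa [cen_deriv, hlam] at h1
  have hit : ∀ v, cen x (p * q) a v = (cen x p a)^[q] v := by
    intro v
    rw [cen_iter]
    rfl
  refine two_petals (cen x p a) (cen x (p * q) a) lam A k hk CA r1 hr1 (by simp [cen, hfix]) hst
    hlam0 hne hA (fun v => ?_) hord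
  rw [hit, hit, ← Function.iterate_succ_apply, Function.iterate_succ_apply']

/-- the order of contact of the return map -/
lemma ord_data {d : ℕ} (hd : 2 ≤ d) (x : CV d) (hx : ND x) (P : ℕ) (hP : 0 < P) (a : ℂ)
    (ha : Fin' x a) (hfix : (fx x)^[P] a = a) (hder : deriv ((fx x)^[P]) a = 1) :
    ∃ (k : ℕ) (A : ℂ) (CA r1 : ℝ), 1 ≤ k ∧ A ≠ 0 ∧ 0 ≤ CA ∧ 0 < r1 ∧
      ∀ z : ℂ, ‖z‖ ≤ r1 → ‖cen x P a z - z - A * z ^ (k + 1)‖ ≤ CA * ‖z‖ ^ (k + 2) := by
  obtain ⟨ρ, K, hρ, hK, hfinρ, -⟩ := loc_lip P x a (fun j _ => ha j)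
  have hfr : ∀ v ∈ ball (0 : ℂ) ρ, ∀ j < P, (de x).eval ((fx x)^[j] (a + v)) ≠ 0 := by
    intro v hv j hj
    refine hfinρ x (by rw [sub_self, norm_zero]; exact hρ) _ ?_ j hj
    rw [mem_ball, dist_eq_norm, add_sub_cancel_left]
    simpa using hv
  have hcd : DifferentiableOn ℂ (cen x P a) (ball 0 ρ) := fun v hv =>
    (cen_diffAt x P a v (hfr v hv)).differentiableWithinAt
  have hF0 : cen x P a 0 = 0 := by simp [cen, hfix]
  have hF1 : deriv (cen x P a) 0 = 1 := by rw [cen_deriv, hder]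
  have hid : ∃ v ∈ ball (0 : ℂ) ρ, cen x P a v ≠ v := by
    by_contra hcon
    push Not at hcon
    have hfin := (Pool.Agent.W409.RQAPX.finite_fix x hd hx P hP).countable
    have hsub : (fun v : ℂ => a + v) '' ball (0 : ℂ) ρ ⊆
        {z : ℂ | (sp x)^[P] (z : OnePoint ℂ) = (z : OnePoint ℂ)} := by
      rintro _ ⟨v, hv, rfl⟩
      show (sp x)^[P] ((a + v : ℂ) : OnePoint ℂ) = ((a + v : ℂ) : OnePoint ℂ)
      rw [sp_iter x (a + v) P (hfr v hv)]
      congr 1
      have h1 := hcon v hv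
      unfold cen at h1
      linear_combination h1
    have h1 : (ball (0 : ℂ) ρ).Countable := by
      have h2 := (hfin.mono hsub).preimage (f := fun v : ℂ => a + v) (fun u v h => by
        simpa using h)
      exact h2.mono (subset_preimage_image _ _)
    exact (measure_ball_pos volume (0 : ℂ) hρ).ne' (h1.measure_zero volume)
  obtain ⟨k, al, CA, r1, hk, hal, hCA, hr1, -, hord⟩ :=
    Pool.Agent.H713R5.QJ.PBLAux.ord (cen x P a) ρ hρ hcd hF0 hF1 hid
  exact ⟨k, al, CA, r1, hk, hal, hCA, hr1, hord⟩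

/-- the data of a critical point which is mapped onto a parabolic cycle -/
theorem pre_dataN {ι : Type} [Fintype ι] {d : ℕ} (J : (ι → ℂ) →ₗ[ℂ] CV d) (x : CV d)
    (hcT : ∀ c : ℂ, (wn (nu x) (de x)).eval c = 0 → ∀ m N : ℕ, m < N →
      (fx x)^[N] (fx x c) = (fx x)^[m] (fx x c) →
      (∀ i : ℕ, (de x).eval ((fx x)^[i] (fx x c)) ≠ 0 ∧
        (wn (nu x) (de x)).eval ((fx x)^[i] (fx x c)) ≠ 0) →
      (∀ i < N, 0 < i → (fx x)^[i] (fx x c) ≠ fx x c) →
      ddR x (fx x c) N ≠ ddR x (fx x c) m →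
      ∃ v, llR x (J v) c (N + 1) ≠ llR x (J v) c (m + 1))
    (c₀ : ℂ) (hc : (wn (nu x) (de x)).eval c₀ = 0) (hfin : Fin' x c₀) (M' p' q' : ℕ) (hp' : 0 < p')
    (hq' : 0 < q') (hper : (fx x)^[p'] ((fx x)^[M'] c₀) = (fx x)^[M'] c₀)
    (hrep : ddR x ((fx x)^[M'] c₀) p' ^ q' = 1) :
    ∃ (b : ℂ) (M p q : ℕ) (lam : ℂ), PreQ x c₀ b M p q lam ∧
      (lam ≠ 1 → ∃ v, ffR x (J v) c₀ b M p lam ≠ 0) := by
  classical
  have hfin' : ∀ n, Fin' x ((fx x)^[n] c₀) := by
    intro n j
    rw [← Function.iterate_add_apply]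
    exact hfin _
  have hex : ∃ M, (fx x)^[M] c₀ ∈ Function.periodicPts (fx x) :=
    ⟨M', Function.mk_mem_periodicPts hp' hper⟩
  obtain ⟨M, hM⟩ : ∃ M, M = Nat.find hex := ⟨_, rfl⟩
  have hMs : (fx x)^[M] c₀ ∈ Function.periodicPts (fx x) := by rw [hM]; exact Nat.find_spec hex
  have hMmin : ∀ k, (fx x)^[k] c₀ ∈ Function.periodicPts (fx x) → M ≤ k := by
    intro k hk
    rw [hM]
    exact Nat.find_min' hex hk
  have hMM' : M ≤ M' := hMmin M' (Function.mk_mem_periodicPts hp' hper)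
  obtain ⟨b, hb⟩ : ∃ b, b = (fx x)^[M] c₀ := ⟨_, rfl⟩
  rw [← hb] at hMs
  obtain ⟨p, hp⟩ : ∃ p, p = Function.minimalPeriod (fx x) b := ⟨_, rfl⟩
  have hpp : 0 < p := by rw [hp]; exact Function.minimalPeriod_pos_of_mem_periodicPts hMs
  have hpb : (fx x)^[p] b = b := by rw [hp]; exact Function.iterate_minimalPeriod
  have hb' : (fx x)^[M'] c₀ = (fx x)^[M' - M] b := by
    rw [hb, ← Function.iterate_add_apply]
    congr 1
    omega
  -- the product over the cycle
  have hdvd : p ∣ p' := by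
    have h1 : Function.minimalPeriod (fx x) ((fx x)^[M' - M] b) = p := by
      rw [hp]
      exact Function.minimalPeriod_apply_iterate hMs _
    rw [← h1, ← hb']
    exact Function.IsPeriodicPt.minimalPeriod_dvd hper
  have hpb' : (fx x)^[p'] b = b := by
    obtain ⟨q, rfl⟩ := hdvd
    rw [Function.iterate_mul]
    exact Function.iterate_fixed hpb q
  have hne0 : ∀ i, d1 (nu x) (de x) ((fx x)^[i] b) ≠ 0 := by
    intro i h0
    -- the point is in the cycle of `b'`
    have h1 : ddR x ((fx x)^[M'] c₀) p' = 0 := by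
      unfold ddR
      -- choose the index
      obtain ⟨j, hj, hji⟩ : ∃ j < p', (fx x)^[j] ((fx x)^[M'] c₀) = (fx x)^[i] b := by
        obtain ⟨s, hs⟩ : ∃ s, s = i + p' * (M' - M) - (M' - M) := ⟨_, rfl⟩
        refine ⟨s % p', Nat.mod_lt _ hp', ?_⟩
        have h2 : (fx x)^[s] ((fx x)^[M'] c₀) = (fx x)^[i] b := by
          rw [hb', ← Function.iterate_add_apply]
          have h3 : M' - M ≤ p' * (M' - M) := Nat.le_mul_of_pos_left _ hp'
          have h4 : s + (M' - M) = i + p' * (M' - M) := by omega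
          rw [h4, Function.iterate_add_apply, Function.iterate_mul,
            Function.iterate_fixed hpb']
        rw [← h2]
        conv_rhs => rw [← Nat.mod_add_div s p', Function.iterate_add_apply, Function.iterate_mul,
            Function.iterate_fixed hper]
      refine Finset.prod_eq_zero (Finset.mem_range.2 hj) ?_
      rw [hji, h0]
    rw [h1, zero_pow hq'.ne'] at hrep
    exact zero_ne_one hrep
  have hDb : ∀ n, ddR x b n ≠ 0 := by
    intro n
    unfold ddR
    rw [Finset.prod_ne_zero_iff]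
    exact fun i _ => hne0 i
  obtain ⟨lam, hlam⟩ : ∃ lam, lam = ddR x b p := ⟨_, rfl⟩
  obtain ⟨q, hq0, hlam1⟩ : ∃ q : ℕ, 0 < q ∧ lam ^ q = 1 := by
    have h1 : ddR x b p' = ddR x ((fx x)^[M'] c₀) p' := by
      have h2 := ddR_add x b (M' - M) p'
      have h3 := ddR_add x b p' (M' - M)
      rw [hpb', add_comm p', h2, ← hb', mul_comm] at h3
      exact (mul_right_cancel₀ (hDb _) h3).symm
    obtain ⟨q, hq⟩ := hdvd
    have h2 : ∀ q : ℕ, ddR x b (p * q) = lam ^ q := by
      intro q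
      induction q with
      | zero => simp [ddR]
      | succ q ih =>
        rw [Nat.mul_succ, ddR_add, ih, Function.iterate_mul, Function.iterate_fixed hpb, ← hlam,
          pow_succ]
    rw [← h1, hq, h2, ← pow_mul] at hrep
    refine ⟨q * q', ?_, hrep⟩
    rcases Nat.eq_zero_or_pos q with h0 | h0
    · rw [h0, mul_zero] at hq
      omega
    · exact Nat.mul_pos h0 hq'
  -- `M` is positive
  have hM0 : 0 < M := by
    rcases Nat.eq_zero_or_pos M with h0 | h0
    · exfalso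
      rw [h0] at hb
      apply hne0 0
      rw [hb]
      show (wn (nu x) (de x)).eval c₀ / _ = 0
      rw [hc, zero_div]
    · exact h0
  have hfb : Fin' x b := by rw [hb]; exact hfin' M
  have hder : deriv ((fx x)^[p]) b = lam := by
    rw [hlam]
    exact (derR x b p fun j _ => hfb j).deriv
  refine ⟨b, M, p, q, lam, ⟨hc, hM0, hfin, hb.symm, ⟨hpp, hq0, hfb, hp.symm, hder, hlam1⟩⟩,
    fun hl1 => ?_⟩
  -- the last critical time
  obtain ⟨k, hk⟩ : ∃ k, k = Nat.findGreatest (fun j => (wn (nu x) (de x)).eval ((fx x)^[j] c₀) = 0) M :=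
    ⟨_, rfl⟩
  have hkc : (wn (nu x) (de x)).eval ((fx x)^[k] c₀) = 0 := by
    rw [hk]
    exact Nat.findGreatest_spec (P := fun j => (wn (nu x) (de x)).eval ((fx x)^[j] c₀) = 0)
      (Nat.zero_le M) (by simpa using hc)
  have hwb : ∀ i, (wn (nu x) (de x)).eval ((fx x)^[i] b) ≠ 0 := by
    intro i h0
    apply hne0 i
    show (wn (nu x) (de x)).eval ((fx x)^[i] b) / _ = 0
    rw [h0, zero_div]
  have hkM : k < M := by
    have h1 : k ≤ M := by rw [hk]; exact Nat.findGreatest_le M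
    rcases h1.lt_or_eq with h | h
    · exact h
    · exfalso
      rw [h, ← hb] at hkc
      exact hwb 0 hkc
  have hafter : ∀ j, k < j → (wn (nu x) (de x)).eval ((fx x)^[j] c₀) ≠ 0 := by
    intro j hj
    rcases Nat.lt_or_ge M j with h | h
    · have e : (fx x)^[j] c₀ = (fx x)^[j - M] b := by
        rw [hb, ← Function.iterate_add_apply]
        congr 1
        omega
      rw [e]
      exact hwb _
    · rw [hk] at hj
      exact Nat.findGreatest_is_greatest hj h
  obtain ⟨c, hcc⟩ : ∃ c, c = (fx x)^[k] c₀ := ⟨_, rfl⟩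
  rw [← hcc] at hkc
  have hv : ∀ i, (fx x)^[i] (fx x c) = (fx x)^[k + 1 + i] c₀ := by
    intro i
    rw [hcc, ← Function.iterate_succ_apply' (fx x) k c₀, ← Function.iterate_add_apply]
    congr 1
    omega
  obtain ⟨m, hm⟩ : ∃ m, m = M - (k + 1) := ⟨_, rfl⟩
  have hMk : k + 1 + m = M := by omega
  have hvm : (fx x)^[m] (fx x c) = b := by rw [hv, hMk, hb]
  have hvN : (fx x)^[m + p] (fx x c) = b := by
    rw [add_comm, Function.iterate_add_apply, hvm, hpb]
  have hdv : ddR x (fx x c) m ≠ 0 := by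
    unfold ddR
    rw [Finset.prod_ne_zero_iff]
    intro i _
    rw [hv]
    exact div_ne_zero (hafter _ (by omega)) (pow_ne_zero _ (hfin _))
  obtain ⟨v₀, hV⟩ := hcT c hkc m (m + p) (by omega) (by rw [hvm, hvN]) (by
    intro i
    rw [hv]
    exact ⟨hfin _, hafter _ (by omega)⟩) (by
    intro i hi hi0 h0
    have hvp : fx x c ∈ Function.periodicPts (fx x) := Function.mk_mem_periodicPts hi0 h0
    have e1 := hv 0
    rw [Function.iterate_zero_apply] at e1
    rw [e1] at hvp
    have h1 := hMmin _ hvp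
    have hm0 : m = 0 := by omega
    rw [hm0, Function.iterate_zero_apply] at hvm
    rw [hvm] at h0
    rw [hm0, zero_add] at hi
    have h2 : p ≤ i := by
      rw [hp]
      exact Function.IsPeriodicPt.minimalPeriod_le hi0 h0
    omega) (by
    rw [ddR_add, hvm, ← hlam]
    intro h0
    have h1 : ddR x (fx x c) m * (lam - 1) = 0 := by linear_combination h0
    have h2 := (mul_eq_zero.1 h1).resolve_left hdv
    exact hl1 (by linear_combination h2))
  refine ⟨v₀, ?_⟩
  generalize J v₀ = V at hV ⊢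
  -- history is forgotten
  have hd1c : d1 (nu x) (de x) c = 0 := by
    show (wn (nu x) (de x)).eval c / _ = 0
    rw [hkc, zero_div]
  have hhist : ∀ j, llR x V c₀ (k + 1 + j) = llR x V c (1 + j) := by
    intro j
    have e1 : (fx x)^[k + 1] c₀ = fx x c := by rw [hcc, Function.iterate_succ_apply']
    have e2 : (fx x)^[1] c = fx x c := rfl
    have e3 : llR x V c₀ (k + 1) = llR x V c 1 := by
      simp only [llR]
      rw [← hcc, hd1c]
      simp
    rw [llR_add x V c₀ (k + 1) j, llR_add x V c 1 j, e1, e2, e3]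
  have h1 : llR x V c₀ M = llR x V c (m + 1) := by rw [← hMk, hhist, add_comm]
  have h2 : llR x V c₀ (M + p) = llR x V c (m + p + 1) := by
    rw [← hMk, add_assoc, hhist, add_comm]
  have h3 : llR x V c₀ (M + p) = lam * llR x V c₀ M + llR x V b p := by
    rw [llR_add, ← hb, ← hlam]
  intro h0
  apply hV
  rw [← h1, ← h2, h3]
  unfold ffR at h0
  have hlam0 : (1 : ℂ) - lam ≠ 0 := by
    intro h4
    exact hl1 (by linear_combination -h4)
  have h4 : llR x V b p = (1 - lam) * llR x V c₀ M := by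
    have h5 : llR x V b p / (1 - lam) = llR x V c₀ M := (sub_eq_zero.1 h0).symm
    rw [div_eq_iff hlam0] at h5
    rw [h5]; ring
  rw [h4]
  ring

end Run7.h904.RF
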