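import Mathlib
import Pool.Agent.Run7.h904.U9Pre

set_option autoImplicit false

open Topology Filter Metric Set Polynomial MeasureTheory Asymptotics Pointwise
open scoped OnePoint

namespace Run7.h904.RF

open Pool.Agent.H790R3.RB (CV hF cr ND wr rt sp pr hc pol Sink Attd HypTop)
open Pool.Agent.W757.QR Pool.Agent.W757.RF Pool.Agent.W757.Q2
open Pool.Agent.W29.RQSNK (sp_iter fin_of sp_fx fx_iter_diff)
open Pool.Agent.W29.RQAPP
open Run7.h904.SP (Gn0)

/-- `z` is mapped onto a parabolic cycle -/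
def PreN (f : OnePoint ℂ → OnePoint ℂ) (z : OnePoint ℂ) : Prop :=
  ∃ M p q : ℕ, ParS f p q (f^[M] z)

lemma gn0_of (k : ℕ) (al β : ℂ) (hal : al ≠ 0) (hβ : β ≠ 0)
    (hB : (Complex.I ^ (k + 1) * al * β ^ k).im ≠ 0)
    (hC : ∀ η ∈ Run7.h904.SP.mu (k + 1),
      (((starRingEnd ℂ) (Run7.h904.SP.PP (k + 1) * η)) ^ (k + 1) * al * β ^ k).im ≠ 0) (κ : ℂ)
    (hκ : κ ^ (k + 1) = -β / al) : Gn0 (k + 1) (β / κ) := by
  have hκ0 : κ ≠ 0 := by
    rintro rfl
    rw [zero_pow (by omega)] at hκ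
    exact (div_ne_zero (neg_ne_zero.mpr hβ) hal) hκ.symm
  obtain ⟨γ, hγ⟩ : ∃ γ : ℂ, γ = β / κ := ⟨_, rfl⟩
  have hγn : γ ^ (k + 1) = -(al * β ^ k) := by
    rw [hγ, div_pow, hκ, pow_succ]
    field_simp
  rw [← hγ]
  refine ⟨?_, ?_⟩
  · intro ζ hζ h0
    rw [Run7.h904.SP.mem_mu (by omega)] at hζ
    apply hB
    have h1 : (Complex.I * (γ * ζ)).im = 0 := by simpa using h0
    have h2 := im_pow_zero h1 (k + 1)
    rw [mul_pow, mul_pow, hζ, hγn, mul_one] at h2
    have e : Complex.I ^ (k + 1) * al * β ^ k = -(Complex.I ^ (k + 1) * -(al * β ^ k)) := by ring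
    rw [e, Complex.neg_im, h2, neg_zero]
  · intro η hη h0
    apply hC η hη
    have h2 := im_pow_zero h0 (k + 1)
    rw [mul_pow, hγn] at h2
    rw [mul_assoc]
    rw [mul_neg, Complex.neg_im, neg_eq_zero] at h2
    exact h2

/-- points which become attracted outside small sets of perturbations -/
def Qz {ι : Type} [Fintype ι] {d : ℕ} (J : (ι → ℂ) →ₗ[ℂ] CV d) (x : CV d) (z : OnePoint ℂ) : Prop :=
  ∃ K Θ : (ι → ℂ) → ℝ, Measurable K ∧ Measurable Θ ∧
    (∀ u : ℝ, 0 < u → ∀ v, K (u • v) = K v ∧ Θ (u • v) = Θ v + K v * Real.log u) ∧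
    ∀ᵐ v : ι → ℂ, ∀ δ : ℝ, 0 < δ → ∃ U ∈ 𝓝 z, ∀ᶠ t : ℝ in 𝓝[>] 0,
      (K v ≠ 0 → ∀ m : ℤ, δ ≤ |Θ v + K v * Real.log t - 2 * Real.pi * m|) →
      ∀ z' ∈ U, z' ∈ Crt (Xt x (J v) t) → Attd (sp (Xt x (J v) t)) z'

lemma qz_triv {ι : Type} [Fintype ι] {d : ℕ} (J : (ι → ℂ) →ₗ[ℂ] CV d) (x : CV d) (z : OnePoint ℂ)
    (h : ∀ᵐ v : ι → ℂ, ∃ U ∈ 𝓝 z, ∀ᶠ t : ℝ in 𝓝[>] 0,
      ∀ z' ∈ U, z' ∈ Crt (Xt x (J v) t) → Attd (sp (Xt x (J v) t)) z') : Qz J x z := by
  refine ⟨fun _ => 0, fun _ => 0, measurable_const, measurable_const, fun u _ v => ⟨rfl, by simp⟩, ?_⟩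
  filter_upwards [h] with v hv δ _
  obtain ⟨U, hU, hev⟩ := hv
  exact ⟨U, hU, hev.mono fun t ht _ => ht⟩

lemma qz_gs {ι : Type} [Fintype ι] {d : ℕ} (J : (ι → ℂ) →ₗ[ℂ] CV d) (x : CV d) (z : OnePoint ℂ)
    (h : ∀ᵐ v : ι → ℂ, GS x (J v) z) : Qz J x z := by
  refine qz_triv J x z ?_
  filter_upwards [h] with v hv
  obtain ⟨U, hU, hev⟩ := hv
  exact ⟨U, hU, hev.mono fun t ht z' hz' _ => ht z' hz'⟩

/-- critical points which are mapped onto parabolic cycles -/
theorem qz_land {ι : Type} [Fintype ι] {d : ℕ} (J : (ι → ℂ) →ₗ[ℂ] CV d) (hd : 2 ≤ d) (x : CV d)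
    (hx : ND x) (c₀ b lam : ℂ) (M p q : ℕ) (h : PreQ x c₀ b M p q lam)
    (hA : lam ≠ 1 → ∃ v, kapR x (J v) b p lam ≠ 0) (hB : lam = 1 → ∃ v, llR x (J v) b p ≠ 0)
    (hff : lam ≠ 1 → ∃ v, ffR x (J v) c₀ b M p lam ≠ 0) : Qz J x (c₀ : OnePoint ℂ) := by
  have hp0 : 0 < p := h.par.pp
  have hfb : (fx x)^[p] b = b := by
    rw [← h.par.per]; exact Function.iterate_minimalPeriod
  have hcoe : ∀ U ∈ 𝓝 c₀, (fun u : ℂ => (u : OnePoint ℂ)) '' U ∈ 𝓝 (c₀ : OnePoint ℂ) := fun U hU =>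
    OnePoint.isOpenEmbedding_coe.isOpenMap.image_mem_nhds hU
  by_cases hl : lam = 1
  · -- multiplier one
    have hl1 : deriv ((fx x)^[p]) b = 1 := by rw [h.par.der, hl]
    obtain ⟨k, al, CA, r1, hk, hal, hCA, hr1, hord⟩ := ord_data hd x hx p hp0 b h.par.fin hfb hl1
    obtain ⟨V0, hV0⟩ := hB hl
    have hlin : ∀ (c : ℂ) (V W : CV d), llR x (c • V + W) b p =
        c * llR x V b p + llR x W b p := by
      intro c V W
      rw [llR_lin]
    obtain ⟨L, hL⟩ : ∃ L : (ι → ℂ) →ₗ[ℂ] ℂ, ∀ v, L v = llR x (J v) b p :=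
      ⟨(linOf (fun V => llR x V b p) hlin).comp J, fun v => linOf_apply _ hlin (J v)⟩
    have hL0 : L ≠ 0 := by
      intro h0
      apply hV0
      rw [← hL, h0]; rfl
    have hP0 : Run7.h904.SP.PP (k + 1) ≠ 0 := by
      intro h0
      have := Run7.h904.SP.PP_im_pos (n := k + 1) (by omega)
      rw [h0, Complex.zero_im] at this
      exact lt_irrefl _ this
    have hC : ∀ᵐ V : ι → ℂ, ∀ η ∈ Run7.h904.SP.mu (k + 1),
        (((starRingEnd ℂ) (Run7.h904.SP.PP (k + 1) * η)) ^ (k + 1) * al * (L V) ^ k).im ≠ 0 := by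
      refine (Finset.eventually_all _).mpr fun η hη => ?_
      have hη0 : η ≠ 0 := by
        rintro rfl
        rw [Run7.h904.SP.mem_mu (by omega), zero_pow (by omega)] at hη
        exact zero_ne_one hη
      have hc : ((starRingEnd ℂ) (Run7.h904.SP.PP (k + 1) * η)) ^ (k + 1) * al ≠ 0 := by
        refine mul_ne_zero (pow_ne_zero _ ?_) hal
        rw [Ne, map_eq_zero]
        exact mul_ne_zero hP0 hη0
      exact ae_pow L hL0 _ hc k hk
    refine qz_triv J x _ ?_
    filter_upwards [ae_pow L hL0 (Complex.I ^ (k + 1) * al)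
      (mul_ne_zero (pow_ne_zero _ Complex.I_ne_zero) hal) k hk, hC] with V hVB hVC
    rw [hL] at hVB
    have hVC' : ∀ η ∈ Run7.h904.SP.mu (k + 1),
        (((starRingEnd ℂ) (Run7.h904.SP.PP (k + 1) * η)) ^ (k + 1) * al *
          (llR x (J V) b p) ^ k).im ≠ 0 := by
      intro η h1
      have := hVC η h1
      rwa [hL] at this
    have hβ : llR x (J V) b p ≠ 0 := by
      intro h0
      rw [h0, zero_pow (by omega), mul_zero] at hVB
      exact hVB rfl
    obtain ⟨U, hU, hev⟩ := landB hd x (J V) hx c₀ b M p hp0 h.Mp h.crit h.finc h.hit h.par.fin hfb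
      k al CA r1 hk hal hCA hr1 hord hβ (gn0_of k al _ hal hβ hVB hVC')
    refine ⟨_, hcoe U hU, ?_⟩
    filter_upwards [hev] with t ht z' hz' hcr
    obtain ⟨u, hu, rfl⟩ := hz'
    exact ht u hu (crt_wn hd _ u hcr)
  · -- multiplier different from one
    have hdp : HasDerivAt ((fx x)^[p]) lam b := by
      rw [← h.par.der]
      exact (fx_iter_diff x b p (fun j _ => h.par.fin j)).hasDerivAt
    have hmulP : deriv ((fx x)^[p * q]) b = 1 := by
      have h2 := HasDerivAt.iterate _ hdp hfb q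
      rw [Function.iterate_mul, h2.deriv, h.par.lamq]
    have hfixP : (fx x)^[p * q] b = b := by
      rw [Function.iterate_mul]
      exact Function.iterate_fixed hfb q
    obtain ⟨k, A, CA, r1, hk, hA0, hCA, hr1, hord⟩ := ord_data hd x hx (p * q)
      (Nat.mul_pos hp0 h.par.qp) b h.par.fin hfixP hmulP
    have hk2 := k_ge2 x p q b lam h.par.fin h.par.qp hfb h.par.der h.par.lamq hl k A CA r1 hk hA0 hr1
      hord
    have hq' : (q : ℝ) ≠ 0 := by exact_mod_cast h.par.qp.ne'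
    obtain ⟨V0, hV0⟩ := hA hl
    have hlin : ∀ (c : ℂ) (V W : CV d), kapR x (c • V + W) b p lam =
        c * (kapR x V b p lam) + kapR x W b p lam := fun c V W => kapR_lin x c V W b p lam
    obtain ⟨L, hL⟩ : ∃ L : (ι → ℂ) →ₗ[ℂ] ℂ, ∀ v, L v = kapR x (J v) b p lam :=
      ⟨(linOf (fun V => kapR x V b p lam) hlin).comp J, fun v => linOf_apply _ hlin (J v)⟩
    have hL0 : L ≠ 0 := by
      intro h0
      apply hV0
      rw [← hL, h0]; rfl
    obtain ⟨V1, hV1⟩ := hff hl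
    have hlin2 : ∀ (c : ℂ) (V W : CV d), ffR x (c • V + W) c₀ b M p lam =
        c * (ffR x V c₀ b M p lam) + ffR x W c₀ b M p lam := fun c V W => ffR_lin x c V W _ _ _ _ _
    obtain ⟨W, hW⟩ : ∃ W : (ι → ℂ) →ₗ[ℂ] ℂ, ∀ v, W v = ffR x (J v) c₀ b M p lam :=
      ⟨(linOf (fun V => ffR x V c₀ b M p lam) hlin2).comp J, fun v => linOf_apply _ hlin2 (J v)⟩
    have hW0 : W ≠ 0 := by
      intro h0
      apply hV1
      rw [← hW, h0]; rfl
    obtain ⟨c, hc⟩ : ∃ c : (ι → ℂ) → ℂ, c = fun v => (q : ℂ) * L v := ⟨_, rfl⟩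
    obtain ⟨χ, hχ⟩ : ∃ χ : (ι → ℂ) → ℂ, χ = fun v => c v / (A * W v ^ k) := ⟨_, rfl⟩
    have hLm : Measurable L := L.continuous_of_finiteDimensional.measurable
    have hWm : Measurable W := W.continuous_of_finiteDimensional.measurable
    have hcm : Measurable c := by rw [hc]; exact hLm.const_mul _
    have hχm : Measurable χ := by
      rw [hχ]
      exact hcm.div ((hWm.pow_const k).const_mul A)
    have hratio : Measurable fun v => (c v).im / (c v).re :=
      (Complex.measurable_im.comp hcm).div (Complex.measurable_re.comp hcm)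
    classical
    refine ⟨fun v => if χ v = 0 then 0 else (k - 1) * ((c v).im / (c v).re),
      fun v => (χ v).arg - (c v).im / (c v).re * Real.log ‖χ v‖, ?_, ?_, ?_, ?_⟩
    · exact Measurable.ite (hχm (measurableSet_singleton 0)) measurable_const (hratio.const_mul _)
    · exact (Complex.measurable_arg.comp hχm).sub
        (hratio.mul (Real.measurable_log.comp hχm.norm))
    · intro u hu v
      have hsm : ∀ Φ : (ι → ℂ) →ₗ[ℂ] ℂ, Φ (u • v) = (u : ℂ) * Φ v := by
        intro Φ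
        have := (Φ.restrictScalars ℝ).map_smul u v
        simpa using this
      have hcu : c (u • v) = (u : ℂ) * c v := by
        rw [hc]
        simp only
        rw [hsm]
        ring
      have hrat : (c (u • v)).im / (c (u • v)).re = (c v).im / (c v).re := by
        rw [hcu, Complex.re_ofReal_mul, Complex.im_ofReal_mul, mul_div_mul_left _ _ hu.ne']
      have hχu : χ (u • v) = ((u / u ^ k : ℝ) : ℂ) * χ v := by
        rw [hχ]
        simp only
        rw [hcu, hsm W, mul_pow]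
        push_cast
        rw [div_mul_div_comm]
        congr 1
        ring
      have hρ : 0 < u / u ^ k := by positivity
      have hχ0 : χ (u • v) = 0 ↔ χ v = 0 := by
        rw [hχu, mul_eq_zero, or_iff_right]
        exact_mod_cast hρ.ne'
      simp only [hrat]
      constructor
      · simp only [hχ0]
      · by_cases h0 : χ v = 0
        · have h0' : χ (u • v) = 0 := hχ0.2 h0
          rw [if_pos h0, h0, h0']
          simp
        · rw [if_neg h0]
          rw [hχu, Complex.arg_real_mul _ hρ, norm_mul, Complex.norm_of_nonneg hρ.le,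
            Real.log_mul hρ.ne' (norm_ne_zero_iff.2 h0), Real.log_div hu.ne' (pow_ne_zero _ hu.ne'),
            Real.log_pow]
          ring
    · have h2 : (-Complex.I) • L ≠ 0 := smul_ne_zero (neg_ne_zero.mpr Complex.I_ne_zero) hL0
      filter_upwards [ae_re_neR L hL0, ae_re_neR _ h2, ae_re_neR W hW0] with v hv1 hv2 hv3 δ hδ
      have hre : (kapR x (J v) b p lam).re ≠ 0 := by rw [← hL]; exact hv1
      have hW1 : W v ≠ 0 := by
        intro h0
        rw [h0] at hv3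
        exact hv3 rfl
      have hw : ffR x (J v) c₀ b M p lam ≠ 0 := by rw [← hW]; exact hW1
      obtain ⟨U, hU, hev⟩ := landA hd x (J v) hx c₀ b lam M p q hp0 h.par.qp h.Mp h.crit h.finc h.hit
        h.par.fin hfb h.par.der h.par.lamq hl k A CA r1 hk hA0 hCA hr1 hord hre hw (c v)
        (by rw [hc]; simp only; rw [hL]) δ hδ
      refine ⟨_, hcoe U hU, ?_⟩
      have him : (c v).im ≠ 0 := by
        rw [hc]
        simp only
        have e : ((-Complex.I) • L) v = -Complex.I * L v := by rw [LinearMap.smul_apply, smul_eq_mul]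
        rw [e] at hv2
        have e2 : (-Complex.I * L v).re = (L v).im := by simp
        rw [e2] at hv2
        have e3 : ((q : ℂ) * L v).im = q * (L v).im := by simp
        rw [e3]
        exact mul_ne_zero hq' hv2
      have hrec : (c v).re ≠ 0 := by
        rw [hc]
        simp only
        have e3 : ((q : ℂ) * L v).re = q * (L v).re := by simp
        rw [e3]
        exact mul_ne_zero hq' hv1
      have hcv : c v ≠ 0 := by
        intro h0
        rw [h0] at him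
        exact him rfl
      have hχv : χ v ≠ 0 := by
        rw [hχ]
        exact div_ne_zero hcv (mul_ne_zero hA0 (pow_ne_zero _ hW1))
      have hk1 : (0 : ℝ) < k - 1 := by
        have : (2 : ℝ) ≤ k := by exact_mod_cast hk2
        linarith
      filter_upwards [hev] with t ht hcond z' hz' hcr
      obtain ⟨u, hu, rfl⟩ := hz'
      refine ht ?_ u hu (crt_wn hd _ u hcr)
      intro m
      simp only [if_neg hχv] at hcond
      have h5 := hcond (mul_ne_zero hk1.ne' (div_ne_zero him hrec)) m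
      rw [hχ] at h5
      simp only at h5
      rw [hW] at h5
      exact h5

/-- maps near `x` along a filter are hyperbolic if the critical points near those of `x` are
attracted -/
lemma filt_hyR {d : ℕ} (hd : 2 ≤ d) (x : CV d) (hx : ND x) (l : Filter ℕ) (y : ℕ → CV d)
    (hy : Tendsto y l (𝓝 x))
    (h : ∀ z ∈ Crt x, ∃ O ∈ 𝓝 z, ∀ᶠ j in l, ∀ z' ∈ O, z' ∈ Crt (y j) → Attd (sp (y j)) z') :
    ∀ᶠ j in l, HyR (y j) := by
  have h1 : ∀ z : OnePoint ℂ, ∃ (U : Set (OnePoint ℂ)), z ∈ Crt x →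
      IsOpen U ∧ z ∈ U ∧ ∀ᶠ j in l, ∀ z' ∈ U, z' ∈ Crt (y j) → Attd (sp (y j)) z' := by
    intro z
    by_cases hz : z ∈ Crt x
    · obtain ⟨U, hU, H⟩ := h z hz
      obtain ⟨U', hU', hU'o, hzU'⟩ := mem_nhds_iff.mp hU
      exact ⟨U', fun _ => ⟨hU'o, hzU', H.mono fun t ht z' hz' => ht z' (hU' hz')⟩⟩
    · exact ⟨∅, fun h => absurd h hz⟩
  choose U hU using h1
  have hO : IsOpen (⋃ z ∈ Crt x, U z) := isOpen_biUnion fun z hz => (hU z hz).1
  have hsub : Crt x ⊆ ⋃ z ∈ Crt x, U z := fun z hz => mem_biUnion hz (hU z hz).2.1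
  have h2 : ∀ᶠ j in l, ∀ z ∈ Crt x, ∀ z' ∈ U z, z' ∈ Crt (y j) → Attd (sp (y j)) z' := by
    rw [(crt_finite hd x hx).eventually_all]
    intro z hz
    exact (hU z hz).2.2
  filter_upwards [hy.eventually (crt_near hd x _ hO hx hsub), h2,
    hy.eventually (Pool.Agent.H790R3.RB.FAM.ND_open hx)] with j h3 h4 h5
  refine ⟨h5, fun z' hz' => ?_⟩
  obtain ⟨z, hz, hzz⟩ := mem_iUnion₂.mp (h3 hz')
  exact h4 z hz z' hzz hz'

end Run7.h904.RF
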