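import Mathlib
import Pool.Agent.Run7.h904.U10Seq

set_option autoImplicit false

open Topology Filter Metric Set Polynomial MeasureTheory Asymptotics Pointwise
open scoped OnePoint

namespace Run7.h904.RF

open Pool.Agent.H790R3.RB (CV hF cr ND wr rt sp pr hc pol Sink Attd HypTop)
open Pool.Agent.W757.QR Pool.Agent.W757.RF Pool.Agent.W757.Q2
open Pool.Agent.W29.RQSNK (sp_iter fin_of sp_fx)

/-- the sequential statement in generic coordinates -/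
theorem seq_hypN {ι : Type} [Fintype ι] {d : ℕ} (J : (ι → ℂ) →ₗ[ℂ] CV d) (hd : 2 ≤ d) (x : CV d)
    (hx : ND x)
    (hpinf : ∀ (a : OnePoint ℂ) (p q : ℕ), ParS (sp x) p q a → ∀ n : ℕ, (sp x)^[n] a ≠ ∞)
    (hAB : ∀ (a lam : ℂ) (p q : ℕ), ParCR x a p q lam →
      (lam ≠ 1 → ∃ v, kapR x (J v) a p lam ≠ 0) ∧ (lam = 1 → ∃ v, llR x (J v) a p ≠ 0))
    (hC : ∀ c₀ : ℂ, (wn (nu x) (de x)).eval c₀ = 0 → Fin' x c₀ → ∀ (M' p' : ℕ), 0 < p' →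
      (fx x)^[p'] ((fx x)^[M'] c₀) = (fx x)^[M'] c₀ → 1 < ‖ddR x ((fx x)^[M'] c₀) p'‖ →
      ∃ (b : ℂ) (M p : ℕ) (lam : ℂ), PreR x c₀ b M p lam ∧ ∃ v, ffR x (J v) c₀ b M p lam ≠ 0)
    (hN' : ∀ c₀ : ℂ, (wn (nu x) (de x)).eval c₀ = 0 → Fin' x c₀ → ∀ (M' p' q' : ℕ), 0 < p' →
      0 < q' → (fx x)^[p'] ((fx x)^[M'] c₀) = (fx x)^[M'] c₀ →
      ddR x ((fx x)^[M'] c₀) p' ^ q' = 1 →
      ∃ (b : ℂ) (M p q : ℕ) (lam : ℂ), PreQ x c₀ b M p q lam ∧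
        (lam ≠ 1 → ∃ v, ffR x (J v) c₀ b M p lam ≠ 0))
    (hcrit : ∀ z ∈ Crt x, Attd (sp x) z ∨
      ((∀ n : ℕ, (sp x)^[n] z ≠ ∞) ∧ (Gd x z ∨ PreP (sp x) z ∨ PreN (sp x) z)))
    (hJ : ∀ᵐ z : ℂ, GdE x (z : OnePoint ℂ)) :
    ∃ K Θ : OnePoint ℂ → (ι → ℂ) → ℝ, (∀ z, Measurable (K z)) ∧ (∀ z, Measurable (Θ z)) ∧
      (∀ (z : OnePoint ℂ) (u : ℝ), 0 < u → ∀ v, K z (u • v) = K z v ∧
        Θ z (u • v) = Θ z v + K z v * Real.log u) ∧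
      ∀ (R : ℝ) (r : ℕ → ℝ), Tendsto r atTop (𝓝[>] 0) →
        ∃ s : ℕ → ℕ, StrictMono s ∧ ∀ᵐ v : ι → ℂ, ‖v‖ ≤ R → ∀ n : ℕ, ∀ᶠ j in atTop,
          (∀ z ∈ Crt x, K z v ≠ 0 → ∀ m : ℤ,
            1 / ((n : ℝ) + 1) ≤ |Θ z v + K z v * Real.log (r (s j)) - 2 * Real.pi * m|) →
          HyR (Xt x (J v) (r (s j))) := by
  classical
  -- planar critical points
  have hpl : ∀ z ∈ Crt x, (∀ n : ℕ, (sp x)^[n] z ≠ ∞) →
      ∃ ζ : ℂ, z = ζ ∧ Fin' x ζ ∧ (wn (nu x) (de x)).eval ζ = 0 := by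
    intro z hz h1
    obtain ⟨ζ, rfl⟩ : ∃ ζ : ℂ, z = ζ := by
      have := h1 0
      induction z using OnePoint.rec with
      | infty => exact absurd rfl this
      | coe ζ => exact ⟨ζ, rfl⟩
    exact ⟨ζ, rfl, fin_of x ζ h1, crt_wn hd x ζ hz⟩
  have hQ : ∀ z ∈ Crt x, ¬ PreP (sp x) z → Qz J x z := by
    intro z hz hnp
    rcases hcrit z hz with hat | ⟨hzf, hg | hp | hp⟩
    · exact qz_gs J x z (Eventually.of_forall fun v => GS_of_attd hd x (J v) hx z hat)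
    · obtain ⟨ζ, rfl, hfin, -⟩ := hpl z hz hzf
      refine qz_gs J x _ ?_
      filter_upwards [ae_parJ J hd x hx hAB] with v hv
      exact gs_of_gdJ hd x hx hpinf (J v) hv ζ hfin hg
    · exact absurd hp hnp
    · obtain ⟨M', p', q', hpar⟩ := hp
      obtain ⟨c₀, rfl, hfin, hc⟩ := hpl z hz hzf
      rw [sp_iter x c₀ M' (fun j _ => hfin j)] at hpar
      have hfb : Fin' x ((fx x)^[M'] c₀) := by
        intro j
        rw [← Function.iterate_add_apply]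
        exact hfin _
      obtain ⟨lam', hpc⟩ := parCR_of hfb hpar
      have hper' : (fx x)^[p'] ((fx x)^[M'] c₀) = (fx x)^[M'] c₀ := by
        have h1 := hpc.per
        conv_lhs => rw [← h1]
        exact Function.iterate_minimalPeriod
      have h3 : ddR x ((fx x)^[M'] c₀) p' = lam' := by
        rw [← hpc.der]
        exact (derR x _ p' (fun j _ => hfb j)).deriv.symm
      obtain ⟨b, M, p, q, lam, h4, h5⟩ := hN' c₀ hc hfin M' p' q' hpc.pp hpc.qp hper'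
        (by rw [h3]; exact hpc.lamq)
      obtain ⟨h6, h7⟩ := hAB b lam p q h4.par
      exact qz_land J hd x hx c₀ b lam M p q h4 h6 h7 h5
  have hQ2 : ∀ z : OnePoint ℂ, ∃ K Θ : (ι → ℂ) → ℝ, Measurable K ∧ Measurable Θ ∧
      (∀ u : ℝ, 0 < u → ∀ v, K (u • v) = K v ∧ Θ (u • v) = Θ v + K v * Real.log u) ∧
      (z ∈ Crt x → ¬ PreP (sp x) z → ∀ᵐ v : ι → ℂ, ∀ δ : ℝ, 0 < δ → ∃ U ∈ 𝓝 z, ∀ᶠ t : ℝ in 𝓝[>] 0,
        (K v ≠ 0 → ∀ m : ℤ, δ ≤ |Θ v + K v * Real.log t - 2 * Real.pi * m|) →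
        ∀ z' ∈ U, z' ∈ Crt (Xt x (J v) t) → Attd (sp (Xt x (J v) t)) z') := by
    intro z
    by_cases hz : z ∈ Crt x ∧ ¬ PreP (sp x) z
    · obtain ⟨K, Θ, h1, h2, h3, h4⟩ := hQ z hz.1 hz.2
      exact ⟨K, Θ, h1, h2, h3, fun _ _ => h4⟩
    · exact ⟨fun _ => 0, fun _ => 0, measurable_const, measurable_const,
        fun u _ v => ⟨rfl, by simp⟩, fun h1 h2 => absurd ⟨h1, h2⟩ hz⟩
  choose K Θ hKm hΘm hhom hKQ using hQ2
  refine ⟨K, Θ, hKm, hΘm, hhom, fun R r hr => ?_⟩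
  have hQae : ∀ᵐ v : ι → ℂ, ∀ z ∈ Crt x, ¬ PreP (sp x) z → ∀ δ : ℝ, 0 < δ → ∃ U ∈ 𝓝 z,
      ∀ᶠ t : ℝ in 𝓝[>] 0, (K z v ≠ 0 → ∀ m : ℤ, δ ≤ |Θ z v + K z v * Real.log t - 2 * Real.pi * m|) →
        ∀ z' ∈ U, z' ∈ Crt (Xt x (J v) t) → Attd (sp (Xt x (J v) t)) z' := by
    refine (ae_ball_iff (crt_finite hd x hx).countable).2 fun z hz => ?_
    by_cases hnp : PreP (sp x) z
    · exact Eventually.of_forall fun v h => absurd hnp h
    · filter_upwards [hKQ z hz hnp] with v hv _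
      exact hv
  let κ : Type := {z : OnePoint ℂ // z ∈ Crt x ∧ (∀ n : ℕ, (sp x)^[n] z ≠ ∞) ∧ PreP (sp x) z}
  have hκ : Finite κ := ((crt_finite hd x hx).subset fun z hz => hz.1 :
    ({z : OnePoint ℂ | z ∈ Crt x ∧ (∀ n : ℕ, (sp x)^[n] z ≠ ∞) ∧ PreP (sp x) z}).Finite)
  have hdata : ∀ k : κ, ∃ (c₀ b : ℂ) (M p : ℕ) (lam : ℂ), (k : OnePoint ℂ) = c₀ ∧
      PreR x c₀ b M p lam ∧ ∃ v : ι → ℂ, ffR x (J v) c₀ b M p lam ≠ 0 := by
    rintro ⟨z, hz, hzf, M', p', hp', lam', g, hl, g0, gd, ge⟩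
    obtain ⟨c₀, rfl, hfin, hc⟩ := hpl z hz hzf
    rw [sp_iter x c₀ M' (fun j _ => hfin j)] at ge
    have hfb : Fin' x ((fx x)^[M'] c₀) := by
      intro j
      rw [← Function.iterate_add_apply]
      exact hfin _
    obtain ⟨h1, h2⟩ := Pool.Agent.W342.RE.PTW.mult_deriv hfb ⟨g, g0, gd, ge⟩
    have h3 : ddR x ((fx x)^[M'] c₀) p' = lam' :=
      (derR x _ p' (fun j _ => hfb j)).unique h2
    obtain ⟨b, M, p, lam, h4, h5⟩ := hC c₀ hc hfin M' p' hp' h1 (by rw [h3]; exact hl)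
    exact ⟨c₀, b, M, p, lam, rfl, h4, h5⟩
  choose c₀ b M p lam hkc hpre hV0 using hdata
  have hlp : ∀ k : κ, ∃ (ψ : ℂ → ℂ) (ρ : ℝ), 0 < ρ ∧ DifferentiableOn ℂ ψ (ball 0 ρ) ∧
      InjOn ψ (ball 0 ρ) ∧
      ∀ (V : CV d) {ι : Type} (l : Filter ι) (τ : ι → ℝ), Tendsto τ l (𝓝[>] 0) →
        ∀ (y : ι → ℂ) (a : ℂ), Tendsto (fun i => (y i - b k) / (τ i : ℂ)) l (𝓝 a) →
        ∀ (n : ι → ℕ) (w : ℂ), Tendsto (fun i => lam k ^ (n i) * (τ i : ℂ)) l (𝓝 w) → ‖w‖ < ρ →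
        ‖w * (a - llR x V (b k) (p k) / (1 - lam k))‖ < ρ →
        (∀ᶠ i in l, ∀ j < p k * n i, (de (Xt x V (τ i))).eval
          ((fx (Xt x V (τ i)))^[j] (y i)) ≠ 0) ∧
        Tendsto (fun i => (fx (Xt x V (τ i)))^[p k * n i] (y i)) l
          (𝓝 (ψ (w * (a - llR x V (b k) (p k) / (1 - lam k))))) := fun k =>
    linpert x (p k) (b k) (lam k) (hpre k).finb (hpre k).per (hpre k).der (hpre k).rep
  choose ψ ρ hρ hψd hψi hψ using hlp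
  have hlin : ∀ (k : κ) (c : ℂ) (V W : CV d), ffR x (c • V + W) (c₀ k) (b k) (M k) (p k) (lam k) =
      c * ffR x V (c₀ k) (b k) (M k) (p k) (lam k) + ffR x W (c₀ k) (b k) (M k) (p k) (lam k) :=
    fun k c V W => ffR_lin x c V W _ _ _ _ _
  obtain ⟨L, hL⟩ : ∃ L : κ → ((ι → ℂ) →ₗ[ℂ] ℂ), L = fun k =>
      (linOf (fun V => ffR x V (c₀ k) (b k) (M k) (p k) (lam k)) (hlin k)).comp J := ⟨_, rfl⟩
  have hLa : ∀ k v, L k v = ffR x (J v) (c₀ k) (b k) (M k) (p k) (lam k) := by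
    intro k v
    rw [hL]
    exact linOf_apply _ (hlin k) (J v)
  have hL0 : ∀ k, L k ≠ 0 := by
    intro k h0
    obtain ⟨V, hV⟩ := hV0 k
    apply hV
    rw [← hLa, h0]; rfl
  obtain ⟨C, hC⟩ : ∃ C : κ → ℝ, C = fun k => ‖LinearMap.toContinuousLinearMap (L k)‖ := ⟨_, rfl⟩
  have hC0 : ∀ k, 0 ≤ C k := fun k => by rw [hC]; exact norm_nonneg _
  have hCb : ∀ k V, ‖L k V‖ ≤ C k * ‖V‖ := by
    intro k V
    rw [hC]
    exact (LinearMap.toContinuousLinearMap (L k)).le_opNorm V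
  obtain ⟨δ, hδ⟩ : ∃ δ : κ → ℝ, δ = fun k => ρ k / (2 * (1 + C k * (|R| + 1))) := ⟨_, rfl⟩
  have hδ0 : ∀ k, 0 < δ k := by
    intro k
    have h1 := hC0 k
    have h2 := hρ k
    rw [hδ]
    positivity
  have hδ1 : ∀ k, δ k * (1 + C k * (|R| + 1)) = ρ k / 2 := by
    intro k
    have h1 := hC0 k
    rw [hδ]
    have : (1 + C k * (|R| + 1)) ≠ 0 := by positivity
    field_simp
  obtain ⟨s, n, w, hs, hw⟩ := seqs lam (fun k => (hpre k).rep) δ hδ0 r hr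
  refine ⟨s, hs, ?_⟩
  -- the bad set
  obtain ⟨N, hN⟩ : ∃ N : Set ℂ, N = {z : ℂ | ¬ Fin' x z} ∪ {z : ℂ | ¬ GdE x (z : OnePoint ℂ)} :=
    ⟨_, rfl⟩
  have hN0 : volume N = 0 := by
    rw [hN]
    refine measure_union_null ((nonfin_countable hd x hx).measure_zero volume) ?_
    exact ae_iff.1 hJ
  have hae : ∀ᵐ V : ι → ℂ, ∀ k : κ, ‖w k * L k V‖ < ρ k → ψ k (w k * L k V) ∉ N := by
    rw [eventually_countable_forall]
    intro k
    exact ae_avoid (L k) (hL0 k) (ψ k) (ρ k) (hψd k) (hψi k) (w k) (hw k).1 N hN0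
  filter_upwards [hae, ae_parJ J hd x hx hAB, hQae] with V hV hVp hVQ hVR n₀
  have hrs : Tendsto (fun j => r (s j)) atTop (𝓝[>] 0) := hr.comp hs.tendsto_atTop
  obtain ⟨l, hl⟩ : ∃ l : Filter ℕ, l = atTop ⊓ 𝓟 {j | ∀ z ∈ Crt x, K z V ≠ 0 → ∀ m : ℤ,
      1 / ((n₀ : ℝ) + 1) ≤ |Θ z V + K z V * Real.log (r (s j)) - 2 * Real.pi * m|} := ⟨_, rfl⟩
  suffices key : ∀ᶠ j in l, HyR (Xt x (J V) (r (s j))) by
    rw [hl, eventually_inf_principal] at key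
    exact key
  have hl1 : l ≤ atTop := by rw [hl]; exact inf_le_left
  have hl2 : ∀ᶠ j in l, ∀ z ∈ Crt x, K z V ≠ 0 → ∀ m : ℤ,
      1 / ((n₀ : ℝ) + 1) ≤ |Θ z V + K z V * Real.log (r (s j)) - 2 * Real.pi * m| := by
    rw [hl]
    exact (eventually_principal.2 fun q hq => hq).filter_mono inf_le_right
  have hrl : Tendsto (fun j => r (s j)) l (𝓝[>] 0) := hrs.mono_left hl1
  refine filt_hyR hd x hx l (fun j => Xt x (J V) (r (s j))) ((Xt_tendsto x (J V)).comp hrl) ?_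
  intro z hz
  by_cases hp : PreP (sp x) z
  swap
  · obtain ⟨U, hU, hev⟩ := hVQ z hz hp (1 / ((n₀ : ℝ) + 1)) (by positivity)
    refine ⟨U, hU, ?_⟩
    filter_upwards [hrl.eventually hev, hl2] with j hj1 hj2
    exact hj1 (hj2 z hz)
  by_cases hat : Attd (sp x) z
  · obtain ⟨U, hU, hev⟩ := GS_of_attd hd x (J V) hx z hat
    exact ⟨U, hU, (hrl.eventually hev).mono fun j hj z' hz' _ => hj z' hz'⟩
  · have hzf : ∀ n : ℕ, (sp x)^[n] z ≠ ∞ := by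
      rcases hcrit z hz with h1 | ⟨h1, -⟩
      · exact absurd h1 hat
      · exact h1
    obtain ⟨k, hk⟩ : ∃ k : κ, (k : OnePoint ℂ) = z := ⟨⟨z, hz, hzf, hp⟩, rfl⟩
    have hw1 : ‖w k‖ < ρ k := by
      have h1 := (hw k).2.1
      have h2 := hδ1 k
      have h3 := hδ0 k
      have h4 := hρ k
      have h5 : 0 ≤ C k * (|R| + 1) := mul_nonneg (hC0 k) (by positivity)
      nlinarith
    have hw2 : ‖w k * L k V‖ < ρ k := by
      rw [norm_mul]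
      have h1 := (hw k).2.1
      have h2 := hδ1 k
      have h3 := hδ0 k
      have h4 := hρ k
      have h5 : ‖L k V‖ ≤ C k * (|R| + 1) := by
        refine (hCb k V).trans (mul_le_mul_of_nonneg_left ?_ (hC0 k))
        linarith [le_abs_self R]
      have h6 : ‖w k‖ * ‖L k V‖ ≤ δ k * (C k * (|R| + 1)) :=
        mul_le_mul h1 h5 (norm_nonneg _) h3.le
      nlinarith
    have hbad := hV k hw2
    rw [hLa] at hw2 hbad
    rw [hN, mem_union, not_or] at hbad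
    obtain ⟨hb1, hb2⟩ := hbad
    have hb1' : Fin' x (ψ k (w k * ffR x (J V) (c₀ k) (b k) (M k) (p k) (lam k))) := by
      by_contra h0; exact hb1 h0
    have hb2' : GdE x ((ψ k (w k * ffR x (J V) (c₀ k) (b k) (M k) (p k) (lam k)) : ℂ) : OnePoint ℂ) := by
      by_contra h0; exact hb2 h0
    obtain ⟨U, hU, hev⟩ := pre_dir hd x (J V) hx (hpre k) (ψ k) (ρ k) (hψ k) (fun j => r (s j)) hrs
      (n k) (w k) (hw k).2.2 hw1 hw2 (gs_of_gdEJ hd x hx hpinf (J V) hVp _ hb1' hb2')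
    refine ⟨(fun u : ℂ => (u : OnePoint ℂ)) '' U, ?_, ?_⟩
    · rw [← hk, hkc k]
      exact OnePoint.isOpenEmbedding_coe.isOpenMap.image_mem_nhds hU
    · filter_upwards [hev.filter_mono hl1] with j hj z' hz' hcr
      obtain ⟨u, hu, rfl⟩ := hz'
      exact hj u hu (crt_wn hd _ u hcr)


end Run7.h904.RF
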