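import Mathlib
import Pool.Agent.Run7.h904.U11Seq

set_option autoImplicit false

open Topology Filter Metric Set Polynomial MeasureTheory Asymptotics
open scoped OnePoint

namespace Run7.h904.RF

open Pool.Agent.H790R3.RB (CV hF cr ND wr rt sp pr hc pol Sink Attd HypTop)
open Pool.Agent.W757.QR Pool.Agent.W757.RF Pool.Agent.W757.Q2
open Pool.Agent.W29.RQSNK (sp_iter fin_of sp_fx sp_inf fx_iter_diff)

theorem preN_transport {s t u v : ℂ} {h : OnePoint ℂ ≃ₜ OnePoint ℂ} {f g : OnePoint ℂ → OnePoint ℂ}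
    (hdet : s * v - t * u = 1)
    (hh : ∀ p : ℂ × ℂ, p ≠ 0 → h (pr p) = pr (s * p.1 + t * p.2, u * p.1 + v * p.2))
    (hs : ∀ z, g (h z) = h (f z)) {a : OnePoint ℂ} (H : PreN f a) : PreN g (h a) := by
  obtain ⟨M, p, q, H⟩ := H
  refine ⟨M, p, q, ?_⟩
  rw [Pool.Agent.H790R3.RB.ALL.iter h hs]
  exact parS_transport hdet hh hs H

/-- the closures of the orbits in question -/
lemma exists_KN {d : ℕ} (hd : 2 ≤ d) (x : CV d) (hx : ND x) (c : OnePoint ℂ)
    (hc : Gd x c ∨ PreP (sp x) c ∨ PreN (sp x) c) : ∃ K A : Set (OnePoint ℂ), IsClosed K ∧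
      K.Countable ∧ c ∈ K ∧ (∀ z ∈ K, sp x z ∈ K) ∧ A.Finite ∧
      ∀ w ∈ K, ¬ GdE x w → w ∈ A ∧ ∃ s b, Bp x b ∧ (sp x)^[s] w = b := by
  rcases hc with hc | hc | hc
  · exact exists_K hd x hx c (Or.inl hc)
  · exact exists_K hd x hx c (Or.inr hc)
  have hcont := sp_cont hd x hx
  obtain ⟨M, p, q, hpar⟩ := hc
  have hpb : (sp x)^[p] ((sp x)^[M] c) = (sp x)^[M] c := by
    obtain ⟨-, -, -, lam, g, -, g0, -, ge⟩ := hpar
    have h1 := ge.self_of_nhds
    rwa [g0, chart_zero] at h1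
  have hp0 : 0 < p := hpar.1
  have hpl : ∀ L : ℕ, (sp x)^[p * L + M] c = (sp x)^[M] c := by
    intro L
    rw [Function.iterate_add_apply, Function.iterate_mul]
    exact Function.iterate_fixed hpb L
  have hconst : ∀ k : ℕ, M ≤ k → (sp x)^[p * k] c = (sp x)^[p * M] c := by
    intro k hk
    have h1 : M ≤ p * M := Nat.le_mul_of_pos_left _ hp0
    obtain ⟨j, rfl⟩ : ∃ j, k = M + j := ⟨k - M, by omega⟩
    have e1 : p * (M + j) = (p * M - M) + (p * j + M) := by
      rw [mul_add]; omega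
    have e2 : p * M = (p * M - M) + M := by omega
    rw [e1, Function.iterate_add_apply, hpl]
    conv_rhs => rw [e2, Function.iterate_add_apply]
  have hlim : Tendsto (fun k : ℕ => (sp x)^[p * k] c) atTop (𝓝 ((sp x)^[p * M] c)) := by
    refine tendsto_const_nhds.congr' ?_
    filter_upwards [eventually_ge_atTop M] with k hk
    exact (hconst k hk).symm
  have ha : (sp x)^[p] ((sp x)^[p * M] c) = (sp x)^[p * M] c := by
    rw [← Function.iterate_add_apply]
    have e : p + p * M = p * (M + 1) := by ring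
    rw [e]
    exact hconst (M + 1) (by omega)
  obtain ⟨h1, h2, h3, h4⟩ := orbit_closure hcont hp0 ha hlim _ rfl
  have hfinset : ∀ w ∈ ⋃ i ∈ Finset.range p, insert ((sp x)^[i] ((sp x)^[p * M] c))
      (range fun k : ℕ => (sp x)^[i] ((sp x)^[p * k] c)),
      ∃ m ∈ (Finset.range (p * M + p) : Set ℕ), (sp x)^[m] c = w := by
    intro w hw
    obtain ⟨i, hi, hw⟩ := mem_iUnion₂.1 hw
    rw [Finset.mem_range] at hi
    have key : ∀ k : ℕ, k ≤ M → ∃ m ∈ (Finset.range (p * M + p) : Set ℕ),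
        (sp x)^[m] c = (sp x)^[i] ((sp x)^[p * k] c) := by
      intro k hk
      refine ⟨i + p * k, ?_, Function.iterate_add_apply _ _ _ _⟩
      rw [Finset.mem_coe, Finset.mem_range]
      have := Nat.mul_le_mul_left p hk
      omega
    rcases hw with rfl | ⟨k, rfl⟩
    · exact key M le_rfl
    · rcases le_total k M with hk | hk
      · exact key k hk
      · simp only
        rw [hconst k hk]
        exact key M le_rfl
  refine ⟨_, (fun m : ℕ => (sp x)^[m] c) '' (Finset.range (p * M + p) : Set ℕ), h1, h2, h3, h4,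
    (Finset.finite_toSet _).image _, ?_⟩
  intro w hw _
  obtain ⟨m, hm, rfl⟩ := hfinset w hw
  refine ⟨⟨m, hm, rfl⟩, p * m + M - m, (sp x)^[M] c, Or.inr ⟨p, q, hpar⟩, ?_⟩
  have h5 : m ≤ p * m := Nat.le_mul_of_pos_left _ hp0
  rw [← Function.iterate_add_apply, Nat.sub_add_cancel (by omega)]
  exact hpl m

/-- the bad set has zero area, in good coordinates -/
theorem zero_area'N {d : ℕ} (hd : 2 ≤ d) (x : CV d) (hx : ND x)
    (hcrit : ∀ z ∈ Crt x, Gd x z ∨ PreP (sp x) z ∨ PreN (sp x) z) (hinf : Gd x ∞)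
    (hpinf : ∞ ∉ Function.periodicPts (sp x)) : volume (Bs x) = 0 := by
  classical
  have hcont := sp_cont hd x hx
  -- a second good point
  obtain ⟨U, hU, hUg, -⟩ := gd_unif hd x hx hpinf _ hinf
  obtain ⟨q₂, hq₂⟩ : ∃ q₂ : ℂ, Gd x (q₂ : OnePoint ℂ) := by
    have h1 := (OnePoint.tendsto_coe_infty (X := ℂ)).eventually hU
    rw [Filter.coclosedCompact_eq_cocompact] at h1
    obtain ⟨q, hq⟩ := h1.exists
    exact ⟨q, hUg _ hq⟩
  obtain ⟨Cs, hCs⟩ : ∃ Cs : Set (OnePoint ℂ), Cs = Crt x ∪ {∞, (q₂ : OnePoint ℂ)} := ⟨_, rfl⟩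
  have hCsf : Cs.Finite := by
    rw [hCs]
    exact (crt_finite hd x hx).union (by simp)
  have hCsg : ∀ c ∈ Cs, Gd x c ∨ PreP (sp x) c ∨ PreN (sp x) c := by
    intro c hc
    rw [hCs] at hc
    rcases hc with hc | rfl | hc
    · exact hcrit c hc
    · exact Or.inl hinf
    · rw [mem_singleton_iff] at hc
      rw [hc]
      exact Or.inl hq₂
  have hex : ∀ c : OnePoint ℂ, ∃ K A : Set (OnePoint ℂ), c ∈ Cs → IsClosed K ∧ K.Countable ∧ c ∈ K ∧
      (∀ z ∈ K, sp x z ∈ K) ∧ A.Finite ∧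
      ∀ w ∈ K, ¬ GdE x w → w ∈ A ∧ ∃ s b, Bp x b ∧ (sp x)^[s] w = b := by
    intro c
    by_cases hc : c ∈ Cs
    · obtain ⟨K, A, h⟩ := exists_KN hd x hx c (hCsg c hc)
      exact ⟨K, A, fun _ => h⟩
    · exact ⟨∅, ∅, fun h => absurd h hc⟩
  choose K A hKA using hex
  obtain ⟨P, hP⟩ : ∃ P : Set (OnePoint ℂ), P = ⋃ c ∈ Cs, K c := ⟨_, rfl⟩
  have hmem : ∀ c ∈ Cs, c ∈ P := fun c hc => by
    rw [hP]; exact mem_biUnion hc (hKA c hc).2.2.1
  have hfw : ∀ z ∈ P, sp x z ∈ P := by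
    intro z hz
    rw [hP] at hz ⊢
    obtain ⟨c, hc, hz⟩ := mem_iUnion₂.1 hz
    exact mem_biUnion hc ((hKA c hc).2.2.2.1 z hz)
  have hPc : IsClosed P := by
    rw [hP]
    exact hCsf.isClosed_biUnion fun c hc => (hKA c hc).1
  have hPn : P.Countable := by
    rw [hP]
    exact hCsf.countable.biUnion fun c hc => (hKA c hc).2.1
  have h : ZS x P q₂ := by
    refine ⟨hd, hx, ⟨fun z hz => hfw z (hmem z ?_), hfw, hmem ∞ ?_⟩, hPc, hPn, hmem _ ?_,
      gdE_of hinf, hpinf⟩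
    · rw [hCs]; exact Or.inl hz
    · rw [hCs]; right; simp
    · rw [hCs]; right; simp
  -- accumulation outside `P`
  have hω : ∀ z ∈ Bs x, (∀ n, (sp x)^[n] (z : OnePoint ℂ) ∉ Function.periodicPts (sp x)) →
      ∃ y : ℂ, (y : OnePoint ℂ) ∉ P ∧ ∀ ε : ℝ, 0 < ε → ∃ᶠ n : ℕ in atTop, (fx x)^[n] z ∈ ball y ε := by
    intro z hz hnp
    by_contra hcon
    push Not at hcon
    obtain ⟨E, hE⟩ : ∃ E : Set (OnePoint ℂ), E = {w | w ∈ P ∧ ¬ GdE x w} := ⟨_, rfl⟩
    have hEf : E.Finite := by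
      refine (hCsf.biUnion (t := A) fun c hc => (hKA c hc).2.2.2.2.1).subset ?_
      intro w hw
      rw [hE] at hw
      obtain ⟨hw1, hw2⟩ := hw
      rw [hP] at hw1
      obtain ⟨c, hc, hw1⟩ := mem_iUnion₂.1 hw1
      exact mem_biUnion hc ((hKA c hc).2.2.2.2.2 w hw1 hw2).1
    have hEfw : ∀ w ∈ E, sp x w ∈ E := by
      intro w hw
      rw [hE] at hw ⊢
      exact ⟨hfw w hw.1, fun h1 => hw.2 (gdE_back 1 h1)⟩
    have hbadcl : IsClosed {w : OnePoint ℂ | ¬ GdE x w} := by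
      rw [← isOpen_compl_iff, isOpen_iff_mem_nhds]
      intro w hw
      have hw' : GdE x w := by
        by_contra h0
        exact hw h0
      obtain ⟨V, hV, hVg, -⟩ := gdE_unif hd x hx hpinf w hw'
      filter_upwards [hV] with w' hw' hw2
      exact hw2 (hVg w' hw')
    have hatt : ∀ O : Set (OnePoint ℂ), IsOpen O → E ⊆ O → ∀ᶠ n : ℕ in atTop,
        (sp x)^[n] (z : OnePoint ℂ) ∈ O := by
      intro O hO hEO
      by_contra hn
      rw [not_eventually] at hn
      have hcomp : IsCompact (Oᶜ ∩ {w : OnePoint ℂ | ¬ GdE x w}) :=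
        (hO.isClosed_compl.inter hbadcl).isCompact
      have hn' : ∃ᶠ n : ℕ in atTop, (sp x)^[n] (z : OnePoint ℂ) ∈
          Oᶜ ∩ {w : OnePoint ℂ | ¬ GdE x w} := by
        refine hn.mono fun n hn1 => ⟨hn1, fun h1 => hz (gdE_back n h1)⟩
      obtain ⟨w, hw, hcl⟩ := hcomp.exists_mapClusterPt_of_frequently hn'
      obtain ⟨y, rfl⟩ : ∃ y : ℂ, w = y := by
        induction w using OnePoint.rec with
        | infty => exact absurd (gdE_of hinf) hw.2
        | coe y => exact ⟨y, rfl⟩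
      have hyP : (y : OnePoint ℂ) ∈ P := by
        by_contra hyP
        obtain ⟨ε, hε, h1⟩ := hcon y hyP
        have h2 : (fun v : ℂ => (v : OnePoint ℂ)) '' ball y ε ∈ 𝓝 (y : OnePoint ℂ) :=
          OnePoint.isOpenEmbedding_coe.isOpenMap.image_mem_nhds (ball_mem_nhds y hε)
        have h3 : ∃ᶠ n : ℕ in atTop, (fx x)^[n] z ∈ ball y ε := by
          refine (hcl.frequently h2).mono fun n hn2 => ?_
          rw [(h.orb hz n).1] at hn2
          obtain ⟨v, hv, hvv⟩ := hn2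
          rw [← OnePoint.coe_injective hvv]
          exact hv
        exact h3 h1
      exact hw.1 (hEO (by rw [hE]; exact ⟨hyP, hw.2⟩))
    obtain ⟨a, haE, p, N, hp, hpa, hlim⟩ := fin_attr hcont E hEf hEfw _ hatt
    rw [hE] at haE
    obtain ⟨haP, hab⟩ := haE
    rw [hP] at haP
    obtain ⟨c, hc, haP⟩ := mem_iUnion₂.1 haP
    obtain ⟨-, s, b, hb, hsb⟩ := (hKA c hc).2.2.2.2.2 a haP hab
    have hlim2 : Tendsto (fun k : ℕ => (sp x)^[p * k] ((sp x)^[s] ((sp x)^[N] (z : OnePoint ℂ))))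
        atTop (𝓝 b) := by
      have h1 := ((hcont.iterate s).tendsto a).comp hlim
      rw [hsb] at h1
      refine h1.congr fun k => ?_
      simp only [Function.comp]
      exact (Function.Commute.iterate_iterate_self (sp x) s (p * k)) _
    have hland : ∀ k : ℕ, (sp x)^[k] ((sp x)^[s] ((sp x)^[N] (z : OnePoint ℂ))) = b →
        b ∈ Function.periodicPts (sp x) → False := by
      intro k h1 h2
      apply hnp (k + (s + N))
      rw [Function.iterate_add_apply, Function.iterate_add_apply, h1]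
      exact h2
    rcases hb with ⟨p', hrep⟩ | ⟨p', q', hpar⟩
    · have hpb : (sp x)^[p'] b = b := by
        obtain ⟨-, lam, g, -, g0, -, ge⟩ := hrep
        have h1 := ge.self_of_nhds
        rwa [g0, chart_zero] at h1
      have h1 := tends_mul hcont hp hrep.1 hpb hlim2
      obtain ⟨k, hk⟩ := rep_land hrep h1
      exact hland _ hk (Function.mk_mem_periodicPts hrep.1 hpb)
    · have hpb : (sp x)^[p'] b = b := by
        obtain ⟨-, -, -, lam, g, -, g0, -, ge⟩ := hpar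
        have h1 := ge.self_of_nhds
        rwa [g0, chart_zero] at h1
      have hpq : (sp x)^[p' * q'] b = b := by
        rw [Function.iterate_mul]
        exact Function.iterate_fixed hpb q'
      have h1 := tends_mul hcont hp (Nat.mul_pos hpar.1 hpar.2.1) hpq hlim2
      by_cases h2 : ∃ k : ℕ, (sp x)^[k] ((sp x)^[s] ((sp x)^[N] (z : OnePoint ℂ))) = b
      · obtain ⟨k, hk⟩ := h2
        exact hland _ hk (Function.mk_mem_periodicPts hpar.1 hpb)
      · push Not at h2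
        apply hz
        apply gdE_back N
        apply gdE_back s
        exact gdE_of (Or.inr ⟨b, p', q', hpar, h1, h2⟩)
  -- density points
  have hae1 := Besicovitch.ae_tendsto_measure_inter_div_of_measurableSet (volume : Measure ℂ)
    (s := (Bs x)ᶜ) h.closed.measurableSet.compl
  have hae2 : ∀ᵐ z : ℂ, ∀ n, (sp x)^[n] (z : OnePoint ℂ) ∉ Function.periodicPts (sp x) := by
    have hcnt : {z : ℂ | ∃ n, (sp x)^[n] (z : OnePoint ℂ) ∈ Function.periodicPts (sp x)}.Countable := by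
      have h1 : {z : ℂ | ∃ n, (sp x)^[n] (z : OnePoint ℂ) ∈ Function.periodicPts (sp x)} ⊆
          ⋃ n : ℕ, ⋃ b ∈ Function.periodicPts (sp x), (fun z : ℂ => (z : OnePoint ℂ)) ⁻¹'
            {z : OnePoint ℂ | (sp x)^[n] z = b} := by
        rintro z ⟨n, hn⟩
        exact mem_iUnion.2 ⟨n, mem_biUnion hn rfl⟩
      refine Set.Countable.mono h1 (Set.countable_iUnion fun n => ?_)
      exact (per_countableS hd x hx).biUnion fun b _ =>
        (Pool.Agent.W342.RE.PTW.pre_countable hd hx b n).preimage OnePoint.coe_injective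
    filter_upwards [hcnt.ae_notMem volume] with z hz n hn
    exact hz ⟨n, hn⟩
  have hae : ∀ᵐ z : ℂ, z ∉ Bs x := by
    filter_upwards [hae1, hae2] with z h1 h2 hz
    obtain ⟨y, hyP, hfreq⟩ := hω z hz h2
    have hev : ∀ᶠ u : ℂ in 𝓝 y, (u : OnePoint ℂ) ∉ P :=
      OnePoint.continuous_coe.continuousAt.eventually (hPc.isOpen_compl.mem_nhds hyP)
    obtain ⟨R, hR, hball⟩ := Metric.eventually_nhds_iff_ball.1 hev
    have hD : ∀ u ∈ ball y (8 * (R / 8)), (u : OnePoint ℂ) ∉ P := fun u hu => hball u (by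
      have e : 8 * (R / 8) = R := by ring
      rwa [e] at hu)
    have hind : (Bs x)ᶜ.indicator (1 : ℂ → ENNReal) z = 0 := by
      rw [indicator_of_notMem]
      exact fun h3 => h3 hz
    rw [hind] at h1
    have hdens : ∀ ε : ℝ, 0 < ε → ∃ s₀ : ℝ, 0 < s₀ ∧ ∀ s : ℝ, 0 < s → s < s₀ →
        volume (closedBall z s ∩ (Bs x)ᶜ) ≤ ENNReal.ofReal ε * volume (closedBall z s) := by
      intro ε hε
      have h3 := h1.eventually (ge_mem_nhds (ENNReal.ofReal_pos.2 hε))
      rw [eventually_nhdsWithin_iff, Metric.eventually_nhds_iff_ball] at h3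
      obtain ⟨s₀, hs₀, h4⟩ := h3
      refine ⟨s₀, hs₀, fun s hs hss => ?_⟩
      have h5 := h4 s (by rw [mem_ball, dist_zero_right, Real.norm_of_nonneg hs.le]; exact hss) hs
      rw [inter_comm]
      exact (ENNReal.div_le_iff (measure_closedBall_pos volume z hs).ne'
        measure_closedBall_lt_top.ne).1 h5
    obtain ⟨C, hC⟩ := h.caseA z hz hdens y (R / 8) (by positivity) hD
    obtain ⟨m, φ, ε, hε, hεr, hm, hφ⟩ := h.caseB z hz y (R / 8) (by positivity) hD C hC hfreq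
    refine h.no_cn m hm y ⟨ε, hε, fun u hu => hD u (ball_subset_ball (by linarith) hu), φ,
      fun j => (hφ j).1, fun j => (hφ j).2.1, fun η hη => ?_⟩
    have h5 : Tendsto (fun j : ℕ => 1 / ((j : ℝ) + 1)) atTop (𝓝 0) :=
      tendsto_one_div_add_atTop_nhds_zero_nat
    filter_upwards [h5.eventually (gt_mem_nhds hη)] with j hj u hu
    exact ((hφ j).2.2 u hu).trans_lt hj
  have := ae_iff.1 hae
  simpa using this

/-- the bad set of a geometrically finite map has zero area -/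
theorem zero_area_allN {d : ℕ} (hd : 2 ≤ d) (x : CV d) (hx : ND x)
    (hcrit : ∀ z ∈ Crt x, Attd (sp x) z ∨ (∃ a, ParB (sp x) z a) ∨ PreP (sp x) z ∨ PreN (sp x) z)
    (hgood : ∃ z, Attd (sp x) z ∨ ∃ a, ParB (sp x) z a) : ∀ᵐ z : ℂ, GdE x (z : OnePoint ℂ) := by
  classical
  obtain ⟨B, hB⟩ : ∃ B : Set (OnePoint ℂ), B = Function.periodicPts (sp x) := ⟨_, rfl⟩
  have hBc : B.Countable := by
    rw [hB]
    exact per_countableS hd x hx
  have hBi : ({z | Gd x z} ∩ Bᶜ).Infinite := by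
    intro hfin
    obtain ⟨z₀, hz₀⟩ := hgood
    obtain ⟨U, hU, hUg⟩ := gd_open hd x hx z₀ hz₀
    have h1 : (chart z₀ ⁻¹' U).Countable := by
      have h2 : U ⊆ ({z | Gd x z} ∩ Bᶜ) ∪ B := by
        intro w hw
        by_cases hwB : w ∈ B
        · exact Or.inr hwB
        · exact Or.inl ⟨hUg w hw, hwB⟩
      exact ((hfin.countable.union hBc).mono h2).preimage (chart_inj z₀)
    have h2 : chart z₀ ⁻¹' U ∈ 𝓝 (0 : ℂ) := by
      apply (chart_cont z₀).continuousAt.preimage_mem_nhds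
      rw [chart_zero]
      exact hU
    obtain ⟨r, hr, hb⟩ := Metric.mem_nhds_iff.1 h2
    exact (measure_ball_pos volume (0 : ℂ) hr).ne' ((h1.mono hb).measure_zero volume)
  obtain ⟨a, b, c, e, h, x₁, T, hdet, hh, hx₁, hs, hG, hT, hTi, hsT, hinf, hcr⟩ :=
    genm_lin d x ({z | Gd x z} ∩ Bᶜ) hBi hd hx
  have hs' : ∀ z, sp x₁ (h z) = h (sp x z) := fun z => (hs z).symm
  have hit := fun n z => Pool.Agent.H790R3.RB.ALL.iter h hs' n z
  have hsym : ∀ z, sp x (h.symm z) = h.symm (sp x₁ z) := by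
    intro z
    apply h.injective
    rw [hs, h.apply_symm_apply, h.apply_symm_apply]
  have hdet' : e * a - (-b) * (-c) = 1 := by linear_combination hdet
  have hgd : ∀ z, Gd x z → Gd x₁ (h z) := by
    rintro z (h1 | ⟨a', h1⟩)
    · exact Or.inl (Pool.Agent.H790R3.RB.ALL.attd h hs' h1)
    · exact Or.inr ⟨h a', parB_transport hdet hh hs' h1⟩
  have hgd' : ∀ z, Gd x₁ z → Gd x (h.symm z) := by
    rintro z (h1 | ⟨a', h1⟩)
    · exact Or.inl (Pool.Agent.H790R3.RB.ALL.attd h.symm hsym h1)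
    · exact Or.inr ⟨h.symm a', parB_transport (h := h.symm) hdet' (inv_form hdet hh) hsym h1⟩
  have hcr₁ : ∀ z' ∈ Crt x₁, Gd x₁ z' ∨ PreP (sp x₁) z' ∨ PreN (sp x₁) z' := by
    intro z' hz'
    have hsym' : ∀ z, h.symm (sp x₁ z) = sp x (h.symm z) := fun z => (hsym z).symm
    have h1 : h.symm z' ∈ Crt x := crt_conj hd hx₁ hx h.symm hsym' z' hz'
    obtain ⟨z, rfl⟩ : ∃ z, h z = z' := ⟨h.symm z', h.apply_symm_apply _⟩
    rw [h.symm_apply_apply] at h1
    rcases hcrit z h1 with h2 | h2 | h2 | h2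
    · exact Or.inl (hgd z (Or.inl h2))
    · exact Or.inl (hgd z (Or.inr h2))
    · exact Or.inr (Or.inl (preP_transport hdet hh hs' h2))
    · exact Or.inr (Or.inr (preN_transport hdet hh hs' h2))
  have hinf₁ : ∞ ∉ Function.periodicPts (sp x₁) := by
    rintro ⟨n, hn, hper⟩
    apply hinf.2
    rw [hB]
    refine Function.mk_mem_periodicPts hn ?_
    show (sp x)^[n] (h.symm ∞) = h.symm ∞
    apply h.injective
    rw [← hit, h.apply_symm_apply]
    exact hper
  have hginf : Gd x₁ ∞ := by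
    have h1 := hgd _ hinf.1
    rwa [h.apply_symm_apply] at h1
  have hJ₁ : ∀ᵐ z : ℂ, GdE x₁ (z : OnePoint ℂ) := by
    rw [ae_iff]
    exact zero_area'N hd x₁ hx₁ hcr₁ hginf hinf₁
  refine ae_transport (h := h.symm) (inv_form hdet hh) (GdE x₁) (GdE x) ?_ hJ₁
  rintro z ⟨k, hk⟩
  refine ⟨k, ?_⟩
  have h1 := Pool.Agent.H790R3.RB.ALL.iter h.symm hsym k z
  rw [h1]
  exact hgd' _ hk

end Run7.h904.RF
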