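import Mathlib
import Pool.Agent.Run7.h904.RDen

set_option autoImplicit false

open Topology Filter Metric Set MeasureTheory
open scoped ENNReal Pointwise

namespace Run7.h904.UQ

open Run7.h904.RF (BB)

lemma log_sub_ge {x y : ℝ} (hx : 0 < x) (hxy : x ≤ y) (hy : y ≤ 1) :
    y - x ≤ Real.log y - Real.log x := by
  have hy0 : 0 < y := hx.trans_le hxy
  have h1 := Real.one_sub_inv_le_log_of_pos (x := y / x) (by positivity)
  rw [Real.log_div hy0.ne' hx.ne'] at h1
  have h2 : y - x ≤ 1 - (y / x)⁻¹ := by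
    rw [inv_div]
    have e : 1 - x / y = (y - x) / y := by field_simp
    rw [e, le_div_iff₀ hy0]
    nlinarith
  linarith

/-- the size of the set of logarithmic scales which are close to a lattice -/
lemma log_meas (κ : ℝ) (hκ : κ ≠ 0) (a δ : ℝ) (hδ1 : δ ≤ 1) :
    volume {u : ℝ | u ∈ Icc (1 / 2 : ℝ) 1 ∧
      ∃ m : ℤ, |a + κ * Real.log u - 2 * Real.pi * m| < δ} ≤
      ENNReal.ofReal ((2 * |κ| + 5) * (2 * δ / |κ|)) := by
  rcases le_or_gt δ 0 with hδ | hδ
  · have : {u : ℝ | u ∈ Icc (1 / 2 : ℝ) 1 ∧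
      ∃ m : ℤ, |a + κ * Real.log u - 2 * Real.pi * m| < δ} = ∅ := by
      ext u
      simp only [mem_ofPred_eq, mem_empty_iff_false, iff_false, not_and, not_exists, not_lt]
      intro _ m
      exact hδ.trans (abs_nonneg _)
    rw [this, measure_empty]
    exact zero_le
  have hκ0 : 0 < |κ| := abs_pos.2 hκ
  have hpi := Real.pi_gt_three
  obtain ⟨I, hI⟩ : ∃ I : Finset ℤ, I = Finset.Icc ⌈(a - |κ| - 1) / (2 * Real.pi)⌉
    ⌊(a + |κ| + 1) / (2 * Real.pi)⌋ := ⟨_, rfl⟩
  have hlogb : ∀ u ∈ Icc (1 / 2 : ℝ) 1, |Real.log u| ≤ 1 := by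
    intro u hu
    have hu0 : 0 < u := by linarith [hu.1]
    rw [abs_le]
    constructor
    · have h1 := Real.one_sub_inv_le_log_of_pos hu0
      have h2 : u⁻¹ ≤ 2 := by
        rw [inv_le_comm₀ hu0 two_pos]
        linarith [hu.1]
      linarith
    · have := Real.log_nonpos hu0.le hu.2
      linarith
  have hsub : {u : ℝ | u ∈ Icc (1 / 2 : ℝ) 1 ∧
      ∃ m : ℤ, |a + κ * Real.log u - 2 * Real.pi * m| < δ} ⊆
      ⋃ m ∈ I, {u : ℝ | u ∈ Icc (1 / 2 : ℝ) 1 ∧ |a + κ * Real.log u - 2 * Real.pi * m| < δ} := by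
    rintro u ⟨hu, m, hm⟩
    refine mem_iUnion₂.2 ⟨m, ?_, hu, hm⟩
    have h1 : |κ * Real.log u| ≤ |κ| := by
      rw [abs_mul]
      have := hlogb u hu
      nlinarith
    have h2 := abs_le.1 h1
    have h3 := abs_lt.1 hm
    rw [hI, Finset.mem_Icc]
    constructor
    · rw [Int.ceil_le, div_le_iff₀ (by positivity)]
      linarith
    · rw [Int.le_floor, le_div_iff₀ (by positivity)]
      linarith
  have hone : ∀ m : ℤ, volume {u : ℝ | u ∈ Icc (1 / 2 : ℝ) 1 ∧
      |a + κ * Real.log u - 2 * Real.pi * m| < δ} ≤ ENNReal.ofReal (2 * δ / |κ|) := by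
    intro m
    refine (Real.volume_le_diam _).trans ?_
    refine Metric.ediam_le ?_
    intro x hx y hy
    rw [edist_dist, Real.dist_eq]
    refine ENNReal.ofReal_le_ofReal ?_
    have key : ∀ x y : ℝ, x ∈ {u : ℝ | u ∈ Icc (1 / 2 : ℝ) 1 ∧
        |a + κ * Real.log u - 2 * Real.pi * m| < δ} → y ∈ {u : ℝ | u ∈ Icc (1 / 2 : ℝ) 1 ∧
        |a + κ * Real.log u - 2 * Real.pi * m| < δ} → x ≤ y → |x - y| ≤ 2 * δ / |κ| := by
      rintro x y ⟨hx1, hx2⟩ ⟨hy1, hy2⟩ hxy
      have h1 := log_sub_ge (by linarith [hx1.1]) hxy hy1.2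
      rw [abs_sub_comm, abs_of_nonneg (by linarith), le_div_iff₀ hκ0]
      have h2 : |κ * (Real.log y - Real.log x)| < 2 * δ := by
        have e : κ * (Real.log y - Real.log x) = (a + κ * Real.log y - 2 * Real.pi * m) -
          (a + κ * Real.log x - 2 * Real.pi * m) := by ring
        rw [e]
        have := abs_sub (a + κ * Real.log y - 2 * Real.pi * m) (a + κ * Real.log x - 2 * Real.pi * m)
        linarith
      rw [abs_mul] at h2
      have h3 := le_abs_self (Real.log y - Real.log x)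
      nlinarith
    rcases le_total x y with h | h
    · exact key x y hx hy h
    · rw [abs_sub_comm]
      exact key y x hy hx h
  have hcard : (I.card : ℝ) ≤ 2 * |κ| + 5 := by
    rw [hI, Int.card_Icc]
    obtain ⟨X, hX⟩ : ∃ X : ℝ, X = (a - |κ| - 1) / (2 * Real.pi) := ⟨_, rfl⟩
    obtain ⟨Y, hY⟩ : ∃ Y : ℝ, Y = (a + |κ| + 1) / (2 * Real.pi) := ⟨_, rfl⟩
    rw [← hX, ← hY]
    have h1 : Y - X ≤ |κ| + 1 := by
      rw [hX, hY, ← sub_div, div_le_iff₀ (by positivity)]
      nlinarith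
    have h2 := Int.floor_le Y
    have h3 := Int.le_ceil X
    rcases le_or_gt (⌊Y⌋ + 1 - ⌈X⌉) 0 with h4 | h4
    · rw [Int.toNat_of_nonpos h4]
      push_cast
      positivity
    · have h5 : ((⌊Y⌋ + 1 - ⌈X⌉).toNat : ℤ) = ⌊Y⌋ + 1 - ⌈X⌉ := Int.toNat_of_nonneg h4.le
      have h6 : (((⌊Y⌋ + 1 - ⌈X⌉).toNat : ℤ) : ℝ) = ((⌊Y⌋ + 1 - ⌈X⌉ : ℤ) : ℝ) := by rw [h5]
      have h7 : (((⌊Y⌋ + 1 - ⌈X⌉).toNat : ℕ) : ℝ) = (⌊Y⌋ : ℝ) + 1 - (⌈X⌉ : ℝ) := by
        have : (((⌊Y⌋ + 1 - ⌈X⌉).toNat : ℤ) : ℝ) = (((⌊Y⌋ + 1 - ⌈X⌉).toNat : ℕ) : ℝ) := by norm_cast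
        rw [← this, h6]
        push_cast
        ring
      rw [h7]
      linarith
  refine (measure_mono hsub).trans ((measure_biUnion_finset_le I _).trans ?_)
  refine (Finset.sum_le_sum fun m _ => hone m).trans ?_
  rw [Finset.sum_const, nsmul_eq_mul, ← ENNReal.ofReal_natCast, ← ENNReal.ofReal_mul (by positivity)]
  refine ENNReal.ofReal_le_ofReal ?_
  exact mul_le_mul_of_nonneg_right hcard (by positivity)

/-- the size of the exceptional set -/
lemma bad_vol {ι : Type} [Fintype ι] {σ : Type} [Fintype σ] (K Θ : σ → (ι → ℂ) → ℝ)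
    (hK : ∀ k, Measurable (K k)) (hΘ : ∀ k, Measurable (Θ k))
    (hom : ∀ (k : σ) (u : ℝ), 0 < u → ∀ v, K k (u • v) = K k v ∧
      Θ k (u • v) = Θ k v + K k v * Real.log u)
    (δ L : ℝ) (hδ1 : δ ≤ 1) (F : Set (ι → ℂ))
    (hF : F = closedBall (0 : ι → ℂ) 1 ∩ {v | ∃ k, K k v ≠ 0 ∧
      ∃ m : ℤ, |Θ k v + K k v * L - 2 * Real.pi * m| < δ}) :
    MeasurableSet F ∧ volume F ≤ 2 * ∫⁻ v in closedBall (0 : ι → ℂ) 2,
      ∑ k, min 1 (ENNReal.ofReal ((2 * |K k v| + 5) * (2 * δ / |K k v|))) := by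
  have hFm : MeasurableSet F := by
    rw [hF]
    refine measurableSet_closedBall.inter ?_
    have e : {v : ι → ℂ | ∃ k, K k v ≠ 0 ∧ ∃ m : ℤ, |Θ k v + K k v * L - 2 * Real.pi * m| < δ} =
        ⋃ k, ({v | K k v ≠ 0} ∩ ⋃ m : ℤ, {v | |Θ k v + K k v * L - 2 * Real.pi * m| < δ}) := by
      ext v
      simp only [mem_ofPred_eq, mem_iUnion, mem_inter_iff]
    rw [e]
    refine MeasurableSet.iUnion fun k => ?_
    have hk1 := hK k
    have hk2 := hΘ k
    refine MeasurableSet.inter ?_ (MeasurableSet.iUnion fun m => ?_)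
    · exact (measurableSet_eq_fun hk1 measurable_const).compl
    · refine measurableSet_lt ?_ measurable_const
      have : Measurable fun v => Θ k v + K k v * L - 2 * Real.pi * m :=
        (hk2.add (hk1.mul_const L)).sub_const _
      exact this.abs
  refine ⟨hFm, ?_⟩
  obtain ⟨S, hS⟩ : ∃ S : Set (ℝ × (ι → ℂ)), S = {p | p.1 ∈ Icc (1 / 2 : ℝ) 1 ∧ p.1 • p.2 ∈ F} :=
    ⟨_, rfl⟩
  have hSm : MeasurableSet S := by
    rw [hS]
    refine (measurableSet_Icc.preimage measurable_fst).inter ?_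
    have hc : Continuous fun p : ℝ × (ι → ℂ) => p.1 • p.2 := by fun_prop
    exact hFm.preimage hc.measurable
  have h1 : volume F * ENNReal.ofReal (1 / 2) ≤ (volume.prod volume) S := by
    rw [Measure.prod_apply hSm]
    have e : volume F * ENNReal.ofReal (1 / 2) = ∫⁻ _ in Icc (1 / 2 : ℝ) 1, volume F := by
      rw [setLIntegral_const, Real.volume_Icc]
      norm_num
    rw [e]
    refine le_trans ?_ (setLIntegral_le_lintegral (Icc (1 / 2 : ℝ) 1) _)
    refine setLIntegral_mono' measurableSet_Icc fun u hu => ?_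
    have hu0 : 0 < u := by linarith [hu.1]
    have e2 : Prod.mk u ⁻¹' S = (fun v : ι → ℂ => u • v) ⁻¹' F := by
      rw [hS]
      ext v
      simp only [mem_preimage, mem_ofPred_eq]
      exact ⟨fun h => h.2, fun h => ⟨hu, h⟩⟩
    rw [e2, Measure.addHaar_preimage_smul volume hu0.ne']
    refine le_mul_of_one_le_left' ?_
    rw [← ENNReal.ofReal_one]
    refine ENNReal.ofReal_le_ofReal ?_
    rw [abs_inv, abs_pow, abs_of_pos hu0]
    exact one_le_inv_iff₀.2 ⟨by positivity, pow_le_one₀ hu0.le hu.2⟩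
  have h2 : (volume.prod volume) S ≤ ∫⁻ v in closedBall (0 : ι → ℂ) 2,
      ∑ k, min 1 (ENNReal.ofReal ((2 * |K k v| + 5) * (2 * δ / |K k v|))) := by
    rw [Measure.prod_apply_symm hSm, ← lintegral_indicator measurableSet_closedBall]
    refine lintegral_mono fun v => ?_
    by_cases hv : v ∈ closedBall (0 : ι → ℂ) 2
    · rw [indicator_of_mem hv]
      have hsub : (fun u : ℝ => (u, v)) ⁻¹' S ⊆ ⋃ k ∈ (Finset.univ : Finset σ), {u : ℝ |
          u ∈ Icc (1 / 2 : ℝ) 1 ∧ K k v ≠ 0 ∧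
          ∃ m : ℤ, |(Θ k v + K k v * L) + K k v * Real.log u - 2 * Real.pi * m| < δ} := by
        intro u hu
        rw [hS] at hu
        obtain ⟨hu1, hu2⟩ := hu
        simp only at hu1 hu2
        rw [hF] at hu2
        obtain ⟨-, k, hk, m, hm⟩ := hu2
        obtain ⟨g1, g2⟩ := hom k u (by linarith [hu1.1]) v
        rw [g1] at hk
        rw [g1, g2] at hm
        refine mem_iUnion₂.2 ⟨k, Finset.mem_univ _, hu1, hk, m, ?_⟩
        have e : Θ k v + K k v * L + K k v * Real.log u - 2 * Real.pi * m =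
          Θ k v + K k v * Real.log u + K k v * L - 2 * Real.pi * m := by ring
        rw [e]
        exact hm
      refine (measure_mono hsub).trans ((measure_biUnion_finset_le _ _).trans ?_)
      refine Finset.sum_le_sum fun k _ => le_min ?_ ?_
      · have h3 : {u : ℝ | u ∈ Icc (1 / 2 : ℝ) 1 ∧ K k v ≠ 0 ∧
            ∃ m : ℤ, |(Θ k v + K k v * L) + K k v * Real.log u - 2 * Real.pi * m| < δ} ⊆
            Icc (1 / 2 : ℝ) 1 := fun u hu => hu.1
        refine (measure_mono h3).trans ?_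
        rw [Real.volume_Icc, ← ENNReal.ofReal_one]
        exact ENNReal.ofReal_le_ofReal (by norm_num)
      · by_cases hk : K k v = 0
        · have h3 : {u : ℝ | u ∈ Icc (1 / 2 : ℝ) 1 ∧ K k v ≠ 0 ∧
            ∃ m : ℤ, |(Θ k v + K k v * L) + K k v * Real.log u - 2 * Real.pi * m| < δ} = ∅ := by
            ext u
            simp [hk]
          rw [h3, measure_empty]
          exact zero_le
        · refine le_trans (measure_mono ?_) (log_meas (K k v) hk (Θ k v + K k v * L) δ hδ1)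
          rintro u ⟨g1, -, g2⟩
          exact ⟨g1, g2⟩
    · have h3 : (fun u : ℝ => (u, v)) ⁻¹' S = ∅ := by
        ext u
        simp only [mem_preimage, mem_empty_iff_false, iff_false]
        intro hu
        rw [hS] at hu
        obtain ⟨hu1, hu2⟩ := hu
        simp only at hu1 hu2
        rw [hF] at hu2
        have h4 := hu2.1
        rw [mem_closedBall, dist_zero_right, norm_smul, Real.norm_of_nonneg (by linarith [hu1.1])] at h4
        apply hv
        rw [mem_closedBall, dist_zero_right]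
        nlinarith [hu1.1, norm_nonneg v]
      rw [h3, measure_empty]
      exact zero_le
  have h3 := h1.trans h2
  have h4 : volume F = 2 * (volume F * ENNReal.ofReal (1 / 2)) := by
    have e : (2 : ℝ≥0∞) * ENNReal.ofReal (1 / 2) = 1 := by
      have : (2 : ℝ≥0∞) = ENNReal.ofReal 2 := by norm_num
      rw [this, ← ENNReal.ofReal_mul (by norm_num)]
      norm_num
    rw [mul_comm (volume F), ← mul_assoc, e, one_mul]
  rw [h4]
  exact mul_le_mul_right h3 2

/-- the bounds for the sizes of the exceptional sets tend to zero -/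
lemma bad_tendsto {ι : Type} [Fintype ι] {σ : Type} [Fintype σ] (K : σ → (ι → ℂ) → ℝ)
    (hK : ∀ k, Measurable (K k)) :
    Tendsto (fun n : ℕ => ∫⁻ v in closedBall (0 : ι → ℂ) 2,
      ∑ k, min 1 (ENNReal.ofReal ((2 * |K k v| + 5) * (2 * (1 / ((n : ℝ) + 1)) / |K k v|))))
      atTop (𝓝 0) := by
  have hfin : volume (closedBall (0 : ι → ℂ) 2) ≠ ⊤ := measure_closedBall_lt_top.ne
  have h0 : (∫⁻ _ in closedBall (0 : ι → ℂ) 2, (0 : ℝ≥0∞)) = 0 := by simp
  rw [← h0]
  refine tendsto_lintegral_of_dominated_convergence (fun _ => (Fintype.card σ : ℝ≥0∞)) ?_ ?_ ?_ ?_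
  · intro n
    refine Finset.measurable_sum _ fun k _ => ?_
    have hk := hK k
    refine measurable_const.min ?_
    refine ENNReal.measurable_ofReal.comp ?_
    exact ((hk.abs.const_mul 2).add_const 5).mul (measurable_const.div hk.abs)
  · intro n
    refine Eventually.of_forall fun v => ?_
    refine (Finset.sum_le_sum fun k _ => min_le_left _ _).trans ?_
    simp
  · rw [setLIntegral_const]
    exact ENNReal.mul_ne_top (ENNReal.natCast_ne_top _) hfin
  · refine Eventually.of_forall fun v => ?_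
    have h1 : ∀ k ∈ (Finset.univ : Finset σ), Tendsto (fun n : ℕ => min (1 : ℝ≥0∞)
        (ENNReal.ofReal ((2 * |K k v| + 5) * (2 * (1 / ((n : ℝ) + 1)) / |K k v|)))) atTop (𝓝 0) := by
      intro k _
      have h2 : Tendsto (fun n : ℕ => ENNReal.ofReal ((2 * |K k v| + 5) *
          (2 * (1 / ((n : ℝ) + 1)) / |K k v|))) atTop (𝓝 0) := by
        have h3 : Tendsto (fun n : ℕ => (2 * |K k v| + 5) * (2 * (1 / ((n : ℝ) + 1)) / |K k v|)) atTop
            (𝓝 ((2 * |K k v| + 5) * (2 * 0 / |K k v|))) :=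
          ((tendsto_one_div_add_atTop_nhds_zero_nat.const_mul 2).div_const _).const_mul _
        rw [mul_zero, zero_div, mul_zero] at h3
        have h4 := ENNReal.tendsto_ofReal h3
        rwa [ENNReal.ofReal_zero] at h4
      exact tendsto_of_tendsto_of_tendsto_of_le_of_le tendsto_const_nhds h2 (fun _ => zero_le)
        (fun _ => min_le_right _ _)
    have h2 := tendsto_finsetSum (Finset.univ : Finset σ) h1
    rw [Finset.sum_const_zero] at h2
    exact h2

/-- Full density from convergence along subsequences outside small sets. -/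
theorem density_gen2 {ι : Type} [Fintype ι] (c0 : ι → ℂ) (G : Set (ι → ℂ)) (hG : MeasurableSet G)
    {σ : Type} [Fintype σ] (K Θ : σ → (ι → ℂ) → ℝ)
    (hK : ∀ k, Measurable (K k)) (hΘ : ∀ k, Measurable (Θ k))
    (hom : ∀ (k : σ) (u : ℝ), 0 < u → ∀ v, K k (u • v) = K k v ∧
      Θ k (u • v) = Θ k v + K k v * Real.log u)
    (H : ∀ r : ℕ → ℝ, Tendsto r atTop (𝓝[>] 0) → ∃ s : ℕ → ℕ, Tendsto s atTop atTop ∧
      ∀ᵐ v : ι → ℂ, v ∈ BB ι → ∀ n : ℕ, ∀ᶠ j in atTop,
        (∀ k, K k v ≠ 0 → ∀ m : ℤ,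
          1 / ((n : ℝ) + 1) ≤ |Θ k v + K k v * Real.log (r (s j)) - 2 * Real.pi * m|) →
        c0 + r (s j) • v ∈ G) :
    Tendsto (fun r : ℝ => volume {a : ι → ℂ | (∀ i, ‖a i - c0 i‖ ≤ r) ∧ a ∉ G} /
      volume {a : ι → ℂ | ∀ i, ‖a i - c0 i‖ ≤ r}) (𝓝[>] 0) (𝓝 0) := by
  obtain ⟨A, hA⟩ : ∃ A : ℝ → Set (ι → ℂ),
      A = fun r => BB ι ∩ {v | c0 + r • v ∉ G} := ⟨_, rfl⟩
  have hBB : BB ι = closedBall (0 : ι → ℂ) 1 := by
    ext v
    rw [mem_closedBall, dist_zero_right, pi_norm_le_iff_of_nonneg zero_le_one]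
    rfl
  have hB1c : IsClosed (BB ι) := by rw [hBB]; exact isClosed_closedBall
  have hB1fin : volume (BB ι) ≠ ⊤ := by
    rw [hBB]; exact measure_closedBall_lt_top.ne
  have hB1pos : volume (BB ι) ≠ 0 := by
    rw [hBB]; exact (measure_closedBall_pos volume _ one_pos).ne'
  have hAm : ∀ r, MeasurableSet (A r) := by
    intro r
    rw [hA]
    refine hB1c.measurableSet.inter ?_
    have hcont : Continuous (fun v : ι → ℂ => c0 + r • v) := by fun_prop
    exact (hcont.measurable hG).compl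
  -- scaling
  have hscale : ∀ r : ℝ, 0 < r → ∀ D : Set (ι → ℂ),
      volume {a | ∃ v ∈ D, a = c0 + r • v} =
        ENNReal.ofReal |r ^ Module.finrank ℝ (ι → ℂ)| * volume D := by
    intro r hr D
    have h1 : {a | ∃ v ∈ D, a = c0 + r • v} = (fun a => a + (-c0)) ⁻¹' (r • D) := by
      ext a
      constructor
      · rintro ⟨v, hv, rfl⟩
        exact ⟨v, hv, by simp⟩
      · rintro ⟨v, hv, h⟩
        refine ⟨v, hv, ?_⟩
        simp only at h
        rw [h]
        abel
    rw [h1, measure_preimage_add_right, Measure.addHaar_smul]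
  have hratio : ∀ r : ℝ, 0 < r → volume {a : ι → ℂ |
        (∀ i, ‖a i - c0 i‖ ≤ r) ∧ a ∉ G} /
      volume {a : ι → ℂ | ∀ i, ‖a i - c0 i‖ ≤ r} =
      volume (A r) / volume (BB ι) := by
    intro r hr
    have hnorm : ∀ v : ι → ℂ, (∀ i, ‖(c0 + r • v) i - c0 i‖ ≤ r) ↔ v ∈ BB ι := by
      intro v
      refine forall_congr' fun i => ?_
      have : (c0 + r • v) i - c0 i = (r : ℂ) * v i := by
        simp
      rw [this, norm_mul, Complex.norm_of_nonneg hr.le]
      constructor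
      · intro h
        by_contra hcon
        push Not at hcon
        nlinarith
      · intro h
        nlinarith [norm_nonneg (v i)]
    have hex : ∀ a : ι → ℂ, ∃ v, a = c0 + r • v := by
      intro a
      refine ⟨r⁻¹ • (a - c0), ?_⟩
      rw [smul_smul, mul_inv_cancel₀ hr.ne', one_smul]
      abel
    have e1 : {a : ι → ℂ | (∀ i, ‖a i - c0 i‖ ≤ r) ∧ a ∉ G} = {a | ∃ v ∈ A r, a = c0 + r • v} := by
      ext a
      constructor
      · rintro ⟨h1, h2⟩
        obtain ⟨v, rfl⟩ := hex a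
        refine ⟨v, ?_, rfl⟩
        rw [hA]
        exact ⟨(hnorm v).mp h1, h2⟩
      · rintro ⟨v, hv, rfl⟩
        rw [hA] at hv
        exact ⟨(hnorm v).mpr hv.1, hv.2⟩
    have e2 : {a : ι → ℂ | ∀ i, ‖a i - c0 i‖ ≤ r} = {a | ∃ v ∈ BB ι, a = c0 + r • v} := by
      ext a
      constructor
      · intro h1
        obtain ⟨v, rfl⟩ := hex a
        exact ⟨v, (hnorm v).mp h1, rfl⟩
      · rintro ⟨v, hv, rfl⟩
        exact (hnorm v).mpr hv
    rw [e1, e2, hscale r hr, hscale r hr]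
    refine ENNReal.mul_div_mul_left _ _ ?_ ENNReal.ofReal_ne_top
    have : 0 < |r ^ Module.finrank ℝ (ι → ℂ)| := by positivity
    exact (ENNReal.ofReal_pos.mpr this).ne'
  have hmain : Tendsto (fun r : ℝ => volume (A r)) (𝓝[>] 0) (𝓝 0) := by
    refine tendsto_of_subseq_tendsto fun ns hns => ?_
    obtain ⟨s, hs, hae⟩ := H ns hns
    refine ⟨s, ?_⟩
    obtain ⟨F, hF⟩ : ∃ F : ℕ → ℕ → Set (ι → ℂ), F = fun (n j : ℕ) => closedBall (0 : ι → ℂ) 1 ∩
      {v | ∃ k, K k v ≠ 0 ∧ ∃ m : ℤ, |Θ k v + K k v * Real.log (ns (s j)) - 2 * Real.pi * m| <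
        1 / ((n : ℝ) + 1)} := ⟨_, rfl⟩
    have hn1 : ∀ n : ℕ, 1 / ((n : ℝ) + 1) ≤ 1 := by
      intro n
      rw [div_le_one (by positivity)]
      have : (0 : ℝ) ≤ n := by positivity
      linarith
    have hFb := fun n j : ℕ => bad_vol K Θ hK hΘ hom (1 / ((n : ℝ) + 1)) (Real.log (ns (s j))) (hn1 n)
      (F n j) (by rw [hF])
    have hE : ∀ n : ℕ, Tendsto (fun j => volume (A (ns (s j)) \ F n j)) atTop (𝓝 0) := by
      intro n
      have h1 := tendsto_measure_of_ae_tendsto_indicator (μ := volume) (A := ∅)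
        (As := fun j => A (ns (s j)) \ F n j) (B := BB ι) atTop MeasurableSet.empty
        (fun j => (hAm _).diff (hFb n j).1) hB1c.measurableSet hB1fin
        (Eventually.of_forall fun j => by
          rw [hA]; exact sdiff_subset.trans inter_subset_left) ?_
      · rw [measure_empty] at h1
        exact h1
      · filter_upwards [hae] with v hv
        by_cases hvB : v ∈ BB ι
        · filter_upwards [hv hvB n] with j hj1
          simp only [mem_empty_iff_false, iff_false]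
          rintro ⟨hmem, hnF⟩
          rw [hA] at hmem
          refine hmem.2 (hj1 fun k hk m => ?_)
          by_contra hcon
          push Not at hcon
          apply hnF
          rw [hF]
          exact ⟨by rw [← hBB]; exact hvB, k, hk, m, hcon⟩
        · refine Eventually.of_forall fun j => ?_
          simp only [mem_empty_iff_false, iff_false]
          rintro ⟨hmem, -⟩
          rw [hA] at hmem
          exact hvB hmem.1
    rw [ENNReal.tendsto_nhds_zero]
    intro ε hε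
    have hb := bad_tendsto K hK
    have hb2 := ENNReal.Tendsto.const_mul (a := 2) hb (Or.inr (by norm_num))
    rw [mul_zero] at hb2
    have hε2 : 0 < ε / 2 := ENNReal.half_pos hε.ne'
    obtain ⟨n, hn⟩ := (ENNReal.tendsto_nhds_zero.1 hb2 (ε / 2) hε2).exists
    filter_upwards [ENNReal.tendsto_nhds_zero.1 (hE n) (ε / 2) hε2] with j hj
    have h1 : A (ns (s j)) ⊆ (A (ns (s j)) \ F n j) ∪ F n j := by
      intro v hv
      by_cases h : v ∈ F n j
      · exact Or.inr h
      · exact Or.inl ⟨hv, h⟩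
    refine (measure_mono h1).trans ((measure_union_le _ _).trans ?_)
    rw [← ENNReal.add_halves ε]
    exact add_le_add hj ((hFb n j).2.trans hn)
  have hfin : Tendsto (fun r : ℝ => volume (A r) / volume (BB ι)) (𝓝[>] 0) (𝓝 0) := by
    have h1 := ENNReal.Tendsto.mul_const (b := (volume (BB ι))⁻¹) hmain
      (Or.inr (ENNReal.inv_ne_top.mpr hB1pos))
    rw [zero_mul] at h1
    exact h1
  refine hfin.congr' ?_
  filter_upwards [self_mem_nhdsWithin] with r hr
  exact (hratio r hr).symm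

end Run7.h904.UQ
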