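import Mathlib
import Pool.Agent.Run7.h904.U12Zero
import Pool.Agent.Run7.h904.U8Dens

set_option autoImplicit false

open Topology Filter Metric Set Polynomial MeasureTheory Asymptotics Pointwise
open scoped OnePoint

namespace Run7.h904.RF

open Pool.Agent.H790R3.RB (CV hF cr ND wr rt sp pr hc pol Sink Attd HypTop)
open Pool.Agent.W757.QR Pool.Agent.W757.RF Pool.Agent.W757.Q2
open Pool.Agent.W29.RQSNK (sp_iter fin_of sp_fx)
open Run7.h904.UQ (density_gen2)

/-- the main theorem for geometrically finite maps on the level of coefficient vectors -/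
theorem mainR4 {d : ℕ} (hd : 2 ≤ d) (x : CV d) (hx : ND x)
    (hcrit : ∀ z ∈ Crt x, Attd (sp x) z ∨ (∃ a, ParB (sp x) z a) ∨ PreP (sp x) z ∨ PreN (sp x) z)
    (hgood : ∃ z, Attd (sp x) z ∨ ∃ a, ParB (sp x) z a) :
    Tendsto (fun r : ℝ => volume {a : CV d | (∀ i, ‖a i - x i‖ ≤ r) ∧ ¬ HyR a} /
      volume {a : CV d | ∀ i, ‖a i - x i‖ ≤ r}) (𝓝[>] 0) (𝓝 0) := by
  classical
  -- the points to be avoided
  obtain ⟨B, hB⟩ : ∃ B : Set (OnePoint ℂ), B = (⋃ z ∈ Crt x, range fun n : ℕ => (sp x)^[n] z) ∪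
    Function.periodicPts (sp x) := ⟨_, rfl⟩
  have hBc : B.Countable := by
    rw [hB]
    exact ((crt_finite hd x hx).countable.biUnion fun z _ => countable_range _).union
      (per_countableS hd x hx)
  have hBi : ({z | Gd x z} ∩ Bᶜ).Infinite := by
    intro hfin
    obtain ⟨z₀, hz₀⟩ := hgood
    obtain ⟨U, hU, hUg⟩ := gd_open hd x hx z₀ hz₀
    have h1 : (chart z₀ ⁻¹' U).Countable := by
      have h2 : U ⊆ ({z | Gd x z} ∩ Bᶜ) ∪ B := by
        intro w hw
        by_cases hwB : w ∈ B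
        · exact Or.inr hwB
        · exact Or.inl ⟨hUg w hw, hwB⟩
      exact ((hfin.countable.union hBc).mono h2).preimage (chart_inj z₀)
    have h2 : chart z₀ ⁻¹' U ∈ 𝓝 (0 : ℂ) := by
      apply (chart_cont z₀).continuousAt.preimage_mem_nhds
      rw [chart_zero]
      exact hU
    obtain ⟨r, hr, hb⟩ := Metric.mem_nhds_iff.1 h2
    exact (measure_ball_pos volume (0 : ℂ) hr).ne' ((h1.mono hb).measure_zero volume)
  obtain ⟨a, b, c, e, h, x₁, T, hdet, hh, hx₁, hs, hG, hT, hTi, hsT, hinf, hcr⟩ :=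
    genm_lin d x ({z | Gd x z} ∩ Bᶜ) hBi hd hx
  have hs' : ∀ z, sp x₁ (h z) = h (sp x z) := fun z => (hs z).symm
  have hit := fun n z => Pool.Agent.H790R3.RB.ALL.iter h hs' n z
  have hgd : ∀ z, Gd x z → Gd x₁ (h z) := by
    rintro z (h1 | ⟨a', h1⟩)
    · exact Or.inl (Pool.Agent.H790R3.RB.ALL.attd h hs' h1)
    · exact Or.inr ⟨h a', parB_transport hdet hh hs' h1⟩
  have hcr₁ : ∀ z' ∈ Crt x₁, (∀ n : ℕ, (sp x₁)^[n] z' ≠ ∞) ∧
      (Gd x₁ z' ∨ PreP (sp x₁) z' ∨ PreN (sp x₁) z') := by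
    intro z' hz'
    have hsym : ∀ z, h.symm (sp x₁ z) = sp x (h.symm z) := by
      intro z
      apply h.injective
      rw [hs, h.apply_symm_apply, h.apply_symm_apply]
    have h1 : h.symm z' ∈ Crt x := crt_conj hd hx₁ hx h.symm hsym z' hz'
    obtain ⟨z, rfl⟩ : ∃ z, h z = z' := ⟨h.symm z', h.apply_symm_apply _⟩
    rw [h.symm_apply_apply] at h1
    refine ⟨?_, ?_⟩
    · intro n h0
      rw [hit] at h0
      apply hinf.2
      rw [← h0, h.symm_apply_apply, hB]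
      left
      exact mem_biUnion h1 ⟨n, rfl⟩
    · rcases hcrit z h1 with h2 | h2 | h2 | h2
      · exact Or.inl (hgd z (Or.inl h2))
      · exact Or.inl (hgd z (Or.inr h2))
      · exact Or.inr (Or.inl (preP_transport hdet hh hs' h2))
      · exact Or.inr (Or.inr (preN_transport hdet hh hs' h2))
  have hinf₁ : ∞ ∉ Function.periodicPts (sp x₁) := by
    rintro ⟨n, hn, hper⟩
    apply hinf.2
    rw [hB]
    right
    refine Function.mk_mem_periodicPts hn ?_
    show (sp x)^[n] (h.symm ∞) = h.symm ∞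
    apply h.injective
    rw [← hit, h.apply_symm_apply]
    exact hper
  have hginf : Gd x₁ ∞ := by
    have h1 := hgd _ hinf.1
    rwa [h.apply_symm_apply] at h1
  have hJ₁ : ∀ᵐ z : ℂ, GdE x₁ (z : OnePoint ℂ) := by
    rw [ae_iff]
    exact zero_area'N hd x₁ hx₁ (fun z hz => (hcr₁ z hz).2) hginf hinf₁
  have hrec := ae_norecurE hd x₁ hx₁ hJ₁
  have hpinf : ∀ (a : OnePoint ℂ) (p q : ℕ), ParS (sp x₁) p q a → ∀ n : ℕ, (sp x₁)^[n] a ≠ ∞ := by
    intro a p q hpar n h0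
    have hpa : (sp x₁)^[p] a = a := by
      obtain ⟨-, -, -, lam, g, -, g0, -, ge⟩ := hpar
      have h1 := ge.self_of_nhds
      rwa [g0, chart_zero] at h1
    apply hinf₁
    rw [← h0]
    refine Function.mk_mem_periodicPts hpar.1 ?_
    show (sp x₁)^[p] ((sp x₁)^[n] a) = (sp x₁)^[n] a
    rw [← Function.iterate_add_apply, add_comm, Function.iterate_add_apply, hpa]
  have hopen : IsOpen {a : CV d | HyR a} := isOpen_iff_mem_nhds.mpr fun a ha => hyR_open hd a ha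
  obtain ⟨K₀, hK₀, hKT⟩ := T.exists_antilipschitzWith (LinearMap.ker_eq_bot.2 hTi)
  have hsurj : Function.Surjective T := LinearMap.injective_iff_surjective.mp hTi
  have hHy : ∀ x' : CV d, HyR x' → HyR (T x') := by
    rintro x' ⟨h1, h2⟩
    obtain ⟨h3, h4⟩ := hsT x' h1
    refine ⟨h3, fun z hz => ?_⟩
    have h5 := h2 _ (crt_conj hd h3 h1 h h4 z hz)
    have h6 : ∀ w, sp (T x') (h.symm w) = h.symm (sp x' w) := by
      intro w
      apply h.injective
      rw [h4, h.apply_symm_apply, h.apply_symm_apply]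
    have h7 := Pool.Agent.H790R3.RB.ALL.attd h.symm h6 h5
    rwa [h.symm_apply_apply] at h7
  obtain ⟨K, Θ, hKm, hΘm, hhom, hseq⟩ := seq_hypN (LinearMap.id (R := ℂ) (M := CV d)) hd x₁ hx₁
    hpinf (fun b lam p q hp => by
      have hnorm : ‖lam‖ = 1 := by
        have := congrArg norm hp.lamq
        rw [norm_pow, norm_one] at this
        exact (pow_eq_one_iff_of_nonneg (norm_nonneg _) hp.qp.ne').mp this
      exact ⟨fun hl => transAR hd x₁ hx₁ hG b lam hp.fin p hp.pp hp.per hp.der hnorm hl,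
        fun hl => transBR hd x₁ hx₁ hG b hp.fin p hp.pp hp.per (by rw [hp.der, hl])⟩)
    (fun c₀ hc hfin M' p' hp' hper hrep => pre_dataJ _ x₁
      (fun c hc m N hmN hper hne hinj hD => critT hd x₁ hx₁ hG c hc m N hmN hper hne hinj hD hrec)
      c₀ hc hfin M' p' hp' hper hrep)
    (fun c₀ hc hfin M' p' q' hp' hq' hper hrep => pre_dataN _ x₁
      (fun c hc m N hmN hper hne hinj hD => critT hd x₁ hx₁ hG c hc m N hmN hper hne hinj hD hrec)
      c₀ hc hfin M' p' q' hp' hq' hper hrep)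
    (fun z hz => Or.inr (hcr₁ z hz)) hJ₁
  obtain ⟨E, hE⟩ : ∃ E : CV d ≃ₗ[ℂ] CV d, ∀ v, E v = T v :=
    ⟨LinearEquiv.ofBijective T ⟨hTi, hsurj⟩, fun v => rfl⟩
  have hEm : Measurable E.symm :=
    (LinearMap.continuous_of_finiteDimensional (E.symm : CV d →ₗ[ℂ] CV d)).measurable
  have hET : ∀ v, E.symm (T v) = v := fun v => by rw [← hE, E.symm_apply_apply]
  haveI : Fintype {z : OnePoint ℂ // z ∈ Crt x₁} := (crt_finite hd x₁ hx₁).fintype
  refine density_gen2 x {a : CV d | HyR a} hopen.measurableSet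
    (fun (k : {z : OnePoint ℂ // z ∈ Crt x₁}) v => K k.1 (E.symm v))
    (fun (k : {z : OnePoint ℂ // z ∈ Crt x₁}) v => Θ k.1 (E.symm v))
    (fun k => (hKm k.1).comp hEm) (fun k => (hΘm k.1).comp hEm) ?_ ?_
  · intro k u hu v
    have e : E.symm (u • v) = u • E.symm v :=
      ((E.symm : CV d →ₗ[ℂ] CV d).restrictScalars ℝ).map_smul u v
    simp only [e]
    exact hhom k.1 u hu _
  intro r hr
  obtain ⟨s, hsm, hae⟩ := hseq K₀ r hr
  refine ⟨s, hsm.tendsto_atTop, ?_⟩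
  rw [ae_iff] at hae ⊢
  have h1 : {V : CV d | ¬ (V ∈ BB (Fin 2 × Fin (d + 1)) → ∀ n : ℕ, ∀ᶠ j in atTop,
      (∀ k : {z : OnePoint ℂ // z ∈ Crt x₁}, K k.1 (E.symm V) ≠ 0 → ∀ m : ℤ,
          1 / ((n : ℝ) + 1) ≤ |Θ k.1 (E.symm V) + K k.1 (E.symm V) * Real.log (r (s j)) -
            2 * Real.pi * m|) → x + r (s j) • V ∈ {a : CV d | HyR a})} ⊆
      (T.restrictScalars ℝ) '' {V : CV d | ¬ (‖V‖ ≤ K₀ → ∀ n : ℕ, ∀ᶠ j in atTop,
        (∀ z ∈ Crt x₁, K z V ≠ 0 → ∀ m : ℤ,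
          1 / ((n : ℝ) + 1) ≤ |Θ z V + K z V * Real.log (r (s j)) - 2 * Real.pi * m|) →
        HyR (Xt x₁ V (r (s j))))} := by
    intro V hV
    obtain ⟨V₁, rfl⟩ := hsurj V
    refine ⟨V₁, fun h2 => hV fun hbox n => ?_, rfl⟩
    have h3 : ‖T V₁‖ ≤ 1 := (pi_norm_le_iff_of_nonneg zero_le_one).2 hbox
    have h4 : ‖V₁‖ ≤ K₀ := by
      have h5 := hKT.le_mul_dist V₁ 0
      rw [dist_zero_right, map_zero, dist_zero_right] at h5
      refine h5.trans ?_
      have h6 : (K₀ : ℝ) * ‖T V₁‖ ≤ K₀ * 1 := mul_le_mul_of_nonneg_left h3 K₀.2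
      linarith
    filter_upwards [h2 h4 n] with j hj hcond
    have e : x + r (s j) • T V₁ = T (Xt x₁ V₁ (r (s j))) := by
      unfold Xt
      rw [map_add, hT]
      congr 1
      exact ((T.restrictScalars ℝ).map_smul (r (s j)) V₁).symm
    rw [e]
    refine hHy _ (hj fun z hz hK m => ?_)
    have h5 := hcond ⟨z, hz⟩
    simp only [hET] at h5
    exact h5 hK m
  refine measure_mono_null h1 ?_
  rw [Measure.addHaar_image_linearMap]
  have h2 : volume {V : CV d | ¬ (‖V‖ ≤ K₀ → ∀ n : ℕ, ∀ᶠ j in atTop,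
        (∀ z ∈ Crt x₁, K z V ≠ 0 → ∀ m : ℤ,
          1 / ((n : ℝ) + 1) ≤ |Θ z V + K z V * Real.log (r (s j)) - 2 * Real.pi * m|) →
        HyR (Xt x₁ V (r (s j))))} = 0 := hae
  rw [h2, mul_zero]

/-- the main theorem for polynomials -/
theorem mainP4 {d : ℕ} (hd : 2 ≤ d) (a : Fin (d + 1) → ℂ) (ha : (pl a).natDegree = d)
    (hcrit : ∀ z ∈ Crt (xP a), Attd (sp (xP a)) z ∨ (∃ b, ParB (sp (xP a)) z b) ∨
      PreP (sp (xP a)) z ∨ PreN (sp (xP a)) z) :
    Tendsto (fun r : ℝ => volume {b : Fin (d + 1) → ℂ | (∀ i, ‖b i - a i‖ ≤ r) ∧ ¬ HyR (xP b)} /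
      volume {b : Fin (d + 1) → ℂ | ∀ i, ‖b i - a i‖ ≤ r}) (𝓝[>] 0) (𝓝 0) := by
  classical
  have hx := ND_xP hd a ha
  have hde := de_xP a
  have hdeg : 2 ≤ (nu (xP a)).natDegree := by rw [nu_xP, ha]; exact hd
  have hdeg' : (nu (xP a)).natDegree = d := by rw [nu_xP, ha]
  have hJ := zero_area_allN hd (xP a) hx hcrit ⟨∞, Or.inl (attd_inf hd hx hde hdeg)⟩
  have hopen : IsOpen {b : Fin (d + 1) → ℂ | HyR (xP b)} := by
    have h1 : IsOpen {x : CV d | HyR x} := isOpen_iff_mem_nhds.mpr fun a ha => hyR_open hd a ha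
    exact h1.preimage xP_cont
  obtain ⟨K, Θ, hKm, hΘm, hhom, hseq⟩ := seq_hypN (JP d) hd (xP a) hx (parS_fin hd hx hde hdeg)
    (fun b lam p q hp => transP hd (xP a) hde hdeg' b lam p q hp)
    (fun c₀ hc hfin M' p' hp' hper hrep => pre_dataJ (JP d) (xP a)
      (fun c hc m N hmN hper hne hinj hD => critTP hd (xP a) hx hde c hc m N hmN hper hne hinj hD)
      c₀ hc hfin M' p' hp' hper hrep)
    (fun c₀ hc hfin M' p' q' hp' hq' hper hrep => pre_dataN (JP d) (xP a)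
      (fun c hc m N hmN hper hne hinj hD => critTP hd (xP a) hx hde c hc m N hmN hper hne hinj hD)
      c₀ hc hfin M' p' q' hp' hq' hper hrep)
    (by
      intro z hz
      induction z using OnePoint.rec with
      | infty => exact Or.inl (attd_inf hd hx hde hdeg)
      | coe z =>
        have hzf : ∀ n : ℕ, (sp (xP a))^[n] (z : OnePoint ℂ) ≠ ∞ := by
          intro n
          rw [it_ev hd hx hde]
          exact OnePoint.coe_ne_infty _
        rcases hcrit _ hz with h1 | h1 | h1 | h1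
        · exact Or.inl h1
        · exact Or.inr ⟨hzf, Or.inl (Or.inr h1)⟩
        · exact Or.inr ⟨hzf, Or.inr (Or.inl h1)⟩
        · exact Or.inr ⟨hzf, Or.inr (Or.inr h1)⟩)
    hJ
  haveI : Fintype {z : OnePoint ℂ // z ∈ Crt (xP a)} := (crt_finite hd (xP a) hx).fintype
  refine density_gen2 a {b : Fin (d + 1) → ℂ | HyR (xP b)} hopen.measurableSet
    (fun (k : {z : OnePoint ℂ // z ∈ Crt (xP a)}) v => K k.1 v)
    (fun (k : {z : OnePoint ℂ // z ∈ Crt (xP a)}) v => Θ k.1 v)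
    (fun k => hKm k.1) (fun k => hΘm k.1) (fun k u hu v => hhom k.1 u hu v) ?_
  intro r hr
  obtain ⟨s, hsm, hae⟩ := hseq 1 r hr
  refine ⟨s, hsm.tendsto_atTop, ?_⟩
  filter_upwards [hae] with v hv hbox n
  have h1 : ‖v‖ ≤ 1 := (pi_norm_le_iff_of_nonneg zero_le_one).2 hbox
  filter_upwards [hv h1 n] with j hj hcond
  have h2 := hj fun z hz hK m => hcond ⟨z, hz⟩ hK m
  rw [Xt_xP] at h2
  exact h2

end Run7.h904.RF
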