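import Mathlib
import Pool.Agent.Run7.h904.U13Main

set_option autoImplicit false

open Topology Filter Metric Set Polynomial MeasureTheory Asymptotics Pointwise
open scoped OnePoint

namespace Run7.h904.RF

open Pool.Agent.H790R3.RB (CV hF cr ND wr rt sp pr hc pol Sink Attd HypTop)
open Pool.Agent.W757.QR Pool.Agent.W757.RF Pool.Agent.W757.Q2
open Pool.Agent.W29.RQSNK (sp_iter fin_of sp_fx)
open Run7.h904.UQ (density_gen2)

/-- the family in one complex direction -/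
noncomputable def Jl {d : ℕ} (V : CV d) : (Fin 1 → ℂ) →ₗ[ℂ] CV d :=
  (LinearMap.proj (0 : Fin 1) : (Fin 1 → ℂ) →ₗ[ℂ] ℂ).smulRight V

lemma Jl_apply {d : ℕ} (V : CV d) (u : Fin 1 → ℂ) : Jl V u = u 0 • V := rfl

lemma Jl_one {d : ℕ} (V : CV d) : Jl V (fun _ => 1) = V := by
  rw [Jl_apply, one_smul]

lemma fin1_vol (P : ℂ → Prop) (r : ℝ) :
    volume {a : Fin 1 → ℂ | (∀ i, ‖a i - (0 : Fin 1 → ℂ) i‖ ≤ r) ∧ P (a 0)} =
      volume {t : ℂ | ‖t‖ ≤ r ∧ P t} := by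
  have h := (volume_preserving_funUnique (Fin 1) ℂ).measure_preimage_equiv {t : ℂ | ‖t‖ ≤ r ∧ P t}
  rw [← h]
  congr 1
  ext a
  constructor
  · rintro ⟨h1, h2⟩
    have h3 := h1 0
    rw [Pi.zero_apply, sub_zero] at h3
    exact ⟨h3, h2⟩
  · rintro ⟨h1, h2⟩
    refine ⟨fun i => ?_, h2⟩
    rw [Subsingleton.elim i 0, Pi.zero_apply, sub_zero]
    exact h1

/-- full density in a transversal complex line -/
theorem line_dens {d : ℕ} (hd : 2 ≤ d) (x : CV d) (hx : ND x) (V : CV d)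
    (hpinf : ∀ (a : OnePoint ℂ) (p q : ℕ), ParS (sp x) p q a → ∀ n : ℕ, (sp x)^[n] a ≠ ∞)
    (hAB : ∀ (a lam : ℂ) (p q : ℕ), ParCR x a p q lam →
      (lam ≠ 1 → kapR x V a p lam ≠ 0) ∧ (lam = 1 → llR x V a p ≠ 0))
    (hC : ∀ c₀ : ℂ, (wn (nu x) (de x)).eval c₀ = 0 → Fin' x c₀ → ∀ (M' p' : ℕ), 0 < p' →
      (fx x)^[p'] ((fx x)^[M'] c₀) = (fx x)^[M'] c₀ → 1 < ‖ddR x ((fx x)^[M'] c₀) p'‖ →
      ∃ (b : ℂ) (M p : ℕ) (lam : ℂ), PreR x c₀ b M p lam ∧ ffR x V c₀ b M p lam ≠ 0)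
    (hN' : ∀ c₀ : ℂ, (wn (nu x) (de x)).eval c₀ = 0 → Fin' x c₀ → ∀ (M' p' q' : ℕ), 0 < p' →
      0 < q' → (fx x)^[p'] ((fx x)^[M'] c₀) = (fx x)^[M'] c₀ →
      ddR x ((fx x)^[M'] c₀) p' ^ q' = 1 →
      ∃ (b : ℂ) (M p q : ℕ) (lam : ℂ), PreQ x c₀ b M p q lam ∧
        (lam ≠ 1 → ffR x V c₀ b M p lam ≠ 0))
    (hcrit : ∀ z ∈ Crt x, Attd (sp x) z ∨
      ((∀ n : ℕ, (sp x)^[n] z ≠ ∞) ∧ (Gd x z ∨ PreP (sp x) z ∨ PreN (sp x) z)))
    (hJ : ∀ᵐ z : ℂ, GdE x (z : OnePoint ℂ)) :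
    Tendsto (fun r : ℝ => volume {t : ℂ | ‖t‖ ≤ r ∧ ¬ HyR (x + t • V)} /
      volume (closedBall (0 : ℂ) r)) (𝓝[>] 0) (𝓝 0) := by
  classical
  have hopen : IsOpen {u : Fin 1 → ℂ | HyR (x + u 0 • V)} := by
    have h1 : IsOpen {x : CV d | HyR x} := isOpen_iff_mem_nhds.mpr fun a ha => hyR_open hd a ha
    have h2 : Continuous fun u : Fin 1 → ℂ => x + u 0 • V := by fun_prop
    exact h1.preimage h2
  obtain ⟨K, Θ, hKm, hΘm, hhom, hseq⟩ := seq_hypN (Jl V) hd x hx hpinf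
    (fun b lam p q hp => ⟨fun hl => ⟨fun _ => 1, by rw [Jl_one]; exact (hAB b lam p q hp).1 hl⟩,
      fun hl => ⟨fun _ => 1, by rw [Jl_one]; exact (hAB b lam p q hp).2 hl⟩⟩)
    (fun c₀ hc hfin M' p' hp' hper hrep => by
      obtain ⟨b, M, p, lam, h1, h2⟩ := hC c₀ hc hfin M' p' hp' hper hrep
      exact ⟨b, M, p, lam, h1, fun _ => 1, by rw [Jl_one]; exact h2⟩)
    (fun c₀ hc hfin M' p' q' hp' hq' hper hrep => by
      obtain ⟨b, M, p, q, lam, h1, h2⟩ := hN' c₀ hc hfin M' p' q' hp' hq' hper hrep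
      exact ⟨b, M, p, q, lam, h1, fun hl => ⟨fun _ => 1, by rw [Jl_one]; exact h2 hl⟩⟩)
    hcrit hJ
  haveI : Fintype {z : OnePoint ℂ // z ∈ Crt x} := (crt_finite hd x hx).fintype
  have h1 := density_gen2 (0 : Fin 1 → ℂ) {u : Fin 1 → ℂ | HyR (x + u 0 • V)} hopen.measurableSet
    (fun (k : {z : OnePoint ℂ // z ∈ Crt x}) v => K k.1 v)
    (fun (k : {z : OnePoint ℂ // z ∈ Crt x}) v => Θ k.1 v)
    (fun k => hKm k.1) (fun k => hΘm k.1) (fun k u hu v => hhom k.1 u hu v) (by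
      intro r hr
      obtain ⟨s, hsm, hae⟩ := hseq 1 r hr
      refine ⟨s, hsm.tendsto_atTop, ?_⟩
      filter_upwards [hae] with v hv hbox n
      have h1 : ‖v‖ ≤ 1 := (pi_norm_le_iff_of_nonneg zero_le_one).2 hbox
      filter_upwards [hv h1 n] with j hj hcond
      have h2 := hj fun z hz hK m => hcond ⟨z, hz⟩ hK m
      show HyR (x + (0 + r (s j) • v) 0 • V)
      have e : x + (0 + r (s j) • v) 0 • V = Xt x (Jl V v) (r (s j)) := by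
        unfold Xt
        rw [Jl_apply]
        congr 1
        simp only [zero_add, Pi.smul_apply, Complex.real_smul, mul_smul]
        rw [← Complex.coe_smul]
      rw [e]
      exact h2)
  refine h1.congr fun r => ?_
  have e1 := fin1_vol (fun t => ¬ HyR (x + t • V)) r
  have e2 := fin1_vol (fun _ => True) r
  simp only [and_true] at e2
  rw [e2]
  have e3 : {t : ℂ | ‖t‖ ≤ r} = closedBall (0 : ℂ) r := by
    ext t
    simp
  rw [e3]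
  congr 1

/-- critical points -/
lemma wn_crt {d : ℕ} (x : CV d) (c : ℂ) (h : (wn (nu x) (de x)).eval c = 0) :
    (c : OnePoint ℂ) ∈ Crt x := by
  refine ⟨(c, 1), fun h => one_ne_zero (congrArg Prod.snd h), ?_, by simp [pr]⟩
  rw [Pool.Agent.W440.RE.GENM.wr_wn, h, mul_zero]

/-- full density in all complex lines outside countably many hyperplanes -/
theorem lines {ι : Type} [Fintype ι] {d : ℕ} (J : (ι → ℂ) →ₗ[ℂ] CV d) (hd : 2 ≤ d) (x : CV d)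
    (hx : ND x)
    (hpinf : ∀ (a : OnePoint ℂ) (p q : ℕ), ParS (sp x) p q a → ∀ n : ℕ, (sp x)^[n] a ≠ ∞)
    (hAB : ∀ (a lam : ℂ) (p q : ℕ), ParCR x a p q lam →
      (lam ≠ 1 → ∃ v, kapR x (J v) a p lam ≠ 0) ∧ (lam = 1 → ∃ v, llR x (J v) a p ≠ 0))
    (hcT : ∀ c : ℂ, (wn (nu x) (de x)).eval c = 0 → ∀ m N : ℕ, m < N →
      (fx x)^[N] (fx x c) = (fx x)^[m] (fx x c) →
      (∀ i : ℕ, (de x).eval ((fx x)^[i] (fx x c)) ≠ 0 ∧
        (wn (nu x) (de x)).eval ((fx x)^[i] (fx x c)) ≠ 0) →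
      (∀ i < N, 0 < i → (fx x)^[i] (fx x c) ≠ fx x c) →
      ddR x (fx x c) N ≠ ddR x (fx x c) m →
      ∃ v, llR x (J v) c (N + 1) ≠ llR x (J v) c (m + 1))
    (hcrit : ∀ z ∈ Crt x, Attd (sp x) z ∨
      ((∀ n : ℕ, (sp x)^[n] z ≠ ∞) ∧ (Gd x z ∨ PreP (sp x) z ∨ PreN (sp x) z)))
    (hJ : ∀ᵐ z : ℂ, GdE x (z : OnePoint ℂ)) :
    ∃ S : Set ((ι → ℂ) →ₗ[ℂ] ℂ), S.Countable ∧ (0 : (ι → ℂ) →ₗ[ℂ] ℂ) ∉ S ∧
      ∀ v : ι → ℂ, (∀ L ∈ S, L v ≠ 0) →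
        Tendsto (fun r : ℝ => volume {t : ℂ | ‖t‖ ≤ r ∧ ¬ HyR (x + t • J v)} /
          volume (closedBall (0 : ℂ) r)) (𝓝[>] 0) (𝓝 0) := by
  classical
  -- the functionals
  have hl1 : ∀ k : ℂ × ℂ × ℕ × ℕ, ∃ L : (ι → ℂ) →ₗ[ℂ] ℂ, ∀ v, L v = kapR x (J v) k.1 k.2.2.1 k.2.1 :=
    fun k => ⟨(linOf (fun V => kapR x V k.1 k.2.2.1 k.2.1)
      (fun c V W => kapR_lin x c V W k.1 k.2.2.1 k.2.1)).comp J, fun v => rfl⟩
  choose L₁ hL₁ using hl1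
  have hl2 : ∀ k : ℂ × ℂ × ℕ × ℕ, ∃ L : (ι → ℂ) →ₗ[ℂ] ℂ, ∀ v, L v = llR x (J v) k.1 k.2.2.1 :=
    fun k => ⟨(linOf (fun V => llR x V k.1 k.2.2.1)
      (fun c V W => llR_lin x c V W k.1 k.2.2.1)).comp J, fun v => rfl⟩
  choose L₂ hL₂ using hl2
  have hl3 : ∀ k : ℂ × ℕ × ℕ, ∃ L : (ι → ℂ) →ₗ[ℂ] ℂ, ∀ v, L v =
      ffR x (J v) k.1 ((fx x)^[k.2.1] k.1) k.2.1 k.2.2 (deriv ((fx x)^[k.2.2]) ((fx x)^[k.2.1] k.1)) :=
    fun k => ⟨(linOf (fun V => ffR x V k.1 ((fx x)^[k.2.1] k.1) k.2.1 k.2.2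
      (deriv ((fx x)^[k.2.2]) ((fx x)^[k.2.1] k.1)))
      (fun c V W => ffR_lin x c V W _ _ _ _ _)).comp J, fun v => rfl⟩
  choose L₃ hL₃ using hl3
  obtain ⟨K, hK⟩ : ∃ K : Set (ℂ × ℂ × ℕ × ℕ), K = {k | ParCR x k.1 k.2.2.1 k.2.2.2 k.2.1} := ⟨_, rfl⟩
  have hKc : K.Countable := by
    have h1 : K ⊆ (fun k : ℂ × ℕ × ℕ => (k.1, deriv ((fx x)^[k.2.1]) k.1, k.2.1, k.2.2)) ''
        ({z : ℂ | (z : OnePoint ℂ) ∈ Function.periodicPts (sp x)} ×ˢ (univ : Set (ℕ × ℕ))) := by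
      rintro ⟨a, lam, p, q⟩ hk
      rw [hK] at hk
      have hk' : ParCR x a p q lam := hk
      refine ⟨(a, p, q), ⟨?_, mem_univ _⟩, ?_⟩
      · refine Function.mk_mem_periodicPts hk'.pp ?_
        show (sp x)^[p] (a : OnePoint ℂ) = a
        rw [sp_iter x a p (fun j _ => hk'.fin j), ← hk'.per, Function.iterate_minimalPeriod]
      · simp only [hk'.der]
    exact (((per_countable hd x hx).prod (Set.to_countable _)).image _).mono h1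
  have hCc : {c : ℂ | (wn (nu x) (de x)).eval c = 0}.Countable := by
    have h1 : {c : ℂ | (wn (nu x) (de x)).eval c = 0} ⊆ (fun z : ℂ => (z : OnePoint ℂ)) ⁻¹' Crt x :=
      fun c hc => wn_crt x c hc
    exact ((crt_finite hd x hx).countable.preimage OnePoint.coe_injective).mono h1
  refine ⟨(L₁ '' K ∪ L₂ '' K ∪ L₃ '' ({c : ℂ | (wn (nu x) (de x)).eval c = 0} ×ˢ
    (univ : Set (ℕ × ℕ)))) \ {0}, ?_, fun h => h.2 rfl, fun v hv => ?_⟩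
  · refine Set.Countable.mono sdiff_subset ?_
    exact ((hKc.image _).union (hKc.image _)).union
      ((hCc.prod (Set.to_countable _)).image _)
  · have hff : ∀ (c₀ b : ℂ) (M p : ℕ) (lam : ℂ), (wn (nu x) (de x)).eval c₀ = 0 →
        (fx x)^[M] c₀ = b → deriv ((fx x)^[p]) b = lam → (∃ v, ffR x (J v) c₀ b M p lam ≠ 0) →
        ffR x (J v) c₀ b M p lam ≠ 0 := by
      rintro c₀ b M p lam h1 rfl rfl ⟨v', h4⟩
      have h5 := hv (L₃ (c₀, M, p)) ⟨Or.inr ⟨(c₀, M, p), ⟨h1, mem_univ _⟩, rfl⟩, fun h0 => h4 (by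
        have h6 := hL₃ (c₀, M, p) v'
        rw [Set.mem_singleton_iff.1 h0] at h6
        exact h6.symm)⟩
      rw [hL₃] at h5
      exact h5
    refine line_dens hd x hx (J v) hpinf ?_ ?_ ?_ hcrit hJ
    · intro a lam p q hp
      refine ⟨fun hl => ?_, fun hl => ?_⟩
      · obtain ⟨v', h4⟩ := (hAB a lam p q hp).1 hl
        have h5 := hv (L₁ (a, lam, p, q)) ⟨Or.inl (Or.inl ⟨_, by rw [hK]; exact hp, rfl⟩),
          fun h0 => h4 (by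
            have h6 := hL₁ (a, lam, p, q) v'
            rw [Set.mem_singleton_iff.1 h0] at h6
            exact h6.symm)⟩
        rw [hL₁] at h5
        exact h5
      · obtain ⟨v', h4⟩ := (hAB a lam p q hp).2 hl
        have h5 := hv (L₂ (a, lam, p, q)) ⟨Or.inl (Or.inr ⟨_, by rw [hK]; exact hp, rfl⟩),
          fun h0 => h4 (by
            have h6 := hL₂ (a, lam, p, q) v'
            rw [Set.mem_singleton_iff.1 h0] at h6
            exact h6.symm)⟩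
        rw [hL₂] at h5
        exact h5
    · intro c₀ hc hfin M' p' hp' hper hrep
      obtain ⟨b, M, p, lam, h1, h2⟩ := pre_dataJ J x hcT c₀ hc hfin M' p' hp' hper hrep
      exact ⟨b, M, p, lam, h1, hff c₀ b M p lam hc h1.hit h1.der h2⟩
    · intro c₀ hc hfin M' p' q' hp' hq' hper hrep
      obtain ⟨b, M, p, q, lam, h1, h2⟩ := pre_dataN J x hcT c₀ hc hfin M' p' q' hp' hq' hper hrep
      exact ⟨b, M, p, q, lam, h1, fun hl => hff c₀ b M p lam hc h1.hit h1.par.der (h2 hl)⟩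

end Run7.h904.RF
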