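import Mathlib
import Pool.Agent.Run7.h904.U14Line

set_option autoImplicit false

open Topology Filter Metric Set Polynomial MeasureTheory Asymptotics Pointwise
open scoped OnePoint

namespace Run7.h904.RF

open Pool.Agent.H790R3.RB (CV hF cr ND wr rt sp pr hc pol Sink Attd HypTop)
open Pool.Agent.W757.QR Pool.Agent.W757.RF Pool.Agent.W757.Q2
open Pool.Agent.W29.RQSNK (sp_iter fin_of sp_fx)
open Run7.h904.UQ (density_gen2)

/-- full density in a transversal linear family -/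
theorem fam_dens {ι : Type} [Fintype ι] {d : ℕ} (J : (ι → ℂ) →ₗ[ℂ] CV d) (hd : 2 ≤ d) (x : CV d)
    (hx : ND x)
    (hpinf : ∀ (a : OnePoint ℂ) (p q : ℕ), ParS (sp x) p q a → ∀ n : ℕ, (sp x)^[n] a ≠ ∞)
    (hAB : ∀ (a lam : ℂ) (p q : ℕ), ParCR x a p q lam →
      (lam ≠ 1 → ∃ v, kapR x (J v) a p lam ≠ 0) ∧ (lam = 1 → ∃ v, llR x (J v) a p ≠ 0))
    (hC : ∀ c₀ : ℂ, (wn (nu x) (de x)).eval c₀ = 0 → Fin' x c₀ → ∀ (M' p' : ℕ), 0 < p' →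
      (fx x)^[p'] ((fx x)^[M'] c₀) = (fx x)^[M'] c₀ → 1 < ‖ddR x ((fx x)^[M'] c₀) p'‖ →
      ∃ (b : ℂ) (M p : ℕ) (lam : ℂ), PreR x c₀ b M p lam ∧ ∃ v, ffR x (J v) c₀ b M p lam ≠ 0)
    (hN' : ∀ c₀ : ℂ, (wn (nu x) (de x)).eval c₀ = 0 → Fin' x c₀ → ∀ (M' p' q' : ℕ), 0 < p' →
      0 < q' → (fx x)^[p'] ((fx x)^[M'] c₀) = (fx x)^[M'] c₀ →
      ddR x ((fx x)^[M'] c₀) p' ^ q' = 1 →
      ∃ (b : ℂ) (M p q : ℕ) (lam : ℂ), PreQ x c₀ b M p q lam ∧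
        (lam ≠ 1 → ∃ v, ffR x (J v) c₀ b M p lam ≠ 0))
    (hcrit : ∀ z ∈ Crt x, Attd (sp x) z ∨
      ((∀ n : ℕ, (sp x)^[n] z ≠ ∞) ∧ (Gd x z ∨ PreP (sp x) z ∨ PreN (sp x) z)))
    (hJ : ∀ᵐ z : ℂ, GdE x (z : OnePoint ℂ)) :
    Tendsto (fun r : ℝ => volume {v : ι → ℂ | (∀ i, ‖v i‖ ≤ r) ∧ ¬ HyR (x + J v)} /
      volume {v : ι → ℂ | ∀ i, ‖v i‖ ≤ r}) (𝓝[>] 0) (𝓝 0) := by
  classical
  have hopen : IsOpen {u : ι → ℂ | HyR (x + J u)} := by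
    have h1 : IsOpen {x : CV d | HyR x} := isOpen_iff_mem_nhds.mpr fun a ha => hyR_open hd a ha
    have h2 : Continuous fun u : ι → ℂ => x + J u :=
      continuous_const.add J.continuous_of_finiteDimensional
    exact h1.preimage h2
  obtain ⟨K, Θ, hKm, hΘm, hhom, hseq⟩ := seq_hypN J hd x hx hpinf hAB hC hN' hcrit hJ
  haveI : Fintype {z : OnePoint ℂ // z ∈ Crt x} := (crt_finite hd x hx).fintype
  have h1 := density_gen2 (0 : ι → ℂ) {u : ι → ℂ | HyR (x + J u)} hopen.measurableSet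
    (fun (k : {z : OnePoint ℂ // z ∈ Crt x}) v => K k.1 v)
    (fun (k : {z : OnePoint ℂ // z ∈ Crt x}) v => Θ k.1 v)
    (fun k => hKm k.1) (fun k => hΘm k.1) (fun k u hu v => hhom k.1 u hu v) (by
      intro r hr
      obtain ⟨s, hsm, hae⟩ := hseq 1 r hr
      refine ⟨s, hsm.tendsto_atTop, ?_⟩
      filter_upwards [hae] with v hv hbox n
      have h1 : ‖v‖ ≤ 1 := (pi_norm_le_iff_of_nonneg zero_le_one).2 hbox
      filter_upwards [hv h1 n] with j hj hcond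
      have h2 := hj fun z hz hK m => hcond ⟨z, hz⟩ hK m
      show HyR (x + J (0 + r (s j) • v))
      have e : x + J (0 + r (s j) • v) = Xt x (J v) (r (s j)) := by
        unfold Xt
        rw [zero_add]
        congr 1
        exact (J.restrictScalars ℝ).map_smul (r (s j)) v
      rw [e]
      exact h2)
  simp only [Pi.zero_apply, sub_zero] at h1
  exact h1

/-- almost every direction of a transversal linear family -/
theorem fam_dir {ι : Type} [Fintype ι] {d : ℕ} (J : (ι → ℂ) →ₗ[ℂ] CV d) (hd : 2 ≤ d) (x : CV d)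
    (hx : ND x)
    (hpinf : ∀ (a : OnePoint ℂ) (p q : ℕ), ParS (sp x) p q a → ∀ n : ℕ, (sp x)^[n] a ≠ ∞)
    (hAB : ∀ (a lam : ℂ) (p q : ℕ), ParCR x a p q lam →
      (lam ≠ 1 → ∃ v, kapR x (J v) a p lam ≠ 0) ∧ (lam = 1 → ∃ v, llR x (J v) a p ≠ 0))
    (hcrit : ∀ z ∈ Crt x, Attd (sp x) z ∨
      ((∀ n : ℕ, (sp x)^[n] z ≠ ∞) ∧ ∃ b, ParB (sp x) z b)) :
    ∀ᵐ v : ι → ℂ, ∀ᶠ t : ℝ in 𝓝[>] 0, HyR (x + J (t • v)) := by
  filter_upwards [ae_parJ J hd x hx hAB] with v hv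
  have h1 : ∀ z ∈ Crt x, GS x (J v) z := by
    intro z hz
    rcases hcrit z hz with h1 | ⟨hzf, h1⟩
    · exact GS_of_attd hd _ _ hx z h1
    · obtain ⟨ζ, rfl⟩ : ∃ ζ : ℂ, z = ζ := by
        have := hzf 0
        induction z using OnePoint.rec with
        | infty => exact absurd rfl this
        | coe ζ => exact ⟨ζ, rfl⟩
      exact gs_of_gdJ hd x hx hpinf _ hv ζ (fin_of x ζ hzf) (Or.inr h1)
  filter_upwards [dir_hyR hd x (J v) hx h1] with t ht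
  have e : x + J (t • v) = Xt x (J v) t := by
    unfold Xt
    congr 1
    exact (J.restrictScalars ℝ).map_smul t v
  rw [e]
  exact ht

/-- full density in all linear families transversal to countably many hyperplanes -/
theorem fams {κ : Type} [Fintype κ] {d : ℕ} (J : (κ → ℂ) →ₗ[ℂ] CV d) (hd : 2 ≤ d) (x : CV d)
    (hx : ND x)
    (hpinf : ∀ (a : OnePoint ℂ) (p q : ℕ), ParS (sp x) p q a → ∀ n : ℕ, (sp x)^[n] a ≠ ∞)
    (hAB : ∀ (a lam : ℂ) (p q : ℕ), ParCR x a p q lam →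
      (lam ≠ 1 → ∃ v, kapR x (J v) a p lam ≠ 0) ∧ (lam = 1 → ∃ v, llR x (J v) a p ≠ 0))
    (hcT : ∀ c : ℂ, (wn (nu x) (de x)).eval c = 0 → ∀ m N : ℕ, m < N →
      (fx x)^[N] (fx x c) = (fx x)^[m] (fx x c) →
      (∀ i : ℕ, (de x).eval ((fx x)^[i] (fx x c)) ≠ 0 ∧
        (wn (nu x) (de x)).eval ((fx x)^[i] (fx x c)) ≠ 0) →
      (∀ i < N, 0 < i → (fx x)^[i] (fx x c) ≠ fx x c) →
      ddR x (fx x c) N ≠ ddR x (fx x c) m →
      ∃ v, llR x (J v) c (N + 1) ≠ llR x (J v) c (m + 1))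
    (hcrit : ∀ z ∈ Crt x, Attd (sp x) z ∨
      ((∀ n : ℕ, (sp x)^[n] z ≠ ∞) ∧ (Gd x z ∨ PreP (sp x) z ∨ PreN (sp x) z)))
    (hJ : ∀ᵐ z : ℂ, GdE x (z : OnePoint ℂ)) :
    ∃ S : Set ((κ → ℂ) →ₗ[ℂ] ℂ), S.Countable ∧ (0 : (κ → ℂ) →ₗ[ℂ] ℂ) ∉ S ∧
      ∀ (ι : Type) [Fintype ι] (J' : (ι → ℂ) →ₗ[ℂ] (κ → ℂ)), (∀ L ∈ S, L.comp J' ≠ 0) →
        Tendsto (fun r : ℝ => volume {v : ι → ℂ | (∀ i, ‖v i‖ ≤ r) ∧ ¬ HyR (x + J (J' v))} /
          volume {v : ι → ℂ | ∀ i, ‖v i‖ ≤ r}) (𝓝[>] 0) (𝓝 0) ∧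
        ((∀ z ∈ Crt x, Attd (sp x) z ∨ ∃ b, ParB (sp x) z b) →
          ∀ᵐ v : ι → ℂ, ∀ᶠ t : ℝ in 𝓝[>] 0, HyR (x + J (J' (t • v)))) := by
  classical
  -- the functionals
  have hl1 : ∀ k : ℂ × ℂ × ℕ × ℕ, ∃ L : (κ → ℂ) →ₗ[ℂ] ℂ, ∀ v, L v = kapR x (J v) k.1 k.2.2.1 k.2.1 :=
    fun k => ⟨(linOf (fun V => kapR x V k.1 k.2.2.1 k.2.1)
      (fun c V W => kapR_lin x c V W k.1 k.2.2.1 k.2.1)).comp J, fun v => rfl⟩
  choose L₁ hL₁ using hl1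
  have hl2 : ∀ k : ℂ × ℂ × ℕ × ℕ, ∃ L : (κ → ℂ) →ₗ[ℂ] ℂ, ∀ v, L v = llR x (J v) k.1 k.2.2.1 :=
    fun k => ⟨(linOf (fun V => llR x V k.1 k.2.2.1)
      (fun c V W => llR_lin x c V W k.1 k.2.2.1)).comp J, fun v => rfl⟩
  choose L₂ hL₂ using hl2
  have hl3 : ∀ k : ℂ × ℕ × ℕ, ∃ L : (κ → ℂ) →ₗ[ℂ] ℂ, ∀ v, L v =
      ffR x (J v) k.1 ((fx x)^[k.2.1] k.1) k.2.1 k.2.2 (deriv ((fx x)^[k.2.2]) ((fx x)^[k.2.1] k.1)) :=
    fun k => ⟨(linOf (fun V => ffR x V k.1 ((fx x)^[k.2.1] k.1) k.2.1 k.2.2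
      (deriv ((fx x)^[k.2.2]) ((fx x)^[k.2.1] k.1)))
      (fun c V W => ffR_lin x c V W _ _ _ _ _)).comp J, fun v => rfl⟩
  choose L₃ hL₃ using hl3
  obtain ⟨K, hK⟩ : ∃ K : Set (ℂ × ℂ × ℕ × ℕ), K = {k | ParCR x k.1 k.2.2.1 k.2.2.2 k.2.1} := ⟨_, rfl⟩
  have hKc : K.Countable := by
    have h1 : K ⊆ (fun k : ℂ × ℕ × ℕ => (k.1, deriv ((fx x)^[k.2.1]) k.1, k.2.1, k.2.2)) ''
        ({z : ℂ | (z : OnePoint ℂ) ∈ Function.periodicPts (sp x)} ×ˢ (univ : Set (ℕ × ℕ))) := by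
      rintro ⟨a, lam, p, q⟩ hk
      rw [hK] at hk
      have hk' : ParCR x a p q lam := hk
      refine ⟨(a, p, q), ⟨?_, mem_univ _⟩, ?_⟩
      · refine Function.mk_mem_periodicPts hk'.pp ?_
        show (sp x)^[p] (a : OnePoint ℂ) = a
        rw [sp_iter x a p (fun j _ => hk'.fin j), ← hk'.per, Function.iterate_minimalPeriod]
      · simp only [hk'.der]
    exact (((per_countable hd x hx).prod (Set.to_countable _)).image _).mono h1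
  have hCc : {c : ℂ | (wn (nu x) (de x)).eval c = 0}.Countable := by
    have h1 : {c : ℂ | (wn (nu x) (de x)).eval c = 0} ⊆ (fun z : ℂ => (z : OnePoint ℂ)) ⁻¹' Crt x :=
      fun c hc => wn_crt x c hc
    exact ((crt_finite hd x hx).countable.preimage OnePoint.coe_injective).mono h1
  refine ⟨(L₁ '' K ∪ L₂ '' K ∪ L₃ '' ({c : ℂ | (wn (nu x) (de x)).eval c = 0} ×ˢ
    (univ : Set (ℕ × ℕ)))) \ {0}, ?_, fun h => h.2 rfl, fun ι _ J' hJ' => ?_⟩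
  · refine Set.Countable.mono sdiff_subset ?_
    exact ((hKc.image _).union (hKc.image _)).union
      ((hCc.prod (Set.to_countable _)).image _)
  have hne : ∀ L : (κ → ℂ) →ₗ[ℂ] ℂ, L.comp J' ≠ 0 → ∃ v, L (J' v) ≠ 0 := by
    intro L h
    by_contra hcon
    push Not at hcon
    exact h (LinearMap.ext hcon)
  have hff : ∀ (c₀ b : ℂ) (M p : ℕ) (lam : ℂ), (wn (nu x) (de x)).eval c₀ = 0 →
      (fx x)^[M] c₀ = b → deriv ((fx x)^[p]) b = lam → (∃ v, ffR x (J v) c₀ b M p lam ≠ 0) →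
      ∃ v, ffR x ((J.comp J') v) c₀ b M p lam ≠ 0 := by
    rintro c₀ b M p lam h1 rfl rfl ⟨v', h4⟩
    obtain ⟨v, h5⟩ := hne _ (hJ' (L₃ (c₀, M, p)) ⟨Or.inr ⟨(c₀, M, p), ⟨h1, mem_univ _⟩, rfl⟩,
      fun h0 => h4 (by
        have h6 := hL₃ (c₀, M, p) v'
        rw [Set.mem_singleton_iff.1 h0] at h6
        exact h6.symm)⟩)
    rw [hL₃] at h5
    exact ⟨v, h5⟩
  have hAB' : ∀ (a lam : ℂ) (p q : ℕ), ParCR x a p q lam →
      (lam ≠ 1 → ∃ v, kapR x ((J.comp J') v) a p lam ≠ 0) ∧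
      (lam = 1 → ∃ v, llR x ((J.comp J') v) a p ≠ 0) := by
    intro a lam p q hp
    refine ⟨fun hl => ?_, fun hl => ?_⟩
    · obtain ⟨v', h4⟩ := (hAB a lam p q hp).1 hl
      obtain ⟨v, h5⟩ := hne _ (hJ' (L₁ (a, lam, p, q)) ⟨Or.inl (Or.inl ⟨_, by rw [hK]; exact hp, rfl⟩),
        fun h0 => h4 (by
          have h6 := hL₁ (a, lam, p, q) v'
          rw [Set.mem_singleton_iff.1 h0] at h6
          exact h6.symm)⟩)
      rw [hL₁] at h5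
      exact ⟨v, h5⟩
    · obtain ⟨v', h4⟩ := (hAB a lam p q hp).2 hl
      obtain ⟨v, h5⟩ := hne _ (hJ' (L₂ (a, lam, p, q)) ⟨Or.inl (Or.inr ⟨_, by rw [hK]; exact hp, rfl⟩),
        fun h0 => h4 (by
          have h6 := hL₂ (a, lam, p, q) v'
          rw [Set.mem_singleton_iff.1 h0] at h6
          exact h6.symm)⟩)
      rw [hL₂] at h5
      exact ⟨v, h5⟩
  refine ⟨?_, fun hcr2 => ?_⟩
  · have h1 := fam_dens (J.comp J') hd x hx hpinf hAB' (by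
      intro c₀ hc hfin M' p' hp' hper hrep
      obtain ⟨b, M, p, lam, h1, h2⟩ := pre_dataJ J x hcT c₀ hc hfin M' p' hp' hper hrep
      exact ⟨b, M, p, lam, h1, hff c₀ b M p lam hc h1.hit h1.der h2⟩) (by
      intro c₀ hc hfin M' p' q' hp' hq' hper hrep
      obtain ⟨b, M, p, q, lam, h1, h2⟩ := pre_dataN J x hcT c₀ hc hfin M' p' q' hp' hq' hper hrep
      exact ⟨b, M, p, q, lam, h1, fun hl => hff c₀ b M p lam hc h1.hit h1.par.der (h2 hl)⟩)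
      hcrit hJ
    exact h1
  · refine fam_dir (J.comp J') hd x hx hpinf hAB' fun z hz => ?_
    rcases hcr2 z hz with h1 | h1
    · exact Or.inl h1
    · rcases hcrit z hz with h2 | ⟨h2, -⟩
      · exact Or.inl h2
      · exact Or.inr ⟨h2, h1⟩

end Run7.h904.RF
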