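import Mathlib
import Pool.Agent.Run7.h904.U15Fam

set_option autoImplicit false

open Topology Filter Metric Set Polynomial MeasureTheory Asymptotics Pointwise
open scoped OnePoint

namespace Run7.h904.RF

open Pool.Agent.H790R3.RB (CV hF cr ND wr rt sp pr hc pol Sink Attd HypTop)
open Pool.Agent.W757.QR Pool.Agent.W757.RF Pool.Agent.W757.Q2
open Pool.Agent.W29.RQSNK (sp_iter fin_of sp_fx)

/-- the main theorem for geometrically finite maps on the level of coefficient vectors -/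
theorem mainR5 {d : ℕ} (hd : 2 ≤ d) (x : CV d) (hx : ND x)
    (hcrit : ∀ z ∈ Crt x, Attd (sp x) z ∨ (∃ a, ParB (sp x) z a) ∨ PreP (sp x) z ∨ PreN (sp x) z)
    (hgood : ∃ z, Attd (sp x) z ∨ ∃ a, ParB (sp x) z a) :
    ∃ S : Set (CV d →ₗ[ℂ] ℂ), S.Countable ∧ (0 : CV d →ₗ[ℂ] ℂ) ∉ S ∧
      ∀ (ι : Type) [Fintype ι] (J : (ι → ℂ) →ₗ[ℂ] CV d), (∀ L ∈ S, L.comp J ≠ 0) →
        Tendsto (fun r : ℝ => volume {v : ι → ℂ | (∀ i, ‖v i‖ ≤ r) ∧ ¬ HyR (x + J v)} /
          volume {v : ι → ℂ | ∀ i, ‖v i‖ ≤ r}) (𝓝[>] 0) (𝓝 0) ∧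
        ((∀ z ∈ Crt x, Attd (sp x) z ∨ ∃ b, ParB (sp x) z b) →
          ∀ᵐ v : ι → ℂ, ∀ᶠ t : ℝ in 𝓝[>] 0, HyR (x + J (t • v))) := by
  classical
  -- the points to be avoided
  obtain ⟨B, hB⟩ : ∃ B : Set (OnePoint ℂ), B = (⋃ z ∈ Crt x, range fun n : ℕ => (sp x)^[n] z) ∪
    Function.periodicPts (sp x) := ⟨_, rfl⟩
  have hBc : B.Countable := by
    rw [hB]
    exact ((crt_finite hd x hx).countable.biUnion fun z _ => countable_range _).union
      (per_countableS hd x hx)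
  have hBi : ({z | Gd x z} ∩ Bᶜ).Infinite := by
    intro hfin
    obtain ⟨z₀, hz₀⟩ := hgood
    obtain ⟨U, hU, hUg⟩ := gd_open hd x hx z₀ hz₀
    have h1 : (chart z₀ ⁻¹' U).Countable := by
      have h2 : U ⊆ ({z | Gd x z} ∩ Bᶜ) ∪ B := by
        intro w hw
        by_cases hwB : w ∈ B
        · exact Or.inr hwB
        · exact Or.inl ⟨hUg w hw, hwB⟩
      exact ((hfin.countable.union hBc).mono h2).preimage (chart_inj z₀)
    have h2 : chart z₀ ⁻¹' U ∈ 𝓝 (0 : ℂ) := by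
      apply (chart_cont z₀).continuousAt.preimage_mem_nhds
      rw [chart_zero]
      exact hU
    obtain ⟨r, hr, hb⟩ := Metric.mem_nhds_iff.1 h2
    exact (measure_ball_pos volume (0 : ℂ) hr).ne' ((h1.mono hb).measure_zero volume)
  obtain ⟨a, b, c, e, h, x₁, T, hdet, hh, hx₁, hs, hG, hT, hTi, hsT, hinf, hcr⟩ :=
    genm_lin d x ({z | Gd x z} ∩ Bᶜ) hBi hd hx
  have hs' : ∀ z, sp x₁ (h z) = h (sp x z) := fun z => (hs z).symm
  have hit := fun n z => Pool.Agent.H790R3.RB.ALL.iter h hs' n z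
  have hgd : ∀ z, Gd x z → Gd x₁ (h z) := by
    rintro z (h1 | ⟨a', h1⟩)
    · exact Or.inl (Pool.Agent.H790R3.RB.ALL.attd h hs' h1)
    · exact Or.inr ⟨h a', parB_transport hdet hh hs' h1⟩
  have hcr₁ : ∀ z' ∈ Crt x₁, (∀ n : ℕ, (sp x₁)^[n] z' ≠ ∞) ∧
      (Gd x₁ z' ∨ PreP (sp x₁) z' ∨ PreN (sp x₁) z') := by
    intro z' hz'
    have hsym : ∀ z, h.symm (sp x₁ z) = sp x (h.symm z) := by
      intro z
      apply h.injective
      rw [hs, h.apply_symm_apply, h.apply_symm_apply]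
    have h1 : h.symm z' ∈ Crt x := crt_conj hd hx₁ hx h.symm hsym z' hz'
    obtain ⟨z, rfl⟩ : ∃ z, h z = z' := ⟨h.symm z', h.apply_symm_apply _⟩
    rw [h.symm_apply_apply] at h1
    refine ⟨?_, ?_⟩
    · intro n h0
      rw [hit] at h0
      apply hinf.2
      rw [← h0, h.symm_apply_apply, hB]
      left
      exact mem_biUnion h1 ⟨n, rfl⟩
    · rcases hcrit z h1 with h2 | h2 | h2 | h2
      · exact Or.inl (hgd z (Or.inl h2))
      · exact Or.inl (hgd z (Or.inr h2))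
      · exact Or.inr (Or.inl (preP_transport hdet hh hs' h2))
      · exact Or.inr (Or.inr (preN_transport hdet hh hs' h2))
  have hinf₁ : ∞ ∉ Function.periodicPts (sp x₁) := by
    rintro ⟨n, hn, hper⟩
    apply hinf.2
    rw [hB]
    right
    refine Function.mk_mem_periodicPts hn ?_
    show (sp x)^[n] (h.symm ∞) = h.symm ∞
    apply h.injective
    rw [← hit, h.apply_symm_apply]
    exact hper
  have hginf : Gd x₁ ∞ := by
    have h1 := hgd _ hinf.1
    rwa [h.apply_symm_apply] at h1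
  have hJ₁ : ∀ᵐ z : ℂ, GdE x₁ (z : OnePoint ℂ) := by
    rw [ae_iff]
    exact zero_area'N hd x₁ hx₁ (fun z hz => (hcr₁ z hz).2) hginf hinf₁
  have hrec := ae_norecurE hd x₁ hx₁ hJ₁
  have hpinf : ∀ (a : OnePoint ℂ) (p q : ℕ), ParS (sp x₁) p q a → ∀ n : ℕ, (sp x₁)^[n] a ≠ ∞ := by
    intro a p q hpar n h0
    have hpa : (sp x₁)^[p] a = a := by
      obtain ⟨-, -, -, lam, g, -, g0, -, ge⟩ := hpar
      have h1 := ge.self_of_nhds
      rwa [g0, chart_zero] at h1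
    apply hinf₁
    rw [← h0]
    refine Function.mk_mem_periodicPts hpar.1 ?_
    show (sp x₁)^[p] ((sp x₁)^[n] a) = (sp x₁)^[n] a
    rw [← Function.iterate_add_apply, add_comm, Function.iterate_add_apply, hpa]
  have hsurj : Function.Surjective T := LinearMap.injective_iff_surjective.mp hTi
  have hHy : ∀ x' : CV d, HyR x' → HyR (T x') := by
    rintro x' ⟨h1, h2⟩
    obtain ⟨h3, h4⟩ := hsT x' h1
    refine ⟨h3, fun z hz => ?_⟩
    have h5 := h2 _ (crt_conj hd h3 h1 h h4 z hz)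
    have h6 : ∀ w, sp (T x') (h.symm w) = h.symm (sp x' w) := by
      intro w
      apply h.injective
      rw [h4, h.apply_symm_apply, h.apply_symm_apply]
    have h7 := Pool.Agent.H790R3.RB.ALL.attd h.symm h6 h5
    rwa [h.symm_apply_apply] at h7
  obtain ⟨S, hSc, hS0, hS⟩ := fams (LinearMap.id (R := ℂ) (M := CV d)) hd x₁ hx₁
    hpinf (fun b lam p q hp => by
      have hnorm : ‖lam‖ = 1 := by
        have := congrArg norm hp.lamq
        rw [norm_pow, norm_one] at this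
        exact (pow_eq_one_iff_of_nonneg (norm_nonneg _) hp.qp.ne').mp this
      exact ⟨fun hl => transAR hd x₁ hx₁ hG b lam hp.fin p hp.pp hp.per hp.der hnorm hl,
        fun hl => transBR hd x₁ hx₁ hG b hp.fin p hp.pp hp.per (by rw [hp.der, hl])⟩)
    (fun c hc m N hmN hper hne hinj hD => critT hd x₁ hx₁ hG c hc m N hmN hper hne hinj hD hrec)
    (fun z hz => Or.inr (hcr₁ z hz)) hJ₁
  obtain ⟨E, hE⟩ : ∃ E : CV d ≃ₗ[ℂ] CV d, ∀ v, E v = T v :=
    ⟨LinearEquiv.ofBijective T ⟨hTi, hsurj⟩, fun v => rfl⟩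
  have hTE : ∀ v, T (E.symm v) = v := fun v => by rw [← hE, E.apply_symm_apply]
  refine ⟨(fun L : CV d →ₗ[ℂ] ℂ => L.comp (E.symm : CV d →ₗ[ℂ] CV d)) '' S, hSc.image _, ?_, ?_⟩
  · rintro ⟨L, hL, hL0⟩
    apply hS0
    have : L = 0 := by
      refine LinearMap.ext fun v => ?_
      have h1 := LinearMap.congr_fun hL0 (E v)
      simpa using h1
    rw [← this]
    exact hL
  intro ι _ J hJ
  have hfam : ∀ v : ι → ℂ, T (x₁ + (LinearMap.id (R := ℂ) (M := CV d))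
      (((E.symm : CV d →ₗ[ℂ] CV d).comp J) v)) = x + J v := by
    intro v
    rw [map_add, hT]
    congr 1
    exact hTE (J v)
  obtain ⟨g1, g2⟩ := hS ι ((E.symm : CV d →ₗ[ℂ] CV d).comp J) (by
    intro L hL
    have := hJ _ ⟨L, hL, rfl⟩
    exact this)
  refine ⟨?_, fun hcr2 => ?_⟩
  · refine tendsto_of_tendsto_of_tendsto_of_le_of_le tendsto_const_nhds g1
      (fun _ => zero_le) (fun r => ENNReal.div_le_div_right (measure_mono ?_) _)
    rintro v ⟨h1, h2⟩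
    refine ⟨h1, fun h3 => h2 ?_⟩
    have h4 := hHy _ h3
    rw [hfam] at h4
    exact h4
  · have h2 := g2 (by
      intro z' hz'
      have hsym : ∀ z, h.symm (sp x₁ z) = sp x (h.symm z) := by
        intro z
        apply h.injective
        rw [hs, h.apply_symm_apply, h.apply_symm_apply]
      have h1 : h.symm z' ∈ Crt x := crt_conj hd hx₁ hx h.symm hsym z' hz'
      obtain ⟨z, rfl⟩ : ∃ z, h z = z' := ⟨h.symm z', h.apply_symm_apply _⟩
      rw [h.symm_apply_apply] at h1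
      exact hgd z (hcr2 z h1))
    filter_upwards [h2] with v hv
    filter_upwards [hv] with t ht
    have h4 := hHy _ ht
    rw [hfam] at h4
    exact h4

lemma xP_add {d : ℕ} (a v : Fin (d + 1) → ℂ) : xP a + JP d v = xP (a + v) := by
  ext r
  by_cases h : r.1 = 0
  · simp [xP, JP, h]
  · simp [xP, JP, h]

/-- the main theorem for polynomials -/
theorem mainP5 {d : ℕ} (hd : 2 ≤ d) (a : Fin (d + 1) → ℂ) (ha : (pl a).natDegree = d)
    (hcrit : ∀ z ∈ Crt (xP a), Attd (sp (xP a)) z ∨ (∃ b, ParB (sp (xP a)) z b) ∨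
      PreP (sp (xP a)) z ∨ PreN (sp (xP a)) z) :
    ∃ S : Set ((Fin (d + 1) → ℂ) →ₗ[ℂ] ℂ), S.Countable ∧ (0 : (Fin (d + 1) → ℂ) →ₗ[ℂ] ℂ) ∉ S ∧
      ∀ (ι : Type) [Fintype ι] (J : (ι → ℂ) →ₗ[ℂ] (Fin (d + 1) → ℂ)), (∀ L ∈ S, L.comp J ≠ 0) →
        Tendsto (fun r : ℝ => volume {v : ι → ℂ | (∀ i, ‖v i‖ ≤ r) ∧ ¬ HyR (xP (a + J v))} /
          volume {v : ι → ℂ | ∀ i, ‖v i‖ ≤ r}) (𝓝[>] 0) (𝓝 0) ∧
        ((∀ z ∈ Crt (xP a), Attd (sp (xP a)) z ∨ ∃ b, ParB (sp (xP a)) z b) →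
          ∀ᵐ v : ι → ℂ, ∀ᶠ t : ℝ in 𝓝[>] 0, HyR (xP (a + J (t • v)))) := by
  classical
  have hx := ND_xP hd a ha
  have hde := de_xP a
  have hdeg : 2 ≤ (nu (xP a)).natDegree := by rw [nu_xP, ha]; exact hd
  have hdeg' : (nu (xP a)).natDegree = d := by rw [nu_xP, ha]
  have hJ := zero_area_allN hd (xP a) hx hcrit ⟨∞, Or.inl (attd_inf hd hx hde hdeg)⟩
  obtain ⟨S, hSc, hS0, hS⟩ := fams (JP d) hd (xP a) hx (parS_fin hd hx hde hdeg)
    (fun b lam p q hp => transP hd (xP a) hde hdeg' b lam p q hp)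
    (fun c hc m N hmN hper hne hinj hD => critTP hd (xP a) hx hde c hc m N hmN hper hne hinj hD)
    (by
      intro z hz
      induction z using OnePoint.rec with
      | infty => exact Or.inl (attd_inf hd hx hde hdeg)
      | coe z =>
        have hzf : ∀ n : ℕ, (sp (xP a))^[n] (z : OnePoint ℂ) ≠ ∞ := by
          intro n
          rw [it_ev hd hx hde]
          exact OnePoint.coe_ne_infty _
        rcases hcrit _ hz with h1 | h1 | h1 | h1
        · exact Or.inl h1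
        · exact Or.inr ⟨hzf, Or.inl (Or.inr h1)⟩
        · exact Or.inr ⟨hzf, Or.inr (Or.inl h1)⟩
        · exact Or.inr ⟨hzf, Or.inr (Or.inr h1)⟩)
    hJ
  refine ⟨S, hSc, hS0, fun ι _ J hJ => ?_⟩
  obtain ⟨g1, g2⟩ := hS ι J hJ
  simp only [xP_add] at g1 g2
  exact ⟨g1, g2⟩

end Run7.h904.RF
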