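import Mathlib

/-! Specialisation of a transcendental element of a finitely generated algebra. -/

open Polynomial PrimeSpectrum

namespace Run7.h904

lemma exists_algHom_of_ne_top {k A : Type*} [Field k] [IsAlgClosed k] [CommRing A] [Algebra k A]
    [Algebra.FiniteType k A] (Q : Ideal A) (hQ : Q ≠ ⊤) :
    ∃ φ : A →ₐ[k] k, ∀ x ∈ Q, φ x = 0 := by
  obtain ⟨M, hM, hle⟩ := Ideal.exists_le_maximal Q hQ
  let _ : Field (A ⧸ M) := Ideal.Quotient.field M
  have : Algebra.FiniteType k (A ⧸ M) :=
    Algebra.FiniteType.of_surjective (Ideal.Quotient.mkₐ k M) Ideal.Quotient.mk_surjective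
  have : Module.Finite k (A ⧸ M) := finite_of_finite_type_of_isJacobsonRing k (A ⧸ M)
  have hbij : Function.Bijective (algebraMap k (A ⧸ M)) :=
    IsAlgClosed.algebraMap_bijective_of_isIntegral
  let e : k ≃ₐ[k] (A ⧸ M) := AlgEquiv.ofBijective (Algebra.ofId k (A ⧸ M)) hbij
  refine ⟨(e.symm : (A ⧸ M) →ₐ[k] k).comp (Ideal.Quotient.mkₐ k M), fun x hx => ?_⟩
  have h : (Ideal.Quotient.mkₐ k M) x = 0 := Ideal.Quotient.eq_zero_iff_mem.mpr (hle hx)
  rw [AlgHom.comp_apply, h, map_zero]

/-- A transcendental element of a finitely generated domain over an algebraically closed field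
takes almost all values under the `k`-points of the domain. -/
theorem exists_specialisation {k A : Type*} [Field k] [IsAlgClosed k] [CommRing A] [IsDomain A]
    [Algebra k A] [Algebra.FiniteType k A] (t : A) (ht : Transcendental k t) :
    ∃ f : k[X], f ≠ 0 ∧ ∀ t0 : k, f.eval t0 ≠ 0 → ∃ φ : A →ₐ[k] k, φ t = t0 := by
  let F : k[X] →ₐ[k] A := aeval t
  have hinj : Function.Injective F := transcendental_iff_injective.mp ht
  have hft : (F : k[X] →+* A).FiniteType := by
    have h1 : ((F : k[X] →+* A).comp (algebraMap k k[X])).FiniteType := by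
      have : (F : k[X] →+* A).comp (algebraMap k k[X]) = algebraMap k A := F.comp_algebraMap
      rw [this]
      exact RingHom.finiteType_algebraMap.mpr inferInstance
    exact RingHom.FiniteType.of_comp_finiteType h1
  have hfp : (F : k[X] →+* A).FinitePresentation :=
    RingHom.FinitePresentation.of_finiteType.mp hft
  obtain ⟨S, hS⟩ := exists_constructibleSetData_iff.mpr (isConstructible_range_comap hfp)
  have hbot : (⊥ : PrimeSpectrum k[X]) ∈ S.toSet := by
    rw [hS]
    refine ⟨(⊥ : PrimeSpectrum A), ?_⟩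
    apply PrimeSpectrum.ext
    rw [comap_asIdeal]
    show Ideal.comap (F : k[X] →+* A) ⊥ = ⊥
    rw [← RingHom.ker_eq_comap_bot]
    exact (RingHom.injective_iff_ker_eq_bot _).mp hinj
  simp only [ConstructibleSetData.toSet, Set.mem_iUnion] at hbot
  obtain ⟨C, hC, hbC⟩ := hbot
  obtain ⟨hb1, hb2⟩ := hbC
  have hg : ∀ i, C.g i = 0 := by
    intro i
    have := hb1 ⟨i, rfl⟩
    exact this
  have hf : C.f ≠ 0 := by
    intro h
    apply hb2
    rw [h]
    simp
  refine ⟨C.f, hf, fun t0 h0 => ?_⟩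
  have hprime : (Ideal.span {X - Polynomial.C t0}).IsPrime := by
    rw [Ideal.span_singleton_prime (X_sub_C_ne_zero t0)]
    exact prime_X_sub_C t0
  let P : PrimeSpectrum k[X] := ⟨Ideal.span {X - Polynomial.C t0}, hprime⟩
  have hP : P ∈ S.toSet := by
    simp only [ConstructibleSetData.toSet, Set.mem_iUnion]
    refine ⟨C, hC, ?_, ?_⟩
    · rintro _ ⟨i, rfl⟩
      rw [hg i]
      exact P.asIdeal.zero_mem
    · intro h
      have h1 : C.f ∈ Ideal.span {X - Polynomial.C t0} := h rfl
      rw [Ideal.mem_span_singleton, dvd_iff_isRoot] at h1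
      exact h0 h1
  rw [hS] at hP
  obtain ⟨Q, hQ⟩ := hP
  obtain ⟨φ, hφ⟩ := exists_algHom_of_ne_top (k := k) Q.asIdeal Q.isPrime.ne_top
  refine ⟨φ, ?_⟩
  have h2 : (X - Polynomial.C t0 : k[X]) ∈ (PrimeSpectrum.comap (F : k[X] →+* A) Q).asIdeal := by
    rw [hQ]
    exact Ideal.mem_span_singleton_self _
  rw [comap_asIdeal, Ideal.mem_comap] at h2
  have h3 := hφ _ h2
  have h4 : (F : k[X] →+* A) (X - Polynomial.C t0) = t - algebraMap k A t0 := by
    simp [F]
  rw [h4, map_sub, AlgHom.commutes] at h3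
  exact sub_eq_zero.mp h3

end Run7.h904
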