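import Pool.Agent.Run7.h904.Ht2
import Pool.Agent.Run7.h904.Spec

/-! Periodic solutions of the recurrence with algebraic parameters are algebraic. -/

open NumberField Height

namespace Run7.h904

/-- a finite set of algebraic numbers lies in a number field -/
lemma exists_numberField (T : Set ℂ) (hT : T.Finite) (h : ∀ x ∈ T, IsAlgebraic ℚ x) :
    ∃ (L : IntermediateField ℚ ℂ), FiniteDimensional ℚ L ∧ T ⊆ L := by
  have := hT.to_subtype
  exact ⟨IntermediateField.adjoin ℚ T, IntermediateField.finiteDimensional_adjoin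
    fun x hx => (h x hx).isIntegral, IntermediateField.subset_adjoin ℚ T⟩

lemma per_range_finite {X : Type*} (u : ℤ → X) {N : ℕ} (hN : 0 < N)
    (hper : ∀ i, u (i + N) = u i) : (Set.range u).Finite := by
  have : Set.range u ⊆ (fun j : ℕ => u j) '' (Finset.range N : Set ℕ) := by
    rintro _ ⟨i, rfl⟩
    obtain ⟨j, hj, e⟩ := per_finite_range u hN hper i
    exact ⟨j, Finset.mem_coe.mpr hj, e.symm⟩
  exact ((Finset.range N).finite_toSet.image _).subset this

lemma isSeq_lift {K L : Type*} [Field K] [Field L] {σ : K →+* L} {a b : K} {α β : L}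
    {u v : ℤ → K} {u' v' : ℤ → L} (h1 : ∀ i, σ (u i) = u' i) (h2 : ∀ i, σ (v i) = v' i)
    (ha : σ a = α) (hb : σ b = β) (h : IsSeq α β u' v') : IsSeq a b u v := by
  intro i
  obtain ⟨g1, g2, g3⟩ := h i
  simp only [← h1, ← h2, ← ha, ← hb] at g1 g2 g3
  refine ⟨?_, ?_, ?_⟩
  · rcases g1 with g | ⟨g, g'⟩
    · left; apply σ.injective; rw [g, map_one]
    · right
      exact ⟨by apply σ.injective; rw [g, map_zero], by apply σ.injective; rw [g', map_one]⟩
  · rcases g2 with g | g
    · left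
      intro h0
      apply g
      rw [← map_mul, h0, map_zero]
    · right
      intro h0
      apply g
      rw [← map_mul, h0, map_zero]
  · apply σ.injective
    simp only [map_mul, map_add, map_pow]
    exact g3

theorem seq_algebraic {α β : ℂ} (hα : IsAlgebraic ℚ α) (hβ : IsAlgebraic ℚ β) (hne : α ≠ β)
    (u v : ℤ → ℂ) (N : ℕ) (hN : 0 < N) (hper : ∀ i, u (i + N) = u i)
    (hper' : ∀ i, v (i + N) = v i) (hu : IsSeq α β u v) :
    ∀ i, IsAlgebraic ℚ (u i) := by
  obtain ⟨C, hC, hbd⟩ := seq_height hα hβ hne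
  intro i
  by_contra hi
  have hvi : v i = 1 := by
    rcases (hu i).1 with h | ⟨-, h⟩
    · exact h
    · exfalso; apply hi; rw [h]; exact isAlgebraic_one
  let k := algebraicClosure ℚ ℂ
  have : IsAlgClosed k := (algebraicClosure.isAlgClosure ℚ ℂ).isAlgClosed
  let S : Set ℂ := Set.range u ∪ (fun x => x⁻¹) '' Set.range u
  have hS : S.Finite := (per_range_finite u hN hper).union ((per_range_finite u hN hper).image _)
  let A := Algebra.adjoin k S
  have hmem : ∀ j, u j ∈ A := fun j => Algebra.subset_adjoin (Or.inl ⟨j, rfl⟩)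
  have hmem' : ∀ j, (u j)⁻¹ ∈ A := fun j => Algebra.subset_adjoin (Or.inr ⟨u j, ⟨j, rfl⟩, rfl⟩)
  have hv01 : ∀ j, v j = 0 ∨ v j = 1 := by
    intro j
    rcases (hu j).1 with h | ⟨h, -⟩
    · exact Or.inr h
    · exact Or.inl h
  have hvmem : ∀ j, v j ∈ A := by
    intro j
    rcases hv01 j with h | h
    · rw [h]; exact A.zero_mem
    · rw [h]; exact A.one_mem
  have hfg : A.FG := by
    have := Subalgebra.fg_adjoin_finset (R := k) hS.toFinset
    rwa [Set.Finite.coe_toFinset] at this
  have : Algebra.FiniteType k A := A.fg_iff_finiteType.mp hfg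
  have ht : Transcendental k (⟨u i, hmem i⟩ : A) := by
    have h1 : Transcendental k (u i) := Transcendental.algebraicClosure hi
    intro h2
    apply h1
    exact h2.algHom (A.val)
  obtain ⟨f, hf, hspec⟩ := exists_specialisation (⟨u i, hmem i⟩ : A) ht
  -- choose a large natural number
  obtain ⟨n, hn1, hnC, hnf⟩ : ∃ n : ℕ, 1 ≤ n ∧ C < Real.log n ∧ f.eval (n : k) ≠ 0 := by
    have hfin : {n : ℕ | f.eval (n : k) = 0}.Finite := by
      have h1 : (f.roots.toFinset : Set k).Finite := Finset.finite_toSet _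
      refine (h1.preimage (f := fun n : ℕ => (n : k)) (Nat.cast_injective.injOn)).subset ?_
      intro n hn
      simp only [Set.mem_preimage, Finset.mem_coe, Multiset.mem_toFinset]
      exact (Polynomial.mem_roots hf).mpr hn
    obtain ⟨n, hn⟩ := ((hfin.union (Set.finite_Iic (⌈Real.exp C⌉₊ + 1))).infinite_compl).nonempty
    simp only [Set.mem_compl_iff, Set.mem_union, Set.mem_ofPred_eq, Set.mem_Iic, not_or,
      not_le] at hn
    refine ⟨n, by omega, ?_, hn.1⟩
    have h2 : Real.exp C < n := by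
      have h3 : (⌈Real.exp C⌉₊ : ℝ) < n := by exact_mod_cast (by omega)
      exact lt_of_le_of_lt (Nat.le_ceil _) h3
    calc C = Real.log (Real.exp C) := (Real.log_exp C).symm
      _ < Real.log n := Real.log_lt_log (Real.exp_pos C) h2
  obtain ⟨φ, hφ⟩ := hspec n hnf
  let a : k := ⟨α, mem_algebraicClosure_iff.mpr hα⟩
  let b : k := ⟨β, mem_algebraicClosure_iff.mpr hβ⟩
  let w : ℤ → ℂ := fun j => ((φ ⟨u j, hmem j⟩ : k) : ℂ)
  have hw0 : ∀ j, u j ≠ 0 → w j ≠ 0 := by
    intro j hj h
    have h1 : φ ⟨u j, hmem j⟩ = 0 := by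
      apply Subtype.ext
      exact h
    have h2 : (⟨u j, hmem j⟩ : A) * ⟨(u j)⁻¹, hmem' j⟩ = 1 := by
      apply Subtype.ext
      exact mul_inv_cancel₀ hj
    have h3 := congrArg φ h2
    rw [map_mul, h1, zero_mul, map_one] at h3
    exact zero_ne_one h3
  have hφv : ∀ j, ((φ ⟨v j, hvmem j⟩ : k) : ℂ) = v j := by
    intro j
    rcases hv01 j with h | h
    · have : (⟨v j, hvmem j⟩ : A) = 0 := Subtype.ext h
      rw [this, map_zero, h]; rfl
    · have : (⟨v j, hvmem j⟩ : A) = 1 := Subtype.ext h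
      rw [this, map_one, h]; rfl
  have hw : IsSeq α β w v := by
    intro j
    refine ⟨?_, ?_, ?_⟩
    · rcases (hu j).1 with h | ⟨h, h'⟩
      · exact Or.inl h
      · refine Or.inr ⟨h, ?_⟩
        have : (⟨u j, hmem j⟩ : A) = 1 := Subtype.ext h'
        simp only [w, this, map_one]
        rfl
    · rcases (hu j).2.1 with h | h
      · left
        exact mul_ne_zero (hw0 _ (left_ne_zero_of_mul h)) (hw0 _ (right_ne_zero_of_mul h))
      · exact Or.inr h
    · have h1 : (⟨u (j - 1), hmem (j - 1)⟩ : A) * ⟨u (j + 1), hmem (j + 1)⟩ *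
          (⟨u j, hmem j⟩ ^ 4 + algebraMap k A b * ⟨u j, hmem j⟩ ^ 2 * ⟨v j, hvmem j⟩ ^ 2 +
            ⟨v j, hvmem j⟩ ^ 4) =
          (⟨v (j - 1), hvmem (j - 1)⟩ : A) * ⟨v (j + 1), hvmem (j + 1)⟩ *
          (⟨u j, hmem j⟩ ^ 4 + algebraMap k A a * ⟨u j, hmem j⟩ ^ 2 * ⟨v j, hvmem j⟩ ^ 2 +
            ⟨v j, hvmem j⟩ ^ 4) := by
        apply Subtype.ext
        exact (hu j).2.2
      have h2 := congrArg φ h1
      simp only [map_mul, map_add, map_pow, AlgHom.commutes] at h2
      have h3 := congrArg (fun x : k => (x : ℂ)) h2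
      simp only [MulMemClass.coe_mul, AddMemClass.coe_add, SubmonoidClass.coe_pow, hφv] at h3
      exact h3
  have hwper : ∀ j, w (j + N) = w j := by
    intro j
    have : (⟨u (j + N), hmem (j + N)⟩ : A) = ⟨u j, hmem j⟩ := Subtype.ext (hper j)
    simp only [w, this]
  have hwi : w i = n := by
    simp only [w, hφ]
    rfl
  have hwalg : ∀ j, IsAlgebraic ℚ (w j) := fun j =>
    mem_algebraicClosure_iff.mp (φ ⟨u j, hmem j⟩).2
  obtain ⟨L, hL, hsub⟩ := exists_numberField (Set.range w ∪ {α, β})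
    ((per_range_finite w hN hwper).union (by simp)) (by
      rintro x (⟨j, rfl⟩ | hx)
      · exact hwalg j
      · rcases hx with rfl | hx
        · exact hα
        · rw [Set.mem_singleton_iff] at hx
          rw [hx]; exact hβ)
  have : NumberField L := { to_charZero := inferInstance, to_finiteDimensional := hL }
  let w' : ℤ → L := fun j => ⟨w j, hsub (Or.inl ⟨j, rfl⟩)⟩
  have hvL : ∀ j, v j ∈ L := by
    intro j
    rcases hv01 j with h | h
    · rw [h]; exact L.zero_mem
    · rw [h]; exact L.one_mem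
  let v' : ℤ → L := fun j => ⟨v j, hvL j⟩
  have hb1 := hbd L (algebraMap L ℂ) ⟨α, hsub (Or.inr (by simp))⟩ ⟨β, hsub (Or.inr (by simp))⟩
    rfl rfl w' v' N hN (fun j => Subtype.ext (hwper j)) (fun j => Subtype.ext (hper' j))
    (isSeq_lift (σ := algebraMap L ℂ) (fun _ => rfl) (fun _ => rfl) rfl rfl hw) i
  have hwn : w' i = (n : L) := Subtype.ext hwi
  have hvn : v' i = 1 := Subtype.ext hvi
  rw [hwn, hvn, ← logHeight₁_eq_logHeight] at hb1
  have h4 := log_le_logHeight_nat L n hn1
  have h5 : (0 : ℝ) < Module.finrank ℚ L := by exact_mod_cast Module.finrank_pos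
  have h6 : C * Module.finrank ℚ L < Real.log n * Module.finrank ℚ L :=
    mul_lt_mul_of_pos_right hnC h5
  linarith

end Run7.h904
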