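import Mathlib

/-!
Basic vocabulary for projective varieties inside powers of the complex projective line.
-/

open OnePoint

namespace Run7.h904

/-- The complex projective line `ℂ ∪ {∞}`. -/
abbrev P1 := OnePoint ℂ

/-- First homogeneous coordinate: `hx z = z`, `hx ∞ = 1`. -/
noncomputable def hx (P : P1) : ℂ := P.elim 1 id

/-- Second homogeneous coordinate: `hy z = 1`, `hy ∞ = 0`. -/
noncomputable def hy (P : P1) : ℂ := P.elim 0 (fun _ => 1)

/-- The point `[a : b]` of the projective line. -/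
noncomputable def rat (a b : ℂ) : P1 := if b = 0 then ∞ else ((a / b : ℂ) : P1)

/-- Points of `(ℙ¹)ⁿ`. -/
abbrev Pt (n : ℕ) := Fin n → P1

/-- `G` is a multihomogeneous polynomial of multidegree `m` in the homogeneous coordinates of
`(ℙ¹)ⁿ` (the variables `inl i`, `inr i` are the two homogeneous coordinates of the `i`-th
factor). -/
def IsForm {n : ℕ} (m : Fin n → ℕ) (G : MvPolynomial (Fin n ⊕ Fin n) ℂ) : Prop :=
  ∀ c s t : Fin n → ℂ,
    MvPolynomial.eval (Sum.elim (fun i => c i * s i) (fun i => c i * t i)) G =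
      (∏ i, c i ^ m i) * MvPolynomial.eval (Sum.elim s t) G

/-- The value of a polynomial in the homogeneous coordinates at (the standard homogeneous
coordinates of) a point of `(ℙ¹)ⁿ`. -/
noncomputable def val {n : ℕ} (G : MvPolynomial (Fin n ⊕ Fin n) ℂ) (x : Pt n) : ℂ :=
  MvPolynomial.eval (Sum.elim (fun i => hx (x i)) (fun i => hy (x i))) G

/-- Zariski closed subsets of `(ℙ¹)ⁿ`. -/
def IsZariskiClosed {n : ℕ} (Z : Set (Pt n)) : Prop :=
  ∃ I : Set (MvPolynomial (Fin n ⊕ Fin n) ℂ), (∀ G ∈ I, ∃ m, IsForm m G) ∧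
    Z = {x | ∀ G ∈ I, val G x = 0}

/-- `φ : X → ℙ¹` is a regular map: near each point of `X` it is a quotient of two multihomogeneous
polynomials of the same multidegree without common zero. -/
def IsRegular {n : ℕ} (X : Set (Pt n)) (φ : X → P1) : Prop :=
  ∀ x : X, ∃ (m m' : Fin n → ℕ) (G H Q : MvPolynomial (Fin n ⊕ Fin n) ℂ),
    IsForm m G ∧ IsForm m H ∧ IsForm m' Q ∧ val Q x.1 ≠ 0 ∧
    ∀ z : X, val Q z.1 ≠ 0 → (val G z.1 ≠ 0 ∨ val H z.1 ≠ 0) ∧ φ z = rat (val G z.1) (val H z.1)

/-- An automorphism of the algebraic set `X`: a bijection which is regular together with its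
inverse. -/
def IsAutomorphism {n : ℕ} (X : Set (Pt n)) (f : Equiv.Perm X) : Prop :=
  (∀ i, IsRegular X (fun x => (f x).1 i)) ∧ (∀ i, IsRegular X (fun x => (f.symm x).1 i))

end Run7.h904
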