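import Pool.Agent.Run7.h904.Surf

/-! Degree growth along a rational curve. -/

open OnePoint Polynomial

namespace Run7.h904

/-- The quartic form evaluated at polynomials. -/
noncomputable def qp (γ μ : ℂ) (P Q : ℂ[X]) : ℂ[X] :=
  P ^ 4 + C (γ * μ) * P ^ 2 * Q ^ 2 + C (μ ^ 2) * Q ^ 4

lemma eval_qp (γ μ : ℂ) (P Q : ℂ[X]) (t : ℂ) :
    (qp γ μ P Q).eval t = qf γ μ (P.eval t) (Q.eval t) := by
  unfold qp qf
  simp

/-- a reduced fraction, with nonzero numerator and denominator -/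
structure RF where
  /-- numerator -/
  P : ℂ[X]
  /-- denominator -/
  Q : ℂ[X]
  cop : IsCoprime P Q
  P0 : P ≠ 0
  Q0 : Q ≠ 0

/-- the degree of the rational function -/
noncomputable def RF.deg (v : RF) : ℕ := max v.P.natDegree v.Q.natDegree

/-- value as a point of the projective line -/
noncomputable def RF.at (v : RF) (t : ℂ) : P1 := rat (v.P.eval t) (v.Q.eval t)

lemma RF.eval_ne (v : RF) (t : ℂ) : v.P.eval t ≠ 0 ∨ v.Q.eval t ≠ 0 := by
  obtain ⟨a, b, h⟩ := v.cop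
  by_contra hcon
  push Not at hcon
  have := congrArg (Polynomial.eval t) h
  rw [eval_add, eval_mul, eval_mul, hcon.1, hcon.2, mul_zero, mul_zero, add_zero, eval_one] at this
  exact zero_ne_one this

section qp

variable {α β μ : ℂ}

lemma qp_sub (P Q : ℂ[X]) : qp α μ P Q - qp β μ P Q = C ((α - β) * μ) * (P ^ 2 * Q ^ 2) := by
  unfold qp
  simp only [C_mul, C_sub]
  ring

lemma qp_coprime (hne : α ≠ β) (hμ : μ ≠ 0) {P Q : ℂ[X]} (h : IsCoprime P Q) :
    IsCoprime (qp α μ P Q) (qp β μ P Q) := by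
  -- P² Q² and (P⁴ + μ² Q⁴) are combinations
  have h1 : ∀ γ, IsCoprime (qp γ μ P Q) (P ^ 2) := by
    intro γ
    have hQ : IsCoprime (C (μ ^ 2) * Q ^ 4) (P ^ 2) := by
      have hu : IsUnit (C (μ ^ 2) : ℂ[X]) := by
        rw [isUnit_C]; exact (pow_ne_zero 2 hμ).isUnit
      rw [isCoprime_mul_unit_left_left hu]
      exact (h.symm.pow)
    have e : qp γ μ P Q = C (μ ^ 2) * Q ^ 4 + P ^ 2 * (P ^ 2 + C (γ * μ) * Q ^ 2) := by
      unfold qp; ring
    rw [e]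
    exact hQ.add_mul_left_left _
  have h2 : ∀ γ, IsCoprime (qp γ μ P Q) (Q ^ 2) := by
    intro γ
    have hP : IsCoprime (P ^ 4) (Q ^ 2) := h.pow
    have e : qp γ μ P Q = P ^ 4 + Q ^ 2 * (C (γ * μ) * P ^ 2 + C (μ ^ 2) * Q ^ 2) := by
      unfold qp; ring
    rw [e]
    exact hP.add_mul_left_left _
  have h3 : IsCoprime (qp α μ P Q) (C ((β - α) * μ) * (P ^ 2 * Q ^ 2)) := by
    have hu : IsUnit (C ((β - α) * μ) : ℂ[X]) := by
      rw [isUnit_C]; exact (mul_ne_zero (sub_ne_zero.mpr hne.symm) hμ).isUnit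
    rw [isCoprime_mul_unit_left_right hu]
    exact (h1 α).mul_right (h2 α)
  have e : qp β μ P Q = C ((β - α) * μ) * (P ^ 2 * Q ^ 2) + qp α μ P Q * 1 := by
    have := qp_sub (α := β) (β := α) (μ := μ) P Q
    rw [← this]; ring
  rw [e]
  exact h3.add_mul_left_right 1

/-- the degree of `r(v)` is four times the degree of `v`. -/
lemma qp_degree (hne : α ≠ β) (hμ : μ ≠ 0) (v : RF) :
    4 * v.deg ≤ max (qp α μ v.P v.Q).natDegree (qp β μ v.P v.Q).natDegree := by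
  set d := v.deg with hd
  have hP : v.P.natDegree ≤ d := le_max_left _ _
  have hQ : v.Q.natDegree ≤ d := le_max_right _ _
  -- leading coefficients
  set a := v.P.coeff d
  set b := v.Q.coeff d
  have hab : a ≠ 0 ∨ b ≠ 0 := by
    rcases le_total v.P.natDegree v.Q.natDegree with h | h
    · right
      have : d = v.Q.natDegree := by rw [hd]; exact max_eq_right h
      show v.Q.coeff d ≠ 0
      rw [this]
      exact leadingCoeff_ne_zero.mpr v.Q0
    · left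
      have : d = v.P.natDegree := by rw [hd]; exact max_eq_left h
      show v.P.coeff d ≠ 0
      rw [this]
      exact leadingCoeff_ne_zero.mpr v.P0
  have hc : ∀ γ, (qp γ μ v.P v.Q).coeff (4 * d) = qf γ μ a b := by
    intro γ
    unfold qp qf
    have e1 : (v.P ^ 4).coeff (4 * d) = a ^ 4 := coeff_pow_of_natDegree_le hP
    have e2 : (v.Q ^ 4).coeff (4 * d) = b ^ 4 := coeff_pow_of_natDegree_le hQ
    have e3 : (v.P ^ 2).coeff (2 * d) = a ^ 2 := coeff_pow_of_natDegree_le hP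
    have e4 : (v.Q ^ 2).coeff (2 * d) = b ^ 2 := coeff_pow_of_natDegree_le hQ
    have e5 : (v.P ^ 2 * v.Q ^ 2).coeff (2 * d + 2 * d) = a ^ 2 * b ^ 2 := by
      rw [coeff_mul_add_eq_of_natDegree_le (natDegree_pow_le_of_le 2 hP)
        (natDegree_pow_le_of_le 2 hQ), e3, e4]
    have e6 : 2 * d + 2 * d = 4 * d := by ring
    rw [e6] at e5
    rw [coeff_add, coeff_add, mul_assoc, coeff_C_mul, coeff_C_mul, e1, e2, e5]
    ring
  have hne0 : qf α μ a b ≠ 0 ∨ qf β μ a b ≠ 0 := by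
    by_contra hcon
    push Not at hcon
    have := Par.qf_common hne hμ hcon.1 hcon.2
    rcases hab with h | h
    · exact h this.1
    · exact h this.2
  rcases hne0 with h | h
  · exact le_trans (le_natDegree_of_ne_zero (by rw [hc]; exact h)) (le_max_left _ _)
  · exact le_trans (le_natDegree_of_ne_zero (by rw [hc]; exact h)) (le_max_right _ _)

lemma qp_ne_zero (hμ : μ ≠ 0) (γ : ℂ) (v : RF) (hv : 0 < v.deg) : qp γ μ v.P v.Q ≠ 0 := by
  intro h
  -- then Q ∣ P⁴, so Q is a unit; similarly P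
  have h1 : v.Q ∣ v.P ^ 4 := by
    refine ⟨-(C (γ * μ) * v.P ^ 2 * v.Q + C (μ ^ 2) * v.Q ^ 3), ?_⟩
    unfold qp at h
    linear_combination h
  have h2 : v.P ∣ C (μ ^ 2) * v.Q ^ 4 := by
    refine ⟨-(v.P ^ 3 + C (γ * μ) * v.P * v.Q ^ 2), ?_⟩
    unfold qp at h
    linear_combination h
  have hQ : IsUnit v.Q := (v.cop.symm.pow_right (n := 4)).isUnit_of_dvd' (dvd_refl _) h1
  have hu : IsUnit (C (μ ^ 2) : ℂ[X]) := by
    rw [isUnit_C]; exact (pow_ne_zero 2 hμ).isUnit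
  have h3 : v.P ∣ v.Q ^ 4 := (hu.dvd_mul_left).mp h2
  have hP : IsUnit v.P := (v.cop.pow_right (n := 4)).isUnit_of_dvd' (dvd_refl _) h3
  have e1 := natDegree_eq_zero_of_isUnit hQ
  have e2 := natDegree_eq_zero_of_isUnit hP
  unfold RF.deg at hv
  rw [e1, e2] at hv
  simp at hv

end qp

/-- `v'' = r(v')/v`. -/
def RF.Step (p : Par) (v v' v'' : RF) : Prop :=
  v''.P * (qp p.β p.μ v'.P v'.Q * v.P) = v''.Q * (C p.μ * qp p.α p.μ v'.P v'.Q * v.Q)

lemma RF.exists_step {p : Par} (hp : p.Good) (v v' : RF) (hv' : 0 < v'.deg) :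
    ∃ v'' : RF, RF.Step p v v' v'' ∧
      ∃ g : ℂ[X], g ≠ 0 ∧ C p.μ * qp p.α p.μ v'.P v'.Q * v.Q = g * v''.P ∧
        qp p.β p.μ v'.P v'.Q * v.P = g * v''.Q := by
  set A := C p.μ * qp p.α p.μ v'.P v'.Q * v.Q with hA
  set B := qp p.β p.μ v'.P v'.Q * v.P with hB
  have hA0 : A ≠ 0 := by
    refine mul_ne_zero (mul_ne_zero ?_ (qp_ne_zero hp.μ0 _ v' hv')) v.Q0
    rw [Ne, C_eq_zero]; exact hp.μ0
  have hB0 : B ≠ 0 := mul_ne_zero (qp_ne_zero hp.μ0 _ v' hv') v.P0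
  set g := EuclideanDomain.gcd A B
  have hg : g ≠ 0 := fun h => hA0 (EuclideanDomain.gcd_eq_zero_iff.mp h).1
  obtain ⟨A', hA'⟩ := EuclideanDomain.gcd_dvd_left A B
  obtain ⟨B', hB'⟩ := EuclideanDomain.gcd_dvd_right A B
  have hcop : IsCoprime A' B' := by
    have h1 := EuclideanDomain.gcd_eq_gcd_ab A B
    refine ⟨EuclideanDomain.gcdA A B, EuclideanDomain.gcdB A B, ?_⟩
    apply mul_left_cancel₀ hg
    calc g * (EuclideanDomain.gcdA A B * A' + EuclideanDomain.gcdB A B * B')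
        = (g * A') * EuclideanDomain.gcdA A B + (g * B') * EuclideanDomain.gcdB A B := by ring
      _ = A * EuclideanDomain.gcdA A B + B * EuclideanDomain.gcdB A B := by
          have e1 : g * A' = A := hA'.symm
          have e2 : g * B' = B := hB'.symm
          rw [e1, e2]
      _ = g := h1.symm
      _ = g * 1 := (mul_one _).symm
  have hA'0 : A' ≠ 0 := by rintro rfl; apply hA0; rw [hA', mul_zero]
  have hB'0 : B' ≠ 0 := by rintro rfl; apply hB0; rw [hB', mul_zero]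
  refine ⟨⟨A', B', hcop, hA'0, hB'0⟩, ?_, g, hg, hA', hB'⟩
  have e1 : A = g * A' := hA'
  have e2 : B = g * B' := hB'
  show A' * B = B' * A
  clear_value g A B
  linear_combination A' * e2 - B' * e1

/-- the basic inequality of degrees -/
lemma RF.Step.deg_le {p : Par} (hp : p.Good) {v v' v'' : RF} (h : RF.Step p v v' v'') :
    4 * v'.deg ≤ v''.deg + v.deg := by
  have hc := qp_coprime hp.ne hp.μ0 v'.cop
  refine (qp_degree hp.ne hp.μ0 v').trans ?_
  have hu : IsUnit (C p.μ : ℂ[X]) := by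
    rw [isUnit_C]; exact hp.μ0.isUnit
  unfold RF.Step at h
  apply max_le
  · -- num divides P'' P
    have h1 : qp p.α p.μ v'.P v'.Q ∣ v''.P * v.P := by
      have : qp p.α p.μ v'.P v'.Q ∣ (v''.P * v.P) * qp p.β p.μ v'.P v'.Q :=
        ⟨v''.Q * C p.μ * v.Q, by linear_combination h⟩
      exact hc.dvd_of_dvd_mul_right this
    have h2 := natDegree_le_of_dvd h1 (mul_ne_zero v''.P0 v.P0)
    rw [natDegree_mul v''.P0 v.P0] at h2
    exact h2.trans (add_le_add (le_max_left _ _) (le_max_left _ _))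
  · have h1 : qp p.β p.μ v'.P v'.Q ∣ v''.Q * v.Q := by
      have : qp p.β p.μ v'.P v'.Q ∣ C p.μ * ((v''.Q * v.Q) * qp p.α p.μ v'.P v'.Q) :=
        ⟨v''.P * v.P, by linear_combination -h⟩
      rw [hu.dvd_mul_left] at this
      exact hc.symm.dvd_of_dvd_mul_right this
    have h2 := natDegree_le_of_dvd h1 (mul_ne_zero v''.Q0 v.Q0)
    rw [natDegree_mul v''.Q0 v.Q0] at h2
    exact h2.trans (add_le_add (le_max_right _ _) (le_max_right _ _))

/-- the sequence starting with a constant and the variable -/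
lemma exists_seq {p : Par} (hp : p.Good) {k : ℂ} (hk : k ≠ 0) :
    ∃ v : ℕ → RF, (v 0).P = C k ∧ (v 0).Q = 1 ∧ (v 1).P = X ∧ (v 1).Q = 1 ∧
      (∀ n, 3 * (v n).deg ≤ (v (n + 1)).deg) ∧ (v 0).deg = 0 ∧ (v 1).deg = 1 ∧
      (∀ n, RF.Step p (v n) (v (n + 1)) (v (n + 2))) ∧
      ∀ n, ∃ g : ℂ[X], g ≠ 0 ∧
        C p.μ * qp p.α p.μ (v (n + 1)).P (v (n + 1)).Q * (v n).Q = g * (v (n + 2)).P ∧
        qp p.β p.μ (v (n + 1)).P (v (n + 1)).Q * (v n).P = g * (v (n + 2)).Q := by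
  classical
  let v0 : RF := ⟨C k, 1, isCoprime_one_right, by rw [Ne, C_eq_zero]; exact hk, one_ne_zero⟩
  let v1 : RF := ⟨X, 1, isCoprime_one_right, X_ne_zero, one_ne_zero⟩
  have hd0 : v0.deg = 0 := by simp [RF.deg, v0]
  have hd1 : v1.deg = 1 := by simp [RF.deg, v1]
  -- pairs with 3 deg v ≤ deg v' and 0 < deg v'
  let S := {w : RF × RF // 3 * w.1.deg ≤ w.2.deg ∧ 0 < w.2.deg}
  have step : ∀ w : S, ∃ w' : S, w'.1.1 = w.1.2 ∧ RF.Step p w.1.1 w.1.2 w'.1.2 ∧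
      ∃ g : ℂ[X], g ≠ 0 ∧ C p.μ * qp p.α p.μ w.1.2.P w.1.2.Q * w.1.1.Q = g * w'.1.2.P ∧
        qp p.β p.μ w.1.2.P w.1.2.Q * w.1.1.P = g * w'.1.2.Q := by
    rintro ⟨⟨v, v'⟩, h1, h2⟩
    obtain ⟨v'', hs, hg⟩ := RF.exists_step hp v v' h2
    have h3 := hs.deg_le hp
    have h1' : 3 * v.deg ≤ v'.deg := h1
    have h2' : 0 < v'.deg := h2
    exact ⟨⟨⟨v', v''⟩, by show 3 * v'.deg ≤ v''.deg; omega, by show 0 < v''.deg; omega⟩,
      rfl, hs, hg⟩
  choose nx hnx1 hnx2 hnx3 using step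
  let w0 : S := ⟨⟨v0, v1⟩, by show 3 * v0.deg ≤ v1.deg ∧ 0 < v1.deg; rw [hd0, hd1]; simp⟩
  let w : ℕ → S := fun n => Nat.rec w0 (fun _ s => nx s) n
  have hw : ∀ n, w (n + 1) = nx (w n) := fun n => rfl
  have hw1 : ∀ n, (w (n + 1)).1.1 = (w n).1.2 := fun n => by rw [hw, hnx1]
  refine ⟨fun n => (w n).1.1, rfl, rfl, ?_, ?_, ?_, hd0, ?_, ?_, ?_⟩
  · have e : (w 1).1.1 = (w 0).1.2 := hw1 0
    show ((w 1).1.1).P = X
    rw [e]; rfl
  · have e : (w 1).1.1 = (w 0).1.2 := hw1 0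
    show ((w 1).1.1).Q = 1
    rw [e]; rfl
  · intro n
    show 3 * (w n).1.1.deg ≤ (w (n + 1)).1.1.deg
    rw [hw1 n]
    exact (w n).2.1
  · have e : (w 1).1.1 = (w 0).1.2 := hw1 0
    show ((w 1).1.1).deg = 1
    rw [e]
    exact hd1
  · intro n
    show RF.Step p (w n).1.1 (w (n + 1)).1.1 (w (n + 2)).1.1
    rw [hw1 (n + 1), hw1 n, hw n]
    exact hnx2 _
  · intro n
    show ∃ g : ℂ[X], g ≠ 0 ∧
        C p.μ * qp p.α p.μ ((w (n + 1)).1.1).P ((w (n + 1)).1.1).Q * ((w n).1.1).Q =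
          g * ((w (n + 2)).1.1).P ∧
        qp p.β p.μ ((w (n + 1)).1.1).P ((w (n + 1)).1.1).Q * ((w n).1.1).P =
          g * ((w (n + 2)).1.1).Q
    rw [hw1 (n + 1), hw1 n, hw n]
    exact hnx3 _

end Run7.h904
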