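import Pool.Agent.Run7.h904.Reg

/-! The recurrence `u_{n+1} u_{n-1} = μ (u_n⁴ + α μ u_n² + μ²)/(u_n⁴ + β μ u_n² + μ²)` on the
projective line. -/

open OnePoint MvPolynomial

namespace Run7.h904

/-- parameters of the recurrence -/
structure Par where
  /-- coefficient of the numerator -/
  α : ℂ
  /-- coefficient of the denominator -/
  β : ℂ
  /-- scaling parameter -/
  μ : ℂ

/-- the binary quartic form `s⁴ + γ μ s² t² + μ² t⁴` -/
def qf (γ μ s t : ℂ) : ℂ := s ^ 4 + γ * μ * s ^ 2 * t ^ 2 + μ ^ 2 * t ^ 4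

/-- numerator form at a point -/
noncomputable def Par.num (p : Par) (b : P1) : ℂ := qf p.α p.μ (hx b) (hy b)
/-- denominator form at a point -/
noncomputable def Par.den (p : Par) (b : P1) : ℂ := qf p.β p.μ (hx b) (hy b)

/-- the relation `a c = r(b)`, `r = μ (t⁴ + α μ t² + μ²)/(t⁴ + β μ t² + μ²)`, on `ℙ¹`. -/
def Par.Rel (p : Par) (a b c : P1) : Prop :=
  p.den b * (hx a * hx c) = p.μ * p.num b * (hy a * hy c)

/-- indeterminacy of `r(b)/a` -/
def Par.Ind (p : Par) (a b : P1) : Prop :=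
  p.μ * p.num b * hy a = 0 ∧ p.den b * hx a = 0

open Classical in
/-- the next term `r(b)/a` of the recurrence; where this is indeterminate, the value is `z`. -/
noncomputable def Par.nxt (p : Par) (a b z : P1) : P1 :=
  if p.Ind a b then z else rat (p.μ * p.num b * hy a) (p.den b * hx a)

/-- nondegeneracy of the parameters -/
structure Par.Good (p : Par) : Prop where
  ne : p.α ≠ p.β
  μ0 : p.μ ≠ 0

namespace Par

variable {p : Par}

lemma Rel.symm {a b c : P1} (h : p.Rel a b c) : p.Rel c b a := by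
  unfold Rel at *
  linear_combination h

lemma qf_common {α β μ s t : ℂ} (hne : α ≠ β) (hμ : μ ≠ 0) (h1 : qf α μ s t = 0)
    (h2 : qf β μ s t = 0) : s = 0 ∧ t = 0 := by
  unfold qf at *
  have h3 : (α - β) * μ * (s ^ 2 * t ^ 2) = 0 := by linear_combination h1 - h2
  have h4 : s ^ 2 * t ^ 2 = 0 := by
    rcases mul_eq_zero.mp h3 with h | h
    · exact absurd h (mul_ne_zero (sub_ne_zero.mpr hne) hμ)
    · exact h
  have h5 : s * t = 0 := by
    have : (s * t) ^ 2 = 0 := by linear_combination h4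
    exact pow_eq_zero_iff (two_ne_zero) |>.mp this
  rcases mul_eq_zero.mp h5 with h | h
  · subst h
    have : μ ^ 2 * t ^ 4 = 0 := by linear_combination h1
    rcases mul_eq_zero.mp this with h | h
    · exact absurd h (pow_ne_zero _ hμ)
    · exact ⟨rfl, pow_eq_zero_iff (by norm_num) |>.mp h⟩
  · subst h
    have : s ^ 4 = 0 := by linear_combination h1
    exact ⟨pow_eq_zero_iff (by norm_num) |>.mp this, rfl⟩

lemma Good.num_or_den (hp : p.Good) (b : P1) : p.num b ≠ 0 ∨ p.den b ≠ 0 := by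
  by_contra h
  push Not at h
  have := qf_common hp.ne hp.μ0 h.1 h.2
  rcases hxy_ne b with h | h <;> tauto

lemma Good.ind_iff (hp : p.Good) {a b : P1} :
    p.Ind a b ↔ (hx a = 0 ∧ p.num b = 0) ∨ (hy a = 0 ∧ p.den b = 0) := by
  have h1 := hp.num_or_den b
  have h2 := hxy_ne a
  have h3 := hp.μ0
  unfold Ind
  simp only [mul_eq_zero]
  tauto

lemma Good.nxt_rel (hp : p.Good) (a b z : P1) : p.Rel a b (p.nxt a b z) := by
  unfold nxt
  split_ifs with h
  · unfold Ind at h
    unfold Rel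
    linear_combination hx z * h.2 - hy z * h.1
  · unfold Ind at h
    have h' : p.μ * p.num b * hy a ≠ 0 ∨ p.den b * hx a ≠ 0 := by tauto
    obtain ⟨k, hk, h1, h2⟩ := exists_smul_rat h'
    unfold Rel
    set r := rat (p.μ * p.num b * hy a) (p.den b * hx a)
    linear_combination hx r * h2 - hy r * h1

lemma nxt_of_not_ind {a b z c : P1} (h : p.Rel a b c) (hi : ¬ p.Ind a b) : p.nxt a b z = c := by
  unfold nxt
  rw [if_neg hi]
  unfold Ind at hi
  have h' : p.μ * p.num b * hy a ≠ 0 ∨ p.den b * hx a ≠ 0 := by tauto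
  rw [rat_eq_iff h']
  unfold Rel at h
  linear_combination -h

lemma nxt_of_ind {a b z : P1} (hi : p.Ind a b) : p.nxt a b z = z := by
  unfold nxt
  rw [if_pos hi]

lemma qf_smul (γ μ k s t : ℂ) : qf γ μ (k * s) (k * t) = k ^ 4 * qf γ μ s t := by
  unfold qf; ring

lemma qf_inv (γ μ s t : ℂ) : qf γ μ (μ * t) s = μ ^ 2 * qf γ μ s t := by
  unfold qf; ring

/-- if `b₀ d₀ = μ b₁ d₁` then `b = μ/d` -/
lemma exists_smul_of_inv {μ : ℂ} {b d : P1} (hμ : μ ≠ 0) (h : hx b * hx d = μ * (hy b * hy d)) :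
    ∃ k : ℂ, k ≠ 0 ∧ hx b = k * (μ * hy d) ∧ hy b = k * hx d := by
  rcases hxy_ne b with h0 | h0
  · have hd : hy d ≠ 0 := by
      intro hd
      rw [hd, mul_zero, mul_zero] at h
      rcases mul_eq_zero.mp h with h | h
      · exact h0 h
      · rcases hxy_ne d with h1 | h1 <;> tauto
    refine ⟨hx b / (μ * hy d), by positivity, ?_, ?_⟩
    · field_simp
    · field_simp
      linear_combination -h
  · have hd : hx d ≠ 0 := by
      intro hd
      rw [hd, mul_zero] at h
      rcases mul_eq_zero.mp h.symm with h | h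
      · exact hμ h
      · rcases mul_eq_zero.mp h with h | h
        · exact h0 h
        · rcases hxy_ne d with h1 | h1 <;> tauto
    refine ⟨hy b / hx d, by positivity, ?_, ?_⟩
    · field_simp
      linear_combination h
    · field_simp

lemma Good.inv_of_zero (hp : p.Good) {b c d : P1} (h : p.Rel b c d) (hc : hx c = 0 ∨ hy c = 0) :
    hx b * hx d = p.μ * (hy b * hy d) := by
  unfold Rel num den qf at h
  have h0 := hxy_ne c
  have hμ := hp.μ0
  rcases hc with hc | hc
  · have hc' : hy c ≠ 0 := by tauto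
    rw [hc] at h
    have h1 : p.μ ^ 2 * hy c ^ 4 ≠ 0 := mul_ne_zero (pow_ne_zero _ hμ) (pow_ne_zero _ hc')
    apply mul_left_cancel₀ h1
    linear_combination h
  · have hc' : hx c ≠ 0 := by tauto
    rw [hc] at h
    have h1 : hx c ^ 4 ≠ 0 := pow_ne_zero _ hc'
    apply mul_left_cancel₀ h1
    linear_combination h

lemma Good.ind_symm (hp : p.Good) {b c d : P1} (h : p.Rel b c d) (hi : p.Ind c d) :
    p.Ind c b := by
  rw [hp.ind_iff] at *
  have hc : hx c = 0 ∨ hy c = 0 := by tauto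
  obtain ⟨k, hk, h1, h2⟩ := exists_smul_of_inv hp.μ0 (hp.inv_of_zero h hc)
  have e : ∀ γ, qf γ p.μ (hx b) (hy b) = k ^ 4 * (p.μ ^ 2 * qf γ p.μ (hx d) (hy d)) := by
    intro γ
    rw [h1, h2, qf_smul, qf_inv]
  rcases hi with ⟨h3, h4⟩ | ⟨h3, h4⟩
  · left
    refine ⟨h3, ?_⟩
    unfold num at *
    rw [e, h4]; ring
  · right
    refine ⟨h3, ?_⟩
    unfold den at *
    rw [e, h4]; ring

end Par

/-- the surface `Y`: quadruples `(a,b,c,d)` with `a c = r(b)`, `b d = r(c)` -/
def surfY (p : Par) : Set (Pt 4) := {x | p.Rel (x 0) (x 1) (x 2) ∧ p.Rel (x 1) (x 2) (x 3)}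

namespace Par

variable {p : Par}

/-- the shift on `Y` -/
noncomputable def Good.shift (hp : p.Good) : Equiv.Perm (surfY p) where
  toFun x := ⟨![x.1 1, x.1 2, x.1 3, p.nxt (x.1 2) (x.1 3) (x.1 0)],
    ⟨x.2.2, hp.nxt_rel _ _ _⟩⟩
  invFun x := ⟨![p.nxt (x.1 1) (x.1 0) (x.1 3), x.1 0, x.1 1, x.1 2],
    ⟨(hp.nxt_rel _ _ _).symm, x.2.1⟩⟩
  left_inv := by
    intro x
    apply Subtype.ext
    funext i
    have key : p.nxt (x.1 2) (x.1 1) (p.nxt (x.1 2) (x.1 3) (x.1 0)) = x.1 0 := by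
      by_cases hi : p.Ind (x.1 2) (x.1 1)
      · rw [nxt_of_ind hi, nxt_of_ind (hp.ind_symm x.2.2.symm hi)]
      · exact nxt_of_not_ind x.2.1.symm hi
    fin_cases i
    · simpa using key
    · rfl
    · rfl
    · rfl
  right_inv := by
    intro x
    apply Subtype.ext
    funext i
    have key : p.nxt (x.1 1) (x.1 2) (p.nxt (x.1 1) (x.1 0) (x.1 3)) = x.1 3 := by
      by_cases hi : p.Ind (x.1 1) (x.1 2)
      · rw [nxt_of_ind hi, nxt_of_ind (hp.ind_symm x.2.1 hi)]
      · exact nxt_of_not_ind x.2.2 hi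
    fin_cases i
    · rfl
    · rfl
    · rfl
    · simpa using key

end Par

end Run7.h904
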