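import Pool.Agent.Run7.h904.Geo

/-! Regularity of the shift. -/

open OnePoint MvPolynomial

namespace Run7.h904

namespace Par

variable {p : Par}

/-- correction term -/
noncomputable def cor (p : Par) (b0 b1 d0 d1 : ℂ) : ℂ :=
  b1 * d1 * (b0 ^ 2 * d1 ^ 2 - d0 ^ 2 * b1 ^ 2) * (b0 * d0 + p.μ * (b1 * d1))

lemma Good.alt1 (hp : p.Good) {a b c d : P1} (h1 : p.Rel a b c) (h2 : p.Rel b c d)
    (hb : p.den b ≠ 0) (hc : p.den c ≠ 0) (hd : p.den d ≠ 0) :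
    p.nxt c d a = rat
      (hx a * (p.den b * p.den c * p.den d) + (p.α - p.β) ^ 2 * p.μ ^ 4 * hy a *
        (hx c * hy c ^ 3) * p.cor (hx b) (hy b) (hx d) (hy d))
      (hy a * (p.den b * p.den c * p.den d)) := by
  have hK : p.den b * p.den c * p.den d ≠ 0 := mul_ne_zero (mul_ne_zero hb hc) hd
  by_cases hi : p.Ind c d
  · rw [nxt_of_ind hi]
    rw [hp.ind_iff] at hi
    have h0 : hx c = 0 := by tauto
    rw [h0]
    have : rat (hx a * (p.den b * p.den c * p.den d)) (hy a * (p.den b * p.den c * p.den d)) = a := by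
      rw [mul_comm, mul_comm (hy a), rat_smul hK, rat_hxy]
    refine this.symm.trans ?_
    congr 1
    ring
  · unfold nxt
    rw [if_neg hi]
    unfold Ind at hi
    have h' : p.μ * p.num d * hy c ≠ 0 ∨ p.den d * hx c ≠ 0 := by tauto
    have h'' : (hx a * (p.den b * p.den c * p.den d) + (p.α - p.β) ^ 2 * p.μ ^ 4 * hy a *
        (hx c * hy c ^ 3) * p.cor (hx b) (hy b) (hx d) (hy d)) ≠ 0 ∨
        hy a * (p.den b * p.den c * p.den d) ≠ 0 := by
      by_cases ha : hy a = 0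
      · left
        rw [ha]
        have := hxy_ne a
        have ha' : hx a ≠ 0 := by tauto
        simpa using ⟨ha', ⟨hb, hc⟩, hd⟩
      · right
        exact mul_ne_zero ha hK
    rw [rat_eq_rat_iff h' h'']
    unfold Rel at h1 h2
    unfold cor
    unfold num den qf at *
    generalize hx a = a0 at *
    generalize hy a = a1 at *
    generalize hx b = b0 at *
    generalize hy b = b1 at *
    generalize hx c = c0 at *
    generalize hy c = c1 at *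
    generalize hx d = d0 at *
    generalize hy d = d1 at *
    linear_combination
      (-(d0 ^ 4 + p.β * p.μ * d0 ^ 2 * d1 ^ 2 + p.μ ^ 2 * d1 ^ 4) ^ 2 *
        (c0 ^ 4 + p.β * p.μ * c0 ^ 2 * c1 ^ 2 + p.μ ^ 2 * c1 ^ 4)) * h1 +
      ((d0 ^ 4 + p.β * p.μ * d0 ^ 2 * d1 ^ 2 + p.μ ^ 2 * d1 ^ 4) * a1 * c1 * (p.α - p.β) * p.μ ^ 2 *
        (b0 ^ 2 * d1 ^ 2 - d0 ^ 2 * b1 ^ 2) * (b0 * d0 + p.μ * (b1 * d1))) * h2

lemma Good.alt2 (hp : p.Good) {a b c d : P1} (h1 : p.Rel a b c) (h2 : p.Rel b c d)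
    (hb : p.num b ≠ 0) (hc : p.den c ≠ 0) (hd : p.num d ≠ 0) :
    p.nxt c d a = rat
      (hx a * (p.num b * p.den c * p.num d))
      (hy a * (p.num b * p.den c * p.num d) - (p.α - p.β) ^ 2 * p.μ ^ 2 * hx a *
        (hx c ^ 3 * hy c) * p.cor (hx b) (hy b) (hx d) (hy d)) := by
  have hK : p.num b * p.den c * p.num d ≠ 0 := mul_ne_zero (mul_ne_zero hb hc) hd
  by_cases hi : p.Ind c d
  · rw [nxt_of_ind hi]
    rw [hp.ind_iff] at hi
    have h0 : hy c = 0 := by tauto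
    rw [h0]
    have : rat (hx a * (p.num b * p.den c * p.num d)) (hy a * (p.num b * p.den c * p.num d)) = a := by
      rw [mul_comm, mul_comm (hy a), rat_smul hK, rat_hxy]
    refine this.symm.trans ?_
    congr 1
    ring
  · unfold nxt
    rw [if_neg hi]
    unfold Ind at hi
    have h' : p.μ * p.num d * hy c ≠ 0 ∨ p.den d * hx c ≠ 0 := by tauto
    have h'' : hx a * (p.num b * p.den c * p.num d) ≠ 0 ∨
        (hy a * (p.num b * p.den c * p.num d) - (p.α - p.β) ^ 2 * p.μ ^ 2 * hx a *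
        (hx c ^ 3 * hy c) * p.cor (hx b) (hy b) (hx d) (hy d)) ≠ 0 := by
      by_cases ha : hx a = 0
      · right
        rw [ha]
        have := hxy_ne a
        have ha' : hy a ≠ 0 := by tauto
        simpa using ⟨ha', ⟨hb, hc⟩, hd⟩
      · left
        exact mul_ne_zero ha hK
    rw [rat_eq_rat_iff h' h'']
    unfold Rel at h1 h2
    unfold cor
    unfold num den qf at *
    generalize hx a = a0 at *
    generalize hy a = a1 at *
    generalize hx b = b0 at *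
    generalize hy b = b1 at *
    generalize hx c = c0 at *
    generalize hy c = c1 at *
    generalize hx d = d0 at *
    generalize hy d = d1 at *
    linear_combination
      (-(d0 ^ 4 + p.α * p.μ * d0 ^ 2 * d1 ^ 2 + p.μ ^ 2 * d1 ^ 4) ^ 2 *
        (c0 ^ 4 + p.β * p.μ * c0 ^ 2 * c1 ^ 2 + p.μ ^ 2 * c1 ^ 4)) * h1 +
      ((d0 ^ 4 + p.α * p.μ * d0 ^ 2 * d1 ^ 2 + p.μ ^ 2 * d1 ^ 4) * a0 * c0 * (p.α - p.β) * p.μ *
        (b0 ^ 2 * d1 ^ 2 - d0 ^ 2 * b1 ^ 2) * (b0 * d0 + p.μ * (b1 * d1))) * h2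

end Par

variable {n : ℕ} {X : Set (Pt n)}

lemma RegP.rep {x : X} {φ : X → P1} (hφ : RegP x φ) : ∃ g h : X → ℂ, RegC x g ∧ RegC x h ∧
    ∀ᶠ z in zn X x, ∃ k : ℂ, k ≠ 0 ∧ g z = k * hx (φ z) ∧ h z = k * hy (φ z) := by
  obtain ⟨g, h, hg, hh, hx0, ev⟩ := hφ
  exact ⟨g, h, hg, hh, RegP.exists_smul hg hh hx0 ev⟩

lemma RegC.qf {x : X} {g h : X → ℂ} (hg : RegC x g) (hh : RegC x h) (γ μ : ℂ) :
    RegC x (fun z => qf γ μ (g z) (h z)) := by
  unfold Run7.h904.qf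
  exact ((hg.pow 4).add (((RegC.const x (γ * μ)).mul (hg.pow 2)).mul (hh.pow 2))).add
    ((RegC.const x (μ ^ 2)).mul (hh.pow 4))

/-- where it is determinate, the next term is a regular function -/
lemma RegP.nxt_of_not_ind {p : Par} {x : X} {φ ψ : X → P1} (hφ : RegP x φ) (hψ : RegP x ψ)
    (ζ : X → P1) (hi : ¬ p.Ind (φ x) (ψ x)) : RegP x (fun z => p.nxt (φ z) (ψ z) (ζ z)) := by
  obtain ⟨g1, h1, hg1, hh1, e1⟩ := hφ.rep
  obtain ⟨g2, h2, hg2, hh2, e2⟩ := hψ.rep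
  have hG : RegC x (fun z => p.μ * qf p.α p.μ (g2 z) (h2 z) * h1 z) :=
    ((RegC.const x p.μ).mul (hg2.qf hh2 _ _)).mul hh1
  have hH : RegC x (fun z => qf p.β p.μ (g2 z) (h2 z) * g1 z) := (hg2.qf hh2 _ _).mul hg1
  have key : ∀ᶠ z in zn X x, ∃ k : ℂ, k ≠ 0 ∧
      p.μ * qf p.α p.μ (g2 z) (h2 z) * h1 z = k * (p.μ * p.num (ψ z) * hy (φ z)) ∧
      qf p.β p.μ (g2 z) (h2 z) * g1 z = k * (p.den (ψ z) * hx (φ z)) := by
    filter_upwards [e1, e2] with z ⟨k1, hk1, e3, e4⟩ ⟨k2, hk2, e5, e6⟩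
    refine ⟨k2 ^ 4 * k1, by positivity, ?_, ?_⟩
    · rw [e4, e5, e6, Par.qf_smul]; unfold Par.num; ring
    · rw [e3, e5, e6, Par.qf_smul]; unfold Par.den; ring
  have hx0 : p.μ * qf p.α p.μ (g2 x) (h2 x) * h1 x ≠ 0 ∨ qf p.β p.μ (g2 x) (h2 x) * g1 x ≠ 0 := by
    obtain ⟨k, hk, e3, e4⟩ := zn_self key
    rw [e3, e4]
    unfold Par.Ind at hi
    by_contra hcon
    push Not at hcon
    apply hi
    constructor
    · have := hcon.1; exact (mul_eq_zero.mp this).resolve_left hk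
    · have := hcon.2; exact (mul_eq_zero.mp this).resolve_left hk
  refine ⟨_, _, hG, hH, hx0, ?_⟩
  have hne : ∀ᶠ z in zn X x, p.μ * qf p.α p.μ (g2 z) (h2 z) * h1 z ≠ 0 ∨
      qf p.β p.μ (g2 z) (h2 z) * g1 z ≠ 0 := by
    rcases hx0 with h | h
    · filter_upwards [hG.eventually_ne h] with z hz using Or.inl hz
    · filter_upwards [hH.eventually_ne h] with z hz using Or.inr hz
  filter_upwards [key, hne] with z ⟨k, hk, e3, e4⟩ hz
  rw [e3, e4] at hz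
  rw [e3, e4, rat_smul hk]
  unfold Par.nxt
  rw [if_neg]
  unfold Par.Ind
  rintro ⟨h5, h6⟩
  rw [h5, h6] at hz
  simp at hz

lemma RegP.den_ne {x : X} {φ : X → P1} (hφ : RegP x φ) {γ μ : ℂ}
    (h : qf γ μ (hx (φ x)) (hy (φ x)) ≠ 0) :
    ∀ᶠ z in zn X x, qf γ μ (hx (φ z)) (hy (φ z)) ≠ 0 := by
  obtain ⟨g1, h1, hg1, hh1, e1⟩ := hφ.rep
  have h0 : Run7.h904.qf γ μ (g1 x) (h1 x) ≠ 0 := by
    obtain ⟨k, hk, e3, e4⟩ := zn_self e1
    rw [e3, e4, Par.qf_smul]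
    exact mul_ne_zero (pow_ne_zero _ hk) h
  filter_upwards [(hg1.qf hh1 γ μ).eventually_ne h0, e1] with z hz ⟨k, hk, e3, e4⟩
  rw [e3, e4, Par.qf_smul] at hz
  exact right_ne_zero_of_mul hz

/-- The key lemma: the next term of the recurrence is regular everywhere. -/
lemma RegP.nxt {p : Par} (hp : p.Good) {x : X} {a b c d : X → P1} (ha : RegP x a) (hb : RegP x b)
    (hc : RegP x c) (hd : RegP x d) (h1 : ∀ z, p.Rel (a z) (b z) (c z))
    (h2 : ∀ z, p.Rel (b z) (c z) (d z)) :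
    RegP x (fun z => p.nxt (c z) (d z) (a z)) := by
  by_cases hi : p.Ind (c x) (d x)
  swap
  · exact RegP.nxt_of_not_ind hc hd a hi
  have hib : p.Ind (c x) (b x) := hp.ind_symm (h2 x) hi
  obtain ⟨a0, a1, ra0, ra1, ea⟩ := ha.rep
  obtain ⟨b0, b1, rb0, rb1, eb⟩ := hb.rep
  obtain ⟨c0, c1, rc0, rc1, ec⟩ := hc.rep
  obtain ⟨d0, d1, rd0, rd1, ed⟩ := hd.rep
  have hcor : RegC x (fun z => p.cor (b0 z) (b1 z) (d0 z) (d1 z)) := by
    unfold Par.cor
    exact ((rb1.mul rd1).mul (((rb0.pow 2).mul (rd1.pow 2)).sub ((rd0.pow 2).mul (rb1.pow 2)))).mul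
      ((rb0.mul rd0).add ((RegC.const x p.μ).mul (rb1.mul rd1)))
  have hmem := hi
  rw [hp.ind_iff] at hi hib
  have hden0 : hx (c x) = 0 ∨ hy (c x) = 0 := by tauto
  have hdc : p.den (c x) ≠ 0 := by
    have := hxy_ne (c x)
    unfold Par.den Run7.h904.qf
    have hμ := hp.μ0
    rcases hden0 with h | h
    · have h' : hy (c x) ≠ 0 := by tauto
      rw [h]
      have : p.μ ^ 2 * hy (c x) ^ 4 ≠ 0 := by positivity
      intro h0; apply this; linear_combination h0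
    · have h' : hx (c x) ≠ 0 := by tauto
      rw [h]
      have : hx (c x) ^ 4 ≠ 0 := by positivity
      intro h0; apply this; linear_combination h0
  rcases hi with ⟨hi1, hi2⟩ | ⟨hi1, hi2⟩
  · -- c = 0
    have hdd : p.den (d x) ≠ 0 := by
      rcases hp.num_or_den (d x) with h | h
      · exact absurd hi2 h
      · exact h
    have hnb : p.num (b x) = 0 := by
      rcases hib with h | h
      · exact h.2
      · have := hxy_ne (c x); tauto
    have hdb : p.den (b x) ≠ 0 := by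
      rcases hp.num_or_den (b x) with h | h
      · exact absurd hnb h
      · exact h
    have G0 : RegC x (fun z => a0 z * (qf p.β p.μ (b0 z) (b1 z) * qf p.β p.μ (c0 z) (c1 z) *
        qf p.β p.μ (d0 z) (d1 z)) + (p.α - p.β) ^ 2 * p.μ ^ 4 * a1 z *
        (c0 z * c1 z ^ 3) * p.cor (b0 z) (b1 z) (d0 z) (d1 z)) :=
      (ra0.mul (((rb0.qf rb1 _ _).mul (rc0.qf rc1 _ _)).mul (rd0.qf rd1 _ _))).add
        ((((RegC.const x ((p.α - p.β) ^ 2 * p.μ ^ 4)).mul ra1).mul (rc0.mul (rc1.pow 3))).mul hcor)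
    have G1 : RegC x (fun z => a1 z * (qf p.β p.μ (b0 z) (b1 z) * qf p.β p.μ (c0 z) (c1 z) *
        qf p.β p.μ (d0 z) (d1 z))) :=
      ra1.mul (((rb0.qf rb1 _ _).mul (rc0.qf rc1 _ _)).mul (rd0.qf rd1 _ _))
    have key : ∀ᶠ z in zn X x, ∃ k : ℂ, k ≠ 0 ∧
        a0 z * (qf p.β p.μ (b0 z) (b1 z) * qf p.β p.μ (c0 z) (c1 z) *
        qf p.β p.μ (d0 z) (d1 z)) + (p.α - p.β) ^ 2 * p.μ ^ 4 * a1 z *
        (c0 z * c1 z ^ 3) * p.cor (b0 z) (b1 z) (d0 z) (d1 z) =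
        k * (hx (a z) * (p.den (b z) * p.den (c z) * p.den (d z)) +
          (p.α - p.β) ^ 2 * p.μ ^ 4 * hy (a z) *
          (hx (c z) * hy (c z) ^ 3) * p.cor (hx (b z)) (hy (b z)) (hx (d z)) (hy (d z))) ∧
        a1 z * (qf p.β p.μ (b0 z) (b1 z) * qf p.β p.μ (c0 z) (c1 z) *
        qf p.β p.μ (d0 z) (d1 z)) = k * (hy (a z) * (p.den (b z) * p.den (c z) * p.den (d z))) := by
      filter_upwards [ea, eb, ec, ed] with z ⟨ka, hka, e1, e2⟩ ⟨kb, hkb, e3, e4⟩ ⟨kc, hkc, e5, e6⟩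
        ⟨kd, hkd, e7, e8⟩
      refine ⟨ka * kb ^ 4 * kc ^ 4 * kd ^ 4, by positivity, ?_, ?_⟩
      · rw [e1, e2, e3, e4, e5, e6, e7, e8, Par.qf_smul, Par.qf_smul, Par.qf_smul]
        unfold Par.cor Par.den
        ring
      · rw [e2, e3, e4, e5, e6, e7, e8, Par.qf_smul, Par.qf_smul, Par.qf_smul]
        unfold Par.den
        ring
    have main : ∀ᶠ z in zn X x, p.nxt (c z) (d z) (a z) = rat
        (a0 z * (qf p.β p.μ (b0 z) (b1 z) * qf p.β p.μ (c0 z) (c1 z) *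
        qf p.β p.μ (d0 z) (d1 z)) + (p.α - p.β) ^ 2 * p.μ ^ 4 * a1 z *
        (c0 z * c1 z ^ 3) * p.cor (b0 z) (b1 z) (d0 z) (d1 z))
        (a1 z * (qf p.β p.μ (b0 z) (b1 z) * qf p.β p.μ (c0 z) (c1 z) *
        qf p.β p.μ (d0 z) (d1 z))) := by
      filter_upwards [key, hb.den_ne hdb, hc.den_ne hdc, hd.den_ne hdd] with z ⟨k, hk, e1, e2⟩
        e3 e4 e5
      rw [e1, e2, rat_smul hk]
      exact hp.alt1 (h1 z) (h2 z) e3 e4 e5
    refine ⟨_, _, G0, G1, ?_, main⟩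
    obtain ⟨k, hk, e1, e2⟩ := zn_self key
    rw [e1, e2, hi1]
    have hK : p.den (b x) * p.den (c x) * p.den (d x) ≠ 0 := mul_ne_zero (mul_ne_zero hdb hdc) hdd
    rcases hxy_ne (a x) with h | h
    · left
      have := mul_ne_zero hk (mul_ne_zero h hK)
      intro h0; apply this; linear_combination h0
    · right
      exact mul_ne_zero hk (mul_ne_zero h hK)
  · -- c = ∞
    have hdd : p.num (d x) ≠ 0 := by
      rcases hp.num_or_den (d x) with h | h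
      · exact h
      · exact absurd hi2 h
    have hnb : p.den (b x) = 0 := by
      rcases hib with h | h
      · have := hxy_ne (c x); tauto
      · exact h.2
    have hdb : p.num (b x) ≠ 0 := by
      rcases hp.num_or_den (b x) with h | h
      · exact h
      · exact absurd hnb h
    have G0 : RegC x (fun z => a0 z * (qf p.α p.μ (b0 z) (b1 z) * qf p.β p.μ (c0 z) (c1 z) *
        qf p.α p.μ (d0 z) (d1 z))) :=
      ra0.mul (((rb0.qf rb1 _ _).mul (rc0.qf rc1 _ _)).mul (rd0.qf rd1 _ _))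
    have G1 : RegC x (fun z => a1 z * (qf p.α p.μ (b0 z) (b1 z) * qf p.β p.μ (c0 z) (c1 z) *
        qf p.α p.μ (d0 z) (d1 z)) - (p.α - p.β) ^ 2 * p.μ ^ 2 * a0 z *
        (c0 z ^ 3 * c1 z) * p.cor (b0 z) (b1 z) (d0 z) (d1 z)) :=
      (ra1.mul (((rb0.qf rb1 _ _).mul (rc0.qf rc1 _ _)).mul (rd0.qf rd1 _ _))).sub
        ((((RegC.const x ((p.α - p.β) ^ 2 * p.μ ^ 2)).mul ra0).mul ((rc0.pow 3).mul rc1)).mul hcor)
    have key : ∀ᶠ z in zn X x, ∃ k : ℂ, k ≠ 0 ∧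
        a0 z * (qf p.α p.μ (b0 z) (b1 z) * qf p.β p.μ (c0 z) (c1 z) *
        qf p.α p.μ (d0 z) (d1 z)) =
        k * (hx (a z) * (p.num (b z) * p.den (c z) * p.num (d z))) ∧
        a1 z * (qf p.α p.μ (b0 z) (b1 z) * qf p.β p.μ (c0 z) (c1 z) *
        qf p.α p.μ (d0 z) (d1 z)) - (p.α - p.β) ^ 2 * p.μ ^ 2 * a0 z *
        (c0 z ^ 3 * c1 z) * p.cor (b0 z) (b1 z) (d0 z) (d1 z) =
        k * (hy (a z) * (p.num (b z) * p.den (c z) * p.num (d z)) -
        (p.α - p.β) ^ 2 * p.μ ^ 2 * hx (a z) *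
        (hx (c z) ^ 3 * hy (c z)) * p.cor (hx (b z)) (hy (b z)) (hx (d z)) (hy (d z))) := by
      filter_upwards [ea, eb, ec, ed] with z ⟨ka, hka, e1, e2⟩ ⟨kb, hkb, e3, e4⟩ ⟨kc, hkc, e5, e6⟩
        ⟨kd, hkd, e7, e8⟩
      refine ⟨ka * kb ^ 4 * kc ^ 4 * kd ^ 4, by positivity, ?_, ?_⟩
      · rw [e1, e3, e4, e5, e6, e7, e8, Par.qf_smul, Par.qf_smul, Par.qf_smul]
        unfold Par.num Par.den
        ring
      · rw [e1, e2, e3, e4, e5, e6, e7, e8, Par.qf_smul, Par.qf_smul, Par.qf_smul]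
        unfold Par.cor Par.num Par.den
        ring
    have main : ∀ᶠ z in zn X x, p.nxt (c z) (d z) (a z) = rat
        (a0 z * (qf p.α p.μ (b0 z) (b1 z) * qf p.β p.μ (c0 z) (c1 z) *
        qf p.α p.μ (d0 z) (d1 z)))
        (a1 z * (qf p.α p.μ (b0 z) (b1 z) * qf p.β p.μ (c0 z) (c1 z) *
        qf p.α p.μ (d0 z) (d1 z)) - (p.α - p.β) ^ 2 * p.μ ^ 2 * a0 z *
        (c0 z ^ 3 * c1 z) * p.cor (b0 z) (b1 z) (d0 z) (d1 z)) := by
      filter_upwards [key, hb.den_ne hdb, hc.den_ne hdc, hd.den_ne hdd] with z ⟨k, hk, e1, e2⟩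
        e3 e4 e5
      rw [e1, e2, rat_smul hk]
      exact hp.alt2 (h1 z) (h2 z) e3 e4 e5
    refine ⟨_, _, G0, G1, ?_, main⟩
    obtain ⟨k, hk, e1, e2⟩ := zn_self key
    rw [e1, e2, hi1]
    have hK : p.num (b x) * p.den (c x) * p.num (d x) ≠ 0 := mul_ne_zero (mul_ne_zero hdb hdc) hdd
    rcases hxy_ne (a x) with h | h
    · left
      exact mul_ne_zero hk (mul_ne_zero h hK)
    · right
      have := mul_ne_zero hk (mul_ne_zero h hK)
      intro h0; apply this; linear_combination h0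

end Run7.h904
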