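import Pool.Agent.Run7.h904.Geo2

/-! Final step: the additional coordinates are regular. -/

open OnePoint MvPolynomial

namespace Run7.h904

namespace Par

variable {p q : Par}

/-- affine numerator -/
noncomputable def Nn (p : Par) (t : ℂ) : ℂ := qf p.α p.μ t 1
/-- affine denominator -/
noncomputable def Mm (p : Par) (t : ℂ) : ℂ := qf p.β p.μ t 1
/-- the rational function `r` -/
noncomputable def rr (p : Par) (t : ℂ) : ℂ := p.μ * p.Nn t / p.Mm t

lemma coe_eq_rat (t : ℂ) : (t : P1) = rat t 1 := by simp [rat]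

lemma nxt_rat_rat {a1 a2 b1 b2 : ℂ} (z : P1)
    (h : p.μ * qf p.α p.μ b1 b2 * a2 ≠ 0 ∨ qf p.β p.μ b1 b2 * a1 ≠ 0) :
    p.nxt (rat a1 a2) (rat b1 b2) z =
      rat (p.μ * qf p.α p.μ b1 b2 * a2) (qf p.β p.μ b1 b2 * a1) := by
  have ha : a1 ≠ 0 ∨ a2 ≠ 0 := by
    rcases h with h | h
    · right; exact right_ne_zero_of_mul h
    · left; exact right_ne_zero_of_mul h
  have hb : b1 ≠ 0 ∨ b2 ≠ 0 := by
    by_contra hcon
    push Not at hcon
    rw [hcon.1, hcon.2] at h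
    unfold qf at h
    simp at h
  obtain ⟨k, hk, e1, e2⟩ := exists_smul_rat ha
  obtain ⟨l, hl, e3, e4⟩ := exists_smul_rat hb
  set A := rat a1 a2
  set B := rat b1 b2
  have h1 : p.μ * qf p.α p.μ b1 b2 * a2 = (l ^ 4 * k) * (p.μ * p.num B * hy A) := by
    rw [e2, e3, e4, qf_smul]; unfold num; ring
  have h2 : qf p.β p.μ b1 b2 * a1 = (l ^ 4 * k) * (p.den B * hx A) := by
    rw [e1, e3, e4, qf_smul]; unfold den; ring
  have hlk : l ^ 4 * k ≠ 0 := by positivity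
  rw [h1, h2] at h ⊢
  rw [rat_smul hlk]
  unfold nxt
  rw [if_neg]
  unfold Ind
  rintro ⟨h5, h6⟩
  rw [h5, h6] at h
  simp at h

lemma nxt_coe {t s : ℂ} (z : P1) (hs : p.Mm s ≠ 0) (ht : t ≠ 0) :
    p.nxt (t : P1) (s : P1) z = ((p.rr s / t : ℂ) : P1) := by
  rw [coe_eq_rat t, coe_eq_rat s, nxt_rat_rat z (Or.inr (mul_ne_zero hs ht))]
  have : qf p.β p.μ s 1 * t ≠ 0 := mul_ne_zero hs ht
  rw [rat_of_ne this]
  congr 1
  unfold rr Nn Mm
  unfold Mm at hs
  field_simp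

lemma nxt_to_iv {C d : ℂ} (z : P1) (hμ : p.μ ≠ 0) (hd : p.Nn d ≠ 0) :
    p.nxt (C : P1) (d : P1) z = rat p.μ (C * p.Mm d / p.Nn d) := by
  have h1 : p.μ * qf p.α p.μ d 1 * 1 ≠ 0 := by
    rw [mul_one]; exact mul_ne_zero hμ hd
  rw [coe_eq_rat C, coe_eq_rat d, nxt_rat_rat z (Or.inl h1)]
  have h2 : qf p.α p.μ d 1 ≠ 0 := hd
  rw [← rat_smul h2 p.μ]
  congr 1
  · ring
  · unfold Mm Nn
    field_simp

lemma Good.qf_zero_ne (hp : p.Good) (γ : ℂ) : qf γ p.μ 0 1 ≠ 0 := by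
  unfold qf
  have := hp.μ0
  simpa using this

lemma nxt_iv {d e : ℂ} (z : P1) (hμ : p.μ ≠ 0) (hd : d ≠ 0) (he : p.Mm e ≠ 0) :
    p.nxt (d : P1) (rat p.μ e) z = ((p.rr e / d : ℂ) : P1) := by
  have e1 : ∀ γ, qf γ p.μ p.μ e = p.μ ^ 2 * qf γ p.μ e 1 := by
    intro γ
    have := qf_inv γ p.μ e 1
    rwa [mul_one] at this
  have h1 : qf p.β p.μ p.μ e * d ≠ 0 := by
    rw [e1]
    exact mul_ne_zero (mul_ne_zero (pow_ne_zero _ hμ) he) hd
  rw [coe_eq_rat d, nxt_rat_rat z (Or.inr h1), rat_of_ne h1, e1, e1]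
  congr 1
  unfold rr Nn Mm
  unfold Mm at he
  field_simp

lemma nxt_iv' {t e : ℂ} (z : P1) (hμ : p.μ ≠ 0) (ht : p.Mm t ≠ 0) :
    p.nxt (rat p.μ e) (t : P1) z = ((p.rr t * e / p.μ : ℂ) : P1) := by
  have h1 : qf p.β p.μ t 1 * p.μ ≠ 0 := mul_ne_zero ht hμ
  rw [coe_eq_rat t, nxt_rat_rat z (Or.inr h1), rat_of_ne h1]
  congr 1
  unfold rr Nn Mm
  unfold Mm at ht
  field_simp

lemma rr_sub (p : Par) {t : ℂ} (ht : p.Mm t ≠ 0) :
    p.rr t = p.μ + (p.α - p.β) * p.μ ^ 2 * t ^ 2 / p.Mm t := by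
  unfold rr
  field_simp
  unfold Nn Mm qf
  ring

lemma Nn_sub (p : Par) (s t : ℂ) :
    p.Nn s = p.Nn t + (s - t) * ((s + t) * (s ^ 2 + t ^ 2 + p.α * p.μ)) := by
  unfold Nn qf; ring

lemma Mm_sub (p : Par) (s t : ℂ) :
    p.Mm s = p.Mm t + (s - t) * ((s + t) * (s ^ 2 + t ^ 2 + p.β * p.μ)) := by
  unfold Mm qf; ring

/-- pointwise formula near an exceptional point with `c = 0` -/
lemma fin1 {q : Par} (hq : q.Good) {a : P1} {B C U V : ℂ}
    (hrel : q.Rel a (B : P1) (C : P1)) (hU : U ≠ 0) (hC : C = 0 → U = 1)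
    (hM : q.Mm B ≠ 0) (hM' : q.Mm (B + C ^ 2 * V) ≠ 0) :
    q.nxt ((C * U : ℂ) : P1) ((B + C ^ 2 * V : ℂ) : P1) a =
      rat (q.Mm B * hx a + q.μ * C * V * (((B + C ^ 2 * V) + B) *
        ((B + C ^ 2 * V) ^ 2 + B ^ 2 + q.α * q.μ)) * hy a)
        (q.Mm (B + C ^ 2 * V) * U * hy a) := by
  have hμ := hq.μ0
  have hrel' : q.Mm B * (hx a * C) = q.μ * q.Nn B * hy a := by
    have := hrel
    unfold Rel den num at this
    simp only [hx_coe, hy_coe, mul_one] at this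
    exact this
  by_cases h0 : C = 0
  · have hU1 := hC h0
    subst h0
    subst hU1
    simp only [zero_mul, mul_zero, zero_pow two_ne_zero, add_zero] at *
    by_cases hN : q.Nn B = 0
    · rw [nxt_of_ind]
      · rw [mul_one, rat_smul hM, rat_hxy]
      · rw [hq.ind_iff]
        left
        refine ⟨by simp, ?_⟩
        unfold num; simpa [Nn] using hN
    · have ha : hy a = 0 := by
        have := hrel'.symm
        rcases mul_eq_zero.mp this with h | h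
        · rcases mul_eq_zero.mp h with h | h <;> contradiction
        · exact h
      rw [nxt_to_iv _ hμ hN, ha]
      simp [rat_zero]
  · have hCU : C * U ≠ 0 := mul_ne_zero h0 hU
    rw [nxt_coe _ hM' hCU]
    have h2 : q.Mm (B + C ^ 2 * V) * (C * U) ≠ 0 := mul_ne_zero hM' hCU
    have h3 : ((q.rr (B + C ^ 2 * V) / (C * U) : ℂ) : P1) =
        rat (q.μ * q.Nn (B + C ^ 2 * V)) (q.Mm (B + C ^ 2 * V) * (C * U)) := by
      rw [rat_of_ne h2]
      congr 1
      unfold rr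
      field_simp
    rw [h3, rat_eq_rat_iff (Or.inr h2)]
    · rw [Nn_sub q (B + C ^ 2 * V) B]
      linear_combination (-q.Mm (B + C ^ 2 * V) * U) * hrel'
    · by_cases ha : hy a = 0
      · left
        rw [ha]
        have h4 := hxy_ne a
        have : hx a ≠ 0 := by tauto
        simpa using ⟨hM, this⟩
      · right
        exact mul_ne_zero (mul_ne_zero hM' hU) ha

/-- pointwise formula near an exceptional point with `c = ∞` -/
lemma fin2 {q : Par} (hq : q.Good) {a : P1} {μ B C U V : ℂ} (hμ' : μ ≠ 0)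
    (hrel : q.Rel a (B : P1) (rat μ C)) (hU : U ≠ 0) (hC : C = 0 → U = 1)
    (hM : q.Nn B ≠ 0) (hM' : q.Nn (B + C ^ 2 * V) ≠ 0) :
    q.nxt (rat μ (C * U)) ((B + C ^ 2 * V : ℂ) : P1) a =
      rat (q.μ * q.Nn (B + C ^ 2 * V) * U * hx a)
        (q.μ * q.Nn B * hy a + μ * C * V * (((B + C ^ 2 * V) + B) *
        ((B + C ^ 2 * V) ^ 2 + B ^ 2 + q.β * q.μ)) * hx a) := by
  have hμ := hq.μ0
  have hrel' : q.Mm B * (hx a * μ) = q.μ * q.Nn B * (hy a * C) := by
    obtain ⟨k, hk, e1, e2⟩ := exists_smul_rat (a := μ) (b := C) (Or.inl hμ')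
    have := hrel
    unfold Rel den num at this
    simp only [hx_coe, hy_coe] at this
    unfold Mm Nn
    set r := rat μ C
    linear_combination k * this + qf q.β q.μ B 1 * hx a * e1 - q.μ * qf q.α q.μ B 1 * hy a * e2
  by_cases h0 : C = 0
  · have hU1 := hC h0
    subst h0
    subst hU1
    simp only [zero_mul, mul_zero, zero_pow two_ne_zero, add_zero, mul_one, rat_zero] at *
    by_cases hN : q.Mm B = 0
    · rw [nxt_of_ind]
      · rw [rat_smul (mul_ne_zero hμ hM), rat_hxy]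
      · rw [hq.ind_iff]
        right
        refine ⟨by simp, ?_⟩
        unfold den; simpa [Mm] using hN
    · have ha : hx a = 0 := by
        rcases mul_eq_zero.mp hrel' with h | h
        · contradiction
        · exact (mul_eq_zero.mp h).resolve_right hμ'
      have h5 : hy a ≠ 0 := by have := hxy_ne a; tauto
      have e : (∞ : P1) = rat 1 0 := by simp [rat_zero]
      rw [e, coe_eq_rat B, nxt_rat_rat]
      · rw [ha]
        rw [rat_eq_rat_iff]
        · ring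
        · right; simpa [Mm] using hN
        · right; exact mul_ne_zero (mul_ne_zero hμ hM) h5
      · right
        simpa [Mm] using hN
  · have hCU : C * U ≠ 0 := mul_ne_zero h0 hU
    have h6 : q.μ * qf q.α q.μ (B + C ^ 2 * V) 1 * (C * U) ≠ 0 :=
      mul_ne_zero (mul_ne_zero hμ hM') hCU
    rw [coe_eq_rat (B + C ^ 2 * V), nxt_rat_rat _ (Or.inl h6), rat_eq_rat_iff (Or.inl h6)]
    · have h7 := Mm_sub q (B + C ^ 2 * V) B
      unfold Mm Nn at *
      rw [h7]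
      linear_combination (-q.μ * qf q.α q.μ (B + C ^ 2 * V) 1 * U) * hrel'
    · by_cases ha : hx a = 0
      · right
        rw [ha]
        have h4 := hxy_ne a
        have : hy a ≠ 0 := by tauto
        simpa using ⟨⟨hμ, hM⟩, this⟩
      · left
        exact mul_ne_zero (mul_ne_zero (mul_ne_zero hμ hM') hU) ha

end Par

variable {n : ℕ} {X : Set (Pt n)}

lemma RegC.Nn {x : X} {g : X → ℂ} (hg : RegC x g) (p : Par) : RegC x (fun z => p.Nn (g z)) :=
  hg.qf (RegC.const x 1) _ _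
lemma RegC.Mm {x : X} {g : X → ℂ} (hg : RegC x g) (p : Par) : RegC x (fun z => p.Mm (g z)) :=
  hg.qf (RegC.const x 1) _ _
lemma RegC.rr {x : X} {g : X → ℂ} (hg : RegC x g) (p : Par) (h : p.Mm (g x) ≠ 0) :
    RegC x (fun z => p.rr (g z)) :=
  ((RegC.const x p.μ).mul (hg.Nn p)).div (hg.Mm p) h

lemma RegP.fin1 {q : Par} (hq : q.Good) {x : X} {a b c φ ψ : X → P1} (ha : RegP x a)
    {B C U V : X → ℂ} (rB : RegC x B) (rC : RegC x C) (rU : RegC x U) (rV : RegC x V)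
    (hrel : ∀ z, q.Rel (a z) (b z) (c z))
    (ev : ∀ᶠ z in zn X x, b z = ((B z : ℂ) : P1) ∧ c z = ((C z : ℂ) : P1) ∧
      φ z = ((B z + C z ^ 2 * V z : ℂ) : P1) ∧ ψ z = ((C z * U z : ℂ) : P1) ∧
      (C z = 0 → U z = 1)) (hC : C x = 0) (hM : q.Mm (B x) ≠ 0) :
    RegP x (fun z => q.nxt (ψ z) (φ z) (a z)) := by
  obtain ⟨a0, a1, ra0, ra1, ea⟩ := ha.rep
  have hUx : U x = 1 := (zn_self ev).2.2.2.2 hC
  have rφ : RegC x (fun z => B z + C z ^ 2 * V z) := rB.add ((rC.pow 2).mul rV)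
  have hφx : B x + C x ^ 2 * V x = B x := by rw [hC]; ring
  have hMφ : q.Mm (B x + C x ^ 2 * V x) ≠ 0 := by rw [hφx]; exact hM
  have G0 : RegC x (fun z => q.Mm (B z) * a0 z + q.μ * C z * V z * (((B z + C z ^ 2 * V z) + B z) *
        ((B z + C z ^ 2 * V z) ^ 2 + B z ^ 2 + q.α * q.μ)) * a1 z) :=
    ((rB.Mm q).mul ra0).add (((((RegC.const x q.μ).mul rC).mul rV).mul
      ((rφ.add rB).mul (((rφ.pow 2).add (rB.pow 2)).add (RegC.const x _)))).mul ra1)
  have G1 : RegC x (fun z => q.Mm (B z + C z ^ 2 * V z) * U z * a1 z) :=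
    ((rφ.Mm q).mul rU).mul ra1
  have key : ∀ᶠ z in zn X x, ∃ k : ℂ, k ≠ 0 ∧
      q.Mm (B z) * a0 z + q.μ * C z * V z * (((B z + C z ^ 2 * V z) + B z) *
        ((B z + C z ^ 2 * V z) ^ 2 + B z ^ 2 + q.α * q.μ)) * a1 z =
      k * (q.Mm (B z) * hx (a z) + q.μ * C z * V z * (((B z + C z ^ 2 * V z) + B z) *
        ((B z + C z ^ 2 * V z) ^ 2 + B z ^ 2 + q.α * q.μ)) * hy (a z)) ∧
      q.Mm (B z + C z ^ 2 * V z) * U z * a1 z =
      k * (q.Mm (B z + C z ^ 2 * V z) * U z * hy (a z)) := by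
    filter_upwards [ea] with z ⟨k, hk, e1, e2⟩
    exact ⟨k, hk, by rw [e1, e2]; ring, by rw [e2]; ring⟩
  refine ⟨_, _, G0, G1, ?_, ?_⟩
  · obtain ⟨k, hk, e1, e2⟩ := zn_self key
    rw [e1, e2, hC, hUx]
    rcases hxy_ne (a x) with h | h
    · left
      have := mul_ne_zero hk (mul_ne_zero hM h)
      intro h0; apply this; linear_combination h0
    · right
      have := mul_ne_zero hk (mul_ne_zero hM h)
      intro h0; apply this
      have e3 : B x + 0 ^ 2 * V x = B x := by ring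
      rw [e3] at h0
      linear_combination h0
  · filter_upwards [key, ev, rU.eventually_ne (by rw [hUx]; exact one_ne_zero),
      (rB.Mm q).eventually_ne hM, (rφ.Mm q).eventually_ne hMφ] with z ⟨k, hk, e1, e2⟩
      ⟨e3, e4, e5, e6, e7⟩ e8 e9 e10
    rw [e1, e2, rat_smul hk, e5, e6]
    have hr := hrel z
    rw [e3, e4] at hr
    exact Par.fin1 hq hr e8 e7 e9 e10

lemma RegP.fin2 {q : Par} (hq : q.Good) {μ : ℂ} (hμ : μ ≠ 0) {x : X} {a b c φ ψ : X → P1}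
    (ha : RegP x a)
    {B C U V : X → ℂ} (rB : RegC x B) (rC : RegC x C) (rU : RegC x U) (rV : RegC x V)
    (hrel : ∀ z, q.Rel (a z) (b z) (c z))
    (ev : ∀ᶠ z in zn X x, b z = ((B z : ℂ) : P1) ∧ c z = rat μ (C z) ∧
      φ z = ((B z + C z ^ 2 * V z : ℂ) : P1) ∧ ψ z = rat μ (C z * U z) ∧
      (C z = 0 → U z = 1)) (hC : C x = 0) (hM : q.Nn (B x) ≠ 0) :
    RegP x (fun z => q.nxt (ψ z) (φ z) (a z)) := by
  obtain ⟨a0, a1, ra0, ra1, ea⟩ := ha.rep
  have hUx : U x = 1 := (zn_self ev).2.2.2.2 hC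
  have rφ : RegC x (fun z => B z + C z ^ 2 * V z) := rB.add ((rC.pow 2).mul rV)
  have hφx : B x + C x ^ 2 * V x = B x := by rw [hC]; ring
  have hMφ : q.Nn (B x + C x ^ 2 * V x) ≠ 0 := by rw [hφx]; exact hM
  have G0 : RegC x (fun z => q.μ * q.Nn (B z + C z ^ 2 * V z) * U z * a0 z) :=
    (((RegC.const x q.μ).mul (rφ.Nn q)).mul rU).mul ra0
  have G1 : RegC x (fun z => q.μ * q.Nn (B z) * a1 z + μ * C z * V z *
        (((B z + C z ^ 2 * V z) + B z) *
        ((B z + C z ^ 2 * V z) ^ 2 + B z ^ 2 + q.β * q.μ)) * a0 z) :=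
    (((RegC.const x q.μ).mul (rB.Nn q)).mul ra1).add (((((RegC.const x μ).mul rC).mul rV).mul
      ((rφ.add rB).mul (((rφ.pow 2).add (rB.pow 2)).add (RegC.const x _)))).mul ra0)
  have key : ∀ᶠ z in zn X x, ∃ k : ℂ, k ≠ 0 ∧
      q.μ * q.Nn (B z + C z ^ 2 * V z) * U z * a0 z =
      k * (q.μ * q.Nn (B z + C z ^ 2 * V z) * U z * hx (a z)) ∧
      q.μ * q.Nn (B z) * a1 z + μ * C z * V z *
        (((B z + C z ^ 2 * V z) + B z) *
        ((B z + C z ^ 2 * V z) ^ 2 + B z ^ 2 + q.β * q.μ)) * a0 z =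
      k * (q.μ * q.Nn (B z) * hy (a z) + μ * C z * V z *
        (((B z + C z ^ 2 * V z) + B z) *
        ((B z + C z ^ 2 * V z) ^ 2 + B z ^ 2 + q.β * q.μ)) * hx (a z)) := by
    filter_upwards [ea] with z ⟨k, hk, e1, e2⟩
    exact ⟨k, hk, by rw [e1]; ring, by rw [e1, e2]; ring⟩
  refine ⟨_, _, G0, G1, ?_, ?_⟩
  · obtain ⟨k, hk, e1, e2⟩ := zn_self key
    rw [e1, e2, hC, hUx]
    have e3 : B x + 0 ^ 2 * V x = B x := by ring
    rw [e3]
    rcases hxy_ne (a x) with h | h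
    · left
      have := mul_ne_zero hk (mul_ne_zero (mul_ne_zero hq.μ0 hM) h)
      intro h0; apply this
      linear_combination h0
    · right
      have := mul_ne_zero hk (mul_ne_zero (mul_ne_zero hq.μ0 hM) h)
      intro h0; apply this
      linear_combination h0
  · filter_upwards [key, ev, rU.eventually_ne (by rw [hUx]; exact one_ne_zero),
      (rB.Nn q).eventually_ne hM, (rφ.Nn q).eventually_ne hMφ] with z ⟨k, hk, e1, e2⟩
      ⟨e3, e4, e5, e6, e7⟩ e8 e9 e10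
    rw [e1, e2, rat_smul hk, e5, e6]
    have hr := hrel z
    rw [e3, e4] at hr
    exact Par.fin2 hq hμ hr e8 e7 e9 e10

end Run7.h904
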