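import Pool.Agent.Run7.h904.Geo3

/-! The fourth power of the shift near the boundary. -/

open OnePoint MvPolynomial

namespace Run7.h904

namespace Par

variable {p q : Par}

lemma Good.back (hp : p.Good) {a b c d : P1} (h1 : p.Rel a b c) (h2 : p.Rel b c d) :
    p.nxt c b (p.nxt c d a) = a := by
  by_cases hi : p.Ind c b
  · rw [nxt_of_ind hi, nxt_of_ind (hp.ind_symm h2.symm hi)]
  · exact nxt_of_not_ind h1.symm hi

/-- third term after `a,b,c,d` -/
noncomputable def u3 (p : Par) (a _b c d : P1) : P1 := p.nxt c d a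
/-- fourth term -/
noncomputable def u4 (p : Par) (a b c d : P1) : P1 := p.nxt d (p.u3 a b c d) b
/-- fifth term -/
noncomputable def u5 (p : Par) (a b c d : P1) : P1 := p.nxt (p.u3 a b c d) (p.u4 a b c d) c
/-- sixth term -/
noncomputable def u6 (p : Par) (a b c d : P1) : P1 := p.nxt (p.u4 a b c d) (p.u5 a b c d) d

lemma Good.rel3 (hp : p.Good) (a b c d : P1) : p.Rel c d (p.u3 a b c d) := hp.nxt_rel _ _ _
lemma Good.rel4 (hp : p.Good) (a b c d : P1) : p.Rel d (p.u3 a b c d) (p.u4 a b c d) :=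
  hp.nxt_rel _ _ _
lemma Good.rel5 (hp : p.Good) (a b c d : P1) :
    p.Rel (p.u3 a b c d) (p.u4 a b c d) (p.u5 a b c d) := hp.nxt_rel _ _ _
lemma Good.rel6 (hp : p.Good) (a b c d : P1) :
    p.Rel (p.u4 a b c d) (p.u5 a b c d) (p.u6 a b c d) := hp.nxt_rel _ _ _

section back
variable (hp : p.Good) {a b c d : P1}
include hp

lemma Good.back3 : p.u3 (p.u6 a b c d) (p.u5 a b c d) (p.u4 a b c d) (p.u3 a b c d) = d := by
  have := hp.back (hp.rel4 a b c d) (hp.rel5 a b c d)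
  exact this

lemma Good.back4 : p.u4 (p.u6 a b c d) (p.u5 a b c d) (p.u4 a b c d) (p.u3 a b c d) = c := by
  show p.nxt (p.u3 a b c d) (p.u3 (p.u6 a b c d) (p.u5 a b c d) (p.u4 a b c d) (p.u3 a b c d))
    (p.u5 a b c d) = c
  rw [hp.back3]
  exact hp.back (hp.rel3 a b c d) (hp.rel4 a b c d)

lemma Good.back5 (h2 : p.Rel b c d) :
    p.u5 (p.u6 a b c d) (p.u5 a b c d) (p.u4 a b c d) (p.u3 a b c d) = b := by
  show p.nxt (p.u3 (p.u6 a b c d) (p.u5 a b c d) (p.u4 a b c d) (p.u3 a b c d))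
    (p.u4 (p.u6 a b c d) (p.u5 a b c d) (p.u4 a b c d) (p.u3 a b c d)) (p.u4 a b c d) = b
  rw [hp.back3, hp.back4]
  exact hp.back h2 (hp.rel3 a b c d)

lemma Good.back6 (h1 : p.Rel a b c) (h2 : p.Rel b c d) :
    p.u6 (p.u6 a b c d) (p.u5 a b c d) (p.u4 a b c d) (p.u3 a b c d) = a := by
  show p.nxt (p.u4 (p.u6 a b c d) (p.u5 a b c d) (p.u4 a b c d) (p.u3 a b c d))
    (p.u5 (p.u6 a b c d) (p.u5 a b c d) (p.u4 a b c d) (p.u3 a b c d)) (p.u3 a b c d) = a
  rw [hp.back5 h2, hp.back4]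
  exact hp.back h1 h2

end back

lemma Good.nxt_zero_infty (hp : p.Good) {c d : P1} (hc : hx c = 0) : p.nxt c d ∞ = ∞ := by
  by_cases hi : p.Ind c d
  · exact nxt_of_ind hi
  · have h := hp.nxt_rel c d ∞
    have h0 := hxy_ne c
    rw [hp.ind_iff] at hi
    unfold Rel at h
    rw [hc, zero_mul, mul_zero] at h
    rw [← hy_eq_zero_iff]
    have : p.num d ≠ 0 := by tauto
    rcases mul_eq_zero.mp h.symm with h | h
    · exact absurd h (mul_ne_zero hp.μ0 this)
    · rcases mul_eq_zero.mp h with h | h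
      · tauto
      · exact h

lemma Good.nxt_infty_zero (hp : p.Good) {c d z : P1} (hc : hy c = 0) (hz : hx z = 0) :
    hx (p.nxt c d z) = 0 := by
  by_cases hi : p.Ind c d
  · rw [nxt_of_ind hi]; exact hz
  · have h := hp.nxt_rel c d z
    have h0 := hxy_ne c
    rw [hp.ind_iff] at hi
    unfold Rel at h
    rw [hc, zero_mul, mul_zero] at h
    have : p.den d ≠ 0 := by tauto
    rcases mul_eq_zero.mp h with h | h
    · exact absurd h this
    · rcases mul_eq_zero.mp h with h | h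
      · tauto
      · exact h

lemma eq_of_hx {a b : P1} (h : hx a = 0) (h' : hx b = 0) : a = b := by
  rw [hx_eq_zero_iff] at h h'
  rw [h, h']
lemma eq_of_hy {a b : P1} (h : hy a = 0) (h' : hy b = 0) : a = b := by
  rw [hy_eq_zero_iff] at h h'
  rw [h, h']

/-- inverses are unique -/
lemma inv_unique {μ : ℂ} (hμ : μ ≠ 0) {s t e : P1} (h1 : hx s * hx e = μ * (hy s * hy e))
    (h2 : hx t * hx s = μ * (hy t * hy s)) : e = t := by
  obtain ⟨k, hk, e1, e2⟩ := exists_smul_of_inv (b := e) (d := s) hμ (by linear_combination h1)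
  rw [P1_eq_iff, e1, e2]
  linear_combination (-k) * h2

/-- the fourth iterate fixes the boundary pointwise -/
lemma Good.fix_c (hp : p.Good) {a b c d : P1} (h1 : p.Rel a b c) (h2 : p.Rel b c d)
    (hc : hx c = 0 ∨ hy c = 0) (hi : ¬ p.Ind c b) :
    p.u3 a b c d = a ∧ p.u4 a b c d = b ∧ p.u5 a b c d = c ∧ p.u6 a b c d = d := by
  have hbd := hp.inv_of_zero h2 hc
  rw [hp.ind_iff] at hi
  have h0 := hxy_ne c
  have h0a := hxy_ne a
  rcases hc with hc | hc
  · have hcy : hy c ≠ 0 := by tauto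
    have hn : p.num b ≠ 0 := by tauto
    have ha : hy a = 0 := by
      unfold Rel at h1
      rw [hc, mul_zero, mul_zero] at h1
      rcases mul_eq_zero.mp h1.symm with h | h
      · exact absurd h (mul_ne_zero hp.μ0 hn)
      · exact (mul_eq_zero.mp h).resolve_right hcy
    have ha' : a = ∞ := (hy_eq_zero_iff a).mp ha
    have e3 : p.u3 a b c d = a := by
      unfold u3; rw [ha']; exact hp.nxt_zero_infty hc
    have e4 : p.u4 a b c d = b := by
      have h := hp.rel4 a b c d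
      rw [e3] at h
      have := hp.inv_of_zero h (Or.inr ha)
      exact inv_unique hp.μ0 this hbd
    have e5 : p.u5 a b c d = c := by
      unfold u5
      rw [e3, e4]
      exact eq_of_hx (hp.nxt_infty_zero ha hc) hc
    refine ⟨e3, e4, e5, ?_⟩
    have h := hp.rel6 a b c d
    rw [e4, e5] at h
    have := hp.inv_of_zero h (Or.inl hc)
    exact inv_unique hp.μ0 this (by linear_combination hbd)
  · have hcy : hx c ≠ 0 := by tauto
    have hn : p.den b ≠ 0 := by tauto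
    have ha : hx a = 0 := by
      unfold Rel at h1
      rw [hc, mul_zero, mul_zero] at h1
      rcases mul_eq_zero.mp h1 with h | h
      · exact absurd h hn
      · exact (mul_eq_zero.mp h).resolve_right hcy
    have hc' : c = ∞ := (hy_eq_zero_iff c).mp hc
    have e3 : p.u3 a b c d = a := by
      unfold u3
      exact eq_of_hx (hp.nxt_infty_zero hc ha) ha
    have e4 : p.u4 a b c d = b := by
      have h := hp.rel4 a b c d
      rw [e3] at h
      have := hp.inv_of_zero h (Or.inl ha)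
      exact inv_unique hp.μ0 this hbd
    have e5 : p.u5 a b c d = c := by
      unfold u5
      rw [e3, e4, hc']
      exact hp.nxt_zero_infty ha
    refine ⟨e3, e4, e5, ?_⟩
    have h := hp.rel6 a b c d
    rw [e4, e5] at h
    have := hp.inv_of_zero h (Or.inr hc)
    exact inv_unique hp.μ0 this (by linear_combination hbd)

lemma Good.fix_b (hp : p.Good) {a b c d : P1} (h1 : p.Rel a b c) (h2 : p.Rel b c d)
    (hb : hx b = 0 ∨ hy b = 0) (hi : ¬ p.Ind b c) :
    p.u3 a b c d = a ∧ p.u4 a b c d = b ∧ p.u5 a b c d = c ∧ p.u6 a b c d = d := by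
  have hac := hp.inv_of_zero h1 hb
  rw [hp.ind_iff] at hi
  have h0 := hxy_ne b
  have h0d := hxy_ne d
  rcases hb with hb | hb
  · have hby : hy b ≠ 0 := by tauto
    have hn : p.num c ≠ 0 := by tauto
    have hd : hy d = 0 := by
      unfold Rel at h2
      rw [hb, zero_mul, mul_zero] at h2
      rcases mul_eq_zero.mp h2.symm with h | h
      · exact absurd h (mul_ne_zero hp.μ0 hn)
      · exact (mul_eq_zero.mp h).resolve_left hby
    have hd' : d = ∞ := (hy_eq_zero_iff d).mp hd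
    have e3 : p.u3 a b c d = a := by
      have h := hp.rel3 a b c d
      exact inv_unique hp.μ0 (hp.inv_of_zero h (Or.inr hd)) hac
    have e4 : p.u4 a b c d = b := by
      unfold u4
      exact eq_of_hx (hp.nxt_infty_zero hd hb) hb
    have e5 : p.u5 a b c d = c := by
      have h := hp.rel5 a b c d
      rw [e3, e4] at h
      exact inv_unique hp.μ0 (hp.inv_of_zero h (Or.inl hb)) (by linear_combination hac)
    refine ⟨e3, e4, e5, ?_⟩
    unfold u6
    rw [e4, e5, hd']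
    exact hp.nxt_zero_infty hb
  · have hby : hx b ≠ 0 := by tauto
    have hn : p.den c ≠ 0 := by tauto
    have hd : hx d = 0 := by
      unfold Rel at h2
      rw [hb, zero_mul, mul_zero] at h2
      rcases mul_eq_zero.mp h2 with h | h
      · exact absurd h hn
      · exact (mul_eq_zero.mp h).resolve_left hby
    have hb' : b = ∞ := (hy_eq_zero_iff b).mp hb
    have e3 : p.u3 a b c d = a := by
      have h := hp.rel3 a b c d
      exact inv_unique hp.μ0 (hp.inv_of_zero h (Or.inl hd)) hac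
    have e4 : p.u4 a b c d = b := by
      unfold u4
      rw [hb']
      exact hp.nxt_zero_infty hd
    have e5 : p.u5 a b c d = c := by
      have h := hp.rel5 a b c d
      rw [e3, e4] at h
      exact inv_unique hp.μ0 (hp.inv_of_zero h (Or.inr hb)) (by linear_combination hac)
    refine ⟨e3, e4, e5, ?_⟩
    unfold u6
    rw [e4, e5]
    exact eq_of_hx (hp.nxt_infty_zero hb hd) hd

/-- the exceptional points of the two recurrences are disjoint -/
def Disj (p q : Par) : Prop := ∀ t : ℂ, (q.Nn t = 0 ∨ q.Mm t = 0) → p.Nn t ≠ 0 ∧ p.Mm t ≠ 0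

lemma Good.not_ind_of_ind (hp : p.Good) (hq : q.Good) (hpq : Disj p q) {b c : P1}
    (h : q.Ind c b) : (hx c = 0 ∨ hy c = 0) ∧ ¬ p.Ind c b := by
  rw [hq.ind_iff] at h
  rw [hp.ind_iff]
  refine ⟨by tauto, ?_⟩
  induction b using OnePoint.rec with
  | infty =>
    simp [num, den, qf] at h
  | coe t =>
    have h1 := hpq t
    unfold num den at *
    simp only [hx_coe, hy_coe] at *
    unfold Nn Mm at h1
    tauto

lemma Good.fix_of_ind (hp : p.Good) (hq : q.Good) (hpq : Disj p q) {a b c d : P1}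
    (h1 : p.Rel a b c) (h2 : p.Rel b c d) (h : q.Ind c b ∨ q.Ind b c) :
    p.u3 a b c d = a ∧ p.u4 a b c d = b ∧ p.u5 a b c d = c ∧ p.u6 a b c d = d := by
  rcases h with h | h
  · obtain ⟨h3, h4⟩ := hp.not_ind_of_ind hq hpq h
    exact hp.fix_c h1 h2 h3 h4
  · obtain ⟨h3, h4⟩ := hp.not_ind_of_ind hq hpq h
    exact hp.fix_b h1 h2 h3 h4

lemma Good.fix_of_ind' (hp : p.Good) (hq : q.Good) (hpq : Disj p q) {a b c d : P1}
    (h1 : p.Rel a b c) (h2 : p.Rel b c d)
    (h : q.Ind (p.u5 a b c d) (p.u4 a b c d) ∨ q.Ind (p.u4 a b c d) (p.u5 a b c d)) :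
    p.u3 a b c d = a ∧ p.u4 a b c d = b ∧ p.u5 a b c d = c ∧ p.u6 a b c d = d := by
  have h5 := (hp.rel5 a b c d).symm
  have h6 := (hp.rel6 a b c d).symm
  have := hp.fix_of_ind hq hpq h6 h5 h.symm
  rw [hp.back3, hp.back4, hp.back5 h2, hp.back6 h1 h2] at this
  obtain ⟨e1, e2, e3, e4⟩ := this
  exact ⟨e4.symm, e3.symm, e2.symm, e1.symm⟩

/-- `ν` or `1/ν`, where `r = μ ν` -/
noncomputable def nu (p : Par) (s : Bool) (t : ℂ) : ℂ :=
  if s then p.Nn t / p.Mm t else p.Mm t / p.Nn t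

/-- the point `C` near `0` or `μ/C` near infinity -/
noncomputable def sp (p : Par) (s : Bool) (C : ℂ) : P1 := if s then (C : P1) else rat p.μ C

lemma nu_not (p : Par) (s : Bool) (t : ℂ) : p.nu (!s) t = (p.nu s t)⁻¹ := by
  cases s <;> simp [nu]

lemma nxt_sp_coe {s : Bool} {C D : ℂ} (z : P1) (hμ : p.μ ≠ 0) (hn : p.Nn D ≠ 0)
    (hm : p.Mm D ≠ 0) : p.nxt (p.sp s C) (D : P1) z = p.sp (!s) (C / p.nu s D) := by
  cases s
  · simp only [sp, nu, Bool.false_eq_true, if_false, Bool.not_false, if_true]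
    rw [nxt_iv' z hμ hm]
    congr 1
    unfold rr
    field_simp
  · simp only [sp, nu, Bool.false_eq_true, if_false, Bool.not_true, if_true]
    rw [nxt_to_iv z hμ hn]
    congr 1
    field_simp

lemma nxt_coe_sp {s : Bool} {d e : ℂ} (z : P1) (hμ : p.μ ≠ 0) (hd : d ≠ 0) (he : p.Mm e ≠ 0) :
    p.nxt (d : P1) (p.sp s e) z = ((p.rr e / d : ℂ) : P1) := by
  cases s
  · simp only [sp, Bool.false_eq_true, if_false]
    exact nxt_iv z hμ hd he
  · simp only [sp, if_true]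
    exact nxt_coe z he hd

lemma nu_ne {s : Bool} {t : ℂ} (hn : p.Nn t ≠ 0) (hm : p.Mm t ≠ 0) : p.nu s t ≠ 0 := by
  cases s
  · simp [nu, hn, hm]
  · simp [nu, hn, hm]

lemma rr_ne {t : ℂ} (hμ : p.μ ≠ 0) (hn : p.Nn t ≠ 0) (hm : p.Mm t ≠ 0) : p.rr t ≠ 0 := by
  unfold rr
  exact div_ne_zero (mul_ne_zero hμ hn) hm

lemma Nn_inv {t : ℂ} (ht : t ≠ 0) : p.Nn (p.μ / t) = p.μ ^ 2 / t ^ 4 * p.Nn t := by
  unfold Nn qf
  field_simp
  ring

lemma Mm_inv {t : ℂ} (ht : t ≠ 0) : p.Mm (p.μ / t) = p.μ ^ 2 / t ^ 4 * p.Mm t := by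
  unfold Mm qf
  field_simp
  ring

lemma nu_inv {s : Bool} {t : ℂ} (hμ : p.μ ≠ 0) (ht : t ≠ 0) : p.nu s (p.μ / t) = p.nu s t := by
  have : p.μ ^ 2 / t ^ 4 ≠ 0 := by positivity
  cases s
  · simp only [nu, Bool.false_eq_true, if_false]
    rw [Nn_inv ht, Mm_inv ht, mul_div_mul_left _ _ this]
  · simp only [nu, if_true]
    rw [Nn_inv ht, Mm_inv ht, mul_div_mul_left _ _ this]

lemma Good.Nn_zero (hp : p.Good) : p.Nn 0 ≠ 0 := hp.qf_zero_ne _
lemma Good.Mm_zero (hp : p.Good) : p.Mm 0 ≠ 0 := hp.qf_zero_ne _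
lemma Good.rr_zero (hp : p.Good) : p.rr 0 = p.μ := by
  have := hp.Mm_zero
  unfold rr
  rw [div_eq_iff this]
  unfold Nn Mm qf
  ring

end Par

variable {n : ℕ} {X : Set (Pt n)}

lemma RegC.nu {x : X} {g : X → ℂ} (hg : RegC x g) (p : Par) (s : Bool) (h : p.Mm (g x) ≠ 0)
    (h' : p.Nn (g x) ≠ 0) : RegC x (fun z => p.nu s (g z)) := by
  cases s
  · simp only [Par.nu, Bool.false_eq_true, if_false]
    exact (hg.Mm p).div (hg.Nn p) h'
  · simp only [Par.nu, if_true]
    exact (hg.Nn p).div (hg.Mm p) h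

lemma RegP.coe {x : X} {φ : X → P1} (hφ : RegP x φ) {t : ℂ} (ht : φ x = (t : P1)) :
    ∃ g : X → ℂ, RegC x g ∧ g x = t ∧ ∀ᶠ z in zn X x, φ z = ((g z : ℂ) : P1) := by
  obtain ⟨g, h, rg, rh, ev⟩ := hφ.rep
  have hx0 : h x ≠ 0 := by
    obtain ⟨k, hk, e1, e2⟩ := zn_self ev
    rw [e2, ht]; simpa using hk
  have key : ∀ᶠ z in zn X x, φ z = ((g z / h z : ℂ) : P1) := by
    filter_upwards [ev, rh.eventually_ne hx0] with z ⟨k, hk, e1, e2⟩ hz
    rw [← rat_of_ne hz, e1, e2, rat_smul hk, rat_hxy]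
  refine ⟨fun z => g z / h z, rg.div rh hx0, ?_, key⟩
  have := zn_self key
  rw [ht] at this
  exact (OnePoint.coe_injective this).symm

lemma RegP.iv {x : X} {φ : X → P1} (hφ : RegP x φ) {μ : ℂ} (hμ : μ ≠ 0) (ht : hy (φ x) = 0) :
    ∃ g : X → ℂ, RegC x g ∧ g x = 0 ∧ ∀ᶠ z in zn X x, φ z = rat μ (g z) := by
  obtain ⟨g, h, rg, rh, ev⟩ := hφ.rep
  have h0 := hxy_ne (φ x)
  have hx0 : g x ≠ 0 := by
    obtain ⟨k, hk, e1, e2⟩ := zn_self ev
    rw [e1]; exact mul_ne_zero hk (by tauto)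
  refine ⟨fun z => μ * h z / g z, ((RegC.const x μ).mul rh).div rg hx0, ?_, ?_⟩
  · obtain ⟨k, hk, e1, e2⟩ := zn_self ev
    show μ * h x / g x = 0
    rw [e2, ht]; simp
  · filter_upwards [ev, rg.eventually_ne hx0] with z ⟨k, hk, e1, e2⟩ hz
    have h3 : μ / g z ≠ 0 := div_ne_zero hμ hz
    have h4 : rat (g z) (h z) = φ z := by rw [e1, e2, rat_smul hk, rat_hxy]
    rw [← h4, ← rat_smul h3]
    congr 1
    · field_simp
    · field_simp

lemma RegP.sp {p : Par} (hp : p.Good) {x : X} {φ : X → P1} (hφ : RegP x φ)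
    (h : hx (φ x) = 0 ∨ hy (φ x) = 0) : ∃ (s : Bool) (g : X → ℂ), RegC x g ∧ g x = 0 ∧
      (∀ᶠ z in zn X x, φ z = p.sp s (g z)) ∧ (s = true ↔ hx (φ x) = 0) := by
  rcases h with h | h
  · rw [hx_eq_zero_iff] at h
    obtain ⟨g, rg, hg, ev⟩ := hφ.coe h
    exact ⟨true, g, rg, hg, by simpa [Par.sp] using ev, by simp [h]⟩
  · obtain ⟨g, rg, hg, ev⟩ := hφ.iv hp.μ0 h
    refine ⟨false, g, rg, hg, by simpa [Par.sp] using ev, ?_⟩
    have := hxy_ne (φ x)
    simp; tauto

lemma RegP.fin {p q : Par} (hp : p.Good) (hq : q.Good) {s : Bool} {x : X} {a b c φ ψ : X → P1}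
    (ha : RegP x a)
    {B C U V : X → ℂ} (rB : RegC x B) (rC : RegC x C) (rU : RegC x U) (rV : RegC x V)
    (hrel : ∀ z, q.Rel (a z) (b z) (c z))
    (ev : ∀ᶠ z in zn X x, b z = ((B z : ℂ) : P1) ∧ c z = p.sp s (C z) ∧
      φ z = ((B z + C z ^ 2 * V z : ℂ) : P1) ∧ ψ z = p.sp s (C z * U z) ∧
      (C z = 0 → U z = 1)) (hC : C x = 0) (hM : s = true → q.Mm (B x) ≠ 0)
    (hM' : s = false → q.Nn (B x) ≠ 0) :
    RegP x (fun z => q.nxt (ψ z) (φ z) (a z)) := by
  cases s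
  · simp only [Par.sp, Bool.false_eq_true, if_false] at ev
    exact RegP.fin2 hq hp.μ0 ha rB rC rU rV hrel ev hC (hM' rfl)
  · simp only [Par.sp, if_true] at ev
    exact RegP.fin1 hq ha rB rC rU rV hrel ev hC (hM rfl)

end Run7.h904
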