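import Pool.Agent.Run7.h904.Geo4

/-! Regularity of the additional coordinates. -/

open OnePoint MvPolynomial

namespace Run7.h904

namespace Par

variable {p q : Par}

lemma nxt_self {b c d : P1} (h : p.Rel b c d) : p.nxt b c d = d := by
  by_cases hi : p.Ind b c
  · exact nxt_of_ind hi
  · exact nxt_of_not_ind h hi

lemma Good.exists_of_ind (hp : p.Good) (hq : q.Good) (hpq : Disj p q) {b c : P1}
    (h : q.Ind c b) : ∃ t : ℂ, b = (t : P1) ∧ t ≠ 0 ∧ p.Nn t ≠ 0 ∧ p.Mm t ≠ 0 ∧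
      ((hx c = 0 ∧ q.Nn t = 0) ∨ (hy c = 0 ∧ q.Mm t = 0)) := by
  rw [hq.ind_iff] at h
  induction b using OnePoint.rec with
  | infty => simp [num, den, qf] at h
  | coe t =>
    have h1 := hpq t
    unfold num den at *
    simp only [hx_coe, hy_coe] at *
    unfold Nn Mm at *
    refine ⟨t, rfl, ?_, ?_, ?_, h⟩
    · rintro rfl
      have := hq.qf_zero_ne
      rcases h with h | h
      · exact this _ h.2
      · exact this _ h.2
    · tauto
    · tauto

end Par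

lemma alg1 {μ K C N M1 M2 D : ℂ} (hN : N ≠ 0) (hM1 : M1 ≠ 0) (hM2 : M2 ≠ 0) (hD : D ≠ 0) :
    (μ + K * (C / N) ^ 2 / M1) / D =
      (μ + K * C ^ 2 / M2) / D + C ^ 2 * (K * ((N ^ 2)⁻¹ / M1 - 1 / M2) / D) := by
  field_simp
  ring

lemma alg2 {μ K C N N' M1 M2 D : ℂ} (hN : N ≠ 0) (hM1 : M1 ≠ 0) (hM2 : M2 ≠ 0) (hD : D ≠ 0) :
    (μ + K * (C / N * N') ^ 2 / M2) / D =
      (μ + K * (C / N) ^ 2 / M1) / D + C ^ 2 * (K * ((N' / N) ^ 2 / M2 - (N ^ 2)⁻¹ / M1) / D) := by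
  field_simp
  ring

variable {n : ℕ} {X : Set (Pt n)}

lemma RegP.extraC {p q : Par} (hp : p.Good) (hq : q.Good) (hpq : Par.Disj p q) {x : X}
    {a b c d a' : X → P1} (ha : RegP x a) (hb : RegP x b) (hc : RegP x c) (hd : RegP x d)
    (ha' : RegP x a') (h1 : ∀ z, p.Rel (a z) (b z) (c z)) (h2 : ∀ z, p.Rel (b z) (c z) (d z))
    (h3 : ∀ z, q.Rel (a' z) (b z) (c z)) :
    RegP x (fun z => q.nxt (p.u5 (a z) (b z) (c z) (d z)) (p.u4 (a z) (b z) (c z) (d z))
      (a' z)) := by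
  have r3 : RegP x (fun z => p.u3 (a z) (b z) (c z) (d z)) := RegP.nxt hp ha hb hc hd h1 h2
  have r4 : RegP x (fun z => p.u4 (a z) (b z) (c z) (d z)) :=
    RegP.nxt hp hb hc hd r3 h2 (fun z => hp.rel3 _ _ _ _)
  have r5 : RegP x (fun z => p.u5 (a z) (b z) (c z) (d z)) :=
    RegP.nxt hp hc hd r3 r4 (fun z => hp.rel3 _ _ _ _) (fun z => hp.rel4 _ _ _ _)
  by_cases hi : q.Ind (p.u5 (a x) (b x) (c x) (d x)) (p.u4 (a x) (b x) (c x) (d x))
  swap
  · exact RegP.nxt_of_not_ind r5 r4 a' hi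
  have hfix := hp.fix_of_ind' hq hpq (h1 x) (h2 x) (Or.inl hi)
  rw [hfix.2.1, hfix.2.2.1] at hi
  obtain ⟨t, hbt, ht0, htN, htM, hcases⟩ := hp.exists_of_ind hq hpq hi
  obtain ⟨s, C, rC, hC, evC, hs⟩ := RegP.sp hp hc (by tauto)
  obtain ⟨B, rB, hB, evB⟩ := hb.coe hbt
  have hμ := hp.μ0
  have hMC : p.Mm (C x) ≠ 0 := by rw [hC]; exact hp.Mm_zero
  have hNC : p.Nn (C x) ≠ 0 := by rw [hC]; exact hp.Nn_zero
  have hB0 : B x ≠ 0 := by rw [hB]; exact ht0
  -- D
  have rD : RegC x (fun z => p.rr (C z) / B z) := (rC.rr p hMC).div rB hB0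
  have hDx : p.rr (C x) / B x = p.μ / t := by rw [hC, hB, hp.rr_zero]
  have hD0 : p.rr (C x) / B x ≠ 0 := by rw [hDx]; exact div_ne_zero hμ ht0
  have hDN : p.Nn (p.rr (C x) / B x) ≠ 0 := by
    rw [hDx, Par.Nn_inv ht0]; exact mul_ne_zero (by positivity) htN
  have hDM : p.Mm (p.rr (C x) / B x) ≠ 0 := by
    rw [hDx, Par.Mm_inv ht0]; exact mul_ne_zero (by positivity) htM
  -- e
  have rnD : RegC x (fun z => p.nu s (p.rr (C z) / B z)) := rD.nu p s hDM hDN
  have hnD : p.nu s (p.rr (C x) / B x) ≠ 0 := Par.nu_ne hDN hDM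
  have re : RegC x (fun z => C z / p.nu s (p.rr (C z) / B z)) := rC.div rnD hnD
  have hex : C x / p.nu s (p.rr (C x) / B x) = 0 := by rw [hC, zero_div]
  have heM : p.Mm (C x / p.nu s (p.rr (C x) / B x)) ≠ 0 := by rw [hex]; exact hp.Mm_zero
  -- W
  have rW : RegC x (fun z => p.rr (C z / p.nu s (p.rr (C z) / B z)) / (p.rr (C z) / B z)) :=
    (re.rr p heM).div rD hD0
  have hWx : p.rr (C x / p.nu s (p.rr (C x) / B x)) / (p.rr (C x) / B x) = t := by
    rw [hex, hDx, hp.rr_zero]; field_simp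
  have hWN : p.Nn (p.rr (C x / p.nu s (p.rr (C x) / B x)) / (p.rr (C x) / B x)) ≠ 0 := by
    rw [hWx]; exact htN
  have hWM : p.Mm (p.rr (C x / p.nu s (p.rr (C x) / B x)) / (p.rr (C x) / B x)) ≠ 0 := by
    rw [hWx]; exact htM
  -- U, V
  have rU : RegC x (fun z => p.nu s (p.rr (C z / p.nu s (p.rr (C z) / B z)) / (p.rr (C z) / B z)) /
      p.nu s (p.rr (C z) / B z)) := (rW.nu p s hWM hWN).div rnD hnD
  have rV : RegC x (fun z => (p.α - p.β) * p.μ ^ 2 *
      ((p.nu s (p.rr (C z) / B z) ^ 2)⁻¹ / p.Mm (C z / p.nu s (p.rr (C z) / B z)) -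
        1 / p.Mm (C z)) / (p.rr (C z) / B z)) :=
    ((RegC.const x _).mul ((((rnD.pow 2).inv (pow_ne_zero _ hnD)).div (re.Mm p) heM).sub
      ((RegC.const x 1).div (rC.Mm p) hMC))).div rD hD0
  refine RegP.fin hp hq (s := s) ha' rB rC rU rV h3 ?_ hC ?_ ?_
  · filter_upwards [evC, evB, rB.eventually_ne hB0, (rC.Mm p).eventually_ne hMC,
      (rC.Nn p).eventually_ne hNC, rD.eventually_ne hD0, (rD.Nn p).eventually_ne hDN,
      (rD.Mm p).eventually_ne hDM, (re.Mm p).eventually_ne heM, (rW.Nn p).eventually_ne hWN,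
      (rW.Mm p).eventually_ne hWM] with z eC eB eB0 eMC eNC eD0 eDN eDM eeM eWN eWM
    have ed : d z = ((p.rr (C z) / B z : ℂ) : P1) := by
      rw [← Par.nxt_self (h2 z), eB, eC]
      exact Par.nxt_coe_sp _ hμ eB0 eMC
    have e3 : p.u3 (a z) (b z) (c z) (d z) =
        p.sp (!s) (C z / p.nu s (p.rr (C z) / B z)) := by
      unfold Par.u3
      rw [ed, eC]
      exact Par.nxt_sp_coe _ hμ eDN eDM
    have e4 : p.u4 (a z) (b z) (c z) (d z) =
        ((p.rr (C z / p.nu s (p.rr (C z) / B z)) / (p.rr (C z) / B z) : ℂ) : P1) := by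
      unfold Par.u4
      rw [e3, ed]
      exact Par.nxt_coe_sp _ hμ eD0 eeM
    have e5 : p.u5 (a z) (b z) (c z) (d z) =
        p.sp s ((C z / p.nu s (p.rr (C z) / B z)) *
          p.nu s (p.rr (C z / p.nu s (p.rr (C z) / B z)) / (p.rr (C z) / B z))) := by
      unfold Par.u5
      rw [e3, e4, Par.nxt_sp_coe _ hμ eWN eWM, Bool.not_not, Par.nu_not, div_inv_eq_mul]
    have hrC : p.rr (C z) ≠ 0 := Par.rr_ne hμ eNC eMC
    have hnDz : p.nu s (p.rr (C z) / B z) ≠ 0 := Par.nu_ne eDN eDM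
    refine ⟨eB, eC, ?_, ?_, ?_⟩
    · rw [e4]
      congr 1
      have hBz : p.rr (C z) / (p.rr (C z) / B z) = B z := by field_simp
      rw [p.rr_sub eeM, alg1 hnDz eeM eMC eD0]
      congr 1
      rw [← p.rr_sub eMC]
      exact hBz
    · rw [e5]
      congr 1
      field_simp
    · intro h0
      rw [h0, hp.rr_zero, zero_div, hp.rr_zero]
      have : p.μ / (p.μ / B z) = B z := by field_simp
      rw [this, Par.nu_inv hμ eB0]
      rw [h0, hp.rr_zero, Par.nu_inv hμ eB0] at hnDz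
      exact div_self hnDz
  · intro h
    rw [hB]
    have h4 := hs.mp h
    have h5 := hxy_ne (c x)
    have h6 : q.Nn t = 0 := by tauto
    intro h7
    have := Par.qf_common hq.ne hq.μ0 h6 h7
    exact one_ne_zero this.2
  · intro h
    rw [hB]
    have h4 : ¬ hx (c x) = 0 := by
      intro h5; have := hs.mpr h5; rw [h] at this; exact Bool.noConfusion this
    have h6 : q.Mm t = 0 := by tauto
    intro h7
    have := Par.qf_common hq.ne hq.μ0 h7 h6
    exact one_ne_zero this.2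

lemma RegP.extraB {p q : Par} (hp : p.Good) (hq : q.Good) (hpq : Par.Disj p q) {x : X}
    {a b c d d' : X → P1} (ha : RegP x a) (hb : RegP x b) (hc : RegP x c) (hd : RegP x d)
    (hd' : RegP x d') (h1 : ∀ z, p.Rel (a z) (b z) (c z)) (h2 : ∀ z, p.Rel (b z) (c z) (d z))
    (h3 : ∀ z, q.Rel (b z) (c z) (d' z)) :
    RegP x (fun z => q.nxt (p.u4 (a z) (b z) (c z) (d z)) (p.u5 (a z) (b z) (c z) (d z))
      (d' z)) := by
  have r3 : RegP x (fun z => p.u3 (a z) (b z) (c z) (d z)) := RegP.nxt hp ha hb hc hd h1 h2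
  have r4 : RegP x (fun z => p.u4 (a z) (b z) (c z) (d z)) :=
    RegP.nxt hp hb hc hd r3 h2 (fun z => hp.rel3 _ _ _ _)
  have r5 : RegP x (fun z => p.u5 (a z) (b z) (c z) (d z)) :=
    RegP.nxt hp hc hd r3 r4 (fun z => hp.rel3 _ _ _ _) (fun z => hp.rel4 _ _ _ _)
  by_cases hi : q.Ind (p.u4 (a x) (b x) (c x) (d x)) (p.u5 (a x) (b x) (c x) (d x))
  swap
  · exact RegP.nxt_of_not_ind r4 r5 d' hi
  have hfix := hp.fix_of_ind' hq hpq (h1 x) (h2 x) (Or.inr hi)
  rw [hfix.2.1, hfix.2.2.1] at hi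
  obtain ⟨t, hbt, ht0, htN, htM, hcases⟩ := hp.exists_of_ind hq hpq hi
  obtain ⟨s, C, rC, hC, evC, hs⟩ := RegP.sp hp hb (by tauto)
  obtain ⟨B, rB, hB, evB⟩ := hc.coe hbt
  have hμ := hp.μ0
  have hB0 : B x ≠ 0 := by rw [hB]; exact ht0
  have hBN : p.Nn (B x) ≠ 0 := by rw [hB]; exact htN
  have hBM : p.Mm (B x) ≠ 0 := by rw [hB]; exact htM
  have rnB : RegC x (fun z => p.nu s (B z)) := rB.nu p s hBM hBN
  have hnB : p.nu s (B x) ≠ 0 := Par.nu_ne hBN hBM
  -- e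
  have re : RegC x (fun z => C z / p.nu s (B z)) := rC.div rnB hnB
  have hex : C x / p.nu s (B x) = 0 := by rw [hC, zero_div]
  have heM : p.Mm (C x / p.nu s (B x)) ≠ 0 := by rw [hex]; exact hp.Mm_zero
  -- W
  have rW : RegC x (fun z => p.rr (C z / p.nu s (B z)) / B z) := (re.rr p heM).div rB hB0
  have hWx : p.rr (C x / p.nu s (B x)) / B x = p.μ / t := by rw [hex, hB, hp.rr_zero]
  have hW0 : p.rr (C x / p.nu s (B x)) / B x ≠ 0 := by rw [hWx]; exact div_ne_zero hμ ht0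
  have hWN : p.Nn (p.rr (C x / p.nu s (B x)) / B x) ≠ 0 := by
    rw [hWx, Par.Nn_inv ht0]; exact mul_ne_zero (by positivity) htN
  have hWM : p.Mm (p.rr (C x / p.nu s (B x)) / B x) ≠ 0 := by
    rw [hWx, Par.Mm_inv ht0]; exact mul_ne_zero (by positivity) htM
  have rnW : RegC x (fun z => p.nu s (p.rr (C z / p.nu s (B z)) / B z)) := rW.nu p s hWM hWN
  -- t
  have rT : RegC x (fun z => C z / p.nu s (B z) * p.nu s (p.rr (C z / p.nu s (B z)) / B z)) :=
    re.mul rnW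
  have hTx : C x / p.nu s (B x) * p.nu s (p.rr (C x / p.nu s (B x)) / B x) = 0 := by
    rw [hex, zero_mul]
  have hTM : p.Mm (C x / p.nu s (B x) * p.nu s (p.rr (C x / p.nu s (B x)) / B x)) ≠ 0 := by
    rw [hTx]; exact hp.Mm_zero
  have rU : RegC x (fun z => p.nu s (p.rr (C z / p.nu s (B z)) / B z) / p.nu s (B z)) :=
    rnW.div rnB hnB
  have rV : RegC x (fun z => (p.α - p.β) * p.μ ^ 2 *
      ((p.nu s (p.rr (C z / p.nu s (B z)) / B z) / p.nu s (B z)) ^ 2 /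
        p.Mm (C z / p.nu s (B z) * p.nu s (p.rr (C z / p.nu s (B z)) / B z)) -
        (p.nu s (B z) ^ 2)⁻¹ / p.Mm (C z / p.nu s (B z))) / (p.rr (C z / p.nu s (B z)) / B z)) :=
    ((RegC.const x _).mul (((rU.pow 2).div (rT.Mm p) hTM).sub
      (((rnB.pow 2).inv (pow_ne_zero _ hnB)).div (re.Mm p) heM))).div rW hW0
  refine RegP.fin hp hq (s := s) hd' rB rC rU rV (fun z => (h3 z).symm) ?_ hC ?_ ?_
  · filter_upwards [evC, evB, rB.eventually_ne hB0, (rB.Mm p).eventually_ne hBM,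
      (rB.Nn p).eventually_ne hBN, rW.eventually_ne hW0, (rW.Nn p).eventually_ne hWN,
      (rW.Mm p).eventually_ne hWM, (re.Mm p).eventually_ne heM,
      (rT.Mm p).eventually_ne hTM] with z eC eB eB0 eBM eBN eW0 eWN eWM eeM eTM
    have ed : d z = p.sp (!s) (C z / p.nu s (B z)) := by
      rw [← Par.nxt_self (h2 z), eB, eC]
      exact Par.nxt_sp_coe _ hμ eBN eBM
    have e3 : p.u3 (a z) (b z) (c z) (d z) =
        ((p.rr (C z / p.nu s (B z)) / B z : ℂ) : P1) := by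
      unfold Par.u3
      rw [ed, eB]
      exact Par.nxt_coe_sp _ hμ eB0 eeM
    have e4 : p.u4 (a z) (b z) (c z) (d z) =
        p.sp s (C z / p.nu s (B z) * p.nu s (p.rr (C z / p.nu s (B z)) / B z)) := by
      unfold Par.u4
      rw [e3, ed, Par.nxt_sp_coe _ hμ eWN eWM, Bool.not_not, Par.nu_not, div_inv_eq_mul]
    have e5 : p.u5 (a z) (b z) (c z) (d z) =
        ((p.rr (C z / p.nu s (B z) * p.nu s (p.rr (C z / p.nu s (B z)) / B z)) /
          (p.rr (C z / p.nu s (B z)) / B z) : ℂ) : P1) := by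
      unfold Par.u5
      rw [e3, e4]
      exact Par.nxt_coe_sp _ hμ eW0 eTM
    have hnBz : p.nu s (B z) ≠ 0 := Par.nu_ne eBN eBM
    have hre : p.rr (C z / p.nu s (B z)) ≠ 0 := fun h => eW0 (by rw [h, zero_div])
    refine ⟨eB, eC, ?_, ?_, ?_⟩
    · rw [e5]
      congr 1
      have hBz : p.rr (C z / p.nu s (B z)) / (p.rr (C z / p.nu s (B z)) / B z) = B z := by
        field_simp
      rw [p.rr_sub eTM, alg2 hnBz eeM eTM eW0]
      congr 1
      rw [← p.rr_sub eeM]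
      exact hBz
    · rw [e4]
      congr 1
      field_simp
    · intro h0
      rw [h0, zero_div, hp.rr_zero, Par.nu_inv hμ eB0]
      exact div_self hnBz
  · intro h
    rw [hB]
    have h4 := hs.mp h
    have h5 := hxy_ne (b x)
    have h6 : q.Nn t = 0 := by tauto
    intro h7
    have := Par.qf_common hq.ne hq.μ0 h6 h7
    exact one_ne_zero this.2
  · intro h
    rw [hB]
    have h4 : ¬ hx (b x) = 0 := by
      intro h5; have := hs.mpr h5; rw [h] at this; exact Bool.noConfusion this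
    have h6 : q.Mm t = 0 := by tauto
    intro h7
    have := Par.qf_common hq.ne hq.μ0 h7 h6
    exact one_ne_zero this.2

end Run7.h904
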