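import Mathlib

/-! Heights over number fields: bounds which are uniform in the field, and a height inequality
for the quartic fractions `(u⁴ + α u² + 1)/(u⁴ + β u² + 1)`. -/

open NumberField Height

namespace Run7.h904

lemma finprod_le_one_real {α : Type*} (f : α → ℝ) (h0 : ∀ a, 0 ≤ f a) (h1 : ∀ a, f a ≤ 1) :
    ∏ᶠ a, f a ≤ 1 := by
  by_cases H : f.HasFiniteMulSupport
  · have : Fintype ↑(f.mulSupport) := Set.Finite.fintype H
    rw [finprod_eq_finsetProd_of_mulSupport_subset f (s := f.mulSupport.toFinset) (by simp)]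
    exact Finset.prod_le_one (fun i _ => h0 i) (fun i _ => h1 i)
  · rw [finprod_of_not_hasFiniteMulSupport H]

lemma one_le_finprod_real {α : Type*} (f : α → ℝ) (h1 : ∀ a, 1 ≤ f a) :
    1 ≤ ∏ᶠ a, f a := by
  by_cases H : f.HasFiniteMulSupport
  · have : Fintype ↑(f.mulSupport) := Set.Finite.fintype H
    rw [finprod_eq_finsetProd_of_mulSupport_subset f (s := f.mulSupport.toFinset) (by simp)]
    exact Finset.one_le_prod (fun i _ => h1 i)
  · rw [finprod_of_not_hasFiniteMulSupport H]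

lemma finitePlace_le_one {K : Type*} [Field K] [NumberField K] (w : FinitePlace K) {x : K}
    (hx : IsIntegral ℤ x) : w x ≤ 1 := by
  rw [← FinitePlace.norm_embedding_eq]
  exact FinitePlace.norm_le_one K w.maximalIdeal (⟨x, hx⟩ : 𝓞 K)

/-- a bound of the conjugates -/
lemma exists_conj_bound {ι : Type*} [Finite ι] (a : ι → ℂ) (ha : ∀ j, IsAlgebraic ℚ (a j)) :
    ∃ B : ℝ, 1 ≤ B ∧ ∀ j, ∀ z ∈ ((minpoly ℚ (a j)).aroots ℂ), ‖z‖ ≤ B := by
  classical
  cases nonempty_fintype ι
  set S : Finset ℂ := Finset.univ.biUnion (fun j => ((minpoly ℚ (a j)).aroots ℂ).toFinset)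
  obtain ⟨B, hB⟩ := (S.finite_toSet.image (fun z : ℂ => ‖z‖)).bddAbove
  refine ⟨max B 1, le_max_right _ _, fun j z hz => le_trans ?_ (le_max_left _ _)⟩
  apply hB
  refine ⟨z, ?_, rfl⟩
  simp only [S, Finset.coe_biUnion, Set.mem_iUnion]
  exact ⟨j, Finset.mem_coe.mpr (Finset.mem_univ _), by
    rw [Finset.mem_coe, Multiset.mem_toFinset]; exact hz⟩

lemma exists_denom {ι : Type*} [Finite ι] (a : ι → ℂ) (ha : ∀ j, IsAlgebraic ℚ (a j)) :
    ∃ d : ℤ, d ≠ 0 ∧ ∀ j, IsIntegral ℤ ((d : ℂ) * a j) := by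
  classical
  cases nonempty_fintype ι
  have h : ∀ j, ∃ y : ℤ, y ≠ 0 ∧ IsIntegral ℤ (y • a j) := by
    intro j
    have h1 : IsAlgebraic ℤ (a j) := (IsFractionRing.isAlgebraic_iff ℤ ℚ ℂ).mpr (ha j)
    obtain ⟨y, hy, hi⟩ := h1.exists_integral_multiple
    exact ⟨y, hy, hi⟩
  choose y hy hi using h
  refine ⟨∏ j, y j, Finset.prod_ne_zero_iff.mpr fun j _ => hy j, fun j => ?_⟩
  have : (((∏ j, y j : ℤ) : ℂ)) * a j = ((∏ i ∈ Finset.univ.erase j, y i : ℤ) : ℂ) * (y j • a j) := by
    rw [← Finset.mul_prod_erase Finset.univ y (Finset.mem_univ j)]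
    push_cast
    simp only [zsmul_eq_mul]
    ring
  rw [this]
  refine IsIntegral.mul ?_ (hi j)
  exact isIntegral_algebraMap (R := ℤ) (A := ℂ)

/-- Heights of a fixed family of algebraic numbers grow at most linearly with the degree of the
field. -/
lemma exists_height_bound {ι : Type*} [Finite ι] (a : ι → ℂ) (ha : ∀ j, IsAlgebraic ℚ (a j)) :
    ∃ C : ℝ, 0 ≤ C ∧ ∀ (K : Type) [Field K] [NumberField K] (σ : K →+* ℂ) (y : ι → K),
      (∀ j, σ (y j) = a j) → logHeight y ≤ C * Module.finrank ℚ K := by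
  obtain ⟨B, hB1, hB⟩ := exists_conj_bound a ha
  obtain ⟨d, hd, hint⟩ := exists_denom a ha
  have hdpos : (1 : ℝ) ≤ |(d : ℝ)| := by exact_mod_cast Int.one_le_abs hd
  have hDB : 1 ≤ |(d : ℝ)| * B := by nlinarith
  refine ⟨Real.log (|(d : ℝ)| * B), Real.log_nonneg hDB, ?_⟩
  intro K _ _ σ y hy
  rcases eq_or_ne y 0 with rfl | hy0
  · rw [logHeight_zero]
    exact mul_nonneg (Real.log_nonneg hDB) (Nat.cast_nonneg _)
  have hι : Nonempty ι := by
    obtain ⟨i, -⟩ := Function.ne_iff.mp hy0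
    exact ⟨i⟩
  have hdK : (d : K) ≠ 0 := by exact_mod_cast hd
  have hsm : (d : K) • y ≠ 0 := smul_ne_zero hdK hy0
  have hmul : mulHeight y ≤ (|(d : ℝ)| * B) ^ Module.finrank ℚ K := by
    rw [← mulHeight_smul_eq_mulHeight y hdK, NumberField.mulHeight_eq hsm]
    have h1 : (∏ v : InfinitePlace K, (⨆ i, v (((d : K) • y) i)) ^ v.mult)
        ≤ (|(d : ℝ)| * B) ^ Module.finrank ℚ K := by
      rw [← InfinitePlace.sum_mult_eq, ← Finset.prod_pow_eq_pow_sum]
      refine Finset.prod_le_prod (fun v _ => pow_nonneg (Real.iSup_nonneg_of_nonnegHomClass v _) _)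
        fun v _ => pow_le_pow_left₀ (Real.iSup_nonneg_of_nonnegHomClass v _) ?_ _
      refine ciSup_le fun i => ?_
      simp only [Pi.smul_apply, smul_eq_mul, map_mul]
      have e1 : v (d : K) = |(d : ℝ)| := by
        rw [← InfinitePlace.norm_embedding_eq v (d : K)]
        simp
      rw [e1]
      refine mul_le_mul_of_nonneg_left ?_ (abs_nonneg _)
      rw [← InfinitePlace.norm_embedding_eq v (y i)]
      apply hB i
      have hne : minpoly ℚ (a i) ≠ 0 := minpoly.ne_zero (ha i).isIntegral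
      rw [Polynomial.mem_aroots]
      refine ⟨hne, ?_⟩
      have h3 : Polynomial.aeval (y i) (minpoly ℚ (a i)) = 0 := by
        have h4 : Polynomial.aeval (σ.toRatAlgHom (y i)) (minpoly ℚ (a i)) =
          σ.toRatAlgHom (Polynomial.aeval (y i) (minpoly ℚ (a i))) :=
          Polynomial.aeval_algHom_apply σ.toRatAlgHom (y i) (minpoly ℚ (a i))
        have h5 : σ.toRatAlgHom (y i) = a i := hy i
        rw [h5, minpoly.aeval] at h4
        exact (map_eq_zero σ).mp h4.symm
      have h6 : Polynomial.aeval (v.embedding.toRatAlgHom (y i)) (minpoly ℚ (a i)) =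
          v.embedding.toRatAlgHom (Polynomial.aeval (y i) (minpoly ℚ (a i))) :=
          Polynomial.aeval_algHom_apply v.embedding.toRatAlgHom (y i) (minpoly ℚ (a i))
      rw [h3, map_zero] at h6
      exact h6
    have h2 : (∏ᶠ v : FinitePlace K, ⨆ i, v (((d : K) • y) i)) ≤ 1 := by
      refine finprod_le_one_real _ (fun v => Real.iSup_nonneg_of_nonnegHomClass v _) fun v => ?_
      refine ciSup_le fun i => finitePlace_le_one v ?_
      have h5 : IsIntegral ℤ (σ ((d : K) * y i)) := by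
        rw [map_mul, hy i, map_intCast]
        exact hint i
      exact (isIntegral_algHom_iff (σ.toIntAlgHom) σ.injective).mp h5
    calc _ ≤ (|(d : ℝ)| * B) ^ Module.finrank ℚ K * 1 :=
          mul_le_mul h1 h2 (finprod_nonneg fun v => Real.iSup_nonneg_of_nonnegHomClass v _)
            (by positivity)
      _ = _ := mul_one _
  rw [logHeight_eq_log_mulHeight, mul_comm, ← Real.log_pow]
  exact Real.log_le_log (mulHeight_pos _) hmul

lemma log_le_logHeight_nat (K : Type) [Field K] [NumberField K] (n : ℕ) (hn : 1 ≤ n) :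
    Real.log n * Module.finrank ℚ K ≤ logHeight₁ (n : K) := by
  rw [logHeight₁_eq_log_mulHeight₁, mul_comm, ← Real.log_pow]
  apply Real.log_le_log (by positivity)
  rw [NumberField.mulHeight₁_eq]
  have h1 : (n : ℝ) ^ Module.finrank ℚ K ≤
      (∏ v : InfinitePlace K, max (v (n : K)) 1 ^ v.mult) := by
    rw [← InfinitePlace.sum_mult_eq, ← Finset.prod_pow_eq_pow_sum]
    refine Finset.prod_le_prod (fun v _ => by positivity) fun v _ => ?_
    refine pow_le_pow_left₀ (by positivity) ?_ _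
    refine le_trans (le_of_eq ?_) (le_max_left _ _)
    rw [← InfinitePlace.norm_embedding_eq v (n : K)]
    simp
  have h2 : 1 ≤ ∏ᶠ v : FinitePlace K, max (v (n : K)) 1 :=
    one_le_finprod_real _ fun v => le_max_right _ _
  calc (n : ℝ) ^ Module.finrank ℚ K = (n : ℝ) ^ Module.finrank ℚ K * 1 := (mul_one _).symm
    _ ≤ _ := mul_le_mul h1 h2 zero_le_one (by positivity)

end Run7.h904
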