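import Pool.Agent.Run7.h904.Ht

/-! The height inequality for the recurrence. -/

open NumberField Height

namespace Run7.h904

/-- coefficient table -/
def cTab {K : Type*} [Field K] (a b : K) (k : Fin 2 × (Fin 2 × Fin 2)) : K :=
  (![![![-b, a], ![-1, 1]], ![![-1, 1], ![-b, a]]] : Fin 2 → Fin 2 → Fin 2 → K) k.1 k.2.1 k.2.2

lemma cTab_map {K L : Type*} [Field K] [Field L] (σ : K →+* L) (a b : K)
    (k : Fin 2 × (Fin 2 × Fin 2)) : σ (cTab a b k) = cTab (σ a) (σ b) k := by
  obtain ⟨i, j, l⟩ := k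
  fin_cases i <;> fin_cases j <;> fin_cases l <;> simp [cTab]

lemma cTab_alg {α β : ℂ} (hα : IsAlgebraic ℚ α) (hβ : IsAlgebraic ℚ β)
    (k : Fin 2 × (Fin 2 × Fin 2)) : IsAlgebraic ℚ (cTab α β k) := by
  obtain ⟨i, j, l⟩ := k
  have h1 : IsAlgebraic ℚ (-1 : ℂ) := isAlgebraic_one.neg
  have h2 : IsAlgebraic ℚ (1 : ℂ) := isAlgebraic_one
  fin_cases i <;> fin_cases j <;> fin_cases l <;> simp [cTab, hα, h1, h2, hβ.neg]

lemma quartic_height {α β : ℂ} (hα : IsAlgebraic ℚ α) (hβ : IsAlgebraic ℚ β) (hne : α ≠ β) :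
    ∃ C : ℝ, 0 ≤ C ∧ ∀ (K : Type) [Field K] [NumberField K] (σ : K →+* ℂ) (a b : K),
      σ a = α → σ b = β → ∀ u v : K, (u ≠ 0 ∨ v ≠ 0) → 4 * logHeight ![u, v] ≤
        logHeight ![u ^ 4 + a * u ^ 2 * v ^ 2 + v ^ 4, u ^ 4 + b * u ^ 2 * v ^ 2 + v ^ 4] +
          C * Module.finrank ℚ K := by
  obtain ⟨C1, hC1, h1⟩ := exists_height_bound (cTab α β) (cTab_alg hα hβ)
  refine ⟨Real.log 4 + C1, by positivity, ?_⟩
  intro K _ _ σ a b ha hb u v huv
  have hab : a - b ≠ 0 := by
    intro h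
    apply hne
    rw [← ha, ← hb, sub_eq_zero.mp h]
  set n : K := u ^ 4 + a * u ^ 2 * v ^ 2 + v ^ 4 with hn
  set m : K := u ^ 4 + b * u ^ 2 * v ^ 2 + v ^ 4 with hm
  have hA : logHeight (cTab a b) ≤ C1 * Module.finrank ℚ K := by
    refine h1 K σ (cTab a b) fun j => ?_
    rw [cTab_map, ha, hb]
  have hx0 : (![u ^ 2, v ^ 2] : Fin 2 → K) ≠ 0 := by
    intro h
    have e0 : u ^ 2 = 0 := congrFun h 0
    have e1 : v ^ 2 = 0 := congrFun h 1
    rcases huv with h | h
    · exact h (pow_eq_zero_iff two_ne_zero |>.mp e0)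
    · exact h (pow_eq_zero_iff two_ne_zero |>.mp e1)
  have hy0 : (![n, m] : Fin 2 → K) ≠ 0 := by
    intro h
    have e0 : n = 0 := congrFun h 0
    have e1 : m = 0 := congrFun h 1
    have h6 : (a - b) * u ^ 6 = 0 := by
      have : (a - b) * u ^ 6 = u ^ 2 * (a * m - b * n) - v ^ 2 * (n - m) := by rw [hn, hm]; ring
      rw [this, e0, e1]; ring
    have h7 : (a - b) * v ^ 6 = 0 := by
      have : (a - b) * v ^ 6 = v ^ 2 * (a * m - b * n) - u ^ 2 * (n - m) := by rw [hn, hm]; ring
      rw [this, e0, e1]; ring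
    rcases huv with h | h
    · exact (mul_ne_zero hab (pow_ne_zero 6 h)) h6
    · exact (mul_ne_zero hab (pow_ne_zero 6 h)) h7
  have key := logHeight_linearMap_apply_le (cTab a b)
    (fun c : Fin 2 × Fin 2 => (![u ^ 2, v ^ 2] : Fin 2 → K) c.1 * (![n, m] : Fin 2 → K) c.2)
  have e2 : (![u ^ 2, v ^ 2] : Fin 2 → K) = ![u, v] ^ 2 := by
    ext i; fin_cases i <;> simp
  rw [logHeight_fun_mul_eq hx0 hy0, e2, logHeight_pow] at key
  have e : (fun j : Fin 2 => ∑ i : Fin 2 × Fin 2, cTab a b (j, i) *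
      ((![u, v] ^ 2 : Fin 2 → K) i.1 * (![n, m] : Fin 2 → K) i.2)) =
      (a - b) • (![u, v] ^ 6 : Fin 2 → K) := by
    funext j
    rw [Fintype.sum_prod_type]
    simp only [Fin.sum_univ_two]
    fin_cases j
    · simp [cTab, hn, hm]; ring
    · simp [cTab, hn, hm]; ring
  rw [e, logHeight_smul_eq_logHeight _ hab, logHeight_pow] at key
  have h4 : (Nat.card (Fin 2 × Fin 2) : ℝ) = 4 := by
    rw [Nat.card_eq_fintype_card]; norm_num
  rw [h4, totalWeight_eq_finrank] at key
  push_cast at key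
  nlinarith

/-- the recurrence, for normalised homogeneous coordinates -/
def IsSeq {K : Type*} [Field K] (a b : K) (u v : ℤ → K) : Prop :=
  ∀ i, (v i = 1 ∨ (v i = 0 ∧ u i = 1)) ∧
    (u (i - 1) * u (i + 1) ≠ 0 ∨ v (i - 1) * v (i + 1) ≠ 0) ∧
    u (i - 1) * u (i + 1) * (u i ^ 4 + b * u i ^ 2 * v i ^ 2 + v i ^ 4) =
      v (i - 1) * v (i + 1) * (u i ^ 4 + a * u i ^ 2 * v i ^ 2 + v i ^ 4)

lemma per_finite_range {X : Type*} (u : ℤ → X) {N : ℕ} (hN : 0 < N) (hper : ∀ i, u (i + N) = u i) :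
    ∀ i : ℤ, ∃ j ∈ Finset.range N, u i = u j := by
  intro i
  have hN' : (0 : ℤ) < N := by exact_mod_cast hN
  have hk : ∀ (k : ℤ) (i : ℤ), u (i + k * N) = u i := by
    intro k
    induction k using Int.induction_on with
    | zero => intro i; simp
    | succ k ih =>
      intro i
      rw [show i + ((k : ℤ) + 1) * N = (i + k * N) + N by ring, hper, ih]
    | pred k ih =>
      intro i
      rw [← hper (i + (-(k : ℤ) - 1) * N),
        show i + (-(k : ℤ) - 1) * N + N = i + (-(k : ℤ)) * N by ring, ih]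
  refine ⟨(i % N).toNat, ?_, ?_⟩
  · rw [Finset.mem_range]
    have := Int.emod_lt_of_pos i hN'
    have h0 := Int.emod_nonneg i hN'.ne'
    omega
  · have h0 := Int.emod_nonneg i hN'.ne'
    rw [Int.toNat_of_nonneg h0]
    have := hk (i / N) (i % N)
    rw [Int.emod_add_ediv_mul] at this
    exact this

/-- Heights along periodic solutions are bounded linearly in the degree of the field. -/
theorem seq_height {α β : ℂ} (hα : IsAlgebraic ℚ α) (hβ : IsAlgebraic ℚ β) (hne : α ≠ β) :
    ∃ C : ℝ, 0 ≤ C ∧ ∀ (K : Type) [Field K] [NumberField K] (σ : K →+* ℂ) (a b : K),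
      σ a = α → σ b = β → ∀ (u v : ℤ → K) (N : ℕ), 0 < N → (∀ i, u (i + N) = u i) →
        (∀ i, v (i + N) = v i) → IsSeq a b u v →
        ∀ i, logHeight ![u i, v i] ≤ C * Module.finrank ℚ K := by
  obtain ⟨C, hC, h⟩ := quartic_height hα hβ hne
  refine ⟨C, hC, ?_⟩
  intro K _ _ σ a b ha hb u v N hN hper hper' hu
  have hab : a - b ≠ 0 := by
    intro h
    apply hne
    rw [← ha, ← hb, sub_eq_zero.mp h]
  have hne0 : ∀ i, u i ≠ 0 ∨ v i ≠ 0 := by
    intro i
    rcases (hu i).1 with h | ⟨-, h⟩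
    · right; rw [h]; exact one_ne_zero
    · left; rw [h]; exact one_ne_zero
  have step : ∀ i, 4 * logHeight ![u i, v i] ≤ logHeight ![u (i - 1), v (i - 1)] +
      logHeight ![u (i + 1), v (i + 1)] + C * Module.finrank ℚ K := by
    intro i
    have h1 := h K σ a b ha hb (u i) (v i) (hne0 i)
    obtain ⟨-, h2, h3⟩ := hu i
    set n : K := u i ^ 4 + a * u i ^ 2 * v i ^ 2 + v i ^ 4 with hn
    set m : K := u i ^ 4 + b * u i ^ 2 * v i ^ 2 + v i ^ 4 with hm
    have hnm : n ≠ 0 ∨ m ≠ 0 := by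
      by_contra hcon
      push Not at hcon
      obtain ⟨e0, e1⟩ := hcon
      have h6 : (a - b) * u i ^ 6 = 0 := by
        have : (a - b) * u i ^ 6 = u i ^ 2 * (a * m - b * n) - v i ^ 2 * (n - m) := by
          rw [hn, hm]; ring
        rw [this, e0, e1]; ring
      have h7 : (a - b) * v i ^ 6 = 0 := by
        have : (a - b) * v i ^ 6 = v i ^ 2 * (a * m - b * n) - u i ^ 2 * (n - m) := by
          rw [hn, hm]; ring
        rw [this, e0, e1]; ring
      rcases hne0 i with h | h
      · exact (mul_ne_zero hab (pow_ne_zero 6 h)) h6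
      · exact (mul_ne_zero hab (pow_ne_zero 6 h)) h7
    -- the two vectors are proportional
    have hprop : ∃ c : K, c ≠ 0 ∧ (![n, m] : Fin 2 → K) =
        c • (![u (i - 1), v (i - 1)] * ![u (i + 1), v (i + 1)] : Fin 2 → K) := by
      rcases h2 with h2 | h2
      · refine ⟨n / (u (i - 1) * u (i + 1)), ?_, ?_⟩
        · apply div_ne_zero _ h2
          intro h0
          rw [h0, mul_zero] at h3
          rcases mul_eq_zero.mp h3 with h4 | h4
          · exact h2 h4
          · rcases hnm with h5 | h5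
            · exact h5 h0
            · exact h5 h4
        · ext j
          fin_cases j
          · simp [div_mul_cancel₀ _ h2]
          · show m = n / (u (i - 1) * u (i + 1)) * (v (i - 1) * v (i + 1))
            rw [div_mul_eq_mul_div, eq_div_iff h2]
            linear_combination h3
      · refine ⟨m / (v (i - 1) * v (i + 1)), ?_, ?_⟩
        · apply div_ne_zero _ h2
          intro h0
          rw [h0, mul_zero] at h3
          rcases mul_eq_zero.mp h3.symm with h4 | h4
          · exact h2 h4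
          · rcases hnm with h5 | h5
            · exact h5 h4
            · exact h5 h0
        · ext j
          fin_cases j
          · show n = m / (v (i - 1) * v (i + 1)) * (u (i - 1) * u (i + 1))
            rw [div_mul_eq_mul_div, eq_div_iff h2]
            linear_combination -h3
          · simp [div_mul_cancel₀ _ h2]
    obtain ⟨c, hc, e⟩ := hprop
    rw [e, logHeight_smul_eq_logHeight _ hc] at h1
    have h5 := logHeight_mul_le (![u (i - 1), v (i - 1)] : Fin 2 → K) ![u (i + 1), v (i + 1)]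
    linarith
  -- maximum
  have hne' : (Finset.range N).Nonempty := ⟨0, Finset.mem_range.mpr hN⟩
  obtain ⟨j, hj, hmax⟩ := Finset.exists_max_image (Finset.range N)
    (fun j => logHeight ![u (j : ℤ), v (j : ℤ)]) hne'
  have hM : ∀ i, logHeight ![u i, v i] ≤ logHeight ![u (j : ℤ), v (j : ℤ)] := by
    intro i
    obtain ⟨l, hl, e⟩ := per_finite_range (fun i => (u i, v i)) hN
      (fun i => by simp only [hper, hper']) i
    have e1 : u i = u l := congrArg Prod.fst e
    have e2 : v i = v l := congrArg Prod.snd e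
    rw [e1, e2]
    exact hmax l hl
  intro i
  have h1 := step j
  have h2 := hM ((j : ℤ) - 1)
  have h3 := hM ((j : ℤ) + 1)
  have h4 := hM i
  have h5 : 0 ≤ C * Module.finrank ℚ K := by positivity
  have h6 := logHeight_nonneg ![u (j : ℤ), v (j : ℤ)]
  linarith

end Run7.h904
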