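import Pool.Agent.Run7.h904.Smooth
import Pool.Agent.Run7.h904.Deg

/-! Density of the torus part and irreducibility. -/

open OnePoint

namespace Run7.h904

open Polynomial in
lemma X_add_C_ne_zero' (c : ℂ) : (Polynomial.C c + Polynomial.X : ℂ[X]) ≠ 0 := by
  rw [add_comm]; exact Polynomial.X_add_C_ne_zero c

lemma rel_rat {p : Par} {a0 a1 b0 b1 c0 c1 : ℂ} (ha : a0 ≠ 0 ∨ a1 ≠ 0) (hb : b0 ≠ 0 ∨ b1 ≠ 0)
    (hc : c0 ≠ 0 ∨ c1 ≠ 0) :
    p.Rel (rat a0 a1) (rat b0 b1) (rat c0 c1) ↔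
      qf p.β p.μ b0 b1 * (a0 * c0) = p.μ * qf p.α p.μ b0 b1 * (a1 * c1) := by
  obtain ⟨k, hk, e1, e2⟩ := exists_smul_rat ha
  obtain ⟨l, hl, e3, e4⟩ := exists_smul_rat hb
  obtain ⟨m, hm, e5, e6⟩ := exists_smul_rat hc
  unfold Par.Rel Par.den Par.num
  set A := rat a0 a1
  set B := rat b0 b1
  set D := rat c0 c1
  rw [e1, e2, e3, e4, e5, e6, Par.qf_smul, Par.qf_smul]
  have h0 : k * l ^ 4 * m ≠ 0 := by positivity
  constructor
  · intro h; linear_combination (k * l ^ 4 * m) * h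
  · intro h
    apply mul_left_cancel₀ h0
    linear_combination h

lemma ind_rat {p : Par} {a0 a1 b0 b1 : ℂ} (ha : a0 ≠ 0 ∨ a1 ≠ 0) (hb : b0 ≠ 0 ∨ b1 ≠ 0) :
    p.Ind (rat a0 a1) (rat b0 b1) ↔
      p.μ * qf p.α p.μ b0 b1 * a1 = 0 ∧ qf p.β p.μ b0 b1 * a0 = 0 := by
  obtain ⟨k, hk, e1, e2⟩ := exists_smul_rat ha
  obtain ⟨l, hl, e3, e4⟩ := exists_smul_rat hb
  unfold Par.Ind Par.den Par.num
  set A := rat a0 a1
  set B := rat b0 b1
  rw [e1, e2, e3, e4, Par.qf_smul, Par.qf_smul]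
  have h0 : k * l ^ 4 ≠ 0 := by positivity
  constructor
  · rintro ⟨h, h'⟩
    exact ⟨by linear_combination (k * l ^ 4) * h, by linear_combination (k * l ^ 4) * h'⟩
  · rintro ⟨h, h'⟩
    exact ⟨mul_left_cancel₀ h0 (by linear_combination h),
      mul_left_cancel₀ h0 (by linear_combination h')⟩

lemma hx_rat_ne {a b : ℂ} (ha : a ≠ 0) : hx (rat a b) ≠ 0 := by
  obtain ⟨k, hk, e1, e2⟩ := exists_smul_rat (a := a) (b := b) (Or.inl ha)
  intro h
  rw [h, mul_zero] at e1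
  exact ha e1

lemma hy_rat_ne {a b : ℂ} (hb : b ≠ 0) : hy (rat a b) ≠ 0 := by
  obtain ⟨k, hk, e1, e2⟩ := exists_smul_rat (a := a) (b := b) (Or.inr hb)
  intro h
  rw [h, mul_zero] at e2
  exact hb e2

/-- value of a form at homogeneous coordinates -/
lemma eval_form {n : ℕ} {m : Fin n → ℕ} {G : MvPolynomial (Fin n ⊕ Fin n) ℂ} (hG : IsForm m G)
    (s t : Fin n → ℂ) (h : ∀ i, s i ≠ 0 ∨ t i ≠ 0) :
    MvPolynomial.eval (Sum.elim s t) G = 0 ↔ val G (fun i => rat (s i) (t i)) = 0 := by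
  choose k hk e1 e2 using fun i => exists_smul_rat (h i)
  have hs : s = fun i => k i * hx (rat (s i) (t i)) := funext e1
  have ht : t = fun i => k i * hy (rat (s i) (t i)) := funext e2
  have key := hG k (fun i => hx (rat (s i) (t i))) (fun i => hy (rat (s i) (t i)))
  rw [← hs, ← ht] at key
  rw [key]
  have h0 : ∏ i, k i ^ m i ≠ 0 := Finset.prod_ne_zero_iff.mpr fun i _ => pow_ne_zero _ (hk i)
  constructor
  · intro h
    exact (mul_eq_zero.mp h).resolve_left h0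
  · intro h
    unfold val at h
    rw [h, mul_zero]

open Polynomial in
lemma closed_curve {n : ℕ} {Z : Set (Pt n)} (hZ : IsZariskiClosed Z) (P Q : Fin n → ℂ[X])
    (h0 : ∀ i, (P i).eval 0 ≠ 0 ∨ (Q i).eval 0 ≠ 0) {S : Set ℂ} (hS : S.Finite)
    (h : ∀ t ∉ S, (∀ i, (P i).eval t ≠ 0 ∨ (Q i).eval t ≠ 0) →
      (fun i => rat ((P i).eval t) ((Q i).eval t)) ∈ Z) :
    (fun i => rat ((P i).eval 0) ((Q i).eval 0)) ∈ Z := by
  obtain ⟨I, hI, rfl⟩ := hZ
  intro G hG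
  obtain ⟨m, hm⟩ := hI G hG
  set g : ℂ[X] := MvPolynomial.eval₂ Polynomial.C (Sum.elim P Q) G with hg
  have hev : ∀ t, g.eval t =
      MvPolynomial.eval (Sum.elim (fun i => (P i).eval t) (fun i => (Q i).eval t)) G := by
    intro t
    have h1 : (Polynomial.evalRingHom t) (MvPolynomial.eval₂ Polynomial.C (Sum.elim P Q) G) =
        MvPolynomial.eval₂ ((Polynomial.evalRingHom t).comp Polynomial.C)
          ((Polynomial.evalRingHom t) ∘ (Sum.elim P Q)) G :=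
      MvPolynomial.eval₂_comp_left (Polynomial.evalRingHom t) Polynomial.C (Sum.elim P Q) G
    have h2 : (Polynomial.evalRingHom t).comp (Polynomial.C : ℂ →+* ℂ[X]) = RingHom.id ℂ := by
      ext x; simp
    have h3 : ((Polynomial.evalRingHom t) ∘ (Sum.elim P Q)) =
        Sum.elim (fun i => (P i).eval t) (fun i => (Q i).eval t) := by
      ext i; cases i <;> rfl
    rw [h2, h3] at h1
    exact h1
  have hbad : {t : ℂ | ∃ i, (P i).eval t = 0 ∧ (Q i).eval t = 0}.Finite := by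
    have : {t : ℂ | ∃ i, (P i).eval t = 0 ∧ (Q i).eval t = 0} =
        ⋃ i, {t : ℂ | (P i).eval t = 0 ∧ (Q i).eval t = 0} := by
      ext t; simp
    rw [this]
    refine Set.finite_iUnion fun i => ?_
    rcases h0 i with h1 | h1
    · have hne : P i ≠ 0 := by
        intro h2; rw [h2] at h1; simp at h1
      refine (Polynomial.finite_setOfPred_isRoot hne).subset ?_
      rintro t ⟨h2, -⟩
      exact h2
    · have hne : Q i ≠ 0 := by
        intro h2; rw [h2] at h1; simp at h1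
      refine (Polynomial.finite_setOfPred_isRoot hne).subset ?_
      rintro t ⟨-, h2⟩
      exact h2
  have hg0 : g = 0 := by
    apply Polynomial.eq_zero_of_infinite_isRoot
    refine ((hS.union hbad).infinite_compl).mono ?_
    intro t ht
    simp only [Set.mem_compl_iff, Set.mem_union, not_or] at ht
    have hpair : ∀ i, (P i).eval t ≠ 0 ∨ (Q i).eval t ≠ 0 := by
      intro i
      by_contra hcon
      push Not at hcon
      exact ht.2 ⟨i, hcon⟩
    have h1 := h t ht.1 hpair G hG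
    show g.eval t = 0
    rw [hev t]
    exact (eval_form hm _ _ hpair).mpr h1
  have h1 := hev 0
  rw [hg0, Polynomial.eval_zero] at h1
  exact (eval_form hm _ _ h0).mp h1.symm

namespace Par

variable {p q : Par}

open Polynomial in
lemma mem_of_germ {Z : Set (Pt 6)} (hZ : IsZariskiClosed Z)
    (hU : ∀ x ∈ surfX p q, hx (x 1) ≠ 0 → hy (x 1) ≠ 0 → hx (x 2) ≠ 0 → hy (x 2) ≠ 0 → x ∈ Z)
    (P Q : Fin 6 → ℂ[X]) (h0 : ∀ i, (P i).eval 0 ≠ 0 ∨ (Q i).eval 0 ≠ 0)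
    (r1 : qp p.β p.μ (P 1) (Q 1) * (P 0 * P 2) =
      Polynomial.C p.μ * qp p.α p.μ (P 1) (Q 1) * (Q 0 * Q 2))
    (r2 : qp p.β p.μ (P 2) (Q 2) * (P 1 * P 3) =
      Polynomial.C p.μ * qp p.α p.μ (P 2) (Q 2) * (Q 1 * Q 3))
    (r3 : qp q.β q.μ (P 1) (Q 1) * (P 4 * P 2) =
      Polynomial.C q.μ * qp q.α q.μ (P 1) (Q 1) * (Q 4 * Q 2))
    (r4 : qp q.β q.μ (P 2) (Q 2) * (P 1 * P 5) =
      Polynomial.C q.μ * qp q.α q.μ (P 2) (Q 2) * (Q 1 * Q 5))
    (n1 : P 1 ≠ 0) (n2 : Q 1 ≠ 0) (n3 : P 2 ≠ 0) (n4 : Q 2 ≠ 0) :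
    (fun i => rat ((P i).eval 0) ((Q i).eval 0)) ∈ Z := by
  have hne : P 1 * Q 1 * (P 2 * Q 2) ≠ 0 := mul_ne_zero (mul_ne_zero n1 n2) (mul_ne_zero n3 n4)
  refine closed_curve hZ P Q h0 (Polynomial.finite_setOfPred_isRoot hne) ?_
  intro t ht hpair
  have ht' : (P 1 * Q 1 * (P 2 * Q 2)).eval t ≠ 0 := ht
  rw [eval_mul, eval_mul, eval_mul] at ht'
  have a1 := left_ne_zero_of_mul (left_ne_zero_of_mul ht')
  have a2 := right_ne_zero_of_mul (left_ne_zero_of_mul ht')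
  have a3 := left_ne_zero_of_mul (right_ne_zero_of_mul ht')
  have a4 := right_ne_zero_of_mul (right_ne_zero_of_mul ht')
  refine hU _ ⟨?_, ?_, ?_, ?_⟩ (hx_rat_ne a1) (hy_rat_ne a2) (hx_rat_ne a3) (hy_rat_ne a4)
  · rw [rel_rat (hpair 0) (hpair 1) (hpair 2)]
    have := congrArg (Polynomial.eval t) r1
    simpa only [eval_mul, eval_qp, eval_C] using this
  · rw [rel_rat (hpair 1) (hpair 2) (hpair 3)]
    have := congrArg (Polynomial.eval t) r2
    simpa only [eval_mul, eval_qp, eval_C] using this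
  · rw [rel_rat (hpair 4) (hpair 1) (hpair 2)]
    have := congrArg (Polynomial.eval t) r3
    simpa only [eval_mul, eval_qp, eval_C] using this
  · rw [rel_rat (hpair 1) (hpair 2) (hpair 5)]
    have := congrArg (Polynomial.eval t) r4
    simpa only [eval_mul, eval_qp, eval_C] using this

open Polynomial in
lemma exists_lift {a b c : P1} (h : p.Rel a b c) (hi : ¬ p.Ind c b) (B0 B1 C0 C1 : ℂ[X])
    (hB : B0.eval 0 ≠ 0 ∨ B1.eval 0 ≠ 0) (hC : C0.eval 0 ≠ 0 ∨ C1.eval 0 ≠ 0)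
    (eB : rat (B0.eval 0) (B1.eval 0) = b) (eC : rat (C0.eval 0) (C1.eval 0) = c) :
    ∃ A0 A1 : ℂ[X], (A0.eval 0 ≠ 0 ∨ A1.eval 0 ≠ 0) ∧ rat (A0.eval 0) (A1.eval 0) = a ∧
      qp p.β p.μ B0 B1 * (A0 * C0) = Polynomial.C p.μ * qp p.α p.μ B0 B1 * (A1 * C1) := by
  have hi' := hi
  rw [← eB, ← eC, ind_rat hC hB] at hi
  have hne : (Polynomial.C p.μ * qp p.α p.μ B0 B1 * C1).eval 0 ≠ 0 ∨
      (qp p.β p.μ B0 B1 * C0).eval 0 ≠ 0 := by
    simp only [eval_mul, eval_qp, eval_C]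
    tauto
  refine ⟨Polynomial.C p.μ * qp p.α p.μ B0 B1 * C1, qp p.β p.μ B0 B1 * C0, hne, ?_, by ring⟩
  have h1 := nxt_of_not_ind (z := ∞) h.symm hi'
  simp only [eval_mul, eval_qp, eval_C] at hne ⊢
  rw [← eB, ← eC, nxt_rat_rat _ hne] at h1
  exact h1

open Polynomial in
lemma qp_lin_ne (γ : ℂ) {μ : ℂ} (hμ : μ ≠ 0) (c0 : ℂ) :
    qp γ μ (Polynomial.C c0 + Polynomial.X) 1 ≠ 0 := by
  intro h
  have := congrArg (Polynomial.eval (-c0)) h
  rw [eval_qp] at this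
  simp [qf] at this
  exact hμ this

open Polynomial in
lemma qp_sq (γ μ c0 : ℂ) : qp γ μ (Polynomial.C c0 + Polynomial.X ^ 2) 1 =
    Polynomial.C (qf γ μ c0 1) + Polynomial.X ^ 2 *
      (4 * Polynomial.C c0 ^ 3 + 6 * Polynomial.C c0 ^ 2 * Polynomial.X ^ 2 +
        4 * Polynomial.C c0 * Polynomial.X ^ 4 + Polynomial.X ^ 6 +
        Polynomial.C (γ * μ) * (2 * Polynomial.C c0 + Polynomial.X ^ 2)) := by
  unfold qp qf
  simp only [C_add, C_mul, C_pow, C_1]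
  ring

open Polynomial in
lemma ind_lift (hp : p.Good) {b c : P1} (h : p.Ind b c) (d : P1) :
    ∃ B0 B1 C0 C1 D0 D1 : ℂ[X], B0 ≠ 0 ∧ B1 ≠ 0 ∧ C0 ≠ 0 ∧ C1 ≠ 0 ∧
      (B0.eval 0 ≠ 0 ∨ B1.eval 0 ≠ 0) ∧ (C0.eval 0 ≠ 0 ∨ C1.eval 0 ≠ 0) ∧
      (D0.eval 0 ≠ 0 ∨ D1.eval 0 ≠ 0) ∧
      rat (B0.eval 0) (B1.eval 0) = b ∧ rat (C0.eval 0) (C1.eval 0) = c ∧
      rat (D0.eval 0) (D1.eval 0) = d ∧
      qp p.β p.μ C0 C1 * (B0 * D0) = Polynomial.C p.μ * qp p.α p.μ C0 C1 * (B1 * D1) := by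
  obtain ⟨-, hcx, hcy⟩ := Ind_ne hp h
  have hμ := hp.μ0
  have hnd := hp.num_or_den c
  rw [hp.ind_iff] at h
  induction c using OnePoint.rec with
  | infty => simp at hcy
  | coe c0 =>
  simp only [hx_coe] at hcx
  have hXc : (Polynomial.C c0 + Polynomial.X : ℂ[X]) ≠ 0 := X_add_C_ne_zero' c0
  have hX2 : (Polynomial.C c0 + Polynomial.X ^ 2 : ℂ[X]) ≠ 0 := by
    intro h2
    have := congrArg (Polynomial.eval 0) h2
    simp at this
    exact hcx this
  unfold num den at h hnd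
  simp only [hx_coe, hy_coe] at h hnd
  rcases h with ⟨hb, hn⟩ | ⟨hb, hn⟩
  · have hm : qf p.β p.μ c0 1 ≠ 0 := by tauto
    have eb : b = ((0 : ℂ) : P1) := (hx_eq_zero_iff b).mp hb
    by_cases hd : hx d = 0
    · have ed : d = ((0 : ℂ) : P1) := (hx_eq_zero_iff d).mp hd
      refine ⟨Polynomial.X, 1, Polynomial.C c0 + Polynomial.X ^ 2, 1,
        Polynomial.C p.μ * (Polynomial.X * (4 * Polynomial.C c0 ^ 3 +
          6 * Polynomial.C c0 ^ 2 * Polynomial.X ^ 2 + 4 * Polynomial.C c0 * Polynomial.X ^ 4 +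
          Polynomial.X ^ 6 + Polynomial.C (p.α * p.μ) * (2 * Polynomial.C c0 + Polynomial.X ^ 2))),
        qp p.β p.μ (Polynomial.C c0 + Polynomial.X ^ 2) 1, X_ne_zero, one_ne_zero, hX2,
        one_ne_zero, by simp, by simp, ?_, ?_, ?_, ?_, ?_⟩
      · right
        rw [eval_qp]
        simpa using hm
      · rw [eb]; simp [rat]
      · simp [rat]
      · rw [ed, eval_qp]
        simp [rat, hm]
      · rw [qp_sq p.α, hn, C_0, zero_add]
        ring
    · refine ⟨Polynomial.C p.μ * (Polynomial.C (hy d) + Polynomial.X) *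
        qp p.α p.μ (Polynomial.C c0 + Polynomial.X) 1,
        Polynomial.C (hx d) * qp p.β p.μ (Polynomial.C c0 + Polynomial.X) 1,
        Polynomial.C c0 + Polynomial.X, 1, Polynomial.C (hx d),
        Polynomial.C (hy d) + Polynomial.X, ?_, ?_, hXc, one_ne_zero, ?_, by simp, ?_, ?_, ?_, ?_,
        ?_⟩
      · exact mul_ne_zero (mul_ne_zero (C_ne_zero.mpr hμ) (X_add_C_ne_zero' _))
          (qp_lin_ne _ hμ _)
      · exact mul_ne_zero (C_ne_zero.mpr hd) (qp_lin_ne _ hμ _)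
      · right
        rw [eval_mul, eval_qp]
        simpa using ⟨hd, hm⟩
      · left; simpa using hd
      · rw [eb, eval_mul, eval_mul, eval_mul, eval_qp, eval_qp]
        simp [rat, hn, hd, hm]
      · simp [rat]
      · simp
      · ring
  · have hm : qf p.α p.μ c0 1 ≠ 0 := by tauto
    have eb : b = ∞ := (hy_eq_zero_iff b).mp hb
    by_cases hd : hy d = 0
    · have ed : d = ∞ := (hy_eq_zero_iff d).mp hd
      refine ⟨1, Polynomial.X, Polynomial.C c0 + Polynomial.X ^ 2, 1,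
        Polynomial.C p.μ * qp p.α p.μ (Polynomial.C c0 + Polynomial.X ^ 2) 1,
        (Polynomial.X * (4 * Polynomial.C c0 ^ 3 +
          6 * Polynomial.C c0 ^ 2 * Polynomial.X ^ 2 + 4 * Polynomial.C c0 * Polynomial.X ^ 4 +
          Polynomial.X ^ 6 + Polynomial.C (p.β * p.μ) * (2 * Polynomial.C c0 + Polynomial.X ^ 2))),
        one_ne_zero, X_ne_zero, hX2,
        one_ne_zero, by simp, by simp, ?_, ?_, ?_, ?_, ?_⟩
      · left
        rw [eval_mul, eval_qp]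
        simpa using ⟨hμ, hm⟩
      · rw [eb]; simp [rat]
      · simp [rat]
      · rw [ed]
        simp [rat]
      · rw [qp_sq p.β, hn, C_0, zero_add]
        ring
    · have hd1 : hy d = 1 := by
        induction d using OnePoint.rec with
        | infty => simp at hd
        | coe z => simp
      refine ⟨Polynomial.C p.μ *
        qp p.α p.μ (Polynomial.C c0 + Polynomial.X) 1,
        (Polynomial.C (hx d) + Polynomial.X) * qp p.β p.μ (Polynomial.C c0 + Polynomial.X) 1,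
        Polynomial.C c0 + Polynomial.X, 1, Polynomial.C (hx d) + Polynomial.X,
        1, ?_, ?_, hXc, one_ne_zero, ?_, by simp, ?_, ?_, ?_, ?_,
        ?_⟩
      · exact mul_ne_zero (C_ne_zero.mpr hμ) (qp_lin_ne _ hμ _)
      · exact mul_ne_zero (X_add_C_ne_zero' _) (qp_lin_ne _ hμ _)
      · left
        rw [eval_mul, eval_qp]
        simp [hm, hμ]
      · right; simp
      · rw [eb, eval_mul, eval_mul, eval_qp, eval_qp]
        simp [rat, hn]
      · simp [rat]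
      · have := rat_hxy d
        rw [hd1] at this
        simpa using this
      · ring

lemma cm {a b c d e f : Polynomial ℂ} (h : a * (b * c) = d * (e * f)) :
    a * (c * b) = d * (f * e) := by
  rw [mul_comm c b, mul_comm f e]; exact h

/-- A Zariski closed set containing the part of `X` over the torus contains `X`. -/
theorem dense_torus (hp : p.Good) (hq : q.Good) (hpq : Disj p q) {Z : Set (Pt 6)}
    (hZ : IsZariskiClosed Z)
    (hU : ∀ x ∈ surfX p q, hx (x 1) ≠ 0 → hy (x 1) ≠ 0 → hx (x 2) ≠ 0 → hy (x 2) ≠ 0 → x ∈ Z) :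
    surfX p q ⊆ Z := by
  intro x hx'
  obtain ⟨k1, k2, k3, k4⟩ := hx'
  -- the exclusivity statements
  have ex1 : p.Ind (x 1) (x 2) → ¬ p.Ind (x 2) (x 1) ∧ ¬ q.Ind (x 1) (x 2) ∧
      ¬ q.Ind (x 2) (x 1) := by
    intro h
    have g1 := Ind_ne hp h
    refine ⟨fun h2 => ?_, fun h2 => ?_, fun h2 => ?_⟩
    · have g2 := Ind_ne hp h2
      rcases g1.1 with g | g
      · exact g2.2.1 g
      · exact g2.2.2 g
    · exact (hp.not_ind_of_ind hq hpq h2).2 h
    · have g2 := Ind_ne hq h2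
      rcases g1.1 with g | g
      · exact g2.2.1 g
      · exact g2.2.2 g
  have ex2 : p.Ind (x 2) (x 1) → ¬ p.Ind (x 1) (x 2) ∧ ¬ q.Ind (x 1) (x 2) ∧
      ¬ q.Ind (x 2) (x 1) := by
    intro h
    have g1 := Ind_ne hp h
    refine ⟨fun h2 => ?_, fun h2 => ?_, fun h2 => ?_⟩
    · exact (ex1 h2).1 h
    · have g2 := Ind_ne hq h2
      rcases g1.1 with g | g
      · exact g2.2.1 g
      · exact g2.2.2 g
    · exact (hp.not_ind_of_ind hq hpq h2).2 h
  have ex3 : q.Ind (x 1) (x 2) → ¬ q.Ind (x 2) (x 1) := by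
    intro h h2
    have g1 := Ind_ne hq h
    have g2 := Ind_ne hq h2
    rcases g1.1 with g | g
    · exact g2.2.1 g
    · exact g2.2.2 g
  -- the final step
  have fin : ∀ P Q : Fin 6 → Polynomial ℂ, (∀ i, rat ((P i).eval 0) ((Q i).eval 0) = x i) →
      (∀ i, (P i).eval 0 ≠ 0 ∨ (Q i).eval 0 ≠ 0) →
      (qp p.β p.μ (P 1) (Q 1) * (P 0 * P 2) =
        Polynomial.C p.μ * qp p.α p.μ (P 1) (Q 1) * (Q 0 * Q 2)) →
      (qp p.β p.μ (P 2) (Q 2) * (P 1 * P 3) =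
        Polynomial.C p.μ * qp p.α p.μ (P 2) (Q 2) * (Q 1 * Q 3)) →
      (qp q.β q.μ (P 1) (Q 1) * (P 4 * P 2) =
        Polynomial.C q.μ * qp q.α q.μ (P 1) (Q 1) * (Q 4 * Q 2)) →
      (qp q.β q.μ (P 2) (Q 2) * (P 1 * P 5) =
        Polynomial.C q.μ * qp q.α q.μ (P 2) (Q 2) * (Q 1 * Q 5)) →
      P 1 ≠ 0 → Q 1 ≠ 0 → P 2 ≠ 0 → Q 2 ≠ 0 → x ∈ Z := by
    intro P Q e h0 r1 r2 r3 r4 n1 n2 n3 n4
    have := mem_of_germ hZ hU P Q h0 r1 r2 r3 r4 n1 n2 n3 n4
    rwa [funext e] at this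
  by_cases i1 : p.Ind (x 1) (x 2)
  · obtain ⟨j1, j2, j3⟩ := ex1 i1
    obtain ⟨B0, B1, C0, C1, D0, D1, b0, b1, c0, c1, nB, nC, nD, eB, eC, eD, hr⟩ :=
      ind_lift hp i1 (x 3)
    obtain ⟨A0, A1, nA, eA, rA⟩ := exists_lift k1 j1 B0 B1 C0 C1 nB nC eB eC
    obtain ⟨A0', A1', nA', eA', rA'⟩ := exists_lift k3 j3 B0 B1 C0 C1 nB nC eB eC
    obtain ⟨D0', D1', nD', eD', rD'⟩ := exists_lift k4.symm j2 C0 C1 B0 B1 nC nB eC eB
    refine fin ![A0, B0, C0, D0, A0', D0'] ![A1, B1, C1, D1, A1', D1'] ?_ ?_ rA hr rA'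
      (cm rD') b0 b1 c0 c1
    · intro i; fin_cases i
      · exact eA
      · exact eB
      · exact eC
      · exact eD
      · exact eA'
      · exact eD'
    · intro i; fin_cases i
      · exact nA
      · exact nB
      · exact nC
      · exact nD
      · exact nA'
      · exact nD'
  by_cases i2 : p.Ind (x 2) (x 1)
  · obtain ⟨j1, j2, j3⟩ := ex2 i2
    obtain ⟨C0, C1, B0, B1, A0, A1, c0, c1, b0, b1, nC, nB, nA, eC, eB, eA, hr⟩ :=
      ind_lift hp i2 (x 0)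
    obtain ⟨D0, D1, nD, eD, rD⟩ := exists_lift k2.symm i1 C0 C1 B0 B1 nC nB eC eB
    obtain ⟨A0', A1', nA', eA', rA'⟩ := exists_lift k3 j3 B0 B1 C0 C1 nB nC eB eC
    obtain ⟨D0', D1', nD', eD', rD'⟩ := exists_lift k4.symm j2 C0 C1 B0 B1 nC nB eC eB
    refine fin ![A0, B0, C0, D0, A0', D0'] ![A1, B1, C1, D1, A1', D1'] ?_ ?_
      (cm hr)
      (cm rD) rA'
      (cm rD') b0 b1 c0 c1
    · intro i; fin_cases i
      · exact eA
      · exact eB
      · exact eC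
      · exact eD
      · exact eA'
      · exact eD'
    · intro i; fin_cases i
      · exact nA
      · exact nB
      · exact nC
      · exact nD
      · exact nA'
      · exact nD'
  by_cases i3 : q.Ind (x 1) (x 2)
  · have j3 := ex3 i3
    obtain ⟨B0, B1, C0, C1, D0', D1', b0, b1, c0, c1, nB, nC, nD', eB, eC, eD', hr⟩ :=
      ind_lift hq i3 (x 5)
    obtain ⟨A0, A1, nA, eA, rA⟩ := exists_lift k1 i2 B0 B1 C0 C1 nB nC eB eC
    obtain ⟨A0', A1', nA', eA', rA'⟩ := exists_lift k3 j3 B0 B1 C0 C1 nB nC eB eC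
    obtain ⟨D0, D1, nD, eD, rD⟩ := exists_lift k2.symm i1 C0 C1 B0 B1 nC nB eC eB
    refine fin ![A0, B0, C0, D0, A0', D0'] ![A1, B1, C1, D1, A1', D1'] ?_ ?_ rA
      (cm rD) rA' hr b0 b1 c0 c1
    · intro i; fin_cases i
      · exact eA
      · exact eB
      · exact eC
      · exact eD
      · exact eA'
      · exact eD'
    · intro i; fin_cases i
      · exact nA
      · exact nB
      · exact nC
      · exact nD
      · exact nA'
      · exact nD'
  by_cases i4 : q.Ind (x 2) (x 1)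
  · obtain ⟨C0, C1, B0, B1, A0', A1', c0, c1, b0, b1, nC, nB, nA', eC, eB, eA', hr⟩ :=
      ind_lift hq i4 (x 4)
    obtain ⟨A0, A1, nA, eA, rA⟩ := exists_lift k1 i2 B0 B1 C0 C1 nB nC eB eC
    obtain ⟨D0, D1, nD, eD, rD⟩ := exists_lift k2.symm i1 C0 C1 B0 B1 nC nB eC eB
    obtain ⟨D0', D1', nD', eD', rD'⟩ := exists_lift k4.symm i3 C0 C1 B0 B1 nC nB eC eB
    refine fin ![A0, B0, C0, D0, A0', D0'] ![A1, B1, C1, D1, A1', D1'] ?_ ?_ rA
      (cm rD)
      (cm hr)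
      (cm rD') b0 b1 c0 c1
    · intro i; fin_cases i
      · exact eA
      · exact eB
      · exact eC
      · exact eD
      · exact eA'
      · exact eD'
    · intro i; fin_cases i
      · exact nA
      · exact nB
      · exact nC
      · exact nD
      · exact nA'
      · exact nD'
  -- generic case
  have gl : ∀ b : P1, ∃ B0 B1 : Polynomial ℂ, B0 ≠ 0 ∧ B1 ≠ 0 ∧
      (B0.eval 0 ≠ 0 ∨ B1.eval 0 ≠ 0) ∧ rat (B0.eval 0) (B1.eval 0) = b := by
    intro b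
    induction b using OnePoint.rec with
    | infty => exact ⟨1, Polynomial.X, one_ne_zero, Polynomial.X_ne_zero, by simp, by simp [rat]⟩
    | coe z => exact ⟨Polynomial.C z + Polynomial.X, 1, X_add_C_ne_zero' z, one_ne_zero, by simp,
        by simp [rat]⟩
  obtain ⟨B0, B1, b0, b1, nB, eB⟩ := gl (x 1)
  obtain ⟨C0, C1, c0, c1, nC, eC⟩ := gl (x 2)
  obtain ⟨A0, A1, nA, eA, rA⟩ := exists_lift k1 i2 B0 B1 C0 C1 nB nC eB eC
  obtain ⟨D0, D1, nD, eD, rD⟩ := exists_lift k2.symm i1 C0 C1 B0 B1 nC nB eC eB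
  obtain ⟨A0', A1', nA', eA', rA'⟩ := exists_lift k3 i4 B0 B1 C0 C1 nB nC eB eC
  obtain ⟨D0', D1', nD', eD', rD'⟩ := exists_lift k4.symm i3 C0 C1 B0 B1 nC nB eC eB
  refine fin ![A0, B0, C0, D0, A0', D0'] ![A1, B1, C1, D1, A1', D1'] ?_ ?_ rA
    (cm rD) rA'
    (cm rD') b0 b1 c0 c1
  · intro i; fin_cases i
    · exact eA
    · exact eB
    · exact eC
    · exact eD
    · exact eA'
    · exact eD'
  · intro i; fin_cases i
    · exact nA
    · exact nB
    · exact nC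
    · exact nD
    · exact nA'
    · exact nD'

end Par

end Run7.h904
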