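import Pool.Agent.Run7.h904.Irr

/-! Irreducibility of the surface. -/

open OnePoint MvPolynomial

namespace Run7.h904

/-- `X` is irreducible for the Zariski topology. -/
def IsIrred {n : ℕ} (X : Set (Pt n)) : Prop :=
  X.Nonempty ∧ ∀ Z₁ Z₂ : Set (Pt n), IsZariskiClosed Z₁ → IsZariskiClosed Z₂ →
    X ⊆ Z₁ ∪ Z₂ → X ⊆ Z₁ ∨ X ⊆ Z₂

/-- A set of points of `X` is Zariski dense in `X`. -/
def IsZariskiDense {n : ℕ} (X S : Set (Pt n)) : Prop :=
  ∀ Z : Set (Pt n), IsZariskiClosed Z → S ⊆ Z → X ⊆ Z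

/-- first homogeneous coordinates of the torus point `(b,c)` -/
noncomputable def tP (p q : Par) (b c : ℂ) : Fin 6 → ℂ :=
  ![p.μ * qf p.α p.μ b 1, b, c, p.μ * qf p.α p.μ c 1, q.μ * qf q.α q.μ b 1,
    q.μ * qf q.α q.μ c 1]

/-- second homogeneous coordinates of the torus point `(b,c)` -/
noncomputable def tQ (p q : Par) (b c : ℂ) : Fin 6 → ℂ :=
  ![qf p.β p.μ b 1 * c, 1, 1, qf p.β p.μ c 1 * b, qf q.β q.μ b 1 * c, qf q.β q.μ c 1 * b]

/-- polynomial version of `qf γ μ x 1` -/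
noncomputable def qv (γ μ : ℂ) (i : Fin 2) : MvPolynomial (Fin 2) ℂ :=
  X i ^ 4 + C (γ * μ) * X i ^ 2 + C (μ ^ 2)

/-- polynomial version of `tP` -/
noncomputable def tPv (p q : Par) : Fin 6 → MvPolynomial (Fin 2) ℂ :=
  ![C p.μ * qv p.α p.μ 0, X 0, X 1, C p.μ * qv p.α p.μ 1, C q.μ * qv q.α q.μ 0,
    C q.μ * qv q.α q.μ 1]

/-- polynomial version of `tQ` -/
noncomputable def tQv (p q : Par) : Fin 6 → MvPolynomial (Fin 2) ℂ :=
  ![qv p.β p.μ 0 * X 1, 1, 1, qv p.β p.μ 1 * X 0, qv q.β q.μ 0 * X 1, qv q.β q.μ 1 * X 0]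

lemma eval_tPv (p q : Par) (v : Fin 2 → ℂ) (i : Fin 6) :
    MvPolynomial.eval v (tPv p q i) = tP p q (v 0) (v 1) i := by
  fin_cases i <;> simp [tPv, tP, qv, qf]

lemma eval_tQv (p q : Par) (v : Fin 2 → ℂ) (i : Fin 6) :
    MvPolynomial.eval v (tQv p q i) = tQ p q (v 0) (v 1) i := by
  fin_cases i <;> simp [tQv, tQ, qv, qf]

namespace Par

variable {p q : Par}

lemma Good.nm (hp : p.Good) (t : ℂ) : qf p.α p.μ t 1 ≠ 0 ∨ qf p.β p.μ t 1 ≠ 0 := by
  have := hp.num_or_den (t : P1)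
  simpa [num, den] using this

lemma tPQ_ne (hp : p.Good) (hq : q.Good) {b c : ℂ} (hb : b ≠ 0) (hc : c ≠ 0) (i : Fin 6) :
    tP p q b c i ≠ 0 ∨ tQ p q b c i ≠ 0 := by
  have h1 := hp.nm b
  have h2 := hp.nm c
  have h3 := hq.nm b
  have h4 := hq.nm c
  have h5 := hp.μ0
  have h6 := hq.μ0
  fin_cases i
  · show p.μ * qf p.α p.μ b 1 ≠ 0 ∨ qf p.β p.μ b 1 * c ≠ 0
    simp only [ne_eq, mul_eq_zero, not_or] at *; tauto
  · right; exact one_ne_zero
  · right; exact one_ne_zero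
  · show p.μ * qf p.α p.μ c 1 ≠ 0 ∨ qf p.β p.μ c 1 * b ≠ 0
    simp only [ne_eq, mul_eq_zero, not_or] at *; tauto
  · show q.μ * qf q.α q.μ b 1 ≠ 0 ∨ qf q.β q.μ b 1 * c ≠ 0
    simp only [ne_eq, mul_eq_zero, not_or] at *; tauto
  · show q.μ * qf q.α q.μ c 1 ≠ 0 ∨ qf q.β q.μ c 1 * b ≠ 0
    simp only [ne_eq, mul_eq_zero, not_or] at *; tauto

/-- the torus point `(b,c)` of `X` -/
noncomputable def tor (p q : Par) (b c : ℂ) : Pt 6 := fun i => rat (tP p q b c i) (tQ p q b c i)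

lemma tor_mem (hp : p.Good) (hq : q.Good) {b c : ℂ} (hb : b ≠ 0) (hc : c ≠ 0) :
    tor p q b c ∈ surfX p q := by
  have hne := tPQ_ne hp hq hb hc
  refine ⟨?_, ?_, ?_, ?_⟩
  · exact (rel_rat (hne 0) (hne 1) (hne 2)).mpr (by simp [tP, tQ]; ring)
  · exact (rel_rat (hne 1) (hne 2) (hne 3)).mpr (by simp [tP, tQ]; ring)
  · exact (rel_rat (hne 4) (hne 1) (hne 2)).mpr (by simp [tP, tQ]; ring)
  · exact (rel_rat (hne 1) (hne 2) (hne 5)).mpr (by simp [tP, tQ]; ring)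

lemma not_ind_coe (hp : p.Good) {b c : ℂ} (hc : c ≠ 0) :
    ¬ p.Ind (c : P1) (b : P1) := by
  rw [hp.ind_iff]
  simp [hc]

lemma eq_tor (hp : p.Good) (hq : q.Good) {x : Pt 6} (hx' : x ∈ surfX p q) {b c : ℂ} (hb : b ≠ 0)
    (hc : c ≠ 0) (eb : x 1 = (b : P1)) (ec : x 2 = (c : P1)) : x = tor p q b c := by
  obtain ⟨k1, k2, k3, k4⟩ := hx'
  rw [eb, ec] at k1 k3
  rw [eb, ec] at k2 k4
  have hne := tPQ_ne hp hq hb hc
  funext i
  fin_cases i
  · have := nxt_of_not_ind (z := ∞) k1.symm (not_ind_coe hp hc)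
    rw [coe_eq_rat c, coe_eq_rat b, nxt_rat_rat _ (by simpa [tP, tQ] using hne 0)] at this
    show x 0 = _
    rw [← this]
    simp [tor, tP, tQ]
  · show x 1 = _
    rw [eb]; simp [tor, tP, tQ, coe_eq_rat]
  · show x 2 = _
    rw [ec]; simp [tor, tP, tQ, coe_eq_rat]
  · have := nxt_of_not_ind (z := ∞) k2 (not_ind_coe hp hb)
    rw [coe_eq_rat c, coe_eq_rat b, nxt_rat_rat _ (by simpa [tP, tQ] using hne 3)] at this
    show x 3 = _
    rw [← this]
    simp [tor, tP, tQ]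
  · have := nxt_of_not_ind (z := ∞) k3.symm (not_ind_coe hq hc)
    rw [coe_eq_rat c, coe_eq_rat b, nxt_rat_rat _ (by simpa [tP, tQ] using hne 4)] at this
    show x 4 = _
    rw [← this]
    simp [tor, tP, tQ]
  · have := nxt_of_not_ind (z := ∞) k4 (not_ind_coe hq hb)
    rw [coe_eq_rat c, coe_eq_rat b, nxt_rat_rat _ (by simpa [tP, tQ] using hne 5)] at this
    show x 5 = _
    rw [← this]
    simp [tor, tP, tQ]

/-- restriction of a form to the torus -/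
lemma exists_poly (hp : p.Good) (hq : q.Good) {m : Fin 6 → ℕ}
    {G : MvPolynomial (Fin 6 ⊕ Fin 6) ℂ} (hG : IsForm m G) :
    ∃ g : MvPolynomial (Fin 2) ℂ, ∀ b c : ℂ, b ≠ 0 → c ≠ 0 →
      (MvPolynomial.eval ![b, c] g = 0 ↔ val G (tor p q b c) = 0) := by
  refine ⟨MvPolynomial.eval₂ MvPolynomial.C (Sum.elim (tPv p q) (tQv p q)) G, ?_⟩
  intro b c hb hc
  have h1 : (MvPolynomial.eval ![b, c])
      (MvPolynomial.eval₂ MvPolynomial.C (Sum.elim (tPv p q) (tQv p q)) G) =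
      MvPolynomial.eval₂ ((MvPolynomial.eval ![b, c]).comp MvPolynomial.C)
        ((MvPolynomial.eval ![b, c]) ∘ (Sum.elim (tPv p q) (tQv p q))) G :=
    MvPolynomial.eval₂_comp_left (MvPolynomial.eval ![b, c]) MvPolynomial.C _ G
  have h2 : (MvPolynomial.eval ![b, c]).comp
      (MvPolynomial.C : ℂ →+* MvPolynomial (Fin 2) ℂ) = RingHom.id ℂ := by
    ext x; simp
  have h3 : ((MvPolynomial.eval ![b, c]) ∘ (Sum.elim (tPv p q) (tQv p q))) =
      Sum.elim (tP p q b c) (tQ p q b c) := by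
    funext i
    cases i with
    | inl i => exact eval_tPv p q ![b, c] i
    | inr i => exact eval_tQv p q ![b, c] i
  rw [h2, h3] at h1
  rw [h1]
  exact eval_form hG _ _ (tPQ_ne hp hq hb hc)

theorem isIrred_surfX (hp : p.Good) (hq : q.Good) (hpq : Disj p q) : IsIrred (surfX p q) := by
  refine ⟨⟨_, tor_mem hp hq one_ne_zero one_ne_zero⟩, ?_⟩
  intro Z₁ Z₂ h1 h2 hsub
  by_contra hcon
  push Not at hcon
  obtain ⟨n1, n2⟩ := hcon
  have key : ∀ Z : Set (Pt 6), IsZariskiClosed Z → ¬ surfX p q ⊆ Z →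
      ∃ (g : MvPolynomial (Fin 2) ℂ), g ≠ 0 ∧ ∀ b c : ℂ, b ≠ 0 → c ≠ 0 → tor p q b c ∈ Z →
        MvPolynomial.eval ![b, c] g = 0 := by
    intro Z hZ hn
    have : ∃ x ∈ surfX p q, hx (x 1) ≠ 0 ∧ hy (x 1) ≠ 0 ∧ hx (x 2) ≠ 0 ∧ hy (x 2) ≠ 0 ∧
        x ∉ Z := by
      by_contra hcon
      push Not at hcon
      exact hn (dense_torus hp hq hpq hZ fun x hx' a b c d => hcon x hx' a b c d)
    obtain ⟨x, hxX, a1, a2, a3, a4, hxZ⟩ := this
    obtain ⟨b, eb⟩ : ∃ b : ℂ, x 1 = (b : P1) := by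
      generalize x 1 = P at *
      induction P using OnePoint.rec with
      | infty => simp at a2
      | coe z => exact ⟨z, rfl⟩
    obtain ⟨c, ec⟩ : ∃ c : ℂ, x 2 = (c : P1) := by
      generalize x 2 = P at *
      induction P using OnePoint.rec with
      | infty => simp at a4
      | coe z => exact ⟨z, rfl⟩
    rw [eb, hx_coe] at a1
    rw [ec, hx_coe] at a3
    have ex := eq_tor hp hq hxX a1 a3 eb ec
    obtain ⟨I, hI, hZI⟩ := hZ
    rw [hZI] at hxZ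
    simp only [Set.mem_ofPred_eq, not_forall] at hxZ
    obtain ⟨G, hG, hGx⟩ := hxZ
    obtain ⟨m, hm⟩ := hI G hG
    obtain ⟨g, hg⟩ := exists_poly hp hq hm
    refine ⟨g, ?_, ?_⟩
    · rintro rfl
      apply hGx
      rw [ex]
      exact (hg b c a1 a3).mp (by simp)
    · intro b' c' hb' hc' hmem
      rw [hZI] at hmem
      exact (hg b' c' hb' hc').mpr (hmem G hG)
  obtain ⟨g1, g10, hg1⟩ := key Z₁ h1 n1
  obtain ⟨g2, g20, hg2⟩ := key Z₂ h2 n2
  have hprod : g1 * g2 * (X 0 * X 1) = 0 := by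
    apply MvPolynomial.funext
    intro v
    rw [map_zero, map_mul, map_mul, map_mul, MvPolynomial.eval_X, MvPolynomial.eval_X]
    by_cases hb : v 0 = 0
    · rw [hb]; ring
    by_cases hc : v 1 = 0
    · rw [hc]; ring
    have ev : v = ![v 0, v 1] := by ext i; fin_cases i <;> rfl
    rcases hsub (tor_mem hp hq hb hc) with h | h
    · have := hg1 _ _ hb hc h
      rw [← ev] at this
      rw [this]; ring
    · have := hg2 _ _ hb hc h
      rw [← ev] at this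
      rw [this]; ring
  rcases mul_eq_zero.mp hprod with h | h
  · rcases mul_eq_zero.mp h with h | h
    · exact g10 h
    · exact g20 h
  · rcases mul_eq_zero.mp h with h | h
    · exact X_ne_zero (R := ℂ) (0 : Fin 2) h
    · exact X_ne_zero (R := ℂ) (1 : Fin 2) h

/-- the boundary is closed -/
lemma closed_bd : IsZariskiClosed {x : Pt 6 | hx (x 1) * hy (x 1) * (hx (x 2) * hy (x 2)) = 0} := by
  refine ⟨{X (Sum.inl 1) * X (Sum.inr 1) * (X (Sum.inl 2) * X (Sum.inr 2))}, ?_, ?_⟩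
  · intro G hG
    rw [Set.mem_singleton_iff] at hG
    subst hG
    refine ⟨![0, 2, 2, 0, 0, 0], ?_⟩
    intro c s t
    simp [Fin.prod_univ_six]
    ring
  · ext x
    simp only [Set.mem_ofPred_eq, Set.mem_singleton_iff, forall_eq]
    simp [val]

lemma not_subset_bd (hp : p.Good) (hq : q.Good) :
    ¬ surfX p q ⊆ {x : Pt 6 | hx (x 1) * hy (x 1) * (hx (x 2) * hy (x 2)) = 0} := by
  intro h
  have := h (tor_mem hp hq one_ne_zero one_ne_zero)
  simp [tor, tP, tQ, rat] at this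

end Par

end Run7.h904
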