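import Pool.Agent.Run7.h904.Deg

/-! Exponential degree growth of the two automorphisms. -/

open OnePoint Polynomial

namespace Run7.h904

/-- `γ` is a (parametrised) rational curve on `X`: its coordinates are rational functions. -/
def IsRationalCurve {n : ℕ} {X : Set (Pt n)} (γ : ℂ → X) : Prop :=
  ∀ j, ∃ P Q : ℂ[X], (∀ t, P.eval t ≠ 0 ∨ Q.eval t ≠ 0) ∧
    ∀ t, (γ t).1 j = rat (P.eval t) (Q.eval t)

/-- The degrees of the iterates of `f` grow exponentially: along some rational curve `γ`, the degree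
of some coordinate of `f^k ∘ γ`, as a rational function of the parameter, is at least `ε c^k` with
`ε > 0`, `c > 1`. -/
def IsLoxodromic {n : ℕ} (X : Set (Pt n)) (f : Equiv.Perm X) : Prop :=
  ∃ (γ : ℂ → X) (i : Fin n) (ε c : ℝ), IsRationalCurve γ ∧ 0 < ε ∧ 1 < c ∧
    ∀ k : ℕ, ∃ P Q : ℂ[X], IsCoprime P Q ∧
      {t : ℂ | ((f ^ k) (γ t)).1 i ≠ rat (P.eval t) (Q.eval t)}.Finite ∧
      ε * c ^ k ≤ (max P.natDegree Q.natDegree : ℕ)

namespace Par

variable {p q : Par}

/-- the orbit of the point of the exceptional curve -/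
noncomputable def US (p : Par) (ζ t : ℂ) : ℕ → P1
  | 0 => (t : P1)
  | 1 => (ζ : P1)
  | 2 => ((0 : ℂ) : P1)
  | 3 => ((p.μ / ζ : ℂ) : P1)
  | (n + 4) => p.nxt (US p ζ t (n + 2)) (US p ζ t (n + 3)) (US p ζ t n)

lemma Good.exists_root (hp : p.Good) : ∃ ζ : ℂ, p.Nn ζ = 0 ∧ ζ ≠ 0 := by
  have h : (X ^ 4 + (C (p.α * p.μ) * X ^ 2 + C (p.μ ^ 2)) : ℂ[X]).degree ≠ 0 := by
    have h1 : (C (p.α * p.μ) * X ^ 2 + C (p.μ ^ 2) : ℂ[X]).degree < (X ^ 4 : ℂ[X]).degree := by
      rw [degree_X_pow]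
      refine (degree_add_le _ _).trans_lt ?_
      rw [max_lt_iff]
      constructor
      · exact (degree_C_mul_X_pow_le _ _).trans_lt (by norm_num)
      · exact degree_C_le.trans_lt (by norm_num)
    rw [degree_add_eq_left_of_degree_lt h1, degree_X_pow]
    norm_num
  obtain ⟨ζ, hζ⟩ := IsAlgClosed.exists_root _ h
  have e : p.Nn ζ = 0 := by
    have := hζ
    simp only [IsRoot, eval_add, eval_mul, eval_pow, eval_X, eval_C] at this
    unfold Nn qf
    linear_combination this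
  refine ⟨ζ, e, ?_⟩
  rintro rfl
  exact hp.Nn_zero e

lemma US4 (hp : p.Good) {ζ t : ℂ} (hζ : p.Nn ζ = 0) (h0 : ζ ≠ 0) : US p ζ t 4 = (t : P1) := by
  show p.nxt ((0 : ℂ) : P1) ((p.μ / ζ : ℂ) : P1) (t : P1) = _
  apply nxt_of_ind
  rw [hp.ind_iff]
  left
  refine ⟨by simp, ?_⟩
  have : p.Nn (p.μ / ζ) = 0 := by rw [Nn_inv h0, hζ, mul_zero]
  unfold num
  simpa [Nn] using this

lemma US_finite (hp : p.Good) {ζ : ℂ} (hζ : p.Nn ζ = 0) (h0 : ζ ≠ 0) :
    ∃ v : ℕ → RF, (∀ n, 3 ^ n ≤ (v (n + 1)).deg) ∧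
      ∀ n, {t : ℂ | US p ζ t (n + 3) ≠ (v n).at t}.Finite := by
  have hk : p.μ / ζ ≠ 0 := div_ne_zero hp.μ0 h0
  obtain ⟨v, h1, h2, h3, h4, h5, h6, h7, h8, h9⟩ := exists_seq hp hk
  refine ⟨v, ?_, ?_⟩
  · intro n
    induction n with
    | zero => rw [h7]; simp
    | succ n ih =>
      have := h5 (n + 1)
      rw [pow_succ]
      omega
  · have key : ∀ n, {t : ℂ | US p ζ t (n + 3) ≠ (v n).at t}.Finite ∧
        {t : ℂ | US p ζ t (n + 1 + 3) ≠ (v (n + 1)).at t}.Finite := by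
      intro n
      induction n with
      | zero =>
        constructor
        · convert Set.finite_empty
          ext t
          simp only [Set.mem_setOf_eq, Set.mem_empty_iff_false, iff_false, not_not]
          show ((p.μ / ζ : ℂ) : P1) = rat _ _
          rw [h1, h2]
          simp [rat]
        · convert Set.finite_empty
          ext t
          simp only [Set.mem_setOf_eq, Set.mem_empty_iff_false, iff_false, not_not]
          show US p ζ t 4 = rat ((v 1).P.eval t) ((v 1).Q.eval t)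
          rw [US4 hp hζ h0, h3, h4]
          simp [rat]
      | succ n ih =>
        refine ⟨ih.2, ?_⟩
        obtain ⟨g, hg, e1, e2⟩ := h9 n
        have hfin : {t : ℂ | g.eval t = 0}.Finite := by
          have : {t : ℂ | g.eval t = 0} ⊆ (g.roots.toFinset : Set ℂ) := by
            intro t ht
            simp only [Finset.mem_coe, Multiset.mem_toFinset, mem_roots hg]
            exact ht
          exact (Finset.finite_toSet _).subset this
        refine ((ih.1.union ih.2).union hfin).subset ?_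
        intro t ht
        by_contra hcon
        simp only [Set.mem_union, Set.mem_setOf_eq, not_or, not_not] at hcon
        obtain ⟨⟨i1, i2⟩, i3⟩ := hcon
        apply ht
        show p.nxt (US p ζ t (n + 3)) (US p ζ t (n + 1 + 3)) (US p ζ t (n + 1)) = _
        rw [i1, i2]
        have e1' := congrArg (Polynomial.eval t) e1
        have e2' := congrArg (Polynomial.eval t) e2
        simp only [eval_mul, eval_C, eval_qp] at e1' e2'
        have hne := (v (n + 2)).eval_ne t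
        unfold RF.at
        rw [nxt_rat_rat]
        · rw [e1', e2', rat_smul i3]
        · rw [e1', e2']
          rcases hne with h | h
          · left; exact mul_ne_zero i3 h
          · right; exact mul_ne_zero i3 h
    exact fun n => (key n).1

/-- the exceptional curve over `(ζ, 0)` -/
noncomputable def Good.curve (hp : p.Good) (hq : q.Good) {ζ : ℂ} (hζ : p.Nn ζ = 0) (h0 : ζ ≠ 0)
    (t : ℂ) : surfX p q :=
  ⟨![(t : P1), (ζ : P1), ((0 : ℂ) : P1), ((p.μ / ζ : ℂ) : P1), ∞, ((q.μ / ζ : ℂ) : P1)], by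
    have hn : p.num (ζ : P1) = 0 := hζ
    have hμ := hp.μ0
    have hμ' := hq.μ0
    refine ⟨?_, ?_, ?_, ?_⟩
    · show p.Rel (t : P1) (ζ : P1) ((0 : ℂ) : P1)
      unfold Rel
      rw [hn]
      simp
    · show p.Rel (ζ : P1) ((0 : ℂ) : P1) ((p.μ / ζ : ℂ) : P1)
      unfold Rel den num qf
      simp only [hx_coe, hy_coe]
      field_simp
      ring
    · show q.Rel ∞ (ζ : P1) ((0 : ℂ) : P1)
      unfold Rel
      simp
    · show q.Rel (ζ : P1) ((0 : ℂ) : P1) ((q.μ / ζ : ℂ) : P1)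
      unfold Rel den num qf
      simp only [hx_coe, hy_coe]
      field_simp
      ring⟩

lemma fX_pow_curve (hp : p.Good) (hq : q.Good) (hpq : Disj p q) {ζ : ℂ} (hζ : p.Nn ζ = 0)
    (h0 : ζ ≠ 0) (t : ℂ) (k : ℕ) :
    ((hp.fX hq hpq ^ k) (hp.curve hq hζ h0 t)).1 0 = US p ζ t (4 * k) ∧
    ((hp.fX hq hpq ^ k) (hp.curve hq hζ h0 t)).1 1 = US p ζ t (4 * k + 1) ∧
    ((hp.fX hq hpq ^ k) (hp.curve hq hζ h0 t)).1 2 = US p ζ t (4 * k + 2) ∧
    ((hp.fX hq hpq ^ k) (hp.curve hq hζ h0 t)).1 3 = US p ζ t (4 * k + 3) := by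
  induction k with
  | zero => exact ⟨rfl, rfl, rfl, rfl⟩
  | succ k ih =>
    obtain ⟨i0, i1, i2, i3⟩ := ih
    rw [pow_succ']
    set x := (hp.fX hq hpq ^ k) (hp.curve hq hζ h0 t)
    have e : (hp.fX hq hpq * hp.fX hq hpq ^ k) (hp.curve hq hζ h0 t) = hp.fX hq hpq x := rfl
    rw [e]
    have e3 : p.u3 (x.1 0) (x.1 1) (x.1 2) (x.1 3) = US p ζ t (4 * k + 4) := by
      rw [i0, i1, i2, i3]; rfl
    have e4 : p.u4 (x.1 0) (x.1 1) (x.1 2) (x.1 3) = US p ζ t (4 * k + 5) := by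
      unfold u4
      rw [e3, i1, i3]; rfl
    have e5 : p.u5 (x.1 0) (x.1 1) (x.1 2) (x.1 3) = US p ζ t (4 * k + 6) := by
      unfold u5
      rw [e3, e4, i2]; rfl
    have e6 : p.u6 (x.1 0) (x.1 1) (x.1 2) (x.1 3) = US p ζ t (4 * k + 7) := by
      unfold u6
      rw [e4, e5, i3]; rfl
    exact ⟨e3, e4, e5, e6⟩

lemma isRationalCurve_curve (hp : p.Good) (hq : q.Good) {ζ : ℂ} (hζ : p.Nn ζ = 0) (h0 : ζ ≠ 0) :
    IsRationalCurve (hp.curve hq hζ h0) := by
  have hc : ∀ a : ℂ, ∃ P Q : ℂ[X], (∀ t, P.eval t ≠ 0 ∨ Q.eval t ≠ 0) ∧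
      ∀ t : ℂ, (a : P1) = rat (P.eval t) (Q.eval t) := fun a =>
    ⟨C a, 1, fun t => by simp, fun t => by simp [rat]⟩
  intro j
  fin_cases j
  · exact ⟨X, 1, fun t => by simp, fun t => by
      show (t : P1) = _
      simp [rat]⟩
  · exact hc ζ
  · exact hc 0
  · exact hc _
  · exact ⟨1, 0, fun t => by simp, fun t => by
      show (∞ : P1) = _
      simp [rat]⟩
  · exact hc _

theorem Good.lox_fX (hp : p.Good) (hq : q.Good) (hpq : Disj p q) :
    IsLoxodromic (surfX p q) (hp.fX hq hpq) := by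
  obtain ⟨ζ, hζ, h0⟩ := hp.exists_root
  obtain ⟨v, hdeg, hfin⟩ := US_finite hp hζ h0
  refine ⟨hp.curve hq hζ h0, 0, 1 / 81, 81, isRationalCurve_curve hp hq hζ h0, by norm_num,
    by norm_num, ?_⟩
  intro k
  rcases k with _ | k
  · refine ⟨(v 1).P, (v 1).Q, (v 1).cop, ?_, ?_⟩
    · have := hfin 1
      convert this using 3 with t
      rw [(fX_pow_curve hp hq hpq hζ h0 t 0).1]
      have e : US p ζ t (1 + 3) = (t : P1) := US4 hp hζ h0
      rw [e]
      rfl
    · have h1 := hdeg 0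
      have h2 : (1 : ℝ) ≤ ((max (v 1).P.natDegree (v 1).Q.natDegree : ℕ) : ℝ) := by
        exact_mod_cast h1
      simp only [pow_zero, mul_one]
      linarith
  · refine ⟨(v (4 * k + 1)).P, (v (4 * k + 1)).Q, (v (4 * k + 1)).cop, ?_, ?_⟩
    · have := hfin (4 * k + 1)
      convert this using 3 with t
      rw [(fX_pow_curve hp hq hpq hζ h0 t (k + 1)).1]
      rfl
    · have h1 := hdeg (4 * k)
      have h2 : ((3 : ℝ) ^ (4 * k)) ≤
          ((max (v (4 * k + 1)).P.natDegree (v (4 * k + 1)).Q.natDegree : ℕ) : ℝ) := by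
        exact_mod_cast h1
      have h3 : (3 : ℝ) ^ (4 * k) = 81 ^ k := by
        rw [pow_mul]; norm_num
      rw [pow_succ]
      rw [h3] at h2
      linarith

lemma gX_pow (hp : p.Good) (hq : q.Good) (hpq : Disj p q) (k : ℕ) (x : surfX p q) :
    (hp.gX hq hpq ^ k) x = swapX q p ((hq.fX hp hpq.symm ^ k) (swapX p q x)) := by
  induction k with
  | zero =>
    show x = swapX q p (swapX p q x)
    exact ((swapX p q).left_inv x).symm
  | succ k ih =>
    rw [pow_succ', pow_succ']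
    show (hp.gX hq hpq) ((hp.gX hq hpq ^ k) x) = _
    rw [ih]
    show swapX q p (hq.fX hp hpq.symm (swapX p q (swapX q p _))) = _
    have : ∀ y : surfX q p, swapX p q (swapX q p y) = y := fun y => (swapX q p).left_inv y
    rw [this]
    rfl

theorem Good.lox_gX (hp : p.Good) (hq : q.Good) (hpq : Disj p q) :
    IsLoxodromic (surfX p q) (hp.gX hq hpq) := by
  obtain ⟨ζ, hζ, h0⟩ := hq.exists_root
  obtain ⟨v, hdeg, hfin⟩ := US_finite hq hζ h0
  have hsw : ∀ y : surfX q p, swapX p q (swapX q p y) = y := fun y => (swapX q p).left_inv y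
  have hcoord : ∀ k t, ((hp.gX hq hpq ^ k) (swapX q p (hq.curve hp hζ h0 t))).1 4 =
      US q ζ t (4 * k) := by
    intro k t
    rw [gX_pow, hsw]
    exact (fX_pow_curve hq hp hpq.symm hζ h0 t k).1
  refine ⟨fun t => swapX q p (hq.curve hp hζ h0 t), 4, 1 / 81, 81, ?_, by norm_num,
    by norm_num, ?_⟩
  · have := isRationalCurve_curve hq hp hζ h0
    intro j
    fin_cases j
    · exact this 4
    · exact this 1
    · exact this 2
    · exact this 5
    · exact this 0
    · exact this 3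
  intro k
  rcases k with _ | k
  · refine ⟨(v 1).P, (v 1).Q, (v 1).cop, ?_, ?_⟩
    · have := hfin 1
      convert this using 3 with t
      rw [hcoord 0 t]
      have e : US q ζ t (1 + 3) = (t : P1) := US4 hq hζ h0
      rw [e]
      rfl
    · have h1 := hdeg 0
      have h2 : (1 : ℝ) ≤ ((max (v 1).P.natDegree (v 1).Q.natDegree : ℕ) : ℝ) := by
        exact_mod_cast h1
      simp only [pow_zero, mul_one]
      linarith
  · refine ⟨(v (4 * k + 1)).P, (v (4 * k + 1)).Q, (v (4 * k + 1)).cop, ?_, ?_⟩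
    · have := hfin (4 * k + 1)
      convert this using 3 with t
      rw [hcoord (k + 1) t]
      rfl
    · have h1 := hdeg (4 * k)
      have h2 : ((3 : ℝ) ^ (4 * k)) ≤
          ((max (v (4 * k + 1)).P.natDegree (v (4 * k + 1)).Q.natDegree : ℕ) : ℝ) := by
        exact_mod_cast h1
      have h3 : (3 : ℝ) ^ (4 * k) = 81 ^ k := by
        rw [pow_mul]; norm_num
      rw [pow_succ]
      rw [h3] at h2
      linarith

/-- `g` fixes the exceptional curves of `f` pointwise. -/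
lemma gX_curve (hp : p.Good) (hq : q.Good) (hpq : Disj p q) {ζ : ℂ} (hζ : p.Nn ζ = 0)
    (h0 : ζ ≠ 0) (t : ℂ) : hp.gX hq hpq (hp.curve hq hζ h0 t) = hp.curve hq hζ h0 t := by
  set x := hp.curve hq hζ h0 t with hx
  have hind : p.Ind (x.1 2) (x.1 1) := by
    rw [hp.ind_iff]
    left
    exact ⟨rfl, hζ⟩
  have h := hq.fix_of_ind hp hpq.symm x.2.2.2.1 x.2.2.2.2 (Or.inl hind)
  obtain ⟨e3, e4, e5, e6⟩ := h
  apply Subtype.ext
  funext i
  fin_cases i
  · show p.nxt (q.u5 (x.1 4) (x.1 1) (x.1 2) (x.1 5)) (q.u4 (x.1 4) (x.1 1) (x.1 2) (x.1 5))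
      (x.1 0) = x.1 0
    rw [e4, e5]
    exact nxt_of_ind hind
  · exact e4
  · exact e5
  · show p.nxt (q.u4 (x.1 4) (x.1 1) (x.1 2) (x.1 5)) (q.u5 (x.1 4) (x.1 1) (x.1 2) (x.1 5))
      (x.1 3) = x.1 3
    rw [e4, e5]
    exact nxt_self x.2.2.1
  · exact e3
  · exact e6

lemma fX_pow_ne (hp : p.Good) (hq : q.Good) (hpq : Disj p q) {ζ : ℂ} (hζ : p.Nn ζ = 0)
    (h0 : ζ ≠ 0) {m : ℕ} (hm : 0 < m) :
    ∃ t, (hp.fX hq hpq ^ m) (hp.curve hq hζ h0 t) ≠ hp.curve hq hζ h0 t := by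
  by_contra hcon
  push Not at hcon
  -- then `f^(2m)` fixes the curve pointwise, but the degree is at least `3^4`.
  obtain ⟨v, hdeg, hfin⟩ := US_finite hp hζ h0
  have h2 : ∀ t, US p ζ t (4 * (m + m)) = (t : P1) := by
    intro t
    rw [← (fX_pow_curve hp hq hpq hζ h0 t (m + m)).1, pow_add, Equiv.Perm.mul_apply, hcon, hcon]
    rfl
  have e : 4 * (m + m) = (4 * (m + m) - 3) + 3 := by omega
  have hd := hdeg (4 * (m + m) - 4)
  have e' : 4 * (m + m) - 4 + 1 = 4 * (m + m) - 3 := by omega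
  rw [e'] at hd
  have hf := hfin (4 * (m + m) - 3)
  set w := v (4 * (m + m) - 3)
  have hf2 : {t : ℂ | (t : P1) ≠ w.at t}.Finite := by
    refine hf.subset ?_
    intro t ht
    rw [Set.mem_setOf_eq, ← e, h2]
    exact ht
  have hpoly : w.P = X * w.Q := by
    have hinf : {t : ℂ | w.P.eval t = (X * w.Q).eval t}.Infinite := by
      have h3 : {t : ℂ | (t : P1) ≠ w.at t}ᶜ.Infinite := hf2.infinite_compl
      refine h3.mono ?_
      intro t ht
      simp only [Set.mem_compl_iff, Set.mem_setOf_eq, not_not] at ht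
      have h4 := (rat_eq_iff (w.eval_ne t) (t : P1)).mp ht.symm
      simp only [hx_coe, hy_coe, mul_one] at h4
      simp only [Set.mem_setOf_eq, eval_mul, eval_X]
      rw [h4]; ring
    exact Polynomial.eq_of_infinite_eval_eq _ _ hinf
  have hQ : IsUnit w.Q := by
    have := w.cop
    rw [hpoly] at this
    exact (isCoprime_self.mp (this.of_mul_left_right))
  have hQd := natDegree_eq_zero_of_isUnit hQ
  have hPd : w.P.natDegree = 1 := by
    rw [hpoly, natDegree_mul X_ne_zero w.Q0, natDegree_X, hQd]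
  have : w.deg = 1 := by unfold RF.deg; rw [hPd, hQd]; rfl
  rw [this] at hd
  have h9 : 3 ^ 1 ≤ 3 ^ (4 * (m + m) - 4) := Nat.pow_le_pow_right (by norm_num) (by omega)
  omega

theorem Good.pow_ne (hp : p.Good) (hq : q.Good) (hpq : Disj p q) (m n : ℤ) (hm : m ≠ 0) :
    hp.fX hq hpq ^ m ≠ hp.gX hq hpq ^ n := by
  obtain ⟨ζ, hζ, h0⟩ := hp.exists_root
  intro h
  have hfix : ∀ t, (hp.fX hq hpq ^ m) (hp.curve hq hζ h0 t) = hp.curve hq hζ h0 t := by
    intro t
    rw [h]
    exact Equiv.Perm.zpow_apply_eq_self_of_apply_eq_self (gX_curve hp hq hpq hζ h0 t) n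
  obtain ⟨k, hk⟩ : ∃ k : ℕ, m = k ∨ m = -k := ⟨m.natAbs, Int.natAbs_eq m⟩
  have hk0 : 0 < k := by
    rcases Nat.eq_zero_or_pos k with h1 | h1
    · subst h1; simp at hk; exact absurd hk hm
    · exact h1
  obtain ⟨t, ht⟩ := fX_pow_ne hp hq hpq hζ h0 hk0
  apply ht
  rcases hk with hk | hk
  · have := hfix t
    rw [hk, zpow_natCast] at this
    exact this
  · have := hfix t
    rw [hk, zpow_neg, zpow_natCast] at this
    rw [Equiv.Perm.inv_eq_iff_eq] at this
    exact this.symm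

end Par

end Run7.h904
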