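import Pool.Agent.Run7.h904.Alg

/-! Two recurrences with scaling parameter of large height have no common periodic values. -/

open NumberField Height

namespace Run7.h904

/-- `μ` is transcendental, or algebraic of absolute logarithmic height larger than `C`: for every
number field `K ⊂ ℂ` containing `μ`, the (unnormalised) height of `μ` relative to `K` is larger
than `C [K : ℚ]`. -/
def HeightGt (C : ℝ) (μ : ℂ) : Prop :=
  ∀ (K : Type) [Field K] [NumberField K] (σ : K →+* ℂ) (m : K), σ m = μ →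
    C * Module.finrank ℚ K < logHeight₁ m

lemma HeightGt.mono {C C' : ℝ} {μ : ℂ} (h : HeightGt C μ) (hC : C' ≤ C) : HeightGt C' μ := by
  intro K _ _ σ m hm
  refine lt_of_le_of_lt ?_ (h K σ m hm)
  exact mul_le_mul_of_nonneg_right hC (Nat.cast_nonneg _)

lemma not_heightGt_of_alg {z : ℂ} (hz : IsAlgebraic ℚ z) : ∃ C : ℝ, 0 ≤ C ∧ ¬ HeightGt C z := by
  obtain ⟨C, hC, h⟩ := exists_height_bound (![z, 1] : Fin 2 → ℂ) (by
    intro j
    fin_cases j
    · exact hz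
    · exact isAlgebraic_one)
  refine ⟨C, hC, fun hgt => ?_⟩
  obtain ⟨L, hL, hsub⟩ := exists_numberField {z} (Set.finite_singleton z) (by
    intro x hx
    rw [Set.mem_singleton_iff] at hx
    rw [hx]; exact hz)
  have : NumberField L := { to_charZero := inferInstance, to_finiteDimensional := hL }
  have h1 := hgt L (algebraMap L ℂ) ⟨z, hsub rfl⟩ rfl
  have h2 := h L (algebraMap L ℂ) ![⟨z, hsub rfl⟩, 1] (by
    intro j
    fin_cases j
    · rfl
    · simp)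
  rw [← logHeight₁_eq_logHeight] at h2
  linarith

lemma not_heightGt_finite (S : Set ℂ) (hS : S.Finite) (hz : ∀ z ∈ S, IsAlgebraic ℚ z) :
    ∃ C : ℝ, 0 ≤ C ∧ ∀ z ∈ S, ¬ HeightGt C z := by
  induction S, hS using Set.Finite.induction_on with
  | empty => exact ⟨0, le_rfl, by simp⟩
  | @insert z S _ _ ih =>
    obtain ⟨C1, hC1, h1⟩ := ih fun w hw => hz w (Or.inr hw)
    obtain ⟨C2, hC2, h2⟩ := not_heightGt_of_alg (hz z (Or.inl rfl))
    refine ⟨max C1 C2, le_max_of_le_left hC1, ?_⟩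
    rintro w (rfl | hw) h
    · exact h2 (h.mono (le_max_right _ _))
    · exact h1 w hw (h.mono (le_max_left _ _))

theorem pair_bound {α β α' β' : ℂ} (hα : IsAlgebraic ℚ α) (hβ : IsAlgebraic ℚ β)
    (hα' : IsAlgebraic ℚ α') (hβ' : IsAlgebraic ℚ β') (hne : α ≠ β) (hne' : α' ≠ β') :
    ∃ C : ℝ, 0 ≤ C ∧ ∀ μ ν : ℂ, ν ≠ 0 → ν ^ 2 = μ → HeightGt C μ →
      ∀ (u v w z : ℤ → ℂ) (N N' : ℕ), 0 < N → 0 < N' → (∀ i, u (i + N) = u i) →
        (∀ i, v (i + N) = v i) → (∀ i, w (i + N') = w i) → (∀ i, z (i + N') = z i) →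
        IsSeq α β u v → IsSeq α' β' w z → u 0 ≠ 0 → v 0 = 1 → z 0 = 1 → u 0 ≠ ν * w 0 := by
  obtain ⟨C1, hC1, h1⟩ := seq_height hα hβ hne
  obtain ⟨C2, hC2, h2⟩ := seq_height hα' hβ' hne'
  refine ⟨2 * (C1 + C2), by positivity, ?_⟩
  intro μ ν hν hνμ hgt u v w z N N' hN hN' hper hper2 hper' hper2' hu hw hu0 hv0 hz0 huw
  have hua := seq_algebraic hα hβ hne u v N hN hper hper2 hu
  have hwa := seq_algebraic hα' hβ' hne' w z N' hN' hper' hper2' hw
  have hw0' : w 0 ≠ 0 := by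
    intro h
    rw [h, mul_zero] at huw
    exact hu0 huw
  have hνa : IsAlgebraic ℚ ν := by
    have : ν = u 0 * (w 0)⁻¹ := by rw [huw, mul_assoc, mul_inv_cancel₀ hw0', mul_one]
    rw [this]
    exact (hua 0).mul (hwa 0).inv
  have hv01 : ∀ j, v j = 0 ∨ v j = 1 := by
    intro j
    rcases (hu j).1 with h | ⟨h, -⟩
    · exact Or.inr h
    · exact Or.inl h
  have hz01 : ∀ j, z j = 0 ∨ z j = 1 := by
    intro j
    rcases (hw j).1 with h | ⟨h, -⟩
    · exact Or.inr h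
    · exact Or.inl h
  obtain ⟨L, hL, hsub⟩ := exists_numberField
    (Set.range u ∪ (Set.range w ∪ {α, β, α', β', ν}))
    ((per_range_finite u hN hper).union ((per_range_finite w hN' hper').union (by simp))) (by
      rintro x (⟨j, rfl⟩ | ⟨j, rfl⟩ | hx)
      · exact hua j
      · exact hwa j
      · simp only [Set.mem_insert_iff, Set.mem_singleton_iff] at hx
        rcases hx with rfl | rfl | rfl | rfl | rfl
        · exact hα
        · exact hβ
        · exact hα'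
        · exact hβ'
        · exact hνa)
  have : NumberField L := { to_charZero := inferInstance, to_finiteDimensional := hL }
  have mα : α ∈ L := hsub (Or.inr (Or.inr (by simp)))
  have mβ : β ∈ L := hsub (Or.inr (Or.inr (by simp)))
  have mα' : α' ∈ L := hsub (Or.inr (Or.inr (by simp)))
  have mβ' : β' ∈ L := hsub (Or.inr (Or.inr (by simp)))
  have mν : ν ∈ L := hsub (Or.inr (Or.inr (by simp)))
  have mv : ∀ j, v j ∈ L := by
    intro j
    rcases hv01 j with h | h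
    · rw [h]; exact L.zero_mem
    · rw [h]; exact L.one_mem
  have mz : ∀ j, z j ∈ L := by
    intro j
    rcases hz01 j with h | h
    · rw [h]; exact L.zero_mem
    · rw [h]; exact L.one_mem
  let u' : ℤ → L := fun j => ⟨u j, hsub (Or.inl ⟨j, rfl⟩)⟩
  let w' : ℤ → L := fun j => ⟨w j, hsub (Or.inr (Or.inl ⟨j, rfl⟩))⟩
  let v' : ℤ → L := fun j => ⟨v j, mv j⟩
  let z' : ℤ → L := fun j => ⟨z j, mz j⟩
  have b1 := h1 L (algebraMap L ℂ) ⟨α, mα⟩ ⟨β, mβ⟩ rfl rfl u' v' N hN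
    (fun j => Subtype.ext (hper j)) (fun j => Subtype.ext (hper2 j))
    (isSeq_lift (σ := algebraMap L ℂ) (fun _ => rfl) (fun _ => rfl) rfl rfl hu) 0
  have b2 := h2 L (algebraMap L ℂ) ⟨α', mα'⟩ ⟨β', mβ'⟩ rfl rfl w' z' N' hN'
    (fun j => Subtype.ext (hper' j)) (fun j => Subtype.ext (hper2' j))
    (isSeq_lift (σ := algebraMap L ℂ) (fun _ => rfl) (fun _ => rfl) rfl rfl hw) 0
  have ev : v' 0 = 1 := Subtype.ext hv0
  have ez : z' 0 = 1 := Subtype.ext hz0
  rw [ev, ← logHeight₁_eq_logHeight] at b1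
  rw [ez, ← logHeight₁_eq_logHeight] at b2
  have hw0 : w' 0 ≠ 0 := fun h => hw0' (congrArg (fun x : L => (x : ℂ)) h)
  have e : (⟨ν, mν⟩ : L) = u' 0 * (w' 0)⁻¹ := by
    rw [eq_mul_inv_iff_mul_eq₀ hw0]
    exact Subtype.ext huw.symm
  have b3 : logHeight₁ (⟨ν, mν⟩ : L) ≤ (C1 + C2) * Module.finrank ℚ L := by
    rw [e]
    have := logHeight₁_mul_le (u' 0) ((w' 0)⁻¹)
    rw [logHeight₁_inv] at this
    linarith
  have b4 := hgt L (algebraMap L ℂ) ((⟨ν, mν⟩ : L) ^ 2) (by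
    rw [map_pow]; exact hνμ)
  rw [logHeight₁_pow] at b4
  push_cast at b4
  linarith

/-- roots of the quartics with large scaling do not meet the roots of the unscaled quartics -/
theorem disj_bound {α β α' β' : ℂ} (hα : IsAlgebraic ℚ α) (hβ : IsAlgebraic ℚ β)
    (hα' : IsAlgebraic ℚ α') (hβ' : IsAlgebraic ℚ β') :
    ∃ C : ℝ, 0 ≤ C ∧ ∀ μ ν : ℂ, ν ≠ 0 → ν ^ 2 = μ → HeightGt C μ →
      ∀ T : ℂ, (T ^ 4 + α' * T ^ 2 + 1 = 0 ∨ T ^ 4 + β' * T ^ 2 + 1 = 0) →
        ∀ t : ℂ, (t ^ 4 + α * t ^ 2 + 1 = 0 ∨ t ^ 4 + β * t ^ 2 + 1 = 0) → t ≠ ν * T := by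
  have key : ∀ γ : ℂ, IsAlgebraic ℚ γ → {t : ℂ | t ^ 4 + γ * t ^ 2 + 1 = 0}.Finite ∧
      ∀ t ∈ {t : ℂ | t ^ 4 + γ * t ^ 2 + 1 = 0}, IsAlgebraic ℚ t := by
    intro γ hγ
    have hP : (Polynomial.X ^ 4 + Polynomial.C γ * Polynomial.X ^ 2 + 1 : Polynomial ℂ) ≠ 0 := by
      intro h
      have := congrArg (fun P => Polynomial.coeff P 0) h
      simp at this
    constructor
    · refine (Polynomial.finite_setOfPred_isRoot hP).subset ?_
      intro t ht
      simp only [Set.mem_ofPred_eq, Polynomial.IsRoot.def] at ht ⊢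
      simpa using ht
    · intro t ht
      let k := algebraicClosure ℚ ℂ
      have h1 : IsAlgebraic k t := by
        refine ⟨Polynomial.X ^ 4 + Polynomial.C (⟨γ, mem_algebraicClosure_iff.mpr hγ⟩ : k) *
          Polynomial.X ^ 2 + 1, ?_, ?_⟩
        · intro h
          have := congrArg (fun P => Polynomial.coeff P 0) h
          simp at this
        · have : t ^ 4 + γ * t ^ 2 + 1 = 0 := ht
          simpa using this
      have h2 : Algebra.IsAlgebraic ℚ k := algebraicClosure.isAlgebraic ℚ ℂ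
      exact h1.restrictScalars ℚ
  set S1 : Set ℂ := {t : ℂ | t ^ 4 + α * t ^ 2 + 1 = 0} ∪ {t : ℂ | t ^ 4 + β * t ^ 2 + 1 = 0}
  set S2 : Set ℂ := {t : ℂ | t ^ 4 + α' * t ^ 2 + 1 = 0} ∪ {t : ℂ | t ^ 4 + β' * t ^ 2 + 1 = 0}
  have f1 : S1.Finite := (key α hα).1.union (key β hβ).1
  have f2 : S2.Finite := (key α' hα').1.union (key β' hβ').1
  have a1 : ∀ t ∈ S1, IsAlgebraic ℚ t := by
    rintro t (h | h)
    · exact (key α hα).2 t h
    · exact (key β hβ).2 t h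
  have a2 : ∀ t ∈ S2, IsAlgebraic ℚ t := by
    rintro t (h | h)
    · exact (key α' hα').2 t h
    · exact (key β' hβ').2 t h
  obtain ⟨C, hC, h⟩ := not_heightGt_finite ((fun z : ℂ × ℂ => (z.1 * z.2⁻¹) ^ 2) '' (S1 ×ˢ S2))
    ((f1.prod f2).image _) (by
      rintro _ ⟨⟨t, T⟩, ⟨ht, hT⟩, rfl⟩
      exact ((a1 t ht).mul (a2 T hT).inv).pow 2)
  refine ⟨C, hC, ?_⟩
  intro μ ν hν hνμ hgt T hT t ht htT
  apply h μ _ hgt
  refine ⟨(t, T), ⟨ht, hT⟩, ?_⟩
  have hT0 : T ≠ 0 := by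
    rintro rfl
    rcases hT with h | h <;> simp at h
  simp only
  rw [htT, mul_assoc, mul_inv_cancel₀ hT0, mul_one, hνμ]

end Run7.h904
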