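import Pool.Agent.Run7.h904.Lox
import Pool.Agent.Run7.h904.Pair

/-! Periodic points and periodic sequences. -/

open OnePoint MvPolynomial

namespace Run7.h904

namespace Par

variable {p q : Par}

lemma Good.fix_deg (hp : p.Good) {a b c d : P1} (h2 : p.Rel b c d)
    (hac : (hy a = 0 ∧ hx c = 0) ∨ (hx a = 0 ∧ hy c = 0)) :
    p.u3 a b c d = a ∧ p.u4 a b c d = b ∧ p.u5 a b c d = c ∧ p.u6 a b c d = d := by
  have hbd := hp.inv_of_zero h2 (by tauto)
  rcases hac with ⟨ha, hc⟩ | ⟨ha, hc⟩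
  · have ha' : a = ∞ := (hy_eq_zero_iff a).mp ha
    have e3 : p.u3 a b c d = a := by
      unfold u3; rw [ha']; exact hp.nxt_zero_infty hc
    have e4 : p.u4 a b c d = b := by
      have h := hp.rel4 a b c d
      rw [e3] at h
      have := hp.inv_of_zero h (Or.inr ha)
      exact inv_unique hp.μ0 this hbd
    have e5 : p.u5 a b c d = c := by
      unfold u5
      rw [e3, e4]
      exact eq_of_hx (hp.nxt_infty_zero ha hc) hc
    refine ⟨e3, e4, e5, ?_⟩
    have h := hp.rel6 a b c d
    rw [e4, e5] at h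
    have := hp.inv_of_zero h (Or.inl hc)
    exact inv_unique hp.μ0 this (by linear_combination hbd)
  · have hc' : c = ∞ := (hy_eq_zero_iff c).mp hc
    have e3 : p.u3 a b c d = a := by
      unfold u3
      exact eq_of_hx (hp.nxt_infty_zero hc ha) ha
    have e4 : p.u4 a b c d = b := by
      have h := hp.rel4 a b c d
      rw [e3] at h
      have := hp.inv_of_zero h (Or.inl ha)
      exact inv_unique hp.μ0 this hbd
    have e5 : p.u5 a b c d = c := by
      unfold u5
      rw [e3, e4, hc']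
      exact hp.nxt_zero_infty ha
    refine ⟨e3, e4, e5, ?_⟩
    have h := hp.rel6 a b c d
    rw [e4, e5] at h
    have := hp.inv_of_zero h (Or.inr hc)
    exact inv_unique hp.μ0 this (by linear_combination hbd)

lemma Good.shift4 (hp : p.Good) (z : surfY p) :
    ((hp.shift ^ (4 : ℕ)) z).1 = ![p.u3 (z.1 0) (z.1 1) (z.1 2) (z.1 3),
      p.u4 (z.1 0) (z.1 1) (z.1 2) (z.1 3), p.u5 (z.1 0) (z.1 1) (z.1 2) (z.1 3),
      p.u6 (z.1 0) (z.1 1) (z.1 2) (z.1 3)] := by
  rfl

/-- scaled first coordinate -/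
noncomputable def su (ν : ℂ) (P : P1) : ℂ := P.elim 1 (fun z => z / ν)

@[simp] lemma su_infty (ν : ℂ) : su ν ∞ = 1 := rfl
@[simp] lemma su_coe (ν z : ℂ) : su ν (z : P1) = z / ν := rfl

lemma rel_scaled {ν : ℂ} (hν : ν ≠ 0) (hνμ : ν ^ 2 = p.μ) {a b c : P1} (h : p.Rel a b c) :
    su ν a * su ν c * (su ν b ^ 4 + p.β * su ν b ^ 2 * hy b ^ 2 + hy b ^ 4) =
      hy a * hy c * (su ν b ^ 4 + p.α * su ν b ^ 2 * hy b ^ 2 + hy b ^ 4) := by
  unfold Rel num den qf at h
  rw [← hνμ] at h
  induction a using OnePoint.rec with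
  | infty =>
    induction c using OnePoint.rec with
    | infty =>
      induction b using OnePoint.rec with
      | infty => simp at h
      | coe b =>
        simp only [hx_infty, hy_infty, hx_coe, hy_coe, su_infty, su_coe] at h ⊢
        field_simp
        linear_combination h
    | coe c =>
      induction b using OnePoint.rec with
      | infty =>
        simp only [hx_infty, hy_infty, hx_coe, hy_coe, su_infty, su_coe] at h ⊢
        field_simp
        linear_combination h
      | coe b =>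
        simp only [hx_infty, hy_infty, hx_coe, hy_coe, su_infty, su_coe] at h ⊢
        field_simp
        linear_combination h
  | coe a =>
    induction c using OnePoint.rec with
    | infty =>
      induction b using OnePoint.rec with
      | infty =>
        simp only [hx_infty, hy_infty, hx_coe, hy_coe, su_infty, su_coe] at h ⊢
        field_simp
        linear_combination h
      | coe b =>
        simp only [hx_infty, hy_infty, hx_coe, hy_coe, su_infty, su_coe] at h ⊢
        field_simp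
        linear_combination h
    | coe c =>
      induction b using OnePoint.rec with
      | infty =>
        simp only [hx_infty, hy_infty, hx_coe, hy_coe, su_infty, su_coe] at h ⊢
        field_simp
        linear_combination h
      | coe b =>
        simp only [hx_infty, hy_infty, hx_coe, hy_coe, su_infty, su_coe] at h ⊢
        field_simp
        linear_combination h

lemma Good.shift_rel (hp : p.Good) (y : surfY p) (n : ℤ) :
    p.Rel (((hp.shift ^ (n - 1)) y).1 1) (((hp.shift ^ n) y).1 1) (((hp.shift ^ (n + 1)) y).1 1)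
      ∧ ((hp.shift ^ n) y).1 0 = ((hp.shift ^ (n - 1)) y).1 1
      ∧ ((hp.shift ^ n) y).1 2 = ((hp.shift ^ (n + 1)) y).1 1 := by
  have e1 : (hp.shift ^ n) y = hp.shift ((hp.shift ^ (n - 1)) y) := by
    rw [← Equiv.Perm.mul_apply, ← zpow_one_add]
    congr 2; ring
  have e2 : (hp.shift ^ (n + 1)) y = hp.shift ((hp.shift ^ n) y) := by
    rw [← Equiv.Perm.mul_apply, ← zpow_one_add]
    congr 2; ring
  have h0 : ((hp.shift ^ n) y).1 0 = ((hp.shift ^ (n - 1)) y).1 1 := by
    rw [e1]; rfl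
  have h2 : ((hp.shift ^ n) y).1 2 = ((hp.shift ^ (n + 1)) y).1 1 := by
    rw [e2]; rfl
  refine ⟨?_, h0, h2⟩
  rw [← h0, ← h2]
  exact ((hp.shift ^ n) y).2.1

/-- A periodic point off the boundary gives a nondegenerate periodic sequence. -/
lemma Good.per_seq (hp : p.Good) {ν : ℂ} (hν : ν ≠ 0) (hνμ : ν ^ 2 = p.μ) (y : surfY p) {k : ℕ}
    (hk : 0 < k) (hper : (hp.shift ^ (4 * k)) y = y) (hbx : hx (y.1 1) ≠ 0) (hby : hy (y.1 1) ≠ 0)
    (hcx : hx (y.1 2) ≠ 0) (hcy : hy (y.1 2) ≠ 0) :
    ∃ u v : ℤ → ℂ, (∀ i, u (i + (4 * k : ℕ)) = u i) ∧ (∀ i, v (i + (4 * k : ℕ)) = v i) ∧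
      IsSeq p.α p.β u v ∧ v 0 = 1 ∧ u 0 = hx (y.1 1) / ν := by
  set s := hp.shift with hs
  have hper' : ∀ i : ℤ, (s ^ (i + (4 * k : ℕ))) y = (s ^ i) y := by
    intro i
    rw [zpow_add, Equiv.Perm.mul_apply, zpow_natCast, hper]
  refine ⟨fun n => su ν (((s ^ n) y).1 1), fun n => hy (((s ^ n) y).1 1), ?_, ?_, ?_, ?_, ?_⟩
  · intro i
    simp only [hper']
  · intro i
    simp only [hper']
  · intro i
    refine ⟨?_, ?_, ?_⟩
    · show hy (((s ^ i) y).1 1) = 1 ∨ (hy (((s ^ i) y).1 1) = 0 ∧ su ν (((s ^ i) y).1 1) = 1)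
      generalize ((s ^ i) y).1 1 = P
      induction P using OnePoint.rec with
      | infty => right; simp
      | coe z => left; simp
    · -- nondegeneracy
      by_contra hcon
      push Not at hcon
      obtain ⟨c1, c2⟩ := hcon
      simp only [hs] at c1 c2
      obtain ⟨hrel, h0, h2⟩ := hp.shift_rel y i
      have hsu : ∀ P : P1, su ν P = 0 → hx P = 0 := by
        intro P hP
        induction P using OnePoint.rec with
        | infty => simp at hP
        | coe z =>
          simp only [su_coe, div_eq_zero_iff, hν, or_false] at hP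
          simpa using hP
      rw [← h0, ← h2] at c1 c2
      set z := (hp.shift ^ i) y with hz
      have hac : (hy (z.1 0) = 0 ∧ hx (z.1 2) = 0) ∨ (hx (z.1 0) = 0 ∧ hy (z.1 2) = 0) := by
        rcases mul_eq_zero.mp c1 with g1 | g1 <;> rcases mul_eq_zero.mp c2 with g2 | g2
        · have := hxy_ne (z.1 0)
          have := hsu _ g1
          tauto
        · right; exact ⟨hsu _ g1, g2⟩
        · left; exact ⟨g2, hsu _ g1⟩
        · have := hxy_ne (z.1 2)
          have := hsu _ g1
          tauto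
      have hfix := hp.fix_deg z.2.2 hac
      have h4z : (hp.shift ^ (4 : ℕ)) z = z := by
        apply Subtype.ext
        rw [hp.shift4, hfix.1, hfix.2.1, hfix.2.2.1, hfix.2.2.2]
        funext j
        fin_cases j <;> rfl
      have h4y : (hp.shift ^ (4 : ℤ)) y = y := by
        have h1 : (hp.shift ^ i) ((hp.shift ^ (4 : ℤ)) y) = (hp.shift ^ i) y := by
          rw [← Equiv.Perm.mul_apply, ← zpow_add, add_comm, zpow_add, Equiv.Perm.mul_apply, ← hz]
          exact h4z
        exact (hp.shift ^ i).injective h1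
      have h4k : ∀ (l : ℤ) (m : ℤ), (hp.shift ^ (4 * l + m)) y = (hp.shift ^ m) y := by
        intro l
        induction l using Int.induction_on with
        | zero => intro m; simp
        | succ l ih =>
          intro m
          rw [show 4 * ((l : ℤ) + 1) + m = (4 * (l : ℤ) + m) + 4 by ring, zpow_add,
            Equiv.Perm.mul_apply, h4y, ih]
        | pred l ih =>
          intro m
          have := ih m
          rw [show 4 * (-(l : ℤ)) + m = (4 * (-(l : ℤ) - 1) + m) + 4 by ring, zpow_add,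
            Equiv.Perm.mul_apply, h4y] at this
          exact this
      have hcc : hx (((hp.shift ^ (1 : ℤ)) y).1 1) ≠ 0 ∧ hy (((hp.shift ^ (1 : ℤ)) y).1 1) ≠ 0 := by
        rw [zpow_one]
        exact ⟨hcx, hcy⟩
      have hbb : hx (((hp.shift ^ (0 : ℤ)) y).1 1) ≠ 0 ∧ hy (((hp.shift ^ (0 : ℤ)) y).1 1) ≠ 0 := by
        rw [zpow_zero]
        exact ⟨hbx, hby⟩
      rw [h0, h2] at hac
      -- residues mod 4
      have key : ∀ m : ℤ, (m = i - 1 ∨ m = i + 1) → (m % 4 = 0 ∨ m % 4 = 1) → False := by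
        intro m hm hm4
        have hm' : hx (((hp.shift ^ m) y).1 1) = 0 ∨ hy (((hp.shift ^ m) y).1 1) = 0 := by
          rcases hm with rfl | rfl <;> tauto
        have e : (hp.shift ^ m) y = (hp.shift ^ (m % 4)) y := by
          conv_lhs => rw [← Int.mul_ediv_add_emod m 4]
          exact h4k _ _
        rw [e] at hm'
        rcases hm4 with h | h <;> rw [h] at hm' <;> tauto
      have : (i - 1) % 4 = 0 ∨ (i - 1) % 4 = 1 ∨ (i + 1) % 4 = 0 ∨ (i + 1) % 4 = 1 := by omega
      rcases this with h | h | h | h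
      · exact key _ (Or.inl rfl) (Or.inl h)
      · exact key _ (Or.inl rfl) (Or.inr h)
      · exact key _ (Or.inr rfl) (Or.inl h)
      · exact key _ (Or.inr rfl) (Or.inr h)
    · exact rel_scaled hν hνμ (hp.shift_rel y i).1
  · simp only [zpow_zero, Equiv.Perm.coe_one, id_eq]
    generalize y.1 1 = P at *
    induction P using OnePoint.rec with
    | infty => simp at hby
    | coe z => simp
  · simp only [zpow_zero, Equiv.Perm.coe_one, id_eq]
    generalize y.1 1 = P at *
    induction P using OnePoint.rec with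
    | infty => simp at hby
    | coe z => simp

/-- projection to the first four coordinates -/
def prY (x : surfX p q) : surfY p := ⟨![x.1 0, x.1 1, x.1 2, x.1 3], ⟨x.2.1, x.2.2.1⟩⟩

lemma prY_fX (hp : p.Good) (hq : q.Good) (hpq : Disj p q) (x : surfX p q) :
    prY (hp.fX hq hpq x) = (hp.shift ^ 4) (prY x) := by
  apply Subtype.ext
  rw [hp.shift4]
  funext j
  fin_cases j <;> rfl

lemma prY_fX_pow (hp : p.Good) (hq : q.Good) (hpq : Disj p q) (x : surfX p q) (k : ℕ) :
    prY (((hp.fX hq hpq) ^ k) x) = (hp.shift ^ (4 * k)) (prY x) := by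
  induction k with
  | zero => simp
  | succ k ih =>
    rw [pow_succ', Equiv.Perm.mul_apply, prY_fX, ih, ← Equiv.Perm.mul_apply, ← pow_add]
    congr 2
    ring

lemma swap_gX_pow (hp : p.Good) (hq : q.Good) (hpq : Disj p q) (x : surfX p q) (k : ℕ) :
    swapX p q (((hp.gX hq hpq) ^ k) x) = ((hq.fX hp hpq.symm) ^ k) (swapX p q x) := by
  induction k with
  | zero => simp
  | succ k ih =>
    rw [pow_succ', Equiv.Perm.mul_apply, pow_succ', Equiv.Perm.mul_apply, ← ih]
    rfl

/-- no common periodic points off the boundary, when the scaling has large height -/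
theorem no_common {α β α' β' : ℂ} (hα : IsAlgebraic ℚ α) (hβ : IsAlgebraic ℚ β)
    (hα' : IsAlgebraic ℚ α') (hβ' : IsAlgebraic ℚ β') (hne : α ≠ β) (hne' : α' ≠ β') :
    ∃ C : ℝ, 0 ≤ C ∧ ∀ μ : ℂ, HeightGt C μ → ∀ (hp : Par.Good ⟨α, β, 1⟩) (hq : Par.Good ⟨α', β', μ⟩)
      (hpq : Disj ⟨α, β, 1⟩ ⟨α', β', μ⟩) (x : surfX ⟨α, β, 1⟩ ⟨α', β', μ⟩),
      (∃ k : ℕ, 0 < k ∧ ((hp.fX hq hpq) ^ k) x = x) →
      (∃ k : ℕ, 0 < k ∧ ((hp.gX hq hpq) ^ k) x = x) →
      hx (x.1 1) * hy (x.1 1) * (hx (x.1 2) * hy (x.1 2)) = 0 := by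
  obtain ⟨C, hC, h⟩ := pair_bound hα hβ hα' hβ' hne hne'
  refine ⟨C, hC, ?_⟩
  rintro μ hgt hp hq hpq x ⟨k, hk, hkx⟩ ⟨l, hl, hlx⟩
  by_contra hcon
  have hb1 := left_ne_zero_of_mul (left_ne_zero_of_mul hcon)
  have hb2 := right_ne_zero_of_mul (left_ne_zero_of_mul hcon)
  have hc1 := left_ne_zero_of_mul (right_ne_zero_of_mul hcon)
  have hc2 := right_ne_zero_of_mul (right_ne_zero_of_mul hcon)
  have hμ : μ ≠ 0 := hq.μ0
  obtain ⟨ν, hνμ⟩ : ∃ ν : ℂ, ν ^ 2 = μ := IsAlgClosed.exists_pow_nat_eq μ two_pos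
  have hν : ν ≠ 0 := by
    rintro rfl
    apply hμ
    rw [← hνμ]; ring
  have k1 : (hp.shift ^ (4 * k)) (prY x) = prY x := by
    rw [← prY_fX_pow hp hq hpq, hkx]
  have l1 : (hq.shift ^ (4 * l)) (prY (swapX _ _ x)) = prY (swapX _ _ x) := by
    rw [← prY_fX_pow hq hp hpq.symm, ← swap_gX_pow hp hq hpq, hlx]
  obtain ⟨u, v, pu, pv, suv, hv0, hu0⟩ := hp.per_seq (ν := 1) one_ne_zero (by simp) (prY x) hk k1
    hb1 hb2 hc1 hc2
  obtain ⟨w, z, pw, pz, swz, hz0, hw0⟩ := hq.per_seq (ν := ν) hν hνμ (prY (swapX _ _ x)) hl l1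
    hb1 hb2 hc1 hc2
  have e1 : u 0 = hx (x.1 1) := by
    rw [hu0, div_one]; rfl
  have e2 : w 0 = hx (x.1 1) / ν := hw0
  refine h μ ν hν hνμ hgt u v w z (4 * k) (4 * l) (by omega) (by omega) pu pv pw pz suv swz ?_ hv0
    hz0 ?_
  · rw [e1]; exact hb1
  · rw [e1, e2, mul_div_cancel₀ _ hν]

end Par

end Run7.h904
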