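import Pool.Agent.Run7.h904.Defs

/-! Calculus of regular functions on algebraic subsets of powers of the projective line. -/

open OnePoint MvPolynomial

namespace Run7.h904

/-! ### The projective line -/

@[simp] lemma hx_infty : hx ∞ = 1 := rfl
@[simp] lemma hy_infty : hy ∞ = 0 := rfl
@[simp] lemma hx_coe (z : ℂ) : hx (z : P1) = z := rfl
@[simp] lemma hy_coe (z : ℂ) : hy (z : P1) = 1 := rfl

lemma hxy_ne (P : P1) : hx P ≠ 0 ∨ hy P ≠ 0 := by
  induction P using OnePoint.rec <;> simp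

@[simp] lemma rat_hxy (P : P1) : rat (hx P) (hy P) = P := by
  induction P using OnePoint.rec <;> simp [rat]

lemma rat_zero (a : ℂ) : rat a 0 = ∞ := by simp [rat]

lemma rat_of_ne {a b : ℂ} (hb : b ≠ 0) : rat a b = ((a / b : ℂ) : P1) := by simp [rat, hb]

lemma rat_smul {k : ℂ} (hk : k ≠ 0) (a b : ℂ) : rat (k * a) (k * b) = rat a b := by
  unfold rat
  by_cases hb : b = 0
  · simp [hb]
  · have : k * b ≠ 0 := mul_ne_zero hk hb
    simp only [this, hb, if_false]
    rw [mul_div_mul_left _ _ hk]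

/-- homogeneous coordinates of `rat a b` are proportional to `(a,b)` -/
lemma exists_smul_rat {a b : ℂ} (h : a ≠ 0 ∨ b ≠ 0) :
    ∃ k : ℂ, k ≠ 0 ∧ a = k * hx (rat a b) ∧ b = k * hy (rat a b) := by
  by_cases hb : b = 0
  · refine ⟨a, ?_, ?_, ?_⟩
    · rcases h with h | h
      · exact h
      · exact absurd hb h
    · simp [hb, rat_zero]
    · simp [hb, rat_zero]
  · exact ⟨b, hb, by rw [rat_of_ne hb]; field_simp; simp [mul_div_cancel₀, hb], by
      rw [rat_of_ne hb]; simp⟩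

lemma rat_eq_rat_iff {a b c d : ℂ} (h : a ≠ 0 ∨ b ≠ 0) (h' : c ≠ 0 ∨ d ≠ 0) :
    rat a b = rat c d ↔ a * d = b * c := by
  unfold rat
  by_cases hb : b = 0 <;> by_cases hd : d = 0
  · simp [hb, hd]
  · have ha : a ≠ 0 := by tauto
    simp [hb, hd, ha]
  · have hc : c ≠ 0 := by tauto
    simp [hb, hd, hc]
  · simp only [hb, hd, if_false, OnePoint.coe_eq_coe]
    rw [div_eq_div_iff hb hd]
    constructor <;> intro h <;> linear_combination h

lemma rat_eq_iff {a b : ℂ} (h : a ≠ 0 ∨ b ≠ 0) (P : P1) :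
    rat a b = P ↔ a * hy P = b * hx P := by
  conv_lhs => rw [← rat_hxy P]
  exact rat_eq_rat_iff h (hxy_ne P)

lemma P1_eq_iff (P Q : P1) : P = Q ↔ hx P * hy Q = hy P * hx Q := by
  conv_lhs => rw [← rat_hxy P]
  exact rat_eq_iff (hxy_ne P) Q

lemma hy_eq_zero_iff (P : P1) : hy P = 0 ↔ P = ∞ := by
  induction P using OnePoint.rec <;> simp

lemma hx_eq_zero_iff (P : P1) : hx P = 0 ↔ P = ((0 : ℂ) : P1) := by
  induction P using OnePoint.rec <;> simp

/-! ### Forms -/

variable {n : ℕ}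

lemma IsForm.mul {m m' : Fin n → ℕ} {G H : MvPolynomial (Fin n ⊕ Fin n) ℂ}
    (hG : IsForm m G) (hH : IsForm m' H) : IsForm (m + m') (G * H) := by
  intro c s t
  rw [map_mul, map_mul, hG, hH]
  simp only [Pi.add_apply, pow_add, Finset.prod_mul_distrib]
  ring

lemma IsForm.add {m : Fin n → ℕ} {G H : MvPolynomial (Fin n ⊕ Fin n) ℂ}
    (hG : IsForm m G) (hH : IsForm m H) : IsForm m (G + H) := by
  intro c s t
  rw [map_add, map_add, hG, hH]
  ring

lemma IsForm.const (a : ℂ) : IsForm (0 : Fin n → ℕ) (C a : MvPolynomial (Fin n ⊕ Fin n) ℂ) := by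
  intro c s t
  simp

lemma IsForm.one : IsForm (0 : Fin n → ℕ) (1 : MvPolynomial (Fin n ⊕ Fin n) ℂ) := by
  intro c s t
  simp

lemma IsForm.smul {m : Fin n → ℕ} {G : MvPolynomial (Fin n ⊕ Fin n) ℂ}
    (hG : IsForm m G) (a : ℂ) : IsForm m (C a * G) := by
  simpa using (IsForm.const a).mul hG

lemma IsForm.X_inl (i : Fin n) : IsForm (Pi.single i 1) (X (Sum.inl i)) := by
  intro c s t
  simp only [eval_X, Sum.elim_inl]
  congr 1
  rw [Finset.prod_eq_single i]
  · simp
  · intro j _ hj; simp [hj]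
  · simp

lemma IsForm.X_inr (i : Fin n) : IsForm (Pi.single i 1) (X (Sum.inr i)) := by
  intro c s t
  simp only [eval_X, Sum.elim_inr]
  congr 1
  rw [Finset.prod_eq_single i]
  · simp
  · intro j _ hj; simp [hj]
  · simp

@[simp] lemma val_mul (G H : MvPolynomial (Fin n ⊕ Fin n) ℂ) (x : Pt n) :
    val (G * H) x = val G x * val H x := by simp [val]
@[simp] lemma val_add (G H : MvPolynomial (Fin n ⊕ Fin n) ℂ) (x : Pt n) :
    val (G + H) x = val G x + val H x := by simp [val]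
@[simp] lemma val_sub (G H : MvPolynomial (Fin n ⊕ Fin n) ℂ) (x : Pt n) :
    val (G - H) x = val G x - val H x := by simp [val]
@[simp] lemma val_C (a : ℂ) (x : Pt n) :
    val (C a : MvPolynomial (Fin n ⊕ Fin n) ℂ) x = a := by simp [val]
@[simp] lemma val_one (x : Pt n) :
    val (1 : MvPolynomial (Fin n ⊕ Fin n) ℂ) x = 1 := by simp [val]
@[simp] lemma val_X_inl (i : Fin n) (x : Pt n) :
    val (X (Sum.inl i) : MvPolynomial (Fin n ⊕ Fin n) ℂ) x = hx (x i) := by simp [val]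
@[simp] lemma val_X_inr (i : Fin n) (x : Pt n) :
    val (X (Sum.inr i) : MvPolynomial (Fin n ⊕ Fin n) ℂ) x = hy (x i) := by simp [val]

/-! ### The Zariski neighbourhood filter -/

variable (X : Set (Pt n))

/-- The filter of Zariski neighbourhoods of a point of `X`. -/
def zn (x : X) : Filter X where
  sets := {s | ∃ (m : Fin n → ℕ) (Q : MvPolynomial (Fin n ⊕ Fin n) ℂ), IsForm m Q ∧
    val Q x.1 ≠ 0 ∧ ∀ z : X, val Q z.1 ≠ 0 → z ∈ s}
  univ_sets := ⟨0, 1, IsForm.one, by simp, fun _ _ => Set.mem_univ _⟩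
  sets_of_superset := by
    rintro s t ⟨m, Q, hQ, hx, h⟩ hst
    exact ⟨m, Q, hQ, hx, fun z hz => hst (h z hz)⟩
  inter_sets := by
    rintro s t ⟨m, Q, hQ, hx, h⟩ ⟨m', Q', hQ', hx', h'⟩
    refine ⟨m + m', Q * Q', hQ.mul hQ', by simp [hx, hx'], fun z hz => ?_⟩
    rw [val_mul] at hz
    exact ⟨h z (left_ne_zero_of_mul hz), h' z (right_ne_zero_of_mul hz)⟩

variable {X}

lemma eventually_zn {x : X} {p : X → Prop} :
    (∀ᶠ z in zn X x, p z) ↔ ∃ (m : Fin n → ℕ) (Q : MvPolynomial (Fin n ⊕ Fin n) ℂ), IsForm m Q ∧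
      val Q x.1 ≠ 0 ∧ ∀ z : X, val Q z.1 ≠ 0 → p z := Iff.rfl

lemma zn_self {x : X} {p : X → Prop} (h : ∀ᶠ z in zn X x, p z) : p x := by
  obtain ⟨m, Q, -, hx, h⟩ := h
  exact h x hx

lemma zn_form_ne {x : X} {m : Fin n → ℕ} {Q : MvPolynomial (Fin n ⊕ Fin n) ℂ} (hQ : IsForm m Q)
    (hx : val Q x.1 ≠ 0) : ∀ᶠ z in zn X x, val Q z.1 ≠ 0 := ⟨m, Q, hQ, hx, fun _ h => h⟩

/-- regular complex valued functions near `x` -/
def RegC (x : X) (h : X → ℂ) : Prop :=
  ∃ (m : Fin n → ℕ) (A B : MvPolynomial (Fin n ⊕ Fin n) ℂ), IsForm m A ∧ IsForm m B ∧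
    val B x.1 ≠ 0 ∧ ∀ᶠ z in zn X x, h z = val A z.1 / val B z.1

lemma RegC.congr {x : X} {h h' : X → ℂ} (hh : RegC x h) (e : ∀ᶠ z in zn X x, h' z = h z) :
    RegC x h' := by
  obtain ⟨m, A, B, hA, hB, hx, ev⟩ := hh
  refine ⟨m, A, B, hA, hB, hx, ?_⟩
  filter_upwards [ev, e] with z h1 h2
  rw [h2, h1]

lemma RegC.const (x : X) (a : ℂ) : RegC x (fun _ => a) :=
  ⟨0, C a, 1, IsForm.const a, IsForm.one, by simp, Filter.Eventually.of_forall fun z => by simp⟩

lemma RegC.add {x : X} {h h' : X → ℂ} (hh : RegC x h) (hh' : RegC x h') :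
    RegC x (fun z => h z + h' z) := by
  obtain ⟨m, A, B, hA, hB, hx, ev⟩ := hh
  obtain ⟨m', A', B', hA', hB', hx', ev'⟩ := hh'
  refine ⟨m + m', A * B' + B * A', B * B', (hA.mul hB').add (hB.mul hA'), hB.mul hB',
    by simp [hx, hx'], ?_⟩
  filter_upwards [ev, ev', zn_form_ne hB hx, zn_form_ne hB' hx'] with z h1 h2 h3 h4
  rw [h1, h2, val_add, val_mul, val_mul, val_mul]
  field_simp

lemma RegC.mul {x : X} {h h' : X → ℂ} (hh : RegC x h) (hh' : RegC x h') :
    RegC x (fun z => h z * h' z) := by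
  obtain ⟨m, A, B, hA, hB, hx, ev⟩ := hh
  obtain ⟨m', A', B', hA', hB', hx', ev'⟩ := hh'
  refine ⟨m + m', A * A', B * B', hA.mul hA', hB.mul hB', by simp [hx, hx'], ?_⟩
  filter_upwards [ev, ev', zn_form_ne hB hx, zn_form_ne hB' hx'] with z h1 h2 h3 h4
  rw [h1, h2, val_mul, val_mul]
  field_simp

lemma RegC.neg {x : X} {h : X → ℂ} (hh : RegC x h) : RegC x (fun z => - h z) :=
  ((RegC.const x (-1)).mul hh).congr (Filter.Eventually.of_forall fun z => by ring)

lemma RegC.sub {x : X} {h h' : X → ℂ} (hh : RegC x h) (hh' : RegC x h') :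
    RegC x (fun z => h z - h' z) :=
  (hh.add hh'.neg).congr (Filter.Eventually.of_forall fun z => by ring)

lemma RegC.pow {x : X} {h : X → ℂ} (hh : RegC x h) (k : ℕ) : RegC x (fun z => h z ^ k) := by
  induction k with
  | zero => simpa using RegC.const x 1
  | succ k ih => exact (ih.mul hh).congr (Filter.Eventually.of_forall fun z => by ring)

lemma RegC.eventually_ne {x : X} {h : X → ℂ} (hh : RegC x h) (hx0 : h x ≠ 0) :
    ∀ᶠ z in zn X x, h z ≠ 0 := by
  obtain ⟨m, A, B, hA, hB, hx, ev⟩ := hh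
  have h0 : val A x.1 ≠ 0 := by
    intro h
    apply hx0
    rw [zn_self ev, h, zero_div]
  filter_upwards [ev, zn_form_ne hB hx, zn_form_ne hA h0] with z h1 h2 h3
  rw [h1]
  exact div_ne_zero h3 h2

lemma RegC.inv {x : X} {h : X → ℂ} (hh : RegC x h) (hx0 : h x ≠ 0) :
    RegC x (fun z => (h z)⁻¹) := by
  obtain ⟨m, A, B, hA, hB, hx, ev⟩ := hh
  have h0 : val A x.1 ≠ 0 := by
    intro h
    apply hx0
    rw [zn_self ev, h, zero_div]
  refine ⟨m, B, A, hB, hA, h0, ?_⟩
  filter_upwards [ev] with z h1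
  rw [h1, inv_div]

lemma RegC.div {x : X} {h h' : X → ℂ} (hh : RegC x h) (hh' : RegC x h') (hx0 : h' x ≠ 0) :
    RegC x (fun z => h z / h' z) :=
  (hh.mul (hh'.inv hx0)).congr (Filter.Eventually.of_forall fun z => by rw [div_eq_mul_inv])

/-- regular maps to the projective line near `x` -/
def RegP (x : X) (φ : X → P1) : Prop :=
  ∃ g h : X → ℂ, RegC x g ∧ RegC x h ∧ (g x ≠ 0 ∨ h x ≠ 0) ∧ ∀ᶠ z in zn X x, φ z = rat (g z) (h z)

lemma RegP.congr {x : X} {φ φ' : X → P1} (hh : RegP x φ) (e : ∀ᶠ z in zn X x, φ' z = φ z) :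
    RegP x φ' := by
  obtain ⟨g, h, hg, h', hx, ev⟩ := hh
  refine ⟨g, h, hg, h', hx, ?_⟩
  filter_upwards [ev, e] with z h1 h2
  rw [h2, h1]

lemma isRegular_iff {φ : X → P1} : IsRegular X φ ↔ ∀ x : X, RegP x φ := by
  constructor
  · intro h x
    obtain ⟨m, m', G, H, Q, hG, hH, hQ, hQx, h⟩ := h x
    have hx := (h x hQx).1
    rcases hx with hx | hx
    · refine ⟨fun _ => 1, fun z => val H z.1 / val G z.1, RegC.const x 1,
        ⟨m, H, G, hH, hG, hx, Filter.Eventually.of_forall fun z => rfl⟩, Or.inl one_ne_zero, ?_⟩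
      filter_upwards [zn_form_ne hG hx, zn_form_ne hQ hQx] with z h1 h2
      rw [(h z h2).2, ← rat_smul h1 1, mul_one, mul_div_cancel₀ _ h1]
    · refine ⟨fun z => val G z.1 / val H z.1, fun _ => 1,
        ⟨m, G, H, hG, hH, hx, Filter.Eventually.of_forall fun z => rfl⟩, RegC.const x 1,
        Or.inr one_ne_zero, ?_⟩
      filter_upwards [zn_form_ne hH hx, zn_form_ne hQ hQx] with z h1 h2
      rw [(h z h2).2, ← rat_smul h1 _ 1, mul_one, mul_div_cancel₀ _ h1]
  · intro h x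
    obtain ⟨g, h, ⟨m, A, B, hA, hB, hBx, ev⟩, ⟨m', A', B', hA', hB', hBx', ev'⟩, hx, ev2⟩ := h x
    have key : ∀ᶠ z in zn X x, (val (A * B') z.1 ≠ 0 ∨ val (B * A') z.1 ≠ 0) := by
      rcases hx with hx | hx
      · have h0 : val A x.1 ≠ 0 := by
          intro h; apply hx; rw [zn_self ev, h, zero_div]
        filter_upwards [zn_form_ne hA h0, zn_form_ne hB' hBx'] with z h1 h2
        left; simp [h1, h2]
      · have h0 : val A' x.1 ≠ 0 := by
          intro h; apply hx; rw [zn_self ev', h, zero_div]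
        filter_upwards [zn_form_ne hA' h0, zn_form_ne hB hBx] with z h1 h2
        right; simp [h1, h2]
    have fin : ∀ᶠ z in zn X x, (val (A * B') z.1 ≠ 0 ∨ val (B * A') z.1 ≠ 0) ∧
        φ z = rat (val (A * B') z.1) (val (B * A') z.1) := by
      filter_upwards [key, ev, ev', ev2, zn_form_ne hB hBx, zn_form_ne hB' hBx'] with
        z h1 h2 h3 h4 h5 h6
      refine ⟨h1, ?_⟩
      rw [h4, h2, h3, ← rat_smul (mul_ne_zero h5 h6)]
      congr 1
      · rw [val_mul]; field_simp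
      · rw [val_mul]; field_simp
    obtain ⟨m2, Q, hQ, hQx, hh⟩ := fin
    exact ⟨m + m', m2, A * B', B * A', Q, hA.mul hB', hB.mul hA', hQ, hQx, hh⟩

/-- coordinate functions are regular -/
lemma RegP.coord (x : X) (i : Fin n) : RegP x (fun z => z.1 i) := by
  rcases hxy_ne (x.1 i) with h | h
  · refine ⟨fun _ => 1, fun z => hy (z.1 i) / hx (z.1 i), RegC.const x 1,
      ⟨_, _, _, IsForm.X_inr i, IsForm.X_inl i, by simpa using h,
        Filter.Eventually.of_forall fun z => by simp⟩, Or.inl one_ne_zero, ?_⟩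
    have := zn_form_ne (X := X) (x := x) (IsForm.X_inl i) (by simpa using h)
    filter_upwards [this] with z hz
    rw [val_X_inl] at hz
    rw [← rat_smul hz 1, mul_one, mul_div_cancel₀ _ hz, rat_hxy]
  · refine ⟨fun z => hx (z.1 i) / hy (z.1 i), fun _ => 1,
      ⟨_, _, _, IsForm.X_inl i, IsForm.X_inr i, by simpa using h,
        Filter.Eventually.of_forall fun z => by simp⟩, RegC.const x 1, Or.inr one_ne_zero, ?_⟩
    have := zn_form_ne (X := X) (x := x) (IsForm.X_inr i) (by simpa using h)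
    filter_upwards [this] with z hz
    rw [val_X_inr] at hz
    rw [← rat_smul hz _ 1, mul_one, mul_div_cancel₀ _ hz, rat_hxy]

/-- if `φ = [g : h]` near `x` then `(g,h)` is near `x` a nonzero multiple of the homogeneous
coordinates of `φ`. -/
lemma RegP.exists_smul {x : X} {φ : X → P1} {g h : X → ℂ} (hg : RegC x g) (hh : RegC x h)
    (hx0 : g x ≠ 0 ∨ h x ≠ 0) (ev : ∀ᶠ z in zn X x, φ z = rat (g z) (h z)) :
    ∀ᶠ z in zn X x, ∃ k : ℂ, k ≠ 0 ∧ g z = k * hx (φ z) ∧ h z = k * hy (φ z) := by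
  have : ∀ᶠ z in zn X x, g z ≠ 0 ∨ h z ≠ 0 := by
    rcases hx0 with h0 | h0
    · filter_upwards [hg.eventually_ne h0] with z hz using Or.inl hz
    · filter_upwards [hh.eventually_ne h0] with z hz using Or.inr hz
  filter_upwards [this, ev] with z h1 h2
  rw [h2]
  exact exists_smul_rat h1

/-- polynomial expressions in regular functions are regular -/
lemma RegC.eval {σ : Type*} {x : X} {g : σ → X → ℂ} (hg : ∀ i, RegC x (g i))
    (P : MvPolynomial σ ℂ) : RegC x (fun z => MvPolynomial.eval (fun i => g i z) P) := by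
  induction P using MvPolynomial.induction_on with
  | C a => simpa using RegC.const x a
  | add p q hp hq => simpa using hp.add hq
  | mul_X p i hp => simpa using hp.mul (hg i)

/-- near `x`, a map with regular components pulls back neighbourhoods, and pulls back regular
functions to regular functions. -/
lemma RegC.comp {k : ℕ} {X' : Set (Pt k)} {Φ : X → X'} {x : X}
    (hΦ : ∀ i, RegP x (fun z => (Φ z).1 i)) {h : X' → ℂ} (hh : RegC (Φ x) h)
    (T : Filter.Tendsto Φ (zn X x) (zn X' (Φ x))) :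
    RegC x (fun z => h (Φ z)) := by
  obtain ⟨m, A, B, hA, hB, hBx, ev⟩ := hh
  choose g h' hg hh' hgh hev using hΦ
  have key : ∀ᶠ z in zn X x, ∀ i, ∃ k : ℂ, k ≠ 0 ∧ g i z = k * hx ((Φ z).1 i) ∧
      h' i z = k * hy ((Φ z).1 i) := by
    rw [Filter.eventually_all]
    intro i
    exact RegP.exists_smul (hg i) (hh' i) (hgh i) (hev i)
  have hreg : ∀ P : MvPolynomial (Fin k ⊕ Fin k) ℂ,
      RegC x (fun z => MvPolynomial.eval (Sum.elim (fun i => g i z) (fun i => h' i z)) P) := by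
    intro P
    have := RegC.eval (x := x) (g := Sum.elim g h') (by
      rintro (i | i)
      · exact hg i
      · exact hh' i) P
    refine this.congr (Filter.Eventually.of_forall fun z => ?_)
    congr 2
    ext (i | i) <;> rfl
  have hne : ∀ (m : Fin k → ℕ) (P : MvPolynomial (Fin k ⊕ Fin k) ℂ), IsForm m P →
      ∀ᶠ z in zn X x, ∃ c : ℂ, c ≠ 0 ∧
      MvPolynomial.eval (Sum.elim (fun i => g i z) (fun i => h' i z)) P = c * val P (Φ z).1 ∧ True := by
    intro m P hP
    filter_upwards [key] with z hz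
    choose c hc h1 h2 using hz
    refine ⟨∏ i, c i ^ m i, Finset.prod_ne_zero_iff.mpr fun i _ => pow_ne_zero _ (hc i), ?_, trivial⟩
    have := hP c (fun i => hx ((Φ z).1 i)) (fun i => hy ((Φ z).1 i))
    rw [val, ← this]
    congr 2
    ext (i | i)
    · simpa using h1 i
    · simpa using h2 i
  -- same scalar for A and B
  have hAB : ∀ᶠ z in zn X x, ∃ c : ℂ, c ≠ 0 ∧
      MvPolynomial.eval (Sum.elim (fun i => g i z) (fun i => h' i z)) A = c * val A (Φ z).1 ∧
      MvPolynomial.eval (Sum.elim (fun i => g i z) (fun i => h' i z)) B = c * val B (Φ z).1 := by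
    filter_upwards [key] with z hz
    choose c hc h1 h2 using hz
    refine ⟨∏ i, c i ^ m i, Finset.prod_ne_zero_iff.mpr fun i _ => pow_ne_zero _ (hc i), ?_, ?_⟩
    · have := hA c (fun i => hx ((Φ z).1 i)) (fun i => hy ((Φ z).1 i))
      rw [val, ← this]
      congr 2
      ext (i | i)
      · simpa using h1 i
      · simpa using h2 i
    · have := hB c (fun i => hx ((Φ z).1 i)) (fun i => hy ((Φ z).1 i))
      rw [val, ← this]
      congr 2
      ext (i | i)
      · simpa using h1 i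
      · simpa using h2 i
  have hBx' : MvPolynomial.eval (Sum.elim (fun i => g i x) (fun i => h' i x)) B ≠ 0 := by
    obtain ⟨c, hc, -, h2⟩ := zn_self hAB
    rw [h2]
    exact mul_ne_zero hc hBx
  refine ((hreg A).div (hreg B) hBx').congr ?_
  filter_upwards [hAB, T.eventually ev] with z ⟨c, hc, h1, h2⟩ h3
  rw [h3, h1, h2, mul_div_mul_left _ _ hc]

/-- a map with regular components is continuous for the Zariski topologies -/
lemma tendsto_zn {k : ℕ} {X' : Set (Pt k)} {Φ : X → X'} {x : X}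
    (hΦ : ∀ i, RegP x (fun z => (Φ z).1 i)) :
    Filter.Tendsto Φ (zn X x) (zn X' (Φ x)) := by
  rintro s ⟨m, Q, hQ, hQx, hs⟩
  choose g h' hg hh' hgh hev using hΦ
  have key : ∀ᶠ z in zn X x, ∀ i, ∃ k : ℂ, k ≠ 0 ∧ g i z = k * hx ((Φ z).1 i) ∧
      h' i z = k * hy ((Φ z).1 i) := by
    rw [Filter.eventually_all]
    intro i
    exact RegP.exists_smul (hg i) (hh' i) (hgh i) (hev i)
  have hreg : RegC x (fun z => MvPolynomial.eval (Sum.elim (fun i => g i z) (fun i => h' i z)) Q) := by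
    have := RegC.eval (x := x) (g := Sum.elim g h') (by
      rintro (i | i)
      · exact hg i
      · exact hh' i) Q
    refine this.congr (Filter.Eventually.of_forall fun z => ?_)
    congr 2
    ext (i | i) <;> rfl
  have hQQ : ∀ᶠ z in zn X x, ∃ c : ℂ, c ≠ 0 ∧
      MvPolynomial.eval (Sum.elim (fun i => g i z) (fun i => h' i z)) Q = c * val Q (Φ z).1 := by
    filter_upwards [key] with z hz
    choose c hc h1 h2 using hz
    refine ⟨∏ i, c i ^ m i, Finset.prod_ne_zero_iff.mpr fun i _ => pow_ne_zero _ (hc i), ?_⟩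
    have := hQ c (fun i => hx ((Φ z).1 i)) (fun i => hy ((Φ z).1 i))
    rw [val, ← this]
    congr 2
    ext (i | i)
    · simpa using h1 i
    · simpa using h2 i
  have h0 : MvPolynomial.eval (Sum.elim (fun i => g i x) (fun i => h' i x)) Q ≠ 0 := by
    obtain ⟨c, hc, h2⟩ := zn_self hQQ
    rw [h2]
    exact mul_ne_zero hc hQx
  show ∀ᶠ z in zn X x, Φ z ∈ s
  filter_upwards [hreg.eventually_ne h0, hQQ] with z h1 ⟨c, hc, h2⟩
  apply hs
  intro h3
  rw [h2, h3, mul_zero] at h1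
  exact h1 rfl

lemma RegC.comp' {k : ℕ} {X' : Set (Pt k)} {Φ : X → X'} {x : X}
    (hΦ : ∀ i, RegP x (fun z => (Φ z).1 i)) {h : X' → ℂ} (hh : RegC (Φ x) h) :
    RegC x (fun z => h (Φ z)) := hh.comp hΦ (tendsto_zn hΦ)

lemma RegP.comp {k : ℕ} {X' : Set (Pt k)} {Φ : X → X'} {x : X}
    (hΦ : ∀ i, RegP x (fun z => (Φ z).1 i)) {φ : X' → P1} (hφ : RegP (Φ x) φ) :
    RegP x (fun z => φ (Φ z)) := by
  obtain ⟨g, h, hg, hh, hx0, ev⟩ := hφ
  exact ⟨fun z => g (Φ z), fun z => h (Φ z), hg.comp' hΦ, hh.comp' hΦ, hx0,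
    (tendsto_zn hΦ).eventually ev⟩

end Run7.h904
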