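import Pool.Agent.Run7.h904.Surf

/-! Smoothness of the surface. -/

open OnePoint MvPolynomial

namespace Run7.h904

/-- The gradient of a form at (the standard homogeneous coordinates of) a point. -/
noncomputable def grad {n : ℕ} (G : MvPolynomial (Fin n ⊕ Fin n) ℂ) (x : Pt n) :
    Fin n ⊕ Fin n → ℂ := fun v => val (pderiv v G) x

/-- `X ⊂ (ℙ¹)ⁿ` is a smooth complete intersection surface: the common zero locus of `n - 2`
multihomogeneous polynomials whose gradients are linearly independent at every point of `X`. -/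
def IsSmoothSurface {n : ℕ} (X : Set (Pt n)) : Prop :=
  ∃ (r : ℕ) (F : Fin r → MvPolynomial (Fin n ⊕ Fin n) ℂ), n = r + 2 ∧
    (∀ j, ∃ m, IsForm m (F j)) ∧ X = {x | ∀ j, val (F j) x = 0} ∧
    ∀ x ∈ X, LinearIndependent ℂ (fun j => grad (F j) x)

/-- the quartic form in the `i`-th pair of variables -/
noncomputable def qfP (γ μ : ℂ) (i : Fin 6) : MvPolynomial (Fin 6 ⊕ Fin 6) ℂ :=
  X (Sum.inl i) ^ 4 + C (γ * μ) * (X (Sum.inl i) ^ 2 * X (Sum.inr i) ^ 2) +
    C (μ ^ 2) * X (Sum.inr i) ^ 4

/-- the polynomial of the relation `Rel (x i) (x j) (x l)` -/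
noncomputable def EP (p : Par) (i j l : Fin 6) : MvPolynomial (Fin 6 ⊕ Fin 6) ℂ :=
  qfP p.β p.μ j * (X (Sum.inl i) * X (Sum.inl l)) -
    C p.μ * (qfP p.α p.μ j * (X (Sum.inr i) * X (Sum.inr l)))

namespace Par

variable {p q : Par}

lemma val_EP (p : Par) (i j l : Fin 6) (x : Pt 6) :
    val (EP p i j l) x = p.den (x j) * (hx (x i) * hx (x l)) -
      p.μ * p.num (x j) * (hy (x i) * hy (x l)) := by
  simp [EP, qfP, val, den, num, qf]
  ring

lemma val_EP_eq_zero {i j l : Fin 6} {x : Pt 6} :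
    val (EP p i j l) x = 0 ↔ p.Rel (x i) (x j) (x l) := by
  rw [val_EP, sub_eq_zero]
  rfl

/-- partial derivatives of the quartic form -/
def dqx (γ μ s t : ℂ) : ℂ := 4 * s ^ 3 + 2 * (γ * μ) * s * t ^ 2
/-- partial derivatives of the quartic form -/
def dqy (γ μ s t : ℂ) : ℂ := 2 * (γ * μ) * s ^ 2 * t + 4 * μ ^ 2 * t ^ 3

lemma EP_d1 {i j l : Fin 6} (hij : i ≠ j) (hil : i ≠ l) (x : Pt 6) :
    grad (EP p i j l) x (Sum.inl i) = p.den (x j) * hx (x l) := by
  simp [grad, EP, qfP, val, den, qf, pderiv_X, hij.symm, hil.symm]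
  left
  ring

lemma EP_d2 {i j l : Fin 6} (hij : i ≠ j) (hil : i ≠ l) (x : Pt 6) :
    grad (EP p i j l) x (Sum.inr i) = - (p.μ * p.num (x j) * hy (x l)) := by
  simp [grad, EP, qfP, val, num, qf, pderiv_X, hij.symm, hil.symm]
  ring

lemma EP_symm (i j l : Fin 6) : EP p i j l = EP p l j i := by
  unfold EP; ring

lemma EP_d3 {i j l : Fin 6} (hjl : j ≠ l) (hil : i ≠ l) (x : Pt 6) :
    grad (EP p i j l) x (Sum.inl l) = p.den (x j) * hx (x i) := by
  rw [EP_symm]; exact EP_d1 hjl.symm hil.symm x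

lemma EP_d4 {i j l : Fin 6} (hjl : j ≠ l) (hil : i ≠ l) (x : Pt 6) :
    grad (EP p i j l) x (Sum.inr l) = - (p.μ * p.num (x j) * hy (x i)) := by
  rw [EP_symm]; exact EP_d2 hjl.symm hil.symm x

lemma EP_d5 {i j l : Fin 6} (hij : i ≠ j) (hjl : j ≠ l) (x : Pt 6) :
    grad (EP p i j l) x (Sum.inl j) = dqx p.β p.μ (hx (x j)) (hy (x j)) * (hx (x i) * hx (x l)) -
      p.μ * dqx p.α p.μ (hx (x j)) (hy (x j)) * (hy (x i) * hy (x l)) := by
  simp [grad, EP, qfP, val, dqx, pderiv_X, hij, hjl.symm]
  ring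

lemma EP_d6 {i j l : Fin 6} (hij : i ≠ j) (hjl : j ≠ l) (x : Pt 6) :
    grad (EP p i j l) x (Sum.inr j) = dqy p.β p.μ (hx (x j)) (hy (x j)) * (hx (x i) * hx (x l)) -
      p.μ * dqy p.α p.μ (hx (x j)) (hy (x j)) * (hy (x i) * hy (x l)) := by
  simp [grad, EP, qfP, val, dqy, pderiv_X, hij, hjl.symm]
  ring

lemma EP_d7 {i j l m : Fin 6} (hi : m ≠ i) (hj : m ≠ j) (hl : m ≠ l) (x : Pt 6) :
    grad (EP p i j l) x (Sum.inl m) = 0 := by
  simp [grad, EP, qfP, val, pderiv_X, hi.symm, hj.symm, hl.symm]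

lemma EP_d8 {i j l m : Fin 6} (hi : m ≠ i) (hj : m ≠ j) (hl : m ≠ l) (x : Pt 6) :
    grad (EP p i j l) x (Sum.inr m) = 0 := by
  simp [grad, EP, qfP, val, pderiv_X, hi.symm, hj.symm, hl.symm]

lemma dq_ne {γ μ s t : ℂ} (hγ : γ ^ 2 ≠ 4) (hμ : μ ≠ 0) (hst : s ≠ 0 ∨ t ≠ 0)
    (h1 : dqx γ μ s t = 0) (h2 : dqy γ μ s t = 0) : False := by
  unfold dqx at h1
  unfold dqy at h2
  have hs : s ≠ 0 := by
    rintro rfl
    have ht : t ≠ 0 := by tauto
    apply mul_ne_zero (mul_ne_zero (by norm_num : (4 : ℂ) ≠ 0) (pow_ne_zero 2 hμ)) (pow_ne_zero 3 ht)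
    linear_combination h2
  have ht : t ≠ 0 := by
    rintro rfl
    apply mul_ne_zero (by norm_num : (4 : ℂ) ≠ 0) (pow_ne_zero 3 hs)
    linear_combination h1
  have e1 : 2 * s ^ 2 + γ * μ * t ^ 2 = 0 := by
    have : (2 * s) * (2 * s ^ 2 + γ * μ * t ^ 2) = 0 := by linear_combination h1
    exact (mul_eq_zero.mp this).resolve_left (mul_ne_zero two_ne_zero hs)
  have e2 : γ * μ * s ^ 2 + 2 * μ ^ 2 * t ^ 2 = 0 := by
    have : (2 * t) * (γ * μ * s ^ 2 + 2 * μ ^ 2 * t ^ 2) = 0 := by linear_combination h2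
    exact (mul_eq_zero.mp this).resolve_left (mul_ne_zero two_ne_zero ht)
  have e3 : (γ ^ 2 - 4) * (μ ^ 2 * t ^ 2) = 0 := by
    linear_combination (γ * μ) * e1 - 2 * e2
  rcases mul_eq_zero.mp e3 with h | h
  · exact hγ (sub_eq_zero.mp h)
  · exact mul_ne_zero (pow_ne_zero 2 hμ) (pow_ne_zero 2 ht) h

/-- nondegeneracy needed for smoothness -/
structure Sm (p : Par) : Prop extends Good p where
  hα : p.α ^ 2 ≠ 4
  hβ : p.β ^ 2 ≠ 4

lemma Sm.sing (hp : p.Sm) {a b c : P1} (hi : p.Ind c b)
    (h1 : p.den b * hx a = 0) (h2 : p.μ * p.num b * hy a = 0)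
    (h3 : dqx p.β p.μ (hx b) (hy b) * (hx a * hx c) -
      p.μ * dqx p.α p.μ (hx b) (hy b) * (hy a * hy c) = 0)
    (h4 : dqy p.β p.μ (hx b) (hy b) * (hx a * hx c) -
      p.μ * dqy p.α p.μ (hx b) (hy b) * (hy a * hy c) = 0) : False := by
  have hp' := hp.toGood
  have hμ := hp'.μ0
  rw [hp'.ind_iff] at hi
  have ha := hxy_ne a
  have hc := hxy_ne c
  have hnd := hp'.num_or_den b
  rcases hi with ⟨hn, hc0⟩ | ⟨hn, hc0⟩
  · have hd : p.den b ≠ 0 := by tauto
    have ha0 : hx a = 0 := (mul_eq_zero.mp h1).resolve_left hd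
    have hk : p.μ * (hy a * hy c) ≠ 0 := mul_ne_zero hμ (mul_ne_zero (by tauto) (by tauto))
    apply dq_ne hp.hα hμ (hxy_ne b)
    · apply (mul_eq_zero.mp (_ : p.μ * (hy a * hy c) * dqx p.α p.μ (hx b) (hy b) = 0)).resolve_left
        hk
      rw [ha0] at h3
      linear_combination -h3
    · apply (mul_eq_zero.mp (_ : p.μ * (hy a * hy c) * dqy p.α p.μ (hx b) (hy b) = 0)).resolve_left
        hk
      rw [ha0] at h4
      linear_combination -h4
  · have hd : p.num b ≠ 0 := by tauto
    have ha0 : hy a = 0 := (mul_eq_zero.mp h2).resolve_left (mul_ne_zero hμ hd)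
    have hk : (hx a * hx c) ≠ 0 := mul_ne_zero (by tauto) (by tauto)
    apply dq_ne hp.hβ hμ (hxy_ne b)
    · apply (mul_eq_zero.mp (_ : (hx a * hx c) * dqx p.β p.μ (hx b) (hy b) = 0)).resolve_left
        hk
      rw [ha0] at h3
      linear_combination h3
    · apply (mul_eq_zero.mp (_ : (hx a * hx c) * dqy p.β p.μ (hx b) (hy b) = 0)).resolve_left
        hk
      rw [ha0] at h4
      linear_combination h4

lemma isForm_EP (p : Par) : (∃ m, IsForm m (EP p 0 1 2)) ∧ (∃ m, IsForm m (EP p 1 2 3)) ∧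
    (∃ m, IsForm m (EP p 4 1 2)) ∧ (∃ m, IsForm m (EP p 1 2 5)) := by
  refine ⟨⟨![1, 4, 1, 0, 0, 0], ?_⟩, ⟨![0, 1, 4, 1, 0, 0], ?_⟩, ⟨![0, 4, 1, 0, 1, 0], ?_⟩,
    ⟨![0, 1, 4, 0, 0, 1], ?_⟩⟩ <;>
  · intro c s t
    simp [EP, qfP, Fin.prod_univ_six]
    ring

lemma Ind_ne (hp : p.Good) {b c : P1} (h : p.Ind c b) :
    (hx c = 0 ∨ hy c = 0) ∧ hx b ≠ 0 ∧ hy b ≠ 0 := by
  rw [hp.ind_iff] at h
  refine ⟨by tauto, ?_, ?_⟩
  · intro h0
    have hy0 : hy b ≠ 0 := by
      have := hxy_ne b
      tauto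
    have : ∀ γ, qf γ p.μ (hx b) (hy b) ≠ 0 := by
      intro γ
      rw [h0]
      unfold qf
      have : (0 : ℂ) ^ 4 + γ * p.μ * 0 ^ 2 * hy b ^ 2 + p.μ ^ 2 * hy b ^ 4 =
        p.μ ^ 2 * hy b ^ 4 := by ring
      rw [this]
      exact mul_ne_zero (pow_ne_zero 2 hp.μ0) (pow_ne_zero 4 hy0)
    unfold num den at h
    have h1 := this p.α
    have h2 := this p.β
    tauto
  · intro h0
    have hy0 : hx b ≠ 0 := by
      have := hxy_ne b
      tauto
    have : ∀ γ, qf γ p.μ (hx b) (hy b) ≠ 0 := by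
      intro γ
      rw [h0]
      unfold qf
      have : hx b ^ 4 + γ * p.μ * hx b ^ 2 * 0 ^ 2 + p.μ ^ 2 * 0 ^ 4 =
        hx b ^ 4 := by ring
      rw [this]
      exact (pow_ne_zero 4 hy0)
    unfold num den at h
    have h1 := this p.α
    have h2 := this p.β
    tauto

theorem Sm.isSmoothSurface (hp : p.Sm) (hq : q.Sm) (hpq : Disj p q) :
    IsSmoothSurface (surfX p q) := by
  refine ⟨4, ![EP p 0 1 2, EP p 1 2 3, EP q 4 1 2, EP q 1 2 5], rfl, ?_, ?_, ?_⟩
  · intro j
    fin_cases j
    · exact (isForm_EP p).1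
    · exact (isForm_EP p).2.1
    · exact (isForm_EP q).2.2.1
    · exact (isForm_EP q).2.2.2
  · ext x
    simp only [surfX, Set.mem_ofPred_eq, Fin.forall_fin_succ, Matrix.cons_val_zero,
      Matrix.cons_val_succ, IsEmpty.forall_iff, and_true, val_EP_eq_zero]
  · intro x _
    rw [Fintype.linearIndependent_iff]
    intro g hg
    simp only [Fin.sum_univ_four, Matrix.cons_val_zero, Matrix.cons_val_one,
      Matrix.cons_val_two, Matrix.cons_val_three] at hg
    have hg' : ∀ v, g 0 * grad (EP p 0 1 2) x v + g 1 * grad (EP p 1 2 3) x v +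
        g 2 * grad (EP q 4 1 2) x v + g 3 * grad (EP q 1 2 5) x v = 0 := fun v => by
      have := congrFun hg v
      simpa using this
    have e0 : g 0 ≠ 0 → p.Ind (x 2) (x 1) := by
      intro h0
      have a1 := hg' (Sum.inl 0)
      have a2 := hg' (Sum.inr 0)
      rw [EP_d1 (by decide) (by decide), EP_d7 (by decide) (by decide) (by decide),
        EP_d7 (by decide) (by decide) (by decide), EP_d7 (by decide) (by decide) (by decide)] at a1
      rw [EP_d2 (by decide) (by decide), EP_d8 (by decide) (by decide) (by decide),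
        EP_d8 (by decide) (by decide) (by decide), EP_d8 (by decide) (by decide) (by decide)] at a2
      constructor
      · have : g 0 * (p.μ * p.num (x 1) * hy (x 2)) = 0 := by linear_combination -a2
        exact (mul_eq_zero.mp this).resolve_left h0
      · have : g 0 * (p.den (x 1) * hx (x 2)) = 0 := by linear_combination a1
        exact (mul_eq_zero.mp this).resolve_left h0
    have e1 : g 1 ≠ 0 → p.Ind (x 1) (x 2) := by
      intro h0
      have a1 := hg' (Sum.inl 3)
      have a2 := hg' (Sum.inr 3)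
      rw [EP_d7 (by decide) (by decide) (by decide), EP_d3 (by decide) (by decide),
        EP_d7 (by decide) (by decide) (by decide), EP_d7 (by decide) (by decide) (by decide)] at a1
      rw [EP_d8 (by decide) (by decide) (by decide), EP_d4 (by decide) (by decide),
        EP_d8 (by decide) (by decide) (by decide), EP_d8 (by decide) (by decide) (by decide)] at a2
      constructor
      · have : g 1 * (p.μ * p.num (x 2) * hy (x 1)) = 0 := by linear_combination -a2
        exact (mul_eq_zero.mp this).resolve_left h0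
      · have : g 1 * (p.den (x 2) * hx (x 1)) = 0 := by linear_combination a1
        exact (mul_eq_zero.mp this).resolve_left h0
    have e2 : g 2 ≠ 0 → q.Ind (x 2) (x 1) := by
      intro h0
      have a1 := hg' (Sum.inl 4)
      have a2 := hg' (Sum.inr 4)
      rw [EP_d7 (by decide) (by decide) (by decide), EP_d7 (by decide) (by decide) (by decide),
        EP_d1 (by decide) (by decide), EP_d7 (by decide) (by decide) (by decide)] at a1
      rw [EP_d8 (by decide) (by decide) (by decide), EP_d8 (by decide) (by decide) (by decide),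
        EP_d2 (by decide) (by decide), EP_d8 (by decide) (by decide) (by decide)] at a2
      constructor
      · have : g 2 * (q.μ * q.num (x 1) * hy (x 2)) = 0 := by linear_combination -a2
        exact (mul_eq_zero.mp this).resolve_left h0
      · have : g 2 * (q.den (x 1) * hx (x 2)) = 0 := by linear_combination a1
        exact (mul_eq_zero.mp this).resolve_left h0
    have e3 : g 3 ≠ 0 → q.Ind (x 1) (x 2) := by
      intro h0
      have a1 := hg' (Sum.inl 5)
      have a2 := hg' (Sum.inr 5)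
      rw [EP_d7 (by decide) (by decide) (by decide), EP_d7 (by decide) (by decide) (by decide),
        EP_d7 (by decide) (by decide) (by decide), EP_d3 (by decide) (by decide)] at a1
      rw [EP_d8 (by decide) (by decide) (by decide), EP_d8 (by decide) (by decide) (by decide),
        EP_d8 (by decide) (by decide) (by decide), EP_d4 (by decide) (by decide)] at a2
      constructor
      · have : g 3 * (q.μ * q.num (x 2) * hy (x 1)) = 0 := by linear_combination -a2
        exact (mul_eq_zero.mp this).resolve_left h0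
      · have : g 3 * (q.den (x 2) * hx (x 1)) = 0 := by linear_combination a1
        exact (mul_eq_zero.mp this).resolve_left h0
    -- exclusivity
    have x01 : g 0 ≠ 0 → g 1 = 0 := by
      intro h0; by_contra h1
      have r0 := Ind_ne hp.toGood (e0 h0)
      have r1 := Ind_ne hp.toGood (e1 h1)
      tauto
    have x02 : g 0 ≠ 0 → g 2 = 0 := by
      intro h0; by_contra h1
      exact (hp.toGood.not_ind_of_ind hq.toGood hpq (e2 h1)).2 (e0 h0)
    have x03 : g 0 ≠ 0 → g 3 = 0 := by
      intro h0; by_contra h1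
      have r0 := Ind_ne hp.toGood (e0 h0)
      have r1 := Ind_ne hq.toGood (e3 h1)
      tauto
    have x12 : g 1 ≠ 0 → g 2 = 0 := by
      intro h0; by_contra h1
      have r0 := Ind_ne hp.toGood (e1 h0)
      have r1 := Ind_ne hq.toGood (e2 h1)
      tauto
    have x13 : g 1 ≠ 0 → g 3 = 0 := by
      intro h0; by_contra h1
      exact (hp.toGood.not_ind_of_ind hq.toGood hpq (e3 h1)).2 (e1 h0)
    have x23 : g 2 ≠ 0 → g 3 = 0 := by
      intro h0; by_contra h1
      have r0 := Ind_ne hq.toGood (e2 h0)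
      have r1 := Ind_ne hq.toGood (e3 h1)
      tauto
    have z0 : g 0 = 0 := by
      by_contra h0
      have g1 := x01 h0
      have g2 := x02 h0
      have g3 := x03 h0
      have hg2 : ∀ v, grad (EP p 0 1 2) x v = 0 := by
        intro v
        have := hg' v
        rw [g1, g2, g3] at this
        simp only [zero_mul, add_zero] at this
        exact (mul_eq_zero.mp this).resolve_left h0
      have a1 := hg2 (Sum.inl 2)
      have a2 := hg2 (Sum.inr 2)
      have a3 := hg2 (Sum.inl 1)
      have a4 := hg2 (Sum.inr 1)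
      rw [EP_d3 (by decide) (by decide)] at a1
      rw [EP_d4 (by decide) (by decide), neg_eq_zero] at a2
      rw [EP_d5 (by decide) (by decide)] at a3
      rw [EP_d6 (by decide) (by decide)] at a4
      exact hp.sing (e0 h0) a1 a2 a3 a4
    have z1 : g 1 = 0 := by
      by_contra h0
      have g2 := x12 h0
      have g3 := x13 h0
      have hg2 : ∀ v, grad (EP p 3 2 1) x v = 0 := by
        intro v
        have := hg' v
        rw [z0, g2, g3, EP_symm 1 2 3] at this
        simp only [zero_mul, add_zero, zero_add] at this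
        exact (mul_eq_zero.mp this).resolve_left h0
      have a1 := hg2 (Sum.inl 1)
      have a2 := hg2 (Sum.inr 1)
      have a3 := hg2 (Sum.inl 2)
      have a4 := hg2 (Sum.inr 2)
      rw [EP_d3 (by decide) (by decide)] at a1
      rw [EP_d4 (by decide) (by decide), neg_eq_zero] at a2
      rw [EP_d5 (by decide) (by decide)] at a3
      rw [EP_d6 (by decide) (by decide)] at a4
      exact hp.sing (e1 h0) a1 a2 a3 a4
    have z2 : g 2 = 0 := by
      by_contra h0
      have g3 := x23 h0
      have hg2 : ∀ v, grad (EP q 4 1 2) x v = 0 := by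
        intro v
        have := hg' v
        rw [z0, z1, g3] at this
        simp only [zero_mul, add_zero, zero_add] at this
        exact (mul_eq_zero.mp this).resolve_left h0
      have a1 := hg2 (Sum.inl 2)
      have a2 := hg2 (Sum.inr 2)
      have a3 := hg2 (Sum.inl 1)
      have a4 := hg2 (Sum.inr 1)
      rw [EP_d3 (by decide) (by decide)] at a1
      rw [EP_d4 (by decide) (by decide), neg_eq_zero] at a2
      rw [EP_d5 (by decide) (by decide)] at a3
      rw [EP_d6 (by decide) (by decide)] at a4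
      exact hq.sing (e2 h0) a1 a2 a3 a4
    have z3 : g 3 = 0 := by
      by_contra h0
      have hg2 : ∀ v, grad (EP q 5 2 1) x v = 0 := by
        intro v
        have := hg' v
        rw [z0, z1, z2, EP_symm 1 2 5] at this
        simp only [zero_mul, add_zero, zero_add] at this
        exact (mul_eq_zero.mp this).resolve_left h0
      have a1 := hg2 (Sum.inl 1)
      have a2 := hg2 (Sum.inr 1)
      have a3 := hg2 (Sum.inl 2)
      have a4 := hg2 (Sum.inr 2)
      rw [EP_d3 (by decide) (by decide)] at a1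
      rw [EP_d4 (by decide) (by decide), neg_eq_zero] at a2
      rw [EP_d5 (by decide) (by decide)] at a3
      rw [EP_d6 (by decide) (by decide)] at a4
      exact hq.sing (e3 h0) a1 a2 a3 a4
    intro i
    fin_cases i
    · exact z0
    · exact z1
    · exact z2
    · exact z3

end Par

end Run7.h904
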