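import Pool.Agent.Run7.h904.Irr2
import Pool.Agent.Run7.h904.Per

/-! The two automorphisms as fourth iterates of plane maps; vocabulary of the final statement. -/

open OnePoint

namespace Run7.h904

/-- On the part of `X` over the torus, `f` is given by four steps of the recurrence
`u_{i+1} u_{i-1} = μ (u_i⁴ + α μ u_i² + μ²)/(u_i⁴ + β μ u_i² + μ²)`: if the second and third
coordinates of `x` are `u₀`, `u₁`, and `u₀, …, u₅` are nonzero complex numbers following the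
recurrence, then the second and third coordinates of `f x` are `u₄`, `u₅`. -/
def IsFourthIterate (p : Par) {X : Set (Pt 6)} (f : Equiv.Perm X) : Prop :=
  ∀ (x : X) (u : ℕ → ℂ), x.1 1 = (u 0 : P1) → x.1 2 = (u 1 : P1) → (∀ i < 6, u i ≠ 0) →
    (∀ i < 4, u i * u (i + 2) * (u (i + 1) ^ 4 + p.β * p.μ * u (i + 1) ^ 2 + p.μ ^ 2) =
      p.μ * (u (i + 1) ^ 4 + p.α * p.μ * u (i + 1) ^ 2 + p.μ ^ 2)) →
    (f x).1 1 = (u 4 : P1) ∧ (f x).1 2 = (u 5 : P1)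

/-- `x` is a periodic point of `f`. -/
def IsPeriodic {X : Type*} (f : Equiv.Perm X) (x : X) : Prop := ∃ k : ℕ, 0 < k ∧ (f ^ k) x = x

namespace Par

variable {p q : Par}

lemma nxt_four (hp : p.Good) {a b c d : P1} (h2 : p.Rel b c d) (u : ℕ → ℂ) (hb : b = (u 0 : P1))
    (hc : c = (u 1 : P1)) (h0 : ∀ i < 6, u i ≠ 0)
    (hr : ∀ i < 4, u i * u (i + 2) * (u (i + 1) ^ 4 + p.β * p.μ * u (i + 1) ^ 2 + p.μ ^ 2) =
      p.μ * (u (i + 1) ^ 4 + p.α * p.μ * u (i + 1) ^ 2 + p.μ ^ 2)) :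
    p.u4 a b c d = (u 4 : P1) ∧ p.u5 a b c d = (u 5 : P1) := by
  have step : ∀ i < 4, ∀ z : P1, p.nxt (u i : P1) (u (i + 1) : P1) z = (u (i + 2) : P1) := by
    intro i hi z
    apply nxt_of_not_ind _ (not_ind_coe hp (h0 i (by omega)))
    unfold Rel den num qf
    simp only [hx_coe, hy_coe]
    linear_combination hr i hi
  have e3 : d = (u 2 : P1) := by
    have h := step 0 (by norm_num) ∞
    rw [hb, hc] at h2
    rw [← nxt_of_not_ind (z := ∞) h2 (not_ind_coe hp (h0 0 (by norm_num)))]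
    exact h
  have f3 : p.u3 a b c d = (u 3 : P1) := by
    unfold u3
    rw [hc, e3]
    exact step 1 (by norm_num) _
  have f4 : p.u4 a b c d = (u 4 : P1) := by
    unfold u4
    rw [f3, e3]
    exact step 2 (by norm_num) _
  refine ⟨f4, ?_⟩
  unfold u5
  rw [f3, f4]
  exact step 3 (by norm_num) _

lemma fourth_fX (hp : p.Good) (hq : q.Good) (hpq : Disj p q) :
    IsFourthIterate p (hp.fX hq hpq) := by
  intro x u h1 h2 h0 hr
  exact nxt_four hp x.2.2.1 u h1 h2 h0 hr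

lemma fourth_gX (hp : p.Good) (hq : q.Good) (hpq : Disj p q) :
    IsFourthIterate q (hp.gX hq hpq) := by
  intro x u h1 h2 h0 hr
  exact nxt_four hq x.2.2.2.2 u h1 h2 h0 hr

/-- disjointness from roots -/
lemma disj_of_roots {α β α' β' μ ν : ℂ} (hν : ν ≠ 0) (hνμ : ν ^ 2 = μ)
    (h : ∀ T : ℂ, (T ^ 4 + α' * T ^ 2 + 1 = 0 ∨ T ^ 4 + β' * T ^ 2 + 1 = 0) →
        ∀ t : ℂ, (t ^ 4 + α * t ^ 2 + 1 = 0 ∨ t ^ 4 + β * t ^ 2 + 1 = 0) → t ≠ ν * T) :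
    Disj ⟨α, β, 1⟩ ⟨α', β', μ⟩ := by
  intro t ht
  unfold Nn Mm qf at *
  simp only [one_pow, mul_one] at *
  have hT : ∀ γ : ℂ, t ^ 4 + γ * μ * t ^ 2 + μ ^ 2 = 0 → (t / ν) ^ 4 + γ * (t / ν) ^ 2 + 1 = 0 := by
    intro γ hγ
    rw [← hνμ] at hγ
    field_simp
    linear_combination hγ
  have hT' := h (t / ν) (by
    rcases ht with ht | ht
    · exact Or.inl (hT _ ht)
    · exact Or.inr (hT _ ht)) t
  rw [mul_div_cancel₀ _ hν] at hT'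
  constructor
  · intro h0
    exact hT' (Or.inl h0) rfl
  · intro h0
    exact hT' (Or.inr h0) rfl

/-- The main theorem on pairs with large scaling. -/
theorem main_scaled {α β α' β' : ℂ} (hα : IsAlgebraic ℚ α) (hβ : IsAlgebraic ℚ β)
    (hα' : IsAlgebraic ℚ α') (hβ' : IsAlgebraic ℚ β') (hne : α ≠ β) (hne' : α' ≠ β')
    (h1 : α ^ 2 ≠ 4) (h2 : β ^ 2 ≠ 4) (h3 : α' ^ 2 ≠ 4) (h4 : β' ^ 2 ≠ 4) :
    ∃ C : ℝ, ∀ μ : ℂ, μ ≠ 0 → HeightGt C μ →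
      IsSmoothSurface (surfX ⟨α, β, 1⟩ ⟨α', β', μ⟩) ∧ IsIrred (surfX ⟨α, β, 1⟩ ⟨α', β', μ⟩) ∧
      ∃ f g : Equiv.Perm (surfX ⟨α, β, 1⟩ ⟨α', β', μ⟩),
        IsAutomorphism _ f ∧ IsAutomorphism _ g ∧
        IsFourthIterate ⟨α, β, 1⟩ f ∧ IsFourthIterate ⟨α', β', μ⟩ g ∧
        IsLoxodromic _ f ∧ IsLoxodromic _ g ∧
        (∀ m n : ℤ, m ≠ 0 → f ^ m ≠ g ^ n) ∧
        (∀ x, IsPeriodic f x → IsPeriodic g x →
          x.1 1 = ((0 : ℂ) : P1) ∨ x.1 1 = ∞ ∨ x.1 2 = ((0 : ℂ) : P1) ∨ x.1 2 = ∞) ∧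
        ¬ IsZariskiDense (surfX ⟨α, β, 1⟩ ⟨α', β', μ⟩)
          {y | ∃ x, x.1 = y ∧ IsPeriodic f x ∧ IsPeriodic g x} := by
  obtain ⟨C1, hC1, k1⟩ := no_common hα hβ hα' hβ' hne hne'
  obtain ⟨C2, hC2, k2⟩ := disj_bound hα hβ hα' hβ'
  refine ⟨max C1 C2, fun μ hμ hgt => ?_⟩
  have g1 := hgt.mono (le_max_left C1 C2)
  have g2 := hgt.mono (le_max_right C1 C2)
  have hp : Sm ⟨α, β, 1⟩ := ⟨⟨hne, one_ne_zero⟩, h1, h2⟩
  have hq : Sm ⟨α', β', μ⟩ := ⟨⟨hne', hμ⟩, h3, h4⟩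
  obtain ⟨ν, hνμ⟩ : ∃ ν : ℂ, ν ^ 2 = μ := IsAlgClosed.exists_pow_nat_eq μ two_pos
  have hν : ν ≠ 0 := by
    rintro rfl
    apply hμ
    rw [← hνμ]; ring
  have hpq : Disj ⟨α, β, 1⟩ ⟨α', β', μ⟩ := disj_of_roots hν hνμ (k2 μ ν hν hνμ g2)
  have hper := k1 μ g1 hp.toGood hq.toGood hpq
  refine ⟨hp.isSmoothSurface hq hpq, isIrred_surfX hp.toGood hq.toGood hpq,
    hp.toGood.fX hq.toGood hpq, hp.toGood.gX hq.toGood hpq, hp.toGood.isAut_fX hq.toGood hpq,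
    hp.toGood.isAut_gX hq.toGood hpq, fourth_fX _ _ _, fourth_gX _ _ _,
    hp.toGood.lox_fX hq.toGood hpq, hp.toGood.lox_gX hq.toGood hpq,
    hp.toGood.pow_ne hq.toGood hpq, ?_, ?_⟩
  · intro x hf hg
    have := hper x hf hg
    rw [mul_eq_zero, mul_eq_zero, mul_eq_zero, hx_eq_zero_iff, hy_eq_zero_iff, hx_eq_zero_iff,
      hy_eq_zero_iff] at this
    tauto
  · intro hd
    apply not_subset_bd hp.toGood hq.toGood
    apply hd _ closed_bd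
    rintro _ ⟨x, rfl, hf, hg⟩
    exact hper x hf hg

end Par

end Run7.h904
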