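import Pool.Agent.Run7.h904.Geo5

/-! The surface and its automorphisms. -/

open OnePoint MvPolynomial

namespace Run7.h904

/-- The surface `X ⊂ (ℙ¹)⁶` with coordinates `(a,b,c,d,a',d')`. -/
def surfX (p q : Par) : Set (Pt 6) :=
  {x | p.Rel (x 0) (x 1) (x 2) ∧ p.Rel (x 1) (x 2) (x 3) ∧
    q.Rel (x 4) (x 1) (x 2) ∧ q.Rel (x 1) (x 2) (x 5)}

namespace Par

variable {p q : Par}

lemma Disj.symm (h : Disj p q) : Disj q p := by
  intro t ht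
  have := h t
  tauto

lemma Good.extra_back (hp : p.Good) (hq : q.Good) (hpq : Disj p q) {a b c d a' : P1}
    (h1 : p.Rel a b c) (h2 : p.Rel b c d) (h3 : q.Rel a' b c) :
    q.nxt c b (q.nxt (p.u5 a b c d) (p.u4 a b c d) a') = a' := by
  by_cases hi : q.Ind c b
  · obtain ⟨-, e4, e5, -⟩ := hp.fix_of_ind hq hpq h1 h2 (Or.inl hi)
    rw [e4, e5, nxt_of_ind hi, nxt_of_ind hi]
  · exact nxt_of_not_ind h3.symm hi

lemma Good.extra_back' (hp : p.Good) (hq : q.Good) (hpq : Disj p q) {a b c d d' : P1}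
    (h1 : p.Rel a b c) (h2 : p.Rel b c d) (h3 : q.Rel b c d') :
    q.nxt b c (q.nxt (p.u4 a b c d) (p.u5 a b c d) d') = d' := by
  by_cases hi : q.Ind b c
  · obtain ⟨-, e4, e5, -⟩ := hp.fix_of_ind hq hpq h1 h2 (Or.inr hi)
    rw [e4, e5, nxt_of_ind hi, nxt_of_ind hi]
  · exact nxt_of_not_ind h3 hi

/-- the fourth power of the shift, on `X` -/
noncomputable def Good.fX (hp : p.Good) (hq : q.Good) (hpq : Disj p q) :
    Equiv.Perm (surfX p q) where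
  toFun x := ⟨![p.u3 (x.1 0) (x.1 1) (x.1 2) (x.1 3), p.u4 (x.1 0) (x.1 1) (x.1 2) (x.1 3),
      p.u5 (x.1 0) (x.1 1) (x.1 2) (x.1 3), p.u6 (x.1 0) (x.1 1) (x.1 2) (x.1 3),
      q.nxt (p.u5 (x.1 0) (x.1 1) (x.1 2) (x.1 3)) (p.u4 (x.1 0) (x.1 1) (x.1 2) (x.1 3)) (x.1 4),
      q.nxt (p.u4 (x.1 0) (x.1 1) (x.1 2) (x.1 3)) (p.u5 (x.1 0) (x.1 1) (x.1 2) (x.1 3)) (x.1 5)],
    ⟨hp.rel5 _ _ _ _, hp.rel6 _ _ _ _, (hq.nxt_rel _ _ _).symm, hq.nxt_rel _ _ _⟩⟩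
  invFun x := ⟨![p.u6 (x.1 3) (x.1 2) (x.1 1) (x.1 0), p.u5 (x.1 3) (x.1 2) (x.1 1) (x.1 0),
      p.u4 (x.1 3) (x.1 2) (x.1 1) (x.1 0), p.u3 (x.1 3) (x.1 2) (x.1 1) (x.1 0),
      q.nxt (p.u4 (x.1 3) (x.1 2) (x.1 1) (x.1 0)) (p.u5 (x.1 3) (x.1 2) (x.1 1) (x.1 0)) (x.1 4),
      q.nxt (p.u5 (x.1 3) (x.1 2) (x.1 1) (x.1 0)) (p.u4 (x.1 3) (x.1 2) (x.1 1) (x.1 0)) (x.1 5)],
    ⟨(hp.rel6 _ _ _ _).symm, (hp.rel5 _ _ _ _).symm, (hq.nxt_rel _ _ _).symm,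
      hq.nxt_rel _ _ _⟩⟩
  left_inv := by
    intro x
    apply Subtype.ext
    obtain ⟨h1, h2, h3, h4⟩ := x.2
    funext i
    fin_cases i
    · exact hp.back6 h1 h2
    · exact hp.back5 h2
    · exact hp.back4
    · exact hp.back3
    · show q.nxt (p.u4 (p.u6 (x.1 0) (x.1 1) (x.1 2) (x.1 3)) (p.u5 (x.1 0) (x.1 1) (x.1 2) (x.1 3))
        (p.u4 (x.1 0) (x.1 1) (x.1 2) (x.1 3)) (p.u3 (x.1 0) (x.1 1) (x.1 2) (x.1 3)))
        (p.u5 (p.u6 (x.1 0) (x.1 1) (x.1 2) (x.1 3)) (p.u5 (x.1 0) (x.1 1) (x.1 2) (x.1 3))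
        (p.u4 (x.1 0) (x.1 1) (x.1 2) (x.1 3)) (p.u3 (x.1 0) (x.1 1) (x.1 2) (x.1 3))) _ = x.1 4
      rw [hp.back4, hp.back5 h2]
      exact hp.extra_back hq hpq h1 h2 h3
    · show q.nxt (p.u5 (p.u6 (x.1 0) (x.1 1) (x.1 2) (x.1 3)) (p.u5 (x.1 0) (x.1 1) (x.1 2) (x.1 3))
        (p.u4 (x.1 0) (x.1 1) (x.1 2) (x.1 3)) (p.u3 (x.1 0) (x.1 1) (x.1 2) (x.1 3)))
        (p.u4 (p.u6 (x.1 0) (x.1 1) (x.1 2) (x.1 3)) (p.u5 (x.1 0) (x.1 1) (x.1 2) (x.1 3))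
        (p.u4 (x.1 0) (x.1 1) (x.1 2) (x.1 3)) (p.u3 (x.1 0) (x.1 1) (x.1 2) (x.1 3))) _ = x.1 5
      rw [hp.back4, hp.back5 h2]
      exact hp.extra_back' hq hpq h1 h2 h4
  right_inv := by
    intro x
    apply Subtype.ext
    obtain ⟨h1, h2, h3, h4⟩ := x.2
    funext i
    fin_cases i
    · exact hp.back3
    · exact hp.back4
    · exact hp.back5 h1.symm
    · exact hp.back6 h2.symm h1.symm
    · show q.nxt (p.u5 (p.u6 (x.1 3) (x.1 2) (x.1 1) (x.1 0)) (p.u5 (x.1 3) (x.1 2) (x.1 1) (x.1 0))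
        (p.u4 (x.1 3) (x.1 2) (x.1 1) (x.1 0)) (p.u3 (x.1 3) (x.1 2) (x.1 1) (x.1 0)))
        (p.u4 (p.u6 (x.1 3) (x.1 2) (x.1 1) (x.1 0)) (p.u5 (x.1 3) (x.1 2) (x.1 1) (x.1 0))
        (p.u4 (x.1 3) (x.1 2) (x.1 1) (x.1 0)) (p.u3 (x.1 3) (x.1 2) (x.1 1) (x.1 0))) _ = x.1 4
      rw [hp.back4, hp.back5 h1.symm]
      exact hp.extra_back' hq hpq h2.symm h1.symm h3.symm
    · show q.nxt (p.u4 (p.u6 (x.1 3) (x.1 2) (x.1 1) (x.1 0)) (p.u5 (x.1 3) (x.1 2) (x.1 1) (x.1 0))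
        (p.u4 (x.1 3) (x.1 2) (x.1 1) (x.1 0)) (p.u3 (x.1 3) (x.1 2) (x.1 1) (x.1 0)))
        (p.u5 (p.u6 (x.1 3) (x.1 2) (x.1 1) (x.1 0)) (p.u5 (x.1 3) (x.1 2) (x.1 1) (x.1 0))
        (p.u4 (x.1 3) (x.1 2) (x.1 1) (x.1 0)) (p.u3 (x.1 3) (x.1 2) (x.1 1) (x.1 0))) _ = x.1 5
      rw [hp.back4, hp.back5 h1.symm]
      exact hp.extra_back hq hpq h2.symm h1.symm h4.symm

lemma Good.isAut_fX (hp : p.Good) (hq : q.Good) (hpq : Disj p q) :
    IsAutomorphism (surfX p q) (hp.fX hq hpq) := by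
  have c : ∀ (x : surfX p q) (i : Fin 6), RegP x (fun z : surfX p q => z.1 i) :=
    fun x i => RegP.coord x i
  have h1 : ∀ z : surfX p q, p.Rel (z.1 0) (z.1 1) (z.1 2) := fun z => z.2.1
  have h2 : ∀ z : surfX p q, p.Rel (z.1 1) (z.1 2) (z.1 3) := fun z => z.2.2.1
  have h3 : ∀ z : surfX p q, q.Rel (z.1 4) (z.1 1) (z.1 2) := fun z => z.2.2.2.1
  have h4 : ∀ z : surfX p q, q.Rel (z.1 1) (z.1 2) (z.1 5) := fun z => z.2.2.2.2
  constructor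
  · intro i
    rw [isRegular_iff]
    intro x
    have r3 : RegP x (fun z : surfX p q => p.u3 (z.1 0) (z.1 1) (z.1 2) (z.1 3)) :=
      RegP.nxt hp (c x 0) (c x 1) (c x 2) (c x 3) h1 h2
    have r4 : RegP x (fun z : surfX p q => p.u4 (z.1 0) (z.1 1) (z.1 2) (z.1 3)) :=
      RegP.nxt hp (c x 1) (c x 2) (c x 3) r3 h2 (fun z => hp.rel3 _ _ _ _)
    have r5 : RegP x (fun z : surfX p q => p.u5 (z.1 0) (z.1 1) (z.1 2) (z.1 3)) :=
      RegP.nxt hp (c x 2) (c x 3) r3 r4 (fun z => hp.rel3 _ _ _ _) (fun z => hp.rel4 _ _ _ _)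
    have r6 : RegP x (fun z : surfX p q => p.u6 (z.1 0) (z.1 1) (z.1 2) (z.1 3)) :=
      RegP.nxt hp (c x 3) r3 r4 r5 (fun z => hp.rel4 _ _ _ _) (fun z => hp.rel5 _ _ _ _)
    fin_cases i
    · exact r3
    · exact r4
    · exact r5
    · exact r6
    · exact RegP.extraC hp hq hpq (c x 0) (c x 1) (c x 2) (c x 3) (c x 4) h1 h2 h3
    · exact RegP.extraB hp hq hpq (c x 0) (c x 1) (c x 2) (c x 3) (c x 5) h1 h2 h4
  · intro i
    rw [isRegular_iff]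
    intro x
    have r3 : RegP x (fun z : surfX p q => p.u3 (z.1 3) (z.1 2) (z.1 1) (z.1 0)) :=
      RegP.nxt hp (c x 3) (c x 2) (c x 1) (c x 0) (fun z => (h2 z).symm) (fun z => (h1 z).symm)
    have r4 : RegP x (fun z : surfX p q => p.u4 (z.1 3) (z.1 2) (z.1 1) (z.1 0)) :=
      RegP.nxt hp (c x 2) (c x 1) (c x 0) r3 (fun z => (h1 z).symm) (fun z => hp.rel3 _ _ _ _)
    have r5 : RegP x (fun z : surfX p q => p.u5 (z.1 3) (z.1 2) (z.1 1) (z.1 0)) :=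
      RegP.nxt hp (c x 1) (c x 0) r3 r4 (fun z => hp.rel3 _ _ _ _) (fun z => hp.rel4 _ _ _ _)
    have r6 : RegP x (fun z : surfX p q => p.u6 (z.1 3) (z.1 2) (z.1 1) (z.1 0)) :=
      RegP.nxt hp (c x 0) r3 r4 r5 (fun z => hp.rel4 _ _ _ _) (fun z => hp.rel5 _ _ _ _)
    fin_cases i
    · exact r6
    · exact r5
    · exact r4
    · exact r3
    · exact RegP.extraB hp hq hpq (c x 3) (c x 2) (c x 1) (c x 0) (c x 4) (fun z => (h2 z).symm)
        (fun z => (h1 z).symm) (fun z => (h3 z).symm)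
    · exact RegP.extraC hp hq hpq (c x 3) (c x 2) (c x 1) (c x 0) (c x 5) (fun z => (h2 z).symm)
        (fun z => (h1 z).symm) (fun z => (h4 z).symm)

/-- exchanging the two parameter sets -/
def swapX (p q : Par) : surfX p q ≃ surfX q p where
  toFun x := ⟨![x.1 4, x.1 1, x.1 2, x.1 5, x.1 0, x.1 3], ⟨x.2.2.2.1, x.2.2.2.2, x.2.1, x.2.2.1⟩⟩
  invFun x := ⟨![x.1 4, x.1 1, x.1 2, x.1 5, x.1 0, x.1 3], ⟨x.2.2.2.1, x.2.2.2.2, x.2.1, x.2.2.1⟩⟩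
  left_inv := by intro x; apply Subtype.ext; funext i; fin_cases i <;> rfl
  right_inv := by intro x; apply Subtype.ext; funext i; fin_cases i <;> rfl

/-- the second automorphism -/
noncomputable def Good.gX (hp : p.Good) (hq : q.Good) (hpq : Disj p q) :
    Equiv.Perm (surfX p q) :=
  ((swapX p q).trans (hq.fX hp hpq.symm)).trans (swapX q p)

lemma regP_swap (x : surfX p q) (i : Fin 6) :
    RegP x (fun z : surfX p q => (swapX p q z).1 i) := by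
  fin_cases i
  · exact RegP.coord x 4
  · exact RegP.coord x 1
  · exact RegP.coord x 2
  · exact RegP.coord x 5
  · exact RegP.coord x 0
  · exact RegP.coord x 3

lemma isAut_conj {f : Equiv.Perm (surfX q p)} (hf : IsAutomorphism (surfX q p) f) :
    IsAutomorphism (surfX p q) (((swapX p q).trans f).trans (swapX q p)) := by
  constructor
  · intro i
    rw [isRegular_iff]
    intro x
    have key : ∀ j, RegP x (fun z : surfX p q => (f (swapX p q z)).1 j) := fun j =>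
      RegP.comp (Φ := swapX p q) (regP_swap x) (isRegular_iff.mp (hf.1 j) (swapX p q x))
    fin_cases i
    · exact key 4
    · exact key 1
    · exact key 2
    · exact key 5
    · exact key 0
    · exact key 3
  · intro i
    rw [isRegular_iff]
    intro x
    have key : ∀ j, RegP x (fun z : surfX p q => (f.symm (swapX p q z)).1 j) := fun j =>
      RegP.comp (Φ := swapX p q) (regP_swap x) (isRegular_iff.mp (hf.2 j) (swapX p q x))
    fin_cases i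
    · exact key 4
    · exact key 1
    · exact key 2
    · exact key 5
    · exact key 0
    · exact key 3

lemma Good.isAut_gX (hp : p.Good) (hq : q.Good) (hpq : Disj p q) :
    IsAutomorphism (surfX p q) (hp.gX hq hpq) :=
  isAut_conj (hq.isAut_fX hp hpq.symm)

end Par

end Run7.h904
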